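import Mathlib
set_option autoImplicit false
set_option maxRecDepth 100000
set_option synthInstance.maxHeartbeats 400000
set_option synthInstance.maxSize 8192
set_option maxHeartbeats 4000000
namespace Pool.Agent.H4CC

theorem card_filter_eq {E : Type} [Fintype E] [DecidableEq E] (F : Finset E) (p : E → Prop)
    [DecidablePred p] (l : List E) (hl : l.Nodup) (h : ∀ x, p x ↔ x ∈ l) :
    (F.filter p).card = (l.map (fun x => (decide (x ∈ F)).toNat)).sum := by
  have h1 : F.filter p = l.toFinset.filter (fun x => x ∈ F) := by
    ext x
    simp only [Finset.mem_filter, List.mem_toFinset, h x]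
    tauto
  rw [h1, Finset.card_filter, List.sum_toFinset _ hl]
  congr 1
  apply List.map_congr_left
  intro x _
  by_cases hx : x ∈ F <;> simp [hx]

theorem card_univ_filter {m : ℕ} (p : Fin m → Prop) [DecidablePred p] (b : Fin m → Bool)
    (h : ∀ i, p i ↔ b i = true) :
    (Finset.univ.filter p).card = ∑ i, (b i).toNat := by
  rw [Finset.card_filter]
  apply Finset.sum_congr rfl
  intro i _
  by_cases hx : p i
  · have := (h i).1 hx
    simp [hx, this]
  · have : b i = false := by
      cases hb : b i
      · rfl
      · exact absurd ((h i).2 hb) hx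
    simp [hx, this]

theorem foldr_xor (l : List Bool) : ((l.map Bool.toNat).sum % 2 == 1) = l.foldr xor false := by
  induction l with
  | nil => rfl
  | cons a t ih =>
    simp only [List.map_cons, List.sum_cons, List.foldr_cons, ← ih]
    rcases Nat.mod_two_eq_zero_or_one (t.map Bool.toNat).sum with h | h
    · cases a <;> simp [Nat.add_mod, h]
    · cases a <;> simp [Nat.add_mod, h]

def leL (C : List Bool) (w : List ℕ) : Bool := (List.zipWith (fun c a => !c || a != 0) C w).all id
def subL (w : List ℕ) (C : List Bool) : List ℕ := List.zipWith (fun a c => a - c.toNat) w C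
def pick (w : List ℕ) : ℕ :=
  if w.findIdx (· == 1) < w.length then w.findIdx (· == 1) else w.findIdx (· != 0)
def srch (CS : List (List Bool)) : ℕ → List ℕ → Bool
  | 0, _ => true
  | k+1, w => w.all (· == 0) ||
      CS.any (fun C => C.getD (pick w) false && (leL C w && srch CS k (subL w C)))

theorem pick_spec (w : List ℕ) (h : w.all (· == 0) = false) :
    pick w < w.length ∧ w.getD (pick w) 0 ≠ 0 := by
  unfold pick
  split_ifs with h1
  · refine ⟨h1, ?_⟩
    have h2 := List.findIdx_getElem (p := fun a : ℕ => a == 1) (xs := w) (w := h1)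
    have h3 : w[w.findIdx (· == 1)] = 1 := by simpa using h2
    rw [List.getD_eq_getElem _ _ h1, h3]
    decide
  · have h4 : w.findIdx (· != 0) < w.length := by
      rw [List.findIdx_lt_length]
      by_contra hc
      push Not at hc
      have : w.all (· == 0) = true := by
        rw [List.all_eq_true]
        intro x hx
        have := hc x hx
        simpa using this
      rw [this] at h
      exact absurd h (by decide)
    refine ⟨h4, ?_⟩
    have h2 := List.findIdx_getElem (p := fun a : ℕ => a != 0) (xs := w) (w := h4)
    rw [List.getD_eq_getElem _ _ h4]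
    simpa using h2

theorem srch_sound (CS : List (List Bool)) (hCS : ∀ C ∈ CS, C.length = 15) :
    ∀ (k : ℕ) (w : List ℕ) (L : List (List Bool)), w.length = 15 → (∀ C ∈ L, C ∈ CS) →
      (∀ x < 15, (L.map (fun C => (C.getD x false).toNat)).sum = w.getD x 0) →
      srch CS k w = true := by
  intro k
  induction k with
  | zero => intro w L _ _ _; rfl
  | succ k ih =>
    intro w L hw hL hs
    unfold srch
    cases hz : w.all (· == 0) with
    | true => rfl
    | false =>
      obtain ⟨hp1, hp2⟩ := pick_spec w hz
      rw [hw] at hp1
      have hex : ∃ C ∈ L, (C.getD (pick w) false) = true := by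
        by_contra hc
        push Not at hc
        apply hp2
        rw [← hs _ hp1]
        apply List.sum_eq_zero
        intro y hy
        rw [List.mem_map] at hy
        obtain ⟨C, hC, rfl⟩ := hy
        have := hc C hC
        cases hb : C.getD (pick w) false
        · rfl
        · exact absurd hb this
      obtain ⟨C, hC, hCp⟩ := hex
      have hlen : C.length = 15 := hCS C (hL C hC)
      have hperm : L.Perm (C :: L.erase C) := List.perm_cons_erase hC
      have hsum : ∀ x < 15, (C.getD x false).toNat +
          ((L.erase C).map (fun C => (C.getD x false).toNat)).sum = w.getD x 0 := by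
        intro x hx
        rw [← hs x hx, (hperm.map (fun C => (C.getD x false).toNat)).sum_eq]
        simp
      have hle : leL C w = true := by
        unfold leL
        rw [List.all_eq_true]
        intro b hb
        rw [List.mem_iff_getElem] at hb
        obtain ⟨i, hi, rfl⟩ := hb
        have hi' : i < 15 := by
          rw [List.length_zipWith, hlen, hw] at hi
          omega
        have h1 := hsum i hi'
        rw [List.getElem_zipWith]
        have hci : C.getD i false = C[i]'(by omega) := List.getD_eq_getElem _ _ (by omega)
        have hwi : w.getD i 0 = w[i]'(by omega) := List.getD_eq_getElem _ _ (by omega)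
        rw [hci, hwi] at h1
        cases hb : C[i]'(by omega)
        · simp
        · rw [hb] at h1
          have : w[i]'(by omega) ≠ 0 := by
            simp at h1
            omega
          simp [this]
      have hrec : srch CS k (subL w C) = true := by
        apply ih (subL w C) (L.erase C)
        · unfold subL
          rw [List.length_zipWith, hlen, hw]
          rfl
        · intro D hD
          exact hL D (List.mem_of_mem_erase hD)
        · intro x hx
          have h1 := hsum x hx
          have hlen2 : (subL w C).length = 15 := by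
            unfold subL
            rw [List.length_zipWith, hlen, hw]
            rfl
          rw [List.getD_eq_getElem _ _ (by omega)]
          unfold subL
          rw [List.getElem_zipWith]
          have hci : C.getD x false = C[x]'(by omega) := List.getD_eq_getElem _ _ (by omega)
          have hwi : w.getD x 0 = w[x]'(by omega) := List.getD_eq_getElem _ _ (by omega)
          rw [hci, hwi] at h1
          omega
      simp only [Bool.false_or]
      rw [List.any_eq_true]
      exact ⟨C, hL C hC, by rw [hCp, hle, hrec]; rfl⟩

def CS0 : List (List Bool) := [[false,false,false,false,false,false,false,false,false,false,false,false,false,false,false],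
  [true,true,true,true,true,false,false,false,false,false,false,false,false,false,false],
  [false,false,false,false,false,true,true,true,true,true,false,false,false,false,false],
  [true,true,true,true,true,true,true,true,true,true,false,false,false,false,false],
  [true,false,false,false,false,true,true,true,false,false,true,true,false,false,false],
  [false,true,true,true,true,true,true,true,false,false,true,true,false,false,false],
  [true,false,false,false,false,false,false,false,true,true,true,true,false,false,false],
  [false,true,true,true,true,false,false,false,true,true,true,true,false,false,false],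
  [true,true,false,false,false,true,false,false,false,false,true,false,true,false,false],
  [false,false,true,true,true,true,false,false,false,false,true,false,true,false,false],
  [true,true,false,false,false,false,true,true,true,true,true,false,true,false,false],
  [false,false,true,true,true,false,true,true,true,true,true,false,true,false,false],
  [false,true,false,false,false,false,true,true,false,false,false,true,true,false,false],
  [true,false,true,true,true,false,true,true,false,false,false,true,true,false,false],
  [false,true,false,false,false,true,false,false,true,true,false,true,true,false,false],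
  [true,false,true,true,true,true,false,false,true,true,false,true,true,false,false],
  [true,true,true,false,false,true,true,true,true,false,true,false,false,true,false],
  [false,false,false,true,true,true,true,true,true,false,true,false,false,true,false],
  [true,true,true,false,false,false,false,false,false,true,true,false,false,true,false],
  [false,false,false,true,true,false,false,false,false,true,true,false,false,true,false],
  [false,true,true,false,false,false,false,false,true,false,false,true,false,true,false],
  [true,false,false,true,true,false,false,false,true,false,false,true,false,true,false],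
  [false,true,true,false,false,true,true,true,false,true,false,true,false,true,false],
  [true,false,false,true,true,true,true,true,false,true,false,true,false,true,false],
  [false,false,true,false,false,false,true,true,true,false,false,false,true,true,false],
  [true,true,false,true,true,false,true,true,true,false,false,false,true,true,false],
  [false,false,true,false,false,true,false,false,false,true,false,false,true,true,false],
  [true,true,false,true,true,true,false,false,false,true,false,false,true,true,false],
  [true,false,true,false,false,true,false,false,true,false,true,true,true,true,false],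
  [false,true,false,true,true,true,false,false,true,false,true,true,true,true,false],
  [true,false,true,false,false,false,true,true,false,true,true,true,true,true,false],
  [false,true,false,true,true,false,true,true,false,true,true,true,true,true,false],
  [true,true,true,true,false,true,true,false,false,false,true,false,false,false,true],
  [false,false,false,false,true,true,true,false,false,false,true,false,false,false,true],
  [true,true,true,true,false,false,false,true,true,true,true,false,false,false,true],
  [false,false,false,false,true,false,false,true,true,true,true,false,false,false,true],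
  [false,true,true,true,false,false,false,true,false,false,false,true,false,false,true],
  [true,false,false,false,true,false,false,true,false,false,false,true,false,false,true],
  [false,true,true,true,false,true,true,false,true,true,false,true,false,false,true],
  [true,false,false,false,true,true,true,false,true,true,false,true,false,false,true],
  [false,false,true,true,false,false,true,false,false,false,false,false,true,false,true],
  [true,true,false,false,true,false,true,false,false,false,false,false,true,false,true],
  [false,false,true,true,false,true,false,true,true,true,false,false,true,false,true],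
  [true,true,false,false,true,true,false,true,true,true,false,false,true,false,true],
  [true,false,true,true,false,true,false,true,false,false,true,true,true,false,true],
  [false,true,false,false,true,true,false,true,false,false,true,true,true,false,true],
  [true,false,true,true,false,false,true,false,true,true,true,true,true,false,true],
  [false,true,false,false,true,false,true,false,true,true,true,true,true,false,true],
  [false,false,false,true,false,false,false,true,true,false,false,false,false,true,true],
  [true,true,true,false,true,false,false,true,true,false,false,false,false,true,true],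
  [false,false,false,true,false,true,true,false,false,true,false,false,false,true,true],
  [true,true,true,false,true,true,true,false,false,true,false,false,false,true,true],
  [true,false,false,true,false,true,true,false,true,false,true,true,false,true,true],
  [false,true,true,false,true,true,true,false,true,false,true,true,false,true,true],
  [true,false,false,true,false,false,false,true,false,true,true,true,false,true,true],
  [false,true,true,false,true,false,false,true,false,true,true,true,false,true,true],
  [true,true,false,true,false,true,false,true,true,false,true,false,true,true,true],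
  [false,false,true,false,true,true,false,true,true,false,true,false,true,true,true],
  [true,true,false,true,false,false,true,false,false,true,true,false,true,true,true],
  [false,false,true,false,true,false,true,false,false,true,true,false,true,true,true],
  [false,true,false,true,false,false,true,false,true,false,false,true,true,true,true],
  [true,false,true,false,true,false,true,false,true,false,false,true,true,true,true],
  [false,true,false,true,false,true,false,true,false,true,false,true,true,true,true],
  [true,false,true,false,true,true,false,true,false,true,false,true,true,true,true]]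

theorem CS0_len : ∀ C ∈ CS0, C.length = 15 := by decide +kernel

theorem srch_fam {m : ℕ} (y : Fin m → List Bool) (hy : ∀ j, y j ∈ CS0) (w : List ℕ)
    (hw : w.length = 15) (hs : ∀ x < 15, ∑ j, ((y j).getD x false).toNat = w.getD x 0) (k : ℕ) :
    srch CS0 k w = true := by
  apply srch_sound CS0 CS0_len k w ((List.finRange m).map y) hw
  · intro C hC
    rw [List.mem_map] at hC
    obtain ⟨j, _, rfl⟩ := hC
    exact hy j
  · intro x hx
    rw [← hs x hx, Fin.sum_univ_def, List.map_map]
    rfl

def wA : List ℕ := [1,1,1,1,1,1,1,1,1,1,2,2,2,2,2]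
def wB : List ℕ := [3,1,3,1,1,3,1,1,3,1,2,2,2,2,2]
theorem srchA : srch CS0 40 wA = false := by decide +kernel
theorem srchB : srch CS0 40 wB = false := by decide +kernel

theorem memCS : ∀ b0 b4 b10 : Bool, (b0 ^^ (b4 ^^ (b10 ^^ false))) = false → ∀ b1 b11 : Bool, (b0 ^^ (b1 ^^ (b11 ^^ false))) = false → ∀ b2 b12 : Bool, (b1 ^^ (b2 ^^ (b12 ^^ false))) = false → ∀ b3 b13 : Bool, (b2 ^^ (b3 ^^ (b13 ^^ false))) = false → ∀ b14 : Bool, (b3 ^^ (b4 ^^ (b14 ^^ false))) = false → ∀ b5 b9 : Bool, (b5 ^^ (b9 ^^ (b10 ^^ false))) = false → ∀ b6 : Bool, (b5 ^^ (b6 ^^ (b12 ^^ false))) = false → ∀ b7 : Bool, (b6 ^^ (b7 ^^ (b14 ^^ false))) = false → ∀ b8 : Bool, (b7 ^^ (b8 ^^ (b11 ^^ false))) = false → (b8 ^^ (b9 ^^ (b13 ^^ false))) = false → [b0, b1, b2, b3, b4, b5, b6, b7, b8, b9, b10, b11, b12, b13, b14] ∈ CS0 := by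
  decide +kernel

theorem gadCS : ∀ b1 b2 b12 : Bool, (b1 ^^ (b2 ^^ (b12 ^^ false))) = false → ∀ b3 b13 : Bool, (b2 ^^ (b3 ^^ (b13 ^^ false))) = false → ∀ b4 b14 : Bool, (b3 ^^ (b4 ^^ (b14 ^^ false))) = false → ∀ b5 b9 b10 : Bool, (b5 ^^ (b9 ^^ (b10 ^^ false))) = false → ∀ b6 : Bool, (b5 ^^ (b6 ^^ (b12 ^^ false))) = false → ∀ b7 : Bool, (b6 ^^ (b7 ^^ (b14 ^^ false))) = false → ∀ b8 b11 : Bool, (b7 ^^ (b8 ^^ (b11 ^^ false))) = false → (b8 ^^ (b9 ^^ (b13 ^^ false))) = false → ([(b4 ^^ b10), b1, b2, b3, b4, b5, b6, b7, b8, b9, b10, b11, b12, b13, b14] ∈ CS0 ∧ (b1 ^^ b11) = (b4 ^^ b10)) := by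
  decide +kernel

def eaL : List (Fin 42) := [1,3,4,7,9,8,0,1,2,3,4,1,10,11,12,13,15,17,14,16,0,1,10,11,12,3,18,19,20,21,23,25,22,24,2,3,18,19,20,7,26,27,28,29,31,33,30,32,5,7,26,27,28,8,34,35,36,37,39,41,38,40,6,8,34,35,36]

def ebL : List (Fin 42) := [2,4,0,9,6,5,5,6,7,8,9,10,11,12,0,15,17,14,16,13,13,14,15,16,17,18,19,20,2,23,25,22,24,21,21,22,23,24,25,26,27,28,5,31,33,30,32,29,29,30,31,32,33,34,35,36,6,39,41,38,40,37,37,38,39,40,41]

def ea (x : Fin 67) : Fin 42 := eaL.getD x.val 0
def eb (x : Fin 67) : Fin 42 := ebL.getD x.val 0

def ends (x : Fin 67) : Sym2 (Fin 42) := s(ea x, eb x)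

def IncT : List (List (Fin 67)) := [[2,6,14,20],[0,7,11,21],[0,8,28,34],[1,9,25,35],[1,2,10],[5,6,42,48],[4,7,56,62],[3,8,39,49],[5,9,53,63],[3,4,10],[11,12,22],[12,13,23],[13,14,24],[15,19,20],[17,18,21],[15,16,22],[18,19,23],[16,17,24],[25,26,36],[26,27,37],[27,28,38],[29,33,34],[31,32,35],[29,30,36],[32,33,37],[30,31,38],[39,40,50],[40,41,51],[41,42,52],[43,47,48],[45,46,49],[43,44,50],[46,47,51],[44,45,52],[53,54,64],[54,55,65],[55,56,66],[57,61,62],[59,60,63],[57,58,64],[60,61,65],[58,59,66]]

def Inc (v : Fin 42) : List (Fin 67) := IncT.getD v.val []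

theorem inc_iff : ∀ (v : Fin 42) (x : Fin 67), ((v = ea x ∨ v = eb x) ∧ ¬ (ea x = eb x)) ↔ x ∈ Inc v := by
  decide +kernel
theorem inc_nodup : ∀ v : Fin 42, (Inc v).Nodup := by decide +kernel

theorem mem_ends (v : Fin 42) (x : Fin 67) : (v ∈ ends x ∧ ¬ (ends x).IsDiag) ↔ x ∈ Inc v := by
  rw [← inc_iff v x]
  unfold ends
  rw [Sym2.mem_iff, Sym2.mk_isDiag_iff]

theorem even_iff (F : Finset (Fin 67)) (v : Fin 42) [DecidablePred (fun x => v ∈ ends x ∧ ¬ (ends x).IsDiag)] :
    Even ((F.filter (fun x => v ∈ ends x ∧ ¬ (ends x).IsDiag)).card) ↔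
      ((Inc v).map (fun x => decide (x ∈ F))).foldr xor false = false := by
  rw [card_filter_eq F _ (Inc v) (inc_nodup v) (mem_ends v), ← foldr_xor, List.map_map, Nat.even_iff]
  have : (Bool.toNat ∘ fun x => decide (x ∈ F)) = fun x => (decide (x ∈ F)).toNat := rfl
  rw [this]
  generalize ((Inc v).map (fun x => (decide (x ∈ F)).toNat)).sum = n
  rcases Nat.mod_two_eq_zero_or_one n with h | h <;> simp [h]

def gad0 (c : Fin 67 → Bool) : List Bool := [(c 14 ^^ c 20), c 11, c 12, c 13, c 14, c 15, c 16, c 17, c 18, c 19, c 20, c 21, c 22, c 23, c 24]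

def gad1 (c : Fin 67 → Bool) : List Bool := [(c 28 ^^ c 34), c 25, c 26, c 27, c 28, c 29, c 30, c 31, c 32, c 33, c 34, c 35, c 36, c 37, c 38]

def gad2 (c : Fin 67 → Bool) : List Bool := [(c 42 ^^ c 48), c 39, c 40, c 41, c 42, c 43, c 44, c 45, c 46, c 47, c 48, c 49, c 50, c 51, c 52]

def gad3 (c : Fin 67 → Bool) : List Bool := [(c 56 ^^ c 62), c 53, c 54, c 55, c 56, c 57, c 58, c 59, c 60, c 61, c 62, c 63, c 64, c 65, c 66]

def mainL (c : Fin 67 → Bool) : List Bool := [(c 14 ^^ c 20), c 0, (c 28 ^^ c 34), c 1, c 2, (c 42 ^^ c 48), c 3, c 4, (c 56 ^^ c 62), c 5, c 6, c 7, c 8, c 9, c 10]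

theorem gad0_mem (c : Fin 67 → Bool) (hp : ∀ v, ((Inc v).map c).foldr xor false = false) :
    gad0 c ∈ CS0 ∧ (c 11 ^^ c 21) = (c 14 ^^ c 20) :=
  gadCS (c 11) (c 12) (c 22) (hp 10) (c 13) (c 23) (hp 11) (c 14) (c 24) (hp 12) (c 15) (c 19) (c 20) (hp 13) (c 16) (hp 15) (c 17) (hp 17) (c 18) (c 21) (hp 14) (hp 16)

theorem gad1_mem (c : Fin 67 → Bool) (hp : ∀ v, ((Inc v).map c).foldr xor false = false) :
    gad1 c ∈ CS0 ∧ (c 25 ^^ c 35) = (c 28 ^^ c 34) :=
  gadCS (c 25) (c 26) (c 36) (hp 18) (c 27) (c 37) (hp 19) (c 28) (c 38) (hp 20) (c 29) (c 33) (c 34) (hp 21) (c 30) (hp 23) (c 31) (hp 25) (c 32) (c 35) (hp 22) (hp 24)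

theorem gad2_mem (c : Fin 67 → Bool) (hp : ∀ v, ((Inc v).map c).foldr xor false = false) :
    gad2 c ∈ CS0 ∧ (c 39 ^^ c 49) = (c 42 ^^ c 48) :=
  gadCS (c 39) (c 40) (c 50) (hp 26) (c 41) (c 51) (hp 27) (c 42) (c 52) (hp 28) (c 43) (c 47) (c 48) (hp 29) (c 44) (hp 31) (c 45) (hp 33) (c 46) (c 49) (hp 30) (hp 32)

theorem gad3_mem (c : Fin 67 → Bool) (hp : ∀ v, ((Inc v).map c).foldr xor false = false) :
    gad3 c ∈ CS0 ∧ (c 53 ^^ c 63) = (c 56 ^^ c 62) :=
  gadCS (c 53) (c 54) (c 64) (hp 34) (c 55) (c 65) (hp 35) (c 56) (c 66) (hp 36) (c 57) (c 61) (c 62) (hp 37) (c 58) (hp 39) (c 59) (hp 41) (c 60) (c 63) (hp 38) (hp 40)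

theorem mainL_mem (c : Fin 67 → Bool) (hp : ∀ v, ((Inc v).map c).foldr xor false = false) :
    mainL c ∈ CS0 := by
  have q0 : (c 2 ^^ (c 6 ^^ (c 14 ^^ (c 20 ^^ false)))) = false := hp 0
  have hv0 : ((c 14 ^^ c 20) ^^ (c 2 ^^ (c 6 ^^ false))) = false := by
    revert q0
    generalize c 2 = z2
    generalize c 6 = z6
    generalize c 14 = z14
    generalize c 20 = z20
    revert z2 z6 z14 z20
    decide
  have q1 : (c 0 ^^ (c 7 ^^ (c 11 ^^ (c 21 ^^ false)))) = false := hp 1
  have hv1 : ((c 14 ^^ c 20) ^^ (c 0 ^^ (c 7 ^^ false))) = false := by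
    have g := (gad0_mem c hp).2
    revert q1 g
    generalize c 0 = z0
    generalize c 7 = z7
    generalize c 11 = z11
    generalize c 14 = z14
    generalize c 20 = z20
    generalize c 21 = z21
    revert z0 z7 z11 z14 z20 z21
    decide
  have q2 : (c 0 ^^ (c 8 ^^ (c 28 ^^ (c 34 ^^ false)))) = false := hp 2
  have hv2 : (c 0 ^^ ((c 28 ^^ c 34) ^^ (c 8 ^^ false))) = false := by
    revert q2
    generalize c 0 = z0
    generalize c 8 = z8
    generalize c 28 = z28
    generalize c 34 = z34
    revert z0 z8 z28 z34
    decide
  have q3 : (c 1 ^^ (c 9 ^^ (c 25 ^^ (c 35 ^^ false)))) = false := hp 3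
  have hv3 : ((c 28 ^^ c 34) ^^ (c 1 ^^ (c 9 ^^ false))) = false := by
    have g := (gad1_mem c hp).2
    revert q3 g
    generalize c 1 = z1
    generalize c 9 = z9
    generalize c 25 = z25
    generalize c 28 = z28
    generalize c 34 = z34
    generalize c 35 = z35
    revert z1 z9 z25 z28 z34 z35
    decide
  have q4 : (c 1 ^^ (c 2 ^^ (c 10 ^^ false))) = false := hp 4
  have hv4 : (c 1 ^^ (c 2 ^^ (c 10 ^^ false))) = false := q4
  have q5 : (c 5 ^^ (c 6 ^^ (c 42 ^^ (c 48 ^^ false)))) = false := hp 5
  have hv5 : ((c 42 ^^ c 48) ^^ (c 5 ^^ (c 6 ^^ false))) = false := by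
    revert q5
    generalize c 5 = z5
    generalize c 6 = z6
    generalize c 42 = z42
    generalize c 48 = z48
    revert z5 z6 z42 z48
    decide
  have q7 : (c 3 ^^ (c 8 ^^ (c 39 ^^ (c 49 ^^ false)))) = false := hp 7
  have hv7 : ((c 42 ^^ c 48) ^^ (c 3 ^^ (c 8 ^^ false))) = false := by
    have g := (gad2_mem c hp).2
    revert q7 g
    generalize c 3 = z3
    generalize c 8 = z8
    generalize c 39 = z39
    generalize c 42 = z42
    generalize c 48 = z48
    generalize c 49 = z49
    revert z3 z8 z39 z42 z48 z49
    decide
  have q9 : (c 3 ^^ (c 4 ^^ (c 10 ^^ false))) = false := hp 9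
  have hv9 : (c 3 ^^ (c 4 ^^ (c 10 ^^ false))) = false := q9
  have q6 : (c 4 ^^ (c 7 ^^ (c 56 ^^ (c 62 ^^ false)))) = false := hp 6
  have hv6 : (c 4 ^^ ((c 56 ^^ c 62) ^^ (c 7 ^^ false))) = false := by
    revert q6
    generalize c 4 = z4
    generalize c 7 = z7
    generalize c 56 = z56
    generalize c 62 = z62
    revert z4 z7 z56 z62
    decide
  have q8 : (c 5 ^^ (c 9 ^^ (c 53 ^^ (c 63 ^^ false)))) = false := hp 8
  have hv8 : ((c 56 ^^ c 62) ^^ (c 5 ^^ (c 9 ^^ false))) = false := by
    have g := (gad3_mem c hp).2
    revert q8 g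
    generalize c 5 = z5
    generalize c 9 = z9
    generalize c 53 = z53
    generalize c 56 = z56
    generalize c 62 = z62
    generalize c 63 = z63
    revert z5 z9 z53 z56 z62 z63
    decide
  exact memCS (c 14 ^^ c 20) (c 2) (c 6) hv0 (c 0) (c 7) hv1 (c 28 ^^ c 34) (c 8) hv2 (c 1) (c 9) hv3 (c 10) hv4 (c 42 ^^ c 48) (c 5) hv5 (c 3) hv7 (c 4) hv9 (c 56 ^^ c 62) hv6 hv8

def wtL : List ℕ := [1,1,1,1,1,1,2,2,2,2,2,1,1,1,1,1,1,1,1,1,2,2,2,2,2,1,1,1,1,1,1,1,1,1,2,2,2,2,2,1,1,1,1,1,1,1,1,1,2,2,2,2,2,1,1,1,1,1,1,1,1,1,2,2,2,2,2]

theorem xor_nat (a b : Bool) : (a ^^ b).toNat + 2 * (a && b).toNat = a.toNat + b.toNat := by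
  cases a <;> cases b <;> rfl

theorem key {m : ℕ} (F : Fin m → Fin 67 → Bool)
    (hp : ∀ j v, ((Inc v).map (F j)).foldr xor false = false)
    (hc : ∀ x : Fin 67, ∑ j, (F j x).toNat = wtL.getD x.val 0) : False := by

  have T0 : ∑ j, (F j 14 ^^ F j 20).toNat = 3 := by
    have h1 : ∑ j, (F j 14 ^^ F j 20).toNat + 2 * ∑ j, (F j 14 && F j 20).toNat = 3 := by
      rw [Finset.mul_sum, ← Finset.sum_add_distrib, Finset.sum_congr rfl (fun j _ => xor_nat _ _),
        Finset.sum_add_distrib, hc 14, hc 20]
      rfl
    by_contra hne
    have h2 : ∑ j, (F j 14 ^^ F j 20).toNat = 1 := by omega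
    have h3 := srch_fam (fun j => gad0 (F j)) (fun j => (gad0_mem (F j) (hp j)).1) wA rfl (by
      intro x hx
      interval_cases x
      · exact h2
      · exact hc 11
      · exact hc 12
      · exact hc 13
      · exact hc 14
      · exact hc 15
      · exact hc 16
      · exact hc 17
      · exact hc 18
      · exact hc 19
      · exact hc 20
      · exact hc 21
      · exact hc 22
      · exact hc 23
      · exact hc 24) 40
    rw [srchA] at h3
    exact absurd h3 (by decide)

  have T1 : ∑ j, (F j 28 ^^ F j 34).toNat = 3 := by
    have h1 : ∑ j, (F j 28 ^^ F j 34).toNat + 2 * ∑ j, (F j 28 && F j 34).toNat = 3 := by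
      rw [Finset.mul_sum, ← Finset.sum_add_distrib, Finset.sum_congr rfl (fun j _ => xor_nat _ _),
        Finset.sum_add_distrib, hc 28, hc 34]
      rfl
    by_contra hne
    have h2 : ∑ j, (F j 28 ^^ F j 34).toNat = 1 := by omega
    have h3 := srch_fam (fun j => gad1 (F j)) (fun j => (gad1_mem (F j) (hp j)).1) wA rfl (by
      intro x hx
      interval_cases x
      · exact h2
      · exact hc 25
      · exact hc 26
      · exact hc 27
      · exact hc 28
      · exact hc 29
      · exact hc 30
      · exact hc 31
      · exact hc 32
      · exact hc 33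
      · exact hc 34
      · exact hc 35
      · exact hc 36
      · exact hc 37
      · exact hc 38) 40
    rw [srchA] at h3
    exact absurd h3 (by decide)

  have T2 : ∑ j, (F j 42 ^^ F j 48).toNat = 3 := by
    have h1 : ∑ j, (F j 42 ^^ F j 48).toNat + 2 * ∑ j, (F j 42 && F j 48).toNat = 3 := by
      rw [Finset.mul_sum, ← Finset.sum_add_distrib, Finset.sum_congr rfl (fun j _ => xor_nat _ _),
        Finset.sum_add_distrib, hc 42, hc 48]
      rfl
    by_contra hne
    have h2 : ∑ j, (F j 42 ^^ F j 48).toNat = 1 := by omega
    have h3 := srch_fam (fun j => gad2 (F j)) (fun j => (gad2_mem (F j) (hp j)).1) wA rfl (by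
      intro x hx
      interval_cases x
      · exact h2
      · exact hc 39
      · exact hc 40
      · exact hc 41
      · exact hc 42
      · exact hc 43
      · exact hc 44
      · exact hc 45
      · exact hc 46
      · exact hc 47
      · exact hc 48
      · exact hc 49
      · exact hc 50
      · exact hc 51
      · exact hc 52) 40
    rw [srchA] at h3
    exact absurd h3 (by decide)

  have T3 : ∑ j, (F j 56 ^^ F j 62).toNat = 3 := by
    have h1 : ∑ j, (F j 56 ^^ F j 62).toNat + 2 * ∑ j, (F j 56 && F j 62).toNat = 3 := by
      rw [Finset.mul_sum, ← Finset.sum_add_distrib, Finset.sum_congr rfl (fun j _ => xor_nat _ _),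
        Finset.sum_add_distrib, hc 56, hc 62]
      rfl
    by_contra hne
    have h2 : ∑ j, (F j 56 ^^ F j 62).toNat = 1 := by omega
    have h3 := srch_fam (fun j => gad3 (F j)) (fun j => (gad3_mem (F j) (hp j)).1) wA rfl (by
      intro x hx
      interval_cases x
      · exact h2
      · exact hc 53
      · exact hc 54
      · exact hc 55
      · exact hc 56
      · exact hc 57
      · exact hc 58
      · exact hc 59
      · exact hc 60
      · exact hc 61
      · exact hc 62
      · exact hc 63
      · exact hc 64
      · exact hc 65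
      · exact hc 66) 40
    rw [srchA] at h3
    exact absurd h3 (by decide)

  have h3 := srch_fam (fun j => mainL (F j)) (fun j => mainL_mem (F j) (hp j)) wB rfl (by
      intro x hx
      interval_cases x
      · exact T0
      · exact hc 0
      · exact T1
      · exact hc 1
      · exact hc 2
      · exact T2
      · exact hc 3
      · exact hc 4
      · exact T3
      · exact hc 5
      · exact hc 6
      · exact hc 7
      · exact hc 8
      · exact hc 9
      · exact hc 10) 40
  rw [srchB] at h3
  exact absurd h3 (by decide)

def es0 : List (Fin 67) := [0,34,29,36,25,1,10,3,39,50,43,48,6,20,15,22,11]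

def vs0 : List (Fin 42) := [2,21,23,18,3,4,9,7,26,31,29,5,0,13,15,10]

def es1 : List (Fin 67) := [2,6,5,53,64,57,62,4,10]

def vs1 : List (Fin 42) := [0,5,8,34,39,37,6,9]

def es2 : List (Fin 67) := [6,42,52,44,50,40,51,46,49,8,28,38,30,36,26,37,32,35,9,63,60,65,54,64,58,66,56,7,21,18,23,12,22,16,24,14]

def vs2 : List (Fin 42) := [5,28,33,31,26,27,32,30,7,2,20,25,23,18,19,24,22,3,8,38,40,35,34,39,41,36,6,1,14,16,11,10,15,17,12]

def es3 : List (Fin 67) := [6,48,47,51,41,52,45,49,8,34,33,37,27,38,31,35,9,63,59,66,55,65,61,62,7,21,17,24,13,23,19,20]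

def vs3 : List (Fin 42) := [5,29,32,27,28,33,30,7,2,21,24,19,20,25,22,3,8,38,41,36,35,40,37,6,1,14,17,12,11,16,13]

def esT : List (List (Fin 67)) := [es0, es1, es2, es3]
def vsT : List (List (Fin 42)) := [vs0, vs1, vs2, vs3]
def es (i : Fin 4) : List (Fin 67) := esT.getD i.val []
def vs (i : Fin 4) : List (Fin 42) := vsT.getD i.val []
def F1 (i : Fin 4) : Finset (Fin 67) := (es i).toFinset
def b1 (i : Fin 4) (x : Fin 67) : Bool := (es i).contains x

theorem b1_iff (i : Fin 4) (x : Fin 67) : x ∈ F1 i ↔ b1 i x = true := by
  unfold F1 b1
  simp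

theorem F1_even : ∀ (i : Fin 4) (v : Fin 42), ((Inc v).map (b1 i)).foldr xor false = false := by
  decide +kernel

def chainOK (E : List (Fin 67)) : List (Fin 67) → List (Fin 42) → Bool
  | a :: b :: t, v :: vs => (((Inc v).filter (fun x => E.contains x) == [a, b]) ||
      ((Inc v).filter (fun x => E.contains x) == [b, a])) && chainOK E (b :: t) vs
  | [_], _ => true
  | _, _ => false

theorem F1_chain : ∀ i : Fin 4, chainOK (es i) (es i) (vs i) = true := by decide +kernel

theorem filt (l : List (Fin 67)) (E : List (Fin 67)) (D : Fin 67 → Bool)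
    (hD : ∀ x, D x = true → E.contains x = true) :
    (l.map D).foldr xor false = ((l.filter (fun x => E.contains x)).map D).foldr xor false := by
  induction l with
  | nil => rfl
  | cons a t ih =>
    cases h : E.contains a with
    | true =>
      rw [List.filter_cons_of_pos (by simpa using h)]
      simp only [List.map_cons, List.foldr_cons, ih]
    | false =>
      have h1 : D a = false := by
        cases h2 : D a
        · rfl
        · have := hD a h2
          rw [h] at this
          exact absurd this (by decide)
      rw [List.filter_cons_of_neg (by simpa using h)]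
      simp only [List.map_cons, List.foldr_cons, ih, h1, Bool.false_xor]

theorem chain_all (E : List (Fin 67)) (D : Fin 67 → Bool)
    (hD : ∀ x, D x = true → E.contains x = true)
    (hp : ∀ v, ((Inc v).map D).foldr xor false = false) :
    ∀ (l : List (Fin 67)) (a : Fin 67) (w : List (Fin 42)), chainOK E (a :: l) w = true →
      ∀ x ∈ a :: l, D x = D a := by
  intro l
  induction l with
  | nil =>
    intro a w _ x hx
    rw [List.mem_singleton] at hx
    rw [hx]
  | cons b t ih =>
    intro a w hw x hx
    cases w with
    | nil => simp [chainOK] at hw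
    | cons v w =>
      unfold chainOK at hw
      rw [Bool.and_eq_true] at hw
      have hab : D b = D a := by
        have h1 := hp v
        rw [filt _ E D hD] at h1
        rw [Bool.or_eq_true, beq_iff_eq, beq_iff_eq] at hw
        rcases hw.1 with h | h
        · rw [h] at h1
          simp only [List.map_cons, List.map_nil, List.foldr_cons, List.foldr_nil] at h1
          revert h1
          cases D a <;> cases D b <;> decide
        · rw [h] at h1
          simp only [List.map_cons, List.map_nil, List.foldr_cons, List.foldr_nil] at h1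
          revert h1
          cases D a <;> cases D b <;> decide
      rw [List.mem_cons] at hx
      rcases hx with rfl | hx
      · rfl
      · rw [ih b w hw.2 x hx, hab]

def w1 (x : Fin 67) : ℕ := if x = 6 then 4 else wtL.getD x.val 0
theorem F1_cnt : ∀ x : Fin 67, ∑ i : Fin 4, (b1 i x).toNat = w1 x := by decide +kernel
theorem wt_pos : ∀ x : Fin 67, 0 < w1 x ∧ w1 x ≤ 4 := by decide +kernel
theorem wt_cases : ∀ x : Fin 67, x = 6 ∨ w1 x = 1 ∨ w1 x = 2 := by decide +kernel
theorem es_ne : ∀ i : Fin 4, es i ≠ [] := by decide +kernel

theorem F1_dec (i : Fin 4) : (fun x => decide (x ∈ F1 i)) = b1 i := by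
  funext x
  have := b1_iff i x
  cases hb : b1 i x
  · rw [hb] at this
    simpa using this
  · rw [hb] at this
    simpa using this

theorem F1_even2 (i : Fin 4) (v : Fin 42) :
    ((Inc v).map (fun x => decide (x ∈ F1 i))).foldr xor false = false := by
  rw [F1_dec]
  exact F1_even i v

theorem F1_nonempty (i : Fin 4) : (F1 i).Nonempty := by
  cases hes : es i with
  | nil => exact absurd hes (es_ne i)
  | cons a t =>
    refine ⟨a, ?_⟩
    unfold F1
    rw [hes]
    simp

theorem F1_min (i : Fin 4) (D : Finset (Fin 67)) (hD : D ⊆ F1 i) (hne : D.Nonempty)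
    (hp : ∀ v, ((Inc v).map (fun x => decide (x ∈ D))).foldr xor false = false) : D = F1 i := by
  cases hes : es i with
  | nil => exact absurd hes (es_ne i)
  | cons a t =>
    have hch := F1_chain i
    have hsub : ∀ x, (fun x => decide (x ∈ D)) x = true → (es i).contains x = true := by
      intro x hx
      have h1 : x ∈ D := by simpa using hx
      exact (b1_iff i x).1 (hD h1)
    have hall : ∀ x ∈ a :: t, (fun x => decide (x ∈ D)) x = (fun x => decide (x ∈ D)) a := by
      apply chain_all (es i) _ hsub hp t a (vs i)
      rw [← hes]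
      exact hch
    have hmem : ∀ x, x ∈ F1 i → x ∈ a :: t := by
      intro x hx
      have := (b1_iff i x).1 hx
      unfold b1 at this
      rw [hes] at this
      simpa using this
    obtain ⟨y, hy⟩ := hne
    have ha : decide (a ∈ D) = true := by
      have := hall y (hmem y (hD hy))
      simp only at this
      rw [← this]
      simpa using hy
    apply Finset.Subset.antisymm hD
    intro x hx
    have := hall x (hmem x hx)
    simp only at this
    rw [ha] at this
    simpa using this

theorem F1_cov (e : Fin 67) : ∃ i : Fin 4, e ∈ F1 i := by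
  by_contra hc
  push Not at hc
  have h1 := F1_cnt e
  have h2 := (wt_pos e).1
  have h3 : ∑ i : Fin 4, (b1 i e).toNat = 0 := by
    apply Finset.sum_eq_zero
    intro i _
    cases hb : b1 i e
    · rfl
    · exact absurd ((b1_iff i e).2 hb) (hc i)
  omega

theorem cnt1 (e : Fin 67) (inst : DecidablePred (fun i : Fin 4 => e ∈ F1 i)) :
    (@Finset.filter _ (fun i : Fin 4 => e ∈ F1 i) inst Finset.univ).card = w1 e := by
  rw [← F1_cnt e]
  exact card_univ_filter _ (fun i => b1 i e) (fun i => b1_iff i e)

theorem w1_six : w1 6 = 4 := by decide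
theorem wt_six : wtL.getD (6 : Fin 67).val 0 = 2 := by decide
theorem w1_ne (e : Fin 67) (he : e ≠ 6) : w1 e = wtL.getD e.val 0 := by
  unfold w1
  rw [if_neg he]

def mB (F : Finset (Fin 67)) (x : Fin 67) : Bool := decide (x ∈ F)
theorem mB_iff (F : Finset (Fin 67)) (x : Fin 67) : x ∈ F ↔ mB F x = true := by
  unfold mB
  rw [decide_eq_true_iff]

def tot {m : ℕ} (F : Fin m → Finset (Fin 67)) (e : Fin 67) : ℕ := ∑ j, (mB (F j) e).toNat

theorem even_iff2 (F : Finset (Fin 67)) (v : Fin 42)
    (inst : DecidablePred (fun x => v ∈ ends x ∧ ¬ (ends x).IsDiag)) :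
    Even ((@Finset.filter _ (fun x => v ∈ ends x ∧ ¬ (ends x).IsDiag) inst F).card) ↔
      ((Inc v).map (mB F)).foldr xor false = false := @even_iff F v inst

theorem cnt3 {m : ℕ} (F : Fin m → Finset (Fin 67)) (e : Fin 67)
    (inst : DecidablePred (fun i : Fin m => e ∈ F i)) :
    (@Finset.filter _ (fun i : Fin m => e ∈ F i) inst Finset.univ).card = tot F e := by
  unfold tot
  exact @card_univ_filter m _ inst (fun j => mB (F j) e) (fun j => mB_iff (F j) e)

theorem F1_even3 (i : Fin 4) (v : Fin 42) : ((Inc v).map (mB (F1 i))).foldr xor false = false :=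
  F1_even2 i v

theorem F1_min3 (i : Fin 4) (D : Finset (Fin 67)) (hD : D ⊆ F1 i) (hne : D.Nonempty)
    (hp : ∀ v, ((Inc v).map (mB D)).foldr xor false = false) : D = F1 i := F1_min i D hD hne hp

theorem key3 {m : ℕ} (F : Fin m → Finset (Fin 67))
    (hp : ∀ j v, ((Inc v).map (mB (F j))).foldr xor false = false)
    (hc : ∀ x : Fin 67, tot F x = wtL.getD x.val 0) : False :=
  key (fun j => mB (F j)) hp hc

end Pool.Agent.H4CC
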