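import Pool.Statements.S00092
import Pool.Agent.H950R2.PS.Final
-- import your own Pool.Agent.* helpers here

set_option autoImplicit false
open Pool Pool.MP_7228a2_ag

namespace Pool.Agent.S00092

/-- The negation of the preceding statement: For every Noetherian local ring A and finitely generated A-modules M, N, if M has a finite-length projective resolution and M ⊗ N has finite length, then dim Supp M + dim Supp N ≤ Krull dimension of A. -/
theorem result :
    ¬ (∀ (A : Type) [CommRing A] [IsNoetherianRing A] [IsLocalRing A]
      (M N : Type) [AddCommGroup M] [Module A M] [AddCommGroup N] [Module A N],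
      Module.Finite A M → Module.Finite A N →
      (∃ P : CategoryTheory.ProjectiveResolution (ModuleCat.of A M), ∃ n : ℕ,
        ∀ i : ℕ, n < i → CategoryTheory.Limits.IsZero (P.complex.X i)) →
      IsFiniteLength A (TensorProduct A M N) →
      Module.supportDim A M + Module.supportDim A N ≤ ringKrullDim A) := by
  exact Pool.Agent.H950R2.PS.final

end Pool.Agent.S00092
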