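import Pool.Statements.S00123
import Pool.Agent.H919S.All

set_option autoImplicit false
open Pool Pool.MP_a18d4e_ag

namespace Pool.Agent.S00123

/-- For every tensor format with factor dimensions n_i+1, some real tensor has exactly c(n) complex singular tuples up to scaling each factor, and all of them are real. -/
theorem result :
    ∀ (d : ℕ) (n : Fin d → ℕ),
      ∃ (T : (∀ i : Fin d, Fin (n i + 1)) → ℝ) (N : ℕ)
        (r : Fin N → ∀ i : Fin d, Fin (n i + 1) → ℝ),
        (N : ℤ) = MvPolynomial.coeff (Finsupp.equivFunOnFinite.symm n)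
          (∏ k : Fin d, ∑ j ∈ Finset.range (n k + 1),
            (∑ i ∈ Finset.univ.erase k, (MvPolynomial.X i : MvPolynomial (Fin d) ℤ)) ^ j
              * (MvPolynomial.X k : MvPolynomial (Fin d) ℤ) ^ (n k - j)) ∧
        (∀ x : ∀ i : Fin d, Fin (n i + 1) → ℂ,
          ((∀ k : Fin d, x k ≠ 0) ∧
            ∀ k : Fin d, ∃ l : ℂ, ∀ j : Fin (n k + 1),
              ∑ ι : (∀ i : Fin d, Fin (n i + 1)),
                (if ι k = j then (T ι : ℂ) * ∏ i ∈ Finset.univ.erase k, x i (ι i) else 0)
                = l * x k j)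
          ↔ ∃ m : Fin N, ∀ k : Fin d, ∃ c : ℂ, c ≠ 0 ∧
              ∀ j : Fin (n k + 1), x k j = c * (r m k j : ℂ)) ∧
        (∀ m m' : Fin N,
          (∀ k : Fin d, ∃ c : ℂ, c ≠ 0 ∧
              ∀ j : Fin (n k + 1), (r m' k j : ℂ) = c * (r m k j : ℂ)) → m = m') := by
  open Pool.Agent.H919S in
  exact final
    (PP_all (P0 basics) (P1 basics) (P2 basics)
      (A14 (A12 (A09 basics C2 (A03 basics A01) (A04 basics A01) (A05 basics A01)
          (A06 basics A01 (A02 A01)) A07 (A08 basics (A00 basics) A01 (A02 A01)))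
        (A10 basics A01) (A11 basics A01)) A13)
      PR
      (D12 (D11 basics C3 (D08 basics D01 D02 (D03 basics D02))
        (D09 basics (D00 basics) D01 D02 (D04 basics D02) (D05 basics D01 D02) (D06 basics D01 D02)
          (D07 basics (D00 basics) D01 D02))
        (D10 basics D02 (D05 basics D01 D02)))))
    (E05 basics (E02 basics (E00 basics) (E01 basics)) (E03 basics) E04)
    (E06 basics) (E07 C1)

end Pool.Agent.S00123
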