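import Pool.Statements.S00222
import Pool.Agent.H972R2.LSpace

set_option autoImplicit false
open Pool Pool.MP_f76cdc_ag

namespace Pool.Agent.S00222

open Polynomial Pool.Agent.H972R2.LSpace

variable {k : Type} [Field k]

/-- the property required of the nonzero elements (with `m = 20`) -/
def Good (g : RatFunc k) : Prop :=
  (∃ P R : Polynomial k, P ≠ 0 ∧ R ≠ 0 ∧
    g = algebraMap (Polynomial k) (RatFunc k) (Polynomial.derivative P) /
          algebraMap (Polynomial k) (RatFunc k) P
        - algebraMap (Polynomial k) (RatFunc k) (Polynomial.derivative R) /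
          algebraMap (Polynomial k) (RatFunc k) R) ∧
  (∃ c : k, c ≠ 0 ∧ ∃ Q : Polynomial k, Q.natDegree = 20 + 1 ∧
    g = algebraMap (Polynomial k) (RatFunc k) (Polynomial.C c) /
          algebraMap (Polynomial k) (RatFunc k) Q)

lemma Good.neg {g : RatFunc k} (h : Good g) : Good (-g) := by
  obtain ⟨⟨P, R, hP, hR, h1⟩, c, hc, Q, hQ, h2⟩ := h
  refine ⟨⟨R, P, hR, hP, ?_⟩, -c, neg_ne_zero.2 hc, Q, hQ, ?_⟩
  · rw [h1]; ring
  · rw [h2, C_neg, map_neg, neg_div]

lemma good_of_wr {P R : k[X]} (hw : derivative P * R - P * derivative R = 1)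
    (hd : (P * R).natDegree = 21) :
    Good (1 / algebraMap k[X] (RatFunc k) (P * R)) := by
  have hPR : P * R ≠ 0 := by
    intro h
    rw [h] at hd
    simp at hd
  have hP : P ≠ 0 := left_ne_zero_of_mul hPR
  have hR : R ≠ 0 := right_ne_zero_of_mul hPR
  have hP' : algebraMap k[X] (RatFunc k) P ≠ 0 := RatFunc.algebraMap_ne_zero hP
  have hR' : algebraMap k[X] (RatFunc k) R ≠ 0 := RatFunc.algebraMap_ne_zero hR
  refine ⟨⟨P, R, hP, hR, ?_⟩, 1, one_ne_zero, P * R, hd, by simp⟩
  have hw' := congrArg (algebraMap k[X] (RatFunc k)) hw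
  rw [map_sub, map_mul, map_mul, map_one] at hw'
  rw [map_mul]
  field_simp
  linear_combination -hw'

lemma natDegree_A0 : (A0 : k[X]).natDegree = 7 := by
  unfold A0
  compute_degree!

lemma A0_ne : (A0 : k[X]) ≠ 0 := by
  intro h
  have := natDegree_A0 (k := k)
  rw [h] at this
  simp at this

lemma natDegree_prod0 : ((P0 : k[X]) * R0).natDegree = 21 := by
  have h1 : (P0 : k[X]).natDegree = 3 := by
    unfold P0
    compute_degree!
  have h2 : (R0 : k[X]).natDegree = 18 := by
    unfold R0
    compute_degree!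
  rw [natDegree_mul, h1, h2]
  · intro h; rw [h] at h1; simp at h1
  · intro h; rw [h] at h2; simp at h2

lemma natDegree_prod {θ : k} (h : θ ^ 3 - θ + 1 = 0) : (P θ * R θ).natDegree = 21 := by
  have hθ : θ ≠ 0 := by
    rintro rfl
    simp at h
  have hl : -θ ^ 2 - θ + 1 ≠ 0 := by
    intro h2
    apply hθ
    linear_combination h + (θ - 1) * h2
  have h1 : (P θ).natDegree = 9 := by
    unfold P
    rw [← C_pow]
    compute_degree!
  have h2 : (R θ).natDegree = 12 := by
    have e : R θ = C (-θ ^ 2 - θ + 1) * X ^ 12 - X ^ 10 + (-C θ ^ 2 - C θ - 1) * X ^ 9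
        - C θ ^ 2 * X ^ 7
        + (-C θ ^ 2 - C θ) * X ^ 6 + (C θ - 1) * X ^ 4 + X ^ 3 + C θ ^ 2 * X - C θ := by
      unfold R
      simp only [map_add, map_sub, map_neg, map_pow, map_one]
    rw [e]
    compute_degree!
  rw [natDegree_mul, h1, h2]
  · intro h; rw [h] at h1; simp at h1
  · intro h; rw [h] at h2; simp at h2

lemma good0 [CharP k 3] :
    Good (-(algebraMap k[X] (RatFunc k) A0 / algebraMap k[X] (RatFunc k) Δ)) := by
  have h := good_of_wr (wr0 (k := k)) natDegree_prod0
  have hPR : (P0 : k[X]) * R0 ≠ 0 := by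
    intro h
    have := natDegree_prod0 (k := k)
    rw [h] at this
    simp at this
  have h1 : algebraMap k[X] (RatFunc k) (P0 * R0) ≠ 0 := RatFunc.algebraMap_ne_zero hPR
  have h2 : algebraMap k[X] (RatFunc k) A0 ≠ 0 := RatFunc.algebraMap_ne_zero A0_ne
  convert h using 1
  rw [delta0, map_neg, map_mul]
  field_simp

lemma good1 [CharP k 3] {θ : k} (h : θ ^ 3 - θ + 1 = 0) :
    Good (-(algebraMap k[X] (RatFunc k) (A θ) / algebraMap k[X] (RatFunc k) Δ)) := by
  have h' := good_of_wr (wr h) (natDegree_prod h)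
  have hPR : P θ * R θ ≠ 0 := by
    intro h0
    have := natDegree_prod h
    rw [h0] at this
    simp at this
  have hA : A θ ≠ 0 := by
    intro h0
    have h1 := delta1 h
    rw [h0, zero_mul, neg_zero, delta0, neg_eq_zero] at h1
    rcases mul_eq_zero.1 h1 with h2 | h2
    · exact A0_ne h2
    · have := natDegree_prod0 (k := k)
      rw [h2] at this
      simp at this
  have h1 : algebraMap k[X] (RatFunc k) (P θ * R θ) ≠ 0 := RatFunc.algebraMap_ne_zero hPR
  have h2 : algebraMap k[X] (RatFunc k) (A θ) ≠ 0 := RatFunc.algebraMap_ne_zero hA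
  convert h' using 1
  rw [delta1 h, map_neg, map_mul]
  field_simp

lemma delta_ne [CharP k 3] : (Δ : k[X]) ≠ 0 := by
  rw [delta0]
  intro h
  rw [neg_eq_zero] at h
  rcases mul_eq_zero.1 h with h2 | h2
  · exact A0_ne h2
  · have := natDegree_prod0 (k := k)
    rw [h2] at this
    simp at this

/-- the additive map with image the space `L` -/
noncomputable def phi [CharP k 3] [CharP (RatFunc k) 3] (θ : k) : ZMod 3 × ZMod 3 →+ RatFunc k where
  toFun ij := ZMod.castHom (dvd_refl 3) (RatFunc k) ij.1 *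
      (-(algebraMap k[X] (RatFunc k) A0 / algebraMap k[X] (RatFunc k) Δ)) +
    ZMod.castHom (dvd_refl 3) (RatFunc k) ij.2 *
      (-(algebraMap k[X] (RatFunc k) (A θ) / algebraMap k[X] (RatFunc k) Δ))
  map_zero' := by simp
  map_add' x y := by
    simp only [Prod.fst_add, Prod.snd_add, map_add]
    ring

lemma phi_apply [CharP k 3] [CharP (RatFunc k) 3] (θ : k) (i j : ZMod 3) :
    phi θ (i, j) = ZMod.castHom (dvd_refl 3) (RatFunc k) i *
      (-(algebraMap k[X] (RatFunc k) A0 / algebraMap k[X] (RatFunc k) Δ)) +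
    ZMod.castHom (dvd_refl 3) (RatFunc k) j *
      (-(algebraMap k[X] (RatFunc k) (A θ) / algebraMap k[X] (RatFunc k) Δ)) := rfl

lemma phi_injective [CharP k 3] [CharP (RatFunc k) 3] (θ : k) :
    Function.Injective (phi θ) := by
  rw [injective_iff_map_eq_zero]
  rintro ⟨i, j⟩ h
  rw [phi_apply] at h
  have hΔ : algebraMap k[X] (RatFunc k) Δ ≠ 0 := RatFunc.algebraMap_ne_zero delta_ne
  have e : ∀ i : ZMod 3, ZMod.castHom (dvd_refl 3) (RatFunc k) i =
      algebraMap k[X] (RatFunc k) (C (ZMod.castHom (dvd_refl 3) k i)) := by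
    intro i
    exact (DFunLike.congr_fun (Subsingleton.elim (ZMod.castHom (dvd_refl 3) (RatFunc k))
      (((algebraMap k[X] (RatFunc k)).comp (C : k →+* k[X])).comp
        (ZMod.castHom (dvd_refl 3) k))) i)
  rw [e, e] at h
  have h1 : algebraMap k[X] (RatFunc k) (C (ZMod.castHom (dvd_refl 3) k i) * A0 +
      C (ZMod.castHom (dvd_refl 3) k j) * A θ) = 0 := by
    rw [map_add, map_mul, map_mul]
    field_simp at h
    linear_combination -h
  have h2 : C (ZMod.castHom (dvd_refl 3) k i) * A0 + C (ZMod.castHom (dvd_refl 3) k j) * A θ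
      = (0 : k[X]) := by
    exact (RatFunc.algebraMap_injective k) (by rw [h1, map_zero])
  have hinj : Function.Injective (ZMod.castHom (dvd_refl 3) k) := RingHom.injective _
  have hj : j = 0 := by
    have h3 := congrArg (fun f => eval 0 f) h2
    simp only [A, A0, B, eval_add, eval_mul, eval_C, eval_sub, eval_pow, eval_X, eval_one,
      eval_zero] at h3
    have h4 : ZMod.castHom (dvd_refl 3) k j = 0 := by linear_combination -h3
    exact hinj (by rw [h4, map_zero])
  subst hj
  rw [map_zero, C_0, zero_mul, add_zero] at h2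
  rcases mul_eq_zero.1 h2 with h3 | h3
  · rw [C_eq_zero] at h3
    have hi : i = 0 := hinj (by rw [h3, map_zero])
    rw [hi]; rfl
  · exact absurd h3 A0_ne

lemma good_phi [CharP k 3] [CharP (RatFunc k) 3] {θ : k} (h : θ ^ 3 - θ + 1 = 0)
    (i j : ZMod 3) (hne : phi θ (i, j) ≠ 0) : Good (phi θ (i, j)) := by
  have h3k : (3 : k) = 0 := by
    have : ((3 : ℕ) : k) = 0 := CharP.cast_eq_zero _ 3
    exact_mod_cast this
  have h3r : (3 : RatFunc k) = 0 := by
    have : ((3 : ℕ) : RatFunc k) = 0 := CharP.cast_eq_zero _ 3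
    exact_mod_cast this
  have hp : (θ + 1) ^ 3 - (θ + 1) + 1 = 0 := by linear_combination h + (θ ^ 2 + θ) * h3k
  have hm : (θ - 1) ^ 3 - (θ - 1) + 1 = 0 := by linear_combination h + (-θ ^ 2 + θ) * h3k
  have c1 : ZMod.castHom (dvd_refl 3) (RatFunc k) 1 = 1 := map_one _
  have c2 : ZMod.castHom (dvd_refl 3) (RatFunc k) 2 = -1 := by
    rw [map_ofNat]; linear_combination h3r
  have c0 : ZMod.castHom (dvd_refl 3) (RatFunc k) 0 = 0 := map_zero _
  have Ap : A (θ + 1) = A θ + A0 := by unfold A; rw [C_add, C_1]; ring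
  have Am : A (θ - 1) = A θ - A0 := by unfold A; rw [C_sub, C_1]; ring
  rw [phi_apply] at *
  have g0 := good0 (k := k)
  have g1 := good1 h
  have gp := good1 hp
  have gm := good1 hm
  rw [Ap, map_add] at gp
  rw [Am, map_sub] at gm
  have key : ∀ i : ZMod 3, i = 0 ∨ i = 1 ∨ i = 2 := by decide
  rcases key i with rfl | rfl | rfl <;> rcases key j with rfl | rfl | rfl
  · rw [c0] at hne; simp at hne
  · rw [c0, c1]; convert g1 using 1; ring
  · rw [c0, c2]; convert g1.neg using 1; ring
  · rw [c0, c1]; convert g0 using 1; ring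
  · rw [c1]; convert gp using 1; ring
  · rw [c1, c2]; convert gm.neg using 1; ring
  · rw [c0, c2]; convert g0.neg using 1; ring
  · rw [c1, c2]; convert gm using 1; ring
  · rw [c2]; convert gp.neg using 1; ring

/-- The negation of the preceding statement: Over an algebraically closed field of char p, if n≥2, m≥1 and some additive group of p^n rational functions g has every nonzero g dx logarithmic (g = df/f) and equal to c dx/Q with deg Q = m+1, then p^(n-1)(p-1) divides m+1. -/
theorem result :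
    ¬ (∀ (p : ℕ), p.Prime →
      ∀ (k : Type) [Field k] [IsAlgClosed k] [CharP k p] (m n : ℕ),
        1 ≤ m → 2 ≤ n →
        ∀ L : AddSubgroup (RatFunc k), Nat.card L = p ^ n →
          (∀ g ∈ L, g ≠ 0 →
            (∃ P R : Polynomial k, P ≠ 0 ∧ R ≠ 0 ∧
              g = algebraMap (Polynomial k) (RatFunc k) (Polynomial.derivative P) /
                    algebraMap (Polynomial k) (RatFunc k) P
                  - algebraMap (Polynomial k) (RatFunc k) (Polynomial.derivative R) /
                    algebraMap (Polynomial k) (RatFunc k) R) ∧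
            (∃ c : k, c ≠ 0 ∧ ∃ Q : Polynomial k, Q.natDegree = m + 1 ∧
              g = algebraMap (Polynomial k) (RatFunc k) (Polynomial.C c) /
                    algebraMap (Polynomial k) (RatFunc k) Q)) →
          p ^ (n - 1) * (p - 1) ∣ m + 1) := by
  intro H
  have : Fact (Nat.Prime 3) := ⟨Nat.prime_three⟩
  have hk : CharP (AlgebraicClosure (ZMod 3)) 3 :=
    charP_of_injective_algebraMap (algebraMap (ZMod 3) (AlgebraicClosure (ZMod 3))).injective 3
  have hr : CharP (RatFunc (AlgebraicClosure (ZMod 3))) 3 :=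
    charP_of_injective_algebraMap
      (algebraMap (AlgebraicClosure (ZMod 3)) (RatFunc (AlgebraicClosure (ZMod 3)))).injective 3
  obtain ⟨θ, hθ⟩ := IsAlgClosed.exists_root
    (X ^ 3 - X + 1 : (AlgebraicClosure (ZMod 3))[X]) (by
      have : (X ^ 3 - X + 1 : (AlgebraicClosure (ZMod 3))[X]).degree = 3 := by compute_degree!
      rw [this]; decide)
  have hθ' : θ ^ 3 - θ + 1 = 0 := by simpa [IsRoot] using hθ
  have h := H 3 Nat.prime_three (AlgebraicClosure (ZMod 3)) 20 2 (by norm_num) le_rfl
    (phi θ).range ?_ ?_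
  · revert h; decide
  · have e : Nat.card (phi θ).range = Nat.card (ZMod 3 × ZMod 3) :=
      Nat.card_congr (AddMonoidHom.ofInjective (phi_injective θ)).symm.toEquiv
    rw [e, Nat.card_prod, Nat.card_zmod]
    norm_num
  · rintro g ⟨⟨i, j⟩, rfl⟩ hne
    exact good_phi hθ' i j hne

end Pool.Agent.S00222
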