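import Pool.Statements.S00249
-- import your own Pool.Agent.* helpers here

set_option autoImplicit false
open Pool Pool.MP_042d8e_al

namespace Pool.Agent.S00249

/-!
The group `FG` of all finitary automorphisms of the binary rooted tree is a branch group.  For a set
`S` of levels, the parity of the number of active vertices on the levels in `S` is a homomorphism
`phi S` onto a group of order two.  If `S`, `S'` are infinite disjoint sets, the sequences
`St(i) ∩ ker (phi S)` and `St(i) ∩ ker (phi S')` are not equivalent.
-/

/-- vertices: the last letter of the address comes first -/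
abbrev Wd := List Bool

/-- the automorphism with labels `l` -/
def act (l : Wd → Bool) : Wd → Wd
  | [] => []
  | b :: v => (xor b (l v)) :: act l v

/-- its inverse -/
def actInv (l : Wd → Bool) : Wd → Wd
  | [] => []
  | c :: u => (xor c (l (actInv l u))) :: actInv l u

theorem actInv_act (l : Wd → Bool) (w : Wd) : actInv l (act l w) = w := by
  induction w with
  | nil => rfl
  | cons b v ih => simp [act, actInv, ih]

theorem act_actInv (l : Wd → Bool) (w : Wd) : act l (actInv l w) = w := by
  induction w with
  | nil => rfl
  | cons b v ih => simp [act, actInv, ih]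

theorem length_act (l : Wd → Bool) (w : Wd) : (act l w).length = w.length := by
  induction w with
  | nil => rfl
  | cons b v ih => simp [act, ih]

/-- the automorphism with labels `l`, as a permutation -/
def mk (l : Wd → Bool) : Equiv.Perm Wd := ⟨act l, actInv l, actInv_act l, act_actInv l⟩

theorem mk_nil (l : Wd → Bool) : mk l [] = [] := rfl
theorem mk_cons (l : Wd → Bool) (b : Bool) (v : Wd) : mk l (b :: v) = (xor b (l v)) :: mk l v := rfl
theorem length_mk (l : Wd → Bool) (w : Wd) : (mk l w).length = w.length := length_act l w

theorem mk_mul (l m : Wd → Bool) : mk l * mk m = mk (fun v => xor (l (mk m v)) (m v)) := by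
  ext1 w
  induction w with
  | nil => rfl
  | cons b v ih =>
    rw [Equiv.Perm.mul_apply] at ih ⊢
    rw [mk_cons m, mk_cons l, mk_cons, ih]
    congr 1
    cases b <;> cases m v <;> cases l (mk m v) <;> rfl

theorem mk_zero : mk (fun _ => false) = 1 := by
  ext1 w
  induction w with
  | nil => rfl
  | cons b v ih => rw [mk_cons, ih]; simp

theorem mk_inv (l : Wd → Bool) : (mk l)⁻¹ = mk (fun v => l ((mk l)⁻¹ v)) := by
  ext1 w
  induction w with
  | nil => rfl
  | cons c u ih =>
    rw [mk_cons, ← ih]
    rfl

/-- finitely many labels -/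
def Fy (l : Wd → Bool) : Prop := ∃ N : ℕ, ∀ v : Wd, N ≤ v.length → l v = false

/-- the group of finitary automorphisms -/
def FG : Subgroup (Equiv.Perm Wd) where
  carrier := {g | ∃ l, Fy l ∧ g = mk l}
  mul_mem' := by
    rintro _ _ ⟨l, ⟨N, hN⟩, rfl⟩ ⟨m, ⟨K, hK⟩, rfl⟩
    refine ⟨_, ⟨max N K, fun v hv => ?_⟩, mk_mul l m⟩
    rw [hN _ (by rw [length_mk]; exact (le_max_left _ _).trans hv), hK _ ((le_max_right _ _).trans hv)]
    rfl
  one_mem' := ⟨_, ⟨0, fun _ _ => rfl⟩, mk_zero.symm⟩
  inv_mem' := by
    rintro _ ⟨l, ⟨N, hN⟩, rfl⟩
    refine ⟨_, ⟨N, fun v hv => hN _ ?_⟩, mk_inv l⟩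
    have h := length_mk l ((mk l)⁻¹ v)
    rw [show (mk l) ((mk l)⁻¹ v) = v from (mk l).apply_symm_apply v] at h
    rw [← h]; exact hv

/-- the label of `g` at `v` -/
def lab (g : Equiv.Perm Wd) (v : Wd) : Bool := (g (false :: v)).headD false

theorem lab_mk (l : Wd → Bool) (v : Wd) : lab (mk l) v = l v := by
  unfold lab; rw [mk_cons]; simp

theorem eq_mk (g : FG) : (g : Equiv.Perm Wd) = mk (lab g) := by
  obtain ⟨l, _, h⟩ := g.2
  rw [h]; congr 1; funext v; exact (lab_mk l v).symm

theorem fy_lab (g : FG) : Fy (lab g) := by
  obtain ⟨l, hl, h⟩ := g.2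
  rw [h]
  have : lab (mk l) = l := funext (lab_mk l)
  rw [this]; exact hl

theorem cons_apply (g : FG) (b : Bool) (v : Wd) :
    (g : Equiv.Perm Wd) (b :: v) = (xor b (lab g v)) :: (g : Equiv.Perm Wd) v := by
  conv_lhs => rw [eq_mk g, mk_cons, ← eq_mk g]

theorem length_apply (g : FG) (w : Wd) : ((g : Equiv.Perm Wd) w).length = w.length := by
  rw [eq_mk g]; exact length_mk _ _

theorem lab_mul (g h : FG) (v : Wd) :
    lab ((g * h : FG) : Equiv.Perm Wd) v = xor (lab g ((h : Equiv.Perm Wd) v)) (lab h v) := by
  have : ((g * h : FG) : Equiv.Perm Wd) = mk (fun v => xor (lab g (mk (lab h) v)) (lab h v)) := by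
    rw [← mk_mul, ← eq_mk, ← eq_mk]; rfl
  rw [this, lab_mk, ← eq_mk h]

/-- labels in `ZMod 2` -/
def bz (b : Bool) : ZMod 2 := if b then 1 else 0

theorem bz_xor (a b : Bool) : bz (xor a b) = bz a + bz b := by
  cases a <;> cases b <;> decide

open Classical in
/-- labels on the levels in `S` -/
noncomputable def wt (S : Set ℕ) (l : Wd → Bool) (v : Wd) : ZMod 2 :=
  if v.length ∈ S then bz (l v) else 0

theorem wt_finite (S : Set ℕ) (l : Wd → Bool) (h : Fy l) : (Function.support (wt S l)).Finite := by
  obtain ⟨N, hN⟩ := h
  refine (List.finite_length_lt Bool N).subset fun v hv => ?_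
  by_contra hc
  apply hv
  have h1 : l v = false := hN v (not_lt.1 hc)
  unfold wt
  rw [h1]
  simp [bz]

/-- the parity of the number of active vertices on the levels in `S` -/
noncomputable def phi (S : Set ℕ) : FG →* Multiplicative (ZMod 2) where
  toFun g := Multiplicative.ofAdd (∑ᶠ v, wt S (lab g) v)
  map_one' := by
    have : ∀ v, wt S (lab ((1 : FG) : Equiv.Perm Wd)) v = 0 := by
      intro v
      have : lab ((1 : FG) : Equiv.Perm Wd) v = false := rfl
      unfold wt
      rw [this]
      simp [bz]
    rw [finsum_congr this, finsum_zero]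
    rfl
  map_mul' g h := by
    rw [← ofAdd_add]
    congr 1
    have h1 : ∀ v, wt S (lab ((g * h : FG) : Equiv.Perm Wd)) v =
        wt S (lab g) ((h : Equiv.Perm Wd) v) + wt S (lab h) v := by
      intro v
      unfold wt
      rw [length_apply, lab_mul, bz_xor]
      split_ifs <;> simp
    have h2 : (Function.support fun v => wt S (lab g) ((h : Equiv.Perm Wd) v)).Finite := by
      have : (Function.support fun v => wt S (lab g) ((h : Equiv.Perm Wd) v)) =
          (h : Equiv.Perm Wd) ⁻¹' (Function.support (wt S (lab g))) := rfl
      rw [this]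
      exact (wt_finite S _ (fy_lab g)).preimage ((h : Equiv.Perm Wd).injective.injOn)
    rw [finsum_congr h1, finsum_add_distrib h2 (wt_finite S _ (fy_lab h))]
    congr 1
    exact finsum_comp_equiv (h : Equiv.Perm Wd)

/-- words of length `n` -/
abbrev Lv (n : ℕ) : Type := {w : Wd // w.length = n}

instance (n : ℕ) : Finite (Lv n) := (List.finite_length_eq Bool n).to_subtype

/-- action on a level -/
def R (n : ℕ) : FG →* Equiv.Perm (Lv n) where
  toFun g :=
    { toFun := fun w => ⟨(g : Equiv.Perm Wd) w.1, by rw [length_apply]; exact w.2⟩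
      invFun := fun w => ⟨((g⁻¹ : FG) : Equiv.Perm Wd) w.1, by rw [length_apply]; exact w.2⟩
      left_inv := fun w => Subtype.ext (by simp)
      right_inv := fun w => Subtype.ext (by simp) }
  map_one' := rfl
  map_mul' g h := rfl

theorem mem_ker_R (n : ℕ) (g : FG) :
    g ∈ (R n).ker ↔ ∀ w : Wd, w.length = n → (g : Equiv.Perm Wd) w = w := by
  rw [MonoidHom.mem_ker]
  constructor
  · intro h w hw
    have := congrArg (fun σ : Equiv.Perm (Lv n) => (σ ⟨w, hw⟩).1) h
    exact this
  · intro h
    ext1 w
    exact Subtype.ext (h w.1 w.2)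

theorem ker_succ (n : ℕ) : (R (n + 1)).ker ≤ (R n).ker := by
  intro g hg
  rw [mem_ker_R] at hg ⊢
  intro w hw
  have := hg (false :: w) (by simp [hw])
  rw [cons_apply] at this
  exact (List.cons.inj this).2

theorem ker_anti : Antitone fun n => (R n).ker := antitone_nat_of_succ_le ker_succ

theorem lab_of_ker {n : ℕ} {g : FG} (hg : g ∈ (R n).ker) {v : Wd} (hv : v.length < n) :
    lab g v = false := by
  have h1 := ker_anti (show v.length + 1 ≤ n from hv) hg
  rw [mem_ker_R] at h1
  have := h1 (false :: v) (by simp)
  unfold lab
  rw [this]; rfl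

/-- the swap at a vertex -/
def swl (v : Wd) : Wd → Bool := fun u => decide (u = v)

/-- the swap at a vertex -/
def sw (v : Wd) : FG := ⟨mk (swl v), swl v, ⟨v.length + 1, fun u hu => by
  simp only [swl, decide_eq_false_iff_not]
  rintro rfl
  omega⟩, rfl⟩

theorem coe_sw (v : Wd) : ((sw v : FG) : Equiv.Perm Wd) = mk (swl v) := rfl

theorem lab_sw (v u : Wd) : lab (sw v) u = decide (u = v) := by
  rw [coe_sw, lab_mk]; rfl

theorem sw_fix (v w : Wd) (h : ∀ k, 0 < k → k ≤ w.length → w.drop k ≠ v) :
    ((sw v : FG) : Equiv.Perm Wd) w = w := by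
  induction w with
  | nil => rfl
  | cons b u ih =>
    rw [cons_apply, lab_sw, decide_eq_false (by
      have := h 1 one_pos (by simp)
      simpa using this), ih (fun k hk hk' => by
      have := h (k + 1) (by omega) (by simpa using hk')
      simpa using this)]
    simp

theorem sw_short (v w : Wd) (h : w.length ≤ v.length) : ((sw v : FG) : Equiv.Perm Wd) w = w := by
  apply sw_fix
  intro k hk hk' he
  have h1 := congrArg List.length he
  rw [List.length_drop] at h1
  omega

theorem sw_cons (v : Wd) (b : Bool) : ((sw v : FG) : Equiv.Perm Wd) (b :: v) = (!b) :: v := by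
  rw [cons_apply, lab_sw, sw_short v v le_rfl]
  simp

theorem iter_tail (k : ℕ) (w : Wd) : List.tail^[k] w = w.drop k := by
  induction k generalizing w with
  | zero => rfl
  | succ k ih =>
    rw [Function.iterate_succ_apply, ih]
    cases w <;> simp

/-- generators of the level rigid stabilizer -/
def RG (n : ℕ) : Set FG := {g : FG | ∃ v : Wd, v.length = n ∧
  ∀ w : Wd, (∀ k : ℕ, List.tail^[k] w ≠ v) → g • w = w}

theorem sw_mem_RG (n : ℕ) (v : Wd) (hv : n ≤ v.length) : sw v ∈ RG n := by
  refine ⟨v.drop (v.length - n), by rw [List.length_drop]; omega, fun w hw => ?_⟩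
  show ((sw v : FG) : Equiv.Perm Wd) w = w
  apply sw_fix
  rintro k _ _ rfl
  apply hw (k + ((w.drop k).length - n))
  rw [iter_tail, List.drop_drop]

theorem ker_le (n : ℕ) : (R n).ker ≤ Subgroup.closure (RG n) := by
  classical
  -- induction on the size of the support
  have key : ∀ s : ℕ, ∀ g : FG, g ∈ (R n).ker →
      (Function.support fun v => bz (lab g v)).ncard = s → g ∈ Subgroup.closure (RG n) := by
    intro s
    induction s using Nat.strong_induction_on with
    | _ s ih =>
      intro g hg hs
      have hfin : (Function.support fun v => bz (lab g v)).Finite := by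
        have h1 := wt_finite Set.univ (lab g) (fy_lab g)
        have h2 : wt Set.univ (lab g) = fun v => bz (lab g v) := by
          funext v
          unfold wt
          rw [if_pos (Set.mem_univ _)]
        rwa [h2] at h1
      rcases Set.eq_empty_or_nonempty (Function.support fun v => bz (lab g v)) with h0 | hne
      · have hg1 : g = 1 := by
          apply Subtype.ext
          rw [eq_mk g]
          have : lab g = fun _ => false := by
            funext v
            by_contra hc
            have hv : v ∈ (Function.support fun v => bz (lab g v)) := by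
              rw [Function.mem_support]
              rw [Bool.not_eq_false] at hc
              rw [hc]; decide
            rw [h0] at hv
            exact hv
          rw [this, mk_zero]; rfl
        rw [hg1]; exact one_mem _
      · obtain ⟨v, hv, hmax⟩ := hfin.exists_maximalFor (fun v => v.length) _ hne
        have hlv : lab g v = true := by
          by_contra hc
          rw [Bool.not_eq_true] at hc
          apply hv
          show bz (lab g v) = 0
          rw [hc]; rfl
        have hvn : n ≤ v.length := by
          by_contra hc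
          rw [lab_of_ker hg (not_le.1 hc)] at hlv
          cases hlv
        have hdeep : ∀ u : Wd, v.length < u.length → lab g u = false := by
          intro u hu
          by_contra hc
          rw [Bool.not_eq_false] at hc
          have hu' : u ∈ (Function.support fun v => bz (lab g v)) := by
            rw [Function.mem_support, hc]; decide
          have := hmax hu' hu.le
          simp only at this
          omega
        have hlab : ∀ u, lab ((g * sw v : FG) : Equiv.Perm Wd) u = if u = v then false else lab g u := by
          intro u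
          rw [lab_mul, lab_sw]
          by_cases huv : u = v
          · subst huv
            rw [sw_short u u le_rfl, hlv]
            simp
          · rw [if_neg huv, decide_eq_false huv, Bool.xor_false]
            by_cases hl : u.length ≤ v.length
            · rw [sw_short v u hl]
            · rw [hdeep _ (by rw [length_apply]; omega), hdeep u (by omega)]
        have hsw : sw v ∈ Subgroup.closure (RG n) := Subgroup.subset_closure (sw_mem_RG n v hvn)
        have hswk : sw v ∈ (R n).ker := by
          rw [mem_ker_R]
          intro w hw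
          exact sw_short v w (by omega)
        have h1 : g * sw v ∈ Subgroup.closure (RG n) := by
          refine ih _ ?_ (g * sw v) (mul_mem hg hswk) rfl
          rw [← hs]
          apply Set.ncard_lt_ncard _ hfin
          constructor
          · intro u hu
            rw [Function.mem_support, hlab] at hu
            rw [Function.mem_support]
            split_ifs at hu with h
            · exact absurd rfl hu
            · exact hu
          · intro hsub
            have := hsub hv
            rw [Function.mem_support, hlab, if_pos rfl] at this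
            exact this rfl
        have h2 := mul_mem h1 (inv_mem hsw)
        rwa [mul_inv_cancel_right] at h2
  intro g hg
  exact key _ g hg rfl

theorem trans_level (n : ℕ) : ∀ v w : Wd, v.length = n → w.length = n → ∃ g : FG, g • v = w := by
  induction n with
  | zero =>
    intro v w hv hw
    rw [List.length_eq_zero_iff] at hv hw
    subst hv; subst hw
    exact ⟨1, one_smul _ _⟩
  | succ n ih =>
    intro v w hv hw
    cases v with
    | nil => simp at hv
    | cons b v =>
      cases w with
      | nil => simp at hw
      | cons c w =>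
        obtain ⟨g, hg⟩ := ih v w (by simpa using hv) (by simpa using hw)
        have hg' : (g : Equiv.Perm Wd) v = w := hg
        by_cases hbc : xor b (lab g v) = c
        · refine ⟨g, ?_⟩
          show (g : Equiv.Perm Wd) (b :: v) = c :: w
          rw [cons_apply, hbc, hg']
        · refine ⟨sw w * g, ?_⟩
          show ((sw w : FG) : Equiv.Perm Wd) ((g : Equiv.Perm Wd) (b :: v)) = c :: w
          rw [cons_apply, hg', sw_cons]
          congr 1
          revert hbc
          cases (xor b (lab g v)) <;> cases c <;> simp

/-- sets of levels -/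
def SS (a : ℕ) : Set ℕ := {n | (Nat.unpair n).1 = a}

theorem phi_sw (S : Set ℕ) (v : Wd) [Decidable (v.length ∈ S)] :
    phi S (sw v) = Multiplicative.ofAdd (if v.length ∈ S then 1 else 0) := by
  show Multiplicative.ofAdd (∑ᶠ u, wt S (lab (sw v)) u) = _
  congr 1
  rw [finsum_eq_single _ v]
  · unfold wt
    rw [lab_sw, decide_eq_true rfl]
    split_ifs <;> simp [bz]
  · intro u hu
    unfold wt
    rw [lab_sw, decide_eq_false hu]
    simp [bz]

/-- There is a branch group (faithful, level-transitive on a locally finite rooted tree, finite-index rigid level stabilizers) with infinitely many pairwise inequivalent descending sequences of finite-index normal subgroups with trivial intersection. -/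
theorem result :
    ∃ (G : Type) (_ : Group G) (V : Type) (_ : MulAction G V) (lev : V → ℕ) (par : V → V),
      (∀ v w : V, lev v = 0 → lev w = 0 → v = w) ∧
      (∃ v : V, lev v = 0) ∧
      (∀ w : V, lev w = 0 → par w = w) ∧
      (∀ w : V, lev w ≠ 0 → lev (par w) + 1 = lev w) ∧
      (∀ n : ℕ, {v : V | lev v = n}.Finite) ∧
      (∀ v : V, ∃ w₁ w₂ : V, w₁ ≠ w₂ ∧ par w₁ = v ∧ par w₂ = v ∧
          lev w₁ = lev v + 1 ∧ lev w₂ = lev v + 1) ∧
      (∀ (g : G) (w : V), lev (g • w) = lev w ∧ par (g • w) = g • par w) ∧
      (∀ g : G, (∀ v : V, g • v = v) → g = 1) ∧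
      (∀ v w : V, lev v = lev w → ∃ g : G, g • v = w) ∧
      (∀ n : ℕ, (Subgroup.closure {g : G | ∃ v : V, lev v = n ∧
          ∀ w : V, (∀ k : ℕ, par^[k] w ≠ v) → g • w = w}).FiniteIndex) ∧
      ∃ M : ℕ → ℕ → Subgroup G,
        (∀ a : ℕ, Antitone (M a) ∧ (∀ i : ℕ, (M a i).Normal ∧ (M a i).FiniteIndex) ∧
            (⨅ i : ℕ, M a i) = ⊥) ∧
        (∀ a b : ℕ, a ≠ b →
            ¬ ((∀ i : ℕ, ∃ j : ℕ, M b j ≤ M a i) ∧ (∀ i : ℕ, ∃ j : ℕ, M a j ≤ M b i))) := by
  classical
  refine ⟨FG, inferInstance, Wd, inferInstance, List.length, List.tail, ?_, ⟨[], rfl⟩, ?_, ?_, ?_, ?_,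
    ?_, ?_, ?_, ?_, ?_⟩
  · intro v w hv hw
    rw [List.length_eq_zero_iff] at hv hw
    rw [hv, hw]
  · intro w hw
    rw [List.length_eq_zero_iff] at hw
    subst hw; rfl
  · intro w hw
    rw [List.length_tail]
    omega
  · intro n
    exact List.finite_length_eq Bool n
  · intro v
    exact ⟨false :: v, true :: v, by simp, rfl, rfl, rfl, rfl⟩
  · intro g w
    refine ⟨length_apply g w, ?_⟩
    cases w with
    | nil =>
      have : (g : Equiv.Perm Wd) [] = [] := List.length_eq_zero_iff.1 (length_apply g [])
      show List.tail ((g : Equiv.Perm Wd) []) = (g : Equiv.Perm Wd) []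
      rw [this]; rfl
    | cons b v =>
      show List.tail ((g : Equiv.Perm Wd) (b :: v)) = (g : Equiv.Perm Wd) v
      rw [cons_apply]; rfl
  · intro g hg
    apply Subtype.ext
    ext1 v
    exact hg v
  · intro v w h
    exact trans_level _ v w rfl h.symm
  · intro n
    have h1 : (R n).ker.FiniteIndex := inferInstance
    exact Subgroup.finiteIndex_of_le (ker_le n)
  · refine ⟨fun a i => (R i).ker ⊓ (phi (SS a)).ker, fun a => ⟨?_, ?_, ?_⟩, ?_⟩
    · intro i j hij
      exact inf_le_inf_right _ (ker_anti hij)
    · intro i
      exact ⟨inferInstance, inferInstance⟩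
    · rw [eq_bot_iff]
      intro g hg
      rw [Subgroup.mem_iInf] at hg
      rw [Subgroup.mem_bot]
      apply Subtype.ext
      ext1 w
      have := (Subgroup.mem_inf.1 (hg w.length)).1
      rw [mem_ker_R] at this
      exact this w rfl
    · rintro a b hab ⟨h, _⟩
      obtain ⟨j, hj⟩ := h 0
      have hsw : sw (List.replicate (Nat.pair a j) false) ∈ (R j).ker ⊓ (phi (SS b)).ker := by
        refine Subgroup.mem_inf.2 ⟨?_, ?_⟩
        · rw [mem_ker_R]
          intro w hw
          apply sw_short
          rw [List.length_replicate, hw]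
          exact Nat.right_le_pair a j
        · rw [MonoidHom.mem_ker, phi_sw, if_neg]
          · rfl
          · rw [List.length_replicate]
            show ¬ (Nat.unpair (Nat.pair a j)).1 = b
            rw [Nat.unpair_pair]
            exact hab
      have h2 := (Subgroup.mem_inf.1 (hj hsw)).2
      rw [MonoidHom.mem_ker, phi_sw, if_pos] at h2
      · have h3 : (1 : ZMod 2) = 0 := Multiplicative.ofAdd.injective h2
        exact absurd h3 (by decide)
      · rw [List.length_replicate]
        show (Nat.unpair (Nat.pair a j)).1 = a
        rw [Nat.unpair_pair]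

end Pool.Agent.S00249
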