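import Pool.Statements.S00308

set_option autoImplicit false
open Pool Pool.MP_0b625c_al

namespace Pool.Agent.S00308

open Topology Uniformity

/-- A bijection between the circle and `ℕ × circle`. -/
theorem exists_equiv : Nonempty (Circle ≃ ℕ × Circle) := by
  have h1 : Cardinal.mk Circle = Cardinal.continuum := by
    apply le_antisymm
    · calc Cardinal.mk Circle ≤ Cardinal.mk ℂ :=
            Cardinal.mk_le_of_injective (f := fun z : Circle => (z : ℂ)) Subtype.val_injective
        _ = Cardinal.continuum := Cardinal.mk_complex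
    · have : Cardinal.mk (Set.Ioc (0 : ℝ) 1) ≤ Cardinal.mk Circle := by
        refine Cardinal.mk_le_of_injective (f := fun t : Set.Ioc (0 : ℝ) 1 => Circle.exp t) ?_
        intro a b hab
        have h2 : (a : ℝ) ∈ Set.Ioc (-Real.pi) Real.pi :=
          ⟨by linarith [a.2.1, Real.pi_pos], by linarith [a.2.2, Real.pi_gt_three]⟩
        have h3 : (b : ℝ) ∈ Set.Ioc (-Real.pi) Real.pi :=
          ⟨by linarith [b.2.1, Real.pi_pos], by linarith [b.2.2, Real.pi_gt_three]⟩
        have h4 := congrArg (fun z : Circle => Complex.arg z) hab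
        simp only at h4
        rw [Circle.arg_exp h2.1 h2.2, Circle.arg_exp h3.1 h3.2] at h4
        exact Subtype.ext h4
      rwa [Cardinal.mk_Ioc_real one_pos] at this
  have h2 : Cardinal.mk Circle = Cardinal.mk (ℕ × Circle) := by
    rw [Cardinal.mk_prod, Cardinal.lift_id, Cardinal.lift_id, h1, Cardinal.mk_nat]
    simp
  exact Cardinal.eq.1 h2

theorem cg : (𝓤 (UniformFun Circle Circle)).IsCountablyGenerated := by
  have h := UniformFun.hasBasis_uniformity_of_basis Circle Circle
      (Metric.uniformity_basis_dist_inv_nat_succ)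
  exact Filter.HasCountableBasis.isCountablyGenerated ⟨h, Set.to_countable _⟩

theorem cg' : (𝓤 (ℕ → UniformFun Circle Circle)).IsCountablyGenerated := by
  have := cg
  rw [Pi.uniformity]
  infer_instance

/-- The negation of the preceding statement: Take the group of all unit-circle-valued maps on the unit circle, with pointwise product and sup metric. Every continuous bijective homomorphism from it onto a complete metric topological group has a continuous inverse. -/
theorem result :
    ¬ (∀ (E₁ : Type) [Group E₁] [MetricSpace E₁] [CompleteSpace E₁] [IsTopologicalGroup E₁]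
      (U : (Circle → Circle) →* E₁),
      Function.Bijective U →
      (∀ x : Circle → Circle, ∀ ε > (0 : ℝ), ∃ δ > (0 : ℝ), ∀ y : Circle → Circle,
          (∀ q : Circle, dist (x q) (y q) ≤ δ) → dist (U x) (U y) < ε) →
      (∀ x : Circle → Circle, ∀ ε > (0 : ℝ), ∃ δ > (0 : ℝ), ∀ y : Circle → Circle,
          dist (U x) (U y) < δ → ∀ q : Circle, dist (x q) (y q) ≤ ε)) := by
  intro H
  obtain ⟨e⟩ := exists_equiv
  have hcg := cg'
  let iM : MetricSpace (ℕ → UniformFun Circle Circle) := UniformSpace.metricSpace _
  let U : (Circle → Circle) →* (ℕ → UniformFun Circle Circle) :=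
    { toFun := fun x n => UniformFun.ofFun fun q => x (e.symm (n, q))
      map_one' := rfl
      map_mul' := fun _ _ => rfl }
  have hbij : Function.Bijective U := by
    constructor
    · intro x y hxy
      funext q
      have := congrFun (congrFun hxy (e q).1) (e q).2
      change x (e.symm ((e q).1, (e q).2)) = y (e.symm ((e q).1, (e q).2)) at this
      simpa using this
    · intro z
      refine ⟨fun q => UniformFun.toFun (z (e q).1) (e q).2, ?_⟩
      funext n
      change UniformFun.ofFun _ = _
      have : (fun q => (fun q => UniformFun.toFun (z (e q).1) (e q).2) (e.symm (n, q)))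
          = UniformFun.toFun (z n) := by
        funext q; simp
      rw [this]
      rfl
  have hV : UniformContinuous (fun x : UniformFun Circle Circle => U (UniformFun.toFun x)) := by
    rw [uniformContinuous_pi]
    intro n
    exact UniformFun.precomp_uniformContinuous (f := fun q => e.symm (n, q))
  have hcont : ∀ x : Circle → Circle, ∀ ε > (0 : ℝ), ∃ δ > (0 : ℝ), ∀ y : Circle → Circle,
      (∀ q : Circle, dist (x q) (y q) ≤ δ) → dist (U x) (U y) < ε := by
    intro x ε hε
    have h1 : {p : (ℕ → UniformFun Circle Circle) × (ℕ → UniformFun Circle Circle) |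
        dist p.1 p.2 < ε} ∈ 𝓤 (ℕ → UniformFun Circle Circle) := Metric.dist_mem_uniformity hε
    obtain ⟨δ, hδ, h3⟩ := (UniformFun.hasBasis_uniformity_of_basis Circle Circle
      Metric.uniformity_basis_dist_le).mem_iff.1 (Filter.mem_map.1 (hV h1))
    refine ⟨δ, hδ, fun y hy => ?_⟩
    exact @h3 (UniformFun.ofFun x, UniformFun.ofFun y) hy
  have hc : CompleteSpace (ℕ → UniformFun Circle Circle) :=
    Pi.complete (fun _ : ℕ => UniformFun Circle Circle)
  have ht : IsTopologicalGroup (ℕ → UniformFun Circle Circle) := inferInstance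
  obtain ⟨δ, hδ, h⟩ := @H (ℕ → UniformFun Circle Circle) _ iM hc ht U hbij hcont 1 1 one_pos
  let y : ℕ → Circle → Circle := fun n r => if (e r).1 = n then -1 else 1
  have hlim : Filter.Tendsto (fun n => U (y n)) Filter.atTop (𝓝 (U 1)) := by
    rw [tendsto_pi_nhds]
    intro m
    apply tendsto_const_nhds.congr'
    filter_upwards [Filter.eventually_gt_atTop m] with n hn
    change UniformFun.ofFun _ = UniformFun.ofFun _
    congr 1
    funext q
    simp [y, hn.ne]
  rw [Metric.tendsto_atTop] at hlim
  obtain ⟨N, hN⟩ := hlim δ hδ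
  have h4 := hN N le_rfl
  rw [dist_comm] at h4
  have h5 := h (y N) h4 (e.symm (N, 1))
  have h6 : y N (e.symm (N, 1)) = -1 := by simp [y]
  rw [h6] at h5
  have h7 : dist (1 : Circle) (-1) = 2 := by
    change dist ((1 : Circle) : ℂ) ((-1 : Circle) : ℂ) = 2
    rw [Complex.dist_eq]
    norm_num
  rw [Pi.one_apply, h7] at h5
  norm_num at h5

end Pool.Agent.S00308
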