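import Pool.Statements.S00358
import Pool.Agent.H551R2.Special

set_option autoImplicit false
open Pool Pool.MP_12f9b1_al

namespace Pool.Agent.S00358

/-- The negation of the preceding statement: There is a class of prime rings, hereditary on nonzero ideals and closed under essential extensions, whose upper radical equals the radical of rings having no nonzero homomorphic image free of nonzero one-sided nil ideals. -/
theorem result :
    ¬ (∃ M : (S : Type) → NonUnitalRing S → Prop,
      (∀ (S : Type) [iS : NonUnitalRing S], M S iS →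
          Nontrivial S ∧ ∀ a b : S, (∀ r : S, a * r * b = 0) → a = 0 ∨ b = 0) ∧
      (∀ (A K : Type) [iA : NonUnitalRing A] [iK : NonUnitalRing K] (f : A →ₙ+* K),
          Function.Injective f →
          (∀ (k : K) (a : A), k * f a ∈ Set.range f ∧ f a * k ∈ Set.range f) →
          ((Nontrivial A → M K iK → M A iA) ∧
           ((∀ J : AddSubgroup K, (∀ (k x : K), x ∈ J → k * x ∈ J ∧ x * k ∈ J) → J ≠ ⊥ →
               ∃ a : A, f a ≠ 0 ∧ f a ∈ J) → M A iA → M K iK))) ∧
      (∀ (R : Type) [iR : NonUnitalRing R],
        (∀ (S : Type) [iS : NonUnitalRing S] (g : R →ₙ+* S), Function.Surjective g →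
            (∀ L : AddSubgroup S,
               ((∀ (r x : S), x ∈ L → r * x ∈ L) ∨ (∀ (r x : S), x ∈ L → x * r ∈ L)) →
               (∀ x ∈ L, ∃ n : ℕ, (fun y => x * y)^[n] x = 0) → L = ⊥) →
            Subsingleton S) ↔
        (∀ (S : Type) [iS : NonUnitalRing S] (g : R →ₙ+* S), Function.Surjective g →
            M S iS → Subsingleton S))) := by
  obtain ⟨A, _, J, φ, hA, H1, H2, H3⟩ := Pool.Agent.H551R2.exists_ring
  exact Pool.Agent.H551R2.not_special φ hA H1 H2 H3

end Pool.Agent.S00358
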