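import Pool.Statements.S00394
import Pool.Agent.Helper512.GenNumbers
-- import your own Pool.Agent.* helpers here

set_option autoImplicit false
open Pool Pool.MP_183baf_al

namespace Pool.Agent.S00394

/-- The negation of the preceding statement: For each n ≥ 2 there is C such that every finitely generated residually finite group whose finite quotients need at most n generators, with some needing exactly n, is itself generated by at most C elements. -/
theorem result :
    ¬ (∀ n : ℕ, 2 ≤ n → ∃ C : ℕ, ∀ (G : Type) [Group G], Group.FG G →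
      (∀ g : G, g ≠ 1 → ∃ N : Subgroup G, N.Normal ∧ N.FiniteIndex ∧ g ∉ N) →
      (∀ (Q : Type) [Group Q] [Finite Q] (f : G →* Q), Function.Surjective f →
        ∃ S : Finset Q, S.card ≤ n ∧ Subgroup.closure (S : Set Q) = ⊤) →
      (∃ (Q : Type) (_ : Group Q) (_ : Finite Q) (f : G →* Q), Function.Surjective f ∧
        ∀ S : Finset Q, S.card ≤ n - 1 → Subgroup.closure (S : Set Q) ≠ ⊤) →
      ∃ S : Finset G, S.card ≤ C ∧ Subgroup.closure (S : Set G) = ⊤) := by
  intro H
  obtain ⟨C2, h2⟩ := H 2 le_rfl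
  obtain ⟨C3, h3⟩ := H 3 (by norm_num)
  obtain ⟨G, instG, hfg, hder, hrf, hle3, hnc, hlow⟩ :=
    Pool.Agent.Helper512.GenNumbers.main (max C2 C3 + 1)
  have h6 := le_max_left C2 C3
  have h7 := le_max_right C2 C3
  by_cases hall : ∀ (Q : Type) [Group Q] [Finite Q] (f : G →* Q), Function.Surjective f →
        ∃ S : Finset Q, S.card ≤ 2 ∧ Subgroup.closure (S : Set Q) = ⊤
  · obtain ⟨S, hS, hcl⟩ := h2 G hfg hrf hall hnc
    have h4 := hlow S hcl
    omega
  · push Not at hall
    obtain ⟨Q, iQ, fQ, f, hf, hno⟩ := hall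
    obtain ⟨S, hS, hcl⟩ := h3 G hfg hrf hle3
      ⟨Q, iQ, fQ, f, hf, fun S hS => hno S hS⟩
    have h4 := hlow S hcl
    omega

end Pool.Agent.S00394
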