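import Pool.Statements.S00480
import Pool.Agent.H177R2.WA.Final

set_option autoImplicit false
open Pool Pool.MP_215338_al

namespace Pool.Agent.S00480

/-- The negation of the preceding statement: An ℓ-group is weakly abelian (x⁻¹yx ≤ y² whenever y ≥ 1) exactly when it is an ℓ-homomorphic image of a sub-ℓ-group of a product of nilpotent ℓ-groups, i.e. lies in the variety generated by all N_k. -/
theorem result :
    ¬ (∀ (G : Type) [Group G] [Lattice G] [MulLeftMono G] [MulRightMono G],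
      (∀ x y : G, 1 ≤ y → x⁻¹ * y * x ≤ y * y) ↔
      ∃ (I : Type) (H : I → Type) (_ : ∀ i, Group (H i)) (_ : ∀ i, Lattice (H i))
        (_ : ∀ i, MulLeftMono (H i)) (_ : ∀ i, MulRightMono (H i))
        (_ : ∀ i, Group.IsNilpotent (H i))
        (S : Set (∀ i, H i)) (f : (∀ i, H i) → G),
        (1 ∈ S) ∧ (∀ a ∈ S, ∀ b ∈ S, a * b ∈ S) ∧ (∀ a ∈ S, a⁻¹ ∈ S) ∧
        (∀ a ∈ S, ∀ b ∈ S, a ⊔ b ∈ S) ∧ (∀ a ∈ S, ∀ b ∈ S, a ⊓ b ∈ S) ∧
        (∀ a ∈ S, ∀ b ∈ S,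
          f (a * b) = f a * f b ∧ f (a ⊔ b) = f a ⊔ f b ∧ f (a ⊓ b) = f a ⊓ f b) ∧
        (∀ g : G, ∃ a ∈ S, f a = g)) := by
  intro h
  obtain ⟨I, H, i1, i2, i3, i4, i5, S, f, h1, hm, hi, _, hinf, hf, hsurj⟩ :=
    (h Pool.Agent.H177R2.WA.GG).mp Pool.Agent.H177R2.WA.GG.weaklyAbelian
  exact Pool.Agent.H177R2.WA.not_HSP I H i1 i2 i3 i4 i5 S f h1 hm hi hinf hf hsurj

end Pool.Agent.S00480
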