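import Pool.Statements.S00509
import Pool.Agent.H100R2.SC.A1
import Pool.Agent.H100R2.SC.A10
import Pool.Agent.H100R2.SC.B3
import Pool.Agent.H100R2.SC.F1

set_option autoImplicit false
open Pool Pool.MP_243a18_al

namespace Pool.Agent.S00509

/-- For every discrete, torsion-free, cocompact subgroup of SL(2,R), the boundary homeomorphisms of the projective line induced by isomorphisms between its finite-index subgroups are dense among all homeomorphisms of the circle. -/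
theorem result :
    ∀ Γ : Subgroup (Matrix.SpecialLinearGroup (Fin 2) ℝ),
      (∃ ε : ℝ, 0 < ε ∧ ∀ γ ∈ Γ,
        (∀ i j : Fin 2, |(γ : Matrix (Fin 2) (Fin 2) ℝ) i j
            - (1 : Matrix (Fin 2) (Fin 2) ℝ) i j| < ε) → γ = 1) →
      (∀ γ ∈ Γ, ∀ n : ℕ, 0 < n → γ ^ n = 1 → γ = 1) →
      (∃ C : ℝ, ∀ A : Matrix.SpecialLinearGroup (Fin 2) ℝ, ∃ γ ∈ Γ, ∀ i j : Fin 2,
        |((γ⁻¹ * A : Matrix.SpecialLinearGroup (Fin 2) ℝ) : Matrix (Fin 2) (Fin 2) ℝ) i j| ≤ C) →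
      ∀ f : OnePoint ℝ ≃ₜ OnePoint ℝ,
        ContinuousMap.mk (⇑f) f.continuous ∈ closure
          {k : C(OnePoint ℝ, OnePoint ℝ) | ∃ h : OnePoint ℝ ≃ₜ OnePoint ℝ,
            ContinuousMap.mk (⇑h) h.continuous = k ∧
            ∃ H K : Subgroup (Matrix.SpecialLinearGroup (Fin 2) ℝ),
              H ≤ Γ ∧ K ≤ Γ ∧ (H.subgroupOf Γ).index ≠ 0 ∧ (K.subgroupOf Γ).index ≠ 0 ∧
              ∃ φ : H ≃* K, ∀ g : H, ∀ x y : ℝ,
                ((g : Matrix.SpecialLinearGroup (Fin 2) ℝ) : Matrix (Fin 2) (Fin 2) ℝ) 1 0 * x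
                  + ((g : Matrix.SpecialLinearGroup (Fin 2) ℝ) : Matrix (Fin 2) (Fin 2) ℝ) 1 1 ≠ 0 →
                h (OnePoint.some x) = OnePoint.some y →
                (((φ g : K) : Matrix.SpecialLinearGroup (Fin 2) ℝ) : Matrix (Fin 2) (Fin 2) ℝ) 1 0 * y
                  + (((φ g : K) : Matrix.SpecialLinearGroup (Fin 2) ℝ) : Matrix (Fin 2) (Fin 2) ℝ) 1 1 ≠ 0 →
                h (OnePoint.some
                    ((((g : Matrix.SpecialLinearGroup (Fin 2) ℝ) : Matrix (Fin 2) (Fin 2) ℝ) 0 0 * x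
                      + ((g : Matrix.SpecialLinearGroup (Fin 2) ℝ) : Matrix (Fin 2) (Fin 2) ℝ) 0 1) /
                     (((g : Matrix.SpecialLinearGroup (Fin 2) ℝ) : Matrix (Fin 2) (Fin 2) ℝ) 1 0 * x
                      + ((g : Matrix.SpecialLinearGroup (Fin 2) ℝ) : Matrix (Fin 2) (Fin 2) ℝ) 1 1)))
                  = OnePoint.some
                    (((((φ g : K) : Matrix.SpecialLinearGroup (Fin 2) ℝ) : Matrix (Fin 2) (Fin 2) ℝ) 0 0 * y
                      + (((φ g : K) : Matrix.SpecialLinearGroup (Fin 2) ℝ) : Matrix (Fin 2) (Fin 2) ℝ) 0 1) /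
                     ((((φ g : K) : Matrix.SpecialLinearGroup (Fin 2) ℝ) : Matrix (Fin 2) (Fin 2) ℝ) 1 0 * y
                      + (((φ g : K) : Matrix.SpecialLinearGroup (Fin 2) ℝ) : Matrix (Fin 2) (Fin 2) ℝ) 1 1))} := by
  intro Γ h1 h2 h3 f
  have hΓ : Pool.Agent.H100R2.SC.Fuchs (Pool.Agent.H100R2.SC.toGG Γ) :=
    Pool.Agent.H100R2.SC.fuchs_toGG Γ h1 h2 h3
  apply Pool.Agent.H100R2.SC.mem_closure_of_dd
  intro ε hε
  obtain ⟨k, hk, hd⟩ := Pool.Agent.H100R2.SC.density_all hΓ f ε hε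
  exact ⟨ContinuousMap.mk (⇑k) k.continuous,
    ⟨k, rfl, Pool.Agent.H100R2.SC.good_pack Γ hΓ k hk⟩, hd⟩

end Pool.Agent.S00509
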