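import Pool.Statements.S00528
import Pool.Agent.H918R4.FinB

set_option autoImplicit false
open Pool Pool.MP_25ed17_al

namespace Pool.Agent.S00528

/-- The negation of the preceding statement: For every field K where −1 is a sum of squares and every r: if K((t)) has an anisotropic system of r quadratic forms in n variables, some positive multiple of which vanishes on a half-dimensional subspace, then K has such a system in at least n/2 variables. -/
theorem result :
    ¬ (∀ (K : Type) [Field K], IsSumSq (-1 : K) →
      ∀ r n : ℕ,
        (∃ q : QuadraticMap (LaurentSeries K) (Fin n → LaurentSeries K) (Fin r → LaurentSeries K),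
          (∀ x, q x = 0 → x = 0) ∧
          ∃ m : ℕ, 0 < m ∧
            ∃ W : Submodule (LaurentSeries K) (Fin m → Fin n → LaurentSeries K),
              m * n ≤ 2 * Module.finrank (LaurentSeries K) W ∧
              ∀ x ∈ W, ∑ i, q (x i) = 0) →
        ∃ n' : ℕ, n ≤ 2 * n' ∧
          ∃ q : QuadraticMap K (Fin n' → K) (Fin r → K),
            (∀ x, q x = 0 → x = 0) ∧
            ∃ m : ℕ, 0 < m ∧
              ∃ W : Submodule K (Fin m → Fin n' → K),
                m * n' ≤ 2 * Module.finrank K W ∧
                ∀ x ∈ W, ∑ i, q (x i) = 0) := by
  exact Pool.Agent.H918R4.final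

end Pool.Agent.S00528
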