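import Pool.Statements.S00598
import Pool.Agent.H70R2.LatAut

set_option autoImplicit false
open Pool Pool.MP_2d9567_al

namespace Pool.Agent.S00598

/-- The negation of the preceding statement: If an ℓ-group G has the property that every group operation compatible with its lattice gives an ℓ-group isomorphic to G via a lattice automorphism, then G is abelian. -/
theorem result :
    ¬ (∀ (L : Type) [Lattice L] (G : Group L),
      (∀ a b c : L, a ≤ b → G.mul c a ≤ G.mul c b ∧ G.mul a c ≤ G.mul b c) →
      (∀ H : Group L,
        (∀ a b c : L, a ≤ b → H.mul c a ≤ H.mul c b ∧ H.mul a c ≤ H.mul b c) →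
        ∃ φ : L ≃o L, ∀ x y : L, φ (G.mul x y) = H.mul (φ x) (φ y)) →
      ∀ x y : L, G.mul x y = G.mul y x) := by
  intro hall
  have h1 := hall Pool.Agent.H70R2.LatAut.L
    (inferInstance : Group Pool.Agent.H70R2.LatAut.L)
    (by
      intro a b c hab
      constructor
      · intro x
        exact (Pool.Agent.H70R2.LatAut.L.le_iff c).mpr (Pool.Agent.H70R2.LatAut.L.app hab x)
      · intro x
        exact Pool.Agent.H70R2.LatAut.L.app hab (c x))
    (by
      intro H hH
      have key := Pool.Agent.H70R2.LatAut.main (m := H.mul) (e := H.one) (i := H.inv)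
        H.mul_assoc H.one_mul H.mul_one H.inv_mul_cancel
        (fun a => @mul_inv_cancel _ H a)
        (fun a b c hab => (hH a b c hab).1) (fun a b c hab => (hH a b c hab).2)
      rcases key with key | key
      · exact ⟨Pool.Agent.H70R2.LatAut.isoRight H.one, fun x y =>
          Pool.Agent.H70R2.LatAut.isoRight_mul key x y⟩
      · exact ⟨Pool.Agent.H70R2.LatAut.isoOp H.one, fun x y =>
          Pool.Agent.H70R2.LatAut.isoOp_mul key x y⟩)
  exact Pool.Agent.H70R2.LatAut.not_comm h1

end Pool.Agent.S00598
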