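import Pool.Statements.S00740
import Pool.Agent.Helper218.Ex4

set_option autoImplicit false
open Pool Pool.MP_3dadb8_al

namespace Pool.Agent.S00740

/-- The negation of the preceding statement: Every Fitting class of finite soluble groups whose radical of a direct product is the product of the radicals is R0-closed: if G has quotients by two normal subgroups meeting trivially both in the class, then G is in it. -/
theorem result :
    ¬ (∀ (X : (G : Type) → [Group G] → Prop),
      (∃ (G : Type) (_ : Group G), X G) →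
      (∀ (G : Type) [Group G], X G → Finite G ∧ IsSolvable G) →
      (∀ (G H : Type) [Group G] [Group H], Nonempty (G ≃* H) → X G → X H) →
      (∀ (G : Type) [Group G] (N : Subgroup G), N.Normal → X G → X ↥N) →
      (∀ (G : Type) [Group G] [Finite G], IsSolvable G →
          ∀ (M N : Subgroup G), M.Normal → N.Normal → X ↥M → X ↥N → X ↥(M ⊔ N)) →
      (∀ (G H : Type) [Group G] [Group H] [Finite G] [Finite H],
          IsSolvable G → IsSolvable H →
          (⨆ (K : Subgroup (G × H)) (_ : K.Normal ∧ X ↥K), K) =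
            (⨆ (A : Subgroup G) (_ : A.Normal ∧ X ↥A), A).prod
              (⨆ (B : Subgroup H) (_ : B.Normal ∧ X ↥B), B)) →
      ∀ (G : Type) [Group G] [Finite G], IsSolvable G →
        ∀ (H₁ H₂ : Type) [Group H₁] [Group H₂] (f₁ : G →* H₁) (f₂ : G →* H₂),
          Function.Surjective f₁ → Function.Surjective f₂ →
          f₁.ker ⊓ f₂.ker = ⊥ → X H₁ → X H₂ → X G) := by
  intro h
  refine Pool.Agent.Helper218.BigB_not_cls ?_
  have : Fact (Nat.Prime 7) := ⟨by norm_num⟩
  have : Fact (Nat.Prime 3) := ⟨by norm_num⟩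
  have hcop : Nat.Coprime 7 3 := by norm_num
  refine h (fun G _ => Pool.Agent.Helper218.Cls 7 3 1 G) ?_ ?_ ?_ ?_ ?_ ?_
    Pool.Agent.Helper218.BigB ?_ (Pool.Agent.Helper218.QuoB 0) (Pool.Agent.Helper218.QuoB 1)
    (Pool.Agent.Helper218.quo 0) (Pool.Agent.Helper218.quo 1)
    (Pool.Agent.Helper218.quo_surj 0) (Pool.Agent.Helper218.quo_surj 1)
    Pool.Agent.Helper218.quo_ker_inf (Pool.Agent.Helper218.QuoB_cls 0)
    (Pool.Agent.Helper218.QuoB_cls 1)
  · exact ⟨_, inferInstance, Pool.Agent.Helper218.QuoB_cls 0⟩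
  · intro G _ hG
    exact ⟨Pool.Agent.Helper218.Cls_fin hG, Pool.Agent.Helper218.Cls_solvable hG⟩
  · rintro G H _ _ ⟨e⟩ hG
    exact Pool.Agent.Helper218.Cls_iso e hG
  · intro G _ N hN hG
    exact Pool.Agent.Helper218.Cls_normal hcop N hN hG
  · intro G _ _ _ M N hM hN hM' hN'
    exact Pool.Agent.Helper218.Cls_sup hcop (by norm_num) M N hM hN hM' hN'
  · intro G H _ _ _ _ _ _
    exact Pool.Agent.Helper218.Cls_lockett hcop G H
  · have : Group.IsSolvable ((Pool.Agent.Helper218.QuoB 0) × (Pool.Agent.Helper218.QuoB 1)) := by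
      have := Pool.Agent.Helper218.Cls_solvable (Pool.Agent.Helper218.QuoB_cls 0)
      have := Pool.Agent.Helper218.Cls_solvable (Pool.Agent.Helper218.QuoB_cls 1)
      infer_instance
    have hinj : Function.Injective
        ((Pool.Agent.Helper218.quo 0).prod (Pool.Agent.Helper218.quo 1)) := by
      rw [← MonoidHom.ker_eq_bot_iff, MonoidHom.ker_prod]
      exact Pool.Agent.Helper218.quo_ker_inf
    exact Group.isSolvable_of_isSolvable_injective hinj

end Pool.Agent.S00740
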