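import Pool.Statements.S00782
import Mathlib

set_option autoImplicit false
open Pool Pool.MP_42baf1_al

namespace Pool.Agent.S00782

/-! Disproof.  For a prime `n = 2h+1` the group generated by `c : x ↦ x + 2` and the transposition
`t = (0 1)` of `Fin n` is the full symmetric group.  A pair `{a < b}` is given a potential
`M * kk + gg` with `M = (h+1)/2`; neither generator lowers it by more than one, it vanishes on
`{0, 1}` and is at least `M * (h/2)` on `{0, h}`.  So moving `{0, h}` to `{0, 1}` needs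
quadratically many letters. -/

/-- number of the block of classes -/
def kk (h a b : ℕ) : ℕ :=
  if b - a ≤ h then (b - a) / 2 else (2 * h + 1 - (b - a)) / 2

/-- level within the block -/
def gg (h M a b : ℕ) : ℕ :=
  if b - a ≤ h then
    (if (b - a) % 2 = 0 then 0 else
      (if a % 2 = 0 then min M (a / 2) else min M ((2 * h + 2 - b) / 2)))
  else
    (if (b - a) % 2 = 1 then 0 else (if b % 2 = 0 then M else 0))

theorem gg_le (h M a b : ℕ) : gg h M a b ≤ M := by
  unfold gg
  split_ifs <;> omega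

/-- admissible transitions -/
def Rel (h M a b a' b' : ℕ) : Prop :=
  (kk h a' b' = kk h a b ∧ gg h M a b ≤ gg h M a' b' + 1) ∨
    (kk h a' b' = kk h a b + 1) ∨
    (kk h a' b' + 1 = kk h a b ∧ gg h M a' b' = M ∧ gg h M a b = 0)

theorem rel1 (h M a b : ℕ) (hM : M = (h + 1) / 2) (hab : a < b) (hb : b + 2 < 2 * h + 1) :
    Rel h M a b (a + 2) (b + 2) := by
  unfold Rel kk gg
  left
  have e : b + 2 - (a + 2) = b - a := by omega
  rw [e]
  refine ⟨rfl, ?_⟩
  split_ifs <;> omega

theorem rel2 (h M a b : ℕ) (hM : M = (h + 1) / 2) (hab : a < b) (ha : a + 2 < 2 * h + 1)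
    (hb1 : b < 2 * h + 1) (hb : 2 * h + 1 ≤ b + 2) (h2 : 2 ≤ h) :
    Rel h M a b (b + 2 - (2 * h + 1)) (a + 2) := by
  unfold Rel kk gg
  rcases (by omega : b = 2 * h ∨ b = 2 * h - 1) with rfl | rfl
  · split_ifs <;> omega
  · split_ifs <;> omega

theorem rel3 (h M : ℕ) (hM : M = (h + 1) / 2) (h2 : 2 ≤ h) :
    Rel h M (2 * h - 1) (2 * h) 0 1 := by
  unfold Rel kk gg
  split_ifs <;> omega

theorem rel4 (h M b : ℕ) (hM : M = (h + 1) / 2) (h2 : 2 ≤ h) (hb : 2 ≤ b) (hb1 : b < 2 * h + 1) :
    Rel h M 0 b 1 b := by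
  obtain ⟨c, rfl⟩ : ∃ c, b = c + 1 := ⟨b - 1, by omega⟩
  unfold Rel kk gg
  rw [Nat.sub_zero, Nat.add_sub_cancel]
  split_ifs <;> first | omega | contradiction

theorem rel5 (h M b : ℕ) (hM : M = (h + 1) / 2) (h2 : 2 ≤ h) (hb : 2 ≤ b) (hb1 : b < 2 * h + 1) :
    Rel h M 1 b 0 b := by
  obtain ⟨c, rfl⟩ : ∃ c, b = c + 1 := ⟨b - 1, by omega⟩
  unfold Rel kk gg
  rw [Nat.sub_zero, Nat.add_sub_cancel]
  split_ifs <;> omega

theorem rel6 (h M a b : ℕ) : Rel h M a b a b := by
  left
  exact ⟨rfl, by omega⟩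

/-- potential of an ordered pair -/
def pot (h M x y : ℕ) : ℕ :=
  M * kk h (min x y) (max x y) + gg h M (min x y) (max x y)

theorem pot_symm (h M x y : ℕ) : pot h M x y = pot h M y x := by
  unfold pot
  rw [min_comm, max_comm]

theorem pot_lt {h M x y : ℕ} (hxy : x < y) : pot h M x y = M * kk h x y + gg h M x y := by
  unfold pot
  rw [min_eq_left hxy.le, max_eq_right hxy.le]

theorem pot_of_rel {h M a b a' b' : ℕ} (hab : a < b) (hab' : a' < b') (hr : Rel h M a b a' b') :
    pot h M a b ≤ pot h M a' b' + 1 := by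
  rw [pot_lt hab, pot_lt hab']
  have hg := gg_le h M a b
  rcases hr with ⟨h1, h2⟩ | h1 | ⟨h1, h2, h3⟩
  · rw [h1]; omega
  · rw [h1, Nat.mul_add]; omega
  · rw [← h1, h2, h3, Nat.mul_add]; omega

/-- the shift by two -/
def step (n x : ℕ) : ℕ := if x + 2 < n then x + 2 else x + 2 - n

/-- the transposition `(0 1)` -/
def tt (x : ℕ) : ℕ := if x = 0 then 1 else if x = 1 then 0 else x

theorem pot_step_lt (h M x y : ℕ) (hM : M = (h + 1) / 2) (hy : y < 2 * h + 1)
    (hxy : x < y) (h2 : 2 ≤ h) :
    pot h M x y ≤ pot h M (step (2 * h + 1) x) (step (2 * h + 1) y) + 1 := by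
  unfold step
  by_cases h1 : y + 2 < 2 * h + 1
  · rw [if_pos h1, if_pos (by omega : x + 2 < 2 * h + 1)]
    exact pot_of_rel hxy (by omega) (rel1 h M x y hM hxy h1)
  · rw [if_neg h1]
    by_cases h3 : x + 2 < 2 * h + 1
    · rw [if_pos h3, pot_symm h M (x + 2) _]
      exact pot_of_rel hxy (by omega) (rel2 h M x y hM hxy h3 hy (by omega) h2)
    · rw [if_neg h3]
      have hy' : y = 2 * h := by omega
      have hx' : x = 2 * h - 1 := by omega
      subst hy' hx'
      have e1 : 2 * h - 1 + 2 - (2 * h + 1) = 0 := by omega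
      have e2 : 2 * h + 2 - (2 * h + 1) = 1 := by omega
      rw [e1, e2]
      exact pot_of_rel hxy (by omega) (rel3 h M hM h2)

theorem pot_step (h M x y : ℕ) (hM : M = (h + 1) / 2) (hx : x < 2 * h + 1) (hy : y < 2 * h + 1)
    (hxy : x ≠ y) (h2 : 2 ≤ h) :
    pot h M x y ≤ pot h M (step (2 * h + 1) x) (step (2 * h + 1) y) + 1 := by
  rcases lt_or_gt_of_ne hxy with hlt | hlt
  · exact pot_step_lt h M x y hM hy hlt h2
  · rw [pot_symm h M x y, pot_symm h M (step _ x) _]
    exact pot_step_lt h M y x hM hx hlt h2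

theorem pot_tt_lt (h M x y : ℕ) (hM : M = (h + 1) / 2) (hy : y < 2 * h + 1)
    (hxy : x < y) (h2 : 2 ≤ h) :
    pot h M x y ≤ pot h M (tt x) (tt y) + 1 := by
  by_cases h0 : x = 0
  · subst h0
    by_cases h1 : y = 1
    · subst h1
      have e : pot h M (tt 0) (tt 1) = pot h M 0 1 := pot_symm h M 1 0
      rw [e]; omega
    · have e0 : tt 0 = 1 := rfl
      have e1 : tt y = y := by
        unfold tt
        rw [if_neg (by omega), if_neg h1]
      rw [e0, e1]
      exact pot_of_rel hxy (by omega) (rel4 h M y hM h2 (by omega) hy)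
  · by_cases h1 : x = 1
    · subst h1
      have e0 : tt 1 = 0 := rfl
      have e1 : tt y = y := by
        unfold tt
        rw [if_neg (by omega), if_neg (by omega)]
      rw [e0, e1]
      exact pot_of_rel hxy (by omega) (rel5 h M y hM h2 (by omega) hy)
    · have e0 : tt x = x := by
        unfold tt
        rw [if_neg h0, if_neg h1]
      have e1 : tt y = y := by
        unfold tt
        rw [if_neg (by omega), if_neg (by omega)]
      rw [e0, e1]; omega

theorem pot_tt (h M x y : ℕ) (hM : M = (h + 1) / 2) (hx : x < 2 * h + 1) (hy : y < 2 * h + 1)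
    (hxy : x ≠ y) (h2 : 2 ≤ h) :
    pot h M x y ≤ pot h M (tt x) (tt y) + 1 := by
  rcases lt_or_gt_of_ne hxy with hlt | hlt
  · exact pot_tt_lt h M x y hM hy hlt h2
  · rw [pot_symm h M x y, pot_symm h M (tt x) _]
    exact pot_tt_lt h M y x hM hx hlt h2

/-- The negation of the preceding statement: There is a constant C such that for every primitive G ≤ Sym(n) generated by S, every partition P and distinct points a, b: if some element of G sends a, b into one part of P, then some word over S of length at most C·n does too. -/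
theorem result :
    ¬ (∃ C : ℕ, ∀ (n : ℕ) (G : Subgroup (Equiv.Perm (Fin n))),
      MulAction.IsPreprimitive G (Fin n) →
      ∀ S : Set (Equiv.Perm (Fin n)), Subgroup.closure S = G →
      ∀ P : Setoid (Fin n), ∀ a b : Fin n, a ≠ b →
        (∃ g ∈ G, P.r (g a) (g b)) →
        ∃ w : List (Equiv.Perm (Fin n)), (∀ s ∈ w, s ∈ S) ∧
          w.length ≤ C * n ∧ P.r (w.prod a) (w.prod b)) := by
  rintro ⟨C, hC⟩
  obtain ⟨p, hpC, hp⟩ := Nat.exists_infinite_primes (40 * C + 40)
  obtain ⟨h, hh⟩ : ∃ h, p = 2 * h + 1 := by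
    rcases hp.eq_two_or_odd' with h2 | h2
    · omega
    · exact h2
  have : NeZero p := ⟨hp.ne_zero⟩
  have hh2 : 2 ≤ h := by omega
  have hp2 : 2 < p := by omega
  -- the generators
  let c : Equiv.Perm (Fin p) := Equiv.addRight (2 : Fin p)
  let z0 : Fin p := ⟨0, by omega⟩
  let z1 : Fin p := ⟨1, by omega⟩
  let zh : Fin p := ⟨h, by omega⟩
  have h01 : z0 ≠ z1 := by
    intro e
    have := congrArg Fin.val e
    simp [z0, z1] at this
  have h0h : z0 ≠ zh := by
    intro e
    have := congrArg Fin.val e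
    simp only [z0, zh] at this
    omega
  let t : Equiv.Perm (Fin p) := Equiv.swap z0 z1
  have hcv : ∀ x : Fin p, (c x).val = (x.val + 2) % p := by
    intro x
    have h1 : ((2 : Fin p) : ℕ) = 2 := by
      have := Fin.val_natCast 2 p
      rw [Nat.mod_eq_of_lt hp2] at this
      exact_mod_cast this
    show (x + 2 : Fin p).val = _
    rw [Fin.val_add, h1]
  have hcval : ∀ x : Fin p, (c x).val = step (2 * h + 1) x.val := by
    intro x
    rw [hcv]
    unfold step
    have := x.isLt
    split_ifs with h3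
    · rw [Nat.mod_eq_of_lt (by omega)]
    · rw [Nat.mod_eq_sub_mod (by omega), Nat.mod_eq_of_lt (by omega)]
      omega
  have htval : ∀ x : Fin p, (t x).val = tt x.val := by
    intro x
    unfold tt
    show (Equiv.swap z0 z1 x).val = _
    by_cases hx0 : x = z0
    · subst hx0
      rw [Equiv.swap_apply_left]
      simp [z0, z1]
    · by_cases hx1 : x = z1
      · subst hx1
        rw [Equiv.swap_apply_right]
        simp [z0, z1]
      · rw [Equiv.swap_apply_of_ne_of_ne hx0 hx1]
        have e0 : x.val ≠ 0 := fun e => hx0 (Fin.ext e)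
        have e1 : x.val ≠ 1 := fun e => hx1 (Fin.ext e)
        rw [if_neg e0, if_neg e1]
  have hcne : ∀ x : Fin p, c x ≠ x := by
    intro x e
    have e1 := congrArg Fin.val e
    rw [hcval] at e1
    have := x.isLt
    unfold step at e1
    split_ifs at e1 <;> omega
  have hcp : c ^ p = 1 := by
    have : ∀ k : ℕ, ∀ x : Fin p, ((c ^ k) x).val = (x.val + 2 * k) % p := by
      intro k
      induction k with
      | zero =>
        intro x
        rw [pow_zero, Equiv.Perm.one_apply, Nat.mul_zero, Nat.add_zero, Nat.mod_eq_of_lt x.isLt]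
      | succ k ih =>
        intro x
        rw [pow_succ', Equiv.Perm.mul_apply, hcv, ih, Nat.mod_add_mod]
        congr 1
    ext x
    rw [this p x, Nat.add_mul_mod_self_right, Nat.mod_eq_of_lt x.isLt]
    rfl
  have hc1 : c ≠ 1 := by
    intro e
    exact hcne z0 (by rw [e]; rfl)
  have hord : orderOf c = p := by
    have : Fact p.Prime := ⟨hp⟩
    exact orderOf_eq_prime hcp hc1
  have hcyc : c.IsCycle := by
    apply Equiv.Perm.isCycle_of_prime_order'
    · rw [hord]; exact hp
    · rw [hord, Fintype.card_fin]; omega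
  have hsupp : c.support = Finset.univ := by
    ext x
    simp [hcne x]
  have hgen : Subgroup.closure ({c, t} : Set (Equiv.Perm (Fin p))) = ⊤ := by
    apply Equiv.Perm.closure_prime_cycle_swap
    · rw [Fintype.card_fin]; exact hp
    · exact hcyc
    · exact hsupp
    · exact ⟨z0, z1, h01, rfl⟩
  have hprim : MulAction.IsPreprimitive (⊤ : Subgroup (Equiv.Perm (Fin p))) (Fin p) := by
    have : MulAction.IsPretransitive (⊤ : Subgroup (Equiv.Perm (Fin p))) (Fin p) := by
      constructor
      intro x y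
      exact ⟨⟨Equiv.swap x y, Subgroup.mem_top _⟩, Equiv.swap_apply_left x y⟩
    apply MulAction.IsPreprimitive.of_prime_card
    rw [Nat.card_eq_fintype_card, Fintype.card_fin]
    exact hp
  -- the partition with the single non-trivial part `{0, 1}`
  obtain ⟨w, hwS, hwlen, hw⟩ := hC p ⊤ hprim {c, t} hgen
    (Setoid.ker (fun x : Fin p => max x.val 1)) z0 zh h0h (by
      refine ⟨Equiv.swap z1 zh, Subgroup.mem_top _, ?_⟩
      show max (Equiv.swap z1 zh z0).val 1 = max (Equiv.swap z1 zh zh).val 1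
      rw [Equiv.swap_apply_right, Equiv.swap_apply_of_ne_of_ne h01 h0h]
      simp [z0, z1])
  have key : ∀ w : List (Equiv.Perm (Fin p)), (∀ s ∈ w, s ∈ ({c, t} : Set (Equiv.Perm (Fin p)))) →
      pot h ((h + 1) / 2) 0 h ≤
        pot h ((h + 1) / 2) (w.prod z0).val (w.prod zh).val + w.length := by
    intro w
    induction w with
    | nil =>
      intro _
      simp [z0, zh]
    | cons s w ih =>
      intro hs
      have h1 := ih (fun s hs' => hs s (List.mem_cons_of_mem _ hs'))
      have h2 := hs s List.mem_cons_self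
      rw [List.prod_cons, Equiv.Perm.mul_apply, Equiv.Perm.mul_apply, List.length_cons]
      have hne : (w.prod z0).val ≠ (w.prod zh).val := by
        intro e
        exact h0h (w.prod.injective (Fin.ext e))
      have hl0 : (w.prod z0).val < 2 * h + 1 := by rw [← hh]; exact (w.prod z0).isLt
      have hl1 : (w.prod zh).val < 2 * h + 1 := by rw [← hh]; exact (w.prod zh).isLt
      rcases h2 with h2 | h2
      · rw [h2, hcval, hcval]
        have := pot_step h ((h + 1) / 2) _ _ rfl hl0 hl1 hne hh2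
        omega
      · rw [Set.mem_singleton_iff] at h2
        rw [h2, htval, htval]
        have := pot_tt h ((h + 1) / 2) _ _ rfl hl0 hl1 hne hh2
        omega
  have hkey := key w hwS
  have hw' : max (w.prod z0).val 1 = max (w.prod zh).val 1 := hw
  have hne : (w.prod z0).val ≠ (w.prod zh).val := by
    intro e
    exact h0h (w.prod.injective (Fin.ext e))
  have h01' : pot h ((h + 1) / 2) (w.prod z0).val (w.prod zh).val = 0 := by
    have e1 : ((w.prod z0).val = 0 ∧ (w.prod zh).val = 1) ∨
        ((w.prod z0).val = 1 ∧ (w.prod zh).val = 0) := by omega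
    have e2 : pot h ((h + 1) / 2) 0 1 = 0 := by
      rw [pot_lt (by omega)]
      unfold kk gg
      have : 1 - 0 ≤ h := by omega
      rw [if_pos this, if_pos this]
      simp
    rcases e1 with ⟨e3, e4⟩ | ⟨e3, e4⟩
    · rw [e3, e4, e2]
    · rw [e3, e4, pot_symm, e2]
  rw [h01'] at hkey
  have hlow : (h + 1) / 2 * (h / 2) ≤ pot h ((h + 1) / 2) 0 h := by
    rw [pot_lt (by omega)]
    unfold kk
    rw [Nat.sub_zero, if_pos le_rfl]
    exact Nat.le_add_right _ _
  have hm1 : 5 * p ≤ 20 * (h / 2) + 20 := by omega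
  have hm2 : 8 * C + 2 ≤ (h + 1) / 2 := by omega
  have hm3 : (8 * C + 2) * (h / 2) ≤ C * p := by
    calc (8 * C + 2) * (h / 2) ≤ (h + 1) / 2 * (h / 2) := Nat.mul_le_mul_right _ hm2
      _ ≤ C * p := by omega
  have hm4 : p ≤ 4 * (h / 2) + 3 := by omega
  have hm5 : C * p ≤ C * (4 * (h / 2) + 3) := Nat.mul_le_mul_left _ hm4
  have hm6 : 1 ≤ h / 2 := by omega
  have hm7 : 2 * C ≤ h / 2 := by omega
  nlinarith

end Pool.Agent.S00782
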