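import Pool.Statements.S00824
import Pool.Agent.H334R3.Ber.Main

set_option autoImplicit false
open Classical
open Pool Pool.MP_490369_al

namespace Pool.Agent.S00824

/-- The negation of the preceding statement: For every finite group G and every ring automorphism σ of the centre of ℤG, there are a permutation π of the conjugacy classes and signs ±1 such that σ sends each class sum K_c to ±K_{π(c)}. -/
theorem result :
    ¬ (∀ (G : Type) [Group G] [Fintype G]
    (σ : ↥(Subring.center (MonoidAlgebra ℤ G)) ≃+* ↥(Subring.center (MonoidAlgebra ℤ G))),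
    ∃ π : Equiv.Perm (ConjClasses G), ∃ ε : ConjClasses G → ℤ,
      (∀ c, ε c = 1 ∨ ε c = -1) ∧
      ∀ (c : ConjClasses G) (x : ↥(Subring.center (MonoidAlgebra ℤ G))),
        (x : MonoidAlgebra ℤ G) =
            ∑ g ∈ Finset.univ.filter (fun g : G => ConjClasses.mk g = c),
              MonoidAlgebra.single g (1 : ℤ) →
        ((σ x : ↥(Subring.center (MonoidAlgebra ℤ G))) : MonoidAlgebra ℤ G) =
          ε c • ∑ g ∈ Finset.univ.filter (fun g : G => ConjClasses.mk g = π c),
              MonoidAlgebra.single g (1 : ℤ)) := by
  intro H
  exact Pool.Agent.H334R3.Ber.final' H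

end Pool.Agent.S00824
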