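import Pool.Statements.S00926
import Pool.Agent.H17R2.NonUPFinal
-- import your own Pool.Agent.* helpers here

set_option autoImplicit false
open Pool Pool.MP_54ccb1_al

namespace Pool.Agent.S00926

/-- The negation of the preceding statement: There is λ > 0 such that every group presented by cyclically reduced relators satisfying C'(λ) (each piece shorter than λ times the relator length) which is torsion-free has the unique product property. -/
theorem result :
    ¬ (∃ lam : ℝ, 0 < lam ∧
      ∀ (α : Type) [DecidableEq α] (R : Set (FreeGroup α)),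
        (∀ r ∈ R, ∀ n : ℕ,
          FreeGroup.toWord (FreeGroup.mk ((FreeGroup.toWord r).rotate n)) =
            (FreeGroup.toWord r).rotate n) →
        (∀ l₁ l₂ : List (α × Bool),
          (∃ r ∈ R, ∃ n : ℕ,
            l₁ = (FreeGroup.toWord r).rotate n ∨ l₁ = (FreeGroup.toWord r⁻¹).rotate n) →
          (∃ r ∈ R, ∃ n : ℕ,
            l₂ = (FreeGroup.toWord r).rotate n ∨ l₂ = (FreeGroup.toWord r⁻¹).rotate n) →
          l₁ ≠ l₂ →
          ∀ u : List (α × Bool), List.IsPrefix u l₁ → List.IsPrefix u l₂ →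
            (u.length : ℝ) < lam * (l₁.length : ℝ)) →
        (∀ g : PresentedGroup R, IsOfFinOrder g → g = 1) →
        UniqueProds (PresentedGroup R)) := by
  rintro ⟨lam, hlam, h⟩
  obtain ⟨k, hk⟩ := exists_nat_gt (1 / lam)
  have hK : (20 : ℤ) ≤ (k : ℤ) + 20 := by omega
  have hn : 3 * ((k : ℤ) + 20) ≤ 3 * ((k : ℤ) + 20) := le_rfl
  have hlk : 1 ≤ lam * (((k : ℤ) + 20 : ℤ) : ℝ) := by
    have h1 : 1 < lam * k := by
      rw [div_lt_iff₀ hlam] at hk
      linarith
    push_cast
    nlinarith
  refine Pool.Agent.H17R2.NonUP.not_up _ _ hK hn (h Bool (Pool.Agent.H17R2.NonUP.R _) ?_ ?_ ?_)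
  · intro r hr m
    exact Pool.Agent.H17R2.NonUP.cyc_red _ r hr m
  · intro l₁ l₂ h1 h2 hne u hu1 hu2
    exact Pool.Agent.H17R2.NonUP.metric _ _ hK hn lam hlk l₁ l₂ h1 h2 hne u hu1 hu2
  · intro g hg
    exact Pool.Agent.H17R2.NonUP.torsion _ _ hK hn g hg

end Pool.Agent.S00926
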