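import Pool.Statements.S01018
import Pool.Agent.H72R2.UGrig

set_option autoImplicit false
open scoped Classical
open Pool Pool.MP_5e9b9f_al

namespace Pool.Agent.S01018

/-- The negation of the preceding statement: The intersection over all ω in {0,1,2}^ℕ of the kernels F_4 → G_ω (Grigorchuk groups acting on binary sequences) is the normal closure of a finite set, i.e. the universal group F_4/N is finitely presented. -/
theorem result :
    ¬ (∃ S : Finset (FreeGroup (Fin 4)),
      (Subgroup.normalClosure (S : Set (FreeGroup (Fin 4))) : Set (FreeGroup (Fin 4))) =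
        {w : FreeGroup (Fin 4) | ∀ ω : ℕ → Fin 3,
          (FreeGroup.toWord w).foldr
            (fun p f =>
              (fun v : ℕ → Bool =>
                if p.1 = 0 then Function.update v 0 (!v 0)
                else fun m =>
                  if 0 < m ∧ v (m - 1) = false ∧ (∀ j < m - 1, v j = true) ∧
                      (ω (m - 1)).val + p.1.val ≠ 3
                  then !v m else v m) ∘ f)
            (id : (ℕ → Bool) → (ℕ → Bool)) = id}) := by
  rintro ⟨S, hS⟩
  apply Pool.Agent.H72R2.UGrig.main S
  intro w
  have key : ∀ ω : ℕ → Fin 3, (FreeGroup.toWord w).foldr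
            (fun p f =>
              (fun v : ℕ → Bool =>
                if p.1 = 0 then Function.update v 0 (!v 0)
                else fun m =>
                  if 0 < m ∧ v (m - 1) = false ∧ (∀ j < m - 1, v j = true) ∧
                      (ω (m - 1)).val + p.1.val ≠ 3
                  then !v m else v m) ∘ f)
            (id : (ℕ → Bool) → (ℕ → Bool)) = ⇑(Pool.Agent.H72R2.UGrig.Phi ω w) := by
    intro ω
    have h1 := Pool.Agent.H72R2.UGrig.fold_eq ω (FreeGroup.toWord w)
    rw [FreeGroup.mk_toWord] at h1
    rw [← h1]
    rfl
  have h2 : w ∈ (Subgroup.normalClosure (S : Set (FreeGroup (Fin 4))) : Set (FreeGroup (Fin 4))) ↔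
      ∀ ω : ℕ → Fin 3, Pool.Agent.H72R2.UGrig.Phi ω w = 1 := by
    rw [hS, Set.mem_setOf_eq]
    constructor
    · intro h ω
      have := h ω
      rw [key ω] at this
      exact Equiv.ext (fun v => congrFun this v)
    · intro h ω
      rw [key ω, h ω]
      rfl
  exact h2

end Pool.Agent.S01018
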