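import Pool.Statements.S01127
import Pool.Agent.H44R2.Perfect

set_option autoImplicit false
open Pool Pool.MP_6a23c2_al

namespace Pool.Agent.S01127

/-- For every one-relator group ⟨X ∣ r⟩, every non-trivial finitely generated subgroup H differs from its derived subgroup [H,H], i.e. one-relator groups have no non-trivial finitely generated perfect subgroups. -/
theorem result :
    ∀ (α : Type) (r : FreeGroup α)
      (H : Subgroup (PresentedGroup ({r} : Set (FreeGroup α)))),
      H.FG → H ≠ ⊥ → ⁅H, H⁆ ≠ H := by
  intro α r H hfg hne hH
  exact hne (Pool.Agent.H44R2.no_perfect r H hfg hH)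

end Pool.Agent.S01127
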