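import Pool.Statements.S01207
import Pool.Agent.Helper294.HallM.Final
import Pool.Agent.Helper294.HallC.FinS01169

set_option autoImplicit false
open Pool Pool.MP_721660_al

namespace Pool.Agent.S01207

/-- Take any finitely generated group with an abelian normal subgroup whose quotient is polycyclic (solvable, all subgroups finitely generated). In it, every ascending chain of centralizers of subsets eventually becomes constant. -/
theorem result :
    ∀ (G : Type) [Group G], Group.FG G →
      (∃ (Q : Type) (_ : Group Q) (f : G →* Q), Function.Surjective f ∧ IsSolvable Q ∧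
        (∀ H : Subgroup Q, H.FG) ∧ ∀ x ∈ f.ker, ∀ y ∈ f.ker, x * y = y * x) →
      ∀ s : ℕ → Set G,
        (∀ n, Subgroup.centralizer (s n) ≤ Subgroup.centralizer (s (n + 1))) →
        ∃ N : ℕ, ∀ n, N ≤ n → Subgroup.centralizer (s n) = Subgroup.centralizer (s N) := by
  exact Pool.Agent.Helper294.HallC.fin_S01207 Pool.Agent.Helper294.HallM.hypp
    Pool.Agent.Helper294.HallM.hyp0

end Pool.Agent.S01207
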