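import Pool.Statements.S01219
import Pool.Agent.H42R2.Free
import Pool.Agent.H42R2.PartA
import Pool.Agent.H42R2.Smith
import Pool.Agent.H42R2.FG
-- import your own Pool.Agent.* helpers here

set_option autoImplicit false
open Pool Pool.MP_72c4d0_al

namespace Pool.Agent.S01219

open Topology Pool.Agent.H42R2

theorem exists_pow_close {p : ℕ} [hp : Fact p.Prime] {n : ℕ} {F : Type} [Group F] [TopologicalSpace F]
    [IsTopologicalGroup F] (x : Fin n → F) (φ : Multiplicative ℤ_[p] →* MulAut F)
    (hφ : Continuous (fun q : ℤ_[p] × F => φ (Multiplicative.ofAdd q.1) q.2)) (V : Set F)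
    (hV : IsOpen V) (h1 : (1 : F) ∈ V) :
    ∃ a : ℕ, ∀ j, φ (Multiplicative.ofAdd ((p : ℤ_[p]) ^ a)) (x j) * (x j)⁻¹ ∈ V := by
  have h2 : ∀ j, ∀ᶠ a : ℕ in Filter.atTop,
      φ (Multiplicative.ofAdd ((p : ℤ_[p]) ^ a)) (x j) * (x j)⁻¹ ∈ V := by
    intro j
    have hc : Continuous (fun z : ℤ_[p] => φ (Multiplicative.ofAdd z) (x j) * (x j)⁻¹) :=
      (hφ.comp (continuous_id.prodMk continuous_const)).mul continuous_const
    have ht : Filter.Tendsto (fun a : ℕ => (p : ℤ_[p]) ^ a) Filter.atTop (𝓝 0) := by
      apply tendsto_pow_atTop_nhds_zero_of_norm_lt_one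
      rw [PadicInt.norm_p]
      apply inv_lt_one_of_one_lt₀
      exact_mod_cast hp.out.one_lt
    have h0 : φ (Multiplicative.ofAdd (0 : ℤ_[p])) (x j) * (x j)⁻¹ ∈ V := by
      rw [ofAdd_zero, map_one]
      change x j * (x j)⁻¹ ∈ V
      rw [mul_inv_cancel]
      exact h1
    exact (hc.tendsto 0).comp ht (hV.mem_nhds h0)
  exact (Filter.eventually_all.mpr h2).exists

theorem fix_eq {p : ℕ} [hp : Fact p.Prime] {F : Type} [Group F] [TopologicalSpace F] [T2Space F]
    (φ : Multiplicative ℤ_[p] →* MulAut F)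
    (hφ : Continuous (fun q : ℤ_[p] × F => φ (Multiplicative.ofAdd q.1) q.2)) :
    {x : F | ∀ a : Multiplicative ℤ_[p], φ a x = x} =
      (fixSub (φ (Multiplicative.ofAdd 1)) : Set F) := by
  ext x
  constructor
  · intro hx
    exact hx _
  · intro hx
    have hx' : φ (Multiplicative.ofAdd 1) x = x := hx
    have hnat : ∀ k : ℕ, φ (Multiplicative.ofAdd (k : ℤ_[p])) x = x := by
      intro k
      induction k with
      | zero =>
        rw [Nat.cast_zero, ofAdd_zero, map_one]
        rfl
      | succ k ih =>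
        rw [Nat.cast_succ, ofAdd_add, map_mul]
        change φ (Multiplicative.ofAdd (k : ℤ_[p])) (φ (Multiplicative.ofAdd 1) x) = x
        rw [hx', ih]
    have hc : Continuous (fun z : ℤ_[p] => φ (Multiplicative.ofAdd z) x) :=
      hφ.comp (continuous_id.prodMk continuous_const)
    have hcl : IsClosed {z : ℤ_[p] | φ (Multiplicative.ofAdd z) x = x} :=
      isClosed_eq hc continuous_const
    have hall : ∀ z : ℤ_[p], φ (Multiplicative.ofAdd z) x = x := by
      intro z
      have hd := PadicInt.denseRange_natCast (p := p)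
      have h1 : Set.range (Nat.cast : ℕ → ℤ_[p]) ⊆ {z : ℤ_[p] | φ (Multiplicative.ofAdd z) x = x} := by
        rintro _ ⟨k, rfl⟩
        exact hnat k
      have h2 := closure_minimal h1 hcl
      exact h2 (hd z)
    intro a
    exact hall (Multiplicative.toAdd a)

/-- Let F be a free pro-p group of finite rank and Z_p act faithfully and continuously on F by automorphisms. Then the subgroup of elements fixed by the action is topologically generated by finitely many elements. -/
theorem result :
    ∀ (p : ℕ) [Fact (Nat.Prime p)] (n : ℕ) (F : Type) [Group F] [TopologicalSpace F]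
      [IsTopologicalGroup F] [CompactSpace F] [T2Space F] [TotallyDisconnectedSpace F]
      (ι : Fin n → F),
      (∀ N : Subgroup F, N.Normal → IsOpen (N : Set F) → ∃ k : ℕ, N.index = p ^ k) →
      (∀ (P : Type) [Group P] [Fintype P], (∃ k : ℕ, Fintype.card P = p ^ k) →
        ∀ f : Fin n → P, ∃! g : F →* P,
          (∀ y : P, IsOpen ((g : F → P) ⁻¹' {y})) ∧ ∀ i, g (ι i) = f i) →
      ∀ φ : Multiplicative ℤ_[p] →* MulAut F,
        Continuous (fun q : ℤ_[p] × F => φ (Multiplicative.ofAdd q.1) q.2) →
        Function.Injective φ →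
        ∃ S : Finset F,
          closure ((Subgroup.closure (S : Set F) : Subgroup F) : Set F) =
            {x : F | ∀ a : Multiplicative ℤ_[p], φ a x = x} := by
  intro p _ n F _ _ _ _ _ _ ι h1 h2 φ hφ _
  have h : FreeData p ι := freeData_of Fact.out h1 h2
  rw [fix_eq φ hφ]
  set t : MulAut F := φ (Multiplicative.ofAdd 1) with ht
  have htc : Continuous t := hφ.comp (continuous_const.prodMk continuous_id)
  have hcl : IsClosed (fixSub t : Set F) := isClosed_eq htc continuous_id
  apply fg_of_bound h.index (fixSub t) hcl (n + 1)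
  intro y ψ hy hψ hd
  obtain ⟨V, hV, hV1, hA⟩ := partA h
  obtain ⟨a, ha⟩ := exists_pow_close ι φ hφ V hV hV1
  have hta : t ^ p ^ a = φ (Multiplicative.ofAdd ((p : ℤ_[p]) ^ a)) := by
    rw [ht, ← map_pow, ← ofAdd_nsmul, nsmul_eq_mul, mul_one]
    push_cast
    rfl
  have hpc : Continuous (t ^ p ^ a : MulAut F) := by
    rw [hta]
    exact hφ.comp (continuous_const.prodMk continuous_id)
  choose χ hχ hχe using fun i => smith h t htc a (ψ i) (hψ i)
  have hyp : ∀ i, y i ∈ fixSub (t ^ p ^ a) := by
    intro i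
    have h3 : ∀ k : ℕ, (t ^ k) (y i) = y i := by
      intro k
      induction k with
      | zero => rfl
      | succ k ih =>
        rw [pow_succ]
        change (t ^ k) (t (y i)) = y i
        rw [show t (y i) = y i from hy i, ih]
    exact h3 _
  apply hA (t ^ p ^ a) hpc _ y χ hyp hχ
  · intro i j
    rw [hχe i (y j) (hy j), hd]
  · intro j
    rw [hta]
    exact ha j

end Pool.Agent.S01219
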