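import Pool.Statements.S01246
import Pool.Agent.H960R2.CogMain

set_option autoImplicit false
open Pool Pool.MP_751979_al

namespace Pool.Agent.S01246

open Pool.Agent.H960R2.Cog in
lemma log_step {r : ℕ} (hr : 2 ≤ r) : 0 < Real.log (2 * (r : ℝ) - 1) := by
  apply Real.log_pos
  have : (2 : ℝ) ≤ r := by exact_mod_cast hr
  linarith

/-- The negation of the preceding statement: For every x in [1/2,1] there is a group G such that η(G) = x. Here η(G) is the infimum, over all r ≥ 2 and all homomorphisms from the free group of rank r into G, of log(limsup of (number of kernel words of reduced length ≤ n)^(1/n)) / log(2r−1). -/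
theorem result :
    ¬ (∀ x ∈ Set.Icc (1/2 : ℝ) 1, ∃ (G : Type) (_ : Group G),
      sInf {e : ℝ | ∃ r : ℕ, 2 ≤ r ∧ ∃ f : FreeGroup (Fin r) →* G,
        e = Real.log (Filter.limsup
              (fun n : ℕ =>
                ((Nat.card {w : FreeGroup (Fin r) // f w = 1 ∧ w.toWord.length ≤ n} : ℝ))
                  ^ ((1 : ℝ) / (n : ℝ)))
              Filter.atTop)
            / Real.log (2 * (r : ℝ) - 1)} = x) := by
  intro hall
  obtain ⟨G, hG, hx⟩ := hall (9 / 10) ⟨by norm_num, by norm_num⟩
  set E : Set ℝ := {e : ℝ | ∃ r : ℕ, 2 ≤ r ∧ ∃ f : FreeGroup (Fin r) →* G,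
        e = Real.log (Filter.limsup
              (fun n : ℕ =>
                ((Nat.card {w : FreeGroup (Fin r) // f w = 1 ∧ w.toWord.length ≤ n} : ℝ))
                  ^ ((1 : ℝ) / (n : ℝ)))
              Filter.atTop)
            / Real.log (2 * (r : ℝ) - 1)} with hE
  have hne : E.Nonempty := by
    by_contra h
    rw [Set.not_nonempty_iff_eq_empty] at h
    rw [h, Real.sInf_empty] at hx
    norm_num at hx
  have hbdd : BddBelow E := by
    by_contra h
    rw [Real.sInf_of_not_bddBelow h] at hx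
    norm_num at hx
  -- lower bound for every tuple
  have hlow : ∀ r : ℕ, 2 ≤ r → ∀ f : FreeGroup (Fin r) →* G,
      (9 / 10 : ℝ) * Real.log (2 * (r : ℝ) - 1) ≤
        Real.log (Filter.limsup (Pool.Agent.H960R2.Cog.cseq f) Filter.atTop) := by
    intro r hr f
    have h1 : (9 / 10 : ℝ) ≤ Real.log (Filter.limsup (Pool.Agent.H960R2.Cog.cseq f) Filter.atTop) /
        Real.log (2 * (r : ℝ) - 1) := by
      rw [← hx]
      exact csInf_le hbdd ⟨r, hr, f, rfl⟩
    rwa [le_div_iff₀ (log_step hr)] at h1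
  -- a nearly optimal tuple
  obtain ⟨e, ⟨r, hr, f0, he⟩, he2⟩ := exists_lt_of_csInf_lt hne
    (show sInf E < 91 / 100 by rw [hx]; norm_num)
  haveI : Nonempty (Fin r) := ⟨⟨0, by omega⟩⟩
  have hup : Filter.limsup (Pool.Agent.H960R2.Cog.cseq f0) Filter.atTop <
      (2 * (r : ℝ) - 1) ^ (91 / 100 : ℝ) := by
    have hr2 : (2 : ℝ) ≤ r := by exact_mod_cast hr
    have hbase : (0 : ℝ) < 2 * (r : ℝ) - 1 := by linarith
    have h1 : Real.log (Filter.limsup (Pool.Agent.H960R2.Cog.cseq f0) Filter.atTop) /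
        Real.log (2 * (r : ℝ) - 1) < 91 / 100 := by
      rw [he] at he2
      exact he2
    rw [div_lt_iff₀ (log_step hr)] at h1
    rcases (Pool.Agent.H960R2.Cog.limsup_cseq_nonneg f0).eq_or_lt with h0 | h0
    · rw [← h0]; positivity
    · rw [← Real.exp_log h0, Real.rpow_def_of_pos hbase]
      apply Real.exp_lt_exp.2
      rw [mul_comm (Real.log _)]
      exact h1
  -- restrict to the image
  set f : FreeGroup (Fin r) →* f0.range := f0.rangeRestrict with hf
  have hfsurj : Function.Surjective f := f0.rangeRestrict_surjective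
  have hcomp : ∀ (r' : ℕ) (f' : FreeGroup (Fin r') →* f0.range),
      Pool.Agent.H960R2.Cog.cseq (f0.range.subtype.comp f') = Pool.Agent.H960R2.Cog.cseq f' := by
    intro r' f'
    funext n
    unfold Pool.Agent.H960R2.Cog.cseq Pool.Agent.H960R2.Cog.cog
    have : ∀ w : FreeGroup (Fin r'), (f0.range.subtype.comp f') w = 1 ↔ f' w = 1 := by
      intro w
      simp
    simp only [this]
  have hf0 : f0.range.subtype.comp f = f0 := by
    ext x
    simp [hf]
  have hcf : Pool.Agent.H960R2.Cog.cseq f = Pool.Agent.H960R2.Cog.cseq f0 := by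
    rw [← hcomp r f, hf0]
  refine Pool.Agent.H960R2.Cog.key hr f hfsurj ?_ ?_
  · intro r' hr' f' B hB hcog
    haveI : Nonempty (Fin r') := ⟨⟨0, by omega⟩⟩
    have h1 := hlow r' hr' (f0.range.subtype.comp f')
    rw [hcomp] at h1
    have h2 := Pool.Agent.H960R2.Cog.limsup_cseq_le hB hcog
    have h3 := Pool.Agent.H960R2.Cog.limsup_cseq_nonneg f'
    have h4 : 0 < (9 / 10 : ℝ) * Real.log (2 * (r' : ℝ) - 1) :=
      mul_pos (by norm_num) (log_step hr')
    rcases h3.eq_or_lt with h0 | h0
    · rw [← h0, Real.log_zero] at h1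
      linarith
    · have h5 : Real.log (Filter.limsup (Pool.Agent.H960R2.Cog.cseq f') Filter.atTop) ≤ Real.log B :=
        Real.log_le_log h0 h2
      have hr2 : (2 : ℝ) ≤ r' := by exact_mod_cast hr'
      have hbase : (0 : ℝ) < 2 * (r' : ℝ) - 1 := by linarith
      rw [Real.rpow_def_of_pos hbase, mul_comm, ← Real.exp_log (show 0 < B by linarith)]
      exact Real.exp_le_exp.2 (h1.trans h5)
  · have hr2 : (2 : ℝ) ≤ r := by exact_mod_cast hr
    have hbase : (0 : ℝ) < 2 * (r : ℝ) - 1 := by linarith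
    refine Pool.Agent.H960R2.Cog.summable_of_limsup f (by positivity) ?_
    rw [hcf, Real.rpow_neg hbase.le, inv_inv]
    exact hup

end Pool.Agent.S01246
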