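import Pool.Statements.S01406
import Pool.Agent.H58R2.LGQ.Final
-- import your own Pool.Agent.* helpers here

set_option autoImplicit false
open Matrix
open Pool Pool.MP_847b33_al

namespace Pool.Agent.S01406

/-- The negation of the preceding statement: For every field K and proper homogeneous ideal I in K[x1..xn] such that the residue field has a linear free resolution over S/I, S/I is graded-isomorphic to A/(regular sequence of linear forms) with A having a quadratic Gröbner basis. -/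
theorem result :
    ¬ (∀ (K : Type) [Field K] (n : ℕ) (I : Ideal (MvPolynomial (Fin n) K)),
    (∀ f ∈ I, ∀ d : ℕ, MvPolynomial.homogeneousComponent d f ∈ I) → I ≠ ⊤ →
    (∃ b : ℕ → ℕ, ∃ D : (i : ℕ) → Matrix (Fin (b i)) (Fin (b (i + 1))) (MvPolynomial (Fin n) K ⧸ I),
      (∀ i j k, ∃ p : MvPolynomial (Fin n) K, p.IsHomogeneous 1 ∧ D i j k = Ideal.Quotient.mk I p) ∧
      b 0 = 1 ∧
      (∀ v : Fin (b 0) → MvPolynomial (Fin n) K ⧸ I,
        (∃ w, D 0 *ᵥ w = v) ↔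
          ∀ j, v j ∈ Ideal.span (Set.range fun t : Fin n => Ideal.Quotient.mk I (MvPolynomial.X t))) ∧
      (∀ i, D i * D (i + 1) = 0) ∧
      (∀ i (v : Fin (b (i + 1)) → MvPolynomial (Fin n) K ⧸ I), D i *ᵥ v = 0 → ∃ w, D (i + 1) *ᵥ w = v)) →
    ∃ (m : ℕ) (J : Ideal (MvPolynomial (Fin m) K)),
      (∀ f ∈ J, ∀ d : ℕ, MvPolynomial.homogeneousComponent d f ∈ J) ∧
      (∃ ord : MonomialOrder (Fin m),
        Ideal.span ((fun f : MvPolynomial (Fin m) K => MvPolynomial.monomial (ord.degree f) (1 : K)) ''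
            {f | f ∈ J ∧ f ≠ 0}) ≤
        Ideal.span ((fun f : MvPolynomial (Fin m) K => MvPolynomial.monomial (ord.degree f) (1 : K)) ''
            {f | f ∈ J ∧ f ≠ 0 ∧ (ord.degree f).degree = 2})) ∧
      ∃ ys : List (MvPolynomial (Fin m) K ⧸ J),
        (∀ y ∈ ys, ∃ q : MvPolynomial (Fin m) K, q.IsHomogeneous 1 ∧ y = Ideal.Quotient.mk J q) ∧
        RingTheory.Sequence.IsRegular (MvPolynomial (Fin m) K ⧸ J) ys ∧
        ∃ φ : (MvPolynomial (Fin n) K ⧸ I) ≃ₐ[K] ((MvPolynomial (Fin m) K ⧸ J) ⧸ Ideal.ofList ys),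
          ∀ p : MvPolynomial (Fin n) K, p.IsHomogeneous 1 →
            ∃ q : MvPolynomial (Fin m) K, q.IsHomogeneous 1 ∧
              φ (Ideal.Quotient.mk I p) = Ideal.Quotient.mk (Ideal.ofList ys) (Ideal.Quotient.mk J q)) := by
  intro h
  have h0 : (1 : ℂ) ≠ 0 := one_ne_zero
  have h8 : (1 : ℂ) ≠ 8 := by norm_num
  have h16 : (1 : ℂ) ≠ -16 := by norm_num
  exact Pool.Agent.H58R2.LGQ.not_LG (Pool.Agent.H58R2.LGQ.no_square h0 h8 h16)
    (h ℂ 5 (Pool.Agent.H58R2.LGQ.genI (1 : ℂ)) (Pool.Agent.H58R2.LGQ.genI_hom 1)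
      (Pool.Agent.H58R2.LGQ.genI_ne_top 1) (Pool.Agent.H58R2.LGQ.linear_resolution_quot 1))

end Pool.Agent.S01406
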