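import Pool.Statements.S01445
import Pool.Agent.H29R2.BurauTF

set_option autoImplicit false
set_option linter.unusedSimpArgs false
set_option linter.unusedTactic false
set_option linter.unreachableTactic false
open Pool Pool.MP_8823bb_al

namespace Pool.Agent.S01445

open Pool.Agent.H29R2 in
lemma map_gen {n : ℕ} (i : ℕ) (hi : i + 1 < n) (θ : ℝ) :
    (Matrix.of (fun (a b : Fin n) =>
                if ((a : ℕ) = i ∧ (b : ℕ) = i) then (1 - LaurentPolynomial.T 1 : LaurentPolynomial ℤ)
                else if ((a : ℕ) = i ∧ (b : ℕ) = i + 1) then (LaurentPolynomial.T 1 : LaurentPolynomial ℤ)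
                else if ((a : ℕ) = i + 1 ∧ (b : ℕ) = i) then (1 : LaurentPolynomial ℤ)
                else if ((a : ℕ) = i + 1 ∧ (b : ℕ) = i + 1) then (0 : LaurentPolynomial ℤ)
                else if a = b then (1 : LaurentPolynomial ℤ) else (0 : LaurentPolynomial ℤ))).map (ev θ)
      = Gen θ ⟨i, Nat.lt_of_succ_lt hi⟩ ⟨i + 1, hi⟩ := by
  ext a b
  simp only [Matrix.map_apply, Matrix.of_apply, Gen, Matrix.add_apply, Matrix.vecMulVec_apply,
    uv, rv, Pi.add_apply, Pi.sub_apply, Pi.single_apply, Matrix.one_apply, Fin.ext_iff]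
  have hT : ev θ (LaurentPolynomial.T 1) = tt θ := by rw [ev_T, zpow_one]
  rcases eq_or_ne (a : ℕ) i with ha | ha <;> rcases eq_or_ne (b : ℕ) i with hb | hb <;>
  rcases eq_or_ne (a : ℕ) (i + 1) with ha' | ha' <;> rcases eq_or_ne (b : ℕ) (i + 1) with hb' | hb' <;>
  first
    | (exfalso; omega)
    | (simp only [ha, hb, ha', hb', and_self, if_true, if_false, and_true, true_and, false_and,
        and_false, map_sub, map_one, map_zero, hT, Nat.succ_ne_self, Nat.left_eq_add,
        Nat.add_eq_left, one_ne_zero, add_zero, zero_add, sub_zero, zero_sub]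
       try (split_ifs <;> first | (exfalso; omega) | simp | ring)
       try ring)

open Pool.Agent.H29R2 in
lemma map_gen_inv {n : ℕ} (i : ℕ) (hi : i + 1 < n) (θ : ℝ) :
    (Matrix.of (fun (a b : Fin n) =>
                if ((a : ℕ) = i ∧ (b : ℕ) = i) then (0 : LaurentPolynomial ℤ)
                else if ((a : ℕ) = i ∧ (b : ℕ) = i + 1) then (1 : LaurentPolynomial ℤ)
                else if ((a : ℕ) = i + 1 ∧ (b : ℕ) = i) then (LaurentPolynomial.T (-1) : LaurentPolynomial ℤ)
                else if ((a : ℕ) = i + 1 ∧ (b : ℕ) = i + 1) then (1 - LaurentPolynomial.T (-1) : LaurentPolynomial ℤ)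
                else if a = b then (1 : LaurentPolynomial ℤ) else (0 : LaurentPolynomial ℤ))).map (ev θ)
      = GenInv θ ⟨i, Nat.lt_of_succ_lt hi⟩ ⟨i + 1, hi⟩ := by
  have ht := tt_ne θ
  ext a b
  simp only [Matrix.map_apply, Matrix.of_apply, GenInv, Matrix.add_apply, Matrix.vecMulVec_apply,
    uv, rv, Pi.add_apply, Pi.sub_apply, Pi.single_apply, Matrix.one_apply, Fin.ext_iff,
    Matrix.smul_apply, smul_eq_mul]
  have hT : ev θ (LaurentPolynomial.T (-1)) = (tt θ)⁻¹ := by rw [ev_T, zpow_neg_one]
  rcases eq_or_ne (a : ℕ) i with ha | ha <;> rcases eq_or_ne (b : ℕ) i with hb | hb <;>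
  rcases eq_or_ne (a : ℕ) (i + 1) with ha' | ha' <;> rcases eq_or_ne (b : ℕ) (i + 1) with hb' | hb' <;>
  first
    | (exfalso; omega)
    | (simp only [ha, hb, ha', hb', and_self, if_true, if_false, and_true, true_and, false_and,
        and_false, map_sub, map_one, map_zero, hT, Nat.succ_ne_self, Nat.left_eq_add,
        Nat.add_eq_left, one_ne_zero, add_zero, zero_add, sub_zero, zero_sub]
       try (split_ifs <;> first | (exfalso; omega) | simp | ring)
       try (field_simp)
       try ring)

open Pool.Agent.H29R2 in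
/-- For every n > 4, the group generated by the Burau matrices of the braid generators and their inverses (the image of B_n, i.e. B_n modulo the Burau kernel) has no nontrivial element of finite order. -/
theorem result :
    ∀ n : ℕ, 4 < n →
      ∀ M ∈ Submonoid.closure
        {A : Matrix (Fin n) (Fin n) (LaurentPolynomial ℤ) |
          ∃ i : ℕ, i + 1 < n ∧
            (A = Matrix.of (fun (a b : Fin n) =>
                if ((a : ℕ) = i ∧ (b : ℕ) = i) then (1 - LaurentPolynomial.T 1 : LaurentPolynomial ℤ)
                else if ((a : ℕ) = i ∧ (b : ℕ) = i + 1) then (LaurentPolynomial.T 1 : LaurentPolynomial ℤ)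
                else if ((a : ℕ) = i + 1 ∧ (b : ℕ) = i) then (1 : LaurentPolynomial ℤ)
                else if ((a : ℕ) = i + 1 ∧ (b : ℕ) = i + 1) then (0 : LaurentPolynomial ℤ)
                else if a = b then (1 : LaurentPolynomial ℤ) else (0 : LaurentPolynomial ℤ))
            ∨ A = Matrix.of (fun (a b : Fin n) =>
                if ((a : ℕ) = i ∧ (b : ℕ) = i) then (0 : LaurentPolynomial ℤ)
                else if ((a : ℕ) = i ∧ (b : ℕ) = i + 1) then (1 : LaurentPolynomial ℤ)
                else if ((a : ℕ) = i + 1 ∧ (b : ℕ) = i) then (LaurentPolynomial.T (-1) : LaurentPolynomial ℤ)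
                else if ((a : ℕ) = i + 1 ∧ (b : ℕ) = i + 1) then (1 - LaurentPolynomial.T (-1) : LaurentPolynomial ℤ)
                else if a = b then (1 : LaurentPolynomial ℤ) else (0 : LaurentPolynomial ℤ)))},
        ∀ k : ℕ, 0 < k → M ^ k = 1 → M = 1 := by
  intro n _ M hM k hk hMk
  have hgood : Good n M := by
    clear hMk
    induction hM using Submonoid.closure_induction with
    | mem A hA =>
      obtain ⟨i, hi, hA | hA⟩ := hA
      · exact Good.of_Gen ⟨i, Nat.lt_of_succ_lt hi⟩ ⟨i + 1, hi⟩ rfl
          (fun θ => by rw [hA]; exact map_gen i hi θ)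
      · have hgen := Good.of_Gen (n := n) ⟨i, Nat.lt_of_succ_lt hi⟩ ⟨i + 1, hi⟩ rfl
          (fun θ => map_gen i hi θ)
        refine hgen.inv_of ?_ (continuous_map_ev A)
        intro θ
        rw [hA, map_gen i hi θ, map_gen_inv i hi θ]
        exact Gen_mul_GenInv θ _ _ rfl
    | one => exact Good.one
    | mul A B _ _ hA hB => exact hA.mul hB
  exact hgood.eq_one k hk hMk

end Pool.Agent.S01445
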