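import Pool.Statements.S01668
import Pool.Agent.H45R2.Thin.Rings

set_option autoImplicit false
open Pool Pool.MP_9e7887_al

namespace Pool.Agent.S01668

open Pool.Agent.H45R2.Thin
open scoped PowerSeries.WithPiTopology

/-- The negation of the preceding statement: For every prime p there are finitely many profinite groups such that every infinite pro-p group whose antichains of closed normal subgroups have at most p+1 elements is topologically isomorphic to one of them. -/
theorem result :
    ¬ (∀ p : ℕ, p.Prime → ∃ n : ℕ, ∃ F : Fin n → ProfiniteGrp.{0},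
      ∀ G : ProfiniteGrp.{0}, Infinite G →
        (∀ N : Subgroup G, IsOpen (N : Set G) → N.Normal → ∃ k : ℕ, N.index = p ^ k) →
        (∀ S : Set (Subgroup G), (∀ H ∈ S, IsClosed (H : Set G) ∧ H.Normal) →
            IsAntichain (· ≤ ·) S → S.encard ≤ ((p + 1 : ℕ) : ℕ∞)) →
        ∃ i : Fin n, Nonempty (G ≃ₜ* F i)) := by
  intro hall
  obtain ⟨n, F, hF⟩ := hall 3 Nat.prime_three
  have key : ∀ e : ℕ, ∃ i : Fin n,
      Nonempty (P (pie (e + 1)) ≃ₜ* F i) := by
    intro e
    have H := unif (e := e + 1) (by omega)
    have := totallyDisconnected H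
    have h := hF (ProfiniteGrp.of (P (pie (e + 1)))) (infinite H)
      (fun N hN _ => pro_three H N hN)
      (fun S hS ha => by
        have := thin H S hS ha
        exact this.trans (by norm_num))
    exact h
  choose i hi using key
  obtain ⟨a, b, hab, hi'⟩ := Finite.exists_ne_map_eq_of_infinite i
  have hlt : ∀ a b : ℕ, a < b → i a = i b → False := by
    intro a b hab hi'
    obtain ⟨φ⟩ := hi a
    obtain ⟨ψ⟩ := hi b
    rw [← hi'] at ψ
    exact no_iso (unif (e := a + 1) (by omega)) (unif (e := b + 1) (by omega)) (three_eq (a + 1))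
      (three_eq (b + 1)) (by omega) (φ.trans ψ.symm)
  rcases lt_or_gt_of_ne hab with h | h
  · exact hlt a b h hi'
  · exact hlt b a h hi'.symm

end Pool.Agent.S01668
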