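import Pool.Statements.S01674
-- import your own Pool.Agent.* helpers here

set_option autoImplicit false
open Pool Pool.MP_9eee4d_al

namespace Pool.Agent.S01674

open Matrix

section Field

variable {K : Type} [Field K]

/-- A `2 × 2` matrix of determinant one satisfies its characteristic equation. -/
theorem sq_eq (A : Matrix (Fin 2) (Fin 2) K) (hA : A.det = 1) :
    A * A = A.trace • A - 1 := by
  rw [Matrix.det_fin_two] at hA
  ext i j
  fin_cases i <;> fin_cases j <;>
    simp [Matrix.mul_apply, Fin.sum_univ_two, Matrix.trace_fin_two] <;>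
    first
      | linear_combination -hA
      | ring

/-- Trace of a commutator of two matrices of determinant one. -/
theorem trace_comm (A B : Matrix (Fin 2) (Fin 2) K) (hA : A.det = 1) (hB : B.det = 1) :
    (A * B * A.adjugate * B.adjugate).trace =
      (A * B).trace ^ 2 - A.trace * B.trace * (A * B).trace + A.trace ^ 2 + B.trace ^ 2 - 2 := by
  have key : (A * B * A.adjugate * B.adjugate).trace =
      (A * B).trace ^ 2 - A.trace * B.trace * (A * B).trace + B.det * A.trace ^ 2
        + A.det * B.trace ^ 2 - 2 * A.det * B.det := by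
    simp only [Matrix.trace_fin_two, Matrix.adjugate_fin_two, Matrix.det_fin_two,
      Matrix.mul_apply, Fin.sum_univ_two, Matrix.of_apply, Matrix.cons_val', Matrix.cons_val_zero,
      Matrix.cons_val_one, Matrix.cons_val_fin_one]
    ring
  rw [key, hA, hB]
  ring

/-- No element of a field satisfying `z ^ 8 = z` for all `z` is a primitive cube root of unity. -/
theorem no_root (h2 : (2 : K) = 0) (h8 : ∀ z : K, z ^ 8 = z) (z : K) : z ^ 2 + z + 1 ≠ 0 := by
  intro hz
  have h3 : z ^ 3 = 1 := by linear_combination (z - 1) * hz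
  have h := h8 z
  have h' : z ^ 2 = z := by
    calc z ^ 2 = (z ^ 3) ^ 2 * z ^ 2 := by rw [h3]; ring
      _ = z ^ 8 := by ring
      _ = z := h
  have : (1 : K) = 0 := by
    linear_combination hz - h' - z * h2
  exact one_ne_zero this

/-- The key rigidity statement: in characteristic two, two matrices of trace one and determinant one
over the field of eight elements whose product has trace zero are inverse to each other. -/
theorem rigid (h2 : (2 : K) = 0) (h8 : ∀ z : K, z ^ 8 = z) (A B : Matrix (Fin 2) (Fin 2) K)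
    (hA : A.det = 1) (hB : B.det = 1) (tA : A.trace = 1) (tB : B.trace = 1)
    (tAB : (A * B).trace = 0) : B = A.adjugate := by
  rw [Matrix.det_fin_two] at hA hB
  rw [Matrix.trace_fin_two] at tA tB tAB
  simp only [Matrix.mul_apply, Fin.sum_univ_two] at tAB
  obtain ⟨a, ha⟩ : ∃ a, A 0 0 = a := ⟨_, rfl⟩
  obtain ⟨b, hb⟩ : ∃ b, A 0 1 = b := ⟨_, rfl⟩
  obtain ⟨g, hg⟩ : ∃ g, A 1 0 = g := ⟨_, rfl⟩
  obtain ⟨a', ha'⟩ : ∃ a', A 1 1 = a' := ⟨_, rfl⟩
  obtain ⟨u, hu⟩ : ∃ u, B 0 0 = a' + u := ⟨B 0 0 - a', by ring⟩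
  obtain ⟨v, hv⟩ : ∃ v, B 0 1 = v - b := ⟨B 0 1 + b, by ring⟩
  obtain ⟨w, hw⟩ : ∃ w, B 1 0 = w - g := ⟨B 1 0 + g, by ring⟩
  have hu' : B 1 1 = a - u := by
    rw [ha, ha'] at tA
    rw [hu] at tB
    linear_combination tB - tA
  rw [ha, hb, hg, ha'] at hA tAB
  rw [ha, ha'] at tA
  rw [hu, hv, hw, hu'] at hB tAB
  -- the two equations
  have e1 : u + b * w + g * v = 0 := by
    linear_combination tAB - 2 * hA - u * tA + (u * a' - 1) * h2
  have e2 : u ^ 2 + v * w = 0 := by
    linear_combination tAB - hB - hA - h2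
  have hgne : g ≠ 0 := by
    intro hg0
    apply no_root h2 h8 a
    rw [hg0] at hA
    linear_combination -hA + a * tA + (a + 1 - 1 + 1) * h2 - 1 * h2
  have hw0 : w = 0 := by
    by_contra hwne
    apply no_root h2 h8 (g * u / w + a)
    have key : (g * u + a * w) ^ 2 + (g * u + a * w) * w + w ^ 2 = 0 := by
      linear_combination g * w * e1 - g ^ 2 * e2 + w ^ 2 * hA - a * w ^ 2 * tA
        + (g ^ 2 * u ^ 2 + g * u * a * w + a ^ 2 * w ^ 2 + w ^ 2) * h2
    have hq : (g * u / w + a) ^ 2 + (g * u / w + a) + 1 =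
        ((g * u + a * w) ^ 2 + (g * u + a * w) * w + w ^ 2) / w ^ 2 := by
      field_simp
    rw [hq, key, zero_div]
  have hu0 : u = 0 := by
    rw [hw0] at e2
    have : u ^ 2 = 0 := by linear_combination e2
    exact pow_eq_zero_iff (two_ne_zero) |>.1 this
  have hv0 : v = 0 := by
    rw [hw0, hu0] at e1
    have : g * v = 0 := by linear_combination e1
    exact (mul_eq_zero.1 this).resolve_left hgne
  ext i j
  fin_cases i <;> fin_cases j
  · simp [Matrix.adjugate_fin_two, hu, hu0, ha']
  · simp [Matrix.adjugate_fin_two, hv, hv0, hb]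
  · simp [Matrix.adjugate_fin_two, hw, hw0, hg]
  · simp [Matrix.adjugate_fin_two, hu', hu0, ha]

/-- In characteristic two, a matrix of determinant one and trace one has order dividing three. -/
theorem cube_eq_one (h2 : (2 : K) = 0) (A : Matrix (Fin 2) (Fin 2) K)
    (hA : A.det = 1) (tA : A.trace = 1) : A ^ 3 = 1 := by
  have h := sq_eq A hA
  rw [tA, one_smul] at h
  have h2' : (2 : Matrix (Fin 2) (Fin 2) K) = 0 := by
    ext i j
    fin_cases i <;> fin_cases j <;> simp [Matrix.ofNat_apply, h2]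
  calc A ^ 3 = A * A * A := by noncomm_ring
    _ = A * A - A := by rw [h, sub_mul, one_mul, h]
    _ = -1 := by rw [h]; abel
    _ = 1 := by
      have : (1 : Matrix (Fin 2) (Fin 2) K) + 1 = 0 := by rw [one_add_one_eq_two]; exact h2'
      exact (neg_eq_of_add_eq_zero_left this)

/-- Commutators of matrices of trace one have order dividing nine over the field of eight elements. -/
theorem comm_pow_nine (h2 : (2 : K) = 0) (h8 : ∀ z : K, z ^ 8 = z) (A B : Matrix (Fin 2) (Fin 2) K)
    (hA : A.det = 1) (hB : B.det = 1) (tA : A.trace = 1) (tB : B.trace = 1) :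
    (A * B * A.adjugate * B.adjugate) ^ 9 = 1 := by
  set s := (A * B).trace with hs
  have hadjA : A * A.adjugate = 1 := by rw [Matrix.mul_adjugate, hA, one_smul]
  have hadjB : B * B.adjugate = 1 := by rw [Matrix.mul_adjugate, hB, one_smul]
  have hadjA' : A.adjugate * A = 1 := by rw [Matrix.adjugate_mul, hA, one_smul]
  have hadjB' : B.adjugate * B = 1 := by rw [Matrix.adjugate_mul, hB, one_smul]
  have hone : (1 : K) + 1 = 0 := by rw [one_add_one_eq_two]; exact h2
  by_cases hs0 : s = 0
  · have hBA := rigid h2 h8 A B hA hB tA tB hs0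
    have : A * B * A.adjugate * B.adjugate = 1 := by
      rw [← hBA, mul_assoc, hadjB, mul_one, hBA, hadjA]
    rw [this, one_pow]
  by_cases hs1 : s = 1
  · have hdet : B.adjugate.det = 1 := by
      rw [Matrix.det_adjugate, hB]; simp
    have htr : B.adjugate.trace = 1 := by
      rw [Matrix.trace_fin_two, Matrix.adjugate_fin_two]
      rw [Matrix.trace_fin_two] at tB
      simp only [Matrix.of_apply, Matrix.cons_val', Matrix.cons_val_zero, Matrix.cons_val_one,
        Matrix.cons_val_fin_one]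
      linear_combination tB
    have htr2 : (A * B.adjugate).trace = 0 := by
      have : (A * B.adjugate).trace = A.trace * B.trace - (A * B).trace := by
        simp only [Matrix.trace_fin_two, Matrix.adjugate_fin_two, Matrix.mul_apply,
          Fin.sum_univ_two, Matrix.of_apply, Matrix.cons_val', Matrix.cons_val_zero,
          Matrix.cons_val_one, Matrix.cons_val_fin_one]
        ring
      rw [this, tA, tB, ← hs, hs1]; ring
    have hBA := rigid h2 h8 A B.adjugate hA hdet tA htr htr2
    have : A = B := by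
      have h1 : A * B.adjugate = 1 := by rw [hBA, hadjA]
      calc A = A * (B.adjugate * B) := by rw [hadjB', mul_one]
        _ = B := by rw [← mul_assoc, h1, one_mul]
    have : A * B * A.adjugate * B.adjugate = 1 := by
      rw [this, mul_assoc B B, hadjB, mul_one, hadjB]
    rw [this, one_pow]
  · set M := A * B * A.adjugate * B.adjugate with hM
    have hMdet : M.det = 1 := by
      rw [hM, Matrix.det_mul, Matrix.det_mul, Matrix.det_mul, Matrix.det_adjugate,
        Matrix.det_adjugate, hA, hB]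
      simp
    set T := M.trace with hT
    have hTs : T = s ^ 2 + s := by
      have := trace_comm A B hA hB
      rw [← hM, ← hT, tA, tB, ← hs] at this
      linear_combination this - s * h2
    have hseven : s ^ 6 + s ^ 5 + s ^ 4 + s ^ 3 + s ^ 2 + s + 1 = 0 := by
      have h := h8 s
      have h' : s * ((s - 1) * (s ^ 6 + s ^ 5 + s ^ 4 + s ^ 3 + s ^ 2 + s + 1)) = 0 := by
        linear_combination h
      rcases mul_eq_zero.1 h' with h' | h'
      · exact absurd h' hs0
      rcases mul_eq_zero.1 h' with h' | h'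
      · exact absurd (sub_eq_zero.1 h') hs1
      · exact h'
    have hTcube : T ^ 3 - 3 * T = 1 := by
      rw [hTs]
      linear_combination hseven + (s ^ 5 + s ^ 4 - 2 * s ^ 2 - 2 * s - 1) * h2
    have hsq : M * M = T • M - 1 := sq_eq M hMdet
    have hcube : M ^ 3 = (T ^ 2 - 1) • M - T • (1 : Matrix (Fin 2) (Fin 2) K) := by
      calc M ^ 3 = M * M * M := by noncomm_ring
        _ = T • (M * M) - M := by rw [hsq, sub_mul, smul_mul_assoc, one_mul, hsq]
        _ = (T ^ 2 - 1) • M - T • (1 : Matrix (Fin 2) (Fin 2) K) := by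
          rw [hsq, smul_sub, smul_smul, sub_smul, one_smul, pow_two]; abel
    have htr : (M ^ 3).trace = 1 := by
      rw [hcube, Matrix.trace_sub, Matrix.trace_smul, Matrix.trace_smul, ← hT, Matrix.trace_one,
        Fintype.card_fin, smul_eq_mul, smul_eq_mul]
      push_cast
      linear_combination hTcube
    have hdet3 : (M ^ 3).det = 1 := by rw [Matrix.det_pow, hMdet, one_pow]
    calc M ^ 9 = (M ^ 3) ^ 3 := by rw [← pow_mul]
      _ = 1 := cube_eq_one h2 _ hdet3 htr

end Field

/-- The field with eight elements. -/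
abbrev F8 : Type := GaloisField 2 3

noncomputable instance : Fintype F8 := Fintype.ofFinite F8

theorem F8_card : Fintype.card F8 = 8 := by
  rw [← Nat.card_eq_fintype_card, GaloisField.card 2 3 (by norm_num)]
  norm_num

theorem F8_two : (2 : F8) = 0 := by
  have := CharP.cast_eq_zero F8 2
  exact_mod_cast this

theorem F8_pow (z : F8) : z ^ 8 = z := by
  have := FiniteField.pow_card z
  rwa [F8_card] at this

theorem F8_exists : ∃ t : F8, t ^ 3 + t + 1 = 0 := by
  classical
  obtain ⟨s, hs⟩ : ∃ s : F8, s ∉ ({0, 1} : Finset F8) := by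
    by_contra hcon
    push Not at hcon
    have : Fintype.card F8 ≤ 2 := by
      calc Fintype.card F8 = (Finset.univ : Finset F8).card := rfl
        _ ≤ ({0, 1} : Finset F8).card := Finset.card_le_card (fun x _ => hcon x)
        _ ≤ 2 := Finset.card_le_two
    rw [F8_card] at this
    omega
  simp only [Finset.mem_insert, Finset.mem_singleton, not_or] at hs
  obtain ⟨hs0, hs1⟩ := hs
  have hseven : s ^ 6 + s ^ 5 + s ^ 4 + s ^ 3 + s ^ 2 + s + 1 = 0 := by
    have h := F8_pow s
    have h' : s * ((s - 1) * (s ^ 6 + s ^ 5 + s ^ 4 + s ^ 3 + s ^ 2 + s + 1)) = 0 := by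
      linear_combination h
    rcases mul_eq_zero.1 h' with h' | h'
    · exact absurd h' hs0
    rcases mul_eq_zero.1 h' with h' | h'
    · exact absurd (sub_eq_zero.1 h') hs1
    · exact h'
  refine ⟨s ^ 2 + s, ?_⟩
  linear_combination hseven + (s ^ 5 + s ^ 4) * F8_two

/-- The negation of the preceding statement: For a prime p ≠ 5 and a finite group G, suppose x is a p-element and every commutator of two conjugates of x is a p-element. Then x, and hence its whole conjugacy class, lies in a normal p-subgroup of G, that is, in O_p(G). -/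
theorem result :
    ¬ (∀ (p : ℕ), p.Prime → p ≠ 5 →
      ∀ (G : Type) [Group G] [Finite G] (x : G),
        (∃ n : ℕ, x ^ (p ^ n) = 1) →
        (∀ c d : G, IsConj x c → IsConj x d →
          ∃ n : ℕ, (c * d * c⁻¹ * d⁻¹) ^ (p ^ n) = 1) →
        ∃ N : Subgroup G, N.Normal ∧ IsPGroup p N ∧ x ∈ N) := by
  intro H
  obtain ⟨t, ht⟩ := F8_exists
  have h2 := F8_two
  -- the element of order three
  let x : SpecialLinearGroup (Fin 2) F8 := ⟨!![0, 1; 1, 1], by
    rw [Matrix.det_fin_two]
    simp only [Matrix.of_apply, Matrix.cons_val', Matrix.cons_val_zero, Matrix.cons_val_one,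
      Matrix.cons_val_fin_one]
    linear_combination -h2⟩
  have hxval : (x : Matrix (Fin 2) (Fin 2) F8) = !![0, 1; 1, 1] := rfl
  have htrx : (x : Matrix (Fin 2) (Fin 2) F8).trace = 1 := by
    rw [hxval, Matrix.trace_fin_two]
    simp
  have htr : ∀ c : SpecialLinearGroup (Fin 2) F8, IsConj x c →
      (c : Matrix (Fin 2) (Fin 2) F8).trace = 1 := by
    intro c hc
    obtain ⟨g, hg⟩ := isConj_iff.1 hc
    have hinv : (g : Matrix (Fin 2) (Fin 2) F8).adjugate * (g : Matrix (Fin 2) (Fin 2) F8) = 1 := by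
      rw [Matrix.adjugate_mul, g.2, one_smul]
    have hcv : (c : Matrix (Fin 2) (Fin 2) F8) = (g : Matrix (Fin 2) (Fin 2) F8) *
        (x : Matrix (Fin 2) (Fin 2) F8) * (g : Matrix (Fin 2) (Fin 2) F8).adjugate := by
      rw [← hg]; rfl
    rw [hcv, Matrix.trace_mul_comm, ← Matrix.mul_assoc, hinv, Matrix.one_mul, htrx]
  obtain ⟨N, hN, hp, hxN⟩ := H 3 (by norm_num) (by norm_num) (SpecialLinearGroup (Fin 2) F8) x
    ⟨1, by
      apply Subtype.ext
      change (x : Matrix (Fin 2) (Fin 2) F8) ^ (3 ^ 1) = 1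
      rw [pow_one]
      exact cube_eq_one h2 _ x.2 htrx⟩
    (by
      intro c d hc hd
      refine ⟨2, ?_⟩
      apply Subtype.ext
      have h := comm_pow_nine h2 F8_pow (c : Matrix (Fin 2) (Fin 2) F8)
        (d : Matrix (Fin 2) (Fin 2) F8) c.2 d.2 (htr c hc) (htr d hd)
      change ((c : Matrix (Fin 2) (Fin 2) F8) * (d : Matrix (Fin 2) (Fin 2) F8) *
        (c : Matrix (Fin 2) (Fin 2) F8).adjugate * (d : Matrix (Fin 2) (Fin 2) F8).adjugate)
          ^ (3 ^ 2) = 1
      exact h)
  -- a conjugate `y` of `x` with `x * y` of order seven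
  let g : SpecialLinearGroup (Fin 2) F8 := ⟨!![1, t; 0, 1], by
    rw [Matrix.det_fin_two]; simp⟩
  have hy : g * x * g⁻¹ ∈ N := hN.conj_mem x hxN g
  have hm : x * (g * x * g⁻¹) ∈ N := N.mul_mem hxN hy
  set m := x * (g * x * g⁻¹) with hmdef
  have hmval : (m : Matrix (Fin 2) (Fin 2) F8) = !![1, 1 + t; 1 + t, t ^ 2] := by
    change (!![0, 1; 1, 1] : Matrix (Fin 2) (Fin 2) F8) *
      ((!![1, t; 0, 1] : Matrix (Fin 2) (Fin 2) F8) * !![0, 1; 1, 1] *
        (!![1, t; 0, 1] : Matrix (Fin 2) (Fin 2) F8).adjugate) = _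
    rw [Matrix.adjugate_fin_two]
    ext i j
    fin_cases i <;> fin_cases j <;>
      simp [Matrix.mul_apply, Fin.sum_univ_two]
    · linear_combination (-t) * h2
    · ring
    · linear_combination (1 - t ^ 2) * h2
  -- `m` has order dividing seven
  have hm7 : m ^ 7 = 1 := by
    apply Subtype.ext
    change (m : Matrix (Fin 2) (Fin 2) F8) ^ 7 = 1
    have hmdet : (m : Matrix (Fin 2) (Fin 2) F8).det = 1 := m.2
    obtain ⟨M, hM⟩ : ∃ M : Matrix (Fin 2) (Fin 2) F8, (m : Matrix (Fin 2) (Fin 2) F8) = M :=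
      ⟨_, rfl⟩
    rw [hM] at hmdet hmval ⊢
    obtain ⟨z, hz⟩ : ∃ z : F8, z = 1 + t ^ 2 := ⟨_, rfl⟩
    have hMtr : M.trace = z := by
      rw [hmval, Matrix.trace_fin_two, hz]
      simp
    have hz3 : z ^ 3 + z ^ 2 + 1 = 0 := by
      rw [hz]
      linear_combination (t ^ 3 + t + 1) * ht + (1 + 2 * t ^ 2 + t ^ 4 - t ^ 3 - t) * h2
    have hsq : M * M = z • M - 1 := by rw [← hMtr]; exact sq_eq M hmdet
    -- write powers of `M` as combinations of `M` and `1`
    have lin : ∀ (a b a' b' : F8), (a • M + b • (1 : Matrix (Fin 2) (Fin 2) F8)) * (a' • M + b' • 1)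
        = (a * a' * z + a * b' + a' * b) • M + (b * b' - a * a') • 1 := by
      intro a b a' b'
      have : (a • M + b • (1 : Matrix (Fin 2) (Fin 2) F8)) * (a' • M + b' • 1)
          = (a * a') • (M * M) + (a * b' + a' * b) • M + (b * b') • 1 := by
        simp only [add_mul, mul_add, smul_mul_assoc, mul_smul_comm, mul_one, one_mul,
          add_smul]
        rw [mul_comm a' b, mul_comm b b', mul_comm a a', mul_comm a b']
        module
      rw [this, hsq]
      module
    have h1 : M = (1 : F8) • M + (0 : F8) • (1 : Matrix (Fin 2) (Fin 2) F8) := by simp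
    have hM2 : M ^ 2 = z • M + (-1 : F8) • (1 : Matrix (Fin 2) (Fin 2) F8) := by
      rw [pow_two, hsq, sub_eq_add_neg, neg_one_smul]
    have hM3 : M ^ 3 = (z ^ 2 - 1) • M + (-z) • (1 : Matrix (Fin 2) (Fin 2) F8) := by
      have : M ^ 3 = M ^ 2 * M := pow_succ M 2
      rw [this, hM2]
      nth_rewrite 2 [h1]
      rw [lin]
      congr 2 <;> ring
    have hM4 : M ^ 4 = (z ^ 3 - 2 * z) • M + (1 - z ^ 2) • (1 : Matrix (Fin 2) (Fin 2) F8) := by
      have : M ^ 4 = M ^ 2 * M ^ 2 := by rw [← pow_add]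
      rw [this, hM2, lin]
      congr 2 <;> ring
    have : M ^ 7 = M ^ 4 * M ^ 3 := by rw [← pow_add]
    rw [this, hM4, hM3, lin]
    have c1 : (z ^ 3 - 2 * z) * (z ^ 2 - 1) * z + (z ^ 3 - 2 * z) * (-z) + (z ^ 2 - 1) * (1 - z ^ 2)
        = 0 := by
      linear_combination (z ^ 3 + z ^ 2 + 1) * hz3
        + (-z ^ 5 - 3 * z ^ 4 - z ^ 3 + 2 * z ^ 2 - 1) * h2
    have c2 : (1 - z ^ 2) * (-z) - (z ^ 3 - 2 * z) * (z ^ 2 - 1) = 1 := by
      linear_combination (z ^ 2 + z + 1) * hz3
        + (-z ^ 5 - z ^ 4 + z ^ 3 - z ^ 2 - 2 * z - 1) * h2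
    rw [c1, c2, zero_smul, one_smul, zero_add]
  obtain ⟨k, hk⟩ := hp ⟨m, hm⟩
  have hk' : m ^ (3 ^ k) = 1 := by
    have := congrArg Subtype.val hk
    simpa using this
  have hm1 : m = 1 := by
    have ha : orderOf m ∣ 7 := orderOf_dvd_of_pow_eq_one hm7
    have hb : orderOf m ∣ 3 ^ k := orderOf_dvd_of_pow_eq_one hk'
    have hc : Nat.Coprime 7 (3 ^ k) := Nat.Coprime.pow_right k (by norm_num)
    have hd : orderOf m ∣ 1 := by
      rw [← hc]; exact Nat.dvd_gcd ha hb
    exact orderOf_eq_one_iff.1 (Nat.dvd_one.1 hd)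
  have hent : (1 : F8) + t = 0 := by
    have h01 : (m : Matrix (Fin 2) (Fin 2) F8) 0 1 = 0 := by
      rw [hm1]
      rfl
    rw [hmval] at h01
    simpa using h01
  apply one_ne_zero (α := F8)
  linear_combination ht - (t ^ 2 - t + 2) * hent + h2

end Pool.Agent.S01674
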