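import Pool.Statements.S01696
import Mathlib

set_option autoImplicit false
open Pool Pool.MP_a19302_al

namespace Pool.Agent.S01696

/-!
The counterexample is a monomial algebra on two letters `x, y`: the nonzero words are the powers of
`x` and the words `x^a y x^n y x^n ... y x^b` with equal gaps `n` and at most `n` letters `y`.
It is realised by operators on a vector space with basis `e (n, j, i)`.
The growth is polynomial, the ideal generated by `y x^n y` is nilpotent for each `n`, and
the sum of these ideals is not nilpotent.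
-/

/-- the index set of the basis -/
abbrev Ix : Type := ℕ × ℕ × ℕ

/-- the space on which the algebra acts -/
abbrev M : Type := Ix →₀ ℚ

/-- basis vector -/
noncomputable def e (n j i : ℕ) : M := Finsupp.single (n, j, i) 1

/-- the operator `x` -/
noncomputable def X : Module.End ℚ M :=
  Finsupp.lift M ℚ Ix (fun t => e t.1 t.2.1 (t.2.2 + 1))

/-- the operator `y` -/
noncomputable def Y : Module.End ℚ M :=
  Finsupp.lift M ℚ Ix (fun t =>
    if (t.2.1 = 0 ∨ t.2.2 = t.1) ∧ t.2.1 < t.1 then e t.1 (t.2.1 + 1) 0 else 0)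

lemma X_e (n j i : ℕ) : X (e n j i) = e n j (i + 1) := by
  simp [X, e]

lemma Y_e (n j i : ℕ) :
    Y (e n j i) = if (j = 0 ∨ i = n) ∧ j < n then e n (j + 1) 0 else 0 := by
  simp [Y, e]

lemma Xpow_e (a n j i : ℕ) : (X ^ a) (e n j i) = e n j (i + a) := by
  induction a generalizing i with
  | zero => simp
  | succ a ih =>
    rw [pow_succ, Module.End.mul_apply, X_e, ih]
    congr 1
    omega

lemma ext_e {f g : Module.End ℚ M} (h : ∀ n j i, f (e n j i) = g (e n j i)) : f = g := by
  apply Finsupp.lhom_ext'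
  rintro ⟨n, j, i⟩
  apply LinearMap.ext_ring
  exact h n j i

/-- the algebra as a subalgebra -/
noncomputable abbrev A0 : Subalgebra ℚ (Module.End ℚ M) :=
  Algebra.adjoin ℚ ({X, Y} : Set (Module.End ℚ M))

/-- the algebra -/
def A : Type := ↥A0

noncomputable instance : Ring A := inferInstanceAs (Ring ↥A0)

noncomputable instance : Algebra ℚ A := inferInstanceAs (Algebra ℚ ↥A0)

/-- the action -/
noncomputable def act : A →ₐ[ℚ] Module.End ℚ M := A0.val

lemma act_inj : Function.Injective act := Subtype.val_injective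

/-- the generator `x` -/
noncomputable def x : A := (⟨X, Algebra.subset_adjoin (by simp)⟩ : ↥A0)

/-- the generator `y` -/
noncomputable def y : A := (⟨Y, Algebra.subset_adjoin (by simp)⟩ : ↥A0)

@[simp] lemma act_x : act x = X := rfl

@[simp] lemma act_y : act y = Y := rfl

lemma rel (b c : ℕ) (h : b ≠ c) : y * x ^ b * y * x ^ c * y = 0 := by
  apply act_inj
  simp only [map_mul, map_pow, act_x, act_y, map_zero]
  apply ext_e
  intro n j i
  simp only [Module.End.mul_apply, LinearMap.zero_apply]
  rw [Y_e]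
  by_cases h1 : (j = 0 ∨ i = n) ∧ j < n
  · rw [if_pos h1, Xpow_e, Y_e]
    by_cases h2 : (j + 1 = 0 ∨ 0 + c = n) ∧ j + 1 < n
    · rw [if_pos h2, Xpow_e, Y_e, if_neg (by omega)]
    · rw [if_neg h2, map_zero, map_zero]
  · rw [if_neg h1]
    simp only [map_zero]

/-- the nonzero words with at least one letter `y` -/
noncomputable def wd (a c j b : ℕ) : A := x ^ a * (y * x ^ c) ^ j * y * x ^ b

lemma wd_mul_x (a c j b : ℕ) : wd a c j b * x = wd a c j (b + 1) := by
  simp only [wd, pow_succ, mul_assoc]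

lemma wd_mul_y_zero (a c b : ℕ) : wd a c 0 b * y = wd a b 1 0 := by
  simp only [wd, pow_zero, mul_one, pow_one, mul_assoc]

lemma wd_mul_y_same (a c j : ℕ) : wd a c j c * y = wd a c (j + 1) 0 := by
  simp only [wd, pow_zero, mul_one, pow_succ, mul_assoc]

lemma wd_mul_y_ne (a c j b : ℕ) (h : b ≠ c) : wd a c (j + 1) b * y = 0 := by
  have h1 : wd a c (j + 1) b * y = x ^ a * (y * x ^ c) ^ j * (y * x ^ c * y * x ^ b * y) := by
    simp only [wd, pow_succ, mul_assoc]
  rw [h1, rel c b (Ne.symm h), mul_zero]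

/-- index set of the words of size at most `m` -/
abbrev Wx (m : ℕ) : Type := Fin (m + 1) ⊕ (Fin (m + 1) × Fin (m + 1) × Fin (m + 1) × Fin (m + 1))

/-- the words of size at most `m` -/
noncomputable def word (m : ℕ) : Wx m → A
  | Sum.inl a => x ^ (a : ℕ)
  | Sum.inr t => wd t.1 t.2.1 t.2.2.1 t.2.2.2

/-- the span of the words of size at most `m` -/
noncomputable def S (m : ℕ) : Submodule ℚ A := Submodule.span ℚ (Set.range (word m))

lemma x_mem_S {m a : ℕ} (h : a ≤ m) : x ^ a ∈ S m :=
  Submodule.subset_span ⟨Sum.inl ⟨a, by omega⟩, rfl⟩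

lemma wd_mem_S {m a c j b : ℕ} (h1 : a ≤ m) (h2 : c ≤ m) (h3 : j ≤ m) (h4 : b ≤ m) :
    wd a c j b ∈ S m :=
  Submodule.subset_span ⟨Sum.inr (⟨a, by omega⟩, ⟨c, by omega⟩, ⟨j, by omega⟩, ⟨b, by omega⟩), rfl⟩

lemma S_rank (m : ℕ) : Module.finrank ℚ (S m) ≤ 2 * (m + 1) ^ 4 := by
  have h := finrank_range_le_card (R := ℚ) (word m)
  refine h.trans ?_
  simp only [Wx, Fintype.card_sum, Fintype.card_prod, Fintype.card_fin]
  have : m + 1 ≤ (m + 1) ^ 4 := Nat.le_self_pow (by norm_num) _
  nlinarith

/-- the generating space -/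
noncomputable def V : Submodule ℚ A := Submodule.span ℚ {1, x, y}

lemma S_mul_V (m : ℕ) : S m * V ≤ S (m + 1) := by
  rw [S, V, Submodule.span_mul_span, Submodule.span_le]
  rintro _ ⟨_, ⟨w, rfl⟩, v, hv, rfl⟩
  rcases w with a | ⟨a, c, j, b⟩
  · have ha := a.2
    simp only [Set.mem_insert_iff, Set.mem_singleton_iff] at hv
    rcases hv with rfl | rfl | rfl
    · simp only [word, mul_one]
      exact x_mem_S (by omega)
    · simp only [word, ← pow_succ]
      exact x_mem_S (by omega)
    · have : word m (Sum.inl a) * y = wd a 0 0 0 := by simp [word, wd]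
      change word m (Sum.inl a) * y ∈ S (m + 1)
      rw [this]
      exact wd_mem_S (by omega) (by omega) (by omega) (by omega)
  · obtain ⟨a, ha⟩ := a
    obtain ⟨c, hc⟩ := c
    obtain ⟨j, hj⟩ := j
    obtain ⟨b, hb⟩ := b
    change wd a c j b * v ∈ S (m + 1)
    simp only [Set.mem_insert_iff, Set.mem_singleton_iff] at hv
    rcases hv with rfl | rfl | rfl
    · rw [mul_one]
      exact wd_mem_S (by omega) (by omega) (by omega) (by omega)
    · rw [wd_mul_x]
      exact wd_mem_S (by omega) (by omega) (by omega) (by omega)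
    · rcases j with _ | j
      · rw [wd_mul_y_zero]
        exact wd_mem_S (by omega) (by omega) (by omega) (by omega)
      · by_cases hbc : b = c
        · subst hbc
          rw [wd_mul_y_same]
          exact wd_mem_S (by omega) (by omega) (by omega) (by omega)
        · rw [wd_mul_y_ne _ _ _ _ hbc]
          exact Submodule.zero_mem _

lemma V_pow_le (m : ℕ) : V ^ m ≤ S m := by
  induction m with
  | zero =>
    rw [pow_zero, Submodule.one_le]
    have := x_mem_S (m := 0) (a := 0) le_rfl
    simpa using this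
  | succ m ih =>
    rw [pow_succ]
    exact (mul_le_mul' ih le_rfl).trans (S_mul_V m)

lemma adjoin_V : Algebra.adjoin ℚ (V : Set A) = ⊤ := by
  have h1 : Algebra.adjoin ℚ (({x, y} : Set A)) = ⊤ := by
    have := Algebra.adjoin_adjoin_coe_preimage (R := ℚ) (s := ({X, Y} : Set (Module.End ℚ M)))
    refine Eq.trans ?_ this
    change Algebra.adjoin ℚ _ = Algebra.adjoin ℚ _
    congr 1
    ext z
    constructor
    · rintro (rfl | rfl)
      · exact Or.inl rfl
      · exact Or.inr rfl
    · rintro (h | h)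
      · exact Or.inl (act_inj h)
      · exact Or.inr (act_inj h)
  rw [eq_top_iff, ← h1]
  apply Algebra.adjoin_mono
  intro z hz
  apply Submodule.subset_span
  rcases hz with rfl | rfl <;> simp

/-- the subspace spanned by the basis vectors of block `n` with second index at least `j` -/
noncomputable def F (n j : ℕ) : Submodule ℚ M :=
  Submodule.span ℚ {v | ∃ j' i, j ≤ j' ∧ v = e n j' i}

lemma F_anti {n j j' : ℕ} (h : j ≤ j') : F n j' ≤ F n j := by
  apply Submodule.span_mono
  rintro _ ⟨k, i, hk, rfl⟩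
  exact ⟨k, i, by omega, rfl⟩

lemma e_mem_F (n j i : ℕ) : e n j i ∈ F n j := Submodule.subset_span ⟨j, i, le_rfl, rfl⟩

lemma X_F (n j : ℕ) (v : M) (hv : v ∈ F n j) : X v ∈ F n j := by
  induction hv using Submodule.span_induction with
  | mem v hv =>
    obtain ⟨k, i, hk, rfl⟩ := hv
    rw [X_e]
    exact Submodule.subset_span ⟨k, _, hk, rfl⟩
  | zero => simp
  | add a b _ _ ha hb => rw [map_add]; exact Submodule.add_mem _ ha hb
  | smul c a _ ha => rw [map_smul]; exact Submodule.smul_mem _ _ ha

lemma Y_F' (n j : ℕ) (v : M) (hv : v ∈ F n j) : Y v ∈ F n (j + 1) := by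
  induction hv using Submodule.span_induction with
  | mem v hv =>
    obtain ⟨k, i, hk, rfl⟩ := hv
    rw [Y_e]
    split_ifs
    · exact Submodule.subset_span ⟨k + 1, _, by omega, rfl⟩
    · exact Submodule.zero_mem _
  | zero => simp
  | add a b _ _ ha hb => rw [map_add]; exact Submodule.add_mem _ ha hb
  | smul c a _ ha => rw [map_smul]; exact Submodule.smul_mem _ _ ha

lemma A_F (a : A) : ∀ (n j : ℕ) (v : M), v ∈ F n j → act a v ∈ F n j := by
  obtain ⟨a, ha⟩ := a
  change ∀ (n j : ℕ) (v : M), v ∈ F n j → a v ∈ F n j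
  induction ha using Algebra.adjoin_induction with
  | mem z hz =>
    rcases hz with rfl | rfl
    · exact X_F
    · intro n j v hv
      exact F_anti (Nat.le_succ j) (Y_F' n j v hv)
  | algebraMap r =>
    intro n j v hv
    change (algebraMap ℚ (Module.End ℚ M) r) v ∈ F n j
    rw [Module.algebraMap_end_apply]
    exact Submodule.smul_mem _ _ hv
  | add a b _ _ iha ihb =>
    intro n j v hv
    exact Submodule.add_mem _ (iha n j v hv) (ihb n j v hv)
  | mul a b _ _ iha ihb =>
    intro n j v hv
    exact iha n j _ (ihb n j v hv)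

/-- the nilpotent ideal attached to `n` -/
def carrierI (n : ℕ) : Set A :=
  {a | (∀ n' j, n' ≠ n → ∀ v ∈ F n' j, act a v = 0) ∧
    (∀ v ∈ F n n, act a v = 0) ∧
    ∀ j, ∀ v ∈ F n j, act a v ∈ F n (j + 1)}

/-- the nilpotent ideal attached to `n` -/
noncomputable def I (n : ℕ) : TwoSidedIdeal A :=
  TwoSidedIdeal.mk' (carrierI n)
    ⟨fun _ _ _ _ _ => by simp, fun _ _ => by simp, fun _ _ _ => by simp⟩
    (by
      rintro a b ⟨h1, h2, h3⟩ ⟨h4, h5, h6⟩
      refine ⟨fun n' j hn v hv => ?_, fun v hv => ?_, fun j v hv => ?_⟩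
      · change act a v + act b v = 0
        rw [h1 n' j hn v hv, h4 n' j hn v hv, add_zero]
      · change act a v + act b v = 0
        rw [h2 v hv, h5 v hv, add_zero]
      · exact Submodule.add_mem _ (h3 j v hv) (h6 j v hv))
    (by
      rintro a ⟨h1, h2, h3⟩
      refine ⟨fun n' j hn v hv => ?_, fun v hv => ?_, fun j v hv => ?_⟩
      · change -(act a v) = 0
        rw [h1 n' j hn v hv, neg_zero]
      · change -(act a v) = 0
        rw [h2 v hv, neg_zero]
      · exact Submodule.neg_mem _ (h3 j v hv))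
    (by
      rintro b a ⟨h1, h2, h3⟩
      refine ⟨fun n' j hn v hv => ?_, fun v hv => ?_, fun j v hv => ?_⟩
      · change act b (act a v) = 0
        rw [h1 n' j hn v hv, map_zero]
      · change act b (act a v) = 0
        rw [h2 v hv, map_zero]
      · exact A_F b _ _ _ (h3 j v hv))
    (by
      rintro a b ⟨h1, h2, h3⟩
      refine ⟨fun n' j hn v hv => ?_, fun v hv => ?_, fun j v hv => ?_⟩
      · exact h1 n' j hn _ (A_F b _ _ _ hv)
      · exact h2 _ (A_F b _ _ _ hv)
      · exact h3 j _ (A_F b _ _ _ hv))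

lemma mem_I {n : ℕ} {a : A} : a ∈ I n ↔ a ∈ carrierI n := TwoSidedIdeal.mem_mk' _ _ _ _ _ _ _

lemma list_F (n : ℕ) (l : List A) (hl : ∀ a ∈ l, a ∈ I n) (j : ℕ) (v : M) (hv : v ∈ F n j) :
    act l.prod v ∈ F n (j + l.length) := by
  induction l with
  | nil => simpa using hv
  | cons a l ih =>
    rw [List.prod_cons]
    have h1 := ih (fun b hb => hl b (List.mem_cons_of_mem _ hb))
    have h2 := (mem_I.1 (hl a List.mem_cons_self)).2.2 _ _ h1
    rw [List.length_cons, ← Nat.add_assoc]
    exact h2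

lemma I_nil (n : ℕ) : ∃ m : ℕ, ∀ f : Fin m → A, (∀ i, f i ∈ I n) → (List.ofFn f).prod = 0 := by
  refine ⟨n + 1, fun f hf => ?_⟩
  rw [List.ofFn_succ, List.prod_cons]
  apply act_inj
  rw [map_mul, map_zero]
  apply ext_e
  intro n' j i
  change act (f 0) (act (List.ofFn fun i => f (Fin.succ i)).prod (e n' j i)) = 0
  have h0 := mem_I.1 (hf 0)
  by_cases hn : n' = n
  · subst hn
    apply h0.2.1
    have := list_F n' (List.ofFn fun i => f (Fin.succ i)) (by
      intro a ha
      rw [List.mem_ofFn] at ha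
      obtain ⟨k, rfl⟩ := ha
      exact hf _) j _ (e_mem_F n' j i)
    rw [List.length_ofFn] at this
    exact F_anti (by omega) this
  · exact h0.1 n' j hn _ (A_F _ _ _ _ (e_mem_F n' j i))

/-- the word `y x^n y` -/
noncomputable def w (n : ℕ) : A := y * x ^ n * y

lemma w_e (n n' j i : ℕ) : act (w n) (e n' j i) =
    if (j = 0 ∨ i = n') ∧ j + 1 < n' ∧ n = n' then e n' (j + 2) 0 else 0 := by
  change Y ((X ^ n) (Y (e n' j i))) = _
  rw [Y_e]
  by_cases h1 : (j = 0 ∨ i = n') ∧ j < n'
  · rw [if_pos h1, Xpow_e, Y_e]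
    by_cases h2 : j + 1 < n' ∧ n = n'
    · rw [if_pos ⟨Or.inr (by omega), h2.1⟩, if_pos ⟨h1.1, h2⟩]
    · rw [if_neg (by omega), if_neg (by tauto)]
  · rw [if_neg h1, if_neg (by omega)]
    simp

lemma w_mem (n : ℕ) : w n ∈ I n := by
  rw [mem_I]
  refine ⟨fun n' j hn v hv => ?_, fun v hv => ?_, fun j v hv => ?_⟩
  · induction hv using Submodule.span_induction with
    | mem v hv =>
      obtain ⟨k, i, hk, rfl⟩ := hv
      rw [w_e, if_neg (by omega)]
    | zero => simp
    | add a b _ _ ha hb => rw [map_add, ha, hb, add_zero]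
    | smul c a _ ha => rw [map_smul, ha, smul_zero]
  · induction hv using Submodule.span_induction with
    | mem v hv =>
      obtain ⟨k, i, hk, rfl⟩ := hv
      rw [w_e, if_neg (by omega)]
    | zero => simp
    | add a b _ _ ha hb => rw [map_add, ha, hb, add_zero]
    | smul c a _ ha => rw [map_smul, ha, smul_zero]
  · exact F_anti (Nat.le_succ _) (Y_F' _ _ _ (A_F (x ^ n) _ _ _ (Y_F' _ _ _ hv)))

lemma pow_e (n k : ℕ) (hk : 2 * k + 2 ≤ n) :
    act ((x ^ n * w n) ^ k) (e n 0 n) = e n (2 * k) n := by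
  induction k with
  | zero => simp
  | succ k ih =>
    rw [pow_succ']
    rw [map_mul, map_mul, Module.End.mul_apply, Module.End.mul_apply]
    rw [ih (by omega), w_e, if_pos (by omega)]
    rw [map_pow, act_x, Xpow_e]
    congr 1
    omega

/-- The negation of the preceding statement: Every finitely generated associative algebra over a field with polynomially bounded growth (finite GK dimension) has a nilpotent two-sided ideal containing every nilpotent two-sided ideal. -/
theorem result :
    ¬ (∀ (k : Type) [Field k] (A : Type) [Ring A] [Algebra k A],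
      Algebra.FiniteType k A →
      (∃ V : Submodule k A, FiniteDimensional k V ∧ (1 : A) ∈ V ∧
          Algebra.adjoin k (V : Set A) = ⊤ ∧
          ∃ C d : ℕ, ∀ n : ℕ, Module.finrank k ↥(V ^ n) ≤ C * (n + 1) ^ d) →
      ∃ N : TwoSidedIdeal A,
        (∃ m : ℕ, ∀ f : Fin m → A, (∀ i, f i ∈ N) → (List.ofFn f).prod = 0) ∧
        ∀ I : TwoSidedIdeal A,
          (∃ m : ℕ, ∀ f : Fin m → A, (∀ i, f i ∈ I) → (List.ofFn f).prod = 0) → I ≤ N) := by
  intro H
  classical
  have hfd : FiniteDimensional ℚ V := FiniteDimensional.span_of_finite ℚ (by simp)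
  have hft : Algebra.FiniteType ℚ A := by
    refine ⟨⟨{x, y}, ?_⟩⟩
    have h1 := adjoin_V
    rw [V, Algebra.adjoin_span] at h1
    rw [eq_top_iff, ← h1]
    apply Algebra.adjoin_le
    rintro z (rfl | rfl | rfl)
    · exact Subalgebra.one_mem _
    · exact Algebra.subset_adjoin (by simp)
    · exact Algebra.subset_adjoin (by simp)
  obtain ⟨N, ⟨m, hm⟩, hN⟩ := H ℚ A hft
    ⟨V, hfd, Submodule.subset_span (by simp), adjoin_V, 2, 4, fun n => by
      have : FiniteDimensional ℚ (S n) := FiniteDimensional.span_of_finite ℚ (Set.finite_range _)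
      exact (Submodule.finrank_mono (V_pow_le n)).trans (S_rank n)⟩
  have h1 : ∀ n, w n ∈ N := fun n => hN (I n) (I_nil n) (w_mem n)
  have h2 := hm (fun _ => x ^ (2 * m + 2) * w (2 * m + 2))
    (fun _ => N.mul_mem_left _ _ (h1 _))
  rw [List.ofFn_const, List.prod_replicate] at h2
  have h3 := pow_e (2 * m + 2) m le_rfl
  rw [h2] at h3
  have h4 := congrArg (fun v : M => v (2 * m + 2, 2 * m, 2 * m + 2)) h3
  simp [e] at h4

end Pool.Agent.S01696
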