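import Pool.Statements.S01703
import Pool.Agent.Helper29.Forward
import Pool.Agent.Helper29.Backward

set_option autoImplicit false
open Pool Pool.MP_a2b285_al

namespace Pool.Agent.S01703

/-- For every m-group G (ℓ-group with an order-reversing involutive automorphism), G is normal-valued (ab ≤ b²a² for a,b ≥ 1) iff G lies in the variety generated by all n-fold products A^n of the abelian m-group variety. -/
theorem result :
  ∀ (G : Type) [Group G] [Lattice G] [MulLeftMono G] [MulRightMono G] (σ : G → G),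
    (∀ x y : G, σ (x * y) = σ x * σ y) → (∀ x y : G, x ≤ y → σ y ≤ σ x) →
    (∀ x : G, σ (σ x) = x) →
    ((∀ a b : G, 1 ≤ a → 1 ≤ b → a * b ≤ b * b * (a * a)) ↔
     ∃ (P : Type) (_ : Group P) (_ : Lattice P) (_ : MulLeftMono P) (_ : MulRightMono P)
       (τ : P → P) (f : P → G),
       (∀ x y : P, τ (x * y) = τ x * τ y) ∧ (∀ x y : P, x ≤ y → τ y ≤ τ x) ∧
       (∀ x : P, τ (τ x) = x) ∧ Function.Surjective f ∧
       (∀ a b : P, f (a * b) = f a * f b ∧ f (a ⊔ b) = f a ⊔ f b ∧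
          f (a ⊓ b) = f a ⊓ f b ∧ f (τ a) = σ (f a)) ∧
       ∀ x y : P, x ≠ y →
         ∃ (K : Type) (_ : Group K) (_ : Lattice K) (_ : MulLeftMono K) (_ : MulRightMono K)
           (ρ : K → K) (h : P → K),
           (∀ u v : K, ρ (u * v) = ρ u * ρ v) ∧ (∀ u v : K, u ≤ v → ρ v ≤ ρ u) ∧
           (∀ u : K, ρ (ρ u) = u) ∧
           (∀ a b : P, h (a * b) = h a * h b ∧ h (a ⊔ b) = h a ⊔ h b ∧
              h (a ⊓ b) = h a ⊓ h b ∧ h (τ a) = ρ (h a)) ∧
           h x ≠ h y ∧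
           ∃ n : ℕ, ∃ H : ℕ → Set K, H 0 = {1} ∧ H n = Set.univ ∧
             ∀ i : ℕ, (1 : K) ∈ H i ∧
               (∀ a ∈ H i, ∀ b ∈ H i, a * b ∈ H i ∧ a⁻¹ ∈ H i ∧ a ⊔ b ∈ H i ∧
                  a ⊓ b ∈ H i ∧ ρ a ∈ H i) ∧
               (∀ a ∈ H i, ∀ b ∈ H i, ∀ c : K, a ≤ c → c ≤ b → c ∈ H i) ∧
               (∀ a ∈ H i, ∀ g : K, g * a * g⁻¹ ∈ H i) ∧
               H i ⊆ H (i + 1) ∧
               (∀ a ∈ H (i + 1), ∀ b ∈ H (i + 1), a * b * a⁻¹ * b⁻¹ ∈ H i)) := by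
  intro G _ _ _ _ σ hσ hanti hinv
  have mono_of_hom : ∀ {A B : Type} [Lattice A] [Lattice B] (h : A → B)
      (_ : ∀ a b : A, h (a ⊓ b) = h a ⊓ h b) (a b : A), a ≤ b → h a ≤ h b := by
    intro A B _ _ h hi a b hab
    have h1 := hi a b
    rw [inf_eq_left.mpr hab] at h1
    rw [h1]
    exact inf_le_right
  constructor
  · intro law
    obtain ⟨P, i1, i2, i3, i4, τ, f, h1, h2, h3, h4, h5, h6⟩ :=
      Pool.Agent.Helper29.forward (G := G) (σ := σ) law hσ hanti hinv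
    refine ⟨P, i1, i2, i3, i4, τ, f, h1, h2, h3, h4, h5, ?_⟩
    intro x y hxy
    obtain ⟨n, h, hh, hne⟩ := h6 x y hxy
    obtain ⟨s1, s2, s3⟩ := Pool.Agent.Helper29.MW.series n
    exact ⟨Pool.Agent.Helper29.MW n, inferInstance, inferInstance, inferInstance, inferInstance,
      Pool.Agent.Helper29.MW.star, h, Pool.Agent.Helper29.MW.star_mul,
      fun u v huv => Pool.Agent.Helper29.MW.star_anti huv,
      Pool.Agent.Helper29.MW.star_star, hh, hne, n, Pool.Agent.Helper29.MW.Hs n, s1, s2, s3⟩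
  · rintro ⟨P, i1, i2, i3, i4, τ, f, _, _, _, hsurj, hf, hsep⟩
    have hone : ∀ {A B : Type} [Group A] [Group B] (h : A → B)
        (_ : ∀ a b : A, h (a * b) = h a * h b), h 1 = 1 := by
      intro A B _ _ h hm
      have h1 := hm 1 1
      rw [mul_one] at h1
      exact mul_eq_left.mp h1.symm
    -- P is normal-valued
    have hP : ∀ a b : P, 1 ≤ a → 1 ≤ b → a * b ≤ b * b * (a * a) := by
      intro a b ha hb
      by_contra hcon
      have hne : (a * b) ⊓ (b * b * (a * a)) ≠ a * b := fun h => hcon (inf_eq_left.mp h)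
      obtain ⟨K, j1, j2, j3, j4, ρ, h, _, _, _, hh, hxy, n, H, H0, Hn, Hs⟩ := hsep _ _ hne
      apply hxy
      have hK : Pool.Agent.Helper29.NV K :=
        Pool.Agent.Helper29.series_nv n H H0 Hn (fun i => (Hs i).1)
          (fun i a ha b hb => ((Hs i).2.1 a ha b hb).1)
          (fun i a ha => ((Hs i).2.1 a ha a ha).2.1)
          (fun i a ha b hb => ((Hs i).2.1 a ha b hb).2.2.1)
          (fun i a ha b hb c h1 h2 => (Hs i).2.2.1 a ha b hb c h1 h2)
          (fun i a ha g => (Hs i).2.2.2.1 a ha g)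
          (fun i a ha b hb => (Hs i).2.2.2.2.2 a ha b hb)
      have h1 : h 1 = 1 := hone h (fun a b => (hh a b).1)
      have hmono := mono_of_hom h (fun a b => (hh a b).2.2.1)
      have ha' : 1 ≤ h a := by rw [← h1]; exact hmono _ _ ha
      have hb' : 1 ≤ h b := by rw [← h1]; exact hmono _ _ hb
      have hle := hK (h a) (h b) ha' hb'
      rw [(hh _ _).2.2.1]
      rw [(hh (b * b) (a * a)).1, (hh b b).1, (hh a a).1, (hh a b).1]
      exact inf_eq_left.mpr hle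
    intro a b ha hb
    obtain ⟨a', rfl⟩ := hsurj a
    obtain ⟨b', rfl⟩ := hsurj b
    have h1 : f 1 = 1 := hone f (fun a b => (hf a b).1)
    have ea : f (a' ⊔ 1) = f a' := by rw [(hf _ _).2.1, h1, sup_eq_left.mpr ha]
    have eb : f (b' ⊔ 1) = f b' := by rw [(hf _ _).2.1, h1, sup_eq_left.mpr hb]
    have h2 := hP (a' ⊔ 1) (b' ⊔ 1) le_sup_right le_sup_right
    have hmono := mono_of_hom f (fun a b => (hf a b).2.2.1)
    have h3 := hmono _ _ h2
    rw [(hf _ _).1, (hf ((b' ⊔ 1) * (b' ⊔ 1)) _).1, (hf (b' ⊔ 1) (b' ⊔ 1)).1,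
      (hf (a' ⊔ 1) (a' ⊔ 1)).1, ea, eb] at h3
    exact h3

end Pool.Agent.S01703
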