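import Pool.Statements.S01842
import Pool.Agent.Results.MP_b1d060_al.NoVirtuallyAbelianSplitting

set_option autoImplicit false
open Filter
open Pool Pool.MP_b1d060_al

namespace Pool.Agent.S01842

/-- The negation of the preceding statement: For n>3 and G finitely generated with asymptotic dimension at least n, if a coarsely embedded copy of Z^(n-2) coarsely separates the Cayley graph, then G acts on a tree without inversions or fixed vertex with all edge stabilizers virtually Z^(n-2). -/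
theorem result :
    ¬ (∀ (n : ℕ), 3 < n → ∀ (G : Type) [Group G] (S : Finset G),
      Subgroup.closure (S : Set G) = ⊤ →
      ∀ Γ : SimpleGraph G, Γ = SimpleGraph.fromRel (fun g h : G => g⁻¹ * h ∈ S) →
      (¬ ∀ r : ℕ, ∃ (ι : Type) (U : ι → Set G) (D : ℕ),
          (∀ x : G, ∃ i, x ∈ U i) ∧
          (∀ i, ∀ x ∈ U i, ∀ y ∈ U i, Γ.dist x y ≤ D) ∧
          ∀ x : G, {i : ι | ∃ y ∈ U i, Γ.dist x y ≤ r}.encard ≤ (n : ℕ∞)) →
      (∃ f : (Fin (n - 2) → ℤ) → G,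
          (∃ ρ : ℕ → ℕ, ∀ a b, Γ.dist (f a) (f b) ≤ ρ (∑ i, |a i - b i|).toNat) ∧
          (∃ ρ : ℕ → ℕ, Tendsto ρ atTop atTop ∧
              ∀ a b, ρ (∑ i, |a i - b i|).toNat ≤ Γ.dist (f a) (f b)) ∧
          (∃ L : ℕ, ∀ D : ℕ, ∃ x y : G,
              (∀ z, L + D < Γ.dist x (f z)) ∧ (∀ z, L + D < Γ.dist y (f z)) ∧
              ¬ ∃ p : Γ.Walk x y, ∀ v ∈ p.support, ∀ z, L < Γ.dist v (f z))) →
      ∃ (T : Type) (Γt : SimpleGraph T) (ρ : G →* Equiv.Perm T),
        Γt.IsTree ∧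
        (∀ g u v, Γt.Adj u v → Γt.Adj (ρ g u) (ρ g v)) ∧
        (∀ g u v, Γt.Adj u v → ¬ (ρ g u = v ∧ ρ g v = u)) ∧
        (∀ v, ∃ g, ρ g v ≠ v) ∧
        ∀ u v, Γt.Adj u v → ∀ H : Subgroup G, (∀ g, g ∈ H ↔ (ρ g u = u ∧ ρ g v = v)) →
          ∃ K : Subgroup G, K ≤ H ∧ (K.subgroupOf H).index ≠ 0 ∧
            Nonempty (K ≃* Multiplicative (Fin (n - 2) → ℤ))) := by
  intro h
  obtain ⟨G, instG, S, Γ, hS, hΓ, hasd, hsep, hfix⟩ :=
    Pool.Agent.Results.MP_b1d060_al.NoVirtuallyAbelianSplitting.result 4 (by norm_num)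
  obtain ⟨T, Γt, ρ, hT, hadj, hinv, hnofix, hst⟩ :=
    h 4 (by norm_num) G S hS Γ hΓ hasd hsep
  obtain ⟨v, hv⟩ := hfix T Γt ρ hT hadj hinv (by
    intro u v huv H hH
    obtain ⟨K, hK, hidx, ⟨e⟩⟩ := hst u v huv H hH
    refine ⟨K, hK, hidx, ?_⟩
    intro g hg hfin
    rw [isOfFinOrder_iff_pow_eq_one] at hfin
    obtain ⟨k, hk, hgk⟩ := hfin
    have h1 : e ⟨g, hg⟩ ^ k = 1 := by
      rw [← map_pow]
      have : (⟨g, hg⟩ : K) ^ k = 1 := by
        apply Subtype.ext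
        simpa using hgk
      rw [this, map_one]
    have h2 : e ⟨g, hg⟩ = 1 := by
      have h3 : k • Multiplicative.toAdd (e ⟨g, hg⟩) = 0 := by
        rw [← toAdd_pow, h1, toAdd_one]
      have h4 : Multiplicative.toAdd (e ⟨g, hg⟩) = 0 := by
        funext i
        have h5 := congrFun h3 i
        simp only [Pi.smul_apply, Pi.zero_apply, nsmul_eq_mul] at h5 ⊢
        have hk' : (k : ℤ) ≠ 0 := by exact_mod_cast hk.ne'
        exact (mul_eq_zero.mp h5).resolve_left hk'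
      exact Multiplicative.toAdd.injective h4
    have h6 : (⟨g, hg⟩ : K) = 1 := by
      apply e.injective
      rw [h2, map_one]
    simpa using congrArg Subtype.val h6)
  obtain ⟨g, hg⟩ := hnofix v
  exact hg (hv g)

end Pool.Agent.S01842
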