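import Pool.Statements.S01852
import Pool.Agent.H26R2.Main

set_option autoImplicit false
open Pool Pool.MP_b22f56_al

namespace Pool.Agent.S01852

/-- The negation of the preceding statement: For every g, each subgroup of Out(π₁ of the genus-g surface) that is isomorphic to a closed genus-h surface group (h≥2) is separable: every element outside it avoids some finite-index subgroup containing it. -/
theorem result :
    ¬ (∀ g : ℕ,
    ∀ H : Subgroup (MulAut (PresentedGroup ({((List.finRange g).map (fun i : Fin g =>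
            FreeGroup.of (i, (0 : Fin 2)) * FreeGroup.of (i, (1 : Fin 2)) *
            (FreeGroup.of (i, (0 : Fin 2)))⁻¹ * (FreeGroup.of (i, (1 : Fin 2)))⁻¹)).prod} :
            Set (FreeGroup (Fin g × Fin 2)))) ⧸
        Subgroup.normalClosure (Set.range (fun x : PresentedGroup ({((List.finRange g).map (fun i : Fin g =>
            FreeGroup.of (i, (0 : Fin 2)) * FreeGroup.of (i, (1 : Fin 2)) *
            (FreeGroup.of (i, (0 : Fin 2)))⁻¹ * (FreeGroup.of (i, (1 : Fin 2)))⁻¹)).prod} :
            Set (FreeGroup (Fin g × Fin 2))) => MulAut.conj x))),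
    (∃ h : ℕ, 2 ≤ h ∧ Nonempty (H ≃* PresentedGroup ({((List.finRange h).map (fun i : Fin h =>
            FreeGroup.of (i, (0 : Fin 2)) * FreeGroup.of (i, (1 : Fin 2)) *
            (FreeGroup.of (i, (0 : Fin 2)))⁻¹ * (FreeGroup.of (i, (1 : Fin 2)))⁻¹)).prod} :
            Set (FreeGroup (Fin h × Fin 2))))) →
    ∀ x, x ∉ H → ∃ N : Subgroup _, N.FiniteIndex ∧ H ≤ N ∧ x ∉ N) := by
  intro hall
  obtain ⟨N, hfin, hle, hx⟩ := hall 4 H26R2.iOut.range
    ⟨4, by norm_num, ⟨(MonoidHom.ofInjective H26R2.iOut_inj).symm⟩⟩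
    ((H26R2.toOut H26R2.eT) ^ 3) H26R2.not_mem
  exact hx (H26R2.closure_mem N hfin hle)

end Pool.Agent.S01852
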