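import Pool.Statements.S01894
import Pool.Agent.H88R2.EC.Main

set_option autoImplicit false
open Pool Pool.MP_b5e13b_al

namespace Pool.Agent.S01894

/-- The negation of the preceding statement: For each class (locally nilpotent torsion-free; locally soluble π-groups, any π; locally soluble torsion-free; locally soluble), every existentially closed member G has no characteristic subgroups other than 1 and G. -/
theorem result :
    ¬ (∀ (P : (H : Type) → Group H → Prop),
      (P = (fun (H : Type) (i : Group H) =>
              (∀ S : Finset H, Group.IsNilpotent (Subgroup.closure (S : Set H))) ∧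
              (∀ g : H, g ≠ 1 → orderOf g = 0)) ∨
       (∃ π : Set ℕ, P = (fun (H : Type) (i : Group H) =>
              (∀ S : Finset H, IsSolvable (Subgroup.closure (S : Set H))) ∧
              (∀ g : H, orderOf g ≠ 0 ∧ ∀ p : ℕ, p.Prime → p ∣ orderOf g → p ∈ π))) ∨
       P = (fun (H : Type) (i : Group H) =>
              (∀ S : Finset H, IsSolvable (Subgroup.closure (S : Set H))) ∧
              (∀ g : H, g ≠ 1 → orderOf g = 0)) ∨
       P = (fun (H : Type) (i : Group H) =>
              (∀ S : Finset H, IsSolvable (Subgroup.closure (S : Set H))))) →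
      ∀ (G : Type) (instG : Group G), P G instG →
        (∀ (H : Type) (iH : Group H), P H iH →
          ∀ f : G →* H, Function.Injective f →
            ∀ n : ℕ, ∀ E U : Finset (Monoid.Coprod G (FreeGroup (Fin n))),
              (∃ x : Fin n → H,
                  (∀ w ∈ E, Monoid.Coprod.lift f (FreeGroup.lift x) w = 1) ∧
                  (∀ w ∈ U, Monoid.Coprod.lift f (FreeGroup.lift x) w ≠ 1)) →
              ∃ y : Fin n → G,
                  (∀ w ∈ E, Monoid.Coprod.lift (MonoidHom.id G) (FreeGroup.lift y) w = 1) ∧
                  (∀ w ∈ U, Monoid.Coprod.lift (MonoidHom.id G) (FreeGroup.lift y) w ≠ 1)) →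
        ∀ N : Subgroup G, N.Characteristic → N = ⊥ ∨ N = ⊤) := by
  intro h
  obtain ⟨G, instG, hG, hAEC, N, hN, hb, ht⟩ := Pool.Agent.H88R2.EC.main
  rcases h _ (Or.inr (Or.inr (Or.inr rfl))) G instG hG
    (fun H iH hH f hf n E U hx => hAEC H iH hH f hf n E U hx) N hN with h1 | h1
  · exact hb h1
  · exact ht h1

end Pool.Agent.S01894
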