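import Pool.Statements.S01950
import Pool.Agent.Helper604.NSG

set_option autoImplicit false
open Pool Pool.MP_bcc2ed_al

namespace Pool.Agent.S01950

open Pool.Agent.Helper604 Pool.Agent.Helper604.Glue Pool.Agent.Helper604.NSG

/-- A relation of a presentation in each special degree. -/
theorem exists_rel {e N : ℕ} (G : Good e N) (ρ : Finset ((Fin e → ℕ) × (Fin e → ℕ)))
    (hρ : ∀ a b : Fin e → ℕ, addConGen (fun u v : Fin e → ℕ => (u, v) ∈ ρ) a b ↔
      ∑ i, a i * G.a i = ∑ i, b i * G.a i) (n : Fin N) :
    ∃ p ∈ ρ, ∑ i, p.1 i * G.a i = G.v n := by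
  by_contra hcon
  push Not at hcon
  have hz : ∀ u : Fin e → ℕ, ∑ i, u i * G.a i = 0 → u = 0 := by
    intro u hu
    rw [Finset.sum_eq_zero_iff] at hu
    ext i
    have h1 := hu i (Finset.mem_univ i)
    have h2 := G.pos i
    rcases Nat.mul_eq_zero.mp h1 with h3 | h3
    · exact h3
    · omega
  have hadd : ∀ u w : Fin e → ℕ, ∑ i, (u + w) i * G.a i =
      ∑ i, u i * G.a i + ∑ i, w i * G.a i := by
    intro u w
    simp only [Pi.add_apply, add_mul, Finset.sum_add_distrib]
  -- the congruence that does not join the two classes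
  let c : AddCon (Fin e → ℕ) :=
    { r := fun a b => ∑ i, a i * G.a i = ∑ i, b i * G.a i ∧
        (∑ i, a i * G.a i = G.v n → ((∀ i, i ∉ G.T → a i = 0) ↔ (∀ i, i ∉ G.T → b i = 0)))
      iseqv := by
        refine ⟨fun a => ⟨rfl, fun _ => Iff.rfl⟩, ?_, ?_⟩
        · rintro a b ⟨h1, h2⟩
          exact ⟨h1.symm, fun h => (h2 (h1.trans h)).symm⟩
        · rintro a b d ⟨h1, h2⟩ ⟨h3, h4⟩
          exact ⟨h1.trans h3, fun h => (h2 h).trans (h4 (h1.symm.trans h))⟩
      add' := by
        have key : ∀ a b c d : Fin e → ℕ, ∑ i, a i * G.a i = ∑ i, b i * G.a i →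
            (∑ i, a i * G.a i = G.v n →
              ((∀ i, i ∉ G.T → a i = 0) ↔ (∀ i, i ∉ G.T → b i = 0))) →
            ∑ i, c i * G.a i = ∑ i, d i * G.a i →
            (∑ i, c i * G.a i = G.v n →
              ((∀ i, i ∉ G.T → c i = 0) ↔ (∀ i, i ∉ G.T → d i = 0))) →
            ∑ i, (a + c) i * G.a i = G.v n →
            (∀ i, i ∉ G.T → (a + c) i = 0) → (∀ i, i ∉ G.T → (b + d) i = 0) := by
          intro a b c d h1 h2 h3 h4 h5 h6
          rw [hadd] at h5
          have hac : ∀ i, i ∉ G.T → a i = 0 ∧ c i = 0 := by
            intro i hi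
            have := h6 i hi
            simp only [Pi.add_apply] at this
            omega
          by_cases hb : b = 0
          · have ha0 : a = 0 := hz a (by rw [h1, hb]; simp)
            have h7 : ∑ i, c i * G.a i = G.v n := by
              rw [ha0] at h5; simpa using h5
            have h8 := (h4 h7).mp (fun i hi => (hac i hi).2)
            intro i hi
            rw [hb, zero_add]
            exact h8 i hi
          by_cases hc : c = 0
          · have hd0 : d = 0 := hz d (by rw [← h3, hc]; simp)
            have h7 : ∑ i, a i * G.a i = G.v n := by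
              rw [hc] at h5; simpa using h5
            have h8 := (h2 h7).mp (fun i hi => (hac i hi).1)
            intro i hi
            rw [hd0, add_zero]
            exact h8 i hi
          -- now b and c are both nonzero
          have hbT : ∀ i, i ∉ G.T → b i = 0 := by
            have h7 : ∑ i, (b + c) i * G.a i = G.v n := by rw [hadd, ← h1]; exact h5
            rcases G.split n (b + c) h7 with h | h
            · intro i hi
              have := h i hi
              simp only [Pi.add_apply] at this
              omega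
            · exfalso
              apply hc
              ext i
              by_cases hi : i ∈ G.T
              · have := h i hi
                simp only [Pi.add_apply] at this
                simp only [Pi.zero_apply]
                omega
              · exact (hac i hi).2
          have h8 : ∑ i, (b + d) i * G.a i = G.v n := by rw [hadd, ← h1, ← h3]; exact h5
          rcases G.split n (b + d) h8 with h | h
          · exact h
          · exfalso
            apply hb
            ext i
            by_cases hi : i ∈ G.T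
            · have := h i hi
              simp only [Pi.add_apply] at this
              simp only [Pi.zero_apply]
              omega
            · exact hbT i hi
        rintro a b c d ⟨h1, h2⟩ ⟨h3, h4⟩
        refine ⟨by rw [hadd, hadd, h1, h3], fun h5 => ⟨?_, ?_⟩⟩
        · exact key a b c d h1 h2 h3 h4 h5
        · have h5' : ∑ i, (b + d) i * G.a i = G.v n := by
            rw [hadd] at h5 ⊢; rw [← h1, ← h3]; exact h5
          exact key b a d c h1.symm (fun h => (h2 (h1.trans h)).symm) h3.symm
            (fun h => (h4 (h3.trans h)).symm) h5' }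
  have hle : addConGen (fun u v : Fin e → ℕ => (u, v) ∈ ρ) ≤ c := by
    rw [AddCon.addConGen_le]
    intro u v huv
    have h1 : ∑ i, u i * G.a i = ∑ i, v i * G.a i :=
      (hρ u v).mp (AddConGen.Rel.of _ _ huv)
    exact ⟨h1, fun h => absurd h (hcon (u, v) huv)⟩
  obtain ⟨u1, hu1, hu1'⟩ := G.in1 n
  obtain ⟨u2, hu2, hu2'⟩ := G.in2 n
  have h := hle ((hρ u1 u2).mpr (hu1'.trans hu2'.symm))
  exact hu2 ((h.2 hu1').mp hu1)

theorem card_ge {e N : ℕ} (G : Good e N) (ρ : Finset ((Fin e → ℕ) × (Fin e → ℕ)))
    (hρ : ∀ a b : Fin e → ℕ, addConGen (fun u v : Fin e → ℕ => (u, v) ∈ ρ) a b ↔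
      ∑ i, a i * G.a i = ∑ i, b i * G.a i) : N ≤ ρ.card := by
  classical
  choose p hp hp' using exists_rel G ρ hρ
  have hinj : Function.Injective p := by
    intro n m h
    apply G.vinj
    rw [← hp' n, ← hp' m, h]
  have : (Finset.univ.image p).card ≤ ρ.card :=
    Finset.card_le_card (by
      intro x hx
      rw [Finset.mem_image] at hx
      obtain ⟨n, _, rfl⟩ := hx
      exact hp n)
  rwa [Finset.card_image_of_injective _ hinj, Finset.card_univ, Fintype.card_fin] at this

/-- The negation of the preceding statement: There is B : ℕ → ℕ such that every symmetric numerical semigroup with e minimal generators has a presentation (pairs generating the congruence of the factorization map) of at most B(e) relations. -/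
theorem result :
    ¬ (∃ B : ℕ → ℕ, ∀ (S : AddSubmonoid ℕ),
      (∃ F : ℤ, ∀ x : ℤ, (∃ m ∈ S, (m : ℤ) = x) ↔ ¬ ∃ m ∈ S, (m : ℤ) = F - x) →
      ∀ (e : ℕ) (n : Fin e → ℕ), Function.Injective n →
        Set.range n = {x : ℕ | x ∈ S ∧ x ≠ 0 ∧ ∀ a ∈ S, ∀ b ∈ S, a + b = x → a = 0 ∨ b = 0} →
        ∃ ρ : Finset ((Fin e → ℕ) × (Fin e → ℕ)), ρ.card ≤ B e ∧
          ∀ a b : Fin e → ℕ,
            addConGen (fun u v : Fin e → ℕ => (u, v) ∈ ρ) a b ↔
              ∑ i, a i * n i = ∑ i, b i * n i) := by
  rintro ⟨B, hB⟩
  obtain ⟨G⟩ := Glue.good 8 (B 8 + 1) le_rfl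
  obtain ⟨ρ, hρ1, hρ2⟩ := hB (sg G) ⟨G.F, fun x => by
      have h1 := Mem_sg G x
      have h2 := Mem_sg G (G.F - x)
      unfold Mem at h1 h2
      rw [h1, h2]
      exact G.symm x⟩ 8 G.a (a_inj G) (by
      ext x
      have := mem_minGens G x
      rw [Set.mem_range]
      exact this.symm)
  have := card_ge G ρ hρ2
  omega

end Pool.Agent.S01950
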