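import Pool.Statements.S01958
-- import your own Pool.Agent.* helpers here

/-!
The counterexample: `G = < a, b | a^16, b^4, b^-1 a b = a^5 >` of order 64, `S = {a, a b}` and
`T = {a, a b^-1}`.  The Cayley digraphs of `(G, S)` and `(G, T)` are isomorphic (explicit map
`fwd`), but no automorphism of `G` maps `S` onto `T`: in `S` one has `(a b)^-1 a (a b) = a^5`,
and neither ordering of `T` satisfies this relation.
-/

set_option autoImplicit false
open Pool Pool.MP_bd517a_al

namespace Pool.Agent.S01958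

/-- Elements `a^i b^j` of the group of order 64. -/
@[ext] structure Gp where
  i : ZMod 16
  j : ZMod 4
deriving DecidableEq

/-- `b^j a b^-j = a^(u j)` -/
def u : ZMod 4 → ZMod 16 := fun j => if j = 0 then 1 else if j = 1 then 13 else if j = 2 then 9 else 5

theorem u_add : ∀ a b : ZMod 4, u (a + b) = u a * u b := by decide +kernel

theorem u_neg : ∀ a : ZMod 4, u a * u (-a) = 1 := by decide +kernel

instance : Mul Gp := ⟨fun p q => ⟨p.i + u p.j * q.i, p.j + q.j⟩⟩
instance : One Gp := ⟨⟨0, 0⟩⟩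
instance : Inv Gp := ⟨fun p => ⟨-(u (-p.j) * p.i), -p.j⟩⟩

theorem mul_def (p q : Gp) : p * q = ⟨p.i + u p.j * q.i, p.j + q.j⟩ := rfl
theorem one_def : (1 : Gp) = ⟨0, 0⟩ := rfl
theorem inv_def (p : Gp) : p⁻¹ = ⟨-(u (-p.j) * p.i), -p.j⟩ := rfl

instance : Group Gp :=
  Group.ofLeftAxioms
    (by
      intro p q r
      simp only [mul_def, u_add]
      ext
      · ring_nf
      · simp only [add_assoc])
    (by
      intro p
      have : u 0 = 1 := by decide +kernel
      simp only [mul_def, one_def, this]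
      ext <;> simp)
    (by
      intro p
      simp only [mul_def, one_def, inv_def]
      ext <;> simp)

/-- The type is a product. -/
def eqv : ZMod 16 × ZMod 4 ≃ Gp where
  toFun p := ⟨p.1, p.2⟩
  invFun g := (g.i, g.j)
  left_inv _ := rfl
  right_inv _ := rfl

instance : Fintype Gp := Fintype.ofEquiv _ eqv

def a : Gp := ⟨1, 0⟩
def b : Gp := ⟨0, 1⟩
def ab : Gp := ⟨1, 1⟩
def ab' : Gp := ⟨1, 3⟩

def h1 (i : ZMod 16) : ZMod 16 :=
  ([0, 1, 2, 7, 12, 5, 14, 11, 8, 9, 10, 15, 4, 13, 6, 3] : List (ZMod 16)).getD i.val 0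

def h2 (i : ZMod 16) : ZMod 4 :=
  ([0, 0, 3, 3, 2, 2, 1, 1, 0, 0, 3, 3, 2, 2, 1, 1] : List (ZMod 4)).getD i.val 0

/-- The isomorphism of digraphs. -/
def fwd (g : Gp) : Gp := ⟨h1 g.i, h2 g.i + (if g.i.val % 2 = 0 then g.j else - g.j)⟩

theorem fwd_inj : ∀ x y : Gp, fwd x = fwd y → x = y := by decide +kernel

theorem fwd_arc : ∀ x y : Gp, (x⁻¹ * y = a ∨ x⁻¹ * y = ab) ↔
    ((fwd x)⁻¹ * fwd y = a ∨ (fwd x)⁻¹ * fwd y = ab') := by decide +kernel

theorem a_pow : ∀ i : Fin 16, a ^ (i : ℕ) = ⟨(i : ℕ), 0⟩ := by decide +kernel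

theorem gen_dec : ∀ g : Gp, ∃ i : Fin 16, ∃ j : Fin 4, g = a ^ (i : ℕ) * b ^ (j : ℕ) := by
  decide +kernel

theorem not_gen_a : ∀ k : Fin 16, a ^ (k : ℕ) ≠ b := by decide +kernel

/-- The negation of the preceding statement: In every finite group, every inclusion-minimal generating set S is a CI-subset: if Cay(G,S) and Cay(G,T) are isomorphic digraphs, some group automorphism maps S onto T. -/
theorem result :
    ¬ (∀ (G : Type) [Group G] [Finite G] (S : Set G),
      (Subgroup.closure S = ⊤ ∧ ∀ S' : Set G, S' ⊂ S → Subgroup.closure S' ≠ ⊤) →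
      ∀ T : Set G,
        (∃ f : G ≃ G, ∀ x y : G, x⁻¹ * y ∈ S ↔ (f x)⁻¹ * f y ∈ T) →
        ∃ σ : MulAut G, ⇑σ '' S = T) := by
  intro h
  have hb : (ab : Gp) = a * b := by decide +kernel
  have hcl : Subgroup.closure ({a, ab} : Set Gp) = ⊤ := by
    rw [eq_top_iff]
    intro g _
    have ha : a ∈ Subgroup.closure ({a, ab} : Set Gp) := Subgroup.subset_closure (by simp)
    have hab : ab ∈ Subgroup.closure ({a, ab} : Set Gp) := Subgroup.subset_closure (by simp)
    have hbm : b ∈ Subgroup.closure ({a, ab} : Set Gp) := by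
      have : b = a⁻¹ * ab := by rw [hb]; group
      rw [this]
      exact Subgroup.mul_mem _ (Subgroup.inv_mem _ ha) hab
    obtain ⟨i, j, rfl⟩ := gen_dec g
    exact Subgroup.mul_mem _ (Subgroup.pow_mem _ ha _) (Subgroup.pow_mem _ hbm _)
  -- no commutative subset generates
  have hnc : ¬ (∀ x y : Gp, x * y = y * x) := by
    intro hc
    have : a * b = b * a := hc a b
    revert this
    decide +kernel
  have hcyc : ∀ c : Gp, Subgroup.closure ({c} : Set Gp) ≠ ⊤ := by
    intro c hc
    apply hnc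
    intro x y
    have hx : x ∈ Subgroup.closure ({c} : Set Gp) := by rw [hc]; trivial
    have hy : y ∈ Subgroup.closure ({c} : Set Gp) := by rw [hc]; trivial
    rw [Subgroup.mem_closure_singleton] at hx hy
    obtain ⟨m, rfl⟩ := hx
    obtain ⟨n, rfl⟩ := hy
    rw [← zpow_add, ← zpow_add, add_comm]
  have hmin : ∀ S' : Set Gp, S' ⊂ {a, ab} → Subgroup.closure S' ≠ ⊤ := by
    intro S' hS' hS
    have hsub0 : S' ⊆ ({a, ab} : Set Gp) := hS'.subset
    obtain ⟨c, hc⟩ : ∃ c : Gp, S' ⊆ {c} := by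
      rw [Set.ssubset_iff_of_subset hS'.subset] at hS'
      obtain ⟨z, hz, hz'⟩ := hS'
      have hsub : ∀ w ∈ S', w = a ∨ w = ab := fun w hw => by simpa using hsub0 hw
      have hz2 : z = a ∨ z = ab := by simpa using hz
      rcases hz2 with rfl | rfl
      · refine ⟨ab, fun w hw => ?_⟩
        rcases hsub w hw with rfl | rfl
        · exact absurd hw hz'
        · rfl
      · refine ⟨a, fun w hw => ?_⟩
        rcases hsub w hw with rfl | rfl
        · rfl
        · exact absurd hw hz'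
    apply hcyc c
    rw [eq_top_iff, ← hS]
    exact Subgroup.closure_mono hc
  have key := h Gp {a, ab} ⟨hcl, hmin⟩ {a, ab'} ⟨Equiv.ofBijective fwd
    ((Finite.injective_iff_bijective).1 (fun x y hxy => fwd_inj x y hxy)), fun x y => by
      simpa using fwd_arc x y⟩
  obtain ⟨σ, hσ⟩ := key
  have h1 : σ a = a ∨ σ a = ab' := by
    have : σ a ∈ (⇑σ '' ({a, ab} : Set Gp)) := ⟨a, by simp, rfl⟩
    rw [hσ] at this
    simpa using this
  have h2 : σ ab = a ∨ σ ab = ab' := by
    have : σ ab ∈ (⇑σ '' ({a, ab} : Set Gp)) := ⟨ab, by simp, rfl⟩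
    rw [hσ] at this
    simpa using this
  have hrel : a * ab = ab * a ^ 5 := by decide +kernel
  have hσr : σ a * σ ab = σ ab * (σ a) ^ 5 := by
    rw [← map_mul, hrel, map_mul, map_pow]
  have hne : a ≠ ab := by decide +kernel
  rcases h1 with h1 | h1 <;> rcases h2 with h2 | h2
  · exact hne (σ.injective (h1.trans h2.symm))
  · rw [h1, h2] at hσr
    revert hσr
    decide +kernel
  · rw [h1, h2] at hσr
    revert hσr
    decide +kernel
  · exact hne (σ.injective (h1.trans h2.symm))

end Pool.Agent.S01958
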