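import Pool.Statements.S02067
import Pool.Agent.H44R2.Cohopf

set_option autoImplicit false
open Pool Pool.MP_ca6812_al

namespace Pool.Agent.S02067

/-- For every one-relator group on finitely many generators that has a nontrivial element of finite order and is not a free product of two nontrivial groups, every injective endomorphism is surjective. -/
theorem result :
    ∀ (k : ℕ) (w : FreeGroup (Fin k)),
      (∃ g : PresentedGroup ({w} : Set (FreeGroup (Fin k))), g ≠ 1 ∧ IsOfFinOrder g) →
      (∀ (A B : Type) [Group A] [Group B], Nontrivial A → Nontrivial B →
        IsEmpty (PresentedGroup ({w} : Set (FreeGroup (Fin k))) ≃* Monoid.Coprod A B)) →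
      ∀ f : PresentedGroup ({w} : Set (FreeGroup (Fin k))) →*
          PresentedGroup ({w} : Set (FreeGroup (Fin k))),
        Function.Injective f → Function.Surjective f := by
  intro k w htor hind f hf
  exact Pool.Agent.H44R2.cohopf k w htor hind f hf

end Pool.Agent.S02067
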