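import Pool.Statements.S02072
import Pool.Agent.H59R2.StdMain

set_option autoImplicit false
open Pool Pool.MP_cacfbf_al

namespace Pool.Agent.S02072

/-- The negation of the preceding statement: For any restricted Lie algebra L over a field of characteristic p and any PI subalgebra R of its restricted enveloping algebra, the least n such that some power of the standard polynomial S_{2n} vanishes identically on R is a power of p. -/
theorem result :
    ¬ (∀ (p : ℕ), p.Prime → ∀ (F : Type) [Field F] [CharP F p]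
      (L : Type) [LieRing L] [LieAlgebra F L] (f : L → L),
      (∀ x y : L,
        (UniversalEnvelopingAlgebra.ι F (x + y)) ^ p - UniversalEnvelopingAlgebra.ι F (f (x + y)) =
          ((UniversalEnvelopingAlgebra.ι F x) ^ p - UniversalEnvelopingAlgebra.ι F (f x)) +
          ((UniversalEnvelopingAlgebra.ι F y) ^ p - UniversalEnvelopingAlgebra.ι F (f y))) →
      (∀ (a : F) (x : L),
        (UniversalEnvelopingAlgebra.ι F (a • x)) ^ p - UniversalEnvelopingAlgebra.ι F (f (a • x)) =
          a ^ p • ((UniversalEnvelopingAlgebra.ι F x) ^ p - UniversalEnvelopingAlgebra.ι F (f x))) →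
      (∀ x y : L,
        Commute ((UniversalEnvelopingAlgebra.ι F x) ^ p - UniversalEnvelopingAlgebra.ι F (f x))
          (UniversalEnvelopingAlgebra.ι F y)) →
      ∀ R : Subalgebra F (RingQuot (fun a b : UniversalEnvelopingAlgebra F L =>
          ∃ x : L, a = (UniversalEnvelopingAlgebra.ι F x) ^ p ∧ b = UniversalEnvelopingAlgebra.ι F (f x))),
      (∃ k : ℕ, ∃ φ : FreeAlgebra F (Fin k), φ ≠ 0 ∧
          ∀ x : Fin k → R, FreeAlgebra.lift F x φ = 0) →
      ∀ n : ℕ,
        (∃ m : ℕ, 1 ≤ m ∧ ∀ x : Fin (2 * n) → R,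
          (∑ σ : Equiv.Perm (Fin (2 * n)),
            ((Equiv.Perm.sign σ : ℤˣ) : ℤ) • (List.ofFn fun i => x (σ i)).prod) ^ m = 0) →
        (∀ n' : ℕ, n' < n → ¬ ∃ m : ℕ, 1 ≤ m ∧ ∀ x : Fin (2 * n') → R,
          (∑ σ : Equiv.Perm (Fin (2 * n')),
            ((Equiv.Perm.sign σ : ℤˣ) : ℤ) • (List.ofFn fun i => x (σ i)).prod) ^ m = 0) →
        ∃ k : ℕ, n = p ^ k) := by
  exact Pool.Agent.H59R2.StdMain.main

end Pool.Agent.S02072
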