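import Pool.Statements.S02252
import Pool.Agent.Helper813.SL4

set_option autoImplicit false
open Pool Pool.MP_de34bb_al

namespace Pool.Agent.S02252

open Matrix

/-
The counterexample.  `G = GL_4(F_5)`, `L = SL_4(F_5)` (a normal quasisimple subgroup, hence a component),
`A = < a >` with the homology `a = diag(2,1,1,1)`, which has order 4.
* `a = 2 a^2 + 4`, so everything commuting with `a^2` commutes with `a`; as `a^2` is the only involution
  of `A`, `A` is a TI-subgroup.
* `L C(L) = SL_4(F_5) Z = SL_4(F_5)` (scalars have determinant `c^4 = 1`) and `det` is injective on `A`.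
* `A` does not centralize `L`.
-/

local instance : Fact (Nat.Prime 5) := ⟨by norm_num⟩

/-- the field with five elements -/
abbrev F5 : Type := ZMod 5

/-- the homology diag(2,1,1,1) -/
def aMat : Matrix (Fin 4) (Fin 4) F5 := Matrix.diagonal ![2, 1, 1, 1]

/-- its inverse -/
def aInv : Matrix (Fin 4) (Fin 4) F5 := Matrix.diagonal ![3, 1, 1, 1]

lemma aMat_mul_aInv : aMat * aInv = 1 := by decide +kernel

lemma aInv_mul_aMat : aInv * aMat = 1 := by decide +kernel

/-- the homology as an element of GL_4(F_5) -/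
def a : GL (Fin 4) F5 := ⟨aMat, aInv, aMat_mul_aInv, aInv_mul_aMat⟩

lemma aMat_sq_rel : aMat = (2 : F5) • (aMat * aMat) + (4 : F5) • 1 := by decide +kernel

lemma aMat_pow_four : aMat * aMat * (aMat * aMat) = 1 := by decide +kernel

lemma aMat_sq_ne : aMat * aMat ≠ 1 := by decide +kernel

lemma a_pow_four : a ^ 4 = 1 := by
  apply Units.ext
  have : (a : Matrix (Fin 4) (Fin 4) F5) = aMat := rfl
  rw [Units.val_pow_eq_pow_val, this, Units.val_one, ← aMat_pow_four]
  simp only [pow_succ, pow_zero, one_mul, mul_assoc]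

lemma a_sq_ne : a ^ 2 ≠ 1 := by
  intro h
  apply aMat_sq_ne
  have h1 := congrArg (fun u : GL (Fin 4) F5 => (u : Matrix (Fin 4) (Fin 4) F5)) h
  have h2 : (a : Matrix (Fin 4) (Fin 4) F5) = aMat := rfl
  simpa [Units.val_pow_eq_pow_val, h2, pow_two] using h1

lemma comm_of_comm_sq (g : GL (Fin 4) F5) (h : g * a ^ 2 = a ^ 2 * g) : g * a = a * g := by
  apply Units.ext
  have h1 := congrArg (fun u : GL (Fin 4) F5 => (u : Matrix (Fin 4) (Fin 4) F5)) h
  have h2 : (a : Matrix (Fin 4) (Fin 4) F5) = aMat := rfl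
  simp only [Units.val_mul, h2, pow_two] at h1
  rw [Units.val_mul, Units.val_mul, h2]
  rw [aMat_sq_rel]
  rw [mul_add, add_mul, mul_smul_comm, smul_mul_assoc, h1]
  simp

lemma orderOf_a : orderOf a = 4 := by
  have : orderOf a = 2 ^ (1 + 1) := by
    apply orderOf_eq_prime_pow
    · simpa using a_sq_ne
    · simpa using a_pow_four
  simpa using this

lemma det_a : Matrix.GeneralLinearGroup.det a = Units.mk0 (2 : F5) (by decide) := by
  apply Units.ext
  have : aMat.det = 2 := by decide +kernel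
  exact this

lemma det_a_pow (k : ℕ) (hk : k < 4) (h : (2 : F5) ^ k = 1) : k = 0 := by
  revert h
  interval_cases k <;> decide

/-- every element of A is a power a^k with k < 4 -/
lemma mem_A {x : GL (Fin 4) F5} (hx : x ∈ Subgroup.zpowers a) : ∃ k : ℕ, k < 4 ∧ x = a ^ k := by
  have hfin : IsOfFinOrder a := by
    rw [← orderOf_pos_iff, orderOf_a]; norm_num
  have h := hfin.mem_zpowers_iff_mem_range_orderOf.1 hx
  rw [orderOf_a] at h
  simp only [Finset.mem_image, Finset.mem_range] at h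
  obtain ⟨k, hk, rfl⟩ := h
  exact ⟨k, hk, rfl⟩

lemma sq_mem_A {x : GL (Fin 4) F5} (hx : x ∈ Subgroup.zpowers a) : x ^ 2 = 1 ∨ x ^ 2 = a ^ 2 := by
  obtain ⟨k, hk, rfl⟩ := mem_A hx
  have h4 := a_pow_four
  interval_cases k
  · left; simp
  · right; simp
  · left; rw [← pow_mul]; exact h4
  · right
    rw [← pow_mul, show 3 * 2 = 4 + 2 by norm_num, pow_add, h4, one_mul]

/-- if g conjugates a nontrivial element of A into A then g commutes with a^2 -/
lemma comm_sq_of_conj {g x : GL (Fin 4) F5} (hx : x ∈ Subgroup.zpowers a)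
    (hgx : g * x * g⁻¹ ∈ Subgroup.zpowers a) (hx1 : x ≠ 1) : g * a ^ 2 = a ^ 2 * g := by
  -- first: an element y of A with y^2 = 1, y ≠ 1 is a^2
  have key : ∀ y ∈ Subgroup.zpowers a, y ^ 2 = 1 → y ≠ 1 → y = a ^ 2 := by
    intro y hy hy2 hy1
    obtain ⟨k, hk, rfl⟩ := mem_A hy
    rw [← pow_mul] at hy2
    have hd : 4 ∣ k * 2 := by
      rw [← orderOf_a]; exact orderOf_dvd_of_pow_eq_one hy2
    have : k = 0 ∨ k = 2 := by omega
    rcases this with h | h
    · subst h; simp at hy1
    · rw [h]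
  have conj_sq : (g * x * g⁻¹) ^ 2 = g * x ^ 2 * g⁻¹ := by
    rw [pow_two, pow_two]; group
  have fin : ∀ z : GL (Fin 4) F5, z = a ^ 2 → g * z * g⁻¹ = a ^ 2 → g * a ^ 2 = a ^ 2 * g := by
    rintro z rfl h
    exact mul_inv_eq_iff_eq_mul.1 h
  rcases sq_mem_A hx with h | h
  · -- x has order two
    have hxa := key x hx h hx1
    have h2 : (g * x * g⁻¹) ^ 2 = 1 := by rw [conj_sq, h]; group
    have h3 : g * x * g⁻¹ ≠ 1 := by
      intro h4
      apply hx1
      have : x = g⁻¹ * (g * x * g⁻¹) * g := by group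
      rw [this, h4]; group
    exact fin x hxa (key _ hgx h2 h3)
  · -- x^2 = a^2
    have h3 : g * x ^ 2 * g⁻¹ ≠ 1 := by
      intro h4
      apply a_sq_ne
      rw [← h]
      have : x ^ 2 = g⁻¹ * (g * x ^ 2 * g⁻¹) * g := by group
      rw [this, h4]; group
    rcases sq_mem_A hgx with h5 | h5
    · rw [conj_sq] at h5; exact absurd h5 h3
    · rw [conj_sq] at h5
      exact fin (x ^ 2) h h5

/-- SL_4(F_5) inside GL_4(F_5) -/
abbrev L : Subgroup (GL (Fin 4) F5) :=
  (Matrix.SpecialLinearGroup.toGL (n := Fin 4) (R := F5)).range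

lemma L_le : L ≤ (Matrix.GeneralLinearGroup.det (n := Fin 4) (R := F5)).ker := by
  rintro _ ⟨s, rfl⟩
  rw [MonoidHom.mem_ker]
  apply Units.ext
  rw [Matrix.GeneralLinearGroup.val_det_apply, Matrix.SpecialLinearGroup.coe_GL_coe_matrix,
    Units.val_one]
  exact s.2

lemma mem_L_of_det {g : GL (Fin 4) F5} (h : (g : Matrix (Fin 4) (Fin 4) F5).det = 1) : g ∈ L := by
  obtain ⟨s, hs⟩ : ∃ s : Matrix.SpecialLinearGroup (Fin 4) F5,
      (s : Matrix (Fin 4) (Fin 4) F5) = (g : Matrix (Fin 4) (Fin 4) F5) := ⟨⟨_, h⟩, rfl⟩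
  refine ⟨s, ?_⟩
  apply Units.ext
  rw [Matrix.SpecialLinearGroup.coe_GL_coe_matrix, hs]

lemma det_of_mem_L {g : GL (Fin 4) F5} (h : g ∈ L) :
    Matrix.GeneralLinearGroup.det g = 1 := L_le h

lemma c_pow_four : ∀ c : F5, c ≠ 0 → c ^ 4 = 1 := by decide

lemma cent_le : Subgroup.centralizer (L : Set (GL (Fin 4) F5)) ≤
    (Matrix.GeneralLinearGroup.det (n := Fin 4) (R := F5)).ker := by
  intro g hg
  rw [Subgroup.mem_centralizer_iff] at hg
  have h1 : (g : Matrix (Fin 4) (Fin 4) F5) ∈ Set.range (Matrix.scalar (Fin 4)) := by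
    apply Matrix.mem_range_scalar_of_commute_transvectionStruct
    intro t
    have ht : (t.toSpecialLinearGroup : Matrix (Fin 4) (Fin 4) F5) = t.toMatrix := rfl
    have := hg (Matrix.SpecialLinearGroup.toGL t.toSpecialLinearGroup) ⟨_, rfl⟩
    have h2 := congrArg (fun u : GL (Fin 4) F5 => (u : Matrix (Fin 4) (Fin 4) F5)) this
    simp only [Units.val_mul] at h2
    exact h2
  obtain ⟨c, hc⟩ := h1
  rw [MonoidHom.mem_ker]
  apply Units.ext
  rw [Matrix.GeneralLinearGroup.val_det_apply, Units.val_one, ← hc]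
  have hdet : (Matrix.scalar (Fin 4) c).det = c ^ 4 := by
    simp [Matrix.scalar_apply, Matrix.det_diagonal]
  have hne : c ≠ 0 := by
    rintro rfl
    have hu : IsUnit (g : Matrix (Fin 4) (Fin 4) F5).det :=
      (Matrix.isUnit_iff_isUnit_det _).1 g.isUnit
    rw [← hc, hdet] at hu
    simp at hu
  rw [hdet]
  exact c_pow_four c hne

lemma L_normal : ∀ x : GL (Fin 4) F5, ∀ y ∈ L, x * y * x⁻¹ ∈ L := by
  intro x y hy
  apply mem_L_of_det
  have h2 := det_of_mem_L hy
  have h : Matrix.GeneralLinearGroup.det (x * y * x⁻¹) = 1 := by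
    rw [map_mul, map_mul, map_inv, h2, mul_one, mul_inv_cancel]
  rw [← Matrix.GeneralLinearGroup.val_det_apply, h, Units.val_one]

lemma transv_ne : (Pool.Agent.Helper813.tv (F := F5) (show (0 : Fin 4) ≠ 1 by decide) 1) ≠ 1 := by
  intro h
  apply Pool.Agent.Helper813.tv_not_center (F := F5)
  rw [h]
  exact Subgroup.one_mem _

/-- The negation of the preceding statement: In a finite group G, if a cyclic subgroup A of order 4 is a TI-subgroup and L is a component (subnormal quasisimple subgroup) with A meeting L·C(L) trivially, then A centralizes L. -/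
theorem result :
    ¬ (∀ (G : Type) [Group G] [Finite G] (A L : Subgroup G),
      IsCyclic A → Nat.card A = 4 →
      (∀ g : G, (∀ x ∈ A, g * x * g⁻¹ ∈ A → x = 1) ∨ (∀ x ∈ A, g * x * g⁻¹ ∈ A)) →
      L ≠ ⊥ →
      ⁅L, L⁆ = L →
      (∀ N : Subgroup G, N ≤ L → (∀ l ∈ L, ∀ n ∈ N, l * n * l⁻¹ ∈ N) →
          N = L ∨ N ≤ Subgroup.centralizer (L : Set G)) →
      (∃ n : ℕ, ∃ H : ℕ → Subgroup G, H 0 = L ∧ H n = ⊤ ∧
          ∀ i < n, H i ≤ H (i + 1) ∧ ∀ x ∈ H (i + 1), ∀ y ∈ H i, x * y * x⁻¹ ∈ H i) →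
      A ⊓ (L ⊔ Subgroup.centralizer (L : Set G)) = ⊥ →
      A ≤ Subgroup.centralizer (L : Set G)) := by
  intro H
  have hc := H (GL (Fin 4) F5) (Subgroup.zpowers a) L inferInstance
    (by rw [Nat.card_zpowers, orderOf_a]) ?_ ?_ ?_ ?_ ?_ ?_
  · -- contradiction
    have h1 := hc (Subgroup.mem_zpowers a)
    rw [Subgroup.mem_centralizer_iff] at h1
    have h2 := h1 (Matrix.SpecialLinearGroup.toGL
      (Pool.Agent.Helper813.tv (F := F5) (show (0 : Fin 4) ≠ 1 by decide) 1)) ⟨_, rfl⟩
    have h3 := congrArg (fun u : GL (Fin 4) F5 => (u : Matrix (Fin 4) (Fin 4) F5) 0 1) h2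
    simp only [Units.val_mul] at h3
    have h4 : (a : Matrix (Fin 4) (Fin 4) F5) = aMat := rfl
    rw [h4] at h3
    revert h3
    have h5 : ((Matrix.SpecialLinearGroup.toGL
      (Pool.Agent.Helper813.tv (F := F5) (show (0 : Fin 4) ≠ 1 by decide) 1) : GL (Fin 4) F5) :
        Matrix (Fin 4) (Fin 4) F5) = 1 + Matrix.single 0 1 1 := rfl
    rw [h5]
    decide +kernel
  · -- TI
    intro g
    by_cases hg : g * a ^ 2 = a ^ 2 * g
    · right
      have hga := comm_of_comm_sq g hg
      intro x hx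
      obtain ⟨k, hk, rfl⟩ := mem_A hx
      have : g * a ^ k * g⁻¹ = a ^ k := by
        have hcomm : Commute g a := hga
        rw [(hcomm.pow_right k).eq]; group
      rw [this]
      exact hx
    · left
      intro x hx hgx
      by_contra hx1
      exact hg (comm_sq_of_conj hx hgx hx1)
  · -- L ≠ ⊥
    intro h
    have h1 : Matrix.SpecialLinearGroup.toGL
      (Pool.Agent.Helper813.tv (F := F5) (show (0 : Fin 4) ≠ 1 by decide) 1) ∈ L := ⟨_, rfl⟩
    rw [h, Subgroup.mem_bot] at h1
    apply transv_ne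
    apply Matrix.SpecialLinearGroup.toGL_injective
    rw [h1, map_one]
  · -- L perfect
    show ⁅L, L⁆ = L
    have h1 : L = Subgroup.map (Matrix.SpecialLinearGroup.toGL (n := Fin 4) (R := F5)) ⊤ :=
      MonoidHom.range_eq_map _
    rw [h1, ← Subgroup.map_commutator]
    congr 1
    exact Pool.Agent.Helper813.sl_perfect
  · -- quasisimple
    intro N hN hn
    have hnormal : (N.comap (Matrix.SpecialLinearGroup.toGL (n := Fin 4) (R := F5))).Normal := by
      constructor
      intro n hn' g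
      show Matrix.SpecialLinearGroup.toGL (g * n * g⁻¹) ∈ N
      rw [map_mul, map_mul, map_inv]
      exact hn _ ⟨g, rfl⟩ _ hn'
    rcases Pool.Agent.Helper813.sl_normal
      (N.comap (Matrix.SpecialLinearGroup.toGL (n := Fin 4) (R := F5))) hnormal with h | h
    · left
      apply le_antisymm hN
      rintro _ ⟨s, rfl⟩
      have : s ∈ N.comap (Matrix.SpecialLinearGroup.toGL (n := Fin 4) (R := F5)) := by
        rw [h]; trivial
      exact this
    · right
      intro x hx
      rw [Subgroup.mem_centralizer_iff]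
      rintro _ ⟨t, rfl⟩
      obtain ⟨s, rfl⟩ := hN hx
      have hs : s ∈ Subgroup.center (Matrix.SpecialLinearGroup (Fin 4) F5) := h hx
      rw [Subgroup.mem_center_iff] at hs
      rw [← map_mul, ← map_mul, hs t]
  · -- subnormal
    refine ⟨1, fun i => if i = 0 then L else ⊤, by simp, by simp, ?_⟩
    intro i hi
    have hi0 : i = 0 := by omega
    subst hi0
    refine ⟨by simp, ?_⟩
    intro x _ y hy
    simp only [if_true] at hy ⊢
    exact L_normal x y hy
  · -- A ∩ L C(L) = 1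
    rw [eq_bot_iff]
    rintro x ⟨hx, hx'⟩
    have h1 : x ∈ (Matrix.GeneralLinearGroup.det (n := Fin 4) (R := F5)).ker :=
      (sup_le L_le cent_le) hx'
    obtain ⟨k, hk, rfl⟩ := mem_A hx
    rw [MonoidHom.mem_ker, map_pow, det_a] at h1
    have h2 := congrArg (fun u : F5ˣ => (u : F5)) h1
    simp only [Units.val_pow_eq_pow_val, Units.val_mk0, Units.val_one] at h2
    have := det_a_pow k hk h2
    subst this
    simp

end Pool.Agent.S02252
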