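import Pool.Statements.S02336
-- import your own Pool.Agent.* helpers here
import Pool.Agent.H114R2.TamuraSchein

set_option autoImplicit false
open scoped Pointwise
open Pool Pool.MP_e763ea_al

namespace Pool.Agent.S02336

open Pool.Agent.H114R2.TS

/-!
The counterexample: the Klein four-group `{1, a, b, ab}` acts on six points in two ways with the same
permutation character: with three orbits of size two (kernels `⟨a⟩`, `⟨b⟩`, `⟨ab⟩`), and with one
regular orbit and two fixed points.  The two actions on the sets of subsets are isomorphic, and so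
are the power semigroups of the two semigroups `Sg` of order 73.
-/

/-- The first action: orbits `{0,1}`, `{2,3}`, `{4,5}`. -/
def g1 : Fin 3 → Fin 6 → Fin 6
  | 0 => ![0, 1, 2, 3, 4, 5]
  | 1 => ![0, 1, 3, 2, 5, 4]
  | 2 => ![1, 0, 2, 3, 5, 4]

/-- The second action: orbits `{0,1,2,3}`, `{4}`, `{5}`. -/
def g2 : Fin 3 → Fin 6 → Fin 6
  | 0 => ![0, 1, 2, 3, 4, 5]
  | 1 => ![1, 0, 3, 2, 4, 5]
  | 2 => ![2, 3, 0, 1, 4, 5]

/-- The number of a subset. -/
def enc (b : Fin 6 → Bool) : ℕ :=
  (b 0).toNat + 2 * (b 1).toNat + 4 * (b 2).toNat + 8 * (b 3).toNat + 16 * (b 4).toNat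
    + 32 * (b 5).toNat

def tab : List ℕ :=
  [0, 3, 12, 15, 5, 1, 4, 21, 10, 2, 8, 26, 16, 19, 28, 31, 6, 7, 14, 22, 17, 23, 33, 39, 24, 40,
    30, 46, 38, 49, 56, 54, 9, 11, 13, 25, 20, 36, 29, 45, 18, 27, 34, 43, 41, 50, 52, 57, 32, 35,
    44, 47, 37, 55, 61, 53, 42, 59, 62, 58, 48, 51, 60, 63]

def tab' : List ℕ :=
  [0, 5, 9, 1, 6, 4, 16, 17, 10, 32, 8, 33, 2, 34, 18, 3, 12, 20, 40, 13, 36, 7, 19, 21, 24, 35,
    11, 41, 14, 38, 26, 15, 48, 22, 42, 49, 37, 52, 28, 23, 25, 44, 56, 43, 50, 39, 27, 51, 60, 29,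
    45, 61, 46, 55, 31, 53, 30, 47, 59, 57, 62, 54, 58, 63]

def t (b : Fin 6 → Bool) : Fin 6 → Bool := fun j => (tab.getD (enc b) 0).testBit j
def t' (b : Fin 6 → Bool) : Fin 6 → Bool := fun j => (tab'.getD (enc b) 0).testBit j

theorem all_bool (P : (Fin 6 → Bool) → Prop)
    (h : ∀ b0 b1 b2 b3 b4 b5 : Bool, P ![b0, b1, b2, b3, b4, b5]) (b : Fin 6 → Bool) : P b := by
  have e : b = ![b 0, b 1, b 2, b 3, b 4, b 5] := by
    funext i
    fin_cases i <;> rfl
  rw [e]
  exact h _ _ _ _ _ _

theorem t'_t (b : Fin 6 → Bool) : t' (t b) = b := by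
  revert b
  apply all_bool
  decide

theorem t_t' (b : Fin 6 → Bool) : t (t' b) = b := by
  revert b
  apply all_bool
  decide

theorem t_zero : t (fun _ => false) = fun _ => false := by
  decide

theorem t_act (i : Fin 3) (b : Fin 6 → Bool) : t (fun x => b (g1 i x)) = fun x => t b (g2 i x) := by
  revert b
  apply all_bool
  revert i
  decide

theorem g1_inv (i : Fin 3) (x : Fin 6) : g1 i (g1 i x) = x := by
  revert i x
  decide

theorem g2_inv (i : Fin 3) (x : Fin 6) : g2 i (g2 i x) = x := by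
  revert i x
  decide

open Classical in
/-- subsets and Boolean functions -/
noncomputable def e : Set (Fin 6) ≃ (Fin 6 → Bool) where
  toFun A := fun x => decide (x ∈ A)
  invFun b := {x | b x = true}
  left_inv := by
    intro A
    ext x
    simp
  right_inv := by
    intro b
    funext x
    simp

noncomputable def tE : (Fin 6 → Bool) ≃ (Fin 6 → Bool) where
  toFun := t
  invFun := t'
  left_inv := t'_t
  right_inv := t_t'

/-- The bijection of the subsets. -/
noncomputable def θ : Set (Fin 6) ≃ Set (Fin 6) := (e.trans tE).trans e.symm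

theorem θ_empty : θ ∅ = ∅ := by
  have h : e ∅ = fun _ => false := by
    funext x
    simp [e]
  change e.symm (t (e ∅)) = ∅
  rw [h, t_zero, ← h]
  exact e.symm_apply_apply ∅

open Classical in
theorem e_image (f : Fin 6 → Fin 6) (hf : ∀ x, f (f x) = x) (B : Set (Fin 6)) :
    e (f '' B) = fun x => e B (f x) := by
  funext x
  have h : x ∈ f '' B ↔ f x ∈ B := by
    constructor
    · rintro ⟨y, hy, rfl⟩
      rw [hf]
      exact hy
    · intro hx
      exact ⟨f x, hx, hf x⟩
  change decide (x ∈ f '' B) = decide (f x ∈ B)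
  rw [decide_eq_decide]
  exact h

theorem θ_image (i : Fin 3) (B : Set (Fin 6)) : θ (g1 i '' B) = g2 i '' θ B := by
  apply e.injective
  rw [e_image (g2 i) (g2_inv i)]
  change e (e.symm (t (e (g1 i '' B)))) = fun x => e (e.symm (t (e B))) (g2 i x)
  rw [e.apply_symm_apply, e.apply_symm_apply, e_image (g1 i) (g1_inv i)]
  exact t_act i (e B)

/-! ### the semigroups are not isomorphic -/

theorem key (P Q X Y : Sg g1) (h : P * X = Q * Y) (hne : P * X ≠ Sg.o) (hPQ : P ≠ Q) :
    (∃ i x y, P = Sg.p i ∧ Q = Sg.q i ∧ X = Sg.a x ∧ Y = Sg.b y ∧ x = g1 i y) ∨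
    (∃ i x y, P = Sg.q i ∧ Q = Sg.p i ∧ X = Sg.b x ∧ Y = Sg.a y ∧ y = g1 i x) := by
  change Sg.m P X = Sg.m Q Y at h
  change Sg.m P X ≠ Sg.o at hne
  cases P <;> cases X <;> first | exact absurd rfl hne | skip
  all_goals
    cases Q <;> cases Y <;> simp only [Sg.m] at h <;> first
      | (exfalso; cases h; done)
      | (exfalso; injection h with h1 h2; subst h1; exact absurd rfl hPQ)
      | (injection h with h1 h2; subst h1; exact Or.inl ⟨_, _, _, rfl, rfl, rfl, rfl, h2⟩)
      | (injection h with h1 h2; subst h1; exact Or.inr ⟨_, _, _, rfl, rfl, rfl, rfl, h2.symm⟩)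

theorem no_fix (x y : Fin 6) (h : ∀ k, x = g1 k y) : False := by
  have h0 := h 0
  have h1 := h 1
  have h2 := h 2
  clear h
  revert x y
  decide

theorem not_iso : ¬ Nonempty (Sg g1 ≃* Sg g2) := by
  rintro ⟨φ⟩
  have hψ : ∀ s t, φ.symm (s * t) = φ.symm s * φ.symm t := fun s t => map_mul φ.symm s t
  have ho : φ Sg.o = Sg.o := by
    have h1 : (Sg.o : Sg g1) * φ.symm Sg.o = Sg.o := by
      rw [Sg.mul_def]
      generalize φ.symm Sg.o = s
      cases s <;> rfl
    have h2 := congrArg φ h1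
    rw [map_mul, φ.apply_symm_apply] at h2
    rw [← h2, Sg.mul_def]
    generalize φ Sg.o = s
    cases s <;> rfl
  have hfix : ∀ i, g2 i 4 = 4 := by decide
  have hprod : ∀ i, φ.symm (Sg.p i) * φ.symm (Sg.a 4) = φ.symm (Sg.q i) * φ.symm (Sg.b 4) := by
    intro i
    rw [← hψ, ← hψ]
    have h : (Sg.p i : Sg g2) * Sg.a 4 = Sg.q i * Sg.b 4 := by
      change (Sg.z i 4 : Sg g2) = Sg.z i (g2 i 4)
      rw [hfix]
    rw [h]
  have hne : ∀ i, φ.symm (Sg.p i) * φ.symm (Sg.a 4) ≠ Sg.o := by
    intro i h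
    rw [← hψ] at h
    have h2 := congrArg φ h
    rw [φ.apply_symm_apply, ho] at h2
    cases h2
  have hPQ : ∀ i j, φ.symm (Sg.p i) ≠ φ.symm (Sg.q j) := by
    intro i j h
    have h2 := φ.symm.injective h
    cases h2
  have hk := fun i => key _ _ _ _ (hprod i) (hne i) (hPQ i i)
  rcases hk 0 with ⟨j0, x0, y0, hP0, hQ0, hX0, hY0, -⟩ | ⟨j0, x0, y0, hP0, hQ0, hX0, hY0, -⟩
  · have h3 : ∀ i, ∃ j, φ.symm (Sg.p i) = Sg.p j ∧ x0 = g1 j y0 := by
      intro i
      rcases hk i with ⟨j, x, y, hP, hQ, hX, hY, hxy⟩ | ⟨j, x, y, hP, hQ, hX, hY, hxy⟩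
      · rw [hX0] at hX
        rw [hY0] at hY
        cases hX
        cases hY
        exact ⟨j, hP, hxy⟩
      · rw [hX0] at hX
        cases hX
    choose j hj1 hj2 using h3
    have hinj : Function.Injective j := by
      intro i i' h
      have h4 : φ.symm (Sg.p i) = φ.symm (Sg.p i') := by rw [hj1, hj1, h]
      have h5 := φ.symm.injective h4
      cases h5
      rfl
    have hsur : Function.Surjective j := Finite.injective_iff_surjective.1 hinj
    apply no_fix x0 y0
    intro k
    obtain ⟨i, rfl⟩ := hsur k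
    exact hj2 i
  · have h3 : ∀ i, ∃ j, φ.symm (Sg.p i) = Sg.q j ∧ y0 = g1 j x0 := by
      intro i
      rcases hk i with ⟨j, x, y, hP, hQ, hX, hY, hxy⟩ | ⟨j, x, y, hP, hQ, hX, hY, hxy⟩
      · rw [hX0] at hX
        cases hX
      · rw [hX0] at hX
        rw [hY0] at hY
        cases hX
        cases hY
        exact ⟨j, hP, hxy⟩
    choose j hj1 hj2 using h3
    have hinj : Function.Injective j := by
      intro i i' h
      have h4 : φ.symm (Sg.p i) = φ.symm (Sg.p i') := by rw [hj1, hj1, h]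
      have h5 := φ.symm.injective h4
      cases h5
      rfl
    have hsur : Function.Surjective j := Finite.injective_iff_surjective.1 hinj
    apply no_fix y0 x0
    intro k
    obtain ⟨i, rfl⟩ := hsur k
    exact hj2 i

/-- The negation of the preceding statement: For any two finite semigroups, if there is a bijection between their families of nonempty subsets that preserves the subset product AB = {ab}, then the two semigroups are isomorphic. -/
theorem result :
    ¬ (∀ (S₁ S₂ : Type) [Semigroup S₁] [Semigroup S₂] [Finite S₁] [Finite S₂],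
      (∃ f : {A : Set S₁ // A.Nonempty} ≃ {B : Set S₂ // B.Nonempty},
        ∀ A B : {A : Set S₁ // A.Nonempty},
          (f ⟨A.1 * B.1, A.2.mul B.2⟩).1 = (f A).1 * (f B).1) →
      Nonempty (S₁ ≃* S₂)) := by
  intro H
  exact not_iso (H (Sg g1) (Sg g2) (Sg.power_iso θ θ_empty θ_image))

end Pool.Agent.S02336
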