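import Pool.Statements.S02403
import Pool.Agent.H85R2.PIMain
import Pool.Agent.H992R2.KapCls

set_option autoImplicit false
open Pool Pool.MP_ecbc69_al

namespace Pool.Agent.S02403

/-- For every unital ring satisfying a multilinear polynomial identity with a coefficient 1, and every n ≥ 3, the subgroup of GL_n(R) generated by elementary transvections I + rE_ij (i ≠ j) is normal in GL_n(R). -/
theorem result :
    ∀ (R : Type) [Ring R],
      (∃ d : ℕ, 0 < d ∧ ∃ c : Equiv.Perm (Fin d) → ℤ, c 1 = 1 ∧
        ∀ x : Fin d → R,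
          ∑ σ : Equiv.Perm (Fin d), ((c σ : ℤ) : R) * (List.ofFn (fun i => x (σ i))).prod = 0) →
      ∀ n : ℕ, 3 ≤ n →
        (Subgroup.closure
          {g : Matrix.GeneralLinearGroup (Fin n) R |
            ∃ i j : Fin n, i ≠ j ∧ ∃ r : R,
              (g : Matrix (Fin n) (Fin n) R) =
                1 + Matrix.of (fun a b => if a = i ∧ b = j then r else 0)}).Normal := by
  intro R _ hPI n hn
  obtain ⟨D, -, c, hc, hid⟩ := hPI
  have h3 : ∀ i j : Fin n, ∃ k : Fin n, k ≠ i ∧ k ≠ j := by
    intro i j
    by_contra hcon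
    push Not at hcon
    have hsub : (Finset.univ : Finset (Fin n)) ⊆ {i, j} := by
      intro k _
      by_cases hk : k = i
      · simp [hk]
      · simp [hcon k hk]
    have h1 := Finset.card_le_card hsub
    rw [Finset.card_univ, Fintype.card_fin] at h1
    have h2 : ({i, j} : Finset (Fin n)).card ≤ 2 := Finset.card_le_two
    omega
  have hmain : (Pool.Agent.H85R2.PI.El (Fin n) R).Normal :=
    Pool.Agent.H85R2.PI.main_ind h3 hc D R hid
      (Pool.Agent.H992R2.Kap.Cls_of_PId R D c hc hid)
  have heq : (Subgroup.closure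
          {g : Matrix.GeneralLinearGroup (Fin n) R |
            ∃ i j : Fin n, i ≠ j ∧ ∃ r : R,
              (g : Matrix (Fin n) (Fin n) R) =
                1 + Matrix.of (fun a b => if a = i ∧ b = j then r else 0)}) =
      Pool.Agent.H85R2.PI.El (Fin n) R := by
    have hsing : ∀ (i j : Fin n) (r : R),
        (Matrix.of (fun a b => if a = i ∧ b = j then r else 0) : Matrix (Fin n) (Fin n) R) =
          Matrix.single i j r := by
      intro i j r
      ext a b
      simp only [Matrix.of_apply, Matrix.single_apply]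
      congr 1
      exact propext ⟨fun h => ⟨h.1.symm, h.2.symm⟩, fun h => ⟨h.1.symm, h.2.symm⟩⟩
    apply le_antisymm
    · rw [Subgroup.closure_le]
      rintro g ⟨i, j, hij, r, hg⟩
      have : g = Pool.Agent.H85R2.PI.tv i j r := by
        ext1
        rw [hg, Pool.Agent.H85R2.PI.coe_tv hij, hsing]
      rw [this]
      exact Pool.Agent.H85R2.PI.tv_mem _ _ _
    · rw [Pool.Agent.H85R2.PI.El, Subgroup.closure_le]
      rintro _ ⟨i, j, r, rfl⟩
      by_cases hij : i = j
      · subst hij
        rw [Pool.Agent.H85R2.PI.tv_self]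
        exact Subgroup.one_mem _
      · refine Subgroup.subset_closure ⟨i, j, hij, r, ?_⟩
        rw [hsing, Pool.Agent.H85R2.PI.coe_tv hij]
  rw [heq]
  exact hmain

end Pool.Agent.S02403
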