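import Pool.Statements.S02476

/-!
There is a permutation group on `ℕ` which is sharply `3`-homogeneous.  The group is free of
countable rank.  It is built by a countable sequence of finite approximations: partial injections
`p i` of `ℕ`, one for every generator.  The condition kept throughout is that the graph on the
`t`-element sets, in which `A` is joined to `B` when some `p i` maps `A` onto `B`, is a forest,
i.e. no non-empty reduced word maps a `t`-set onto itself.
-/

set_option autoImplicit false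
open Pool Pool.MP_f52e03_al

namespace Pool.Agent.S02476

open FreeGroup

/-- the relation of the letter `l` in the system `p` of partial injections -/
def R (p : Set (ℕ × ℕ × ℕ)) (l : ℕ × Bool) (x y : ℕ) : Prop :=
  if l.2 then (l.1, x, y) ∈ p else (l.1, y, x) ∈ p

/-- the inverse letter -/
def flip (l : ℕ × Bool) : ℕ × Bool := (l.1, !l.2)

theorem red_sub {u v w : List (ℕ × Bool)} (h : IsReduced (u ++ v ++ w)) : IsReduced v :=
  List.IsChain.right_of_append (List.IsChain.left_of_append h)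

theorem flip_flip (l : ℕ × Bool) : flip (flip l) = l := by
  obtain ⟨i, b⟩ := l
  simp [flip]

theorem flip_ne (l : ℕ × Bool) : flip l ≠ l := by
  obtain ⟨i, b⟩ := l
  cases b <;> simp [flip]

theorem R_flip {p : Set (ℕ × ℕ × ℕ)} {l : ℕ × Bool} {x y : ℕ} :
    R p (flip l) x y ↔ R p l y x := by
  obtain ⟨i, b⟩ := l
  cases b <;> simp [R, flip]

theorem R_mono {p q : Set (ℕ × ℕ × ℕ)} (h : p ⊆ q) {l : ℕ × Bool} {x y : ℕ} (hr : R p l x y) :
    R q l x y := by
  obtain ⟨i, b⟩ := l
  cases b
  · simp only [R, Bool.false_eq_true, if_false] at hr ⊢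
    exact h hr
  · simp only [R, if_true] at hr ⊢
    exact h hr

/-- all `p i` are partial injections -/
def PI (p : Set (ℕ × ℕ × ℕ)) : Prop := ∀ l x y z, R p l x y → R p l x z → y = z

/-- the letter `l` maps the set `A` onto the set `B` -/
def Step (p : Set (ℕ × ℕ × ℕ)) (l : ℕ × Bool) (A B : Finset ℕ) : Prop :=
  (∀ x ∈ A, ∃ y ∈ B, R p l x y) ∧ (∀ y ∈ B, ∃ x ∈ A, R p l x y)

/-- the word `w` maps the set `A` onto the set `B` (the last letter acts first) -/
def Path (p : Set (ℕ × ℕ × ℕ)) : List (ℕ × Bool) → Finset ℕ → Finset ℕ → Prop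
  | [], A, B => A = B
  | l :: w, A, C => ∃ B, Path p w A B ∧ Step p l B C

theorem Step_flip {p : Set (ℕ × ℕ × ℕ)} {l : ℕ × Bool} {A B : Finset ℕ} :
    Step p (flip l) A B ↔ Step p l B A := by
  simp only [Step, R_flip]
  exact and_comm

theorem Step_mono {p q : Set (ℕ × ℕ × ℕ)} (h : p ⊆ q) {l : ℕ × Bool} {A B : Finset ℕ}
    (hs : Step p l A B) : Step q l A B := by
  refine ⟨fun x hx => ?_, fun y hy => ?_⟩
  · obtain ⟨y, hy, hr⟩ := hs.1 x hx
    exact ⟨y, hy, R_mono h hr⟩
  · obtain ⟨x, hx, hr⟩ := hs.2 y hy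
    exact ⟨x, hx, R_mono h hr⟩

theorem Path_mono {p q : Set (ℕ × ℕ × ℕ)} (h : p ⊆ q) {w : List (ℕ × Bool)} {A B : Finset ℕ}
    (hs : Path p w A B) : Path q w A B := by
  induction w generalizing B with
  | nil => exact hs
  | cons l w ih =>
    obtain ⟨C, h1, h2⟩ := hs
    exact ⟨C, ih h1, Step_mono h h2⟩

theorem Step_det {p : Set (ℕ × ℕ × ℕ)} (hp : PI p) {l : ℕ × Bool} {A B C : Finset ℕ}
    (h1 : Step p l A B) (h2 : Step p l A C) : B = C := by
  ext y
  constructor
  · intro hy
    obtain ⟨x, hx, hr⟩ := h1.2 y hy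
    obtain ⟨z, hz, hr'⟩ := h2.1 x hx
    rw [hp _ _ _ _ hr hr']
    exact hz
  · intro hy
    obtain ⟨x, hx, hr⟩ := h2.2 y hy
    obtain ⟨z, hz, hr'⟩ := h1.1 x hx
    rw [hp _ _ _ _ hr hr']
    exact hz

theorem Step_card_le {p : Set (ℕ × ℕ × ℕ)} (hp : PI p) {l : ℕ × Bool} {A B : Finset ℕ}
    (h : Step p l A B) : A.card ≤ B.card := by
  classical
  choose f hf hf' using h.1
  refine Finset.card_le_card_of_injOn (fun x => if hx : x ∈ A then f x hx else 0) ?_ ?_
  · intro x hx
    have hx' : x ∈ A := hx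
    simp only [hx', dif_pos]
    exact hf x hx'
  · intro x hx y hy hxy
    have hx' : x ∈ A := hx
    have hy' : y ∈ A := hy
    simp only [hx', hy', dif_pos] at hxy
    have h1 := hf' x hx'
    have h2 := hf' y hy'
    rw [hxy] at h1
    exact hp (flip l) _ _ _ (R_flip.2 h1) (R_flip.2 h2)

theorem Step_card {p : Set (ℕ × ℕ × ℕ)} (hp : PI p) {l : ℕ × Bool} {A B : Finset ℕ}
    (h : Step p l A B) : A.card = B.card :=
  le_antisymm (Step_card_le hp h) (Step_card_le hp (Step_flip.2 h))

theorem Path_card {p : Set (ℕ × ℕ × ℕ)} (hp : PI p) {w : List (ℕ × Bool)} {A B : Finset ℕ}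
    (h : Path p w A B) : A.card = B.card := by
  induction w generalizing B with
  | nil =>
    have h' : A = B := h
    rw [h']
  | cons l w ih =>
    obtain ⟨C, h1, h2⟩ := h
    rw [ih h1, Step_card hp h2]

theorem Path_append {p : Set (ℕ × ℕ × ℕ)} {u v : List (ℕ × Bool)} {A C : Finset ℕ} :
    Path p (u ++ v) A C ↔ ∃ B, Path p v A B ∧ Path p u B C := by
  induction u generalizing C with
  | nil =>
    constructor
    · intro h
      exact ⟨C, h, rfl⟩
    · rintro ⟨B, h1, h2⟩
      have h2' : B = C := h2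
      rw [← h2']
      exact h1
  | cons l u ih =>
    constructor
    · rintro ⟨D, h1, h2⟩
      obtain ⟨B, h3, h4⟩ := ih.1 h1
      exact ⟨B, h3, D, h4, h2⟩
    · rintro ⟨B, h3, D, h4, h2⟩
      exact ⟨D, ih.2 ⟨B, h3, h4⟩, h2⟩

/-- the systems of partial injections for which no nonempty reduced word fixes a `t`-set -/
def Good (t : ℕ) (p : Set (ℕ × ℕ × ℕ)) : Prop :=
  PI p ∧ ∀ (w : List (ℕ × Bool)) (A : Finset ℕ), w ≠ [] → IsReduced w → A.card = t →
    ¬ Path p w A A

/-! ### Adding one pair -/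

/-- add the pair `(x, y)` to the letter `l` -/
def ins (p : Set (ℕ × ℕ × ℕ)) (l : ℕ × Bool) (x y : ℕ) : Set (ℕ × ℕ × ℕ) :=
  insert (l.1, if l.2 then (x, y) else (y, x)) p

theorem R_ins {p : Set (ℕ × ℕ × ℕ)} {l l' : ℕ × Bool} {x y u v : ℕ} :
    R (ins p l x y) l' u v ↔
      R p l' u v ∨ (l' = l ∧ u = x ∧ v = y) ∨ (l' = flip l ∧ u = y ∧ v = x) := by
  obtain ⟨i, b⟩ := l
  obtain ⟨j, c⟩ := l'
  cases b <;> cases c <;> simp [R, ins, flip, Set.mem_insert_iff] <;> tauto

theorem PI_ins {p : Set (ℕ × ℕ × ℕ)} (hp : PI p) {l : ℕ × Bool} {x y : ℕ}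
    (hx : ∀ z, ¬ R p l x z) (hy : ∀ l' z, ¬ R p l' y z) : PI (ins p l x y) := by
  intro l' u v v' h1 h2
  rw [R_ins] at h1 h2
  rcases h1 with h1 | ⟨e1, e2, e3⟩ | ⟨e1, e2, e3⟩
  · rcases h2 with h2 | ⟨f1, f2, f3⟩ | ⟨f1, f2, f3⟩
    · exact hp _ _ _ _ h1 h2
    · subst f1 f2
      exact absurd h1 (hx _)
    · subst f2
      exact absurd h1 (hy _ _)
  · rcases h2 with h2 | ⟨f1, f2, f3⟩ | ⟨f1, f2, f3⟩
    · subst e1 e2
      exact absurd h2 (hx _)
    · rw [e3, f3]
    · exact absurd (f1.symm.trans e1) (flip_ne _)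
  · rcases h2 with h2 | ⟨f1, f2, f3⟩ | ⟨f1, f2, f3⟩
    · subst e2
      exact absurd h2 (hy _ _)
    · exact absurd (e1.symm.trans f1) (flip_ne _)
    · rw [e3, f3]

section leaf

variable {p : Set (ℕ × ℕ × ℕ)} {l : ℕ × Bool} {x y : ℕ}

theorem leaf_out (hy : ∀ l' z, ¬ R p l' y z) (hxy : y ≠ x) {l' : ℕ × Bool} {C D : Finset ℕ}
    (h : Step (ins p l x y) l' C D) (hC : y ∈ C) : l' = flip l := by
  obtain ⟨z, hz, hr⟩ := h.1 y hC
  rw [R_ins] at hr
  rcases hr with hr | ⟨e1, e2, e3⟩ | ⟨e1, e2, e3⟩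
  · exact absurd hr (hy _ _)
  · exact absurd e2 hxy
  · exact e1

theorem leaf_in (hy : ∀ l' z, ¬ R p l' y z) (hxy : y ≠ x) {l' : ℕ × Bool} {C D : Finset ℕ}
    (h : Step (ins p l x y) l' C D) (hD : y ∈ D) : l' = l := by
  have := leaf_out hy hxy (Step_flip.2 h) hD
  rw [← flip_flip l', this, flip_flip]

theorem leaf_old {l' : ℕ × Bool} {C D : Finset ℕ}
    (h : Step (ins p l x y) l' C D) (hC : y ∉ C) (hD : y ∉ D) : Step p l' C D := by
  refine ⟨fun u hu => ?_, fun v hv => ?_⟩
  · obtain ⟨v, hv, hr⟩ := h.1 u hu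
    rw [R_ins] at hr
    rcases hr with hr | ⟨e1, e2, e3⟩ | ⟨e1, e2, e3⟩
    · exact ⟨v, hv, hr⟩
    · subst e3; exact absurd hv hD
    · subst e2; exact absurd hu hC
  · obtain ⟨u, hu, hr⟩ := h.2 v hv
    rw [R_ins] at hr
    rcases hr with hr | ⟨e1, e2, e3⟩ | ⟨e1, e2, e3⟩
    · exact ⟨u, hu, hr⟩
    · subst e3; exact absurd hv hD
    · subst e2; exact absurd hu hC

theorem leaf_path (hy : ∀ l' z, ¬ R p l' y z) (hxy : y ≠ x) {w : List (ℕ × Bool)}
    {A B : Finset ℕ} (hw : IsReduced w) (h : Path (ins p l x y) w A B) (hA : y ∉ A)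
    (hB : y ∉ B) : Path p w A B := by
  induction w generalizing B with
  | nil => exact h
  | cons l₁ w ih =>
    obtain ⟨C, h1, h2⟩ := h
    have hw' : IsReduced w := red_sub (u := [l₁]) (w := []) (by simpa using hw)
    by_cases hC : y ∈ C
    · exfalso
      have e1 := leaf_out hy hxy h2 hC
      cases w with
      | nil =>
        have h1' : A = C := h1
        exact hA (h1' ▸ hC)
      | cons l₂ w =>
        obtain ⟨D, h3, h4⟩ := h1
        have e2 := leaf_in hy hxy h4 hC
        subst e1 e2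
        have := (isReduced_cons_cons.1 hw).1
        have h5 := this rfl
        revert h5
        simp [flip]
    · exact ⟨C, ih hw' h1 hC, leaf_old h2 hC hB⟩

end leaf

theorem good_ins {t : ℕ} {p : Set (ℕ × ℕ × ℕ)} (hp : Good t p) {l : ℕ × Bool} {x y : ℕ}
    (hx : ∀ z, ¬ R p l x z) (hy : ∀ l' z, ¬ R p l' y z) (hxy : y ≠ x) :
    Good t (ins p l x y) := by
  have hpi := PI_ins hp.1 hx hy
  refine ⟨hpi, ?_⟩
  have key : ∀ (n : ℕ) (w : List (ℕ × Bool)) (A : Finset ℕ), w.length ≤ n → w ≠ [] →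
      IsReduced w → A.card = t → ¬ Path (ins p l x y) w A A := by
    intro n
    induction n with
    | zero =>
      intro w A hn hw
      exact absurd (List.length_eq_zero_iff.1 (by omega)) hw
    | succ n ih =>
      intro w A hn hw hr hA h
      by_cases hyA : y ∈ A
      · -- the last and the first letter
        cases w with
        | nil => exact hw rfl
        | cons l₁ w =>
          obtain ⟨C, h1, h2⟩ := h
          have e1 := leaf_in hy hxy h2 hyA
          rcases List.eq_nil_or_concat w with hw0 | ⟨w', l₂, hw'⟩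
          · subst hw0
            have h1' : A = C := h1
            subst h1'
            have e2 := leaf_out hy hxy h2 hyA
            exact flip_ne l (e2.symm.trans e1)
          · rw [List.concat_eq_append] at hw'
            subst hw'
            obtain ⟨D, h3, h4⟩ := Path_append.1 h1
            obtain ⟨A', h5, h6⟩ := h3
            have h5' : A = A' := h5
            subst h5'
            have e2 := leaf_out hy hxy h6 hyA
            subst e2
            subst e1
            have h7 : D = C := Step_det hpi h6 (Step_flip.2 h2)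
            subst h7
            refine ih w' D ?_ ?_ ?_ ?_ h4
            · simp at hn; omega
            · rintro rfl
              have := (isReduced_cons_cons.1 hr).1 rfl
              revert this
              simp [flip]
            · exact red_sub (u := [l₁]) (w := [flip l₁]) (by simpa using hr)
            · rw [← Step_card hpi h6, hA]
      · exact hp.2 w A hw hr hA (leaf_path hy hxy hr h hyA hyA)
  intro w A hw hr hA
  exact key w.length w A le_rfl hw hr hA

/-! ### Joining two sets by a new letter -/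

section join

variable {t : ℕ} {p : Set (ℕ × ℕ × ℕ)} {A B : Finset ℕ} (e : A ≃ B) (j : ℕ)

/-- the new triples -/
def newT : Set (ℕ × ℕ × ℕ) := {q | q.1 = j ∧ ∃ h : q.2.1 ∈ A, (e ⟨q.2.1, h⟩ : ℕ) = q.2.2}

variable {j}

theorem R_join (hj : ∀ q ∈ p, q.1 ≠ j) {l : ℕ × Bool} {u v : ℕ} :
    R (p ∪ newT e j) l u v ↔ (l.1 ≠ j ∧ R p l u v) ∨
      (l = (j, true) ∧ ∃ h : u ∈ A, (e ⟨u, h⟩ : ℕ) = v) ∨
      (l = (j, false) ∧ ∃ h : v ∈ A, (e ⟨v, h⟩ : ℕ) = u) := by
  obtain ⟨i, b⟩ := l
  by_cases hi : i = j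
  · subst hi
    have h1 : ∀ q : ℕ × ℕ, (i, q) ∉ p := fun q hq => hj _ hq rfl
    cases b <;> simp [R, newT, h1]
  · cases b <;> simp [R, newT, hi]

theorem PI_join (hp : PI p) (hj : ∀ q ∈ p, q.1 ≠ j) : PI (p ∪ newT e j) := by
  intro l x y z h1 h2
  rw [R_join e hj] at h1 h2
  rcases h1 with ⟨a1, h1⟩ | ⟨a1, h1, h1'⟩ | ⟨a1, h1, h1'⟩
  · rcases h2 with ⟨a2, h2⟩ | ⟨a2, h2, h2'⟩ | ⟨a2, h2, h2'⟩
    · exact hp _ _ _ _ h1 h2
    · subst a2; exact absurd rfl a1
    · subst a2; exact absurd rfl a1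
  · rcases h2 with ⟨a2, h2⟩ | ⟨a2, h2, h2'⟩ | ⟨a2, h2, h2'⟩
    · subst a1; exact absurd rfl a2
    · rw [← h1', ← h2']
    · rw [a1] at a2; simp at a2
  · rcases h2 with ⟨a2, h2⟩ | ⟨a2, h2, h2'⟩ | ⟨a2, h2, h2'⟩
    · subst a1; exact absurd rfl a2
    · rw [a1] at a2; simp at a2
    · have h3 : e ⟨y, h1⟩ = e ⟨z, h2⟩ := Subtype.ext (h1'.trans h2'.symm)
      have h4 := e.injective h3
      exact congrArg Subtype.val h4

theorem Step_join_old (hj : ∀ q ∈ p, q.1 ≠ j) {l : ℕ × Bool} (hl : l.1 ≠ j) {C D : Finset ℕ}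
    (h : Step (p ∪ newT e j) l C D) : Step p l C D := by
  have key : ∀ u v, R (p ∪ newT e j) l u v → R p l u v := by
    intro u v h
    rw [R_join e hj] at h
    rcases h with ⟨a1, h1⟩ | ⟨a1, h1, h1'⟩ | ⟨a1, h1, h1'⟩
    · exact h1
    · subst a1; exact absurd rfl hl
    · subst a1; exact absurd rfl hl
  refine ⟨fun x hx => ?_, fun y hy => ?_⟩
  · obtain ⟨y, hy, hr⟩ := h.1 x hx
    exact ⟨y, hy, key _ _ hr⟩
  · obtain ⟨x, hx, hr⟩ := h.2 y hy
    exact ⟨x, hx, key _ _ hr⟩

theorem Step_join_new (hp : PI p) (hj : ∀ q ∈ p, q.1 ≠ j) (hA : A.card = t) (hB : B.card = t)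
    {C D : Finset ℕ} (hC : C.card = t)
    (h : Step (p ∪ newT e j) (j, true) C D) : C = A ∧ D = B := by
  have hD : D.card = t := by rw [← Step_card (PI_join e hp hj) h, hC]
  have key : ∀ u v, R (p ∪ newT e j) (j, true) u v → u ∈ A ∧ v ∈ B := by
    intro u v h
    rw [R_join e hj] at h
    rcases h with ⟨a1, h1⟩ | ⟨a1, h1, h1'⟩ | ⟨a1, h1, h1'⟩
    · exact absurd rfl a1
    · refine ⟨h1, ?_⟩
      rw [← h1']
      exact (e ⟨u, h1⟩).2
    · simp at a1
  constructor
  · refine Finset.eq_of_subset_of_card_le ?_ (by rw [hA, hC])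
    intro u hu
    obtain ⟨v, hv, hr⟩ := h.1 u hu
    exact (key _ _ hr).1
  · refine Finset.eq_of_subset_of_card_le ?_ (by rw [hB, hD])
    intro v hv
    obtain ⟨u, hu, hr⟩ := h.2 v hv
    exact (key _ _ hr).2

/-- source of the new letter -/
def src (A B : Finset ℕ) (b : Bool) : Finset ℕ := if b then A else B

theorem Step_join_src (hp : PI p) (hj : ∀ q ∈ p, q.1 ≠ j) (hA : A.card = t) (hB : B.card = t)
    {b : Bool} {C D : Finset ℕ} (hC : C.card = t)
    (h : Step (p ∪ newT e j) (j, b) C D) : C = src A B b ∧ D = src A B (!b) := by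
  have hD : D.card = t := by rw [← Step_card (PI_join e hp hj) h, hC]
  cases b
  · have h' : Step (p ∪ newT e j) (j, true) D C := Step_flip.1 h
    obtain ⟨h1, h2⟩ := Step_join_new e hp hj hA hB hD h'
    exact ⟨by simpa [src] using h2, by simpa [src] using h1⟩
  · obtain ⟨h1, h2⟩ := Step_join_new e hp hj hA hB hC h
    exact ⟨by simpa [src] using h1, by simpa [src] using h2⟩

theorem join_path (hp : Good t p) (hj : ∀ q ∈ p, q.1 ≠ j) (hA : A.card = t) (hB : B.card = t)
    (hnAB : ∀ w, ¬ Path p w A B) (hnBA : ∀ w, ¬ Path p w B A)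
    {w : List (ℕ × Bool)} {C D : Finset ℕ} (hC : C.card = t) (hw : IsReduced w)
    (h : Path (p ∪ newT e j) w C D) :
    Path p w C D ∨ ∃ u v b, w = u ++ (j, b) :: v ∧ Path p v C (src A B b) ∧
      Path p u (src A B (!b)) D := by
  induction w generalizing D with
  | nil => exact Or.inl h
  | cons l w ih =>
    obtain ⟨M, h1, h2⟩ := h
    have hw' : IsReduced w := red_sub (u := [l]) (w := []) (by simpa using hw)
    have hM : M.card = t := by rw [← Path_card (PI_join e hp.1 hj) h1, hC]
    by_cases hl : l.1 = j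
    · obtain ⟨i, b'⟩ := l
      have hl' : i = j := hl
      subst hl'
      obtain ⟨hs, ht⟩ := Step_join_src e hp.1 hj hA hB hM h2
      right
      rcases ih hw' h1 with h3 | ⟨u, v, b, h3, h4, h5⟩
      · exact ⟨[], w, b', by simp, hs ▸ h3, ht.symm⟩
      · exfalso
        rw [hs] at h5
        by_cases hb : b = b'
        · subst hb
          cases b
          · exact hnAB u (by simpa [src] using h5)
          · exact hnBA u (by simpa [src] using h5)
        · have hb' : b' = !b := by
            cases b <;> cases b' <;> simp_all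
          rw [hb'] at h5
          have hu : u = [] := by
            by_contra hu
            refine hp.2 u (src A B (!b)) hu ?_ ?_ h5
            · rw [h3] at hw'
              exact red_sub (u := []) (w := (i, b) :: v) (by simpa using hw')
            · cases b <;> simp [src, hA, hB]
          subst hu
          rw [h3] at hw
          have := (isReduced_cons_cons.1 hw).1 rfl
          exact hb this.symm
    · have h2' := Step_join_old e hj hl h2
      rcases ih hw' h1 with h3 | ⟨u, v, b, h3, h4, h5⟩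
      · exact Or.inl ⟨M, h3, h2'⟩
      · refine Or.inr ⟨l :: u, v, b, by simp [h3], h4, M, h5, h2'⟩

theorem good_join (hp : Good t p) (hj : ∀ q ∈ p, q.1 ≠ j) (hA : A.card = t) (hB : B.card = t)
    (hnAB : ∀ w, ¬ Path p w A B) (hnBA : ∀ w, ¬ Path p w B A) : Good t (p ∪ newT e j) := by
  refine ⟨PI_join e hp.1 hj, ?_⟩
  intro w C hw hr hC h
  rcases join_path e hp hj hA hB hnAB hnBA hC hr h with h1 | ⟨u, v, b, h3, h4, h5⟩
  · exact hp.2 w C hw hr hC h1
  · have h6 : Path p (v ++ u) (src A B (!b)) (src A B b) := Path_append.2 ⟨C, h5, h4⟩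
    cases b
    · exact hnAB _ (by simpa [src] using h6)
    · exact hnBA _ (by simpa [src] using h6)

end join

/-- paths can be reversed -/
theorem Path_reverse {p : Set (ℕ × ℕ × ℕ)} {w : List (ℕ × Bool)} {A B : Finset ℕ}
    (h : Path p w A B) : ∃ w', Path p w' B A := by
  induction w generalizing B with
  | nil => exact ⟨[], Eq.symm h⟩
  | cons l w ih =>
    obtain ⟨C, h1, h2⟩ := h
    obtain ⟨w', hw'⟩ := ih h1
    exact ⟨w' ++ [flip l], Path_append.2 ⟨C, ⟨B, rfl, Step_flip.2 h2⟩, hw'⟩⟩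

/-! ### The finite approximations -/

/-- the finite good systems -/
def Cond (t : ℕ) : Type := {p : Finset (ℕ × ℕ × ℕ) // Good t (p : Set (ℕ × ℕ × ℕ))}

instance (t : ℕ) : PartialOrder (Cond t) := Subtype.partialOrder _

theorem cond_le {t : ℕ} {p q : Cond t} (h : p ≤ q) :
    (p.1 : Set (ℕ × ℕ × ℕ)) ⊆ (q.1 : Set (ℕ × ℕ × ℕ)) := by
  have h' : p.1 ≤ q.1 := h
  exact_mod_cast h'

theorem good_empty {t : ℕ} (ht : 0 < t) : Good t (∅ : Set (ℕ × ℕ × ℕ)) := by
  have hR : ∀ l x y, ¬ R ∅ l x y := by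
    rintro ⟨i, b⟩ x y h
    cases b <;> simp [R] at h
  refine ⟨fun l x y z h => absurd h (hR _ _ _), ?_⟩
  intro w A hw _ hA h
  cases w with
  | nil => exact hw rfl
  | cons l w =>
    obtain ⟨B, _, h2⟩ := h
    obtain ⟨x, hx⟩ := Finset.card_pos.1 (hA ▸ ht)
    obtain ⟨y, _, hr⟩ := h2.2 x hx
    exact hR _ _ _ hr

/-- the tasks -/
def Task (t : ℕ) : ((ℕ × Bool) × ℕ) ⊕ (Finset ℕ × Finset ℕ) → Order.Cofinal (Cond t)
  | Sum.inl (l, x) =>
    { carrier := {p | ∃ z, R p.1 l x z}
      isCofinal := by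
        intro p
        by_cases h : ∃ z, R p.1 l x z
        · exact ⟨p, h, le_rfl⟩
        · push Not at h
          let y := p.1.sup (fun q => q.2.1 + q.2.2) + x + 1
          have hq : ∀ q ∈ p.1, q.2.1 < y ∧ q.2.2 < y := by
            intro q hq
            have : q.2.1 + q.2.2 ≤ p.1.sup (fun q => q.2.1 + q.2.2) :=
              Finset.le_sup (f := fun q : ℕ × ℕ × ℕ => q.2.1 + q.2.2) hq
            constructor <;> omega
          have hy : ∀ l' z, ¬ R (p.1 : Set (ℕ × ℕ × ℕ)) l' y z := by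
            rintro ⟨i, b⟩ z hr
            cases b
            · simp only [R, Bool.false_eq_true, if_false] at hr
              exact absurd (hq _ hr).2 (lt_irrefl _)
            · simp only [R, if_true] at hr
              exact absurd (hq _ hr).1 (lt_irrefl _)
          have hxy : y ≠ x := by omega
          have hg := good_ins p.2 h hy hxy
          refine ⟨⟨insert (l.1, if l.2 then (x, y) else (y, x)) p.1, ?_⟩, ?_, ?_⟩
          · rw [Finset.coe_insert]
            exact hg
          · refine ⟨y, ?_⟩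
            show R _ l x y
            simp only [Finset.coe_insert]
            exact R_ins.2 (Or.inr (Or.inl ⟨rfl, rfl, rfl⟩))
          · exact Finset.subset_insert _ _ }
  | Sum.inr (A, B) =>
    { carrier := {p | A.card = t → B.card = t → ∃ w, Path p.1 w A B}
      isCofinal := by
        intro p
        by_cases h : A.card = t → B.card = t → ∃ w, Path p.1 w A B
        · exact ⟨p, h, le_rfl⟩
        · push Not at h
          obtain ⟨hA, hB, hn⟩ := h
          have hn' : ∀ w, ¬ Path (p.1 : Set (ℕ × ℕ × ℕ)) w B A := by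
            intro w hw
            obtain ⟨w', hw'⟩ := Path_reverse hw
            exact hn w' hw'
          let j := p.1.sup (fun q => q.1) + 1
          have hj : ∀ q ∈ (p.1 : Set (ℕ × ℕ × ℕ)), q.1 ≠ j := by
            intro q hq
            have : q.1 ≤ p.1.sup (fun q => q.1) :=
              Finset.le_sup (f := fun q : ℕ × ℕ × ℕ => q.1) hq
            omega
          let e : A ≃ B := Finset.equivOfCardEq (hA.trans hB.symm)
          have hg := good_join e p.2 hj hA hB hn hn'
          have hfin : ((p.1 : Set (ℕ × ℕ × ℕ)) ∪ newT e j).Finite := by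
            refine p.1.finite_toSet.union ?_
            refine Set.Finite.subset (Finset.finite_toSet (({j} : Finset ℕ) ×ˢ (A ×ˢ B))) ?_
            rintro ⟨i, u, v⟩ ⟨h1, h2, h3⟩
            simp only at h1 h2 h3
            simp only [Finset.coe_product, Set.mem_prod, Finset.mem_coe, Finset.mem_singleton]
            refine ⟨h1, h2, ?_⟩
            rw [← h3]
            exact (e ⟨u, h2⟩).2
          refine ⟨⟨hfin.toFinset, ?_⟩, ?_, ?_⟩
          · rw [hfin.coe_toFinset]
            exact hg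
          · intro _ _
            refine ⟨[(j, true)], A, rfl, ?_⟩
            show Step (hfin.toFinset : Set (ℕ × ℕ × ℕ)) (j, true) A B
            rw [hfin.coe_toFinset]
            refine ⟨fun x hx => ⟨e ⟨x, hx⟩, (e ⟨x, hx⟩).2, ?_⟩, fun y hy => ?_⟩
            · rw [R_join e hj]
              exact Or.inr (Or.inl ⟨rfl, hx, rfl⟩)
            · refine ⟨e.symm ⟨y, hy⟩, (e.symm ⟨y, hy⟩).2, ?_⟩
              rw [R_join e hj]
              refine Or.inr (Or.inl ⟨rfl, (e.symm ⟨y, hy⟩).2, ?_⟩)
              simp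
          · show p.1 ⊆ hfin.toFinset
            intro q hq
            rw [hfin.mem_toFinset]
            exact Or.inl hq }

section limit

variable {t : ℕ} (I : Order.Ideal (Cond t))

/-- the limit relation -/
def RI (l : ℕ × Bool) (x y : ℕ) : Prop := ∃ p ∈ I, R p.1 l x y

theorem RI_flip {l : ℕ × Bool} {x y : ℕ} : RI I (flip l) x y ↔ RI I l y x := by
  simp only [RI, R_flip]

theorem RI_det {l : ℕ × Bool} {x y z : ℕ} (h1 : RI I l x y) (h2 : RI I l x z) : y = z := by
  obtain ⟨p, hp, h1⟩ := h1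
  obtain ⟨q, hq, h2⟩ := h2
  obtain ⟨r, hr, hpr, hqr⟩ := I.directed p hp q hq
  exact r.2.1 _ _ _ _ (R_mono (cond_le hpr) h1) (R_mono (cond_le hqr) h2)

variable (hI : ∀ τ, ∃ p, p ∈ Task t τ ∧ p ∈ I)

include hI in
theorem RI_total (l : ℕ × Bool) (x : ℕ) : ∃ y, RI I l x y := by
  obtain ⟨p, hp, hpI⟩ := hI (Sum.inl (l, x))
  obtain ⟨z, hz⟩ := hp
  exact ⟨z, p, hpI, hz⟩

/-- the map of the letter -/
noncomputable def act (l : ℕ × Bool) (x : ℕ) : ℕ := Classical.choose (RI_total I hI l x)

theorem act_spec (l : ℕ × Bool) (x : ℕ) : RI I l x (act I hI l x) :=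
  Classical.choose_spec (RI_total I hI l x)

theorem act_flip (l : ℕ × Bool) (x : ℕ) : act I hI (flip l) (act I hI l x) = x :=
  RI_det I (act_spec I hI (flip l) _) ((RI_flip I).2 (act_spec I hI l x))

/-- the permutation of a generator -/
noncomputable def gen (i : ℕ) : Equiv.Perm ℕ where
  toFun := act I hI (i, true)
  invFun := act I hI (i, false)
  left_inv := fun x => act_flip I hI (i, true) x
  right_inv := fun x => act_flip I hI (i, false) x

/-- the permutation of a letter -/
noncomputable def letter (l : ℕ × Bool) : Equiv.Perm ℕ := cond l.2 (gen I hI l.1) (gen I hI l.1)⁻¹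

theorem letter_apply (l : ℕ × Bool) (x : ℕ) : letter I hI l x = act I hI l x := by
  obtain ⟨i, b⟩ := l
  cases b <;> rfl

theorem lift_mk' (w : List (ℕ × Bool)) :
    FreeGroup.lift (gen I hI) (FreeGroup.mk w) = (w.map (letter I hI)).prod := by
  rw [FreeGroup.lift_mk]
  rfl

theorem exists_step (l : ℕ × Bool) (A : Finset ℕ) :
    ∃ p ∈ I, ∀ x ∈ A, R p.1 l x (act I hI l x) := by
  classical
  induction A using Finset.induction_on with
  | empty =>
    obtain ⟨p, _, hp⟩ := hI (Sum.inl (l, 0))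
    exact ⟨p, hp, by simp⟩
  | insert a A _ ih =>
    obtain ⟨p, hp, h⟩ := ih
    obtain ⟨q, hq, h'⟩ := act_spec I hI l a
    obtain ⟨r, hr, hpr, hqr⟩ := I.directed p hp q hq
    refine ⟨r, hr, fun x hx => ?_⟩
    rcases Finset.mem_insert.1 hx with rfl | hx
    · exact R_mono (cond_le hqr) h'
    · exact R_mono (cond_le hpr) (h x hx)

theorem exists_path (w : List (ℕ × Bool)) (A : Finset ℕ) :
    ∃ p ∈ I, Path p.1 w A (A.map ((w.map (letter I hI)).prod).toEmbedding) := by
  induction w with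
  | nil =>
    obtain ⟨p, _, hp⟩ := hI (Sum.inl ((0, true), 0))
    refine ⟨p, hp, ?_⟩
    show A = _
    ext x
    rw [Finset.mem_map]
    exact ⟨fun hx => ⟨x, hx, rfl⟩, by rintro ⟨a, ha, rfl⟩; exact ha⟩
  | cons l w ih =>
    obtain ⟨p, hp, h⟩ := ih
    obtain ⟨q, hq, h'⟩ := exists_step I hI l (A.map ((w.map (letter I hI)).prod).toEmbedding)
    obtain ⟨r, hr, hpr, hqr⟩ := I.directed p hp q hq
    refine ⟨r, hr, _, Path_mono (cond_le hpr) h, ?_, ?_⟩
    · intro x hx
      refine ⟨act I hI l x, ?_, R_mono (cond_le hqr) (h' x hx)⟩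
      rw [Finset.mem_map] at hx ⊢
      obtain ⟨a, ha, hax⟩ := hx
      refine ⟨a, ha, ?_⟩
      rw [← letter_apply, ← hax]
      simp
    · intro y hy
      rw [Finset.mem_map] at hy
      obtain ⟨a, ha, hay⟩ := hy
      refine ⟨(w.map (letter I hI)).prod a, ?_, ?_⟩
      · rw [Finset.mem_map]
        exact ⟨a, ha, rfl⟩
      · have h2 : y = act I hI l ((w.map (letter I hI)).prod a) := by
          rw [← letter_apply, ← hay]
          simp
        rw [h2]
        refine R_mono (cond_le hqr) (h' _ ?_)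
        rw [Finset.mem_map]
        exact ⟨a, ha, rfl⟩

theorem Step_eq {l : ℕ × Bool} {A B : Finset ℕ} {p : Cond t} (hp : p ∈ I)
    (h : Step p.1 l A B) : B = A.map (letter I hI l).toEmbedding := by
  ext y
  rw [Finset.mem_map]
  constructor
  · intro hy
    obtain ⟨x, hx, hr⟩ := h.2 y hy
    refine ⟨x, hx, ?_⟩
    show letter I hI l x = y
    rw [letter_apply]
    exact RI_det I (act_spec I hI l x) ⟨p, hp, hr⟩
  · rintro ⟨x, hx, hxy⟩
    obtain ⟨z, hz, hr⟩ := h.1 x hx
    have : y = z := by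
      rw [← hxy]
      show letter I hI l x = z
      rw [letter_apply]
      exact RI_det I (act_spec I hI l x) ⟨p, hp, hr⟩
    rw [this]
    exact hz

theorem Path_eq {w : List (ℕ × Bool)} {A B : Finset ℕ} {p : Cond t} (hp : p ∈ I)
    (h : Path p.1 w A B) : B = A.map ((w.map (letter I hI)).prod).toEmbedding := by
  induction w generalizing B with
  | nil =>
    have h' : A = B := h
    rw [← h']
    ext x
    rw [Finset.mem_map]
    exact ⟨fun hx => ⟨x, hx, rfl⟩, by rintro ⟨a, ha, rfl⟩; exact ha⟩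
  | cons l w ih =>
    obtain ⟨C, h1, h2⟩ := h
    rw [Step_eq I hI hp h2, ih h1, Finset.map_map, List.map_cons, List.prod_cons]
    rfl

end limit

/-- for every `t ≥ 1` there is a sharply `t`-homogeneous group of permutations of `ℕ` -/
theorem exists_sharp (t : ℕ) (ht : 0 < t) : ∃ G : Subgroup (Equiv.Perm ℕ),
    ∀ A B : Finset ℕ, A.card = t → B.card = t →
      ∃! g : G, A.map (Equiv.toEmbedding (g : Equiv.Perm ℕ)) = B := by
  let p₀ : Cond t := ⟨∅, by simpa using good_empty ht⟩
  let I := Order.idealOfCofinals p₀ (Task t)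
  have hI : ∀ τ, ∃ p, p ∈ Task t τ ∧ p ∈ I := Order.cofinal_meets_idealOfCofinals p₀ (Task t)
  refine ⟨(FreeGroup.lift (gen I hI)).range, ?_⟩
  intro A B hA hB
  -- freeness
  have free : ∀ (g : Equiv.Perm ℕ), g ∈ (FreeGroup.lift (gen I hI)).range →
      ∀ C : Finset ℕ, C.card = t → C.map g.toEmbedding = C → g = 1 := by
    rintro _ ⟨v, rfl⟩ C hC hg
    by_contra hne
    have hv : v ≠ 1 := by
      rintro rfl
      exact hne (map_one _)
    have hw : v.toWord ≠ [] := fun h => hv (FreeGroup.toWord_eq_nil_iff.1 h)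
    have hv' : v = FreeGroup.mk v.toWord := FreeGroup.mk_toWord.symm
    obtain ⟨p, hp, h⟩ := exists_path I hI v.toWord C
    rw [← lift_mk', ← hv', hg] at h
    exact p.2.2 v.toWord C hw isReduced_toWord hC h
  obtain ⟨p, hp, hpI⟩ := hI (Sum.inr (A, B))
  obtain ⟨w, hw⟩ := hp hA hB
  refine ⟨⟨FreeGroup.lift (gen I hI) (FreeGroup.mk w), ⟨_, rfl⟩⟩, ?_, ?_⟩
  · show A.map (FreeGroup.lift (gen I hI) (FreeGroup.mk w)).toEmbedding = B
    rw [lift_mk']
    exact (Path_eq I hI hpI hw).symm
  · rintro ⟨g, hg⟩ hgAB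
    have hgAB' : A.map g.toEmbedding = B := hgAB
    apply Subtype.ext
    show g = FreeGroup.lift (gen I hI) (FreeGroup.mk w)
    set h := FreeGroup.lift (gen I hI) (FreeGroup.mk w) with hh
    have hhAB : A.map h.toEmbedding = B := by
      rw [hh, lift_mk']
      exact (Path_eq I hI hpI hw).symm
    have h1 : h⁻¹ * g = 1 := by
      refine free _ (Subgroup.mul_mem _ (Subgroup.inv_mem _ ⟨_, rfl⟩) hg) A hA ?_
      rw [← hhAB] at hgAB'
      ext x
      rw [Finset.mem_map]
      constructor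
      · rintro ⟨a, ha, hax⟩
        have h2 : g a ∈ A.map h.toEmbedding := by
          rw [← hgAB']
          exact Finset.mem_map_of_mem _ ha
        rw [Finset.mem_map] at h2
        obtain ⟨b, hb, hbx⟩ := h2
        have h3 : h b = g a := hbx
        have h4 : h⁻¹ (g a) = x := hax
        rw [← h3] at h4
        simp at h4
        rw [← h4]
        exact hb
      · intro hx
        have h2 : h x ∈ A.map g.toEmbedding := by
          rw [hgAB']
          exact Finset.mem_map_of_mem _ hx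
        rw [Finset.mem_map] at h2
        obtain ⟨a, ha, hax⟩ := h2
        have h3 : g a = h x := hax
        refine ⟨a, ha, ?_⟩
        show h⁻¹ (g a) = x
        rw [h3]
        simp
    calc g = h * (h⁻¹ * g) := by group
      _ = h := by rw [h1, mul_one]

/-- The negation of the preceding statement: For every infinite set X, every t at least 3 and every group G of permutations of X, it is not the case that for all t-element subsets A, B of X exactly one element of G maps A onto B. -/
theorem result :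
    ¬ (∀ (X : Type) [Infinite X] (t : ℕ), 3 ≤ t →
      ∀ G : Subgroup (Equiv.Perm X),
        ¬ (∀ A B : Finset X, A.card = t → B.card = t →
            ∃! g : G, A.map (Equiv.toEmbedding (g : Equiv.Perm X)) = B)) := by
  intro h
  obtain ⟨G, hG⟩ := exists_sharp 3 (by norm_num)
  exact h ℕ 3 le_rfl G hG

end Pool.Agent.S02476
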