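import Pool.Statements.S02540
import Pool.Agent.H66R2.Saxl

set_option autoImplicit false
open Pool Pool.MP_fd9dd3_al

namespace Pool.Agent.S02540

/-! Counterexample.  The tetrahedral rotation group `K = A₄` acting on `W = 𝔽₅³` has exactly eight
regular orbits, and `w = (1,1,1)` is not of the form `x - k x` with `k ∈ K`.  The affine group
`W ^ 8 : (K wr S₈)` is primitive with base size two, and `0` and `(w, 0, …, 0)` have no common
neighbour in its Saxl graph. -/

open Pool.Agent.H66R2.Saxl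

abbrev W : Type := ZMod 5 × ZMod 5 × ZMod 5

def sg : Fin 4 → W → W
  | 0, (a, b, c) => (a, b, c)
  | 1, (a, b, c) => (a, -b, -c)
  | 2, (a, b, c) => (-a, b, -c)
  | 3, (a, b, c) => (-a, -b, c)

def rt : Fin 3 → W → W
  | 0, (a, b, c) => (a, b, c)
  | 1, (a, b, c) => (b, c, a)
  | 2, (a, b, c) => (c, a, b)

abbrev T : Type := Fin 4 × Fin 3

def tab (t : T) (x : W) : W := sg t.1 (rt t.2 x)

theorem tab_add (t : T) (x y : W) : tab t (x + y) = tab t x + tab t y := by
  obtain ⟨s, k⟩ := t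
  obtain ⟨a, b, c⟩ := x
  obtain ⟨a', b', c'⟩ := y
  fin_cases s <;> fin_cases k <;> simp [tab, sg, rt, add_comm]

theorem tab_inj : ∀ t : T, ∀ x y : W, tab t x = tab t y → x = y := by
  intro t x y
  obtain ⟨s, k⟩ := t
  obtain ⟨a, b, c⟩ := x
  obtain ⟨a', b', c'⟩ := y
  fin_cases s <;> fin_cases k <;> simp [tab, sg, rt] <;> tauto

theorem tab_mul : ∀ a b : T, ∃ c : T, ∀ x : W, tab a (tab b x) = tab c x := by decide +kernel

theorem tab_inv : ∀ a : T, ∃ c : T, ∀ x : W, tab a (tab c x) = x ∧ tab c (tab a x) = x := by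
  decide +kernel

def colN : ℕ := 1704226034262447149051108866951273062600794154682877145767482846030780985431138954763883458810807958804529409838600646684436717029030696774413507397768

/-- the colour of a vector: the number of its regular orbit, or `8` -/
def color (x : W) : ℕ := colN / 16 ^ (25 * x.1.val + 5 * x.2.1.val + x.2.2.val) % 16

/-- representatives of the regular orbits -/
def rep : Fin 8 → W :=
  ![(0, 1, 1), (0, 1, 2), (0, 2, 1), (0, 2, 2), (1, 1, 2), (1, 1, 3), (1, 2, 2), (1, 2, 3)]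

theorem color_le : ∀ x : W, color x ≤ 8 := by decide +kernel

theorem color_tab : ∀ t : T, ∀ x : W, color (tab t x) = color x := by decide +kernel

theorem color_rep : ∀ i : Fin 8, color (rep i) = i.val := by decide +kernel

theorem to_rep : ∀ x : W, ∀ i : Fin 8, color x = i.val → ∃ t : T, tab t x = rep i := by
  decide +kernel

theorem color_nonreg' : ∀ x : W, color x = 8 → ∃ t : T, tab t x = x ∧ t ≠ (0, 0) := by
  decide +kernel

theorem tab_ne : ∀ t : T, t ≠ (0, 0) → ∃ y, tab t y ≠ y := by decide +kernel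

theorem color_nonreg (x : W) (hx : color x = 8) : ∃ t : T, tab t x = x ∧ ∃ y, tab t y ≠ y := by
  obtain ⟨t, h1, h2⟩ := color_nonreg' x hx
  exact ⟨t, h1, tab_ne t h2⟩

theorem color_reg' : ∀ x : W, color x ≠ 8 → ∀ t : T, tab t x = x → t = (0, 0) := by
  decide +kernel

theorem color_reg (x : W) (hx : color x ≠ 8) (t : T) (ht : tab t x = x) (y : W) :
    tab t y = y := by
  rw [color_reg' x hx t ht]
  rfl

theorem double_ne : ∀ a : ZMod 5, a ≠ 0 → a + a ≠ 0 := by decide +kernel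

theorem not_diff : ∀ x : W, ∀ t : T, x - (1, 1, 1) ≠ tab t x := by decide +kernel

theorem tab_moves : ∀ x : W, x ≠ 0 → ∃ t : T, tab t x ≠ x := by decide +kernel

/-- the tetrahedral group -/
def K : Subgroup (Equiv.Perm W) where
  carrier := {k | ∃ t : T, ∀ x, k x = tab t x}
  one_mem' := ⟨(0, 0), fun _ => rfl⟩
  mul_mem' := by
    rintro k k' ⟨t, ht⟩ ⟨t', ht'⟩
    obtain ⟨c, hc⟩ := tab_mul t t'
    exact ⟨c, fun x => by rw [Equiv.Perm.mul_apply, ht, ht', hc]⟩
  inv_mem' := by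
    rintro k ⟨t, ht⟩
    obtain ⟨c, hc⟩ := tab_inv t
    refine ⟨c, fun x => ?_⟩
    rw [Equiv.Perm.inv_eq_iff_eq, ht, (hc x).1]

theorem mem_K {k : Equiv.Perm W} : k ∈ K ↔ ∃ t : T, ∀ x, k x = tab t x := Iff.rfl

theorem exists_K (t : T) : ∃ k ∈ K, ∀ x, k x = tab t x := by
  obtain ⟨c, hc⟩ := tab_inv t
  exact ⟨⟨tab t, tab c, fun x => (hc x).2, fun x => (hc x).1⟩, ⟨t, fun _ => rfl⟩, fun _ => rfl⟩

theorem hadd : ∀ k ∈ K, ∀ x y : W, k (x + y) = k x + k y := by
  rintro k ⟨t, ht⟩ x y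
  rw [ht, ht, ht, tab_add]

theorem hfix : ∀ x : W, x ≠ 0 → ∃ k ∈ K, k x ≠ x := by
  intro x hx
  obtain ⟨t, ht⟩ := tab_moves x hx
  obtain ⟨k, hk, hkt⟩ := exists_K t
  exact ⟨k, hk, by rw [hkt]; exact ht⟩

theorem mul_all (a : ZMod 5) (ha : a ≠ 0) : ∀ b : ZMod 5, ∃ m : ℕ, m • a = b := by
  revert a
  have : ∀ a : ZMod 5, a ≠ 0 → ∀ b : ZMod 5, ∃ m : Fin 5, m.val • a = b := by decide +kernel
  intro a ha b
  obtain ⟨m, hm⟩ := this a ha b
  exact ⟨m.val, hm⟩

theorem hirr : ∀ B : Set W, (∀ x ∈ B, ∀ y ∈ B, x + y ∈ B) → (∀ x ∈ B, -x ∈ B) →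
    (∀ k ∈ K, ∀ x ∈ B, k x ∈ B) → (∃ x ∈ B, x ≠ 0) → ∀ x, x ∈ B := by
  rintro B hBa hBn hBk ⟨x, hx, hx0⟩
  have hBt : ∀ t : T, ∀ x ∈ B, tab t x ∈ B := by
    intro t y hy
    obtain ⟨k, hk, hkt⟩ := exists_K t
    rw [← hkt]
    exact hBk k hk y hy
  have hB0 : (0 : W) ∈ B := by
    have := hBa x hx _ (hBn x hx)
    rwa [add_neg_cancel] at this
  have hBm : ∀ (m : ℕ), ∀ y ∈ B, m • y ∈ B := by
    intro m y hy
    induction m with
    | zero => rw [zero_nsmul]; exact hB0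
    | succ m ih => rw [succ_nsmul]; exact hBa _ ih _ hy
  -- a vector with non-zero first coordinate
  obtain ⟨a, b, c, hy, ha⟩ : ∃ a b c : ZMod 5, (a, b, c) ∈ B ∧ a ≠ 0 := by
    obtain ⟨a, b, c⟩ := x
    by_cases ha : a = 0
    · by_cases hb : b = 0
      · have hc : c ≠ 0 := by
          rintro rfl
          apply hx0
          rw [ha, hb]
          rfl
        exact ⟨c, a, b, hBt (0, 2) _ hx, hc⟩
      · exact ⟨b, c, a, hBt (0, 1) _ hx, hb⟩
    · exact ⟨a, b, c, hx, ha⟩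
  have h1 : ((a + a, 0, 0) : W) ∈ B := by
    have h2 := hBa _ hy _ (hBt (1, 0) _ hy)
    have h3 : ((a, b, c) : W) + tab (1, 0) (a, b, c) = (a + a, 0, 0) := by
      simp [tab, sg, rt]
    rwa [h3] at h2
  have ha2 : a + a ≠ 0 := double_ne a ha
  have hX : ∀ d : ZMod 5, ((d, 0, 0) : W) ∈ B := by
    intro d
    obtain ⟨m, hm⟩ := mul_all (a + a) ha2 d
    have h2 := hBm m _ h1
    have h3 : m • ((a + a, 0, 0) : W) = (d, 0, 0) := by
      rw [← hm]
      simp
    rwa [h3] at h2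
  have hY : ∀ d : ZMod 5, ((0, d, 0) : W) ∈ B := fun d => hBt (0, 2) _ (hX d)
  have hZ : ∀ d : ZMod 5, ((0, 0, d) : W) ∈ B := fun d => hBt (0, 1) _ (hX d)
  rintro ⟨d, e, f⟩
  have h2 := hBa _ (hBa _ (hX d) _ (hY e)) _ (hZ f)
  have h3 : ((d, 0, 0) : W) + (0, e, 0) + (0, 0, f) = (d, e, f) := by simp
  rwa [h3] at h2

theorem color_K {k : Equiv.Perm W} (hk : k ∈ K) (x : W) : color (k x) = color x := by
  obtain ⟨t, ht⟩ := hk
  rw [ht, color_tab]

/-- colouring of a neighbour of `0` is a bijection -/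
theorem color_base {γ : Fin 8 → W} (hγ : ∀ g ∈ GG K hadd 8, g 0 = 0 → g γ = γ → g = 1) :
    (∀ i, color (γ i) < 8) ∧ ∀ i j, i ≠ j → color (γ i) ≠ color (γ j) := by
  have h1 := reg_of_base hadd hγ
  have h2 := orb_of_base hadd hγ ⟨(1, 0, 0), by decide⟩
  have h3 : ∀ i, color (γ i) < 8 := by
    intro i
    refine lt_of_le_of_ne (color_le _) fun h8 => ?_
    obtain ⟨t, ht, y, hy⟩ := color_nonreg _ h8
    obtain ⟨k, hk, hkt⟩ := exists_K t
    have := h1 i k hk (by rw [hkt, ht])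
    apply hy
    rw [← hkt, this]
    rfl
  refine ⟨h3, fun i j hij hc => ?_⟩
  obtain ⟨t, ht⟩ := to_rep (γ i) ⟨color (γ i), h3 i⟩ rfl
  obtain ⟨t', ht'⟩ := to_rep (γ j) ⟨color (γ i), h3 i⟩ hc.symm
  obtain ⟨k, hk, hkt⟩ := exists_K t
  obtain ⟨k', hk', hkt'⟩ := exists_K t'
  apply h2 i j hij (k'⁻¹ * k) (K.mul_mem (K.inv_mem hk') hk)
  rw [Equiv.Perm.mul_apply, Equiv.Perm.inv_eq_iff_eq, hkt, hkt', ht, ht']

/-- The negation of the preceding statement: For every finite primitive permutation group with base size exactly 2, any two distinct points have a third point forming a base with each of them, i.e. any two Saxl-graph vertices have a common neighbour. -/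
theorem result :
    ¬ (∀ (Ω : Type) [Finite Ω] (G : Subgroup (Equiv.Perm Ω)),
      MulAction.IsPreprimitive G Ω →
      (∃ α β : Ω, ∀ g ∈ G, g α = α → g β = β → g = 1) →
      (∀ α : Ω, ∃ g ∈ G, g α = α ∧ g ≠ 1) →
      ∀ α β : Ω, α ≠ β →
        ∃ γ : Ω, γ ≠ α ∧ γ ≠ β ∧
          (∀ g ∈ G, g α = α → g γ = γ → g = 1) ∧
          (∀ g ∈ G, g β = β → g γ = γ → g = 1)) := by
  intro hcon
  have hbase : ∃ α β : Fin 8 → W, ∀ g ∈ GG K hadd 8, g α = α → g β = β → g = 1 := by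
    refine ⟨0, rep, ?_⟩
    rintro g ⟨σ, k, c, hk, hg⟩ h0 hr
    have hc : ∀ i, c i = 0 := by
      intro i
      have h1 := congrFun h0 i
      rw [hg, Pi.zero_apply, map_zero_of_mem hadd (hk i), zero_add] at h1
      exact h1
    have hσ : ∀ i, σ i = i := by
      intro i
      have h1 := congrFun hr i
      rw [hg, hc, add_zero] at h1
      have h2 := congrArg color h1
      rw [color_K (hk i), color_rep, color_rep] at h2
      exact Fin.ext h2
    have hk1 : ∀ i x, k i x = x := by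
      intro i
      have h1 := congrFun hr i
      rw [hg, hc, add_zero, hσ] at h1
      obtain ⟨t, ht⟩ := hk i
      rw [ht] at h1
      intro x
      rw [ht]
      refine color_reg (rep i) ?_ t h1 x
      rw [color_rep]
      exact i.isLt.ne
    ext x i : 2
    rw [hg, hc, add_zero, hσ, hk1]
    rfl
  have hnontriv : ∀ α : Fin 8 → W, ∃ g ∈ GG K hadd 8, g α = α ∧ g ≠ 1 := by
    intro α
    obtain ⟨k, hk, hkx⟩ := hfix (1, 0, 0) (by decide)
    refine ⟨mkg 1 (fun _ => k) (fun i => α i - k (α i)), mkg_mem hadd _ _ _ fun _ => hk, ?_, ?_⟩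
    · funext i
      rw [mkg_apply]
      simp
    · intro h1
      have h2 := congrFun (congrArg (fun g : Equiv.Perm (Fin 8 → W) =>
        g (fun i => (1, 0, 0) + α i)) h1) 0
      simp only [mkg_apply, Equiv.Perm.one_apply, hadd k hk] at h2
      apply hkx
      have h3 : k (1, 0, 0) + k (α 0) + (α 0 - k (α 0)) = k (1, 0, 0) + α 0 := by abel
      rw [h3] at h2
      exact add_right_cancel h2
  let v : Fin 8 → W := Pi.single 0 (1, 1, 1)
  have hv : (0 : Fin 8 → W) ≠ v := by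
    intro h
    have h1 : (0 : W) = (Pi.single 0 (1, 1, 1) : Fin 8 → W) 0 := congrFun h 0
    rw [Pi.single_eq_same] at h1
    exact absurd h1 (by decide)
  obtain ⟨γ, -, -, h1, h2⟩ := hcon (Fin 8 → W) (GG K hadd 8) (prim hadd hirr hfix) hbase hnontriv
    0 v hv
  have h3 : ∀ g ∈ GG K hadd 8, g 0 = 0 → g (γ - v) = γ - v → g = 1 := by
    intro g hg hg0 hgγ
    let τ : Equiv.Perm (Fin 8 → W) := mkg 1 (fun _ => 1) v
    have hτ : τ ∈ GG K hadd 8 := mkg_mem hadd _ _ _ fun _ => K.one_mem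
    have hτa : ∀ x, τ x = x + v := by
      intro x
      funext i
      simp [τ, mkg_apply]
    have hτi : ∀ x, τ⁻¹ x = x - v := by
      intro x
      rw [Equiv.Perm.inv_eq_iff_eq, hτa]
      abel
    have h4 := h2 (τ * g * τ⁻¹) ((GG K hadd 8).mul_mem ((GG K hadd 8).mul_mem hτ hg)
      ((GG K hadd 8).inv_mem hτ)) (by
        rw [Equiv.Perm.mul_apply, Equiv.Perm.mul_apply, hτi, sub_self, hg0, hτa, zero_add]) (by
        rw [Equiv.Perm.mul_apply, Equiv.Perm.mul_apply, hτi, hgγ, hτa, sub_add_cancel])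
    have h5 : g = τ⁻¹ * (τ * g * τ⁻¹) * τ := by group
    rw [h5, h4]
    group
  obtain ⟨hc1, hi1⟩ := color_base h1
  obtain ⟨hc2, hi2⟩ := color_base h3
  -- the two colourings agree off `0`
  have hoff : ∀ i : Fin 8, i ≠ 0 → (γ - v) i = γ i := by
    intro i hi
    rw [Pi.sub_apply]
    simp [v, hi]
  have h00 : (γ - v) 0 = γ 0 - (1, 1, 1) := by
    rw [Pi.sub_apply]
    simp [v]
  -- hence at `0` too
  have hcol : color (γ 0 - (1, 1, 1)) = color (γ 0) := by
    let φ : Fin 8 → Fin 8 := fun i => ⟨color (γ i), hc1 i⟩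
    have hφ : Function.Injective φ := by
      intro i j hij
      by_contra hne
      exact hi1 i j hne (congrArg Fin.val hij)
    have hφs : Function.Surjective φ := Finite.injective_iff_surjective.1 hφ
    obtain ⟨i, hi⟩ := hφs ⟨color ((γ - v) 0), hc2 0⟩
    have hi' : color (γ i) = color ((γ - v) 0) := congrArg Fin.val hi
    by_cases hi0 : i = 0
    · rw [hi0, h00] at hi'
      exact hi'.symm
    · exfalso
      apply hi2 i 0 hi0
      rw [hoff i hi0]
      exact hi'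
  -- so `γ 0 - w` is in the orbit of `γ 0`
  obtain ⟨t, ht⟩ := to_rep (γ 0 - (1, 1, 1)) ⟨color (γ 0), hc1 0⟩ hcol
  obtain ⟨t', ht'⟩ := to_rep (γ 0) ⟨color (γ 0), hc1 0⟩ rfl
  obtain ⟨s, hs⟩ := tab_inv t
  obtain ⟨u, hu⟩ := tab_mul s t'
  apply not_diff (γ 0) u
  rw [← hu, ht', ← ht, (hs _).2]

end Pool.Agent.S02540
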