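import Pool.Statements.S02582
import Pool.Agent.H784R2.BmoaC

set_option autoImplicit false
open Pool Pool.MP_0252b9_an

namespace Pool.Agent.S02582

open Pool.Agent.H784R2.Bmoa in
lemma ray_mem {r θ : ℝ} (h0 : 0 < r) (h1 : r < 1) :
    (r : ℂ) * Complex.exp ((θ : ℂ) * Complex.I) ∈ Metric.ball (0:ℂ) 1 := by
  rw [mem_ball_zero_iff, norm_mul, Complex.norm_exp_ofReal_mul_I, mul_one, Complex.norm_real,
    Real.norm_eq_abs, abs_of_pos h0]
  exact h1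

open Pool.Agent.H784R2.Bmoa in
lemma RR_lim {θ : ℝ} (h : Complex.exp ((θ : ℂ) * Complex.I) ≠ 1) :
    Filter.Tendsto (fun r : ℝ => 1 - Real.exp (-(2 * RR ((r : ℂ) * Complex.exp ((θ : ℂ) * Complex.I)))))
      (nhdsWithin 1 (Set.Iio 1))
      (nhds (1 - Real.exp (-(2 * RR (Complex.exp ((θ : ℂ) * Complex.I)))))) := by
  have h1 : ContinuousAt (fun z : ℂ => 1 - Real.exp (-(2 * RR z)))
      (Complex.exp ((θ : ℂ) * Complex.I)) := by
    have h2 := RR_cont (z := Complex.exp ((θ : ℂ) * Complex.I)) (fun h3 => h (sub_eq_zero.1 h3).symm)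
    apply continuousAt_const.sub
    apply Real.continuous_exp.continuousAt.comp
    exact (continuousAt_const.mul h2).neg
  have h3 : Filter.Tendsto (fun r : ℝ => (r : ℂ) * Complex.exp ((θ : ℂ) * Complex.I))
      (nhdsWithin 1 (Set.Iio 1)) (nhds (Complex.exp ((θ : ℂ) * Complex.I))) := by
    apply Filter.Tendsto.mono_left _ nhdsWithin_le_nhds
    have h4 : Continuous (fun r : ℝ => (r : ℂ) * Complex.exp ((θ : ℂ) * Complex.I)) := by fun_prop
    have h5 := h4.tendsto 1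
    simpa using h5
  exact h1.tendsto.comp h3

lemma exists_ae {p : ℝ → Prop} (h : ∀ᵐ θ : ℝ, p θ) {a b : ℝ} (hab : a < b) :
    ∃ θ ∈ Set.Ioo a b, p θ := by
  by_contra hcon
  push Not at hcon
  have h1 : MeasureTheory.volume (Set.Ioo a b) = 0 :=
    MeasureTheory.measure_mono_null (fun θ hθ => hcon θ hθ) h
  rw [Real.volume_Ioo, ENNReal.ofReal_eq_zero] at h1
  linarith

lemma exp_re_im (θ : ℝ) : (Complex.exp ((θ : ℂ) * Complex.I)).re = Real.cos θ ∧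
    (Complex.exp ((θ : ℂ) * Complex.I)).im = Real.sin θ :=
  ⟨Complex.exp_ofReal_mul_I_re θ, Complex.exp_ofReal_mul_I_im θ⟩

/-- The negation of the preceding statement: For every analytic f on the disc with f+conj(q0) bounded for some analytic q0 (i.e. f in BMOA), some analytic q attains the least sup M of ∣f+conj q∣ over the disc and ∣f+conj q∣ has radial limit M at a.e. boundary point. -/
theorem result :
    ¬ (∀ f : ℂ → ℂ, DifferentiableOn ℂ f (Metric.ball 0 1) →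
      (∃ q₀ : ℂ → ℂ, DifferentiableOn ℂ q₀ (Metric.ball 0 1) ∧
        ∃ C : ℝ, ∀ z ∈ Metric.ball (0 : ℂ) 1, ‖f z + starRingEnd ℂ (q₀ z)‖ ≤ C) →
      ∃ q : ℂ → ℂ, DifferentiableOn ℂ q (Metric.ball 0 1) ∧ ∃ M : ℝ,
        (∀ z ∈ Metric.ball (0 : ℂ) 1, ‖f z + starRingEnd ℂ (q z)‖ ≤ M) ∧
        (∀ q' : ℂ → ℂ, DifferentiableOn ℂ q' (Metric.ball 0 1) → ∀ M' : ℝ,
          (∀ z ∈ Metric.ball (0 : ℂ) 1, ‖f z + starRingEnd ℂ (q' z)‖ ≤ M') → M ≤ M') ∧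
        ∀ᵐ θ : ℝ, Filter.Tendsto
          (fun r : ℝ => ‖f ((r : ℂ) * Complex.exp ((θ : ℂ) * Complex.I)) +
            starRingEnd ℂ (q ((r : ℂ) * Complex.exp ((θ : ℂ) * Complex.I)))‖)
          (nhdsWithin 1 (Set.Iio 1)) (nhds M)) := by
  intro H
  obtain ⟨q, hq, M, hM1, hM2, hM3⟩ := H Pool.Agent.H784R2.Bmoa.ff
    Pool.Agent.H784R2.Bmoa.ff_diff ⟨fun _ => 0, by fun_prop, 1, fun z hz => by
      simpa using Pool.Agent.H784R2.Bmoa.norm_ff_le hz⟩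
  have hMle : M ≤ 1 := hM2 (fun _ => 0) (by fun_prop) 1 (fun z hz => by
      simpa using Pool.Agent.H784R2.Bmoa.norm_ff_le hz)
  have hq0 := Pool.Agent.H784R2.Bmoa.q_zero hq (fun z hz => (hM1 z hz).trans hMle)
  have hpi := Real.pi_pos
  -- the radial limits of `‖ff‖ ^ 2`
  have hlim : ∀ θ : ℝ, Filter.Tendsto
          (fun r : ℝ => ‖Pool.Agent.H784R2.Bmoa.ff ((r : ℂ) * Complex.exp ((θ : ℂ) * Complex.I)) +
            starRingEnd ℂ (q ((r : ℂ) * Complex.exp ((θ : ℂ) * Complex.I)))‖)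
          (nhdsWithin 1 (Set.Iio 1)) (nhds M) →
      Filter.Tendsto (fun r : ℝ => 1 - ‖Pool.Agent.H784R2.Bmoa.ff
        ((r : ℂ) * Complex.exp ((θ : ℂ) * Complex.I))‖ ^ 2)
          (nhdsWithin 1 (Set.Iio 1)) (nhds (1 - M ^ 2)) := by
    intro θ h
    have h1 := (h.pow 2).const_sub 1
    apply Filter.Tendsto.congr' _ h1
    have h2 : Set.Ioo (0:ℝ) 1 ∈ nhdsWithin (1:ℝ) (Set.Iio 1) := Ioo_mem_nhdsLT one_pos
    filter_upwards [h2] with r hr
    have h3 := hq0 (ray_mem (θ := θ) hr.1 hr.2)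
    simp only [Pi.zero_apply] at h3
    rw [h3, map_zero, add_zero]
  obtain ⟨θ₁, hθ₁, h1⟩ := exists_ae hM3 (show (0:ℝ) < Real.pi / 2 by positivity)
  obtain ⟨θ₂, hθ₂, h2⟩ := exists_ae hM3 (show Real.pi / 2 < Real.pi by linarith)
  have e1 := hlim θ₁ h1
  have e2 := hlim θ₂ h2
  have hsub : Set.Ioo (0:ℝ) 1 ∈ nhdsWithin (1:ℝ) (Set.Iio 1) := Ioo_mem_nhdsLT one_pos
  have n1 : Complex.exp ((θ₁ : ℂ) * Complex.I) ≠ 1 := by
    intro h
    have h3 := congrArg Complex.im h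
    rw [(exp_re_im θ₁).2, Complex.one_im] at h3
    have h4 := Real.sin_pos_of_pos_of_lt_pi hθ₁.1 (by linarith [hθ₁.2])
    linarith
  have c2 : Real.cos θ₂ < 0 := Real.cos_neg_of_pi_div_two_lt_of_lt hθ₂.1 (by linarith [hθ₂.2])
  have n2 : Complex.exp ((θ₂ : ℂ) * Complex.I) ≠ 1 := by
    intro h
    have h3 := congrArg Complex.re h
    rw [(exp_re_im θ₂).1, Complex.one_re] at h3
    linarith
  have l1 := RR_lim n1
  have l2 := RR_lim n2
  have r1 : Pool.Agent.H784R2.Bmoa.RR (Complex.exp ((θ₁ : ℂ) * Complex.I)) = 0 := by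
    apply Pool.Agent.H784R2.Bmoa.RR_bdry_zero (Complex.norm_exp_ofReal_mul_I θ₁) n1
    rw [(exp_re_im θ₁).1]
    exact (Real.cos_pos_of_mem_Ioo ⟨by linarith [hθ₁.1], hθ₁.2⟩).le
  have r2 : 0 < Pool.Agent.H784R2.Bmoa.RR (Complex.exp ((θ₂ : ℂ) * Complex.I)) := by
    apply Pool.Agent.H784R2.Bmoa.RR_bdry_pos (Complex.norm_exp_ofReal_mul_I θ₂)
    rw [(exp_re_im θ₂).1]
    exact c2
  -- first point : `1 - M ^ 2 ≤ 0`
  have f1 : 1 - M ^ 2 ≤ Pool.Agent.H784R2.Bmoa.CC *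
      (1 - Real.exp (-(2 * Pool.Agent.H784R2.Bmoa.RR (Complex.exp ((θ₁ : ℂ) * Complex.I))))) := by
    apply le_of_tendsto_of_tendsto e1 (l1.const_mul Pool.Agent.H784R2.Bmoa.CC)
    filter_upwards [hsub] with r hr
    exact (Pool.Agent.H784R2.Bmoa.ff_le_BB (ray_mem hr.1 hr.2)).trans (min_le_right _ _)
  have f2 : Pool.Agent.H784R2.Bmoa.CC⁻¹ *
      (1 - Real.exp (-(2 * Pool.Agent.H784R2.Bmoa.RR (Complex.exp ((θ₂ : ℂ) * Complex.I))))) ≤
      1 - M ^ 2 := by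
    apply le_of_tendsto_of_tendsto (l2.const_mul Pool.Agent.H784R2.Bmoa.CC⁻¹) e2
    filter_upwards [hsub] with r hr
    exact Pool.Agent.H784R2.Bmoa.ff_ge (ray_mem hr.1 hr.2)
  rw [r1] at f1
  simp only [mul_zero, neg_zero, Real.exp_zero, sub_self] at f1
  have f3 : 0 < Pool.Agent.H784R2.Bmoa.CC⁻¹ *
      (1 - Real.exp (-(2 * Pool.Agent.H784R2.Bmoa.RR (Complex.exp ((θ₂ : ℂ) * Complex.I))))) := by
    apply mul_pos (inv_pos.2 Pool.Agent.H784R2.Bmoa.CC_pos)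
    have : Real.exp (-(2 * Pool.Agent.H784R2.Bmoa.RR (Complex.exp ((θ₂ : ℂ) * Complex.I)))) < 1 :=
      Real.exp_lt_one_iff.2 (by linarith)
    linarith
  linarith

end Pool.Agent.S02582
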