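import Pool.Statements.S02590
import Pool.Agent.H460U.TR.All3

set_option autoImplicit false
open Pool Pool.MP_03b738_an

namespace Pool.Agent.S02590

/-- The negation of the preceding statement: For every complex Hilbert space H and every weakly closed unital algebra of bounded operators on H: if every closed subspace of H×H invariant under all A⊕A (A in the algebra) is invariant under all B⊕B, then the algebra is all of B(H). -/
theorem result :
    ¬ (∀ (H : Type) [NormedAddCommGroup H] [InnerProductSpace ℂ H] [CompleteSpace H]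
      (𝔄 : Subalgebra ℂ (H →L[ℂ] H)),
      (∀ T : H →L[ℂ] H,
        (∀ (n : ℕ) (x y : Fin n → H) (ε : ℝ), 0 < ε →
          ∃ S ∈ 𝔄, ∀ i, ‖inner ℂ ((T - S) (x i)) (y i)‖ < ε) → T ∈ 𝔄) →
      (∀ M : Submodule ℂ (H × H), IsClosed (M : Set (H × H)) →
        (∀ A ∈ 𝔄, ∀ p ∈ M, (A p.1, A p.2) ∈ M) →
        ∀ B : H →L[ℂ] H, ∀ p ∈ M, (B p.1, B p.2) ∈ M) →
      𝔄 = ⊤) := by
  intro h
  obtain ⟨Alg, h1, h2, h3⟩ := Pool.Agent.H460U.all_FIN3
  exact h3 (h Pool.Agent.H460U.L2 Alg h1 h2)

end Pool.Agent.S02590
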