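import Pool.Statements.S02617
-- import your own Pool.Agent.* helpers here
import Pool.Agent.H667R2.SF11

set_option autoImplicit false
open Matrix
open Pool Pool.MP_090951_an

namespace Pool.Agent.S02617

/-- A Hermitian PSD matrix density whose entries are exponentially weighted two-sided integrable parts plus arbitrary-delay impulse sums, with det bounded below by δ>0, factors as R*R with R and R⁻¹ entrywise causal and exponentially stable. -/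
theorem result :
    ∀ (n : ℕ) (F : ℝ → Matrix (Fin n) (Fin n) ℂ),
      (∀ i j : Fin n, ∃ σ : ℝ, 0 < σ ∧ ∃ (fa : ℝ → ℂ) (c : ℕ → ℂ) (τ : ℕ → ℝ),
          MeasureTheory.Integrable (fun t : ℝ => fa t * ((Real.exp (σ * |t|) : ℝ) : ℂ)) ∧
          Summable (fun k : ℕ => ‖c k‖ * Real.exp (σ * |τ k|)) ∧
          ∀ ω : ℝ, F ω i j =
            (∫ t : ℝ, fa t * Complex.exp (-((ω : ℂ) * (t : ℂ) * Complex.I))) +
              ∑' k : ℕ, c k * Complex.exp (-((ω : ℂ) * ((τ k : ℝ) : ℂ) * Complex.I))) →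
      (∀ ω : ℝ, (F ω).IsHermitian ∧
          ∀ x : Fin n → ℂ, 0 ≤ (dotProduct (star x) ((F ω).mulVec x)).re) →
      (∃ δ : ℝ, 0 < δ ∧ ∀ ω : ℝ, δ ≤ ((F ω).det).re) →
      ∃ R : ℝ → Matrix (Fin n) (Fin n) ℂ,
        (∀ ω : ℝ, IsUnit (R ω)) ∧
        (∀ ω : ℝ, F ω = (R ω).conjTranspose * R ω) ∧
        (∀ i j : Fin n, ∃ σ : ℝ, 0 < σ ∧ ∃ (fa : ℝ → ℂ) (c : ℕ → ℂ) (τ : ℕ → ℝ),
          (∀ k : ℕ, 0 ≤ τ k) ∧
          MeasureTheory.Integrable (fun t : ℝ => fa t * ((Real.exp (σ * t) : ℝ) : ℂ))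
            (MeasureTheory.volume.restrict (Set.Ici (0 : ℝ))) ∧
          Summable (fun k : ℕ => ‖c k‖ * Real.exp (σ * τ k)) ∧
          ∀ ω : ℝ, R ω i j =
            (∫ t in Set.Ici (0 : ℝ), fa t * Complex.exp (-((ω : ℂ) * (t : ℂ) * Complex.I))) +
              ∑' k : ℕ, c k * Complex.exp (-((ω : ℂ) * ((τ k : ℝ) : ℂ) * Complex.I))) ∧
        (∀ i j : Fin n, ∃ σ : ℝ, 0 < σ ∧ ∃ (fa : ℝ → ℂ) (c : ℕ → ℂ) (τ : ℕ → ℝ),
          (∀ k : ℕ, 0 ≤ τ k) ∧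
          MeasureTheory.Integrable (fun t : ℝ => fa t * ((Real.exp (σ * t) : ℝ) : ℂ))
            (MeasureTheory.volume.restrict (Set.Ici (0 : ℝ))) ∧
          Summable (fun k : ℕ => ‖c k‖ * Real.exp (σ * τ k)) ∧
          ∀ ω : ℝ, (R ω)⁻¹ i j =
            (∫ t in Set.Ici (0 : ℝ), fa t * Complex.exp (-((ω : ℂ) * (t : ℂ) * Complex.I))) +
              ∑' k : ℕ, c k * Complex.exp (-((ω : ℂ) * ((τ k : ℝ) : ℂ) * Complex.I))) :=
  Pool.Agent.H667R2.main_thm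

end Pool.Agent.S02617
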