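import Pool.Statements.S02646
import Pool.Agent.H757R2.HolderRadial

set_option autoImplicit false
open Pool Pool.MP_0bf850_an

namespace Pool.Agent.S02646

open Set Filter Topology Metric MeasureTheory
open scoped ENNReal
open Pool.Agent.H757R2.HolderRadial

/-- the plane -/
abbrev P := EuclideanSpace ℝ (Fin 2)

noncomputable def q (k : ℕ) : ℝ := 4 * ((k : ℝ) + 1)

noncomputable def rad (k : ℕ) : ℝ := ((q k) ^ 2)⁻¹

noncomputable def e0 : P := EuclideanSpace.single 0 1

noncomputable def ctr (k : ℕ) : P := (((k : ℝ) + 1)⁻¹) • e0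

theorem norm_e0 : ‖e0‖ = 1 := by simp [e0]

theorem q_ge (k : ℕ) : 4 ≤ q k := by
  unfold q
  have : (0 : ℝ) ≤ k := Nat.cast_nonneg k
  linarith

theorem q_pos (k : ℕ) : 0 < q k := by linarith [q_ge k]

theorem rad_pos (k : ℕ) : 0 < rad k := by
  unfold rad
  have := q_pos k
  positivity

theorem rad_le (k : ℕ) : rad k ≤ 1 / 16 := by
  unfold rad
  rw [← one_div]
  have := q_ge k
  apply one_div_le_one_div_of_le (by norm_num)
  nlinarith

theorem rad_le_one (k : ℕ) : rad k ≤ 1 := (rad_le k).trans (by norm_num)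

theorem sqrt_rad (k : ℕ) : √(rad k) = (q k)⁻¹ := by
  unfold rad
  rw [← inv_pow, Real.sqrt_sq (inv_nonneg.2 (q_pos k).le)]

theorem norm_ctr (k : ℕ) : ‖ctr k‖ = ((k : ℝ) + 1)⁻¹ := by
  unfold ctr
  rw [norm_smul, norm_e0, mul_one, Real.norm_eq_abs, abs_of_pos]
  positivity

theorem norm_ctr_ge (k : ℕ) : 16 * rad k ≤ ‖ctr k‖ := by
  rw [norm_ctr]
  unfold rad q
  have h : (1 : ℝ) ≤ (k : ℝ) + 1 := by
    have : (0 : ℝ) ≤ k := Nat.cast_nonneg k
    linarith
  have h0 : (0 : ℝ) < (k : ℝ) + 1 := by linarith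
  rw [mul_pow, mul_inv, ← mul_assoc]
  norm_num
  apply inv_anti₀ h0
  nlinarith

theorem dist_ctr_lt {k l : ℕ} (h : k < l) : 4 * (rad k + rad l) ≤ dist (ctr k) (ctr l) := by
  have hk0 : (0 : ℝ) ≤ k := Nat.cast_nonneg k
  have hkl : (k : ℝ) + 1 ≤ l := by exact_mod_cast h
  set a : ℝ := (k : ℝ) + 1 with ha
  set b : ℝ := (l : ℝ) + 1 with hb
  have ha1 : 1 ≤ a := by linarith
  have hab : a + 1 ≤ b := by linarith
  have ha0 : 0 < a := by linarith
  have hb0 : 0 < b := by linarith
  have h1 : dist (ctr k) (ctr l) = a⁻¹ - b⁻¹ := by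
    rw [dist_eq_norm]
    unfold ctr
    rw [← sub_smul, norm_smul, norm_e0, mul_one, Real.norm_eq_abs, abs_of_nonneg]
    rw [sub_nonneg]
    exact inv_anti₀ ha0 (by linarith)
  rw [h1]
  have h2 : rad k = (16 * a ^ 2)⁻¹ := by
    unfold rad q; rw [← ha]; ring_nf
  have h3 : rad l = (16 * b ^ 2)⁻¹ := by
    unfold rad q; rw [← hb]; ring_nf
  have h4 : rad l ≤ rad k := by
    rw [h2, h3]
    apply inv_anti₀ (by positivity)
    nlinarith
  have h5 : (2 * a ^ 2)⁻¹ ≤ a⁻¹ - b⁻¹ := by
    have h6 : b⁻¹ ≤ (a + 1)⁻¹ := inv_anti₀ (by linarith) hab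
    have h7 : (2 * a ^ 2)⁻¹ ≤ a⁻¹ - (a + 1)⁻¹ := by
      have : a⁻¹ - (a + 1)⁻¹ = (a * (a + 1))⁻¹ := by
        field_simp
        ring
      rw [this]
      apply inv_anti₀ (by positivity)
      nlinarith
    linarith
  have h6 : 8 * rad k = (2 * a ^ 2)⁻¹ := by
    rw [h2, mul_inv, mul_inv]; ring
  linarith

theorem dist_ctr {k l : ℕ} (h : k ≠ l) : 4 * (rad k + rad l) ≤ dist (ctr k) (ctr l) := by
  rcases lt_or_gt_of_ne h with h | h
  · exact dist_ctr_lt h
  · rw [dist_comm, add_comm]; exact dist_ctr_lt h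

open Classical in
/-- the map -/
noncomputable def f (x : P) : P :=
  if h : ∃ k, dist x (ctr k) < rad k then
    ctr (Nat.find h) + F (rad (Nat.find h)) (x - ctr (Nat.find h))
  else x

noncomputable def G (k : ℕ) (x : P) : P := ctr k + F (rad k) (x - ctr k)

theorem uniq {x : P} {k l : ℕ} (hk : dist x (ctr k) < 2 * rad k) (hl : dist x (ctr l) < rad l) :
    k = l := by
  by_contra h
  have h1 := dist_ctr h
  have h2 := dist_triangle_left (ctr k) (ctr l) x
  have := rad_pos k
  have := rad_pos l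
  linarith

theorem f_eq {x : P} {k : ℕ} (hk : dist x (ctr k) < 2 * rad k) : f x = G k x := by
  classical
  unfold f
  by_cases h : ∃ k, dist x (ctr k) < rad k
  · rw [dif_pos h]
    have h1 := Nat.find_spec h
    rw [← uniq hk h1]
    rfl
  · rw [dif_neg h]
    push Not at h
    unfold G
    rw [F_outer (rad_pos k) (rad_le_one k)]
    · abel
    · rw [← dist_eq_norm]; exact h k

theorem f_id {x : P} (h : ∀ k, rad k ≤ dist x (ctr k)) : f x = x := by
  classical
  unfold f
  rw [dif_neg]
  push Not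
  exact h

theorem f_ball {x : P} {k : ℕ} (hk : dist x (ctr k) < rad k) : dist (f x) (ctr k) < rad k := by
  rw [f_eq (k := k) (by linarith [rad_pos k])]
  unfold G
  rw [dist_eq_norm, add_sub_cancel_left]
  rw [dist_eq_norm] at hk
  exact norm_F_lt (rad_pos k) (rad_le_one k) hk

theorem f_inj : Function.Injective f := by
  intro x y hxy
  by_cases hx : ∃ k, dist x (ctr k) < rad k
  · obtain ⟨k, hk⟩ := hx
    have h1 := f_ball hk
    by_cases hy : ∃ l, dist y (ctr l) < rad l
    · obtain ⟨l, hl⟩ := hy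
      have h2 := f_ball hl
      rw [← hxy] at h2
      have h3 : k = l := uniq (by linarith [rad_pos k]) h2
      subst h3
      rw [f_eq (k := k) (by linarith [rad_pos k]), f_eq (k := k) (by linarith [rad_pos k])] at hxy
      unfold G at hxy
      have h4 := F_inj (rad_pos k) (add_left_cancel hxy)
      exact sub_left_injective h4
    · push Not at hy
      rw [hxy, f_id hy] at h1
      exact absurd h1 (not_lt.2 (hy k))
  · push Not at hx
    by_cases hy : ∃ l, dist y (ctr l) < rad l
    · obtain ⟨l, hl⟩ := hy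
      have h2 := f_ball hl
      rw [← hxy, f_id hx] at h2
      exact absurd h2 (not_lt.2 (hx l))
    · push Not at hy
      rwa [f_id hx, f_id hy] at hxy

/-- outside `0`, every point which is outside all closed balls has a neighbourhood outside all
balls. -/
theorem away {x : P} (hx : x ≠ 0) (h : ∀ k, rad k < dist x (ctr k)) :
    ∀ᶠ y in 𝓝 x, ∀ k, rad k ≤ dist y (ctr k) := by
  have hpos : 0 < ‖x‖ := norm_pos_iff.2 hx
  -- for large k, the k-th ball is near 0
  obtain ⟨N, hN⟩ : ∃ N : ℕ, 4 / ‖x‖ < N := exists_nat_gt _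
  have h1 : ∀ᶠ y in 𝓝 x, ∀ k ∈ Finset.range N, rad k < dist y (ctr k) := by
    rw [Finset.eventually_all]
    intro k _
    exact (continuous_id.dist continuous_const).continuousAt.eventually_const_lt (h k)
  have h2 : ∀ᶠ y in 𝓝 x, ‖x‖ / 2 < ‖y‖ :=
    continuous_norm.continuousAt.eventually_const_lt (by linarith)
  filter_upwards [h1, h2] with y h3 h4 k
  by_cases hk : k < N
  · exact (h3 k (Finset.mem_range.2 hk)).le
  · push Not at hk
    have hkN : (N : ℝ) ≤ k := by exact_mod_cast hk
    have h5 : ‖ctr k‖ < ‖x‖ / 4 := by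
      rw [norm_ctr]
      rw [inv_lt_comm₀ (by positivity) (by positivity), inv_div]
      linarith
    have h6 := norm_ctr_ge k
    have h7 := rad_pos k
    have h8 : ‖y‖ - ‖ctr k‖ ≤ dist y (ctr k) := by
      rw [dist_eq_norm]; exact norm_sub_norm_le _ _
    linarith

theorem f_zero : f 0 = 0 := by
  apply f_id
  intro k
  rw [dist_zero_left]
  have := norm_ctr_ge k
  have := rad_pos k
  linarith

theorem f_near_zero (y : P) : (1 / 2) * ‖y‖ ≤ ‖f y‖ ∧ ‖f y‖ ≤ 2 * ‖y‖ := by
  have hy := norm_nonneg y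
  by_cases h : ∃ k, dist y (ctr k) < rad k
  · obtain ⟨k, hk⟩ := h
    have h1 := f_ball hk
    have h2 : dist (f y) y < 2 * rad k := by
      have := dist_triangle_right (f y) y (ctr k)
      linarith
    have h3 := norm_ctr_ge k
    have h4 : ‖ctr k‖ - dist y (ctr k) ≤ ‖y‖ := by
      have := norm_sub_norm_le (ctr k) y
      rw [dist_comm, dist_eq_norm]
      linarith
    have h5 : 4 * rad k ≤ ‖y‖ := by linarith [rad_pos k]
    rw [dist_eq_norm] at h2
    have h6 := norm_sub_norm_le (f y) y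
    have h7 := norm_sub_norm_le y (f y)
    rw [norm_sub_rev] at h7
    constructor <;> linarith
  · push Not at h
    rw [f_id h]
    constructor <;> linarith

/-- the pointwise two-sided estimate -/
theorem f_local (x : P) : ∃ μ : ℝ, 0 < μ ∧ ∀ᶠ y in 𝓝 x,
    μ * dist y x ≤ dist (f y) (f x) ∧ dist (f y) (f x) ≤ 8 * μ * dist y x := by
  by_cases hx0 : x = 0
  · subst hx0
    refine ⟨1 / 2, by norm_num, Eventually.of_forall fun y => ?_⟩
    rw [f_zero, dist_zero_right, dist_zero_right]
    have := f_near_zero y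
    have := norm_nonneg y
    constructor <;> linarith
  by_cases h : ∀ k, rad k < dist x (ctr k)
  · refine ⟨1, one_pos, ?_⟩
    have hx : f x = x := f_id fun k => (h k).le
    filter_upwards [away hx0 h] with y hy
    rw [f_id hy, hx]
    have := dist_nonneg (x := y) (y := x)
    constructor <;> linarith
  · push Not at h
    obtain ⟨k, hk⟩ := h
    have hr := rad_pos k
    have h1 : ∀ᶠ y in 𝓝 x, dist y (ctr k) < 2 * rad k :=
      (continuous_id.dist continuous_const).continuousAt.eventually_lt_const (by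
        show dist x (ctr k) < _
        linarith)
    have h2 := F_local hr (x - ctr k)
    have h3 : Tendsto (fun y : P => y - ctr k) (𝓝 x) (𝓝 (x - ctr k)) :=
      (continuous_id.sub continuous_const).continuousAt
    have h4 := h3.eventually h2
    have hc := c_pos hr ‖x - ctr k‖
    refine ⟨(1 / 4) * c (rad k) ‖x - ctr k‖, by positivity, ?_⟩
    filter_upwards [h1, h4] with y h5 h6
    rw [f_eq h5, f_eq (k := k) (by linarith)]
    unfold G
    rw [dist_add_left, dist_eq_norm, dist_eq_norm]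
    have e : y - ctr k - (x - ctr k) = y - x := by abel
    rw [e] at h6
    refine ⟨h6.1, h6.2.trans (le_of_eq (by ring))⟩

theorem f_cont : Continuous f := by
  rw [continuous_iff_continuousAt]
  intro x
  obtain ⟨μ, hμ, h⟩ := f_local x
  rw [ContinuousAt, tendsto_iff_dist_tendsto_zero]
  have h1 : Tendsto (fun y => 8 * μ * dist y x) (𝓝 x) (𝓝 0) := by
    have : Continuous (fun y : P => 8 * μ * dist y x) := by fun_prop
    have h2 := this.tendsto x
    simpa using h2
  exact squeeze_zero' (Eventually.of_forall fun _ => dist_nonneg) (h.mono fun y hy => hy.2) h1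

theorem f_dil : ∃ H : ℝ, ∀ x ∈ (univ : Set P), ∀ᶠ r in nhdsWithin (0:ℝ) (Set.Ioi 0),
        ∀ y z : P, dist y x = r → dist z x = r →
          dist (f y) (f x) ≤ H * dist (f z) (f x) := by
  refine ⟨8, fun x _ => ?_⟩
  obtain ⟨μ, hμ, h⟩ := f_local x
  rw [Metric.eventually_nhds_iff] at h
  obtain ⟨ε, hε, h⟩ := h
  filter_upwards [Ioo_mem_nhdsGT hε] with r hr y z hy hz
  have h1 := (h (y := y) (by rw [hy]; exact hr.2)).2
  have h2 := (h (y := z) (by rw [hz]; exact hr.2)).1
  rw [hy] at h1
  rw [hz] at h2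
  linarith

/-- Hölder estimate for the building blocks -/
theorem G_holder (k : ℕ) (x y : P) :
    dist (G k x) (G k y) ≤ 4 * (dist x y + dist x y ^ (3 / 4 : ℝ)) := by
  unfold G
  rw [dist_add_left, dist_eq_norm, dist_eq_norm]
  have := F_holder (rad_pos k) (x - ctr k) (y - ctr k)
  rwa [sub_sub_sub_cancel_right] at this

theorem G_id {k : ℕ} {x : P} (h : rad k ≤ dist x (ctr k)) : G k x = x := by
  unfold G
  rw [F_outer (rad_pos k) (rad_le_one k)]
  · abel
  · rw [← dist_eq_norm]; exact h

theorem f_holder (x y : P) : dist (f x) (f y) ≤ 8 * (dist x y + dist x y ^ (3 / 4 : ℝ)) := by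
  have hd := dist_nonneg (x := x) (y := y)
  have hp : 0 ≤ dist x y ^ (3 / 4 : ℝ) := by positivity
  by_cases hx : ∃ k, dist x (ctr k) < rad k
  · obtain ⟨k, hk⟩ := hx
    have fx : f x = G k x := f_eq (by linarith [rad_pos k])
    by_cases hy : ∃ l, dist y (ctr l) < rad l
    · obtain ⟨l, hl⟩ := hy
      have fy : f y = G l y := f_eq (by linarith [rad_pos l])
      by_cases hkl : k = l
      · subst hkl
        rw [fx, fy]
        have := G_holder k x y
        linarith
      · -- a point of the segment outside both balls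
        obtain ⟨p, hp1, hp2, hp3⟩ : ∃ p ∈ segment ℝ x y, rad k ≤ dist p (ctr k) ∧
            rad l ≤ dist p (ctr l) := by
          by_contra hcon
          push Not at hcon
          have hpre : IsPreconnected (segment ℝ x y) := (convex_segment x y).isPreconnected
          have hsub : segment ℝ x y ⊆ ball (ctr k) (rad k) ∪ ball (ctr l) (rad l) := by
            intro p hp
            by_cases h1 : dist p (ctr k) < rad k
            · exact Or.inl h1
            · exact Or.inr (hcon p hp (not_lt.1 h1))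
          obtain ⟨p, -, hp1, hp2⟩ := hpre _ _ isOpen_ball isOpen_ball hsub
            ⟨x, left_mem_segment ℝ x y, hk⟩ ⟨y, right_mem_segment ℝ x y, hl⟩
          rw [mem_ball] at hp1 hp2
          exact hkl (uniq (by linarith [rad_pos k]) hp2)
        have hxp : dist x p ≤ dist x y := by
          have := dist_add_dist_of_mem_segment hp1
          linarith [dist_nonneg (x := p) (y := y)]
        have hpy : dist p y ≤ dist x y := by
          have := dist_add_dist_of_mem_segment hp1
          linarith [dist_nonneg (x := x) (y := p)]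
        have h1 := G_holder k x p
        have h2 := G_holder l p y
        rw [G_id hp2] at h1
        rw [G_id hp3] at h2
        rw [fx, fy]
        have h3 : dist x p ^ (3 / 4 : ℝ) ≤ dist x y ^ (3 / 4 : ℝ) := by gcongr
        have h4 : dist p y ^ (3 / 4 : ℝ) ≤ dist x y ^ (3 / 4 : ℝ) := by gcongr
        have := dist_triangle (G k x) p (G l y)
        linarith
    · push Not at hy
      rw [fx, f_id hy]
      have := G_holder k x y
      rw [G_id (hy k)] at this
      linarith
  · push Not at hx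
    rw [f_id hx]
    by_cases hy : ∃ l, dist y (ctr l) < rad l
    · obtain ⟨l, hl⟩ := hy
      have fy : f y = G l y := f_eq (by linarith [rad_pos l])
      rw [fy]
      have := G_holder l x y
      rw [G_id (hx l)] at this
      linarith
    · push Not at hy
      rw [f_id hy]
      linarith

theorem f_holder_compact : ∀ K ⊆ (univ : Set P), IsCompact K → ∃ C : ℝ, ∀ x ∈ K, ∀ y ∈ K,
        dist (f x) (f y) ≤ C * dist x y ^ (3 / 4 : ℝ) := by
  intro K _ hK
  obtain ⟨D, hD⟩ := hK.isBounded.subset_closedBall (0 : P)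
  have hD' : ∀ x ∈ K, ∀ y ∈ K, dist x y ≤ 2 * |D| := by
    intro x hx y hy
    have h1 := mem_closedBall.1 (hD hx)
    have h2 := mem_closedBall.1 (hD hy)
    have := dist_triangle_right x y 0
    have := le_abs_self D
    linarith
  refine ⟨8 * ((2 * |D|) ^ (1 / 4 : ℝ) + 1), fun x hx y hy => ?_⟩
  have h := f_holder x y
  have hd := dist_nonneg (x := x) (y := y)
  have h1 : dist x y ≤ (2 * |D|) ^ (1 / 4 : ℝ) * dist x y ^ (3 / 4 : ℝ) := by
    have h2 : dist x y = dist x y ^ (1 / 4 : ℝ) * dist x y ^ (3 / 4 : ℝ) := by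
      rw [← Real.rpow_add_of_nonneg hd (by norm_num) (by norm_num)]
      norm_num
    nth_rewrite 1 [h2]
    have h3 : dist x y ^ (1 / 4 : ℝ) ≤ (2 * |D|) ^ (1 / 4 : ℝ) :=
      Real.rpow_le_rpow hd (hD' x hx y hy) (by norm_num)
    gcongr
  calc dist (f x) (f y) ≤ 8 * (dist x y + dist x y ^ (3 / 4 : ℝ)) := h
    _ ≤ 8 * ((2 * |D|) ^ (1 / 4 : ℝ) * dist x y ^ (3 / 4 : ℝ) + dist x y ^ (3 / 4 : ℝ)) := by
        gcongr
    _ = _ := by ring

/-- the inner disc -/
noncomputable def D (k : ℕ) : Set P := ball (ctr k) (rad k ^ 2)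

theorem f_on_D {k : ℕ} {x : P} (hx : x ∈ D k) : f x = ctr k + (q k) • (x - ctr k) := by
  have h1 : dist x (ctr k) < rad k ^ 2 := hx
  have hr := rad_pos k
  have hr1 := rad_le_one k
  have h2 : rad k ^ 2 ≤ rad k := by nlinarith
  rw [f_eq (k := k) (by linarith)]
  unfold G
  rw [F_inner hr, sqrt_rad, inv_inv]
  rw [← dist_eq_norm]
  exact h1.le

theorem weak_on_D {k : ℕ} {g : P → P →L[ℝ] P} (hg : LocallyIntegrableOn g univ)
    (hw : ∀ φ : P → ℝ, ContDiff ℝ (⊤ : ℕ∞) φ → HasCompactSupport φ → tsupport φ ⊆ univ →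
        ∀ v : P, ∫ x, (fderiv ℝ φ x v) • f x = - ∫ x, φ x • (g x v)) :
    ∀ᵐ x : P, x ∈ D k → g x e0 = (q k) • e0 := by
  have hloc : LocallyIntegrable g := locallyIntegrableOn_univ.1 hg
  have hgv : LocallyIntegrable (fun x => g x e0) := by
    have hL := (ContinuousLinearMap.apply ℝ P e0)
    intro x
    obtain ⟨U, hU, hi⟩ := hloc x
    refine ⟨U, hU, ?_⟩
    exact (ContinuousLinearMap.apply ℝ P e0).integrable_comp hi
  have hconst : LocallyIntegrable (fun _ : P => (q k) • e0) := locallyIntegrable_const _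
  have hsub : LocallyIntegrable (fun x => g x e0 - (q k) • e0) := hgv.sub hconst
  have key := IsOpen.ae_eq_zero_of_integral_contDiff_smul_eq_zero (μ := (volume : Measure P))
    (U := D k) (f := fun x => g x e0 - (q k) • e0) isOpen_ball (hsub.locallyIntegrableOn _) ?_
  · filter_upwards [key] with x hx hxD
    exact sub_eq_zero.1 (hx hxD)
  intro φ hφ hφc hφD
  have hφ1 : ContDiff ℝ 1 φ := hφ.of_le (by exact_mod_cast le_top)
  set A : P → P := fun x => ctr k + (q k) • (x - ctr k) with hA
  have hAd : ∀ x, HasFDerivAt A ((q k) • ContinuousLinearMap.id ℝ P) x := by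
    intro x
    have h1 : HasFDerivAt (fun x : P => x - ctr k) (ContinuousLinearMap.id ℝ P) x :=
      (hasFDerivAt_id x).sub_const _
    exact (h1.const_smul (q k)).const_add _
  have hAc : Continuous A := by rw [hA]; fun_prop
  have hfd : Continuous (fun x => fderiv ℝ φ x e0) :=
    (hφ1.continuous_fderiv (by norm_num)).clm_apply continuous_const
  have hfds : HasCompactSupport (fun x => fderiv ℝ φ x e0) := by
    have := hφc.fderiv (𝕜 := ℝ)
    exact this.mono' (fun x hx => by
      have : fderiv ℝ φ x ≠ 0 := by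
        intro h0
        apply hx
        simp [h0]
      exact subset_tsupport _ this)
  -- replace f by A
  have h1 : ∫ x, (fderiv ℝ φ x e0) • f x = ∫ x, (fderiv ℝ φ x e0) • A x := by
    congr 1
    funext x
    by_cases hx : x ∈ D k
    · rw [f_on_D hx]
    · have : fderiv ℝ φ x = 0 := by
        by_contra h
        exact hx (hφD (tsupport_fderiv_subset ℝ (subset_tsupport _ h)))
      simp [this]
  have h2 := integral_smul_fderiv_eq_neg_fderiv_smul_of_integrable
    (μ := (volume : Measure P)) (f := φ) (g := A) (v := e0)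
    ((hfd.smul hAc).integrable_of_hasCompactSupport (hfds.smul_right))
    (by
      have : (fun x => φ x • (fderiv ℝ A x) e0) = fun x => φ x • ((q k) • e0) := by
        funext x
        rw [(hAd x).fderiv]
        simp
      rw [this]
      exact (hφ1.continuous.smul continuous_const).integrable_of_hasCompactSupport hφc.smul_right)
    ((hφ1.continuous.smul hAc).integrable_of_hasCompactSupport hφc.smul_right)
    (fun x _ => hφ1.differentiable (by norm_num) x) (fun x _ => (hAd x).differentiableAt)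
  have h3 : ∀ x, (fderiv ℝ A x) e0 = (q k) • e0 := by
    intro x
    rw [(hAd x).fderiv]
    simp
  simp_rw [h3] at h2
  have h4 := hw φ hφ hφc (subset_univ _) e0
  rw [h1] at h4
  have h5 : ∫ x, φ x • (g x e0) = ∫ x, φ x • ((q k) • e0) := by
    rw [h2, h4, neg_neg]
  simp_rw [smul_sub]
  rw [integral_sub, h5, sub_self]
  · exact hgv.integrable_smul_left_of_hasCompactSupport hφ1.continuous hφc
  · exact (hφ1.continuous.smul continuous_const).integrable_of_hasCompactSupport hφc.smul_right

theorem D_meas (k : ℕ) : MeasurableSet (D k) := measurableSet_ball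

theorem D_disj : Pairwise (Function.onFun Disjoint D) := by
  intro k l hkl
  rw [Function.onFun, Set.disjoint_left]
  intro x hk hl
  have h1 : dist x (ctr k) < rad k ^ 2 := hk
  have h2 : dist x (ctr l) < rad l ^ 2 := hl
  have h3 : rad k ^ 2 ≤ rad k := by nlinarith [rad_pos k, rad_le_one k]
  have h4 : rad l ^ 2 ≤ rad l := by nlinarith [rad_pos l, rad_le_one l]
  exact hkl (uniq (by linarith [rad_pos k]) (by linarith))

theorem D_sub : (⋃ k, D k) ⊆ closedBall (0 : P) 2 := by
  intro x hx
  obtain ⟨k, hk⟩ := mem_iUnion.1 hx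
  have h1 : dist x (ctr k) < rad k ^ 2 := hk
  have h3 : rad k ^ 2 ≤ 1 := by nlinarith [rad_pos k, rad_le_one k]
  have h4 : ‖ctr k‖ ≤ 1 := by
    rw [norm_ctr]
    apply inv_le_one_of_one_le₀
    have : (0 : ℝ) ≤ k := Nat.cast_nonneg k
    linarith
  rw [mem_closedBall]
  have := dist_triangle x (ctr k) 0
  rw [dist_zero_right (ctr k)] at this
  linarith

/-- The negation of the preceding statement: For n≥2, every injective continuous map on an open set of ℝⁿ with bounded linear dilatation that is locally α-Hölder has a locally p-integrable weak derivative on that set for every p with n<p<n/(1−α). -/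
theorem result :
    ¬ (∀ (n : ℕ), 2 ≤ n →
  ∀ (Ω : Set (EuclideanSpace ℝ (Fin n))), IsOpen Ω →
  ∀ (f : EuclideanSpace ℝ (Fin n) → EuclideanSpace ℝ (Fin n)),
    ContinuousOn f Ω → Set.InjOn f Ω →
    (∃ H : ℝ, ∀ x ∈ Ω, ∀ᶠ r in nhdsWithin (0:ℝ) (Set.Ioi 0),
        ∀ y z : EuclideanSpace ℝ (Fin n), dist y x = r → dist z x = r →
          dist (f y) (f x) ≤ H * dist (f z) (f x)) →
  ∀ α : ℝ, 0 < α → α ≤ 1 →
    (∀ K ⊆ Ω, IsCompact K → ∃ C : ℝ, ∀ x ∈ K, ∀ y ∈ K,
        dist (f x) (f y) ≤ C * dist x y ^ α) →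
  ∀ p : ℝ, (n : ℝ) < p → p * (1 - α) < (n : ℝ) →
    ∃ g : EuclideanSpace ℝ (Fin n) →
        (EuclideanSpace ℝ (Fin n) →L[ℝ] EuclideanSpace ℝ (Fin n)),
      MeasureTheory.LocallyIntegrableOn g Ω ∧
      (∀ K ⊆ Ω, IsCompact K → ∫⁻ x in K, ENNReal.ofReal ‖g x‖ ^ p < ⊤) ∧
      ∀ φ : EuclideanSpace ℝ (Fin n) → ℝ, ContDiff ℝ (⊤ : ℕ∞) φ →
        HasCompactSupport φ → tsupport φ ⊆ Ω →
        ∀ v : EuclideanSpace ℝ (Fin n),
          ∫ x, (fderiv ℝ φ x v) • f x = - ∫ x, φ x • (g x v)) := by
  intro hyp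
  obtain ⟨g, hg1, hg2, hg3⟩ := hyp 2 le_rfl univ isOpen_univ f f_cont.continuousOn
    f_inj.injOn f_dil (3 / 4) (by norm_num) (by norm_num) f_holder_compact 7 (by norm_num)
    (by norm_num)
  have h1 := hg2 (closedBall 0 2) (subset_univ _) (isCompact_closedBall _ _)
  have h2 : ∫⁻ x in ⋃ k, D k, ENNReal.ofReal ‖g x‖ ^ (7 : ℝ) ≤
      ∫⁻ x in closedBall (0 : P) 2, ENNReal.ofReal ‖g x‖ ^ (7 : ℝ) :=
    lintegral_mono_set D_sub
  rw [lintegral_iUnion D_meas D_disj] at h2
  have h3 : ∀ k : ℕ, ENNReal.ofReal (Real.pi / 4 * (1 / ((k : ℝ) + 1))) ≤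
      ∫⁻ x in D k, ENNReal.ofReal ‖g x‖ ^ (7 : ℝ) := by
    intro k
    have hq := q_pos k
    have h4 : ∫⁻ _ in D k, ENNReal.ofReal (q k ^ 7) ≤
        ∫⁻ x in D k, ENNReal.ofReal ‖g x‖ ^ (7 : ℝ) := by
      apply setLIntegral_mono_ae' measurableSet_ball
      filter_upwards [weak_on_D (k := k) hg1 hg3] with x hx hxD
      have h5 := hx hxD
      have h6 : q k ≤ ‖g x‖ := by
        have := (g x).le_opNorm e0
        rw [h5, norm_e0, mul_one, norm_smul, norm_e0, mul_one, Real.norm_eq_abs,
          abs_of_pos hq] at this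
        exact this
      rw [show (7 : ℝ) = ((7 : ℕ) : ℝ) by norm_num, ENNReal.rpow_natCast,
        ← ENNReal.ofReal_pow (norm_nonneg _)]
      apply ENNReal.ofReal_le_ofReal
      gcongr
    refine le_trans (le_of_eq ?_) h4
    rw [lintegral_const, Measure.restrict_apply_univ]
    unfold D
    rw [EuclideanSpace.volume_ball_fin_two, ← ENNReal.ofReal_pow (by positivity),
      ← ENNReal.ofReal_mul (by positivity), ← ENNReal.ofReal_mul (by positivity)]
    congr 1
    have hk : ((k : ℝ) + 1) ≠ 0 := by positivity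
    unfold rad q
    field_simp
  have h4 : (∑' k : ℕ, ENNReal.ofReal (Real.pi / 4 * (1 / ((k : ℝ) + 1)))) = ⊤ := by
    by_contra hne
    have hs : Summable (fun k : ℕ => Real.pi / 4 * (1 / ((k : ℝ) + 1))) := by
      have := ENNReal.summable_toReal hne
      refine this.congr fun k => ?_
      rw [ENNReal.toReal_ofReal]
      positivity
    have hs2 : Summable (fun k : ℕ => 1 / ((k : ℝ) + 1)) := by
      have := hs.mul_left (4 / Real.pi)
      refine this.congr fun k => ?_
      have := Real.pi_pos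
      field_simp
    have h5 := Real.tendsto_sum_range_one_div_nat_succ_atTop
    exact not_tendsto_nhds_of_tendsto_atTop h5 _ hs2.hasSum.tendsto_sum_nat
  have h5 : (⊤ : ℝ≥0∞) ≤ ∫⁻ x in closedBall (0 : P) 2, ENNReal.ofReal ‖g x‖ ^ (7 : ℝ) := by
    rw [← h4]
    exact (ENNReal.tsum_le_tsum h3).trans h2
  exact absurd h1 (not_lt.2 h5)

end Pool.Agent.S02646
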