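import Pool.Statements.S02652
import Pool.Agent.H959R2.Wed.Final

set_option autoImplicit false
open Pool Pool.MP_0cfab1_an

namespace Pool.Agent.S02652

/-- The negation of the preceding statement: For every non-discrete LCA group G and compact Helson set E that is not of synthesis, there is an algebra splitting of C(E) into A(G)/J_E lifting restriction to E, i.e. A(G)/J_E = M ⊕ I_E/J_E for a subalgebra M. -/
theorem result :
    ¬ (∀ (G : Type) [CommGroup G] [TopologicalSpace G] [IsTopologicalGroup G]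
    [LocallyCompactSpace G] [T2Space G],
    ¬ DiscreteTopology G →
    ∀ [MeasurableSpace (PontryaginDual G)] [BorelSpace (PontryaginDual G)]
      (μ : MeasureTheory.Measure (PontryaginDual G)) [μ.IsHaarMeasure],
    ∀ (inA : (G → ℂ) → Prop),
      (∀ f, inA f ↔ ∃ φ : PontryaginDual G → ℂ, MeasureTheory.Integrable φ μ ∧
        ∀ x, f x = ∫ χ, φ χ * ((χ x : Circle) : ℂ) ∂μ) →
    ∀ (E : Set G), IsCompact E →
    ∀ (J : (G → ℂ) → Prop),
      (∀ f, J f ↔ ∀ ε : ℝ, 0 < ε → ∃ g : G → ℂ, inA g ∧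
        (∃ U : Set G, IsOpen U ∧ E ⊆ U ∧ ∀ x ∈ U, g x = 0) ∧
        ∃ φ : PontryaginDual G → ℂ, MeasureTheory.Integrable φ μ ∧
          ∫ χ, ‖φ χ‖ ∂μ < ε ∧
          ∀ x, f x - g x = ∫ χ, φ χ * ((χ x : Circle) : ℂ) ∂μ) →
    (∀ u : C(↥E, ℂ), ∃ f, inA f ∧ ∀ x (hx : x ∈ E), f x = u ⟨x, hx⟩) →
    (∃ f, inA f ∧ (∀ x ∈ E, f x = 0) ∧ ¬ J f) →
    ∃ θ : C(↥E, ℂ) → (G → ℂ),
      (∀ u, inA (θ u)) ∧
      (∀ u x (hx : x ∈ E), θ u x = u ⟨x, hx⟩) ∧
      (∀ u v, J (θ (u + v) - θ u - θ v)) ∧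
      (∀ (c : ℂ) u, J (θ (c • u) - c • θ u)) ∧
      (∀ u v, J (θ (u * v) - θ u * θ v))) := by
  intro H
  classical
  obtain ⟨D⟩ := H959.Wed.exists_data
  have hnd : ¬ DiscreteTopology H959.Wed.G := by
    intro h
    have h1 : Finite H959.Wed.G := finite_of_compact_of_discrete
    have h2 : Nontrivial ℤˣ := ⟨⟨1, -1, by decide⟩⟩
    have h3 : Infinite (ℕ → ℤˣ) := Pi.infinite_of_left
    exact not_finite (ℕ → ℤˣ)
  let inA : (H959.Wed.G → ℂ) → Prop := fun f => ∃ φ : PontryaginDual H959.Wed.G → ℂ,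
    MeasureTheory.Integrable φ MeasureTheory.Measure.count ∧
      ∀ x, f x = ∫ χ, φ χ * ((χ x : Circle) : ℂ) ∂MeasureTheory.Measure.count
  let J : (H959.Wed.G → ℂ) → Prop := fun f => ∀ ε : ℝ, 0 < ε → ∃ g : H959.Wed.G → ℂ, inA g ∧
        (∃ U : Set H959.Wed.G, IsOpen U ∧ D.E ⊆ U ∧ ∀ x ∈ U, g x = 0) ∧
        ∃ φ : PontryaginDual H959.Wed.G → ℂ,
          MeasureTheory.Integrable φ MeasureTheory.Measure.count ∧
          ∫ χ, ‖φ χ‖ ∂MeasureTheory.Measure.count < ε ∧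
          ∀ x, f x - g x = ∫ χ, φ χ * ((χ x : Circle) : ℂ) ∂MeasureTheory.Measure.count
  have hinA : ∀ f, inA f ↔ ∃ c, H959.Wed.NA f c := by
    intro f
    constructor
    · rintro ⟨φ, h1, h2⟩
      exact ⟨_, (H959.Wed.NA_iff f _).2 ⟨φ, h1, le_refl _, h2⟩⟩
    · rintro ⟨c, hc⟩
      obtain ⟨φ, h1, -, h2⟩ := (H959.Wed.NA_iff f c).1 hc
      exact ⟨φ, h1, h2⟩
  have hJ : ∀ f, J f → D.J' f := by
    intro f hf ε hε
    obtain ⟨g, -, ⟨U, hU, hEU, hg⟩, φ, h1, h2, h3⟩ := hf ε hε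
    refine ⟨fun x => f x - g x, (H959.Wed.NA_iff _ _).2 ⟨φ, h1, h2.le, h3⟩, U, hU, hEU, ?_⟩
    intro x hx
    beta_reduce
    rw [hg x hx, sub_zero]
  obtain ⟨θ, h1, h2, h3, h4, h5⟩ := H H959.Wed.G hnd MeasureTheory.Measure.count inA
    (fun f => Iff.rfl) D.E D.isCompact_E J (fun f => Iff.rfl)
    (by
      intro u
      obtain ⟨f, hf1, hf2⟩ := D.helson u
      exact ⟨f, (hinA f).2 hf1, fun x hx => hf2 ⟨x, hx⟩⟩)
    (by
      obtain ⟨f, hf1, hf2, hf3⟩ := D.non_synthesis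
      exact ⟨f, (hinA f).2 hf1, hf2, fun h => hf3 (hJ f h)⟩)
  exact H959.Wed.Data.no_split D
    { θ := θ
      t1 := fun u => (hinA _).1 (h1 u)
      t2 := h2
      t3 := fun u v => hJ _ (h3 u v)
      t4 := fun c u => hJ _ (h4 c u)
      t5 := fun u v => hJ _ (h5 u v) }


end Pool.Agent.S02652
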