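import Pool.Statements.S02660
-- import your own Pool.Agent.* helpers here
import Pool.Agent.H806R2.UM6

set_option autoImplicit false
open Pool Pool.MP_0dbd65_an

namespace Pool.Agent.S02660

open Filter Topology in
/-- A unique-maximum space of dimension at least three gives a forbidden selection. -/
theorem main_aux (g : Fin 3 → ContinuousMap ℝ ℝ) (V : Submodule ℝ (ContinuousMap ℝ ℝ))
    (hg : ∀ i, g i ∈ V) (hli : LinearIndependent ℝ g)
    (hV : ∀ f ∈ V, f ≠ 0 → ∃! x : ℝ, ∀ y : ℝ, f y ≤ f x) : False := by
  classical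
  let T : (Fin 3 → ℝ) → ContinuousMap ℝ ℝ := fun u => ∑ i, u i • g i
  have hTV : ∀ u, T u ∈ V := fun u => V.sum_mem fun i _ => V.smul_mem _ (hg i)
  have hT0 : ∀ u, u ≠ 0 → T u ≠ 0 := by
    intro u hu h0
    apply hu
    funext i
    exact Fintype.linearIndependent_iff.mp hli u h0 i
  have hTapp : ∀ u y, T u y = ∑ i, u i * g i y := by
    intro u y
    simp [T]
  have hTadd : ∀ u v y, T (u + v) y = T u y + T v y := by
    intro u v y
    simp only [hTapp, Pi.add_apply, add_mul, Finset.sum_add_distrib]
  have hTsmul : ∀ (t : ℝ) u y, T (t • u) y = t * T u y := by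
    intro t u y
    simp only [hTapp, Pi.smul_apply, smul_eq_mul, Finset.mul_sum, mul_assoc]
  have hex : ∀ u : Fin 3 → ℝ, ∃ x : ℝ, u ≠ 0 →
      (∀ y, T u y ≤ T u x) ∧ ∀ z, (∀ y, T u y ≤ T u z) → z = x := by
    intro u
    by_cases hu : u = 0
    · exact ⟨0, fun h => absurd hu h⟩
    · obtain ⟨x, hx1, hx2⟩ := hV _ (hTV u) (hT0 u hu)
      exact ⟨x, fun _ => ⟨hx1, hx2⟩⟩
  choose φ hφ using hex
  have hsel : Pool.Agent.H806R2.UM.Sel φ := by
    refine ⟨?_, ?_, ?_⟩
    · intro v hv u x hu hx
      symm
      apply (hφ v hv).2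
      intro y
      have h1 : Tendsto (fun k => T (u k) y) atTop (𝓝 (T v y)) := by
        simp only [hTapp]
        apply tendsto_finsetSum
        intro i _
        exact ((tendsto_pi_nhds.mp hu) i).mul tendsto_const_nhds
      have h2 : Tendsto (fun k => T (u k) (φ (u k))) atTop (𝓝 (T v x)) := by
        simp only [hTapp]
        apply tendsto_finsetSum
        intro i _
        exact ((tendsto_pi_nhds.mp hu) i).mul (((g i).continuous.tendsto x).comp hx)
      apply le_of_tendsto_of_tendsto h1 h2
      filter_upwards [hu.eventually_ne hv] with k hk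
      exact (hφ (u k) hk).1 y
    · intro v w hv hw hvw
      obtain ⟨h1, h2⟩ := hφ v hv
      obtain ⟨h3, h4⟩ := hφ w hw
      have hne : v + w ≠ 0 := by
        intro h0
        have hz : ∀ y, T v y + T w y = 0 := by
          intro y
          rw [← hTadd, h0, hTapp]
          simp
        have hconst : ∀ y, T v y = T v (φ v) := by
          intro y
          apply le_antisymm (h1 y)
          have h5 := h3 y
          rw [← hvw] at h5
          have h6 := hz y
          have h7 := hz (φ v)
          linarith
        have := h2 (φ v + 1) (fun y => by rw [hconst y, hconst (φ v + 1)])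
        linarith
      refine ⟨hne, ?_⟩
      symm
      apply (hφ _ hne).2
      intro y
      rw [hTadd, hTadd]
      have h5 := h3 y
      rw [← hvw] at h5
      exact add_le_add (h1 y) h5
    · intro t v ht hv
      have hne : t • v ≠ 0 := smul_ne_zero ht.ne' hv
      symm
      apply (hφ _ hne).2
      intro y
      rw [hTsmul, hTsmul]
      exact mul_le_mul_of_nonneg_left ((hφ v hv).1 y) ht.le
  exact Pool.Agent.H806R2.UM.no_sel (by simp) hsel

/-- The negation of the preceding statement: There exist n > 2 and an n-dimensional real vector subspace of continuous functions ℝ → ℝ in which every nonzero function attains its global maximum at exactly one point. -/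
theorem result :
    ¬ (∃ n : ℕ, 2 < n ∧ ∃ V : Submodule ℝ (ContinuousMap ℝ ℝ),
      Module.finrank ℝ V = n ∧
      ∀ f ∈ V, f ≠ 0 → ∃! x : ℝ, ∀ y : ℝ, f y ≤ f x) := by
  rintro ⟨n, hn, V, hfr, hV⟩
  have hfin : Module.Finite ℝ V := Module.finite_of_finrank_pos (by omega)
  let b := Module.finBasis ℝ V
  have hle : 3 ≤ Module.finrank ℝ V := by omega
  have hli : LinearIndependent ℝ (fun i : Fin 3 => b (Fin.castLE hle i)) :=
    b.linearIndependent.comp _ (Fin.castLE_injective hle)
  have hli2 : LinearIndependent ℝ (fun i : Fin 3 => (b (Fin.castLE hle i) : ContinuousMap ℝ ℝ)) := by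
    have := hli.map' V.subtype (Submodule.ker_subtype V)
    exact this
  exact main_aux _ V (fun i => (b (Fin.castLE hle i)).2) hli2 hV

end Pool.Agent.S02660
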