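import Pool.Statements.S02748

set_option autoImplicit false
open Pool Pool.MP_1a961d_an

namespace Pool.Agent.S02748

open scoped ENNReal

/-- `ℓ²(ι)` -/
abbrev L2 (ι : Type) : Type := lp (fun _ : ι => ℂ) 2

section Weighted

variable {ι κ : Type}

/-- the function underlying the weighted partial composition operator -/
def wfun (g : ι → Option κ) (w : ι → ℝ) (f : κ → ℂ) (i : ι) : ℂ :=
  match g i with
  | none => 0
  | some k => (w i : ℂ) * f k

lemma wfun_norm_sq_le (g : ι → Option κ) (w : ι → ℝ) (hw : ∀ i, |w i| ≤ 1) (f : κ → ℂ) (i : ι) :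
    ‖wfun g w f i‖ ^ 2 ≤ (match g i with | none => 0 | some k => ‖f k‖ ^ 2) := by
  unfold wfun
  cases h : g i with
  | none => simp
  | some k =>
    simp only [norm_mul, Complex.norm_real, Real.norm_eq_abs]
    rw [mul_pow]
    have h1 : |w i| ^ 2 ≤ 1 := by
      have := hw i
      have h0 := abs_nonneg (w i)
      nlinarith
    nlinarith [sq_nonneg ‖f k‖]

lemma sum_le (g : ι → Option κ) (hg : ∀ i i' k, g i = some k → g i' = some k → i = i')
    (f : L2 κ) (s : Finset ι) :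
    ∑ i ∈ s, (match g i with | none => (0 : ℝ) | some k => ‖f k‖ ^ 2) ≤ ‖f‖ ^ 2 := by
  classical
  have h1 : ∑ i ∈ s, (match g i with | none => (0 : ℝ) | some k => ‖f k‖ ^ 2)
      = ∑ i ∈ s.filter (fun i => (g i).isSome),
        (match g i with | none => (0 : ℝ) | some k => ‖f k‖ ^ 2) := by
    rw [Finset.sum_filter]
    apply Finset.sum_congr rfl
    intro i _
    cases h : g i <;> simp
  rw [h1]
  have h2 : ∑ i ∈ s.filter (fun i => (g i).isSome),
        (match g i with | none => (0 : ℝ) | some k => ‖f k‖ ^ 2)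
      = ∑ i ∈ (s.filter (fun i => (g i).isSome)).attach,
        ‖f ((g i.1).get (Finset.mem_filter.1 i.2).2)‖ ^ 2 := by
    rw [← Finset.sum_attach]
    apply Finset.sum_congr rfl
    intro i _
    have hi := (Finset.mem_filter.1 i.2).2
    obtain ⟨k, hk⟩ := Option.isSome_iff_exists.1 hi
    simp only [hk, Option.get_some]
  rw [h2]
  have hinj : Set.InjOn (fun i : {x // x ∈ s.filter (fun i => (g i).isSome)} =>
      (g i.1).get (Finset.mem_filter.1 i.2).2)
      ((s.filter (fun i => (g i).isSome)).attach : Set _) := by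
    intro i _ i' _ h
    apply Subtype.ext
    apply hg _ _ _ (Option.some_get (Finset.mem_filter.1 i.2).2).symm
    have h3 : (g i.1).get (Finset.mem_filter.1 i.2).2 = (g i'.1).get (Finset.mem_filter.1 i'.2).2 := h
    rw [h3]
    exact (Option.some_get (Finset.mem_filter.1 i'.2).2).symm
  rw [← Finset.sum_image (f := fun k => ‖f k‖ ^ 2) hinj]
  have h4 := lp.sum_rpow_le_norm_rpow (p := 2) (by norm_num) f
    (Finset.image (fun i : {x // x ∈ s.filter (fun i => (g i).isSome)} =>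
      (g i.1).get (Finset.mem_filter.1 i.2).2) (s.filter (fun i => (g i).isSome)).attach)
  simpa using h4

lemma wfun_mem (g : ι → Option κ) (hg : ∀ i i' k, g i = some k → g i' = some k → i = i')
    (w : ι → ℝ) (hw : ∀ i, |w i| ≤ 1) (f : L2 κ) : Memℓp (wfun g w f) 2 := by
  apply memℓp_gen' (C := ‖f‖ ^ 2)
  intro s
  simp only [ENNReal.toReal_ofNat, Real.rpow_ofNat]
  exact (Finset.sum_le_sum (fun i _ => wfun_norm_sq_le g w hw f i)).trans (sum_le g hg f s)

/-- weighted partial composition operator -/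
noncomputable def wc (g : ι → Option κ) (hg : ∀ i i' k, g i = some k → g i' = some k → i = i')
    (w : ι → ℝ) (hw : ∀ i, |w i| ≤ 1) : L2 κ →L[ℂ] L2 ι :=
  LinearMap.mkContinuous
    { toFun := fun f => ⟨wfun g w f, wfun_mem g hg w hw f⟩
      map_add' := by
        intro f f'
        ext i
        simp only [lp.coeFn_add, Pi.add_apply, wfun]
        cases g i with
        | none => simp
        | some k => simp [mul_add]
      map_smul' := by
        intro c f
        ext i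
        simp only [lp.coeFn_smul, Pi.smul_apply, wfun, RingHom.id_apply, smul_eq_mul]
        cases g i with
        | none => simp
        | some k => simp; ring } 1
    (by
      intro f
      rw [one_mul]
      apply lp.norm_le_of_forall_sum_le (by norm_num) (norm_nonneg _)
      intro s
      simp only [ENNReal.toReal_ofNat, Real.rpow_ofNat]
      exact (Finset.sum_le_sum (fun i _ => wfun_norm_sq_le g w hw f i)).trans (sum_le g hg f s))

lemma wc_apply (g : ι → Option κ) (hg : ∀ i i' k, g i = some k → g i' = some k → i = i')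
    (w : ι → ℝ) (hw : ∀ i, |w i| ≤ 1) (f : L2 κ) (i : ι) :
    wc g hg w hw f i = (match g i with | none => 0 | some k => (w i : ℂ) * f k) := rfl

end Weighted

/-- the inequality satisfied by every subnormal operator -/
lemma subnormal_ineq {H : Type} [NormedAddCommGroup H] [InnerProductSpace ℂ H] [CompleteSpace H]
    (A : H →L[ℂ] H)
    (h : ∃ (K : Type) (_ : NormedAddCommGroup K) (_ : InnerProductSpace ℂ K) (_ : CompleteSpace K)
          (V : H →L[ℂ] K) (N : K →L[ℂ] K),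
          (∀ x : H, ‖V x‖ = ‖x‖) ∧ IsStarNormal N ∧ N.comp V = V.comp A) (x : H) :
    ‖A x‖ ^ 2 ≤ ‖A (A x)‖ * ‖x‖ := by
  obtain ⟨K, _, _, _, V, N, hV, hN, hNV⟩ := h
  have h1 : ∀ y, N (V y) = V (A y) := fun y => by
    have := congrArg (fun F : H →L[ℂ] K => F y) hNV
    simpa using this
  have hadj : ∀ z : K, ‖(ContinuousLinearMap.adjoint N) z‖ = ‖N z‖ := by
    intro z
    have h2 : (ContinuousLinearMap.adjoint N) (N z) = N ((ContinuousLinearMap.adjoint N) z) := by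
      have := congrArg (fun F : K →L[ℂ] K => F z) hN.star_comm_self.eq
      simpa [ContinuousLinearMap.star_eq_adjoint] using this
    have h3 : ‖(ContinuousLinearMap.adjoint N) z‖ ^ 2 = ‖N z‖ ^ 2 := by
      have e1 : (inner ℂ ((ContinuousLinearMap.adjoint N) z) ((ContinuousLinearMap.adjoint N) z) : ℂ)
          = inner ℂ (N z) (N z) := by
        rw [ContinuousLinearMap.adjoint_inner_left, ← h2, ContinuousLinearMap.adjoint_inner_right]
      rw [@norm_sq_eq_re_inner ℂ, @norm_sq_eq_re_inner ℂ]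
      exact congrArg Complex.re e1
    exact (sq_eq_sq₀ (norm_nonneg _) (norm_nonneg _)).1 h3
  have h4 : ‖A x‖ ^ 2 = ‖N (V x)‖ ^ 2 := by rw [h1, hV]
  rw [h4]
  have h5 : ‖N (V x)‖ ^ 2 = (inner ℂ ((ContinuousLinearMap.adjoint N) (N (V x))) (V x) : ℂ).re := by
    rw [ContinuousLinearMap.adjoint_inner_left]
    exact norm_sq_eq_re_inner (𝕜 := ℂ) _
  rw [h5]
  calc (inner ℂ ((ContinuousLinearMap.adjoint N) (N (V x))) (V x) : ℂ).re
      ≤ ‖(inner ℂ ((ContinuousLinearMap.adjoint N) (N (V x))) (V x) : ℂ)‖ := Complex.re_le_norm _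
    _ ≤ ‖(ContinuousLinearMap.adjoint N) (N (V x))‖ * ‖V x‖ := norm_inner_le_norm _ _
    _ = ‖A (A x)‖ * ‖x‖ := by rw [hadj, h1, h1, hV, hV]

/-- partial maps -/
def gS (p : ℕ × ℕ) : Option (ℕ × ℕ) :=
  match p.1 with
  | 0 => none
  | i + 1 => some (i, p.2)

def gT (p : ℕ × ℕ) : Option (ℕ × ℕ) :=
  match p.2 with
  | 0 => none
  | j + 1 => some (p.1, j)

def gV (p : ℤ × ℕ) : Option (ℕ × ℕ) :=
  match p.1 with
  | Int.ofNat i => some (i, p.2)
  | Int.negSucc _ => none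

def gW (p : ℤ × ℕ) : Option (ℕ × ℕ) :=
  match p.1 with
  | Int.ofNat i => some (p.2, i)
  | Int.negSucc _ => none

def gN (p : ℤ × ℕ) : Option (ℤ × ℕ) := some (p.1 - 1, p.2)

def gM (p : ℤ × ℕ) : Option (ℤ × ℕ) := some (p.1 + 1, p.2)

noncomputable def wS (p : ℕ × ℕ) : ℝ := (1 / 2) ^ p.2
noncomputable def wT (p : ℕ × ℕ) : ℝ := (1 / 2) ^ p.1
noncomputable def wN (p : ℤ × ℕ) : ℝ := (1 / 2) ^ p.2

lemma half_pow_le (j : ℕ) : |((1 : ℝ) / 2) ^ j| ≤ 1 := by
  rw [abs_pow, abs_of_pos (by norm_num : (0:ℝ) < 1 / 2)]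
  exact pow_le_one₀ (by norm_num) (by norm_num)

lemma gS_inj : ∀ i i' k, gS i = some k → gS i' = some k → i = i' := by
  rintro ⟨a, b⟩ ⟨a', b'⟩ ⟨k, l⟩ h h'
  unfold gS at h h'
  rcases a with _ | a <;> rcases a' with _ | a' <;> simp_all

lemma gT_inj : ∀ i i' k, gT i = some k → gT i' = some k → i = i' := by
  rintro ⟨a, b⟩ ⟨a', b'⟩ ⟨k, l⟩ h h'
  unfold gT at h h'
  rcases b with _ | b <;> rcases b' with _ | b' <;> simp_all

lemma gV_inj : ∀ i i' k, gV i = some k → gV i' = some k → i = i' := by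
  rintro ⟨a, b⟩ ⟨a', b'⟩ ⟨k, l⟩ h h'
  unfold gV at h h'
  rcases a with a | a <;> rcases a' with a' | a' <;> simp_all

lemma gW_inj : ∀ i i' k, gW i = some k → gW i' = some k → i = i' := by
  rintro ⟨a, b⟩ ⟨a', b'⟩ ⟨k, l⟩ h h'
  unfold gW at h h'
  rcases a with a | a <;> rcases a' with a' | a' <;> simp_all

lemma gN_inj : ∀ i i' k, gN i = some k → gN i' = some k → i = i' := by
  rintro ⟨a, b⟩ ⟨a', b'⟩ ⟨k, l⟩ h h'
  unfold gN at h h'
  simp only [Option.some.injEq, Prod.mk.injEq] at h h'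
  ext
  · show a = a'
    omega
  · show b = b'
    omega

lemma gM_inj : ∀ i i' k, gM i = some k → gM i' = some k → i = i' := by
  rintro ⟨a, b⟩ ⟨a', b'⟩ ⟨k, l⟩ h h'
  unfold gM at h h'
  simp only [Option.some.injEq, Prod.mk.injEq] at h h'
  ext
  · show a = a'
    omega
  · show b = b'
    omega

noncomputable def opS : L2 (ℕ × ℕ) →L[ℂ] L2 (ℕ × ℕ) := wc gS gS_inj wS (fun p => half_pow_le p.2)
noncomputable def opT : L2 (ℕ × ℕ) →L[ℂ] L2 (ℕ × ℕ) := wc gT gT_inj wT (fun p => half_pow_le p.1)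
noncomputable def opV : L2 (ℕ × ℕ) →L[ℂ] L2 (ℤ × ℕ) := wc gV gV_inj (fun _ => 1) (by simp)
noncomputable def opW : L2 (ℕ × ℕ) →L[ℂ] L2 (ℤ × ℕ) := wc gW gW_inj (fun _ => 1) (by simp)
noncomputable def opN : L2 (ℤ × ℕ) →L[ℂ] L2 (ℤ × ℕ) := wc gN gN_inj wN (fun p => half_pow_le p.2)
noncomputable def opM : L2 (ℤ × ℕ) →L[ℂ] L2 (ℤ × ℕ) := wc gM gM_inj wN (fun p => half_pow_le p.2)

lemma opN_apply (f : L2 (ℤ × ℕ)) (m : ℤ) (j : ℕ) : opN f (m, j) = ((1 / 2 : ℝ) ^ j : ℝ) * f (m - 1, j) := rfl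
lemma opM_apply (f : L2 (ℤ × ℕ)) (m : ℤ) (j : ℕ) : opM f (m, j) = ((1 / 2 : ℝ) ^ j : ℝ) * f (m + 1, j) := rfl

lemma opN_adjoint : ContinuousLinearMap.adjoint opN = opM := by
  symm
  rw [ContinuousLinearMap.eq_adjoint_iff]
  intro x y
  rw [lp.inner_eq_tsum, lp.inner_eq_tsum]
  rw [← (Equiv.prodCongr (Equiv.subRight (1 : ℤ)) (Equiv.refl ℕ)).tsum_eq]
  apply tsum_congr
  rintro ⟨m, j⟩
  simp only [Equiv.prodCongr_apply, Prod.map_apply, Equiv.subRight_apply, Equiv.refl_apply,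
    opM_apply, opN_apply, sub_add_cancel]
  simp only [RCLike.inner_apply, map_mul, Complex.conj_ofReal]
  ring

lemma opN_normal : IsStarNormal opN := by
  constructor
  rw [ContinuousLinearMap.star_eq_adjoint, opN_adjoint]
  show opM * opN = opN * opM
  ext f ⟨m, j⟩
  show opM (opN f) (m, j) = opN (opM f) (m, j)
  rw [opM_apply, opN_apply, opN_apply, opM_apply]
  simp

lemma isom_of {g : ℤ × ℕ → Option (ℕ × ℕ)}
    (hg : ∀ i i' k, g i = some k → g i' = some k → i = i') (s : ℕ × ℕ → ℤ × ℕ)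
    (hs : ∀ k, g (s k) = some k) (f : L2 (ℕ × ℕ)) :
    ‖wc g hg (fun _ => (1 : ℝ)) (by simp) f‖ = ‖f‖ := by
  have hp : (0 : ℝ) < (2 : ℝ≥0∞).toReal := by norm_num
  have h1 := lp.norm_rpow_eq_tsum hp f
  have h2 := lp.norm_rpow_eq_tsum hp (wc g hg (fun _ => (1 : ℝ)) (by simp) f)
  have hsinj : Function.Injective s := by
    intro k k' h
    have := hs k
    rw [h, hs k'] at this
    exact (Option.some.inj this).symm
  have h3 : ∑' i, ‖(wc g hg (fun _ => (1 : ℝ)) (by simp) f) i‖ ^ (2 : ℝ≥0∞).toReal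
      = ∑' k, ‖f k‖ ^ (2 : ℝ≥0∞).toReal := by
    rw [← hsinj.tsum_eq]
    · apply tsum_congr
      intro k
      rw [wc_apply, hs]
      simp
    · intro i hi
      rw [Function.mem_support, wc_apply] at hi
      cases hgi : g i with
      | none => simp [hgi] at hi
      | some k =>
        exact ⟨k, hg _ _ k (hs k) hgi⟩
  rw [h3, ← h1] at h2
  simp only [ENNReal.toReal_ofNat, Real.rpow_ofNat] at h2
  exact (sq_eq_sq₀ (norm_nonneg _) (norm_nonneg _)).1 h2

lemma opV_isom (f : L2 (ℕ × ℕ)) : ‖opV f‖ = ‖f‖ :=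
  isom_of gV_inj (fun p => ((p.1 : ℤ), p.2)) (fun _ => rfl) f

lemma opW_isom (f : L2 (ℕ × ℕ)) : ‖opW f‖ = ‖f‖ :=
  isom_of gW_inj (fun p => ((p.2 : ℤ), p.1)) (fun _ => rfl) f

lemma opS_zero (f : L2 (ℕ × ℕ)) (j : ℕ) : opS f (0, j) = 0 := rfl
lemma opS_succ (f : L2 (ℕ × ℕ)) (i j : ℕ) :
    opS f (i + 1, j) = ((1 / 2 : ℝ) ^ j : ℝ) * f (i, j) := rfl
lemma opT_zero (f : L2 (ℕ × ℕ)) (i : ℕ) : opT f (i, 0) = 0 := rfl
lemma opT_succ (f : L2 (ℕ × ℕ)) (i j : ℕ) :
    opT f (i, j + 1) = ((1 / 2 : ℝ) ^ i : ℝ) * f (i, j) := rfl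
lemma opV_nat (f : L2 (ℕ × ℕ)) (i j : ℕ) : opV f (Int.ofNat i, j) = f (i, j) := by
  show ((1 : ℝ) : ℂ) * f (i, j) = f (i, j)
  simp
lemma opV_neg (f : L2 (ℕ × ℕ)) (i j : ℕ) : opV f (Int.negSucc i, j) = 0 := rfl
lemma opW_nat (f : L2 (ℕ × ℕ)) (i j : ℕ) : opW f (Int.ofNat i, j) = f (j, i) := by
  show ((1 : ℝ) : ℂ) * f (j, i) = f (j, i)
  simp
lemma opW_neg (f : L2 (ℕ × ℕ)) (i j : ℕ) : opW f (Int.negSucc i, j) = 0 := rfl

lemma e_neg (i : ℕ) : Int.negSucc i - 1 = Int.negSucc (i + 1) := by omega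
lemma e_zero : Int.ofNat 0 - 1 = Int.negSucc 0 := rfl
lemma e_succ (i : ℕ) : Int.ofNat (i + 1) - 1 = Int.ofNat i := by
  simp

lemma sub_S : opN.comp opV = opV.comp opS := by
  ext f ⟨m, j⟩
  show opN (opV f) (m, j) = opV (opS f) (m, j)
  rw [opN_apply]
  rcases m with (_ | i) | i
  · rw [e_zero, opV_neg, opV_nat, opS_zero, mul_zero]
  · rw [e_succ, opV_nat, opV_nat, opS_succ]
  · rw [e_neg, opV_neg, opV_neg, mul_zero]

lemma sub_T : opN.comp opW = opW.comp opT := by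
  ext f ⟨m, j⟩
  show opN (opW f) (m, j) = opW (opT f) (m, j)
  rw [opN_apply]
  rcases m with (_ | i) | i
  · rw [e_zero, opW_neg, opW_nat, opT_zero, mul_zero]
  · rw [e_succ, opW_nat, opW_nat, opT_succ]
  · rw [e_neg, opW_neg, opW_neg, mul_zero]

lemma comm_ST : Commute opS opT := by
  show opS * opT = opT * opS
  ext f ⟨i, j⟩
  show opS (opT f) (i, j) = opT (opS f) (i, j)
  rcases i with _ | i <;> rcases j with _ | j
  · rfl
  · rw [opS_zero, opT_succ, opS_zero, mul_zero]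
  · rw [opS_succ, opT_zero, opT_zero, mul_zero]
  · rw [opS_succ, opT_succ, opT_succ, opS_succ, pow_succ, pow_succ]
    push_cast
    ring

/-- basis vectors -/
noncomputable def e (p : ℕ × ℕ) : L2 (ℕ × ℕ) := lp.single 2 p (1 : ℂ)

lemma e_apply (p q : ℕ × ℕ) : e p q = if q = p then 1 else 0 := by
  unfold e
  rw [lp.coeFn_single]
  by_cases h : q = p
  · subst h; simp
  · simp [h]

lemma norm_e (p : ℕ × ℕ) : ‖e p‖ = 1 := by
  unfold e
  rw [lp.norm_single (by norm_num)]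
  simp

lemma opS_e (i j : ℕ) : opS (e (i, j)) = ((1 / 2 : ℝ) ^ j : ℝ) • e (i + 1, j) := by
  ext ⟨k, l⟩
  rw [lp.coeFn_smul, Pi.smul_apply, e_apply]
  rcases k with _ | k
  · rw [opS_zero]; simp
  · rw [opS_succ, e_apply]
    by_cases h : (k, l) = (i, j)
    · simp only [Prod.mk.injEq] at h
      obtain ⟨rfl, rfl⟩ := h
      simp
    · have h' : ¬ ((k + 1, l) = (i + 1, j)) := by
        simpa using h
      rw [if_neg h, if_neg h']; simp

lemma opT_e (i j : ℕ) : opT (e (i, j)) = ((1 / 2 : ℝ) ^ i : ℝ) • e (i, j + 1) := by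
  ext ⟨k, l⟩
  rw [lp.coeFn_smul, Pi.smul_apply, e_apply]
  rcases l with _ | l
  · rw [opT_zero]; simp
  · rw [opT_succ, e_apply]
    by_cases h : (k, l) = (i, j)
    · simp only [Prod.mk.injEq] at h
      obtain ⟨rfl, rfl⟩ := h
      simp
    · have h' : ¬ ((k, l + 1) = (i, j + 1)) := by
        simpa using h
      rw [if_neg h, if_neg h']; simp

lemma real_smul_map (A : L2 (ℕ × ℕ) →L[ℂ] L2 (ℕ × ℕ)) (r : ℝ) (x : L2 (ℕ × ℕ)) :
    A (r • x) = r • A x := by
  have h : ∀ y : L2 (ℕ × ℕ), r • y = (r : ℂ) • y := fun y => by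
    ext p
    rfl
  rw [h, h, map_smul]

lemma prod_e0 : (opS * opT) (e (0, 0)) = (1 / 2 : ℝ) • e (1, 1) := by
  show opS (opT (e (0, 0))) = _
  rw [opT_e, real_smul_map, opS_e]
  norm_num

lemma prod_e1 : (opS * opT) (e (1, 1)) = (1 / 8 : ℝ) • e (2, 2) := by
  show opS (opT (e (1, 1))) = _
  rw [opT_e, real_smul_map, opS_e, smul_smul]
  norm_num

/-- The negation of the preceding statement: For every complex Hilbert space H and commuting bounded operators S, T on H, if S and T each extend to a normal operator on a larger Hilbert space (via an isometric embedding), then so does the product ST. -/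
theorem result :
    ¬ (∀ (H : Type) [NormedAddCommGroup H] [InnerProductSpace ℂ H] [CompleteSpace H]
      (S T : H →L[ℂ] H),
      Commute S T →
      (∃ (K : Type) (_ : NormedAddCommGroup K) (_ : InnerProductSpace ℂ K) (_ : CompleteSpace K)
          (V : H →L[ℂ] K) (N : K →L[ℂ] K),
          (∀ x : H, ‖V x‖ = ‖x‖) ∧ IsStarNormal N ∧ N.comp V = V.comp S) →
      (∃ (K : Type) (_ : NormedAddCommGroup K) (_ : InnerProductSpace ℂ K) (_ : CompleteSpace K)
          (V : H →L[ℂ] K) (N : K →L[ℂ] K),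
          (∀ x : H, ‖V x‖ = ‖x‖) ∧ IsStarNormal N ∧ N.comp V = V.comp T) →
      (∃ (K : Type) (_ : NormedAddCommGroup K) (_ : InnerProductSpace ℂ K) (_ : CompleteSpace K)
          (V : H →L[ℂ] K) (N : K →L[ℂ] K),
          (∀ x : H, ‖V x‖ = ‖x‖) ∧ IsStarNormal N ∧ N.comp V = V.comp (S * T))) := by
  intro hall
  have h1 := hall (L2 (ℕ × ℕ)) opS opT comm_ST
    ⟨L2 (ℤ × ℕ), inferInstance, inferInstance, inferInstance, opV, opN, opV_isom, opN_normal, sub_S⟩
    ⟨L2 (ℤ × ℕ), inferInstance, inferInstance, inferInstance, opW, opN, opW_isom, opN_normal, sub_T⟩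
  have h2 := subnormal_ineq _ h1 (e (0, 0))
  rw [prod_e0, real_smul_map, prod_e1, norm_e, smul_smul, norm_smul, norm_smul, norm_e, norm_e] at h2
  norm_num at h2

end Pool.Agent.S02748
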