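import Pool.Statements.S02791
import Pool.Agent.H517R2.EO.Final

set_option autoImplicit false
open Pool Pool.MP_20db41_an

namespace Pool.Agent.S02791

/-- Take contracting similarities x ↦ a_i x + b_i of the line with attractor F and similarity dimension s. If the Hausdorff dimension of F is below min(1, s), then two distinct words of equal length give identical cylinder images of F. -/
theorem result :
    ∀ (k : ℕ) (a b : Fin k → ℝ),
      (∀ i, a i ≠ 0) → (∀ i, |a i| < 1) →
      ∀ (F : Set ℝ), IsCompact F → F.Nonempty →
        F = ⋃ i, (fun x => a i * x + b i) '' F →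
        ∀ (s : ℝ), (∑ i, |a i| ^ s) = 1 →
          dimH F < ENNReal.ofReal (min 1 s) →
          ∃ (m : ℕ) (u v : Fin m → Fin k), u ≠ v ∧
            (fun x => (List.ofFn u).foldr (fun i y => a i * y + b i) x) '' F =
            (fun x => (List.ofFn v).foldr (fun i y => a i * y + b i) x) '' F :=
  H517.EO.exact_overlaps2

end Pool.Agent.S02791
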