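import Pool.Statements.S02839
import Pool.Agent.H794R2.XFin

set_option autoImplicit false
open scoped ZeroAtInfty
open Pool Pool.MP_26275f_an

namespace Pool.Agent.S02839

/-- There is a reflexive real Banach space of density continuum with an unconditional long basis, such that each closed infinite-dimensional subspace contains K-isomorphic copies of all finite-dimensional subspaces of c0, for some K depending on the subspace. -/
theorem result :
  ∃ (X : Type) (_ : NormedAddCommGroup X) (_ : NormedSpace ℝ X) (_ : CompleteSpace X),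
    (∀ φ : (X →L[ℝ] ℝ) →L[ℝ] ℝ, ∃ x : X, ∀ f : X →L[ℝ] ℝ, φ f = f x) ∧
    (∃ D : Set X, Dense D ∧ Cardinal.mk D = Cardinal.continuum) ∧
    (∀ D : Set X, Dense D → Cardinal.continuum ≤ Cardinal.mk D) ∧
    (∃ (I : Type) (e : I → X), ∀ x : X, ∃! a : I → ℝ, HasSum (fun i => a i • e i) x) ∧
    ∀ Y : Submodule ℝ X, IsClosed (Y : Set X) → ¬ FiniteDimensional ℝ Y →
      ∃ K : ℝ, ∀ E : Submodule ℝ (ℕ →C₀ ℝ), FiniteDimensional ℝ E →
        ∃ T : E →ₗ[ℝ] X, (∀ v, T v ∈ Y) ∧ ∀ v : E, ‖v‖ ≤ ‖T v‖ ∧ ‖T v‖ ≤ K * ‖v‖ := by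
  classical
  refine ⟨Pool.Agent.H794R2.Tsi.XT ℝ, inferInstance, inferInstance, inferInstance,
    Pool.Agent.H794R2.Tsi.reflexive, ?_, ?_, ?_, ?_⟩
  · refine ⟨_, Pool.Agent.H794R2.Tsi.dense_range, le_antisymm ?_ ?_⟩
    · refine Cardinal.mk_range_le.trans ?_
      rw [Cardinal.mk_finsupp_of_infinite]
      simp [Cardinal.mk_real]
    · rw [← Cardinal.mk_real]
      exact Pool.Agent.H794R2.Tsi.card_dense _ Pool.Agent.H794R2.Tsi.dense_range
  · intro D hD
    rw [← Cardinal.mk_real]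
    exact Pool.Agent.H794R2.Tsi.card_dense D hD
  · refine ⟨ℝ, Pool.Agent.H794R2.Tsi.ee, fun x => ⟨Pool.Agent.H794R2.Tsi.vv x,
      Pool.Agent.H794R2.Tsi.hasSum_ee x, fun a ha => ?_⟩⟩
    exact Pool.Agent.H794R2.Tsi.unique_coeff x a ha
  · intro Y _ hY
    refine ⟨10, fun E hE => ?_⟩
    have hq1 : ∀ (n : ℕ) (v : ℕ →C₀ ℝ), |v n| ≤ ‖v‖ := by
      intro n v
      have := (ZeroAtInftyContinuousMap.toBCF v).norm_coe_le_norm n
      rw [ZeroAtInftyContinuousMap.norm_toBCF_eq_norm] at this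
      exact this
    have hq2 : ∀ v : ℕ →C₀ ℝ, v ≠ 0 → ∃ n, 1/2 * ‖v‖ < |v n| := by
      intro v hv
      by_contra hno
      push Not at hno
      have h2 : ‖v‖ ≤ 1/2 * ‖v‖ := by
        conv_lhs => rw [← ZeroAtInftyContinuousMap.norm_toBCF_eq_norm]
        exact (BoundedContinuousFunction.norm_le (by positivity)).2 fun n => hno n
      have h3 : 0 < ‖v‖ := norm_pos_iff.2 hv
      linarith
    exact Pool.Agent.H794R2.Tsi.c0_gen (E := E) Y hY
      (fun n => { toFun := fun v => (v : ℕ →C₀ ℝ) n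
                  map_add' := fun v w => rfl
                  map_smul' := fun c v => rfl })
      (fun n v => hq1 n v) (fun v hv => hq2 v (by simpa using hv))

end Pool.Agent.S02839
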