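import Pool.Statements.S02908
import Pool.Agent.H857R2.Orbit
import Pool.Agent.H857R2.Final

set_option autoImplicit false
open Matrix Filter Topology
open Pool Pool.MP_2d0f4a_an

namespace Pool.Agent.S02908

/-- The negation of the preceding statement: For SPD A, 2 ≤ s < deg minpoly(A), and r0 of grade ≥ s+1, every run of restarted optimum s-gradient (Galerkin step in the Krylov space of the normalized residual) has both even and odd normalized residual subsequences convergent. -/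
theorem result :
    ¬ (∀ (n : ℕ) (A : Matrix (Fin n) (Fin n) ℝ) (b : Fin n → ℝ) (s : ℕ),
      A.PosDef → 2 ≤ s → s < (minpoly ℝ A).natDegree →
      ∀ x : ℕ → (Fin n → ℝ),
        LinearIndependent ℝ
          (fun i : Fin (s + 1) => (A ^ (i : ℕ)) *ᵥ (b - A *ᵥ x 0)) →
        (∀ k : ℕ,
          x (k + 1) - x k ∈ Submodule.span ℝ (Set.range (fun i : Fin s =>
            (A ^ (i : ℕ)) *ᵥ ((Real.sqrt ((b - A *ᵥ x k) ⬝ᵥ (b - A *ᵥ x k)))⁻¹
              • (b - A *ᵥ x k)))) ∧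
          ∀ v ∈ Submodule.span ℝ (Set.range (fun i : Fin s =>
            (A ^ (i : ℕ)) *ᵥ ((Real.sqrt ((b - A *ᵥ x k) ⬝ᵥ (b - A *ᵥ x k)))⁻¹
              • (b - A *ᵥ x k)))),
            v ⬝ᵥ (b - A *ᵥ x (k + 1)) = 0) →
        (∃ L : Fin n → ℝ, Tendsto (fun k : ℕ =>
            (Real.sqrt ((b - A *ᵥ x (2 * k)) ⬝ᵥ (b - A *ᵥ x (2 * k))))⁻¹
              • (b - A *ᵥ x (2 * k))) atTop (𝓝 L)) ∧
        (∃ L : Fin n → ℝ, Tendsto (fun k : ℕ =>
            (Real.sqrt ((b - A *ᵥ x (2 * k + 1)) ⬝ᵥ (b - A *ᵥ x (2 * k + 1))))⁻¹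
              • (b - A *ᵥ x (2 * k + 1))) atTop (𝓝 L))) := by
  obtain ⟨nd, w, p, F, H, hn, ho, hH, hP, hpos, hlim⟩ := Pool.Agent.H857R2.orbit
  exact Pool.Agent.H857R2.final nd w p F H hn ho hH hP hpos hlim

end Pool.Agent.S02908
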