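import Pool.Statements.S02919
import Pool.Agent.H808R2.Gap.Core
-- import your own Pool.Agent.* helpers here

set_option autoImplicit false
open Pool Pool.MP_2df86a_an

namespace Pool.Agent.S02919

/-- Let f(z)=∑a_k z^{n_k} converge in the unit disc with n_{k+1} ≥ q·n_k, q>1, and T(r,f)→∞ as r→1. Then for every finite w, liminf over r→1 of m(r,w)/T(r,f) is 0, i.e. the Nevanlinna deficiency δ(w,f) vanishes. -/
theorem result :
    ∀ (a : ℕ → ℂ) (n : ℕ → ℕ) (q : ℝ), 1 < q → StrictMono n →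
      (∀ k, q * (n k : ℝ) ≤ (n (k + 1) : ℝ)) →
      (∀ z : ℂ, ‖z‖ < 1 → Summable (fun k => a k * z ^ (n k))) →
      Filter.Tendsto
        (fun r : ℝ => (2 * Real.pi)⁻¹ * ∫ θ in (0:ℝ)..(2 * Real.pi),
          max 0 (Real.log ‖∑' k, a k * (circleMap 0 r θ) ^ (n k)‖))
        (nhdsWithin 1 (Set.Iio 1)) Filter.atTop →
      ∀ w : ℂ, ∀ ε : ℝ, 0 < ε → ∀ r₀ : ℝ, r₀ < 1 →
        ∃ r : ℝ, r₀ < r ∧ r < 1 ∧
          (2 * Real.pi)⁻¹ * ∫ θ in (0:ℝ)..(2 * Real.pi),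
              max 0 (Real.log (‖(∑' k, a k * (circleMap 0 r θ) ^ (n k)) - w‖⁻¹))
            ≤ ε * ((2 * Real.pi)⁻¹ * ∫ θ in (0:ℝ)..(2 * Real.pi),
              max 0 (Real.log ‖∑' k, a k * (circleMap 0 r θ) ^ (n k)‖)) := by
  intro a n q hq hmono hgap hsum hT w ε hε r₀ hr₀
  have hq0 : 0 < q := by linarith
  have hsq : 1 < Real.sqrt q := by
    rw [Real.lt_sqrt (by norm_num)]
    simpa using hq
  have hκ0 : 0 < (Real.sqrt q)⁻¹ := by positivity
  have hκ1 : (Real.sqrt q)⁻¹ < 1 := inv_lt_one_of_one_lt₀ hsq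
  have hκ2 : ((Real.sqrt q)⁻¹) ^ 2 = q⁻¹ := by
    rw [inv_pow, Real.sq_sqrt hq0.le]
  have hg : ∀ k, (n k : ℝ) ≤ ((Real.sqrt q)⁻¹) ^ 2 * n (k + 1) := by
    intro k
    rw [hκ2, inv_mul_eq_div, le_div_iff₀ hq0, mul_comm]
    exact hgap k
  have hs : ∀ ρ : ℝ, 0 < ρ → ρ < 1 → Summable fun k => ‖a k‖ * ρ ^ n k := by
    intro ρ h0 h1
    have h2 := (hsum (ρ : ℂ) (by rw [Complex.norm_real, Real.norm_eq_abs, abs_of_pos h0]; exact h1)).norm
    refine h2.congr fun k => ?_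
    rw [norm_mul, norm_pow, Complex.norm_real, Real.norm_eq_abs, abs_of_pos h0]
  by_cases hn0 : n 0 = 0
  · apply Pool.Agent.H808R2.Gap.core hκ0 hκ1 (fun k => a (k + 1)) (fun k => n (k + 1)) (a 0 - w) w
      _ (fun k => hg (k + 1)) _ (fun z => ∑' k, a k * z ^ n k) _ hT ε hε r₀ hr₀
    · intro k
      have := hmono (Nat.succ_pos k)
      simp only [Nat.succ_eq_add_one] at this
      omega
    · intro ρ h0 h1
      exact (summable_nat_add_iff 1).2 (hs ρ h0 h1)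
    · intro z hz
      have h3 := (hsum z hz).tsum_eq_zero_add
      simp only [Pool.Agent.H808R2.Gap.gs]
      rw [h3, hn0, pow_zero, mul_one]
      ring
  · apply Pool.Agent.H808R2.Gap.core hκ0 hκ1 a n (-w) w
      _ hg hs (fun z => ∑' k, a k * z ^ n k) _ hT ε hε r₀ hr₀
    · intro k
      have := hmono.monotone (Nat.zero_le k)
      omega
    · intro z hz
      simp only [Pool.Agent.H808R2.Gap.gs]
      ring

end Pool.Agent.S02919
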