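import Pool.Statements.S02924
import Pool.Agent.H788R2.Heat3

set_option autoImplicit false
open Pool Pool.MP_2e654e_an

namespace Pool.Agent.S02924

/-- The negation of the preceding statement: Let f be an even entire function, real on the reals, of order 1 and infinite type, with all zeros in a horizontal strip. Then for every t>0, the function given by the sum of (-t)^n/n! times the 2n-th derivative of f has only finitely many zeros that are non-real or multiple. -/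
theorem result :
    ¬ (∀ f : ℂ → ℂ, Differentiable ℂ f →
      (∀ z : ℂ, f (-z) = f z) →
      (∀ x : ℝ, (f (x : ℂ)).im = 0) →
      (∀ ε : ℝ, 0 < ε → ∃ R : ℝ, ∀ z : ℂ, R ≤ ‖z‖ → ‖f z‖ ≤ Real.exp (‖z‖ ^ (1 + ε))) →
      (∀ A : ℝ, ∀ R : ℝ, ∃ z : ℂ, R ≤ ‖z‖ ∧ Real.exp (A * ‖z‖) < ‖f z‖) →
      (∃ Δ : ℝ, 0 < Δ ∧ ∀ z : ℂ, f z = 0 → |z.im| < Δ) →
      ∀ t : ℝ, 0 < t →
        ∀ g : ℂ → ℂ,
          (∀ z : ℂ, g z = ∑' n : ℕ, ((-(t : ℂ)) ^ n / (n.factorial : ℂ)) * iteratedDeriv (2 * n) f z) →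
          {z : ℂ | g z = 0 ∧ (z.im ≠ 0 ∨ deriv g z = 0)}.Finite) := by
  intro H
  have h1 := H Pool.Agent.H788R2.Heat.f Pool.Agent.H788R2.Heat.differentiable_f
    Pool.Agent.H788R2.Heat.f_neg Pool.Agent.H788R2.Heat.f_real Pool.Agent.H788R2.Heat.f_growth
    Pool.Agent.H788R2.Heat.f_maxtype Pool.Agent.H788R2.Heat.f_zeros (1 / 2) (by norm_num)
    (fun z => ∑' n : ℕ, Pool.Agent.H788R2.Heat.ht Pool.Agent.H788R2.Heat.f n z) (fun z => rfl)
  obtain ⟨K, hK⟩ := Pool.Agent.H788R2.Heat.main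
  obtain ⟨R, hR⟩ := h1.isBounded.exists_norm_le
  obtain ⟨k, hk1, hk2⟩ := ((Filter.eventually_ge_atTop K).and
    (Pool.Agent.H788R2.Heat.tendsto_XX.eventually_gt_atTop (R + 5))).exists
  obtain ⟨w, hw, him, hz⟩ := hK k hk1
  have h2 := hR ((Pool.Agent.H788R2.Heat.XX k : ℂ) + w) (by
    refine ⟨hz, Or.inl ?_⟩
    simp only [Complex.add_im, Complex.ofReal_im, zero_add]
    exact him.ne')
  have h3 : Pool.Agent.H788R2.Heat.XX k ≤ ‖(Pool.Agent.H788R2.Heat.XX k : ℂ) + w‖ + ‖w‖ := by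
    have h4 : ‖(Pool.Agent.H788R2.Heat.XX k : ℂ)‖ = Pool.Agent.H788R2.Heat.XX k := by
      rw [Complex.norm_real, Real.norm_of_nonneg (Pool.Agent.H788R2.Heat.XX_pos k).le]
    calc Pool.Agent.H788R2.Heat.XX k = ‖((Pool.Agent.H788R2.Heat.XX k : ℂ) + w) - w‖ := by
          rw [add_sub_cancel_right, h4]
      _ ≤ _ := norm_sub_le _ _
  linarith

end Pool.Agent.S02924
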