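import Pool.Statements.S02925
import Pool.Agent.H83R2.PS.Fin
-- import your own Pool.Agent.* helpers here

set_option autoImplicit false
open Pool Pool.MP_2eb5f4_an

namespace Pool.Agent.S02925

/-- There is a radical submultiplicative weight ω with ω(0)=1 and an f in ℓ¹(ω) with zero constant term and nonzero X-coefficient such that polynomials in f without constant term are not dense in the maximal ideal of ℓ¹(ω). -/
theorem result :
    ∃ ω : ℕ → ℝ, (∀ n, 0 < ω n) ∧ ω 0 = 1 ∧ (∀ m n, ω (m + n) ≤ ω m * ω n) ∧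
      Filter.Tendsto (fun n : ℕ => (ω n) ^ (1 / (n : ℝ))) Filter.atTop (nhds 0) ∧
      ∃ f : PowerSeries ℂ,
        Summable (fun n : ℕ => ‖PowerSeries.coeff n f‖ * ω n) ∧
        PowerSeries.coeff 0 f = 0 ∧ PowerSeries.coeff 1 f ≠ 0 ∧
        ∃ g : PowerSeries ℂ,
          Summable (fun n : ℕ => ‖PowerSeries.coeff n g‖ * ω n) ∧
          PowerSeries.coeff 0 g = 0 ∧
          ∃ ε : ℝ, 0 < ε ∧ ∀ p : Polynomial ℂ, p.coeff 0 = 0 →
            ε ≤ ∑' n : ℕ, ‖PowerSeries.coeff n (g - Polynomial.aeval f p)‖ * ω n := by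
  refine ⟨Pool.Agent.H83R2.PS.om, Pool.Agent.H83R2.PS.om_pos, Pool.Agent.H83R2.PS.om_zero,
    Pool.Agent.H83R2.PS.om_submul, Pool.Agent.H83R2.PS.om_radical, Pool.Agent.H83R2.PS.ff,
    Pool.Agent.H83R2.PS.ff_summable, Pool.Agent.H83R2.PS.ff_zero, Pool.Agent.H83R2.PS.ff_one,
    PowerSeries.X, Pool.Agent.H83R2.PS.X_summable, PowerSeries.coeff_zero_X, 1 / 4, by norm_num,
    fun p hp => Pool.Agent.H83R2.PS.final p hp⟩

end Pool.Agent.S02925
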