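import Pool.Statements.S03067
-- import your own Pool.Agent.* helpers here

set_option autoImplicit false
open Pool Pool.MP_3f3e32_an

namespace Pool.Agent.S03067

/-- For weights M as given and compact X, every unital multiplicative linear functional on rational functions with poles off X, bounded in the norm sum of M_k^-1 sup over X of the k-th derivative, is evaluation at some point of X. -/
theorem result :
    ∀ (M : ℕ → ℝ), M 0 = 1 → (∀ k, 0 < M k) →
      (∀ k j : ℕ, ((Nat.choose (k + j) j : ℕ) : ℝ) ≤ M (k + j) / (M k * M j)) →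
      Summable (fun k : ℕ => M k / M (k + 1)) →
      ∀ (X : Set ℂ), IsCompact X →
      ∀ (φ : Polynomial ℂ → Polynomial ℂ → ℂ),
        (∀ p q p' q' : Polynomial ℂ, (∀ x ∈ X, q.eval x ≠ 0) → (∀ x ∈ X, q'.eval x ≠ 0) →
            p * q' = p' * q → φ p q = φ p' q') →
        (∀ p q p' q' : Polynomial ℂ, (∀ x ∈ X, q.eval x ≠ 0) → (∀ x ∈ X, q'.eval x ≠ 0) →
            φ (p * q' + p' * q) (q * q') = φ p q + φ p' q') →
        (∀ (c : ℂ) (p q : Polynomial ℂ), (∀ x ∈ X, q.eval x ≠ 0) →
            φ (Polynomial.C c * p) q = c * φ p q) →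
        (∀ p q p' q' : Polynomial ℂ, (∀ x ∈ X, q.eval x ≠ 0) → (∀ x ∈ X, q'.eval x ≠ 0) →
            φ (p * p') (q * q') = φ p q * φ p' q') →
        φ 1 1 = 1 →
        (∃ C : ℝ, ∀ p q : Polynomial ℂ, (∀ x ∈ X, q.eval x ≠ 0) → ∀ B : ℝ,
            (∀ N : ℕ, ∑ k ∈ Finset.range N,
                (M k)⁻¹ * (⨆ x : X, ‖iteratedDeriv k (fun z : ℂ => p.eval z / q.eval z) (x : ℂ)‖) ≤ B) →
            ‖φ p q‖ ≤ C * B) →
        ∃ x ∈ X, ∀ p q : Polynomial ℂ, (∀ y ∈ X, q.eval y ≠ 0) → φ p q = p.eval x / q.eval x := by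
  intro M hM0 hMpos hMc hsum X hX φ hwd hadd hsmul hmul h11 _
  have hone : ∀ x ∈ X, (1 : Polynomial ℂ).eval x ≠ 0 := by intro x _; simp
  have hC : ∀ a : ℂ, φ (Polynomial.C a) 1 = a := by
    intro a
    have := hsmul a 1 1 hone
    rw [mul_one, h11, mul_one] at this
    exact this
  have hpoly : ∀ p : Polynomial ℂ, φ p 1 = p.eval (φ Polynomial.X 1) := by
    intro p
    induction p using Polynomial.induction_on with
    | C a => rw [hC, Polynomial.eval_C]
    | add p q hp hq =>
      have := hadd p 1 q 1 hone hone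
      rw [mul_one, mul_one, mul_one] at this
      rw [this, hp, hq, Polynomial.eval_add]
    | monomial n a ih =>
      have := hmul (Polynomial.C a * Polynomial.X ^ n) 1 Polynomial.X 1 hone hone
      rw [mul_one, mul_assoc, ← pow_succ] at this
      rw [this, ih, Polynomial.eval_mul, Polynomial.eval_mul, Polynomial.eval_pow,
        Polynomial.eval_pow, Polynomial.eval_X, pow_succ]
      ring
  have hz0 : φ Polynomial.X 1 ∈ X := by
    by_contra hz
    have hq : ∀ x ∈ X, (Polynomial.X - Polynomial.C (φ Polynomial.X 1)).eval x ≠ 0 := by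
      intro x hx h0
      rw [Polynomial.eval_sub, Polynomial.eval_X, Polynomial.eval_C, sub_eq_zero] at h0
      exact hz (h0 ▸ hx)
    have h1 := hmul (Polynomial.X - Polynomial.C (φ Polynomial.X 1)) 1 1
      (Polynomial.X - Polynomial.C (φ Polynomial.X 1)) hone hq
    have h2 : φ (Polynomial.X - Polynomial.C (φ Polynomial.X 1)) 1 = 0 := by
      rw [hpoly, Polynomial.eval_sub, Polynomial.eval_X, Polynomial.eval_C, sub_self]
    rw [h2, zero_mul, mul_one, one_mul] at h1
    have h3 := hwd (Polynomial.X - Polynomial.C (φ Polynomial.X 1))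
      (Polynomial.X - Polynomial.C (φ Polynomial.X 1)) 1 1 hq hone (by rw [mul_one, one_mul])
    rw [h1, h11] at h3
    exact zero_ne_one h3
  refine ⟨_, hz0, ?_⟩
  intro p q hq
  have h1 := hmul p q q 1 hq hone
  have h2 := hwd (p * q) (q * 1) p 1 (by rw [mul_one]; exact hq) hone (by ring)
  rw [h1, hpoly q, hpoly p] at h2
  rw [eq_div_iff (hq _ hz0)]
  exact h2

end Pool.Agent.S03067
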