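import Pool.Statements.S03093
-- import your own Pool.Agent.* helpers here
import Pool.Agent.H457R2.RadialMain
import Pool.Agent.H457R2.SphereMeas

set_option autoImplicit false
open MeasureTheory Filter Topology
open Pool Pool.MP_41f86e_an

namespace Pool.Agent.S03093

/-- For every n ≥ 2 there is a holomorphic function on the unit ball of ℂⁿ whose values f(rζ) tend to infinity as r increases to 1, for almost every point ζ of the unit sphere (surface measure). -/
theorem result :
    ∀ n : ℕ, 2 ≤ n →
      ∃ f : EuclideanSpace ℂ (Fin n) → ℂ,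
        DifferentiableOn ℂ f (Metric.ball (0 : EuclideanSpace ℂ (Fin n)) 1) ∧
        ∀ᵐ ζ ∂((MeasureTheory.Measure.hausdorffMeasure ((2 * (n : ℝ)) - 1)).restrict
            (Metric.sphere (0 : EuclideanSpace ℂ (Fin n)) 1)),
          Tendsto (fun r : ℝ => f ((r : ℂ) • ζ)) (𝓝[<] (1 : ℝ)) (Bornology.cobounded ℂ) := by
  intro n hn
  have hfin : (Measure.hausdorffMeasure ((2 * (n : ℝ)) - 1) :
      Measure (EuclideanSpace ℂ (Fin n))) (Metric.sphere (0 : EuclideanSpace ℂ (Fin n)) 1) < ⊤ := by
    have hrank : Module.finrank ℝ (EuclideanSpace ℂ (Fin n)) = (2 * n - 1) + 1 := by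
      have h := finrank_real_of_complex (EuclideanSpace ℂ (Fin n))
      rw [finrank_euclideanSpace_fin] at h
      omega
    have h := H457R2.sphere_lt_top (E := EuclideanSpace ℂ (Fin n)) (2 * n - 1) hrank
    have hcast : ((2 * n - 1 : ℕ) : ℝ) = 2 * (n : ℝ) - 1 := by
      rw [Nat.cast_sub (by omega)]
      push_cast
      ring
    rwa [hcast] at h
  set μ : Measure (EuclideanSpace ℂ (Fin n)) :=
    (Measure.hausdorffMeasure ((2 * (n : ℝ)) - 1)).restrict
      (Metric.sphere (0 : EuclideanSpace ℂ (Fin n)) 1) with hμ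
  haveI : IsFiniteMeasure μ := ⟨by
    rw [hμ, Measure.restrict_apply_univ]
    exact hfin⟩
  refine ⟨H457R2.fn μ, ?_, ?_⟩
  · intro z hz
    have hz' : ‖z‖ < 1 := by simpa using hz
    exact (H457R2.fn_hasFDerivAt μ z hz').differentiableAt.differentiableWithinAt
  · have h1 := H457R2.ae_tendsto μ
    have h2 : ∀ᵐ z ∂μ, z ∈ Metric.sphere (0 : EuclideanSpace ℂ (Fin n)) 1 := by
      rw [hμ]
      exact ae_restrict_mem Metric.isClosed_sphere.measurableSet
    filter_upwards [h1, h2] with z hz1 hz2
    exact hz1 (by simpa using hz2)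

end Pool.Agent.S03093
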