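import Pool.Statements.S03107
import Pool.Agent.H352R4.CA.End

set_option autoImplicit false
open Filter Topology
open scoped ENNReal NNReal
open Pool Pool.MP_437602_an

namespace Pool.Agent.S03107

theorem alpha_zero_of {α : Set ℂ → ℝ≥0∞}
      (hα : ∀ S : Set ℂ, α S =
        ⨆ (F : Set ℂ) (_ : IsCompact F) (_ : F ⊆ S) (f : ℂ → ℂ) (c : ℂ)
          (_ : Continuous f ∧ DifferentiableOn ℂ f Fᶜ ∧ (∀ z, ‖f z‖ ≤ 1) ∧
                Tendsto f (cocompact ℂ) (𝓝 0) ∧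
                Tendsto (fun z => z * f z) (cocompact ℂ) (𝓝 c)),
          ((‖c‖₊ : ℝ≥0) : ℝ≥0∞)) {S L : Set ℂ} {f : ℂ → ℂ} {c : ℂ} (hL : IsCompact L) (hLS : L ⊆ S)
        (H : Pool.Agent.H352R4.CA.Ac L f c) (hb : ∀ z, ‖f z‖ ≤ 1) :
        ((‖c‖₊ : ℝ≥0) : ℝ≥0∞) ≤ α S := by
  rw [hα S]
  refine le_iSup_of_le L (le_iSup_of_le hL (le_iSup_of_le hLS (le_iSup_of_le f
    (le_iSup_of_le c (le_iSup_of_le ⟨H.cont, H.hol, hb, H.zero, H.lim⟩ le_rfl)))))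

/-- For the (uniquely determined) continuous analytic capacity α(S)=sup over compact F⊆S and continuous f on ℂ, holomorphic off F, ∣f∣≤1, f(∞)=0, of ∣lim z f(z)∣: for compact K,E with α(K)=0, α(E\K)=α(E). -/
theorem result :
    ∀ α : Set ℂ → ℝ≥0∞,
      (∀ S : Set ℂ, α S =
        ⨆ (F : Set ℂ) (_ : IsCompact F) (_ : F ⊆ S) (f : ℂ → ℂ) (c : ℂ)
          (_ : Continuous f ∧ DifferentiableOn ℂ f Fᶜ ∧ (∀ z, ‖f z‖ ≤ 1) ∧
                Tendsto f (cocompact ℂ) (𝓝 0) ∧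
                Tendsto (fun z => z * f z) (cocompact ℂ) (𝓝 c)),
          ((‖c‖₊ : ℝ≥0) : ℝ≥0∞)) →
      ∀ K E : Set ℂ, IsCompact K → IsCompact E → α K = 0 → α (E \ K) = α E := by
  intro α hα K E hK hE h0
  apply le_antisymm
  · rw [hα (E \ K), hα E]
    refine iSup_mono fun F => iSup_mono fun hF => iSup_le fun hFE => ?_
    exact le_iSup_of_le (hFE.trans Set.sdiff_subset) le_rfl
  · have hK0 : Pool.Agent.H352R4.CA.alpha K = 0 := by
      apply le_antisymm _ (Pool.Agent.H352R4.CA.alpha_nonneg K)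
      refine Real.sSup_le ?_ le_rfl
      rintro c ⟨f, l, H, hb, rfl⟩
      have h1 := alpha_zero_of hα hK subset_rfl H hb
      rw [h0, nonpos_iff_eq_zero, ENNReal.coe_eq_zero, nnnorm_eq_zero] at h1
      rw [h1, norm_zero]
    have hrem := Pool.Agent.H352R4.CA.alpha_remove hE hK hK0
    conv_lhs => rw [hα E]
    refine iSup_le fun F => iSup_le fun hF => iSup_le fun hFE => iSup_le fun f =>
      iSup_le fun c => iSup_le fun hc => ?_
    obtain ⟨hc1, hc2, hc3, hc4, hc5⟩ := hc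
    refine le_of_forall_lt fun x hx => ?_
    obtain ⟨x', rfl⟩ : ∃ x' : ℝ≥0, x = (x' : ℝ≥0∞) := by
      refine ⟨x.toNNReal, ?_⟩
      rw [ENNReal.coe_toNNReal (ne_top_of_lt hx)]
    rw [ENNReal.coe_lt_coe, ← NNReal.coe_lt_coe, coe_nnnorm] at hx
    have h2 : ‖c‖ ≤ Pool.Agent.H352R4.CA.alpha E :=
      Pool.Agent.H352R4.CA.le_alpha hE
        ⟨hc1, hc2.mono (Set.compl_subset_compl.2 hFE), hc5⟩ hc3
    have h3 : (x' : ℝ) < sSup {c : ℝ | ∃ L : Set ℂ, IsCompact L ∧ L ⊆ E \ K ∧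
        c = Pool.Agent.H352R4.CA.alpha L} := by
      rw [hrem]
      exact lt_of_lt_of_le hx h2
    obtain ⟨t, ⟨L, hL, hLE, rfl⟩, h4⟩ := exists_lt_of_lt_csSup
      (Set.nonempty_of_mem (show Pool.Agent.H352R4.CA.alpha ∅ ∈ {c : ℝ | ∃ L : Set ℂ,
        IsCompact L ∧ L ⊆ E \ K ∧ c = Pool.Agent.H352R4.CA.alpha L} from
        ⟨∅, isCompact_empty, Set.empty_subset _, rfl⟩)) h3
    have h5 : (x' : ℝ) < sSup {c : ℝ | ∃ h l, Pool.Agent.H352R4.CA.Ac L h l ∧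
        (∀ z, ‖h z‖ ≤ 1) ∧ c = ‖l‖} := h4
    obtain ⟨s, ⟨g, l, Hg, hg, rfl⟩, h6⟩ := exists_lt_of_lt_csSup
      (Set.nonempty_of_mem (show (0:ℝ) ∈ {c : ℝ | ∃ h l, Pool.Agent.H352R4.CA.Ac L h l ∧
        (∀ z, ‖h z‖ ≤ 1) ∧ c = ‖l‖} from
        ⟨fun _ => 0, 0, ⟨continuous_const, differentiableOn_const _, by simp⟩,
          fun z => by simp, by simp⟩)) h5
    have h7 := alpha_zero_of hα hL hLE Hg hg
    refine lt_of_lt_of_le ?_ h7
    rw [ENNReal.coe_lt_coe, ← NNReal.coe_lt_coe, coe_nnnorm]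
    exact h6

end Pool.Agent.S03107
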