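import Pool.Statements.S03118
import Pool.Agent.H765R2.RS5

set_option autoImplicit false
open scoped Manifold
open Pool Pool.MP_445484_an

namespace Pool.Agent.S03118

/-- The negation of the preceding statement: For every Riemann surface whose bounded holomorphic functions separate points, the map sending a point to evaluation at it is a homeomorphism onto an open subset of the character space of H^∞ with the weak-* topology. -/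
theorem result :
    ¬ (∀ (R : Type) [TopologicalSpace R] [T2Space R] [ConnectedSpace R] [ChartedSpace ℂ R]
      [IsManifold 𝓘(ℂ) ⊤ R],
      (∀ x y : R, x ≠ y → ∃ f : R → ℂ, MDifferentiable 𝓘(ℂ) 𝓘(ℂ) f ∧
          (∃ C : ℝ, ∀ z, ‖f z‖ ≤ C) ∧ f x ≠ f y) →
      Topology.IsEmbedding
          (fun (x : R) (f : {f : R → ℂ // MDifferentiable 𝓘(ℂ) 𝓘(ℂ) f ∧ ∃ C : ℝ, ∀ z, ‖f z‖ ≤ C}) => f.1 x) ∧
        ∃ U : Set ({f : R → ℂ // MDifferentiable 𝓘(ℂ) 𝓘(ℂ) f ∧ ∃ C : ℝ, ∀ z, ‖f z‖ ≤ C} → ℂ),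
          IsOpen U ∧
          U ∩ {φ : {f : R → ℂ // MDifferentiable 𝓘(ℂ) 𝓘(ℂ) f ∧ ∃ C : ℝ, ∀ z, ‖f z‖ ≤ C} → ℂ |
              (∀ f g h : {f : R → ℂ // MDifferentiable 𝓘(ℂ) 𝓘(ℂ) f ∧ ∃ C : ℝ, ∀ z, ‖f z‖ ≤ C},
                  (∀ z, h.1 z = f.1 z + g.1 z) → φ h = φ f + φ g) ∧
              (∀ f g h : {f : R → ℂ // MDifferentiable 𝓘(ℂ) 𝓘(ℂ) f ∧ ∃ C : ℝ, ∀ z, ‖f z‖ ≤ C},
                  (∀ z, h.1 z = f.1 z * g.1 z) → φ h = φ f * φ g) ∧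
              (∀ (c : ℂ) (f h : {f : R → ℂ // MDifferentiable 𝓘(ℂ) 𝓘(ℂ) f ∧ ∃ C : ℝ, ∀ z, ‖f z‖ ≤ C}),
                  (∀ z, h.1 z = c * f.1 z) → φ h = c * φ f) ∧
              (∀ h : {f : R → ℂ // MDifferentiable 𝓘(ℂ) 𝓘(ℂ) f ∧ ∃ C : ℝ, ∀ z, ‖f z‖ ≤ C},
                  (∀ z, h.1 z = 1) → φ h = 1)} =
            Set.range
              (fun (x : R) (f : {f : R → ℂ // MDifferentiable 𝓘(ℂ) 𝓘(ℂ) f ∧ ∃ C : ℝ, ∀ z, ‖f z‖ ≤ C}) => f.1 x)) := by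
  intro H
  have h1 := (H Pool.Agent.H765R2.RS.Surf Pool.Agent.H765R2.RS.separates).1
  apply Pool.Agent.H765R2.RS.not_tendsto
  rw [h1.isInducing.tendsto_nhds_iff, tendsto_pi_nhds]
  rintro ⟨f, hf, C, hC⟩
  exact Pool.Agent.H765R2.RS.tendsto_eval hf hC

end Pool.Agent.S03118
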