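import Pool.Statements.S03137
import Pool.Agent.H761R2.SV.Asm3

set_option autoImplicit false
open Filter Topology
open Pool Pool.MP_476a06_an

namespace Pool.Agent.S03137

/-- For any domain containing infinity bounded by finitely many analytic Jordan curves, with Szegő kernel K and its adjoint L as specified, the second variation D²c(w,z,ζ) of analytic capacity is ≤ 0 for distinct w, z, ζ in the domain. -/
theorem result :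
  ∀ (Ω : Set ℂ) (n : ℕ) (γ : Fin n → ℝ → ℂ) (K L : ℂ → ℂ → ℂ),
    IsOpen Ω → IsConnected Ω → Bornology.IsBounded Ωᶜ →
    (∀ k : Fin n, AnalyticOnNhd ℝ (γ k) Set.univ) →
    (∀ k : Fin n, Function.Periodic (γ k) (1 : ℝ)) →
    (∀ k : Fin n, Set.InjOn (γ k) (Set.Ico (0:ℝ) 1)) →
    (∀ k : Fin n, ∀ t : ℝ, deriv (γ k) t ≠ 0) →
    (∀ k j : Fin n, k ≠ j → Disjoint (Set.range (γ k)) (Set.range (γ j))) →
    frontier Ω = ⋃ k : Fin n, Set.range (γ k) →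
    (∀ k : Fin n, ∀ t : ℝ, ∀ᶠ ε : ℝ in 𝓝[>] (0:ℝ),
        γ k t + ((ε : ℝ) : ℂ) * Complex.I * deriv (γ k) t ∈ Ω) →
    (∀ ζ : ℂ, ζ ∈ Ω →
      DifferentiableOn ℂ (fun z : ℂ => K z ζ) Ω ∧
      ContinuousOn (fun z : ℂ => K z ζ) (closure Ω) ∧
      Tendsto (fun z : ℂ => K z ζ) (cocompact ℂ) (𝓝 (0:ℂ)) ∧
      DifferentiableOn ℂ (fun z : ℂ => L z ζ - (z - ζ)⁻¹) Ω ∧
      ContinuousOn (fun z : ℂ => L z ζ - (z - ζ)⁻¹) (closure Ω) ∧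
      Tendsto (fun z : ℂ => L z ζ) (cocompact ℂ) (𝓝 (0:ℂ)) ∧
      ∀ k : Fin n, ∀ t : ℝ, (Complex.I)⁻¹ * L (γ k t) ζ * deriv (γ k) t
          = starRingEnd ℂ (K (γ k t) ζ) * (((‖deriv (γ k) t‖ : ℝ)) : ℂ)) →
    ∀ w : ℂ, w ∈ Ω → ∀ z : ℂ, z ∈ Ω → ∀ ζ : ℂ, ζ ∈ Ω → w ≠ z → w ≠ ζ → z ≠ ζ →
      (2:ℝ) * (((L w z * starRingEnd ℂ (K w ζ) - starRingEnd ℂ (K w z) * L w ζ)
              * starRingEnd ℂ (L z ζ)
            - (L w z * starRingEnd ℂ (L w ζ) - starRingEnd ℂ (K w z) * K w ζ)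
              * starRingEnd ℂ (K z ζ)) : ℂ).re ≤ 0 := by
  intro Ω n γ K L h1 h2 h3 h4 h5 h6 h7 h8 h9 h10 hKL w hw z hz ζ hζ hwz hwζ hzζ
  have hC : Pool.Agent.H761R2.SV.Curves Ω n γ := ⟨h1, h2, h3, h4, h5, h6, h7, h8, h9, h10⟩
  exact Pool.Agent.H761R2.SV.D2_nonpos hC (K := K) (L := L) (fun q hq => hKL q hq) hw hz hζ hwz hwζ hzζ

end Pool.Agent.S03137
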