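import Pool.Statements.S03199
import Pool.Agent.H769R2.Lac4

set_option autoImplicit false
open Pool Pool.MP_5053af_an

namespace Pool.Agent.S03199

/-- For every sequence of positive integers with n_{k+1} ≥ q n_k for some q>1, the set of x in [0,2π) at which the partial sums of cos(n_k x) come arbitrarily close to every real number infinitely often has Lebesgue measure 2π. -/
theorem result :
    ∀ (n : ℕ → ℕ) (q : ℝ), 1 < q → (∀ k, 0 < n k) →
      (∀ k, q * (n k : ℝ) ≤ (n (k + 1) : ℝ)) →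
      MeasureTheory.volume
        {x : ℝ | x ∈ Set.Ico 0 (2 * Real.pi) ∧
          ∀ ξ : ℝ, ∀ ε : ℝ, 0 < ε →
            ∃ᶠ m in Filter.atTop,
              |(∑ k ∈ Finset.range m, Real.cos ((n k : ℝ) * x)) - ξ| < ε}
        = ENNReal.ofReal (2 * Real.pi) := by
  intro n q hq h0 hn
  have h1 := Pool.Agent.H769R2.Lac.ae_good n q hq h0 hn
  simp_rw [Pool.Agent.H769R2.Lac.T_eq] at h1
  have h2 : ∀ᵐ x ∂(MeasureTheory.volume.restrict (Set.Ico (0:ℝ) (2 * Real.pi))),
      ∀ ξ : ℝ, ∀ ε : ℝ, 0 < ε → ∃ᶠ m in Filter.atTop,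
        |(∑ k ∈ Finset.range m, Real.cos ((n k : ℝ) * x)) - ξ| < ε :=
    MeasureTheory.ae_mono (MeasureTheory.Measure.restrict_mono_set _ Set.Ico_subset_Icc_self) h1
  rw [MeasureTheory.ae_restrict_iff' measurableSet_Ico] at h2
  have h3 : {x : ℝ | x ∈ Set.Ico 0 (2 * Real.pi) ∧
          ∀ ξ : ℝ, ∀ ε : ℝ, 0 < ε →
            ∃ᶠ m in Filter.atTop,
              |(∑ k ∈ Finset.range m, Real.cos ((n k : ℝ) * x)) - ξ| < ε}
      =ᵐ[MeasureTheory.volume] Set.Ico (0:ℝ) (2 * Real.pi) := by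
    filter_upwards [h2] with x hx
    apply propext
    constructor
    · exact fun h => h.1
    · exact fun h => ⟨h, hx h⟩
  rw [MeasureTheory.measure_congr h3, Real.volume_Ico, sub_zero]

end Pool.Agent.S03199
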