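import Pool.Statements.S03258
import Pool.Agent.H807R2.HillSol

set_option autoImplicit false
open Pool Pool.MP_5876d3_an

namespace Pool.Agent.S03258

open MeasureTheory Set Filter Topology
open Pool.Agent.H807R2.Volterra Pool.Agent.H807R2.HillBessel Pool.Agent.H807R2.HillSol

section
variable (τ : ℝ)

/-- solution with initial data `(v, w)` at `x₀` -/
noncomputable def sol (x₀ : ℝ) (α β : ℂ) (z : ℂ) (x : ℝ) : ℂ :=
  y1 τ x * AA (y1 τ) (y2 τ) x₀ α β z x + y2 τ x * BB (y1 τ) (y2 τ) x₀ α β z x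

noncomputable def dsol (x₀ : ℝ) (α β : ℂ) (z : ℂ) (x : ℝ) : ℂ :=
  dy1 τ x * AA (y1 τ) (y2 τ) x₀ α β z x + dy2 τ x * BB (y1 τ) (y2 τ) x₀ α β z x

variable {τ} (hX : X (2 * τ) (Real.pi / 2) = 0)
include hX

lemma sol_deriv (x₀ : ℝ) (α β : ℂ) (z : ℂ) (x : ℝ) :
    HasDerivAt (sol τ x₀ α β z) (dsol τ x₀ α β z x) x := by
  obtain ⟨C, hC, b1, b2⟩ := exists_bound hX
  have hA := AA_deriv (y1_cont τ) (y2_cont τ) hC b1 b2 x₀ α β z x
  have hB := BB_deriv (y1_cont τ) (y2_cont τ) hC b1 b2 x₀ α β z x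
  refine (((y1_deriv τ x).fun_mul hA).fun_add ((y2_deriv τ x).fun_mul hB)).congr_deriv ?_
  unfold dsol
  ring

lemma dsol_deriv (x₀ : ℝ) (α β : ℂ) (z : ℂ) (x : ℝ) :
    HasDerivAt (dsol τ x₀ α β z) ((q τ x - z) * sol τ x₀ α β z x) x := by
  obtain ⟨C, hC, b1, b2⟩ := exists_bound hX
  have hA := AA_deriv (y1_cont τ) (y2_cont τ) hC b1 b2 x₀ α β z x
  have hB := BB_deriv (y1_cont τ) (y2_cont τ) hC b1 b2 x₀ α β z x
  refine (((dy1_deriv τ x).fun_mul hA).fun_add ((dy2_deriv τ x).fun_mul hB)).congr_deriv ?_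
  unfold sol
  have := wron τ x
  linear_combination (-z * (y1 τ x * AA (y1 τ) (y2 τ) x₀ α β z x +
    y2 τ x * BB (y1 τ) (y2 τ) x₀ α β z x)) * this

lemma sol_cont (x₀ : ℝ) (α β : ℂ) (z : ℂ) : Continuous (sol τ x₀ α β z) :=
  continuous_iff_continuousAt.2 fun x => (sol_deriv hX x₀ α β z x).continuousAt

lemma dsol_cont (x₀ : ℝ) (α β : ℂ) (z : ℂ) : Continuous (dsol τ x₀ α β z) :=
  continuous_iff_continuousAt.2 fun x => (dsol_deriv hX x₀ α β z x).continuousAt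

lemma sol_eq (x₀ : ℝ) (α β : ℂ) (z : ℂ) (x : ℝ) :
    sol τ x₀ α β z x = (y1 τ x₀ * α + y2 τ x₀ * β) + ∫ t in x₀..x, dsol τ x₀ α β z t := by
  rw [intervalIntegral.integral_eq_sub_of_hasDerivAt (fun x _ => sol_deriv hX x₀ α β z x)
    ((dsol_cont hX x₀ α β z).intervalIntegrable _ _)]
  have : sol τ x₀ α β z x₀ = y1 τ x₀ * α + y2 τ x₀ * β := by
    unfold sol; rw [AA_init, BB_init]
  rw [this]; ring

lemma dsol_eq (x₀ : ℝ) (α β : ℂ) (z : ℂ) (x : ℝ) :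
    dsol τ x₀ α β z x = (dy1 τ x₀ * α + dy2 τ x₀ * β) + ∫ t in x₀..x, (q τ t - z) * sol τ x₀ α β z t := by
  have hc := q_cont τ
  have hs := sol_cont hX x₀ α β z
  rw [intervalIntegral.integral_eq_sub_of_hasDerivAt (fun x _ => dsol_deriv hX x₀ α β z x)
    (Continuous.intervalIntegrable (by fun_prop) _ _)]
  have : dsol τ x₀ α β z x₀ = dy1 τ x₀ * α + dy2 τ x₀ * β := by
    unfold dsol; rw [AA_init, BB_init]
  rw [this]; ring

/-- coefficients of the expansion of `v A + w B` in powers of `z` -/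
lemma entcomb (x₀ : ℝ) (α β v w : ℂ) (x : ℝ) :
    Ent (fun n => v * (ab (y1 τ) (y2 τ) x₀ α β n x).1 + w * (ab (y1 τ) (y2 τ) x₀ α β n x).2) := by
  obtain ⟨C, hC, b1, b2⟩ := exists_bound hX
  exact ((ent1 (y1_cont τ) (y2_cont τ) hC b1 b2 x₀ α β x).const_mul v).add
    ((ent2 (y1_cont τ) (y2_cont τ) hC b1 b2 x₀ α β x).const_mul w)

lemma comb_eq (x₀ : ℝ) (α β v w : ℂ) (x : ℝ) (z : ℂ) :
    v * AA (y1 τ) (y2 τ) x₀ α β z x + w * BB (y1 τ) (y2 τ) x₀ α β z x =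
      S (fun n => v * (ab (y1 τ) (y2 τ) x₀ α β n x).1 + w * (ab (y1 τ) (y2 τ) x₀ α β n x).2) z := by
  obtain ⟨C, hC, b1, b2⟩ := exists_bound hX
  rw [S_add ((ent1 (y1_cont τ) (y2_cont τ) hC b1 b2 x₀ α β x).const_mul v)
    ((ent2 (y1_cont τ) (y2_cont τ) hC b1 b2 x₀ α β x).const_mul w), S_const_mul, S_const_mul]
  rfl

/-- the order at `0` is at least one if the value at `0` vanishes -/
lemma one_le_order (x₀ : ℝ) (α β v w : ℂ) (x : ℝ) (h : v * α + w * β = 0) :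
    1 ≤ analyticOrderAt (fun z => v * AA (y1 τ) (y2 τ) x₀ α β z x + w * BB (y1 τ) (y2 τ) x₀ α β z x) 0 := by
  have he := entcomb hX x₀ α β v w x
  have hf : (fun z => v * AA (y1 τ) (y2 τ) x₀ α β z x + w * BB (y1 τ) (y2 τ) x₀ α β z x) =
      S (fun n => v * (ab (y1 τ) (y2 τ) x₀ α β n x).1 + w * (ab (y1 τ) (y2 τ) x₀ α β n x).2) := by
    funext z; exact comb_eq hX x₀ α β v w x z
  rw [hf]
  rw [Order.one_le_iff_ne_zero, (he.analyticAt 0).analyticOrderAt_ne_zero, S_zero]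
  simpa [ab] using h

/-- the order at `0` is one if the value vanishes and the derivative does not -/
lemma order_le_one (x₀ : ℝ) (α β v w : ℂ) (x : ℝ) (h : v * α + w * β = 0)
    (h1 : v * (ab (y1 τ) (y2 τ) x₀ α β 1 x).1 + w * (ab (y1 τ) (y2 τ) x₀ α β 1 x).2 ≠ 0) :
    analyticOrderAt (fun z => v * AA (y1 τ) (y2 τ) x₀ α β z x + w * BB (y1 τ) (y2 τ) x₀ α β z x) 0 ≤ 1 := by
  have he := entcomb hX x₀ α β v w x
  have hf : (fun z => v * AA (y1 τ) (y2 τ) x₀ α β z x + w * BB (y1 τ) (y2 τ) x₀ α β z x) =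
      S (fun n => v * (ab (y1 τ) (y2 τ) x₀ α β n x).1 + w * (ab (y1 τ) (y2 τ) x₀ α β n x).2) := by
    funext z; exact comb_eq hX x₀ α β v w x z
  rw [hf]
  have h2 := (he.analyticAt 0).analyticOrderAt_sub_eq_one_of_deriv_ne_zero
    (by rw [(hasDerivAt_S_zero he).deriv]; exact h1)
  have h3 : S (fun n => v * (ab (y1 τ) (y2 τ) x₀ α β n x).1 + w * (ab (y1 τ) (y2 τ) x₀ α β n x).2) 0 = 0 := by
    rw [S_zero]; simpa [ab] using h
  simp only [h3, sub_zero] at h2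
  exact h2.le

omit hX in
lemma int_shift {f : ℝ → ℂ} (hf : ∀ x, f (x + 2 * Real.pi) = f x) (x₀ : ℝ) :
    ∫ x in x₀..(x₀ + 2 * Real.pi), f x = ∫ x in (0 : ℝ)..(2 * Real.pi), f x := by
  have := (show Function.Periodic f (2 * Real.pi) from hf).intervalIntegral_add_eq x₀ 0
  simpa using this

lemma ab_one (x₀ : ℝ) (α β : ℂ) :
    (ab (y1 τ) (y2 τ) x₀ α β 1 (x₀ + 2 * Real.pi)).1 =
      β * ∫ x in (0 : ℝ)..(2 * Real.pi), y2 τ x * y2 τ x ∧
    (ab (y1 τ) (y2 τ) x₀ α β 1 (x₀ + 2 * Real.pi)).2 = 0 := by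
  have h1c := y1_cont τ
  have h2c := y2_cont τ
  have e1 : ∫ x in x₀..(x₀ + 2 * Real.pi), y1 τ x * y1 τ x = 0 := by
    rw [int_shift (fun x => by simp only [y1_per]), int_y1_sq hX]
  have e2 : ∫ x in x₀..(x₀ + 2 * Real.pi), y1 τ x * y2 τ x = 0 := by
    rw [int_shift (fun x => by simp only [y1_per, y2_per hX]), int_y1_y2 hX]
  have e3 : ∫ x in x₀..(x₀ + 2 * Real.pi), y2 τ x * y2 τ x =
      ∫ x in (0 : ℝ)..(2 * Real.pi), y2 τ x * y2 τ x :=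
    int_shift (fun x => by simp only [y2_per hX]) x₀
  constructor
  · have : ∀ t, y2 τ t * (y1 τ t * α + y2 τ t * β) = α * (y1 τ t * y2 τ t) + β * (y2 τ t * y2 τ t) := by
      intro t; ring
    simp only [ab, this]
    rw [intervalIntegral.integral_add (Continuous.intervalIntegrable (by fun_prop) _ _)
      (Continuous.intervalIntegrable (by fun_prop) _ _), intervalIntegral.integral_const_mul,
      intervalIntegral.integral_const_mul, e2, e3]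
    ring
  · have : ∀ t, y1 τ t * (y1 τ t * α + y2 τ t * β) = α * (y1 τ t * y1 τ t) + β * (y1 τ t * y2 τ t) := by
      intro t; ring
    simp only [ab, this]
    rw [intervalIntegral.integral_add (Continuous.intervalIntegrable (by fun_prop) _ _)
      (Continuous.intervalIntegrable (by fun_prop) _ _), intervalIntegral.integral_const_mul,
      intervalIntegral.integral_const_mul, e1, e2]
    ring

omit hX in
lemma y2_zero : y2 τ 0 = 0 := by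
  unfold y2 W; rw [X_zero, Y_zero]; simp

omit hX in
lemma dy1_zero : dy1 τ 0 = 0 := by
  unfold dy1; simp

/-- the second coefficient of the trace vanishes -/
lemma trace_two :
    dy2 τ 0 * y1 τ 0 = 1 ∧
    y1 τ 0 * (ab (y1 τ) (y2 τ) 0 (dy2 τ 0) 0 2 (2 * Real.pi)).1 +
      dy2 τ 0 * (ab (y1 τ) (y2 τ) 0 0 (y1 τ 0) 2 (2 * Real.pi)).2 = 0 := by
  have h1c := y1_cont τ
  have h2c := y2_cont τ
  have hw : dy2 τ 0 * y1 τ 0 = 1 := by
    have := wron τ 0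
    rw [dy1_zero] at this
    linear_combination this
  refine ⟨hw, ?_⟩
  set P : ℝ → ℂ := fun x => ∫ t in (0 : ℝ)..x, y1 τ t * y2 τ t with hP
  set Q : ℝ → ℂ := fun x => ∫ t in (0 : ℝ)..x, y1 τ t * y1 τ t with hQ
  set R : ℝ → ℂ := fun x => ∫ t in (0 : ℝ)..x, y2 τ t * y2 τ t with hR
  have hPd : ∀ x, HasDerivAt P (y1 τ x * y2 τ x) x := fun x => by
    have hc : Continuous fun t : ℝ => y1 τ t * y2 τ t := by fun_prop
    exact intervalIntegral.integral_hasDerivAt_right (hc.intervalIntegrable _ _)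
      (hc.stronglyMeasurableAtFilter _ _) hc.continuousAt
  have hQd : ∀ x, HasDerivAt Q (y1 τ x * y1 τ x) x := fun x => by
    have hc : Continuous fun t : ℝ => y1 τ t * y1 τ t := by fun_prop
    exact intervalIntegral.integral_hasDerivAt_right (hc.intervalIntegrable _ _)
      (hc.stronglyMeasurableAtFilter _ _) hc.continuousAt
  have hRd : ∀ x, HasDerivAt R (y2 τ x * y2 τ x) x := fun x => by
    have hc : Continuous fun t : ℝ => y2 τ t * y2 τ t := by fun_prop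
    exact intervalIntegral.integral_hasDerivAt_right (hc.intervalIntegrable _ _)
      (hc.stronglyMeasurableAtFilter _ _) hc.continuousAt
  have hPc : Continuous P := continuous_iff_continuousAt.2 fun x => (hPd x).continuousAt
  have hQc : Continuous Q := continuous_iff_continuousAt.2 fun x => (hQd x).continuousAt
  have hRc : Continuous R := continuous_iff_continuousAt.2 fun x => (hRd x).continuousAt
  have a1 : ∀ x, (ab (y1 τ) (y2 τ) 0 (dy2 τ 0) 0 1 x).1 = dy2 τ 0 * P x := by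
    intro x
    simp only [ab, hP, mul_zero, add_zero]
    rw [← intervalIntegral.integral_const_mul]
    congr 1; funext t; ring
  have a2 : ∀ x, (ab (y1 τ) (y2 τ) 0 (dy2 τ 0) 0 1 x).2 = -(dy2 τ 0 * Q x) := by
    intro x
    simp only [ab, hQ, mul_zero, add_zero]
    rw [← intervalIntegral.integral_const_mul]
    congr 2; funext t; ring
  have b1 : ∀ x, (ab (y1 τ) (y2 τ) 0 0 (y1 τ 0) 1 x).1 = y1 τ 0 * R x := by
    intro x
    simp only [ab, hR, mul_zero, zero_add]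
    rw [← intervalIntegral.integral_const_mul]
    congr 1; funext t; ring
  have b2 : ∀ x, (ab (y1 τ) (y2 τ) 0 0 (y1 τ 0) 1 x).2 = -(y1 τ 0 * P x) := by
    intro x
    simp only [ab, hP, mul_zero, zero_add]
    rw [← intervalIntegral.integral_const_mul]
    congr 2; funext t; ring
  have c1 : (ab (y1 τ) (y2 τ) 0 (dy2 τ 0) 0 2 (2 * Real.pi)).1 =
      ∫ t in (0 : ℝ)..(2 * Real.pi), y2 τ t * (y1 τ t * (dy2 τ 0 * P t) + y2 τ t * (-(dy2 τ 0 * Q t))) := by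
    have h : (ab (y1 τ) (y2 τ) 0 (dy2 τ 0) 0 2 (2 * Real.pi)).1 =
      ∫ t in (0 : ℝ)..(2 * Real.pi), y2 τ t * (y1 τ t * (ab (y1 τ) (y2 τ) 0 (dy2 τ 0) 0 1 t).1 +
        y2 τ t * (ab (y1 τ) (y2 τ) 0 (dy2 τ 0) 0 1 t).2) := rfl
    rw [h]; simp only [a1, a2]
  have c2 : (ab (y1 τ) (y2 τ) 0 0 (y1 τ 0) 2 (2 * Real.pi)).2 =
      -∫ t in (0 : ℝ)..(2 * Real.pi), y1 τ t * (y1 τ t * (y1 τ 0 * R t) + y2 τ t * (-(y1 τ 0 * P t))) := by
    have h : (ab (y1 τ) (y2 τ) 0 0 (y1 τ 0) 2 (2 * Real.pi)).2 =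
      -∫ t in (0 : ℝ)..(2 * Real.pi), y1 τ t * (y1 τ t * (ab (y1 τ) (y2 τ) 0 0 (y1 τ 0) 1 t).1 +
        y2 τ t * (ab (y1 τ) (y2 τ) 0 0 (y1 τ 0) 1 t).2) := rfl
    rw [h]; simp only [b1, b2]
  rw [c1, c2]
  have hD : ∀ x, HasDerivAt (fun x => P x ^ 2 - Q x * R x)
      (y1 τ 0 * (y2 τ x * (y1 τ x * (dy2 τ 0 * P x) + y2 τ x * (-(dy2 τ 0 * Q x)))) -
        dy2 τ 0 * (y1 τ x * (y1 τ x * (y1 τ 0 * R x) + y2 τ x * (-(y1 τ 0 * P x))))) x := by
    intro x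
    refine (((hPd x).fun_pow 2).fun_sub ((hQd x).fun_mul (hRd x))).congr_deriv ?_
    push_cast
    linear_combination (-(2 * P x * y1 τ x * y2 τ x) + y1 τ x * y1 τ x * R x + Q x * y2 τ x * y2 τ x) * hw
  have h0 : y1 τ 0 * (∫ t in (0 : ℝ)..(2 * Real.pi), y2 τ t * (y1 τ t * (dy2 τ 0 * P t) + y2 τ t * (-(dy2 τ 0 * Q t)))) +
      dy2 τ 0 * (-∫ t in (0 : ℝ)..(2 * Real.pi), y1 τ t * (y1 τ t * (y1 τ 0 * R t) + y2 τ t * (-(y1 τ 0 * P t)))) =
      ∫ x in (0 : ℝ)..(2 * Real.pi), (y1 τ 0 * (y2 τ x * (y1 τ x * (dy2 τ 0 * P x) + y2 τ x * (-(dy2 τ 0 * Q x)))) -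
        dy2 τ 0 * (y1 τ x * (y1 τ x * (y1 τ 0 * R x) + y2 τ x * (-(y1 τ 0 * P x))))) := by
    rw [intervalIntegral.integral_sub (Continuous.intervalIntegrable (by fun_prop) _ _)
      (Continuous.intervalIntegrable (by fun_prop) _ _), intervalIntegral.integral_const_mul,
      intervalIntegral.integral_const_mul]
    ring
  rw [h0, intervalIntegral.integral_eq_sub_of_hasDerivAt (fun x _ => hD x)
    (Continuous.intervalIntegrable (by fun_prop) _ _)]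
  have p1 : P (2 * Real.pi) = 0 := int_y1_y2 hX
  have p2 : Q (2 * Real.pi) = 0 := int_y1_sq hX
  have p3 : P 0 = 0 := by simp [hP]
  have p4 : Q 0 = 0 := by simp [hQ]
  simp [p1, p2, p3, p4]

/-- the discriminant minus four has a zero of order at least three -/
lemma three_le_order :
    3 ≤ analyticOrderAt (fun w : ℂ => (sol τ 0 (dy2 τ 0) (-dy1 τ 0) w (2 * Real.pi) +
      dsol τ 0 (-y2 τ 0) (y1 τ 0) w (2 * Real.pi)) ^ 2 - 4) 0 := by
  obtain ⟨hw, h2⟩ := trace_two hX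
  have y1p : y1 τ (2 * Real.pi) = y1 τ 0 := by simpa using y1_per τ 0
  have y2p : y2 τ (2 * Real.pi) = y2 τ 0 := by simpa using y2_per hX 0
  have dy1p : dy1 τ (2 * Real.pi) = dy1 τ 0 := by simpa using dy1_per τ 0
  have dy2p : dy2 τ (2 * Real.pi) = dy2 τ 0 := by simpa using dy2_per hX 0
  set f : ℕ → ℂ := fun n =>
    (y1 τ 0 * (ab (y1 τ) (y2 τ) 0 (dy2 τ 0) 0 n (2 * Real.pi)).1 + 0 * (ab (y1 τ) (y2 τ) 0 (dy2 τ 0) 0 n (2 * Real.pi)).2) +
    (0 * (ab (y1 τ) (y2 τ) 0 0 (y1 τ 0) n (2 * Real.pi)).1 + dy2 τ 0 * (ab (y1 τ) (y2 τ) 0 0 (y1 τ 0) n (2 * Real.pi)).2)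
    with hf
  have he : Ent f := (entcomb hX 0 (dy2 τ 0) 0 (y1 τ 0) 0 (2 * Real.pi)).add
    (entcomb hX 0 0 (y1 τ 0) 0 (dy2 τ 0) (2 * Real.pi))
  have hT : ∀ w, sol τ 0 (dy2 τ 0) (-dy1 τ 0) w (2 * Real.pi) + dsol τ 0 (-y2 τ 0) (y1 τ 0) w (2 * Real.pi) = S f w := by
    intro w
    rw [hf, S_add (entcomb hX 0 (dy2 τ 0) 0 (y1 τ 0) 0 (2 * Real.pi))
      (entcomb hX 0 0 (y1 τ 0) 0 (dy2 τ 0) (2 * Real.pi)), ← comb_eq hX, ← comb_eq hX]
    unfold sol dsol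
    rw [y1p, y2p, dy1p, dy2p, y2_zero, dy1_zero, neg_zero]
  have f0 : f 0 = 2 := by
    simp only [hf, ab]
    linear_combination 2 * hw
  have f1 : f 1 = 0 := by
    have e1 := (ab_one hX 0 (dy2 τ 0) 0).1
    have e2 := (ab_one hX 0 0 (y1 τ 0)).2
    rw [zero_add] at e1 e2
    simp only [hf]
    rw [e1, e2]; ring
  have f2 : f 2 = 0 := by
    simp only [hf]
    linear_combination h2
  have hS : ∀ w, S f w = 2 + w ^ 3 * S (fun n => f (n + 3)) w := by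
    intro w
    rw [S_succ he, S_succ (he.shift 1), S_succ (he.shift 2), f0]
    simp only [zero_add]
    have e3 : (fun n => f (n + 1 + 2)) = fun n => f (n + 3) := by
      funext n; congr 1
    rw [f1, f2, e3]; ring
  have hg : AnalyticAt ℂ (S fun n => f (n + 3)) 0 := (he.shift 3).analyticAt 0
  have hfun : (fun w : ℂ => (sol τ 0 (dy2 τ 0) (-dy1 τ 0) w (2 * Real.pi) +
      dsol τ 0 (-y2 τ 0) (y1 τ 0) w (2 * Real.pi)) ^ 2 - 4) =
      fun w => (w - 0) ^ 3 • (4 * S (fun n => f (n + 3)) w + w ^ 3 * S (fun n => f (n + 3)) w ^ 2) := by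
    funext w
    rw [hT, hS, smul_eq_mul]; ring
  rw [hfun]
  have hga : AnalyticAt ℂ (fun w => 4 * S (fun n => f (n + 3)) w + w ^ 3 * S (fun n => f (n + 3)) w ^ 2) 0 := by
    fun_prop
  have := (natCast_le_analyticOrderAt (n := 3) (𝕜 := ℂ) (z₀ := 0) (f := fun w => (w - 0) ^ 3 • (4 * S (fun n => f (n + 3)) w + w ^ 3 * S (fun n => f (n + 3)) w ^ 2))
    (by fun_prop)).2 ⟨_, hga, Filter.Eventually.of_forall fun w => rfl⟩
  exact_mod_cast this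

end


/-- The negation of the preceding statement: For any locally integrable complex a-periodic q, if the zero order of (tr M)^2-4 at z exceeds the sum of the minimal (over base points in [0,a]) Dirichlet and Neumann zero orders at z, then that sum is 0. -/
theorem result :
    ¬ (∀ (a : ℝ), 0 < a → ∀ q : ℝ → ℂ, Function.Periodic q a →
    MeasureTheory.LocallyIntegrable q MeasureTheory.volume →
    ∀ c dc s ds : ℝ → ℂ → ℝ → ℂ,
    (∀ (x₀ : ℝ) (z : ℂ), Continuous (c x₀ z) ∧ Continuous (dc x₀ z) ∧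
      Continuous (s x₀ z) ∧ Continuous (ds x₀ z) ∧
      ∀ x : ℝ,
        (c x₀ z x = 1 + ∫ t in x₀..x, dc x₀ z t) ∧
        (dc x₀ z x = ∫ t in x₀..x, (q t - z) * c x₀ z t) ∧
        (s x₀ z x = ∫ t in x₀..x, ds x₀ z t) ∧
        (ds x₀ z x = 1 + ∫ t in x₀..x, (q t - z) * s x₀ z t)) →
    ∀ z : ℂ,
      (⨅ x₀ ∈ Set.Icc (0 : ℝ) a, analyticOrderAt (fun w : ℂ => s x₀ w (x₀ + a)) z) +
        (⨅ x₀ ∈ Set.Icc (0 : ℝ) a, analyticOrderAt (fun w : ℂ => dc x₀ w (x₀ + a)) z)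
        < analyticOrderAt (fun w : ℂ => (c 0 w a + ds 0 w a) ^ 2 - 4) z →
      (⨅ x₀ ∈ Set.Icc (0 : ℝ) a, analyticOrderAt (fun w : ℂ => s x₀ w (x₀ + a)) z) +
        (⨅ x₀ ∈ Set.Icc (0 : ℝ) a, analyticOrderAt (fun w : ℂ => dc x₀ w (x₀ + a)) z) = 0) := by
  intro H
  obtain ⟨j, hj0, hjπ, hj⟩ := exists_zero
  set τ : ℝ := j / 2 with hτ
  have h2τ : 2 * τ = j := by rw [hτ]; ring
  have hX : X (2 * τ) (Real.pi / 2) = 0 := by rw [h2τ]; exact hj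
  have hR := int_y2_sq_ne hX (by rw [h2τ]; exact hj0) (by rw [h2τ]; exact hjπ)
  have hτ0 : τ ≠ 0 := by rw [hτ]; positivity
  have key := H (2 * Real.pi) (by positivity) (q τ) (fun x => q_per τ x) (q_cont τ).locallyIntegrable
    (fun x₀ z x => sol τ x₀ (dy2 τ x₀) (-dy1 τ x₀) z x)
    (fun x₀ z x => dsol τ x₀ (dy2 τ x₀) (-dy1 τ x₀) z x)
    (fun x₀ z x => sol τ x₀ (-y2 τ x₀) (y1 τ x₀) z x)
    (fun x₀ z x => dsol τ x₀ (-y2 τ x₀) (y1 τ x₀) z x)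
    (by
      intro x₀ z
      refine ⟨sol_cont hX _ _ _ _, dsol_cont hX _ _ _ _, sol_cont hX _ _ _ _, dsol_cont hX _ _ _ _,
        fun x => ⟨?_, ?_, ?_, ?_⟩⟩
      · have := sol_eq hX x₀ (dy2 τ x₀) (-dy1 τ x₀) z x
        have hw := wron τ x₀
        rw [show y1 τ x₀ * dy2 τ x₀ + y2 τ x₀ * -dy1 τ x₀ = 1 by linear_combination hw] at this
        exact this
      · have := dsol_eq hX x₀ (dy2 τ x₀) (-dy1 τ x₀) z x
        rw [show dy1 τ x₀ * dy2 τ x₀ + dy2 τ x₀ * -dy1 τ x₀ = 0 by ring, zero_add] at this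
        exact this
      · have := sol_eq hX x₀ (-y2 τ x₀) (y1 τ x₀) z x
        rw [show y1 τ x₀ * -y2 τ x₀ + y2 τ x₀ * y1 τ x₀ = 0 by ring, zero_add] at this
        exact this
      · have := dsol_eq hX x₀ (-y2 τ x₀) (y1 τ x₀) z x
        have hw := wron τ x₀
        rw [show dy1 τ x₀ * -y2 τ x₀ + dy2 τ x₀ * y1 τ x₀ = 1 by linear_combination hw] at this
        exact this)
    0
  have hs : ∀ x₀, (fun w : ℂ => sol τ x₀ (-y2 τ x₀) (y1 τ x₀) w (x₀ + 2 * Real.pi)) =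
      fun w => y1 τ x₀ * AA (y1 τ) (y2 τ) x₀ (-y2 τ x₀) (y1 τ x₀) w (x₀ + 2 * Real.pi) +
        y2 τ x₀ * BB (y1 τ) (y2 τ) x₀ (-y2 τ x₀) (y1 τ x₀) w (x₀ + 2 * Real.pi) := by
    intro x₀; funext w; unfold sol; rw [y1_per, y2_per hX]
  have hd : ∀ x₀, (fun w : ℂ => dsol τ x₀ (dy2 τ x₀) (-dy1 τ x₀) w (x₀ + 2 * Real.pi)) =
      fun w => dy1 τ x₀ * AA (y1 τ) (y2 τ) x₀ (dy2 τ x₀) (-dy1 τ x₀) w (x₀ + 2 * Real.pi) +
        dy2 τ x₀ * BB (y1 τ) (y2 τ) x₀ (dy2 τ x₀) (-dy1 τ x₀) w (x₀ + 2 * Real.pi) := by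
    intro x₀; funext w; unfold dsol; rw [dy1_per, dy2_per hX]
  have s_ge : 1 ≤ ⨅ x₀ ∈ Set.Icc (0 : ℝ) (2 * Real.pi),
      analyticOrderAt (fun w : ℂ => sol τ x₀ (-y2 τ x₀) (y1 τ x₀) w (x₀ + 2 * Real.pi)) 0 := by
    refine le_iInf₂ fun x₀ _ => ?_
    rw [hs]
    exact one_le_order hX _ _ _ _ _ _ (by ring)
  have hmem : Real.pi / 2 ∈ Set.Icc (0 : ℝ) (2 * Real.pi) := by
    constructor <;> linarith [Real.pi_pos]
  have hy1 : y1 τ (Real.pi / 2) ≠ 0 := by unfold y1; exact Complex.exp_ne_zero _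
  have hdy1 : dy1 τ (Real.pi / 2) ≠ 0 := by
    unfold dy1
    have : y1 τ (Real.pi / 2) ≠ 0 := hy1
    simp [this, hτ0]
  have s_le : ⨅ x₀ ∈ Set.Icc (0 : ℝ) (2 * Real.pi),
      analyticOrderAt (fun w : ℂ => sol τ x₀ (-y2 τ x₀) (y1 τ x₀) w (x₀ + 2 * Real.pi)) 0 ≤ 1 := by
    refine (iInf₂_le (Real.pi / 2) hmem).trans ?_
    rw [hs]
    refine order_le_one hX _ _ _ _ _ _ (by ring) ?_
    obtain ⟨e1, e2⟩ := ab_one hX (Real.pi / 2) (-y2 τ (Real.pi / 2)) (y1 τ (Real.pi / 2))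
    rw [e1, e2, mul_zero, add_zero]
    exact mul_ne_zero hy1 (mul_ne_zero hy1 hR)
  have d_le : ⨅ x₀ ∈ Set.Icc (0 : ℝ) (2 * Real.pi),
      analyticOrderAt (fun w : ℂ => dsol τ x₀ (dy2 τ x₀) (-dy1 τ x₀) w (x₀ + 2 * Real.pi)) 0 ≤ 1 := by
    refine (iInf₂_le (Real.pi / 2) hmem).trans ?_
    rw [hd]
    refine order_le_one hX _ _ _ _ _ _ (by ring) ?_
    obtain ⟨e1, e2⟩ := ab_one hX (Real.pi / 2) (dy2 τ (Real.pi / 2)) (-dy1 τ (Real.pi / 2))
    rw [e1, e2, mul_zero, add_zero]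
    exact mul_ne_zero hdy1 (mul_ne_zero (neg_ne_zero.2 hdy1) hR)
  have h3 := three_le_order hX
  have hlt : (⨅ x₀ ∈ Set.Icc (0 : ℝ) (2 * Real.pi),
      analyticOrderAt (fun w : ℂ => sol τ x₀ (-y2 τ x₀) (y1 τ x₀) w (x₀ + 2 * Real.pi)) 0) +
      (⨅ x₀ ∈ Set.Icc (0 : ℝ) (2 * Real.pi),
      analyticOrderAt (fun w : ℂ => dsol τ x₀ (dy2 τ x₀) (-dy1 τ x₀) w (x₀ + 2 * Real.pi)) 0) < 3 := by
    refine lt_of_le_of_lt (add_le_add s_le d_le) ?_
    norm_num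
  have h0 := key (lt_of_lt_of_le hlt h3)
  have h1 := (add_eq_zero.1 h0).1
  rw [h1] at s_ge
  simp at s_ge

end Pool.Agent.S03258
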