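import Pool.Statements.S03276
import Pool.Agent.H783R2.Arc.Fin

set_option autoImplicit false
open Pool Pool.MP_5b6e6e_an

namespace Pool.Agent.S03276

/-- The negation of the preceding statement: For every planar domain with nonpolar complement there is a boundary set E of full harmonic measure such that each z in E has measurable arcs in Ω on circles about z whose angular measure has area-weighted average density tending to 1/2. -/
theorem result :
    ¬ (∀ Ω : Set ℂ, IsOpen Ω → IsConnected Ω →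
    (∃ u : ℂ → ENNReal,
      (LowerSemicontinuousOn u Ω ∧ ∀ a : ℂ, ∀ r : ℝ, 0 < r → Metric.closedBall a r ⊆ Ω →
        ∫⁻ t in Set.Ioc (0:ℝ) (2 * Real.pi), u (a + (r:ℂ) * Complex.exp ((t:ℂ) * Complex.I))
          ≤ ENNReal.ofReal (2 * Real.pi) * u a) ∧
      ∃ z ∈ Ω, ∃ w ∈ Ω, u z < u w ∧ u w < ⊤) →
    ∃ E ⊆ frontier Ω,
      (∀ z ∈ Ω, ∀ ε : ENNReal, 0 < ε → ∃ u : ℂ → ENNReal,
        (LowerSemicontinuousOn u Ω ∧ ∀ a : ℂ, ∀ r : ℝ, 0 < r → Metric.closedBall a r ⊆ Ω →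
          ∫⁻ t in Set.Ioc (0:ℝ) (2 * Real.pi), u (a + (r:ℂ) * Complex.exp ((t:ℂ) * Complex.I))
            ≤ ENNReal.ofReal (2 * Real.pi) * u a) ∧
        (∀ ζ ∈ frontier Ω \ E, 1 ≤ Filter.liminf u (nhdsWithin ζ Ω)) ∧ u z < ε) ∧
      ∀ z ∈ E, ∃ a b : ℝ → ℝ, Measurable (fun r => b r - a r) ∧
        (∀ r : ℝ, 0 < r → a r ≤ b r ∧ b r - a r ≤ 2 * Real.pi ∧
          ∀ t ∈ Set.Ioo (a r) (b r), z + (r:ℂ) * Complex.exp ((t:ℂ) * Complex.I) ∈ Ω) ∧
        Filter.Tendsto (fun R : ℝ => (Real.pi * R ^ 2)⁻¹ * ∫ r in (0:ℝ)..R, (b r - a r) * r)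
          (nhdsWithin 0 (Set.Ioi 0)) (nhds (1/2))) := by
  intro H
  obtain ⟨E, hE, hnull, harc⟩ := H Pool.Agent.H783R2.Om Pool.Agent.H783R2.isOpen_Om
    ⟨Pool.Agent.H783R2.Om_ne, Pool.Agent.H783R2.isPreconnected_Om⟩ Pool.Agent.H783R2.nonconst
  obtain ⟨z0, hz0, hgame⟩ := Pool.Agent.H783R2.game
  obtain ⟨u, ⟨hlsc, hmean⟩, hbd, hsmall⟩ := hnull z0 hz0 (ENNReal.ofReal (1/2)) (by
    rw [ENNReal.ofReal_pos]; norm_num)
  have hlt : (min (u z0) 1).toReal < 1/2 := by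
    have h1 : min (u z0) 1 < ENNReal.ofReal (1/2) := lt_of_le_of_lt (min_le_left _ _) hsmall
    have h2 := (ENNReal.toReal_lt_toReal (ne_top_of_le_ne_top ENNReal.one_ne_top
      (min_le_right _ _)) ENNReal.ofReal_ne_top).2 h1
    rwa [ENNReal.toReal_ofReal (by norm_num)] at h2
  obtain ⟨ζ, hζK, hζcl, hbad, hfreq⟩ := hgame _ (Pool.Agent.H783R2.SH_of_frozen hlsc hmean) hlt
  have hζfr : ζ ∈ frontier Pool.Agent.H783R2.Om := by
    rw [Pool.Agent.H783R2.isOpen_Om.frontier_eq]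
    exact ⟨hζcl, fun h => h.2 hζK⟩
  by_cases hζE : ζ ∈ E
  · obtain ⟨a, b, hm, hab, hT⟩ := harc ζ hζE
    exact Pool.Agent.H783R2.bad_no_arcs hbad hm hab hT
  · have h1 := hbd ζ ⟨hζfr, hζE⟩
    have h2 : ENNReal.ofReal (3/4) < Filter.liminf u (nhdsWithin ζ Pool.Agent.H783R2.Om) :=
      lt_of_lt_of_le (by
        rw [← ENNReal.ofReal_one]
        exact (ENNReal.ofReal_lt_ofReal_iff (by norm_num)).2 (by norm_num)) h1
    have h3 := Filter.eventually_lt_of_lt_liminf h2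
    obtain ⟨z, hz1, hz2⟩ := (hfreq.and_eventually h3).exists
    have h4 : ENNReal.ofReal (3/4) < min (u z) 1 := lt_min hz2 (by
      rw [← ENNReal.ofReal_one]
      exact (ENNReal.ofReal_lt_ofReal_iff (by norm_num)).2 (by norm_num))
    have h5 := (ENNReal.ofReal_lt_iff_lt_toReal (by norm_num) (ne_top_of_le_ne_top
      ENNReal.one_ne_top (min_le_right _ _))).1 h4
    linarith

end Pool.Agent.S03276
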