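import Pool.Statements.S03348
import Pool.Agent.H795R2.FhcC

set_option autoImplicit false
open Pool Pool.MP_63a02b_an

namespace Pool.Agent.S03348

/-- an enumeration of `ℚ + √2` in which each value occurs infinitely often -/
noncomputable def tt (k : ℕ) : ℝ :=
  (((exists_surjective_nat ℚ).choose (Nat.unpair k).1 : ℚ) : ℝ) + Real.sqrt 2

lemma tt_inf (k K : ℕ) : ∃ j, K ≤ j ∧ tt j = tt k := by
  refine ⟨Nat.pair (Nat.unpair k).1 K, Nat.right_le_pair _ _, ?_⟩
  unfold tt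
  rw [Nat.unpair_pair]

lemma tt_irrational (k : ℕ) : Irrational (tt k) := by
  unfold tt
  exact irrational_sqrt_two.ratCast_add _

lemma tt_dense : Dense (Set.range fun k => (tt k : AddCircle (1 : ℝ))) := by
  have h1 : DenseRange (fun q : ℚ => (q : ℝ) + Real.sqrt 2) := by
    have h2 : DenseRange (fun x : ℝ => x + Real.sqrt 2) :=
      (Homeomorph.addRight (Real.sqrt 2)).surjective.denseRange
    exact h2.comp Rat.denseRange_cast (by fun_prop)
  have h3 : DenseRange (fun q : ℚ => (((q : ℝ) + Real.sqrt 2 : ℝ) : AddCircle (1 : ℝ))) := by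
    have h4 : DenseRange (fun x : ℝ => (x : AddCircle (1 : ℝ))) :=
      (QuotientAddGroup.mk_surjective).denseRange
    exact h4.comp h1 (AddCircle.continuous_mk' 1)
  have h5 : Set.range (fun q : ℚ => (((q : ℝ) + Real.sqrt 2 : ℝ) : AddCircle (1 : ℝ))) ⊆
      Set.range fun k => (tt k : AddCircle (1 : ℝ)) := by
    rintro _ ⟨q, rfl⟩
    obtain ⟨i, hi⟩ := (exists_surjective_nat ℚ).choose_spec q
    refine ⟨Nat.pair i 0, ?_⟩
    simp only [tt, Nat.unpair_pair, hi]
  exact h3.mono h5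

lemma tt_root (k m : ℕ) (hm : 0 < m) : (fourier 1 (tt k : AddCircle (1 : ℝ)) : ℂ) ^ m ≠ 1 := by
  intro h
  rw [fourier_coe_apply, ← Complex.exp_nat_mul, Complex.exp_eq_one_iff] at h
  obtain ⟨n, hn⟩ := h
  have hpi : (2 * Real.pi * Complex.I : ℂ) ≠ 0 := by
    simp [Real.pi_ne_zero]
  have h1 : (m : ℂ) * (tt k : ℂ) = n := by
    have : ((m : ℂ) * (tt k : ℂ)) * (2 * Real.pi * Complex.I) = n * (2 * Real.pi * Complex.I) := by
      rw [← hn]
      push_cast
      ring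
    exact mul_right_cancel₀ hpi this
  have h2 : (m : ℝ) * tt k = n := by exact_mod_cast h1
  exact ((tt_irrational k).natCast_mul hm.ne').ne_int n h2

/-- The negation of the preceding statement: Every operator on a real or complex separable F-space that is chaotic, topologically mixing and frequently hypercyclic admits a dense set X0 and a self-map S of X0 with the series of T^n x and S^n x unconditionally convergent and TSx = x on X0. -/
theorem result :
    ¬ (∀ (𝕂 : Type) [RCLike 𝕂] (X : Type) [AddCommGroup X] [Module 𝕂 X] [UniformSpace X]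
      [IsUniformAddGroup X] [CompleteSpace X] [TopologicalSpace.MetrizableSpace X]
      [TopologicalSpace.SeparableSpace X] [ContinuousSMul 𝕂 X] (T : X →L[𝕂] X),
      ((∃ x : X, Dense (Set.range (fun n : ℕ => (T ^ n) x))) ∧
        Dense {x : X | ∃ n : ℕ, 0 < n ∧ (T ^ n) x = x}) →
      (∀ U V : Set X, IsOpen U → IsOpen V → U.Nonempty → V.Nonempty →
        ∃ N : ℕ, ∀ n : ℕ, N ≤ n → ((⇑(T ^ n)) ⁻¹' V ∩ U).Nonempty) →
      (∃ x : X, ∀ U : Set X, IsOpen U → U.Nonempty →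
        ∃ δ : ℝ, 0 < δ ∧ ∃ N₀ : ℕ, ∀ N : ℕ, N₀ ≤ N →
          δ * (N : ℝ) ≤ (Nat.card {n : ℕ // n < N ∧ (T ^ n) x ∈ U} : ℝ)) →
      ∃ X₀ : Set X, Dense X₀ ∧ ∃ S : X → X, (∀ x ∈ X₀, S x ∈ X₀) ∧
        ∀ x ∈ X₀, Summable (fun n : ℕ => (T ^ n) x) ∧
          Summable (fun n : ℕ => S^[n] x) ∧ T (S x) = x) := by
  intro h
  set lam : ℕ → ℂ := fun k => fourier 1 (tt k : AddCircle (1 : ℝ)) with hlam
  have hfhc := Pool.Agent.H795R2.Fhc.fhc (lam := lam)
  refine Pool.Agent.H795R2.Fhc.not_criterion tt tt_dense tt_inf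
    (h ℂ (Pool.Agent.H795R2.Fhc.X lam) (Pool.Agent.H795R2.Fhc.T lam) ⟨?_, ?_⟩ ?_ hfhc)
  · obtain ⟨x, hx⟩ := hfhc
    refine ⟨x, ?_⟩
    rw [dense_iff_inter_open]
    intro U hU hUne
    obtain ⟨δ, hδ, N₀, hN⟩ := hx U hU hUne
    have h1 := hN (N₀ + 1) (by omega)
    by_contra hcon
    have h2 : IsEmpty {n : ℕ // n < N₀ + 1 ∧ (Pool.Agent.H795R2.Fhc.T lam ^ n) x ∈ U} := by
      refine ⟨fun n => hcon ⟨_, n.2.2, n.1, rfl⟩⟩
    rw [Nat.card_of_isEmpty] at h1
    have h3 : 0 < δ * ((N₀ + 1 : ℕ) : ℝ) := by positivity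
    push_cast at h1 h3
    linarith
  · exact Pool.Agent.H795R2.Fhc.periodic_dense fun k m hm => tt_root k m hm
  · exact Pool.Agent.H795R2.Fhc.mixing

end Pool.Agent.S03348
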