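import Pool.Statements.S03351
import Pool.Agent.H806R2.Chuaqui1
import Pool.Agent.H806R2.Chuaqui2

set_option autoImplicit false
open scoped Pointwise
open Pool Pool.MP_63c1ce_an

namespace Pool.Agent.S03351

/-- For any group G acting on X: if some countably additive mass-one measure on all subsets of X is zero on every set having infinitely many disjoint countably-equidecomposable copies in X, then some countably additive mass-one G-invariant measure on all subsets exists. -/
theorem result :
    ∀ (G X : Type) [Group G] [MulAction G X],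
      (∃ μ : Set X → ENNReal, μ Set.univ = 1 ∧
        (∀ s : ℕ → Set X, Pairwise (Function.onFun Disjoint s) →
            μ (⋃ n, s n) = ∑' n, μ (s n)) ∧
        (∀ A : Set X,
          (∃ B : ℕ → Set X, Pairwise (Function.onFun Disjoint B) ∧
            ∀ n, ∃ (P : ℕ → Set X) (g : ℕ → G),
              Pairwise (Function.onFun Disjoint P) ∧ (⋃ i, P i) = A ∧
              Pairwise (Function.onFun Disjoint (fun i => g i • P i)) ∧
              (⋃ i, g i • P i) = B n) →
          μ A = 0)) →
      ∃ ν : Set X → ENNReal, ν Set.univ = 1 ∧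
        (∀ s : ℕ → Set X, Pairwise (Function.onFun Disjoint s) →
            ν (⋃ n, s n) = ∑' n, ν (s n)) ∧
        ∀ (g : G) (A : Set X), ν (g • A) = ν A := by
  intro G X _ _ h
  obtain ⟨μ, hμ1, hμadd, hμ0⟩ := h
  letI : MeasurableSpace X := ⊤
  haveI : DiscreteMeasurableSpace X := ⟨fun _ => MeasurableSpace.measurableSet_top⟩
  -- the empty set has measure zero
  have hempty : μ ∅ = 0 := by
    have h1 := hμadd (fun _ : ℕ => (∅ : Set X)) (by
      intro i j _; simp [Function.onFun])
    rw [Set.iUnion_empty] at h1
    by_contra hne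
    rw [ENNReal.tsum_const_eq_top_of_ne_zero hne] at h1
    have h2 := hμadd (fun n : ℕ => if n = 0 then (Set.univ : Set X) else ∅) (by
      intro i j hij
      rw [Function.onFun]
      by_cases hi : i = 0
      · have hj : j ≠ 0 := fun h => hij (hi.trans h.symm)
        simp [hj]
      · simp [hi])
    have h3 : (⋃ n : ℕ, if n = 0 then (Set.univ : Set X) else ∅) = Set.univ := by
      rw [Set.eq_univ_iff_forall]
      intro x
      rw [Set.mem_iUnion]
      exact ⟨0, by simp⟩
    rw [h3, hμ1] at h2
    have h4 : μ ((fun n : ℕ => if n = 0 then (Set.univ : Set X) else ∅) 1) ≤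
      ∑' n, μ ((fun n : ℕ => if n = 0 then (Set.univ : Set X) else ∅) n) := ENNReal.le_tsum 1
    rw [← h2] at h4
    simp only [one_ne_zero, if_false, h1] at h4
    exact absurd h4 (by simp)
  -- the measure
  let M : MeasureTheory.Measure X := MeasureTheory.Measure.ofMeasurable (fun s _ => μ s) hempty
    (fun s _ hd => hμadd s hd)
  have hM : ∀ A : Set X, M A = μ A := fun A =>
    MeasureTheory.Measure.ofMeasurable_apply A MeasurableSet.of_discrete
  haveI : MeasureTheory.IsProbabilityMeasure M := ⟨by rw [hM, hμ1]⟩
  have hpack : ∀ A : Set X, H806R2.Chuaqui.Packed G A → M A = 0 := by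
    intro A hA
    rw [hM]
    exact hμ0 A hA
  obtain ⟨g, hg⟩ := H806R2.Chuaqui.exists_seq (G := G) M hpack
  -- the quasi-invariant measure
  let m : MeasureTheory.Measure X :=
    MeasureTheory.Measure.sum (fun n : ℕ => ((2 : ENNReal)⁻¹ ^ (n + 1)) •
      H806R2.Chuaqui.push M (g n)⁻¹)
  have hm : ∀ A : Set X, m A = ∑' n : ℕ, (2 : ENNReal)⁻¹ ^ (n + 1) * M (g n • A) := by
    intro A
    rw [MeasureTheory.Measure.sum_apply _ MeasurableSet.of_discrete]
    apply tsum_congr
    intro n
    rw [MeasureTheory.Measure.smul_apply, H806R2.Chuaqui.push_apply, inv_inv, smul_eq_mul]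
  have hm1 : m Set.univ = 1 := by
    rw [hm]
    simp only [Set.smul_set_univ, MeasureTheory.measure_univ, mul_one]
    rw [ENNReal.tsum_geometric_add_one, ENNReal.one_sub_inv_two, inv_inv]
    exact ENNReal.inv_mul_cancel (by simp) (by simp)
  haveI : MeasureTheory.IsProbabilityMeasure m := ⟨hm1⟩
  have hnull : ∀ A : Set X, m A = 0 ↔ ∀ h : G, M (h • A) = 0 := by
    intro A
    rw [hm, ENNReal.tsum_eq_zero]
    constructor
    · intro h0
      apply hg
      intro n
      have := h0 n
      rw [mul_eq_zero] at this
      rcases this with h1 | h1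
      · exfalso
        exact (pow_ne_zero (n + 1) (by simp)) h1
      · exact h1
    · intro h0 n
      rw [h0, mul_zero]
  have hq : ∀ h : G, (H806R2.Chuaqui.push m h).AbsolutelyContinuous m := by
    intro h A hA
    rw [H806R2.Chuaqui.push_apply, hnull]
    intro k
    rw [smul_smul]
    exact (hnull A).mp hA _
  obtain ⟨ν, hν1, hν2⟩ := H806R2.Chuaqui.exists_invariant hq hm1 (by
    intro W k hW
    rw [hnull]
    intro h
    apply hpack
    apply H806R2.Chuaqui.packed_of_translates (h • W) (fun n => k n * h⁻¹)
    simpa [smul_smul] using hW)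
  refine ⟨fun A => ν A, hν1, fun s hs => ?_, hν2⟩
  exact MeasureTheory.measure_iUnion hs (fun _ => MeasurableSet.of_discrete)

end Pool.Agent.S03351
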