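import Pool.Statements.S03369
import Pool.Agent.H576.FK.Final

set_option autoImplicit false
open Pool Pool.MP_675d17_an

namespace Pool.Agent.S03369

/-- If a real polynomial with all coefficients a_0..a_n positive has only real roots, then for every r ≥ 1 the polynomial whose k-th coefficient is the r×r Toeplitz minor det(a_{k-i+j}) also has only real roots, all negative. -/
theorem result :
    ∀ (p : Polynomial ℝ), (∀ k ≤ p.natDegree, 0 < p.coeff k) →
      p.roots.card = p.natDegree →
      ∀ r : ℕ, 1 ≤ r → ∀ q : Polynomial ℝ,
        q = ∑ k ∈ Finset.range (p.natDegree + 1),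
              Polynomial.C (Matrix.det (Matrix.of (fun i j : Fin r =>
                if 0 ≤ (k : ℤ) - ((i : ℕ) : ℤ) + ((j : ℕ) : ℤ)
                then p.coeff ((k : ℤ) - ((i : ℕ) : ℤ) + ((j : ℕ) : ℤ)).toNat
                else 0))) * Polynomial.X ^ k →
        q.roots.card = q.natDegree ∧ ∀ x ∈ q.roots, x < 0 := by
  exact Pool.Agent.H576.FK.final

end Pool.Agent.S03369
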