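import Pool.Statements.S03427

set_option autoImplicit false
open Pool Pool.MP_6efd37_an

namespace Pool.Agent.S03427

lemma ap {f : ℝ → ℝ} (hf : ∀ x h : ℝ, 0 < h → 2 * f x ≤ f (x + h) + f (x + 2 * h))
    {a b : ℝ} (h : a < b) : 2 * f a ≤ f b + f (2 * b - a) := by
  have := hf a (b - a) (by linarith)
  have e1 : a + (b - a) = b := by ring
  have e2 : a + 2 * (b - a) = 2 * b - a := by ring
  rwa [e1, e2] at this

/-- a descent makes `f` unbounded above just to the left of the lower point -/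
lemma unb {f : ℝ → ℝ} (hf : ∀ x h : ℝ, 0 < h → 2 * f x ≤ f (x + h) + f (x + 2 * h))
    {x y : ℝ} (h : x < y) (hxy : f y < f x) {ε : ℝ} (hε : 0 < ε) (M : ℝ) :
    ∃ z, y - ε < z ∧ z < y ∧ M < f z := by
  have key : ∀ n : ℕ, f y + 2 ^ n * (f x - f y) ≤ f (y - (y - x) / 2 ^ n) := by
    intro n
    induction n with
    | zero => simp
    | succ n ih =>
      have h2 : (0 : ℝ) < (y - x) / 2 ^ (n + 1) := by
        have : 0 < y - x := by linarith
        positivity
      have h1 := hf (y - (y - x) / 2 ^ n) ((y - x) / 2 ^ (n + 1)) h2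
      have e1 : y - (y - x) / 2 ^ n + (y - x) / 2 ^ (n + 1) = y - (y - x) / 2 ^ (n + 1) := by
        rw [pow_succ]; field_simp; ring
      have e2 : y - (y - x) / 2 ^ n + 2 * ((y - x) / 2 ^ (n + 1)) = y := by
        rw [pow_succ]; field_simp; ring
      rw [e1, e2] at h1
      have e3 : (2 : ℝ) ^ (n + 1) * (f x - f y) = 2 * (2 ^ n * (f x - f y)) := by ring
      rw [e3]
      linarith
  obtain ⟨n, hn⟩ := pow_unbounded_of_one_lt (max ((y - x) / ε) ((M - f y) / (f x - f y)))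
    (by norm_num : (1 : ℝ) < 2)
  have hn1 := lt_of_le_of_lt (le_max_left _ _) hn
  have hn2 := lt_of_le_of_lt (le_max_right _ _) hn
  have hd : 0 < f x - f y := by linarith
  have hp : (0 : ℝ) < 2 ^ n := by positivity
  refine ⟨y - (y - x) / 2 ^ n, ?_, ?_, ?_⟩
  · rw [div_lt_iff₀ hε] at hn1
    have : (y - x) / 2 ^ n < ε := by
      rw [div_lt_iff₀ hp]; linarith
    linarith
  · have : 0 < (y - x) / 2 ^ n := by
      have : 0 < y - x := by linarith
      positivity
    linarith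
  · rw [div_lt_iff₀ hd] at hn2
    have := key n
    linarith

/-- a difference of two low points, used far to the left of them -/
lemma step {f : ℝ → ℝ} (hf : ∀ x h : ℝ, 0 < h → 2 * f x ≤ f (x + h) + f (x + 2 * h))
    {k p q : ℝ} (hd : ∀ a b, p ≤ a → a < b → b ≤ q → ∃ s, a < s ∧ s < b ∧ f s ≤ k)
    {x lo hi : ℝ} (hp : p ≤ x) (hq : hi ≤ q) (h1 : lo < hi) (hlo : f lo ≤ k) (hhi : f hi ≤ k)
    (hx : x + 2 * (hi - lo) ≤ lo) : 4 * (f x - k) ≤ f (x + 2 * (hi - lo)) - k := by
  obtain ⟨s, s1, s2, s3⟩ := hd ((x + hi) / 2) ((x + hi + (hi - lo)) / 2) (by linarith)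
    (by linarith) (by linarith)
  have c1 := ap hf (a := 2 * s - hi) (b := s) (by linarith)
  rw [show 2 * s - (2 * s - hi) = hi by ring] at c1
  have c2 := ap hf (a := 2 * s - lo) (b := s) (by linarith)
  rw [show 2 * s - (2 * s - lo) = lo by ring] at c2
  have c3 := ap hf (a := x) (b := 2 * s - hi) (by linarith)
  have c4 := ap hf (a := 2 * (2 * s - hi) - x) (b := 2 * s - lo) (by linarith)
  rw [show 2 * (2 * s - lo) - (2 * (2 * s - hi) - x) = x + 2 * (hi - lo) by ring] at c4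
  linarith

lemma chain {f : ℝ → ℝ} (hf : ∀ x h : ℝ, 0 < h → 2 * f x ≤ f (x + h) + f (x + 2 * h))
    {k p q : ℝ} (hd : ∀ a b, p ≤ a → a < b → b ≤ q → ∃ s, a < s ∧ s < b ∧ f s ≤ k) (r : ℕ) :
    ∀ {x lo hi : ℝ}, p ≤ x → hi ≤ q → lo < hi → f lo ≤ k → f hi ≤ k →
      x + 2 * (hi - lo) ≤ lo → k < f x → 4 ^ (r + 1) * (f x - k) ≤ f (x + 2 * (hi - lo)) - k := by
  induction r with
  | zero =>
    intro x lo hi hp hq h1 hlo hhi hx _
    simpa using step hf hd hp hq h1 hlo hhi hx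
  | succ r ih =>
    intro x lo hi hp hq h1 hlo hhi hx hkx
    obtain ⟨m, m1, m2, m3⟩ := hd lo hi (by linarith) h1 hq
    have a1 := ih (x := x) (lo := lo) (hi := m) hp (by linarith) m1 hlo m3 (by linarith) hkx
    have a2 := step hf hd (x := x + 2 * (m - lo)) (lo := m) (hi := hi) (by linarith) hq m2 m3 hhi
      (by linarith)
    rw [show x + 2 * (m - lo) + 2 * (hi - m) = x + 2 * (hi - lo) by ring] at a2
    calc 4 ^ (r + 1 + 1) * (f x - k) = 4 * (4 ^ (r + 1) * (f x - k)) := by ring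
      _ ≤ 4 * (f (x + 2 * (m - lo)) - k) := by linarith
      _ ≤ _ := a2

/-- Every function from the reals to the reals with 2f(x) ≤ f(x+h)+f(x+2h) for all x and all h>0 is monotone (nondecreasing or nonincreasing), with no measurability assumed. -/
theorem result :
    ∀ f : ℝ → ℝ, (∀ x h : ℝ, 0 < h → 2 * f x ≤ f (x + h) + f (x + 2 * h)) →
      (Monotone f ∨ Antitone f) := by
  intro f hf
  left
  by_contra hmono
  rw [Monotone] at hmono
  push Not at hmono
  obtain ⟨x0, y0, hle, hlt⟩ := hmono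
  have hxy : x0 < y0 := lt_of_le_of_ne hle (by rintro rfl; exact lt_irrefl _ hlt)
  -- some sublevel set is dense in an interval to the right of `y0`
  have hcov : ⋃ n : ℕ, closure {x : ℝ | f x ≤ n} = Set.univ := by
    rw [Set.eq_univ_iff_forall]
    intro x
    obtain ⟨n, hn⟩ := exists_nat_ge (f x)
    exact Set.mem_iUnion.2 ⟨n, subset_closure hn⟩
  have hdense := dense_iUnion_interior_of_closed (fun n : ℕ => isClosed_closure
    (s := {x : ℝ | f x ≤ n})) hcov
  obtain ⟨z, hz1, hz2⟩ := hdense.exists_mem_open (isOpen_Ioi (a := y0)) ⟨y0 + 1, by simp⟩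
  obtain ⟨n, hn⟩ := Set.mem_iUnion.1 hz1
  have hopen : IsOpen (interior (closure {x : ℝ | f x ≤ n}) ∩ Set.Ioi y0) :=
    isOpen_interior.inter isOpen_Ioi
  obtain ⟨ε, hε, hball⟩ := Metric.isOpen_iff.1 hopen z ⟨hn, hz2⟩
  rw [Real.ball_eq_Ioo] at hball
  set p : ℝ := z - ε / 2 with hpdef
  set q : ℝ := z + ε / 2 with hqdef
  set k : ℝ := (n : ℝ) with hk
  have hsub : ∀ t, p ≤ t → t ≤ q → t ∈ closure {x : ℝ | f x ≤ k} ∧ y0 < t := by
    intro t h1 h2
    have := hball (show t ∈ Set.Ioo (z - ε) (z + ε) from ⟨by linarith, by linarith⟩)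
    exact ⟨interior_subset this.1, this.2⟩
  have hd : ∀ a b, p ≤ a → a < b → b ≤ q → ∃ s, a < s ∧ s < b ∧ f s ≤ k := by
    intro a b ha hab hb
    have hm := (hsub ((a + b) / 2) (by linarith) (by linarith)).1
    obtain ⟨s, hs1, hs2⟩ := mem_closure_iff.1 hm (Set.Ioo a b) isOpen_Ioo
      ⟨by linarith, by linarith⟩
    exact ⟨s, hs1.1, hs1.2, hs2⟩
  set w : ℝ := (q - p) / 8 with hw
  have hwpos : 0 < w := by rw [hw, hqdef, hpdef]; linarith
  have hqw : q = p + 8 * w := by rw [hw]; ring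
  -- a high point near `p`
  obtain ⟨x1, -, h2, h3⟩ := unb hf hxy hlt one_pos (f (p + w))
  have hy0p : y0 < p := (hsub p le_rfl (by linarith)).2
  obtain ⟨x, hx1, hx2, hx3⟩ := unb hf (x := x1) (y := p + w) (by linarith) h3 hwpos k
  -- two low points near `q`
  obtain ⟨lo, l1, l2, l3⟩ := hd (q - 2 * w) (q - w) (by linarith) (by linarith) (by linarith)
  obtain ⟨hi, i1, i2, i3⟩ := hd (q - w) q (by linarith) (by linarith) le_rfl
  have hpos : 0 < f x - k := by linarith
  obtain ⟨r, hr⟩ := pow_unbounded_of_one_lt ((f (x + 2 * (hi - lo)) - k) / (f x - k))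
    (by norm_num : (1 : ℝ) < 4)
  have hc := chain hf hd r (x := x) (lo := lo) (hi := hi) (by linarith) (by linarith)
    (by linarith) l3 i3 (by linarith) hx3
  rw [div_lt_iff₀ hpos] at hr
  have : (4 : ℝ) ^ r * (f x - k) ≤ 4 ^ (r + 1) * (f x - k) := by
    apply mul_le_mul_of_nonneg_right _ hpos.le
    exact pow_le_pow_right₀ (by norm_num) (by omega)
  linarith

end Pool.Agent.S03427
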