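import Pool.Statements.S03450
import Pool.Agent.Results.MP_71344e_an.SchrodingerGapless

set_option autoImplicit false
open Pool Pool.MP_71344e_an

namespace Pool.Agent.S03450

/-- The negation of the preceding statement: On the 2j-regular tree, if a Jacobi matrix invariant under a free, cofinite group of tree automorphisms has gap-free spectrum, then b is constant and j values exist so every vertex sees each of them on exactly two incident edges. -/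
theorem result :
    ¬ (∀ (j : ℕ) (G : SimpleGraph (FreeGroup (Fin j))),
      (∀ u v, G.Adj u v ↔ ∃ i : Fin j, v = u * FreeGroup.of i ∨ u = v * FreeGroup.of i) →
      ∀ (a : FreeGroup (Fin j) → FreeGroup (Fin j) → ℝ) (b : FreeGroup (Fin j) → ℝ)
        (Γ : Subgroup (Equiv.Perm (FreeGroup (Fin j)))),
      (∀ γ ∈ Γ, ∀ u v, G.Adj u v ↔ G.Adj (γ u) (γ v)) →
      (∀ γ ∈ Γ, ∀ v, γ v = v → γ = 1) →
      (∀ γ ∈ Γ, ∀ v, G.Adj v (γ v) → γ (γ v) = v → γ = 1) →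
      (∃ F : Finset (FreeGroup (Fin j)), ∀ v, ∃ γ ∈ Γ, γ v ∈ F) →
      (∀ u v, G.Adj u v → a u v = a v u ∧ 0 < a u v) →
      (∀ γ ∈ Γ, ∀ u v, G.Adj u v → a (γ u) (γ v) = a u v) →
      (∀ γ ∈ Γ, ∀ v, b (γ v) = b v) →
      ∀ H : lp (fun _ : FreeGroup (Fin j) => ℂ) 2 →L[ℂ] lp (fun _ : FreeGroup (Fin j) => ℂ) 2,
      (∀ u, inner ℂ (lp.single 2 u (1 : ℂ)) (H (lp.single 2 u (1 : ℂ))) = (b u : ℂ)) →
      (∀ u v, u ≠ v → G.Adj u v →
          inner ℂ (lp.single 2 u (1 : ℂ)) (H (lp.single 2 v (1 : ℂ))) = (a u v : ℂ)) →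
      (∀ u v, u ≠ v → ¬ G.Adj u v →
          inner ℂ (lp.single 2 u (1 : ℂ)) (H (lp.single 2 v (1 : ℂ))) = 0) →
      Set.OrdConnected {x : ℝ | (x : ℂ) ∈ spectrum ℂ H} →
      (∃ c : ℝ, ∀ v, b v = c) ∧
      ∃ α : Fin j → ℝ, ∀ v : FreeGroup (Fin j),
        (Finset.univ.val.map (fun i : Fin j => a v (v * FreeGroup.of i))) +
          (Finset.univ.val.map (fun i : Fin j => a v (v * (FreeGroup.of i)⁻¹))) =
        (Finset.univ.val.map α) + (Finset.univ.val.map α)) := by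
  intro h
  obtain ⟨G, hG, b, hb, ⟨v₁, hv₁⟩, ⟨v₂, hv₂⟩, -, ⟨Γ, hΓ⟩, H, hH1, hH2, hH3, hH4⟩ :=
    Pool.Agent.Results.MP_71344e_an.SchrodingerGapless.result (1 / 4) (by norm_num) le_rfl
  obtain ⟨h1, h2, h3, h4, h5⟩ := hΓ
  obtain ⟨⟨c, hc⟩, -⟩ := h 2 G hG (fun _ _ => 1) b Γ h1 h2 h3 h4
    (fun u v _ => ⟨rfl, one_pos⟩) (fun γ _ u v _ => rfl) h5 H hH1
    (fun u v huv ha => by simpa using hH2 u v huv ha) hH3 hH4
  have e1 := hc v₁
  have e2 := hc v₂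
  rw [hv₁] at e1
  rw [hv₂] at e2
  linarith

end Pool.Agent.S03450
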