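import Pool.Statements.S03458
import Pool.Agent.H796R2.TW.C

set_option autoImplicit false
open scoped ENNReal NNReal
open Pool Pool.MP_73658e_an

namespace Pool.Agent.S03458

/-- The negation of the preceding statement: For 1<p<∞ and measurable weights U,V≥0, if the tailed condition (∫U/(∣I∣^p+∣x−x_I∣^p))(∫_I V^{-1/(p−1)})^{p−1} ≤ B holds for all intervals I, then ∫(Mf)^p U ≤ C∫∣f∣^p V for all measurable f, where M is the maximal function. -/
theorem result :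
    ¬ (∀ p : ℝ, 1 < p → ∀ U V : ℝ → ℝ≥0∞, Measurable U → Measurable V →
      ∀ B : ℝ≥0, (∀ a b : ℝ, a < b →
        (∫⁻ x, U x / ENNReal.ofReal ((b - a) ^ p + |x - (a + b) / 2| ^ p)) *
          (∫⁻ x in Set.Icc a b, V x ^ (-(1 / (p - 1)))) ^ (p - 1) ≤ (B : ℝ≥0∞)) →
      ∃ C : ℝ≥0, ∀ f : ℝ → ℝ, Measurable f →
        ∫⁻ x, (⨆ a : ℝ, ⨆ b : ℝ, ⨆ (_ : a < x ∧ x < b),
            ENNReal.ofReal (b - a)⁻¹ * ∫⁻ t in Set.Ioo a b, ‖f t‖ₑ) ^ p * U x
          ≤ (C : ℝ≥0∞) * ∫⁻ x, ‖f x‖ₑ ^ p * V x) := by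
  intro H
  obtain ⟨C, hC⟩ := H 2 (by norm_num) (fun x => ENNReal.ofReal (Pool.Agent.H796R2.TW.U x))
    (fun x => ENNReal.ofReal (Pool.Agent.H796R2.TW.V x))
    (Pool.Agent.H796R2.TW.U_cont.measurable.ennreal_ofReal)
    (Pool.Agent.H796R2.TW.V_meas.ennreal_ofReal) 84 (by
      intro a b hab
      have h := Pool.Agent.H796R2.TW.condP a b hab
      have e1 : (2:ℝ) - 1 = 1 := by norm_num
      have e2 : ∀ x : ℝ, ENNReal.ofReal (Pool.Agent.H796R2.TW.V x) ^ (-(1 / ((2:ℝ) - 1))) =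
          ENNReal.ofReal ((Pool.Agent.H796R2.TW.V x)⁻¹) := by
        intro x
        rw [e1, div_one, ENNReal.rpow_neg_one,
          ENNReal.ofReal_inv_of_pos (Pool.Agent.H796R2.TW.V_pos x)]
      simp only [e2]
      rw [e1, ENNReal.rpow_one]
      refine h.trans (le_of_eq ?_)
      norm_num)
  obtain ⟨m, hm⟩ := Pool.Agent.H796R2.TW.no_bound C
  exact hm (hC (Pool.Agent.H796R2.TW.f m) (Pool.Agent.H796R2.TW.f_meas m))


end Pool.Agent.S03458
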