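import Pool.Statements.S03536
-- import your own Pool.Agent.* helpers here
import Pool.Agent.H813R2.Pot7

set_option autoImplicit false
open MeasureTheory
open Pool Pool.MP_7dd24e_an

namespace Pool.Agent.S03536

/-- The negation of the preceding statement: If two nested topological spheres in R^3 bound a shell whose Newtonian potential is constant in the inner cavity, then the two surfaces are the images of concentric spheres of radii 1 and k<1 under one invertible affine map. -/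
theorem result :
    ¬ (∀ (S S₁ U T₁ : Set (EuclideanSpace ℝ (Fin 3))),
    Nonempty (S ≃ₜ Metric.sphere (0 : EuclideanSpace ℝ (Fin 3)) 1) →
    Nonempty (S₁ ≃ₜ Metric.sphere (0 : EuclideanSpace ℝ (Fin 3)) 1) →
    IsOpen U → IsConnected U → Bornology.IsBounded U → frontier U = S →
    IsOpen T₁ → IsConnected T₁ → Bornology.IsBounded T₁ → frontier T₁ = S₁ →
    closure T₁ ⊆ U →
    (∃ c : ℝ, ∀ P ∈ T₁, ∫ M in U \ closure T₁, (dist P M)⁻¹ = c) →
    ∃ (f : EuclideanSpace ℝ (Fin 3) ≃ᵃ[ℝ] EuclideanSpace ℝ (Fin 3)) (k : ℝ),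
      0 < k ∧ k < 1 ∧
      S = f '' Metric.sphere (0 : EuclideanSpace ℝ (Fin 3)) 1 ∧
      S₁ = f '' Metric.sphere (0 : EuclideanSpace ℝ (Fin 3)) k) := by
  intro H
  obtain ⟨f, hf⟩ := Pool.Agent.H813R2.Pot.exists_sol (U := Pool.Agent.H813R2.Pot.UU)
    Pool.Agent.H813R2.Pot.UU_open.measurableSet Pool.Agent.H813R2.Pot.UU_sub (3 * Real.pi / 2)
  have hD : Pool.Agent.H813R2.Pot.Dat f := ⟨hf⟩
  have hcl : closure (interior (Pool.Agent.H813R2.Pot.AA f)) ⊆ Pool.Agent.H813R2.Pot.UU := by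
    rw [Pool.Agent.H813R2.Pot.closure_T hD]
    exact Pool.Agent.H813R2.Pot.AA_sub hD
  have hUne : Pool.Agent.H813R2.Pot.UU.Nonempty :=
    ⟨0, Pool.Agent.H813R2.Pot.ball_sub_UU (Metric.mem_ball_self (by norm_num))⟩
  obtain ⟨φ, k, -, -, h1, -⟩ := H (frontier Pool.Agent.H813R2.Pot.UU)
    (frontier (interior (Pool.Agent.H813R2.Pot.AA f))) Pool.Agent.H813R2.Pot.UU
    (interior (Pool.Agent.H813R2.Pot.AA f))
    Pool.Agent.H813R2.Pot.UU_homeo (Pool.Agent.H813R2.Pot.frontier_homeo hD)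
    Pool.Agent.H813R2.Pot.UU_open (Pool.Agent.H813R2.Pot.UU_convex.isConnected hUne)
    (Metric.isBounded_ball.subset Pool.Agent.H813R2.Pot.UU_sub) rfl
    isOpen_interior (Pool.Agent.H813R2.Pot.T_connected hD)
    ((Pool.Agent.H813R2.Pot.AA_compact hD).isBounded.subset interior_subset) rfl hcl
    ⟨3 * Real.pi / 2, fun x hx => Pool.Agent.H813R2.Pot.pot_const hD hx⟩
  exact Pool.Agent.H813R2.Pot.not_affine φ h1

end Pool.Agent.S03536
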