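import Pool.Statements.S03544
import Pool.Agent.Helper66.FracD

set_option autoImplicit false
open MeasureTheory Filter
open Pool Pool.MP_7e0f1f_an

namespace Pool.Agent.S03544

/-- The negation of the preceding statement: Take 0<α<n, 1<p, and Young functions A, B whose complements satisfy the B_p' and B_p conditions. For weights u, σ: finite separated bump constants imply I_α(fσ) is bounded from L^p(σ) to L^p(u). The u-bump constant alone implies the weak-type bound into L^{p,∞}(u). -/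
theorem result :
    ¬ (∀ (n : ℕ) (α p : ℝ), 0 < α → α < n → 1 < p →
  ∀ (A B : ℝ → ℝ),
    (A 0 = 0 ∧ ContinuousOn A (Set.Ici 0) ∧ ConvexOn ℝ (Set.Ici 0) A ∧
      MonotoneOn A (Set.Ici 0) ∧ Tendsto (fun t : ℝ => A t / t) atTop atTop) →
    (B 0 = 0 ∧ ContinuousOn B (Set.Ici 0) ∧ ConvexOn ℝ (Set.Ici 0) B ∧
      MonotoneOn B (Set.Ici 0) ∧ Tendsto (fun t : ℝ => B t / t) atTop atTop) →
    IntegrableOn (fun t : ℝ => (⨆ s : Set.Ici (0:ℝ), (t * (s : ℝ) - B s)) / t ^ p / t) (Set.Ioi 1) →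
    IntegrableOn (fun t : ℝ => (⨆ s : Set.Ici (0:ℝ), (t * (s : ℝ) - A s)) / t ^ (p / (p - 1)) / t) (Set.Ioi 1) →
    ∀ (u σ : EuclideanSpace ℝ (Fin n) → ℝ), Measurable u → Measurable σ →
      (∀ x, 0 ≤ u x) → (∀ x, 0 ≤ σ x) → LocallyIntegrable u → LocallyIntegrable σ →
      (((∃ K : ℝ, 0 ≤ K ∧ ∀ (a : Fin n → ℝ) (ℓ : ℝ), 0 < ℓ → ∀ r : ℝ, 0 < r →
          K < ℓ ^ α * ((∫ x in {x : EuclideanSpace ℝ (Fin n) | ∀ i, a i ≤ EuclideanSpace.proj i x ∧ EuclideanSpace.proj i x < a i + ℓ}, u x) / ℓ ^ n) ^ (1 / p) * r →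
          ∫⁻ x in {x : EuclideanSpace ℝ (Fin n) | ∀ i, a i ≤ EuclideanSpace.proj i x ∧ EuclideanSpace.proj i x < a i + ℓ},
              ENNReal.ofReal (B (σ x ^ (1 - 1 / p) / r))
            ≤ volume {x : EuclideanSpace ℝ (Fin n) | ∀ i, a i ≤ EuclideanSpace.proj i x ∧ EuclideanSpace.proj i x < a i + ℓ}) ∧
        (∃ K : ℝ, 0 ≤ K ∧ ∀ (a : Fin n → ℝ) (ℓ : ℝ), 0 < ℓ → ∀ r : ℝ, 0 < r →
          K < ℓ ^ α * ((∫ x in {x : EuclideanSpace ℝ (Fin n) | ∀ i, a i ≤ EuclideanSpace.proj i x ∧ EuclideanSpace.proj i x < a i + ℓ}, σ x) / ℓ ^ n) ^ (1 - 1 / p) * r →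
          ∫⁻ x in {x : EuclideanSpace ℝ (Fin n) | ∀ i, a i ≤ EuclideanSpace.proj i x ∧ EuclideanSpace.proj i x < a i + ℓ},
              ENNReal.ofReal (A (u x ^ (1 / p) / r))
            ≤ volume {x : EuclideanSpace ℝ (Fin n) | ∀ i, a i ≤ EuclideanSpace.proj i x ∧ EuclideanSpace.proj i x < a i + ℓ}) →
        ∃ C : ℝ, 0 ≤ C ∧ ∀ f : EuclideanSpace ℝ (Fin n) → ℝ, Measurable f → (∀ y, 0 ≤ f y) →
          ∫⁻ x, (∫⁻ y, ENNReal.ofReal (f y * σ y * ‖x - y‖ ^ (α - n))) ^ p * ENNReal.ofReal (u x)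
            ≤ ENNReal.ofReal C * ∫⁻ y, ENNReal.ofReal (f y ^ p * σ y)) ∧
      ((∃ K : ℝ, 0 ≤ K ∧ ∀ (a : Fin n → ℝ) (ℓ : ℝ), 0 < ℓ → ∀ r : ℝ, 0 < r →
          K < ℓ ^ α * ((∫ x in {x : EuclideanSpace ℝ (Fin n) | ∀ i, a i ≤ EuclideanSpace.proj i x ∧ EuclideanSpace.proj i x < a i + ℓ}, σ x) / ℓ ^ n) ^ (1 - 1 / p) * r →
          ∫⁻ x in {x : EuclideanSpace ℝ (Fin n) | ∀ i, a i ≤ EuclideanSpace.proj i x ∧ EuclideanSpace.proj i x < a i + ℓ},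
              ENNReal.ofReal (A (u x ^ (1 / p) / r))
            ≤ volume {x : EuclideanSpace ℝ (Fin n) | ∀ i, a i ≤ EuclideanSpace.proj i x ∧ EuclideanSpace.proj i x < a i + ℓ}) →
        ∃ C : ℝ, 0 ≤ C ∧ ∀ f : EuclideanSpace ℝ (Fin n) → ℝ, Measurable f → (∀ y, 0 ≤ f y) →
          ∀ t : ℝ, 0 < t →
            ENNReal.ofReal t ^ p *
                ∫⁻ x in {x : EuclideanSpace ℝ (Fin n) | ENNReal.ofReal t < ∫⁻ y, ENNReal.ofReal (f y * σ y * ‖x - y‖ ^ (α - n))},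
                  ENNReal.ofReal (u x)
              ≤ ENNReal.ofReal C * ∫⁻ y, ENNReal.ofReal (f y ^ p * σ y)))) := by
  intro H
  have h2 : ((2:ℝ) / (2 - 1)) = 2 := by norm_num
  have hY := Pool.Agent.Helper66.Frac.Ybar_int
  have hq : ((1 / 2 : ℝ) - ((1:ℕ):ℝ)) = -(1/2) := by norm_num
  have hp : (1 - 1 / (2:ℝ)) = 1 / 2 := by norm_num
  have hA : Pool.Agent.Helper66.Frac.Y 0 = 0 ∧ ContinuousOn Pool.Agent.Helper66.Frac.Y (Set.Ici 0) ∧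
      ConvexOn ℝ (Set.Ici 0) Pool.Agent.Helper66.Frac.Y ∧
      MonotoneOn Pool.Agent.Helper66.Frac.Y (Set.Ici 0) ∧
      Tendsto (fun t : ℝ => Pool.Agent.Helper66.Frac.Y t / t) atTop atTop :=
    ⟨Pool.Agent.Helper66.Frac.Y_zero, Pool.Agent.Helper66.Frac.Y_cont,
      Pool.Agent.Helper66.Frac.Y_convex, Pool.Agent.Helper66.Frac.Y_mono,
      Pool.Agent.Helper66.Frac.Y_tendsto⟩
  obtain ⟨hS, hW⟩ := H 1 (1 / 2) 2 (by norm_num) (by norm_num) (by norm_num)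
    Pool.Agent.Helper66.Frac.Y Pool.Agent.Helper66.Frac.Y hA hA hY (by rw [h2]; exact hY)
    Pool.Agent.Helper66.Frac.w Pool.Agent.Helper66.Frac.w
    Pool.Agent.Helper66.Frac.w_meas Pool.Agent.Helper66.Frac.w_meas
    Pool.Agent.Helper66.Frac.w_nonneg Pool.Agent.Helper66.Frac.w_nonneg
    Pool.Agent.Helper66.Frac.w_loc Pool.Agent.Helper66.Frac.w_loc
  apply Pool.Agent.Helper66.Frac.weak_fail _ hq
  apply hW
  refine ⟨8, by norm_num, fun a l hl r hr hK => ?_⟩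
  rw [hp] at hK
  exact Pool.Agent.Helper66.Frac.bump a l hl r hr (1 / 2) rfl hK
end Pool.Agent.S03544
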