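import Pool.Statements.S03547
import Pool.Agent.H769R2.ONS8

set_option autoImplicit false
open Pool Pool.MP_7e3aa6_an

namespace Pool.Agent.S03547

/-- There is a complete orthonormal sequence of real L² functions on [0,1] such that, for every continuous f on [0,1] that is not identically zero, the partial sums of its orthogonal expansion are unbounded at almost every point of [0,1]. -/
theorem result :
    ∃ φ : ℕ → ℝ → ℝ,
      (∀ i, MeasureTheory.MemLp (φ i) 2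
        (MeasureTheory.volume.restrict (Set.Icc (0:ℝ) 1))) ∧
      (∀ i j, ∫ x in Set.Icc (0:ℝ) 1, φ i x * φ j x = if i = j then (1:ℝ) else 0) ∧
      (∀ g : ℝ → ℝ, MeasureTheory.MemLp g 2
          (MeasureTheory.volume.restrict (Set.Icc (0:ℝ) 1)) →
        (∀ i, ∫ x in Set.Icc (0:ℝ) 1, g x * φ i x = 0) →
        g =ᵐ[MeasureTheory.volume.restrict (Set.Icc (0:ℝ) 1)] 0) ∧
      (∀ f : ℝ → ℝ, ContinuousOn f (Set.Icc (0:ℝ) 1) →
        (∃ x ∈ Set.Icc (0:ℝ) 1, f x ≠ 0) →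
        ∀ᵐ t ∂(MeasureTheory.volume.restrict (Set.Icc (0:ℝ) 1)),
          ¬ BddAbove (Set.range (fun n : ℕ =>
            |∑ i ∈ Finset.range n, φ i t * ∫ x in Set.Icc (0:ℝ) 1, f x * φ i x|))) := by
  obtain ⟨φ, h1, h2, h3, h4, h5⟩ := Pool.Agent.H769R2.ONS.main_ons
  refine ⟨φ, h2, h3, h4, ?_⟩
  intro f hf hx
  obtain ⟨a, b, c⟩ := Pool.Agent.H769R2.ONS.cont_ok hf hx
  filter_upwards [h5 f a b c] with t ht
  rintro ⟨B, hB⟩
  obtain ⟨n, hn⟩ := ht B
  have h6 := hB ⟨n, rfl⟩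
  simp only at h6
  have h7 : ∑ i ∈ Finset.range n, φ i t * ∫ x in Set.Icc (0:ℝ) 1, f x * φ i x =
      ∑ i ∈ Finset.range n, (∫ x in Set.Icc (0:ℝ) 1, f x * φ i x) * φ i t :=
    Finset.sum_congr rfl fun i _ => mul_comm _ _
  rw [h7] at h6
  exact absurd hn (not_lt.2 h6)

end Pool.Agent.S03547
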