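import Pool.Statements.S03606
import Pool.Agent.H794R2.NirE

set_option autoImplicit false
open Pool Pool.MP_8567bc_an

namespace Pool.Agent.S03606

/-- The negation of the preceding statement: For every real Hilbert space H, every continuous map f of H to itself with ‖f x − f y‖ ≥ k‖x − y‖ for some k > 0, whose image has nonempty interior, is surjective. -/
theorem result :
    ¬ (∀ (H : Type) [NormedAddCommGroup H] [InnerProductSpace ℝ H] [CompleteSpace H]
      (f : H → H) (k : ℝ),
      Continuous f → 0 < k →
      (∀ x y : H, k * ‖x - y‖ ≤ ‖f x - f y‖) →
      (interior (Set.range f)).Nonempty →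
      Function.Surjective f) := by
  exact Pool.Agent.H794R2.Nir.main

end Pool.Agent.S03606
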