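import Pool.Statements.S03642
import Pool.Agent.H785R2.BergmanShift

set_option autoImplicit false
open Pool Pool.MP_8a8b2f_an

namespace Pool.Agent.S03642

/-- The negation of the preceding statement: Take a strongly continuous contraction semigroup on a complex Hilbert space with generator A, and some m>0 with ‖(μ−A)x‖ ≥ m∣Re μ∣‖x‖ for all x in D(A) and Re μ<0. Then some m₁>0 gives ‖T(t)x‖ ≥ m₁‖x‖ for all t≥0 and all x. -/
theorem result :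
    ¬ (∀ (H : Type) [NormedAddCommGroup H] [InnerProductSpace ℂ H] [CompleteSpace H]
      (T : ℝ → H →L[ℂ] H),
      T 0 = ContinuousLinearMap.id ℂ H →
      (∀ s t : ℝ, 0 ≤ s → 0 ≤ t → T (s + t) = (T s).comp (T t)) →
      (∀ x : H, ContinuousOn (fun t : ℝ => T t x) (Set.Ici 0)) →
      (∀ t : ℝ, 0 ≤ t → ‖T t‖ ≤ 1) →
      ∀ m : ℝ, 0 < m →
      (∀ x y : H,
        Filter.Tendsto (fun h : ℝ => ((h : ℂ)⁻¹) • (T h x - x))
          (nhdsWithin 0 (Set.Ioi 0)) (nhds y) →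
        ∀ μ : ℂ, μ.re < 0 → m * |μ.re| * ‖x‖ ≤ ‖μ • x - y‖) →
      ∃ m₁ : ℝ, 0 < m₁ ∧ ∀ t : ℝ, 0 ≤ t → ∀ x : H, m₁ * ‖x‖ ≤ ‖T t x‖) := by
  intro h
  obtain ⟨m₁, hm, h1⟩ := h Pool.Agent.H785R2.BergmanShift.H Pool.Agent.H785R2.BergmanShift.T
    Pool.Agent.H785R2.BergmanShift.T_zero Pool.Agent.H785R2.BergmanShift.T_add
    Pool.Agent.H785R2.BergmanShift.T_cont Pool.Agent.H785R2.BergmanShift.T_norm_le (1 / 2)
    (by norm_num) Pool.Agent.H785R2.BergmanShift.resolvent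
  have ht : 0 < 2 / m₁ ^ 2 := by positivity
  have h2 := h1 (2 / m₁ ^ 2) ht.le Pool.Agent.H785R2.BergmanShift.x0
  have h3 := Pool.Agent.H785R2.BergmanShift.norm_T_x0 (2 / m₁ ^ 2) ht
  have h4 := Pool.Agent.H785R2.BergmanShift.norm_x0
  have h5 : (m₁ * ‖Pool.Agent.H785R2.BergmanShift.x0‖) ^ 2 ≤
      ‖Pool.Agent.H785R2.BergmanShift.T (2 / m₁ ^ 2) Pool.Agent.H785R2.BergmanShift.x0‖ ^ 2 := by
    gcongr
  rw [mul_pow, h4, mul_one] at h5
  have h6 : 1 / (2 / m₁ ^ 2) = m₁ ^ 2 / 2 := by field_simp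
  rw [h6] at h3
  have h7 : 0 < m₁ ^ 2 := by positivity
  linarith

end Pool.Agent.S03642
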