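import Pool.Statements.S03670
import Pool.Agent.H728R2.Example

set_option autoImplicit false
open Pool Pool.MP_8d267f_an

namespace Pool.Agent.S03670

/-- The negation of the preceding statement: If T on a complex Hilbert space is quasi-similar to a subnormal operator, then every operator leaving all closed T-invariant subspaces invariant is a weak-operator limit of polynomials in T, i.e. T is reflexive. -/
theorem result :
    ¬ (∀ (H K : Type) [NormedAddCommGroup H] [InnerProductSpace ℂ H] [CompleteSpace H]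
    [NormedAddCommGroup K] [InnerProductSpace ℂ K] [CompleteSpace K]
    (T : H →L[ℂ] H) (M : K →L[ℂ] K),
    (∃ (L : Type) (_ : NormedAddCommGroup L) (_ : InnerProductSpace ℂ L) (_ : CompleteSpace L)
       (V : K →ₗᵢ[ℂ] L) (N : L →L[ℂ] L), IsStarNormal N ∧ ∀ x : K, N (V x) = V (M x)) →
    (∃ (X : H →L[ℂ] K) (Y : K →L[ℂ] H),
       Function.Injective X ∧ DenseRange X ∧ Function.Injective Y ∧ DenseRange Y ∧
       X.comp T = M.comp X ∧ T.comp Y = Y.comp M) →
    ∀ S : H →L[ℂ] H,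
      (∀ E : Submodule ℂ H, IsClosed (E : Set H) → (∀ x ∈ E, T x ∈ E) → ∀ x ∈ E, S x ∈ E) →
      ∀ (n : ℕ) (x y : Fin n → H) (ε : ℝ), 0 < ε →
        ∃ p : Polynomial ℂ, ∀ i : Fin n,
          ‖inner ℂ (y i) ((S - Polynomial.aeval T p) (x i))‖ < ε) := by
  intro h
  let b : HilbertBasis ℕ ℂ (lp (fun _ : ℕ => ℂ) 2) := ⟨LinearIsometryEquiv.refl ℂ _⟩
  obtain ⟨p, hp⟩ := h (lp (fun _ : ℕ => ℂ) 2) (lp (fun _ : ℕ => ℂ) 2)
    (Pool.Agent.H728R2.opT b) (Pool.Agent.H728R2.opN b)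
    ⟨lp (fun _ : ℕ => ℂ) 2, inferInstance, inferInstance, inferInstance, LinearIsometry.id,
      Pool.Agent.H728R2.opN b, Pool.Agent.H728R2.N_normal b, fun x => rfl⟩
    ⟨Pool.Agent.H728R2.opX b, Pool.Agent.H728R2.opY b, Pool.Agent.H728R2.X_inj b,
      Pool.Agent.H728R2.X_dense b, Pool.Agent.H728R2.Y_inj b, Pool.Agent.H728R2.Y_dense b,
      Pool.Agent.H728R2.X_comp_T b, Pool.Agent.H728R2.T_comp_Y b⟩
    (Pool.Agent.H728R2.opA b) (Pool.Agent.H728R2.opA_algLat b) 3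
    ![Pool.Agent.H728R2.xi1 b, Pool.Agent.H728R2.xi2 b, b 0]
    ![Pool.Agent.H728R2.eta1 b, Pool.Agent.H728R2.eta2 b, b 0] (1 / 3) (by norm_num)
  exact Pool.Agent.H728R2.not_approx b p (hp 0) (hp 1) (hp 2)

end Pool.Agent.S03670
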