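import Pool.Statements.S03783
import Pool.Agent.H739R2.PNIndex

set_option autoImplicit false
open scoped ENNReal Topology
open Filter
open Pool Pool.MP_9ca510_an

namespace Pool.Agent.S03783

/-- For any nonempty family of nontrivial complex Banach spaces and every k ≥ 1, the order-k polynomial numerical index of their c0-sum and of their ell-infinity-sum both equal the infimum of the order-k polynomial numerical indices of the summands. -/
theorem result :
    ∀ (Λ : Type) [Nonempty Λ] (X : Λ → Type) [∀ i, NormedAddCommGroup (X i)]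
      [∀ i, NormedSpace ℂ (X i)] [∀ i, CompleteSpace (X i)] [∀ i, Nontrivial (X i)]
      (C : Submodule ℂ (lp X ∞)),
      (∀ f : lp X ∞, f ∈ C ↔ Tendsto (fun i => ‖f i‖) cofinite (𝓝 0)) →
      ∀ k : ℕ, 1 ≤ k →
        (sInf {r : ℝ | ∃ A : ContinuousMultilinearMap ℂ (fun _ : Fin k => C) C,
            sSup {s : ℝ | ∃ x : C, ‖x‖ ≤ 1 ∧ s = ‖A (fun _ => x)‖} = 1 ∧
            r = sSup {s : ℝ | ∃ (x : C) (φ : C →L[ℂ] ℂ), ‖x‖ = 1 ∧ ‖φ‖ = 1 ∧ φ x = 1 ∧
                  s = ‖φ (A (fun _ => x))‖}}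
          = ⨅ i, sInf {r : ℝ | ∃ A : ContinuousMultilinearMap ℂ (fun _ : Fin k => X i) (X i),
            sSup {s : ℝ | ∃ x : X i, ‖x‖ ≤ 1 ∧ s = ‖A (fun _ => x)‖} = 1 ∧
            r = sSup {s : ℝ | ∃ (x : X i) (φ : X i →L[ℂ] ℂ), ‖x‖ = 1 ∧ ‖φ‖ = 1 ∧ φ x = 1 ∧
                  s = ‖φ (A (fun _ => x))‖}}) ∧
        (sInf {r : ℝ | ∃ A : ContinuousMultilinearMap ℂ (fun _ : Fin k => lp X ∞) (lp X ∞),
            sSup {s : ℝ | ∃ x : lp X ∞, ‖x‖ ≤ 1 ∧ s = ‖A (fun _ => x)‖} = 1 ∧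
            r = sSup {s : ℝ | ∃ (x : lp X ∞) (φ : lp X ∞ →L[ℂ] ℂ), ‖x‖ = 1 ∧ ‖φ‖ = 1 ∧
                  φ x = 1 ∧ s = ‖φ (A (fun _ => x))‖}}
          = ⨅ i, sInf {r : ℝ | ∃ A : ContinuousMultilinearMap ℂ (fun _ : Fin k => X i) (X i),
            sSup {s : ℝ | ∃ x : X i, ‖x‖ ≤ 1 ∧ s = ‖A (fun _ => x)‖} = 1 ∧
            r = sSup {s : ℝ | ∃ (x : X i) (φ : X i →L[ℂ] ℂ), ‖x‖ = 1 ∧ ‖φ‖ = 1 ∧ φ x = 1 ∧
                  s = ‖φ (A (fun _ => x))‖}}) := by
  classical
  intro Λ _ X _ _ _ _ C hC k _hk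
  have hsingle : ∀ (i : Λ) (x : X i), ‖lp.single ∞ i x‖ = ‖x‖ := fun i x =>
    lp.norm_single (by simp) i x
  have hrest : ∀ (i : Λ) (x : X i) (z : lp X ∞),
      ‖lp.single ∞ i x + (z - lp.single ∞ i (z i))‖ ≤ max ‖x‖ ‖z‖ := by
    intro i x z
    apply lp.norm_le_of_forall_le (le_trans (norm_nonneg x) (le_max_left _ _))
    intro j
    rw [lp.coeFn_add, lp.coeFn_sub, Pi.add_apply, Pi.sub_apply]
    by_cases hj : j = i
    · subst hj
      rw [lp.single_apply_self, lp.single_apply_self, sub_self, add_zero]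
      exact le_max_left _ _
    · rw [lp.single_apply_ne _ _ _ hj, lp.single_apply_ne _ _ _ hj, sub_zero, zero_add]
      exact (lp.norm_apply_le_norm ENNReal.top_ne_zero z j).trans (le_max_right _ _)
  have hlt : ∀ (z : lp X ∞) (c : ℝ), c < ‖z‖ → ∃ i, c < ‖z i‖ := by
    intro z c hc
    by_contra hcon
    push Not at hcon
    by_cases h0 : 0 ≤ c
    · exact absurd (lp.norm_le_of_forall_le h0 hcon) (not_le.mpr hc)
    · obtain ⟨i⟩ := (inferInstance : Nonempty Λ)
      exact h0 ((norm_nonneg _).trans (hcon i))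
  have hmem : ∀ (i : Λ) (x : X i), lp.single ∞ i x ∈ C := by
    intro i x
    rw [hC]
    apply tendsto_nhds_of_eventually_eq
    rw [Filter.eventually_cofinite]
    apply (Set.finite_singleton i).subset
    intro j hj
    rw [Set.mem_singleton_iff]
    by_contra hji
    exact hj (by rw [lp.single_apply_ne _ _ _ hji, norm_zero])
  let incL : ∀ i, X i →L[ℂ] lp X ∞ := fun i =>
    LinearMap.mkContinuous (lp.lsingle (𝕜 := ℂ) ∞ i) 1 (fun x => by
      rw [one_mul]; exact (hsingle i x).le)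
  let prL : ∀ i, lp X ∞ →L[ℂ] X i := fun i =>
    LinearMap.mkContinuous
      { toFun := fun z => z i
        map_add' := fun _ _ => rfl
        map_smul' := fun _ _ => rfl } 1 (fun z => by
      rw [one_mul]; exact lp.norm_apply_le_norm ENNReal.top_ne_zero z i)
  let D1 : Pool.Agent.H739R2.PNIndex.SupData Λ X (lp X ∞) :=
    { inc := incL
      pr := prL
      pr_inc := fun i x => lp.single_apply_self ∞ i x
      pr_le := fun i z => lp.norm_apply_le_norm ENNReal.top_ne_zero z i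
      exists_lt := fun z c hc => hlt z c hc
      norm_le := fun i x z => hrest i x z }
  let D2 : Pool.Agent.H739R2.PNIndex.SupData Λ X C :=
    { inc := fun i => (incL i).codRestrict C (fun x => hmem i x)
      pr := fun i => (prL i).comp C.subtypeL
      pr_inc := fun i x => lp.single_apply_self ∞ i x
      pr_le := fun i z => lp.norm_apply_le_norm ENNReal.top_ne_zero (z : lp X ∞) i
      exists_lt := fun z c hc => hlt (z : lp X ∞) c hc
      norm_le := fun i x z => hrest i x (z : lp X ∞) }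
  exact ⟨D2.main k, D1.main k⟩

end Pool.Agent.S03783
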