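import Pool.Statements.S03814
import Pool.Agent.H804R2.SC3

set_option autoImplicit false
open scoped Manifold
open Pool Pool.MP_9ef1f5_an

namespace Pool.Agent.S03814

/-- The negation of the preceding statement: For every Riemann surface whose bounded holomorphic functions separate points, and every simple closed curve disconnecting it, the curve (as point evaluations) also disconnects the maximal ideal space of bounded holomorphic functions in its Gelfand topology. -/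
theorem result :
    ¬ (∀ (R : Type) [TopologicalSpace R] [T2Space R] [ConnectedSpace R] [ChartedSpace ℂ R]
      [IsManifold 𝓘(ℂ) ⊤ R],
      (∀ z w : R, z ≠ w → ∃ f : R → ℂ, MDifferentiable 𝓘(ℂ) 𝓘(ℂ) f ∧
          (∃ C : ℝ, ∀ x, ‖f x‖ ≤ C) ∧ f z ≠ f w) →
      ∀ γ : Circle → R, Continuous γ → Function.Injective γ →
        ¬ IsPreconnected (Set.range γ)ᶜ →
        ¬ IsPreconnected
          ({φ : {f : R → ℂ // MDifferentiable 𝓘(ℂ) 𝓘(ℂ) f ∧ ∃ C : ℝ, ∀ x, ‖f x‖ ≤ C} → ℂ |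
              (∀ u : {f : R → ℂ // MDifferentiable 𝓘(ℂ) 𝓘(ℂ) f ∧ ∃ C : ℝ, ∀ x, ‖f x‖ ≤ C},
                  u.1 = (fun _ => (1 : ℂ)) → φ u = 1) ∧
              (∀ f g h : {f : R → ℂ // MDifferentiable 𝓘(ℂ) 𝓘(ℂ) f ∧ ∃ C : ℝ, ∀ x, ‖f x‖ ≤ C},
                  h.1 = f.1 + g.1 → φ h = φ f + φ g) ∧
              (∀ f g h : {f : R → ℂ // MDifferentiable 𝓘(ℂ) 𝓘(ℂ) f ∧ ∃ C : ℝ, ∀ x, ‖f x‖ ≤ C},
                  h.1 = f.1 * g.1 → φ h = φ f * φ g) ∧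
              (∀ (c : ℂ) (f h : {f : R → ℂ // MDifferentiable 𝓘(ℂ) 𝓘(ℂ) f ∧ ∃ C : ℝ, ∀ x, ‖f x‖ ≤ C}),
                  h.1 = c • f.1 → φ h = c * φ f)} \
           {φ : {f : R → ℂ // MDifferentiable 𝓘(ℂ) 𝓘(ℂ) f ∧ ∃ C : ℝ, ∀ x, ‖f x‖ ≤ C} → ℂ |
              ∃ t : Circle, ∀ f : {f : R → ℂ // MDifferentiable 𝓘(ℂ) 𝓘(ℂ) f ∧ ∃ C : ℝ, ∀ x, ‖f x‖ ≤ C},
                φ f = f.1 (γ t)})) := by
  intro H
  refine H Pool.Agent.H765R2.RS.Surf ?_ Pool.Agent.H804R2.SC.γ Pool.Agent.H804R2.SC.γ_cont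
    Pool.Agent.H804R2.SC.γ_inj Pool.Agent.H804R2.SC.not_preconn Pool.Agent.H804R2.SC.final
  intro z w hzw
  exact Pool.Agent.H765R2.RS.separates z w hzw

end Pool.Agent.S03814
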