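import Pool.Statements.S03850
import Pool.Agent.H813R2.Seam5

set_option autoImplicit false
open Pool Pool.MP_a2a162_an

namespace Pool.Agent.S03850

/-- The negation of the preceding statement: If two Jordan domains with rectifiable boundaries of equal length are welded by an arclength-preserving identification, and the result is conformally the Riemann sphere, then the seam curve is rectifiable. -/
theorem result :
    ¬ (∀ (γ₁ γ₂ : ℝ → ℂ) (L : ℝ) (D₁ D₂ : Set ℂ) (c s : ℝ) (F₁ G : ℂ → ℂ),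
    0 < L →
    Continuous γ₁ → Continuous γ₂ →
    Function.Periodic γ₁ 1 → Function.Periodic γ₂ 1 →
    Set.InjOn γ₁ (Set.Ico 0 1) → Set.InjOn γ₂ (Set.Ico 0 1) →
    (∀ a b : ℝ, a ≤ b → eVariationOn γ₁ (Set.Icc a b) = ENNReal.ofReal (L * (b - a))) →
    (∀ a b : ℝ, a ≤ b → eVariationOn γ₂ (Set.Icc a b) = ENNReal.ofReal (L * (b - a))) →
    IsOpen D₁ → IsConnected D₁ → Bornology.IsBounded D₁ → frontier D₁ = Set.range γ₁ →
    IsOpen D₂ → IsConnected D₂ → Bornology.IsBounded D₂ → frontier D₂ = Set.range γ₂ →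
    (s = 1 ∨ s = -1) →
    ContinuousOn F₁ (closure D₁) → Set.InjOn F₁ (closure D₁) → DifferentiableOn ℂ F₁ D₁ →
    ContinuousOn G (closure D₂) → Set.InjOn G (closure D₂) → DifferentiableOn ℂ G D₂ →
    (∃ p ∈ D₂, G p = 0) →
    (∀ z ∈ D₁, ∀ w ∈ D₂, F₁ z * G w ≠ 1) →
    (∀ t : ℝ, F₁ (γ₁ t) * G (γ₂ (c + s * t)) = 1) →
    eVariationOn (F₁ ∘ γ₁) (Set.Icc 0 1) ≠ ⊤) := by
  intro h
  refine h Agent.H813R2.Seam.gam Agent.H813R2.Seam.gam (2 * Agent.H813R2.Seam.hh) Agent.H813R2.Seam.D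
    Agent.H813R2.Seam.D 0 (-1) Agent.H813R2.Seam.Fm Agent.H813R2.Seam.Fm
    (mul_pos two_pos Agent.H813R2.Seam.hh_pos)
    Agent.H813R2.Seam.gam_continuous Agent.H813R2.Seam.gam_continuous
    Agent.H813R2.Seam.gam_periodic Agent.H813R2.Seam.gam_periodic
    Agent.H813R2.Seam.gam_injOn Agent.H813R2.Seam.gam_injOn
    Agent.H813R2.Seam.gam_speed Agent.H813R2.Seam.gam_speed
    Agent.H813R2.Seam.D_open Agent.H813R2.Seam.D_connected Agent.H813R2.Seam.D_bounded
    Agent.H813R2.Seam.frontier_eq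
    Agent.H813R2.Seam.D_open Agent.H813R2.Seam.D_connected Agent.H813R2.Seam.D_bounded
    Agent.H813R2.Seam.frontier_eq
    (Or.inr rfl)
    Agent.H813R2.Seam.Fm_continuousOn Agent.H813R2.Seam.Fm_injOn
    Agent.H813R2.Seam.Fm_differentiableOn
    Agent.H813R2.Seam.Fm_continuousOn Agent.H813R2.Seam.Fm_injOn
    Agent.H813R2.Seam.Fm_differentiableOn
    Agent.H813R2.Seam.Fm_zero
    (fun z hz w hw => Agent.H813R2.Seam.Fm_mul_ne hz hw)
    (fun t => ?_) Agent.H813R2.Seam.infinite_length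
  have := Agent.H813R2.Seam.Fm_gam t
  have e : (0 : ℝ) + -1 * t = -t := by ring
  rw [e]
  exact this

end Pool.Agent.S03850
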