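import Pool.Statements.S03862
import Pool.Agent.H792R2.SS.All

set_option autoImplicit false
open Real Filter Topology
open Pool Pool.MP_a3030a_an

namespace Pool.Agent.S03862

/-- The negation of the preceding statement: For every c < 2 there is a zero-free holomorphic f on the unit disk with f' never 1 whose T(r,f)/(-log(1-r)) stays bounded but exceeds c for r arbitrarily close to 1, i.e. the Shea–Sons bound 2 is sharp. -/
theorem result :
    ¬ (∀ c : ℝ, c < 2 → ∃ f : ℂ → ℂ, DifferentiableOn ℂ f (Metric.ball (0:ℂ) 1) ∧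
      (∀ z ∈ Metric.ball (0:ℂ) 1, f z ≠ 0 ∧ deriv f z ≠ 1) ∧
      (∃ M : ℝ, ∀ᶠ r in 𝓝[<] (1:ℝ),
        ((2 * π)⁻¹ * ∫ θ in (0:ℝ)..2 * π, max 0 (Real.log ‖f (circleMap 0 r θ)‖))
          / (-Real.log (1 - r)) ≤ M) ∧
      (∃ᶠ r in 𝓝[<] (1:ℝ), c <
        ((2 * π)⁻¹ * ∫ θ in (0:ℝ)..2 * π, max 0 (Real.log ‖f (circleMap 0 r θ)‖))
          / (-Real.log (1 - r)))) := by
  exact Pool.Agent.H792R2.SS.res_of_fin Pool.Agent.H792R2.SS.fin

end Pool.Agent.S03862
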