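import Pool.Statements.S03914
import Pool.Agent.H518R4.UG.SELF
import Pool.Agent.H518R4.UG.TWOU
import Pool.Agent.H518R4.UG.PYTH
import Pool.Agent.H518R4.UG.WEI
import Pool.Agent.H518R4.UG.COAR
import Pool.Agent.H518R4.UG.CONN
import Pool.Agent.H518R4.UG.COVER
import Pool.Agent.H518R4.UG.COMPR
import Pool.Agent.H518R4.UG.PHASE
import Pool.Agent.H518R4.UG.LIMP
import Pool.Agent.H518R4.UG.HALVE
import Pool.Agent.H518R4.UG.PART
import Pool.Agent.H518R4.UG.GROUP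
import Pool.Agent.H518R4.UG.MERGE
import Pool.Agent.H518R4.UG.ALIGN
import Pool.Agent.H518R4.UG.MUL
import Pool.Agent.H518R4.UG.BURG
import Pool.Agent.H518R4.UG.LIFT
import Pool.Agent.H518R4.UG.PARS
import Pool.Agent.H518R4.UG.WEYL
import Pool.Agent.H518R4.UG.QE
import Pool.Agent.H518R4.UG.SIGNS
import Pool.Agent.H518R4.UG.TRUNC
import Pool.Agent.H518R4.UG.ZPR
import Pool.Agent.H518R4.UG.COPIES
import Pool.Agent.H518R4.UG.MASS
import Pool.Agent.H518R4.UG.BLOCK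
import Pool.Agent.H518R4.UG.PACK
import Pool.Agent.H518R4.UG.PSD
import Pool.Agent.H518R4.UG.CEXP
import Pool.Agent.H518R4.UG.GRAPH
import Pool.Agent.H518R4.UG.WALK
import Pool.Agent.H518R4.UG.SPACE
import Pool.Agent.H518R4.UG.BOOST
import Pool.Agent.H518R4.UG.FROMGAP
import Pool.Agent.H518R4.UG.UNIV
import Pool.Agent.H518R4.UG.NGAM
import Pool.Agent.H518R4.UG.FCT
import Pool.Agent.H518R4.UG.NORM
import Pool.Agent.H518R4.UG.FINAL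

set_option autoImplicit false
open Pool Pool.MP_ab5fa7_an

namespace Pool.Agent.S03914

/-- The negation of the preceding statement: There are II_1 factors N_i on a separable Hilbert space, each without property Gamma, and a free ultrafilter U, such that the tracial ultraproduct of the N_i over U has property Gamma (asymptotically central trace-zero unitaries for every finite set). -/
theorem result :
    ¬ (∃ (N : ℕ → VonNeumannAlgebra (lp (fun _ : ℕ => ℂ) 2))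
      (τ : ℕ → ((lp (fun _ : ℕ => ℂ) 2 →L[ℂ] lp (fun _ : ℕ => ℂ) 2) →ₗ[ℂ] ℂ)),
      (∀ i : ℕ,
        (∀ z ∈ N i, (∀ x ∈ N i, z * x = x * z) →
          ∃ c : ℂ, z = algebraMap ℂ (lp (fun _ : ℕ => ℂ) 2 →L[ℂ] lp (fun _ : ℕ => ℂ) 2) c) ∧
        (∀ n : ℕ, ∃ f : Fin n → (lp (fun _ : ℕ => ℂ) 2 →L[ℂ] lp (fun _ : ℕ => ℂ) 2),
          (∀ k, f k ∈ N i) ∧ LinearIndependent ℂ f) ∧
        τ i 1 = 1 ∧
        (∀ x ∈ N i, (τ i (star x * x)).im = 0 ∧ 0 ≤ (τ i (star x * x)).re) ∧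
        (∀ x ∈ N i, ∀ y ∈ N i, τ i (x * y) = τ i (y * x)) ∧
        (∀ x ∈ N i, τ i (star x * x) = 0 → x = 0) ∧
        ¬ (∀ n : ℕ, ∀ x : Fin n → (lp (fun _ : ℕ => ℂ) 2 →L[ℂ] lp (fun _ : ℕ => ℂ) 2),
            (∀ k, x k ∈ N i) → ∀ ε : ℝ, 0 < ε →
            ∃ u ∈ N i, u ∈ unitary (lp (fun _ : ℕ => ℂ) 2 →L[ℂ] lp (fun _ : ℕ => ℂ) 2) ∧
              τ i u = 0 ∧
              ∀ k, (τ i (star (u * x k - x k * u) * (u * x k - x k * u))).re < ε ^ 2)) ∧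
      ∃ U : Ultrafilter ℕ, (U : Filter ℕ) ≤ Filter.cofinite ∧
        ∀ n : ℕ, ∀ x : Fin n → ℕ → (lp (fun _ : ℕ => ℂ) 2 →L[ℂ] lp (fun _ : ℕ => ℂ) 2),
          (∀ k i, x k i ∈ N i) → (∃ C : ℝ, ∀ k i, ‖x k i‖ ≤ C) → ∀ ε : ℝ, 0 < ε →
          ∃ u : ℕ → (lp (fun _ : ℕ => ℂ) 2 →L[ℂ] lp (fun _ : ℕ => ℂ) 2),
            (∀ i, u i ∈ N i ∧ u i ∈ unitary (lp (fun _ : ℕ => ℂ) 2 →L[ℂ] lp (fun _ : ℕ => ℂ) 2)) ∧
            Filter.Tendsto (fun i => τ i (u i)) (U : Filter ℕ) (nhds 0) ∧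
            ∀ k, ∀ᶠ i in (U : Filter ℕ),
              (τ i (star (u i * x k i - x k i * u i) * (u i * x k i - x k i * u i))).re < ε ^ 2) := by
  have hSELF := Pool.Agent.H518R4.UG.p_SELF
  have hTWOU := Pool.Agent.H518R4.UG.p_TWOU
  have hPYTH := Pool.Agent.H518R4.UG.p_PYTH
  have hCONN := Pool.Agent.H518R4.UG.p_CONN Pool.Agent.H518R4.UG.p_WEI Pool.Agent.H518R4.UG.p_COAR
  have hPHASE := Pool.Agent.H518R4.UG.p_PHASE hSELF hTWOU hCONN Pool.Agent.H518R4.UG.p_COVER Pool.Agent.H518R4.UG.p_COMPR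
  have hHALVE := Pool.Agent.H518R4.UG.p_HALVE hPHASE Pool.Agent.H518R4.UG.p_LIMP
  have hPART := Pool.Agent.H518R4.UG.p_PART hHALVE hPYTH
  have hMUL := Pool.Agent.H518R4.UG.p_MUL hPART Pool.Agent.H518R4.UG.p_GROUP Pool.Agent.H518R4.UG.p_MERGE Pool.Agent.H518R4.UG.p_ALIGN
  have hBURG := Pool.Agent.H518R4.UG.p_BURG
  have hLIFT := Pool.Agent.H518R4.UG.p_LIFT
  have hQE := Pool.Agent.H518R4.UG.p_QE hBURG hLIFT Pool.Agent.H518R4.UG.p_PARS Pool.Agent.H518R4.UG.p_WEYL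
  have hBLOCK := Pool.Agent.H518R4.UG.p_BLOCK hLIFT hQE (Pool.Agent.H518R4.UG.p_SIGNS hLIFT) Pool.Agent.H518R4.UG.p_TRUNC (Pool.Agent.H518R4.UG.p_ZPR hLIFT)
    Pool.Agent.H518R4.UG.p_COPIES Pool.Agent.H518R4.UG.p_MASS hTWOU
  have hPACK := Pool.Agent.H518R4.UG.p_PACK hMUL hBLOCK
  have hGRAPH := Pool.Agent.H518R4.UG.p_GRAPH (Pool.Agent.H518R4.UG.p_CEXP hBURG) Pool.Agent.H518R4.UG.p_PSD
  have hBOOST := Pool.Agent.H518R4.UG.p_BOOST Pool.Agent.H518R4.UG.p_PSD hGRAPH Pool.Agent.H518R4.UG.p_WALK Pool.Agent.H518R4.UG.p_SPACE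
  have hUNIV := Pool.Agent.H518R4.UG.p_UNIV hPACK hBOOST (Pool.Agent.H518R4.UG.p_FROMGAP hTWOU)
  exact Pool.Agent.H518R4.UG.p_FINAL hUNIV (Pool.Agent.H518R4.UG.p_NGAM hMUL) Pool.Agent.H518R4.UG.p_FCT Pool.Agent.H518R4.UG.p_NORM

end Pool.Agent.S03914

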