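import Pool.Statements.S03916
import Pool.Agent.H792R2.TilfA
-- import your own Pool.Agent.* helpers here

set_option autoImplicit false
open Pool Pool.MP_aba4f2_an

namespace Pool.Agent.S03916

/-- The negation of the preceding statement: Every continuous 1-periodic complex function on the reals with zero integral over [0,1] equals a finite sum of differences g_j(t) − g_j(t − a_j), with each g_j continuous and 1-periodic and each a_j real. -/
theorem result :
    ¬ (∀ f : ℝ → ℂ, Continuous f → Function.Periodic f 1 →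
      (∫ t in (0:ℝ)..1, f t) = 0 →
      ∃ N : ℕ, 1 ≤ N ∧ ∃ a : Fin N → ℝ, ∃ g : Fin N → ℝ → ℂ,
        (∀ j, Continuous (g j) ∧ Function.Periodic (g j) 1) ∧
        ∀ t : ℝ, f t = ∑ j : Fin N, (g j t - g j (t - a j))) := by
  intro hall
  have : Fact ((0 : ℝ) < 1) := ⟨one_pos⟩
  have hprob : MeasureTheory.IsProbabilityMeasure
      (MeasureTheory.volume : MeasureTheory.Measure UnitAddCircle) := ⟨UnitAddCircle.measure_univ⟩
  have hnt : Nontrivial UnitAddCircle := by
    refine ⟨((1 / 2 : ℝ) : UnitAddCircle), 0, fun h => ?_⟩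
    rw [AddCircle.coe_eq_zero_iff] at h
    obtain ⟨n, hn⟩ := h
    rw [zsmul_eq_mul, mul_one] at hn
    have h2 : ((2 * n : ℤ) : ℝ) = ((1 : ℤ) : ℝ) := by
      push_cast
      linarith
    have h3 : (2 * n : ℤ) = 1 := by exact_mod_cast h2
    omega
  obtain ⟨f, hf0, hfR⟩ := Pool.Agent.H792R2.Tilf.exists_not_rep
    (MeasureTheory.volume : MeasureTheory.Measure UnitAddCircle)
  -- the function on the line
  let F : ℝ → ℂ := fun t => ((f (t : UnitAddCircle) : ℝ) : ℂ)
  have hFc : Continuous F := by
    refine Complex.continuous_ofReal.comp (f.continuous.comp ?_)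
    exact AddCircle.continuous_mk' 1
  have hFp : Function.Periodic F 1 := by
    intro t
    simp only [F]
    rw [AddCircle.coe_add_period]
  have hFi : (∫ t in (0:ℝ)..1, F t) = 0 := by
    simp only [F]
    rw [intervalIntegral.integral_ofReal]
    have h1 := UnitAddCircle.intervalIntegral_preimage 0 (f : UnitAddCircle → ℝ)
    rw [zero_add, hf0] at h1
    rw [h1, Complex.ofReal_zero]
  obtain ⟨N, -, a, g, hg, hF⟩ := hall F hFc hFp hFi
  -- bounds
  have hb : ∀ j, ∃ C : ℝ, ∀ t, ‖g j t‖ ≤ C := by
    intro j
    obtain ⟨C, hC⟩ := (isCompact_Icc (a := (0 : ℝ)) (b := 1)).exists_bound_of_continuousOn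
      (hg j).1.continuousOn
    refine ⟨C, fun t => ?_⟩
    obtain ⟨s, hs, hs2⟩ := (hg j).2.exists_mem_Ico₀ one_pos t
    rw [hs2]
    exact hC s ⟨hs.1, hs.2.le⟩
  choose C hC using hb
  have hC0 : ∀ j, 0 ≤ C j := fun j => (norm_nonneg _).trans (hC j 0)
  refine hfR N (∑ j, C j) ⟨fun j => (a j : UnitAddCircle), fun j x => ((hg j).2.lift x).re, ?_, ?_⟩
  · intro j x
    induction x using QuotientAddGroup.induction_on with
    | H t =>
      have h1 : (hg j).2.lift (t : UnitAddCircle) = g j t := (hg j).2.lift_coe t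
      change |((hg j).2.lift (t : UnitAddCircle)).re| ≤ _
      rw [h1]
      exact ((Complex.abs_re_le_norm _).trans (hC j t)).trans
        (Finset.single_le_sum (fun i _ => hC0 i) (Finset.mem_univ j))
  · intro x
    induction x using QuotientAddGroup.induction_on with
    | H t =>
      have h1 : ∀ (j : Fin N) (s : ℝ), (hg j).2.lift (s : UnitAddCircle) = g j s :=
        fun j s => (hg j).2.lift_coe s
      have h2 : ∀ j, (hg j).2.lift ((t : UnitAddCircle) - (a j : UnitAddCircle)) = g j (t - a j) := by
        intro j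
        rw [← h1 j (t - a j), AddCircle.coe_sub]
      have h3 := congrArg Complex.re (hF t)
      simp only [F, Complex.ofReal_re, Complex.re_sum, Complex.sub_re] at h3
      refine h3.trans (Finset.sum_congr rfl fun j _ => ?_)
      rw [← h1 j t, ← h2 j]

end Pool.Agent.S03916
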