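import Pool.Statements.S03943
import Pool.Agent.H784R2.Haar2

set_option autoImplicit false
open Classical
open scoped ENNReal NNReal
open Pool Pool.MP_af6564_an

namespace Pool.Agent.S03943

open Pool.Agent.H784R2.Haar in
lemma conv (γ : Equiv.Perm X) (a : X →₀ ℝ) (I : X) (c : ℝ) :
    ((2:ℝ) ^ I.1.1 * ∑ J ∈ a.support,
      (if I.1.1 ≤ (γ J).1.1 ∧ (γ J).1.2 / 2 ^ ((γ J).1.1 - I.1.1) = I.1.2
        then a J ^ 2 / (2:ℝ) ^ (γ J).1.1 else 0) ≤ c) ↔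
    (∑ J ∈ a.support, if Sub (γ J) I then a J ^ 2 * len (γ J) else 0) ≤ c * len I := by
  have h1 : ∑ J ∈ a.support,
      (if I.1.1 ≤ (γ J).1.1 ∧ (γ J).1.2 / 2 ^ ((γ J).1.1 - I.1.1) = I.1.2
        then a J ^ 2 / (2:ℝ) ^ (γ J).1.1 else 0)
      = ∑ J ∈ a.support, if Sub (γ J) I then a J ^ 2 * len (γ J) else 0 := by
    apply Finset.sum_congr rfl
    intro J _
    by_cases h : I.1.1 ≤ (γ J).1.1 ∧ (γ J).1.2 / 2 ^ ((γ J).1.1 - I.1.1) = I.1.2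
    · rw [if_pos h, if_pos (show Pool.Agent.H784R2.Haar.Sub (γ J) I from h), div_eq_mul_inv]
      rfl
    · rw [if_neg h, if_neg (fun h' : Pool.Agent.H784R2.Haar.Sub (γ J) I => h h')]
  rw [h1]
  have h2 : (0:ℝ) < (2:ℝ) ^ I.1.1 := by positivity
  unfold len
  rw [← div_eq_mul_inv c, le_div_iff₀ h2, mul_comm]

open Pool.Agent.H784R2.Haar in
lemma conv1 (a : X →₀ ℝ) (I : X) (c : ℝ) :
    ((2:ℝ) ^ I.1.1 * ∑ J ∈ a.support,
      (if I.1.1 ≤ J.1.1 ∧ J.1.2 / 2 ^ (J.1.1 - I.1.1) = I.1.2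
        then a J ^ 2 / (2:ℝ) ^ J.1.1 else 0) ≤ c) ↔
    (∑ J ∈ a.support, if Sub ((1 : Equiv.Perm X) J) I then a J ^ 2 * len ((1 : Equiv.Perm X) J) else 0)
      ≤ c * len I :=
  conv 1 a I c

open Pool.Agent.H784R2.Haar in
lemma ind_sum (γ : Equiv.Perm X) (F : Finset X) (a : X →₀ ℝ)
    (ha : a.support = F) (ha1 : ∀ J ∈ F, a J = 1) (I : X) :
    (∑ J ∈ a.support, if Sub (γ J) I then a J ^ 2 * len (γ J) else 0)
      = ∑ J ∈ F, if Sub (γ J) I then len (γ J) else 0 := by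
  rw [ha]
  apply Finset.sum_congr rfl
  intro J hJ
  rw [ha1 J hJ]
  simp

/-- For every permutation π of the dyadic intervals of [0,1]: the Haar rearrangement T_π is bounded with bounded inverse in dyadic BMO iff some K>0 gives CC(π(B)) ≤ K·CC(B) and CC(B) ≤ K·CC(π(B)) for all collections B. -/
theorem result :
  ∀ π : Equiv.Perm {p : ℕ × ℕ // p.2 < 2 ^ p.1},
    (∃ C : ℝ, 0 < C ∧
      ∀ a : {p : ℕ × ℕ // p.2 < 2 ^ p.1} →₀ ℝ, ∀ M : ℝ,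
        ((∀ I : {p : ℕ × ℕ // p.2 < 2 ^ p.1},
            (2:ℝ) ^ I.1.1 * ∑ J ∈ a.support,
              (if I.1.1 ≤ J.1.1 ∧ J.1.2 / 2 ^ (J.1.1 - I.1.1) = I.1.2
                then a J ^ 2 / (2:ℝ) ^ J.1.1 else 0) ≤ M) →
          ∀ I : {p : ℕ × ℕ // p.2 < 2 ^ p.1},
            (2:ℝ) ^ I.1.1 * ∑ J ∈ a.support,
              (if I.1.1 ≤ (π J).1.1 ∧ (π J).1.2 / 2 ^ ((π J).1.1 - I.1.1) = I.1.2
                then a J ^ 2 / (2:ℝ) ^ (π J).1.1 else 0) ≤ C * M) ∧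
        ((∀ I : {p : ℕ × ℕ // p.2 < 2 ^ p.1},
            (2:ℝ) ^ I.1.1 * ∑ J ∈ a.support,
              (if I.1.1 ≤ (π J).1.1 ∧ (π J).1.2 / 2 ^ ((π J).1.1 - I.1.1) = I.1.2
                then a J ^ 2 / (2:ℝ) ^ (π J).1.1 else 0) ≤ M) →
          ∀ I : {p : ℕ × ℕ // p.2 < 2 ^ p.1},
            (2:ℝ) ^ I.1.1 * ∑ J ∈ a.support,
              (if I.1.1 ≤ J.1.1 ∧ J.1.2 / 2 ^ (J.1.1 - I.1.1) = I.1.2
                then a J ^ 2 / (2:ℝ) ^ J.1.1 else 0) ≤ C * M)) ↔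
    (∃ K : ℝ≥0, 0 < K ∧
      ∀ B : Set {p : ℕ × ℕ // p.2 < 2 ^ p.1},
        (⨆ I ∈ π '' B, (2:ℝ≥0∞) ^ I.1.1 *
            ∑' J : {p : ℕ × ℕ // p.2 < 2 ^ p.1},
              (if J ∈ π '' B ∧ I.1.1 ≤ J.1.1 ∧ J.1.2 / 2 ^ (J.1.1 - I.1.1) = I.1.2
                then ((2:ℝ≥0∞) ^ J.1.1)⁻¹ else 0))
          ≤ (K : ℝ≥0∞) *
            (⨆ I ∈ B, (2:ℝ≥0∞) ^ I.1.1 *
              ∑' J : {p : ℕ × ℕ // p.2 < 2 ^ p.1},
                (if J ∈ B ∧ I.1.1 ≤ J.1.1 ∧ J.1.2 / 2 ^ (J.1.1 - I.1.1) = I.1.2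
                  then ((2:ℝ≥0∞) ^ J.1.1)⁻¹ else 0)) ∧
        (⨆ I ∈ B, (2:ℝ≥0∞) ^ I.1.1 *
            ∑' J : {p : ℕ × ℕ // p.2 < 2 ^ p.1},
              (if J ∈ B ∧ I.1.1 ≤ J.1.1 ∧ J.1.2 / 2 ^ (J.1.1 - I.1.1) = I.1.2
                then ((2:ℝ≥0∞) ^ J.1.1)⁻¹ else 0))
          ≤ (K : ℝ≥0∞) *
            (⨆ I ∈ π '' B, (2:ℝ≥0∞) ^ I.1.1 *
              ∑' J : {p : ℕ × ℕ // p.2 < 2 ^ p.1},
                (if J ∈ π '' B ∧ I.1.1 ≤ J.1.1 ∧ J.1.2 / 2 ^ (J.1.1 - I.1.1) = I.1.2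
                  then ((2:ℝ≥0∞) ^ J.1.1)⁻¹ else 0))) := by
  intro π
  constructor
  · rintro ⟨C, hC, h⟩
    refine ⟨Real.toNNReal C, by simpa using hC, fun B => ?_⟩
    have hex : ∀ F : Finset Pool.Agent.H784R2.Haar.X, ∃ a : Pool.Agent.H784R2.Haar.X →₀ ℝ,
        a.support = F ∧ ∀ J ∈ F, a J = 1 := by
      intro F
      refine ⟨Finsupp.indicator F (fun _ _ => 1), ?_, ?_⟩
      · ext J
        simp [Finsupp.indicator_apply]
      · intro J hJ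
        simp [Finsupp.indicator_apply, hJ]
    have hK : ((Real.toNNReal C : NNReal) : ENNReal) = ENNReal.ofReal C := rfl
    have e1 := Pool.Agent.H784R2.Haar.onlyif 1 π C hC (by
      intro F M hF I
      obtain ⟨a, ha, ha1⟩ := hex F
      have h1 := (h a M).1 (fun I => by
        rw [conv1, ind_sum 1 F a ha ha1]; exact hF I) I
      rw [conv π, ind_sum π F a ha ha1] at h1
      exact h1) B
    have e2 := Pool.Agent.H784R2.Haar.onlyif π 1 C hC (by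
      intro F M hF I
      obtain ⟨a, ha, ha1⟩ := hex F
      have h1 := (h a M).2 (fun I => by
        rw [conv π, ind_sum π F a ha ha1]; exact hF I) I
      rw [conv1, ind_sum 1 F a ha ha1] at h1
      exact h1) B
    have h1B : (1 : Equiv.Perm Pool.Agent.H784R2.Haar.X) '' B = B := by simp
    rw [h1B, ← hK] at e1 e2
    exact ⟨e1, e2⟩
  · rintro ⟨K, hK, h⟩
    refine ⟨2 * K, by positivity, fun a M => ⟨?_, ?_⟩⟩
    · intro h1 I
      rw [conv π]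
      have h2 := Pool.Agent.H784R2.Haar.hyp_core 1 π K (by
        intro B
        have h1B : (1 : Equiv.Perm Pool.Agent.H784R2.Haar.X) '' B = B := by simp
        rw [h1B]
        exact (h B).1) a.support (fun J => a J ^ 2) (fun J => sq_nonneg _) M
        (fun I => (conv1 a I M).1 (h1 I)) I
      exact h2
    · intro h1 I
      rw [conv1]
      have h2 := Pool.Agent.H784R2.Haar.hyp_core π 1 K (by
        intro B
        have h1B : (1 : Equiv.Perm Pool.Agent.H784R2.Haar.X) '' B = B := by simp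
        rw [h1B]
        exact (h B).2) a.support (fun J => a J ^ 2) (fun J => sq_nonneg _) M
        (fun I => (conv π a I M).1 (h1 I)) I
      exact h2

end Pool.Agent.S03943
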