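import Pool.Statements.S03972
import Pool.Agent.H724R2.HankelTensor

set_option autoImplicit false
open Pool Pool.MP_b37dfb_an

namespace Pool.Agent.S03972

/-- The negation of the preceding statement: If the coefficient sequence of ψ is a Fourier multiplier of H¹, then for some C and all M ≥ 2 every finite section of the Hankel tensor ψ̂(n₁+…+n_M) has projective ℓ^∞-tensor norm at most e^{CM}. -/
theorem result :
    ¬ (∀ b : ℕ → ℂ,
    (∃ C : ℝ, ∀ (N : ℕ) (c : ℕ → ℂ),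
      ∫ t in (0:ℝ)..(2 * Real.pi),
          ‖∑ n ∈ Finset.range N, b n * c n * Complex.exp ((n : ℂ) * (t : ℂ) * Complex.I)‖
        ≤ C * ∫ t in (0:ℝ)..(2 * Real.pi),
          ‖∑ n ∈ Finset.range N, c n * Complex.exp ((n : ℂ) * (t : ℂ) * Complex.I)‖) →
    ∃ C : ℝ, ∀ M : ℕ, 2 ≤ M → ∀ N : ℕ,
      ∃ (K : ℕ) (a : Fin K → Fin M → ℕ → ℂ) (s : Fin K → Fin M → ℝ),
        (∀ n : Fin M → ℕ, (∀ i, n i ≤ N) → b (∑ i, n i) = ∑ k, ∏ i, a k i (n i)) ∧
        (∀ k i m, m ≤ N → ‖a k i m‖ ≤ s k i) ∧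
        ∑ k, ∏ i, s k i ≤ Real.exp (C * (M : ℝ))) := by
  exact Pool.Agent.H724R2.HankelTensor.main

end Pool.Agent.S03972
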