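import Pool.Statements.S04008
import Pool.Agent.H799R2.USpace

set_option autoImplicit false
open Pool Pool.MP_b97ffe_an

namespace Pool.Agent.S04008

open MeasureTheory Pool.Agent.H799R2.Union in
/-- The union is not embeddable. -/
lemma not_union (Ω : Type) (_ : MeasurableSpace Ω) (μ : MeasureTheory.Measure Ω)
    (f : ↥(Set.range jA ∪ Set.range jB) → MeasureTheory.Lp ℝ 1 μ) (c C : ℝ) (hc : 0 < c)
    (hf : ∀ x y : ↥(Set.range jA ∪ Set.range jB),
      c * dist x y ≤ dist (f x) (f y) ∧ dist (f x) (f y) ≤ C * dist x y) : False := by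
  classical
  set C' : ℝ := max C 0 with hC'
  have hC0 : 0 ≤ C' := le_max_right _ _
  have hf2 : ∀ x y, dist (f x) (f y) ≤ C' * dist x y := fun x y =>
    (hf x y).2.trans (mul_le_mul_of_nonneg_right (le_max_left _ _) dist_nonneg)
  let A0 : EE → ↥(Set.range jA ∪ Set.range jB) := fun a => ⟨jA a, Or.inl ⟨a, rfl⟩⟩
  let B0 : EE → ↥(Set.range jA ∪ Set.range jB) := fun a => ⟨jB a, Or.inr ⟨a, rfl⟩⟩
  have hA0 : ∀ a b, dist (A0 a) (A0 b) = ‖jA (a - b)‖ := by
    intro a b
    rw [Subtype.dist_eq, dist_eq_norm, jA_sub]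
  have hB0 : ∀ a b, dist (B0 a) (B0 b) = ‖jB (a - b)‖ := by
    intro a b
    rw [Subtype.dist_eq, dist_eq_norm, jB_sub]
  -- the inequality for every block
  have key : ∀ m : ℕ, c * (4 / 13) * √(√((2 : ℝ) ^ (m + 1))) ≤ 4 * C' := by
    intro m
    set n : ℝ := (2 : ℝ) ^ (m + 1) with hn
    have hn0 : 0 < n := by positivity
    have hcard : (Fintype.card (KK m) : ℝ) = n := by rw [card_KK, hn]; push_cast; rfl
    have hcardG : (Fintype.card (KK m × KK m) : ℝ) = n * n := by
      rw [Fintype.card_prod]; push_cast; rw [hcard]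
    let FA : (KK m × KK m → ℝ) → MeasureTheory.Lp ℝ 1 μ := fun a => f (A0 (emb m a))
    let FB : (KK m × KK m → ℝ) → MeasureTheory.Lp ℝ 1 μ := fun a => f (B0 (emb m a))
    have hFA : ∀ a a', ‖FA a - FA a'‖ ≤ C' * ∑ c, |a c - a' c| := by
      intro a a'
      rw [← dist_eq_norm, ← norm_emb_sub]
      refine (hf2 _ _).trans (mul_le_mul_of_nonneg_left ?_ hC0)
      rw [hA0]
      exact jA_le _
    have hFB : ∀ a a', ‖FB a - FB a'‖ ≤ C' * ∑ c, |a c - a' c| := by
      intro a a'
      rw [← dist_eq_norm, ← norm_emb_sub]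
      refine (hf2 _ _).trans (mul_le_mul_of_nonneg_left ?_ hC0)
      rw [hB0]
      exact jB_le _
    have hAB : ∀ y, FA (mr gm y) = FB (mr hm y) := by
      intro y
      have : A0 (emb m (mr gm y)) = B0 (emb m (mr hm y)) := Subtype.ext (glue m y)
      simp only [FA, FB, this]
    have hlow : ∀ (y : KK m → ℝ) (x : KK m) (t : ℝ), 0 < t →
        c * (4 / 13) * (n * n) * t ≤
          ‖FA (mr gm (y + t • Pi.single x (1 : ℝ))) - FA (mr gm y)‖ := by
      intro y x t ht
      rw [← dist_eq_norm]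
      refine le_trans ?_ (hf _ _).1
      rw [hA0]
      have h1 := jA_ge (emb m (mr gm (y + t • Pi.single x (1 : ℝ))) - emb m (mr gm y))
      rw [norm_emb_sub] at h1
      have h2 : ∑ c, |mr gm (y + t • Pi.single x (1 : ℝ)) c - mr gm y c| = n * n * t := by
        have : ∀ c : KK m × KK m, |mr gm (y + t • Pi.single x (1 : ℝ)) c - mr gm y c| = t := by
          intro c
          rw [mr_add, mr_smul]
          simp only [Pi.add_apply, Pi.smul_apply, smul_eq_mul, add_sub_cancel_left]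
          have e : mr gm (Pi.single x (1 : ℝ)) c = (gm c x : ℝ) := by
            simp [mr, Pi.single_apply]
          rw [e, abs_mul, abs_of_pos ht]
          unfold gm
          rw [psi_absR, mul_one]
        simp_rw [this]
        rw [Finset.sum_const, nsmul_eq_mul, Finset.card_univ, hcardG]
      rw [h2] at h1
      calc c * (4 / 13) * (n * n) * t = c * (4 / 13 * (n * n * t)) := by ring
        _ ≤ _ := mul_le_mul_of_nonneg_left h1 hc.le
    have hmain := core (μ := μ) (N := KK m) (Γ₁ := KK m × KK m) (Γ₂ := KK m × KK m) gm hm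
      (4 * √(Fintype.card (KK m) : ℝ)) (by positivity) coherence C' hC0 FA FB hFA hFB hAB
      (c * (4 / 13) * (n * n)) (c * (4 / 13) * (n * n) / 2) (by
        have : 0 < c * (4 / 13) * (n * n) := by positivity
        linarith) hlow
    rw [hcard, hcardG] at hmain
    -- simplify
    set r := √(√n) with hr
    have hr0 : 0 < r := Real.sqrt_pos.2 (Real.sqrt_pos.2 hn0)
    have hr2 : √n = r ^ 2 := (Real.sq_sqrt (Real.sqrt_nonneg n)).symm
    have hr4 : n = r ^ 4 := by
      have := (Real.sq_sqrt hn0.le)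
      rw [← this, hr2]; ring
    have h4 : √(4 * √n) = 2 * r := by
      rw [hr2]
      rw [show 4 * r ^ 2 = (2 * r) ^ 2 by ring]
      exact Real.sqrt_sq (by positivity)
    rw [h4, hr2, hr4] at hmain
    have hpos : 0 < r ^ 11 / 2 := by positivity
    have e1 : r ^ 4 * (c * (4 / 13) * (r ^ 4 * r ^ 4) / 2) = (r ^ 11 / 2) * (c * (4 / 13) * r) := by
      ring
    have e2 : r ^ 2 * (2 * r) * ((C' * (r ^ 4 * r ^ 4) + C' * (r ^ 4 * r ^ 4)) / 2) =
        (r ^ 11 / 2) * (4 * C') := by ring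
    rw [e1, e2] at hmain
    exact le_of_mul_le_mul_left hmain hpos
  -- contradiction for large `m`
  have hlim : Filter.Tendsto (fun m : ℕ => c * (4 / 13) * √(√((2 : ℝ) ^ (m + 1))))
      Filter.atTop Filter.atTop := by
    apply Filter.Tendsto.const_mul_atTop (by positivity)
    refine Real.tendsto_sqrt_atTop.comp (Real.tendsto_sqrt_atTop.comp ?_)
    exact (tendsto_pow_atTop_atTop_of_one_lt (by norm_num : (1 : ℝ) < 2)).comp
      (Filter.tendsto_add_atTop_nat 1)
  obtain ⟨m, hm⟩ := (hlim.eventually_gt_atTop (4 * C')).exists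
  exact absurd (key m) (not_le.2 hm)

open Pool.Agent.H799R2.Union in
/-- embeddability of one piece -/
lemma piece (j : EE → XX) (hsub : ∀ a b, j a - j b = j (a - b)) (hle : ∀ a, ‖j a‖ ≤ ‖a‖)
    (hge : ∀ a, 4 / 13 * ‖a‖ ≤ ‖j a‖) :
    ∃ (Ω : Type) (_ : MeasurableSpace Ω) (μ : MeasureTheory.Measure Ω)
      (f : Set.range j → MeasureTheory.Lp ℝ 1 μ) (c C : ℝ), 0 < c ∧
      ∀ x y : Set.range j, c * dist x y ≤ dist (f x) (f y) ∧ dist (f x) (f y) ≤ C * dist x y := by
  refine ⟨Wp, inferInstance, MeasureTheory.Measure.count, fun x => x.2.choose, 1, 13 / 4,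
    one_pos, fun x y => ?_⟩
  have hx := x.2.choose_spec
  have hy := y.2.choose_spec
  have hd : dist x y = ‖j (x.2.choose - y.2.choose)‖ := by
    rw [Subtype.dist_eq, dist_eq_norm, ← hsub, hx, hy]
  rw [hd, dist_eq_norm]
  refine ⟨by rw [one_mul]; exact hle _, ?_⟩
  have := hge (x.2.choose - y.2.choose)
  linarith

/-- The negation of the preceding statement: For any metric space and subsets A, B: if A and B each bi-Lipschitz embed into some L1(μ) space, then their union A ∪ B also bi-Lipschitz embeds into some L1(μ) space. -/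
theorem result :
    ¬ (∀ (X : Type) [MetricSpace X] (A B : Set X),
      (∃ (Ω : Type) (_ : MeasurableSpace Ω) (μ : MeasureTheory.Measure Ω)
          (f : A → MeasureTheory.Lp ℝ 1 μ) (c C : ℝ), 0 < c ∧
          ∀ x y : A, c * dist x y ≤ dist (f x) (f y) ∧ dist (f x) (f y) ≤ C * dist x y) →
      (∃ (Ω : Type) (_ : MeasurableSpace Ω) (μ : MeasureTheory.Measure Ω)
          (f : B → MeasureTheory.Lp ℝ 1 μ) (c C : ℝ), 0 < c ∧
          ∀ x y : B, c * dist x y ≤ dist (f x) (f y) ∧ dist (f x) (f y) ≤ C * dist x y) →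
      (∃ (Ω : Type) (_ : MeasurableSpace Ω) (μ : MeasureTheory.Measure Ω)
          (f : ↥(A ∪ B) → MeasureTheory.Lp ℝ 1 μ) (c C : ℝ), 0 < c ∧
          ∀ x y : ↥(A ∪ B), c * dist x y ≤ dist (f x) (f y) ∧ dist (f x) (f y) ≤ C * dist x y)) := by
  intro h
  obtain ⟨Ω, mΩ, μ, f, c, C, hc, hf⟩ := h Pool.Agent.H799R2.Union.XX
    (Set.range Pool.Agent.H799R2.Union.jA) (Set.range Pool.Agent.H799R2.Union.jB)
    (piece _ Pool.Agent.H799R2.Union.jA_sub Pool.Agent.H799R2.Union.jA_le
      Pool.Agent.H799R2.Union.jA_ge)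
    (piece _ Pool.Agent.H799R2.Union.jB_sub Pool.Agent.H799R2.Union.jB_le
      Pool.Agent.H799R2.Union.jB_ge)
  exact not_union Ω mΩ μ f c C hc hf

end Pool.Agent.S04008
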