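import Pool.Statements.S04023
import Pool.Agent.H769R2.ONS8

set_option autoImplicit false
open MeasureTheory
open Pool Pool.MP_bbfc99_an

namespace Pool.Agent.S04023

/-- There is a complete orthonormal sequence of measurable L² functions on [0,1] such that, for every nonzero polynomial, the partial sums of its expansion in that sequence fail to converge at almost every point of [0,1]. -/
theorem result :
  ∃ φ : ℕ → ℝ → ℝ,
    (∀ n, Measurable (φ n)) ∧
    (∀ n, MemLp (φ n) 2 (volume.restrict (Set.Icc (0:ℝ) 1))) ∧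
    (∀ n m, ∫ t in Set.Icc (0:ℝ) 1, φ n t * φ m t = if n = m then (1:ℝ) else 0) ∧
    (∀ f : ℝ → ℝ, MemLp f 2 (volume.restrict (Set.Icc (0:ℝ) 1)) →
      (∀ n, ∫ t in Set.Icc (0:ℝ) 1, f t * φ n t = 0) →
      f =ᵐ[volume.restrict (Set.Icc (0:ℝ) 1)] 0) ∧
    ∀ p : Polynomial ℝ, p ≠ 0 →
      ∀ᵐ t ∂(volume.restrict (Set.Icc (0:ℝ) 1)),
        ¬ ∃ L : ℝ, Filter.Tendsto
          (fun N : ℕ => ∑ n ∈ Finset.range N,
            (∫ s in Set.Icc (0:ℝ) 1, p.eval s * φ n s) * φ n t)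
          Filter.atTop (nhds L) := by
  obtain ⟨φ, h1, h2, h3, h4, h5⟩ := Pool.Agent.H769R2.ONS.main_ons
  refine ⟨φ, h1, h2, h3, h4, ?_⟩
  intro p hp
  have hx : ∃ x ∈ Set.Icc (0:ℝ) 1, p.eval x ≠ 0 := by
    by_contra hcon
    push Not at hcon
    apply hp
    apply Polynomial.eq_zero_of_infinite_isRoot
    refine Set.Infinite.mono (s := Set.Icc (0:ℝ) 1) ?_ (Set.Icc_infinite zero_lt_one)
    intro x hx
    exact hcon x hx
  obtain ⟨a, b, c⟩ := Pool.Agent.H769R2.ONS.cont_ok (f := fun s => p.eval s)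
    p.continuous.continuousOn hx
  filter_upwards [h5 _ a b c] with t ht
  rintro ⟨L, hL⟩
  obtain ⟨B, hB⟩ := hL.abs.bddAbove_range
  obtain ⟨n, hn⟩ := ht B
  exact absurd hn (not_lt.2 (hB ⟨n, rfl⟩))

end Pool.Agent.S04023
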