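import Pool.Statements.S04032
import Pool.Agent.H803R2.T3Group

set_option autoImplicit false
open Pool Pool.MP_bd309d_an

namespace Pool.Agent.S04032

/-- The negation of the preceding statement: On the (2j+1)-regular tree, j ≥ 1, take a Jacobi operator with positive edge weights a and real vertex weights b, invariant under a free cofinite automorphism group. If its spectrum is connected, then all a's are equal and all b's are equal. -/
theorem result :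
    ¬ (∀ (j : ℕ), 1 ≤ j → ∀ (V : Type) (G : SimpleGraph V), G.IsTree →
    (∀ v : V, (G.neighborSet v).ncard = 2 * j + 1) →
    ∀ (a : V → V → ℝ) (b : V → ℝ),
      (∀ u v, G.Adj u v → a u v = a v u) →
      (∀ u v, G.Adj u v → 0 < a u v) →
      (∃ Γ : Subgroup (G ≃g G),
        (∀ g ∈ Γ, ∀ v : V, g v = v → g = 1) ∧
        (∃ F : Finset V, ∀ v : V, ∃ g ∈ Γ, ∃ w ∈ F, g w = v) ∧
        (∀ g ∈ Γ, ∀ v : V, b (g v) = b v) ∧
        (∀ g ∈ Γ, ∀ u v : V, G.Adj u v → a (g u) (g v) = a u v)) →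
      IsPreconnected {t : ℝ | ∀ ε : ℝ, 0 < ε → ∃ ψ : V →₀ ℝ, ψ ≠ 0 ∧
          (∑ᶠ v : V, ((b v - t) * ψ v + ∑ᶠ w ∈ G.neighborSet v, a v w * ψ w) ^ 2)
            < ε * ∑ᶠ v : V, ψ v ^ 2} →
      (∀ u v u' v' : V, G.Adj u v → G.Adj u' v' → a u v = a u' v') ∧
        (∀ u v : V, b u = b v)) := by
  intro h
  have h1 := h 1 le_rfl Pool.Agent.H803R2.T3.W Pool.Agent.H803R2.T3.Tree
    Pool.Agent.H803R2.T3.tree_isTree Pool.Agent.H803R2.T3.nbhd_card
    Pool.Agent.H803R2.T3.aw (fun _ => 0) Pool.Agent.H803R2.T3.aw_symm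
    Pool.Agent.H803R2.T3.aw_pos
    ⟨Pool.Agent.H803R2.T3.Gam, Pool.Agent.H803R2.T3.Gam_free,
      Pool.Agent.H803R2.T3.Gam_cofinite, fun _ _ _ => rfl,
      Pool.Agent.H803R2.T3.Gam_weight⟩
    Pool.Agent.H803R2.T3.spec_preconnected
  have h2 := h1.1 Pool.Agent.H803R2.T3.e (Pool.Agent.H803R2.T3.R 0 Pool.Agent.H803R2.T3.e)
    Pool.Agent.H803R2.T3.e (Pool.Agent.H803R2.T3.R 2 Pool.Agent.H803R2.T3.e)
    ⟨0, rfl⟩ ⟨2, rfl⟩
  rw [Pool.Agent.H803R2.T3.aw_R, Pool.Agent.H803R2.T3.aw_R] at h2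
  exact Pool.Agent.H803R2.T3.wt_ne h2


end Pool.Agent.S04032
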