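import Pool.Statements.S04104
import Pool.Agent.H783R2.Champ.Top

set_option autoImplicit false
open Metric Filter Topology MeasureTheory
open Pool Pool.MP_c3f068_an

namespace Pool.Agent.S04104

/-- The negation of the preceding statement: Let Ω be a bounded plane domain with finite-length boundary and Jordan-curve outer boundary Γ. If u is subharmonic on Ω, usc on its closure and tends to −∞ at each point of a subset of Γ of positive length, then u is identically −∞ on Ω. -/
theorem result :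
    ¬ (∀ (Ω : Set ℂ) (u : ℂ → EReal) (E : Set ℂ) (γ : Circle → ℂ),
      IsOpen Ω → IsConnected Ω → Bornology.IsBounded Ω →
      μH[1] (frontier Ω) < ⊤ →
      Continuous γ → Function.Injective γ →
      (∀ z, z ∉ closure Ω →
          ¬ Bornology.IsBounded (connectedComponentIn (closure Ω)ᶜ z) →
          frontier (connectedComponentIn (closure Ω)ᶜ z) = Set.range γ) →
      (∀ z ∈ closure Ω, u z ≠ ⊤) →
      UpperSemicontinuousOn u (closure Ω) →
      (∀ (c : ℂ) (r : ℝ), 0 < r → closedBall c r ⊆ Ω →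
        ∀ h : ℂ → ℝ, ContinuousOn h (closedBall c r) →
          (∃ g : ℂ → ℂ, DifferentiableOn ℂ g (ball c r) ∧
              ∀ z ∈ ball c r, h z = (g z).re) →
          (∀ z ∈ sphere c r, u z ≤ (h z : EReal)) →
          ∀ z ∈ closedBall c r, u z ≤ (h z : EReal)) →
      E ⊆ Set.range γ →
      0 < μH[1] E →
      (∀ ζ ∈ E, Tendsto u (𝓝[Ω] ζ) (𝓝 ⊥)) →
      ∀ z ∈ Ω, u z = ⊥) := by
  intro H
  have key := H Pool.Agent.H783R2.Champ.Om Pool.Agent.H783R2.Champ.uu (sphere (0:ℂ) 1)
    (fun z : Circle => (z : ℂ)) Pool.Agent.H783R2.Champ.isOpen_Om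
    Pool.Agent.H783R2.Champ.isConnected_Om Pool.Agent.H783R2.Champ.isBounded_Om
    Pool.Agent.H783R2.Champ.frontier_length (by fun_prop) Circle.coe_injective
    (fun z _ hz => by
      rw [Pool.Agent.H783R2.Champ.range_circle]
      exact Pool.Agent.H783R2.Champ.outer hz) ?_ ?_ ?_ ?_
    Pool.Agent.H783R2.Champ.circle_length_pos ?_
    ((Pool.Agent.H783R2.Champ.sr 0 : ℝ) : ℂ)
    (mem_connectedComponentIn Pool.Agent.H783R2.Champ.x0_mem)
  · have h1 : ‖((Pool.Agent.H783R2.Champ.sr 0 : ℝ) : ℂ)‖ < 1 :=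
      Pool.Agent.H783R2.Champ.x0_mem.1
    simp only [Pool.Agent.H783R2.Champ.uu, if_pos h1] at key
    exact EReal.coe_ne_bot _ key
  · intro z _
    unfold Pool.Agent.H783R2.Champ.uu
    split_ifs
    · exact EReal.coe_ne_top _
    · exact bot_ne_top
  · intro z hz y hy
    change Pool.Agent.H783R2.Champ.uu z < y at hy
    have hz2 := Pool.Agent.H783R2.Champ.closure_sub hz
    rcases eq_or_lt_of_le hz2.2 with h | h
    · exact Pool.Agent.H783R2.Champ.uu_eventually h (lt_of_le_of_lt bot_le hy)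
    · have h1 : ContinuousWithinAt Pool.Agent.H783R2.Champ.us
          (closure Pool.Agent.H783R2.Champ.Om) z :=
        (Pool.Agent.H783R2.Champ.us_continuousWithinAt hz2.1 h).mono
          fun w hw => (Pool.Agent.H783R2.Champ.closure_sub hw).1
      have h2 : Tendsto (fun w => ((Pool.Agent.H783R2.Champ.us w : ℝ) : EReal))
          (𝓝[closure Pool.Agent.H783R2.Champ.Om] z)
          (𝓝 ((Pool.Agent.H783R2.Champ.us z : ℝ) : EReal)) :=
        (continuous_coe_real_ereal.tendsto _).comp h1
      have e1 : Pool.Agent.H783R2.Champ.uu z = ((Pool.Agent.H783R2.Champ.us z : ℝ) : EReal) := by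
        unfold Pool.Agent.H783R2.Champ.uu; rw [if_pos h]
      rw [e1] at hy
      have h3 : ∀ᶠ w in 𝓝[closure Pool.Agent.H783R2.Champ.Om] z, ‖w‖ < 1 :=
        (continuous_norm.continuousAt.eventually (gt_mem_nhds h)).filter_mono nhdsWithin_le_nhds
      filter_upwards [h2.eventually (gt_mem_nhds hy), h3] with w hw hw2
      change Pool.Agent.H783R2.Champ.uu w < y
      unfold Pool.Agent.H783R2.Champ.uu
      rw [if_pos hw2]
      exact hw
  · intro c r hr hc h hh hg hle z hz
    obtain ⟨g, hg1, hg2⟩ := hg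
    have hD : ∀ w ∈ closedBall c r, w ∈ Pool.Agent.H783R2.Champ.G ∧ ‖w‖ < 1 := fun w hw =>
      ⟨(Pool.Agent.H783R2.Champ.closure_sub (subset_closure (hc hw))).1,
        (Pool.Agent.H783R2.Champ.Om_sub (hc hw)).1⟩
    have e : ∀ w ∈ closedBall c r, Pool.Agent.H783R2.Champ.uu w =
        ((Pool.Agent.H783R2.Champ.us w : ℝ) : EReal) := by
      intro w hw
      unfold Pool.Agent.H783R2.Champ.uu; rw [if_pos (hD w hw).2]
    rw [e z hz]
    refine EReal.coe_le_coe_iff.2 (Pool.Agent.H783R2.Champ.us_majorant hr hD hh hg1 hg2 ?_ z hz)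
    intro w hw
    have h1 := hle w hw
    rw [e w (sphere_subset_closedBall hw)] at h1
    exact EReal.coe_le_coe_iff.1 h1
  · rw [Pool.Agent.H783R2.Champ.range_circle]
  · intro ζ hζ
    rw [mem_sphere_zero_iff_norm] at hζ
    rw [EReal.tendsto_nhds_bot_iff_real]
    intro x
    exact (Pool.Agent.H783R2.Champ.uu_eventually hζ (EReal.bot_lt_coe x)).filter_mono
      (nhdsWithin_mono _ subset_closure)

end Pool.Agent.S04104
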