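import Pool.Statements.S04147
import Pool.Agent.H735G.Almost
import Pool.Agent.H270R2.GEN.FS
import Pool.Agent.H360R2.GN.RedFin
import Pool.Agent.H917R2.Tr.All

set_option autoImplicit false
open Pool Pool.MP_c8a987_an

namespace Pool.Agent.S04147

/-- For every von Neumann algebra M on a separable complex Hilbert space there is a bounded operator T such that M equals the double commutant of {T, T*}, i.e. M is generated as a von Neumann algebra by T. -/
theorem result :
    ∀ (H : Type) [NormedAddCommGroup H] [InnerProductSpace ℂ H] [CompleteSpace H]
      [TopologicalSpace.SeparableSpace H] (M : VonNeumannAlgebra H),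
      ∃ T : H →L[ℂ] H,
        (M : Set (H →L[ℂ] H)) =
          Set.centralizer (Set.centralizer ({T, star T} : Set (H →L[ℂ] H))) :=
  Pool.Agent.H735G.main_of Pool.Agent.H270G.freeness2
    (H360R2.GN.reduction_of_trace H917R2.Tr.tr_main)

end Pool.Agent.S04147
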