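import Pool.Statements.S04163
import Pool.Agent.H712R5.BO.B1
import Pool.Agent.H712R5.BO.B2a
import Pool.Agent.H712R5.BO.B2
import Pool.Agent.H712R5.BO.B2c
import Pool.Agent.H712R5.BO.B3
import Pool.Agent.H712R5.BO.B4v
import Pool.Agent.H712R5.BO.B4u
import Pool.Agent.H712R5.BO.B4
import Pool.Agent.H712R5.BO.B5
import Pool.Agent.H712R5.BO.B6
import Pool.Agent.H712R5.BO.B7
import Pool.Agent.H712R5.BO.B8
import Pool.Agent.H712R5.BO.B9
import Pool.Agent.H712R5.BO.B10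
import Pool.Agent.H712R5.BO.B11
import Pool.Agent.H712R5.BO.B12
import Pool.Agent.H712R5.BO.B13
import Pool.Agent.H712R5.BO.C1
import Pool.Agent.H712R5.BO.C2
import Pool.Agent.H712R5.BO.C3
import Pool.Agent.H712R5.BO.C4
import Pool.Agent.H712R5.BO.C5
import Pool.Agent.H712R5.BO.C6
import Pool.Agent.H712R5.BO.C7
import Pool.Agent.H712R5.BO.C8
import Pool.Agent.H712R5.BO.C9
import Pool.Agent.H712R5.BO.C10
import Pool.Agent.H712R5.BO.C11
import Pool.Agent.H712R5.BO.C12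
import Pool.Agent.H712R5.BO.D1
import Pool.Agent.H712R5.BO.D2
import Pool.Agent.H712R5.BO.D3
import Pool.Agent.H712R5.BO.D4
import Pool.Agent.H712R5.BO.D5
import Pool.Agent.H712R5.BO.D6
import Pool.Agent.H712R5.BO.D7
import Pool.Agent.H712R5.BO.D8
import Pool.Agent.H712R5.BO.MAIN
import Pool.Agent.H712R5.BO.Z1
import Pool.Agent.H712R5.BO.Z2
import Pool.Agent.H712R5.BO.Z3
import Pool.Agent.H712R5.BO.Z4
import Pool.Agent.H712R5.BO.Z5
import Pool.Agent.H712R5.BO.Z6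
import Pool.Agent.H712R5.BO.Z7
import Pool.Agent.H712R5.BO.FIN

set_option autoImplicit false
open MeasureTheory
open Pool Pool.MP_ca96e1_an

namespace Pool.Agent.S04163

open Pool.Agent.H712R5.BO in
theorem bishop_fin : P_FIN := by
  have b1 : P_B1 := t_B1
  have b2a : P_B2a := t_B2a
  have b2 : P_B2 := t_B2 b2a b1
  have b2c : P_B2c := t_B2c
  have b3 : P_B3 := t_B3 b1 b2 b2c
  have b4v : P_B4v := t_B4v
  have b4u : P_B4u := t_B4u b1 b4v
  have b4 : P_B4 := t_B4 b1 b3 b4u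
  have b5 : P_B5 := t_B5 b1 b4 b4u
  have b6 : P_B6 := t_B6 b1 b4u b5
  have b7 : P_B7 := t_B7 b1
  have b8 : P_B8 := t_B8 b6 b7
  have b9 : P_B9 := t_B9 b1 b4u b8
  have b10 : P_B10 := t_B10
  have b11 : P_B11 := t_B11 b4 b9
  have b12 : P_B12 := t_B12 b1 b10 b11
  have b13 : P_B13 := t_B13 b2
  have c1 : P_C1 := t_C1
  have c2 : P_C2 := t_C2
  have c3 : P_C3 := t_C3
  have c4 : P_C4 := t_C4 b4v
  have c5 : P_C5 := t_C5
  have c6 : P_C6 := t_C6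
  have c7 : P_C7 := t_C7
  have c8 : P_C8 := t_C8
  have c9 : P_C9 := t_C9
  have c10 : P_C10 := t_C10
  have c11 : P_C11 := t_C11
  have c12 : P_C12 := t_C12 b4v c10 c11
  have d1 : P_D1 := t_D1
  have d2 : P_D2 := t_D2 b2 d1
  have d3 : P_D3 := t_D3 d2
  have d4 : P_D4 := t_D4 b1
  have d5 : P_D5 := t_D5
  have d6 : P_D6 := t_D6 d5
  have d7 : P_D7 := t_D7 b4u d1 d3 d4 d6
  have d8 : P_D8 := t_D8
  have main : P_MAIN := t_MAIN b1 b12 b13 d7 d8 c1 c2 c3 c4 c5 c6 c7 c8 c9 c12 b4v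
  have z1 : P_Z1 := t_Z1
  have z2 : P_Z2 := t_Z2
  have z3 : P_Z3 := t_Z3 z1
  have z4 : P_Z4 := t_Z4 z2
  have z5 : P_Z5 := t_Z5
  have z6 : P_Z6 := t_Z6 z2
  have z7 : P_Z7 := t_Z7 z2
  exact t_FIN main z1 z2 z3 z4 z5 z6 z7


/-- For every irrational α, the bounded operator on L²(0,1) given by f(x) ↦ x·f(fractional part of x+α) has a closed invariant subspace other than {0} and the whole space. -/
theorem result :
    ∀ α : ℝ, Irrational α →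
    ∀ T : Lp ℂ 2 (volume.restrict (Set.Ico (0:ℝ) 1)) →L[ℂ]
          Lp ℂ 2 (volume.restrict (Set.Ico (0:ℝ) 1)),
      (∀ f : Lp ℂ 2 (volume.restrict (Set.Ico (0:ℝ) 1)),
        (T f : ℝ → ℂ) =ᵐ[volume.restrict (Set.Ico (0:ℝ) 1)]
          (fun x : ℝ => (x : ℂ) * (f : ℝ → ℂ) (Int.fract (x + α)))) →
      ∃ V : Submodule ℂ (Lp ℂ 2 (volume.restrict (Set.Ico (0:ℝ) 1))),
        IsClosed (V : Set (Lp ℂ 2 (volume.restrict (Set.Ico (0:ℝ) 1)))) ∧
        V ≠ ⊥ ∧ V ≠ ⊤ ∧ ∀ v ∈ V, T v ∈ V := by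
  exact bishop_fin

end Pool.Agent.S04163
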