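import Pool.Statements.S04169
import Pool.Agent.H792R2.EpiB
-- import your own Pool.Agent.* helpers here

set_option autoImplicit false
open Pool Pool.MP_cb17ae_an

namespace Pool.Agent.S04169

/-- Every surjective algebra homomorphism from smooth complex functions on [0,1] onto a complex Banach algebra is continuous: its norm is bounded by a constant times the sum of sup-norms of the first n derivatives on [0,1]. -/
theorem result :
    ∀ (B : Type) [NormedRing B] [NormedAlgebra ℂ B] [CompleteSpace B] (φ : (ℝ → ℂ) → B),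
      (∀ f g : ℝ → ℂ, ContDiff ℝ (⊤ : ℕ∞) f → ContDiff ℝ (⊤ : ℕ∞) g →
          φ (f + g) = φ f + φ g) →
      (∀ f g : ℝ → ℂ, ContDiff ℝ (⊤ : ℕ∞) f → ContDiff ℝ (⊤ : ℕ∞) g →
          φ (f * g) = φ f * φ g) →
      (∀ (c : ℂ) (f : ℝ → ℂ), ContDiff ℝ (⊤ : ℕ∞) f → φ (c • f) = c • φ f) →
      (∀ f g : ℝ → ℂ, ContDiff ℝ (⊤ : ℕ∞) f → ContDiff ℝ (⊤ : ℕ∞) g →
          Set.EqOn f g (Set.Icc (0 : ℝ) 1) → φ f = φ g) →
      (∀ b : B, ∃ f : ℝ → ℂ, ContDiff ℝ (⊤ : ℕ∞) f ∧ φ f = b) →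
      ∃ n : ℕ, ∃ C : ℝ, ∀ f : ℝ → ℂ, ContDiff ℝ (⊤ : ℕ∞) f →
        ‖φ f‖ ≤ C * ∑ k ∈ Finset.range (n + 1),
          sSup ((fun x : ℝ => ‖iteratedDeriv k f x‖) '' Set.Icc (0 : ℝ) 1) := by
  intro B _ _ _ φ h1 h2 h3 h4 h5
  exact (Pool.Agent.H792R2.Epi.mk (φ := φ) h1 h2 h3 h4 h5).main

end Pool.Agent.S04169
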