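import Pool.Statements.S04192
import Pool.Agent.H901R2.MD6
import Pool.Agent.H705R2.MLogF
import Pool.Agent.H807R2.Dav5

set_option autoImplicit false
open Filter Topology MeasureTheory
open Pool Pool.MP_cd1519_an

namespace Pool.Agent.S04192

/-- The negation of the preceding statement: For compact metric systems (X,T), (X',T') whose invariant probability measures match up pairwise by measure-theoretic (mod 0) isomorphisms in both directions, Möbius disjointness of (X,T) implies Möbius disjointness of (X',T'). -/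
theorem result :
    ¬ (∀ (X : Type) [MetricSpace X] [CompactSpace X] [MeasurableSpace X] [BorelSpace X]
    (X' : Type) [MetricSpace X'] [CompactSpace X'] [MeasurableSpace X'] [BorelSpace X']
    (T : X → X) (T' : X' → X'), Continuous T → Continuous T' →
    (∀ μ : Measure X, IsProbabilityMeasure μ → MeasurePreserving T μ μ →
      ∃ ν : Measure X', IsProbabilityMeasure ν ∧ MeasurePreserving T' ν ν ∧
        ∃ φ : X → X', ∃ ψ : X' → X, MeasurePreserving φ μ ν ∧ MeasurePreserving ψ ν μ ∧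
          (∀ᵐ x ∂μ, φ (T x) = T' (φ x)) ∧ (∀ᵐ x ∂μ, ψ (φ x) = x) ∧
          (∀ᵐ y ∂ν, φ (ψ y) = y)) →
    (∀ ν : Measure X', IsProbabilityMeasure ν → MeasurePreserving T' ν ν →
      ∃ μ : Measure X, IsProbabilityMeasure μ ∧ MeasurePreserving T μ μ ∧
        ∃ φ : X → X', ∃ ψ : X' → X, MeasurePreserving φ μ ν ∧ MeasurePreserving ψ ν μ ∧
          (∀ᵐ x ∂μ, φ (T x) = T' (φ x)) ∧ (∀ᵐ x ∂μ, ψ (φ x) = x) ∧
          (∀ᵐ y ∂ν, φ (ψ y) = y)) →
    (∀ (x : X) (f : X → ℂ), Continuous f →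
      Tendsto (fun N : ℕ => (N : ℂ)⁻¹ * ∑ n ∈ Finset.range N,
        ((ArithmeticFunction.moebius n : ℤ) : ℂ) * f (T^[n] x)) atTop (𝓝 0)) →
    (∀ (x : X') (f : X' → ℂ), Continuous f →
      Tendsto (fun N : ℕ => (N : ℂ)⁻¹ * ∑ n ∈ Finset.range N,
        ((ArithmeticFunction.moebius n : ℤ) : ℂ) * f (T'^[n] x)) atTop (𝓝 0))) := by
  obtain ⟨I⟩ := Pool.Agent.H901R2.MD.input_of_dav
    (Pool.Agent.H807R2.davenport_of Pool.Agent.H705R2.MSW.swMu)
  exact Pool.Agent.H901R2.MD.main I

end Pool.Agent.S04192
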