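import Pool.Statements.S04258
import Pool.Agent.H803R2.OrdMono

set_option autoImplicit false
open Pool Pool.MP_d4c9a2_an

namespace Pool.Agent.S04258

/-- The negation of the preceding statement: For every holomorphic germ f of ℂⁿ fixing 0 that is non-invertible and dominant, the orders of vanishing c(f^k) of its iterates at 0 eventually satisfy a linear recursion with integer coefficients. -/
theorem result :
    ¬ (∀ (n : ℕ) (f : (Fin n → ℂ) → (Fin n → ℂ)),
      AnalyticAt ℂ f 0 → f 0 = 0 →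
      (fderiv ℂ f 0).det = 0 →
      (∀ ε : ℝ, 0 < ε → ∃ z : Fin n → ℂ, ‖z‖ < ε ∧ (fderiv ℂ f z).det ≠ 0) →
      ∃ (d : ℕ) (a : Fin d → ℤ) (K : ℕ), ∀ k : ℕ, K ≤ k →
        ((sInf {m : ℕ | iteratedFDeriv ℂ m (f^[k + d]) 0 ≠ 0} : ℕ) : ℤ) =
          ∑ i : Fin d, a i *
            ((sInf {m : ℕ | iteratedFDeriv ℂ m (f^[k + (i : ℕ)]) 0 ≠ 0} : ℕ) : ℤ)) := by
  intro h
  obtain ⟨d, a, K, hK⟩ := h 3 Pool.Agent.H803R2.Ord.f Pool.Agent.H803R2.Ord.f_analytic
    Pool.Agent.H803R2.Ord.f_zero Pool.Agent.H803R2.Ord.f_det_zero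
    Pool.Agent.H803R2.Ord.f_dominant
  refine Pool.Agent.H803R2.Ord.u_no_rec d a K fun k hk => ?_
  have := hK k hk
  simp only [Pool.Agent.H803R2.Ord.order_iter] at this
  exact this


end Pool.Agent.S04258
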