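import Pool.Statements.S04260
-- import your own Pool.Agent.* helpers here

set_option autoImplicit false
open Pool Pool.MP_d50981_an

namespace Pool.Agent.S04260

open Set Filter Topology Cardinal

/-- the Cantor space -/
abbrev Cant : Type := ℕ → Bool

/-- index set of the cylinders of the Cantor space -/
abbrev Cyl : Type := Σ n : ℕ, (Fin n → Bool)

/-- the cylinder attached to an index -/
def cyl (c : Cyl) : Set Cant := {s | ∀ i : Fin c.1, s i = c.2 i}

lemma isClopen_cyl (c : Cyl) : IsClopen (cyl c) := by
  have : cyl c = ⋂ i : Fin c.1, (fun s : Cant => s i) ⁻¹' {c.2 i} := by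
    ext s; simp [cyl]
  rw [this]
  exact isClopen_iInter_of_finite fun i =>
    (isClopen_discrete _).preimage (continuous_apply (i : ℕ))

/-- there is a subset of the Cantor space which is not Borel -/
lemma exists_nonborel : ∃ S : Set Cant, ¬ @MeasurableSet Cant (borel Cant) S := by
  by_contra hcon
  push Not at hcon
  obtain ⟨b, hbc, -, hb⟩ := TopologicalSpace.exists_countable_basis Cant
  have h1 : borel Cant = MeasurableSpace.generateFrom b := hb.borel_eq_generateFrom
  have h2 : #b ≤ 𝔠 := (Set.countable_iff_exists_injective.1 hbc |>.elim fun f hf =>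
    (Cardinal.mk_le_aleph0_iff.2 (hbc.to_subtype))).trans Cardinal.aleph0_le_continuum
  have h3 := MeasurableSpace.cardinal_measurableSet_le_continuum h2
  rw [← h1] at h3
  have h4 : {t : Set Cant | @MeasurableSet Cant (borel Cant) t} = Set.univ := by
    ext t; simp [hcon t]
  rw [h4, Cardinal.mk_univ, Cardinal.mk_set] at h3
  have h5 : #Cant = 𝔠 := by simp [Cant]
  rw [h5] at h3
  exact absurd h3 (not_le.2 (Cardinal.cantor _))

/-- The negation of the preceding statement: For any two real F-spaces E, E₁ (complete metrizable topological vector spaces, not necessarily separable) and any continuous linear map U from E to E₁, the range of U is a Borel subset of E₁. -/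
theorem result :
    ¬ (∀ (E E₁ : Type) [AddCommGroup E] [Module ℝ E] [UniformSpace E] [IsUniformAddGroup E]
      [ContinuousSMul ℝ E] [CompleteSpace E] [T2Space E] [(uniformity E).IsCountablyGenerated]
      [AddCommGroup E₁] [Module ℝ E₁] [UniformSpace E₁] [IsUniformAddGroup E₁]
      [ContinuousSMul ℝ E₁] [CompleteSpace E₁] [T2Space E₁] [(uniformity E₁).IsCountablyGenerated]
      (U : E →L[ℝ] E₁), @MeasurableSet E₁ (borel E₁) (Set.range U)) := by
  classical
  intro H
  obtain ⟨S, hS⟩ := exists_nonborel
  -- the space `ℓ¹(S)`
  let E := lp (fun _ : S => ℝ) 1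
  have hsum : ∀ a : E, Summable fun s => ‖a s‖ := fun a => by
    have := (lp.memℓp a).summable (by norm_num : (0 : ℝ) < (1 : ENNReal).toReal)
    simpa using this
  have hnorm : ∀ a : E, ‖a‖ = ∑' s, ‖a s‖ := fun a => by
    rw [lp.norm_eq_tsum_rpow (by norm_num : (0 : ℝ) < (1 : ENNReal).toReal)]
    simp
  -- the sum over a cylinder
  have hsc : ∀ (a : E) (c : Cyl), Summable fun s : S => (cyl c).indicator (fun _ => (1 : ℝ)) s * a s := by
    intro a c
    refine Summable.of_norm_bounded (hsum a) fun s => ?_
    rw [norm_mul]
    by_cases h : (s : Cant) ∈ cyl c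
    · simp [h]
    · simp [h]
  let L : Cyl → E →L[ℝ] ℝ := fun c => LinearMap.mkContinuous
    { toFun := fun a => ∑' s : S, (cyl c).indicator (fun _ => (1 : ℝ)) s * a s
      map_add' := fun a b => by
        rw [← (hsc a c).tsum_add (hsc b c)]
        refine tsum_congr fun s => ?_
        rw [lp.coeFn_add, Pi.add_apply, mul_add]
      map_smul' := fun r a => by
        simp only [RingHom.id_apply, smul_eq_mul]
        rw [← tsum_mul_left]
        refine tsum_congr fun s => ?_
        rw [lp.coeFn_smul, Pi.smul_apply, smul_eq_mul]
        ring } 1 (fun a => by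
      rw [one_mul, hnorm a]
      have := norm_tsum_le_tsum_norm (hsc a c).norm
      refine this.trans ((hsc a c).norm.tsum_le_tsum (fun s => ?_) (hsum a))
      rw [norm_mul]
      by_cases h : (s : Cant) ∈ cyl c
      · simp [h]
      · simp [h])
  have hL : ∀ c a, L c a = ∑' s : S, (cyl c).indicator (fun _ => (1 : ℝ)) s * a s := fun c a => rfl
  let U : E →L[ℝ] (Cyl → ℝ) := ContinuousLinearMap.pi L
  -- the continuous map `φ` from the Cantor space
  let φ : Cant → (Cyl → ℝ) := fun s c => (cyl c).indicator (fun _ => (1 : ℝ)) s
  have hφ : Continuous φ := continuous_pi fun c =>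
    (isClopen_cyl c).continuous_indicator continuous_const
  have hU := H E (Cyl → ℝ) U
  apply hS
  have h1 : φ ⁻¹' (Set.range U) = S := by
    ext s
    constructor
    · rintro ⟨a, ha⟩
      by_contra hs
      have hval : ∀ n : ℕ, L ⟨n, fun i => s i⟩ a = 1 := by
        intro n
        have := congrFun ha ⟨n, fun i => s i⟩
        have h2 : φ s ⟨n, fun i => s i⟩ = 1 := by
          simp [φ, cyl]
        rw [h2] at this
        exact this
      have hlim : Tendsto (fun n : ℕ => L ⟨n, fun i => s i⟩ a) atTop (𝓝 (∑' t : S, (0 : ℝ))) := by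
        simp only [hL]
        refine tendsto_tsum_of_dominated_convergence (bound := fun t => ‖a t‖) (hsum a) ?_ ?_
        · intro t
          have hne : (t : Cant) ≠ s := fun h => hs (h ▸ t.2)
          obtain ⟨k, hk⟩ := Function.ne_iff.1 hne
          refine tendsto_const_nhds.congr' ?_
          filter_upwards [eventually_gt_atTop k] with n hn
          have : (t : Cant) ∉ cyl ⟨n, fun i => s i⟩ := by
            intro hmem
            exact hk (hmem ⟨k, hn⟩)
          simp [this]
        · refine Eventually.of_forall fun n t => ?_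
          rw [norm_mul]
          by_cases h : (t : Cant) ∈ cyl ⟨n, fun i => s i⟩
          · simp [h]
          · simp [h]
      have hlim' : Tendsto (fun n : ℕ => L ⟨n, fun i => s i⟩ a) atTop (𝓝 (1 : ℝ)) := by
        simp only [hval]
        exact tendsto_const_nhds
      have := tendsto_nhds_unique hlim hlim'
      simp at this
    · intro hs
      refine ⟨lp.single 1 (⟨s, hs⟩ : S) (1 : ℝ), ?_⟩
      funext c
      change L c _ = _
      rw [hL, tsum_eq_single (⟨s, hs⟩ : S)]
      · simp [φ]
      · intro t ht
        simp [lp.single_apply, ht]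
  rw [← h1]
  have hm : @Measurable _ _ (borel Cant) (borel (Cyl → ℝ)) φ := hφ.borel_measurable
  exact hm hU

end Pool.Agent.S04260
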