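import Pool.Statements.S04262
import Pool.Agent.H759R2.MonoSpace
import Pool.Agent.Helper519.MapEll

set_option autoImplicit false
open Filter Topology
open Pool Pool.MP_d512aa_an

namespace Pool.Agent.S04262

open Pool.Agent.Helper519.Renorm Pool.Agent.Helper519.Schauder

/-- The negation of the preceding statement: If a real infinite-dimensional Banach space has a monotone Schauder basis and F is an infinite-dimensional closed subspace that is the range of a projection of norm at most 1, then F has a monotone Schauder basis. -/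
theorem result :
    ¬ (∀ (B : Type) [NormedAddCommGroup B] [NormedSpace ℝ B] [CompleteSpace B],
    ¬ FiniteDimensional ℝ B →
    (∃ e : ℕ → B,
      (∀ x : B, ∃! a : ℕ → ℝ,
        Tendsto (fun n : ℕ => ∑ i ∈ Finset.range n, a i • e i) atTop (𝓝 x)) ∧
      (∀ (a : ℕ → ℝ) (n m : ℕ), n ≤ m →
        ‖∑ i ∈ Finset.range n, a i • e i‖ ≤ ‖∑ i ∈ Finset.range m, a i • e i‖)) →
    ∀ F : Submodule ℝ B, IsClosed (F : Set B) → ¬ FiniteDimensional ℝ F →
      (∃ P : B →L[ℝ] B, (∀ x : B, P x ∈ F) ∧ (∀ x ∈ F, P x = x) ∧ ‖P‖ ≤ 1) →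
      ∃ f : ℕ → B, (∀ i : ℕ, f i ∈ F) ∧
        (∀ x ∈ F, ∃! a : ℕ → ℝ,
          Tendsto (fun n : ℕ => ∑ i ∈ Finset.range n, a i • f i) atTop (𝓝 x)) ∧
        (∀ (a : ℕ → ℝ) (n m : ℕ), n ≤ m →
          ‖∑ i ∈ Finset.range n, a i • f i‖ ≤ ‖∑ i ∈ Finset.range m, a i • f i‖)) := by
  let b : HilbertBasis ℕ ℝ (lp (fun _ : ℕ => ℝ) 2) := default
  have hinf : ¬ FiniteDimensional ℝ (NSp (hsys b)) := by
    intro h
    have h1 : FiniteDimensional ℝ (lp (fun _ : ℕ => ℝ) 2) :=
      (Ψ (hsys b)).symm.toLinearEquiv.finiteDimensional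
    exact Module.Finite.not_linearIndependent_of_infinite _ b.orthonormal.linearIndependent
  have hnt : Nontrivial (NSp (hsys b)) := by
    by_contra hcon
    rw [not_nontrivial_iff_subsingleton] at hcon
    exact hinf inferInstance
  -- the approximating sequence
  have hfin : ∀ n, FiniteDimensional ℝ (LinearMap.range (SM b n : NSp (hsys b) →ₗ[ℝ] NSp (hsys b))) := by
    intro n
    have hf : FiniteDimensional ℝ (Submodule.map (ψ (hsys b)).toLinearMap
        (Submodule.span ℝ (b '' (Finset.range (2 * (n + 1)) : Set ℕ)))) := by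
      have : FiniteDimensional ℝ (Submodule.span ℝ (b '' (Finset.range (2 * (n + 1)) : Set ℕ))) :=
        FiniteDimensional.span_of_finite ℝ ((Finset.finite_toSet _).image b)
      infer_instance
    refine Submodule.finiteDimensional_of_le (S₂ := Submodule.map (ψ (hsys b)).toLinearMap
        (Submodule.span ℝ (b '' (Finset.range (2 * (n + 1)) : Set ℕ)))) ?_
    rintro _ ⟨x, rfl⟩
    exact ⟨_, Submodule.smul_mem _ _ (TM_mem b n ((ψ (hsys b)).symm x)), rfl⟩
  have hlim : ∀ x, Tendsto (fun n => SM b n x) atTop (𝓝 x) := by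
    intro x
    obtain ⟨y, rfl⟩ := (Ψ (hsys b)).surjective x
    simp only [SM_apply]
    refine ((Ψ (hsys b)).continuous.tendsto y).comp ?_
    have h1 : Tendsto (fun n => ((cn n : ℝ) : ℝ)) atTop (𝓝 ((1 : ℝ) : ℝ)) := cn_tendsto
    have h2 := h1.smul (TM_tendsto b y)
    rwa [one_smul] at h2
  obtain ⟨f, y, hy, hb, hl⟩ := H759R2.Steps.exists_steps (SM b) hfin
    (fun n => LinearMap.mkContinuous_norm_le _ zero_le_one _) hlim
  refine H759R2.MonoSpace.main f y hy hb hl hinf ?_
  rintro ⟨g, hg, hmono⟩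
  -- transport the basis to the Hilbert space
  set Φ := Ψ (hsys b) with hΦ
  have hcomb : ∀ (a : ℕ → ℝ) (n : ℕ), Φ.symm (∑ i ∈ Finset.range n, a i • g i) =
      ∑ i ∈ Finset.range n, a i • Φ.symm (g i) := by
    intro a n
    rw [map_sum]
    exact Finset.sum_congr rfl fun i _ => by rw [map_smul]
  have hg' : IsBasis ℝ (fun i => Φ.symm (g i)) := by
    intro x
    obtain ⟨a, ha, hu⟩ := hg (Φ x)
    refine ⟨a, ?_, ?_⟩
    · have h1 := (Φ.symm.continuous.tendsto _).comp ha
      rw [ContinuousLinearEquiv.symm_apply_apply] at h1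
      refine h1.congr fun n => ?_
      rw [Function.comp_apply, hcomb]
    · intro c hc
      apply hu
      have h1 := (Φ.continuous.tendsto _).comp hc
      refine h1.congr fun n => ?_
      rw [Function.comp_apply, ← hcomb, ContinuousLinearEquiv.apply_symm_apply]
  refine (hsys b).basis_const hg' fun n x => ?_
  have h1 : ∀ z : lp (fun _ : ℕ => ℝ) 2, (hsys b).N z = ‖Φ z‖ := fun z => rfl
  have h2 := S_bound hg' (fun z => (hsys b).N z) (by
      simp only [h1]
      exact Φ.continuous.norm) 1 (fun a m n hmn => by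
      have h3 := hmono a m n hmn
      rw [one_mul, h1, h1, ← hcomb, ← hcomb, ContinuousLinearEquiv.apply_symm_apply,
        ContinuousLinearEquiv.apply_symm_apply]
      exact h3) n x
  have h3 : 0 ≤ (hsys b).N x := apply_nonneg _ _
  have h4 := (hsys b).γ_pos
  nlinarith

end Pool.Agent.S04262
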