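import Pool.Statements.S04263
import Pool.Agent.H812R2.JS.NoBAP

set_option autoImplicit false
open scoped ENNReal Topology
open Pool Pool.MP_d55789_an

namespace Pool.Agent.S04263

/-- There is a closed subspace of real c₀ (sequences tending to 0, sup norm) where every compact set is uniformly ε-approximated by finite-rank operators, yet no uniform bound on their norms works for all compact sets and ε. -/
theorem result :
    ∃ S : Submodule ℝ (lp (fun _ : ℕ => ℝ) ∞),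
      IsClosed (S : Set (lp (fun _ : ℕ => ℝ) ∞)) ∧
      (∀ x ∈ S, Filter.Tendsto (fun n : ℕ => x n) Filter.atTop (𝓝 0)) ∧
      (∀ K : Set S, IsCompact K → ∀ ε : ℝ, 0 < ε →
        ∃ T : S →L[ℝ] S, FiniteDimensional ℝ (LinearMap.range (T : S →ₗ[ℝ] S)) ∧
          ∀ x ∈ K, ‖T x - x‖ ≤ ε) ∧
      ¬ ∃ C : ℝ, ∀ K : Set S, IsCompact K → ∀ ε : ℝ, 0 < ε →
        ∃ T : S →L[ℝ] S, FiniteDimensional ℝ (LinearMap.range (T : S →ₗ[ℝ] S)) ∧
          ‖T‖ ≤ C ∧ ∀ x ∈ K, ‖T x - x‖ ≤ ε := by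
  obtain ⟨s⟩ := Pool.Agent.H812R2.AP.exists_sys
  refine ⟨Pool.Agent.H812R2.JS.SS s, Pool.Agent.H812R2.JS.isClosed_SS s,
    fun x hx => ((Pool.Agent.H812R2.JS.mem_SS s).1 hx).1,
    fun K hK ε hε => Pool.Agent.H812R2.JS.hasAP s K hK ε hε, ?_⟩
  rintro ⟨C, hC⟩
  exact Pool.Agent.H812R2.JS.noBAP s C hC

end Pool.Agent.S04263
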