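import Pool.Statements.S04273
import Pool.Agent.H517R2.EO.Final

set_option autoImplicit false
open Pool Pool.MP_d68cab_an

namespace Pool.Agent.S04273

/-- Given finitely many contracting similarities x ↦ r_i x + b_i of the real line that generate a free semigroup, their attractor has Hausdorff dimension min(1, s), where s solves sum ∣r_i∣^s = 1. -/
theorem result :
    ∀ (n : ℕ) (r b : Fin n → ℝ), 0 < n →
      (∀ i, r i ≠ 0 ∧ |r i| < 1) →
      (∀ w w' : List (Fin n),
        List.foldr (fun i (g : ℝ → ℝ) => fun x : ℝ => r i * g x + b i) (fun x : ℝ => x) w =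
          List.foldr (fun i (g : ℝ → ℝ) => fun x : ℝ => r i * g x + b i) (fun x : ℝ => x) w' →
        w = w') →
      ∀ X : Set ℝ, X.Nonempty → IsCompact X →
        X = ⋃ i, (fun x : ℝ => r i * x + b i) '' X →
        ∀ s : ℝ, (∑ i, |r i| ^ s) = 1 →
          dimH X = ENNReal.ofReal (min 1 s) :=
  H517.EO.exact_overlaps

end Pool.Agent.S04273
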