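import Pool.Statements.S04392
import Pool.Agent.H719R2.Sec.Select

set_option autoImplicit false
open MeasureTheory
open Pool Pool.MP_e2b44f_an

namespace Pool.Agent.S04392

/-- The negation of the preceding statement: There is one constant C such that for every measurable angle set E of positive measure, every integrable f on the plane and every α>0, the set where some sector average of f exceeds α has measure at most C/α times the L1 norm of f. -/
theorem result :
    ¬ (∃ C : ℝ, ∀ E : Set ℝ, MeasurableSet E → E ⊆ Set.Ioc (-Real.pi) Real.pi → 0 < volume E →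
      ∀ f : ℂ → ℝ, Integrable f → ∀ α : ℝ, 0 < α →
        volume {x : ℂ | ∃ r : ℝ, 0 < r ∧
            α < (volume.real {z : ℂ | ‖z‖ ≤ r ∧ Complex.arg z ∈ E})⁻¹ *
              ∫ y in {z : ℂ | ‖z‖ ≤ r ∧ Complex.arg z ∈ E}, f (x - y)}
          ≤ ENNReal.ofReal (C / α * ∫ x, |f x|)) := by
  rintro ⟨C, H⟩
  exact Pool.Agent.H719R2.Sec.final C H

end Pool.Agent.S04392
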