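import Pool.Statements.S04504
import Pool.Agent.H701R2.FolH

set_option autoImplicit false
open Pool Pool.MP_f1ed12_an

namespace Pool.Agent.S04504

/-- The negation of the preceding statement: There is a generalized Hénon map f and a biholomorphic chart from the unit bidisc, centered at a point of J⁺ (frontier of the bounded-forward-orbit set), in which every horizontal plaque lies entirely in J⁺ or entirely outside it. -/
theorem result :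
    ¬ (∃ (m : ℕ) (p : Fin m → Polynomial ℂ) (a : Fin m → ℂ) (f : ℂ × ℂ → ℂ × ℂ),
    0 < m ∧ (∀ i, 2 ≤ (p i).natDegree) ∧ (∀ i, a i ≠ 0) ∧
    f = (List.ofFn (fun i : Fin m => fun z : ℂ × ℂ =>
          ((p i).eval z.1 - a i * z.2, z.1))).foldr (fun g h => g ∘ h) id ∧
    ∃ (ψ φ : ℂ × ℂ → ℂ × ℂ),
      DifferentiableOn ℂ ψ (Metric.ball (0:ℂ) 1 ×ˢ Metric.ball (0:ℂ) 1) ∧
      IsOpen (ψ '' (Metric.ball (0:ℂ) 1 ×ˢ Metric.ball (0:ℂ) 1)) ∧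
      DifferentiableOn ℂ φ (ψ '' (Metric.ball (0:ℂ) 1 ×ˢ Metric.ball (0:ℂ) 1)) ∧
      Set.InvOn φ ψ (Metric.ball (0:ℂ) 1 ×ˢ Metric.ball (0:ℂ) 1)
        (ψ '' (Metric.ball (0:ℂ) 1 ×ˢ Metric.ball (0:ℂ) 1)) ∧
      ψ 0 ∈ frontier {z : ℂ × ℂ | Bornology.IsBounded (Set.range fun n : ℕ => f^[n] z)} ∧
      ∀ x₁ ∈ Metric.ball (0:ℂ) 1, ∀ x₂ ∈ Metric.ball (0:ℂ) 1, ∀ y ∈ Metric.ball (0:ℂ) 1,
        (ψ (x₁, y) ∈ frontier {z : ℂ × ℂ | Bornology.IsBounded (Set.range fun n : ℕ => f^[n] z)} ↔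
         ψ (x₂, y) ∈ frontier {z : ℂ × ℂ | Bornology.IsBounded (Set.range fun n : ℕ => f^[n] z)})) := by
  rintro ⟨m, p, a, f, hm, hd, ha, hf, ψ, φ, hψ, hop, hφ, hinv, h0, hfol⟩
  exact Pool.Agent.H701R2.Fol.main hm p a hd ha f hf ψ φ hψ hop hφ hinv h0 hfol

end Pool.Agent.S04504
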