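import Pool.Statements.S04526
import Pool.Agent.H846R2.WGInj

set_option autoImplicit false
open Pool Pool.MP_f43403_an

namespace Pool.Agent.S04526

/-- The negation of the preceding statement: Every power series f with absolutely summable coefficients that is injective on the closed unit disc generates: every such g is an ℓ¹-coefficient-norm limit of polynomials in f. -/
theorem result :
    ¬ (∀ f : PowerSeries ℂ,
      Summable (fun n : ℕ => ‖PowerSeries.coeff n f‖) →
      Set.InjOn (fun z : ℂ => ∑' n : ℕ, PowerSeries.coeff n f * z ^ n)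
        (Metric.closedBall (0 : ℂ) 1) →
      ∀ g : PowerSeries ℂ,
        Summable (fun n : ℕ => ‖PowerSeries.coeff n g‖) →
        ∀ ε : ℝ, 0 < ε →
          ∃ p : Polynomial ℂ,
            Summable (fun n : ℕ =>
              ‖PowerSeries.coeff n (Polynomial.aeval f p) - PowerSeries.coeff n g‖) ∧
            ∑' n : ℕ, ‖PowerSeries.coeff n (Polynomial.aeval f p) - PowerSeries.coeff n g‖ < ε) := by
  intro h
  obtain ⟨p, hs, hp⟩ := h Pool.Agent.H846R2.WG.ff
    (Pool.Agent.H846R2.WG.summable_of_SS _ 2 Pool.Agent.H846R2.WG.SS_ff)
    Pool.Agent.H846R2.WG.injOn_ff PowerSeries.X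
    (by
      apply summable_of_ne_finset_zero (s := {1})
      intro n hn
      rw [Finset.mem_singleton] at hn
      rw [PowerSeries.coeff_X, if_neg hn, norm_zero])
    (1/4) (by norm_num)
  have := Pool.Agent.H846R2.WG.dist_X_ge p hs
  linarith

end Pool.Agent.S04526
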