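import Pool.Statements.S04585
import Pool.Agent.H795R2.Hp.Fin2

set_option autoImplicit false
open Pool Pool.MP_fb5a60_an

namespace Pool.Agent.S04585

/-- For all n ≥ 2 and 0<p<1 there are bounded linear maps T from H^p(disc) to H^p(unit ball of C^n) and P back with P∘T = identity, i.e. H^p(disc) is isomorphic to a complemented subspace of H^p(ball). -/
theorem result :
    ∀ n : ℕ, 2 ≤ n → ∀ p : ℝ, 0 < p → p < 1 →
    ∃ (T : (ℂ → ℂ) → (Fin n → ℂ) → ℂ) (P : ((Fin n → ℂ) → ℂ) → ℂ → ℂ) (C : ℝ),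
      (∀ (f g : ℂ → ℂ) (a b : ℂ) (M N : ℝ),
        DifferentiableOn ℂ f (Metric.ball 0 1) → DifferentiableOn ℂ g (Metric.ball 0 1) →
        (∀ r : ℝ, 0 ≤ r → r < 1 →
          ∫ θ in (0:ℝ)..2 * Real.pi, ‖f ((r : ℂ) * Complex.exp ((θ : ℂ) * Complex.I))‖ ^ p ≤ M) →
        (∀ r : ℝ, 0 ≤ r → r < 1 →
          ∫ θ in (0:ℝ)..2 * Real.pi, ‖g ((r : ℂ) * Complex.exp ((θ : ℂ) * Complex.I))‖ ^ p ≤ N) →
        ∀ z : Fin n → ℂ, ∑ i, ‖z i‖ ^ 2 < 1 → T (a • f + b • g) z = a * T f z + b * T g z) ∧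
      (∀ (f g : (Fin n → ℂ) → ℂ) (a b : ℂ) (M N : ℝ),
        DifferentiableOn ℂ f {z : Fin n → ℂ | ∑ i, ‖z i‖ ^ 2 < 1} →
        DifferentiableOn ℂ g {z : Fin n → ℂ | ∑ i, ‖z i‖ ^ 2 < 1} →
        (∀ r : ℝ, 0 ≤ r → r < 1 →
          ∫ z : Fin n → ℂ, ‖f (((r / Real.sqrt (∑ i, ‖z i‖ ^ 2) : ℝ) : ℂ) • z)‖ ^ p
            * Real.exp (-(∑ i, ‖z i‖ ^ 2)) ≤ M) →
        (∀ r : ℝ, 0 ≤ r → r < 1 →
          ∫ z : Fin n → ℂ, ‖g (((r / Real.sqrt (∑ i, ‖z i‖ ^ 2) : ℝ) : ℂ) • z)‖ ^ p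
            * Real.exp (-(∑ i, ‖z i‖ ^ 2)) ≤ N) →
        ∀ w : ℂ, ‖w‖ < 1 → P (a • f + b • g) w = a * P f w + b * P g w) ∧
      (∀ (f : ℂ → ℂ) (M : ℝ),
        DifferentiableOn ℂ f (Metric.ball 0 1) →
        (∀ r : ℝ, 0 ≤ r → r < 1 →
          ∫ θ in (0:ℝ)..2 * Real.pi, ‖f ((r : ℂ) * Complex.exp ((θ : ℂ) * Complex.I))‖ ^ p ≤ M) →
        DifferentiableOn ℂ (T f) {z : Fin n → ℂ | ∑ i, ‖z i‖ ^ 2 < 1} ∧
        ∀ r : ℝ, 0 ≤ r → r < 1 →
          ∫ z : Fin n → ℂ, ‖T f (((r / Real.sqrt (∑ i, ‖z i‖ ^ 2) : ℝ) : ℂ) • z)‖ ^ p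
            * Real.exp (-(∑ i, ‖z i‖ ^ 2)) ≤ C * M) ∧
      (∀ (f : (Fin n → ℂ) → ℂ) (M : ℝ),
        DifferentiableOn ℂ f {z : Fin n → ℂ | ∑ i, ‖z i‖ ^ 2 < 1} →
        (∀ r : ℝ, 0 ≤ r → r < 1 →
          ∫ z : Fin n → ℂ, ‖f (((r / Real.sqrt (∑ i, ‖z i‖ ^ 2) : ℝ) : ℂ) • z)‖ ^ p
            * Real.exp (-(∑ i, ‖z i‖ ^ 2)) ≤ M) →
        DifferentiableOn ℂ (P f) (Metric.ball 0 1) ∧
        ∀ r : ℝ, 0 ≤ r → r < 1 →
          ∫ θ in (0:ℝ)..2 * Real.pi, ‖P f ((r : ℂ) * Complex.exp ((θ : ℂ) * Complex.I))‖ ^ p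
            ≤ C * M) ∧
      (∀ (f : ℂ → ℂ) (M : ℝ),
        DifferentiableOn ℂ f (Metric.ball 0 1) →
        (∀ r : ℝ, 0 ≤ r → r < 1 →
          ∫ θ in (0:ℝ)..2 * Real.pi, ‖f ((r : ℂ) * Complex.exp ((θ : ℂ) * Complex.I))‖ ^ p ≤ M) →
        ∀ w : ℂ, ‖w‖ < 1 → P (T f) w = f w) := by
  intro n hn2 p hp hp1
  have hn : 1 ≤ n := by omega
  obtain ⟨d⟩ := Pool.Agent.H795R2.Hp.exists_ballData n hn p hp hp1
  obtain ⟨Da, hDa, hana⟩ := Pool.Agent.H795R2.Hp.disc_ana p hp hp1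
  obtain ⟨Ds, hDs, hsyn⟩ := Pool.Agent.H795R2.Hp.disc_syn p hp hp1
  have hpi := Real.pi_pos
  have hsg := Pool.Agent.H795R2.Hp.sg_pos n
  have hdD := d.hD
  refine ⟨Pool.Agent.H795R2.Hp.TT d, Pool.Agent.H795R2.Hp.PP d,
    max (Pool.Agent.H795R2.Hp.sg n / (2 * Real.pi) + d.D * Da)
      (2 * Real.pi / Pool.Agent.H795R2.Hp.sg n + Ds * d.D), ?_, ?_, ?_, ?_, ?_⟩
  · intro f g a b M N hf hg hM hN z hz
    have hM' : Pool.Agent.H795R2.Hp.dB p f (|M| + 1) :=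
      Pool.Agent.H795R2.Hp.dB_mono hM (by linarith [le_abs_self M])
    have hN' : Pool.Agent.H795R2.Hp.dB p g (|N| + 1) :=
      Pool.Agent.H795R2.Hp.dB_mono hN (by linarith [le_abs_self N])
    exact Pool.Agent.H795R2.Hp.TT_lin hn hp d a b hf hg (Da * (|M| + 1)) (Da * (|N| + 1))
      (by positivity) (by positivity) (hana f hf (|M| + 1) (by positivity) hM')
      (hana g hg (|N| + 1) (by positivity) hN') z hz
  · intro f g a b M N hf hg hM hN w hw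
    have hM' : Pool.Agent.H795R2.Hp.bB n p f (|M| + 1) :=
      Pool.Agent.H795R2.Hp.bB_mono hM (by linarith [le_abs_self M])
    have hN' : Pool.Agent.H795R2.Hp.bB n p g (|N| + 1) :=
      Pool.Agent.H795R2.Hp.bB_mono hN (by linarith [le_abs_self N])
    exact Pool.Agent.H795R2.Hp.PP_lin hp d a b hf hg (d.D * (|M| + 1)) (d.D * (|N| + 1))
      (by positivity) (by positivity)
      (d.hana _ ((Pool.Agent.HpBall.transfer_diff n f).1 hf) (|M| + 1) (by positivity)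
        (Pool.Agent.H795R2.Hp.bB_lint hn hp hf hM'))
      (d.hana _ ((Pool.Agent.HpBall.transfer_diff n g).1 hg) (|N| + 1) (by positivity)
        (Pool.Agent.H795R2.Hp.bB_lint hn hp hg hN')) w hw
  · intro f M hf hM
    have hM0 := Pool.Agent.H795R2.Hp.dB_nonneg hM
    refine ⟨Pool.Agent.H795R2.Hp.TT_diff hn hp d f (Da * (M + 1)) (by positivity)
      (hana f hf (M + 1) (by positivity) (Pool.Agent.H795R2.Hp.dB_mono hM (by linarith))), ?_⟩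
    intro r hr0 hr1
    have key : ∀ ε : ℝ, 0 < ε → ∫ z : Fin n → ℂ,
        ‖Pool.Agent.H795R2.Hp.TT d f (((r / Real.sqrt (∑ i, ‖z i‖ ^ 2) : ℝ) : ℂ) • z)‖ ^ p
            * Real.exp (-(∑ i, ‖z i‖ ^ 2)) ≤
          (Pool.Agent.H795R2.Hp.sg n / (2 * Real.pi) + d.D * Da) * (M + ε) := by
      intro ε hε
      have hM' : Pool.Agent.H795R2.Hp.dB p f (M + ε) :=
        Pool.Agent.H795R2.Hp.dB_mono hM (by linarith)
      have h1 := Pool.Agent.H795R2.Hp.TT_bound hn hp hp1 d f (Da * (M + ε)) (by positivity)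
        (hana f hf (M + ε) (by positivity) hM') r hr0 hr1
      have h2 := Pool.Agent.H795R2.Hp.dB_zero hM'
      have h3 : ‖f 0‖ ^ p ≤ (M + ε) / (2 * Real.pi) := by
        rw [le_div_iff₀ (by positivity)]; linarith
      calc _ ≤ _ := h1
        _ ≤ Pool.Agent.H795R2.Hp.sg n * ((M + ε) / (2 * Real.pi)) + d.D * (Da * (M + ε)) := by
          gcongr
        _ = _ := by ring
    have h4 : ∫ z : Fin n → ℂ,
        ‖Pool.Agent.H795R2.Hp.TT d f (((r / Real.sqrt (∑ i, ‖z i‖ ^ 2) : ℝ) : ℂ) • z)‖ ^ p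
            * Real.exp (-(∑ i, ‖z i‖ ^ 2)) ≤
          (Pool.Agent.H795R2.Hp.sg n / (2 * Real.pi) + d.D * Da) * M := by
      have hQ : 0 < Pool.Agent.H795R2.Hp.sg n / (2 * Real.pi) + d.D * Da := by positivity
      apply le_of_forall_pos_le_add
      intro δ hδ
      have h5 := key (δ / (Pool.Agent.H795R2.Hp.sg n / (2 * Real.pi) + d.D * Da)) (by positivity)
      rwa [mul_add, mul_div_cancel₀ _ hQ.ne'] at h5
    exact h4.trans (mul_le_mul_of_nonneg_right (le_max_left _ _) hM0)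
  · intro f M hf hM
    have hM0 := Pool.Agent.H795R2.Hp.bB_nonneg hM
    have hf' := (Pool.Agent.HpBall.transfer_diff n f).1 hf
    refine ⟨Pool.Agent.H795R2.Hp.PP_diff hp d f (d.D * (M + 1)) (by positivity)
      (d.hana _ hf' (M + 1) (by positivity) (Pool.Agent.H795R2.Hp.bB_lint hn hp hf
        (Pool.Agent.H795R2.Hp.bB_mono hM (by linarith)))), ?_⟩
    intro r hr0 hr1
    have key : ∀ ε : ℝ, 0 < ε → ∫ θ in (0:ℝ)..2 * Real.pi,
        ‖Pool.Agent.H795R2.Hp.PP d f ((r : ℂ) * Complex.exp ((θ : ℂ) * Complex.I))‖ ^ p ≤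
          (2 * Real.pi / Pool.Agent.H795R2.Hp.sg n + Ds * d.D) * (M + ε) := by
      intro ε hε
      have hM' : Pool.Agent.H795R2.Hp.bB n p f (M + ε) :=
        Pool.Agent.H795R2.Hp.bB_mono hM (by linarith)
      have h1 := Pool.Agent.H795R2.Hp.PP_bound hp hp1 d Ds hDs.le hsyn f (d.D * (M + ε))
        (by positivity) (d.hana _ hf' (M + ε) (by positivity)
          (Pool.Agent.H795R2.Hp.bB_lint hn hp hf hM')) r hr0 hr1
      have h2 := Pool.Agent.H795R2.Hp.bB_zero hn hp hf hM'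
      have h3 : ‖f 0‖ ^ p ≤ (M + ε) / Pool.Agent.H795R2.Hp.sg n := by
        rw [le_div_iff₀ (by positivity)]; linarith
      calc _ ≤ _ := h1
        _ ≤ 2 * Real.pi * ((M + ε) / Pool.Agent.H795R2.Hp.sg n) + Ds * (d.D * (M + ε)) := by
          gcongr
        _ = _ := by ring
    have h4 : ∫ θ in (0:ℝ)..2 * Real.pi,
        ‖Pool.Agent.H795R2.Hp.PP d f ((r : ℂ) * Complex.exp ((θ : ℂ) * Complex.I))‖ ^ p ≤
          (2 * Real.pi / Pool.Agent.H795R2.Hp.sg n + Ds * d.D) * M := by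
      have hQ : 0 < 2 * Real.pi / Pool.Agent.H795R2.Hp.sg n + Ds * d.D := by positivity
      apply le_of_forall_pos_le_add
      intro δ hδ
      have h5 := key (δ / (2 * Real.pi / Pool.Agent.H795R2.Hp.sg n + Ds * d.D)) (by positivity)
      rwa [mul_add, mul_div_cancel₀ _ hQ.ne'] at h5
    exact h4.trans (mul_le_mul_of_nonneg_right (le_max_right _ _) hM0)
  · intro f M hf hM w hw
    have hM' : Pool.Agent.H795R2.Hp.dB p f (|M| + 1) :=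
      Pool.Agent.H795R2.Hp.dB_mono hM (by linarith [le_abs_self M])
    exact Pool.Agent.H795R2.Hp.PT_id hn hp d f hf (Da * (|M| + 1)) (by positivity)
      (hana f hf (|M| + 1) (by positivity) hM') w hw

end Pool.Agent.S04585
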