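import Pool.Statements.S04598
import Pool.Agent.Helper646.Taylor
import Pool.Agent.Helper646.Poly

set_option autoImplicit false
open Pool Pool.MP_fc26cf_an

namespace Pool.Agent.S04598

open Pool.Agent.Helper646.Bibo

theorem evalA (z : Fin 2 → ℂ) : MvPolynomial.eval z (PA ℂ) = PP (z 0) := by
  unfold PA PP
  simp
  ring

theorem evalB (z : Fin 2 → ℂ) : MvPolynomial.eval z (PB ℂ) = QQ (z 0) (z 1) := by
  unfold PB QQ
  simp

/-- The negation of the preceding statement: For coprime A,B in two variables whose B-zeros in the closed bidisc lie on the torus and are zeros of A, the Taylor coefficients of A/B are absolutely summable iff A/B extends continuously from the open to the closed bidisc. -/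
theorem result :
    ¬ (∀ A B : MvPolynomial (Fin 2) ℂ,
      IsRelPrime A B →
      (∀ z : Fin 2 → ℂ, (∀ i, ‖z i‖ ≤ 1) → MvPolynomial.eval z B = 0 →
        (∀ i, ‖z i‖ = 1) ∧ MvPolynomial.eval z A = 0) →
      ∀ h : ℕ → ℕ → ℂ,
        (∀ z : Fin 2 → ℂ, (∀ i, ‖z i‖ < 1) →
          HasSum (fun p : ℕ × ℕ => h p.1 p.2 * z 0 ^ p.1 * z 1 ^ p.2)
            (MvPolynomial.eval z A / MvPolynomial.eval z B)) →
        (Summable (fun p : ℕ × ℕ => ‖h p.1 p.2‖) ↔
          ∃ F : (Fin 2 → ℂ) → ℂ,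
            ContinuousOn F {z : Fin 2 → ℂ | ∀ i, ‖z i‖ ≤ 1} ∧
            ∀ z : Fin 2 → ℂ, (∀ i, ‖z i‖ < 1) →
              F z = MvPolynomial.eval z A / MvPolynomial.eval z B)) := by
  intro H
  have h1 := H (PA ℂ) (PB ℂ) (relPrime ℂ) ?_ hh ?_
  · apply hh_not_summable
    rw [h1]
    refine ⟨fun z => PP (z 0) / QQ (z 0) (z 1), PQ_cont, ?_⟩
    intro z _
    simp only [evalA, evalB]
  · intro z hz hB
    rw [evalB] at hB
    obtain ⟨h0, h1⟩ := QQ_zero (hz 0) (hz 1) hB
    refine ⟨?_, ?_⟩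
    · intro i
      fin_cases i
      · simp [h0]
      · simp [h1]
    · rw [evalA, h0]
      simp [PP]
  · intro z hz
    rw [evalA, evalB]
    exact hh_hasSum (hz 0) (hz 1)

end Pool.Agent.S04598
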