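import Pool.Statements.S04610
import Pool.Agent.Helper149.FDMain2

set_option autoImplicit false
open Pool Pool.MP_fd5ae1_an

namespace Pool.Agent.S04610

/-- The negation of the preceding statement: If two plane sets, each covered by countably many arcs of finite total length, meet almost every line x·(cos θ, sin θ) = t in the same number of points, then their symmetric difference has one-dimensional Hausdorff measure zero. -/
theorem result :
    ¬ (∀ C D : Set (EuclideanSpace ℝ (Fin 2)),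
      (∃ f : ℕ → ℝ → EuclideanSpace ℝ (Fin 2),
        (∀ i, ContinuousOn (f i) (Set.Icc 0 1) ∧ Set.InjOn (f i) (Set.Icc 0 1)) ∧
        (∑' i, eVariationOn (f i) (Set.Icc 0 1)) ≠ ⊤ ∧
        C ⊆ ⋃ i, f i '' Set.Icc 0 1) →
      (∃ g : ℕ → ℝ → EuclideanSpace ℝ (Fin 2),
        (∀ i, ContinuousOn (g i) (Set.Icc 0 1) ∧ Set.InjOn (g i) (Set.Icc 0 1)) ∧
        (∑' i, eVariationOn (g i) (Set.Icc 0 1)) ≠ ⊤ ∧
        D ⊆ ⋃ i, g i '' Set.Icc 0 1) →
      (∀ᵐ p : ℝ × ℝ ∂MeasureTheory.volume,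
        (C ∩ {x : EuclideanSpace ℝ (Fin 2) |
            x.ofLp 0 * Real.cos p.1 + x.ofLp 1 * Real.sin p.1 = p.2}).encard =
        (D ∩ {x : EuclideanSpace ℝ (Fin 2) |
            x.ofLp 0 * Real.cos p.1 + x.ofLp 1 * Real.sin p.1 = p.2}).encard) →
      MeasureTheory.Measure.hausdorffMeasure 1 ((C \ D) ∪ (D \ C)) = 0) := by
  intro H
  obtain ⟨C, D, hdisj, ⟨f, hf, hsum, hcov⟩, hae, hpos⟩ := Pool.Agent.Helper149.FD.main2
  have h := H C D ⟨f, hf, hsum, Set.subset_union_left.trans hcov⟩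
    ⟨f, hf, hsum, Set.subset_union_right.trans hcov⟩ (hae.mono fun p hp => hp.1)
  rw [hdisj.sdiff_eq_left, hdisj.symm.sdiff_eq_left] at h
  exact hpos.ne' h

end Pool.Agent.S04610
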