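import Pool.Statements.S04623
import Pool.Agent.H758R2.Groth

set_option autoImplicit false
open Pool Pool.MP_fe3998_an

namespace Pool.Agent.S04623

open Finset Pool.Agent.H758R2.Groth

lemma conv_sum (N : ℕ) (f : ℕ → ℕ → ℂ) :
    ∑ m ∈ range N, ∑ j ∈ range (m + 1), f j (m - j)
      = ∑ i ∈ range N, ∑ j ∈ range N, if i + j < N then f i j else 0 := by
  rw [← sum_product', ← sum_filter, sum_sigma']
  refine sum_nbij' (fun p => (p.2, p.1 - p.2)) (fun p => ⟨p.1 + p.2, p.1⟩) ?_ ?_ ?_ ?_ ?_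
  · rintro ⟨m, j⟩ h
    simp only [mem_sigma, mem_range, mem_filter, mem_product] at h ⊢
    omega
  · rintro ⟨i, j⟩ h
    simp only [mem_sigma, mem_range, mem_filter, mem_product] at h ⊢
    omega
  · rintro ⟨m, j⟩ h
    simp only [mem_sigma, mem_range] at h
    have : j + (m - j) = m := by omega
    simp [this]
  · rintro ⟨i, j⟩ h
    simp
  · rintro ⟨m, j⟩ h
    rfl

/-- The double convolution of two matrices. -/
noncomputable def conv (g h : ℕ → ℕ → ℂ) (m k : ℕ) : ℂ :=
  ∑ m' ∈ range (m + 1), ∑ k' ∈ range (k + 1), g m' k' * h (m - m') (k - k')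

lemma conv_antidiag (g h : ℕ → ℕ → ℂ) (n : ℕ) :
    ∑ m ∈ range (n + 1), conv g h m (n - m)
      = ∑ p ∈ range (n + 1), (∑ m ∈ range (p + 1), g m (p - m)) *
          (∑ m ∈ range (n - p + 1), h m (n - p - m)) := by
  unfold conv
  simp only [sum_mul_sum]
  rw [sum_sigma', sum_sigma', sum_sigma', sum_sigma']
  refine sum_nbij' (fun q => ⟨⟨q.1.2 + q.2, q.1.2⟩, q.1.1 - q.1.2⟩)
    (fun q => ⟨⟨q.1.2 + q.2, q.1.2⟩, q.1.1 - q.1.2⟩) ?_ ?_ ?_ ?_ ?_
  · rintro ⟨⟨m, m'⟩, k'⟩ hq
    simp only [mem_sigma, mem_range] at hq ⊢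
    omega
  · rintro ⟨⟨p, m'⟩, m''⟩ hq
    simp only [mem_sigma, mem_range] at hq ⊢
    omega
  · rintro ⟨⟨m, m'⟩, k'⟩ hq
    simp only [mem_sigma, mem_range] at hq
    have h1 : m' + (m - m') = m := by omega
    have h2 : m' + k' - m' = k' := by omega
    simp [h1]
  · rintro ⟨⟨p, m'⟩, m''⟩ hq
    simp only [mem_sigma, mem_range] at hq
    have h1 : m' + (p - m') = p := by omega
    simp [h1]
  · rintro ⟨⟨m, m'⟩, k'⟩ hq
    simp only [mem_sigma, mem_range] at hq
    have h2 : m' + k' - m' = k' := by omega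
    have h3 : n - (m' + k') - (m - m') = n - m - k' := by omega
    simp only [h2, h3]

/-- auxiliary kernel -/
noncomputable def K1 (g h : ℕ → ℕ → ℂ) (x y : ℕ → ℂ) (m j j' : ℕ) : ℂ :=
  ∑ m' ∈ range (m + 1), g m' j * h (m - m') j' * x (m' + (m - m')) * y (j + j')

/-- auxiliary kernel -/
noncomputable def K2 (g h : ℕ → ℕ → ℂ) (x y : ℕ → ℂ) (N i i' : ℕ) : ℂ :=
  ∑ j ∈ range N, ∑ j' ∈ range N,
    if j + j' < N then g i j * h i' j' * x (i + i') * y (j + j') else 0

lemma conv_form (g h : ℕ → ℕ → ℂ) (N : ℕ) (x y : ℕ → ℂ) :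
    ∑ m ∈ range N, ∑ k ∈ range N, conv g h m k * x m * y k
      = ∑ i ∈ range N, ∑ j ∈ range N, g i j * ∑ i' ∈ range N, ∑ j' ∈ range N,
          h i' j' * (if i + i' < N then x (i + i') else 0)
            * (if j + j' < N then y (j + j') else 0) := by
  have e1 : ∀ m ∈ range N, ∑ k ∈ range N, conv g h m k * x m * y k
      = ∑ m' ∈ range (m + 1), K2 g h x y N m' (m - m') := by
    intro m _
    have e2 : ∀ k ∈ range N, conv g h m k * x m * y k =
        ∑ k' ∈ range (k + 1), K1 g h x y m k' (k - k') := by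
      intro k _
      unfold conv K1
      rw [sum_comm, sum_mul, sum_mul]
      refine sum_congr rfl fun k' hk' => ?_
      rw [sum_mul, sum_mul]
      refine sum_congr rfl fun m' hm' => ?_
      have h1 : m' + (m - m') = m := by
        have := mem_range.1 hm'; omega
      have h2 : k' + (k - k') = k := by
        have := mem_range.1 hk'; omega
      rw [h1, h2]
    refine (sum_congr rfl e2).trans ((conv_sum N (K1 g h x y m)).trans ?_)
    unfold K1 K2
    have : ∀ i j : ℕ, (if i + j < N then ∑ m' ∈ range (m + 1),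
        g m' i * h (m - m') j * x (m' + (m - m')) * y (i + j) else 0)
        = ∑ m' ∈ range (m + 1), if i + j < N then
        g m' i * h (m - m') j * x (m' + (m - m')) * y (i + j) else 0 := by
      intro i j
      split_ifs <;> simp
    simp only [this]
    symm
    refine sum_comm.trans (sum_congr rfl fun i _ => sum_comm)
  refine (sum_congr rfl e1).trans ((conv_sum N (K2 g h x y N)).trans ?_)
  unfold K2
  refine sum_congr rfl fun i _ => ?_
  have e3 : ∀ i' : ℕ, (if i + i' < N then ∑ j ∈ range N, ∑ j' ∈ range N, (if j + j' < N then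
      g i j * h i' j' * x (i + i') * y (j + j') else 0) else 0)
      = ∑ j ∈ range N, ∑ j' ∈ range N, g i j * (h i' j' * (if i + i' < N then x (i + i') else 0)
            * (if j + j' < N then y (j + j') else 0)) := by
    intro i'
    split_ifs with h1
    · refine sum_congr rfl fun j _ => sum_congr rfl fun j' _ => ?_
      split_ifs <;> ring
    · simp
  simp only [e3, mul_sum]
  rw [sum_comm]

lemma bbound_of (g : ℕ → ℕ → ℂ) (M : ℝ)
    (hg : ∀ (N : ℕ) (x y : ℕ → ℂ), (∀ i : ℕ, ‖x i‖ ≤ 1) → (∀ j : ℕ, ‖y j‖ ≤ 1) →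
          ‖∑ m ∈ Finset.range N, ∑ k ∈ Finset.range N, g m k * x m * y k‖ ≤ M) (N : ℕ) :
    BBound (fun (i j : Fin N) => g i j) M := by
  intro x y hx hy
  have h1 := hg N (fun i => if h : i < N then x ⟨i, h⟩ else 0)
    (fun i => if h : i < N then y ⟨i, h⟩ else 0)
    (by intro i; split_ifs with h; exacts [hx _, by simp])
    (by intro i; split_ifs with h; exacts [hy _, by simp])
  rw [sum_range] at h1
  simp only [sum_range] at h1
  simpa using h1

/-- There is a constant C such that whenever a and b are antidiagonal sums of matrices with injective tensor norm at most M1 and M2, their convolution product is such a sum of a matrix with norm at most C·M1·M2+ε, for every ε>0. -/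
theorem result :
    ∃ C : ℝ, ∀ (a b : ℕ → ℂ) (M₁ M₂ : ℝ),
      (∃ γ : ℕ → ℕ → ℂ,
        (∀ n : ℕ, ∑ m ∈ Finset.range (n + 1), γ m (n - m) = a n) ∧
        ∀ (N : ℕ) (x y : ℕ → ℂ), (∀ i : ℕ, ‖x i‖ ≤ 1) → (∀ j : ℕ, ‖y j‖ ≤ 1) →
          ‖∑ m ∈ Finset.range N, ∑ k ∈ Finset.range N, γ m k * x m * y k‖ ≤ M₁) →
      (∃ γ : ℕ → ℕ → ℂ,
        (∀ n : ℕ, ∑ m ∈ Finset.range (n + 1), γ m (n - m) = b n) ∧
        ∀ (N : ℕ) (x y : ℕ → ℂ), (∀ i : ℕ, ‖x i‖ ≤ 1) → (∀ j : ℕ, ‖y j‖ ≤ 1) →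
          ‖∑ m ∈ Finset.range N, ∑ k ∈ Finset.range N, γ m k * x m * y k‖ ≤ M₂) →
      ∀ ε : ℝ, ε > 0 →
      ∃ γ : ℕ → ℕ → ℂ,
        (∀ n : ℕ, ∑ m ∈ Finset.range (n + 1), γ m (n - m) =
            ∑ m ∈ Finset.range (n + 1), a m * b (n - m)) ∧
        ∀ (N : ℕ) (x y : ℕ → ℂ), (∀ i : ℕ, ‖x i‖ ≤ 1) → (∀ j : ℕ, ‖y j‖ ≤ 1) →
          ‖∑ m ∈ Finset.range N, ∑ k ∈ Finset.range N, γ m k * x m * y k‖ ≤ C * M₁ * M₂ + ε := by
  refine ⟨18432, ?_⟩
  rintro a b M₁ M₂ ⟨g, hga, hgM⟩ ⟨h, hhb, hhM⟩ ε hε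
  have hM1 : 0 ≤ M₁ := by
    have := hgM 0 (fun _ => 0) (fun _ => 0) (by simp) (by simp)
    simpa using this
  have hM2 : 0 ≤ M₂ := by
    have := hhM 0 (fun _ => 0) (fun _ => 0) (by simp) (by simp)
    simpa using this
  refine ⟨conv g h, ?_, ?_⟩
  · intro n
    rw [conv_antidiag]
    refine sum_congr rfl fun p _ => ?_
    rw [hga, hhb]
  · intro N x y hx hy
    rcases Nat.eq_zero_or_pos N with h0 | h0
    · subst h0
      simp only [range_zero, sum_empty, norm_zero]
      positivity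
    have : Nonempty (Fin N) := ⟨⟨0, h0⟩⟩
    set η : ℝ := ε / (18432 * M₁ + 1) with hη
    have hη0 : 0 < η := by positivity
    have key := kron (fun (i j : Fin N) => g i j) (fun (i j : Fin N) => h i j)
      (bbound_of g M₁ hgM N)
      (M' := M₂ + η) (fun x y hx hy => (bbound_of h M₂ hhM N x y hx hy).trans (by linarith))
      (by positivity)
      (fun (i i' : Fin N) => if (i : ℕ) + i' < N then x (i + i') else 0)
      (fun (i i' : Fin N) => if (i : ℕ) + i' < N then y (i + i') else 0)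
      (by intro i j; split_ifs; exacts [hx _, by simp])
      (by intro i j; split_ifs; exacts [hy _, by simp])
    rw [conv_form]
    simp only [sum_range]
    refine key.trans ?_
    have h3 : 18432 * M₁ * η ≤ ε := by
      rw [hη, mul_div_assoc', div_le_iff₀ (by positivity)]
      nlinarith
    calc 96 * M₁ * (96 * (M₂ + η) * 2) = 18432 * M₁ * M₂ + 18432 * M₁ * η := by ring
      _ ≤ _ := by linarith

end Pool.Agent.S04623
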