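import Pool.Statements.S04692
import Pool.Agent.H263R2.Ultra.D

set_option autoImplicit false
open MeasureTheory
open Pool Pool.MP_02cac4_co

namespace Pool.Agent.S04692

/-- The negation of the preceding statement: For all large d, for a residual set of o-symmetric convex bodies C in R^d, a lattice is a local maximum of the packing density under small trace-zero perturbations exactly when the density drops at least linearly in the perturbation norm. -/
theorem result :
    ¬ (∃ d₀ : ℕ, ∀ d : ℕ, d₀ ≤ d →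
    {C : {K : ConvexBody (EuclideanSpace ℝ (Fin d)) // ∀ x ∈ K, -x ∈ K} |
      (interior (C.1 : Set (EuclideanSpace ℝ (Fin d)))).Nonempty →
      ∀ b : Fin d → EuclideanSpace ℝ (Fin d), LinearIndependent ℝ b →
        ((∃ ε > (0 : ℝ), ∀ A : EuclideanSpace ℝ (Fin d) →L[ℝ] EuclideanSpace ℝ (Fin d),
            LinearMap.trace ℝ (EuclideanSpace ℝ (Fin d))
              (A : EuclideanSpace ℝ (Fin d) →ₗ[ℝ] EuclideanSpace ℝ (Fin d)) = 0 →
            ‖A‖ < ε →
            (⨅ z : {z : Fin d → ℤ // z ≠ 0},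
                gauge (C.1 : Set (EuclideanSpace ℝ (Fin d)))
                  (∑ i, (z.1 i : ℝ) • (b i + A (b i)))) ^ d
              * (volume (C.1 : Set (EuclideanSpace ℝ (Fin d)))).toReal
              / (2 ^ d * (volume (parallelepiped (fun i => b i + A (b i)))).toReal)
            ≤ (⨅ z : {z : Fin d → ℤ // z ≠ 0},
                gauge (C.1 : Set (EuclideanSpace ℝ (Fin d)))
                  (∑ i, (z.1 i : ℝ) • b i)) ^ d
              * (volume (C.1 : Set (EuclideanSpace ℝ (Fin d)))).toReal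
              / (2 ^ d * (volume (parallelepiped b)).toReal))
        ↔
         (∃ c > (0 : ℝ), ∃ ε > (0 : ℝ), ∀ A : EuclideanSpace ℝ (Fin d) →L[ℝ] EuclideanSpace ℝ (Fin d),
            LinearMap.trace ℝ (EuclideanSpace ℝ (Fin d))
              (A : EuclideanSpace ℝ (Fin d) →ₗ[ℝ] EuclideanSpace ℝ (Fin d)) = 0 →
            ‖A‖ < ε →
            (⨅ z : {z : Fin d → ℤ // z ≠ 0},
                gauge (C.1 : Set (EuclideanSpace ℝ (Fin d)))
                  (∑ i, (z.1 i : ℝ) • (b i + A (b i)))) ^ d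
              * (volume (C.1 : Set (EuclideanSpace ℝ (Fin d)))).toReal
              / (2 ^ d * (volume (parallelepiped (fun i => b i + A (b i)))).toReal)
            ≤ (1 - c * ‖A‖) *
              ((⨅ z : {z : Fin d → ℤ // z ≠ 0},
                gauge (C.1 : Set (EuclideanSpace ℝ (Fin d)))
                  (∑ i, (z.1 i : ℝ) • b i)) ^ d
              * (volume (C.1 : Set (EuclideanSpace ℝ (Fin d)))).toReal
              / (2 ^ d * (volume (parallelepiped b)).toReal))))}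
    ∈ residual {K : ConvexBody (EuclideanSpace ℝ (Fin d)) // ∀ x ∈ K, -x ∈ K}) := by
  classical
  rintro ⟨d₀, hd₀⟩
  set d : ℕ := max d₀ 3 with hd
  have hd3 : 3 ≤ d := le_max_right _ _
  have hres := hd₀ d (le_max_left _ _)
  obtain ⟨X₀, δ, hδ, hX₀⟩ := Pool.Agent.H263R2.Ultra.exists_open d (by omega)
  have hdense := dense_of_mem_residual hres
  obtain ⟨C, hCS, hCd⟩ := hdense.exists_dist_lt X₀ hδ
  obtain ⟨hnh, ⟨B, hB⟩, hcont⟩ := hX₀ C hCd
  have hNL := Pool.Agent.H263R2.Ultra.nl_gg C hnh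
  have hdet := hB.1
  have hint : (interior (C.1 : Set (EuclideanSpace ℝ (Fin d)))).Nonempty :=
    ⟨0, mem_interior_iff_mem_nhds.mpr hnh⟩
  have hiff := hCS hint (Pool.Agent.H263R2.Ultra.col B)
    (Pool.Agent.H263R2.Ultra.linInd_col hdet)
  have hVpos : 0 < (volume (C.1 : Set (EuclideanSpace ℝ (Fin d)))).toReal := by
    refine ENNReal.toReal_pos ?_ C.1.isCompact.measure_lt_top.ne
    have h := isOpen_interior.measure_pos volume hint
    exact (lt_of_lt_of_le h (measure_mono interior_subset)).ne'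
  have hBpos : 0 < |B.det| := abs_pos.mpr hdet
  -- the densest lattice is a local maximum
  have hmax := hiff.mp (by
    refine ⟨1, one_pos, fun A _ hA => ?_⟩
    have e1 : (⨅ z : {z : Fin d → ℤ // z ≠ 0}, gauge (C.1 : Set (EuclideanSpace ℝ (Fin d)))
        (∑ i, (z.1 i : ℝ) • (Pool.Agent.H263R2.Ultra.col B i +
          A (Pool.Agent.H263R2.Ultra.col B i)))) = _ :=
      Pool.Agent.H263R2.Ultra.inf_eq C (fun i => Pool.Agent.H263R2.Ultra.col B i +
          A (Pool.Agent.H263R2.Ultra.col B i))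
    rw [e1, Pool.Agent.H263R2.Ultra.inf_eq C (Pool.Agent.H263R2.Ultra.col B),
      Pool.Agent.H263R2.Ultra.vol_par, Pool.Agent.H263R2.Ultra.vol_par,
      Pool.Agent.H263R2.Ultra.Bm_add, Pool.Agent.H263R2.Ultra.Bm_col]
    have hA' := Pool.Agent.H263R2.Ultra.det_ne A hA
    have hdet' : ((1 + Pool.Agent.H263R2.Ultra.mat A) * B).det ≠ 0 := by
      rw [Matrix.det_mul]; exact mul_ne_zero hA' hdet
    have h1 := hB.2 _ hdet'
    have hpos' := abs_pos.mpr hdet'
    have e2 : ∀ (m D : ℝ), m ^ d * (volume (C.1 : Set (EuclideanSpace ℝ (Fin d)))).toReal /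
        (2 ^ d * D) = (m ^ d / D) *
          ((volume (C.1 : Set (EuclideanSpace ℝ (Fin d)))).toReal / 2 ^ d) := by
      intro m D
      rw [mul_comm (2 ^ d : ℝ) D, mul_div_mul_comm]
    rw [e2, e2]
    gcongr)
  obtain ⟨c, hc, ε, hε, hult⟩ := hmax
  obtain ⟨M, hM0, hMtr, hM⟩ := Pool.Agent.H263R2.Ultra.not_ultra hNL hd3 hdet (hcont B hB)
  have hMn : 0 < ‖Pool.Agent.H263R2.Ultra.ofMat M‖ := by
    rw [norm_pos_iff]
    intro h0
    apply hM0
    rw [← Pool.Agent.H263R2.Ultra.mat_ofMat M, h0]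
    simp [Pool.Agent.H263R2.Ultra.mat]
  obtain ⟨t₀, ht₀, hneg⟩ := hM (c * ‖Pool.Agent.H263R2.Ultra.ofMat M‖) (by positivity)
  set t : ℝ := min (t₀ / 2) (ε / (2 * ‖Pool.Agent.H263R2.Ultra.ofMat M‖)) with ht
  have htpos : 0 < t := by positivity
  have ht1 : t < t₀ := lt_of_le_of_lt (min_le_left _ _) (by linarith)
  have ht2 : t * ‖Pool.Agent.H263R2.Ultra.ofMat M‖ < ε := by
    have : t ≤ ε / (2 * ‖Pool.Agent.H263R2.Ultra.ofMat M‖) := min_le_right _ _
    calc t * ‖Pool.Agent.H263R2.Ultra.ofMat M‖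
        ≤ ε / (2 * ‖Pool.Agent.H263R2.Ultra.ofMat M‖) * ‖Pool.Agent.H263R2.Ultra.ofMat M‖ := by
          gcongr
      _ = ε / 2 := by field_simp
      _ < ε := by linarith
  apply hneg t htpos ht1
  have hnorm : ‖Pool.Agent.H263R2.Ultra.ofMat (t • M)‖ =
      t * ‖Pool.Agent.H263R2.Ultra.ofMat M‖ := by
    rw [Pool.Agent.H263R2.Ultra.ofMat_smul, norm_smul, Real.norm_of_nonneg htpos.le]
  have h2 := hult (Pool.Agent.H263R2.Ultra.ofMat (t • M)) (by
    rw [Pool.Agent.H263R2.Ultra.mat_trace, Pool.Agent.H263R2.Ultra.mat_ofMat,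
      Matrix.trace_smul, hMtr, smul_zero]) (by rw [hnorm]; exact ht2)
  have e1 : (⨅ z : {z : Fin d → ℤ // z ≠ 0}, gauge (C.1 : Set (EuclideanSpace ℝ (Fin d)))
      (∑ i, (z.1 i : ℝ) • (Pool.Agent.H263R2.Ultra.col B i +
        Pool.Agent.H263R2.Ultra.ofMat (t • M) (Pool.Agent.H263R2.Ultra.col B i)))) = _ :=
    Pool.Agent.H263R2.Ultra.inf_eq C (fun i => Pool.Agent.H263R2.Ultra.col B i +
        Pool.Agent.H263R2.Ultra.ofMat (t • M) (Pool.Agent.H263R2.Ultra.col B i))
  rw [e1, Pool.Agent.H263R2.Ultra.inf_eq C (Pool.Agent.H263R2.Ultra.col B),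
    Pool.Agent.H263R2.Ultra.vol_par, Pool.Agent.H263R2.Ultra.vol_par,
    Pool.Agent.H263R2.Ultra.Bm_add, Pool.Agent.H263R2.Ultra.Bm_col,
    Pool.Agent.H263R2.Ultra.mat_ofMat, hnorm] at h2
  have e2 : ∀ (m D : ℝ), m ^ d * (volume (C.1 : Set (EuclideanSpace ℝ (Fin d)))).toReal /
      (2 ^ d * D) = (m ^ d / D) *
        ((volume (C.1 : Set (EuclideanSpace ℝ (Fin d)))).toReal / 2 ^ d) := by
    intro m D
    rw [mul_comm (2 ^ d : ℝ) D, mul_div_mul_comm]
  rw [e2, e2, ← mul_assoc] at h2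
  have h3 := le_of_mul_le_mul_right h2 (by positivity)
  have e3 : c * (t * ‖Pool.Agent.H263R2.Ultra.ofMat M‖) =
      c * ‖Pool.Agent.H263R2.Ultra.ofMat M‖ * t := by ring
  rw [e3] at h3
  exact h3

end Pool.Agent.S04692
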