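import Pool.Statements.S04730

set_option autoImplicit false
open scoped Classical
open Pool Pool.MP_05d622_co

namespace Pool.Agent.S04730

abbrev E2 := EuclideanSpace ℝ (Fin 2)

/-- the inverse (in the unit circle) of the grid point `(x, y)` -/
noncomputable def ptP (x y : ℝ) : E2 := !₂[x / (x ^ 2 + y ^ 2), y / (x ^ 2 + y ^ 2)]

/-- the centre of the circle which is the inverse of the line `y = m x + b` -/
noncomputable def ctr (m b : ℝ) : E2 := !₂[-m / (2 * b), 1 / (2 * b)]

/-- Every inverted point of the line `y = m x + b` is at the same distance from the centre. -/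
lemma dist_ctr_pt {m b x : ℝ} (hb : 0 < b) (hx : 0 < x) :
    dist (ctr m b) (ptP x (m * x + b)) = Real.sqrt ((m ^ 2 + 1) / (4 * b ^ 2)) := by
  have hq : x ^ 2 + (m * x + b) ^ 2 ≠ 0 := by positivity
  rw [EuclideanSpace.dist_eq]
  congr 1
  simp only [ctr, ptP, Fin.sum_univ_two, Real.dist_eq, sq_abs]
  simp
  field_simp
  ring

lemma ctr_inj {m b m' b' : ℝ} (hb : 0 < b) (hb' : 0 < b') (h : ctr m b = ctr m' b') :
    m = m' ∧ b = b' := by
  have h0 := congrFun (congrArg WithLp.ofLp h) 0
  have h1 := congrFun (congrArg WithLp.ofLp h) 1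
  simp [ctr] at h0 h1
  have hbb : b = b' := by
    have := h1
    simpa using this
  subst hbb
  refine ⟨?_, rfl⟩
  field_simp at h0
  linarith

lemma pt_inj {x y x' y' : ℝ} (hx : 0 < x) (hx' : 0 < x') (h : ptP x y = ptP x' y') :
    x = x' ∧ y = y' := by
  have h0 := congrFun (congrArg WithLp.ofLp h) 0
  have h1 := congrFun (congrArg WithLp.ofLp h) 1
  simp [ptP] at h0 h1
  have hq : x ^ 2 + y ^ 2 ≠ 0 := by positivity
  have hq' : x' ^ 2 + y' ^ 2 ≠ 0 := by positivity
  have e1 : (x / (x ^ 2 + y ^ 2)) ^ 2 + (y / (x ^ 2 + y ^ 2)) ^ 2 = 1 / (x ^ 2 + y ^ 2) := by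
    field_simp
  have e2 : (x' / (x' ^ 2 + y' ^ 2)) ^ 2 + (y' / (x' ^ 2 + y' ^ 2)) ^ 2 = 1 / (x' ^ 2 + y' ^ 2) := by
    field_simp
  rw [h0, h1, e2] at e1
  have e3 : x ^ 2 + y ^ 2 = x' ^ 2 + y' ^ 2 := by
    field_simp at e1
    linarith
  rw [e3] at h0 h1
  constructor
  · field_simp at h0
    exact h0
  · field_simp at h1
    exact h1

/-- the centres -/
noncomputable def setA (k : ℕ) : Finset E2 :=
  (Finset.range k ×ˢ Finset.range (k ^ 2)).image (fun q => ctr ((q.1 : ℝ) + 1) ((q.2 : ℝ) + 1))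

/-- the inverted grid points -/
noncomputable def setB (k : ℕ) : Finset E2 :=
  (Finset.range k ×ˢ Finset.range (2 * k ^ 2)).image (fun q => ptP ((q.1 : ℝ) + 1) ((q.2 : ℝ) + 1))

lemma card_setA (k : ℕ) : (setA k).card = k ^ 3 := by
  unfold setA
  rw [Finset.card_image_of_injective]
  · simp; ring
  · intro q q' h
    have := ctr_inj (by positivity) (by positivity) h
    ext
    · have := this.1
      exact_mod_cast (add_right_cancel this)
    · have := this.2
      exact_mod_cast (add_right_cancel this)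

lemma card_setB (k : ℕ) : (setB k).card ≤ 2 * k ^ 3 := by
  unfold setB
  refine Finset.card_image_le.trans ?_
  simp
  apply le_of_eq
  ring

lemma card_S_le (k : ℕ) : (setA k ∪ setB k).card ≤ 3 * k ^ 3 := by
  refine (Finset.card_union_le _ _).trans ?_
  have := card_setA k
  have := card_setB k
  omega

lemma card_S_ge (k : ℕ) : k ^ 3 ≤ (setA k ∪ setB k).card := by
  rw [← card_setA k]
  exact Finset.card_le_card Finset.subset_union_left

lemma h_ge (k : ℕ) (hk : 0 < k) (a : E2) (ha : a ∈ setA k) :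
    k ≤ (setA k ∪ setB k).sup (fun y => ((setA k ∪ setB k).filter
      (fun z => z ≠ a ∧ dist a z = dist a y)).card) := by
  unfold setA at ha
  rw [Finset.mem_image] at ha
  obtain ⟨⟨m, b⟩, hq, rfl⟩ := ha
  simp only [Finset.mem_product, Finset.mem_range] at hq
  obtain ⟨hm, hb⟩ := hq
  have key : ∀ x : ℕ, x < k → ptP ((x : ℝ) + 1) (((m : ℝ) + 1) * ((x : ℝ) + 1) + ((b : ℝ) + 1)) ∈ setB k := by
    intro x hx
    unfold setB
    rw [Finset.mem_image]
    refine ⟨(x, (m + 1) * (x + 1) + b), ?_, ?_⟩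
    · simp only [Finset.mem_product, Finset.mem_range]
      refine ⟨hx, ?_⟩
      have : (m + 1) * (x + 1) ≤ k * k := Nat.mul_le_mul hm hx
      nlinarith
    · push_cast
      congr 1
      ring
  have hy0 : ptP (((0 : ℕ) : ℝ) + 1) (((m : ℝ) + 1) * (((0 : ℕ) : ℝ) + 1) + ((b : ℝ) + 1)) ∈ setA k ∪ setB k :=
    Finset.mem_union_right _ (key 0 hk)
  refine le_trans ?_ (Finset.le_sup (f := fun y => ((setA k ∪ setB k).filter
      (fun z => z ≠ ctr ((m : ℝ) + 1) ((b : ℝ) + 1) ∧
        dist (ctr ((m : ℝ) + 1) ((b : ℝ) + 1)) z = dist (ctr ((m : ℝ) + 1) ((b : ℝ) + 1)) y)).card) hy0)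
  beta_reduce
  have hinj : Function.Injective (fun x : ℕ => ptP ((x : ℝ) + 1)
      (((m : ℝ) + 1) * ((x : ℝ) + 1) + ((b : ℝ) + 1))) := by
    intro x x' h
    have := (pt_inj (by positivity) (by positivity) h).1
    exact_mod_cast (add_right_cancel this)
  calc k = ((Finset.range k).image (fun x : ℕ => ptP ((x : ℝ) + 1)
      (((m : ℝ) + 1) * ((x : ℝ) + 1) + ((b : ℝ) + 1)))).card := by
        rw [Finset.card_image_of_injective _ hinj, Finset.card_range]
    _ ≤ _ := by
        apply Finset.card_le_card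
        intro z hz
        rw [Finset.mem_image] at hz
        obtain ⟨x, hx, rfl⟩ := hz
        rw [Finset.mem_range] at hx
        rw [Finset.mem_filter]
        have hd := dist_ctr_pt (m := (m : ℝ) + 1) (b := (b : ℝ) + 1) (x := (x : ℝ) + 1)
          (by positivity) (by positivity)
        have hd0 := dist_ctr_pt (m := (m : ℝ) + 1) (b := (b : ℝ) + 1) (x := ((0 : ℕ) : ℝ) + 1)
          (by positivity) (by positivity)
        refine ⟨Finset.mem_union_right _ (key x hx), ?_, ?_⟩
        · intro heq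
          rw [heq, dist_self] at hd
          have : 0 < Real.sqrt ((((m : ℝ) + 1) ^ 2 + 1) / (4 * ((b : ℝ) + 1) ^ 2)) := by positivity
          linarith
        · rw [hd, hd0]

lemma sum_ge (k : ℕ) (hk : 0 < k) :
    k ^ 4 ≤ ∑ x ∈ setA k ∪ setB k, (setA k ∪ setB k).sup (fun y => ((setA k ∪ setB k).filter
      (fun z => z ≠ x ∧ dist x z = dist x y)).card) := by
  calc k ^ 4 = ∑ x ∈ setA k, k := by
        rw [Finset.sum_const, card_setA]; simp; ring
    _ ≤ ∑ x ∈ setA k, (setA k ∪ setB k).sup (fun y => ((setA k ∪ setB k).filter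
      (fun z => z ≠ x ∧ dist x z = dist x y)).card) := Finset.sum_le_sum (fun a ha => h_ge k hk a ha)
    _ ≤ _ := Finset.sum_le_sum_of_subset Finset.subset_union_left

lemma eventually_ok (c : ℝ) : ∀ᶠ n : ℕ in Filter.atTop,
    c / Real.log (Real.log (n : ℝ)) ≤ 1 / 6 ∧ 8 * Real.log 3 ≤ Real.log (n : ℝ) := by
  have h1 : Filter.Tendsto (fun n : ℕ => Real.log (n : ℝ)) Filter.atTop Filter.atTop :=
    Real.tendsto_log_atTop.comp tendsto_natCast_atTop_atTop
  have h2 : Filter.Tendsto (fun n : ℕ => Real.log (Real.log (n : ℝ))) Filter.atTop Filter.atTop :=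
    Real.tendsto_log_atTop.comp h1
  have h3 : Filter.Tendsto (fun n : ℕ => c / Real.log (Real.log (n : ℝ))) Filter.atTop (nhds 0) :=
    h2.const_div_atTop c
  filter_upwards [h3.eventually (ge_mem_nhds (by norm_num : (0 : ℝ) < 1 / 6)),
    h1.eventually_ge_atTop (8 * Real.log 3)] with n a b
  exact ⟨a, b⟩

/-- The negation of the preceding statement: There is a constant c such that for all large n, any n distinct points in the plane satisfy: the sum over points of the max number of other points at one common distance from it is less than n^(1+c/log log n). -/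
theorem result :
    ¬ (∃ c : ℝ, ∃ N : ℕ, ∀ n : ℕ, N ≤ n →
      ∀ S : Finset (EuclideanSpace ℝ (Fin 2)), S.card = n →
        ((∑ x ∈ S, S.sup (fun y => (S.filter (fun z => z ≠ x ∧ dist x z = dist x y)).card) : ℕ) : ℝ)
          < (n : ℝ) ^ (1 + c / Real.log (Real.log (n : ℝ)))) := by
  rintro ⟨c, N, h⟩
  obtain ⟨N1, hN1⟩ := Filter.eventually_atTop.1 (eventually_ok c)
  set k := max N N1 + 1 with hk
  have hkpos : 0 < k := by omega
  set S := setA k ∪ setB k with hS
  have hcard_ge := card_S_ge k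
  have hcard_le := card_S_le k
  rw [← hS] at hcard_ge hcard_le
  have hk3 : k ≤ k ^ 3 := Nat.le_self_pow (by norm_num) k
  have hNn : N ≤ S.card := by omega
  have hN1n : N1 ≤ S.card := by omega
  have hlt := h S.card hNn S rfl
  have hsum := sum_ge k hkpos
  rw [← hS] at hsum
  have hsum' : ((k : ℝ)) ^ 4 ≤ ((∑ x ∈ S, S.sup (fun y => (S.filter (fun z => z ≠ x ∧ dist x z = dist x y)).card) : ℕ) : ℝ) := by
    exact_mod_cast hsum
  have hlt2 := lt_of_le_of_lt hsum' hlt
  obtain ⟨hc, hL⟩ := hN1 S.card hN1n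
  have hn1 : (1 : ℝ) ≤ (S.card : ℝ) := by
    have : 1 ≤ S.card := by omega
    exact_mod_cast this
  have hkR : (0 : ℝ) < (k : ℝ) := by exact_mod_cast hkpos
  have hlog : Real.log (S.card : ℝ) ≤ Real.log 3 + 3 * Real.log (k : ℝ) := by
    have h1 : (S.card : ℝ) ≤ 3 * (k : ℝ) ^ 3 := by exact_mod_cast hcard_le
    have h2 : Real.log (S.card : ℝ) ≤ Real.log (3 * (k : ℝ) ^ 3) :=
      Real.log_le_log (by linarith) h1
    rw [Real.log_mul (by norm_num) (by positivity), Real.log_pow] at h2
    push_cast at h2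
    linarith
  have hlog0 : 0 ≤ Real.log (S.card : ℝ) := Real.log_nonneg hn1
  have hexp : (1 + c / Real.log (Real.log (S.card : ℝ))) * Real.log (S.card : ℝ) ≤ 4 * Real.log (k : ℝ) := by
    have h1 : c / Real.log (Real.log (S.card : ℝ)) * Real.log (S.card : ℝ) ≤ 1 / 6 * Real.log (S.card : ℝ) :=
      mul_le_mul_of_nonneg_right hc hlog0
    nlinarith
  have : (S.card : ℝ) ^ (1 + c / Real.log (Real.log (S.card : ℝ))) ≤ (k : ℝ) ^ 4 := by
    rw [Real.rpow_def_of_pos (by linarith)]
    calc Real.exp (Real.log (S.card : ℝ) * (1 + c / Real.log (Real.log (S.card : ℝ))))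
        ≤ Real.exp (4 * Real.log (k : ℝ)) := by
          apply Real.exp_le_exp.2
          linarith [hexp]
      _ = (k : ℝ) ^ 4 := by
          rw [mul_comm, Real.exp_mul, Real.exp_log hkR]
          norm_cast
  linarith

end Pool.Agent.S04730
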