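import Pool.Statements.S04770
-- import your own Pool.Agent.* helpers here

set_option autoImplicit false
open Pool Pool.MP_0959cd_co

namespace Pool.Agent.S04770

/-!
The counterexample.  On the vertices `0, ..., 6` (block one) the out-weights are all `21/21` and every
directed cycle has weight at most `20/21`: the two hubs `4` and `2` have the leaves `0, 1, 5` and `3, 6`.
The vertices `7, ..., 13` form the reversed copy (block two), in which all in-weights are `21/21`.
The arcs `7 + i → i` of weight `1` from block two to block one lie on no directed cycle and give the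
missing in-weights in block one and out-weights in block two.
All weights below are multiplied by `21`.
-/

/-- `21` times the weights. -/
def rows : List (List ℕ) := [
    [0, 0, 5, 0, 16, 0, 0, 0, 0, 0, 0, 0, 0, 0],
    [0, 0, 5, 0, 16, 0, 0, 0, 0, 0, 0, 0, 0, 0],
    [0, 0, 0, 5, 11, 0, 5, 0, 0, 0, 0, 0, 0, 0],
    [0, 0, 15, 0, 6, 0, 0, 0, 0, 0, 0, 0, 0, 0],
    [4, 4, 9, 0, 0, 4, 0, 0, 0, 0, 0, 0, 0, 0],
    [0, 0, 5, 0, 16, 0, 0, 0, 0, 0, 0, 0, 0, 0],
    [0, 0, 15, 0, 6, 0, 0, 0, 0, 0, 0, 0, 0, 0],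
    [21, 0, 0, 0, 0, 0, 0, 0, 0, 0, 0, 4, 0, 0],
    [0, 21, 0, 0, 0, 0, 0, 0, 0, 0, 0, 4, 0, 0],
    [0, 0, 21, 0, 0, 0, 0, 5, 5, 0, 15, 9, 5, 15],
    [0, 0, 0, 21, 0, 0, 0, 0, 0, 5, 0, 0, 0, 0],
    [0, 0, 0, 0, 21, 0, 0, 16, 16, 11, 6, 0, 16, 6],
    [0, 0, 0, 0, 0, 21, 0, 0, 0, 0, 0, 4, 0, 0],
    [0, 0, 0, 0, 0, 0, 21, 0, 0, 5, 0, 0, 0, 0]]

/-- `21` times the weight of the arc `u → v` (`0` when there is no arc). -/
def W (u v : ℕ) : ℕ := (rows.getD u []).getD v 0

/-- Exhaustive search along the paths from `s`: the path visits `vis`, stands at `v` and has weight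
`acc`; every way of closing it up to a cycle through `s` gives weight at most `20`. -/
def dfs (s : ℕ) : ℕ → List ℕ → ℕ → ℕ → Bool
  | 0, _, _, _ => true
  | f + 1, vis, v, acc =>
    (W v s == 0 || decide (acc + W v s ≤ 20)) &&
      (List.range 14).all fun w => W v w == 0 || vis.contains w || dfs s f (w :: vis) w (acc + W v w)

theorem dfs_all : ∀ s < 14, dfs s 14 [s] s 0 = true := by decide +kernel

theorem W_diag : ∀ v : Fin 14, W v.val v.val = 0 := by decide +kernel

theorem W_le : ∀ u v : Fin 14, W u.val v.val ≤ 21 := by decide +kernel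

theorem W_out : ∀ u : Fin 14, 21 ≤ ∑ v : Fin 14, W u.val v.val := by decide +kernel

theorem W_in : ∀ u : Fin 14, 21 ≤ ∑ v : Fin 14, W v.val u.val := by decide +kernel

theorem walk (m : ℕ) (hm : m ≤ 13) (a : ℕ → ℕ) (ha : ∀ i, i ≤ m → a i < 14)
    (hinj : ∀ i j, i ≤ m → j ≤ m → a i = a j → i = j)
    (hadj : ∀ i, i < m → W (a i) (a (i + 1)) ≠ 0) :
    ∀ j, j ≤ m → ∃ vis : List ℕ, (∀ w ∈ vis, ∃ i, i ≤ j ∧ a i = w) ∧
      dfs (a 0) (14 - j) vis (a j) (∑ i ∈ Finset.range j, W (a i) (a (i + 1))) = true := by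
  intro j
  induction j with
  | zero =>
    intro _
    exact ⟨[a 0], fun w hw => ⟨0, le_refl _, (List.mem_singleton.mp hw).symm⟩,
      dfs_all (a 0) (ha 0 (Nat.zero_le _))⟩
  | succ j ih =>
    intro hj
    obtain ⟨vis, hvis, hd⟩ := ih (by omega)
    have e : 14 - j = (14 - (j + 1)) + 1 := by omega
    rw [e, dfs, Bool.and_eq_true, List.all_eq_true] at hd
    have h := hd.2 (a (j + 1)) (List.mem_range.mpr (ha _ hj))
    rw [Bool.or_eq_true, Bool.or_eq_true, beq_iff_eq, List.contains_iff_mem] at h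
    rcases h with (h | h) | h
    · exact absurd h (hadj j (by omega))
    · obtain ⟨i, hi, hai⟩ := hvis _ h
      have := hinj i (j + 1) (by omega) hj hai
      omega
    · refine ⟨a (j + 1) :: vis, ?_, ?_⟩
      · intro w hw
        rcases List.mem_cons.mp hw with rfl | hw
        · exact ⟨j + 1, le_refl _, rfl⟩
        · obtain ⟨i, hi, hai⟩ := hvis w hw
          exact ⟨i, by omega, hai⟩
      · rw [Finset.sum_range_succ]
        exact h

theorem cycle_le (k : ℕ) (c : Fin (k + 2) → Fin 14) (hc : Function.Injective c)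
    (hadj : ∀ i, W (c i).val (c (i + 1)).val ≠ 0) :
    ∑ i, W (c i).val (c (i + 1)).val ≤ 20 := by
  have hk : k + 2 ≤ 14 := by
    simpa using Fintype.card_le_of_injective c hc
  set a : ℕ → ℕ := fun j => (c (Fin.ofNat (k + 2) j)).val with ha
  have hof : ∀ i : Fin (k + 2), Fin.ofNat (k + 2) i.val = i := fun i => by
    apply Fin.ext
    rw [Fin.val_ofNat]
    exact Nat.mod_eq_of_lt i.isLt
  have hstep : ∀ i : Fin (k + 1), a (i.val + 1) = (c (i.castSucc + 1)).val := by
    intro i
    have h1 : i.castSucc + 1 = i.succ := Fin.coeSucc_eq_succ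
    have h2 := hof i.succ
    rw [Fin.val_succ] at h2
    simp only [ha]
    rw [h2, h1]
  have hval : ∀ i : Fin (k + 1), a i.val = (c i.castSucc).val := by
    intro i
    have h2 := hof i.castSucc
    rw [Fin.val_castSucc] at h2
    simp only [ha]
    rw [h2]
  have hlast : a (k + 1) = (c (Fin.last (k + 1))).val := by
    have h2 := hof (Fin.last (k + 1))
    rw [Fin.val_last] at h2
    simp only [ha]
    rw [h2]
  have h0 : a 0 = (c (Fin.last (k + 1) + 1)).val := by
    have h1 : Fin.last (k + 1) + 1 = 0 := Fin.last_add_one (k + 1)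
    have h2 := hof 0
    rw [Fin.val_zero] at h2
    simp only [ha]
    rw [h2, h1]
  obtain ⟨vis, _, hd⟩ := walk (k + 1) (by omega) a (fun i _ => (c _).isLt)
    (by
      intro i j hi hj hij
      have h1 := hc (Fin.val_injective hij)
      have h3 := congrArg Fin.val h1
      rw [Fin.val_ofNat, Fin.val_ofNat, Nat.mod_eq_of_lt (by omega), Nat.mod_eq_of_lt (by omega)] at h3
      exact h3)
    (by
      intro i hi
      have := hadj (Fin.castSucc ⟨i, hi⟩)
      rw [← hval, ← hstep] at this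
      exact this) (k + 1) (le_refl _)
  have e : 14 - (k + 1) = (14 - (k + 2)) + 1 := by omega
  rw [e, dfs, Bool.and_eq_true, Bool.or_eq_true, beq_iff_eq, decide_eq_true_eq] at hd
  have hfin : ∑ i ∈ Finset.range (k + 1), W (a i) (a (i + 1)) + W (a (k + 1)) (a 0) ≤ 20 := by
    rcases hd.1 with h | h
    · have := hadj (Fin.last (k + 1))
      rw [← hlast, ← h0] at this
      exact absurd h this
    · exact h
  rw [Fin.sum_univ_castSucc, ← hlast, ← h0]
  have hsum : ∑ i : Fin (k + 1), W (c i.castSucc).val (c (i.castSucc + 1)).val =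
      ∑ i ∈ Finset.range (k + 1), W (a i) (a (i + 1)) := by
    rw [← Fin.sum_univ_eq_sum_range (fun i => W (a i) (a (i + 1))) (k + 1)]
    refine Finset.sum_congr rfl fun i _ => ?_
    rw [hval, hstep]
  rw [hsum]
  exact hfin

/-- The negation of the preceding statement: In every finite nonempty loopless digraph with arc weights in [0,1] where each vertex has total out-weight at least 1 and total in-weight at least 1, some directed cycle has total weight at least 1. -/
theorem result :
    ¬ (∀ (V : Type) [Fintype V] [Nonempty V] (G : Digraph V) (p : V → V → ℝ),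
      (∀ v, ¬ G.Adj v v) →
      (∀ u v, 0 ≤ p u v ∧ p u v ≤ 1) →
      (∀ u v, ¬ G.Adj u v → p u v = 0) →
      (∀ u, 1 ≤ ∑ v, p u v) →
      (∀ u, 1 ≤ ∑ v, p v u) →
      ∃ (k : ℕ) (c : Fin (k + 2) → V),
        Function.Injective c ∧
        (∀ i, G.Adj (c i) (c (i + 1))) ∧
        1 ≤ ∑ i, p (c i) (c (i + 1))) := by
  intro h
  obtain ⟨k, c, hc, hadj, hsum⟩ := h (Fin 14) ⟨fun u v => W u.val v.val ≠ 0⟩
    (fun u v => (W u.val v.val : ℝ) / 21)
    (fun v hv => hv (W_diag v))
    (fun u v => ⟨by positivity, by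
      have h1 : ((W u.val v.val : ℕ) : ℝ) ≤ ((21 : ℕ) : ℝ) := Nat.cast_le.mpr (W_le u v)
      rw [div_le_one (by norm_num)]
      exact_mod_cast h1⟩)
    (fun u v huv => by
      have h1 : W u.val v.val = 0 := by
        by_contra hne
        exact huv hne
      rw [h1]
      simp)
    (fun u => by
      rw [← Finset.sum_div, le_div_iff₀ (by norm_num)]
      have h1 : ((21 : ℕ) : ℝ) ≤ ((∑ v : Fin 14, W u.val v.val : ℕ) : ℝ) := Nat.cast_le.mpr (W_out u)
      push_cast at h1
      linarith)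
    (fun u => by
      rw [← Finset.sum_div, le_div_iff₀ (by norm_num)]
      have h1 : ((21 : ℕ) : ℝ) ≤ ((∑ v : Fin 14, W v.val u.val : ℕ) : ℝ) := Nat.cast_le.mpr (W_in u)
      push_cast at h1
      linarith)
  have h1 := cycle_le k c hc hadj
  have h2 : ((∑ i, W (c i).val (c (i + 1)).val : ℕ) : ℝ) ≤ ((20 : ℕ) : ℝ) := Nat.cast_le.mpr h1
  push_cast at h2
  rw [← Finset.sum_div, le_div_iff₀ (by norm_num)] at hsum
  linarith

end Pool.Agent.S04770
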