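import Pool.Statements.S04818
-- import your own Pool.Agent.* helpers here

set_option autoImplicit false
open Pool Pool.MP_0c316d_co

namespace Pool.Agent.S04818

/-- Terminals: the 4-element subsets of a 7-element set. -/
abbrev Term : Type := {s : Finset (Fin 7) // s.card = 4}

/-- Vertices: 7 Steiner points and 35 terminals. -/
abbrev Vx : Type := Fin 7 ⊕ Term

/-- Incidence graph between points and 4-subsets. -/
def inc : SimpleGraph Vx where
  Adj u v := match u, v with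
    | Sum.inl x, Sum.inr s => x ∈ s.1
    | Sum.inr s, Sum.inl x => x ∈ s.1
    | _, _ => False
  symm := ⟨by
    rintro (x | s) (y | t) h
    · exact h
    · exact h
    · exact h
    · exact h⟩
  loopless := ⟨by
    rintro (x | s) h
    · exact h
    · exact h⟩

/-- The terminal set. -/
def AA : Finset Vx := Finset.univ.image Sum.inr

lemma card_term : Fintype.card Term = 35 := by decide +kernel

lemma card_AA : AA.card = 35 := by
  unfold AA
  rw [Finset.card_image_of_injective _ Sum.inr_injective, Finset.card_univ, card_term]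

lemma mem_AA (v : Vx) : v ∈ AA ↔ ∃ s, v = Sum.inr s := by
  unfold AA
  simp only [Finset.mem_image, Finset.mem_univ, true_and]
  constructor
  · rintro ⟨s, h⟩; exact ⟨s, h.symm⟩
  · rintro ⟨s, h⟩; exact ⟨s, h.symm⟩

lemma indep : ∀ a ∈ AA, ∀ b ∈ AA, ¬ inc.Adj a b := by
  intro a ha b hb h
  obtain ⟨s, rfl⟩ := (mem_AA a).1 ha
  obtain ⟨t, rfl⟩ := (mem_AA b).1 hb
  exact h

lemma many (x y : Fin 7) :
    4 ≤ (Finset.univ.filter (fun c : Term => x ∈ c.1 ∧ y ∈ c.1)).card := by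
  revert x y
  decide +kernel

lemma exists_term (S : Finset Vx) (hS : S.card < 4) (x y : Fin 7) :
    ∃ c : Term, x ∈ c.1 ∧ y ∈ c.1 ∧ (Sum.inr c : Vx) ∉ S := by
  by_contra hcon
  push Not at hcon
  have h1 : (Finset.univ.filter (fun c : Term => x ∈ c.1 ∧ y ∈ c.1)).image (Sum.inr : Term → Vx) ⊆ S := by
    intro v hv
    obtain ⟨c, hc, rfl⟩ := Finset.mem_image.1 hv
    have hc' := (Finset.mem_filter.1 hc).2
    exact hcon c hc'.1 hc'.2
  have h2 := Finset.card_le_card h1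
  rw [Finset.card_image_of_injective _ Sum.inr_injective] at h2
  have h3 := many x y
  omega

lemma exists_pt (S : Finset Vx) (hS : S.card < 4) (s : Term) :
    ∃ x : Fin 7, x ∈ s.1 ∧ (Sum.inl x : Vx) ∉ S := by
  by_contra hcon
  push Not at hcon
  have h1 : s.1.image (Sum.inl : Fin 7 → Vx) ⊆ S := by
    intro v hv
    obtain ⟨c, hc, rfl⟩ := Finset.mem_image.1 hv
    exact hcon c hc
  have h2 := Finset.card_le_card h1
  rw [Finset.card_image_of_injective _ Sum.inl_injective, s.2] at h2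
  omega

lemma conn : ∀ a ∈ AA, ∀ b ∈ AA, a ≠ b → ∀ S : Finset Vx, a ∉ S → b ∉ S → S.card < 4 →
    ∃ p : inc.Walk a b, ∀ v ∈ p.support, v ∉ S := by
  intro a ha b hb _ S haS hbS hS
  obtain ⟨s, rfl⟩ := (mem_AA a).1 ha
  obtain ⟨t, rfl⟩ := (mem_AA b).1 hb
  obtain ⟨x, hx, hxS⟩ := exists_pt S hS s
  obtain ⟨y, hy, hyS⟩ := exists_pt S hS t
  obtain ⟨c, hxc, hyc, hcS⟩ := exists_term S hS x y
  have e1 : inc.Adj (Sum.inr s) (Sum.inl x) := hx
  have e2 : inc.Adj (Sum.inl x) (Sum.inr c) := hxc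
  have e3 : inc.Adj (Sum.inr c) (Sum.inl y) := hyc
  have e4 : inc.Adj (Sum.inl y) (Sum.inr t) := hy
  refine ⟨SimpleGraph.Walk.cons e1 (SimpleGraph.Walk.cons e2 (SimpleGraph.Walk.cons e3
    (SimpleGraph.Walk.cons e4 SimpleGraph.Walk.nil))), ?_⟩
  intro v hv
  simp only [SimpleGraph.Walk.support_cons, SimpleGraph.Walk.support_nil, List.mem_cons,
    List.not_mem_nil, or_false] at hv
  rcases hv with rfl | rfl | rfl | rfl | rfl
  · exact haS
  · exact hxS
  · exact hcS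
  · exact hyS
  · exact hbS

/-- A subgraph that is a tree and contains all terminals uses a point of every terminal. -/
lemma hits (T : inc.Subgraph) (hT : T.coe.IsTree) (hA : (↑AA : Set Vx) ⊆ T.verts) (s : Term) :
    ∃ x : Fin 7, x ∈ s.1 ∧ (Sum.inl x : Vx) ∈ T.verts := by
  obtain ⟨s', hs'⟩ : ∃ s' : Term, s' ≠ s := by
    have : Nontrivial Term := by
      rw [← Fintype.one_lt_card_iff_nontrivial, card_term]
      norm_num
    exact exists_ne s
  have hs : (Sum.inr s : Vx) ∈ T.verts := hA ((mem_AA _).2 ⟨s, rfl⟩)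
  have hs2 : (Sum.inr s' : Vx) ∈ T.verts := hA ((mem_AA _).2 ⟨s', rfl⟩)
  have hconn := hT.connected
  obtain ⟨p⟩ := hconn.preconnected ⟨Sum.inr s, hs⟩ ⟨Sum.inr s', hs2⟩
  have hne : (⟨Sum.inr s, hs⟩ : T.verts) ≠ ⟨Sum.inr s', hs2⟩ := by
    intro he
    have h1 := congrArg Subtype.val he
    exact hs' (Sum.inr_injective h1).symm
  obtain ⟨v, h, q, -⟩ := p.exists_eq_cons_of_ne hne
  have hadj : T.Adj (Sum.inr s) v.1 := h
  have hadj' : inc.Adj (Sum.inr s) v.1 := T.adj_sub hadj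
  obtain ⟨v, hv⟩ := v
  rcases v with x | s2
  · exact ⟨x, hadj', hv⟩
  · exact (hadj').elim

theorem result :
    ¬ (∀ t k : ℕ, 5 ≤ t → 2 ≤ k →
      (∀ (V : Type) [Fintype V] (G : SimpleGraph V) (A : Finset V),
        A.card = t →
        (∀ a ∈ A, ∀ b ∈ A, ¬ G.Adj a b) →
        (∀ a ∈ A, ∀ b ∈ A, a ≠ b → ∀ S : Finset V, a ∉ S → b ∉ S → S.card < k →
          ∃ p : G.Walk a b, ∀ v ∈ p.support, v ∉ S) →
        ∃ T : Fin ((t * k + 1) / 2 / (t - 1)) → G.Subgraph,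
          (∀ i, (T i).coe.IsTree ∧ (↑A : Set V) ⊆ (T i).verts ∧
            ∀ v ∈ (T i).verts, ((T i).neighborSet v).ncard = 1 → v ∈ A) ∧
          (∀ i j, i ≠ j → (T i).verts ∩ (T j).verts ⊆ (↑A : Set V))) ∧
      (∃ (V : Type) (_ : Fintype V) (G : SimpleGraph V) (A : Finset V),
        A.card = t ∧
        (∀ a ∈ A, ∀ b ∈ A, ¬ G.Adj a b) ∧
        (∀ a ∈ A, ∀ b ∈ A, a ≠ b → ∀ S : Finset V, a ∉ S → b ∉ S → S.card < k →
          ∃ p : G.Walk a b, ∀ v ∈ p.support, v ∉ S) ∧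
        ¬ ∃ T : Fin ((t * k + 1) / 2 / (t - 1) + 1) → G.Subgraph,
          (∀ i, (T i).coe.IsTree ∧ (↑A : Set V) ⊆ (T i).verts ∧
            ∀ v ∈ (T i).verts, ((T i).neighborSet v).ncard = 1 → v ∈ A) ∧
          (∀ i j, i ≠ j → (T i).verts ∩ (T j).verts ⊆ (↑A : Set V)))) := by
  intro H
  obtain ⟨T, hT1, hT2⟩ := (H 35 4 (by norm_num) (by norm_num)).1 Vx inc AA card_AA indep conn
  have i0 : (0 : ℕ) < (35 * 4 + 1) / 2 / (35 - 1) := by norm_num
  have i1 : (1 : ℕ) < (35 * 4 + 1) / 2 / (35 - 1) := by norm_num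
  obtain ⟨t0, a0, -⟩ := hT1 ⟨0, i0⟩
  obtain ⟨t1, a1, -⟩ := hT1 ⟨1, i1⟩
  have hdis := hT2 ⟨0, i0⟩ ⟨1, i1⟩ (by simp)
  classical
  set X : Finset (Fin 7) := Finset.univ.filter (fun x => (Sum.inl x : Vx) ∈ (T ⟨0, i0⟩).verts) with hX
  have hXor : 4 ≤ X.card ∨ 4 ≤ Xᶜ.card := by
    have := Finset.card_compl_add_card X
    simp only [Fintype.card_fin] at this
    omega
  rcases hXor with h | h
  · obtain ⟨s, hsX, hs4⟩ := Finset.exists_subset_card_eq h
    obtain ⟨x, hx, hx1⟩ := hits _ t1 a1 ⟨s, hs4⟩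
    have hx0 : (Sum.inl x : Vx) ∈ (T ⟨0, i0⟩).verts := by
      have := hsX hx
      rw [hX, Finset.mem_filter] at this
      exact this.2
    have : (Sum.inl x : Vx) ∈ (↑AA : Set Vx) := hdis ⟨hx0, hx1⟩
    obtain ⟨s, hs⟩ := (mem_AA _).1 this
    exact absurd hs (by simp)
  · obtain ⟨s, hsX, hs4⟩ := Finset.exists_subset_card_eq h
    obtain ⟨x, hx, hx0⟩ := hits _ t0 a0 ⟨s, hs4⟩
    have := hsX hx
    rw [Finset.mem_compl, hX, Finset.mem_filter] at this
    exact this ⟨Finset.mem_univ _, hx0⟩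

end Pool.Agent.S04818
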