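import Pool.Statements.S04834
import Pool.Agent.H817R2.C20G

set_option autoImplicit false
open Pool Pool.MP_0cffd2_co

namespace Pool.Agent.S04834

open Finset Pool.Agent.H817R2.C20

/-- positions of ones, inside `Fin 21` -/
def base (x : Fin 20 → Bool) : Finset (Fin 21) :=
  (univ.filter fun i => x i = true).map Fin.castSuccEmb

/-- extension by a parity bit -/
def ext (x : Fin 20 → Bool) : Finset (Fin 21) :=
  if Even (base x).card then base x else insert (Fin.last 20) (base x)

lemma last_notMem (x : Fin 20 → Bool) : Fin.last 20 ∉ base x := by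
  unfold base
  simp only [mem_map, mem_filter, mem_univ, true_and, not_exists, not_and]
  intro i _ h
  exact absurd h (Fin.castSucc_lt_last i).ne

lemma ext_even (x : Fin 20 → Bool) : Even (ext x).card := by
  unfold ext
  split_ifs with h
  · exact h
  · rw [card_insert_of_notMem (last_notMem x)]
    rw [Nat.not_even_iff_odd] at h
    exact h.add_one

lemma mem_ext (x : Fin 20 → Bool) (i : Fin 20) : i.castSucc ∈ ext x ↔ x i = true := by
  have hb : i.castSucc ∈ base x ↔ x i = true := by
    unfold base
    simp only [mem_map, mem_filter, mem_univ, true_and]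
    constructor
    · rintro ⟨j, hj, hji⟩
      have : j = i := Fin.castSucc_injective 20 hji
      rw [← this]; exact hj
    · intro h
      exact ⟨i, h, rfl⟩
  unfold ext
  split_ifs with h
  · exact hb
  · rw [mem_insert, hb]
    constructor
    · rintro (h | h)
      · exact absurd h (Fin.castSucc_lt_last i).ne
      · exact h
    · exact fun h => Or.inr h

lemma dist_ext (x y : Fin 20 → Bool) : hammingDist x y ≤ (symmDiff (ext x) (ext y)).card := by
  have h1 : ((univ.filter fun i => x i ≠ y i).map Fin.castSuccEmb) ⊆ symmDiff (ext x) (ext y) := by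
    intro j hj
    rw [mem_map] at hj
    obtain ⟨i, hi, rfl⟩ := hj
    rw [mem_filter] at hi
    have a := mem_ext x i
    have b := mem_ext y i
    rw [mem_symmDiff]
    change i.castSucc ∈ ext x ∧ i.castSucc ∉ ext y ∨ i.castSucc ∈ ext y ∧ i.castSucc ∉ ext x
    rw [a, b]
    have := hi.2
    revert this
    cases x i <;> cases y i <;> simp
  have h2 := card_le_card h1
  rw [card_map] at h2
  exact h2

lemma isCode (C : Finset (Fin 20 → Bool)) (h1 : C.card = 4096)
    (h2 : ∀ x ∈ C, ∀ y ∈ C, x ≠ y → 5 ≤ hammingDist x y) : IsCode (C.image ext) := by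
  have hinj : Set.InjOn ext (C : Set (Fin 20 → Bool)) := by
    intro x hx y hy hxy
    by_contra hne
    have a := h2 x hx y hy hne
    have b := dist_ext x y
    rw [hxy] at b
    simp at b
    rw [b] at a
    simp at a
  refine ⟨?_, ?_, ?_⟩
  · rw [card_image_of_injOn hinj, h1]
  · intro z hz
    rw [mem_image] at hz
    obtain ⟨x, _, rfl⟩ := hz
    exact ext_even x
  · intro z hz w hw hzw
    rw [mem_image] at hz hw
    obtain ⟨x, hx, rfl⟩ := hz
    obtain ⟨y, hy, rfl⟩ := hw
    have hne : x ≠ y := fun h => hzw (by rw [h])
    have a := h2 x hx y hy hne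
    have b := dist_ext x y
    have c := card_symm (ext x) (ext y)
    obtain ⟨p, hp⟩ := ext_even x
    obtain ⟨q, hq⟩ := ext_even y
    omega

/-- The negation of the preceding statement: There is a set of 4096 binary words of length 20 in which any two distinct words differ in at least 5 positions, i.e. A(20,5) ≥ 4096. -/
theorem result :
    ¬ (∃ C : Finset (Fin 20 → Bool), C.card = 4096 ∧
      ∀ x ∈ C, ∀ y ∈ C, x ≠ y → 5 ≤ hammingDist x y) := by
  rintro ⟨C, h1, h2⟩
  exact (isCode C h1 h2).false

end Pool.Agent.S04834
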