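import Pool.Statements.S04859
import Pool.Agent.H244R2.CvxE

set_option autoImplicit false
open Pool Pool.MP_0f6975_co

namespace Pool.Agent.S04859

/-- For points in strictly convex position in the plane and any pairwise distance t, if k distinct distances are at least t, then the graph joining vertices at distance at least t can be properly colored with 2k+1 colors. -/
theorem result :
    ∀ (n : ℕ) (p : Fin n → EuclideanSpace ℝ (Fin 2)),
      (∀ i : Fin n, p i ∉ convexHull ℝ (p '' {j : Fin n | j ≠ i})) →
      ∀ i j : Fin n, i ≠ j →
        (SimpleGraph.fromRel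
            (fun a b : Fin n => dist (p i) (p j) ≤ dist (p a) (p b))).Colorable
          (2 * ((Finset.univ.filter
                  (fun q : Fin n × Fin n =>
                    q.1 ≠ q.2 ∧ dist (p i) (p j) ≤ dist (p q.1) (p q.2))).image
                  (fun q : Fin n × Fin n => dist (p q.1) (p q.2))).card + 1) := by
  intro n p h i j hij
  refine Pool.Agent.H244R2.Cvx.colorable p h i j hij _ ?_ ?_
  · intro a b hab hle
    refine Finset.mem_image.2 ⟨(a, b), ?_, rfl⟩
    simp [hab, hle]
  · intro x hx
    obtain ⟨q, hq, rfl⟩ := Finset.mem_image.1 hx
    exact (Finset.mem_filter.1 hq).2.2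

end Pool.Agent.S04859
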