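import Pool.Statements.S04928
import Mathlib

/-!
# The positive square energy is not monotone under edge addition

`G`: vertices `u, v, w` and 24 further vertices, split into two classes of 12; `u` is joined to
the first class, `v` to the second class and `w` to everything in the two classes.  Its
characteristic polynomial is `x^23 (x^2 - 12) (x^2 - 36)`, so `s⁺(G) = 48`.  Adding the edge `uv`
gives the characteristic polynomial `x^22 (x - 3) (x + 4) (x^3 - x^2 - 36 x + 24)`, and
`s⁺(G + uv) = 9 + (73 - r^2) < 48`, where `r < -√34` is the negative root of the cubic.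
-/

set_option autoImplicit false
open Pool Pool.MP_13cbaf_co

namespace Pool.Agent.S04928

open Polynomial Matrix

abbrev V : Type := Fin 3 ⊕ Fin 24

/-- incidence between the three special vertices and the other ones -/
def inc (i : Fin 3) (j : Fin 24) : Bool :=
  if i = 2 then true else if i = 0 then decide (j.val < 12) else !decide (j.val < 12)

def adjB (c : Bool) : V → V → Bool
  | Sum.inl i, Sum.inl j => c && ((i == 0 && j == 1) || (i == 1 && j == 0))
  | Sum.inl i, Sum.inr j => inc i j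
  | Sum.inr j, Sum.inl i => inc i j
  | Sum.inr _, Sum.inr _ => false

theorem adjB_symm (c : Bool) (x y : V) (h : adjB c x y = true) : adjB c y x = true := by
  rcases x with x | x <;> rcases y with y | y
  · revert c x y; decide
  · exact h
  · exact h
  · exact h

theorem adjB_irrefl (c : Bool) (x : V) : ¬ adjB c x x = true := by
  rcases x with x | x
  · revert c x; decide
  · intro h; exact Bool.false_ne_true h

def GV (c : Bool) : SimpleGraph V where
  Adj x y := adjB c x y = true
  symm := ⟨fun x y h => adjB_symm c x y h⟩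
  loopless := ⟨fun x h => adjB_irrefl c x h⟩

instance (c : Bool) : DecidableRel (GV c).Adj := fun x y =>
  inferInstanceAs (Decidable (adjB c x y = true))

def e : Fin 27 ≃ V := (finSumFinEquiv (m := 3) (n := 24)).symm

def GF (c : Bool) : SimpleGraph (Fin 27) := (GV c).comap e

instance (c : Bool) : DecidableRel (GF c).Adj := fun x y =>
  inferInstanceAs (Decidable (adjB c (e x) (e y) = true))

def B : Matrix (Fin 3) (Fin 24) ℝ := fun i j => if inc i j then 1 else 0
def C3 (c : Bool) : Matrix (Fin 3) (Fin 3) ℝ :=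
  fun i j => if (c && ((i == 0 && j == 1) || (i == 1 && j == 0))) then 1 else 0

theorem adjMatrix_GV (c : Bool) : (GV c).adjMatrix ℝ = fromBlocks (C3 c) B Bᵀ 0 := by
  ext x y
  rcases x with x | x <;> rcases y with y | y
  · simp only [SimpleGraph.adjMatrix_apply, fromBlocks_apply₁₁, C3]; rfl
  · simp only [SimpleGraph.adjMatrix_apply, fromBlocks_apply₁₂, B]; rfl
  · simp only [SimpleGraph.adjMatrix_apply, fromBlocks_apply₂₁, B, transpose_apply]; rfl
  · simp only [SimpleGraph.adjMatrix_apply, fromBlocks_apply₂₂]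
    rw [if_neg]
    · rfl
    · intro h; exact Bool.false_ne_true h

theorem charpoly_GF (c : Bool) :
    ((GF c).adjMatrix ℝ).charpoly = (fromBlocks (C3 c) B Bᵀ 0).charpoly := by
  have : (GF c).adjMatrix ℝ = reindex e.symm e.symm ((GV c).adjMatrix ℝ) := by
    ext x y
    simp only [SimpleGraph.adjMatrix_apply, reindex_apply, submatrix_apply, Equiv.symm_symm]
    rfl
  rw [this, charpoly_reindex, adjMatrix_GV]

theorem key {m n : Type} [Fintype m] [DecidableEq m] [Fintype n] [DecidableEq n]
    (M : Matrix m m ℝ) (N : Matrix m n ℝ) :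
    (fromBlocks M N Nᵀ 0).charpoly * X ^ Fintype.card m =
      ((X : ℝ[X]) • charmatrix M - (N * Nᵀ).map C).det * X ^ Fintype.card n := by
  have h1 : (fromBlocks ((X : ℝ[X]) • (1 : Matrix m m ℝ[X])) 0
      (Nᵀ.map C) (1 : Matrix n n ℝ[X])).det = X ^ Fintype.card m := by
    rw [det_fromBlocks_zero₁₂, det_one, mul_one, det_smul, det_one, mul_one]
  have h2 : charmatrix (fromBlocks M N Nᵀ 0) *
      fromBlocks ((X : ℝ[X]) • (1 : Matrix m m ℝ[X])) 0
      (Nᵀ.map C) (1 : Matrix n n ℝ[X]) =
      fromBlocks ((X : ℝ[X]) • charmatrix M - (N * Nᵀ).map C) (-N.map C) 0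
        ((X : ℝ[X]) • (1 : Matrix n n ℝ[X])) := by
    have h0 : charmatrix (0 : Matrix n n ℝ) =
        (X : ℝ[X]) • (1 : Matrix n n ℝ[X]) := by
      rw [charmatrix]
      simp [smul_one_eq_diagonal]
    have h3 : (N * Nᵀ).map (C : ℝ →+* ℝ[X]) = N.map C * Nᵀ.map C := by
      rw [Matrix.map_mul]
    rw [charmatrix_fromBlocks, fromBlocks_multiply, h0, h3]
    congr 1
    · simp [sub_eq_add_neg]
    · simp
    · simp
    · simp
  rw [charpoly, ← h1, ← det_mul, h2, det_fromBlocks_zero₂₁, det_smul, det_one, mul_one]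

theorem gram_apply (i j : Fin 3) : (B * Bᵀ) i j =
    ((Finset.univ.filter (fun k => inc i k = true ∧ inc j k = true)).card : ℝ) := by
  rw [Matrix.mul_apply, Finset.card_filter, Nat.cast_sum]
  apply Finset.sum_congr rfl
  intro k _
  simp only [B, transpose_apply]
  by_cases h1 : inc i k = true <;> by_cases h2 : inc j k = true <;> simp [h1, h2]

def gr (i j : Fin 3) : ℕ := !![12, 0, 12; 0, 12, 12; 12, 12, 24] i j

theorem gram_nat : ∀ i j : Fin 3,
    (Finset.univ.filter (fun k => inc i k = true ∧ inc j k = true)).card = gr i j := by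
  decide +kernel

theorem gram : B * Bᵀ = !![12, 0, 12; 0, 12, 12; 12, 12, 24] := by
  ext i j
  rw [gram_apply, gram_nat]
  fin_cases i <;> fin_cases j <;> simp [gr]

theorem e12 : (C (12 : ℝ) : ℝ[X]) = 12 := map_ofNat C 12
theorem e24 : (C (24 : ℝ) : ℝ[X]) = 24 := map_ofNat C 24

theorem hdG : ((X : ℝ[X]) • charmatrix (C3 false) - (B * Bᵀ).map C).det =
      X ^ 2 * ((X ^ 2 - 12) * (X ^ 2 - 36)) := by
  rw [gram, det_fin_three]
  simp [C3, charmatrix]
  simp only [e12, e24]
  ring

theorem hdH : ((X : ℝ[X]) • charmatrix (C3 true) - (B * Bᵀ).map C).det =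
      X * ((X - 3) * ((X + 4) * (X ^ 3 - X ^ 2 - 36 * X + 24))) := by
  rw [gram, det_fin_three]
  simp [C3, charmatrix]
  simp only [e12, e24]
  ring

theorem cancel (P Q : ℝ[X]) (a b c : ℕ) (h : P * X ^ c = Q * X ^ a) (hb : a = b + c) :
    P = Q * X ^ b := by
  have hX : (X : ℝ[X]) ^ c ≠ 0 := pow_ne_zero _ X_ne_zero
  apply mul_right_cancel₀ hX
  rw [h, hb, pow_add, mul_assoc]

theorem key2 {m n : Type} [Fintype m] [DecidableEq m] [Fintype n] [DecidableEq n]
    (M : Matrix m m ℝ) (N : Matrix m n ℝ) (b : ℕ) (hb : Fintype.card n = b + Fintype.card m) :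
    (fromBlocks M N Nᵀ 0).charpoly =
      ((X : ℝ[X]) • charmatrix M - (N * Nᵀ).map C).det * X ^ b :=
  cancel _ _ _ _ _ (key M N) hb

theorem chG0 (c : Bool) : (fromBlocks (C3 c) B Bᵀ 0).charpoly =
    ((X : ℝ[X]) • charmatrix (C3 c) - (B * Bᵀ).map C).det * X ^ 21 :=
  key2 (C3 c) B 21 (by rw [Fintype.card_fin, Fintype.card_fin])

theorem chG : ((GF false).adjMatrix ℝ).charpoly = X ^ 23 * ((X ^ 2 - 12) * (X ^ 2 - 36)) := by
  rw [charpoly_GF, chG0, hdG]
  ring

theorem chH : ((GF true).adjMatrix ℝ).charpoly =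
    X ^ 22 * ((X - 3) * ((X + 4) * (X ^ 3 - X ^ 2 - 36 * X + 24))) := by
  rw [charpoly_GF, chG0, hdH]
  ring

theorem adj_iff (x y : V) : adjB true x y = true ↔ (adjB false x y = true ∨
    (x = Sum.inl 0 ∧ y = Sum.inl 1) ∨ (x = Sum.inl 1 ∧ y = Sum.inl 0)) := by
  rcases x with x | x <;> rcases y with y | y
  · revert x y; decide
  · simp [adjB]
  · simp [adjB]
  · simp [adjB]

/-- the sum in the statement, for a polynomial split over a multiset -/
theorem roots_of {P : ℝ[X]} (s : Multiset ℝ) (h : P = (s.map (fun a => X - C a)).prod) :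
    P.roots = s := by
  rw [h, roots_multiset_prod_X_sub_C]

noncomputable def sG : Multiset ℝ := Multiset.replicate 23 0 + {√12, -√12, 6, -6}

theorem rootsG : ((GF false).adjMatrix ℝ).charpoly.roots = sG := by
  apply roots_of
  rw [chG, sG, Multiset.map_add, Multiset.prod_add, Multiset.map_replicate,
    Multiset.prod_replicate, map_zero, sub_zero]
  refine congrArg (fun t => X ^ 23 * t) ?_
  have h : (C (√12) : ℝ[X]) * C (√12) = 12 := by
    rw [← map_mul, Real.mul_self_sqrt (by norm_num), e12]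
  have h6 : (C (6 : ℝ) : ℝ[X]) = 6 := map_ofNat C 6
  simp only [Multiset.insert_eq_cons, Multiset.map_cons, Multiset.map_singleton,
    Multiset.prod_cons, Multiset.prod_singleton, map_neg, h6]
  linear_combination (X ^ 2 - 36) * h

theorem sumG : ((((GF false).adjMatrix ℝ).charpoly.roots.filter (fun x : ℝ => 0 < x)).map
    (fun x : ℝ => x ^ 2)).sum = 48 := by
  rw [rootsG, sG, Multiset.filter_add]
  have h0 : (Multiset.replicate 23 (0 : ℝ)).filter (fun x : ℝ => 0 < x) = 0 := by
    rw [Multiset.filter_eq_nil]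
    intro a ha
    rw [Multiset.eq_of_mem_replicate ha]
    exact lt_irrefl 0
  have h1 : (0 : ℝ) < √12 := Real.sqrt_pos.2 (by norm_num)
  have h2 : ¬ ((0 : ℝ) < -√12) := by linarith
  have h3 : ¬ ((0 : ℝ) < -6) := by norm_num
  have h4 : (0 : ℝ) < 6 := by norm_num
  have h5 : (√12 : ℝ) ^ 2 = 12 := Real.sq_sqrt (by norm_num)
  rw [h0, zero_add]
  simp only [Multiset.insert_eq_cons]
  rw [Multiset.filter_cons_of_pos _ h1, Multiset.filter_cons_of_neg _ h2,
    Multiset.filter_cons_of_pos _ h4, Multiset.filter_singleton, if_neg h3]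
  simp [h5]
  norm_num

def f (x : ℝ) : ℝ := x ^ 3 - x ^ 2 - 36 * x + 24

theorem fcont : Continuous f := by unfold f; fun_prop

theorem ivt {a b : ℝ} (hab : a < b) (h : (f a < 0 ∧ 0 < f b) ∨ (0 < f a ∧ f b < 0)) :
    ∃ x, a < x ∧ x < b ∧ f x = 0 := by
  rcases h with ⟨h1, h2⟩ | ⟨h1, h2⟩
  · obtain ⟨x, hx, hx'⟩ := intermediate_value_Ioo hab.le fcont.continuousOn ⟨h1, h2⟩
    exact ⟨x, hx.1, hx.2, hx'⟩
  · obtain ⟨x, hx, hx'⟩ := intermediate_value_Ioo' hab.le fcont.continuousOn ⟨h2, h1⟩
    exact ⟨x, hx.1, hx.2, hx'⟩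

theorem cubic : ∃ p q r : ℝ, 0 < p ∧ 0 < q ∧ r < 0 ∧ 34 < r ^ 2 ∧
    p + q + r = 1 ∧ p * q + p * r + q * r = -36 ∧ p * q * r = -24 := by
  obtain ⟨q, hq0, hq1, hq⟩ := ivt (a := 0) (b := 1) (by norm_num)
    (Or.inr ⟨by norm_num [f], by norm_num [f]⟩)
  obtain ⟨p, hp0, hp1, hp⟩ := ivt (a := 6) (b := 7) (by norm_num)
    (Or.inl ⟨by norm_num [f], by norm_num [f]⟩)
  have hs : √34 ^ 2 = 34 := Real.sq_sqrt (by norm_num)
  have hs1 : (5.83 : ℝ) < √34 := by
    apply Real.lt_sqrt_of_sq_lt; norm_num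
  have hs2 : √34 < (5.84 : ℝ) := by
    rw [Real.sqrt_lt' (by norm_num)]; norm_num
  have hs3 : √34 ^ 3 = 34 * √34 := by rw [pow_succ, hs]
  obtain ⟨r, hr0, hr1, hr⟩ := ivt (a := -6) (b := -√34) (by linarith)
    (Or.inl ⟨by norm_num [f], by
      unfold f
      have : (-√34) ^ 3 - (-√34) ^ 2 - 36 * (-√34) + 24 = 2 * √34 - 10 := by
        linear_combination (-1 : ℝ) * hs3 - hs
      rw [this]; linarith⟩)
  refine ⟨p, q, r, by linarith, hq0, by linarith, ?_, ?_⟩
  · nlinarith
  · have hpq : p - q ≠ 0 := by intro h; linarith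
    have hpr : p - r ≠ 0 := by intro h; linarith
    have hqr : q - r ≠ 0 := by intro h; linarith
    unfold f at hp hq hr
    have h1 : p ^ 2 + p * q + q ^ 2 - (p + q) - 36 = 0 := by
      apply mul_left_cancel₀ hpq
      linear_combination hp - hq
    have h2 : p ^ 2 + p * r + r ^ 2 - (p + r) - 36 = 0 := by
      apply mul_left_cancel₀ hpr
      linear_combination hp - hr
    have h3 : p + q + r - 1 = 0 := by
      apply mul_left_cancel₀ hqr
      linear_combination h1 - h2
    have hr' : r = 1 - p - q := by linarith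
    subst hr'
    refine ⟨by ring, ?_, ?_⟩
    · linear_combination (-1 : ℝ) * h1
    · linear_combination hp - p * h1

def sH (p q r : ℝ) : Multiset ℝ := Multiset.replicate 22 0 + {3, -4, p, q, r}

theorem sumH : ((((GF true).adjMatrix ℝ).charpoly.roots.filter (fun x : ℝ => 0 < x)).map
    (fun x : ℝ => x ^ 2)).sum < 48 := by
  obtain ⟨p, q, r, hp, hq, hr, hr2, h1, h2, h3⟩ := cubic
  have hroots : ((GF true).adjMatrix ℝ).charpoly.roots = sH p q r := by
    apply roots_of
    rw [chH, sH, Multiset.map_add, Multiset.prod_add, Multiset.map_replicate,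
      Multiset.prod_replicate, map_zero, sub_zero]
    refine congrArg (fun t => X ^ 22 * t) ?_
    have h3' : (C (3 : ℝ) : ℝ[X]) = 3 := map_ofNat C 3
    have h4' : (C (4 : ℝ) : ℝ[X]) = 4 := map_ofNat C 4
    have h36' : (C (36 : ℝ) : ℝ[X]) = 36 := map_ofNat C 36
    have k1 : (C p + C q + C r : ℝ[X]) = 1 := by
      rw [← map_add, ← map_add, h1, map_one]
    have k2 : (C p * C q + C p * C r + C q * C r : ℝ[X]) = -36 := by
      rw [← map_mul, ← map_mul, ← map_mul, ← map_add, ← map_add, h2, map_neg, h36']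
    have k3 : (C p * C q * C r : ℝ[X]) = -24 := by
      rw [← map_mul, ← map_mul, h3, map_neg, e24]
    simp only [Multiset.insert_eq_cons, Multiset.map_cons, Multiset.map_singleton,
      Multiset.prod_cons, Multiset.prod_singleton, map_neg, h3', h4']
    linear_combination (X - 3) * (X + 4) * (X ^ 2 * k1 - X * k2 + k3)
  rw [hroots, sH, Multiset.filter_add]
  have h0 : (Multiset.replicate 22 (0 : ℝ)).filter (fun x : ℝ => 0 < x) = 0 := by
    rw [Multiset.filter_eq_nil]
    intro a ha
    rw [Multiset.eq_of_mem_replicate ha]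
    exact lt_irrefl 0
  have g1 : (0 : ℝ) < 3 := by norm_num
  have g2 : ¬ ((0 : ℝ) < -4) := by norm_num
  have g3 : ¬ (0 < r) := not_lt.2 hr.le
  rw [h0, zero_add]
  simp only [Multiset.insert_eq_cons]
  rw [Multiset.filter_cons_of_pos _ g1, Multiset.filter_cons_of_neg _ g2,
    Multiset.filter_cons_of_pos _ hp, Multiset.filter_cons_of_pos _ hq,
    Multiset.filter_singleton, if_neg g3]
  simp
  nlinarith

/-- The negation of the preceding statement: For every finite simple graph G and non-adjacent distinct vertices u,v, adding the edge uv does not decrease the sum of squares of the positive adjacency eigenvalues (counted with multiplicity). -/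
theorem result :
    ¬ (∀ (n : ℕ) (G H : SimpleGraph (Fin n)) [DecidableRel G.Adj] [DecidableRel H.Adj]
      (u v : Fin n), u ≠ v → ¬ G.Adj u v →
      (∀ a b : Fin n, H.Adj a b ↔ (G.Adj a b ∨ (a = u ∧ b = v) ∨ (a = v ∧ b = u))) →
      (((G.adjMatrix ℝ).charpoly.roots.filter (fun x : ℝ => 0 < x)).map
          (fun x : ℝ => x ^ 2)).sum ≤
      (((H.adjMatrix ℝ).charpoly.roots.filter (fun x : ℝ => 0 < x)).map
          (fun x : ℝ => x ^ 2)).sum) := by
  intro h
  have h1 := h 27 (GF false) (GF true) (e.symm (Sum.inl 0)) (e.symm (Sum.inl 1))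
    (by rw [Ne, e.symm.injective.eq_iff]; decide)
    (by
      show ¬ (adjB false (e (e.symm (Sum.inl 0))) (e (e.symm (Sum.inl 1))) = true)
      rw [Equiv.apply_symm_apply, Equiv.apply_symm_apply]
      decide)
    (by
      intro a b
      rw [Equiv.eq_symm_apply, Equiv.eq_symm_apply, Equiv.eq_symm_apply, Equiv.eq_symm_apply]
      exact adj_iff (e a) (e b))
  rw [sumG] at h1
  exact absurd h1 (not_le.2 sumH)

end Pool.Agent.S04928
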