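import Pool.Statements.S04972

set_option autoImplicit false
open Classical
open Pool Pool.MP_16a663_co

namespace Pool.Agent.S04972

abbrev E2 := EuclideanSpace ℝ (Fin 2)
abbrev V := Fin 6 → ℤ

/-- An integral linear form that does not vanish on finitely many given nonzero vectors. -/
lemma exists_generic (F : Finset V) (hF : ∀ t ∈ F, t ≠ 0) :
    ∃ z : V, ∀ t ∈ F, t ⬝ᵥ z ≠ 0 := by
  let p : V → Polynomial ℤ := fun t => ∑ i : Fin 6, Polynomial.C (t i) * Polynomial.X ^ (i : ℕ)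
  have hcoeff : ∀ (t : V) (j : Fin 6), (p t).coeff (j : ℕ) = t j := by
    intro t j
    simp only [p, Polynomial.finset_sum_coeff, Polynomial.coeff_C_mul, Polynomial.coeff_X_pow]
    rw [Finset.sum_eq_single j]
    · simp
    · intro b _ hb
      have : ¬ ((j : ℕ) = (b : ℕ)) := fun h => hb (Fin.ext h.symm)
      simp [this]
    · simp
  have hp : ∀ t ∈ F, p t ≠ 0 := by
    intro t ht h0
    apply hF t ht
    funext j
    rw [← hcoeff t j, h0]
    simp
  have hprod : ∏ t ∈ F, p t ≠ 0 := Finset.prod_ne_zero_iff.2 hp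
  have : ∃ r : ℤ, (∏ t ∈ F, p t).eval r ≠ 0 := by
    by_contra hcon
    push Not at hcon
    exact hprod (Polynomial.funext (fun r => by simpa using hcon r))
  obtain ⟨r, hr⟩ := this
  rw [Polynomial.eval_prod, Finset.prod_ne_zero_iff] at hr
  refine ⟨fun i => r ^ (i : ℕ), fun t ht => ?_⟩
  have := hr t ht
  simpa [p, Polynomial.eval_finset_sum, dotProduct] using this

/-- squared norm -/
def nsq (v : V) : ℤ := v ⬝ᵥ v

/-- four points of a sphere -/
lemma sphere_four {a b x y : V} {s : ℤ} (ha : nsq a = s) (hb : nsq b = s) (hx : nsq x = s)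
    (hy : nsq y = s) (hsum : a + b = x + y) (hab : a ≠ b) {α β : ℤ} (hβ : β ≠ 0)
    (hpar : α • (y - x) = β • (b - a)) : (a = x ∧ b = y) ∨ (a = y ∧ b = x) := by
  unfold nsq at ha hb hx hy
  have h1 : (a + b) ⬝ᵥ (a + b) = (x + y) ⬝ᵥ (x + y) := by rw [hsum]
  simp only [add_dotProduct, dotProduct_add] at h1
  have h2 : a ⬝ᵥ b = x ⬝ᵥ y := by
    rw [dotProduct_comm b a, dotProduct_comm y x] at h1
    linarith
  have h3 : (b - a) ⬝ᵥ (b - a) = (y - x) ⬝ᵥ (y - x) := by
    simp only [sub_dotProduct, dotProduct_sub]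
    rw [dotProduct_comm b a, dotProduct_comm y x]
    linarith
  have h4 : (α • (y - x)) ⬝ᵥ (α • (y - x)) = (β • (b - a)) ⬝ᵥ (β • (b - a)) := by rw [hpar]
  simp only [smul_dotProduct, dotProduct_smul, smul_eq_mul] at h4
  rw [← h3] at h4
  have hq : (b - a) ⬝ᵥ (b - a) ≠ 0 := by
    intro h
    rw [dotProduct_self_eq_zero] at h
    exact hab (sub_eq_zero.1 h).symm
  have h5 : α ^ 2 = β ^ 2 := by
    have : (α ^ 2 - β ^ 2) * ((b - a) ⬝ᵥ (b - a)) = 0 := by linarith
    rcases mul_eq_zero.1 this with h | h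
    · linarith
    · exact absurd h hq
  rcases sq_eq_sq_iff_eq_or_eq_neg.1 h5 with h | h
  · left
    subst h
    have h6 : y - x = b - a := by
      funext i
      have := congrFun hpar i
      simp only [Pi.smul_apply, smul_eq_mul] at this
      exact mul_left_cancel₀ hβ this
    constructor
    · funext i
      have e1 := congrFun hsum i
      have e2 := congrFun h6 i
      simp only [Pi.add_apply, Pi.sub_apply] at e1 e2
      omega
    · funext i
      have e1 := congrFun hsum i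
      have e2 := congrFun h6 i
      simp only [Pi.add_apply, Pi.sub_apply] at e1 e2
      omega
  · right
    subst h
    have h6 : y - x = -(b - a) := by
      funext i
      have := congrFun hpar i
      simp only [Pi.smul_apply, smul_eq_mul] at this
      simp only [Pi.neg_apply]
      apply mul_left_cancel₀ hβ
      linarith
    constructor
    · funext i
      have e1 := congrFun hsum i
      have e2 := congrFun h6 i
      simp only [Pi.add_apply, Pi.sub_apply, Pi.neg_apply] at e1 e2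
      omega
    · funext i
      have e1 := congrFun hsum i
      have e2 := congrFun h6 i
      simp only [Pi.add_apply, Pi.sub_apply, Pi.neg_apply] at e1 e2
      omega

/-- the projection to the plane -/
noncomputable def phi (r1 r2 : V) (η : ℝ) (v : V) : E2 := !₂[((v ⬝ᵥ r1 : ℤ) : ℝ), η * ((v ⬝ᵥ r2 : ℤ) : ℝ)]

/-- length of the projection of a vector -/
noncomputable def len (r1 r2 : V) (η : ℝ) (v : V) : ℝ :=
  Real.sqrt (((v ⬝ᵥ r1 : ℤ) : ℝ) ^ 2 + (η * ((v ⬝ᵥ r2 : ℤ) : ℝ)) ^ 2)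

lemma dist_phi (r1 r2 : V) (η : ℝ) (a b : V) :
    dist (phi r1 r2 η a) (phi r1 r2 η b) = len r1 r2 η (a - b) := by
  rw [EuclideanSpace.dist_eq]
  unfold len
  congr 1
  simp only [phi, Fin.sum_univ_two, Real.dist_eq, sq_abs, sub_dotProduct]
  simp
  ring

lemma bisector_coord {a b x y : E2} (h : AffineSubspace.perpBisector a b = AffineSubspace.perpBisector x y) :
    (a 0 + b 0 - x 0 - y 0) * (y 0 - x 0) + (a 1 + b 1 - x 1 - y 1) * (y 1 - x 1) = 0 ∧
    (b 0 - a 0) * (y 1 - x 1) - (b 1 - a 1) * (y 0 - x 0) = 0 := by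
  have key : ∀ t : ℝ, (!₂[(a 0 + b 0) / 2 + t * (a 1 - b 1), (a 1 + b 1) / 2 + t * (b 0 - a 0)] : E2) ∈
      AffineSubspace.perpBisector a b := by
    intro t
    rw [AffineSubspace.mem_perpBisector_iff_dist_eq, EuclideanSpace.dist_eq, EuclideanSpace.dist_eq]
    congr 1
    simp only [Fin.sum_univ_two, Real.dist_eq, sq_abs]
    simp
    ring
  rw [h] at key
  have key2 : ∀ t : ℝ, ((a 0 + b 0) / 2 + t * (a 1 - b 1) - x 0) ^ 2 + ((a 1 + b 1) / 2 + t * (b 0 - a 0) - x 1) ^ 2 =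
      ((a 0 + b 0) / 2 + t * (a 1 - b 1) - y 0) ^ 2 + ((a 1 + b 1) / 2 + t * (b 0 - a 0) - y 1) ^ 2 := by
    intro t
    have := key t
    rw [AffineSubspace.mem_perpBisector_iff_dist_eq, EuclideanSpace.dist_eq, EuclideanSpace.dist_eq,
      Real.sqrt_inj (by positivity) (by positivity)] at this
    simp only [Fin.sum_univ_two, Real.dist_eq, sq_abs] at this
    simpa using this
  have h0 := key2 0
  have h1 := key2 1
  constructor
  · linarith
  · linarith

lemma main_constr (M : ℕ) (hM : 0 < M) :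
    ∃ P : Finset E2, (M : ℝ) ^ 4 / 6 ≤ (P.card : ℝ) ∧
      (∀ a ∈ P, ∀ b ∈ P, ∀ x ∈ P, ∀ y ∈ P, a ≠ b → x ≠ y →
          AffineSubspace.perpBisector a b = AffineSubspace.perpBisector x y →
            (a = x ∧ b = y) ∨ (a = y ∧ b = x)) ∧
      ((P.offDiag.image (fun q => dist q.1 q.2)).card : ℝ) ≤ 64 * (M : ℝ) ^ 6 := by
  -- the box
  let box : Finset V := Fintype.piFinset (fun _ => Finset.Ico (0 : ℤ) M)
  have hbox : box.card = M ^ 6 := by
    simp [box]
  -- pigeonhole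
  have hmaps : ∀ a ∈ box, nsq a ∈ Finset.Ico (0 : ℤ) (6 * (M : ℤ) ^ 2) := by
    intro a ha
    simp only [box, Fintype.mem_piFinset, Finset.mem_Ico] at ha
    rw [Finset.mem_Ico]
    unfold nsq dotProduct
    constructor
    · exact Finset.sum_nonneg (fun i _ => mul_self_nonneg _)
    · calc ∑ i, a i * a i < ∑ i : Fin 6, (M : ℤ) ^ 2 := by
            apply Finset.sum_lt_sum_of_nonempty Finset.univ_nonempty
            intro i _
            have := ha i
            nlinarith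
        _ = 6 * (M : ℤ) ^ 2 := by simp
  have hMR : (0 : ℝ) < M := by exact_mod_cast hM
  obtain ⟨s, hs, hcard⟩ := Finset.exists_le_card_fiber_of_nsmul_le_card_of_maps_to (b := (M : ℝ) ^ 4 / 6) hmaps
    ⟨0, by rw [Finset.mem_Ico]; constructor; · exact le_refl _
           · positivity⟩ (by
      rw [hbox]
      simp only [Int.card_Ico, sub_zero, nsmul_eq_mul]
      have : ((6 * (M : ℤ) ^ 2).toNat : ℝ) = 6 * (M : ℝ) ^ 2 := by
        have h : (6 * (M : ℤ) ^ 2).toNat = 6 * M ^ 2 := by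
          have : (6 * (M : ℤ) ^ 2) = ((6 * M ^ 2 : ℕ) : ℤ) := by push_cast; ring
          rw [this, Int.toNat_natCast]
        rw [h]; push_cast; ring
      rw [this]
      push_cast
      apply le_of_eq
      field_simp)
  set S : Finset V := {a ∈ box | nsq a = s} with hS
  have hSmem : ∀ a ∈ S, (∀ i, 0 ≤ a i ∧ a i < M) ∧ nsq a = s := by
    intro a ha
    rw [hS, Finset.mem_filter] at ha
    refine ⟨?_, ha.2⟩
    intro i
    have := ha.1
    simp only [box, Fintype.mem_piFinset, Finset.mem_Ico] at this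
    exact this i
  -- the generic forms
  let F1 : Finset V := (((S ×ˢ S) ×ˢ (S ×ˢ S)).image (fun q => q.1.1 + q.1.2 - q.2.1 - q.2.2)).filter (fun v => v ≠ 0)
  obtain ⟨r1, hr1⟩ := exists_generic F1 (fun t ht => (Finset.mem_filter.1 ht).2)
  let F2 : Finset V := ((F1 ×ˢ F1).image (fun q => (q.1 ⬝ᵥ r1) • q.2 - (q.2 ⬝ᵥ r1) • q.1)).filter (fun v => v ≠ 0)
  obtain ⟨r2, hr2⟩ := exists_generic F2 (fun t ht => (Finset.mem_filter.1 ht).2)
  have hF1 : ∀ a ∈ S, ∀ b ∈ S, ∀ x ∈ S, ∀ y ∈ S, a + b - x - y ≠ 0 → a + b - x - y ∈ F1 := by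
    intro a ha b hb x hx y hy h
    simp only [F1, Finset.mem_filter, Finset.mem_image]
    refine ⟨⟨((a, b), (x, y)), ?_, rfl⟩, h⟩
    simp [ha, hb, hx, hy]
  have hF1' : ∀ a ∈ S, ∀ b ∈ S, a ≠ b → b - a ∈ F1 := by
    intro a ha b hb h
    have := hF1 b hb a ha a ha a ha (by
      intro h'
      apply h
      have : b - a = 0 := by rw [← h']; abel
      exact (sub_eq_zero.1 this).symm)
    have h2 : b + a - a - a = b - a := by abel
    rwa [h2] at this
  obtain ⟨K, hK⟩ : ∃ K : ℕ, ∀ v ∈ F1, |((v ⬝ᵥ r2 : ℤ) : ℝ)| ≤ K := by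
    refine ⟨F1.sup (fun v => (v ⬝ᵥ r2).natAbs), fun v hv => ?_⟩
    have := Finset.le_sup (f := fun v => (v ⬝ᵥ r2).natAbs) hv
    have h2 : |((v ⬝ᵥ r2 : ℤ) : ℝ)| = ((v ⬝ᵥ r2).natAbs : ℝ) := by
      rw [Nat.cast_natAbs, Int.cast_abs]
    rw [h2]
    exact_mod_cast this
  set η : ℝ := 1 / ((K : ℝ) + 1) with hη
  have hηpos : 0 < η := by positivity
  have hηsmall : ∀ w ∈ F1, ∀ v ∈ F1, |(η * ((w ⬝ᵥ r2 : ℤ) : ℝ)) * (η * ((v ⬝ᵥ r2 : ℤ) : ℝ))| < 1 := by
    intro w hw v hv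
    have h1 : ∀ v ∈ F1, |η * ((v ⬝ᵥ r2 : ℤ) : ℝ)| < 1 := by
      intro v hv
      rw [abs_mul, abs_of_pos hηpos, hη, one_div, inv_mul_lt_iff₀ (by positivity)]
      have := hK v hv
      linarith
    rw [abs_mul]
    calc |η * ((w ⬝ᵥ r2 : ℤ) : ℝ)| * |η * ((v ⬝ᵥ r2 : ℤ) : ℝ)| < 1 * 1 :=
          mul_lt_mul'' (h1 w hw) (h1 v hv) (abs_nonneg _) (abs_nonneg _)
      _ = 1 := one_mul 1
  have hinj : Set.InjOn (phi r1 r2 η) (S : Set V) := by
    intro a ha b hb h
    by_contra hne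
    have h0 := congrFun (congrArg WithLp.ofLp h) 0
    simp [phi] at h0
    have := hr1 _ (hF1' a ha b hb hne)
    apply this
    rw [sub_dotProduct]
    omega
  refine ⟨S.image (phi r1 r2 η), ?_, ?_, ?_⟩
  · rw [Finset.card_image_of_injOn hinj]
    exact hcard
  · intro a' ha' b' hb' x' hx' y' hy' hab hxy hbis
    rw [Finset.mem_image] at ha' hb' hx' hy'
    obtain ⟨a, ha, rfl⟩ := ha'
    obtain ⟨b, hb, rfl⟩ := hb'
    obtain ⟨x, hx, rfl⟩ := hx'
    obtain ⟨y, hy, rfl⟩ := hy'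
    have hab' : a ≠ b := fun h => hab (by rw [h])
    have hxy' : x ≠ y := fun h => hxy (by rw [h])
    obtain ⟨e1, e2⟩ := bisector_coord hbis
    simp only [phi] at e1 e2
    simp at e1 e2
    have hv := hF1' x hx y hy hxy'
    have hu := hF1' a ha b hb hab'
    -- first: same midpoint
    have hmid : a + b - x - y = 0 := by
      by_contra hne
      have hw := hF1 a ha b hb x hx y hy hne
      have hsm := hηsmall _ hw _ hv
      have n1 := hr1 _ hw
      have n2 := hr1 _ hv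
      have hint : 1 ≤ |(a + b - x - y) ⬝ᵥ r1 * ((y - x) ⬝ᵥ r1)| :=
        Int.one_le_abs (mul_ne_zero n1 n2)
      have hintR : (1 : ℝ) ≤ |(((a + b - x - y) ⬝ᵥ r1 : ℤ) : ℝ) * (((y - x) ⬝ᵥ r1 : ℤ) : ℝ)| := by
        exact_mod_cast hint
      have heq : (((a + b - x - y) ⬝ᵥ r1 : ℤ) : ℝ) * (((y - x) ⬝ᵥ r1 : ℤ) : ℝ) =
          - ((η * (((a + b - x - y) ⬝ᵥ r2 : ℤ) : ℝ)) * (η * (((y - x) ⬝ᵥ r2 : ℤ) : ℝ))) := by
        simp only [sub_dotProduct, add_dotProduct]
        push_cast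
        linarith
      rw [heq, abs_neg] at hintR
      linarith
    have hsum : a + b = x + y := by
      have : a + b - (x + y) = 0 := by rw [← hmid]; abel
      exact sub_eq_zero.1 this
    -- second: parallel
    have hpar : ((b - a) ⬝ᵥ r1) • (y - x) - ((y - x) ⬝ᵥ r1) • (b - a) = 0 := by
      by_contra hne
      have hmem : ((b - a) ⬝ᵥ r1) • (y - x) - ((y - x) ⬝ᵥ r1) • (b - a) ∈ F2 := by
        simp only [F2, Finset.mem_filter, Finset.mem_image]
        refine ⟨⟨(b - a, y - x), ?_, rfl⟩, hne⟩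
        simp [hu, hv]
      apply hr2 _ hmem
      rw [sub_dotProduct, smul_dotProduct, smul_dotProduct, smul_eq_mul, smul_eq_mul]
      have : ((((b - a) ⬝ᵥ r1) * ((y - x) ⬝ᵥ r2) - ((y - x) ⬝ᵥ r1) * ((b - a) ⬝ᵥ r2) : ℤ) : ℝ) = 0 := by
        simp only [sub_dotProduct]
        push_cast
        have h3 : η * (((((b ⬝ᵥ r1 : ℤ) : ℝ) - ((a ⬝ᵥ r1 : ℤ) : ℝ)) * (((y ⬝ᵥ r2 : ℤ) : ℝ) - ((x ⬝ᵥ r2 : ℤ) : ℝ))) -
          ((((y ⬝ᵥ r1 : ℤ) : ℝ) - ((x ⬝ᵥ r1 : ℤ) : ℝ)) * (((b ⬝ᵥ r2 : ℤ) : ℝ) - ((a ⬝ᵥ r2 : ℤ) : ℝ)))) = 0 := by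
          linarith
        rcases mul_eq_zero.1 h3 with h | h
        · exact absurd h hηpos.ne'
        · linarith
      exact_mod_cast this
    have := sphere_four (hSmem a ha).2 (hSmem b hb).2 (hSmem x hx).2 (hSmem y hy).2 hsum hab'
      (hr1 _ hv) (sub_eq_zero.1 hpar)
    rcases this with ⟨h1, h2⟩ | ⟨h1, h2⟩
    · left; rw [h1, h2]; exact ⟨rfl, rfl⟩
    · right; rw [h1, h2]; exact ⟨rfl, rfl⟩
  · let dbox : Finset V := Fintype.piFinset (fun _ => Finset.Ico (-(M : ℤ)) M)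
    have hdbox : dbox.card = (2 * M) ^ 6 := by
      have : ((M : ℤ) + M).toNat = 2 * M := by omega
      simp [dbox, this]
    have hsub : ((S.image (phi r1 r2 η)).offDiag.image (fun q => dist q.1 q.2)) ⊆ dbox.image (len r1 r2 η) := by
      intro d hd
      rw [Finset.mem_image] at hd
      obtain ⟨⟨p, q⟩, hpq, rfl⟩ := hd
      rw [Finset.mem_offDiag] at hpq
      obtain ⟨hp, hq, _⟩ := hpq
      rw [Finset.mem_image] at hp hq
      obtain ⟨a, ha, hpa⟩ := hp
      obtain ⟨b, hb, hqb⟩ := hq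
      simp only at hpa hqb ⊢
      rw [← hpa, ← hqb, dist_phi, Finset.mem_image]
      refine ⟨a - b, ?_, rfl⟩
      simp only [dbox, Fintype.mem_piFinset, Finset.mem_Ico, Pi.sub_apply]
      intro i
      have h1 := (hSmem a ha).1 i
      have h2 := (hSmem b hb).1 i
      omega
    have h1 := (Finset.card_le_card hsub).trans Finset.card_image_le
    rw [hdbox] at h1
    calc (((S.image (phi r1 r2 η)).offDiag.image (fun q => dist q.1 q.2)).card : ℝ) ≤ (((2 * M) ^ 6 : ℕ) : ℝ) := by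
          exact_mod_cast h1
      _ = 64 * (M : ℝ) ^ 6 := by push_cast; ring

/-- The negation of the preceding statement: For every ε>0 there are c>0 and N such that every set of n≥N plane points in which distinct pairs have distinct perpendicular bisectors determines at least c·n^(2−ε) distinct distances. -/
theorem result :
    ¬ (∀ ε : ℝ, 0 < ε → ∃ c : ℝ, 0 < c ∧ ∃ N : ℕ,
      ∀ P : Finset (EuclideanSpace ℝ (Fin 2)), N ≤ P.card →
        (∀ a ∈ P, ∀ b ∈ P, ∀ x ∈ P, ∀ y ∈ P, a ≠ b → x ≠ y →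
          AffineSubspace.perpBisector a b = AffineSubspace.perpBisector x y →
            (a = x ∧ b = y) ∨ (a = y ∧ b = x)) →
        c * (P.card : ℝ) ^ (2 - ε) ≤
          ((P.offDiag.image (fun q => dist q.1 q.2)).card : ℝ)) := by
  intro h
  obtain ⟨c, hc, N, hN⟩ := h (1 / 4) (by norm_num)
  obtain ⟨M, hMgt⟩ := exists_nat_gt (max (2304 / c) (6 * N + 1))
  have hM1 : 2304 / c < M := lt_of_le_of_lt (le_max_left _ _) hMgt
  have hM2 : (6 : ℝ) * N + 1 < M := lt_of_le_of_lt (le_max_right _ _) hMgt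
  have hMone : (1 : ℝ) < M := by
    have : (0 : ℝ) ≤ N := Nat.cast_nonneg N
    linarith
  have hMpos : 0 < M := by
    have : (0 : ℝ) < M := by linarith
    exact_mod_cast this
  obtain ⟨P, hcard, hbis, hdist⟩ := main_constr M hMpos
  have hM0 : (0 : ℝ) < M := by linarith
  have hNP : N ≤ P.card := by
    have h1 : (M : ℝ) ≤ (M : ℝ) ^ 4 := le_self_pow₀ hMone.le (by norm_num)
    have h2 : (N : ℝ) ≤ P.card := by linarith
    exact_mod_cast h2
  have h1 := (hN P hNP hbis).trans hdist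
  have h2 : ((M : ℝ) ^ 4 / 6) ^ (2 - 1 / 4 : ℝ) ≤ (P.card : ℝ) ^ (2 - 1 / 4 : ℝ) :=
    Real.rpow_le_rpow (by positivity) hcard (by norm_num)
  have h3 : (M : ℝ) ^ 7 / 36 ≤ ((M : ℝ) ^ 4 / 6) ^ (2 - 1 / 4 : ℝ) := by
    rw [Real.div_rpow (by positivity) (by norm_num)]
    have e1 : ((M : ℝ) ^ 4) ^ (2 - 1 / 4 : ℝ) = (M : ℝ) ^ 7 := by
      rw [← Real.rpow_natCast, ← Real.rpow_natCast, ← Real.rpow_mul hM0.le]
      norm_num
    have e2 : (6 : ℝ) ^ (2 - 1 / 4 : ℝ) ≤ 36 := by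
      calc (6 : ℝ) ^ (2 - 1 / 4 : ℝ) ≤ (6 : ℝ) ^ (2 : ℝ) :=
            Real.rpow_le_rpow_of_exponent_le (by norm_num) (by norm_num)
        _ = 36 := by norm_num
    rw [e1]
    apply div_le_div_of_nonneg_left (by positivity) (by positivity) e2
  have h4 : c * ((M : ℝ) ^ 7 / 36) ≤ 64 * (M : ℝ) ^ 6 :=
    le_trans (mul_le_mul_of_nonneg_left (h3.trans h2) hc.le) h1
  have h5 : 2304 < M * c := by
    rwa [div_lt_iff₀ hc] at hM1
  have h6 : (0 : ℝ) < (M : ℝ) ^ 6 := by positivity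
  nlinarith

end Pool.Agent.S04972
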