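import Pool.Statements.S04990
import Pool.Agent.H197R2.N24G

set_option autoImplicit false
open Pool Pool.MP_172fec_co

namespace Pool.Agent.S04990

/-- The negation of the preceding statement: For every prime p and n ≥ 1, the number of equivalence classes of central (p^n,p^n,p^n,1) relative difference sets, taken over all central extensions of Z_p^n by Z_p^n (the forbidden subgroup), is a power of p. -/
theorem result :
    ¬ (∀ (p : ℕ), p.Prime → ∀ (n : ℕ), 1 ≤ n →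
  ∃ k : ℕ, Nat.card {S : Set (((Fin n → ZMod p) → (Fin n → ZMod p) → (Fin n → ZMod p)) × Finset ((Fin n → ZMod p) × (Fin n → ZMod p))) |
    ∃ x : ((Fin n → ZMod p) → (Fin n → ZMod p) → (Fin n → ZMod p)) × Finset ((Fin n → ZMod p) × (Fin n → ZMod p)),
      (x.1 0 0 = 0 ∧
        (∀ g h l : Fin n → ZMod p, x.1 g h + x.1 (g + h) l = x.1 h l + x.1 g (h + l)) ∧
        x.2.card = p ^ n ∧
        (∀ e : (Fin n → ZMod p) × (Fin n → ZMod p), e ≠ 0 →
          (e.1 = 0 → {s | s ∈ x.2 ∧ (e.1 + s.1, e.2 + s.2 + x.1 e.1 s.1) ∈ x.2}.ncard = 0) ∧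
          (e.1 ≠ 0 → {s | s ∈ x.2 ∧ (e.1 + s.1, e.2 + s.2 + x.1 e.1 s.1) ∈ x.2}.ncard = 1))) ∧
      S = {y | (y.1 0 0 = 0 ∧
        (∀ g h l : Fin n → ZMod p, y.1 g h + y.1 (g + h) l = y.1 h l + y.1 g (h + l)) ∧
        y.2.card = p ^ n ∧
        (∀ e : (Fin n → ZMod p) × (Fin n → ZMod p), e ≠ 0 →
          (e.1 = 0 → {s | s ∈ y.2 ∧ (e.1 + s.1, e.2 + s.2 + y.1 e.1 s.1) ∈ y.2}.ncard = 0) ∧
          (e.1 ≠ 0 → {s | s ∈ y.2 ∧ (e.1 + s.1, e.2 + s.2 + y.1 e.1 s.1) ∈ y.2}.ncard = 1))) ∧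
        ∃ f : (Fin n → ZMod p) × (Fin n → ZMod p) ≃ (Fin n → ZMod p) × (Fin n → ZMod p),
          (∀ a b : (Fin n → ZMod p) × (Fin n → ZMod p),
            f (a.1 + b.1, a.2 + b.2 + x.1 a.1 b.1) =
              ((f a).1 + (f b).1, (f a).2 + (f b).2 + y.1 (f a).1 (f b).1)) ∧
          (∀ c : Fin n → ZMod p, (f (0, c)).1 = 0) ∧
          ∃ g : (Fin n → ZMod p) × (Fin n → ZMod p),
            ∀ z : (Fin n → ZMod p) × (Fin n → ZMod p),
              (∃ r ∈ x.2, f r = z) ↔ (∃ r ∈ y.2, z = (r.1 + g.1, r.2 + g.2 + y.1 r.1 g.1))}} = p ^ k) := by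
  intro h
  obtain ⟨k, hk⟩ := h 2 Nat.prime_two 4 (by norm_num)
  exact H197N24.not_pow k hk

end Pool.Agent.S04990
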