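import Pool.Statements.S05030
-- import your own Pool.Agent.* helpers here

set_option autoImplicit false
open Pool Pool.MP_1aa63f_co

namespace Pool.Agent.S05030

/-- the vertex sets of the tournaments -/
def V : ℕ → Type
  | 0 => Unit
  | n + 1 => V n × Bool

instance instFV : ∀ n, Fintype (V n)
  | 0 => inferInstanceAs (Fintype Unit)
  | n + 1 => by
      have := instFV n
      exact inferInstanceAs (Fintype (V n × Bool))

instance instDV : ∀ n, DecidableEq (V n)
  | 0 => inferInstanceAs (DecidableEq Unit)
  | n + 1 => by
      have := instDV n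
      exact inferInstanceAs (DecidableEq (V n × Bool))

theorem card_V : ∀ n, Fintype.card (V n) = 2 ^ n
  | 0 => rfl
  | n + 1 => by
      have h : Fintype.card (V (n + 1)) = Fintype.card (V n × Bool) := rfl
      rw [h, Fintype.card_prod, card_V n, Fintype.card_bool, pow_succ]

/-- the parity class of a vertex -/
def par : (n : ℕ) → V n → Bool
  | 0, _ => false
  | _ + 1, a => a.2

/-- the arcs of the tournaments -/
def arc : (n : ℕ) → V n → V n → Prop
  | 0, _, _ => False
  | n + 1, a, b => (a.2 = b.2 ∧ arc n a.1 b.1) ∨
      (a.2 = false ∧ b.2 = true ∧ par n a.1 = par n b.1) ∨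
      (a.2 = true ∧ b.2 = false ∧ par n a.1 ≠ par n b.1)

theorem arc_irr : ∀ (n : ℕ) (a : V n), ¬ arc n a a
  | 0, _ => fun h => h
  | n + 1, (a, e) => by
      rintro (⟨-, h⟩ | ⟨h1, h2, -⟩ | ⟨h1, h2, -⟩)
      · exact arc_irr n a h
      · rw [h1] at h2; cases h2
      · rw [h1] at h2; cases h2

theorem arc_tour : ∀ (n : ℕ) (a b : V n), a ≠ b → (arc n a b ↔ ¬ arc n b a)
  | 0, (), () => fun h => absurd rfl h
  | n + 1, (a, e), (b, d) => by
      intro hne
      have ih := arc_tour n a b
      cases e <;> cases d
      · have hab : a ≠ b := fun h => hne (by rw [h])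
        simp only [arc, true_and, Bool.false_eq_true, false_and, or_false, and_false]
        exact ih hab
      · simp only [arc, Bool.false_eq_true, false_and, true_and, false_or, or_false,
          Bool.true_eq_false]
        constructor
        · intro h h2; exact h2 h.symm
        · intro h; by_contra h3; exact h fun h4 => h3 h4.symm
      · simp only [arc, Bool.false_eq_true, false_and, true_and, false_or, or_false,
          Bool.true_eq_false]
        constructor
        · intro h h2; exact h h2.symm
        · intro h h3; exact h h3.symm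
      · have hab : a ≠ b := fun h => hne (by rw [h])
        simp only [arc, true_and, Bool.true_eq_false, false_and, or_false, and_false]
        exact ih hab

/-- the bijection between the cards -/
def sg : (n : ℕ) → V n ≃ V n
  | 0 => Equiv.refl _
  | n + 1 => Equiv.prodCongr (sg n) Equiv.boolNot

theorem card_iso : ∀ (n : ℕ) (k : V n), ∃ φ : V n ≃ V n, φ k = sg n k ∧
    (∀ a b, a ≠ k → b ≠ k → (arc n a b ↔ arc n (φ a) (φ b))) ∧
    ∀ a, a ≠ k → par n (φ a) = !par n a
  | 0, () => ⟨Equiv.refl _, rfl, fun a _ h => absurd rfl h, fun a h => absurd rfl h⟩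
  | n + 1, (c, e) => by
      obtain ⟨φ, h1, h2, h3⟩ := card_iso n c
      let f : V n × Bool → V n × Bool := fun a => if a.2 = e then (φ a.1, !a.2) else (a.1, !a.2)
      let g : V n × Bool → V n × Bool := fun a =>
        if a.2 = !e then (φ.symm a.1, !a.2) else (a.1, !a.2)
      let ψ : V n × Bool ≃ V n × Bool :=
        { toFun := f
          invFun := g
          left_inv := by
            rintro ⟨a, d⟩
            by_cases hd : d = e
            · simp [f, g, hd]
            · have : ¬ (!d) = !e := by simpa using hd
              simp [f, g, hd]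
          right_inv := by
            rintro ⟨a, d⟩
            by_cases hd : d = !e
            · simp [f, g, hd]
            · have : ¬ (!d) = e := by
                intro h; apply hd; rw [← h]; simp
              simp [f, g, hd, this] }
      refine ⟨ψ, ?_, ?_, ?_⟩
      · show f (c, e) = (sg n c, !e)
        simp [f, h1]
      · rintro ⟨a, d⟩ ⟨b, d'⟩ ha hb
        show arc (n + 1) (a, d) (b, d') ↔ arc (n + 1) (f (a, d)) (f (b, d'))
        by_cases hd : d = e
        · have hac : a ≠ c := fun h => ha (by rw [h, hd])
          by_cases hd' : d' = e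
          · have hbc : b ≠ c := fun h => hb (by rw [h, hd'])
            have := h2 a b hac hbc
            subst hd; subst hd'
            simp only [f, if_true, arc, true_and]
            cases d' <;> simp [this]
          · have e1 : f (a, d) = (φ a, !d) := by simp [f, hd]
            have e2 : f (b, d') = (b, !d') := by simp [f, hd']
            rw [e1, e2]
            have hp := h3 a hac
            cases d <;> cases d' <;> cases e <;>
              (try exact absurd rfl hd') <;> (try (exfalso; revert hd; decide))
            all_goals
              simp only [arc, hp, Bool.not_false, Bool.not_true, Bool.false_eq_true, false_and,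
                true_and, false_or, or_false, Bool.true_eq_false]
              cases par n a <;> cases par n b <;> simp
        · by_cases hd' : d' = e
          · have hbc : b ≠ c := fun h => hb (by rw [h, hd'])
            have e1 : f (a, d) = (a, !d) := by simp [f, hd]
            have e2 : f (b, d') = (φ b, !d') := by simp [f, hd']
            rw [e1, e2]
            have hp := h3 b hbc
            cases d <;> cases d' <;> cases e <;>
              (try exact absurd rfl hd) <;> (try (exfalso; revert hd'; decide))
            all_goals
              simp only [arc, hp, Bool.not_false, Bool.not_true, Bool.false_eq_true, false_and,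
                true_and, false_or, or_false, Bool.true_eq_false]
              cases par n a <;> cases par n b <;> simp
          · have hdd : d = d' := by
              cases d <;> cases d' <;> cases e <;> simp_all
            subst hdd
            have e1 : f (a, d) = (a, !d) := by simp [f, hd]
            have e2 : f (b, d) = (b, !d) := by simp [f, hd]
            rw [e1, e2]
            simp only [arc, true_and]
            cases d <;> simp
      · rintro ⟨a, d⟩ ha
        show (f (a, d)).2 = !d
        by_cases hd : d = e <;> simp [f, hd]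

/-- the digraphs: the source vertex `none` dominates the vertices of parity `p` -/
def DD (n : ℕ) (p : Bool) : Option (V n) → Option (V n) → Prop
  | some a, some b => arc n a b
  | none, some b => par n b = p
  | _, none => False

theorem exists_par (n : ℕ) (hn : 1 ≤ n) (p : Bool) : ∃ b : V n, par n b = p := by
  obtain ⟨m, rfl⟩ : ∃ m, n = m + 1 := ⟨n - 1, by omega⟩
  have hne : Nonempty (V m) := by
    apply Fintype.card_pos_iff.1
    rw [card_V]; positivity
  obtain ⟨a⟩ := hne
  exact ⟨(a, p), rfl⟩

theorem exists_in (n : ℕ) (hn : 2 ≤ n) (a : V n) : ∃ b : V n, arc n b a := by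
  obtain ⟨m, rfl⟩ : ∃ m, n = m + 1 := ⟨n - 1, by omega⟩
  obtain ⟨c, d⟩ := a
  cases d
  · obtain ⟨b, hb⟩ := exists_par m (by omega) (!par m c)
    refine ⟨(b, true), ?_⟩
    right; right
    refine ⟨rfl, rfl, ?_⟩
    show par m b ≠ par m c
    rw [hb]; simp
  · obtain ⟨b, hb⟩ := exists_par m (by omega) (par m c)
    exact ⟨(b, false), Or.inr (Or.inl ⟨rfl, rfl, hb⟩)⟩

/-- a tournament automorphism cannot swap the parities -/
theorem no_swap (n : ℕ) (g : Equiv.Perm (V n)) (h1 : ∀ a b, arc n a b ↔ arc n (g a) (g b))
    (h2 : ∀ a, par n (g a) = !par n a) : False := by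
  have hpow : ∀ (m : ℕ) (a b : V n), arc n a b ↔ arc n ((g ^ m) a) ((g ^ m) b) := by
    intro m
    induction m with
    | zero => intro a b; simp
    | succ m ih =>
      intro a b
      rw [pow_succ', Equiv.Perm.mul_apply, Equiv.Perm.mul_apply, ← h1]
      exact ih a b
  have hpar : ∀ (m : ℕ) (a : V n), par n ((g ^ m) a) = xor (par n a) (decide (m % 2 = 1)) := by
    intro m
    induction m with
    | zero => intro a; simp
    | succ m ih =>
      intro a
      rw [pow_succ', Equiv.Perm.mul_apply, h2, ih]
      rcases Nat.mod_two_eq_zero_or_one m with h | h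
      · have h' : (m + 1) % 2 = 1 := by omega
        simp [h, h']
      · have h' : (m + 1) % 2 = 0 := by omega
        simp [h, h']
  have hne : Nonempty (V n) := by
    apply Fintype.card_pos_iff.1
    rw [card_V]; positivity
  obtain ⟨a0⟩ := hne
  have hev : orderOf g % 2 = 0 := by
    by_contra hodd
    have h := hpar (orderOf g) a0
    have h' : orderOf g % 2 = 1 := by omega
    rw [pow_orderOf_eq_one] at h
    simp [h'] at h
  have hpos : 0 < orderOf g := orderOf_pos g
  obtain ⟨j, hj⟩ : ∃ j, orderOf g = 2 * j := ⟨orderOf g / 2, by omega⟩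
  have hj1 : g ^ j ≠ 1 := pow_ne_one_of_lt_orderOf (by omega) (by omega)
  obtain ⟨a, ha⟩ : ∃ a, (g ^ j) a ≠ a := by
    by_contra hcon
    push Not at hcon
    exact hj1 (Equiv.ext hcon)
  have hh : (g ^ j) ((g ^ j) a) = a := by
    rw [← Equiv.Perm.mul_apply, ← pow_add, ← two_mul, ← hj, pow_orderOf_eq_one]
    rfl
  have h3 := hpow j a ((g ^ j) a)
  rw [hh] at h3
  have h4 := arc_tour n a ((g ^ j) a) ha.symm
  tauto

theorem not_iso (n : ℕ) (hn : 2 ≤ n) (f : Option (V n) ≃ Option (V n))
    (hf : ∀ a b, DD n true a b ↔ DD n false (f a) (f b)) : False := by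
  have h0 : f none = none := by
    rcases h : f.symm none with _ | a
    · exact (f.symm_apply_eq.1 h).symm
    · exfalso
      obtain ⟨b, hb⟩ := exists_in n hn a
      have h1 : f (some a) = none := by rw [← h]; simp
      have h2 := (hf (some b) (some a)).1 hb
      rw [h1] at h2
      generalize f (some b) = z at h2
      cases z <;> exact h2
  have h1 : ∀ a, ∃ b, f (some a) = some b := by
    intro a
    rcases h : f (some a) with _ | b
    · exfalso
      have := f.injective (h.trans h0.symm)
      cases this
    · exact ⟨b, rfl⟩
  choose g hg using h1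
  have hginj : Function.Injective g := by
    intro a b hab
    have : f (some a) = f (some b) := by rw [hg, hg, hab]
    exact Option.some_injective _ (f.injective this)
  have hgbij : Function.Bijective g := Finite.injective_iff_bijective.1 hginj
  refine no_swap n (Equiv.ofBijective g hgbij) ?_ ?_
  · intro a b
    have := hf (some a) (some b)
    rw [hg, hg] at this
    exact this
  · intro a
    have := hf none (some a)
    rw [h0, hg] at this
    have h2 : par n a = true ↔ par n (g a) = false := this
    show par n (g a) = !par n a
    cases h3 : par n a <;> cases h4 : par n (g a) <;> simp_all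

/-- The negation of the preceding statement: There is N such that for all n ≥ N, every loopless digraph on n vertices that is not strongly connected is isomorphic to every loopless digraph with the same deck, i.e. one admitting a vertex bijection matching each vertex-deleted subdigraph up to isomorphism. -/
theorem result :
    ¬ (∃ N : ℕ, ∀ n : ℕ, N ≤ n → ∀ D D' : Digraph (Fin n),
      (∀ v, ¬ D.Adj v v) → (∀ v, ¬ D'.Adj v v) →
      (¬ ∀ u w : Fin n, Relation.ReflTransGen D.Adj u w) →
      (∃ σ : Fin n ≃ Fin n, ∀ v : Fin n,
        ∃ e : {w : Fin n // w ≠ v} ≃ {w : Fin n // w ≠ σ v},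
          ∀ a b : {w : Fin n // w ≠ v}, D.Adj a.1 b.1 ↔ D'.Adj (e a).1 (e b).1) →
      ∃ f : Fin n ≃ Fin n, ∀ a b : Fin n, D.Adj a b ↔ D'.Adj (f a) (f b)) := by
  rintro ⟨N, hN⟩
  obtain ⟨n, hn2, hnN⟩ : ∃ n, 2 ≤ n ∧ N ≤ 2 ^ n + 1 := by
    refine ⟨N + 2, by omega, ?_⟩
    have := Nat.lt_two_pow_self (n := N + 2)
    omega
  have hcard : Fintype.card (Option (V n)) = 2 ^ n + 1 := by
    rw [Fintype.card_option, card_V]
  let t : Option (V n) ≃ Fin (2 ^ n + 1) := Fintype.equivFinOfCardEq hcard
  let D : Bool → Digraph (Fin (2 ^ n + 1)) := fun p => ⟨fun u w => DD n p (t.symm u) (t.symm w)⟩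
  have hloop : ∀ p v, ¬ (D p).Adj v v := by
    intro p v h
    change DD n p (t.symm v) (t.symm v) at h
    rcases h2 : t.symm v with _ | a
    · rw [h2] at h; exact h
    · rw [h2] at h; exact arc_irr n a h
  have hstr : ¬ ∀ u w : Fin (2 ^ n + 1), Relation.ReflTransGen (D true).Adj u w := by
    intro h
    obtain ⟨b, -⟩ := exists_par n (by omega) true
    rcases (h (t (some b)) (t none)).cases_tail with h1 | ⟨c, -, h1⟩
    · have := t.injective h1
      cases this
    · change DD n true (t.symm c) (t.symm (t none)) at h1
      rw [Equiv.symm_apply_apply] at h1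
      generalize t.symm c = z at h1
      cases z <;> exact h1
  have hdeck : ∀ v : Option (V n), ∃ ψ : Option (V n) ≃ Option (V n),
      ψ v = (sg n).optionCongr v ∧
      ∀ a b, a ≠ v → b ≠ v → (DD n true a b ↔ DD n false (ψ a) (ψ b)) := by
    rintro (_ | k)
    · refine ⟨Equiv.refl _, rfl, ?_⟩
      rintro (_ | a) (_ | b) ha hb
      · exact absurd rfl ha
      · exact absurd rfl ha
      · exact absurd rfl hb
      · exact Iff.rfl
    · obtain ⟨φ, h1, h2, h3⟩ := card_iso n k
      refine ⟨φ.optionCongr, ?_, ?_⟩
      · show some (φ k) = some (sg n k)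
        rw [h1]
      · rintro (_ | a) (_ | b) ha hb
        · exact Iff.rfl
        · have hbk : b ≠ k := fun h => hb (by rw [h])
          show par n b = true ↔ par n (φ b) = false
          rw [h3 b hbk]
          cases par n b <;> simp
        · exact Iff.rfl
        · have hak : a ≠ k := fun h => ha (by rw [h])
          have hbk : b ≠ k := fun h => hb (by rw [h])
          exact h2 a b hak hbk
  obtain ⟨f, hf⟩ := hN (2 ^ n + 1) hnN (D true) (D false) (hloop true) (hloop false) hstr (by
    refine ⟨(t.symm.trans ((sg n).optionCongr)).trans t, ?_⟩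
    intro v
    obtain ⟨ψ, h1, h2⟩ := hdeck (t.symm v)
    let ψ' : Fin (2 ^ n + 1) ≃ Fin (2 ^ n + 1) := (t.symm.trans ψ).trans t
    have hψ' : ψ' v = ((t.symm.trans ((sg n).optionCongr)).trans t) v := by
      show t (ψ (t.symm v)) = t ((sg n).optionCongr (t.symm v))
      rw [h1]
    refine ⟨ψ'.subtypeEquiv (fun w => ?_), ?_⟩
    · rw [← hψ']
      exact (ψ'.injective.ne_iff).symm
    · rintro ⟨a, ha⟩ ⟨b, hb⟩
      show DD n true (t.symm a) (t.symm b) ↔
        DD n false (t.symm (t (ψ (t.symm a)))) (t.symm (t (ψ (t.symm b))))
      rw [Equiv.symm_apply_apply, Equiv.symm_apply_apply]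
      exact h2 _ _ (fun h => ha (t.symm.injective h)) (fun h => hb (t.symm.injective h)))
  refine not_iso n hn2 ((t.trans f).trans t.symm) ?_
  intro a b
  have := hf (t a) (t b)
  change DD n true (t.symm (t a)) (t.symm (t b)) ↔
    DD n false (t.symm (f (t a))) (t.symm (f (t b))) at this
  rw [Equiv.symm_apply_apply, Equiv.symm_apply_apply] at this
  exact this

end Pool.Agent.S05030
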