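import Pool.Statements.S05042

set_option autoImplicit false
open Sym2
open Pool Pool.MP_1b5659_co

namespace Pool.Agent.S05042

def ga : Fin 15 → Fin 8 := ![0, 0, 0, 0, 1, 2, 3, 4, 0, 0, 0, 1, 5, 6, 7]

def gb : Fin 15 → Fin 8 := ![1, 2, 3, 4, 2, 3, 4, 1, 5, 6, 7, 5, 6, 7, 1]

def ha : Fin 15 → Fin 8 := ![0, 0, 0, 0, 1, 2, 3, 4, 1, 1, 1, 0, 5, 6, 7]

def hb : Fin 15 → Fin 8 := ![1, 2, 3, 4, 2, 3, 4, 1, 5, 6, 7, 5, 6, 7, 0]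

def pz : Fin 8 → Fin 2 → ℤ := ![![-2, 0], ![0, 1], ![1, -1], ![-2, 2], ![0, -2], ![2, -1], ![-1, -1], ![-1, 0]]

/-- The rows chosen after deleting row `j`. -/

def sel : Fin 15 → Fin 13 → Fin 15 := ![
  ![2, 3, 4, 5, 6, 7, 8, 9, 10, 11, 12, 13, 14],
  ![0, 2, 3, 4, 5, 6, 7, 8, 10, 11, 12, 13, 14],
  ![0, 1, 3, 4, 5, 6, 7, 8, 10, 11, 12, 13, 14],
  ![0, 1, 2, 4, 5, 6, 7, 8, 10, 11, 12, 13, 14],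
  ![0, 1, 2, 3, 5, 6, 7, 8, 10, 11, 12, 13, 14],
  ![0, 1, 2, 3, 4, 6, 7, 8, 10, 11, 12, 13, 14],
  ![0, 1, 2, 3, 4, 5, 7, 8, 10, 11, 12, 13, 14],
  ![0, 1, 2, 3, 4, 5, 6, 8, 10, 11, 12, 13, 14],
  ![0, 2, 3, 4, 5, 6, 7, 9, 10, 11, 12, 13, 14],
  ![0, 2, 3, 4, 5, 6, 7, 8, 10, 11, 12, 13, 14],
  ![0, 2, 3, 4, 5, 6, 7, 8, 9, 11, 12, 13, 14],
  ![0, 2, 3, 4, 5, 6, 7, 8, 9, 10, 12, 13, 14],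
  ![0, 2, 3, 4, 5, 6, 7, 8, 9, 10, 11, 13, 14],
  ![0, 2, 3, 4, 5, 6, 7, 8, 9, 10, 11, 12, 14],
  ![0, 2, 3, 4, 5, 6, 7, 8, 9, 10, 11, 12, 13]]

def cst : Fin 15 → ℤ := ![12, 6, 30, 30, 12, 30, 30, 30, 6, 6, 6, 6, 6, 6, 6]

def rr : Fin 15 → Fin 8 → Fin 2 → Fin 13 → ℤ := ![
  ![![![0, 0, 0, 0, 0, 0, 0, 0, 0, 0, 0, 0, 0], ![0, 0, 0, 0, 0, 0, 0, 0, 0, 0, 0, 0, 0]],
    ![![0, 0, 0, 0, 0, 0, 0, 0, 0, 0, 0, 0, 0], ![0, 0, 0, 0, 0, 0, 6, -18, 18, -3, -6, 18, 18]],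
    ![![12, 12, -12, 8, -12, 8, 0, 0, 0, 0, 0, 0, 0], ![6, 6, -12, 4, -6, 4, 6, -18, 18, -3, -6, 18, 18]],
    ![![12, 6, 0, 0, -6, 4, -6, 18, -18, 3, 6, -18, -18], ![6, 0, 0, 0, 0, 0, 0, 0, 0, 0, 0, 0, 0]],
    ![![0, 6, 0, 0, 0, -4, 6, -18, 18, -3, -6, 18, 18], ![0, 0, 0, 0, 0, -4, 6, -18, 18, -3, -6, 18, 18]],
    ![![0, 0, 0, 0, 0, 0, 6, -6, 6, -3, -2, 6, 6], ![0, 0, 0, 0, 0, 0, 12, -24, 24, -12, -8, 24, 24]],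
    ![![0, 0, 0, 0, 0, 0, 6, -6, 6, -3, -6, 6, 6], ![0, 0, 0, 0, 0, 0, 6, -18, 6, -3, -6, 6, 6]],
    ![![0, 0, 0, 0, 0, 0, 0, 0, 12, 0, 0, 0, 0], ![0, 0, 0, 0, 0, 0, 6, -18, 6, -3, -6, 18, 6]]],
  ![![![0, 0, 0, 0, 0, 0, 0, 0, 0, 0, 0, 0, 0], ![0, 0, 0, 0, 0, 0, 0, 0, 0, 0, 0, 0, 0]],
    ![![0, 0, 0, 0, 0, 0, 0, 0, 0, 0, 0, 0, 0], ![6, 0, 0, 0, 0, 0, 0, 0, 0, 0, 0, 0, 0]],
    ![![0, 6, 6, -6, 4, -6, 4, 0, 0, 0, 0, 0, 0], ![6, 3, 3, -6, 2, -3, 2, 0, 0, 0, 0, 0, 0]],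
    ![![-6, 6, 3, 0, 0, -3, 2, 0, 0, 0, 0, 0, 0], ![0, 3, 0, 0, 0, 0, 0, 0, 0, 0, 0, 0, 0]],
    ![![6, 0, 3, 0, 0, 0, -2, 0, 0, 0, 0, 0, 0], ![6, 0, 0, 0, 0, 0, -2, 0, 0, 0, 0, 0, 0]],
    ![![2, 0, 0, 0, 0, 0, 0, 2, 0, -1, 0, 0, 0], ![8, 0, 0, 0, 0, 0, 0, 2, 0, -4, 0, 0, 0]],
    ![![2, 0, 0, 0, 0, 0, 0, 2, 0, -1, -2, 0, 0], ![6, 0, 0, 0, 0, 0, 0, 0, -6, 0, 0, -6, -6]],
    ![![0, 0, 0, 0, 0, 0, 0, 0, 6, 0, 0, 0, 0], ![6, 0, 0, 0, 0, 0, 0, 0, -6, 0, 0, 0, -6]]],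
  ![![![0, 0, 0, 0, 0, 0, 0, 0, 0, 0, 0, 0, 0], ![0, 0, 0, 0, 0, 0, 0, 0, 0, 0, 0, 0, 0]],
    ![![0, 0, 0, 0, 0, 0, 0, 0, 0, 0, 0, 0, 0], ![30, 0, 0, 0, 0, 0, 0, 0, 0, 0, 0, 0, 0]],
    ![![12, 12, 0, -6, 0, 0, 0, 0, 0, 0, 0, 0, 0], ![36, 6, 0, -18, 0, 0, 0, 0, 0, 0, 0, 0, 0]],
    ![![-18, 12, -15, 24, -20, 15, -10, 0, 0, 0, 0, 0, 0], ![6, 6, -15, 12, -10, 15, -10, 0, 0, 0, 0, 0, 0]],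
    ![![30, 0, 15, 0, 0, 0, -10, 0, 0, 0, 0, 0, 0], ![30, 0, 0, 0, 0, 0, -10, 0, 0, 0, 0, 0, 0]],
    ![![10, 0, 0, 0, 0, 0, 0, 10, 0, -5, 0, 0, 0], ![40, 0, 0, 0, 0, 0, 0, 10, 0, -20, 0, 0, 0]],
    ![![10, 0, 0, 0, 0, 0, 0, 10, 0, -5, -10, 0, 0], ![30, 0, 0, 0, 0, 0, 0, 0, -30, 0, 0, -30, -30]],
    ![![0, 0, 0, 0, 0, 0, 0, 0, 30, 0, 0, 0, 0], ![30, 0, 0, 0, 0, 0, 0, 0, -30, 0, 0, 0, -30]]],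
  ![![![0, 0, 0, 0, 0, 0, 0, 0, 0, 0, 0, 0, 0], ![0, 0, 0, 0, 0, 0, 0, 0, 0, 0, 0, 0, 0]],
    ![![0, 0, 0, 0, 0, 0, 0, 0, 0, 0, 0, 0, 0], ![30, 0, 0, 0, 0, 0, 0, 0, 0, 0, 0, 0, 0]],
    ![![12, 12, 0, -6, 0, 0, 0, 0, 0, 0, 0, 0, 0], ![36, 6, 0, -18, 0, 0, 0, 0, 0, 0, 0, 0, 0]],
    ![![-24, 6, 15, 12, -10, 0, 0, 0, 0, 0, 0, 0, 0], ![0, 0, 15, 0, 0, 0, 0, 0, 0, 0, 0, 0, 0]],
    ![![36, 6, -15, 12, -10, 15, -20, 0, 0, 0, 0, 0, 0], ![30, 0, 0, 0, 0, 0, -10, 0, 0, 0, 0, 0, 0]],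
    ![![10, 0, 0, 0, 0, 0, 0, 10, 0, -5, 0, 0, 0], ![40, 0, 0, 0, 0, 0, 0, 10, 0, -20, 0, 0, 0]],
    ![![10, 0, 0, 0, 0, 0, 0, 10, 0, -5, -10, 0, 0], ![30, 0, 0, 0, 0, 0, 0, 0, -30, 0, 0, -30, -30]],
    ![![0, 0, 0, 0, 0, 0, 0, 0, 30, 0, 0, 0, 0], ![30, 0, 0, 0, 0, 0, 0, 0, -30, 0, 0, 0, -30]]],
  ![![![0, 0, 0, 0, 0, 0, 0, 0, 0, 0, 0, 0, 0], ![0, 0, 0, 0, 0, 0, 0, 0, 0, 0, 0, 0, 0]],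
    ![![0, 0, 0, 0, 0, 0, 0, 0, 0, 0, 0, 0, 0], ![12, 0, 0, 0, 0, 0, 0, 0, 0, 0, 0, 0, 0]],
    ![![6, 6, -3, -3, -2, 3, -2, 0, 0, 0, 0, 0, 0], ![18, 6, -9, -9, -6, 9, -6, 0, 0, 0, 0, 0, 0]],
    ![![-12, 0, 12, 6, 0, -6, 4, 0, 0, 0, 0, 0, 0], ![0, 0, 6, 0, 0, 0, 0, 0, 0, 0, 0, 0, 0]],
    ![![12, 0, 0, 6, 0, 0, -4, 0, 0, 0, 0, 0, 0], ![12, 0, 0, 0, 0, 0, -4, 0, 0, 0, 0, 0, 0]],
    ![![4, 0, 0, 0, 0, 0, 0, 4, 0, -2, 0, 0, 0], ![16, 0, 0, 0, 0, 0, 0, 4, 0, -8, 0, 0, 0]],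
    ![![4, 0, 0, 0, 0, 0, 0, 4, 0, -2, -4, 0, 0], ![12, 0, 0, 0, 0, 0, 0, 0, -12, 0, 0, -12, -12]],
    ![![0, 0, 0, 0, 0, 0, 0, 0, 12, 0, 0, 0, 0], ![12, 0, 0, 0, 0, 0, 0, 0, -12, 0, 0, 0, -12]]],
  ![![![0, 0, 0, 0, 0, 0, 0, 0, 0, 0, 0, 0, 0], ![0, 0, 0, 0, 0, 0, 0, 0, 0, 0, 0, 0, 0]],
    ![![0, 0, 0, 0, 0, 0, 0, 0, 0, 0, 0, 0, 0], ![30, 0, 0, 0, 0, 0, 0, 0, 0, 0, 0, 0, 0]],
    ![![12, 12, 0, 0, -6, 0, 0, 0, 0, 0, 0, 0, 0], ![36, 6, 0, 0, -18, 0, 0, 0, 0, 0, 0, 0, 0]],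
    ![![-30, 0, 30, 15, 0, -15, 10, 0, 0, 0, 0, 0, 0], ![0, 0, 15, 0, 0, 0, 0, 0, 0, 0, 0, 0, 0]],
    ![![30, 0, 0, 15, 0, 0, -10, 0, 0, 0, 0, 0, 0], ![30, 0, 0, 0, 0, 0, -10, 0, 0, 0, 0, 0, 0]],
    ![![10, 0, 0, 0, 0, 0, 0, 10, 0, -5, 0, 0, 0], ![40, 0, 0, 0, 0, 0, 0, 10, 0, -20, 0, 0, 0]],
    ![![10, 0, 0, 0, 0, 0, 0, 10, 0, -5, -10, 0, 0], ![30, 0, 0, 0, 0, 0, 0, 0, -30, 0, 0, -30, -30]],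
    ![![0, 0, 0, 0, 0, 0, 0, 0, 30, 0, 0, 0, 0], ![30, 0, 0, 0, 0, 0, 0, 0, -30, 0, 0, 0, -30]]],
  ![![![0, 0, 0, 0, 0, 0, 0, 0, 0, 0, 0, 0, 0], ![0, 0, 0, 0, 0, 0, 0, 0, 0, 0, 0, 0, 0]],
    ![![0, 0, 0, 0, 0, 0, 0, 0, 0, 0, 0, 0, 0], ![30, 0, 0, 0, 0, 0, 0, 0, 0, 0, 0, 0, 0]],
    ![![12, 12, 0, 0, -6, 0, 0, 0, 0, 0, 0, 0, 0], ![36, 6, 0, 0, -18, 0, 0, 0, 0, 0, 0, 0, 0]],
    ![![-24, 6, 15, 0, 12, -10, 0, 0, 0, 0, 0, 0, 0], ![0, 0, 15, 0, 0, 0, 0, 0, 0, 0, 0, 0, 0]],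
    ![![30, 0, 0, 15, 0, 0, -10, 0, 0, 0, 0, 0, 0], ![30, 0, 0, 0, 0, 0, -10, 0, 0, 0, 0, 0, 0]],
    ![![10, 0, 0, 0, 0, 0, 0, 10, 0, -5, 0, 0, 0], ![40, 0, 0, 0, 0, 0, 0, 10, 0, -20, 0, 0, 0]],
    ![![10, 0, 0, 0, 0, 0, 0, 10, 0, -5, -10, 0, 0], ![30, 0, 0, 0, 0, 0, 0, 0, -30, 0, 0, -30, -30]],
    ![![0, 0, 0, 0, 0, 0, 0, 0, 30, 0, 0, 0, 0], ![30, 0, 0, 0, 0, 0, 0, 0, -30, 0, 0, 0, -30]]],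
  ![![![0, 0, 0, 0, 0, 0, 0, 0, 0, 0, 0, 0, 0], ![0, 0, 0, 0, 0, 0, 0, 0, 0, 0, 0, 0, 0]],
    ![![0, 0, 0, 0, 0, 0, 0, 0, 0, 0, 0, 0, 0], ![30, 0, 0, 0, 0, 0, 0, 0, 0, 0, 0, 0, 0]],
    ![![12, 12, 0, 0, -6, 0, 0, 0, 0, 0, 0, 0, 0], ![36, 6, 0, 0, -18, 0, 0, 0, 0, 0, 0, 0, 0]],
    ![![-24, 6, 15, 0, 12, -10, 0, 0, 0, 0, 0, 0, 0], ![0, 0, 15, 0, 0, 0, 0, 0, 0, 0, 0, 0, 0]],
    ![![24, -6, 15, 30, -12, 10, -15, 0, 0, 0, 0, 0, 0], ![24, -6, 15, 15, -12, 10, -15, 0, 0, 0, 0, 0, 0]],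
    ![![10, 0, 0, 0, 0, 0, 0, 10, 0, -5, 0, 0, 0], ![40, 0, 0, 0, 0, 0, 0, 10, 0, -20, 0, 0, 0]],
    ![![10, 0, 0, 0, 0, 0, 0, 10, 0, -5, -10, 0, 0], ![30, 0, 0, 0, 0, 0, 0, 0, -30, 0, 0, -30, -30]],
    ![![0, 0, 0, 0, 0, 0, 0, 0, 30, 0, 0, 0, 0], ![30, 0, 0, 0, 0, 0, 0, 0, -30, 0, 0, 0, -30]]],
  ![![![0, 0, 0, 0, 0, 0, 0, 0, 0, 0, 0, 0, 0], ![0, 0, 0, 0, 0, 0, 0, 0, 0, 0, 0, 0, 0]],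
    ![![0, 0, 0, 0, 0, 0, 0, 0, 0, 0, 0, 0, 0], ![6, 0, 0, 0, 0, 0, 0, 0, 0, 0, 0, 0, 0]],
    ![![0, 6, 6, -6, 4, -6, 4, 0, 0, 0, 0, 0, 0], ![6, 3, 3, -6, 2, -3, 2, 0, 0, 0, 0, 0, 0]],
    ![![-6, 6, 3, 0, 0, -3, 2, 0, 0, 0, 0, 0, 0], ![0, 3, 0, 0, 0, 0, 0, 0, 0, 0, 0, 0, 0]],
    ![![6, 0, 3, 0, 0, 0, -2, 0, 0, 0, 0, 0, 0], ![6, 0, 0, 0, 0, 0, -2, 0, 0, 0, 0, 0, 0]],
    ![![6, 0, 0, 0, 0, 0, 0, 6, -6, 0, 2, -6, -6], ![12, 0, 0, 0, 0, 0, 0, 6, -6, -3, 2, -6, -6]],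
    ![![6, 0, 0, 0, 0, 0, 0, 6, -6, 0, 0, -6, -6], ![6, 0, 0, 0, 0, 0, 0, 0, -6, 0, 0, -6, -6]],
    ![![0, 0, 0, 0, 0, 0, 0, 0, 6, 0, 0, 0, 0], ![6, 0, 0, 0, 0, 0, 0, 0, -6, 0, 0, 0, -6]]],
  ![![![0, 0, 0, 0, 0, 0, 0, 0, 0, 0, 0, 0, 0], ![0, 0, 0, 0, 0, 0, 0, 0, 0, 0, 0, 0, 0]],
    ![![0, 0, 0, 0, 0, 0, 0, 0, 0, 0, 0, 0, 0], ![6, 0, 0, 0, 0, 0, 0, 0, 0, 0, 0, 0, 0]],
    ![![0, 6, 6, -6, 4, -6, 4, 0, 0, 0, 0, 0, 0], ![6, 3, 3, -6, 2, -3, 2, 0, 0, 0, 0, 0, 0]],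
    ![![-6, 6, 3, 0, 0, -3, 2, 0, 0, 0, 0, 0, 0], ![0, 3, 0, 0, 0, 0, 0, 0, 0, 0, 0, 0, 0]],
    ![![6, 0, 3, 0, 0, 0, -2, 0, 0, 0, 0, 0, 0], ![6, 0, 0, 0, 0, 0, -2, 0, 0, 0, 0, 0, 0]],
    ![![2, 0, 0, 0, 0, 0, 0, 2, 0, -1, 0, 0, 0], ![8, 0, 0, 0, 0, 0, 0, 2, 0, -4, 0, 0, 0]],
    ![![2, 0, 0, 0, 0, 0, 0, 2, 0, -1, -2, 0, 0], ![6, 0, 0, 0, 0, 0, 0, 0, -6, 0, 0, -6, -6]],
    ![![0, 0, 0, 0, 0, 0, 0, 0, 6, 0, 0, 0, 0], ![6, 0, 0, 0, 0, 0, 0, 0, -6, 0, 0, 0, -6]]],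
  ![![![0, 0, 0, 0, 0, 0, 0, 0, 0, 0, 0, 0, 0], ![0, 0, 0, 0, 0, 0, 0, 0, 0, 0, 0, 0, 0]],
    ![![0, 0, 0, 0, 0, 0, 0, 0, 0, 0, 0, 0, 0], ![6, 0, 0, 0, 0, 0, 0, 0, 0, 0, 0, 0, 0]],
    ![![0, 6, 6, -6, 4, -6, 4, 0, 0, 0, 0, 0, 0], ![6, 3, 3, -6, 2, -3, 2, 0, 0, 0, 0, 0, 0]],
    ![![-6, 6, 3, 0, 0, -3, 2, 0, 0, 0, 0, 0, 0], ![0, 3, 0, 0, 0, 0, 0, 0, 0, 0, 0, 0, 0]],
    ![![6, 0, 3, 0, 0, 0, -2, 0, 0, 0, 0, 0, 0], ![6, 0, 0, 0, 0, 0, -2, 0, 0, 0, 0, 0, 0]],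
    ![![2, 0, 0, 0, 0, 0, 0, 2, 0, -1, 0, 0, 0], ![8, 0, 0, 0, 0, 0, 0, 2, 0, -4, 0, 0, 0]],
    ![![2, 0, 0, 0, 0, 0, 0, 2, 0, -1, -2, 0, 0], ![2, 0, 0, 0, 0, 0, 0, 2, -6, -1, -2, 0, 0]],
    ![![4, 0, 0, 0, 0, 0, 0, -2, 6, 1, 2, -6, -6], ![2, 0, 0, 0, 0, 0, 0, 2, -6, -1, -2, 6, 0]]],
  ![![![0, 0, 0, 0, 0, 0, 0, 0, 0, 0, 0, 0, 0], ![0, 0, 0, 0, 0, 0, 0, 0, 0, 0, 0, 0, 0]],
    ![![0, 0, 0, 0, 0, 0, 0, 0, 0, 0, 0, 0, 0], ![6, 0, 0, 0, 0, 0, 0, 0, 0, 0, 0, 0, 0]],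
    ![![0, 6, 6, -6, 4, -6, 4, 0, 0, 0, 0, 0, 0], ![6, 3, 3, -6, 2, -3, 2, 0, 0, 0, 0, 0, 0]],
    ![![-6, 6, 3, 0, 0, -3, 2, 0, 0, 0, 0, 0, 0], ![0, 3, 0, 0, 0, 0, 0, 0, 0, 0, 0, 0, 0]],
    ![![6, 0, 3, 0, 0, 0, -2, 0, 0, 0, 0, 0, 0], ![6, 0, 0, 0, 0, 0, -2, 0, 0, 0, 0, 0, 0]],
    ![![6, 0, 0, 0, 0, 0, 0, 0, 6, -6, 2, -6, -6], ![24, 0, 0, 0, 0, 0, 0, -6, 24, -24, 8, -24, -24]],
    ![![6, 0, 0, 0, 0, 0, 0, 0, 6, -6, 0, -6, -6], ![6, 0, 0, 0, 0, 0, 0, 0, 0, -6, 0, -6, -6]],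
    ![![0, 0, 0, 0, 0, 0, 0, 0, 0, 6, 0, 0, 0], ![6, 0, 0, 0, 0, 0, 0, 0, 0, -6, 0, 0, -6]]],
  ![![![0, 0, 0, 0, 0, 0, 0, 0, 0, 0, 0, 0, 0], ![0, 0, 0, 0, 0, 0, 0, 0, 0, 0, 0, 0, 0]],
    ![![0, 0, 0, 0, 0, 0, 0, 0, 0, 0, 0, 0, 0], ![6, 0, 0, 0, 0, 0, 0, 0, 0, 0, 0, 0, 0]],
    ![![0, 6, 6, -6, 4, -6, 4, 0, 0, 0, 0, 0, 0], ![6, 3, 3, -6, 2, -3, 2, 0, 0, 0, 0, 0, 0]],
    ![![-6, 6, 3, 0, 0, -3, 2, 0, 0, 0, 0, 0, 0], ![0, 3, 0, 0, 0, 0, 0, 0, 0, 0, 0, 0, 0]],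
    ![![6, 0, 3, 0, 0, 0, -2, 0, 0, 0, 0, 0, 0], ![6, 0, 0, 0, 0, 0, -2, 0, 0, 0, 0, 0, 0]],
    ![![2, 0, 0, 0, 0, 0, 0, 2, 0, 0, -1, 0, 0], ![8, 0, 0, 0, 0, 0, 0, 2, 0, 0, -4, 0, 0]],
    ![![6, 0, 0, 0, 0, 0, 0, 0, 6, -6, 0, -6, -6], ![6, 0, 0, 0, 0, 0, 0, 0, 0, -6, 0, -6, -6]],
    ![![0, 0, 0, 0, 0, 0, 0, 0, 0, 6, 0, 0, 0], ![6, 0, 0, 0, 0, 0, 0, 0, 0, -6, 0, 0, -6]]],
  ![![![0, 0, 0, 0, 0, 0, 0, 0, 0, 0, 0, 0, 0], ![0, 0, 0, 0, 0, 0, 0, 0, 0, 0, 0, 0, 0]],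
    ![![0, 0, 0, 0, 0, 0, 0, 0, 0, 0, 0, 0, 0], ![6, 0, 0, 0, 0, 0, 0, 0, 0, 0, 0, 0, 0]],
    ![![0, 6, 6, -6, 4, -6, 4, 0, 0, 0, 0, 0, 0], ![6, 3, 3, -6, 2, -3, 2, 0, 0, 0, 0, 0, 0]],
    ![![-6, 6, 3, 0, 0, -3, 2, 0, 0, 0, 0, 0, 0], ![0, 3, 0, 0, 0, 0, 0, 0, 0, 0, 0, 0, 0]],
    ![![6, 0, 3, 0, 0, 0, -2, 0, 0, 0, 0, 0, 0], ![6, 0, 0, 0, 0, 0, -2, 0, 0, 0, 0, 0, 0]],
    ![![2, 0, 0, 0, 0, 0, 0, 2, 0, 0, -1, 0, 0], ![8, 0, 0, 0, 0, 0, 0, 2, 0, 0, -4, 0, 0]],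
    ![![2, 0, 0, 0, 0, 0, 0, 2, 0, 0, -1, -2, 0], ![2, 0, 0, 0, 0, 0, 0, 2, -6, 0, -1, -2, 0]],
    ![![0, 0, 0, 0, 0, 0, 0, 0, 0, 6, 0, 0, 0], ![6, 0, 0, 0, 0, 0, 0, 0, 0, -6, 0, 0, -6]]],
  ![![![0, 0, 0, 0, 0, 0, 0, 0, 0, 0, 0, 0, 0], ![0, 0, 0, 0, 0, 0, 0, 0, 0, 0, 0, 0, 0]],
    ![![0, 0, 0, 0, 0, 0, 0, 0, 0, 0, 0, 0, 0], ![6, 0, 0, 0, 0, 0, 0, 0, 0, 0, 0, 0, 0]],
    ![![0, 6, 6, -6, 4, -6, 4, 0, 0, 0, 0, 0, 0], ![6, 3, 3, -6, 2, -3, 2, 0, 0, 0, 0, 0, 0]],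
    ![![-6, 6, 3, 0, 0, -3, 2, 0, 0, 0, 0, 0, 0], ![0, 3, 0, 0, 0, 0, 0, 0, 0, 0, 0, 0, 0]],
    ![![6, 0, 3, 0, 0, 0, -2, 0, 0, 0, 0, 0, 0], ![6, 0, 0, 0, 0, 0, -2, 0, 0, 0, 0, 0, 0]],
    ![![2, 0, 0, 0, 0, 0, 0, 2, 0, 0, -1, 0, 0], ![8, 0, 0, 0, 0, 0, 0, 2, 0, 0, -4, 0, 0]],
    ![![2, 0, 0, 0, 0, 0, 0, 2, 0, 0, -1, -2, 0], ![2, 0, 0, 0, 0, 0, 0, 2, -6, 0, -1, -2, 0]],
    ![![0, 0, 0, 0, 0, 0, 0, 0, 0, 6, 0, 0, 0], ![2, 0, 0, 0, 0, 0, 0, 2, -6, 0, -1, -2, 6]]]]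

/-- The integer rigidity matrix of `G` at `pz`. -/
def mz (i : Fin 15) (v : Fin 8) (c : Fin 2) : ℤ :=
  if v = ga i then pz (ga i) c - pz (gb i) c
  else if v = gb i then pz (gb i) c - pz (ga i) c else 0

theorem sel_ne : ∀ (j : Fin 15) (k : Fin 13), sel j k ≠ j := by decide +kernel

theorem cst_ne : ∀ j : Fin 15, cst j ≠ 0 := by decide +kernel

theorem cert : ∀ (j : Fin 15) (k l : Fin 13),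
    (∑ v : Fin 8, ∑ c : Fin 2, mz (sel j k) v c * rr j v c l) = if k = l then cst j else 0 := by
  decide +kernel

/-- The real configuration. -/
noncomputable def pr : Fin 8 → Fin 2 → ℝ := fun v c => (pz v c : ℝ)

theorem mr_eq (i : Fin 15) (y : Fin 8 × Fin 2) :
    (if y.1 = ga i then pr (ga i) y.2 - pr (gb i) y.2
      else if y.1 = gb i then pr (gb i) y.2 - pr (ga i) y.2 else (0 : ℝ)) = (mz i y.1 y.2 : ℝ) := by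
  unfold mz pr
  split_ifs <;> push_cast <;> rfl

theorem rank_del (j : Fin 15) :
    13 ≤ (Matrix.of (fun (i : {i : Fin 15 // i ≠ j}) (y : Fin 8 × Fin 2) =>
            if y.1 = ga i.1 then pr (ga i.1) y.2 - pr (gb i.1) y.2
            else if y.1 = gb i.1 then pr (gb i.1) y.2 - pr (ga i.1) y.2 else (0 : ℝ)) :
              Matrix {i : Fin 15 // i ≠ j} (Fin 8 × Fin 2) ℝ).rank := by
  set M : Matrix {i : Fin 15 // i ≠ j} (Fin 8 × Fin 2) ℝ :=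
    (Matrix.of (fun (i : {i : Fin 15 // i ≠ j}) (y : Fin 8 × Fin 2) =>
            if y.1 = ga i.1 then pr (ga i.1) y.2 - pr (gb i.1) y.2
            else if y.1 = gb i.1 then pr (gb i.1) y.2 - pr (ga i.1) y.2 else (0 : ℝ))) with hM
  let L : Matrix (Fin 13) {i : Fin 15 // i ≠ j} ℝ :=
    Matrix.of fun k i => if i = ⟨sel j k, sel_ne j k⟩ then 1 else 0
  let R : Matrix (Fin 8 × Fin 2) (Fin 13) ℝ := Matrix.of fun y l => (rr j y.1 y.2 l : ℝ)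
  have key : L * M * R = (cst j : ℝ) • (1 : Matrix (Fin 13) (Fin 13) ℝ) := by
    ext k l
    have h1 : ∀ y, (L * M) k y = (mz (sel j k) y.1 y.2 : ℝ) := by
      intro y
      rw [Matrix.mul_apply]
      rw [Finset.sum_eq_single (⟨sel j k, sel_ne j k⟩ : {i : Fin 15 // i ≠ j})]
      · simp only [L, Matrix.of_apply, if_true, one_mul, hM]
        exact mr_eq (sel j k) y
      · intro b _ hb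
        simp only [L, Matrix.of_apply, if_neg hb, zero_mul]
      · intro h
        exact absurd (Finset.mem_univ _) h
    rw [Matrix.mul_apply]
    simp only [h1, R, Matrix.of_apply]
    rw [Fintype.sum_prod_type]
    have h2 := cert j k l
    have h3 : ((∑ v : Fin 8, ∑ c : Fin 2, mz (sel j k) v c * rr j v c l : ℤ) : ℝ)
        = ((if k = l then cst j else 0 : ℤ) : ℝ) := by rw [h2]
    push_cast at h3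
    rw [h3, Matrix.smul_apply, Matrix.one_apply]
    split_ifs <;> simp
  have hc : (cst j : ℝ) ≠ 0 := by exact_mod_cast cst_ne j
  have r1 : ((cst j : ℝ) • (1 : Matrix (Fin 13) (Fin 13) ℝ)).rank = 13 := by
    have hu : IsUnit ((cst j : ℝ) • (1 : Matrix (Fin 13) (Fin 13) ℝ)) := by
      rw [Matrix.isUnit_iff_isUnit_det, Matrix.det_smul, Matrix.det_one, mul_one]
      exact (pow_ne_zero _ hc).isUnit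
    rw [Matrix.rank_of_isUnit _ hu]
    simp
  calc 13 = (L * M * R).rank := by rw [key, r1]
    _ ≤ (L * M).rank := Matrix.rank_mul_le_left _ _
    _ ≤ M.rank := Matrix.rank_mul_le_right _ _

theorem rank_full :
    13 ≤ (Matrix.of (fun (i : Fin 15) (y : Fin 8 × Fin 2) =>
            if y.1 = ga i then pr (ga i) y.2 - pr (gb i) y.2
            else if y.1 = gb i then pr (gb i) y.2 - pr (ga i) y.2 else (0 : ℝ)) :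
              Matrix (Fin 15) (Fin 8 × Fin 2) ℝ).rank := by
  refine le_trans (rank_del 0) ?_
  set M : Matrix (Fin 15) (Fin 8 × Fin 2) ℝ :=
    (Matrix.of (fun (i : Fin 15) (y : Fin 8 × Fin 2) =>
            if y.1 = ga i then pr (ga i) y.2 - pr (gb i) y.2
            else if y.1 = gb i then pr (gb i) y.2 - pr (ga i) y.2 else (0 : ℝ))) with hM
  let L : Matrix {i : Fin 15 // i ≠ 0} (Fin 15) ℝ :=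
    Matrix.of fun k i => if i = k.1 then 1 else 0
  have key : (Matrix.of (fun (i : {i : Fin 15 // i ≠ 0}) (y : Fin 8 × Fin 2) =>
            if y.1 = ga i.1 then pr (ga i.1) y.2 - pr (gb i.1) y.2
            else if y.1 = gb i.1 then pr (gb i.1) y.2 - pr (ga i.1) y.2 else (0 : ℝ)) :
              Matrix {i : Fin 15 // i ≠ 0} (Fin 8 × Fin 2) ℝ) = L * M := by
    ext k y
    rw [Matrix.mul_apply, Finset.sum_eq_single k.1]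
    · simp only [L, Matrix.of_apply, if_true, one_mul, hM]
    · intro b _ hb
      simp only [L, Matrix.of_apply, if_neg hb, zero_mul]
    · intro h
      exact absurd (Finset.mem_univ _) h
  rw [key]
  exact Matrix.rank_mul_le_right _ _

/-- The twist: the vertices `5, 6, 7` are reflected in the midpoint of the vertices `0, 1`. -/
noncomputable def tw (q : Fin 8 → Fin 2 → ℂ) : Fin 8 → Fin 2 → ℂ := fun v c =>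
  if 5 ≤ v then q 0 c + q 1 c - q v c else q v c

theorem tw_G (q : Fin 8 → Fin 2 → ℂ) (i : Fin 15) :
    (∑ c : Fin 2, (tw q (ga i) c - tw q (gb i) c) ^ 2) = ∑ c : Fin 2, (q (ha i) c - q (hb i) c) ^ 2 := by
  refine Finset.sum_congr rfl fun c _ => ?_
  fin_cases i <;> simp [ga, gb, ha, hb, tw] <;> ring

theorem tw_H (q : Fin 8 → Fin 2 → ℂ) (i : Fin 15) :
    (∑ c : Fin 2, (tw q (ha i) c - tw q (hb i) c) ^ 2) = ∑ c : Fin 2, (q (ga i) c - q (gb i) c) ^ 2 := by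
  refine Finset.sum_congr rfl fun c _ => ?_
  fin_cases i <;> simp [ga, gb, ha, hb, tw] <;> ring

theorem adjG0 : ∀ w : Fin 8, w ≠ 0 → ∃ i : Fin 15, s(ga i, gb i) = s(0, w) := by decide +kernel

theorem nadjH : ∀ v : Fin 8, ∃ w : Fin 8, w ≠ v ∧ ∀ i : Fin 15, s(ha i, hb i) ≠ s(v, w) := by
  decide +kernel

/-- The negation of the preceding statement: For d≥2, if G (n vertices, m edges) is redundantly generically rigid in R^d and H has n vertices, m edges and the same squared-edge-length measurement variety over C, then G and H are isomorphic. -/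
theorem result :
    ¬ (∀ (d n m : ℕ), 2 ≤ d → ∀ (a b a' b' : Fin m → Fin n),
      (∀ i, a i ≠ b i) → (∀ i, a' i ≠ b' i) →
      Function.Injective (fun i : Fin m => s(a i, b i)) →
      Function.Injective (fun i : Fin m => s(a' i, b' i)) →
      (∃ p : Fin n → Fin d → ℝ,
        (if d + 1 ≤ n then d * n - d * (d + 1) / 2 else n * (n - 1) / 2) ≤
          (Matrix.of (fun (i : Fin m) (y : Fin n × Fin d) =>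
            if y.1 = a i then p (a i) y.2 - p (b i) y.2
            else if y.1 = b i then p (b i) y.2 - p (a i) y.2 else (0 : ℝ)) :
              Matrix (Fin m) (Fin n × Fin d) ℝ).rank) →
      (∀ j : Fin m, ∃ p : Fin n → Fin d → ℝ,
        (if d + 1 ≤ n then d * n - d * (d + 1) / 2 else n * (n - 1) / 2) ≤
          (Matrix.of (fun (i : {i : Fin m // i ≠ j}) (y : Fin n × Fin d) =>
            if y.1 = a i.1 then p (a i.1) y.2 - p (b i.1) y.2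
            else if y.1 = b i.1 then p (b i.1) y.2 - p (a i.1) y.2 else (0 : ℝ)) :
              Matrix {i : Fin m // i ≠ j} (Fin n × Fin d) ℝ).rank) →
      (∀ f : MvPolynomial (Fin m) ℂ,
        (∀ q : Fin n → Fin d → ℂ,
          MvPolynomial.eval (fun i : Fin m => ∑ c : Fin d, (q (a i) c - q (b i) c) ^ 2) f = 0) ↔
        (∀ q : Fin n → Fin d → ℂ,
          MvPolynomial.eval (fun i : Fin m => ∑ c : Fin d, (q (a' i) c - q (b' i) c) ^ 2) f = 0)) →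
      Nonempty (SimpleGraph.Iso
        (SimpleGraph.fromEdgeSet (Set.range (fun i : Fin m => s(a i, b i))))
        (SimpleGraph.fromEdgeSet (Set.range (fun i : Fin m => s(a' i, b' i)))))) := by
  intro hall
  obtain ⟨φ⟩ := hall 2 8 15 le_rfl ga gb ha hb (by decide) (by decide) (by decide +kernel)
    (by decide +kernel)
    ⟨pr, by simpa using rank_full⟩
    (fun j => ⟨pr, by simpa using rank_del j⟩)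
    (by
      intro f
      constructor
      · intro h q
        have := h (tw q)
        simpa only [tw_G] using this
      · intro h q
        have := h (tw q)
        simpa only [tw_H] using this)
  obtain ⟨w, hw, hn⟩ := nadjH (φ 0)
  have hw' : φ.symm w ≠ 0 := by
    intro h
    apply hw
    rw [← h]
    simp
  obtain ⟨i, hi⟩ := adjG0 (φ.symm w) hw'
  have hadj : (SimpleGraph.fromEdgeSet (Set.range (fun i : Fin 15 => s(ga i, gb i)))).Adj 0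
      (φ.symm w) := by
    rw [SimpleGraph.fromEdgeSet_adj]
    exact ⟨⟨i, hi⟩, hw'.symm⟩
  have hadj2 := φ.map_adj_iff.mpr hadj
  rw [SimpleGraph.fromEdgeSet_adj] at hadj2
  obtain ⟨⟨k, hk⟩, -⟩ := hadj2
  apply hn k
  simpa using hk

end Pool.Agent.S05042
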