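import Pool.Statements.S05082

set_option autoImplicit false
open Pool Pool.MP_1d7c98_co

namespace Pool.Agent.S05082

open Finset

/-- The Cartesian product of the complete graph on `21` vertices with a path on `t` vertices. -/
def H (t : ℕ) : SimpleGraph (Fin t × Fin 21) where
  Adj x y := (x.1 = y.1 ∧ x.2 ≠ y.2) ∨
    (x.2 = y.2 ∧ ((x.1 : ℕ) + 1 = (y.1 : ℕ) ∨ (y.1 : ℕ) + 1 = (x.1 : ℕ)))
  symm := ⟨fun x y h => by
    rcases h with ⟨h1, h2⟩ | ⟨h1, h2⟩
    · exact Or.inl ⟨h1.symm, h2.symm⟩
    · exact Or.inr ⟨h1.symm, h2.symm⟩⟩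
  loopless := ⟨fun x h => by
    rcases h with ⟨_, h2⟩ | ⟨_, h2⟩
    · exact h2 rfl
    · omega⟩

/-- The same graph on `Fin (t * 21)`. -/
def G (t : ℕ) : SimpleGraph (Fin (t * 21)) := (H t).comap finProdFinEquiv.symm

lemma adj_G (t : ℕ) (x y : Fin (t * 21)) :
    (G t).Adj x y ↔ (H t).Adj (finProdFinEquiv.symm x) (finProdFinEquiv.symm y) := Iff.rfl

lemma adj_G' (t : ℕ) (x y : Fin t × Fin 21) :
    (G t).Adj (finProdFinEquiv x) (finProdFinEquiv y) ↔ (H t).Adj x y := by
  rw [adj_G]; simp

/-- Any 21 vertices coloured with 14 colours span many monochromatic pairs. -/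
lemma mono_pairs (f : Fin 21 → Fin 14) :
    14 ≤ (univ.filter (fun p : Fin 21 × Fin 21 => p.1 ≠ p.2 ∧ f p.1 = f p.2)).card := by
  have h1 : (univ.filter (fun p : Fin 21 × Fin 21 => f p.1 = f p.2)).card
      = ∑ c : Fin 14, (univ.filter (fun a => f a = c)).card ^ 2 := by
    rw [Finset.card_eq_sum_card_fiberwise (f := fun p : Fin 21 × Fin 21 => f p.1)
      (t := (univ : Finset (Fin 14))) (fun _ _ => mem_univ _)]
    refine Finset.sum_congr rfl fun c _ => ?_
    rw [pow_two, ← Finset.card_product]
    congr 1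
    ext p
    simp only [mem_filter, mem_univ, true_and, mem_product]
    constructor
    · rintro ⟨h, h'⟩; exact ⟨h', h ▸ h'⟩
    · rintro ⟨h, h'⟩; exact ⟨h.trans h'.symm, h⟩
  have h2 : ∑ c : Fin 14, (univ.filter (fun a => f a = c)).card = 21 := by
    rw [← Finset.card_eq_sum_card_fiberwise (f := f) (s := (univ : Finset (Fin 21)))
      (t := (univ : Finset (Fin 14))) (fun _ _ => mem_univ _)]
    simp
  have h3 : 35 ≤ ∑ c : Fin 14, (univ.filter (fun a => f a = c)).card ^ 2 := by
    have h4 : ∑ c : Fin 14, (3 * (univ.filter (fun a => f a = c)).card)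
        ≤ ∑ c : Fin 14, ((univ.filter (fun a => f a = c)).card ^ 2 + 2) := by
      refine Finset.sum_le_sum fun c _ => ?_
      generalize (univ.filter (fun a => f a = c)).card = x
      rcases Nat.lt_or_ge x 3 with h | h
      · interval_cases x <;> norm_num
      · nlinarith
    rw [← Finset.mul_sum, h2, Finset.sum_add_distrib] at h4
    simp at h4
    omega
  have h5 : (univ.filter (fun p : Fin 21 × Fin 21 => f p.1 = f p.2)).card
      = (univ.filter (fun p : Fin 21 × Fin 21 => p.1 ≠ p.2 ∧ f p.1 = f p.2)).card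
        + (univ.filter (fun p : Fin 21 × Fin 21 => p.1 = p.2)).card := by
    rw [← Finset.card_union_of_disjoint]
    · congr 1
      ext p
      simp only [mem_filter, mem_univ, true_and, mem_union]
      constructor
      · intro h
        by_cases hp : p.1 = p.2
        · exact Or.inr hp
        · exact Or.inl ⟨hp, h⟩
      · rintro (⟨_, h⟩ | h)
        · exact h
        · rw [h]
    · rw [Finset.disjoint_left]
      intro p hp hp'
      simp only [mem_filter, mem_univ, true_and] at hp hp'
      exact hp.1 hp'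
  have h6 : (univ.filter (fun p : Fin 21 × Fin 21 => p.1 = p.2)).card = 21 := by
    decide +kernel
  omega

open Classical in
lemma mono_count (t : ℕ) (c : Fin (t * 21) → Fin 14) :
    14 * t ≤ (univ.filter (fun p : Fin (t * 21) × Fin (t * 21) =>
      (G t).Adj p.1 p.2 ∧ c p.1 = c p.2)).card := by
  rw [Finset.card_eq_sum_card_fiberwise
    (f := fun p : Fin (t * 21) × Fin (t * 21) => (finProdFinEquiv.symm p.1).1)
    (t := (univ : Finset (Fin t))) (fun _ _ => mem_univ _)]
  calc 14 * t = ∑ _i : Fin t, 14 := by simp [mul_comm]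
    _ ≤ _ := by
      refine Finset.sum_le_sum fun i _ => ?_
      refine (mono_pairs (fun a => c (finProdFinEquiv (i, a)))).trans ?_
      refine Finset.card_le_card_of_injOn
        (fun p => (finProdFinEquiv (i, p.1), finProdFinEquiv (i, p.2))) ?_ ?_
      · intro p hp
        simp only [coe_filter, mem_univ, true_and, Set.mem_setOf_eq] at hp
        simp only [coe_filter, mem_filter, mem_univ, true_and, Set.mem_setOf_eq]
        refine ⟨⟨?_, hp.2⟩, by simp⟩
        rw [adj_G']
        exact Or.inl ⟨rfl, hp.1⟩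
      · intro p _ q _ h
        simp only [Prod.mk.injEq, EmbeddingLike.apply_eq_iff_eq, true_and] at h
        exact Prod.ext h.1 h.2

open Classical in
lemma deg_le (t : ℕ) (v : Fin (t * 21)) : (G t).degree v ≤ 22 := by
  obtain ⟨⟨i, a⟩, rfl⟩ := finProdFinEquiv.surjective v
  have hsub : (G t).neighborFinset (finProdFinEquiv (i, a)) ⊆
      ((univ.erase a).image (fun b => finProdFinEquiv (i, b))) ∪
      ((univ.filter (fun j : Fin t => (i : ℕ) + 1 = j)).image (fun j => finProdFinEquiv (j, a))) ∪
      ((univ.filter (fun j : Fin t => (j : ℕ) + 1 = i)).image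
        (fun j => finProdFinEquiv (j, a))) := by
    intro w hw
    obtain ⟨⟨j, b⟩, rfl⟩ := finProdFinEquiv.surjective w
    rw [SimpleGraph.mem_neighborFinset, adj_G'] at hw
    simp only [mem_union, mem_image, mem_erase, mem_univ, and_true, mem_filter, true_and,
      EmbeddingLike.apply_eq_iff_eq, Prod.mk.injEq]
    rcases hw with ⟨h1, h2⟩ | ⟨h1, h2 | h2⟩
    · exact Or.inl (Or.inl ⟨b, fun h => h2 h.symm, h1, rfl⟩)
    · exact Or.inl (Or.inr ⟨j, h2, rfl, h1⟩)
    · exact Or.inr ⟨j, h2, rfl, h1⟩
  have h1 : (univ.filter (fun j : Fin t => (i : ℕ) + 1 = j)).card ≤ 1 := by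
    rw [Finset.card_le_one]
    intro x hx y hy
    simp only [mem_filter, mem_univ, true_and] at hx hy
    exact Fin.ext (by omega)
  have h2 : (univ.filter (fun j : Fin t => (j : ℕ) + 1 = i)).card ≤ 1 := by
    rw [Finset.card_le_one]
    intro x hx y hy
    simp only [mem_filter, mem_univ, true_and] at hx hy
    exact Fin.ext (by omega)
  have h3 : ((univ : Finset (Fin 21)).erase a).card = 20 := by simp
  rw [← SimpleGraph.card_neighborFinset_eq_degree]
  calc _ ≤ _ := Finset.card_le_card hsub
    _ ≤ _ := (Finset.card_union_le _ _).trans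
      (Nat.add_le_add_right (Finset.card_union_le _ _) _)
    _ ≤ 20 + 1 + 1 := by
      refine Nat.add_le_add (Nat.add_le_add ?_ ?_) ?_
      · exact Finset.card_image_le.trans h3.le
      · exact Finset.card_image_le.trans h1
      · exact Finset.card_image_le.trans h2

open Classical in
lemma pairs_card (t : ℕ) :
    (univ.filter (fun p : Fin (t * 21) × Fin (t * 21) => (G t).Adj p.1 p.2)).card
      = 2 * (G t).edgeSet.ncard := by
  have h1 : (univ.filter (fun p : Fin (t * 21) × Fin (t * 21) => (G t).Adj p.1 p.2)).card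
      = ∑ v, (G t).degree v := by
    rw [Finset.card_eq_sum_card_fiberwise
      (f := fun p : Fin (t * 21) × Fin (t * 21) => p.1)
      (t := (univ : Finset (Fin (t * 21)))) (fun _ _ => mem_univ _)]
    refine Finset.sum_congr rfl fun v _ => ?_
    rw [← SimpleGraph.card_neighborFinset_eq_degree]
    refine Finset.card_bij' (fun p _ => p.2) (fun w _ => (v, w)) ?_ ?_ ?_ ?_
    · intro p hp
      simp only [mem_filter, mem_univ, true_and] at hp
      rw [SimpleGraph.mem_neighborFinset, ← hp.2]
      exact hp.1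
    · intro w hw
      rw [SimpleGraph.mem_neighborFinset] at hw
      simp [hw]
    · intro p hp
      simp only [mem_filter, mem_univ, true_and] at hp
      exact Prod.ext hp.2.symm rfl
    · intro w _
      rfl
  rw [h1, SimpleGraph.sum_degrees_eq_twice_card_edges]
  congr 1
  rw [← SimpleGraph.coe_edgeFinset, Set.ncard_coe_finset]

open Classical in
lemma edges_le (t : ℕ) : (G t).edgeSet.ncard ≤ 231 * t := by
  have h : 2 * (G t).edgeSet.ncard ≤ 462 * t := by
    have h1 : ∑ v, (G t).degree v = 2 * (G t).edgeSet.ncard := by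
      rw [SimpleGraph.sum_degrees_eq_twice_card_edges]
      congr 1
      rw [← SimpleGraph.coe_edgeFinset, Set.ncard_coe_finset]
    rw [← h1]
    calc ∑ v, (G t).degree v ≤ ∑ _v : Fin (t * 21), 22 := Finset.sum_le_sum fun v _ => deg_le t v
      _ = 462 * t := by simp; ring
  omega

lemma step (t : ℕ) (S : Finset (Fin (t * 21))) (hS : S.card + 1 < 14) (i j : Fin t)
    (hij : (i : ℕ) + 1 = j) :
    ∃ a : Fin 21, finProdFinEquiv (i, a) ∉ S ∧ finProdFinEquiv (j, a) ∉ S := by
  by_contra hcon
  push Not at hcon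
  have h1 : ∀ a : Fin 21, ∃ v ∈ S, (finProdFinEquiv.symm v).2 = a := by
    intro a
    by_cases h : finProdFinEquiv (i, a) ∈ S
    · exact ⟨_, h, by simp⟩
    · exact ⟨_, hcon a h, by simp⟩
  have h2 : (univ : Finset (Fin 21)) ⊆ S.image (fun v => (finProdFinEquiv.symm v).2) := by
    intro a _
    obtain ⟨v, hv, hva⟩ := h1 a
    exact mem_image.2 ⟨v, hv, hva⟩
  have h3 := (Finset.card_le_card h2).trans Finset.card_image_le
  simp at h3
  omega

lemma conn (t : ℕ) (ht : 0 < t) (S : Finset (Fin (t * 21))) (hS : S.card + 1 < 14) :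
    ((G t).induce ((S : Set (Fin (t * 21)))ᶜ)).Connected := by
  -- vertices in the same block
  have hsame : ∀ (x y : ((S : Set (Fin (t * 21)))ᶜ : Set (Fin (t * 21)))),
      (finProdFinEquiv.symm x.1).1 = (finProdFinEquiv.symm y.1).1 →
      ((G t).induce ((S : Set (Fin (t * 21)))ᶜ)).Reachable x y := by
    intro x y hxy
    by_cases h : x = y
    · rw [h]
    · refine SimpleGraph.Adj.reachable ?_
      rw [SimpleGraph.comap_adj]
      refine Or.inl ⟨hxy, fun h2 => h ?_⟩
      exact Subtype.ext (finProdFinEquiv.symm.injective (Prod.ext hxy h2))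
  -- moving up
  have hup : ∀ (d : ℕ) (x y : ((S : Set (Fin (t * 21)))ᶜ : Set (Fin (t * 21)))),
      ((finProdFinEquiv.symm x.1).1 : ℕ) + d = ((finProdFinEquiv.symm y.1).1 : ℕ) →
      ((G t).induce ((S : Set (Fin (t * 21)))ᶜ)).Reachable x y := by
    intro d
    induction d with
    | zero =>
      intro x y h
      exact hsame x y (Fin.ext (by simpa using h))
    | succ d ih =>
      intro x y h
      have hlt : ((finProdFinEquiv.symm x.1).1 : ℕ) + 1 < t := by
        have := (finProdFinEquiv.symm y.1).1.2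
        omega
      obtain ⟨a, ha1, ha2⟩ := step t S hS (finProdFinEquiv.symm x.1).1
        ⟨((finProdFinEquiv.symm x.1).1 : ℕ) + 1, hlt⟩ rfl
      have r1 := hsame x ⟨finProdFinEquiv ((finProdFinEquiv.symm x.1).1, a), by simpa using ha1⟩
        (by simp)
      have r2 : ((G t).induce ((S : Set (Fin (t * 21)))ᶜ)).Reachable
          ⟨finProdFinEquiv ((finProdFinEquiv.symm x.1).1, a), by simpa using ha1⟩
          ⟨finProdFinEquiv (⟨((finProdFinEquiv.symm x.1).1 : ℕ) + 1, hlt⟩, a),
            by simpa using ha2⟩ := by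
        refine SimpleGraph.Adj.reachable ?_
        rw [SimpleGraph.comap_adj]
        show (G t).Adj (finProdFinEquiv _) (finProdFinEquiv _)
        rw [adj_G']
        exact Or.inr ⟨rfl, Or.inl rfl⟩
      refine (r1.trans r2).trans (ih _ y ?_)
      simp only [Equiv.symm_apply_apply]
      omega
  refine (SimpleGraph.connected_iff _).2 ⟨?_, ?_⟩
  · intro x y
    rcases le_total ((finProdFinEquiv.symm x.1).1 : ℕ) ((finProdFinEquiv.symm y.1).1 : ℕ)
      with h | h
    · exact hup (((finProdFinEquiv.symm y.1).1 : ℕ) - ((finProdFinEquiv.symm x.1).1 : ℕ)) x y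
        (by omega)
    · exact (hup (((finProdFinEquiv.symm x.1).1 : ℕ) - ((finProdFinEquiv.symm y.1).1 : ℕ)) y x
        (by omega)).symm
  · have : ∃ v : Fin (t * 21), v ∉ S := by
      by_contra hcon
      push Not at hcon
      have h2 : (univ : Finset (Fin (t * 21))) ⊆ S := fun v _ => hcon v
      have h3 := Finset.card_le_card h2
      simp at h3
      omega
    obtain ⟨v, hv⟩ := this
    exact ⟨⟨v, by simpa using hv⟩⟩

/-- The negation of the preceding statement: For each k≥2 there is a constant C so that every graph on n vertices with m edges, which stays connected after deleting fewer than k−1 vertices, has a k-colouring cutting at least (k−1)m/k + (k−1)n/(2k) − C edges. -/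
theorem result :
    ¬ (∀ k : ℕ, 2 ≤ k → ∃ C : ℝ, ∀ n : ℕ, ∀ G : SimpleGraph (Fin n),
      (∀ S : Finset (Fin n), S.card + 1 < k →
          (G.induce ((S : Set (Fin n))ᶜ)).Connected) →
      ∃ c : Fin n → Fin k,
        ((k : ℝ) - 1) / k * (G.edgeSet.ncard : ℝ) + ((k : ℝ) - 1) / (2 * k) * (n : ℝ) - C
          ≤ ({p : Fin n × Fin n | G.Adj p.1 p.2 ∧ c p.1 ≠ c p.2}.ncard : ℝ) / 2) := by
  classical
  intro h
  obtain ⟨C, hC⟩ := h 14 (by norm_num)
  obtain ⟨t, ht⟩ := exists_nat_gt (max (4 * C) 0)
  have ht1 : 4 * C < t := (le_max_left _ _).trans_lt ht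
  have ht0 : 0 < t := by
    have : (0 : ℝ) < t := (le_max_right _ _).trans_lt ht
    exact_mod_cast this
  obtain ⟨c, hc⟩ := hC (t * 21) (G t) (fun S hS => conn t ht0 S hS)
  have e1 : {p : Fin (t * 21) × Fin (t * 21) | (G t).Adj p.1 p.2 ∧ c p.1 ≠ c p.2}.ncard
      = (univ.filter (fun p : Fin (t * 21) × Fin (t * 21) =>
        (G t).Adj p.1 p.2 ∧ c p.1 ≠ c p.2)).card := by
    rw [← Set.ncard_coe_finset]
    congr 1
    ext p
    simp
  have e2 : (univ.filter (fun p : Fin (t * 21) × Fin (t * 21) =>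
        (G t).Adj p.1 p.2 ∧ c p.1 ≠ c p.2)).card
      + (univ.filter (fun p : Fin (t * 21) × Fin (t * 21) =>
        (G t).Adj p.1 p.2 ∧ c p.1 = c p.2)).card
      = 2 * (G t).edgeSet.ncard := by
    rw [← pairs_card, ← Finset.card_union_of_disjoint]
    · congr 1
      ext p
      simp only [mem_union, mem_filter, mem_univ, true_and]
      by_cases hp : c p.1 = c p.2 <;> simp [hp]
    · rw [Finset.disjoint_left]
      intro p hp hp'
      simp only [mem_filter, mem_univ, true_and] at hp hp'
      exact hp.2 hp'.2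
  have e3 := mono_count t c
  have e4 := edges_le t
  rw [e1] at hc
  have e2r : ((univ.filter (fun p : Fin (t * 21) × Fin (t * 21) =>
        (G t).Adj p.1 p.2 ∧ c p.1 ≠ c p.2)).card : ℝ)
      + ((univ.filter (fun p : Fin (t * 21) × Fin (t * 21) =>
        (G t).Adj p.1 p.2 ∧ c p.1 = c p.2)).card : ℝ)
      = 2 * ((G t).edgeSet.ncard : ℝ) := by exact_mod_cast e2
  have e3r : (14 * t : ℝ) ≤ ((univ.filter (fun p : Fin (t * 21) × Fin (t * 21) =>
        (G t).Adj p.1 p.2 ∧ c p.1 = c p.2)).card : ℝ) := by exact_mod_cast e3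
  have e4r : ((G t).edgeSet.ncard : ℝ) ≤ 231 * t := by exact_mod_cast e4
  push_cast at hc
  linarith

end Pool.Agent.S05082
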