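import Pool.Statements.S05107
import Pool.Agent.H245R2.TriPlane

set_option autoImplicit false
open Pool Pool.MP_1edfe5_co

namespace Pool.Agent.S05107

open Pool.Agent.H245R2.Tri

/-- the plane -/
abbrev E := EuclideanSpace ℝ (Fin 2)

/-- The linear map from oblique coordinates to the plane. -/
noncomputable def Llin : (ℝ × ℝ) ≃ₗ[ℝ] E where
  toFun x := !₂[x.1 + x.2 / 2, Real.sqrt 3 / 2 * x.2]
  map_add' x y := by
    ext i
    fin_cases i
    · simp; ring
    · simp; ring
  map_smul' r x := by
    ext i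
    fin_cases i
    · simp; ring
    · simp; ring
  invFun y := (y 0 - y 1 / Real.sqrt 3, 2 / Real.sqrt 3 * y 1)
  left_inv x := by
    have h3 : Real.sqrt 3 ≠ 0 := by positivity
    ext
    · simp; field_simp; ring
    · simp; field_simp
  right_inv y := by
    have h3 : Real.sqrt 3 ≠ 0 := by positivity
    ext i
    fin_cases i
    · simp; field_simp; ring
    · simp; field_simp

/-- The same as a homeomorphism. -/
noncomputable def L : (ℝ × ℝ) ≃L[ℝ] E := Llin.toContinuousLinearEquiv

theorem L_apply (x : ℝ × ℝ) : L x = !₂[x.1 + x.2 / 2, Real.sqrt 3 / 2 * x.2] := rfl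

theorem dist_L (x y : ℝ × ℝ) : dist (L x) (L y) =
    Real.sqrt ((x.1 - y.1) ^ 2 + (x.1 - y.1) * (x.2 - y.2) + (x.2 - y.2) ^ 2) := by
  rw [EuclideanSpace.dist_eq, L_apply, L_apply]
  congr 1
  simp only [Fin.sum_univ_two, Real.dist_eq, sq_abs]
  simp only [Matrix.cons_val_zero, Matrix.cons_val_one]
  have h3 : Real.sqrt 3 ^ 2 = 3 := Real.sq_sqrt (by norm_num)
  ring_nf
  rw [h3]
  ring

/-- first vertex -/
def pa : Tile → ℝ × ℝ
  | Tile.up c d _ => (c, d)
  | Tile.dn c d _ => (c, d)

/-- second vertex -/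
def pb : Tile → ℝ × ℝ
  | Tile.up c d s => (c + s, d)
  | Tile.dn c d s => (c - s, d)

/-- third vertex -/
def pc : Tile → ℝ × ℝ
  | Tile.up c d s => (c, d + s)
  | Tile.dn c d s => (c, d - s)

theorem three_mem {F : Type*} [AddCommGroup F] [Module ℝ F] (a b c : F) {x y z : ℝ} (hx : 0 ≤ x)
    (hy : 0 ≤ y) (hz : 0 ≤ z) (h : x + y + z = 1) :
    x • a + y • b + z • c ∈ convexHull ℝ ({a, b, c} : Set F) := by
  have h1 := (convex_convexHull ℝ ({a, b, c} : Set F)).sum_mem (t := Finset.univ)
    (w := ![x, y, z]) (z := ![a, b, c]) ?_ ?_ ?_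
  · simpa [Fin.sum_univ_three] using h1
  · intro i _
    fin_cases i <;> simp [hx, hy, hz]
  · simpa [Fin.sum_univ_three] using h
  · intro i _
    fin_cases i
    · exact subset_convexHull ℝ _ (by simp)
    · exact subset_convexHull ℝ _ (by simp)
    · exact subset_convexHull ℝ _ (by simp)

theorem hull_eq (t : Tile) (ht : 0 < t.size) :
    convexHull ℝ ({pa t, pb t, pc t} : Set (ℝ × ℝ)) = t.cl := by
  apply Set.Subset.antisymm
  · refine convexHull_min ?_ ?_
    · intro x hx
      simp only [Set.mem_insert_iff, Set.mem_singleton_iff] at hx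
      cases t with
      | up c d s =>
        simp only [Tile.size] at ht
        simp only [pa, pb, pc] at hx
        rcases hx with rfl | rfl | rfl <;> refine ⟨?_, ?_, ?_⟩ <;> simp only <;> linarith
      | dn c d s =>
        simp only [Tile.size] at ht
        simp only [pa, pb, pc] at hx
        rcases hx with rfl | rfl | rfl <;> refine ⟨?_, ?_, ?_⟩ <;> simp only <;> linarith
    · cases t with
      | up c d s =>
        intro x hx y hy a b ha hb hab
        obtain ⟨x1, x2, x3⟩ := hx
        obtain ⟨y1, y2, y3⟩ := hy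
        have hb' : b = 1 - a := by linarith
        subst hb'
        refine ⟨?_, ?_, ?_⟩ <;> simp only [Prod.fst_add, Prod.smul_fst, Prod.snd_add,
          Prod.smul_snd, smul_eq_mul] <;> nlinarith
      | dn c d s =>
        intro x hx y hy a b ha hb hab
        obtain ⟨x1, x2, x3⟩ := hx
        obtain ⟨y1, y2, y3⟩ := hy
        have hb' : b = 1 - a := by linarith
        subst hb'
        refine ⟨?_, ?_, ?_⟩ <;> simp only [Prod.fst_add, Prod.smul_fst, Prod.snd_add,
          Prod.smul_snd, smul_eq_mul] <;> nlinarith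
  · intro x hx
    cases t with
    | up c d s =>
      simp only [Tile.size] at ht
      obtain ⟨x1, x2, x3⟩ := hx
      have h1 : 0 ≤ (x.1 - c) / s := div_nonneg (by linarith) ht.le
      have h2 : 0 ≤ (x.2 - d) / s := div_nonneg (by linarith) ht.le
      have h3 : 0 ≤ 1 - (x.1 - c) / s - (x.2 - d) / s := by
        rw [sub_sub, ← add_div, sub_nonneg, div_le_one ht]
        linarith
      have := three_mem (c, d) (c + s, d) (c, d + s) h3 h1 h2 (by ring)
      have e : (1 - (x.1 - c) / s - (x.2 - d) / s) • ((c, d) : ℝ × ℝ) +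
          ((x.1 - c) / s) • ((c + s, d) : ℝ × ℝ) + ((x.2 - d) / s) • ((c, d + s) : ℝ × ℝ) = x := by
        simp only [Prod.smul_mk, Prod.mk_add_mk, smul_eq_mul]
        refine Prod.ext ?_ ?_
        · simp only
          field_simp
          ring
        · simp only
          field_simp
          ring
      rwa [e] at this
    | dn c d s =>
      simp only [Tile.size] at ht
      obtain ⟨x1, x2, x3⟩ := hx
      have h1 : 0 ≤ (c - x.1) / s := div_nonneg (by linarith) ht.le
      have h2 : 0 ≤ (d - x.2) / s := div_nonneg (by linarith) ht.le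
      have h3 : 0 ≤ 1 - (c - x.1) / s - (d - x.2) / s := by
        rw [sub_sub, ← add_div, sub_nonneg, div_le_one ht]
        linarith
      have := three_mem (c, d) (c - s, d) (c, d - s) h3 h1 h2 (by ring)
      have e : (1 - (c - x.1) / s - (d - x.2) / s) • ((c, d) : ℝ × ℝ) +
          ((c - x.1) / s) • ((c - s, d) : ℝ × ℝ) + ((d - x.2) / s) • ((c, d - s) : ℝ × ℝ) = x := by
        simp only [Prod.smul_mk, Prod.mk_add_mk, smul_eq_mul]
        refine Prod.ext ?_ ?_
        · simp only
          field_simp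
          ring
        · simp only
          field_simp
          ring
      rwa [e] at this

theorem interior_sub (t : Tile) : interior t.cl ⊆ t.op := by
  intro x hx
  rw [mem_interior_iff_mem_nhds, Metric.mem_nhds_iff] at hx
  obtain ⟨ε, hε, hb⟩ := hx
  have key : ∀ y : ℝ × ℝ, |y.1 - x.1| < ε → |y.2 - x.2| < ε → y ∈ t.cl := by
    intro y h1 h2
    apply hb
    rw [Metric.mem_ball, Prod.dist_eq, max_lt_iff]
    exact ⟨by rw [Real.dist_eq]; exact h1, by rw [Real.dist_eq]; exact h2⟩
  have e0 : |(0 : ℝ)| < ε := by rw [abs_zero]; exact hε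
  have e1 : |ε / 2| < ε := by rw [abs_of_pos (by linarith)]; linarith
  have e2 : |-(ε / 2)| < ε := by rw [abs_neg]; exact e1
  cases t with
  | up c d s =>
    have k1 := key (x.1 - ε / 2, x.2) (by simpa using e1) (by simpa using e0)
    have k2 := key (x.1, x.2 - ε / 2) (by simpa using e0) (by simpa using e1)
    have k3 := key (x.1 + ε / 2, x.2) (by simpa using e1) (by simpa using e0)
    obtain ⟨a1, -, -⟩ := k1
    obtain ⟨-, a2, -⟩ := k2
    obtain ⟨-, -, a3⟩ := k3
    simp only at a1 a2 a3
    exact ⟨by linarith, by linarith, by linarith⟩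
  | dn c d s =>
    have k1 := key (x.1 + ε / 2, x.2) (by simpa using e1) (by simpa using e0)
    have k2 := key (x.1, x.2 + ε / 2) (by simpa using e0) (by simpa using e1)
    have k3 := key (x.1 - ε / 2, x.2) (by simpa using e1) (by simpa using e0)
    obtain ⟨a1, -, -⟩ := k1
    obtain ⟨-, a2, -⟩ := k2
    obtain ⟨-, -, a3⟩ := k3
    simp only at a1 a2 a3
    exact ⟨by linarith, by linarith, by linarith⟩

theorem hull_L (t : Tile) (ht : 0 < t.size) :
    convexHull ℝ ({L (pa t), L (pb t), L (pc t)} : Set E) = L '' t.cl := by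
  rw [← hull_eq t ht]
  have h1 : ({L (pa t), L (pb t), L (pc t)} : Set E) = L '' {pa t, pb t, pc t} := by
    rw [Set.image_insert_eq, Set.image_insert_eq, Set.image_singleton]
  rw [h1]
  exact (L.toLinearEquiv.toLinearMap.image_convexHull _).symm

theorem interior_hull_L (t : Tile) (ht : 0 < t.size) :
    interior (convexHull ℝ ({L (pa t), L (pb t), L (pc t)} : Set E)) ⊆ L '' t.op := by
  rw [hull_L t ht]
  have := (L.toHomeomorph.image_interior t.cl).symm
  change interior (L.toHomeomorph '' t.cl) ⊆ _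
  rw [this]
  exact Set.image_mono (interior_sub t)

theorem dist_ab (t : Tile) (ht : 0 < t.size) : dist (L (pa t)) (L (pb t)) = t.size := by
  rw [dist_L]
  cases t with
  | up c d s =>
    simp only [Tile.size] at ht ⊢
    simp only [pa, pb]
    rw [show (c - (c + s)) ^ 2 + (c - (c + s)) * (d - d) + (d - d) ^ 2 = s ^ 2 by ring]
    exact Real.sqrt_sq ht.le
  | dn c d s =>
    simp only [Tile.size] at ht ⊢
    simp only [pa, pb]
    rw [show (c - (c - s)) ^ 2 + (c - (c - s)) * (d - d) + (d - d) ^ 2 = s ^ 2 by ring]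
    exact Real.sqrt_sq ht.le

theorem dist_bc (t : Tile) (ht : 0 < t.size) : dist (L (pb t)) (L (pc t)) = t.size := by
  rw [dist_L]
  cases t with
  | up c d s =>
    simp only [Tile.size] at ht ⊢
    simp only [pc, pb]
    rw [show (c + s - c) ^ 2 + (c + s - c) * (d - (d + s)) + (d - (d + s)) ^ 2 = s ^ 2 by ring]
    exact Real.sqrt_sq ht.le
  | dn c d s =>
    simp only [Tile.size] at ht ⊢
    simp only [pc, pb]
    rw [show (c - s - c) ^ 2 + (c - s - c) * (d - (d - s)) + (d - (d - s)) ^ 2 = s ^ 2 by ring]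
    exact Real.sqrt_sq ht.le

theorem dist_ca (t : Tile) (ht : 0 < t.size) : dist (L (pc t)) (L (pa t)) = t.size := by
  rw [dist_L]
  cases t with
  | up c d s =>
    simp only [Tile.size] at ht ⊢
    simp only [pa, pc]
    rw [show (c - c) ^ 2 + (c - c) * (d + s - d) + (d + s - d) ^ 2 = s ^ 2 by ring]
    exact Real.sqrt_sq ht.le
  | dn c d s =>
    simp only [Tile.size] at ht ⊢
    simp only [pa, pc]
    rw [show (c - c) ^ 2 + (c - c) * (d - s - d) + (d - s - d) ^ 2 = s ^ 2 by ring]
    exact Real.sqrt_sq ht.le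

/-- There is a sequence of closed equilateral triangles in the plane, with pairwise distinct positive side lengths, whose union is the whole plane and whose interiors are pairwise disjoint. -/
theorem result :
    ∃ (a b c : ℕ → EuclideanSpace ℝ (Fin 2)) (s : ℕ → ℝ),
      (∀ n, 0 < s n ∧ dist (a n) (b n) = s n ∧ dist (b n) (c n) = s n ∧
        dist (c n) (a n) = s n) ∧
      Function.Injective s ∧
      (⋃ n, convexHull ℝ ({a n, b n, c n} : Set (EuclideanSpace ℝ (Fin 2)))) = Set.univ ∧
      ∀ m n, m ≠ n →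
        Disjoint
          (interior (convexHull ℝ ({a m, b m, c m} : Set (EuclideanSpace ℝ (Fin 2)))))
          (interior (convexHull ℝ ({a n, b n, c n} : Set (EuclideanSpace ℝ (Fin 2))))) := by
  obtain ⟨T, h1, h2, h3, h4, h5, h6⟩ := plane
  have : Countable T := h1.to_subtype
  have : Infinite T := h2.to_subtype
  obtain ⟨hd⟩ := nonempty_denumerable T
  let e : ℕ ≃ T := (Denumerable.eqv T).symm
  have hpos : ∀ n, 0 < (e n : Tile).size := fun n => h4 _ (e n).2
  refine ⟨fun n => L (pa (e n)), fun n => L (pb (e n)), fun n => L (pc (e n)),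
    fun n => (e n : Tile).size, ?_, ?_, ?_, ?_⟩
  · intro n
    exact ⟨hpos n, dist_ab _ (hpos n), dist_bc _ (hpos n), dist_ca _ (hpos n)⟩
  · intro m n hmn
    exact e.injective (Subtype.ext (h3 (e m).2 (e n).2 hmn))
  · rw [Set.eq_univ_iff_forall]
    intro y
    obtain ⟨t, ht, htx⟩ := h6 (L.symm y)
    rw [Set.mem_iUnion]
    refine ⟨e.symm ⟨t, ht⟩, ?_⟩
    simp only [Equiv.apply_symm_apply]
    rw [hull_L t (h4 t ht)]
    exact ⟨L.symm y, htx, by simp⟩
  · intro m n hmn
    refine Disjoint.mono (interior_hull_L _ (hpos m)) (interior_hull_L _ (hpos n)) ?_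
    rw [Set.disjoint_image_iff L.injective, Set.disjoint_left]
    intro x hx hy
    exact h5 _ (e m).2 _ (e n).2 (fun hh => hmn (e.injective (Subtype.ext hh))) x hx hy

end Pool.Agent.S05107
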