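import Pool.Statements.S05132
import Pool.Agent.H290R2.FS.Main

set_option autoImplicit false
open scoped Pointwise
open Pool Pool.MP_1fd81f_co

namespace Pool.Agent.S05132

open Pool.Agent.H290R2.FS in
/-- A nonempty sumset of at most `M` sets of size at most `M` is encoded by an array. -/
theorem exists_enc {n M ℓ : ℕ} (hM : 0 < M) (hℓ : ℓ ≤ M) (S : Fin ℓ → Finset (Fin n → ZMod 2))
    (hS : ∀ i, (S i).card ≤ M) (hne : ∀ i, (S i).Nonempty)
    (B : Finset (Fin n → ZMod 2))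
    (hB : ∀ x, x ∈ B ↔ ∃ f : Fin ℓ → (Fin n → ZMod 2), (∀ i, f i ∈ S i) ∧ ∑ i, f i = x) :
    ∃ g : Fin M → Fin M → V n, enc g = B := by
  classical
  have hsurj : ∀ i : Fin ℓ, ∃ e : Fin M → (Fin n → ZMod 2), (∀ j, e j ∈ S i) ∧
      ∀ x ∈ S i, ∃ j, e j = x := by
    intro i
    obtain ⟨x0, hx0⟩ := hne i
    have hx : ∃ f : Fin M → S i, Function.Surjective f := by
      have hcard : Fintype.card (S i) ≤ Fintype.card (Fin M) := by
        rw [Fintype.card_coe, Fintype.card_fin]; exact hS i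
      obtain ⟨emb⟩ := Function.Embedding.nonempty_of_card_le hcard
      have : Nonempty (S i) := ⟨⟨x0, hx0⟩⟩
      exact ⟨Function.invFun emb, Function.invFun_surjective emb.injective⟩
    obtain ⟨f, hf⟩ := hx
    refine ⟨fun j => (f j : Fin n → ZMod 2), fun j => (f j).2, fun x hx => ?_⟩
    obtain ⟨j, hj⟩ := hf ⟨x, hx⟩
    refine ⟨j, ?_⟩
    change ((f j : S i) : Fin n → ZMod 2) = x
    rw [hj]
  choose e he1 he2 using hsurj
  set g : Fin M → Fin M → V n :=
    fun i j => if h : (i : ℕ) < ℓ then e ⟨i, h⟩ j else 0 with hg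
  have hsum : ∀ h : Fin M → Fin M, ∑ i, g i (h i) = ∑ i : Fin ℓ, e i (h (Fin.castLE hℓ i)) := by
    intro h
    have h1 : ∑ i, g i (h i) = ∑ i ∈ Finset.univ.filter (fun i : Fin M => (i : ℕ) < ℓ),
        g i (h i) := by
      rw [Finset.sum_filter]
      refine Finset.sum_congr rfl fun i _ => ?_
      by_cases hi : (i : ℕ) < ℓ
      · rw [if_pos hi]
      · rw [if_neg hi, hg]
        simp [hi]
    rw [h1]
    symm
    refine Finset.sum_bij (fun (i : Fin ℓ) _ => Fin.castLE hℓ i) ?_ ?_ ?_ ?_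
    · intro i _
      rw [Finset.mem_filter]
      exact ⟨Finset.mem_univ _, by simp⟩
    · intro i _ j _ hij
      exact Fin.castLE_injective hℓ hij
    · intro i hi
      rw [Finset.mem_filter] at hi
      exact ⟨⟨i, hi.2⟩, Finset.mem_univ _, by ext; simp⟩
    · intro i _
      simp [hg]
  refine ⟨g, ?_⟩
  ext x
  rw [hB]
  unfold enc
  rw [Finset.mem_image]
  constructor
  · rintro ⟨h, _, rfl⟩
    refine ⟨fun i => e i (h (Fin.castLE hℓ i)), fun i => he1 _ _, ?_⟩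
    exact (hsum h).symm
  · rintro ⟨f, hf, rfl⟩
    choose j hj using fun i => he2 i (f i) (hf i)
    refine ⟨fun i => if h : (i : ℕ) < ℓ then j ⟨i, h⟩ else ⟨0, hM⟩, Finset.mem_univ _, ?_⟩
    rw [hsum]
    refine Finset.sum_congr rfl fun i _ => ?_
    simp [hj]

/-- The negation of the preceding statement: There are constants c>0 and K such that every A in F_2^n of density at least 0.01 admits B = S_1+...+S_l with l and all ∣S_i∣ at most K(n+1)^K, B of density at least c, and B+B contained in A+A. -/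
theorem result :
    ¬ (∃ c : ℝ, 0 < c ∧ ∃ K : ℕ, ∀ n : ℕ, ∀ A : Finset (Fin n → ZMod 2),
      (A.card : ℝ) ≥ 0.01 * (2 : ℝ) ^ n →
      ∃ ℓ : ℕ, ∃ S : Fin ℓ → Finset (Fin n → ZMod 2), ∃ B : Finset (Fin n → ZMod 2),
        ℓ ≤ K * (n + 1) ^ K ∧
        (∀ i, (S i).card ≤ K * (n + 1) ^ K) ∧
        (∀ x, x ∈ B ↔ ∃ f : Fin ℓ → (Fin n → ZMod 2), (∀ i, f i ∈ S i) ∧ ∑ i, f i = x) ∧
        (B.card : ℝ) ≥ c * (2 : ℝ) ^ n ∧
        B + B ⊆ A + A) := by
  rintro ⟨c, hc, K, H⟩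
  obtain ⟨n, A, hA, hno⟩ := Pool.Agent.H290R2.FS.construction (min c 1)
    (lt_min hc one_pos) (min_le_right _ _) K
  obtain ⟨ℓ, S, B, hℓ, hS, hB, hBc, hsub⟩ := H n A hA
  have hKM : K * (n + 1) ^ K ≤ (K + 1) * (n + 1) ^ (K + 1) :=
    Nat.mul_le_mul (Nat.le_succ K) (Nat.pow_le_pow_right (Nat.succ_pos n) (Nat.le_succ K))
  have hM0 : 0 < (K + 1) * (n + 1) ^ (K + 1) := by positivity
  have h2n : (0 : ℝ) < 2 ^ n := by positivity
  have hBpos : 0 < B.card := by
    have : (0 : ℝ) < B.card := lt_of_lt_of_le (by positivity) hBc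
    exact_mod_cast this
  obtain ⟨x, hx⟩ := Finset.card_pos.mp hBpos
  obtain ⟨f, hf, _⟩ := (hB x).mp hx
  obtain ⟨g, hg⟩ := exists_enc hM0 (hℓ.trans hKM) S (fun i => (hS i).trans hKM)
    (fun i => ⟨f i, hf i⟩) B hB
  refine hno g ?_ ?_
  · rw [hg]
    refine le_trans (mul_le_mul_of_nonneg_right (min_le_left c 1) h2n.le) hBc
  · rw [hg]
    exact hsub

end Pool.Agent.S05132
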