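import Pool.Statements.S05186
import Pool.Agent.H256R2.IDPMain
-- import your own Pool.Agent.* helpers here

set_option autoImplicit false
open scoped Pointwise
open Pool Pool.MP_2302e2_co

namespace Pool.Agent.S05186

open Pool.Agent.H256R2.IDP in
theorem H18 : H 20 8033 500 19 < H 20 8033 500 18 := by decide +kernel

open Pool.Agent.H256R2.IDP in
theorem H20 : H 20 8033 500 19 < H 20 8033 500 20 := by decide +kernel

/-- The negation of the preceding statement: For every lattice polytope P in R^d with the integer decomposition property, the h*-coefficients h*_0,…,h*_dim P, computed from lattice-point counts of dilates of P, increase weakly up to some index and then decrease weakly. -/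
theorem result :
    ¬ (∀ (d : ℕ) (S : Finset (Fin d → ℤ)), S.Nonempty →
    ∀ (P : Set (Fin d → ℝ)),
      P = convexHull ℝ ((fun v : Fin d → ℤ => fun i => (v i : ℝ)) '' (S : Set (Fin d → ℤ))) →
    (∀ k : ℕ, 1 ≤ k → ∀ z : Fin d → ℤ, (fun i => (z i : ℝ)) ∈ (k : ℝ) • P →
      ∃ f : Fin k → (Fin d → ℤ), (∀ j, (fun i => (f j i : ℝ)) ∈ P) ∧ ∑ j, f j = z) →
    ∀ (n : ℕ), n = Module.finrank ℝ (vectorSpan ℝ P) →
    ∀ (h : ℕ → ℤ),
      (∀ j, h j = ∑ i ∈ Finset.range (j + 1),
        (-1 : ℤ) ^ i * ((Nat.choose (n + 1) i : ℕ) : ℤ) *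
          ((Set.ncard {z : Fin d → ℤ | (fun l => (z l : ℝ)) ∈ (((j - i : ℕ) : ℝ)) • P} : ℕ) : ℤ)) →
    ∃ m : ℕ, m ≤ n ∧
      (∀ a b : ℕ, a ≤ b → b ≤ m → h a ≤ h b) ∧
      (∀ a b : ℕ, m ≤ a → a ≤ b → b ≤ n → h b ≤ h a)) := by
  exact Pool.Agent.H256R2.IDP.refute 20 8033 500 18 (by norm_num) (by norm_num) H18 H20

end Pool.Agent.S05186
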