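import Pool.Statements.S05203
import Pool.Agent.H214R2.OrbMain

/-! The group: for a generic bilinear map `β : E × E → E` over the field with two elements, the
central extension of `E` by `E` with cocycle `β` (a group of nilpotency class two). Every subgroup
whose image in `E` has large dimension contains almost the whole centre, so if there are few
orbits then some central involution `U` lies in every vertex stabiliser whose image is large. The
vertices moved by `U` have small stabilisers, and this allows us to apply `U` independently on many
unions of blocks, which gives more automorphisms than the group has elements. -/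

set_option autoImplicit false
open Pool Pool.MP_244b3b_co

namespace Pool.Agent.S05203

/-- For all k and N there is a finite group G such that every finite loopless digraph with all out-degrees at most k and automorphism group isomorphic to G has more than N automorphism orbits. -/
theorem result :
    ∀ k N : ℕ, ∃ (G : Type) (_ : Group G) (_ : Finite G),
      ∀ (V : Type) [Finite V] (X : Digraph V) (φ : G →* Equiv.Perm V),
        (∀ x, ¬ X.Adj x x) →
        (∀ x, Set.ncard {y | X.Adj x y} ≤ k) →
        Function.Injective φ →
        (∀ σ : Equiv.Perm V, σ ∈ φ.range ↔ ∀ x y, (X.Adj (σ x) (σ y) ↔ X.Adj x y)) →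
        ∃ f : Fin (N + 1) → V, ∀ (i j : Fin (N + 1)) (g : G), φ g (f i) = f j → i = j := by
  intro k N
  set t : ℕ := 3 * (2 * N + 1) + 3 * (N * k) + 4 with ht
  set d : ℕ := N * (2 * t + k) + t with hd
  have h3d : 3 * d < t ^ 2 := by
    have e1 : 3 * d = (3 * (2 * N + 1)) * t + 3 * (N * k) := by rw [hd]; ring
    have e2 : t ^ 2 = (3 * (2 * N + 1)) * t + (3 * (N * k)) * t + 4 * t := by
      rw [pow_two]
      conv_lhs => rw [ht]
      rw [← ht]
      ring
    have e3 : 3 * (N * k) ≤ (3 * (N * k)) * t := Nat.le_mul_of_pos_right _ (by omega)
    rw [e1, e2]
    omega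
  have ht4 : 4 ≤ t := by omega
  have h2 : 2 * d < 2 ^ t := by
    have h4 : ∀ n : ℕ, 4 ≤ n → n ^ 2 ≤ 2 ^ n := by
      intro n hn
      induction n, hn using Nat.le_induction with
      | base => norm_num
      | succ n hn ih =>
        rw [pow_succ 2 n]
        nlinarith
    have := h4 t ht4
    omega
  obtain ⟨β, hβ⟩ := Pool.Agent.H214R2.Orb.exists_generic d t h3d (by omega)
  refine ⟨Pool.Agent.H214R2.Orb.Ext β, inferInstance, inferInstance, ?_⟩
  intro V _ X φ _ hout hφ haut
  refine Pool.Agent.H214R2.Orb.main_aux φ hβ ?_ h2 (le_of_eq hd.symm) X hout hφ haut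
  have : N * (2 * t + k) = N * t + N * t + N * k := by ring
  omega

end Pool.Agent.S05203
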