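import Pool.Statements.S05243
import Pool.Agent.H41R2.OP.Main

set_option autoImplicit false
open Pool Pool.MP_278f54_co

namespace Pool.Agent.S05243

/-- For d≥3, 0<λ<√(2d/(d+1))−1, n>1 and any packing of n unit balls in R^d, n·vol(unit ball)/vol(union of radius-(1+λ) balls) is at most the regular edge-2 simplex ratio σ_d(λ). -/
theorem result :
    ∀ (d : ℕ), 3 ≤ d →
    ∀ (lam : ℝ), 0 < lam → lam < Real.sqrt (2 * (d : ℝ) / ((d : ℝ) + 1)) - 1 →
    ∀ (n : ℕ), 1 < n →
    ∀ (c : Fin n → EuclideanSpace ℝ (Fin d)),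
      (∀ i j, i ≠ j → 2 ≤ dist (c i) (c j)) →
    ∀ (t : Fin (d + 1) → EuclideanSpace ℝ (Fin d)),
      (∀ i j, i ≠ j → dist (t i) (t j) = 2) →
      (n : ENNReal) * MeasureTheory.volume (Metric.closedBall (0 : EuclideanSpace ℝ (Fin d)) 1)
        * MeasureTheory.volume (convexHull ℝ (Set.range t) ∩
            ⋃ i : Fin (d + 1), Metric.closedBall (t i) (1 + lam))
      ≤ ((d : ENNReal) + 1)
        * MeasureTheory.volume (convexHull ℝ (Set.range t) ∩ Metric.closedBall (t 0) 1)
        * MeasureTheory.volume (⋃ i : Fin n, Metric.closedBall (c i) (1 + lam)) := by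
  exact Pool.Agent.H41R2.OP.m_FIN

end Pool.Agent.S05243
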