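import Pool.Statements.S05268
import Pool.Agent.Results.MP_28acb3_co.EightVertex

set_option autoImplicit false
open Pool Pool.MP_28acb3_co

namespace Pool.Agent.S05268

/-- The negation of the preceding statement: A finite 3-uniform C-hypergraph has upper chromatic number equal to C-stability number on every induced subhypergraph if and only if it contains none of V1, V2, V3, V4, V5 (= C5^3) or K1 as an induced subhypergraph. -/
theorem result :
    ¬ (∀ (V : Type) [Fintype V] [DecidableEq V] (E : Finset (Finset V)),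
      (∀ e ∈ E, e.card = 3) →
      ((∀ S : Finset V,
          sSup {k : ℕ | ∃ c : V → ℕ,
              (∀ e ∈ E, e ⊆ S → ∃ x ∈ e, ∃ y ∈ e, x ≠ y ∧ c x = c y) ∧
              (S.image c).card = k} =
          sSup {k : ℕ | ∃ T ⊆ S, (∀ e ∈ E, ¬ e ⊆ T) ∧ T.card = k})
        ↔
       ∀ F ∈ ([({{1,2,3},{1,3,4},{1,2,4}} : Finset (Finset ℕ)),
               ({{1,2,3},{1,4,5}} : Finset (Finset ℕ)),
               ({{1,2,3},{1,3,4},{1,4,5}} : Finset (Finset ℕ)),
               ({{1,2,3},{1,3,4},{1,4,5},{1,2,5}} : Finset (Finset ℕ)),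
               ({{1,2,3},{2,3,4},{3,4,5},{4,5,1},{5,1,2}} : Finset (Finset ℕ)),
               ({{1,2,4},{2,3,5},{3,4,6},{4,5,1},{5,6,2},{6,1,3},{1,3,5},{2,4,6}} :
                  Finset (Finset ℕ))] : List (Finset (Finset ℕ))),
         ¬ ∃ f : ℕ → V, Set.InjOn f ↑(F.biUnion id) ∧
             ∀ T ⊆ F.biUnion id, (T.image f ∈ E ↔ T ∈ F))) := by
  intro h
  have h8 := (h (Fin 8) Pool.Agent.Results.MP_28acb3_co.EightVertex.E8
    Pool.Agent.Results.MP_28acb3_co.EightVertex.card_three).2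
  apply Pool.Agent.Results.MP_28acb3_co.EightVertex.not_perfect
  intro Y _
  refine h8 ?_ Y
  have hsix := Pool.Agent.Results.MP_28acb3_co.EightVertex.none_of_six
  intro F hF hcon
  obtain ⟨f, hf, hT⟩ := hcon
  simp only [List.mem_cons, List.not_mem_nil, or_false] at hF
  rcases hF with rfl | rfl | rfl | rfl | rfl | rfl
  · have e : (({{1,2,3},{1,3,4},{1,2,4}} : Finset (Finset ℕ)).biUnion id) = Finset.Icc 1 4 := by
      decide
    rw [e] at hf hT
    exact hsix (4, {{1,2,3},{1,3,4},{1,2,4}})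
      (by simp [Pool.Agent.Results.MP_28acb3_co.EightVertex.theSix]) ⟨f, hf, hT⟩
  · have e : (({{1,2,3},{1,4,5}} : Finset (Finset ℕ)).biUnion id) = Finset.Icc 1 5 := by
      decide
    rw [e] at hf hT
    exact hsix (5, {{1,2,3},{1,4,5}})
      (by simp [Pool.Agent.Results.MP_28acb3_co.EightVertex.theSix]) ⟨f, hf, hT⟩
  · have e : (({{1,2,3},{1,3,4},{1,4,5}} : Finset (Finset ℕ)).biUnion id) = Finset.Icc 1 5 := by
      decide
    rw [e] at hf hT
    exact hsix (5, {{1,2,3},{1,3,4},{1,4,5}})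
      (by simp [Pool.Agent.Results.MP_28acb3_co.EightVertex.theSix]) ⟨f, hf, hT⟩
  · have e : (({{1,2,3},{1,3,4},{1,4,5},{1,2,5}} : Finset (Finset ℕ)).biUnion id) =
        Finset.Icc 1 5 := by
      decide
    rw [e] at hf hT
    exact hsix (5, {{1,2,3},{1,3,4},{1,4,5},{1,2,5}})
      (by simp [Pool.Agent.Results.MP_28acb3_co.EightVertex.theSix]) ⟨f, hf, hT⟩
  · have e : (({{1,2,3},{2,3,4},{3,4,5},{4,5,1},{5,1,2}} : Finset (Finset ℕ)).biUnion id) =
        Finset.Icc 1 5 := by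
      decide
    rw [e] at hf hT
    exact hsix (5, {{1,2,3},{2,3,4},{3,4,5},{4,5,1},{5,1,2}})
      (by simp [Pool.Agent.Results.MP_28acb3_co.EightVertex.theSix]) ⟨f, hf, hT⟩
  · have e : (({{1,2,4},{2,3,5},{3,4,6},{4,5,1},{5,6,2},{6,1,3},{1,3,5},{2,4,6}} :
        Finset (Finset ℕ)).biUnion id) = Finset.Icc 1 6 := by
      decide
    rw [e] at hf hT
    exact hsix (6, {{1,2,4},{2,3,5},{3,4,6},{4,5,1},{5,6,2},{6,1,3},{1,3,5},{2,4,6}})
      (by simp [Pool.Agent.Results.MP_28acb3_co.EightVertex.theSix]) ⟨f, hf, hT⟩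

end Pool.Agent.S05268
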