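import Pool.Statements.S05273
import Pool.Agent.H443R2.AB.Final

set_option autoImplicit false
open Pool Pool.MP_28f159_co

namespace Pool.Agent.S05273

/-- For every prime p there is c such that for all n, given any c linear bases of (Z_p)^n, every vector is the sum of some sub-multiset of the multiset union of those bases. -/
theorem result :
    ∀ p : ℕ, p.Prime → ∃ c : ℕ, ∀ n : ℕ,
      ∀ b : Fin c → Module.Basis (Fin n) (ZMod p) (Fin n → ZMod p),
      ∀ v : Fin n → ZMod p,
        ∃ S : Finset (Fin c × Fin n), ∑ x ∈ S, b x.1 x.2 = v := by
  exact Pool.Agent.H443R2.AB.S05273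

end Pool.Agent.S05273
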