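import Pool.Statements.S05279
-- import your own Pool.Agent.* helpers here

set_option autoImplicit false
open Pool Pool.MP_29c0fe_co

namespace Pool.Agent.S05279

/-- the out-neighbourhoods of the nine vertices -/
def nb : List (List ℕ) := [[1, 7], [5, 6], [3, 4, 6], [5, 7, 8], [0, 1, 6, 8], [0, 4], [0, 3, 5],
  [1, 2, 4, 5], [0, 2, 6, 7]]

/-- for each arc, a Hamilton circuit of the digraph with that arc reversed -/
def tbl : List (List (List ℕ)) := [
  [[], [0, 7, 2, 3, 8, 6, 5, 4, 1], [], [], [], [], [], [0, 1, 5, 4, 8, 2, 6, 3, 7], []],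
  [[], [], [], [], [], [0, 7, 4, 8, 2, 3, 5, 1, 6], [0, 7, 2, 3, 8, 6, 1, 5, 4], [], []],
  [[], [], [], [0, 1, 6, 3, 2, 4, 8, 7, 5], [0, 7, 1, 5, 4, 2, 3, 8, 6], [], [0, 1, 6, 2, 3, 7, 5, 4, 8], [], []],
  [[], [], [], [], [], [0, 1, 5, 3, 7, 2, 4, 8, 6], [], [0, 7, 3, 8, 2, 4, 1, 6, 5], [0, 1, 5, 4, 8, 3, 7, 2, 6]],
  [[0, 4, 8, 2, 3, 7, 1, 6, 5], [0, 1, 4, 8, 2, 6, 3, 7, 5], [], [], [], [], [0, 1, 6, 4, 8, 2, 3, 7, 5], [], [0, 7, 2, 3, 8, 4, 1, 6, 5]],
  [[0, 5, 4, 8, 2, 3, 7, 1, 6], [], [], [], [0, 1, 6, 3, 8, 7, 2, 4, 5], [], [], [], []],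
  [[0, 6, 3, 8, 7, 2, 4, 1, 5], [], [], [0, 1, 5, 4, 8, 7, 2, 3, 6], [], [0, 1, 5, 6, 3, 7, 2, 4, 8], [], [], []],
  [[], [0, 1, 7, 2, 3, 5, 4, 8, 6], [0, 1, 6, 3, 8, 2, 7, 5, 4], [], [0, 1, 5, 4, 7, 2, 3, 8, 6], [0, 1, 5, 7, 2, 4, 6, 3, 8], [], [], []],
  [[0, 8, 2, 3, 7, 1, 5, 4, 6], [], [0, 1, 5, 4, 6, 3, 7, 2, 8], [], [], [], [0, 1, 6, 8, 2, 3, 7, 5, 4], [0, 7, 8, 2, 3, 5, 4, 1, 6], []]]

/-- adjacency of the digraph -/
def adj (u v : Fin 9) : Bool := ((nb.getD u.1 []).contains v.1)

/-- the vertex at position `i` of the circuit for the arc `(a, b)` -/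
def cyc (a b i : Fin 9) : Fin 9 :=
  Fin.ofNat 9 ((((tbl.getD a.1 []).getD b.1 []).getD i.1 0))

/-- depth-first search for a Hamilton circuit: extends a path with visited vertices `vis` and last
vertex `cur` by `k` further vertices, and closes it at `0` -/
def search : ℕ → List (Fin 9) → Fin 9 → Bool
  | 0, _, cur => adj cur 0
  | k + 1, vis, cur => (List.finRange 9).any fun w => adj cur w && !(vis.contains w) &&
      search k (w :: vis) w

theorem search_eq : search 8 [0] 0 = false := by decide +kernel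

/-- a Hamilton circuit starting at `0` is found by the search -/
theorem search_of (f : ℕ → Fin 9) (hinj : ∀ i j, i < 9 → j < 9 → f i = f j → i = j)
    (hadj : ∀ i, i < 8 → adj (f i) (f (i + 1)) = true) (hlast : adj (f 8) 0 = true) :
    ∀ k, k ≤ 8 → search k ((List.range (9 - k)).map f).reverse (f (8 - k)) = true := by
  intro k
  induction k with
  | zero => intro _; simpa [search] using hlast
  | succ k ih =>
    intro hk
    have h1 := ih (by omega)
    unfold search
    rw [List.any_eq_true]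
    refine ⟨f (8 - k), List.mem_finRange _, ?_⟩
    have e1 : 8 - (k + 1) + 1 = 8 - k := by omega
    have h2 : adj (f (8 - (k + 1))) (f (8 - k)) = true := by
      rw [← e1]; exact hadj _ (by omega)
    have e2 : 9 - k = (9 - (k + 1)) + 1 := by omega
    have e3 : 9 - (k + 1) = 8 - k := by omega
    rw [e2, List.range_succ, List.map_append, List.reverse_append] at h1
    simp only [List.map_cons, List.map_nil, List.reverse_cons, List.reverse_nil, List.nil_append,
      List.cons_append] at h1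
    rw [e3] at h1
    rw [h2, e3, h1]
    have h3 : ((List.map f (List.range (8 - k))).reverse.contains (f (8 - k))) = false := by
      rw [Bool.eq_false_iff]
      intro hc
      rw [List.contains_iff_mem] at hc
      simp only [List.mem_reverse, List.mem_map, List.mem_range] at hc
      obtain ⟨a, ha, hfa⟩ := hc
      have := hinj a (8 - k) (by omega) (by omega) hfa
      omega
    rw [h3]
    rfl

/-- There is a finite oriented graph with at least one arc and no directed Hamiltonian cycle, such that reversing any single arc yields an oriented graph that has a directed Hamiltonian cycle. -/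
theorem result :
    ∃ n : ℕ, ∃ r : Fin n → Fin n → Prop,
      (∀ u v : Fin n, r u v → ¬ r v u) ∧
      (∃ a b : Fin n, r a b) ∧
      ¬ (∃ σ : Equiv.Perm (Fin n), ∀ i : Fin n, r (σ i) (σ (finRotate n i))) ∧
      ∀ a b : Fin n, r a b →
        ∃ σ : Equiv.Perm (Fin n), ∀ i : Fin n,
          ((r (σ i) (σ (finRotate n i)) ∧ ¬ (σ i = a ∧ σ (finRotate n i) = b)) ∨
            (σ i = b ∧ σ (finRotate n i) = a)) := by
  refine ⟨9, fun u v => adj u v = true, by decide +kernel, ⟨0, 1, by decide +kernel⟩, ?_, ?_⟩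
  · rintro ⟨σ, hσ⟩
    have hrot : ∀ i : Fin 9, finRotate 9 i = i + 1 := fun i => finRotate_succ_apply i
    simp only [hrot] at hσ
    obtain ⟨j, hj⟩ := σ.surjective 0
    have h := search_of (fun t => σ (j + Fin.ofNat 9 t)) ?_ ?_ ?_ 8 le_rfl
    · have h0 : (j + Fin.ofNat 9 0 : Fin 9) = j := by simp
      simp only [Nat.sub_self] at h
      rw [h0, hj] at h
      have h9 : (List.map (fun t => σ (j + Fin.ofNat 9 t)) (List.range (9 - 8))).reverse
          = [(0 : Fin 9)] := by
        simp [List.range_succ, hj]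
      rw [h9, search_eq] at h
      exact absurd h (by decide)
    · intro a b ha hb hab
      have h1 := add_left_cancel (σ.injective hab)
      have h2 := congrArg Fin.val h1
      simp only [Fin.val_ofNat] at h2
      rwa [Nat.mod_eq_of_lt ha, Nat.mod_eq_of_lt hb] at h2
    · intro i hi
      have h1 := hσ (j + Fin.ofNat 9 i)
      have h2 : (j + Fin.ofNat 9 i + 1 : Fin 9) = j + Fin.ofNat 9 (i + 1) := by
        rw [add_assoc]
        congr 1
        interval_cases i <;> rfl
      rw [h2] at h1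
      exact h1
    · have h1 := hσ (j + Fin.ofNat 9 8)
      have h2 : (j + Fin.ofNat 9 8 + 1 : Fin 9) = j := by
        rw [add_assoc]
        have : (Fin.ofNat 9 8 + 1 : Fin 9) = 0 := by decide
        rw [this, add_zero]
      rw [h2, hj] at h1
      exact h1
  · intro a b hab
    have hinj : ∀ a b : Fin 9, adj a b = true → ∀ i j : Fin 9, cyc a b i = cyc a b j → i = j := by
      decide +kernel
    have hcyc : ∀ a b : Fin 9, adj a b = true → ∀ i : Fin 9,
        ((adj (cyc a b i) (cyc a b (i + 1)) = true ∧ ¬ (cyc a b i = a ∧ cyc a b (i + 1) = b)) ∨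
            (cyc a b i = b ∧ cyc a b (i + 1) = a)) := by
      decide +kernel
    refine ⟨Equiv.ofBijective (cyc a b) (Finite.injective_iff_bijective.1 (hinj a b hab)), ?_⟩
    intro i
    have hrot : finRotate 9 i = i + 1 := finRotate_succ_apply i
    rw [hrot]
    exact hcyc a b hab i

end Pool.Agent.S05279
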