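import Pool.Statements.S05315
import Pool.Agent.H331R2.ChromLC

set_option autoImplicit false
open Pool Pool.MP_2c0ab4_co

namespace Pool.Agent.S05315

open Pool.Agent.H331R2.ChromLC in
/-- For every finite simple graph on n vertices with chromatic polynomial P (the real polynomial counting proper k-colorings at each natural k), and every real x ≥ n, P(x+1)·P(x−1) ≤ P(x)². -/
theorem result :
    ∀ (V : Type) [Fintype V] (G : SimpleGraph V) (p : Polynomial ℝ),
      (∀ k : ℕ, p.eval (k : ℝ) = (Nat.card (G.Coloring (Fin k)) : ℝ)) →
      ∀ x : ℝ, (Fintype.card V : ℝ) ≤ x →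
        p.eval (x + 1) * p.eval (x - 1) ≤ p.eval x ^ 2 := by
  classical
  intro V _ G p hp x hx
  have hpP : p = P G Finset.univ := by
    apply poly_ext
    intro k
    rw [hp k, P_nat, card_C_univ]
  subst hpP
  have hclosed : IsClosed {t : ℝ | (P G Finset.univ).eval (t + 1) * (P G Finset.univ).eval (t - 1)
      ≤ (P G Finset.univ).eval t ^ 2} := by
    apply isClosed_le
    · exact ((P G Finset.univ).continuous.comp (continuous_id.add continuous_const)).mul
        ((P G Finset.univ).continuous.comp (continuous_id.sub continuous_const))
    · exact (P G Finset.univ).continuous.pow 2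
  have hsub : Set.Ioi (Fintype.card V : ℝ) ⊆ {t : ℝ | (P G Finset.univ).eval (t + 1) *
      (P G Finset.univ).eval (t - 1) ≤ (P G Finset.univ).eval t ^ 2} := by
    intro t ht
    exact logconcave G Finset.univ t (by simpa using ht)
  have h2 := closure_minimal hsub hclosed
  rw [closure_Ioi] at h2
  exact h2 hx

end Pool.Agent.S05315
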