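import Pool.Statements.S05384
-- import your own Pool.Agent.* helpers here

set_option autoImplicit false
open Pool Pool.MP_308b22_co

namespace Pool.Agent.S05384

/-! The counterexample: the 15 midpoints (up to scaling) of the edges of the Petersen graph, seen
as the points `e_u + e_v` of `ℝ^10`, with `m = 3`.  The 3-core is the single point
`(1/5, …, 1/5)`, and that point is not 3-divisible because the Petersen graph has no proper
3-edge-colouring. -/

/-- First endpoint of an edge of the Petersen graph. Edges 0-4: outer cycle, 5-9: spokes,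
10-14: inner pentagram. -/
def eA : Fin 15 → Fin 10 := ![0, 1, 2, 3, 4, 0, 1, 2, 3, 4, 5, 6, 7, 8, 9]
/-- Second endpoint. -/
def eB : Fin 15 → Fin 10 := ![1, 2, 3, 4, 0, 5, 6, 7, 8, 9, 7, 8, 9, 5, 6]

/-- The edge point. -/
noncomputable def P (k : Fin 15) : EuclideanSpace ℝ (Fin 10) :=
  EuclideanSpace.single (eA k) (1 : ℝ) + EuclideanSpace.single (eB k) (1 : ℝ)

/-- incidence -/
def inc (k : Fin 15) (v : Fin 10) : Bool := decide (eA k = v) || decide (eB k = v)

theorem P_apply (k : Fin 15) (v : Fin 10) : P k v = if inc k v then 1 else 0 := by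
  have h : eA k ≠ eB k := by revert k; decide
  unfold P inc
  simp only [PiLp.add_apply, PiLp.single_apply]
  by_cases h1 : eA k = v
  · have h2 : ¬ (eB k = v) := fun h2 => h (h1.trans h2.symm)
    simp [h1, h2, Ne.symm h2]
  · by_cases h2 : eB k = v
    · simp [h1, h2, Ne.symm h1]
    · simp [h1, h2, Ne.symm h1, Ne.symm h2]

theorem P_inj : Function.Injective P := by
  intro k l h
  have h1 : ∀ v, inc k v = inc l v := by
    intro v
    have h2 := congrArg (fun x : EuclideanSpace ℝ (Fin 10) => x v) h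
    simp only [P_apply] at h2
    by_cases hk : inc k v = true <;> by_cases hl : inc l v = true <;> simp_all
  revert h1
  clear h
  revert k l
  decide

/-- The point set. -/
noncomputable def SS : Finset (EuclideanSpace ℝ (Fin 10)) := Finset.univ.image P

/-- The centre. -/
noncomputable def y0 : EuclideanSpace ℝ (Fin 10) := WithLp.toLp 2 (fun _ => (1 / 5 : ℝ))

theorem y0_apply (v : Fin 10) : y0 v = 1 / 5 := rfl

theorem inner_P (a : EuclideanSpace ℝ (Fin 10)) (k : Fin 15) :
    inner ℝ a (P k) = a (eA k) + a (eB k) := by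
  unfold P
  rw [inner_add_right]
  simp [EuclideanSpace.inner_single_right]

theorem inner_y0 (a : EuclideanSpace ℝ (Fin 10)) :
    inner ℝ a y0 = (1 / 5) * ∑ v, a v := by
  rw [PiLp.inner_apply, Finset.mul_sum]
  apply Finset.sum_congr rfl
  intro v _
  rw [y0_apply]
  simp [mul_comm]

/-- The six perfect matchings. -/
def M : Fin 6 → Finset (Fin 15) :=
  ![{5, 6, 7, 8, 9}, {5, 1, 3, 11, 12}, {6, 2, 4, 12, 13}, {7, 3, 0, 13, 14}, {8, 4, 1, 14, 10},
    {9, 0, 2, 10, 11}]

theorem M_sum (i : Fin 6) (a : EuclideanSpace ℝ (Fin 10)) :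
    ∑ k ∈ M i, (a (eA k) + a (eB k)) = ∑ v, a v := by
  have h := Fin.sum_univ_succ (fun v => a v)
  fin_cases i <;>
  simp [M, eA, eB, Fin.sum_univ_succ, Fin.succ] <;> ring

theorem M_card (i : Fin 6) : (M i).card = 5 := by
  revert i; decide

theorem M_two (k : Fin 15) : (Finset.univ.filter (fun i => k ∈ M i)).card = 2 := by
  revert k; decide

/-- A set of edges which meets all six perfect matchings has at least three elements. -/
theorem hitting (F : Finset (Fin 15)) (hF : ∀ i, ∃ k ∈ M i, k ∈ F) : 3 ≤ F.card := by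
  have h1 : ∑ i : Fin 6, (F.filter (fun k => k ∈ M i)).card = 2 * F.card := by
    simp_rw [Finset.card_filter]
    rw [Finset.sum_comm]
    have : ∀ k ∈ F, ∑ i : Fin 6, (if k ∈ M i then 1 else 0) = 2 := by
      intro k _
      rw [← Finset.card_filter]
      exact M_two k
    rw [Finset.sum_congr rfl this]
    simp [mul_comm]
  have h2 : ∑ i : Fin 6, 1 ≤ ∑ i : Fin 6, (F.filter (fun k => k ∈ M i)).card := by
    apply Finset.sum_le_sum
    intro i _
    obtain ⟨k, hk, hkF⟩ := hF i
    exact Finset.card_pos.mpr ⟨k, by simp [hk, hkF]⟩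
  simp only [Finset.sum_const, Finset.card_univ, Fintype.card_fin] at h2
  simp only [smul_eq_mul] at h2
  omega

theorem filter_card (p : EuclideanSpace ℝ (Fin 10) → Prop) [DecidablePred p] :
    (SS.filter p).card = (Finset.univ.filter (fun k => p (P k))).card := by
  unfold SS
  rw [Finset.filter_image, Finset.card_image_of_injective _ P_inj]

theorem y0_core (a : EuclideanSpace ℝ (Fin 10)) (b : ℝ) (h : inner ℝ a y0 ≤ b) :
    3 ≤ (SS.filter (fun x => inner ℝ a x ≤ b)).card := by
  rw [filter_card]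
  apply hitting
  intro i
  by_contra hcon
  push Not at hcon
  have h1 : ∀ k ∈ M i, b < a (eA k) + a (eB k) := by
    intro k hk
    have := hcon k hk
    simp only [Finset.mem_filter, Finset.mem_univ, true_and, not_le, inner_P] at this
    exact this
  have h2 : ∑ k ∈ M i, b < ∑ k ∈ M i, (a (eA k) + a (eB k)) := by
    apply Finset.sum_lt_sum_of_nonempty
    · rw [← Finset.card_pos, M_card]; norm_num
    · exact h1
  rw [M_sum, Finset.sum_const, M_card] at h2
  rw [inner_y0] at h
  simp at h2
  linarith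

/-- the core -/
def core : Set (EuclideanSpace ℝ (Fin 10)) :=
  {z : EuclideanSpace ℝ (Fin 10) |
            ∀ (a : EuclideanSpace ℝ (Fin 10)) (b : ℝ), a ≠ 0 → inner ℝ a z ≤ b →
              3 ≤ (SS.filter (fun x => inner ℝ a x ≤ b)).card}

theorem core_adj (z : EuclideanSpace ℝ (Fin 10)) (hz : z ∈ core) (k : Fin 15) :
    z (eA k) ≤ z (eB k) ∧ z (eB k) ≤ z (eA k) := by
  have key : ∀ u v : Fin 10, u ≠ v →
      ((Finset.univ : Finset (Fin 15)).filter
        (fun k => (inc k u = true ∧ inc k v = false))).card ≤ 2 → z u ≤ z v := by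
    intro u v huv hc
    by_contra hlt
    push Not at hlt
    have ha : (EuclideanSpace.single v (1 : ℝ) - EuclideanSpace.single u (1 : ℝ) :
        EuclideanSpace ℝ (Fin 10)) ≠ 0 := by
      intro h
      have := congrArg (fun x : EuclideanSpace ℝ (Fin 10) => x v) h
      simp [huv.symm] at this
    have h3 := hz _ (z v - z u) ha (by
      rw [inner_sub_left]; simp [EuclideanSpace.inner_single_left])
    rw [filter_card] at h3
    have h4 : (Finset.univ.filter (fun k => inner ℝ
        (EuclideanSpace.single v (1 : ℝ) - EuclideanSpace.single u (1 : ℝ) :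
        EuclideanSpace ℝ (Fin 10)) (P k) ≤ z v - z u)) ⊆
        ((Finset.univ : Finset (Fin 15)).filter
        (fun k => (inc k u = true ∧ inc k v = false))) := by
      intro k hk
      simp only [Finset.mem_filter, Finset.mem_univ, true_and] at hk ⊢
      rw [inner_sub_left] at hk
      simp only [EuclideanSpace.inner_single_left, map_one, one_mul, P_apply] at hk
      by_cases h5 : inc k u = true <;> by_cases h6 : inc k v = true <;> simp_all <;> linarith
    have := Finset.card_le_card h4
    omega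
  constructor
  · apply key
    · revert k; decide
    · revert k; decide
  · apply key
    · revert k; decide
    · revert k; decide

theorem core_sum (z : EuclideanSpace ℝ (Fin 10)) (hz : z ∈ core) : ∑ v, z v = 2 := by
  have hone : ∀ c : ℝ, ∀ x : EuclideanSpace ℝ (Fin 10),
      inner ℝ (WithLp.toLp 2 (fun _ => c) : EuclideanSpace ℝ (Fin 10)) x = c * ∑ v, x v := by
    intro c x
    rw [PiLp.inner_apply, Finset.mul_sum]
    apply Finset.sum_congr rfl
    intro v _
    simp [mul_comm]
  have hne : ∀ c : ℝ, c ≠ 0 →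
      (WithLp.toLp 2 (fun _ => c) : EuclideanSpace ℝ (Fin 10)) ≠ 0 := by
    intro c hc h
    exact hc (congrArg (fun x : EuclideanSpace ℝ (Fin 10) => x 0) h)
  have hP : ∀ k, ∑ v, P k v = 2 := by
    intro k
    have := inner_P (WithLp.toLp 2 (fun _ => (1 : ℝ))) k
    rw [hone] at this
    simp at this
    rw [this]; norm_num
  rcases lt_trichotomy (∑ v, z v) 2 with h | h | h
  · exfalso
    have h1 := hz (WithLp.toLp 2 (fun _ => (1 : ℝ))) (∑ v, z v) (hne 1 one_ne_zero)
      (by rw [hone]; simp)
    rw [filter_card] at h1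
    simp only [hone, hP] at h1
    have h5 : ¬ (1 * 2 ≤ ∑ v, z v) := by linarith
    simp only [h5, Finset.filter_false] at h1
    simp at h1
  · exact h
  · exfalso
    have h1 := hz (WithLp.toLp 2 (fun _ => (-1 : ℝ))) (-∑ v, z v)
      (hne (-1) (by norm_num)) (by rw [hone]; simp)
    rw [filter_card] at h1
    simp only [hone, hP] at h1
    have h5 : ¬ ((-1 : ℝ) * 2 ≤ -∑ v, z v) := by linarith
    simp only [h5, Finset.filter_false] at h1
    simp at h1

theorem core_eq (z : EuclideanSpace ℝ (Fin 10)) (hz : z ∈ core) : z = y0 := by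
  have h := fun k => le_antisymm (core_adj z hz k).1 (core_adj z hz k).2
  have hs := core_sum z hz
  have e0 := h 0
  have e1 := h 1
  have e2 := h 2
  have e3 := h 3
  have e5 := h 5
  have e6 := h 6
  have e7 := h 7
  have e8 := h 8
  have e9 := h 9
  simp [eA, eB] at e0 e1 e2 e3 e5 e6 e7 e8 e9
  have hs' : z 0 + z 1 + z 2 + z 3 + z 4 + z 5 + z 6 + z 7 + z 8 + z 9 = 2 := by
    rw [← hs]
    simp [Fin.sum_univ_succ, Fin.succ]
    ring
  ext v
  rw [y0_apply]
  fin_cases v <;> simp <;> linarith

/-- The Petersen graph has no proper 3-edge-colouring, in the form: no colouring of the edges with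
three colours shows all three colours at every vertex. -/
theorem petersen (c : Fin 15 → Fin 3) :
    ¬ (∀ v : Fin 10, ∀ i : Fin 3, ∃ k, inc k v = true ∧ c k = i) := by
  intro h
  have tri : ∀ (v : Fin 10) (p q r : Fin 15), (∀ k, inc k v = true → k = p ∨ k = q ∨ k = r) →
      (c p ≠ c q ∧ c r = -(c p + c q)) := by
    intro v p q r hv
    have h1 : ∀ i : Fin 3, i = c p ∨ i = c q ∨ i = c r := by
      intro i
      obtain ⟨k, hk, hki⟩ := h v i
      rcases hv k hk with rfl | rfl | rfl <;> simp [hki]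
    have key : ∀ x y w : Fin 3, (∀ i : Fin 3, i = x ∨ i = y ∨ i = w) →
        (x ≠ y ∧ w = -(x + y)) := by decide
    exact key _ _ _ h1
  have t0 := tri 0 0 4 5 (by decide)
  have t1 := tri 1 0 1 6 (by decide)
  have t2 := tri 2 1 2 7 (by decide)
  have t3 := tri 3 2 3 8 (by decide)
  have t4 := tri 4 3 4 9 (by decide)
  have t5 := tri 5 5 10 13 (by decide)
  have t6 := tri 6 6 11 14 (by decide)
  have t7 := tri 7 7 12 10 (by decide)
  have t8 := tri 8 8 13 11 (by decide)
  have t9 := tri 9 9 14 12 (by decide)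
  have key : ∀ c0 c1 c2 c3 c4 c10 c11 c12 : Fin 3,
      c0 ≠ c4 → c0 ≠ c1 → c1 ≠ c2 → c2 ≠ c3 → c3 ≠ c4 →
      -(c0 + c4) ≠ c10 → -(c0 + c1) ≠ c11 → -(c1 + c2) ≠ c12 → c10 = -(-(c1 + c2) + c12) →
      -(c2 + c3) ≠ -(-(c0 + c4) + c10) → c11 = -(-(c2 + c3) + -(-(c0 + c4) + c10)) →
      -(c3 + c4) ≠ -(-(c0 + c1) + c11) → c12 = -(-(c3 + c4) + -(-(c0 + c1) + c11)) → False := by
    decide +kernel
  obtain ⟨t0, h5⟩ := t0
  obtain ⟨t1, h6⟩ := t1
  obtain ⟨t2, h7⟩ := t2
  obtain ⟨t3, h8⟩ := t3
  obtain ⟨t4, h9⟩ := t4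
  obtain ⟨t5, h13⟩ := t5
  obtain ⟨t6, h14⟩ := t6
  obtain ⟨t7, h10⟩ := t7
  obtain ⟨t8, h11⟩ := t8
  obtain ⟨t9, h12⟩ := t9
  rw [h5] at t5 h13
  rw [h6] at t6 h14
  rw [h7] at t7 h10
  rw [h8] at t8 h11
  rw [h9] at t9 h12
  rw [h13] at t8 h11
  rw [h14] at t9 h12
  exact key (c 0) (c 1) (c 2) (c 3) (c 4) (c 10) (c 11) (c 12) t0 t1 t2 t3 t4 t5 t6 t7 h10 t8 h11
    t9 h12


/-- The negation of the preceding statement: For d,m ≥ 1 and finite S in R^d, every extreme point of the m-core (points whose every containing closed half-space holds at least m points of S) admits a partition of S into m parts whose convex hulls all contain it. -/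
theorem result :
    ¬ (∀ (d m : ℕ), 1 ≤ d → 1 ≤ m → ∀ (S : Finset (EuclideanSpace ℝ (Fin d))),
      ∀ y ∈ Set.extremePoints ℝ
          {z : EuclideanSpace ℝ (Fin d) |
            ∀ (a : EuclideanSpace ℝ (Fin d)) (b : ℝ), a ≠ 0 → inner ℝ a z ≤ b →
              m ≤ (S.filter (fun x => inner ℝ a x ≤ b)).card},
        ∃ f : EuclideanSpace ℝ (Fin d) → Fin m, ∀ i : Fin m,
          y ∈ convexHull ℝ
            ((S.filter (fun x => f x = i) : Finset (EuclideanSpace ℝ (Fin d))) :
              Set (EuclideanSpace ℝ (Fin d)))) := by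
  intro H
  have hext : y0 ∈ Set.extremePoints ℝ
          {z : EuclideanSpace ℝ (Fin 10) |
            ∀ (a : EuclideanSpace ℝ (Fin 10)) (b : ℝ), a ≠ 0 → inner ℝ a z ≤ b →
              3 ≤ (SS.filter (fun x => inner ℝ a x ≤ b)).card} := by
    refine ⟨fun a b _ h => y0_core a b h, ?_⟩
    intro x hx z hz _
    exact core_eq x hx
  obtain ⟨f, hf⟩ := H 10 3 (by norm_num) (by norm_num) SS y0 hext
  apply petersen (fun k => f (P k))
  intro v i
  by_contra hcon
  push Not at hcon
  have h1 : convexHull ℝ ((SS.filter (fun x => f x = i) :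
      Finset (EuclideanSpace ℝ (Fin 10))) : Set (EuclideanSpace ℝ (Fin 10))) ⊆
      {x : EuclideanSpace ℝ (Fin 10) | x v = 0} := by
    apply convexHull_min
    · intro x hx
      simp only [Finset.coe_filter, SS, Finset.mem_image, Finset.mem_univ, true_and,
        Set.mem_ofPred_eq] at hx
      obtain ⟨⟨k, rfl⟩, hk⟩ := hx
      have h2 : ¬ (inc k v = true) := fun h2 => hcon k h2 hk
      simp [P_apply, h2]
    · intro x hx z hz a b _ _ _
      simp only [Set.mem_ofPred_eq] at hx hz ⊢
      simp [hx, hz]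
  have h3 := h1 (hf i)
  simp only [Set.mem_ofPred_eq, y0_apply] at h3
  norm_num at h3


end Pool.Agent.S05384
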