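import Pool.Statements.S05390
import Pool.Agent.H221R2.TolNest

set_option autoImplicit false
open Pool Pool.MP_30b0f7_co

namespace Pool.Agent.S05390

open Pool.Agent.Helper997.NeST Pool.Agent.H221R2.WTree Pool.Agent.H221R2.TolNest

/-- Vertices: points `(p, l)` (unbounded tolerance) and rectangles `(i, j, M)`. -/
abbrev Vt (N : ℕ) := (Fin N × Fin N) ⊕ (Fin N × Fin N × Fin N)

/-- Left end point. -/
noncomputable def lo {N : ℕ} : Vt N → ℝ
  | .inl v => 8 * N * (v.1 : ℕ) - 8 * N + (v.2 : ℕ)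
  | .inr x => 8 * N * (x.1 : ℕ) - 8 * N - 2 * N

/-- Right end point. -/
noncomputable def hi {N : ℕ} : Vt N → ℝ
  | .inl v => 8 * N * (v.1 : ℕ) + 8 * N - (v.2 : ℕ)
  | .inr x => 8 * N * (max (x.1 : ℕ) (x.2.1 : ℕ) : ℕ) + 8 * N + 2 * N

/-- Tolerance. -/
noncomputable def tl {N : ℕ} : Vt N → ℝ
  | .inl _ => 16 * N
  | .inr x => 16 * N - 2 * (x.2.2 : ℕ)

lemma lt_cast {N : ℕ} (a : Fin N) : ((a : ℕ) : ℝ) + 1 ≤ N := by
  have := a.isLt
  exact_mod_cast this

lemma lo_le_hi {N : ℕ} (v : Vt N) : lo v ≤ hi v := by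
  rcases v with v | x
  · have h1 := lt_cast v.2
    have h2 : (0 : ℝ) ≤ ((v.2 : ℕ) : ℝ) := Nat.cast_nonneg _
    simp only [lo, hi]
    linarith
  · have h1 := lt_cast x.1
    have h2 : (0 : ℝ) ≤ ((x.1 : ℕ) : ℝ) := Nat.cast_nonneg _
    have h3 : ((x.1 : ℕ) : ℝ) ≤ ((max (x.1 : ℕ) (x.2.1 : ℕ) : ℕ) : ℝ) := by
      exact_mod_cast le_max_left _ _
    simp only [lo, hi]
    have hN : (0 : ℝ) ≤ N := by linarith
    nlinarith

lemma tl_pos {N : ℕ} (v : Vt N) : 0 < tl v := by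
  rcases v with v | x
  · have h1 := lt_cast v.2
    have h2 : (0 : ℝ) ≤ ((v.2 : ℕ) : ℝ) := Nat.cast_nonneg _
    simp only [tl]
    linarith
  · have h1 := lt_cast x.2.2
    have h2 : (0 : ℝ) ≤ ((x.2.2 : ℕ) : ℝ) := Nat.cast_nonneg _
    simp only [tl]
    linarith

/-- The tolerance rule. -/
def Rule {N : ℕ} (u v : Vt N) : Prop := min (tl u) (tl v) ≤ min (hi u) (hi v) - max (lo u) (lo v)

lemma Rule.symm {N : ℕ} {u v : Vt N} (h : Rule u v) : Rule v u := by
  unfold Rule at *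
  rw [min_comm (tl v), min_comm (hi v), max_comm (lo v)]
  exact h

lemma rule_iff {N : ℕ} (p l i j M : Fin N) (hij : (i : ℕ) < j) :
    Rule (.inr (i, j, M)) (.inl (p, l)) ↔ ((i : ℕ) ≤ p ∧ (p : ℕ) ≤ j ∧ (l : ℕ) ≤ M) := by
  have hl := lt_cast l
  have hM := lt_cast M
  have hl0 : (0 : ℝ) ≤ ((l : ℕ) : ℝ) := Nat.cast_nonneg _
  have hM0 : (0 : ℝ) ≤ ((M : ℕ) : ℝ) := Nat.cast_nonneg _
  have hN : (0 : ℝ) < N := by linarith
  have hmax : max (i : ℕ) (j : ℕ) = j := max_eq_right hij.le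
  unfold Rule
  simp only [tl, hi, lo, hmax]
  have e1 : min (16 * (N : ℝ) - 2 * ((M : ℕ) : ℝ)) (16 * N) = 16 * N - 2 * ((M : ℕ) : ℝ) :=
    min_eq_left (by linarith)
  rw [e1]
  constructor
  · intro h
    have h1 := h.trans (sub_le_sub (min_le_right _ _) (le_max_right _ _))
    have h2 := h.trans (sub_le_sub (min_le_right _ _) (le_max_left _ _))
    have h3 := h.trans (sub_le_sub (min_le_left _ _) (le_max_right _ _))
    refine ⟨?_, ?_, ?_⟩
    · by_contra hcon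
      push Not at hcon
      have h4 : ((p : ℕ) : ℝ) + 1 ≤ ((i : ℕ) : ℝ) := by exact_mod_cast hcon
      have h5 : (N : ℝ) * (((p : ℕ) : ℝ) + 1) ≤ N * ((i : ℕ) : ℝ) :=
        mul_le_mul_of_nonneg_left h4 hN.le
      nlinarith
    · by_contra hcon
      push Not at hcon
      have h4 : ((j : ℕ) : ℝ) + 1 ≤ ((p : ℕ) : ℝ) := by exact_mod_cast hcon
      have h5 : (N : ℝ) * (((j : ℕ) : ℝ) + 1) ≤ N * ((p : ℕ) : ℝ) :=
        mul_le_mul_of_nonneg_left h4 hN.le
      nlinarith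
    · have h4 : ((l : ℕ) : ℝ) ≤ ((M : ℕ) : ℝ) := by linarith
      exact_mod_cast h4
  · rintro ⟨h1, h2, h3⟩
    have h1' : ((i : ℕ) : ℝ) ≤ ((p : ℕ) : ℝ) := by exact_mod_cast h1
    have h2' : ((p : ℕ) : ℝ) ≤ ((j : ℕ) : ℝ) := by exact_mod_cast h2
    have h3' : ((l : ℕ) : ℝ) ≤ ((M : ℕ) : ℝ) := by exact_mod_cast h3
    have h5 : (N : ℝ) * ((i : ℕ) : ℝ) ≤ N * ((p : ℕ) : ℝ) := mul_le_mul_of_nonneg_left h1' hN.le
    have h6 : (N : ℝ) * ((p : ℕ) : ℝ) ≤ N * ((j : ℕ) : ℝ) := mul_le_mul_of_nonneg_left h2' hN.le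
    rw [min_eq_right (by linarith), max_eq_right (by linarith)]
    linarith

/-- No tree-like function with thresholds represents the pattern of points and rectangles if `N`
is large. -/
lemma no_rep : ∃ N : ℕ, ∀ (D : Vt N → Vt N → ℝ) (τ : Vt N → ℝ), TreeLike D →
    (∀ x y, x ≠ y → (Rule x y ↔ D x y ≤ max (τ x) (τ y))) → False := by
  classical
  obtain ⟨C, hC⟩ := RC.ramsey 5
  obtain ⟨a, ha⟩ := hC 2
  refine ⟨RC.tow C (a * (13 + 1)) + 1, ?_⟩
  set N := RC.tow C (a * (13 + 1)) + 1 with hN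
  intro D τ hD hrep
  have hNpos : 0 < N := by omega
  let f : ℕ → Fin N := fun k => ⟨k % N, Nat.mod_lt _ hNpos⟩
  let pt : ℕ → ℕ → Vt N := fun p l => .inl (f p, f l)
  let rc : ℕ → ℕ → ℕ → Vt N := fun i j M => .inr (f i, f j, f M)
  let χ : (Fin 5 → ℕ) → Fin 2 := fun x =>
    if τ (pt (x 1) (x 3)) ≤ τ (rc (x 0) (x 2) (x 4)) then 1 else 0
  obtain ⟨S, hS, hcard, hmono⟩ := ha 13 (Finset.range N) (by rw [Finset.card_range]; omega) χ
  let y : Fin 13 ↪o ℕ := S.orderEmbOfFin hcard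
  have hyS : ∀ k, y k ∈ S := fun k => Finset.orderEmbOfFin_mem S hcard k
  have hyN : ∀ k, y k < N := fun k => Finset.mem_range.mp (hS (hyS k))
  have hf : ∀ k, ((f (y k) : Fin N) : ℕ) = y k := fun k => Nat.mod_eq_of_lt (hyN k)
  have hlt : ∀ {u v : Fin 13}, u < v → y u < y v := fun h => y.strictMono h
  -- equal orientations
  have hcol : ∀ g g' : Fin 5 → Fin 13, StrictMono g → StrictMono g' →
      (τ (pt (y (g 1)) (y (g 3))) ≤ τ (rc (y (g 0)) (y (g 2)) (y (g 4))) ↔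
        τ (pt (y (g' 1)) (y (g' 3))) ≤ τ (rc (y (g' 0)) (y (g' 2)) (y (g' 4)))) := by
    intro g g' hg hg'
    have h1 := hmono (fun l => y (g l)) (fun l => y (g' l)) (fun _ _ h => y.strictMono (hg h))
      (fun _ _ h => y.strictMono (hg' h)) (fun l => hyS _) (fun l => hyS _)
    simp only [χ] at h1
    by_cases c1 : τ (pt (y (g 1)) (y (g 3))) ≤ τ (rc (y (g 0)) (y (g 2)) (y (g 4))) <;>
      by_cases c2 : τ (pt (y (g' 1)) (y (g' 3))) ≤ τ (rc (y (g' 0)) (y (g' 2)) (y (g' 4)))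
    · exact iff_of_true c1 c2
    · rw [if_pos c1, if_neg c2] at h1
      exact absurd h1 (by decide)
    · rw [if_neg c1, if_pos c2] at h1
      exact absurd h1 (by decide)
    · exact iff_of_false c1 c2
  have hadj : ∀ i j M p l : Fin 13, i < j → ((i ≤ p ∧ p ≤ j ∧ l ≤ M) ↔
      D (rc (y i) (y j) (y M)) (pt (y p) (y l)) ≤
        max (τ (rc (y i) (y j) (y M))) (τ (pt (y p) (y l)))) := by
    intro i j M p l hij
    rw [← hrep _ _ (by simp [rc, pt])]
    simp only [rc, pt]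
    rw [rule_iff _ _ _ _ _ (by rw [hf, hf]; exact hlt hij), hf, hf, hf, hf, hf,
      y.le_iff_le, y.le_iff_le, y.le_iff_le]
  -- a split
  have split : ∀ (i j M p l i' j' M' p' l' : Fin 13), StrictMono ![i, p, j, l, M] →
      StrictMono ![i', p', j', l', M'] → ¬ (i ≤ p' ∧ p' ≤ j ∧ l' ≤ M) →
      ¬ (i' ≤ p ∧ p ≤ j' ∧ l ≤ M') →
      Split D (rc (y i) (y j) (y M)) (pt (y p) (y l)) (rc (y i') (y j') (y M'))
        (pt (y p') (y l')) := by
    intro i j M p l i' j' M' p' l' h1 h2 n1 n2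
    have a1 : i < p := h1 (show (0 : Fin 5) < 1 by decide)
    have a2 : p < j := h1 (show (1 : Fin 5) < 2 by decide)
    have a3 : l < M := h1 (show (3 : Fin 5) < 4 by decide)
    have b1 : i' < p' := h2 (show (0 : Fin 5) < 1 by decide)
    have b2 : p' < j' := h2 (show (1 : Fin 5) < 2 by decide)
    have b3 : l' < M' := h2 (show (3 : Fin 5) < 4 by decide)
    refine split_of_edges hD (τ := τ) ((hadj i j M p l (a1.trans a2)).mp ⟨a1.le, a2.le, a3.le⟩)
      ((hadj i' j' M' p' l' (b1.trans b2)).mp ⟨b1.le, b2.le, b3.le⟩)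
      (not_le.mp (fun e => n1 ((hadj i j M p' l' (a1.trans a2)).mpr e)))
      (not_le.mp (fun e => n2 ((hadj i' j' M' p l (b1.trans b2)).mpr e))) ?_
    exact hcol _ _ h1 h2
  exact no_eight hD
    (x₁ := rc (y 0) (y 4) (y 12)) (x₂ := rc (y 2) (y 6) (y 12)) (x₃ := rc (y 4) (y 8) (y 12))
    (z := rc (y 0) (y 8) (y 10)) (l := pt (y 1) (y 9)) (p := pt (y 3) (y 11))
    (p' := pt (y 5) (y 11)) (r := pt (y 7) (y 9))
    (split _ _ _ _ _ _ _ _ _ _ (by decide) (by decide) (by decide) (by decide))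
    (split _ _ _ _ _ _ _ _ _ _ (by decide) (by decide) (by decide) (by decide))
    (split _ _ _ _ _ _ _ _ _ _ (by decide) (by decide) (by decide) (by decide))
    (split _ _ _ _ _ _ _ _ _ _ (by decide) (by decide) (by decide) (by decide))
    (split _ _ _ _ _ _ _ _ _ _ (by decide) (by decide) (by decide) (by decide))
    (split _ _ _ _ _ _ _ _ _ _ (by decide) (by decide) (by decide) (by decide))
    (split _ _ _ _ _ _ _ _ _ _ (by decide) (by decide) (by decide) (by decide))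
    (split _ _ _ _ _ _ _ _ _ _ (by decide) (by decide) (by decide) (by decide))

/-- The negation of the preceding statement: Every finite tolerance graph (intervals, positive tolerances, edge iff overlap length ≥ smaller tolerance) has a bounded NeST representation: neighborhood subtrees of a weighted tree, edge iff the intersection diameter ≥ smaller tolerance, each tolerance ≤ its subtree's diameter. -/
theorem result :
    ¬ (∀ (n : ℕ) (G : SimpleGraph (Fin n)),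
      (∃ (a b t : Fin n → ℝ), (∀ i, a i ≤ b i) ∧ (∀ i, 0 < t i) ∧
        ∀ i j, i ≠ j →
          (G.Adj i j ↔ min (t i) (t j) ≤ min (b i) (b j) - max (a i) (a j))) →
      ∃ (m : ℕ) (T : SimpleGraph (Fin m)) (w : Sym2 (Fin m) → ℝ)
        (d : Fin m → Fin m → ℝ) (c : Fin n → Fin m) (r t : Fin n → ℝ),
        T.IsTree ∧
        (∀ e ∈ T.edgeSet, 0 < w e) ∧
        (∀ (x y : Fin m) (p : T.Walk x y), p.IsPath → d x y = (p.edges.map w).sum) ∧
        (∀ i, 0 ≤ r i ∧ 0 ≤ t i) ∧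
        (∀ i (x y : Fin m), T.Adj x y → d (c i) x < r i → d (c i) y ≤ r i) ∧
        (∀ i, ∃ x y : Fin m, d (c i) x ≤ r i ∧ d (c i) y ≤ r i ∧ t i ≤ d x y) ∧
        ∀ i j, i ≠ j →
          (G.Adj i j ↔ ∃ x y : Fin m,
            d (c i) x ≤ r i ∧ d (c j) x ≤ r j ∧
            d (c i) y ≤ r i ∧ d (c j) y ≤ r j ∧
            min (t i) (t j) ≤ d x y)) := by
  classical
  intro hall
  obtain ⟨N, hno⟩ := no_rep
  let e : Vt N ≃ Fin (Fintype.card (Vt N)) := Fintype.equivFin _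
  let G : SimpleGraph (Fin (Fintype.card (Vt N))) :=
    { Adj := fun x y => x ≠ y ∧ Rule (e.symm x) (e.symm y)
      symm := ⟨fun x y h => ⟨h.1.symm, h.2.symm⟩⟩
      loopless := ⟨fun x h => h.1 rfl⟩ }
  obtain ⟨m, T, w, d, c, r, t, hT, hw, hpath, hrt, hbd, hsz, hadj⟩ := hall _ G
    ⟨fun x => lo (e.symm x), fun x => hi (e.symm x), fun x => tl (e.symm x),
      fun x => lo_le_hi _, fun x => tl_pos _, fun x y hxy =>
        ⟨fun h => h.2, fun h => ⟨hxy, h⟩⟩⟩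
  have hW : WT T w d := ⟨hT, hw, hpath⟩
  -- diametral pairs
  have hex : ∀ v, ∃ P : Fin m × Fin m, d (c v) P.1 ≤ r v ∧ d (c v) P.2 ≤ r v ∧
      ∀ x y, d (c v) x ≤ r v → d (c v) y ≤ r v → d x y ≤ d P.1 P.2 := by
    intro v
    let F : Finset (Fin m × Fin m) := Finset.univ.filter
      (fun P => d (c v) P.1 ≤ r v ∧ d (c v) P.2 ≤ r v)
    have hne : F.Nonempty := by
      obtain ⟨x, y, h1, h2, _⟩ := hsz v
      exact ⟨(x, y), by simp [F, h1, h2]⟩
    obtain ⟨P, hP, hmax⟩ := F.exists_max_image (fun P => d P.1 P.2) hne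
    have hP' := (Finset.mem_filter.mp hP).2
    refine ⟨P, hP'.1, hP'.2, fun x y hx hy => hmax (x, y) ?_⟩
    simp [F, hx, hy]
  choose P hP1 hP2 hPm using hex
  have htl : ∀ v, t v ≤ d (P v).1 (P v).2 := by
    intro v
    obtain ⟨x, y, h1, h2, h3⟩ := hsz v
    exact h3.trans (hPm v x y h1 h2)
  refine hno (fun u v => DD d P (e u) (e v)) (fun u => - t (e u)) ?_ ?_
  · have h1 := DD_treeLike hW P
    exact ⟨fun x y => h1.symm _ _, fun x y z u => h1.four _ _ _ _⟩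
  · intro x y hxy
    have hne : e x ≠ e y := fun h => hxy (e.injective h)
    have h1 : Rule x y ↔ G.Adj (e x) (e y) := by
      simp only [G, Equiv.symm_apply_apply]
      exact ⟨fun h => ⟨hne, h⟩, fun h => h.2⟩
    rw [h1, hadj _ _ hne]
    have h2 := inter_iff hW (hbd (e x)) (hbd (e y)) (hP1 _) (hP2 _) (hPm _) (hP1 _) (hP2 _)
      (hPm _) (m := min (t (e x)) (t (e y))) (le_min (hrt _).2 (hrt _).2)
      ((min_le_left _ _).trans (htl _)) ((min_le_right _ _).trans (htl _))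
    rw [h2, max_neg_neg]
    rfl

end Pool.Agent.S05390
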