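import Pool.Statements.S05486
import Pool.Agent.H106R2.Mordell
import Pool.Agent.H106R2.Geo

set_option autoImplicit false
open Pool Pool.MP_36d6be_co

namespace Pool.Agent.S05486

/-- The negation of the preceding statement: There is a set of continuum many points in real ℓ² such that any three distinct points of it form a triangle whose area (half the square root of the Gram determinant) is a nonzero rational number. -/
theorem result :
    ¬ (∃ S : Set (lp (fun _ : ℕ => ℝ) 2),
      Cardinal.mk S = Cardinal.continuum ∧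
      ∀ a ∈ S, ∀ b ∈ S, ∀ c ∈ S, a ≠ b → b ≠ c → a ≠ c →
        ∃ q : ℚ, q ≠ 0 ∧
          (1 / 2 : ℝ) * Real.sqrt (‖b - a‖ ^ 2 * ‖c - a‖ ^ 2 - (inner ℝ (b - a) (c - a)) ^ 2) = (q : ℝ)) := by
  rintro ⟨S, hcard, hS⟩
  have hSu : ¬ S.Countable := by
    intro hc
    have h1 := Cardinal.mk_le_aleph0_iff.mpr hc.to_subtype
    rw [hcard] at h1
    exact absurd h1 (not_le.mpr Cardinal.aleph0_lt_continuum)
  have hR : Pool.Agent.H106R2.RatArea S := hS
  obtain ⟨q, h1, h2, h3⟩ := hR.chain hSu
  exact Pool.Agent.H106R2.chain_false Pool.Agent.H106R2.mordellQ q h1 h2 h3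

end Pool.Agent.S05486
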