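import Pool.Statements.S05573
import Pool.Agent.H237R2.OddBall

set_option autoImplicit false
open Filter Topology
open Pool Pool.MP_3c9ffc_co

namespace Pool.Agent.S05573

/-- There are constants c_p ≥ 0 tending to 0 such that, for each p ≥ 1, every graph on 2α+p vertices with no independent set of size α+1 has an odd cycle of length at most c_p·α + o(α). -/
theorem result :
    ∃ c : ℕ → ℝ, (∀ p, 0 ≤ c p) ∧ Tendsto c atTop (𝓝 0) ∧
      ∀ p : ℕ, 1 ≤ p →
        ∃ e : ℕ → ℝ, Tendsto (fun α : ℕ => e α / (α : ℝ)) atTop (𝓝 0) ∧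
          ∀ α : ℕ, ∀ G : SimpleGraph (Fin (2 * α + p)),
            (∀ s : Finset (Fin (2 * α + p)), G.IsIndepSet (s : Set (Fin (2 * α + p))) → s.card ≤ α) →
            ∃ v : Fin (2 * α + p), ∃ w : G.Walk v v,
              w.IsCycle ∧ Odd w.length ∧ (w.length : ℝ) ≤ c p * (α : ℝ) + e α := by
  refine ⟨fun p => 8 / Real.sqrt p, fun p => by positivity, ?_, ?_⟩
  · have h1 : Tendsto (fun p : ℕ => Real.sqrt (p : ℝ)) atTop atTop :=
      Real.tendsto_sqrt_atTop.comp tendsto_natCast_atTop_atTop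
    exact h1.const_div_atTop 8
  · intro p hp
    refine ⟨fun _ => 4 * Real.sqrt p + 4, ?_, ?_⟩
    · exact tendsto_natCast_atTop_atTop.const_div_atTop (4 * Real.sqrt p + 4)
    · intro α G hind
      have hp0 : (0 : ℝ) < p := by exact_mod_cast hp
      have hs0 : 0 < Real.sqrt p := Real.sqrt_pos.2 hp0
      have hsq : Real.sqrt p * Real.sqrt p = p := Real.mul_self_sqrt hp0.le
      set r : ℕ := ⌊((2 * α + p : ℕ) : ℝ) / Real.sqrt p⌋₊ + 1 with hr
      have hq0 : (0 : ℝ) ≤ ((2 * α + p : ℕ) : ℝ) / Real.sqrt p := by positivity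
      have hr1 : ((2 * α + p : ℕ) : ℝ) / Real.sqrt p < (r : ℝ) := by
        rw [hr]
        push_cast
        exact_mod_cast Nat.lt_floor_add_one (((2 * α + p : ℕ) : ℝ) / Real.sqrt p)
      have hr2 : (r : ℝ) ≤ ((2 * α + p : ℕ) : ℝ) / Real.sqrt p + 1 := by
        rw [hr]
        have := Nat.floor_le hq0
        push_cast at this ⊢
        linarith
      have hn : (2 * α + p) * (2 * α + p) < p * (r * r) := by
        rw [div_lt_iff₀ hs0] at hr1
        have h0 : (0 : ℝ) ≤ ((2 * α + p : ℕ) : ℝ) := Nat.cast_nonneg _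
        have h1 : ((2 * α + p : ℕ) : ℝ) * ((2 * α + p : ℕ) : ℝ) < (r * Real.sqrt p) * (r * Real.sqrt p) :=
          mul_self_lt_mul_self h0 hr1
        have h2 : (r * Real.sqrt p) * (r * Real.sqrt p) = ((p * (r * r) : ℕ) : ℝ) := by
          push_cast
          calc (r * Real.sqrt p) * (r * Real.sqrt p) = (Real.sqrt p * Real.sqrt p) * (r * r) := by ring
            _ = p * (r * r) := by rw [hsq]
        rw [h2] at h1
        exact_mod_cast h1
      obtain ⟨v, w, hw, ho, hl⟩ := Pool.Agent.H237R2.OddBall.exists_short_odd_cycle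
        (G := G) α p r (by omega) (by simp) hn hind
      refine ⟨v, w, hw, ho, ?_⟩
      have h3 : (w.length : ℝ) ≤ 4 * r := by exact_mod_cast hl
      have h4 : ((2 * α + p : ℕ) : ℝ) / Real.sqrt p = 2 * α / Real.sqrt p + Real.sqrt p := by
        push_cast
        field_simp
        rw [pow_two, hsq]
      rw [h4] at hr2
      calc (w.length : ℝ) ≤ 4 * r := h3
        _ ≤ 4 * (2 * α / Real.sqrt p + Real.sqrt p + 1) := by linarith
        _ = 8 / Real.sqrt p * α + (4 * Real.sqrt p + 4) := by ring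

end Pool.Agent.S05573
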