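import Pool.Statements.S05592
-- import your own Pool.Agent.* helpers here

set_option autoImplicit false
open Pool Pool.MP_3df3be_co

namespace Pool.Agent.S05592

section Helpers

variable {n : ℕ} {L : Fin n → Fin n → Fin n}

/-- in a subsquare every row is onto the symbol set -/
theorem row_onto (hr : ∀ i : Fin n, Function.Bijective (L i)) {R C S : Finset (Fin n)}
    (hCS : C.card = S.card) (h : ∀ r ∈ R, ∀ c ∈ C, L r c ∈ S) {r : Fin n} (hrR : r ∈ R) :
    C.image (L r) = S := by
  apply Finset.eq_of_subset_of_card_le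
  · intro s hs
    obtain ⟨c, hc, rfl⟩ := Finset.mem_image.1 hs
    exact h r hrR c hc
  · rw [Finset.card_image_of_injective _ (hr r).1, hCS]

theorem row_mem_iff (hr : ∀ i : Fin n, Function.Bijective (L i)) {R C S : Finset (Fin n)}
    (hCS : C.card = S.card) (h : ∀ r ∈ R, ∀ c ∈ C, L r c ∈ S) {r : Fin n} (hrR : r ∈ R)
    (c : Fin n) : L r c ∈ S ↔ c ∈ C := by
  constructor
  · intro hs
    rw [← row_onto hr hCS h hrR] at hs
    obtain ⟨c', hc', he⟩ := Finset.mem_image.1 hs
    rwa [← (hr r).1 he]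
  · exact h r hrR c

theorem col_mem_iff (hc : ∀ j : Fin n, Function.Bijective (fun i : Fin n => L i j))
    {R C S : Finset (Fin n)}
    (hRS : R.card = S.card) (h : ∀ r ∈ R, ∀ c ∈ C, L r c ∈ S) {c : Fin n} (hcC : c ∈ C)
    (r : Fin n) : L r c ∈ S ↔ r ∈ R := by
  have := row_mem_iff (L := fun i j => L j i) hc hRS (fun c hc r hr => h r hr c hc) hcC r
  exact this

end Helpers

/-- The negation of the preceding statement: For every n there is a latin square of order n such that, for each m with 1 ≤ m and 2m ≤ n, some m rows and m columns meet in an m×m subarray using only m symbols, i.e. a latin subsquare of order m. -/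
theorem result :
    ¬ (∀ n : ℕ, ∃ L : Fin n → Fin n → Fin n,
      (∀ i : Fin n, Function.Bijective (L i)) ∧
      (∀ j : Fin n, Function.Bijective (fun i : Fin n => L i j)) ∧
      ∀ m : ℕ, 1 ≤ m → 2 * m ≤ n →
        ∃ R C S : Finset (Fin n),
          R.card = m ∧ C.card = m ∧ S.card = m ∧
          ∀ r ∈ R, ∀ c ∈ C, L r c ∈ S) := by
  intro H
  obtain ⟨L, hr, hc, hsub⟩ := H 8
  obtain ⟨X, Y, T, hX, hY, hT, h4⟩ := hsub 4 (by norm_num) (by norm_num)
  obtain ⟨R, C, S, hR, hC, hS, h3⟩ := hsub 3 (by norm_num) (by norm_num)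
  have cardc : ∀ A : Finset (Fin 8), A.card = 4 → Aᶜ.card = 4 := by
    intro A hA
    rw [Finset.card_compl, hA]; rfl
  -- the four blocks
  have b1 : ∀ r ∈ X, ∀ c, L r c ∈ T ↔ c ∈ Y := fun r hrX c =>
    row_mem_iff hr (by rw [hY, hT]) h4 hrX c
  have b2 : ∀ c ∈ Y, ∀ r, L r c ∈ T ↔ r ∈ X := fun c hcY r =>
    col_mem_iff hc (by rw [hX, hT]) h4 hcY r
  have b3' : ∀ r ∈ Xᶜ, ∀ c ∈ Y, L r c ∈ Tᶜ := by
    intro r hrX c hcY
    rw [Finset.mem_compl] at hrX ⊢
    rw [b2 c hcY r]; exact hrX
  have b3 : ∀ r ∈ Xᶜ, ∀ c, L r c ∈ Tᶜ ↔ c ∈ Y := fun r hrX c =>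
    row_mem_iff hr (by rw [hY, cardc T hT]) b3' hrX c
  have key : ∀ r c, L r c ∈ T ↔ (r ∈ X ↔ c ∈ Y) := by
    intro r c
    by_cases hrX : r ∈ X
    · rw [b1 r hrX c]; simp [hrX]
    · have h5 := b3 r (Finset.mem_compl.2 hrX) c
      rw [Finset.mem_compl] at h5
      constructor
      · intro hT1
        exact ⟨fun h6 => absurd h6 hrX, fun h6 => absurd hT1 (h5.2 h6)⟩
      · intro hiff
        by_contra hT1
        exact hrX (hiff.2 (h5.1 hT1))
  -- the subsquare of order three
  have rowR : ∀ r ∈ R, C.image (L r) = S := fun r hrR => row_onto hr (by rw [hC, hS]) h3 hrR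
  have colC : ∀ c ∈ C, R.image (fun r => L r c) = S := fun c hcC =>
    row_onto (L := fun i j => L j i) hc (by rw [hR, hS]) (fun c hc r hr => h3 r hr c hc) hcC
  have hsplit : (S.filter (· ∈ T)).card + (S.filter (· ∉ T)).card = 3 := by
    rw [← hS]; exact Finset.card_filter_add_card_filter_not _
  have cin : ∀ r ∈ R, r ∈ X → (C.filter (· ∈ Y)).card = (S.filter (· ∈ T)).card := by
    intro r hrR hrX
    rw [← rowR r hrR, Finset.filter_image, Finset.card_image_of_injective _ (hr r).1]
    congr 1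
    apply Finset.filter_congr
    intro c _
    rw [key]; simp [hrX]
  have cout : ∀ r ∈ R, r ∉ X → (C.filter (· ∈ Y)).card = (S.filter (· ∉ T)).card := by
    intro r hrR hrX
    rw [← rowR r hrR, Finset.filter_image, Finset.card_image_of_injective _ (hr r).1]
    congr 1
    apply Finset.filter_congr
    intro c _
    rw [key]; simp [hrX]
  have rin : ∀ c ∈ C, c ∈ Y → (R.filter (· ∈ X)).card = (S.filter (· ∈ T)).card := by
    intro c hcC hcY
    rw [← colC c hcC, Finset.filter_image, Finset.card_image_of_injective _ (hc c).1]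
    congr 1
    apply Finset.filter_congr
    intro r _
    rw [key]; simp [hcY]
  have rout : ∀ c ∈ C, c ∉ Y → (R.filter (· ∈ X)).card = (S.filter (· ∉ T)).card := by
    intro c hcC hcY
    rw [← colC c hcC, Finset.filter_image, Finset.card_image_of_injective _ (hc c).1]
    congr 1
    apply Finset.filter_congr
    intro r _
    rw [key]; simp [hcY]
  -- all rows of the subsquare lie on one side, and all columns as well
  have hRside : (∀ r ∈ R, r ∈ X) ∨ (∀ r ∈ R, r ∉ X) := by
    by_contra hcon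
    push Not at hcon
    obtain ⟨⟨r1, hr1, hr1X⟩, ⟨r2, hr2, hr2X⟩⟩ := hcon
    have e1 := cout r1 hr1 hr1X
    have e2 := cin r2 hr2 hr2X
    omega
  have hCside : (∀ c ∈ C, c ∈ Y) ∨ (∀ c ∈ C, c ∉ Y) := by
    by_contra hcon
    push Not at hcon
    obtain ⟨⟨r1, hr1, hr1X⟩, ⟨r2, hr2, hr2X⟩⟩ := hcon
    have e1 := rout r1 hr1 hr1X
    have e2 := rin r2 hr2 hr2X
    omega
  -- a subsquare of order three inside a block of order four
  have final : ∀ X' Y' T' : Finset (Fin 8), X'.card = 4 → T'.card = 4 → R ⊆ X' → C ⊆ Y' →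
      (∀ r ∈ X', ∀ c ∈ Y', L r c ∈ T') → False := by
    intro X' Y' T' hX' hT' hRX hCY hb
    have hST : S ⊆ T' := by
      obtain ⟨r, hrR⟩ := Finset.card_pos.1 (by rw [hR]; norm_num : 0 < R.card)
      rw [← rowR r hrR]
      intro s hs
      obtain ⟨c, hcC, rfl⟩ := Finset.mem_image.1 hs
      exact hb r (hRX hrR) c (hCY hcC)
    obtain ⟨x, hxX, hxR⟩ := Finset.exists_mem_notMem_of_card_lt_card
      (by rw [hR, hX']; norm_num : R.card < X'.card)
    have hsub : C.image (L x) ⊆ T' \ S := by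
      intro s hs
      obtain ⟨c, hcC, rfl⟩ := Finset.mem_image.1 hs
      rw [Finset.mem_sdiff]
      refine ⟨hb x hxX c (hCY hcC), fun hmem => hxR ?_⟩
      exact (col_mem_iff hc (by rw [hR, hS]) h3 hcC x).1 hmem
    have h1 := Finset.card_le_card hsub
    rw [Finset.card_image_of_injective _ (hr x).1, hC, Finset.card_sdiff_of_subset hST, hT', hS] at h1
    omega
  rcases hRside with hRX | hRX <;> rcases hCside with hCY | hCY
  · exact final X Y T hX hT hRX hCY h4
  · refine final X Yᶜ Tᶜ hX (cardc T hT) hRX (fun c hcC => Finset.mem_compl.2 (hCY c hcC)) ?_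
    intro r hrX c hcY
    rw [Finset.mem_compl] at hcY ⊢
    rw [key]; simp [hrX, hcY]
  · refine final Xᶜ Y Tᶜ (cardc X hX) (cardc T hT) (fun r hrR => Finset.mem_compl.2 (hRX r hrR))
      hCY ?_
    intro r hrX c hcY
    rw [Finset.mem_compl] at hrX ⊢
    rw [key]; simp [hrX, hcY]
  · refine final Xᶜ Yᶜ T (cardc X hX) hT (fun r hrR => Finset.mem_compl.2 (hRX r hrR))
      (fun c hcC => Finset.mem_compl.2 (hCY c hcC)) ?_
    intro r hrX c hcY
    rw [Finset.mem_compl] at hrX hcY
    rw [key]; simp [hrX, hcY]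

end Pool.Agent.S05592
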