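import Pool.Statements.S05661
import Pool.Agent.Helper993.TwoN.Final

set_option autoImplicit false
open Pool Pool.MP_417dd2_co

namespace Pool.Agent.S05661

open Polynomial Matrix

/-- the reducible pattern of order 71: the order 69 pattern plus a full 2 by 2 block. -/
def Z71 : Matrix (Fin 71) (Fin 71) Bool := fun i j =>
  (decide (i.val < 69) && decide (j.val < 69) && Helper993.TwoN.pat i.val j.val) ||
    (decide (69 ≤ i.val) && decide (69 ≤ j.val))

theorem exists_quadratic_factor (p : ℝ[X]) (hp : p.Monic) (n : ℕ) (hn : p.natDegree = n + 2) :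
    ∃ q r : ℝ[X], q.Monic ∧ r.Monic ∧ q.natDegree = n ∧ r.natDegree = 2 ∧ p = q * r := by
  have key : ∃ r : ℝ[X], r.Monic ∧ r.natDegree = 2 ∧ r ∣ p := by
    have hquad : ∀ s : ℝ[X], s ∣ p → ∀ z : ℂ, aeval z s = 0 → z.im ≠ 0 →
        ∃ r : ℝ[X], r.Monic ∧ r.natDegree = 2 ∧ r ∣ p := by
      intro s hs z hz him
      have h := s.quadratic_dvd_of_aeval_eq_zero_im_ne_zero hz him
      refine ⟨X ^ 2 - C (2 * z.re) * X + C (‖z‖ ^ 2), ?_, ?_, h.trans hs⟩
      · monicity!
      · compute_degree!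
    have hroot : ∀ s : ℝ[X], s.natDegree ≠ 0 → ∃ z : ℂ, aeval z s = 0 := by
      intro s hs
      have h1 : (s.map (algebraMap ℝ ℂ)).degree ≠ 0 := by
        rw [Polynomial.degree_map]
        intro h
        exact hs (Polynomial.natDegree_eq_of_degree_eq_some h)
      obtain ⟨z, hz⟩ := IsAlgClosed.exists_root _ h1
      exact ⟨z, by rwa [IsRoot.def, eval_map_algebraMap] at hz⟩
    obtain ⟨z, hz⟩ := hroot p (by omega)
    by_cases him : z.im ≠ 0
    · exact hquad p dvd_rfl z hz him
    push Not at him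
    have hzr : z = ((z.re : ℝ) : ℂ) := by
      apply Complex.ext <;> simp [him]
    have hpr : p.IsRoot z.re := by
      rw [hzr] at hz
      have h2 : ((p.eval z.re : ℝ) : ℂ) = 0 := by
        rw [← hz]
        exact (Polynomial.aeval_algebraMap_apply_eq_algebraMap_eval z.re p).symm
      exact_mod_cast h2
    obtain ⟨s, hs⟩ := dvd_iff_isRoot.2 hpr
    have hs0 : s ≠ 0 := by
      rintro rfl
      rw [mul_zero] at hs
      exact hp.ne_zero hs
    have hsd : s.natDegree = n + 1 := by
      have := congrArg natDegree hs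
      rw [natDegree_mul (X_sub_C_ne_zero _) hs0, natDegree_X_sub_C, hn] at this
      omega
    obtain ⟨w, hw⟩ := hroot s (by omega)
    by_cases him2 : w.im ≠ 0
    · exact hquad s ⟨X - C z.re, by rw [hs]; ring⟩ w hw him2
    push Not at him2
    have hwr : w = ((w.re : ℝ) : ℂ) := by
      apply Complex.ext <;> simp [him2]
    have hsr : s.IsRoot w.re := by
      rw [hwr] at hw
      have h2 : ((s.eval w.re : ℝ) : ℂ) = 0 := by
        rw [← hw]
        exact (Polynomial.aeval_algebraMap_apply_eq_algebraMap_eval w.re s).symm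
      exact_mod_cast h2
    obtain ⟨t, ht⟩ := dvd_iff_isRoot.2 hsr
    refine ⟨(X - C z.re) * (X - C w.re), (monic_X_sub_C _).mul (monic_X_sub_C _), ?_, ?_⟩
    · rw [natDegree_mul (X_sub_C_ne_zero _) (X_sub_C_ne_zero _), natDegree_X_sub_C,
        natDegree_X_sub_C]
    · exact ⟨t, by rw [hs, ht]; ring⟩
  obtain ⟨r, hr1, hr2, q, hq⟩ := key
  have hqm : q.Monic := by
    rw [hq] at hp
    exact hr1.of_mul_monic_left hp
  refine ⟨q, r, hqm, hr1, ?_, hr2, by rw [hq]; ring⟩
  have := congrArg natDegree hq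
  rw [hr1.natDegree_mul hqm, hn, hr2] at this
  omega

theorem realise_two (r : ℝ[X]) (hr : r.Monic) (hd : r.natDegree = 2) :
    ∃ A : Matrix (Fin 2) (Fin 2) ℝ, (∀ i j, A i j ≠ 0) ∧ A.charpoly = r := by
  set b : ℝ := r.coeff 1 with hb
  set c : ℝ := r.coeff 0 with hc
  have hr' : r = X ^ 2 + C b * X + C c := by
    have h2 : r.coeff 2 = 1 := by rw [← hd]; exact hr
    rw [r.as_sum_range_C_mul_X_pow, hd]
    simp only [Finset.sum_range_succ, Finset.sum_range_zero, h2, ← hb, ← hc]
    simp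
    ring
  set d : ℝ := |b| + |c| + 1 with hdd
  have hd1 : 1 ≤ d := by have := abs_nonneg b; have := abs_nonneg c; rw [hdd]; linarith
  have hdb : 1 ≤ d + b := by
    have := neg_abs_le b; have := abs_nonneg c; rw [hdd]; linarith
  have hpos : 0 < d * (d + b) + c := by
    have h1 : d * 1 ≤ d * (d + b) := by
      apply mul_le_mul_of_nonneg_left hdb; linarith
    have := neg_abs_le c; have := abs_nonneg b
    rw [hdd] at h1 ⊢
    nlinarith
  refine ⟨!![-(d + b), 1; -(d * (d + b) + c), d], ?_, ?_⟩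
  · intro i j
    fin_cases i <;> fin_cases j
    · show -(d + b) ≠ 0
      intro h; linarith
    · show (1 : ℝ) ≠ 0
      exact one_ne_zero
    · show -(d * (d + b) + c) ≠ 0
      intro h; linarith
    · show d ≠ 0
      intro h; linarith
  · rw [Matrix.charpoly_fin_two, hr']
    simp [Matrix.trace_fin_two, Matrix.det_fin_two]
    ring

theorem card_Z71 :
    (Finset.univ.filter (fun q : Fin 71 × Fin 71 => Z71 q.1 q.2 = true)).card = 141 := by
  decide +kernel

theorem realise_Z71 (p : ℝ[X]) (hp : p.Monic) (hd : p.natDegree = 71) :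
    ∃ A : Matrix (Fin 71) (Fin 71) ℝ, (∀ i j, (A i j ≠ 0 ↔ Z71 i j = true)) ∧
      A.charpoly = p := by
  obtain ⟨q, r, hq, hr, hqd, hrd, rfl⟩ := exists_quadratic_factor p hp 69 hd
  obtain ⟨A, hA1, hA2⟩ := Helper993.TwoN.realise_all q hq hqd
  obtain ⟨B, hB1, hB2⟩ := realise_two r hr hrd
  let e : Fin 69 ⊕ Fin 2 ≃ Fin 71 := finSumFinEquiv
  refine ⟨Matrix.reindex e e (Matrix.fromBlocks A 0 0 B), ?_, ?_⟩
  · have v1 : ∀ i : Fin 69, (e (Sum.inl i)).val = i.val := fun i => rfl
    have v2 : ∀ i : Fin 2, (e (Sum.inr i)).val = 69 + i.val := fun i => rfl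
    intro i j
    obtain ⟨i, rfl⟩ := e.surjective i
    obtain ⟨j, rfl⟩ := e.surjective j
    rw [Matrix.reindex_apply, Matrix.submatrix_apply, Equiv.symm_apply_apply,
      Equiv.symm_apply_apply]
    unfold Z71
    rcases i with i | i <;> rcases j with j | j
    · have h := hA1 i j
      rw [v1, v1, Matrix.fromBlocks_apply₁₁, h]
      have h1 : ¬ (69 ≤ i.val) := by omega
      simp [Helper993.TwoN.S, h1]
    · rw [v1, v2, Matrix.fromBlocks_apply₁₂]
      have h1 : ¬ (69 ≤ i.val) := by omega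
      have h2 : ¬ (69 + j.val < 69) := by omega
      simp [h1, h2]
    · rw [v1, v2, Matrix.fromBlocks_apply₂₁]
      have h1 : ¬ (69 ≤ j.val) := by omega
      have h2 : ¬ (69 + i.val < 69) := by omega
      simp [h1, h2]
    · have h := hB1 i j
      rw [v2, v2, Matrix.fromBlocks_apply₂₂]
      have h1 : 69 ≤ 69 + i.val := by omega
      have h2 : 69 ≤ 69 + j.val := by omega
      simp [h, h1, h2]
  · rw [Matrix.charpoly_reindex, Matrix.charpoly_fromBlocks_zero₁₂, hA2, hB2]


/-- There is some n and a reducible n×n zero-nonzero or sign pattern with fewer than 2n nonzero entries such that every monic real polynomial of degree n is the characteristic polynomial of some real matrix with that pattern. -/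
theorem result :
    ∃ n : ℕ,
      (∃ Z : Matrix (Fin n) (Fin n) Bool,
        (∃ T : Finset (Fin n), T.Nonempty ∧ T ≠ Finset.univ ∧
            ∀ i, i ∉ T → ∀ j, j ∈ T → Z i j = false) ∧
        (Finset.univ.filter (fun q : Fin n × Fin n => Z q.1 q.2 = true)).card < 2 * n ∧
        ∀ p : Polynomial ℝ, p.Monic → p.natDegree = n →
          ∃ A : Matrix (Fin n) (Fin n) ℝ,
            (∀ i j, (A i j ≠ 0 ↔ Z i j = true)) ∧ A.charpoly = p) ∨
      (∃ S : Matrix (Fin n) (Fin n) SignType,
        (∃ T : Finset (Fin n), T.Nonempty ∧ T ≠ Finset.univ ∧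
            ∀ i, i ∉ T → ∀ j, j ∈ T → S i j = 0) ∧
        (Finset.univ.filter (fun q : Fin n × Fin n => S q.1 q.2 ≠ 0)).card < 2 * n ∧
        ∀ p : Polynomial ℝ, p.Monic → p.natDegree = n →
          ∃ A : Matrix (Fin n) (Fin n) ℝ,
            (∀ i j, SignType.sign (A i j) = S i j) ∧ A.charpoly = p) := by
  refine ⟨71, Or.inl ⟨Z71, ⟨Finset.univ.filter (fun i => 69 ≤ i.val), ?_, ?_, ?_⟩, ?_, ?_⟩⟩
  · exact ⟨⟨69, by omega⟩, by simp⟩
  · intro h
    have h0 : (⟨0, by omega⟩ : Fin 71) ∈ Finset.univ.filter (fun i : Fin 71 => 69 ≤ i.val) := by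
      rw [h]; exact Finset.mem_univ _
    simp at h0
  · intro i hi j hj
    simp only [Finset.mem_filter, Finset.mem_univ, true_and, not_le] at hi hj
    have h1 : ¬ (j.val < 69) := by omega
    have h2 : ¬ (69 ≤ i.val) := by omega
    simp [Z71, h1, h2]
  · rw [card_Z71]; norm_num
  · exact fun p hp hd => realise_Z71 p hp hd

end Pool.Agent.S05661
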