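import Pool.Statements.S05699
import Pool.Agent.H281R2.CondD

set_option autoImplicit false
open Pool Pool.MP_43bc59_co

namespace Pool.Agent.S05699

/-- There is c>0 such that for every poset on n elements and every nonempty set A of at most half its linear extensions, n times the number of adjacent-transposition edges leaving A is at least c·∣A∣; equivalently the walk's conductance is at least const/n². -/
theorem result :
  ∃ c : ℝ, 0 < c ∧ ∀ (n : ℕ) (r : Fin n → Fin n → Prop),
    (∀ a, r a a) → (∀ a b, r a b → r b a → a = b) →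
    (∀ a b d, r a b → r b d → r a d) →
    ∀ E : Finset (Equiv.Perm (Fin n)),
      (∀ σ : Equiv.Perm (Fin n), σ ∈ E ↔ ∀ i j : Fin n, r (σ i) (σ j) → i ≤ j) →
    ∀ A : Finset (Equiv.Perm (Fin n)), A ⊆ E → A.Nonempty → 2 * A.card ≤ E.card →
      c * (A.card : ℝ) ≤ (n : ℝ) *
        (((A ×ˢ (E \ A)).filter
          (fun p : Equiv.Perm (Fin n) × Equiv.Perm (Fin n) =>
            ∃ i j : Fin n, j.val = i.val + 1 ∧ p.2 = p.1 * Equiv.swap i j)).card : ℝ) := by
  refine ⟨1 / 28, by norm_num, ?_⟩
  intro n r _ _ _ E hE A hAE hA hcard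
  exact Pool.Agent.H281R2.Cond.main n r E hE A hAE hA hcard

end Pool.Agent.S05699
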