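import Pool.Statements.S05715
import Pool.Agent.H195R2.RMReg

set_option autoImplicit false
open Pool Pool.MP_44d0b1_co

namespace Pool.Agent.S05715

open Pool.Agent.H195R2 in
lemma mem_RM_iff {n k : ℕ} (f : Fn n) : f ∈ RM k n ↔
    ∃ a : Finset (Fin n) → ZMod 2, ∀ x : Fin n → ZMod 2,
            f x = ∑ S ∈ (Finset.univ : Finset (Finset (Fin n))).filter (fun S => S.card ≤ k),
              a S * ∏ i ∈ S, x i := by
  classical
  constructor
  · intro hf
    unfold RM at hf
    induction hf using Submodule.span_induction with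
    | mem x h =>
      obtain ⟨S, hS, rfl⟩ := h
      refine ⟨Pi.single S 1, fun x => ?_⟩
      rw [Finset.sum_eq_single S]
      · simp [mono]
      · intro b _ hb
        simp [Pi.single_eq_of_ne hb]
      · intro h
        exact absurd (Finset.mem_filter.mpr ⟨Finset.mem_univ _, hS⟩) h
    | zero => exact ⟨0, by simp⟩
    | add x y _ _ hx hy =>
      obtain ⟨a, ha⟩ := hx
      obtain ⟨b, hb⟩ := hy
      refine ⟨a + b, fun x => ?_⟩
      simp only [Pi.add_apply, ha, hb, add_mul, Finset.sum_add_distrib]
    | smul c x _ hx =>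
      obtain ⟨a, ha⟩ := hx
      refine ⟨c • a, fun x => ?_⟩
      simp only [Pi.smul_apply, smul_eq_mul, ha, Finset.mul_sum, mul_assoc]
  · rintro ⟨a, ha⟩
    have : f = ∑ S ∈ (Finset.univ : Finset (Finset (Fin n))).filter (fun S => S.card ≤ k),
        a S • mono S := by
      funext x
      rw [ha x]
      simp [mono, Finset.sum_apply]
    rw [this]
    apply Submodule.sum_mem
    intro S hS
    exact Submodule.smul_mem _ _ (mono_mem (Finset.mem_filter.mp hS).2)

/-- For all n and k ≥ 2, let A be the Boolean functions in n variables of degree at most k and B the functions at maximal Hamming distance from A. Then the functions at maximal distance from B are exactly A. -/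
theorem result :
    ∀ n k : ℕ, 2 ≤ k →
      ∀ A : Set ((Fin n → ZMod 2) → ZMod 2),
        (∀ f, f ∈ A ↔ ∃ a : Finset (Fin n) → ZMod 2, ∀ x : Fin n → ZMod 2,
            f x = ∑ S ∈ (Finset.univ : Finset (Finset (Fin n))).filter (fun S => S.card ≤ k),
              a S * ∏ i ∈ S, x i) →
        ∀ B : Set ((Fin n → ZMod 2) → ZMod 2),
          (∀ y, y ∈ B ↔ ∀ z : (Fin n → ZMod 2) → ZMod 2,
              sInf ((fun f => hammingDist z f) '' A) ≤ sInf ((fun f => hammingDist y f) '' A)) →
          ∀ z : (Fin n → ZMod 2) → ZMod 2,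
            (∀ w : (Fin n → ZMod 2) → ZMod 2,
                sInf ((fun g => hammingDist w g) '' B) ≤ sInf ((fun g => hammingDist z g) '' B))
              ↔ z ∈ A := by
  intro n k _ A hA B hB z
  have hAeq : A = ((Pool.Agent.H195R2.RM k n : Submodule (ZMod 2) (Pool.Agent.H195R2.Fn n)) :
      Set (Pool.Agent.H195R2.Fn n)) := by
    ext f
    rw [hA f]
    exact (mem_RM_iff f).symm
  have hBeq : B = Pool.Agent.H195R2.BB k n := by
    ext y
    rw [hB y]
    constructor
    · intro h
      obtain ⟨b, hb⟩ := Pool.Agent.H195R2.exists_cov k n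
      apply le_antisymm (Pool.Agent.H195R2.dd_le_cov k n y)
      rw [← hb]
      have := h b
      rw [hAeq] at this
      exact this
    · intro h w
      have h1 : Pool.Agent.H195R2.dd ((Pool.Agent.H195R2.RM k n : Submodule (ZMod 2)
        (Pool.Agent.H195R2.Fn n)) : Set (Pool.Agent.H195R2.Fn n)) y
          = Pool.Agent.H195R2.cov k n := h
      have h2 := Pool.Agent.H195R2.dd_le_cov k n w
      rw [← h1] at h2
      rw [hAeq]
      exact h2
  rw [hAeq, hBeq]
  have key := Pool.Agent.H195R2.metric_regular (k := k) z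
  constructor
  · intro h
    apply key.mp
    apply le_antisymm (Pool.Agent.H195R2.dd_BB_le k n z)
    have h0 := Pool.Agent.H195R2.dd_BB_mem (k := k) (n := n) (Submodule.zero_mem _)
    rw [← h0]
    exact h 0
  · intro h w
    have h1 := key.mpr h
    have h2 := Pool.Agent.H195R2.dd_BB_le k n w
    rw [← h1] at h2
    exact h2

end Pool.Agent.S05715
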