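import Pool.Statements.S05720

set_option autoImplicit false
open Pool Pool.MP_455b0c_co

namespace Pool.Agent.S05720

/-- Left end points (times 1000) of a representation with lengths `1` and `1.9`. -/
def A1 : Fin 17 → ℤ := ![2005, 5, 1104, 3005, 1005, 1002, 2003, 3004, 106, 0, 2006, 1, 1002, 3007,
  4008, 1001, 2108]
/-- Lengths (times 1000) of a representation with lengths `1` and `1.9`. -/
def L1 : Fin 17 → ℤ := ![1000, 1000, 1900, 1000, 1000, 1000, 1000, 1000, 1900, 1000, 1000, 1000,
  1000, 1000, 1000, 1900, 1900]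
/-- Left end points (times 1000) of a representation with lengths `1` and `2.1`. -/
def A2 : Fin 17 → ℤ := ![2003, 5, 1006, 3107, 1005, 1002, 2005, 3104, 7, 0, 2107, 1, 1002, 4104,
  5105, 1001, 3005]
/-- Lengths (times 1000) of a representation with lengths `1` and `2.1`. -/
def L2 : Fin 17 → ℤ := ![2100, 1000, 2100, 1000, 1000, 1000, 1000, 1000, 2100, 1000, 1000, 1000,
  1000, 1000, 1000, 2100, 2100]

/-- The interval order. -/
def P (i j : Fin 17) : Prop := A1 i + L1 i < A1 j

instance : DecidableRel P := fun i j => inferInstanceAs (Decidable (A1 i + L1 i < A1 j))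

lemma P_iff2 : ∀ i j, P i j ↔ A2 i + L2 i < A2 j := by decide +kernel

lemma L1_cases : ∀ i, L1 i = 1000 ∨ L1 i = 1900 := by decide
lemma L2_cases : ∀ i, L2 i = 1000 ∨ L2 i = 2100 := by decide

lemma cast_lt (x y z : ℤ) : x + y < z ↔ (x : ℝ) / 1000 + (y : ℝ) / 1000 < (z : ℝ) / 1000 := by
  rw [← add_div, div_lt_div_iff_of_pos_right (by norm_num)]
  exact_mod_cast Iff.rfl

lemma rep1 : ∃ a L : Fin 17 → ℝ, (∀ i, L i = 1 ∨ L i = 19 / 10) ∧
    ∀ i j, P i j ↔ a i + L i < a j := by
  refine ⟨fun i => (A1 i : ℝ) / 1000, fun i => (L1 i : ℝ) / 1000, ?_, ?_⟩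
  · intro i
    rcases L1_cases i with h | h
    · left
      change (L1 i : ℝ) / 1000 = 1
      rw [h]
      norm_num
    · right
      change (L1 i : ℝ) / 1000 = 19 / 10
      rw [h]
      norm_num
  · intro i j
    exact cast_lt _ _ _

lemma rep2 : ∃ a L : Fin 17 → ℝ, (∀ i, L i = 1 ∨ L i = 21 / 10) ∧
    ∀ i j, P i j ↔ a i + L i < a j := by
  refine ⟨fun i => (A2 i : ℝ) / 1000, fun i => (L2 i : ℝ) / 1000, ?_, ?_⟩
  · intro i
    rcases L2_cases i with h | h
    · left
      change (L2 i : ℝ) / 1000 = 1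
      rw [h]
      norm_num
    · right
      change (L2 i : ℝ) / 1000 = 21 / 10
      rw [h]
      norm_num
  · intro i j
    rw [P_iff2]
    exact cast_lt _ _ _

/-- If `x < y < z` and `u` meets both `x` and `z`, then `u` is longer than `y`. -/
lemma longer {a L : Fin 17 → ℝ} (h : ∀ i j, P i j ↔ a i + L i < a j) {x y z u : Fin 17}
    (h1 : P x y) (h2 : P y z) (h3 : ¬ P x u) (h4 : ¬ P u z) : L y < L u := by
  rw [h] at h1 h2 h3 h4
  linarith

lemma not_two : ¬ ∃ a L : Fin 17 → ℝ, (∀ i, L i = 1 ∨ L i = 2) ∧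
    ∀ i j, P i j ↔ a i + L i < a j := by
  rintro ⟨a, L, hL, h⟩
  have le2 : ∀ i, L i ≤ 2 := fun i => by rcases hL i with e | e <;> rw [e] <;> norm_num
  have ge1 : ∀ i, 1 ≤ L i := fun i => by rcases hL i with e | e <;> rw [e] <;> norm_num
  have long : ∀ i j, L i < L j → L i = 1 ∧ L j = 2 := by
    intro i j hij
    rcases hL i with e | e
    · rcases hL j with e' | e'
      · linarith
      · exact ⟨e, e'⟩
    · linarith [le2 j]
  -- `Y1` (15) is longer than `e1` (12); `Y2` (16) is longer than `e2` (13)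
  have k1 := long _ _ (longer h (x := 11) (y := 12) (z := 0) (u := 15) (by decide) (by decide)
    (by decide) (by decide))
  have k2 := long _ _ (longer h (x := 0) (y := 13) (z := 14) (u := 16) (by decide) (by decide)
    (by decide) (by decide))
  -- `C` (2) is longer than `g` (6); `S` (8) is longer than `s` (4)
  have k3 := long _ _ (longer h (x := 5) (y := 6) (z := 7) (u := 2) (by decide) (by decide)
    (by decide) (by decide))
  have k4 := long _ _ (longer h (x := 9) (y := 4) (z := 10) (u := 8) (by decide) (by decide)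
    (by decide) (by decide))
  -- `f0 < e1 < w < e2 < f4` is covered by `Y1`, `Y2`
  have a1 : a 11 + L 11 < a 12 := (h _ _).mp (by decide)
  have a2 : a 12 + L 12 < a 0 := (h _ _).mp (by decide)
  have a3 : a 0 + L 0 < a 13 := (h _ _).mp (by decide)
  have a4 : a 13 + L 13 < a 14 := (h _ _).mp (by decide)
  have a5 : a 15 ≤ a 11 + L 11 := not_lt.mp (fun e => absurd ((h _ _).mpr e) (by decide))
  have a6 : a 16 ≤ a 15 + L 15 := not_lt.mp (fun e => absurd ((h _ _).mpr e) (by decide))
  have a7 : a 14 ≤ a 16 + L 16 := not_lt.mp (fun e => absurd ((h _ _).mpr e) (by decide))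
  -- `c0 < C < c2` is covered by `s`, `w`
  have b1 : a 1 + L 1 < a 2 := (h _ _).mp (by decide)
  have b2 : a 2 + L 2 < a 3 := (h _ _).mp (by decide)
  have b3 : a 4 ≤ a 1 + L 1 := not_lt.mp (fun e => absurd ((h _ _).mpr e) (by decide))
  have b4 : a 0 ≤ a 4 + L 4 := not_lt.mp (fun e => absurd ((h _ _).mpr e) (by decide))
  have b5 : a 3 ≤ a 0 + L 0 := not_lt.mp (fun e => absurd ((h _ _).mpr e) (by decide))
  obtain ⟨k11, k12⟩ := k1
  obtain ⟨k21, k22⟩ := k2
  obtain ⟨k31, k32⟩ := k3
  obtain ⟨k41, k42⟩ := k4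
  rcases hL 0 with e | e
  · linarith
  · linarith

lemma not_one : ¬ ∃ a : Fin 17 → ℝ, ∀ i j, P i j ↔ a i + 1 < a j := by
  rintro ⟨a, h⟩
  have := longer (L := fun _ => 1) h (x := 5) (y := 6) (z := 7) (u := 2) (by decide) (by decide)
    (by decide) (by decide)
  exact absurd this (lt_irrefl _)

/-- The negation of the preceding statement: For every finite order representable by closed real intervals of two positive lengths but not by intervals of one length, the set of r > 1 for which it is representable with lengths 1 and r is an interval. -/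
theorem result :
    ¬ (∀ (n : ℕ) (P : Fin n → Fin n → Prop),
      (¬ ∃ a : Fin n → ℝ, ∀ i j, P i j ↔ a i + 1 < a j) →
      (∃ s t : ℝ, 0 < s ∧ 0 < t ∧ ∃ a L : Fin n → ℝ,
          (∀ i, L i = s ∨ L i = t) ∧ ∀ i j, P i j ↔ a i + L i < a j) →
      Set.OrdConnected
        {r : ℝ | 1 < r ∧ ∃ a L : Fin n → ℝ,
          (∀ i, L i = 1 ∨ L i = r) ∧ ∀ i j, P i j ↔ a i + L i < a j}) := by
  intro hall
  have h := hall 17 P not_one ⟨1, 19 / 10, by norm_num, by norm_num, rep1⟩
  have h2 := h.out (x := 19 / 10) ⟨by norm_num, rep1⟩ (y := 21 / 10) ⟨by norm_num, rep2⟩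
    (show (2 : ℝ) ∈ Set.Icc (19 / 10) (21 / 10) from ⟨by norm_num, by norm_num⟩)
  exact not_two h2.2

end Pool.Agent.S05720
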