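import Pool.Statements.S05752
-- import your own Pool.Agent.* helpers here

set_option autoImplicit false
open Pool Pool.MP_476d97_co

namespace Pool.Agent.S05752

/-! The Goethals-Seidel matrix of order 28 built from four explicit circulants of order 7 is not
cocyclic: a cocyclic matrix has a group acting transitively on its rows and preserving the absolute
values of the four-row sums, while here row `0` lies in exactly one 4-set of rows whose sum is
`20` in absolute value, and row `1` lies in at least two such sets. -/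

/-- number of ones among the first `k` binary digits -/
def pcf : ℕ → ℕ → ℕ
  | 0, _ => 0
  | k + 1, m => m % 2 + pcf k (m / 2)

def rowL : List ℕ := [53462826, 160941012, 81519017, 41808082, 155121701, 211770442, 106925589,
  134851214, 67425671, 34761539, 18421473, 9219440, 4610744, 3355932, 60124351, 30078559, 16096111,
  141250039, 204908283, 235762557, 119183870, 179888025, 92041164, 182335398, 95370131, 189251017,
  111410916, 223477554]

def rw (i : ℕ) : ℕ := rowL.getD i 0

def bad (m : ℕ) : Bool := (pcf 28 m).beq 4 || (pcf 28 m).beq 24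

def chk : Bool := (List.range 28).all fun a => (a.beq 13 || a.beq 17 || a.beq 25) ||
  (List.range 28).all fun b => (List.range 28).all fun c =>
    !(bad (rw 0 ^^^ rw a ^^^ rw b ^^^ rw c))

theorem chk_true : chk = true := by decide +kernel

theorem chk_spec (a b c : ℕ) (ha : a < 28) (hb : b < 28) (hc : c < 28) :
    (a = 13 ∨ a = 17 ∨ a = 25) ∨ bad (rw 0 ^^^ rw a ^^^ rw b ^^^ rw c) = false := by
  have h := chk_true
  unfold chk at h
  have h1 := List.all_eq_true.1 h a (List.mem_range.2 ha)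
  rcases Bool.or_eq_true_iff.1 h1 with h2 | h2
  · left
    rcases Bool.or_eq_true_iff.1 h2 with h3 | h3
    · rcases Bool.or_eq_true_iff.1 h3 with h4 | h4
      · exact Or.inl (Nat.eq_of_beq_eq_true h4)
      · exact Or.inr (Or.inl (Nat.eq_of_beq_eq_true h4))
    · exact Or.inr (Or.inr (Nat.eq_of_beq_eq_true h3))
  · right
    have h3 := List.all_eq_true.1 h2 b (List.mem_range.2 hb)
    have h4 := List.all_eq_true.1 h3 c (List.mem_range.2 hc)
    generalize bad (rw 0 ^^^ rw a ^^^ rw b ^^^ rw c) = x at h4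
    cases x
    · rfl
    · exact absurd h4 (by decide)

theorem bad_spec (m : ℕ) (h : bad m = false) : pcf 28 m ≠ 4 ∧ pcf 28 m ≠ 24 := by
  unfold bad at h
  generalize pcf 28 m = x at h
  constructor
  · rintro rfl
    exact absurd h (by decide)
  · rintro rfl
    exact absurd h (by decide)

def idx (p : Fin 4 × Fin 7) : ℕ := (p.2 : ℕ) + 7 * (p.1 : ℕ)

theorem idx_lt (p : Fin 4 × Fin 7) : idx p < 28 := by
  have h1 := p.1.2
  have h2 := p.2.2
  unfold idx; omega

theorem idx_inj {p q : Fin 4 × Fin 7} (h : idx p = idx q) : p = q := by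
  have h1 := p.1.2
  have h2 := p.2.2
  have h3 := q.1.2
  have h4 := q.2.2
  unfold idx at h
  apply Prod.ext
  · apply Fin.ext; omega
  · apply Fin.ext; omega

def sg (b : Bool) : ℤ := if b then -1 else 1

theorem sg_mul (a b : Bool) : sg a * sg b = sg (xor a b) := by
  cases a <;> cases b <;> rfl

theorem sum_sg (n : ℕ) : ∀ m : ℕ, ∑ k ∈ Finset.range n, sg (m.testBit k) = n - 2 * pcf n m := by
  induction n with
  | zero => intro m; simp [pcf]
  | succ n ih =>
    intro m
    rw [Finset.sum_range_succ']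
    have h1 : ∀ k, m.testBit (k + 1) = (m / 2).testBit k := fun k => Nat.testBit_succ m k
    simp only [h1]
    rw [ih (m / 2)]
    rw [pcf]
    have h2 : sg (m.testBit 0) = 1 - 2 * ((m % 2 : ℕ) : ℤ) := by
      rw [Nat.testBit_zero]
      rcases Nat.mod_two_eq_zero_or_one m with h | h <;> simp [h, sg]
    rw [h2]
    push_cast
    ring

theorem sum_idx (f : ℕ → ℤ) : ∑ p : Fin 4 × Fin 7, f (idx p) = ∑ k ∈ Finset.range 28, f k := by
  rw [Finset.sum_range]
  exact Fintype.sum_equiv (finProdFinEquiv (m := 4) (n := 7)) _ _ (fun p => rfl)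

/-- the first rows of the four circulants -/
def va : Fin 7 → ℤ := ![1, 1, -1, 1, -1, 1, -1]
def vb : Fin 7 → ℤ := ![1, 1, -1, -1, -1, 1, 1]
def vc : Fin 7 → ℤ := ![1, -1, -1, -1, -1, -1, -1]
def vd : Fin 7 → ℤ := ![1, -1, 1, 1, -1, -1, 1]

def RR : Matrix (Fin 7) (Fin 7) ℤ :=
  Matrix.of (fun i j : Fin 7 => if (i : ℕ) + (j : ℕ) + 1 = 7 then (1 : ℤ) else 0)

def HH : Matrix (Fin 4 × Fin 7) (Fin 4 × Fin 7) ℤ :=
  Matrix.of (fun p q : Fin 4 × Fin 7 =>
      (![![Matrix.circulant va, Matrix.circulant vb * RR, Matrix.circulant vc * RR, Matrix.circulant vd * RR],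
         ![Matrix.circulant vb * RR, -Matrix.circulant va, RR * Matrix.circulant vd, -(RR * Matrix.circulant vc)],
         ![Matrix.circulant vc * RR, -(RR * Matrix.circulant vd), -Matrix.circulant va, RR * Matrix.circulant vb],
         ![Matrix.circulant vd * RR, RR * Matrix.circulant vc, -(RR * Matrix.circulant vb), -Matrix.circulant va]]
        : Fin 4 → Fin 4 → Matrix (Fin 7) (Fin 7) ℤ) p.1 q.1 p.2 q.2)

theorem HH_eq : ∀ p q, HH p q = sg ((rw (idx p)).testBit (idx q)) := by
  decide +kernel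

theorem circ_id : Matrix.circulant va * (Matrix.circulant va).transpose
      + Matrix.circulant vb * (Matrix.circulant vb).transpose
      + Matrix.circulant vc * (Matrix.circulant vc).transpose
      + Matrix.circulant vd * (Matrix.circulant vd).transpose
      = ((4 * 7 : ℕ) : ℤ) • (1 : Matrix (Fin 7) (Fin 7) ℤ) := by
  decide +kernel

def Phi (H : Matrix (Fin 4 × Fin 7) (Fin 4 × Fin 7) ℤ) (p a b c : Fin 4 × Fin 7) : ℤ :=
  ∑ q, H p q * H a q * H b q * H c q

theorem prod_HH (p a b c q : Fin 4 × Fin 7) : HH p q * HH a q * HH b q * HH c q =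
    sg ((rw (idx p) ^^^ rw (idx a) ^^^ rw (idx b) ^^^ rw (idx c)).testBit (idx q)) := by
  rw [HH_eq p q, HH_eq a q, HH_eq b q, HH_eq c q]
  generalize rw (idx p) = x1
  generalize rw (idx a) = x2
  generalize rw (idx b) = x3
  generalize rw (idx c) = x4
  generalize idx q = k
  rw [Nat.testBit_xor, Nat.testBit_xor, Nat.testBit_xor, sg_mul, sg_mul, sg_mul]

theorem Phi_HH (p a b c : Fin 4 × Fin 7) : Phi HH p a b c =
    28 - 2 * pcf 28 (rw (idx p) ^^^ rw (idx a) ^^^ rw (idx b) ^^^ rw (idx c)) := by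
  unfold Phi
  rw [Finset.sum_congr rfl (fun q _ => prod_HH p a b c q)]
  generalize rw (idx p) ^^^ rw (idx a) ^^^ rw (idx b) ^^^ rw (idx c) = x
  rw [sum_idx (fun k => sg (x.testBit k)), sum_sg]
  generalize pcf 28 x = y
  norm_num

theorem row0 (a b c : Fin 4 × Fin 7) (h : (Phi HH (0, 0) a b c) ^ 2 = 400) :
    idx a = 13 ∨ idx a = 17 ∨ idx a = 25 := by
  rcases chk_spec (idx a) (idx b) (idx c) (idx_lt a) (idx_lt b) (idx_lt c) with h1 | h1
  · exact h1
  · exfalso
    obtain ⟨h4, h5⟩ := bad_spec _ h1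
    rw [Phi_HH] at h
    have h0 : idx (0, 0) = 0 := rfl
    rw [h0] at h
    generalize pcf 28 (rw 0 ^^^ rw (idx a) ^^^ rw (idx b) ^^^ rw (idx c)) = x at h h4 h5
    have h6 : ((28 : ℤ) - 2 * x - 20) * (28 - 2 * x + 20) = 0 := by linarith
    rcases mul_eq_zero.1 h6 with h7 | h7
    · apply h4; omega
    · apply h5; omega

theorem sq_one {x : ℤ} (h : x = 1 ∨ x = -1) : x * x = 1 := by
  rcases h with h | h <;> rw [h] <;> norm_num

/-- The negation of the preceding statement: For odd w ≥ 7 and ±1 circulants A,B,C,D with AAᵀ+BBᵀ+CCᵀ+DDᵀ=4wI, the displayed Goethals–Seidel Hadamard matrix is, up to row/column permutation and negation, the matrix of a ±1 2-cocycle on some group of order 4w. -/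
theorem result :
    ¬ (∀ (w : ℕ), 7 ≤ w → Odd w →
  ∀ (a b c d : Fin w → ℤ),
    (∀ i, (a i = 1 ∨ a i = -1) ∧ (b i = 1 ∨ b i = -1) ∧
          (c i = 1 ∨ c i = -1) ∧ (d i = 1 ∨ d i = -1)) →
    Matrix.circulant a * (Matrix.circulant a).transpose
      + Matrix.circulant b * (Matrix.circulant b).transpose
      + Matrix.circulant c * (Matrix.circulant c).transpose
      + Matrix.circulant d * (Matrix.circulant d).transpose
      = ((4 * w : ℕ) : ℤ) • (1 : Matrix (Fin w) (Fin w) ℤ) →
  ∀ (R : Matrix (Fin w) (Fin w) ℤ),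
    R = Matrix.of (fun i j : Fin w => if (i : ℕ) + (j : ℕ) + 1 = w then (1 : ℤ) else 0) →
  ∀ (H : Matrix (Fin 4 × Fin w) (Fin 4 × Fin w) ℤ),
    H = Matrix.of (fun p q : Fin 4 × Fin w =>
      (![![Matrix.circulant a, Matrix.circulant b * R, Matrix.circulant c * R, Matrix.circulant d * R],
         ![Matrix.circulant b * R, -Matrix.circulant a, R * Matrix.circulant d, -(R * Matrix.circulant c)],
         ![Matrix.circulant c * R, -(R * Matrix.circulant d), -Matrix.circulant a, R * Matrix.circulant b],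
         ![Matrix.circulant d * R, R * Matrix.circulant c, -(R * Matrix.circulant b), -Matrix.circulant a]]
        : Fin 4 → Fin 4 → Matrix (Fin w) (Fin w) ℤ) p.1 q.1 p.2 q.2) →
  ∃ (G : Type) (_ : Group G) (ψ : G → G → ℤ) (σ τ : (Fin 4 × Fin w) ≃ G)
    (r s : Fin 4 × Fin w → ℤ),
    (∀ g h : G, ψ g h = 1 ∨ ψ g h = -1) ∧
    (∀ g h k : G, ψ g h * ψ (g * h) k = ψ g (h * k) * ψ h k) ∧
    (∀ i, r i = 1 ∨ r i = -1) ∧
    (∀ j, s j = 1 ∨ s j = -1) ∧
    (∀ i j, H i j = r i * s j * ψ (σ i) (τ j))) := by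
  intro hall
  obtain ⟨G, _, ψ, σ, τ, r, s, hψ, hco, hr, hs, hH⟩ := hall 7 le_rfl (by decide) va vb vc vd
    (by decide) circ_id RR rfl HH rfl
  have : Fintype G := Fintype.ofEquiv _ σ
  -- the four-row sums in terms of the group
  let Ps : G → G → G → G → ℤ := fun x a b c => ∑ z : G, ψ x z * ψ a z * ψ b z * ψ c z
  have hPhi : ∀ p a b c, (Phi HH p a b c) ^ 2 = (Ps (σ p) (σ a) (σ b) (σ c)) ^ 2 := by
    intro p a b c
    have h1 : Phi HH p a b c = (r p * r a * r b * r c) * Ps (σ p) (σ a) (σ b) (σ c) := by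
      unfold Phi
      simp only [Ps]
      rw [Finset.mul_sum, ← Equiv.sum_comp τ]
      refine Finset.sum_congr rfl (fun q _ => ?_)
      rw [hH, hH, hH, hH]
      have := sq_one (hs q)
      linear_combination (s q * s q + 1) * (r p * r a * r b * r c * ψ (σ p) (τ q) * ψ (σ a) (τ q) *
        ψ (σ b) (τ q) * ψ (σ c) (τ q)) * this
    rw [h1, mul_pow]
    have e1 := sq_one (hr p)
    have e2 := sq_one (hr a)
    have e3 := sq_one (hr b)
    have e4 := sq_one (hr c)
    have : (r p * r a * r b * r c) ^ 2 = 1 := by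
      calc (r p * r a * r b * r c) ^ 2 = (r p * r p) * (r a * r a) * (r b * r b) * (r c * r c) := by ring
        _ = 1 := by rw [e1, e2, e3, e4]; norm_num
    rw [this, one_mul]
  have hshift : ∀ g x a b c : G, (Ps (x * g) (a * g) (b * g) (c * g)) ^ 2 = (Ps x a b c) ^ 2 := by
    intro g x a b c
    have hk : ∀ x z : G, ψ (x * g) z = ψ x g * ψ g z * ψ x (g * z) := by
      intro x z
      have h1 := hco x g z
      have h2 := sq_one (hψ x g)
      linear_combination (ψ x g) * h1 - (ψ (x * g) z) * h2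
    have h1 : Ps (x * g) (a * g) (b * g) (c * g) = (ψ x g * ψ a g * ψ b g * ψ c g) * Ps x a b c := by
      simp only [Ps]
      rw [Finset.mul_sum, ← Equiv.sum_comp (Equiv.mulLeft g)
        (fun z => (ψ x g * ψ a g * ψ b g * ψ c g) * (ψ x z * ψ a z * ψ b z * ψ c z))]
      refine Finset.sum_congr rfl (fun z _ => ?_)
      rw [hk, hk, hk, hk]
      have := sq_one (hψ g z)
      simp only [Equiv.coe_mulLeft]
      linear_combination (ψ g z * ψ g z + 1) * (ψ x g * ψ a g * ψ b g * ψ c g) *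
        (ψ x (g * z) * ψ a (g * z) * ψ b (g * z) * ψ c (g * z)) * this
    rw [h1, mul_pow]
    have e1 := sq_one (hψ x g)
    have e2 := sq_one (hψ a g)
    have e3 := sq_one (hψ b g)
    have e4 := sq_one (hψ c g)
    have : (ψ x g * ψ a g * ψ b g * ψ c g) ^ 2 = 1 := by
      calc (ψ x g * ψ a g * ψ b g * ψ c g) ^ 2
          = (ψ x g * ψ x g) * (ψ a g * ψ a g) * (ψ b g * ψ b g) * (ψ c g * ψ c g) := by ring
        _ = 1 := by rw [e1, e2, e3, e4]; norm_num
    rw [this, one_mul]
  -- the translation taking row `1` to row `0`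
  let g : G := (σ (0, 1))⁻¹ * σ (0, 0)
  let ρ : Fin 4 × Fin 7 → Fin 4 × Fin 7 := fun p => σ.symm (σ p * g)
  have hρ : Function.Injective ρ := by
    intro p q h
    have h1 : σ p * g = σ q * g := σ.symm.injective h
    exact σ.injective (mul_right_cancel h1)
  have hρ1 : ρ (0, 1) = (0, 0) := by
    simp only [ρ, g]
    rw [mul_inv_cancel_left, Equiv.symm_apply_apply]
  have htr : ∀ p a b c, (Phi HH (ρ p) (ρ a) (ρ b) (ρ c)) ^ 2 = (Phi HH p a b c) ^ 2 := by
    intro p a b c
    rw [hPhi, hPhi]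
    simp only [ρ, Equiv.apply_symm_apply]
    exact hshift g _ _ _ _
  -- two witnesses at row `1`
  have w1 : (Phi HH (0, 1) (0, 2) (0, 3) (1, 4)) ^ 2 = 400 := by
    rw [Phi_HH]; decide +kernel
  have w1b : (Phi HH (0, 1) (0, 3) (1, 4) (0, 2)) ^ 2 = 400 := by
    rw [Phi_HH]; decide +kernel
  have w1c : (Phi HH (0, 1) (1, 4) (0, 2) (0, 3)) ^ 2 = 400 := by
    rw [Phi_HH]; decide +kernel
  have w2 : (Phi HH (0, 1) (0, 4) (0, 5) (2, 4)) ^ 2 = 400 := by
    rw [Phi_HH]; decide +kernel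
  have t1 := htr (0, 1) (0, 2) (0, 3) (1, 4)
  have t2 := htr (0, 1) (0, 3) (1, 4) (0, 2)
  have t3 := htr (0, 1) (1, 4) (0, 2) (0, 3)
  have t4 := htr (0, 1) (0, 4) (0, 5) (2, 4)
  rw [hρ1, w1] at t1
  rw [hρ1, w1b] at t2
  rw [hρ1, w1c] at t3
  rw [hρ1, w2] at t4
  have s1 := row0 _ _ _ t1
  have s2 := row0 _ _ _ t2
  have s3 := row0 _ _ _ t3
  have s4 := row0 _ _ _ t4
  have d12 : idx (ρ (0, 2)) ≠ idx (ρ (0, 3)) := fun h => absurd (hρ (idx_inj h)) (by decide)
  have d13 : idx (ρ (0, 2)) ≠ idx (ρ (1, 4)) := fun h => absurd (hρ (idx_inj h)) (by decide)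
  have d14 : idx (ρ (0, 2)) ≠ idx (ρ (0, 4)) := fun h => absurd (hρ (idx_inj h)) (by decide)
  have d23 : idx (ρ (0, 3)) ≠ idx (ρ (1, 4)) := fun h => absurd (hρ (idx_inj h)) (by decide)
  have d24 : idx (ρ (0, 3)) ≠ idx (ρ (0, 4)) := fun h => absurd (hρ (idx_inj h)) (by decide)
  have d34 : idx (ρ (1, 4)) ≠ idx (ρ (0, 4)) := fun h => absurd (hρ (idx_inj h)) (by decide)
  omega

end Pool.Agent.S05752
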