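import Pool.Statements.S05803

set_option autoImplicit false
open Pool Pool.MP_4adf9f_co

namespace Pool.Agent.S05803

/-!
The example: the Hughes plane of order `9` with the group `Z₁₃ × S₃`.
Points: `13` points of the Baer subplane (`Sum.inl`) and the `78` remaining points (`Sum.inr`),
on which the group acts regularly; the same for lines.
-/

/-- Points and lines of the plane. -/
abbrev Pt : Type := ZMod 13 ⊕ (ZMod 13 × DihedralGroup 3)

/-- The planar difference set `{0,1,3,9}` of order `3` in `ZMod 13`. -/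
def E (i : ZMod 13) : Bool := decide (i = 0 ∨ i = 1 ∨ i = 3 ∨ i = 9)

/-- The lifting of the complement of `E`. -/
def f (i : ZMod 13) : DihedralGroup 3 :=
  if i = 4 ∨ i = 6 then DihedralGroup.r 1
  else if i = 5 ∨ i = 12 then DihedralGroup.r 2
  else if i = 7 ∨ i = 8 ∨ i = 11 then DihedralGroup.sr 0
  else DihedralGroup.r 0

theorem F1 : ∀ d : ZMod 13, d ≠ 0 → ∃ i : ZMod 13, E i = true ∧ E (i + d) = true := by
  decide +kernel

theorem F1u : ∀ d : ZMod 13, d ≠ 0 → ∀ i j : ZMod 13, E i = true → E (i + d) = true →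
    E j = true → E (j + d) = true → i = j := by
  decide +kernel

theorem F2 : ∀ d : ZMod 13, d ≠ 0 → ∀ σ : DihedralGroup 3,
    ∃ i : ZMod 13, E i = false ∧ E (i + d) = false ∧ f (i + d) = σ * f i := by
  decide +kernel

theorem F2' : ∀ d : ZMod 13, d ≠ 0 → ∀ σ : DihedralGroup 3,
    ∃ i : ZMod 13, E i = false ∧ E (i + d) = false ∧ f (i + d) = f i * σ := by
  decide +kernel

theorem F2u : ∀ d : ZMod 13, d ≠ 0 → ∀ i j : ZMod 13, E i = false → E (i + d) = false →
    E j = false → E (j + d) = false → f (i + d) * (f i)⁻¹ = f (j + d) * (f j)⁻¹ → i = j := by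
  decide +kernel

/-- Incidence. -/
def inc : Pt → Pt → Prop
  | Sum.inl b, Sum.inl j => E (j - b) = true
  | Sum.inl b, Sum.inr c => b = c.1
  | Sum.inr a, Sum.inl j => a.1 = j
  | Sum.inr a, Sum.inr c => E (a.1 - c.1) = false ∧ a.2 = f (a.1 - c.1) * c.2

instance instMem : Membership Pt Pt := ⟨fun l p => inc p l⟩

theorem mem_def (p l : Pt) : p ∈ l ↔ inc p l := Iff.rfl

theorem ex_line (p q : Pt) (h : p ≠ q) : ∃ l : Pt, p ∈ l ∧ q ∈ l := by
  rcases p with b | ⟨a, s⟩ <;> rcases q with b' | ⟨a', s'⟩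
  · have hne : b - b' ≠ 0 := by
      intro h0; exact h (by rw [sub_eq_zero.mp h0])
    obtain ⟨i, hi1, hi2⟩ := F1 (b - b') hne
    refine ⟨Sum.inl (i + b), ?_, ?_⟩
    · show E (i + b - b) = true
      rwa [add_sub_cancel_right]
    · show E (i + b - b') = true
      rwa [add_sub_assoc]
  · by_cases hE : E (a' - b) = true
    · exact ⟨Sum.inl a', hE, rfl⟩
    · refine ⟨Sum.inr (b, (f (a' - b))⁻¹ * s'), rfl, ?_, ?_⟩
      · simpa using hE
      · simp
  · by_cases hE : E (a - b') = true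
    · exact ⟨Sum.inl a, rfl, hE⟩
    · refine ⟨Sum.inr (b', (f (a - b'))⁻¹ * s), ⟨?_, ?_⟩, rfl⟩
      · simpa using hE
      · simp
  · by_cases haa : a = a'
    · exact ⟨Sum.inl a, rfl, haa.symm⟩
    · have hne : a' - a ≠ 0 := by
        intro h0; exact haa (sub_eq_zero.mp h0).symm
      obtain ⟨i, hi1, hi2, hi3⟩ := F2 (a' - a) hne (s' * s⁻¹)
      have e1 : a - (a - i) = i := by ring
      have e2 : a' - (a - i) = i + (a' - a) := by ring
      refine ⟨Sum.inr (a - i, (f i)⁻¹ * s), ⟨?_, ?_⟩, ⟨?_, ?_⟩⟩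
      · show E (a - (a - i)) = false
        rwa [e1]
      · show s = f (a - (a - i)) * ((f i)⁻¹ * s)
        rw [e1]; simp
      · show E (a' - (a - i)) = false
        rwa [e2]
      · show s' = f (a' - (a - i)) * ((f i)⁻¹ * s)
        rw [e2, hi3]; group

theorem ex_point (l m : Pt) (h : l ≠ m) : ∃ p : Pt, p ∈ l ∧ p ∈ m := by
  rcases l with b | ⟨a, s⟩ <;> rcases m with b' | ⟨a', s'⟩
  · have hne : b' - b ≠ 0 := by
      intro h0; exact h (by rw [sub_eq_zero.mp h0])
    obtain ⟨i, hi1, hi2⟩ := F1 (b' - b) hne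
    refine ⟨Sum.inl (b - i), ?_, ?_⟩
    · show E (b - (b - i)) = true
      rwa [sub_sub_cancel]
    · show E (b' - (b - i)) = true
      have : b' - (b - i) = i + (b' - b) := by ring
      rwa [this]
  · by_cases hE : E (b - a') = true
    · exact ⟨Sum.inl a', hE, rfl⟩
    · refine ⟨Sum.inr (b, f (b - a') * s'), rfl, ?_, rfl⟩
      simpa using hE
  · by_cases hE : E (b' - a) = true
    · exact ⟨Sum.inl a, rfl, hE⟩
    · refine ⟨Sum.inr (b', f (b' - a) * s), ⟨?_, rfl⟩, rfl⟩
      simpa using hE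
  · by_cases haa : a = a'
    · exact ⟨Sum.inl a, rfl, haa⟩
    · have hne : a' - a ≠ 0 := by
        intro h0; exact haa (sub_eq_zero.mp h0).symm
      obtain ⟨i, hi1, hi2, hi3⟩ := F2' (a' - a) hne (s' * s⁻¹)
      have e1 : i + a' - a' = i := by ring
      have e2 : i + a' - a = i + (a' - a) := by ring
      refine ⟨Sum.inr (i + a', f i * s'), ⟨?_, ?_⟩, ⟨?_, ?_⟩⟩
      · show E (i + a' - a) = false
        rwa [e2]
      · show f i * s' = f (i + a' - a) * s
        rw [e2, hi3]; group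
      · show E (i + a' - a') = false
        rwa [e1]
      · show f i * s' = f (i + a' - a') * s'
        rw [e1]

theorem uniq {p q l m : Pt} (h1 : p ∈ l) (h2 : q ∈ l) (h3 : p ∈ m) (h4 : q ∈ m) :
    p = q ∨ l = m := by
  rcases p with b | ⟨a, s⟩ <;> rcases q with b' | ⟨a', s'⟩ <;>
    rcases l with j | ⟨c, t⟩ <;> rcases m with j' | ⟨c', t'⟩ <;>
    simp only [mem_def, inc] at h1 h2 h3 h4
  -- inl, inl
  · by_cases hb : b = b'
    · exact Or.inl (by rw [hb])
    · right
      have hne : b - b' ≠ 0 := fun h0 => hb (sub_eq_zero.mp h0)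
      have := F1u (b - b') hne (j - b) (j' - b) h1 (by convert h2 using 2; ring) h3
        (by convert h4 using 2; ring)
      have h5 : j = j' := by simpa using this
      rw [h5]
  · left; rw [h3, h4]
  · left; rw [h1, h2]
  · left; rw [h1, h2]
  -- inl, inr
  · right; rw [← h2, ← h4]
  · exfalso; subst h2 h3
    rw [h1] at h4; exact absurd h4.1 (by simp)
  · exfalso; subst h1 h4
    rw [h3] at h2; exact absurd h2.1 (by simp)
  · right
    subst h1 h3
    have : t = t' := by
      have := h2.2.symm.trans h4.2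
      exact mul_left_cancel this
    rw [this]
  -- inr, inl
  · right; rw [← h1, ← h3]
  · exfalso; subst h1 h4
    rw [h2] at h3; exact absurd h3.1 (by simp)
  · exfalso; subst h2 h3
    rw [h4] at h1; exact absurd h1.1 (by simp)
  · right
    subst h2 h4
    have : t = t' := by
      have := h1.2.symm.trans h3.2
      exact mul_left_cancel this
    rw [this]
  -- inr, inr
  · right; rw [← h1, ← h3]
  · left
    have haa : a = a' := h1.trans h2.symm
    subst haa
    have : s = s' := h3.2.trans h4.2.symm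
    rw [this]
  · left
    have haa : a = a' := h3.trans h4.symm
    subst haa
    have : s = s' := h1.2.trans h2.2.symm
    rw [this]
  · by_cases haa : a = a'
    · left
      subst haa
      have : s = s' := h1.2.trans h2.2.symm
      rw [this]
    · right
      have hne : a' - a ≠ 0 := fun h0 => haa (sub_eq_zero.mp h0).symm
      have e1 : a - c + (a' - a) = a' - c := by ring
      have e2 : a - c' + (a' - a) = a' - c' := by ring
      have key := F2u (a' - a) hne (a - c) (a - c') h1.1 (by rw [e1]; exact h2.1) h3.1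
        (by rw [e2]; exact h4.1) (by
          rw [e1, e2]
          have k1 : s' * s⁻¹ = f (a' - c) * (f (a - c))⁻¹ := by
            rw [h2.2, h1.2]; group
          have k2 : s' * s⁻¹ = f (a' - c') * (f (a - c'))⁻¹ := by
            rw [h4.2, h3.2]; group
          rw [← k1, ← k2])
      have hc : c = c' := by simpa using key
      subst hc
      have : t = t' := by
        have := h1.2.symm.trans h3.2
        exact mul_left_cancel this
      rw [this]

theorem one_ne : ¬ ((1 : ZMod 13) = 0) := by decide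

noncomputable instance instPP : Configuration.ProjectivePlane Pt Pt where
  exists_point := by
    intro l
    rcases l with j | ⟨c, t⟩
    · exact ⟨Sum.inr (j + 1, 1), by simp [mem_def, inc, one_ne]⟩
    · exact ⟨Sum.inl (c + 1), by simp [mem_def, inc, one_ne]⟩
  exists_line := by
    intro p
    rcases p with j | ⟨c, t⟩
    · exact ⟨Sum.inr (j + 1, 1), by simp [mem_def, inc, one_ne]⟩
    · exact ⟨Sum.inl (c + 1), by simp [mem_def, inc, one_ne]⟩
  eq_or_eq := by
    intro p q l m h1 h2 h3 h4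
    exact uniq h1 h2 h3 h4
  mkPoint := fun {l m} h => (ex_point l m h).choose
  mkPoint_ax := fun {l m} h => (ex_point l m h).choose_spec
  mkLine := fun {p q} h => (ex_line p q h).choose
  mkLine_ax := fun {p q} h => (ex_line p q h).choose_spec
  exists_config := by
    refine ⟨Sum.inl 2, Sum.inl 0, Sum.inl 12, Sum.inl 4, Sum.inl 0, Sum.inl 1,
      ?_, ?_, ?_, ?_, ?_, ?_, ?_, ?_⟩ <;> (simp only [mem_def, inc]; decide)

/-- The action of the group `Z₁₃ × S₃`. -/
def act (g : Multiplicative (ZMod 13) × DihedralGroup 3) : Equiv.Perm Pt :=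
  Equiv.sumCongr (Equiv.addRight g.1.toAdd)
    (Equiv.prodCongr (Equiv.addRight g.1.toAdd) (Equiv.mulRight g.2⁻¹))

@[simp] theorem act_inl (g : Multiplicative (ZMod 13) × DihedralGroup 3) (b : ZMod 13) :
    act g (Sum.inl b) = Sum.inl (b + g.1.toAdd) := rfl

@[simp] theorem act_inr (g : Multiplicative (ZMod 13) × DihedralGroup 3)
    (a : ZMod 13 × DihedralGroup 3) :
    act g (Sum.inr a) = Sum.inr (a.1 + g.1.toAdd, a.2 * g.2⁻¹) := rfl

theorem act_one : act 1 = 1 := by
  ext p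
  rcases p with b | ⟨a, s⟩ <;> simp

theorem act_mul (g h : Multiplicative (ZMod 13) × DihedralGroup 3) :
    act (g * h) = act g * act h := by
  ext p
  rcases p with b | ⟨a, s⟩
  · simp [Equiv.Perm.mul_apply]; ring
  · simp only [Equiv.Perm.mul_apply, act_inr, Prod.fst_mul, Prod.snd_mul, toAdd_mul, mul_inv_rev]
    congr 2
    · ring
    · group

/-- The group as a group of pairs of permutations. -/
def φ : (Multiplicative (ZMod 13) × DihedralGroup 3) →* Equiv.Perm Pt × Equiv.Perm Pt where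
  toFun g := (act g, act g)
  map_one' := by rw [act_one]; rfl
  map_mul' g h := by rw [act_mul]; rfl

theorem φ_fst (g : Multiplicative (ZMod 13) × DihedralGroup 3) : (φ g).1 = act g := rfl
theorem φ_snd (g : Multiplicative (ZMod 13) × DihedralGroup 3) : (φ g).2 = act g := rfl

theorem φ_inj : Function.Injective φ := by
  intro g h hgh
  have h1 : act g = act h := congrArg Prod.fst hgh
  have h2 : act g (Sum.inr (0, 1)) = act h (Sum.inr (0, 1)) := by rw [h1]
  simp only [act_inr, zero_add, one_mul, Sum.inr.injEq, Prod.mk.injEq, inv_inj] at h2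
  exact Prod.ext (by simpa using h2.1) h2.2

theorem card_Γ : Nat.card φ.range = 78 := by
  rw [← Nat.card_congr (MonoidHom.ofInjective φ_inj).toEquiv]
  rw [Nat.card_prod, Nat.card_eq_fintype_card, Nat.card_eq_fintype_card]
  rfl

theorem order_eq : Configuration.ProjectivePlane.order Pt Pt = 9 := by
  have h := Configuration.ProjectivePlane.card_points Pt Pt
  have h2 : Fintype.card Pt = 91 := by
    rw [Fintype.card_sum, Fintype.card_prod, ZMod.card, DihedralGroup.card]
  rw [h2] at h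
  nlinarith

theorem act_inc (g : Multiplicative (ZMod 13) × DihedralGroup 3) (p l : Pt) :
    p ∈ l ↔ act g p ∈ act g l := by
  rcases p with b | ⟨a, s⟩ <;> rcases l with j | ⟨c, t⟩
  · simp only [mem_def, inc, act_inl, add_sub_add_right_eq_sub]
  · simp only [mem_def, inc, act_inl, act_inr, add_left_inj]
  · simp only [mem_def, inc, act_inl, act_inr, add_left_inj]
  · simp only [mem_def, inc, act_inr, add_sub_add_right_eq_sub]
    rw [← mul_assoc, mul_left_inj]

/-- The quasiregularity condition. -/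
theorem act_qr (g h : Multiplicative (ZMod 13) × DihedralGroup 3) (p : Pt)
    (hp : act g p = p) : act g (act h p) = act h p := by
  rcases p with b | ⟨a, s⟩
  · simp only [act_inl, Sum.inl.injEq, add_eq_left] at hp
    simp [hp]
  · simp only [act_inr, Sum.inr.injEq, Prod.mk.injEq, add_eq_left, mul_eq_left] at hp
    obtain ⟨h1, h2⟩ := hp
    simp [h1, h2]

theorem orbit_inl (r : ZMod 13) : ∃ g ∈ φ.range, g.1 (Sum.inl 0) = Sum.inl r :=
  ⟨φ (Multiplicative.ofAdd r, 1), ⟨_, rfl⟩, by simp [φ_fst]⟩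

theorem orbit_inr (r : ZMod 13 × DihedralGroup 3) :
    ∃ g ∈ φ.range, g.1 (Sum.inr (0, 1)) = Sum.inr r :=
  ⟨φ (Multiplicative.ofAdd r.1, r.2⁻¹), ⟨_, rfl⟩, by simp [φ_fst]⟩

theorem orbit_inl' (r : ZMod 13) : ∃ g ∈ φ.range, g.2 (Sum.inl 0) = Sum.inl r :=
  ⟨φ (Multiplicative.ofAdd r, 1), ⟨_, rfl⟩, by simp [φ_snd]⟩

theorem orbit_inr' (r : ZMod 13 × DihedralGroup 3) :
    ∃ g ∈ φ.range, g.2 (Sum.inr (0, 1)) = Sum.inr r :=
  ⟨φ (Multiplicative.ofAdd r.1, r.2⁻¹), ⟨_, rfl⟩, by simp [φ_snd]⟩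

/-- There is a finite projective plane of square order n=k², n≠4, with a quasiregular collineation group of order n²−√n (>(n²+n+1)/2) having exactly two point orbits, two line orbits, and no fixed points or lines. -/
theorem result :
    ∃ (P L : Type) (_ : Finite P) (_ : Finite L) (_ : Membership P L)
      (_ : Configuration.ProjectivePlane P L)
      (Γ : Subgroup (Equiv.Perm P × Equiv.Perm L)) (k : ℕ),
      Configuration.ProjectivePlane.order P L = k ^ 2 ∧
      k ^ 2 ≠ 4 ∧
      (∀ g ∈ Γ, ∀ p : P, ∀ l : L, p ∈ l ↔ g.1 p ∈ g.2 l) ∧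
      (∀ g ∈ Γ, ∀ p : P, g.1 p = p → ∀ h ∈ Γ, g.1 (h.1 p) = h.1 p) ∧
      (∀ g ∈ Γ, ∀ l : L, g.2 l = l → ∀ h ∈ Γ, g.2 (h.2 l) = h.2 l) ∧
      Nat.card Γ = k ^ 4 - k ∧
      2 * Nat.card Γ > k ^ 4 + k ^ 2 + 1 ∧
      (∃ p q : P, (¬ ∃ g ∈ Γ, g.1 p = q) ∧
        ∀ r : P, (∃ g ∈ Γ, g.1 p = r) ∨ (∃ g ∈ Γ, g.1 q = r)) ∧
      (∃ l m : L, (¬ ∃ g ∈ Γ, g.2 l = m) ∧
        ∀ r : L, (∃ g ∈ Γ, g.2 l = r) ∨ (∃ g ∈ Γ, g.2 m = r)) ∧
      (∀ p : P, ∃ g ∈ Γ, g.1 p ≠ p) ∧
      (∀ l : L, ∃ g ∈ Γ, g.2 l ≠ l) := by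
  refine ⟨Pt, Pt, inferInstance, inferInstance, instMem, instPP, φ.range, 3, ?_, ?_, ?_, ?_, ?_,
    ?_, ?_, ?_, ?_, ?_, ?_⟩
  · exact order_eq
  · norm_num
  · rintro _ ⟨g, rfl⟩ p l
    exact act_inc g p l
  · rintro _ ⟨g, rfl⟩ p hp _ ⟨h, rfl⟩
    exact act_qr g h p hp
  · rintro _ ⟨g, rfl⟩ p hp _ ⟨h, rfl⟩
    exact act_qr g h p hp
  · rw [card_Γ]; norm_num
  · rw [card_Γ]; norm_num
  · refine ⟨Sum.inl 0, Sum.inr (0, 1), ?_, ?_⟩
    · rintro ⟨_, ⟨g, rfl⟩, hg⟩
      simp [φ_fst] at hg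
    · rintro (r | r)
      · exact Or.inl (orbit_inl r)
      · exact Or.inr (orbit_inr r)
  · refine ⟨Sum.inl 0, Sum.inr (0, 1), ?_, ?_⟩
    · rintro ⟨_, ⟨g, rfl⟩, hg⟩
      simp [φ_snd] at hg
    · rintro (r | r)
      · exact Or.inl (orbit_inl' r)
      · exact Or.inr (orbit_inr' r)
  · intro p
    refine ⟨φ (Multiplicative.ofAdd 1, 1), ⟨_, rfl⟩, ?_⟩
    rcases p with b | ⟨a, s⟩ <;> simp [φ_fst, one_ne]
  · intro p
    refine ⟨φ (Multiplicative.ofAdd 1, 1), ⟨_, rfl⟩, ?_⟩
    rcases p with b | ⟨a, s⟩ <;> simp [φ_snd, one_ne]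

end Pool.Agent.S05803
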