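import Pool.Statements.S05811
import Pool.Agent.H190R2.P3.Main

set_option autoImplicit false
open Pool Pool.MP_4b544d_co

namespace Pool.Agent.S05811

/-- There is a constant C such that for every n, every oriented graph on n vertices has at most n^3/15 + C n^2 induced directed 2-edge paths, and some oriented graph on n vertices has at least n^3/15 - C n^2 of them. -/
theorem result :
    ∃ C : ℝ, ∀ n : ℕ,
      (∀ r : Fin n → Fin n → Bool,
        (∀ i, r i i = false) → (∀ i j, ¬ (r i j = true ∧ r j i = true)) →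
        ((((Finset.univ : Finset (Fin n × Fin n × Fin n)).filter
            (fun t => r t.1 t.2.1 = true ∧ r t.2.1 t.2.2 = true ∧
              r t.1 t.2.2 = false ∧ r t.2.2 t.1 = false ∧ t.1 ≠ t.2.2)).card : ℕ) : ℝ)
          ≤ (n : ℝ) ^ 3 / 15 + C * (n : ℝ) ^ 2) ∧
      (∃ r : Fin n → Fin n → Bool,
        (∀ i, r i i = false) ∧ (∀ i j, ¬ (r i j = true ∧ r j i = true)) ∧
        (n : ℝ) ^ 3 / 15 - C * (n : ℝ) ^ 2 ≤
          ((((Finset.univ : Finset (Fin n × Fin n × Fin n)).filter
            (fun t => r t.1 t.2.1 = true ∧ r t.2.1 t.2.2 = true ∧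
              r t.1 t.2.2 = false ∧ r t.2.2 t.1 = false ∧ t.1 ≠ t.2.2)).card : ℕ) : ℝ)) :=
  Pool.Agent.H190R2.P3.thomasse

end Pool.Agent.S05811
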