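import Pool.Statements.S05864

set_option autoImplicit false
open Pool Pool.MP_4e5a55_co

namespace Pool.Agent.S05864

/-! ## The lower bound `K(5,1) ≥ 7`, by a kernel-checked search -/

/-- The bitmask of the Hamming ball of radius one around the word `c` (a number below 32). -/
def ball (c : ℕ) : ℕ :=
  (1 <<< c) ||| (1 <<< (c ^^^ 1)) ||| (1 <<< (c ^^^ 2)) ||| (1 <<< (c ^^^ 4)) |||
    (1 <<< (c ^^^ 8)) ||| (1 <<< (c ^^^ 16))

/-- The search: `go w k m` is true if the words of index below `w` which are not in the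
mask `m` can be covered by `k` balls (a necessary condition for this, in fact). -/
def go : ℕ → ℕ → ℕ → Bool
  | 0, _, _ => true
  | w + 1, k, m =>
    if m.testBit w then go w k m
    else match k with
      | 0 => false
      | k + 1 =>
        go w k (m ||| ball w) || go w k (m ||| ball (w ^^^ 1)) || go w k (m ||| ball (w ^^^ 2)) ||
        go w k (m ||| ball (w ^^^ 4)) || go w k (m ||| ball (w ^^^ 8)) ||
        go w k (m ||| ball (w ^^^ 16))

theorem go_false : go 32 6 0 = false := by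
  decide +kernel

/-- The number of a word. -/
def enc (c : Fin 5 → Bool) : ℕ :=
  (c 0).toNat + 2 * (c 1).toNat + 4 * (c 2).toNat + 8 * (c 3).toNat + 16 * (c 4).toNat

theorem enc_ball : ∀ c : Fin 5 → Bool, ∀ w : Fin 32, (ball (enc c)).testBit w = true →
    enc c = w ∨ enc c = w ^^^ 1 ∨ enc c = w ^^^ 2 ∨ enc c = w ^^^ 4 ∨ enc c = w ^^^ 8 ∨
      enc c = w ^^^ 16 := by
  decide +kernel

theorem ball_enc : ∀ w c : Fin 5 → Bool, hammingDist w c ≤ 1 →
    (ball (enc c)).testBit (enc w) = true := by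
  decide +kernel

theorem enc_surj : ∀ n : Fin 32, ∃ w : Fin 5 → Bool, enc w = n := by
  decide +kernel

theorem go_complete : ∀ w : ℕ, w ≤ 32 → ∀ (k m : ℕ) (C : Finset (Fin 5 → Bool)), C.card ≤ k →
    (∀ n < w, m.testBit n = true ∨ ∃ c ∈ C, (ball (enc c)).testBit n = true) →
    go w k m = true := by
  intro w
  induction w with
  | zero => intro _ k m C _ _; simp [go]
  | succ w ih =>
    intro hw k m C hC hcov
    unfold go
    by_cases hm : m.testBit w = true
    · rw [if_pos hm]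
      exact ih (by omega) k m C hC fun n hn => hcov n (by omega)
    · rw [if_neg hm]
      obtain ⟨c, hc, hb⟩ := (hcov w (by omega)).resolve_left hm
      have hpos : 0 < C.card := Finset.card_pos.2 ⟨c, hc⟩
      obtain ⟨k', rfl⟩ : ∃ k', k = k' + 1 := ⟨k - 1, by omega⟩
      have key : go w k' (m ||| ball (enc c)) = true := by
        refine ih (by omega) k' _ (C.erase c) ?_ ?_
        · rw [Finset.card_erase_of_mem hc]; omega
        · intro n hn
          rcases hcov n (by omega) with h | ⟨c', hc', h⟩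
          · left; rw [Nat.testBit_or, h]; rfl
          · by_cases hcc : c' = c
            · subst hcc; left; rw [Nat.testBit_or, h, Bool.or_true]
            · right; exact ⟨c', Finset.mem_erase.2 ⟨hcc, hc'⟩, h⟩
      have := enc_ball c ⟨w, by omega⟩ hb
      simp only at this
      rcases this with h | h | h | h | h | h <;> rw [h] at key <;> simp [key]

theorem seven_le (C : Finset (Fin 5 → Bool))
    (hC : ∀ w : Fin 5 → Bool, ∃ c ∈ C, hammingDist w c ≤ 1) : 7 ≤ C.card := by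
  by_contra hcon
  have h := go_complete 32 le_rfl 6 0 C (by omega) fun n hn => by
    right
    obtain ⟨w, hw⟩ := enc_surj ⟨n, hn⟩
    obtain ⟨c, hc, hd⟩ := hC w
    refine ⟨c, hc, ?_⟩
    have := ball_enc w c hd
    rw [hw] at this
    exact this
  rw [go_false] at h
  exact absurd h (by decide)

/-! ## Six lines illuminate the 5-cube -/

/-- Is the coordinate `j` increasing along the line `i`? -/
def up : Fin 6 → Fin 5 → Bool
  | 0, _ => true
  | 1, _ => true
  | 2, j => j ≠ 2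
  | 3, j => j ≠ 1 ∧ j ≠ 2
  | 4, j => j ≠ 2 ∧ j ≠ 3
  | 5, j => j ≠ 1 ∧ j ≠ 3

/-- The time at which the coordinate `j` passes through the centre along the line `i`. -/
def tm : Fin 6 → Fin 5 → ℤ
  | 0 => ![1, 2, 3, 4, 5]
  | 1 => ![2, 1, 3, 5, 4]
  | 2 => ![1, 4, 3, 2, 5]
  | 3 => ![4, 3, 5, 1, 2]
  | 4 => ![4, 5, 1, 3, 2]
  | 5 => ![5, 4, 3, 2, 1]

/-- Twice the speed. -/
def sg (i : Fin 6) (j : Fin 5) : ℤ := if up i j then 1 else -1

/-- Every sign vector is met. -/
theorem covered : ∀ s : Fin 5 → Bool, ∃ i : Fin 6, ∃ k : Fin 6, ∀ j,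
    (s j = true → 3 ≤ 1 + 2 * sg i j * (2 * (k : ℕ) + 1 - 2 * tm i j)) ∧
    (s j = false → 1 + 2 * sg i j * (2 * (k : ℕ) + 1 - 2 * tm i j) ≤ -1) := by
  decide +kernel

/-- The point of the line `i` at time `t`. -/
noncomputable def pt (i : Fin 6) (t : ℝ) : Fin 5 → ℝ :=
  fun j => 1 / 2 + 2 * (sg i j : ℝ) * (t - (tm i j : ℝ))

/-- The direction of the line `i`. -/
noncomputable def dir (i : Fin 6) : Fin 5 → ℝ := fun j => 2 * (sg i j : ℝ)

/-- The line `i`. -/
noncomputable def line (i : Fin 6) : AffineSubspace ℝ (Fin 5 → ℝ) :=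
  AffineSubspace.mk' (pt i 0) (Submodule.span ℝ {dir i})

theorem mem_line (i : Fin 6) (y : Fin 5 → ℝ) : y ∈ line i ↔ ∃ t : ℝ, y = pt i t := by
  rw [line, AffineSubspace.mem_mk', Submodule.mem_span_singleton]
  constructor
  · rintro ⟨t, ht⟩
    refine ⟨t, ?_⟩
    have h : y = t • dir i + pt i 0 := by rw [ht]; simp
    rw [h]; funext j; simp [pt, dir]; ring
  · rintro ⟨t, rfl⟩
    refine ⟨t, ?_⟩
    funext j; simp [pt, dir]; ring

theorem sg_cases (i : Fin 6) (j : Fin 5) : sg i j = 1 ∨ sg i j = -1 := by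
  unfold sg; split_ifs <;> simp

theorem dir_ne (i : Fin 6) : dir i ≠ 0 := by
  intro h
  have := congrFun h 0
  rcases sg_cases i 0 with h' | h' <;> simp [dir, h'] at this

theorem finrank_line (i : Fin 6) : Module.finrank ℝ (line i).direction = 1 := by
  rw [line, AffineSubspace.direction_mk', finrank_span_singleton (dir_ne i)]

theorem tm_ne : ∀ i : Fin 6, (1 : ℤ) ≤ |tm i 0 - tm i 1| := by decide

/-- A line misses the cube, since at each time at most one coordinate is near the centre. -/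
theorem miss (i : Fin 6) (t : ℝ) : ¬ (∀ j, 0 ≤ pt i t j ∧ pt i t j ≤ 1) := by
  intro h
  have key : ∀ j, |t - (tm i j : ℝ)| ≤ 1 / 4 := by
    intro j
    have := h j
    unfold pt at this
    rw [abs_le]
    rcases sg_cases i j with h' | h' <;> rw [h'] at this <;> push_cast at this <;>
      constructor <;> linarith [this.1, this.2]
  have h0 := key 0
  have h1 := key 1
  have hne : (1 : ℝ) ≤ |(tm i 0 : ℝ) - (tm i 1 : ℝ)| := by
    have : (1 : ℤ) ≤ |tm i 0 - tm i 1| := tm_ne i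
    exact_mod_cast this
  have : |(tm i 0 : ℝ) - (tm i 1 : ℝ)| ≤ 1 / 4 + 1 / 4 := by
    have e : (tm i 0 : ℝ) - (tm i 1 : ℝ) = (t - (tm i 1 : ℝ)) - (t - (tm i 0 : ℝ)) := by ring
    rw [e]
    exact (abs_sub _ _).trans (by linarith)
  linarith

theorem pt_bound (i : Fin 6) (k : Fin 6) (j : Fin 5) :
    |pt i ((k : ℕ) + 1 / 2) j| ≤ 10 := by
  have h : |1 + 2 * sg i j * (2 * ((k : ℕ) : ℤ) + 1 - 2 * tm i j)| ≤ 20 := by
    revert i j k; decide
  have h' : |(1 : ℝ) + 2 * (sg i j : ℝ) * (2 * ((k : ℕ) : ℝ) + 1 - 2 * (tm i j : ℝ))| ≤ 20 := by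
    exact_mod_cast h
  have e : pt i ((k : ℕ) + 1 / 2) j =
      (1 + 2 * (sg i j : ℝ) * (2 * ((k : ℕ) : ℝ) + 1 - 2 * (tm i j : ℝ))) / 2 := by
    unfold pt; ring
  rw [e, abs_div, abs_of_pos (by norm_num : (0 : ℝ) < 2)]
  linarith

theorem illum (x : Fin 5 → ℝ) (hx : ∀ j, 0 ≤ x j ∧ x j ≤ 1) :
    ∃ i, ∃ y ∈ line i, ∃ t : ℝ, 0 < t ∧
      ∀ j, 0 < (x + t • (x - y)) j ∧ (x + t • (x - y)) j < 1 := by
  classical
  obtain ⟨i, k, hk⟩ := covered fun j => decide (1 / 2 < x j)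
  refine ⟨i, pt i ((k : ℕ) + 1 / 2), (mem_line i _).2 ⟨_, rfl⟩, 1 / 50, by norm_num, fun j => ?_⟩
  have e : pt i ((k : ℕ) + 1 / 2) j =
      (1 + 2 * (sg i j : ℝ) * (2 * ((k : ℕ) : ℝ) + 1 - 2 * (tm i j : ℝ))) / 2 := by
    unfold pt; ring
  have hb := abs_le.1 (pt_bound i k j)
  obtain ⟨h1, h2⟩ := hx j
  simp only [Pi.add_apply, Pi.smul_apply, Pi.sub_apply, smul_eq_mul]
  by_cases hj : 1 / 2 < x j
  · have h3 := (hk j).1 (by simpa using hj)
    have h3' : (3 : ℝ) ≤ 1 + 2 * (sg i j : ℝ) * (2 * ((k : ℕ) : ℝ) + 1 - 2 * (tm i j : ℝ)) := by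
      exact_mod_cast h3
    constructor <;> linarith [hb.1, hb.2]
  · have h3 := (hk j).2 (by simpa using hj)
    have h3' : 1 + 2 * (sg i j : ℝ) * (2 * ((k : ℕ) : ℝ) + 1 - 2 * (tm i j : ℝ)) ≤ (-1 : ℝ) := by
      exact_mod_cast h3
    push Not at hj
    constructor <;> linarith [hb.1, hb.2]

/-- The negation of the preceding statement: For all d and l<d: the least number of l-dimensional affine subspaces missing the unit d-cube that illuminate all its boundary points equals the least size of a binary length-d code in which every word is within Hamming distance l of a codeword. -/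
theorem result :
    ¬ (∀ d l : ℕ, l < d →
      sInf {n : ℕ | ∃ L : Fin n → AffineSubspace ℝ (Fin d → ℝ),
          (∀ i, Module.finrank ℝ (L i).direction = l ∧
              ∀ y ∈ L i, ¬ (∀ j, 0 ≤ y j ∧ y j ≤ 1)) ∧
          ∀ x : Fin d → ℝ, (∀ j, 0 ≤ x j ∧ x j ≤ 1) → ¬ (∀ j, 0 < x j ∧ x j < 1) →
            ∃ i, ∃ y ∈ L i, ∃ t : ℝ, 0 < t ∧
              ∀ j, 0 < (x + t • (x - y)) j ∧ (x + t • (x - y)) j < 1}
        =
      sInf {n : ℕ | ∃ C : Finset (Fin d → Bool), C.card = n ∧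
          ∀ w : Fin d → Bool, ∃ c ∈ C, hammingDist w c ≤ l}) := by
  intro h
  have h5 := h 5 1 (by norm_num)
  have hle : sInf {n : ℕ | ∃ L : Fin n → AffineSubspace ℝ (Fin 5 → ℝ),
          (∀ i, Module.finrank ℝ (L i).direction = 1 ∧
              ∀ y ∈ L i, ¬ (∀ j, 0 ≤ y j ∧ y j ≤ 1)) ∧
          ∀ x : Fin 5 → ℝ, (∀ j, 0 ≤ x j ∧ x j ≤ 1) → ¬ (∀ j, 0 < x j ∧ x j < 1) →
            ∃ i, ∃ y ∈ L i, ∃ t : ℝ, 0 < t ∧
              ∀ j, 0 < (x + t • (x - y)) j ∧ (x + t • (x - y)) j < 1} ≤ 6 := by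
    refine Nat.sInf_le ⟨line, fun i => ⟨finrank_line i, fun y hy => ?_⟩, fun x hx _ => illum x hx⟩
    obtain ⟨t, rfl⟩ := (mem_line i y).1 hy
    exact miss i t
  have hmem : sInf {n : ℕ | ∃ C : Finset (Fin 5 → Bool), C.card = n ∧
          ∀ w : Fin 5 → Bool, ∃ c ∈ C, hammingDist w c ≤ 1} ∈
      {n : ℕ | ∃ C : Finset (Fin 5 → Bool), C.card = n ∧
          ∀ w : Fin 5 → Bool, ∃ c ∈ C, hammingDist w c ≤ 1} := by
    refine Nat.sInf_mem ⟨_, Finset.univ, rfl, fun w => ⟨w, Finset.mem_univ _, ?_⟩⟩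
    simp
  obtain ⟨C, hC, hcov⟩ := hmem
  have := seven_le C hcov
  omega

end Pool.Agent.S05864
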