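import Pool.Statements.S05868
-- import your own Pool.Agent.* helpers here

set_option autoImplicit false
open Pool Pool.MP_4e7ec3_co

namespace Pool.Agent.S05868

/-- The negation of the preceding statement: There is a constant k such that for every finite F in [0,1] containing 0 and 1, every ε>0, and every T:F→F moving each point by more than ε, some p₀ in F reaches a point at distance at least 1/3 in at most k/ε steps, each step going to T(p) or a neighbour of T(p) in F. -/
theorem result :
    ¬ (∃ k : ℝ, ∀ (F : Finset ℝ) (ε : ℝ) (T : ℝ → ℝ),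
      (∀ p ∈ F, 0 ≤ p ∧ p ≤ 1) → (0 : ℝ) ∈ F → (1 : ℝ) ∈ F → 0 < ε →
      (∀ p ∈ F, T p ∈ F ∧ ε < |p - T p|) →
      ∃ p₀ ∈ F, ∃ n : ℕ, (n : ℝ) ≤ k / ε ∧
        ∃ x : ℕ → ℝ, x 0 = p₀ ∧
          (∀ i < n,
            x (i + 1) = T (x i) ∨
            (x (i + 1) ∈ F ∧ x (i + 1) < T (x i) ∧
              ∀ r ∈ F, r < T (x i) → r ≤ x (i + 1)) ∨
            (x (i + 1) ∈ F ∧ T (x i) < x (i + 1) ∧
              ∀ r ∈ F, T (x i) < r → x (i + 1) ≤ r)) ∧
          1 / 3 ≤ |x n - p₀|) := by
  rintro ⟨k, hk⟩
  classical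
  -- two clusters, `{0, 1/10, 2/10}` and `{8/10, 9/10, 1}`, both closed under permissible steps
  let F : Finset ℝ := {0, 1 / 10, 2 / 10, 8 / 10, 9 / 10, 1}
  let T : ℝ → ℝ := fun x =>
    if x = 0 then 1 / 10 else if x = 1 / 10 then 0 else if x = 2 / 10 then 1 / 10
    else if x = 8 / 10 then 9 / 10 else if x = 9 / 10 then 1 else 9 / 10
  have hmem : ∀ p : ℝ, p ∈ F ↔
      (p = 0 ∨ p = 1 / 10 ∨ p = 2 / 10 ∨ p = 8 / 10 ∨ p = 9 / 10 ∨ p = 1) := by
    intro p; simp [F]
  have T0 : T 0 = 1 / 10 := by simp [T]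
  have T1 : T (1 / 10) = 0 := by norm_num [T]
  have T2 : T (2 / 10) = 1 / 10 := by norm_num [T]
  have T8 : T (8 / 10) = 9 / 10 := by norm_num [T]
  have T9 : T (9 / 10) = 1 := by norm_num [T]
  have T10 : T 1 = 9 / 10 := by norm_num [T]
  obtain ⟨p₀, hp₀, n, -, x, hx0, hstep, hdist⟩ := hk F (1 / 20) T
    (by intro p hp; rcases (hmem p).1 hp with h | h | h | h | h | h <;> subst h <;> norm_num)
    ((hmem 0).2 (Or.inl rfl))
    ((hmem 1).2 (by norm_num)) (by norm_num)
    (by
      intro p hp
      rcases (hmem p).1 hp with h | h | h | h | h | h <;> subst h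
      · rw [T0]; exact ⟨(hmem _).2 (by norm_num), by norm_num [abs_of_neg, abs_of_pos]⟩
      · rw [T1]; exact ⟨(hmem _).2 (by norm_num), by norm_num [abs_of_neg, abs_of_pos]⟩
      · rw [T2]; exact ⟨(hmem _).2 (by norm_num), by norm_num [abs_of_neg, abs_of_pos]⟩
      · rw [T8]; exact ⟨(hmem _).2 (by norm_num), by norm_num [abs_of_neg, abs_of_pos]⟩
      · rw [T9]; exact ⟨(hmem _).2 (by norm_num), by norm_num [abs_of_neg, abs_of_pos]⟩
      · rw [T10]; exact ⟨(hmem _).2 (by norm_num), by norm_num [abs_of_neg, abs_of_pos]⟩)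
  -- elements of `F`
  have m0 : (0 : ℝ) ∈ F := (hmem _).2 (by norm_num)
  have m1 : (1 / 10 : ℝ) ∈ F := (hmem _).2 (by norm_num)
  have m2 : (2 / 10 : ℝ) ∈ F := (hmem _).2 (by norm_num)
  have m8 : (8 / 10 : ℝ) ∈ F := (hmem _).2 (by norm_num)
  have m9 : (9 / 10 : ℝ) ∈ F := (hmem _).2 (by norm_num)
  have m10 : (1 : ℝ) ∈ F := (hmem _).2 (by norm_num)
  -- the low cluster is closed
  have low : ∀ i < n, (x i = 0 ∨ x i = 1 / 10 ∨ x i = 2 / 10) →
      (x (i + 1) = 0 ∨ x (i + 1) = 1 / 10 ∨ x (i + 1) = 2 / 10) := by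
    intro i hi h
    have hT : T (x i) = 0 ∨ T (x i) = 1 / 10 := by
      rcases h with h | h | h <;> rw [h]
      · right; exact T0
      · left; exact T1
      · right; exact T2
    rcases hstep i hi with h1 | ⟨h1, h2, -⟩ | ⟨h1, h2, h3⟩
    · rcases hT with hT | hT
      · left; rw [h1, hT]
      · right; left; rw [h1, hT]
    · have h4 : x (i + 1) < 1 / 10 := by
        rcases hT with hT | hT <;> rw [hT] at h2 <;> linarith
      rcases (hmem _).1 h1 with h | h | h | h | h | h
      · left; exact h
      all_goals (rw [h] at h4; norm_num at h4)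
    · have h4 : x (i + 1) ≤ 2 / 10 := by
        rcases hT with hT | hT
        · exact h3 _ m2 (by rw [hT]; norm_num)
        · exact h3 _ m2 (by rw [hT]; norm_num)
      rcases (hmem _).1 h1 with h | h | h | h | h | h
      · left; exact h
      · right; left; exact h
      · right; right; exact h
      all_goals (rw [h] at h4; norm_num at h4)
  -- the high cluster is closed
  have high : ∀ i < n, (x i = 8 / 10 ∨ x i = 9 / 10 ∨ x i = 1) →
      (x (i + 1) = 8 / 10 ∨ x (i + 1) = 9 / 10 ∨ x (i + 1) = 1) := by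
    intro i hi h
    have hT : T (x i) = 9 / 10 ∨ T (x i) = 1 := by
      rcases h with h | h | h <;> rw [h]
      · left; exact T8
      · right; exact T9
      · left; exact T10
    rcases hstep i hi with h1 | ⟨h1, h2, h3⟩ | ⟨h1, h2, -⟩
    · rcases hT with hT | hT
      · right; left; rw [h1, hT]
      · right; right; rw [h1, hT]
    · have h4 : 8 / 10 ≤ x (i + 1) := by
        rcases hT with hT | hT
        · exact h3 _ m8 (by rw [hT]; norm_num)
        · exact h3 _ m8 (by rw [hT]; norm_num)
      rcases (hmem _).1 h1 with h | h | h | h | h | h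
      · rw [h] at h4; norm_num at h4
      · rw [h] at h4; norm_num at h4
      · rw [h] at h4; norm_num at h4
      · left; exact h
      · right; left; exact h
      · right; right; exact h
    · have h4 : 9 / 10 < x (i + 1) := by
        rcases hT with hT | hT <;> rw [hT] at h2 <;> linarith
      rcases (hmem _).1 h1 with h | h | h | h | h | h
      · rw [h] at h4; norm_num at h4
      · rw [h] at h4; norm_num at h4
      · rw [h] at h4; norm_num at h4
      · rw [h] at h4; norm_num at h4
      · rw [h] at h4; norm_num at h4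
      · right; right; exact h
  have hp₀' := (hmem p₀).1 hp₀
  by_cases hlow : p₀ = 0 ∨ p₀ = 1 / 10 ∨ p₀ = 2 / 10
  · have hall : ∀ i ≤ n, (x i = 0 ∨ x i = 1 / 10 ∨ x i = 2 / 10) := by
      intro i
      induction i with
      | zero => intro _; rw [hx0]; exact hlow
      | succ i ih => intro hi; exact low i (by omega) (ih (by omega))
    have hn := hall n le_rfl
    rcases hn with h | h | h <;> rcases hlow with h' | h' | h' <;> rw [h, h'] at hdist <;>
      norm_num [abs_of_neg, abs_of_pos] at hdist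
  · have hhigh : p₀ = 8 / 10 ∨ p₀ = 9 / 10 ∨ p₀ = 1 := by
      rcases hp₀' with h | h | h | h | h | h
      · exact absurd (Or.inl h) hlow
      · exact absurd (Or.inr (Or.inl h)) hlow
      · exact absurd (Or.inr (Or.inr h)) hlow
      · exact Or.inl h
      · exact Or.inr (Or.inl h)
      · exact Or.inr (Or.inr h)
    have hall : ∀ i ≤ n, (x i = 8 / 10 ∨ x i = 9 / 10 ∨ x i = 1) := by
      intro i
      induction i with
      | zero => intro _; rw [hx0]; exact hhigh
      | succ i ih => intro hi; exact high i (by omega) (ih (by omega))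
    have hn := hall n le_rfl
    rcases hn with h | h | h <;> rcases hhigh with h' | h' | h' <;> rw [h, h'] at hdist <;>
      norm_num [abs_of_neg, abs_of_pos] at hdist

end Pool.Agent.S05868
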