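import Pool.Statements.S05880
-- import your own Pool.Agent.* helpers here

set_option autoImplicit false
open Pool Pool.MP_4fae64_co

namespace Pool.Agent.S05880

/-- First ends of the 18 edges. -/
def src0 : Fin 18 → Fin 6 := ![0, 1, 3, 1, 3, 0, 3, 0, 3, 0, 3, 4, 0, 3, 0, 0, 1, 2]
/-- Second ends of the 18 edges. -/
def tgt0 : Fin 18 → Fin 6 := ![1, 2, 4, 2, 4, 2, 4, 2, 4, 1, 4, 2, 1, 2, 1, 3, 4, 5]
/-- The 8-colouring of all edges but edge 0. -/
def col0 : Fin 18 → Fin 8 := ![0, 0, 0, 1, 1, 2, 2, 3, 3, 4, 4, 5, 5, 6, 6, 7, 7, 7]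

lemma no_triple : ∀ f g h : Fin 17, f ≠ g → f ≠ h → g ≠ h →
    (src0 f.castSucc = src0 g.castSucc ∨ src0 f.castSucc = tgt0 g.castSucc ∨
      tgt0 f.castSucc = src0 g.castSucc ∨ tgt0 f.castSucc = tgt0 g.castSucc) ∨
    (src0 f.castSucc = src0 h.castSucc ∨ src0 f.castSucc = tgt0 h.castSucc ∨
      tgt0 f.castSucc = src0 h.castSucc ∨ tgt0 f.castSucc = tgt0 h.castSucc) ∨
    (src0 g.castSucc = src0 h.castSucc ∨ src0 g.castSucc = tgt0 h.castSucc ∨
      tgt0 g.castSucc = src0 h.castSucc ∨ tgt0 g.castSucc = tgt0 h.castSucc) := by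
  decide +kernel

lemma share {f g : Fin 18} (h : src0 f = src0 g ∨ src0 f = tgt0 g ∨ tgt0 f = src0 g ∨
    tgt0 f = tgt0 g) : ∃ v : Fin 6, (src0 f = v ∨ tgt0 f = v) ∧ (src0 g = v ∨ tgt0 g = v) := by
  rcases h with h | h | h | h
  · exact ⟨src0 f, Or.inl rfl, Or.inl h.symm⟩
  · exact ⟨src0 f, Or.inl rfl, Or.inr h.symm⟩
  · exact ⟨tgt0 f, Or.inr rfl, Or.inl h.symm⟩
  · exact ⟨tgt0 f, Or.inr rfl, Or.inr h.symm⟩

lemma not_colorable : ¬ ∃ ψ : Fin 18 → Fin 8, ∀ f g : Fin 18, f ≠ g →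
    (∃ v : Fin 6, (src0 f = v ∨ tgt0 f = v) ∧ (src0 g = v ∨ tgt0 g = v)) → ψ f ≠ ψ g := by
  rintro ⟨ψ, hψ⟩
  obtain ⟨c, -, hc⟩ := Finset.exists_lt_card_fiber_of_mul_lt_card_of_maps_to
    (s := (Finset.univ : Finset (Fin 17))) (t := (Finset.univ : Finset (Fin 8)))
    (f := fun i => ψ i.castSucc) (n := 2) (fun _ _ => Finset.mem_univ _) (by simp)
  obtain ⟨f, g, h, hf, hg, hh, hfg, hfh, hgh⟩ := Finset.two_lt_card_iff.mp hc
  simp only [Finset.mem_filter, Finset.mem_univ, true_and] at hf hg hh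
  have inj : ∀ {i j : Fin 17}, i ≠ j → i.castSucc ≠ j.castSucc := fun hij h =>
    hij (Fin.castSucc_injective _ h)
  rcases no_triple f g h hfg hfh hgh with h1 | h1 | h1
  · exact hψ _ _ (inj hfg) (share h1) (hf.trans hg.symm)
  · exact hψ _ _ (inj hfh) (share h1) (hf.trans hh.symm)
  · exact hψ _ _ (inj hgh) (share h1) (hg.trans hh.symm)

lemma deg_le : ∀ v : Fin 6,
    (Finset.univ.filter (fun f : Fin 18 => src0 f = v ∨ tgt0 f = v)).card + 1 ≤ 8 := by
  decide +kernel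

lemma proper0 : ∀ f g : Fin 18, f ≠ 0 → g ≠ 0 → f ≠ g →
    (∃ v : Fin 6, (src0 f = v ∨ tgt0 f = v) ∧ (src0 g = v ∨ tgt0 g = v)) → col0 f ≠ col0 g := by
  decide +kernel

/-- The negation of the preceding statement: In a loopless multigraph with chromatic index k+1, k ≥ Δ+1, e critical and φ a k-colouring of G−e, every vertex set built from e by the extended Tashkinov rules E2 and E3 is elementary: no two of its vertices miss the same colour. -/
theorem result :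
    ¬ (∀ (V E : Type) [Fintype V] [Fintype E] [DecidableEq V] [DecidableEq E]
    (src tgt : E → V) (k : ℕ) (e : E) (φ : E → Fin k),
    (∀ f : E, src f ≠ tgt f) →
    (∀ v : V, Set.ncard {f : E | src f = v ∨ tgt f = v} + 1 ≤ k) →
    (¬ ∃ ψ : E → Fin k, ∀ f g : E, f ≠ g →
        (∃ v : V, (src f = v ∨ tgt f = v) ∧ (src g = v ∨ tgt g = v)) → ψ f ≠ ψ g) →
    (∀ f g : E, f ≠ e → g ≠ e → f ≠ g →
        (∃ v : V, (src f = v ∨ tgt f = v) ∧ (src g = v ∨ tgt g = v)) → φ f ≠ φ g) →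
    ∀ (A : Finset V) (F : Finset E),
      (∀ S : Set (Finset V × Finset E),
        Prod.mk ({src e, tgt e} : Finset V) ({e} : Finset E) ∈ S →
        (∀ B : Finset V, ∀ H : Finset E, Prod.mk B H ∈ S →
          ∀ f : E, f ≠ e → ∀ a b : V, a ∈ B → b ∉ B →
          ((src f = a ∧ tgt f = b) ∨ (src f = b ∧ tgt f = a)) →
          (∃ z ∈ B, ∀ g : E, g ≠ e → (src g = z ∨ tgt g = z) → φ g ≠ φ f) →
          Prod.mk (insert b B) (insert f H) ∈ S) →
        (∀ B : Finset V, ∀ H : Finset E, Prod.mk B H ∈ S →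
          (∀ g : E, g ≠ e → ∀ a b : V, a ∈ B → b ∉ B →
            ((src g = a ∧ tgt g = b) ∨ (src g = b ∧ tgt g = a)) →
            ∀ z ∈ B, ∃ g' : E, g' ≠ e ∧ (src g' = z ∨ tgt g' = z) ∧ φ g' = φ g) →
          ∀ α : Fin k,
          (∃ g₁ g₂ : E, g₁ ≠ g₂ ∧ g₁ ≠ e ∧ g₂ ≠ e ∧ φ g₁ = α ∧ φ g₂ = α ∧
            (∃ a b : V, a ∈ B ∧ b ∉ B ∧
              ((src g₁ = a ∧ tgt g₁ = b) ∨ (src g₁ = b ∧ tgt g₁ = a))) ∧
            (∃ a b : V, a ∈ B ∧ b ∉ B ∧
              ((src g₂ = a ∧ tgt g₂ = b) ∨ (src g₂ = b ∧ tgt g₂ = a)))) →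
          ∀ f : E, f ≠ e → φ f = α → ∀ a b : V, a ∈ B → b ∉ B →
          ((src f = a ∧ tgt f = b) ∨ (src f = b ∧ tgt f = a)) →
          ∀ u ∈ B, ∀ γ : Fin k,
          (∀ g : E, g ≠ e → (src g = u ∨ tgt g = u) → φ g ≠ γ) →
          (∀ g ∈ H, g ≠ e → φ g ≠ γ) →
          (∃ m : ℕ, ∃ w : ℕ → V, ∃ p : ℕ → E, 0 < m ∧ w 0 = u ∧ p (m - 1) = f ∧
            (∀ i : ℕ, i < m → p i ≠ e ∧ (φ (p i) = α ∨ φ (p i) = γ) ∧
              ((src (p i) = w i ∧ tgt (p i) = w (i + 1)) ∨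
               (src (p i) = w (i + 1) ∧ tgt (p i) = w i))) ∧
            (∀ i j : ℕ, i < m → j < m → i ≠ j → p i ≠ p j) ∧
            (∀ i : ℕ, i + 1 < m → ¬ ∃ a' b' : V, a' ∈ B ∧ b' ∉ B ∧
              ((src (p i) = a' ∧ tgt (p i) = b') ∨ (src (p i) = b' ∧ tgt (p i) = a')))) →
          Prod.mk (insert b B) (insert f H) ∈ S) →
        Prod.mk A F ∈ S) →
      ∀ u ∈ A, ∀ v ∈ A, u ≠ v → ∀ c : Fin k,
        (∀ f : E, f ≠ e → (src f = u ∨ tgt f = u) → φ f ≠ c) →
        ∃ f : E, f ≠ e ∧ (src f = v ∨ tgt f = v) ∧ φ f = c) := by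
  intro H
  have key := H (Fin 6) (Fin 18) src0 tgt0 8 0 col0 (by decide +kernel)
    (by
      intro v
      have h := deg_le v
      have h2 : {f : Fin 18 | src0 f = v ∨ tgt0 f = v} =
          ((Finset.univ.filter (fun f : Fin 18 => src0 f = v ∨ tgt0 f = v)) : Set (Fin 18)) := by
        ext f
        simp
      rw [h2, Set.ncard_coe_finset]
      exact h)
    not_colorable proper0
    (insert 5 (insert 2 ({src0 0, tgt0 0} : Finset (Fin 6))))
    (insert 17 (insert 1 ({0} : Finset (Fin 18))))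
    (by
      intro S h0 h1 h2
      have s1 := h1 _ _ h0 1 (by decide) 1 2 (by decide +kernel) (by decide +kernel)
        (by decide +kernel) ⟨0, by decide +kernel, by decide +kernel⟩
      refine h2 _ _ s1 (by decide +kernel) 7
        ⟨15, 16, by decide, by decide, by decide, by decide +kernel, by decide +kernel,
          ⟨0, 3, by decide +kernel, by decide +kernel, by decide +kernel⟩,
          ⟨1, 4, by decide +kernel, by decide +kernel, by decide +kernel⟩⟩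
        17 (by decide) (by decide +kernel) 2 5 (by decide +kernel) (by decide +kernel)
        (by decide +kernel) 2 (by decide +kernel) 4 (by decide +kernel) (by decide +kernel)
        ⟨1, fun i => if i = 0 then 2 else 5, fun _ => 17, by norm_num, rfl, rfl, ?_, ?_, ?_⟩
      · intro i hi
        have : i = 0 := by omega
        subst this
        refine ⟨by decide, Or.inl (by decide +kernel), Or.inl ⟨by decide +kernel, by decide +kernel⟩⟩
      · intro i j hi hj hij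
        omega
      · intro i hi
        omega)
  obtain ⟨f, hf0, hf1, hf2⟩ := key 0 (by decide +kernel) 5 (by decide +kernel) (by decide) 0
    (by decide +kernel)
  revert hf0 hf1 hf2
  revert f
  decide +kernel

end Pool.Agent.S05880
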