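import Pool.Statements.S05981
import Pool.Agent.H175F.Final

set_option autoImplicit false
open Pool Pool.MP_57fa5f_co

namespace Pool.Agent.S05981

/-- There is a k such that every finite nonempty graph with no induced gem (complement of P1+P4) and no induced P2+P3 has clique-width at most k, i.e. is built by a k-label expression. -/
theorem result :
  ∃ k : ℕ, ∀ (V : Type) [Finite V] [Nonempty V] (G : SimpleGraph V),
    IsEmpty ((SimpleGraph.fromRel (fun a b : Fin 5 => a.val + 1 = b.val ∧ b.val ≤ 3))ᶜ ↪g G) →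
    IsEmpty (SimpleGraph.fromRel (fun a b : Fin 5 =>
        (a.val = 0 ∧ b.val = 1) ∨ (a.val = 2 ∧ b.val = 3) ∨ (a.val = 3 ∧ b.val = 4)) ↪g G) →
    ∃ l : V → Fin k, ∀ P : Set V → (V → Fin k) → SimpleGraph V → Prop,
      (∀ (v : V) (l0 : V → Fin k), P ({v} : Set V) l0 ⊥) →
      (∀ (S1 S2 : Set V) (l1 l2 l0 : V → Fin k) (H1 H2 : SimpleGraph V),
          P S1 l1 H1 → P S2 l2 H2 → Disjoint S1 S2 →
          (∀ u ∈ S1, l0 u = l1 u) → (∀ u ∈ S2, l0 u = l2 u) →
          P (S1 ∪ S2) l0 (H1 ⊔ H2)) →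
      (∀ (S : Set V) (l0 : V → Fin k) (H H' : SimpleGraph V) (i j : Fin k),
          P S l0 H → i ≠ j →
          (∀ u v : V, H'.Adj u v ↔ (H.Adj u v ∨
              (u ∈ S ∧ v ∈ S ∧ ((l0 u = i ∧ l0 v = j) ∨ (l0 u = j ∧ l0 v = i))))) →
          P S l0 H') →
      (∀ (S : Set V) (l0 l' : V → Fin k) (H : SimpleGraph V) (i j : Fin k),
          P S l0 H →
          (∀ u ∈ S, (l0 u = i → l' u = j) ∧ (l0 u ≠ i → l' u = l0 u)) →
          P S l' H) →
      P Set.univ l G :=
  Pool.Agent.H175G.frozen_of Pool.Agent.H175G.main_stmt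

end Pool.Agent.S05981
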