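import Pool.Statements.S06051
import Pool.Agent.H439R2.MC.Simple

set_option autoImplicit false
open Classical
open Pool Pool.MP_5bcad1_co

namespace Pool.Agent.S06051

open Pool.Agent.H439R2.MC in
/-- every weight in the second set is at least `ff m` -/
theorem lower (m : ℕ) (n : ℕ) (w : Fin n → Fin n → ℕ) (hs : ∀ i j, w i j = w j i)
    (hz : ∀ i, w i i = 0) (ht : (∑ i, ∑ j, w i j) = 2 * m) :
    ff m ≤ Finset.univ.sup (fun S : Finset (Fin n) => ∑ p ∈ S ×ˢ Sᶜ, w p.1 p.2) := by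
  let W : Fin n → Fin n → ℤ := fun i j => (w i j : ℤ)
  have hW : Wt W := ⟨fun i j => by simp [W, hs i j], fun i => by simp [W, hz i]⟩
  have hWt : tot W = 2 * (m : ℤ) := by
    have : ((∑ i, ∑ j, w i j : ℕ) : ℤ) = ((2 * m : ℕ) : ℤ) := by rw [ht]
    push_cast at this
    exact this
  obtain ⟨x, hx, hE⟩ := main_ff m (Fin n) W hW (by rw [hWt])
  obtain ⟨S, rfl⟩ := sgs_of x hx
  have h1 := cutS W hW S
  have h2 : (ff m : ℤ) ≤ ∑ p ∈ S ×ˢ Sᶜ, W p.1 p.2 := by linarith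
  have h3 : ff m ≤ ∑ p ∈ S ×ˢ Sᶜ, w p.1 p.2 := by
    have : (∑ p ∈ S ×ˢ Sᶜ, W p.1 p.2) = ((∑ p ∈ S ×ˢ Sᶜ, w p.1 p.2 : ℕ) : ℤ) := by
      push_cast; rfl
    rw [this] at h2
    exact_mod_cast h2
  refine h3.trans ?_
  exact Finset.le_sup (f := fun S : Finset (Fin n) => ∑ p ∈ S ×ˢ Sᶜ, w p.1 p.2)
    (Finset.mem_univ S)

open Pool.Agent.H439R2.MC in
/-- adjacency weights -/
theorem adj_tot {n : ℕ} (G : SimpleGraph (Fin n)) :
    (∑ i, ∑ j, (if G.Adj i j then 1 else 0 : ℕ)) = 2 * G.edgeFinset.card := by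
  rw [← SimpleGraph.sum_degrees_eq_twice_card_edges]
  refine Finset.sum_congr rfl fun i _ => ?_
  rw [← SimpleGraph.card_neighborFinset_eq_degree, SimpleGraph.neighborFinset_eq_filter]
  simp

open Pool.Agent.H439R2.MC in
theorem adj_cut {n : ℕ} (G : SimpleGraph (Fin n)) (S : Finset (Fin n)) :
    ((S ×ˢ Sᶜ).filter (fun p => G.Adj p.1 p.2)).card
      = ∑ p ∈ S ×ˢ Sᶜ, (if G.Adj p.1 p.2 then 1 else 0 : ℕ) := by
  rw [Finset.card_filter]

open Pool.Agent.H439R2.MC in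
/-- a graph realising `ff m` -/
theorem upper (m : ℕ) : ∃ n : ℕ, ∃ G : SimpleGraph (Fin n), G.edgeFinset.card = m ∧
    Finset.univ.sup (fun S : Finset (Fin n) =>
          ((S ×ˢ Sᶜ).filter (fun p => G.Adj p.1 p.2)).card) ≤ ff m := by
  obtain ⟨V, _, _, w, hw, h01, ht, hc⟩ := ff_spec m
  let e := (Fintype.equivFin V).symm
  obtain ⟨G, hG⟩ : ∃ G : SimpleGraph (Fin (Fintype.card V)),
      ∀ i j, G.Adj i j ↔ w (e i) (e j) = 1 :=
    ⟨{ Adj := fun i j => w (e i) (e j) = 1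
       symm := ⟨fun i j h => by rw [hw.1]; exact h⟩
       loopless := ⟨fun i h => by rw [hw.2] at h; norm_num at h⟩ }, fun _ _ => Iff.rfl⟩
  have hGw : ∀ i j, ((if G.Adj i j then 1 else 0 : ℕ) : ℤ) = w (e i) (e j) := by
    intro i j
    rcases h01 (e i) (e j) with h | h
    · have : ¬ G.Adj i j := by rw [hG, h]; norm_num
      simp [this, h]
    · have : G.Adj i j := (hG i j).2 h
      simp [this, h]
  refine ⟨Fintype.card V, G, ?_, ?_⟩
  · have h1 := adj_tot G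
    have h2 : ((∑ i, ∑ j, (if G.Adj i j then 1 else 0 : ℕ) : ℕ) : ℤ) = 2 * m := by
      rw [← ht, ← tot_equiv e w]
      unfold tot
      rw [Nat.cast_sum]
      refine Finset.sum_congr rfl fun i _ => ?_
      rw [Nat.cast_sum]
      exact Finset.sum_congr rfl fun j _ => hGw i j
    rw [h1] at h2
    have h3 : 2 * G.edgeFinset.card = 2 * m := by exact_mod_cast h2
    omega
  · apply Finset.sup_le
    intro S _
    rw [adj_cut]
    have h1 := hc (fun v => sgs S (e.symm v)) (fun v => sgs_sg S _)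
    rw [← tot_equiv e w, ← En_equiv e w] at h1
    simp only [Equiv.symm_apply_apply] at h1
    have h2 := cutS (fun a b => w (e a) (e b)) (Wt_equiv e w hw) S
    have h3 : ((∑ p ∈ S ×ˢ Sᶜ, (if G.Adj p.1 p.2 then 1 else 0 : ℕ) : ℕ) : ℤ)
        = ∑ p ∈ S ×ˢ Sᶜ, w (e p.1) (e p.2) := by
      rw [Nat.cast_sum]
      exact Finset.sum_congr rfl fun p _ => hGw p.1 p.2
    have h4 : ((∑ p ∈ S ×ˢ Sᶜ, (if G.Adj p.1 p.2 then 1 else 0 : ℕ) : ℕ) : ℤ) ≤ ff m := by
      rw [h3]; linarith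
    exact_mod_cast h4

/-- For every m, the least possible max-cut size among simple graphs with m edges equals the least possible max-cut size among loopless multigraphs with m edges, with edges counted with multiplicity. -/
theorem result : ∀ m : ℕ,
    sInf {c : ℕ | ∃ n : ℕ, ∃ G : SimpleGraph (Fin n), G.edgeFinset.card = m ∧
        c = Finset.univ.sup (fun S : Finset (Fin n) =>
          ((S ×ˢ Sᶜ).filter (fun p => G.Adj p.1 p.2)).card)}
    = sInf {c : ℕ | ∃ n : ℕ, ∃ w : Fin n → Fin n → ℕ,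
        (∀ i j, w i j = w j i) ∧ (∀ i, w i i = 0) ∧
        (∑ i, ∑ j, w i j) = 2 * m ∧
        c = Finset.univ.sup (fun S : Finset (Fin n) =>
          ∑ p ∈ S ×ˢ Sᶜ, w p.1 p.2)} := by
  intro m
  obtain ⟨n, G, hG, hsup⟩ := upper m
  apply le_antisymm
  · have hne : {c : ℕ | ∃ n : ℕ, ∃ w : Fin n → Fin n → ℕ,
        (∀ i j, w i j = w j i) ∧ (∀ i, w i i = 0) ∧
        (∑ i, ∑ j, w i j) = 2 * m ∧
        c = Finset.univ.sup (fun S : Finset (Fin n) =>
          ∑ p ∈ S ×ˢ Sᶜ, w p.1 p.2)}.Nonempty := by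
      refine ⟨_, n, fun i j => if G.Adj i j then 1 else 0, ?_, ?_, ?_, rfl⟩
      · intro i j; simp [SimpleGraph.adj_comm]
      · intro i; simp
      · rw [adj_tot, hG]
    obtain ⟨n', w, h1, h2, h3, h4⟩ := Nat.sInf_mem hne
    rw [h4]
    refine le_trans (Nat.sInf_le ⟨n, G, hG, rfl⟩) (hsup.trans ?_)
    exact lower m n' w h1 h2 h3
  · have hne : {c : ℕ | ∃ n : ℕ, ∃ G : SimpleGraph (Fin n), G.edgeFinset.card = m ∧
        c = Finset.univ.sup (fun S : Finset (Fin n) =>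
          ((S ×ˢ Sᶜ).filter (fun p => G.Adj p.1 p.2)).card)}.Nonempty := ⟨_, n, G, hG, rfl⟩
    obtain ⟨n', G', hG', h4⟩ := Nat.sInf_mem hne
    rw [h4]
    apply Nat.sInf_le
    refine ⟨n', fun i j => if G'.Adj i j then 1 else 0, ?_, ?_, ?_, ?_⟩
    · intro i j; simp [SimpleGraph.adj_comm]
    · intro i; simp
    · rw [adj_tot, hG']
    · congr 1
      funext S
      exact adj_cut G' S

end Pool.Agent.S06051
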