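import Pool.Statements.S06056
import Pool.Agent.H169.Final

set_option autoImplicit false
open Pool Pool.MP_5beb4b_co

namespace Pool.Agent.S06056

/-- The negation of the preceding statement: For every group C_{n_1}⊕…⊕C_{n_r} with 1<n_1∣…∣n_r and order ≥3, the largest gap between consecutive factorization lengths of zero-sum sequences is exactly max(n_r−2, Σ⌊n_i/2⌋−1). -/
theorem result :
    ¬ (∀ (r : ℕ) (n : Fin r → ℕ),
      (∀ i, 1 < n i) → (∀ i j, i ≤ j → n i ∣ n j) → 3 ≤ ∏ i, n i →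
      ((∃ A : Multiset ((i : Fin r) → ZMod (n i)), A.sum = 0 ∧
          ∃ k : ℕ,
            (∃ F : Multiset (Multiset ((i : Fin r) → ZMod (n i))),
                Multiset.card F = k ∧
                (∀ U ∈ F, U ≠ 0 ∧ U.sum = 0 ∧ ∀ V ≤ U, V.sum = 0 → V = 0 ∨ V = U) ∧
                F.sum = A) ∧
            (∃ F : Multiset (Multiset ((i : Fin r) → ZMod (n i))),
                Multiset.card F = k + max (Finset.univ.sup n - 2) ((∑ i, n i / 2) - 1) ∧
                (∀ U ∈ F, U ≠ 0 ∧ U.sum = 0 ∧ ∀ V ≤ U, V.sum = 0 → V = 0 ∨ V = U) ∧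
                F.sum = A) ∧
            (∀ m : ℕ, k < m → m < k + max (Finset.univ.sup n - 2) ((∑ i, n i / 2) - 1) →
              ¬ ∃ F : Multiset (Multiset ((i : Fin r) → ZMod (n i))),
                Multiset.card F = m ∧
                (∀ U ∈ F, U ≠ 0 ∧ U.sum = 0 ∧ ∀ V ≤ U, V.sum = 0 → V = 0 ∨ V = U) ∧
                F.sum = A)) ∧
       (∀ A : Multiset ((i : Fin r) → ZMod (n i)), A.sum = 0 →
          ∀ k l : ℕ, k < l →
            (∃ F : Multiset (Multiset ((i : Fin r) → ZMod (n i))),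
                Multiset.card F = k ∧
                (∀ U ∈ F, U ≠ 0 ∧ U.sum = 0 ∧ ∀ V ≤ U, V.sum = 0 → V = 0 ∨ V = U) ∧
                F.sum = A) →
            (∃ F : Multiset (Multiset ((i : Fin r) → ZMod (n i))),
                Multiset.card F = l ∧
                (∀ U ∈ F, U ≠ 0 ∧ U.sum = 0 ∧ ∀ V ≤ U, V.sum = 0 → V = 0 ∨ V = U) ∧
                F.sum = A) →
            (∀ m : ℕ, k < m → m < l →
              ¬ ∃ F : Multiset (Multiset ((i : Fin r) → ZMod (n i))),
                Multiset.card F = m ∧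
                (∀ U ∈ F, U ≠ 0 ∧ U.sum = 0 ∧ ∀ V ≤ U, V.sum = 0 → V = 0 ∨ V = U) ∧
                F.sum = A) →
            l - k ≤ max (Finset.univ.sup n - 2) ((∑ i, n i / 2) - 1)))) := by
  intro hmain
  obtain ⟨r, κ, hκ, hd, g, hr, hcard, h0, hrig⟩ := Pool.Agent.H169.Final.exists_seq
  have hne : Nonempty κ := Fintype.card_pos_iff.1 (by omega)
  obtain ⟨hs, h2, hk, hall⟩ := Pool.Agent.H169.Gap.gap hrig h0
    (fun i => Pool.Agent.H169.Final.Rigid.ne_zero hrig (by omega) i)
  have h := (hmain r (Pool.Agent.H169.Sys.n r) (Pool.Agent.H169.Final.n_gt r)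
    (Pool.Agent.H169.Final.n_dvd r) (Pool.Agent.H169.Final.n_prod r (by omega))).2
    (Pool.Agent.H169.Gap.seq g) hs 2 (Fintype.card κ) (by omega) h2 hk (by
      rintro m hm1 hm2 ⟨F, hF1, hF2, hF3⟩
      rcases hall F hF2 hF3 with h | h <;> omega)
  rw [Pool.Agent.H169.Final.n_sum r (by omega)] at h
  have hsup := Pool.Agent.H169.Final.n_sup r
  omega

end Pool.Agent.S06056
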