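import Pool.Statements.S06140
-- import your own Pool.Agent.* helpers here

set_option autoImplicit false
open Pool Pool.MP_5fe06c_co

namespace Pool.Agent.S06140

open Polynomial

/-! Counterexample with m = 9, t = 4: the codeword of the polynomial x^7, i.e. j ↦ λ(α^(7j)) for the
linear functional λ on GF(512) taking the values 1,0,0,0,0,1,0,0,0 at 1,α,...,α^8 (the trace), where
α^9 + α^4 + 1 = 0.  It has weight 196 < 208 = 2^8 - 3 * 2^4. -/

lemma powers {R : Type*} [CommRing R] (a : R) (h9 : a ^ 9 = a ^ 4 + 1) (h2 : (2 : R) = 0) :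
    a ^ 73 = a ^ 4 + a ^ 6 + a ^ 8 ∧ a ^ 511 = 1 := by
  have e1 : a ^ 1 = a ^ 1 := rfl
  have e8 : a ^ 8 = a ^ 8 := rfl
  have e9 : a ^ 9 = a^0 + a^4 := by
    have : a ^ 9 = (a^8) * (a^1) := by
      have hh : a ^ 9 = a ^ 8 * a ^ 1 := by ring
      rw [hh, e8, e1]
    rw [this]; linear_combination ((1)*a^0) * h9 + (0) * h2
  have e18 : a ^ 18 = a^0 + a^8 := by
    have : a ^ 18 = (a^0 + a^4) * (a^0 + a^4) := by
      have hh : a ^ 18 = a ^ 9 * a ^ 9 := by ring
      rw [hh, e9]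
    rw [this]; linear_combination (0) * h9 + ((1)*a^4) * h2
  have e36 : a ^ 36 = a^0 + a^2 + a^6 + a^7 := by
    have : a ^ 36 = (a^0 + a^8) * (a^0 + a^8) := by
      have hh : a ^ 36 = a ^ 18 * a ^ 18 := by ring
      rw [hh, e18]
    rw [this]; linear_combination ((1)*a^2 + (1)*a^7) * h9 + ((1)*a^8) * h2
  have e72 : a ^ 72 = a^3 + a^5 + a^7 := by
    have : a ^ 72 = (a^0 + a^2 + a^6 + a^7) * (a^0 + a^2 + a^6 + a^7) := by
      have hh : a ^ 72 = a ^ 36 * a ^ 36 := by ring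
      rw [hh, e36]
    rw [this]; linear_combination ((3)*a^0 + (1)*a^3 + (2)*a^4 + (1)*a^5) * h9 + ((2)*a^0 + (1)*a^2 + (3)*a^4 + (1)*a^6 + (1)*a^7 + (2)*a^8) * h2
  have e73 : a ^ 73 = a^4 + a^6 + a^8 := by
    have : a ^ 73 = (a^3 + a^5 + a^7) * (a^1) := by
      have hh : a ^ 73 = a ^ 72 * a ^ 1 := by ring
      rw [hh, e72, e1]
    rw [this]; linear_combination (0) * h9 + (0) * h2
  have e146 : a ^ 146 = a^2 + a^3 + a^6 + a^8 := by
    have : a ^ 146 = (a^4 + a^6 + a^8) * (a^4 + a^6 + a^8) := by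
      have hh : a ^ 146 = a ^ 73 * a ^ 73 := by ring
      rw [hh, e73]
    rw [this]; linear_combination ((2)*a^0 + (2)*a^1 + (1)*a^2 + (3)*a^3 + (2)*a^5 + (1)*a^7) * h9 + ((1)*a^0 + (1)*a^1 + (1)*a^3 + (1)*a^4 + (2)*a^5 + (2)*a^7) * h2
  have e219 : a ^ 219 = a^0 + a^4 + a^6 + a^8 := by
    have : a ^ 219 = (a^2 + a^3 + a^6 + a^8) * (a^4 + a^6 + a^8) := by
      have hh : a ^ 219 = a ^ 146 * a ^ 73 := by ring
      rw [hh, e146, e73]
    rw [this]; linear_combination ((3)*a^0 + (2)*a^1 + (2)*a^2 + (2)*a^3 + (2)*a^5 + (1)*a^7) * h9 + ((1)*a^0 + (1)*a^1 + (1)*a^2 + (1)*a^3 + (1)*a^4 + (2)*a^5 + (1)*a^6 + (2)*a^7) * h2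
  have e438 : a ^ 438 = a^0 + a^2 + a^3 + a^6 + a^8 := by
    have : a ^ 438 = (a^0 + a^4 + a^6 + a^8) * (a^0 + a^4 + a^6 + a^8) := by
      have hh : a ^ 438 = a ^ 219 * a ^ 219 := by ring
      rw [hh, e219]
    rw [this]; linear_combination ((2)*a^0 + (2)*a^1 + (1)*a^2 + (3)*a^3 + (2)*a^5 + (1)*a^7) * h9 + ((1)*a^0 + (1)*a^1 + (1)*a^3 + (2)*a^4 + (2)*a^5 + (1)*a^6 + (2)*a^7 + (1)*a^8) * h2
  have e511 : a ^ 511 = a^0 := by
    have : a ^ 511 = (a^0 + a^2 + a^3 + a^6 + a^8) * (a^4 + a^6 + a^8) := by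
      have hh : a ^ 511 = a ^ 438 * a ^ 73 := by ring
      rw [hh, e438, e73]
    rw [this]; linear_combination ((3)*a^0 + (2)*a^1 + (2)*a^2 + (2)*a^3 + (2)*a^5 + (1)*a^7) * h9 + ((1)*a^0 + (1)*a^1 + (1)*a^2 + (1)*a^3 + (2)*a^4 + (2)*a^5 + (2)*a^6 + (2)*a^7 + (1)*a^8) * h2
  exact ⟨e73, by rw [e511, pow_zero]⟩

/-- the primitive polynomial -/
noncomputable def P : (ZMod 2)[X] := X ^ 9 + X ^ 4 + 1

lemma P_dvd (n : ℕ) (hn : n = 511) : P ∣ (X ^ n - 1 : (ZMod 2)[X]) := by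
  rw [← AdjoinRoot.mk_eq_zero]
  have h0 : AdjoinRoot.mk P P = 0 := AdjoinRoot.mk_self
  have h2 : (2 : AdjoinRoot P) = 0 := by
    have h3 : (2 : ZMod 2) = 0 := by decide
    have h4 := congrArg (AdjoinRoot.of P) h3
    rw [map_ofNat, map_zero] at h4
    exact h4
  have h9 : (AdjoinRoot.root P) ^ 9 = (AdjoinRoot.root P) ^ 4 + 1 := by
    have : (AdjoinRoot.root P) ^ 9 + (AdjoinRoot.root P) ^ 4 + 1 = 0 := by
      have h4 : AdjoinRoot.mk P (X ^ 9 + X ^ 4 + 1) = 0 := h0
      simpa [AdjoinRoot.mk_X] using h4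
    linear_combination this + (-(AdjoinRoot.root P) ^ 4 - 1) * h2
  have := (powers _ h9 h2).2
  rw [← hn] at this
  rw [map_sub, map_pow, AdjoinRoot.mk_X, map_one, this, sub_self]

lemma P_dvd_X (n : ℕ) (hn : n = 512) : P ∣ (X ^ n - X : (ZMod 2)[X]) := by
  obtain ⟨k, rfl⟩ : ∃ k, n = k + 1 := ⟨511, hn⟩
  have h3 : X * (X ^ k - 1) = (X ^ (k + 1) - X : (ZMod 2)[X]) := by ring
  rw [← h3]
  exact Dvd.dvd.mul_left (P_dvd k (by omega)) _

lemma P_dvd_gen (K : Type*) [Field K] [Algebra (ZMod 2) K] (n : ℕ) (hn : n = 512) :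
    P.map (algebraMap (ZMod 2) K) ∣ (X ^ n - X : K[X]) := by
  have h2 := Polynomial.map_dvd (algebraMap (ZMod 2) K) (P_dvd_X n hn)
  rwa [Polynomial.map_sub, Polynomial.map_pow, Polynomial.map_X] at h2

abbrev F := GaloisField 2 9

lemma two_eq_zero : (2 : F) = 0 := by
  have := CharP.cast_eq_zero F 2
  simpa using this

lemma card_F : Nat.card F = 512 := by
  rw [GaloisField.card 2 9 (by norm_num)]; norm_num

lemma natDegree_P : P.natDegree = 9 := by
  unfold P
  compute_degree!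

lemma exists_root : ∃ a : F, a ^ 9 = a ^ 4 + 1 := by
  have hs : (X ^ (Nat.card F) - X : F[X]).Splits := splits_X_pow_nat_card_sub_X (K := F)
  have hne : (X ^ (Nat.card F) - X : F[X]) ≠ 0 :=
    FiniteField.X_pow_card_sub_X_ne_zero F (by rw [card_F]; norm_num)
  have hdvd : P.map (algebraMap (ZMod 2) F) ∣ (X ^ (Nat.card F) - X : F[X]) := P_dvd_gen F _ card_F
  have hP := hs.of_dvd hne hdvd
  obtain ⟨a, ha⟩ := hP.exists_eval_eq_zero (by
    rw [degree_map]
    rw [Polynomial.degree_eq_natDegree (by intro h; have := natDegree_P; rw [h] at this; simp at this), natDegree_P]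
    norm_num)
  refine ⟨a, ?_⟩
  rw [eval_map] at ha
  unfold P at ha
  simp only [eval₂_add, eval₂_pow, eval₂_X, eval₂_one] at ha
  linear_combination ha + (-a ^ 4 - 1) * two_eq_zero

lemma order (a : F) (h9 : a ^ 9 = a ^ 4 + 1) : orderOf a = 511 := by
  have hp := powers a h9 two_eq_zero
  have h2 := two_eq_zero
  have hsq : ∀ x : F, x ^ 2 = 0 → x = 0 := fun x hx => by simpa using hx
  have h7 : a ^ 7 ≠ 1 := by
    intro h
    have e1 : (a ^ 2 + a + 1) ^ 2 = 0 := by
      linear_combination (-a ^ 2) * h + h9 + (a ^ 4 + a ^ 3 + a ^ 2 + a + 1) * h2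
    have e2 := hsq _ e1
    have e3 : a ^ 3 = 1 := by linear_combination (a - 1) * e2
    have e4 : a = 1 := by
      have : a ^ 7 = a * (a ^ 3) ^ 2 := by ring
      rw [this, e3] at h
      simpa using h
    rw [e4] at e2
    have : (1 : F) = 0 := by linear_combination e2 - h2
    exact one_ne_zero this
  have h73 : a ^ 73 ≠ 1 := by
    intro h
    rw [hp.1] at h
    have e1 : (a ^ 4 + a ^ 3 + a ^ 2 + 1) ^ 2 = 0 := by
      linear_combination h + (a ^ 7 + a ^ 6 + a ^ 5 + a ^ 4 + a ^ 3 + a ^ 2 + 1) * h2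
    have e2 := hsq _ e1
    have e3 : (a + 1) * (a ^ 3 + a + 1) = 0 := by
      linear_combination e2 + a * h2
    rcases mul_eq_zero.mp e3 with e | e
    · have : a = 1 := by linear_combination e - h2
      rw [this] at h9
      have : (1 : F) = 0 := by linear_combination - h9
      exact one_ne_zero this
    · apply h7
      linear_combination (a ^ 4 - a ^ 2 - a + 1) * e + (a ^ 2 - 1) * h2
  apply orderOf_eq_of_pow_and_pow_div_prime (by norm_num) hp.2
  intro p hp1 hp2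
  have hcase : p = 7 ∨ p = 73 := by
    have : p ∣ 7 * 73 := by simpa using hp2
    rcases (Nat.Prime.dvd_mul hp1).mp this with h | h
    · left; exact (Nat.prime_dvd_prime_iff_eq hp1 (by norm_num)).mp h
    · right; exact (Nat.prime_dvd_prime_iff_eq hp1 (by norm_num)).mp h
  rcases hcase with rfl | rfl
  · norm_num; exact h73
  · norm_num; exact h7

lemma minpoly_deg (a : F) (ho : orderOf a = 511) : 9 ≤ (minpoly (ZMod 2) a).natDegree := by
  have hint : IsIntegral (ZMod 2) a := Algebra.IsIntegral.isIntegral a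
  have h1 := IntermediateField.adjoin.finrank hint
  have hcard : Nat.card (IntermediateField.adjoin (ZMod 2) {a}) = 2 ^ (minpoly (ZMod 2) a).natDegree := by
    rw [← h1, Module.natCard_eq_pow_finrank (K := ZMod 2), Nat.card_zmod]
  let g : Fin 511 → IntermediateField.adjoin (ZMod 2) {a} := fun j =>
    ⟨a ^ (j : ℕ), pow_mem (IntermediateField.mem_adjoin_simple_self (ZMod 2) a) _⟩
  have hg : Function.Injective g := by
    intro i j hij
    have h2 : a ^ (i : ℕ) = a ^ (j : ℕ) := congrArg Subtype.val hij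
    have h3 := pow_injOn_Iio_orderOf (x := a) (show (i : ℕ) ∈ Set.Iio (orderOf a) by rw [ho]; exact i.2)
      (show (j : ℕ) ∈ Set.Iio (orderOf a) by rw [ho]; exact j.2) h2
    exact Fin.ext h3
  have h4 : 511 ≤ 2 ^ (minpoly (ZMod 2) a).natDegree := by
    rw [← hcard]
    have := Nat.card_le_card_of_injective g hg
    simpa using this
  by_contra h
  have h5 : 2 ^ (minpoly (ZMod 2) a).natDegree ≤ 2 ^ 8 := Nat.pow_le_pow_right (by norm_num) (by omega)
  norm_num at h5
  omega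

lemma exists_functional (a : F) (ho : orderOf a = 511) (v : Fin 9 → ZMod 2) :
    ∃ l : F →ₗ[ZMod 2] ZMod 2, ∀ i : Fin 9, l (a ^ (i : ℕ)) = v i := by
  have h1 := linearIndependent_pow (K := ZMod 2) a
  have h2 := minpoly_deg a ho
  have h3 : LinearIndependent (ZMod 2) (fun i : Fin 9 => a ^ (i : ℕ)) :=
    h1.comp (Fin.castLE h2) (Fin.castLE_injective h2)
  let b := basisOfLinearIndependentOfCardEqFinrank h3 (by
    rw [GaloisField.finrank 2 (by norm_num)]; simp)
  refine ⟨b.constr (ZMod 2) v, fun i => ?_⟩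
  have h4 : b i = a ^ (i : ℕ) := by
    simp [b]
  rw [← h4, Module.Basis.constr_basis]

/-- one step of the linear feedback shift register of x^9 + x^4 + 1 -/
def step (S : ℕ) : ℕ := S / 2 + 256 * ((S + S / 16) % 2)

/-- the states -/
def st : ℕ → ℕ
  | 0 => 33
  | (n + 1) => step (st n)

/-- weight counter -/
def cnt : ℕ → ℕ → ℕ
  | 0, _ => 0
  | (n + 1), S => S % 2 + cnt n (step (step (step (step (step (step (step S)))))))

lemma cnt_val : cnt 511 33 = 196 := by decide +kernel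

lemma cnt_sum (n : ℕ) : ∀ i, ∑ j ∈ Finset.range n, st (7 * (i + j)) % 2 = cnt n (st (7 * i)) := by
  induction n with
  | zero => intro i; simp [cnt]
  | succ n ih =>
    intro i
    rw [Finset.sum_range_succ']
    have h1 : ∀ j, st (7 * (i + (j + 1))) = st (7 * ((i + 1) + j)) := by
      intro j; congr 1; ring
    simp only [h1]
    rw [ih (i + 1)]
    have h2 : st (7 * (i + 1)) = step (step (step (step (step (step (step (st (7 * i)))))))) := rfl
    rw [h2]
    simp only [cnt, add_zero]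
    omega

lemma st_eq (a : F) (h9 : a ^ 9 = a ^ 4 + 1) (l : F →ₗ[ZMod 2] ZMod 2)
    (hl : ∀ i : Fin 9, l (a ^ (i : ℕ)) = (![1, 0, 0, 0, 0, 1, 0, 0, 0] : Fin 9 → ZMod 2) i) (i : ℕ) :
    st i = (l (a ^ i)).val + 2 * (l (a ^ (i + 1))).val + 4 * (l (a ^ (i + 2))).val
      + 8 * (l (a ^ (i + 3))).val + 16 * (l (a ^ (i + 4))).val + 32 * (l (a ^ (i + 5))).val
      + 64 * (l (a ^ (i + 6))).val + 128 * (l (a ^ (i + 7))).val + 256 * (l (a ^ (i + 8))).val := by
  induction i with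
  | zero =>
    have e0 := hl 0
    have e1 := hl 1
    have e2 := hl 2
    have e3 := hl 3
    have e4 := hl 4
    have e5 := hl 5
    have e6 := hl 6
    have e7 := hl 7
    have e8 := hl 8
    simp only [Fin.isValue, Fin.val_zero, Fin.val_one, Fin.val_two] at e0 e1 e2
    change l (a ^ 3) = 0 at e3
    change l (a ^ 4) = 0 at e4
    change l (a ^ 5) = 1 at e5
    change l (a ^ 6) = 0 at e6
    change l (a ^ 7) = 0 at e7
    change l (a ^ 8) = 0 at e8
    change l (a ^ 0) = 1 at e0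
    change l (a ^ 1) = 0 at e1
    change l (a ^ 2) = 0 at e2
    simp only [zero_add]
    rw [e0, e1, e2, e3, e4, e5, e6, e7, e8]
    rfl
  | succ i ih =>
    have hrec : (l (a ^ (i + 9))).val = ((l (a ^ (i + 4))).val + (l (a ^ i)).val) % 2 := by
      have : a ^ (i + 9) = a ^ (i + 4) + a ^ i := by
        rw [pow_add, h9, mul_add, mul_one, ← pow_add]
      rw [this, map_add, ZMod.val_add]
    have hb : ∀ x : ZMod 2, x.val < 2 := fun x => ZMod.val_lt x
    have b0 := hb (l (a ^ i))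
    have b1 := hb (l (a ^ (i + 1)))
    have b2 := hb (l (a ^ (i + 2)))
    have b3 := hb (l (a ^ (i + 3)))
    have b4 := hb (l (a ^ (i + 4)))
    have b5 := hb (l (a ^ (i + 5)))
    have b6 := hb (l (a ^ (i + 6)))
    have b7 := hb (l (a ^ (i + 7)))
    have b8 := hb (l (a ^ (i + 8)))
    have h1 : st (i + 1) = step (st i) := rfl
    rw [h1, ih]
    unfold step
    rw [show i + 1 + 1 = i + 2 by ring, show i + 1 + 2 = i + 3 by ring, show i + 1 + 3 = i + 4 by ring,
      show i + 1 + 4 = i + 5 by ring, show i + 1 + 5 = i + 6 by ring, show i + 1 + 6 = i + 7 by ring,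
      show i + 1 + 7 = i + 8 by ring, show i + 1 + 8 = i + 9 by ring, hrec]
    generalize (l (a ^ i)).val = v0 at *
    generalize (l (a ^ (i + 1))).val = v1 at *
    generalize (l (a ^ (i + 2))).val = v2 at *
    generalize (l (a ^ (i + 3))).val = v3 at *
    generalize (l (a ^ (i + 4))).val = v4 at *
    generalize (l (a ^ (i + 5))).val = v5 at *
    generalize (l (a ^ (i + 6))).val = v6 at *
    generalize (l (a ^ (i + 7))).val = v7 at *
    generalize (l (a ^ (i + 8))).val = v8 at *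
    have q1 : (v0 + 2 * v1 + 4 * v2 + 8 * v3 + 16 * v4 + 32 * v5 + 64 * v6 + 128 * v7 + 256 * v8) / 2 =
      v1 + 2 * v2 + 4 * v3 + 8 * v4 + 16 * v5 + 32 * v6 + 64 * v7 + 128 * v8 := by omega
    have q2 : (v0 + 2 * v1 + 4 * v2 + 8 * v3 + 16 * v4 + 32 * v5 + 64 * v6 + 128 * v7 + 256 * v8) / 16 =
      v4 + 2 * v5 + 4 * v6 + 8 * v7 + 16 * v8 := by omega
    rw [q1, q2]
    have q3 : (v0 + 2 * v1 + 4 * v2 + 8 * v3 + 16 * v4 + 32 * v5 + 64 * v6 + 128 * v7 + 256 * v8 +
      (v4 + 2 * v5 + 4 * v6 + 8 * v7 + 16 * v8)) % 2 = (v4 + v0) % 2 := by omega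
    rw [q3]

/-- The negation of the preceding statement: Take a binary BCH code of length 2^m-1 whose codewords vanish at alpha^1 through alpha^(2t), with 2t-1 < 2^ceil(m/2)+1. Then every nonzero word of its dual has weight within (t-1)2^floor(m/2) of 2^(m-1). -/
theorem result :
    ¬ (∀ m t : ℕ, 2 ≤ m → 1 ≤ t → 2 * t - 1 < 2 ^ ((m + 1) / 2) + 1 →
      ∀ α : GaloisField 2 m, IsPrimitiveRoot α (2 ^ m - 1) →
        ∀ d : Fin (2 ^ m - 1) → ZMod 2, d ≠ 0 →
          (∀ c : Fin (2 ^ m - 1) → ZMod 2,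
              (∀ i ∈ Finset.Icc 1 (2 * t),
                  ∑ j : Fin (2 ^ m - 1),
                    algebraMap (ZMod 2) (GaloisField 2 m) (c j) * α ^ (i * (j : ℕ)) = 0) →
              ∑ j : Fin (2 ^ m - 1), c j * d j = 0) →
            (2 : ℤ) ^ (m - 1) - ((t : ℤ) - 1) * 2 ^ (m / 2)
                ≤ ((Finset.univ.filter (fun j => d j ≠ 0)).card : ℤ) ∧
              ((Finset.univ.filter (fun j => d j ≠ 0)).card : ℤ)
                ≤ (2 : ℤ) ^ (m - 1) + ((t : ℤ) - 1) * 2 ^ (m / 2)) := by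
  intro H
  obtain ⟨a, h9⟩ := exists_root
  have ho := order a h9
  obtain ⟨l, hl⟩ := exists_functional a ho ![1, 0, 0, 0, 0, 1, 0, 0, 0]
  have hw : (Finset.univ.filter (fun j : Fin (2 ^ 9 - 1) => (fun j : Fin (2 ^ 9 - 1) => l (a ^ (7 * (j : ℕ)))) j ≠ 0)).card = 196 := by
    rw [Finset.card_filter]
    have h1 : ∀ j : Fin (2 ^ 9 - 1), (if (fun j : Fin (2 ^ 9 - 1) => l (a ^ (7 * (j : ℕ)))) j ≠ 0 then 1 else 0) = st (7 * (0 + (j : ℕ))) % 2 := by
      intro j
      have h2 := st_eq a h9 l hl (7 * (j : ℕ))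
      rw [zero_add]
      have h3 : ∀ x : ZMod 2, (if x ≠ 0 then 1 else 0) = x.val := by decide
      have h4 := ZMod.val_lt (l (a ^ (7 * (j : ℕ))))
      simp only [h3]
      omega
    rw [Finset.sum_congr rfl (fun j _ => h1 j)]
    rw [Fin.sum_univ_eq_sum_range (fun j => st (7 * (0 + j)) % 2) (2 ^ 9 - 1)]
    rw [cnt_sum]
    exact cnt_val
  have hH := H 9 4 (by norm_num) (by norm_num) (by norm_num) a (by
      have := IsPrimitiveRoot.orderOf a
      rw [ho] at this
      exact this) (fun j => l (a ^ (7 * (j : ℕ)))) (by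
      intro h
      have h0 : ∀ j : Fin (2 ^ 9 - 1), l (a ^ (7 * (j : ℕ))) = 0 := fun j => congrFun h j
      simp [h0] at hw) (by
      intro c hc
      have h7 := hc 7 (by decide)
      have h8 : ∀ j : Fin (2 ^ 9 - 1), c j * l (a ^ (7 * (j : ℕ))) =
          l (algebraMap (ZMod 2) (GaloisField 2 9) (c j) * a ^ (7 * (j : ℕ))) := by
        intro j
        rw [← Algebra.smul_def, map_smul, smul_eq_mul]
      rw [Finset.sum_congr rfl (fun j _ => h8 j), ← map_sum, h7, map_zero])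
  have h1 := hH.1
  rw [hw] at h1
  norm_num at h1

end Pool.Agent.S06140
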