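import Pool.Statements.S06183
import Pool.Agent.H753R2.FR.T_D6
import Pool.Agent.H753R2.FR.T_E2

set_option autoImplicit false
open Pool Pool.MP_621cbe_co

namespace Pool.Agent.S06183

/-- There is a real constant c such that, for every finite graph, every real root of its flow polynomial (when that polynomial is not identically zero) is at most c. -/
theorem result :
  ∃ c : ℝ, ∀ (n : ℕ) (G : SimpleGraph (Fin n)) [DecidableRel G.Adj] (x : ℝ),
    x ∈ (∑ A ∈ G.edgeFinset.powerset,
      Polynomial.C ((-1 : ℝ) ^ (G.edgeFinset.card - A.card)) *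
        Polynomial.X ^ (A.card
          + Nat.card (SimpleGraph.fromEdgeSet (↑A : Set (Sym2 (Fin n)))).ConnectedComponent
          - n)).roots → x ≤ c := by
  obtain ⟨q₀, h2, h⟩ := Pool.Agent.H753R2.FR.flow_pos
  exact Pool.Agent.H753R2.FR.link q₀ h2 h

end Pool.Agent.S06183
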