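import Pool.Statements.S06217

set_option autoImplicit false
open Pool Pool.MP_63a4dd_co

namespace Pool.Agent.S06217

/-- The relation deciding the lower neighbours `a` of the new vertex `n`, given the relation `g`
on the earlier vertices (`g b a` says that `a` is a lower neighbour of `b`). -/
def stp (B : ℕ → ℕ → Prop) (n : ℕ) (g : ℕ → ℕ → Prop) (a : ℕ) : Prop :=
  (n < 10 ∧ B n a ∧ a < n) ∨
  (10 ≤ n ∧ (n - 10).unpair.1 < (n - 10).unpair.2 ∧
    (a = (n - 10).unpair.1 ∨ a = (n - 10).unpair.2) ∧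
    ¬ g (n - 10).unpair.2 (n - 10).unpair.1 ∧
    ∀ z, ¬ ((g (n - 10).unpair.1 z ∨ g z (n - 10).unpair.1) ∧
      (g (n - 10).unpair.2 z ∨ g z (n - 10).unpair.2)))

def F (B : ℕ → ℕ → Prop) : ℕ → ℕ → ℕ → Prop
  | 0 => fun _ _ => False
  | n + 1 => fun b a => if b = n then stp B n (F B n) a else F B n b a

def Lo (B : ℕ → ℕ → Prop) (b a : ℕ) : Prop := stp B b (F B b) a

theorem F_iff (B : ℕ → ℕ → Prop) (n b a : ℕ) : F B n b a ↔ b < n ∧ Lo B b a := by
  induction n with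
  | zero => simp [F]
  | succ n ih =>
    simp only [F]
    split_ifs with h
    · subst h
      simp [Lo]
    · rw [ih]
      constructor
      · rintro ⟨h1, h2⟩
        exact ⟨by omega, h2⟩
      · rintro ⟨h1, h2⟩
        exact ⟨by omega, h2⟩

theorem unp1 (n : ℕ) (h : 10 ≤ n) : (n - 10).unpair.1 < n := by
  have := Nat.unpair_left_le (n - 10)
  omega

theorem unp2 (n : ℕ) (h : 10 ≤ n) : (n - 10).unpair.2 < n := by
  have := Nat.unpair_right_le (n - 10)
  omega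

theorem Lo_lt (B : ℕ → ℕ → Prop) {b a : ℕ} (h : Lo B b a) : a < b := by
  rcases h with ⟨_, _, h⟩ | ⟨h0, _, h, _⟩
  · exact h
  · rcases h with h | h
    · rw [h]; exact unp1 b h0
    · rw [h]; exact unp2 b h0

def Gr (B : ℕ → ℕ → Prop) : SimpleGraph ℕ where
  Adj a b := Lo B a b ∨ Lo B b a
  symm := ⟨fun _ _ h => h.symm⟩
  loopless := ⟨fun a h => by
    rcases h with h | h
    · exact lt_irrefl _ (Lo_lt B h)
    · exact lt_irrefl _ (Lo_lt B h)⟩

theorem adj_def (B : ℕ → ℕ → Prop) (a b : ℕ) : (Gr B).Adj a b ↔ Lo B a b ∨ Lo B b a := Iff.rfl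

theorem adj_lt (B : ℕ → ℕ → Prop) {a b : ℕ} (h : (Gr B).Adj b a) (hl : a < b) : Lo B b a := by
  rcases h with h | h
  · exact h
  · have := Lo_lt B h
    omega

/-- The base condition. -/
def Good (B : ℕ → ℕ → Prop) : Prop :=
  ∀ b < 10, ∀ p < b, ∀ q < b, p ≠ q → B b p → B b q →
    (¬ (p < q ∧ B q p)) ∧ (∀ z < b, ¬ (((z < p ∧ B p z) ∨ (p < z ∧ B z p)) ∧
      ((z < q ∧ B q z) ∨ (q < z ∧ B z q))))

theorem Lo_base (B : ℕ → ℕ → Prop) {b a : ℕ} (hb : b < 10) : Lo B b a ↔ B b a ∧ a < b := by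
  unfold Lo stp
  constructor
  · rintro (h | h)
    · exact h.2
    · omega
  · intro h
    exact Or.inl ⟨hb, h⟩

theorem Lo_big (B : ℕ → ℕ → Prop) {b a : ℕ} (hb : 10 ≤ b) : Lo B b a ↔
    ((b - 10).unpair.1 < (b - 10).unpair.2 ∧
    (a = (b - 10).unpair.1 ∨ a = (b - 10).unpair.2) ∧
    ¬ Lo B (b - 10).unpair.2 (b - 10).unpair.1 ∧
    ∀ z < b, ¬ ((Gr B).Adj (b - 10).unpair.1 z ∧ (Gr B).Adj (b - 10).unpair.2 z)) := by
  have h1 := unp1 b hb
  have h2 := unp2 b hb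
  unfold Lo stp
  rw [show (¬ F B b (Nat.unpair (b - 10)).2 (Nat.unpair (b - 10)).1) ↔
    ¬ Lo B (Nat.unpair (b - 10)).2 (Nat.unpair (b - 10)).1 by
      rw [F_iff]; simp [h2]]
  have h3 : (∀ z, ¬ ((F B b (b - 10).unpair.1 z ∨ F B b z (b - 10).unpair.1) ∧
      (F B b (b - 10).unpair.2 z ∨ F B b z (b - 10).unpair.2))) ↔
      ∀ z < b, ¬ ((Gr B).Adj (b - 10).unpair.1 z ∧ (Gr B).Adj (b - 10).unpair.2 z) := by
    constructor
    · intro h z hz hh
      apply h z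
      simp only [F_iff, h1, h2, hz, true_and]
      exact hh
    · intro h z hh
      simp only [F_iff, h1, h2, true_and] at hh
      have hz : z < b := by
        rcases hh.1 with h' | h'
        · have := Lo_lt B h'; omega
        · exact h'.1
      apply h z hz
      simp only [hz, true_and] at hh
      exact hh
  rw [h3]
  constructor
  · rintro (h | h)
    · omega
    · exact h.2
  · intro h
    exact Or.inr ⟨hb, h⟩

theorem key (B : ℕ → ℕ → Prop) (hB : Good B) {b p q : ℕ} (hp : Lo B b p) (hq : Lo B b q)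
    (hpq : p ≠ q) : ¬ (Gr B).Adj p q ∧ ∀ z < b, ¬ ((Gr B).Adj p z ∧ (Gr B).Adj q z) := by
  rcases lt_or_ge b 10 with hb | hb
  · have lp := Lo_lt B hp
    have lq := Lo_lt B hq
    rw [Lo_base B hb] at hp hq
    have hA : ∀ u v : ℕ, u < 10 → v < 10 → ((Gr B).Adj u v ↔ (v < u ∧ B u v) ∨ (u < v ∧ B v u)) := by
      intro u v hu hv
      rw [adj_def, Lo_base B hu, Lo_base B hv]
      tauto
    have k1 := hB b hb p lp q lq hpq hp.1 hq.1
    have k2 := hB b hb q lq p lp hpq.symm hq.1 hp.1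
    constructor
    · intro h
      rw [hA p q (by omega) (by omega)] at h
      rcases h with h | h
      · exact k2.1 h
      · exact k1.1 h
    · intro z hz h
      rw [hA p z (by omega) (by omega), hA q z (by omega) (by omega)] at h
      exact k1.2 z hz h
  · rw [Lo_big B hb] at hp hq
    obtain ⟨h1, h2, h3, h4⟩ := hp
    obtain ⟨_, h5, _, _⟩ := hq
    have hna : ¬ (Gr B).Adj (b - 10).unpair.1 (b - 10).unpair.2 := by
      intro h
      rcases h with h | h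
      · have := Lo_lt B h; omega
      · exact h3 h
    rcases h2 with rfl | rfl
    · rcases h5 with rfl | rfl
      · exact absurd rfl hpq
      · exact ⟨hna, h4⟩
    · rcases h5 with rfl | rfl
      · exact ⟨fun h => hna h.symm, fun z hz h => h4 z hz ⟨h.2, h.1⟩⟩
      · exact absurd rfl hpq

theorem tri_aux (B : ℕ → ℕ → Prop) (hB : Good B) {u v w : ℕ} (h1 : (Gr B).Adj u v)
    (h2 : (Gr B).Adj v w) (h3 : (Gr B).Adj w u) (hv : v < u) (hw : w < u) : False :=
  (key B hB (adj_lt B h1 hv) (adj_lt B h3.symm hw) h2.ne).1 h2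

theorem tri (B : ℕ → ℕ → Prop) (hB : Good B) {u v w : ℕ} (h1 : (Gr B).Adj u v)
    (h2 : (Gr B).Adj v w) (h3 : (Gr B).Adj w u) : False := by
  have n1 := h1.ne
  have n2 := h2.ne
  have n3 := h3.ne
  have : (v < u ∧ w < u) ∨ (w < v ∧ u < v) ∨ (u < w ∧ v < w) := by omega
  rcases this with ⟨a, b⟩ | ⟨a, b⟩ | ⟨a, b⟩
  · exact tri_aux B hB h1 h2 h3 a b
  · exact tri_aux B hB h2 h3 h1 a b
  · exact tri_aux B hB h3 h1 h2 a b

theorem quad_aux (B : ℕ → ℕ → Prop) (hB : Good B) {u v w z : ℕ} (h1 : (Gr B).Adj u v)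
    (h2 : (Gr B).Adj v w) (h3 : (Gr B).Adj w z) (h4 : (Gr B).Adj z u)
    (hvz : v ≠ z) (hv : v < u) (hw : w < u) (hz : z < u) : False :=
  (key B hB (adj_lt B h1 hv) (adj_lt B h4.symm hz) hvz).2 w hw ⟨h2, h3.symm⟩

theorem quad (B : ℕ → ℕ → Prop) (hB : Good B) {u v w z : ℕ} (h1 : (Gr B).Adj u v)
    (h2 : (Gr B).Adj v w) (h3 : (Gr B).Adj w z) (h4 : (Gr B).Adj z u)
    (hvz : v ≠ z) (huw : u ≠ w) : False := by
  have n1 := h1.ne
  have n2 := h2.ne
  have n3 := h3.ne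
  have n4 := h4.ne
  have : (v < u ∧ w < u ∧ z < u) ∨ (w < v ∧ z < v ∧ u < v) ∨ (z < w ∧ u < w ∧ v < w) ∨
    (u < z ∧ v < z ∧ w < z) := by omega
  rcases this with ⟨a, b, c⟩ | ⟨a, b, c⟩ | ⟨a, b, c⟩ | ⟨a, b, c⟩
  · exact quad_aux B hB h1 h2 h3 h4 hvz a b c
  · exact quad_aux B hB h2 h3 h4 h1 huw.symm a b c
  · exact quad_aux B hB h3 h4 h1 h2 hvz.symm a b c
  · exact quad_aux B hB h4 h1 h2 h3 huw a b c

theorem dist2_aux (B : ℕ → ℕ → Prop) {x y : ℕ} (h : x < y) :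
    (Gr B).Adj x y ∨ ∃ z, (Gr B).Adj x z ∧ (Gr B).Adj y z := by
  by_contra hcon
  push Not at hcon
  obtain ⟨h1, h2⟩ := hcon
  have e : (Nat.pair x y + 10 - 10).unpair = (x, y) := by simp
  have hx : Lo B (Nat.pair x y + 10) x := by
    rw [Lo_big B (by omega), e]
    refine ⟨h, Or.inl rfl, fun h' => h1 (Or.inr h'), fun z _ hz => h2 z hz.1 hz.2⟩
  have hy : Lo B (Nat.pair x y + 10) y := by
    rw [Lo_big B (by omega), e]
    refine ⟨h, Or.inr rfl, fun h' => h1 (Or.inr h'), fun z _ hz => h2 z hz.1 hz.2⟩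
  exact h2 _ (Or.inr hx) (Or.inr hy)

theorem dist2 (B : ℕ → ℕ → Prop) {x y : ℕ} (h : x ≠ y) :
    (Gr B).Adj x y ∨ ∃ z, (Gr B).Adj x z ∧ (Gr B).Adj y z := by
  rcases lt_or_gt_of_ne h with h | h
  · exact dist2_aux B h
  · rcases dist2_aux B h with h | ⟨z, h⟩
    · exact Or.inl h.symm
    · exact Or.inr ⟨z, h.2, h.1⟩

theorem nbr_big (B : ℕ → ℕ → Prop) (v N : ℕ) : ∃ w, N < w ∧ (Gr B).Adj v w := by
  set t := N + v with ht
  set u := Nat.pair t t + 10 with hu
  have e : (u - 10).unpair = (t, t) := by simp [hu]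
  have hlo : ∀ a, ¬ Lo B u a := by
    intro a ha
    rw [Lo_big B (by omega), e] at ha
    exact lt_irrefl _ ha.1
  have htu : t ≤ Nat.pair t t := Nat.left_le_pair t t
  have hvu : v ≠ u := by omega
  rcases dist2 B hvu with h | ⟨w, h1, h2⟩
  · exact ⟨u, by omega, h⟩
  · refine ⟨w, ?_, h1⟩
    rcases h2 with h2 | h2
    · exact absurd h2 (hlo w)
    · have := Lo_lt B h2
      omega

theorem mk_nbr (B : ℕ → ℕ → Prop) (v : ℕ) : Cardinal.mk ((Gr B).neighborSet v) = Cardinal.aleph0 := by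
  have hinf : ((Gr B).neighborSet v).Infinite := by
    rw [Set.infinite_iff_exists_gt]
    intro a
    obtain ⟨w, h1, h2⟩ := nbr_big B v a
    exact ⟨w, h2, h1⟩
  have := hinf.to_subtype
  exact Cardinal.mk_eq_aleph0 _

theorem ediam_eq (B : ℕ → ℕ → Prop) (hB : Good B) : (Gr B).ediam = ((2 : ℕ) : ℕ∞) := by
  apply le_antisymm
  · apply SimpleGraph.ediam_le_of_edist_le
    intro u v
    by_cases h : u = v
    · subst h; simp
    · rcases dist2 B h with h | ⟨z, h1, h2⟩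
      · have := SimpleGraph.edist_le (SimpleGraph.Walk.cons h .nil)
        refine this.trans ?_
        simp
      · have := SimpleGraph.edist_le (SimpleGraph.Walk.cons h1 (SimpleGraph.Walk.cons h2.symm .nil))
        refine this.trans ?_
        simp
  · obtain ⟨w, _, h1⟩ := nbr_big B 0 0
    obtain ⟨x, hx, h2⟩ := nbr_big B w 0
    have hne : (0 : ℕ) ≠ x := by omega
    have hna : ¬ (Gr B).Adj 0 x := fun h => tri B hB h1 h2 h.symm
    have h3 : ¬ (Gr B).edist 0 x ≤ 1 := by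
      rw [SimpleGraph.edist_le_one_iff_adj_or_eq]
      tauto
    have h4 : (1 : ℕ∞) < (Gr B).edist 0 x := not_le.1 h3
    have h5 : ((2 : ℕ) : ℕ∞) ≤ (Gr B).edist 0 x := by
      have := Order.add_one_le_of_lt h4
      refine le_trans (le_of_eq ?_) this
      norm_num
    exact h5.trans SimpleGraph.edist_le_ediam

theorem egirth_gt (B : ℕ → ℕ → Prop) (hB : Good B) : ((2 * 2 : ℕ) : ℕ∞) < (Gr B).egirth := by
  have : ((5 : ℕ) : ℕ∞) ≤ (Gr B).egirth := by
    rw [SimpleGraph.le_egirth]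
    intro a w hw
    rw [Nat.cast_le]
    have h3 := hw.three_le_length
    by_contra hlt
    push Not at hlt
    have hnd := hw.support_nodup
    cases w with
    | nil => simp at h3
    | cons h1 w1 =>
      cases w1 with
      | nil => simp at h3
      | cons h2 w2 =>
        cases w2 with
        | nil => simp at h3
        | cons h3' w3 =>
          cases w3 with
          | nil => exact tri B hB h1 h2 h3'
          | cons h4 w4 =>
            cases w4 with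
            | nil =>
              simp at hnd
              exact quad B hB h1 h2 h3' h4 (by tauto) (by tauto)
            | cons h5 w5 =>
              simp at hlt
              omega
  refine lt_of_lt_of_le ?_ this
  exact_mod_cast (by norm_num : 2 * 2 < 5)

/-- The empty base. -/
def B0 : ℕ → ℕ → Prop := fun _ _ => False

/-- The Petersen graph as base. -/
def B1 : ℕ → ℕ → Prop := fun b a => (b, a) ∈ ([(1,0),(2,1),(3,2),(4,3),(4,0),(5,0),(6,1),(7,2),
  (8,3),(9,4),(7,5),(8,6),(9,7),(8,5),(9,6)] : List (ℕ × ℕ))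

instance (b a : ℕ) : Decidable (B1 b a) := by unfold B1; infer_instance

theorem good0 : Good B0 := by
  intro b _ p _ q _ _ h
  exact h.elim

set_option synthInstance.maxHeartbeats 400000 in
set_option synthInstance.maxSize 4096 in
theorem good1_aux : ∀ b < 10, ∀ p < b, ∀ q < b, p ≠ q → B1 b p → B1 b q →
    (¬ (p < q ∧ B1 q p)) ∧ (∀ z < b, ¬ (((z < p ∧ B1 p z) ∨ (p < z ∧ B1 z p)) ∧
      ((z < q ∧ B1 q z) ∨ (q < z ∧ B1 z q)))) := by
  decide +kernel

theorem good1 : Good B1 := good1_aux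

/-- A finite nonempty set in which every vertex has three neighbours. -/
def Core {V : Type} (G : SimpleGraph V) : Prop :=
  ∃ S : Set V, S.Finite ∧ S.Nonempty ∧ ∀ v ∈ S, ∃ a ∈ S, ∃ b ∈ S, ∃ c ∈ S,
    a ≠ b ∧ b ≠ c ∧ a ≠ c ∧ G.Adj v a ∧ G.Adj v b ∧ G.Adj v c

theorem core_iso {V W : Type} {G : SimpleGraph V} {H : SimpleGraph W} (e : G ≃g H)
    (h : Core H) : Core G := by
  obtain ⟨S, h1, h2, h3⟩ := h
  refine ⟨e.symm '' S, h1.image _, h2.image _, ?_⟩
  rintro _ ⟨v, hv, rfl⟩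
  obtain ⟨a, ha, b, hb, c, hc, k1, k2, k3, k4, k5, k6⟩ := h3 v hv
  have inj := e.symm.injective
  exact ⟨_, ⟨a, ha, rfl⟩, _, ⟨b, hb, rfl⟩, _, ⟨c, hc, rfl⟩, inj.ne k1, inj.ne k2, inj.ne k3,
    e.symm.map_rel_iff.2 k4, e.symm.map_rel_iff.2 k5, e.symm.map_rel_iff.2 k6⟩

theorem core0 : ¬ Core (Gr B0) := by
  rintro ⟨S, h1, h2, h3⟩
  obtain ⟨v, hv, hmax⟩ := Set.exists_max_image S id h1 h2
  obtain ⟨a, ha, b, hb, c, hc, k1, k2, k3, k4, k5, k6⟩ := h3 v hv
  have la : Lo B0 v a := adj_lt B0 k4 (lt_of_le_of_ne (hmax a ha) k4.ne')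
  have lb : Lo B0 v b := adj_lt B0 k5 (lt_of_le_of_ne (hmax b hb) k5.ne')
  have lc : Lo B0 v c := adj_lt B0 k6 (lt_of_le_of_ne (hmax c hc) k6.ne')
  rcases lt_or_ge v 10 with hv | hv
  · rw [Lo_base B0 hv] at la
    exact la.1.elim
  · rw [Lo_big B0 hv] at la lb lc
    have ea := la.2.1
    have eb := lb.2.1
    have ec := lc.2.1
    omega

theorem core1 : Core (Gr B1) := by
  refine ⟨{n | n < 10}, Set.finite_lt_nat 10, ⟨0, by simp⟩, ?_⟩
  intro v hv
  have key : ∀ v < 10, ∃ a < 10, ∃ b < 10, ∃ c < 10, a ≠ b ∧ b ≠ c ∧ a ≠ c ∧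
      ((B1 v a ∧ a < v) ∨ (B1 a v ∧ v < a)) ∧ ((B1 v b ∧ b < v) ∨ (B1 b v ∧ v < b)) ∧
      ((B1 v c ∧ c < v) ∨ (B1 c v ∧ v < c)) := by
    decide +kernel
  obtain ⟨a, ha, b, hb, c, hc, k1, k2, k3, k4, k5, k6⟩ := key v hv
  refine ⟨a, ha, b, hb, c, hc, k1, k2, k3, ?_, ?_, ?_⟩
  · rw [adj_def, Lo_base B1 hv, Lo_base B1 ha]; exact k4
  · rw [adj_def, Lo_base B1 hv, Lo_base B1 hb]; exact k5
  · rw [adj_def, Lo_base B1 hv, Lo_base B1 hc]; exact k6

/-- There exist a cardinal d and an integer k>1 and two non-isomorphic graphs, each d-regular with diameter exactly k and with no cycle of length at most 2k. -/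
theorem result :
    ∃ d : Cardinal.{0}, ∃ k : ℕ, 1 < k ∧
      ∃ (V W : Type) (G : SimpleGraph V) (H : SimpleGraph W),
        (∀ v : V, Cardinal.mk (G.neighborSet v) = d) ∧
        G.ediam = (k : ℕ∞) ∧
        ((2 * k : ℕ) : ℕ∞) < G.egirth ∧
        (∀ w : W, Cardinal.mk (H.neighborSet w) = d) ∧
        H.ediam = (k : ℕ∞) ∧
        ((2 * k : ℕ) : ℕ∞) < H.egirth ∧
        IsEmpty (G ≃g H) := by
  refine ⟨Cardinal.aleph0, 2, by norm_num, ℕ, ℕ, Gr B0, Gr B1, mk_nbr B0, ediam_eq B0 good0,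
    egirth_gt B0 good0, mk_nbr B1, ediam_eq B1 good1, egirth_gt B1 good1, ⟨fun e => ?_⟩⟩
  exact core0 (core_iso e core1)

end Pool.Agent.S06217
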