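import Pool.Statements.S06236

set_option autoImplicit false
open Pool Pool.MP_655d34_co

namespace Pool.Agent.S06236

/-! The counterexample lives in three-space: `n + 1` points `A i` on the first coordinate axis,
`n` points `B j` on a skew line, and one further point `Z` such that the line through `Z` meeting
both lines passes through `A 0` and through a point of the second line not in the set. -/

abbrev V := EuclideanSpace ℝ (Fin 3)

noncomputable def A (i : ℕ) : V := !₂[(i : ℝ), 0, 0]
noncomputable def B (j : ℕ) : V := !₂[0, (j : ℝ) + 1, 1]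
noncomputable def Z : V := !₂[0, 0, 2]

open Classical in
noncomputable def PS (n : ℕ) : Finset V :=
  (Finset.range (n + 1)).image A ∪ (Finset.range n).image B ∪ {Z}

lemma mem_PS {n : ℕ} {x : V} : x ∈ PS n ↔
    (∃ i, i < n + 1 ∧ A i = x) ∨ (∃ j, j < n ∧ B j = x) ∨ x = Z := by
  simp only [PS, Finset.mem_union, Finset.mem_image, Finset.mem_range, Finset.mem_singleton,
    or_assoc]

lemma A_mem {n i : ℕ} (h : i < n + 1) : A i ∈ PS n := mem_PS.mpr (Or.inl ⟨i, h, rfl⟩)
lemma B_mem {n i : ℕ} (h : i < n) : B i ∈ PS n := mem_PS.mpr (Or.inr (Or.inl ⟨i, h, rfl⟩))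
lemma Z_mem {n : ℕ} : Z ∈ PS n := mem_PS.mpr (Or.inr (Or.inr rfl))

lemma A_inj : Function.Injective A := by
  intro i j h
  have := congrArg (fun v : V => v 0) h
  simpa [A] using this

lemma B_inj : Function.Injective B := by
  intro i j h
  have := congrArg (fun v : V => v 1) h
  simpa [B] using this

lemma card_PS (n : ℕ) : n < (PS n).card := by
  have h : (Finset.range (n + 1)).image A ⊆ PS n := by
    intro x hx
    rw [Finset.mem_image] at hx
    obtain ⟨i, hi, rfl⟩ := hx
    exact A_mem (Finset.mem_range.mp hi)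
  have := Finset.card_le_card h
  rw [Finset.card_image_of_injective _ A_inj, Finset.card_range] at this
  omega

/-! ### dimension lemmas -/

lemma minors {D : Submodule ℝ V} (h : Module.finrank ℝ D ≤ 1) {u v : V} (hu : u ∈ D) (hv : v ∈ D)
    (i j : Fin 3) : u i * v j = u j * v i := by
  obtain ⟨w, hw⟩ := finrank_le_one_iff.mp h
  obtain ⟨c, hc⟩ := hw ⟨u, hu⟩
  obtain ⟨d, hd⟩ := hw ⟨v, hv⟩
  have hc' : c • (w : V) = u := by simpa using congrArg Subtype.val hc
  have hd' : d • (w : V) = v := by simpa using congrArg Subtype.val hd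
  rw [← hc', ← hd']
  simp only [PiLp.smul_apply, smul_eq_mul]
  ring

lemma two_le {D : Submodule ℝ V} {u v : V} (hu : u ∈ D) (hv : v ∈ D) (i j : Fin 3)
    (h : u i * v j ≠ u j * v i) : 2 ≤ Module.finrank ℝ D := by
  by_contra hlt
  exact h (minors (by omega) hu hv i j)

noncomputable def e1 : V := !₂[1, 0, 0]
noncomputable def e2 : V := !₂[0, 1, 0]
noncomputable def e3 : V := !₂[0, 0, 1]

lemma top_of {D : Submodule ℝ V} (h1 : e1 ∈ D) (h2 : e2 ∈ D) (h3 : e3 ∈ D) :
    Module.finrank ℝ D = 3 := by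
  have : D = ⊤ := by
    rw [eq_top_iff]
    intro x _
    have hx : x = x 0 • e1 + x 1 • e2 + x 2 • e3 := by
      ext k
      fin_cases k <;> simp [e1, e2, e3]
    rw [hx]
    exact D.add_mem (D.add_mem (D.smul_mem _ h1) (D.smul_mem _ h2)) (D.smul_mem _ h3)
  rw [this, finrank_top]
  simp

lemma e1_mem {E : AffineSubspace ℝ V} {i j : ℕ} (hi : A i ∈ E) (hj : A j ∈ E) (h : i ≠ j) :
    e1 ∈ E.direction := by
  have h1 := AffineSubspace.vsub_mem_direction hi hj
  have h2 : e1 = ((i : ℝ) - j)⁻¹ • (A i -ᵥ A j) := by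
    have : (i : ℝ) - j ≠ 0 := sub_ne_zero.mpr (by exact_mod_cast h)
    ext k
    fin_cases k <;> simp [e1, A, this]
  rw [h2]
  exact E.direction.smul_mem _ h1

lemma e2_mem {E : AffineSubspace ℝ V} {i j : ℕ} (hi : B i ∈ E) (hj : B j ∈ E) (h : i ≠ j) :
    e2 ∈ E.direction := by
  have h1 := AffineSubspace.vsub_mem_direction hi hj
  have h2 : e2 = ((i : ℝ) - j)⁻¹ • (B i -ᵥ B j) := by
    have : (i : ℝ) - j ≠ 0 := sub_ne_zero.mpr (by exact_mod_cast h)
    ext k
    fin_cases k <;> simp [e2, B, this]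
  rw [h2]
  exact E.direction.smul_mem _ h1

lemma A_of {E : AffineSubspace ℝ V} {i : ℕ} (hi : A i ∈ E) (h : e1 ∈ E.direction) (k : ℕ) :
    A k ∈ E := by
  have : A k = ((k : ℝ) - i) • e1 +ᵥ A i := by
    ext l
    fin_cases l <;> simp [e1, A]
  rw [this]
  exact AffineSubspace.vadd_mem_of_mem_direction (E.direction.smul_mem _ h) hi

lemma B_of {E : AffineSubspace ℝ V} {i : ℕ} (hi : B i ∈ E) (h : e2 ∈ E.direction) (k : ℕ) :
    B k ∈ E := by
  have : B k = ((k : ℝ) - i) • e2 +ᵥ B i := by
    ext l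
    fin_cases l <;> simp [e2, B]
    ring
  rw [this]
  exact AffineSubspace.vadd_mem_of_mem_direction (E.direction.smul_mem _ h) hi

lemma plane_eq {E : AffineSubspace ℝ V} (h : Module.finrank ℝ E.direction = 2) {X Y W : V}
    (hX : X ∈ E) (hY : Y ∈ E) (hW : W ∈ E) (i j : Fin 3)
    (hne : (Y i - X i) * (W j - X j) ≠ (Y j - X j) * (W i - X i)) :
    affineSpan ℝ {X, Y, W} = E := by
  have hle : affineSpan ℝ {X, Y, W} ≤ E := by
    rw [affineSpan_le]
    rintro x (rfl | rfl | rfl) <;> assumption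
  have hX' : X ∈ affineSpan ℝ ({X, Y, W} : Set V) := mem_affineSpan ℝ (by simp)
  have hY' : Y ∈ affineSpan ℝ ({X, Y, W} : Set V) := mem_affineSpan ℝ (by simp)
  have hW' : W ∈ affineSpan ℝ ({X, Y, W} : Set V) := mem_affineSpan ℝ (by simp)
  have h2 : 2 ≤ Module.finrank ℝ (affineSpan ℝ ({X, Y, W} : Set V)).direction := by
    refine two_le (AffineSubspace.vsub_mem_direction hY' hX')
      (AffineSubspace.vsub_mem_direction hW' hX') i j ?_
    simpa using hne
  have hdir : (affineSpan ℝ ({X, Y, W} : Set V)).direction = E.direction :=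
    Submodule.eq_of_le_of_finrank_le (AffineSubspace.direction_le hle) (by omega)
  exact AffineSubspace.eq_of_direction_eq_of_nonempty_of_le hdir ⟨X, hX'⟩ hle

/-! ### irreducibility -/

lemma irreducible (n : ℕ) (hn : 5 ≤ n) :
    ¬ ∃ r : ℕ, 2 ≤ r ∧ ∃ F : Fin r → AffineSubspace ℝ (EuclideanSpace ℝ (Fin 3)),
          (∀ i, ((F i : Set (EuclideanSpace ℝ (Fin 3)))).Nonempty) ∧
          ((PS n : Set (EuclideanSpace ℝ (Fin 3))) ⊆ ⋃ i, ((F i : Set (EuclideanSpace ℝ (Fin 3))))) ∧
          (∑ i, (Module.finrank ℝ (F i).direction + 1)) ≤ 3 + 1 := by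
  rintro ⟨r, hr, F, -, hcov, hsum⟩
  have hcov' : ∀ x ∈ PS n, ∃ i, x ∈ F i := by
    intro x hx
    simpa using hcov hx
  have hr4 : r ≤ 4 := by
    have : ∑ i : Fin r, 1 ≤ ∑ i, (Module.finrank ℝ (F i).direction + 1) :=
      Finset.sum_le_sum (fun i _ => by omega)
    simp at this
    omega
  -- two points on the first line in the same flat
  have : Nonempty (Fin r) := ⟨⟨0, by omega⟩⟩
  choose! c hc using hcov'
  obtain ⟨s, t, hst, hcst⟩ := Fintype.exists_ne_map_eq_of_card_lt
    (fun k : Fin (n + 1) => c (A k)) (by simp; omega)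
  obtain ⟨s', t', hst', hcst'⟩ := Fintype.exists_ne_map_eq_of_card_lt
    (fun k : Fin n => c (B k)) (by simp; omega)
  beta_reduce at hcst hcst'
  set i := c (A s) with hi
  set j := c (B s') with hj
  have hAs : A s ∈ F i := hc _ (A_mem s.2)
  have hAt : A t ∈ F i := by rw [hcst]; exact hc _ (A_mem t.2)
  have hBs : B s' ∈ F j := hc _ (B_mem s'.2)
  have hBt : B t' ∈ F j := by rw [hcst']; exact hc _ (B_mem t'.2)
  have h1 := e1_mem hAs hAt (fun h => hst (Fin.ext h))
  have h2 := e2_mem hBs hBt (fun h => hst' (Fin.ext h))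
  have pair : ∀ k l : Fin r, k ≠ l → (Module.finrank ℝ (F k).direction + 1) +
      (Module.finrank ℝ (F l).direction + 1) ≤ 4 := by
    intro k l hkl
    rw [← Finset.sum_pair hkl (f := fun i => Module.finrank ℝ (F i).direction + 1)]
    refine le_trans (Finset.sum_le_sum_of_subset (Finset.subset_univ _)) hsum
  have hi2 : 1 ≤ Module.finrank ℝ (F i).direction := by
    by_contra h0
    have h0' : Module.finrank ℝ (F i).direction = 0 := by omega
    rw [Submodule.finrank_eq_zero] at h0'
    rw [h0', Submodule.mem_bot] at h1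
    have := congrArg (fun v : V => v 0) h1
    simp [e1] at this
  have hj2 : 1 ≤ Module.finrank ℝ (F j).direction := by
    by_contra h0
    have h0' : Module.finrank ℝ (F j).direction = 0 := by omega
    rw [Submodule.finrank_eq_zero] at h0'
    rw [h0', Submodule.mem_bot] at h2
    have := congrArg (fun v : V => v 1) h2
    simp [e2] at this
  by_cases hij : i = j
  · have h3 : e3 ∈ (F i).direction := by
      have hBs' : B s' ∈ F i := by rw [hij]; exact hBs
      have h2' : e2 ∈ (F i).direction := by rw [hij]; exact h2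
      have hd := AffineSubspace.vsub_mem_direction hBs' hAs
      have : e3 = (B s' -ᵥ A s) + ((s : ℕ) : ℝ) • e1 + (-(((s' : ℕ) : ℝ) + 1)) • e2 := by
        ext k
        fin_cases k <;> simp [e1, e2, e3, A, B]
      rw [this]
      exact (F i).direction.add_mem ((F i).direction.add_mem hd ((F i).direction.smul_mem _ h1))
        ((F i).direction.smul_mem _ h2')
    have h4 : Module.finrank ℝ (F i).direction = 3 := top_of h1 (by rw [hij]; exact h2) h3
    obtain ⟨k, hk⟩ : ∃ k : Fin r, k ≠ i := by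
      have : Nontrivial (Fin r) := Fin.nontrivial_iff_two_le.mpr hr
      exact exists_ne i
    have := pair k i hk
    omega
  · have hp := pair i j hij
    have hZ := hc _ (Z_mem (n := n))
    by_cases hz1 : c Z = i
    · rw [hz1] at hZ
      have h5 : 2 ≤ Module.finrank ℝ (F i).direction :=
        two_le h1 (AffineSubspace.vsub_mem_direction hZ hAs) 0 2 (by simp [e1, Z, A])
      omega
    · by_cases hz2 : c Z = j
      · rw [hz2] at hZ
        have h5 : 2 ≤ Module.finrank ℝ (F j).direction :=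
          two_le h2 (AffineSubspace.vsub_mem_direction hZ hBs) 1 2 (by
          simp [e2, Z, B]; norm_num)
        omega
      · have h3 : ∑ k ∈ ({i, j, c Z} : Finset (Fin r)),
            (Module.finrank ℝ (F k).direction + 1) ≤ 4 :=
          le_trans (Finset.sum_le_sum_of_subset (Finset.subset_univ _)) hsum
        rw [Finset.sum_insert (by simp [hij, Ne.symm hz1]), Finset.sum_pair (Ne.symm hz2)] at h3
        omega

/-! ### the planes -/

noncomputable def g (n : ℕ) : (Fin n × Fin n) ⊕ (Fin (n + 1) ⊕ Fin (n + 1)) → AffineSubspace ℝ V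
  | Sum.inl (i, j) => affineSpan ℝ {A (i + 1), B j, Z}
  | Sum.inr (Sum.inl i) => affineSpan ℝ {B 0, B 1, A i}
  | Sum.inr (Sum.inr j) => if (j : ℕ) < n then affineSpan ℝ {A 0, A 1, B j}
      else affineSpan ℝ {A 0, A 1, Z}

lemma finrank_le_of_collinear {E : AffineSubspace ℝ V} {S : Set V} (h : affineSpan ℝ S = E)
    (hS : Collinear ℝ S) : Module.finrank ℝ E.direction ≤ 1 := by
  rw [← h, direction_affineSpan]
  exact collinear_iff_finrank_le_one.mp hS

lemma collinear_A {S : Set V} (h : ∀ x ∈ S, ∃ i, A i = x) : Collinear ℝ S := by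
  rw [collinear_iff_exists_forall_eq_smul_vadd]
  refine ⟨A 0, e1, ?_⟩
  intro x hx
  obtain ⟨i, rfl⟩ := h x hx
  refine ⟨i, ?_⟩
  ext l
  fin_cases l <;> simp [e1, A]

lemma collinear_B {S : Set V} (h : ∀ x ∈ S, ∃ i, B i = x) : Collinear ℝ S := by
  rw [collinear_iff_exists_forall_eq_smul_vadd]
  refine ⟨B 0, e2, ?_⟩
  intro x hx
  obtain ⟨i, rfl⟩ := h x hx
  refine ⟨i, ?_⟩
  ext l
  fin_cases l <;> simp [e2, B]

lemma planes_sub (n : ℕ) (hn : 5 ≤ n) {E : AffineSubspace ℝ V} {S : Set V}
    (hS : S ⊆ (PS n : Set V)) (hE : affineSpan ℝ S = E)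
    (hd : Module.finrank ℝ E.direction = 2) : E ∈ Set.range (g n) := by
  have hSE : ∀ x ∈ S, x ∈ E := fun x hx => by rw [← hE]; exact mem_affineSpan ℝ hx
  have hS' : ∀ x ∈ S, (∃ i, i < n + 1 ∧ A i = x) ∨ (∃ j, j < n ∧ B j = x) ∨ x = Z :=
    fun x hx => mem_PS.mp (hS hx)
  by_cases hA : ∃ i j, i ≠ j ∧ A i ∈ E ∧ A j ∈ E
  · obtain ⟨i, j, hij, hi, hj⟩ := hA
    have h1 := e1_mem hi hj hij
    have hall := A_of hi h1
    obtain ⟨x, hx, hxA⟩ : ∃ x ∈ S, ¬ ∃ i, A i = x := by
      by_contra hcon
      push Not at hcon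
      have := finrank_le_of_collinear hE (collinear_A hcon)
      omega
    rcases hS' x hx with ⟨k, _, hk⟩ | ⟨k, hk, rfl⟩ | rfl
    · exact absurd ⟨k, hk⟩ hxA
    · refine ⟨Sum.inr (Sum.inr ⟨k, by omega⟩), ?_⟩
      simp only [g, hk, if_true]
      exact plane_eq hd (hall 0) (hall 1) (hSE _ hx) 0 2 (by simp [A, B])
    · refine ⟨Sum.inr (Sum.inr ⟨n, by omega⟩), ?_⟩
      simp only [g, lt_irrefl, if_false]
      exact plane_eq hd (hall 0) (hall 1) (hSE _ hx) 0 2 (by simp [A, Z])
  by_cases hB : ∃ i j, i ≠ j ∧ B i ∈ E ∧ B j ∈ E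
  · obtain ⟨i, j, hij, hi, hj⟩ := hB
    have h2 := e2_mem hi hj hij
    have hall := B_of hi h2
    obtain ⟨x, hx, hxB⟩ : ∃ x ∈ S, ¬ ∃ i, B i = x := by
      by_contra hcon
      push Not at hcon
      have := finrank_le_of_collinear hE (collinear_B hcon)
      omega
    have key : ∀ k, k < n + 1 → A k ∈ E → E ∈ Set.range (g n) := by
      intro k hk hkE
      refine ⟨Sum.inr (Sum.inl ⟨k, hk⟩), ?_⟩
      simp only [g]
      exact plane_eq hd (hall 0) (hall 1) hkE 1 2 (by simp [A, B])
    rcases hS' x hx with ⟨k, hk, rfl⟩ | ⟨k, _, hk⟩ | rfl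
    · exact key k hk (hSE _ hx)
    · exact absurd ⟨k, hk⟩ hxB
    · apply key 0 (by omega)
      have hd1 := AffineSubspace.vsub_mem_direction (hSE _ hx) (hall 0)
      have : A 0 = ((-2 : ℝ) • (Z -ᵥ B 0) + (-2 : ℝ) • e2) +ᵥ Z := by
        ext l
        fin_cases l <;> (simp [e2, A, B, Z]; try norm_num)
      rw [this]
      exact AffineSubspace.vadd_mem_of_mem_direction
        (E.direction.add_mem (E.direction.smul_mem _ hd1) (E.direction.smul_mem _ h2)) (hSE _ hx)
  · push Not at hA hB
    obtain ⟨x, hx, i, hi, hxi⟩ : ∃ x ∈ S, ∃ i, i < n + 1 ∧ A i = x := by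
      by_contra hcon
      push Not at hcon
      have hcol : Collinear ℝ S := by
        by_cases hex : ∃ y ∈ S, ∃ j, j < n ∧ B j = y
        · obtain ⟨y, hy, j, hj, hyj⟩ := hex
          refine Collinear.subset ?_ (collinear_pair ℝ y Z)
          intro w hw
          rcases hS' w hw with ⟨k, hk, hk2⟩ | ⟨k, hk, hk2⟩ | rfl
          · exact absurd hk2 (hcon w hw k hk)
          · left
            rw [← hyj, ← hk2]
            by_contra hne
            exact hB k j (fun h => hne (by rw [h])) (by rw [hk2]; exact hSE _ hw)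
              (by rw [hyj]; exact hSE _ hy)
          · simp
        · push Not at hex
          refine Collinear.subset ?_ (collinear_singleton ℝ Z)
          intro w hw
          rcases hS' w hw with ⟨k, hk, hk2⟩ | ⟨k, hk, hk2⟩ | rfl
          · exact absurd hk2 (hcon w hw k hk)
          · exact absurd hk2 (hex w hw k hk)
          · simp
      have := finrank_le_of_collinear hE hcol
      omega
    obtain ⟨y, hy, j, hj, hyj⟩ : ∃ x ∈ S, ∃ i, i < n ∧ B i = x := by
      by_contra hcon
      push Not at hcon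
      have hcol : Collinear ℝ S := by
        refine Collinear.subset ?_ (collinear_pair ℝ x Z)
        intro w hw
        rcases hS' w hw with ⟨k, hk, hk2⟩ | ⟨k, hk, hk2⟩ | rfl
        · left
          rw [← hxi, ← hk2]
          by_contra hne
          exact hA k i (fun h => hne (by rw [h])) (by rw [hk2]; exact hSE _ hw)
            (by rw [hxi]; exact hSE _ hx)
        · exact absurd hk2 (hcon w hw k hk)
        · simp
      have := finrank_le_of_collinear hE hcol
      omega
    have hZ : Z ∈ S := by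
      by_contra hcon
      have hcol : Collinear ℝ S := by
        refine Collinear.subset ?_ (collinear_pair ℝ x y)
        intro w hw
        rcases hS' w hw with ⟨k, hk, hk2⟩ | ⟨k, hk, hk2⟩ | rfl
        · left
          rw [← hxi, ← hk2]
          by_contra hne
          exact hA k i (fun h => hne (by rw [h])) (by rw [hk2]; exact hSE _ hw)
            (by rw [hxi]; exact hSE _ hx)
        · right
          rw [Set.mem_singleton_iff, ← hyj, ← hk2]
          by_contra hne
          exact hB k j (fun h => hne (by rw [h])) (by rw [hk2]; exact hSE _ hw)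
            (by rw [hyj]; exact hSE _ hy)
        · exact absurd hw hcon
      have := finrank_le_of_collinear hE hcol
      omega
    have hxE : A i ∈ E := by rw [hxi]; exact hSE _ hx
    have hyE : B j ∈ E := by rw [hyj]; exact hSE _ hy
    have hZE := hSE _ hZ
    have hi0 : i ≠ 0 := by
      rintro rfl
      -- then the whole second line is in `E`
      have hd1 := AffineSubspace.vsub_mem_direction hZE hxE
      have hd2 := AffineSubspace.vsub_mem_direction hyE hxE
      have h2 : e2 ∈ E.direction := by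
        have : e2 = ((j : ℝ) + 1)⁻¹ • ((B j -ᵥ A 0) + (-(1 / 2) : ℝ) • (Z -ᵥ A 0)) := by
          have hj0 : (j : ℝ) + 1 ≠ 0 := by positivity
          ext l
          fin_cases l <;> simp [e2, A, B, Z, hj0]
        rw [this]
        exact E.direction.smul_mem _ (E.direction.add_mem hd2 (E.direction.smul_mem _ hd1))
      exact hB j (j + 1) (by omega) hyE (B_of hyE h2 _)
    obtain ⟨i', rfl⟩ : ∃ i', i = i' + 1 := ⟨i - 1, by omega⟩
    refine ⟨Sum.inl (⟨i', by omega⟩, ⟨j, hj⟩), ?_⟩
    simp only [g]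
    refine plane_eq hd hxE hyE hZE 1 2 ?_
    have hj0 : (j : ℝ) + 1 ≠ 0 := by positivity
    simp [A, B, Z, hj0]

/-! ### the lines -/

noncomputable def f (n : ℕ) : (Fin (n + 1) × Fin n) ⊕ (Fin (n + 1) ⊕ Fin n) → AffineSubspace ℝ V
  | Sum.inl (i, j) => affineSpan ℝ {A i, B j}
  | Sum.inr (Sum.inl i) => affineSpan ℝ {A i, Z}
  | Sum.inr (Sum.inr j) => affineSpan ℝ {B j, Z}

lemma finrank_pair {X Y : V} (h : X ≠ Y) :
    Module.finrank ℝ (affineSpan ℝ ({X, Y} : Set V)).direction = 1 := by
  rw [direction_affineSpan, vectorSpan_pair]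
  exact finrank_span_singleton (by rwa [ne_eq, vsub_eq_zero_iff_eq])

lemma A_ne_B (i j : ℕ) : A i ≠ B j := by
  intro h
  have := congrArg (fun v : V => v 2) h
  simp [A, B] at this

lemma A_ne_Z (i : ℕ) : A i ≠ Z := by
  intro h
  have := congrArg (fun v : V => v 2) h
  simp [A, Z] at this

lemma B_ne_Z (i : ℕ) : B i ≠ Z := by
  intro h
  have := congrArg (fun v : V => v 2) h
  simp [B, Z] at this

lemma col {E : AffineSubspace ℝ V} (h : Module.finrank ℝ E.direction = 1) {X Y W : V}
    (hX : X ∈ E) (hY : Y ∈ E) (hW : W ∈ E) (i j : Fin 3) :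
    (Y i - X i) * (W j - X j) = (Y j - X j) * (W i - X i) := by
  have := minors (D := E.direction) (by omega) (AffineSubspace.vsub_mem_direction hY hX)
      (AffineSubspace.vsub_mem_direction hW hX) i j
  simpa using this

lemma AAB {E : AffineSubspace ℝ V} (h : Module.finrank ℝ E.direction = 1) {i i' j : ℕ}
    (hX : A i ∈ E) (hY : A i' ∈ E) (hW : B j ∈ E) : i = i' := by
  have := col h hX hY hW 0 2
  simp [A, B] at this
  have h2 : (i' : ℝ) = i := by linarith
  exact_mod_cast h2.symm

lemma AAZ {E : AffineSubspace ℝ V} (h : Module.finrank ℝ E.direction = 1) {i i' : ℕ}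
    (hX : A i ∈ E) (hY : A i' ∈ E) (hW : Z ∈ E) : i = i' := by
  have := col h hX hY hW 0 2
  simp [A, Z] at this
  have h2 : (i' : ℝ) = i := by linarith
  exact_mod_cast h2.symm

lemma ABB {E : AffineSubspace ℝ V} (h : Module.finrank ℝ E.direction = 1) {i j j' : ℕ}
    (hX : B j ∈ E) (hY : B j' ∈ E) (hW : A i ∈ E) : j = j' := by
  have := col h hX hY hW 1 2
  simp [A, B] at this
  have h2 : (j' : ℝ) = j := by linarith
  exact_mod_cast h2.symm

lemma BBZ {E : AffineSubspace ℝ V} (h : Module.finrank ℝ E.direction = 1) {j j' : ℕ}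
    (hX : B j ∈ E) (hY : B j' ∈ E) (hW : Z ∈ E) : j = j' := by
  have := col h hX hY hW 1 2
  simp [B, Z] at this
  norm_num at this
  have h2 : (j' : ℝ) = j := by linarith
  exact_mod_cast h2.symm

lemma ABZ {E : AffineSubspace ℝ V} (h : Module.finrank ℝ E.direction = 1) {i j : ℕ}
    (hX : A i ∈ E) (hY : B j ∈ E) (hW : Z ∈ E) : False := by
  have := col h hX hY hW 1 2
  simp [A, B, Z] at this
  have h2 : (j : ℝ) + 1 > 0 := by positivity
  linarith

lemma f_inj (n : ℕ) : Function.Injective (f n) := by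
  have mA : ∀ X Y : V, X ∈ affineSpan ℝ ({X, Y} : Set V) := fun X Y => mem_affineSpan ℝ (by simp)
  have mB : ∀ X Y : V, Y ∈ affineSpan ℝ ({X, Y} : Set V) := fun X Y => mem_affineSpan ℝ (by simp)
  rintro (⟨i, j⟩ | i | j) (⟨i', j'⟩ | i' | j') h
  all_goals simp only [f] at h
  · have a1 := mA (A i) (B j)
    have a2 := mB (A i) (B j)
    have b1 := mA (A i') (B j')
    have b2 := mB (A i') (B j')
    rw [← h] at b1 b2
    have hd := finrank_pair (A_ne_B i j)
    have e1 := AAB hd a1 b1 a2
    have e2 := ABB hd a2 b2 a1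
    rw [Fin.ext e1, Fin.ext e2]
  · have a1 := mA (A i) (B j)
    have a2 := mB (A i) (B j)
    have b2 := mB (A i') Z
    rw [← h] at b2
    exact (ABZ (finrank_pair (A_ne_B i j)) a1 a2 b2).elim
  · have a1 := mA (A i) (B j)
    have a2 := mB (A i) (B j)
    have b2 := mB (B j') Z
    rw [← h] at b2
    exact (ABZ (finrank_pair (A_ne_B i j)) a1 a2 b2).elim
  · have a1 := mA (A i') (B j')
    have a2 := mB (A i') (B j')
    have b2 := mB (A i) Z
    rw [h] at b2
    exact (ABZ (finrank_pair (A_ne_B i' j')) a1 a2 b2).elim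
  · have a1 := mA (A i) Z
    have a2 := mB (A i) Z
    have b1 := mA (A i') Z
    rw [← h] at b1
    rw [Fin.ext (AAZ (finrank_pair (A_ne_Z i)) a1 b1 a2)]
  · have a1 := mA (A i) Z
    have a2 := mB (A i) Z
    have b1 := mA (B j') Z
    rw [← h] at b1
    exact (ABZ (finrank_pair (A_ne_Z i)) a1 b1 a2).elim
  · have a1 := mA (A i') (B j')
    have a2 := mB (A i') (B j')
    have b2 := mB (B j) Z
    rw [h] at b2
    exact (ABZ (finrank_pair (A_ne_B i' j')) a1 a2 b2).elim
  · have a1 := mA (A i') Z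
    have a2 := mB (A i') Z
    have b1 := mA (B j) Z
    rw [h] at b1
    exact (ABZ (finrank_pair (A_ne_Z i')) a1 b1 a2).elim
  · have a1 := mA (B j) Z
    have a2 := mB (B j) Z
    have b1 := mA (B j') Z
    rw [← h] at b1
    rw [Fin.ext (BBZ (finrank_pair (B_ne_Z j)) a1 b1 a2)]

/-- The negation of the preceding statement: For each d there is N such that any set of more than N points in R^d not coverable by at least two nonempty flats with ranks summing to at most d+1 spans at least as many hyperplanes as flats of rank d-1. -/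
theorem result :
    ¬ (∀ d : ℕ, ∃ N : ℕ, ∀ P : Finset (EuclideanSpace ℝ (Fin d)), N < P.card →
      (¬ ∃ r : ℕ, 2 ≤ r ∧ ∃ F : Fin r → AffineSubspace ℝ (EuclideanSpace ℝ (Fin d)),
          (∀ i, ((F i : Set (EuclideanSpace ℝ (Fin d)))).Nonempty) ∧
          ((P : Set (EuclideanSpace ℝ (Fin d))) ⊆ ⋃ i, ((F i : Set (EuclideanSpace ℝ (Fin d))))) ∧
          (∑ i, (Module.finrank ℝ (F i).direction + 1)) ≤ d + 1) →
      ({E : AffineSubspace ℝ (EuclideanSpace ℝ (Fin d)) |
          ∃ S : Set (EuclideanSpace ℝ (Fin d)), S ⊆ (P : Set (EuclideanSpace ℝ (Fin d))) ∧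
            S.Nonempty ∧ affineSpan ℝ S = E ∧
            Module.finrank ℝ E.direction + 1 = d - 1}.ncard
        ≤ {E : AffineSubspace ℝ (EuclideanSpace ℝ (Fin d)) |
          ∃ S : Set (EuclideanSpace ℝ (Fin d)), S ⊆ (P : Set (EuclideanSpace ℝ (Fin d))) ∧
            S.Nonempty ∧ affineSpan ℝ S = E ∧
            Module.finrank ℝ E.direction + 1 = d}.ncard)) := by
  intro h
  obtain ⟨N, hN⟩ := h 3
  set n := N + 5 with hn
  have h1 := hN (PS n) (lt_trans (by omega) (card_PS n)) (irreducible n (by omega))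
  -- few planes
  have h2 : {E : AffineSubspace ℝ (EuclideanSpace ℝ (Fin 3)) |
          ∃ S : Set (EuclideanSpace ℝ (Fin 3)), S ⊆ (PS n : Set (EuclideanSpace ℝ (Fin 3))) ∧
            S.Nonempty ∧ affineSpan ℝ S = E ∧
            Module.finrank ℝ E.direction + 1 = 3}.ncard ≤ n * n + (2 * n + 2) := by
    have hsub : {E : AffineSubspace ℝ (EuclideanSpace ℝ (Fin 3)) |
          ∃ S : Set (EuclideanSpace ℝ (Fin 3)), S ⊆ (PS n : Set (EuclideanSpace ℝ (Fin 3))) ∧
            S.Nonempty ∧ affineSpan ℝ S = E ∧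
            Module.finrank ℝ E.direction + 1 = 3} ⊆ Set.range (g n) := by
      rintro E ⟨S, hS, -, hE, hd⟩
      exact planes_sub n (by omega) hS hE (Nat.add_right_cancel (m := 1) hd)
    refine (Set.ncard_le_ncard hsub (Set.finite_range _)).trans ?_
    rw [← Set.image_univ]
    refine (Set.ncard_image_le Set.finite_univ).trans ?_
    rw [Set.ncard_univ, Nat.card_eq_fintype_card]
    simp
    omega
  -- many lines
  have h3 : (n + 1) * n + (2 * n + 1) ≤ {E : AffineSubspace ℝ (EuclideanSpace ℝ (Fin 3)) |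
          ∃ S : Set (EuclideanSpace ℝ (Fin 3)), S ⊆ (PS n : Set (EuclideanSpace ℝ (Fin 3))) ∧
            S.Nonempty ∧ affineSpan ℝ S = E ∧
            Module.finrank ℝ E.direction + 1 = 3 - 1}.ncard := by
    have hfin : {E : AffineSubspace ℝ (EuclideanSpace ℝ (Fin 3)) |
          ∃ S : Set (EuclideanSpace ℝ (Fin 3)), S ⊆ (PS n : Set (EuclideanSpace ℝ (Fin 3))) ∧
            S.Nonempty ∧ affineSpan ℝ S = E ∧
            Module.finrank ℝ E.direction + 1 = 3 - 1}.Finite := by
      refine Set.Finite.subset ((PS n).finite_toSet.finite_subsets.image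
        (fun S => affineSpan ℝ S)) ?_
      rintro E ⟨S, hS, -, hE, -⟩
      exact ⟨S, hS, hE⟩
    have hsub : Set.range (f n) ⊆ {E : AffineSubspace ℝ (EuclideanSpace ℝ (Fin 3)) |
          ∃ S : Set (EuclideanSpace ℝ (Fin 3)), S ⊆ (PS n : Set (EuclideanSpace ℝ (Fin 3))) ∧
            S.Nonempty ∧ affineSpan ℝ S = E ∧
            Module.finrank ℝ E.direction + 1 = 3 - 1} := by
      rintro E ⟨x, rfl⟩
      rcases x with (⟨i, j⟩ | i | j)
      · refine ⟨{A i, B j}, ?_, ⟨A i, by simp⟩, rfl, ?_⟩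
        · rintro x (rfl | rfl)
          · exact A_mem i.2
          · exact B_mem j.2
        · exact congrArg (· + 1) (finrank_pair (A_ne_B i j))
      · refine ⟨{A i, Z}, ?_, ⟨A i, by simp⟩, rfl, ?_⟩
        · rintro x (rfl | rfl)
          · exact A_mem i.2
          · exact Z_mem
        · exact congrArg (· + 1) (finrank_pair (A_ne_Z i))
      · refine ⟨{B j, Z}, ?_, ⟨B j, by simp⟩, rfl, ?_⟩
        · rintro x (rfl | rfl)
          · exact B_mem j.2
          · exact Z_mem
        · exact congrArg (· + 1) (finrank_pair (B_ne_Z j))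
    refine le_trans ?_ (Set.ncard_le_ncard hsub hfin)
    rw [← Set.image_univ, Set.ncard_image_of_injective _ (f_inj n), Set.ncard_univ,
      Nat.card_eq_fintype_card]
    simp
    omega
  have h4 := h3.trans (h1.trans h2)
  have h5 : (n + 1) * n = n * n + n := by ring
  omega

end Pool.Agent.S06236
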