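import Pool.Statements.S06244
import Pool.Agent.H903R2.HajosK6

set_option autoImplicit false
open Pool Pool.MP_659ca2_co

namespace Pool.Agent.S06244

/-- The negation of the preceding statement: For each k from 4 to 7, every k-critical finite graph can be built from K_k by Hajós joins and identifications of nonadjacent vertices so that every graph produced along the way is k-critical. -/
theorem result :
    ¬ (∀ k : ℕ, 4 ≤ k → k ≤ 7 →
  ∀ P : (n : ℕ) → SimpleGraph (Fin n) → Prop,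
    P k ⊤ →
    (∀ (n : ℕ) (G : SimpleGraph (Fin (n + 1))) (H : SimpleGraph (Fin n))
        (u v : Fin (n + 1)) (f : Fin (n + 1) → Fin n),
      P (n + 1) G → u ≠ v → ¬ G.Adj u v → Function.Surjective f →
      (∀ x y, f x = f y ↔ (x = y ∨ (x = u ∧ y = v) ∨ (x = v ∧ y = u))) →
      (∀ p q, H.Adj p q ↔ ∃ x y, G.Adj x y ∧ f x = p ∧ f y = q) →
      (H.Colorable k ∧ ¬ H.Colorable (k - 1) ∧
        (∀ e ∈ H.edgeSet, (H.deleteEdges {e}).Colorable (k - 1)) ∧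
        ∀ x, ∃ y, H.Adj x y) →
      P n H) →
    (∀ (a b m : ℕ) (G1 : SimpleGraph (Fin a)) (G2 : SimpleGraph (Fin b))
        (H : SimpleGraph (Fin m)) (x1 y1 : Fin a) (x2 y2 : Fin b)
        (f1 : Fin a → Fin m) (f2 : Fin b → Fin m),
      P a G1 → P b G2 → G1.Adj x1 y1 → G2.Adj x2 y2 →
      Function.Injective f1 → Function.Injective f2 →
      (∀ i j, f1 i = f2 j ↔ (i = x1 ∧ j = x2)) →
      (∀ p, (∃ i, f1 i = p) ∨ ∃ j, f2 j = p) →
      (∀ p q, H.Adj p q ↔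
        ((∃ i j, G1.Adj i j ∧ Sym2.mk (i, j) ≠ Sym2.mk (x1, y1) ∧ f1 i = p ∧ f1 j = q) ∨
         (∃ i j, G2.Adj i j ∧ Sym2.mk (i, j) ≠ Sym2.mk (x2, y2) ∧ f2 i = p ∧ f2 j = q) ∨
         Sym2.mk (p, q) = Sym2.mk (f1 y1, f2 y2))) →
      (H.Colorable k ∧ ¬ H.Colorable (k - 1) ∧
        (∀ e ∈ H.edgeSet, (H.deleteEdges {e}).Colorable (k - 1)) ∧
        ∀ x, ∃ y, H.Adj x y) →
      P m H) →
    ∀ (n : ℕ) (G : SimpleGraph (Fin n)),
      (G.Colorable k ∧ ¬ G.Colorable (k - 1) ∧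
        (∀ e ∈ G.edgeSet, (G.deleteEdges {e}).Colorable (k - 1)) ∧
        ∀ x, ∃ y, G.Adj x y) →
      P n G) := by
  intro h
  obtain ⟨h1, h2, h3⟩ := Pool.Agent.H903R2.Hajos.inv_closedLit 6 (by norm_num)
    Pool.Agent.H903R2.Hajos.K6.G (by norm_num) Pool.Agent.H903R2.Hajos.K6.flex
    Pool.Agent.H903R2.Hajos.K6.conn
  have h4 := h 6 (by norm_num) (by norm_num)
    (Pool.Agent.H903R2.Hajos.Inv 6 Pool.Agent.H903R2.Hajos.K6.G) h1 h2 h3 11
    Pool.Agent.H903R2.Hajos.K6.G Pool.Agent.H903R2.Hajos.K6.crit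
  exact h4.2.false SimpleGraph.Iso.refl

end Pool.Agent.S06244
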