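import Pool.Statements.S06281
import Pool.Agent.H156R2.Main

set_option autoImplicit false
open Pool Pool.MP_69459d_co

namespace Pool.Agent.S06281

open Finset Pool.Agent.H156R2

lemma p0_small (h : ℕ) (hh : 2 ^ 30 ≤ 2 * h) : p0 h ≤ 1 / 2 ^ 15 := by
  have h1 := p0_upper h
  have hp := p0_pos h
  have h2 : (2:ℝ) ^ 30 ≤ 2 * h := by exact_mod_cast hh
  have h3 : p0 h ^ 2 ≤ (1 / 2 ^ 15) ^ 2 := by
    have h4 : (2:ℝ) ^ 30 * p0 h ^ 2 ≤ 1 := by nlinarith [sq_nonneg (p0 h)]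
    have e : ((1:ℝ) / 2 ^ 15) ^ 2 = 1 / 2 ^ 30 := by norm_num
    rw [e, le_div_iff₀ (by positivity)]
    linarith
  exact le_of_sq_le_sq h3 (by positivity)

lemma assemble {ι : Type} [Fintype ι] [DecidableEq ι] (n M h : ℕ) (σ : ℝ) (H : ι → ι → ℤ)
    (hcι : Fintype.card ι = 2048 * M) (hHad : IsHad H (Fintype.card ι)) (hn : n = 4096 * M)
    (hM : 0 < M) (h1h : 1 ≤ h) (hle : 2 * h ≤ 4096 * M) (hσ : 0 < σ) (hσ2 : σ ^ 2 = 4096 * M)
    (hh : (2 * (h:ℝ)) = σ ^ 2 / 2 ^ 28) (hp : p0 h ≤ 1 / 2 ^ 15) :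
    ∃ A : Fin n → Fin n → ℤ, (∀ i j, A i j = 1 ∨ A i j = -1) ∧
      ∀ x : Fin n → ℤ, (∀ j, x j = 1 ∨ x j = -1) →
        ∃ i, (1 + 1 / 2 ^ 28) * σ < |((∑ j, A i j * x j : ℤ) : ℝ)| := by
  classical
  have hσι : σ ^ 2 = 2 * (Fintype.card ι : ℝ) := by
    rw [hσ2, hcι]; push_cast; ring
  have hcount := nf_count M hcι hM H hHad σ hσ hσι
  have hcardK : Fintype.card (Fin (4096 * M - 2 * h) ⊕ Fin (2 * h)) = Fintype.card (ι ⊕ ι) := by
    rw [Fintype.card_sum, Fintype.card_fin, Fintype.card_fin, Fintype.card_sum, hcι]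
    omega
  obtain ⟨f⟩ : Nonempty ((Fin (4096 * M - 2 * h) ⊕ Fin (2 * h)) ≃ (ι ⊕ ι)) :=
    Fintype.card_eq.mp hcardK
  have hD := dbl_isHad H _ hHad
  have h2c : 2 * Fintype.card ι = 4096 * M := by rw [hcι]; ring
  rw [h2c] at hD
  have hA := isHad_transport _ _ hD (Equiv.refl (ι ⊕ ι)) f
  have hI : Fintype.card (ι ⊕ ι) = 4096 * M := by
    rw [Fintype.card_sum, hcι]; ring
  have hK : Fintype.card (Fin (4096 * M - 2 * h)) + 2 * h = 4096 * M := by
    rw [Fintype.card_fin]; omega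
  have hNF : (univ.filter (fun x : Fin (4096 * M - 2 * h) ⊕ Fin (2 * h) → Bool =>
      (1 - 3 / 2 ^ 14) * (4096 * M) * σ ≤
        ∑ i : ι ⊕ ι, |∑ j, (dbl H (Equiv.refl (ι ⊕ ι) i) (f j) : ℝ) * sg (x j)|)).card
      ≤ 2 ^ (3456 * M) := by
    refine le_trans ?_ hcount
    apply Finset.card_le_card_of_injOn (fun x => x ∘ f.symm)
    · intro x hx
      have hx' := (Finset.mem_filter.mp hx).2
      simp only [coe_filter, mem_univ, true_and, Set.mem_ofPred_eq]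
      unfold NF
      have e1 : (2 * (Fintype.card ι : ℝ)) = 4096 * M := by exact_mod_cast h2c
      rw [e1]
      refine hx'.trans (le_of_eq ?_)
      apply Finset.sum_congr rfl
      intro i _
      congr 1
      rw [← Equiv.sum_comp f]
      simp
    · intro x _ x' _ hxx
      funext j
      have := congrFun hxx (f j)
      simpa using this
  obtain ⟨R, hR⟩ := main_exists (I := ι ⊕ ι) (K := Fin (4096 * M - 2 * h)) h M hM h1h
    (fun i j => dbl H (Equiv.refl (ι ⊕ ι) i) (f j)) hA hI hK σ hσ hσ2 hh hp (by convert hNF)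
  -- final matrix
  obtain ⟨e⟩ : Nonempty (Fin n ≃ (ι ⊕ ι)) := by
    apply Fintype.card_eq.mp
    rw [Fintype.card_fin, hI, hn]
  obtain ⟨g⟩ : Nonempty (Fin n ≃ (Fin (4096 * M - 2 * h) ⊕ Fin (2 * h))) := by
    apply Fintype.card_eq.mp
    rw [Fintype.card_fin, hcardK, hI, hn]
  refine ⟨fun i j => Sum.elim (fun j' => dbl H (e i) (f (Sum.inl j')))
    (fun j' => if R (e i) j' then -1 else 1) (g j), ?_, ?_⟩
  · intro i j
    rcases hgj : g j with j' | j'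
    · beta_reduce
      rw [hgj, Sum.elim_inl]
      exact hD.1 _ _
    · beta_reduce
      rw [hgj, Sum.elim_inr]
      split_ifs
      · right; rfl
      · left; rfl
  · intro x hx
    obtain ⟨xb, hxb⟩ : ∃ xb : Fin (4096 * M - 2 * h) ⊕ Fin (2 * h) → Bool,
      xb = fun j => decide (x (g.symm j) = -1) := ⟨_, rfl⟩
    have hsg : ∀ j, sg (xb j) = (x (g.symm j) : ℝ) := by
      intro j
      rw [hxb]
      rcases hx (g.symm j) with h | h
      · simp [sg, h]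
      · simp [sg, h]
    obtain ⟨i, hi⟩ := hR xb
    refine ⟨e.symm i, ?_⟩
    refine hi.trans_le (le_of_eq ?_)
    congr 1
    rw [← Equiv.sum_comp g.symm, Fintype.sum_sum_type]
    push_cast
    congr 1
    · unfold cc
      apply Finset.sum_congr rfl
      intro j _
      rw [hsg]
      simp
    · apply Finset.sum_congr rfl
      intro j _
      rw [hsg]
      simp [sg]

lemma exists_matrix (k : ℕ) : ∃ A : Fin (4 ^ (k + 29)) → Fin (4 ^ (k + 29)) → ℤ,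
    (∀ i j, A i j = 1 ∨ A i j = -1) ∧
      ∀ x : Fin (4 ^ (k + 29)) → ℤ, (∀ j, x j = 1 ∨ x j = -1) →
        ∃ i, (1 + 1 / 2 ^ 28) * Real.sqrt ((4 ^ (k + 29) : ℕ) : ℝ)
          < |((∑ j, A i j * x j : ℤ) : ℝ)| := by
  -- sizes
  obtain ⟨n, hndef⟩ : ∃ n : ℕ, n = 4 ^ (k + 29) := ⟨_, rfl⟩
  obtain ⟨M, hMdef⟩ : ∃ M : ℕ, M = 4 ^ (k + 23) := ⟨_, rfl⟩
  obtain ⟨h, hhdef⟩ : ∃ h : ℕ, h = 2 * 4 ^ (k + 14) := ⟨_, rfl⟩
  obtain ⟨σ, hσdef⟩ : ∃ σ : ℝ, σ = 2 ^ (k + 29) := ⟨_, rfl⟩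
  have hn : n = 4096 * M := by
    rw [hndef, hMdef, show k + 29 = (k + 23) + 6 by ring, pow_add]; ring
  have hM : 0 < M := by rw [hMdef]; positivity
  have h1h : 1 ≤ h := by rw [hhdef]; exact Nat.one_le_iff_ne_zero.mpr (by positivity)
  have h2h : 2 * h = 4 ^ (k + 15) := by
    rw [hhdef, show k + 15 = (k + 14) + 1 by ring, pow_succ]; ring
  have hσ : 0 < σ := by rw [hσdef]; positivity
  have hσn : σ ^ 2 = (n : ℝ) := by
    rw [hσdef, hndef, ← pow_mul, mul_comm, pow_mul]; push_cast; norm_num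
  have hσ2 : σ ^ 2 = 4096 * M := by
    rw [hσn, hn]; push_cast; ring
  have hh : (2 * (h:ℝ)) = σ ^ 2 / 2 ^ 28 := by
    have h1 : (2 * (h:ℝ)) = 4 ^ (k + 15) := by exact_mod_cast h2h
    rw [h1, hσn, hndef]
    push_cast
    rw [show k + 29 = (k + 15) + 14 by ring, pow_add]
    norm_num
    ring
  have hp : p0 h ≤ 1 / 2 ^ 15 := by
    apply p0_small
    rw [h2h]
    calc (2:ℕ) ^ 30 = 4 ^ 15 := by norm_num
      _ ≤ 4 ^ (k + 15) := Nat.pow_le_pow_right (by norm_num) (by omega)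
  have hle : 2 * h ≤ 4096 * M := by
    rw [← hn, h2h, hndef]
    exact Nat.pow_le_pow_right (by norm_num) (by omega)
  -- Hadamard
  obtain ⟨H, hH⟩ := exists_had (2 * k + 57)
  have hcι : Fintype.card (Fin (2 ^ (2 * k + 57))) = 2048 * M := by
    rw [Fintype.card_fin, hMdef, show 2 * k + 57 = 11 + 2 * (k + 23) by ring, pow_add, pow_mul]
    norm_num
  have hHad : IsHad H (Fintype.card (Fin (2 ^ (2 * k + 57)))) := by
    rw [Fintype.card_fin]; exact hH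
  have main := assemble n M h σ H hcι hHad hn hM h1h hle hσ hσ2 hh hp
  have hsqrt : Real.sqrt (n : ℝ) = σ := by
    rw [← hσn]; exact Real.sqrt_sq hσ.le
  rw [← hndef, hsqrt]
  exact main

/-- There is c > 1 such that for infinitely many n some n×n ±1 matrix A has, for every ±1 vector x, a coordinate of Ax exceeding c√n in absolute value; equivalently, limsup of max disc(A)/√n is > 1. -/
theorem result :
    ∃ c : ℝ, 1 < c ∧ ∀ N : ℕ, ∃ n : ℕ, N ≤ n ∧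
      ∃ A : Fin n → Fin n → ℤ, (∀ i j, A i j = 1 ∨ A i j = -1) ∧
        ∀ x : Fin n → ℤ, (∀ j, x j = 1 ∨ x j = -1) →
          ∃ i : Fin n, c * Real.sqrt (n : ℝ) < |((∑ j, A i j * x j : ℤ) : ℝ)| := by
  refine ⟨1 + 1 / 2 ^ 28, by norm_num, ?_⟩
  intro N
  refine ⟨4 ^ (N + 29), ?_, exists_matrix N⟩
  have h1 : N < 4 ^ N := Nat.lt_pow_self (by norm_num)
  have h2 : 4 ^ N ≤ 4 ^ (N + 29) := Nat.pow_le_pow_right (by norm_num) (by omega)
  omega

end Pool.Agent.S06281
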