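import Pool.Statements.S06285
import Pool.Agent.H249R2.PM.Final

set_option autoImplicit false
open Pool Pool.MP_69964d_co

namespace Pool.Agent.S06285

/-- There is c>0 such that for every n≥1, every convex combination B of perfect-matching adjacency matrices on 2n vertices has hafnian at least c^n, i.e. the minimal hafnian over the perfect matching polytope decays at most exponentially. -/
theorem result :
    ∃ c : ℝ, 0 < c ∧ ∀ n : ℕ, 1 ≤ n →
      ∀ B ∈ convexHull ℝ
          {M : Matrix (Fin n × Fin 2) (Fin n × Fin 2) ℝ |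
            ∃ f : Fin n × Fin 2 → Fin n × Fin 2,
              (∀ i, f i ≠ i ∧ f (f i) = i) ∧
              M = Matrix.of (fun i j => if f i = j then (1 : ℝ) else 0)},
        c ^ n ≤ (1 / ((n.factorial : ℝ) * 2 ^ n)) *
          ∑ σ : Equiv.Perm (Fin n × Fin 2), ∏ k : Fin n, B (σ (k, 0)) (σ (k, 1)) := by
  refine ⟨(1 / 2) ^ 12, by positivity, fun n hn B hB => ?_⟩
  rw [← pow_mul]
  exact Pool.Agent.H249R2.PM.main hn hB

end Pool.Agent.S06285
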