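import Pool.Statements.S06308
-- import your own Pool.Agent.* helpers here

set_option autoImplicit false
open Pool Pool.MP_6b5009_co

namespace Pool.Agent.S06308

/-- The graph `H`: three pentagons `5 i, …, 5 i + 4` and a further vertex `15` joined to `0, 5, 10`. -/
def hb (u v : Fin 16) : Bool :=
  (u.val < 15 && v.val < 15 && u.val / 5 == v.val / 5 &&
    ((u.val % 5 + 1) % 5 == v.val % 5 || (v.val % 5 + 1) % 5 == u.val % 5)) ||
  (u.val == 15 && (v.val == 0 || v.val == 5 || v.val == 10)) ||
  (v.val == 15 && (u.val == 0 || u.val == 5 || u.val == 10))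

/-- `G` is the complement of `H`. -/
def G : SimpleGraph (Fin 16) where
  Adj u v := u ≠ v ∧ hb u v = false
  symm := ⟨by decide⟩
  loopless := ⟨by intro v h; exact h.1 rfl⟩

lemma no_triangle : ∀ a b c : Fin 16, a ≠ b → a ≠ c → b ≠ c →
    hb a b = true → hb a c = true → hb b c = false := by decide +kernel

/-- Every independent set of `G` has at most two vertices. -/
lemma card_le_two (s : Finset (Fin 16)) (hs : ∀ u ∈ s, ∀ v ∈ s, ¬ G.Adj u v) : s.card ≤ 2 := by
  by_contra hcon
  have h3 : 2 < s.card := by omega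
  obtain ⟨a, b, c, ha, hb', hc, hab, hac, hbc⟩ := Finset.two_lt_card_iff.mp h3
  have key : ∀ u ∈ s, ∀ v ∈ s, u ≠ v → hb u v = true := by
    intro u hu v hv huv
    by_contra h
    exact hs u hu v hv ⟨huv, by simpa using h⟩
  have h1 := no_triangle a b c hab hac hbc (key a ha b hb' hab) (key a ha c hc hac)
  rw [key b hb' c hc hbc] at h1
  exact absurd h1 (by decide)

lemma indepNum_eq : G.indepNum = 2 := by
  apply le_antisymm
  · obtain ⟨s, hs⟩ := G.exists_isNIndepSet_indepNum
    rw [← hs.card_eq]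
    apply card_le_two
    intro u hu v hv huv
    exact hs.isIndepSet hu hv huv.1 huv
  · have h : G.IsIndepSet (({0, 1} : Finset (Fin 16)) : Set (Fin 16)) := by
      intro u hu v hv huv hadj
      have : hb u v = true := by
        simp only [Finset.coe_insert, Finset.coe_singleton, Set.mem_insert_iff,
          Set.mem_singleton_iff] at hu hv
        rcases hu with rfl | rfl <;> rcases hv with rfl | rfl
        · exact absurd rfl huv
        · decide
        · decide
        · exact absurd rfl huv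
      have h2 : hb u v = false := hadj.2
      rw [this] at h2
      exact absurd h2 (by decide)
    have := h.card_le_indepNum
    simpa using this

/-- double counting for multifold colourings -/
lemma sum_classes {m k : ℕ} (f : Fin 16 → Finset (Fin m)) (hf : ∀ v, (f v).card = k) :
    ∑ c : Fin m, (Finset.univ.filter (fun v => c ∈ f v)).card = 16 * k := by
  have h := Finset.sum_card_bipartiteAbove_eq_sum_card_bipartiteBelow
    (s := (Finset.univ : Finset (Fin m))) (t := (Finset.univ : Finset (Fin 16)))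
    (fun c v => c ∈ f v)
  simp only [Finset.bipartiteAbove, Finset.bipartiteBelow] at h
  rw [h]
  have : ∀ v : Fin 16, (Finset.univ.filter (fun c => c ∈ f v)).card = k := by
    intro v
    rw [← hf v]
    congr 1
    ext c
    simp
  rw [Finset.sum_congr rfl (fun v _ => this v)]
  simp

lemma class_le {m : ℕ} (f : Fin 16 → Finset (Fin m))
    (hd : ∀ u v, G.Adj u v → Disjoint (f u) (f v)) (c : Fin m) :
    (Finset.univ.filter (fun v => c ∈ f v)).card ≤ 2 := by
  apply card_le_two
  intro u hu v hv hadj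
  have h1 : c ∈ f u := (Finset.mem_filter.mp hu).2
  have h2 : c ∈ f v := (Finset.mem_filter.mp hv).2
  exact (Finset.disjoint_left.mp (hd u v hadj)) h1 h2

lemma lower {m k : ℕ} (f : Fin 16 → Finset (Fin m)) (hf : ∀ v, (f v).card = k)
    (hd : ∀ u v, G.Adj u v → Disjoint (f u) (f v)) : 8 * k ≤ m := by
  have h1 := sum_classes f hf
  have h2 : ∑ c : Fin m, (Finset.univ.filter (fun v => c ∈ f v)).card ≤ ∑ _c : Fin m, 2 :=
    Finset.sum_le_sum fun c _ => class_le f hd c
  simp only [Finset.sum_const, Finset.card_univ, Fintype.card_fin, smul_eq_mul] at h2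
  omega

/-- the sixteen colour classes of a 2-fold colouring -/
def p2 : Fin 16 → Fin 16 × Fin 16 :=
  ![(15, 0), (15, 0), (1, 2), (1, 2), (3, 4), (3, 4),
    (5, 6), (6, 7), (7, 8), (8, 9), (9, 5),
    (10, 11), (11, 12), (12, 13), (13, 14), (14, 10)]

def g2 (v : Fin 16) : Finset (Fin 16) :=
  Finset.univ.filter (fun c => (p2 c).1 = v ∨ (p2 c).2 = v)

lemma g2_card : ∀ v, (g2 v).card = 2 := by decide +kernel

lemma g2_adj : ∀ u v, G.Adj u v → Disjoint (g2 u) (g2 v) := by
  have h : ∀ u v : Fin 16, u ≠ v → hb u v = false → ∀ c : Fin 16, c ∈ g2 u → c ∉ g2 v := by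
    decide +kernel
  intro u v hadj
  rw [Finset.disjoint_left]
  exact h u v hadj.1 hadj.2

/-- the twenty-four colour classes of a 3-fold colouring -/
def p3 : Fin 24 → Fin 16 × Fin 16 :=
  ![(15, 0), (15, 5), (15, 10),
    (0, 1), (4, 0), (1, 2), (1, 2), (3, 4), (3, 4), (2, 3),
    (5, 6), (9, 5), (6, 7), (6, 7), (8, 9), (8, 9), (7, 8),
    (10, 11), (14, 10), (11, 12), (11, 12), (13, 14), (13, 14), (12, 13)]

def g3 (v : Fin 16) : Finset (Fin 24) :=
  Finset.univ.filter (fun c => (p3 c).1 = v ∨ (p3 c).2 = v)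

lemma g3_card : ∀ v, (g3 v).card = 3 := by decide +kernel

lemma g3_adj : ∀ u v, G.Adj u v → Disjoint (g3 u) (g3 v) := by
  have h : ∀ u v : Fin 16, u ≠ v → hb u v = false → ∀ c : Fin 24, c ∈ g3 u → c ∉ g3 v := by
    decide +kernel
  intro u v hadj
  rw [Finset.disjoint_left]
  exact h u v hadj.1 hadj.2

lemma sInf_two : sInf {m : ℕ | ∃ g : Fin 16 → Finset (Fin m),
    (∀ v, (g v).card = 2) ∧ ∀ u v, G.Adj u v → Disjoint (g u) (g v)} = 16 := by
  apply le_antisymm
  · exact Nat.sInf_le ⟨g2, g2_card, g2_adj⟩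
  · refine le_csInf ?_ ?_
    · exact ⟨16, g2, g2_card, g2_adj⟩
    · rintro m ⟨g, h1, h2⟩
      have := lower g h1 h2
      omega

lemma sInf_three : sInf {m : ℕ | ∃ g : Fin 16 → Finset (Fin m),
    (∀ v, (g v).card = 3) ∧ ∀ u v, G.Adj u v → Disjoint (g u) (g v)} ≤ 24 :=
  Nat.sInf_le ⟨g3, g3_card, g3_adj⟩

/-- a pentagon has no perfect matching -/
lemma pent {α : Type} (a b c d e : α) (hac : a ≠ c) (hbd : b ≠ d) (hce : c ≠ e) (hda : d ≠ a)
    (heb : e ≠ b) (h1 : b = a ∨ b = c) (h2 : c = b ∨ c = d) (h3 : d = c ∨ d = e)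
    (h4 : e = d ∨ e = a) (h0 : a = e ∨ a = b) : False := by
  rcases h1 with h1 | h1
  · rcases h2 with h2 | h2
    · exact hac (h1 ▸ h2.symm)
    · rcases h4 with h4 | h4
      · exact hce (by rw [h2, h4])
      · exact heb (by rw [h4, h1])
  · rcases h0 with h0 | h0
    · rcases h3 with h3 | h3
      · exact hbd (by rw [h1, h3])
      · exact hda (by rw [h3, h0])
    · exact hac (by rw [h0, h1])

lemma not_colorable_eight : ¬ G.Colorable 8 := by
  rintro ⟨C⟩
  -- the classes
  have hle : ∀ c : Fin 8, (Finset.univ.filter (fun v => C v = c)).card ≤ 2 := by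
    intro c
    apply card_le_two
    intro u hu v hv hadj
    have h1 : C u = c := (Finset.mem_filter.mp hu).2
    have h2 : C v = c := (Finset.mem_filter.mp hv).2
    exact C.valid hadj (h1.trans h2.symm)
  have hsum : ∑ c : Fin 8, (Finset.univ.filter (fun v => C v = c)).card = 16 := by
    rw [← Finset.card_eq_sum_card_fiberwise (s := (Finset.univ : Finset (Fin 16)))
      (t := (Finset.univ : Finset (Fin 8))) (f := C) (by intro x _; simp)]
    simp
  have heq : ∀ c : Fin 8, (Finset.univ.filter (fun v => C v = c)).card = 2 := by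
    by_contra hcon
    push Not at hcon
    obtain ⟨c, hc⟩ := hcon
    have hlt : ∑ c : Fin 8, (Finset.univ.filter (fun v => C v = c)).card < ∑ _c : Fin 8, 2 :=
      Finset.sum_lt_sum (fun c _ => hle c) ⟨c, Finset.mem_univ _, lt_of_le_of_ne (hle c) hc⟩
    rw [hsum] at hlt
    simp at hlt
  -- every vertex has a mate
  have hmate : ∀ v : Fin 16, ∃ w : Fin 16, w ≠ v ∧ C w = C v := by
    intro v
    have hcard := heq (C v)
    have hv : v ∈ Finset.univ.filter (fun w => C w = C v) := by simp
    obtain ⟨w, hw, hwv⟩ := Finset.exists_mem_ne (s := Finset.univ.filter (fun w => C w = C v))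
      (by omega) v
    exact ⟨w, hwv, (Finset.mem_filter.mp hw).2⟩
  have hne : ∀ u v : Fin 16, u ≠ v → hb u v = false → C u ≠ C v := fun u v h1 h2 =>
    C.valid (show G.Adj u v from ⟨h1, h2⟩)
  have hm : ∀ v : Fin 16, ∃ w : Fin 16, hb v w = true ∧ C w = C v := by
    intro v
    obtain ⟨w, hw, hc⟩ := hmate v
    refine ⟨w, ?_, hc⟩
    by_contra h
    exact hne w v hw (by
      have h' : hb v w = false := by simpa using h
      have hs : ∀ u v : Fin 16, hb u v = hb v u := by decide +kernel
      rw [hs, h']) hc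
  have nb : ∀ v w : Fin 16, hb v w = true → v.val < 15 →
      (w.val = 15 ∧ v.val % 5 = 0) ∨ (w.val / 5 = v.val / 5 ∧
        ((v.val % 5 + 1) % 5 = w.val % 5 ∨ (w.val % 5 + 1) % 5 = v.val % 5)) := by
    decide +kernel
  have nb1 : ∀ w : Fin 16, hb 1 w = true → w = 0 ∨ w = 2 := by decide +kernel
  have nb2 : ∀ w : Fin 16, hb 2 w = true → w = 1 ∨ w = 3 := by decide +kernel
  have nb3 : ∀ w : Fin 16, hb 3 w = true → w = 2 ∨ w = 4 := by decide +kernel
  have nb4 : ∀ w : Fin 16, hb 4 w = true → w = 3 ∨ w = 0 := by decide +kernel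
  have nb0 : ∀ w : Fin 16, hb 0 w = true → w = 4 ∨ w = 1 ∨ w = 15 := by decide +kernel
  have nb6 : ∀ w : Fin 16, hb 6 w = true → w = 5 ∨ w = 7 := by decide +kernel
  have nb7 : ∀ w : Fin 16, hb 7 w = true → w = 6 ∨ w = 8 := by decide +kernel
  have nb8 : ∀ w : Fin 16, hb 8 w = true → w = 7 ∨ w = 9 := by decide +kernel
  have nb9 : ∀ w : Fin 16, hb 9 w = true → w = 8 ∨ w = 5 := by decide +kernel
  have nb5 : ∀ w : Fin 16, hb 5 w = true → w = 9 ∨ w = 6 ∨ w = 15 := by decide +kernel
  have first : C 15 = C 0 := by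
    by_contra h15
    refine pent (C 0) (C 1) (C 2) (C 3) (C 4) (hne _ _ (by decide) (by decide))
      (hne _ _ (by decide) (by decide)) (hne _ _ (by decide) (by decide))
      (hne _ _ (by decide) (by decide)) (hne _ _ (by decide) (by decide)) ?_ ?_ ?_ ?_ ?_
    · obtain ⟨w, h1, h2⟩ := hm 1
      rcases nb1 w h1 with rfl | rfl
      · exact Or.inl h2.symm
      · exact Or.inr h2.symm
    · obtain ⟨w, h1, h2⟩ := hm 2
      rcases nb2 w h1 with rfl | rfl
      · exact Or.inl h2.symm
      · exact Or.inr h2.symm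
    · obtain ⟨w, h1, h2⟩ := hm 3
      rcases nb3 w h1 with rfl | rfl
      · exact Or.inl h2.symm
      · exact Or.inr h2.symm
    · obtain ⟨w, h1, h2⟩ := hm 4
      rcases nb4 w h1 with rfl | rfl
      · exact Or.inl h2.symm
      · exact Or.inr h2.symm
    · obtain ⟨w, h1, h2⟩ := hm 0
      rcases nb0 w h1 with rfl | rfl | rfl
      · exact Or.inl h2.symm
      · exact Or.inr h2.symm
      · exact absurd h2 h15
  have second : C 15 = C 5 := by
    by_contra h15
    refine pent (C 5) (C 6) (C 7) (C 8) (C 9) (hne _ _ (by decide) (by decide))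
      (hne _ _ (by decide) (by decide)) (hne _ _ (by decide) (by decide))
      (hne _ _ (by decide) (by decide)) (hne _ _ (by decide) (by decide)) ?_ ?_ ?_ ?_ ?_
    · obtain ⟨w, h1, h2⟩ := hm 6
      rcases nb6 w h1 with rfl | rfl
      · exact Or.inl h2.symm
      · exact Or.inr h2.symm
    · obtain ⟨w, h1, h2⟩ := hm 7
      rcases nb7 w h1 with rfl | rfl
      · exact Or.inl h2.symm
      · exact Or.inr h2.symm
    · obtain ⟨w, h1, h2⟩ := hm 8
      rcases nb8 w h1 with rfl | rfl
      · exact Or.inl h2.symm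
      · exact Or.inr h2.symm
    · obtain ⟨w, h1, h2⟩ := hm 9
      rcases nb9 w h1 with rfl | rfl
      · exact Or.inl h2.symm
      · exact Or.inr h2.symm
    · obtain ⟨w, h1, h2⟩ := hm 5
      rcases nb5 w h1 with rfl | rfl | rfl
      · exact Or.inl h2.symm
      · exact Or.inr h2.symm
      · exact absurd h2 h15
  exact hne 0 5 (by decide) (by decide) (first.symm.trans second)

/-- The negation of the preceding statement: For every finite graph G and k ≥ 1: if every k-fold coloring of G using the minimum number of colors uses each color on exactly α(G) vertices, then the (k+1)-fold chromatic number equals the k-fold chromatic number plus the chromatic number. -/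
theorem result :
    ¬ (∀ (n : ℕ) (G : SimpleGraph (Fin n)) (k : ℕ), 1 ≤ k →
      (∀ f : Fin n → Finset (Fin (sInf {m : ℕ | ∃ g : Fin n → Finset (Fin m),
            (∀ v, (g v).card = k) ∧ ∀ u v, G.Adj u v → Disjoint (g u) (g v)})),
          (∀ v, (f v).card = k) →
          (∀ u v, G.Adj u v → Disjoint (f u) (f v)) →
          ∀ c, (Finset.univ.filter (fun v => c ∈ f v)).card = G.indepNum) →
      ((sInf {m : ℕ | ∃ g : Fin n → Finset (Fin m),
            (∀ v, (g v).card = k + 1) ∧ ∀ u v, G.Adj u v → Disjoint (g u) (g v)} : ℕ) : ℕ∞)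
        = ((sInf {m : ℕ | ∃ g : Fin n → Finset (Fin m),
            (∀ v, (g v).card = k) ∧ ∀ u v, G.Adj u v → Disjoint (g u) (g v)} : ℕ) : ℕ∞)
          + G.chromaticNumber) := by
  intro hmain
  have h := hmain 16 G 2 (by norm_num) ?_
  · rw [sInf_two] at h
    have h3 := sInf_three
    have h9 : (9 : ℕ∞) ≤ G.chromaticNumber := by
      by_contra hlt
      rw [not_le] at hlt
      apply not_colorable_eight
      rw [← SimpleGraph.chromaticNumber_le_iff_colorable]
      have h89 : (9 : ℕ∞) = ((8 : ℕ) : ℕ∞) + 1 := by norm_num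
      rw [h89] at hlt
      exact Order.le_of_lt_add_one hlt
    have h4 : ((sInf {m : ℕ | ∃ g : Fin 16 → Finset (Fin m),
        (∀ v, (g v).card = 2 + 1) ∧ ∀ u v, G.Adj u v → Disjoint (g u) (g v)} : ℕ) : ℕ∞)
        ≤ ((24 : ℕ) : ℕ∞) := by
      exact_mod_cast h3
    rw [h] at h4
    have h5 : (((16 : ℕ) : ℕ∞) + 9) ≤ ((16 : ℕ) : ℕ∞) + G.chromaticNumber := by gcongr
    have h6 := h5.trans h4
    exact absurd h6 (by decide)
  · intro f hf hd c
    rw [indepNum_eq]
    have h1 := sum_classes f hf
    have h2 := fun c => class_le f hd c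
    by_contra hne
    have hlt : ∑ c, (Finset.univ.filter (fun v => c ∈ f v)).card <
        ∑ _c : Fin (sInf {m : ℕ | ∃ g : Fin 16 → Finset (Fin m),
            (∀ v, (g v).card = 2) ∧ ∀ u v, G.Adj u v → Disjoint (g u) (g v)}), 2 :=
      Finset.sum_lt_sum (fun c _ => h2 c) ⟨c, Finset.mem_univ _, lt_of_le_of_ne (h2 c) hne⟩
    rw [h1] at hlt
    simp only [Finset.sum_const, Finset.card_univ, Fintype.card_fin, smul_eq_mul] at hlt
    rw [sInf_two] at hlt
    omega

end Pool.Agent.S06308
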