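import Pool.Statements.S06471
import Pool.Agent.H157R2.Chrom

set_option autoImplicit false
open Pool Pool.MP_770436_co

namespace Pool.Agent.S06471

open Module Submodule Pool.Agent.H157R2.Mat Pool.Agent.H157R2.Menger Pool.Agent.H157R2.Chrom

/-- For each k ≥ 1 there is C such that, for every finite graph whose maximum over distinct vertex pairs of the number of edge-disjoint connecting paths is exactly k, every complex root z of its chromatic polynomial satisfies ∣z − 1∣ ≤ C. -/
theorem result :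
    ∀ k : ℕ, 0 < k → ∃ C : ℝ, ∀ (V : Type) [Fintype V] (G : SimpleGraph V),
      ((∃ u v : V, u ≠ v ∧ ∃ p : Fin k → G.Walk u v,
          (∀ i, (p i).IsPath) ∧ Pairwise (fun i j => List.Disjoint (p i).edges (p j).edges)) ∧
       (∀ u v : V, u ≠ v → ¬ ∃ p : Fin (k + 1) → G.Walk u v,
          (∀ i, (p i).IsPath) ∧ Pairwise (fun i j => List.Disjoint (p i).edges (p j).edges))) →
      ∀ P : Polynomial ℂ,
        (∀ n : ℕ, P.eval (n : ℂ) = ((Nat.card (G.Coloring (Fin n)) : ℕ) : ℂ)) →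
        ∀ z : ℂ, P.IsRoot z → ‖z - 1‖ ≤ C := by
  classical
  intro k _
  refine ⟨2 ^ (k + 1) + 1, ?_⟩
  intro V _ G ⟨⟨u0, v0, _, _⟩, hno⟩ P hP z hz
  have : Nonempty V := ⟨u0⟩
  by_contra hcon
  rw [not_le] at hcon
  have hz1 : (2 : ℝ) ^ (k + 1) ≤ ‖z‖ := by
    have h1 : ‖z - 1‖ ≤ ‖z‖ + ‖(1 : ℂ)‖ := norm_sub_le _ _
    rw [norm_one] at h1
    linarith
  have hsep : ∀ u v : V, u ≠ v → ∃ S : Finset V, u ∈ S ∧ v ∉ S ∧ (cut G S).card ≤ k := by
    intro u v huv
    by_contra hall
    push Not at hall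
    apply hno u v huv
    exact edge_menger G u v huv (k + 1) (fun S hu hv => hall S hu hv)
  have hmain := graph_main G k hsep z hz1
  set Q : Polynomial ℂ := ∑ A ∈ G.edgeFinset.powerset, Polynomial.C ((-1 : ℂ) ^ A.card) *
        Polynomial.X ^ (Fintype.card V - finrank (ZMod 2) (sp (ZMod 2) (inc : Sym2 V → V → ZMod 2) A))
    with hQ
  have hQe : ∀ w : ℂ, Q.eval w = ∑ A ∈ G.edgeFinset.powerset, (-1 : ℂ) ^ A.card *
        w ^ (Fintype.card V - finrank (ZMod 2) (sp (ZMod 2) (inc : Sym2 V → V → ZMod 2) A)) := by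
    intro w
    rw [hQ, Polynomial.eval_finsetSum]
    refine Finset.sum_congr rfl fun A _ => ?_
    rw [Polynomial.eval_mul, Polynomial.eval_C, Polynomial.eval_pow, Polynomial.eval_X]
  have hPQ : P = Q := by
    apply Polynomial.eq_of_infinite_eval_eq
    apply Set.Infinite.mono (s := Set.range (fun n : ℕ => (n : ℂ)))
    · rintro _ ⟨n, rfl⟩
      show P.eval (n : ℂ) = Q.eval (n : ℂ)
      rw [hP n, hQe, whitney G n]
    · exact Set.infinite_range_of_injective Nat.cast_injective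
  apply hmain
  rw [← hQe, ← hPQ]
  exact hz

end Pool.Agent.S06471
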