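-- Proof of frozen statement S06495.
import Pool.Statements.S06495

set_option autoImplicit false
open Pool Pool.MP_79384d_co

namespace Pool.Agent.S06495

open Matrix

/-- The symmetric conference matrix of order `6` (bordered Seidel matrix of the pentagon), plus the
identity matrix, with entries indexed by natural numbers below `6`. -/
def t (a b : ℕ) : ℤ :=
  if a = b then 1 else if a = 0 ∨ b = 0 then 1 else
    if (a + 5 - b) % 5 = 1 ∨ (a + 5 - b) % 5 = 4 then 1 else -1

/-- The entries of the matrix `M = t ⊗ J₃` of order `18`. -/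
def m (i j : Fin 18) : ℤ := t (i.val / 3) (j.val / 3)

/-- The entries of the square of `M`. -/
def nn (i j : Fin 18) : ℤ :=
  6 * t (i.val / 3) (j.val / 3) + (if i.val / 3 = j.val / 3 then 12 else 0)

lemma m_mul_m : ∀ i j : Fin 18, ∑ k, m i k * m k j = nn i j := by
  decide +kernel

lemma m_mul_n : ∀ i j : Fin 18, ∑ k, m i k * nn k j = 6 * nn i j + 36 * m i j := by
  decide +kernel

/-- `M` over the reals -/
def M : Matrix (Fin 18) (Fin 18) ℝ := Matrix.of fun i j => ((m i j : ℤ) : ℝ)

/-- the square of `M` over the reals -/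
def NR : Matrix (Fin 18) (Fin 18) ℝ := Matrix.of fun i j => ((nn i j : ℤ) : ℝ)

lemma M_sq : M * M = NR := by
  ext i j
  rw [Matrix.mul_apply]
  simp only [M, NR, Matrix.of_apply]
  exact_mod_cast m_mul_m i j

lemma M_cube : M * (M * M) = (6 : ℝ) • (M * M) + (36 : ℝ) • M := by
  rw [M_sq]
  ext i j
  rw [Matrix.mul_apply]
  simp only [M, NR, Matrix.of_apply, Matrix.add_apply, Matrix.smul_apply, smul_eq_mul]
  exact_mod_cast m_mul_n i j

/-- The Seidel matrix `S = M - I` of order `18`. -/
def S : Matrix (Fin 18) (Fin 18) ℝ := M - 1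

lemma sym : ∀ i j : Fin 18, m i j = m j i := by
  decide +kernel

lemma diag : ∀ i : Fin 18, m i i = 1 := by
  decide +kernel

lemma pm : ∀ i j : Fin 18, m i j = 1 ∨ m i j = -1 := by
  decide +kernel

/-- An eigenvalue of `S` is a root of `(x+1) (x² - 4 x - 41)`. -/
lemma eig {x : ℝ} {v : Fin 18 → ℝ} (hv : v ≠ 0) (h : S *ᵥ v = x • v) :
    (x + 1) * (x ^ 2 - 4 * x - 41) = 0 := by
  have h1 : M *ᵥ v = (x + 1) • v := by
    have : M = S + 1 := by simp [S]
    rw [this, Matrix.add_mulVec, h, Matrix.one_mulVec, add_smul, one_smul]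
  have h2 : (M * M) *ᵥ v = (x + 1) ^ 2 • v := by
    rw [← Matrix.mulVec_mulVec, h1, Matrix.mulVec_smul, h1, smul_smul, sq]
  have h3 : (M * (M * M)) *ᵥ v = (x + 1) ^ 3 • v := by
    rw [← Matrix.mulVec_mulVec, h2, Matrix.mulVec_smul, h1, smul_smul]; ring_nf
  rw [M_cube, Matrix.add_mulVec, Matrix.smul_mulVec, Matrix.smul_mulVec, h2, h1, smul_smul,
    smul_smul, ← add_smul] at h3
  obtain ⟨i, hi⟩ := Function.ne_iff.mp hv
  have h4 := congrFun h3 i
  simp only [Pi.smul_apply, smul_eq_mul, Pi.zero_apply] at h4 hi
  have h5 := mul_right_cancel₀ hi h4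
  nlinarith [h5]

lemma mem_roots_iff (x : ℝ) :
    x ∈ S.charpoly.roots ↔ ∃ v : Fin 18 → ℝ, v ≠ 0 ∧ S *ᵥ v = x • v := by
  rw [Polynomial.mem_roots (Matrix.charpoly_monic S).ne_zero, Polynomial.IsRoot.def,
    Matrix.eval_charpoly, ← Matrix.exists_mulVec_eq_zero_iff]
  constructor
  · rintro ⟨v, hv, h⟩
    refine ⟨v, hv, ?_⟩
    rw [Matrix.sub_mulVec, sub_eq_zero] at h
    rw [← h]
    ext i
    simp [Matrix.scalar_apply, Matrix.mulVec_diagonal]
  · rintro ⟨v, hv, h⟩
    refine ⟨v, hv, ?_⟩
    rw [Matrix.sub_mulVec, sub_eq_zero, h]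
    ext i
    simp [Matrix.scalar_apply, Matrix.mulVec_diagonal]

/-- The eigenvector for the eigenvalues `2 ± 3 √5`. -/
lemma eigvec (r : ℝ) (hr : r ^ 2 = 5) :
    S *ᵥ (fun i : Fin 18 => if i.val / 3 = 0 then r else 1)
      = (2 + 3 * r) • (fun i : Fin 18 => if i.val / 3 = 0 then r else 1) := by
  have hMI : ∀ i : Fin 18, (∑ j : Fin 18, if j.val / 3 = 0 then m i j else 0) = 3 ∧
      (∑ j : Fin 18, if j.val / 3 = 0 then 0 else m i j) = 
        if i.val / 3 = 0 then 15 else 3 := by
    decide +kernel
  ext i
  have hM : (M *ᵥ (fun i : Fin 18 => if i.val / 3 = 0 then r else 1)) i =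
      r * ((∑ j : Fin 18, if j.val / 3 = 0 then m i j else 0 : ℤ) : ℝ) +
        ((∑ j : Fin 18, if j.val / 3 = 0 then 0 else m i j : ℤ) : ℝ) := by
    simp only [Matrix.mulVec, dotProduct, Int.cast_sum, Finset.mul_sum, ← Finset.sum_add_distrib]
    refine Finset.sum_congr rfl fun j _ => ?_
    simp only [M, Matrix.of_apply]
    split_ifs <;> push_cast <;> ring
  simp only [S, Matrix.sub_mulVec, Matrix.one_mulVec, Pi.sub_apply, Pi.smul_apply, smul_eq_mul]
  rw [hM, (hMI i).1, (hMI i).2]
  split_ifs
  · push_cast; nlinarith [hr]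
  · push_cast; ring

/-- There is a Seidel matrix (symmetric, zero diagonal, ±1 off diagonal) of order at least 14 with exactly three distinct eigenvalues such that no ±1 switching of it has constant row sums, i.e. its switching class contains no regular graph. -/
theorem result :
    ∃ n : ℕ, 14 ≤ n ∧ ∃ S : Matrix (Fin n) (Fin n) ℝ,
      S.IsSymm ∧ (∀ i, S i i = 0) ∧
      (∀ i j, i ≠ j → S i j = 1 ∨ S i j = -1) ∧
      S.charpoly.roots.toFinset.card = 3 ∧
      ∀ s : Fin n → ℝ, (∀ i, s i = 1 ∨ s i = -1) →
        ¬ ∃ c : ℝ, ∀ i, ∑ j, s i * S i j * s j = c := by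
  have h5 : (Real.sqrt 5) ^ 2 = 5 := Real.sq_sqrt (by norm_num)
  have h50 : 0 < Real.sqrt 5 := Real.sqrt_pos.mpr (by norm_num)
  refine ⟨18, by norm_num, S, ?_, ?_, ?_, ?_, ?_⟩
  · ext i j
    simp only [S, M, Matrix.transpose_apply, Matrix.sub_apply, Matrix.of_apply]
    rw [sym j i, Matrix.one_apply, Matrix.one_apply]
    simp only [eq_comm]
  · intro i
    simp [S, M, diag]
  · intro i j hij
    rcases pm i j with h | h
    · left; simp [S, M, h, Matrix.one_apply_ne hij]
    · right; simp [S, M, h, Matrix.one_apply_ne hij]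
  · have hset : S.charpoly.roots.toFinset = {-1, 2 + 3 * Real.sqrt 5, 2 + 3 * (-Real.sqrt 5)} := by
      ext x
      rw [Multiset.mem_toFinset, mem_roots_iff]
      simp only [Finset.mem_insert, Finset.mem_singleton]
      constructor
      · rintro ⟨v, hv, h⟩
        rcases mul_eq_zero.mp (eig hv h) with h1 | h1
        · left; linarith
        · right
          have h2 : (x - (2 + 3 * Real.sqrt 5)) * (x - (2 + 3 * (-Real.sqrt 5))) = 0 := by
            nlinarith [h5]
          rcases mul_eq_zero.mp h2 with h3 | h3
          · left; linarith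
          · right; linarith
      · rintro (h | h | h)
        · subst h
          refine ⟨fun i => if i = 0 then 1 else if i = 1 then -1 else 0, ?_, ?_⟩
          · intro h0
            have := congrFun h0 0
            simp at this
          · have hMI : ∀ i : Fin 18, (∑ j : Fin 18, m i j * 
              (if j = 0 then 1 else if j = 1 then -1 else 0)) = 0 := by decide +kernel
            ext i
            have hM : (M *ᵥ (fun i => if i = 0 then (1:ℝ) else if i = 1 then -1 else 0)) i = 0 := by
              have := hMI i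
              simp only [Matrix.mulVec, dotProduct]
              have h3 : ((∑ j : Fin 18, m i j * 
                (if j = 0 then 1 else if j = 1 then -1 else 0) : ℤ) : ℝ) = 0 := by
                rw [this]; simp
              refine Eq.trans ?_ h3
              rw [Int.cast_sum]
              refine Finset.sum_congr rfl fun j _ => ?_
              simp only [M, Matrix.of_apply]
              split_ifs <;> push_cast <;> simp
            simp only [S, Matrix.sub_mulVec, Matrix.one_mulVec, Pi.sub_apply, Pi.smul_apply,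
              smul_eq_mul]
            rw [hM]
            ring
        · subst h
          refine ⟨_, ?_, eigvec _ h5⟩
          intro h0
          have := congrFun h0 17
          simp at this
        · subst h
          refine ⟨_, ?_, eigvec (-Real.sqrt 5) (by rw [neg_sq, h5])⟩
          intro h0
          have := congrFun h0 17
          simp at this
    rw [hset, Finset.card_insert_of_notMem, Finset.card_insert_of_notMem, Finset.card_singleton]
    · simp only [Finset.mem_singleton]
      intro h
      linarith
    · simp only [Finset.mem_insert, Finset.mem_singleton]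
      rintro (h | h) <;> nlinarith
  · rintro s hs ⟨c, hc⟩
    have hsq : ∀ i, s i * s i = 1 := by
      intro i
      rcases hs i with h | h <;> rw [h] <;> norm_num
    have hev : S *ᵥ s = c • s := by
      ext i
      have h1 := hc i
      simp only [Matrix.mulVec, dotProduct, Pi.smul_apply, smul_eq_mul]
      have h2 : ∑ j, s i * S i j * s j = s i * ∑ j, S i j * s j := by
        rw [Finset.mul_sum]; refine Finset.sum_congr rfl fun j _ => by ring
      rw [h2] at h1
      calc ∑ j, S i j * s j = (s i * s i) * ∑ j, S i j * s j := by rw [hsq]; ring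
        _ = c * s i := by rw [mul_assoc, h1]; ring
    have hs0 : s ≠ 0 := by
      intro h0
      have := hsq 0
      rw [h0] at this
      simp at this
    -- `c` is an integer
    have hint : ∃ z : ℤ, c = z := by
      have hsI : ∀ i, ∃ z : ℤ, s i = z := by
        intro i
        rcases hs i with h | h
        · exact ⟨1, by simp [h]⟩
        · exact ⟨-1, by simp [h]⟩
      choose σ hσ using hsI
      refine ⟨∑ j, σ 0 * (m 0 j - (if (0 : Fin 18) = j then 1 else 0)) * σ j, ?_⟩
      rw [← hc 0, Int.cast_sum]
      refine Finset.sum_congr rfl fun j _ => ?_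
      simp only [S, M, Matrix.sub_apply, Matrix.of_apply, hσ, Matrix.one_apply]
      push_cast
      ring
    obtain ⟨z, hz⟩ := hint
    rcases mul_eq_zero.mp (eig hs0 hev) with h1 | h1
    · -- the eigenvalue `-1`
      have hc1 : c = -1 := by linarith
      have hM0 : M *ᵥ s = 0 := by
        have : M = S + 1 := by simp [S]
        rw [this, Matrix.add_mulVec, hev, Matrix.one_mulVec, hc1]
        ext i; simp
      have hN0 : (M * M) *ᵥ s = 0 := by
        rw [← Matrix.mulVec_mulVec, hM0, Matrix.mulVec_zero]
      rw [M_sq] at hN0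
      have e2 : ∑ j, (nn 0 j : ℝ) * s j - 6 * ∑ j, (m 0 j : ℝ) * s j = 0 := by
        have e3 := congrFun hN0 0
        have e4 := congrFun hM0 0
        simp only [Matrix.mulVec, dotProduct, NR, M, Matrix.of_apply, Pi.zero_apply] at e3 e4
        rw [e3, e4]; norm_num
      have e3 : ∀ j : Fin 18, nn 0 j - 6 * m 0 j = if j = 0 then 12 else if j = 1 then 12 else
          if j = 2 then 12 else 0 := by decide +kernel
      have e4 : ∑ j, (nn 0 j : ℝ) * s j - 6 * ∑ j, (m 0 j : ℝ) * s j
          = ∑ j : Fin 18, ((if j = 0 then 12 * s 0 else 0) + (if j = 1 then 12 * s 1 else 0)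
            + (if j = 2 then 12 * s 2 else 0)) := by
        rw [Finset.mul_sum, ← Finset.sum_sub_distrib]
        refine Finset.sum_congr rfl fun j _ => ?_
        have e5 : (nn 0 j : ℝ) - 6 * (m 0 j : ℝ) = if j = 0 then 12 else if j = 1 then 12 else
          if j = 2 then 12 else 0 := by
          have := e3 j
          have h6 : ((nn 0 j - 6 * m 0 j : ℤ) : ℝ) = ((if j = 0 then 12 else if j = 1 then 12 else
            if j = 2 then 12 else 0 : ℤ) : ℝ) := by rw [this]
          push_cast at h6
          exact h6
        have e6 : (nn 0 j : ℝ) * s j - 6 * ((m 0 j : ℝ) * s j)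
            = ((nn 0 j : ℝ) - 6 * (m 0 j : ℝ)) * s j := by ring
        rw [e6, e5]
        by_cases h0 : j = 0
        · subst h0; simp
        · by_cases h1 : j = 1
          · subst h1; simp
          · by_cases h2 : j = 2
            · subst h2; simp
            · simp [h0, h1, h2]
      rw [e4] at e2
      simp only [Finset.sum_add_distrib, Finset.sum_ite_eq', Finset.mem_univ, if_true] at e2
      rcases hs 0 with h0 | h0 <;> rcases hs 1 with h1 | h1 <;> rcases hs 2 with h2 | h2 <;>
        rw [h0, h1, h2] at e2 <;> norm_num at e2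
    · -- irrational eigenvalues
      rw [hz] at h1
      have h2 : (z - 2) ^ 2 = 45 := by
        have : ((z : ℝ) - 2) ^ 2 = 45 := by linarith
        exact_mod_cast this
      have h3 : z - 2 ≤ 6 := by nlinarith
      have h4 : -6 ≤ z - 2 := by nlinarith
      generalize z - 2 = w at h2 h3 h4
      interval_cases w <;> norm_num at h2

end Pool.Agent.S06495
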