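import Pool.Statements.S06507
import Pool.Agent.H149R2.AlmostSubspace

set_option autoImplicit false
open scoped Pointwise
open Pool Pool.MP_7a4bf8_co

namespace Pool.Agent.S06507

theorem sumset_univ {n : ℕ} (A : Finset (Fin n → ZMod 2))
    (h : (2 : ℝ) ^ n < 2 * (A.card : ℝ)) : A + A = Finset.univ := by
  ext x
  simp only [Finset.mem_univ, iff_true]
  have hc : ((A.image fun y => x - y)).card = A.card :=
    Finset.card_image_of_injective _ (fun y z hyz => by simpa using hyz)
  have hcard : Fintype.card (Fin n → ZMod 2) = 2 ^ n := by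
    rw [Fintype.card_fun, ZMod.card, Fintype.card_fin]
  have h2 : (Finset.univ : Finset (Fin n → ZMod 2)).card
      < A.card + (A.image fun y => x - y).card := by
    rw [hc, Finset.card_univ, hcard]
    have : (2 : ℝ) ^ n < ((A.card + A.card : ℕ) : ℝ) := by push_cast; linarith
    exact_mod_cast this
  have h3 : (A ∩ (A.image fun y => x - y)).Nonempty := by
    apply Finset.inter_nonempty_of_card_lt_card_add_card (s := Finset.univ)
      (Finset.subset_univ _) (Finset.subset_univ _) h2
  obtain ⟨y, hy⟩ := h3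
  rw [Finset.mem_inter, Finset.mem_image] at hy
  obtain ⟨hy1, z, hz, hzy⟩ := hy
  rw [Finset.mem_add]
  exact ⟨y, hy1, z, hz, by rw [← hzy]; abel⟩

/-- There is C>0 such that for every nonempty A in F_2^n of density δ and every 0<ε<1, some subspace V of codimension at most C·log(2/δ)^C·log(2/ε)^C has at least a (1−ε) fraction of its points in A+A. -/
theorem result :
    ∃ C : ℝ, 0 < C ∧
      ∀ n : ℕ, ∀ A : Finset (Fin n → ZMod 2), A.Nonempty →
        ∀ ε : ℝ, 0 < ε → ε < 1 →
          ∃ V : Submodule (ZMod 2) (Fin n → ZMod 2),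
            ((n : ℝ) - (Module.finrank (ZMod 2) V : ℝ) ≤
                C * (Real.log (2 * (2 : ℝ) ^ n / (A.card : ℝ))) ^ C
                  * (Real.log (2 / ε)) ^ C) ∧
            (1 - ε) * ((V : Set (Fin n → ZMod 2)).ncard : ℝ) ≤
              ((((A + A : Finset (Fin n → ZMod 2)) : Set (Fin n → ZMod 2)) ∩
                  (V : Set (Fin n → ZMod 2))).ncard : ℝ) := by
  obtain ⟨C₀, hC₀, hmain⟩ := Pool.Agent.H149R2.main_theorem
  have h3pos : (0 : ℝ) < 3 ^ C₀ := Real.rpow_pos_of_pos (by norm_num) _
  refine ⟨C₀ * 3 ^ C₀ + C₀, by positivity, ?_⟩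
  set C₁ : ℝ := C₀ * 3 ^ C₀ + C₀ with hC₁
  have hC₁0 : 0 < C₁ := by positivity
  intro n A hA ε hε0 hε1
  have hl2 : (0.6931 : ℝ) < Real.log 2 := by have := Real.log_two_gt_d9; linarith
  have hNpos : (0 : ℝ) < 2 ^ n := by positivity
  have hApos : (0 : ℝ) < A.card := by exact_mod_cast hA.card_pos
  have hcard : Fintype.card (Fin n → ZMod 2) = 2 ^ n := by
    rw [Fintype.card_fun, ZMod.card, Fintype.card_fin]
  have hAle : (A.card : ℝ) ≤ 2 ^ n := by
    have h1 : A.card ≤ Fintype.card (Fin n → ZMod 2) := Finset.card_le_univ A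
    rw [hcard] at h1
    exact_mod_cast h1
  set a : ℝ := Real.log (2 * (2 : ℝ) ^ n / (A.card : ℝ)) with ha
  set b : ℝ := Real.log (2 / ε) with hb
  have ha2 : Real.log 2 ≤ a := by
    rw [ha]
    apply Real.log_le_log (by norm_num)
    rw [le_div_iff₀ hApos]
    linarith
  have hb2 : Real.log 2 ≤ b := by
    rw [hb]
    apply Real.log_le_log (by norm_num)
    rw [le_div_iff₀ hε0]
    linarith
  have ha0 : 0 < a := by linarith
  have hb0 : 0 < b := by linarith
  have hrhs : 0 ≤ C₁ * a ^ C₁ * b ^ C₁ := by positivity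
  -- the whole space
  have htop : (1 - ε) * (2 : ℝ) ^ n ≤ ((A + A : Finset (Fin n → ZMod 2)).card : ℝ) →
      ∃ V : Submodule (ZMod 2) (Fin n → ZMod 2),
            ((n : ℝ) - (Module.finrank (ZMod 2) V : ℝ) ≤ C₁ * a ^ C₁ * b ^ C₁) ∧
            (1 - ε) * ((V : Set (Fin n → ZMod 2)).ncard : ℝ) ≤
              ((((A + A : Finset (Fin n → ZMod 2)) : Set (Fin n → ZMod 2)) ∩
                  (V : Set (Fin n → ZMod 2))).ncard : ℝ) := by
    intro h
    refine ⟨⊤, ?_, ?_⟩
    · rw [finrank_top, Module.finrank_fin_fun, sub_self]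
      exact hrhs
    · rw [Submodule.top_coe, Set.inter_univ, Set.ncard_coe_finset, Set.ncard_univ,
        Nat.card_eq_fintype_card, hcard]
      push_cast
      exact h
  by_cases h1 : (2 : ℝ) ^ n < 2 * (A.card : ℝ)
  · apply htop
    rw [sumset_univ A h1, Finset.card_univ, hcard]
    push_cast
    nlinarith
  push Not at h1
  by_cases h2 : (1 - ε) * (2 : ℝ) ^ n ≤ A.card
  · apply htop
    refine h2.trans ?_
    have : A.card ≤ (A + A).card := Finset.card_le_card_add_right hA
    exact_mod_cast this
  push Not at h2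
  have hab : 1 ≤ a * b := by
    by_cases h3 : 4 * (A.card : ℝ) ≤ 2 ^ n
    · have h4 : 3 * Real.log 2 ≤ a := by
        have h5 : 3 * Real.log 2 = Real.log 8 := by
          rw [show (8 : ℝ) = 2 ^ 3 by norm_num, Real.log_pow]; norm_num
        rw [h5, ha]
        apply Real.log_le_log (by norm_num)
        rw [le_div_iff₀ hApos]
        linarith
      nlinarith
    · push Not at h3
      have h4 : 2 * Real.log 2 ≤ a := by
        have h5 : 2 * Real.log 2 = Real.log 4 := by
          rw [show (4 : ℝ) = 2 ^ 2 by norm_num, Real.log_pow]; norm_num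
        rw [h5, ha]
        apply Real.log_le_log (by norm_num)
        rw [le_div_iff₀ hApos]
        linarith
      have hε34 : ε < 3 / 4 := by
        by_contra hcon
        push Not at hcon
        have : (1 - ε) * (2 : ℝ) ^ n ≤ (1 / 4) * 2 ^ n :=
          mul_le_mul_of_nonneg_right (by linarith) hNpos.le
        have h6 : (2 : ℝ) ^ n / 4 < A.card := by linarith
        nlinarith
      have h5 : Real.log (8 / 3) ≤ b := by
        rw [hb]
        apply Real.log_le_log (by norm_num)
        rw [le_div_iff₀ hε0]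
        linarith
      have h6 : 5 * Real.log 2 ≤ 4 * Real.log (8 / 3) := by
        have h7 : 5 * Real.log 2 = Real.log 32 := by
          rw [show (32 : ℝ) = 2 ^ 5 by norm_num, Real.log_pow]; norm_num
        have h8 : 4 * Real.log (8 / 3) = Real.log ((8 / 3) ^ 4) := by
          rw [Real.log_pow]; norm_num
        rw [h7, h8]
        apply Real.log_le_log (by norm_num)
        norm_num
      nlinarith
  obtain ⟨V, hV1, hV2⟩ := hmain n A hA ε hε0 hε1.le
  refine ⟨V, hV1.trans ?_, ?_⟩
  · have hlog : Real.log (1 / (ε * ((A.card : ℝ) / 2 ^ n))) = a + b - 2 * Real.log 2 := by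
      rw [ha, hb, Real.log_div (by positivity) (by positivity), Real.log_div (by norm_num)
        (by positivity), Real.log_div (by norm_num) (by positivity),
        Real.log_mul (by positivity) (by positivity), Real.log_div (by positivity) (by positivity),
        Real.log_mul (by norm_num) (by positivity), Real.log_one]
      ring
    rw [hlog]
    have hbase0 : 0 ≤ 1 + (a + b - 2 * Real.log 2) := by linarith
    have hbase : 1 + (a + b - 2 * Real.log 2) ≤ 3 * (a * b) := by
      have h4 : a ≤ 1.5 * (a * b) := by nlinarith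
      have h5 : b ≤ 1.5 * (a * b) := by nlinarith
      linarith
    have hCC : C₀ ≤ C₁ := by
      have : 0 < C₀ * 3 ^ C₀ := by positivity
      linarith
    calc C₀ * (1 + (a + b - 2 * Real.log 2)) ^ C₀
        ≤ C₀ * (3 * (a * b)) ^ C₀ :=
          mul_le_mul_of_nonneg_left (Real.rpow_le_rpow hbase0 hbase hC₀.le) hC₀.le
      _ = (C₀ * 3 ^ C₀) * (a * b) ^ C₀ := by
          rw [Real.mul_rpow (by norm_num) (by positivity)]; ring
      _ ≤ C₁ * (a * b) ^ C₁ := by
          apply mul_le_mul (by linarith) (Real.rpow_le_rpow_of_exponent_le hab hCC)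
            (by positivity) hC₁0.le
      _ = C₁ * a ^ C₁ * b ^ C₁ := by
          rw [Real.mul_rpow ha0.le hb0.le]; ring
  · have hcV : (V : Set (Fin n → ZMod 2)).ncard = Nat.card V :=
      (Nat.card_coe_set_eq (V : Set (Fin n → ZMod 2))).symm
    rw [hcV]
    exact hV2

end Pool.Agent.S06507
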