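import Pool.Statements.S06542
import Pool.Agent.H258R2.Calib.Ladder

set_option autoImplicit false
open Pool Pool.MP_7de4e5_co

namespace Pool.Agent.S06542

open Pool.Agent.H258R2.Calib MeasureTheory

/-- The points of the ladder: two points `(0, 2k)` and `(√3, 2k)` in each column. -/
noncomputable def pt {m : ℕ} (i : Fin m × Fin 2) : EuclideanSpace ℝ (Fin 2) :=
  !₂[if i.2 = 0 then 0 else Real.sqrt 3, 2 * ((i.1 : ℕ) : ℝ)]

/-- clamping of the long coordinate -/
noncomputable def cl (m : ℕ) (x : ℝ) : ℝ := max 0 (min x (2 * ((m - 2 : ℕ) : ℝ) + 2))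

/-- the calibrating functions -/
noncomputable def phi (m : ℕ) (i : Fin m × Fin 2) (z : EuclideanSpace ℝ (Fin 2)) : ℝ :=
  F (cl m (z 1) - 2 * ((i.1 : ℕ) : ℝ)) (if i.2 = 0 then hgt (z 0) else - hgt (z 0))

lemma cl_nonneg (m : ℕ) (x : ℝ) : 0 ≤ cl m x := le_max_left _ _

lemma cl_le (m : ℕ) (x : ℝ) : cl m x ≤ 2 * ((m - 2 : ℕ) : ℝ) + 2 :=
  max_le (by positivity) (min_le_right _ _)

lemma cl_lip (m : ℕ) (x x' : ℝ) : |cl m x - cl m x'| ≤ |x - x'| := by
  unfold cl
  refine (abs_max_sub_max_le_max _ _ _ _).trans ?_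
  rw [sub_self, abs_zero]
  refine max_le (abs_nonneg _) ?_
  refine (abs_min_sub_min_le_max _ _ _ _).trans ?_
  rw [sub_self, abs_zero]
  exact max_le le_rfl (abs_nonneg _)

lemma cl_of_mem {m : ℕ} {x : ℝ} (h0 : 0 ≤ x) (h1 : x ≤ 2 * ((m - 2 : ℕ) : ℝ) + 2) : cl m x = x := by
  unfold cl
  rw [min_eq_left h1, max_eq_right h0]

lemma phi_lip {m : ℕ} (hm : 2 ≤ m) (I : Finset (Fin m × Fin 2))
    (z z' : EuclideanSpace ℝ (Fin 2)) : ∑ i ∈ I, (phi m i z - phi m i z') ≤ dist z z' := by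
  classical
  set a : ℕ → ℝ := fun k => if h : k < m then (if (⟨k, h⟩, 0) ∈ I then 1 else 0) else 0 with ha
  set b : ℕ → ℝ := fun k => if h : k < m then (if (⟨k, h⟩, 1) ∈ I then 1 else 0) else 0 with hb
  have ha01 : ∀ k, a k = 0 ∨ a k = 1 := by
    intro k; simp only [ha]; split_ifs <;> simp
  have hb01 : ∀ k, b k = 0 ∨ b k = 1 := by
    intro k; simp only [hb]; split_ifs <;> simp
  have hG : ∀ w : EuclideanSpace ℝ (Fin 2), ∑ i ∈ I, phi m i w = G m a b (cl m (w 1)) (w 0) := by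
    intro w
    unfold G
    rw [← Fin.sum_univ_eq_sum_range (fun k => a k * F (cl m (w 1) - 2 * (k : ℝ)) (hgt (w 0)) +
      b k * F (cl m (w 1) - 2 * (k : ℝ)) (-hgt (w 0))) m]
    have h1 : ∑ i ∈ I, phi m i w = ∑ i : Fin m × Fin 2, if i ∈ I then phi m i w else 0 := by
      rw [← Finset.sum_filter]
      congr 1
      ext i; simp
    rw [h1, Fintype.sum_prod_type]
    refine Finset.sum_congr rfl fun k _ => ?_
    rw [Fin.sum_univ_two]
    simp only [ha, hb, phi, Fin.is_lt, dite_true, Fin.eta, if_true]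
    congr 1
    · split_ifs <;> simp
    · split_ifs <;> simp_all
  rw [Finset.sum_sub_distrib, hG, hG]
  have h1 := G_lip (m := m) a b ha01 hb01 (m - 2) (by omega) (cl m (z 1)) (z 0) (cl m (z' 1)) (z' 0)
    (cl_nonneg _ _) (cl_le _ _) (cl_nonneg _ _) (cl_le _ _)
  refine h1.trans ?_
  rw [EuclideanSpace.dist_eq, Fin.sum_univ_two]
  unfold R
  apply Real.sqrt_le_sqrt
  rw [Real.dist_eq, Real.dist_eq, sq_abs, sq_abs]
  have h2 := cl_lip m (z 1) (z' 1)
  have h3 : (cl m (z 1) - cl m (z' 1)) ^ 2 ≤ (z 1 - z' 1) ^ 2 := sq_le_sq.2 h2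
  linarith

/-- The negation of the preceding statement: For every ε>0, for all large n, any n points in a √3 by (n−1) rectangle lie in a connected plane set of 1-dimensional Hausdorff measure at most √3(n−1)+ε. -/
theorem result :
    ¬ (∀ ε : ℝ, 0 < ε → ∃ N : ℕ, ∀ n : ℕ, N ≤ n →
      ∀ P : Fin n → EuclideanSpace ℝ (Fin 2),
        (∀ i, 0 ≤ P i 0 ∧ P i 0 ≤ Real.sqrt 3 ∧ 0 ≤ P i 1 ∧ P i 1 ≤ (n : ℝ) - 1) →
        ∃ S : Set (EuclideanSpace ℝ (Fin 2)), IsConnected S ∧ (∀ i, P i ∈ S) ∧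
          MeasureTheory.Measure.hausdorffMeasure 1 S ≤
            ENNReal.ofReal (Real.sqrt 3 * ((n : ℝ) - 1) + ε)) := by
  intro h
  obtain ⟨N, hN⟩ := h 1 one_pos
  set m : ℕ := N + 100 with hm
  have hsq := sqrt3_sq
  have hsp := sqrt3_pos
  obtain ⟨S, hS, hPS, hSl⟩ := hN (m * 2) (by omega)
    (fun i => pt (finProdFinEquiv.symm i)) (by
      intro i
      set q := finProdFinEquiv.symm i with hq
      have hq1 : ((q.1 : ℕ) : ℝ) + 1 ≤ m := by exact_mod_cast q.1.2
      have hq0 : (0 : ℝ) ≤ ((q.1 : ℕ) : ℝ) := by positivity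
      simp only [pt, PiLp.toLp_apply, Matrix.cons_val_zero, Matrix.cons_val_one]
      push_cast
      refine ⟨?_, ?_, by positivity, by linarith⟩
      · split_ifs
        · exact le_rfl
        · exact hsp.le
      · split_ifs
        · exact hsp.le
        · exact le_rfl)
  have hpS : ∀ i : Fin m × Fin 2, pt i ∈ S := by
    intro i
    have := hPS (finProdFinEquiv i)
    rwa [Equiv.symm_apply_apply] at this
  have hm2 : 2 ≤ m := by omega
  have hmr : (100 : ℝ) ≤ m := by rw [hm]; push_cast; linarith [(Nat.cast_nonneg N : (0 : ℝ) ≤ N)]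
  have hml : ((m - 2 : ℕ) : ℝ) = m - 2 := by
    rw [Nat.cast_sub hm2]; norm_num
  set last : Fin m × Fin 2 := (⟨m - 1, by omega⟩, 0) with hlast
  have hcal := calib (ι := Fin m × Fin 2) hS.isPreconnected (phi m) (phi_lip hm2) pt hpS
    (pt last) (hpS last)
  have hle := hcal.trans hSl
  have hpos : 0 ≤ Real.sqrt 3 * (((m * 2 : ℕ) : ℝ) - 1) + 1 := by
    have : (0 : ℝ) ≤ ((m * 2 : ℕ) : ℝ) - 1 := by push_cast; linarith
    positivity
  rw [ENNReal.ofReal_le_ofReal_iff hpos] at hle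
  -- values of the potentials at the terminals
  have hval : ∀ i : Fin m × Fin 2, phi m i (pt i) = -(3 / 4) := by
    rintro ⟨k, b⟩
    have hk : ((k : ℕ) : ℝ) + 1 ≤ m := by exact_mod_cast k.2
    simp only [phi, pt, PiLp.toLp_apply, Matrix.cons_val_zero, Matrix.cons_val_one]
    rw [cl_of_mem (by positivity) (by rw [hml]; linarith), sub_self]
    split_ifs
    · rw [hgt_zero, F_zero]
    · rw [hgt_sqrt, F_zero]
  have hlastc : cl m ((pt last) 1) = 2 * ((m : ℝ) - 1) := by
    simp only [hlast, pt, PiLp.toLp_apply, Matrix.cons_val_one]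
    have : (((m - 1 : ℕ)) : ℝ) = m - 1 := by rw [Nat.cast_sub (by omega)]; norm_num
    rw [this]
    simp only [Matrix.cons_val_zero]
    rw [cl_of_mem (by linarith) (by rw [hml]; linarith)]
  have hroot : ∀ i : Fin m × Fin 2, (i.1 : ℕ) < m - 1 → phi m i (pt last) = 1 := by
    rintro ⟨k, b⟩ hk
    simp only at hk
    have hk' : ((k : ℕ) : ℝ) + 2 ≤ m := by
      have : (k : ℕ) + 2 ≤ m := by omega
      exact_mod_cast this
    unfold phi
    rw [hlastc]
    apply F_far
    · rw [le_abs]; left; simp only; linarith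
    · split_ifs
      · exact hgt_abs _
      · rw [abs_neg]; exact hgt_abs _
  have hrootlast : ∀ i : Fin m × Fin 2, ¬ (i.1 : ℕ) < m - 1 → -(3 / 4) ≤ phi m i (pt last) := by
    rintro ⟨k, b⟩ hk
    simp only at hk
    have hk' : ((k : ℕ) : ℝ) = m - 1 := by
      have : (k : ℕ) = m - 1 := by omega
      rw [this, Nat.cast_sub (by omega)]; norm_num
    unfold phi
    rw [hlastc]
    simp only [hk', sub_self]
    have : (pt last) 0 = 0 := by simp [hlast, pt]
    rw [this, hgt_zero]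
    split_ifs
    · rw [F_zero]
    · rw [neg_neg, F_zero']; norm_num
  have hsum : (7 / 2 : ℝ) * (m - 1) ≤ ∑ i : Fin m × Fin 2, (phi m i (pt last) - phi m i (pt i)) := by
    have h1 : ∀ i : Fin m × Fin 2, (if (i.1 : ℕ) < m - 1 then (7 / 4 : ℝ) else 0) ≤
        phi m i (pt last) - phi m i (pt i) := by
      intro i
      rw [hval i]
      split_ifs with hi
      · rw [hroot i hi]; norm_num
      · have := hrootlast i hi
        linarith
    refine le_trans ?_ (Finset.sum_le_sum fun i _ => h1 i)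
    rw [Fintype.sum_prod_type]
    have h0 : ∀ x : Fin m, (∑ _y : Fin 2, if (x : ℕ) < m - 1 then (7 / 4 : ℝ) else 0) =
        2 • (if (x : ℕ) < m - 1 then (7 / 4 : ℝ) else 0) := by
      intro x
      rw [Finset.sum_const, Finset.card_univ, Fintype.card_fin]
    rw [Finset.sum_congr rfl fun x _ => h0 x]
    rw [Fin.sum_univ_eq_sum_range (fun k => 2 • (if k < m - 1 then (7 / 4 : ℝ) else 0)) m]
    have h2 : m = (m - 1) + 1 := by omega
    have h3 : ∑ k ∈ Finset.range m, 2 • (if k < m - 1 then (7 / 4 : ℝ) else 0) =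
        ∑ k ∈ Finset.range (m - 1), (7 / 2 : ℝ) := by
      conv_lhs => rw [h2]
      rw [Finset.sum_range_succ, if_neg (by omega)]
      rw [smul_zero, add_zero]
      refine Finset.sum_congr rfl fun k hk => ?_
      rw [if_pos (by have := Finset.mem_range.1 hk; omega)]
      norm_num
    rw [h3, Finset.sum_const, Finset.card_range, nsmul_eq_mul, Nat.cast_sub (by omega)]
    push_cast
    linarith
  have hfin := hsum.trans hle
  push_cast at hfin
  have hs : Real.sqrt 3 < 1.7321 := by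
    rw [Real.sqrt_lt' (by norm_num)]; norm_num
  nlinarith

end Pool.Agent.S06542
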