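import Pool.Statements.S06555
import Pool.Agent.H260R2.EdgeOrbit.Main

set_option autoImplicit false
open Pool Pool.MP_7f1d54_co

namespace Pool.Agent.S06555

/-- For every natural number C there is a finite group G such that every finite simple graph whose automorphism group is isomorphic to G has more than C orbits of its automorphism group on its edge set. -/
theorem result :
    ∀ C : ℕ, ∃ (G : Type) (_ : Group G) (_ : Finite G),
      ∀ (V : Type) (_ : Finite V) (X : SimpleGraph V),
        Nonempty ((X ≃g X) ≃* G) →
          C < Set.ncard {S : Set (Sym2 V) | ∃ e ∈ X.edgeSet,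
                S = {e' : Sym2 V | ∃ φ : X ≃g X, Sym2.map (fun v => φ v) e = e'}} :=
  Pool.Agent.H260R2.EdgeOrbit.main

end Pool.Agent.S06555
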