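import Pool.Statements.S06635
import Pool.Agent.H270R2.Sq.Final

set_option autoImplicit false
open Pool Pool.MP_83fe1d_co

namespace Pool.Agent.S06635

/-- There are constants c < 0.995 and C such that any n points in the unit square can be joined by a network of straight segments, with Steiner points allowed, of total length at most c·√n + C. -/
theorem result :
    ∃ c : ℝ, c < 995 / 1000 ∧ ∃ C : ℝ,
      ∀ X : Finset (EuclideanSpace ℝ (Fin 2)),
        (∀ x ∈ X, ∀ i : Fin 2, 0 ≤ x i ∧ x i ≤ 1) →
        ∃ E : Finset (EuclideanSpace ℝ (Fin 2) × EuclideanSpace ℝ (Fin 2)),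
          (∀ x ∈ X, ∀ y ∈ X,
            Relation.ReflTransGen (fun a b => (a, b) ∈ E ∨ (b, a) ∈ E) x y) ∧
          ∑ e ∈ E, dist e.1 e.2 ≤ c * Real.sqrt (X.card : ℝ) + C := by
  exact Pool.Agent.H270R2.Sq.main

end Pool.Agent.S06635
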