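import Pool.Statements.S06651
import Pool.Agent.H894R2.Balanced

set_option autoImplicit false
open Pool Pool.MP_85ac7c_co

namespace Pool.Agent.S06651

/-- For every n ≥ 1 and positive demands d_1..d_n with sum D, there is a D-periodic word over n letters where letter i appears d_i times per period, and any two equal-length windows differ by at most 2 in the count of each letter. -/
theorem result :
    ∀ n : ℕ, 0 < n → ∀ d : Fin n → ℕ, (∀ i, 0 < d i) →
      ∃ w : ℕ → Fin n,
        Function.Periodic w (∑ j, d j) ∧
        (∀ i : Fin n, ((Finset.range (∑ j, d j)).filter (fun k => w k = i)).card = d i) ∧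
        ∀ p q L : ℕ, ∀ i : Fin n,
          (((Finset.range L).filter (fun k => w (p + k) = i)).card : ℤ)
            - (((Finset.range L).filter (fun k => w (q + k) = i)).card : ℤ) ≤ 2 := by
  intro n hn d hd
  exact Pool.Agent.H894R2.Bal.exists_word n hn d hd

end Pool.Agent.S06651
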