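import Pool.Statements.S06658
-- import your own Pool.Agent.* helpers here

set_option autoImplicit false
open Pool Pool.MP_85fffe_co

namespace Pool.Agent.S06658

/-- A sequence of real numbers with dual rational coordinate functionals. -/
theorem exists_seq : ∃ (e : ℕ → ℝ) (φ : ℕ → (ℝ →ₗ[ℚ] ℚ)),
    ∀ n m, φ n (e m) = if n = m then 1 else 0 := by
  have h1 : Cardinal.aleph0 ≤ Module.rank ℚ ℝ := by
    rw [Real.rank_rat_real]
    exact Cardinal.aleph0_le_continuum
  obtain ⟨ι, b, hb⟩ : ∃ (ι : Type) (b : Module.Basis ι ℚ ℝ), True :=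
    ⟨_, Module.Basis.ofVectorSpace ℚ ℝ, trivial⟩
  have h2 : Infinite ι := by
    rw [Cardinal.infinite_iff]
    have := b.mk_eq_rank
    simp only [Cardinal.lift_id] at this
    rw [this]
    exact h1
  classical
  let g : ℕ ↪ ι := Infinite.natEmbedding ι
  refine ⟨fun n => b (g n), fun n => b.coord (g n), fun n m => ?_⟩
  simp only [Module.Basis.coord_apply, Module.Basis.repr_self, Finsupp.single_apply,
    g.injective.eq_iff]
  simp only [eq_comm]

section Main

variable {e : ℕ → ℝ} {φ : ℕ → (ℝ →ₗ[ℚ] ℚ)}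

theorem key1 (h : ∀ n m, φ n (e m) = if n = m then 1 else 0) {j j' i i' l l' : ℕ}
    (hj : j ≠ j')
    (heq : e (2 * j + 1) - e (2 * j' + 1) = e (2 * i) - e (2 * i') +
      (e (2 * l + 1) - e (2 * l' + 1))) : i = i' ∧ l = j ∧ l' = j' := by
  have h1 := congrArg (φ (2 * i)) heq
  have h2 := congrArg (φ (2 * j + 1)) heq
  have h3 := congrArg (φ (2 * j' + 1)) heq
  simp only [map_sub, map_add, h, if_true] at h1 h2 h3
  refine ⟨?_, ?_, ?_⟩
  · by_contra hc
    rw [if_neg (by omega), if_neg (by omega), if_neg (by omega), if_neg (by omega),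
      if_neg (by omega)] at h1
    norm_num at h1
  · by_contra hc
    rw [if_neg (by omega), if_neg (by omega), if_neg (by omega),
      if_neg (show ¬ (2 * j + 1 = 2 * l + 1) by omega)] at h2
    split_ifs at h2 <;> norm_num at h2
  · by_contra hc
    rw [if_neg (by omega), if_neg (by omega), if_neg (by omega),
      if_neg (show ¬ (2 * j' + 1 = 2 * l' + 1) by omega)] at h3
    split_ifs at h3 <;> norm_num at h3

theorem key2 (h : ∀ n m, φ n (e m) = if n = m then 1 else 0) {i l i' l' : ℕ}
    (hj : i ≠ l) (heq : e (2 * i) - e (2 * l) = e (2 * i') - e (2 * l')) : i = i' := by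
  have h1 := congrArg (φ (2 * i)) heq
  simp only [map_sub, h, if_true] at h1
  by_contra hc
  rw [if_neg (by omega), if_neg (by omega)] at h1
  split_ifs at h1 <;> norm_num at h1

/-- The point set. -/
noncomputable def X (e : ℕ → ℝ) (k : ℕ) : Finset ℝ :=
  ((Finset.range k ×ˢ Finset.range k).filter (fun p => p.1 ≠ p.2)).image
    (fun p => e (2 * p.1) + e (2 * p.2 + 1))

theorem mem_X {k : ℕ} {x : ℝ} : x ∈ X e k ↔
    ∃ i j, i < k ∧ j < k ∧ i ≠ j ∧ e (2 * i) + e (2 * j + 1) = x := by
  simp only [X, Finset.mem_image, Finset.mem_filter, Finset.mem_product, Finset.mem_range,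
    Prod.exists]
  constructor
  · rintro ⟨i, j, ⟨⟨h1, h2⟩, h3⟩, h4⟩
    exact ⟨i, j, h1, h2, h3, h4⟩
  · rintro ⟨i, j, h1, h2, h3, h4⟩
    exact ⟨i, j, ⟨⟨h1, h2⟩, h3⟩, h4⟩

theorem card_X (k : ℕ) : (X e k).card ≤ k * k := by
  refine Finset.card_image_le.trans ((Finset.card_filter_le _ _).trans ?_)
  simp

/-- The base index of a triple. -/
noncomputable def base (T : Finset ℕ) : ℕ := sInf (T : Set ℕ)

theorem base_mem {T : Finset ℕ} (hT : T.Nonempty) : base T ∈ T := by
  have : sInf (T : Set ℕ) ∈ (T : Set ℕ) := Nat.sInf_mem hT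
  exact_mod_cast this

/-- The pattern of a set of indices. -/
noncomputable def pat (e : ℕ → ℝ) (k : ℕ) (T : Finset ℕ) : Finset ℝ :=
  (Finset.range k \ T).image (fun i => e (2 * i) + e (2 * base T + 1))

theorem mem_pat {k : ℕ} {T : Finset ℕ} {x : ℝ} : x ∈ pat e k T ↔
    ∃ i, i < k ∧ i ∉ T ∧ e (2 * i) + e (2 * base T + 1) = x := by
  simp only [pat, Finset.mem_image, Finset.mem_sdiff, Finset.mem_range, and_assoc]

/-- Translating a pattern by the difference of two indices stays inside. -/
theorem pat_translate {k : ℕ} {T : Finset ℕ} (hT : T ⊆ Finset.range k) {j : ℕ} (hj : j ∈ T) :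
    (pat e k T).image (· + (e (2 * j + 1) - e (2 * base T + 1))) ⊆ X e k := by
  intro x hx
  simp only [Finset.mem_image] at hx
  obtain ⟨y, hy, rfl⟩ := hx
  obtain ⟨i, hi, hiT, rfl⟩ := mem_pat.1 hy
  rw [mem_X]
  refine ⟨i, j, hi, Finset.mem_range.1 (hT hj), fun h => hiT (h ▸ hj), by ring⟩

/-- The patterns are maximally repeated. -/
theorem pat_maximal (h : ∀ n m, φ n (e m) = if n = m then 1 else 0) {k : ℕ} {T : Finset ℕ}
    (hT : T ⊆ Finset.range k) (h2 : 1 < T.card) (B : Finset ℝ) (hB : pat e k T ⊂ B) :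
    ¬ (∀ t : ℝ, (pat e k T).image (· + t) ⊆ X e k → B.image (· + t) ⊆ X e k) := by
  intro hall
  obtain ⟨b, hbB, hbn⟩ := Finset.exists_of_ssubset hB
  have hne : T.Nonempty := Finset.card_pos.1 (by omega)
  have hbase := base_mem hne
  have hb : ∀ j ∈ T, b + (e (2 * j + 1) - e (2 * base T + 1)) ∈ X e k := by
    intro j hj
    exact hall _ (pat_translate hT hj) (Finset.mem_image_of_mem _ hbB)
  obtain ⟨i₀, l₀, hi₀, hl₀, hne₀, he₀⟩ := mem_X.1 (hb _ hbase)
  -- every index of `T` gives the same `i₀`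
  obtain ⟨j₁, hj₁, hj₁ne⟩ := Finset.exists_mem_ne h2 (base T)
  have step : ∀ j ∈ T, j ≠ base T → i₀ ≠ j ∧ l₀ = base T := by
    intro j hj hjb
    obtain ⟨i₁, l₁, hi₁, hl₁, hne₁, he₁⟩ := mem_X.1 (hb _ hj)
    have heq : e (2 * j + 1) - e (2 * base T + 1) = e (2 * i₁) - e (2 * i₀) +
      (e (2 * l₁ + 1) - e (2 * l₀ + 1)) := by linarith
    obtain ⟨ha, hc, hd⟩ := key1 h hjb heq
    subst ha hc
    exact ⟨hne₁, hd⟩
  have hl := (step j₁ hj₁ hj₁ne).2
  apply hbn
  rw [mem_pat]
  refine ⟨i₀, hi₀, ?_, ?_⟩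
  · intro hi
    by_cases hib : i₀ = base T
    · exact hne₀ (hib.trans hl.symm)
    · exact (step i₀ hi hib).1 rfl
  · rw [← hl]
    rw [hl] at he₀ ⊢
    linarith

/-- Distinct patterns are not translates. -/
theorem pat_translate_eq (h : ∀ n m, φ n (e m) = if n = m then 1 else 0) {k : ℕ}
    {T T' : Finset ℕ} (hT : T ⊆ Finset.range k) (hT' : T' ⊆ Finset.range k)
    (hc : T.card = T'.card) (hk : T.card + 2 ≤ k) {t : ℝ}
    (heq : pat e k T' = (pat e k T).image (· + t)) : T = T' := by
  have hsub : Finset.range k \ T ⊆ Finset.range k \ T' := by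
    intro i hi
    have hcard : 1 < (Finset.range k \ T).card := by
      rw [Finset.card_sdiff_of_subset hT, Finset.card_range]
      omega
    obtain ⟨l, hl, hli⟩ := Finset.exists_mem_ne hcard i
    have key : ∀ i ∈ Finset.range k \ T, ∃ i' ∈ Finset.range k \ T',
        e (2 * i) + e (2 * base T + 1) + t = e (2 * i') + e (2 * base T' + 1) := by
      intro i hi
      have : e (2 * i) + e (2 * base T + 1) + t ∈ pat e k T' := by
        rw [heq]
        apply Finset.mem_image_of_mem (· + t)
        exact Finset.mem_image_of_mem _ hi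
      obtain ⟨i', hi', hi'', h3⟩ := mem_pat.1 this
      exact ⟨i', by simp [hi', hi''], h3.symm⟩
    obtain ⟨i', hi', h1⟩ := key i hi
    obtain ⟨l', hl', h2⟩ := key l hl
    have : i = i' := key2 h (Ne.symm hli) (by linarith : e (2 * i) - e (2 * l) = e (2 * i') - e (2 * l'))
    rw [this]
    exact hi'
  have hcc : (Finset.range k \ T).card = (Finset.range k \ T').card := by
    rw [Finset.card_sdiff_of_subset hT, Finset.card_sdiff_of_subset hT', hc]
  have h4 := Finset.eq_of_subset_of_card_le hsub hcc.ge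
  have h5 : Finset.range k \ (Finset.range k \ T) = Finset.range k \ (Finset.range k \ T') := by
    rw [h4]
  rwa [Finset.sdiff_sdiff_eq_self hT, Finset.sdiff_sdiff_eq_self hT'] at h5

end Main

/-- The negation of the preceding statement: There is a constant C such that for every finite set X of n reals, any family of maximally repeated patterns of X, no two of which are translates of each other, has at most C·n members. -/
theorem result :
    ¬ (∃ C : ℕ, ∀ X : Finset ℝ, ∀ S : Finset (Finset ℝ),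
      (∀ A ∈ S,
        A.Nonempty ∧ A ⊆ X ∧
        (∃ t : ℝ, t ≠ 0 ∧ A.image (· + t) ⊆ X) ∧
        (∀ B : Finset ℝ, A ⊂ B →
          ¬ (∀ t : ℝ, A.image (· + t) ⊆ X → B.image (· + t) ⊆ X))) →
      (∀ A ∈ S, ∀ B ∈ S, ∀ t : ℝ, B = A.image (· + t) → A = B) →
      S.card ≤ C * X.card) := by
  rintro ⟨C, hC⟩
  obtain ⟨e, φ, h⟩ := exists_seq
  have hinj : ∀ i j, e i = e j → i = j := by
    intro i j hij
    have := congrArg (φ i) hij
    rw [h, h, if_pos rfl] at this
    by_contra hne
    rw [if_neg hne] at this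
    norm_num at this
  set k : ℕ := 6 * C + 9 with hk
  set TT : Finset (Finset ℕ) := Finset.powersetCard 3 (Finset.range k) with hTT
  have hmem : ∀ T ∈ TT, T ⊆ Finset.range k ∧ T.card = 3 := fun T hT =>
    Finset.mem_powersetCard.1 hT
  have key := hC (X e k) (TT.image (pat e k)) ?_ ?_
  · have hcard : (TT.image (pat e k)).card = TT.card := by
      apply Finset.card_image_of_injOn
      intro T hT T' hT' heq
      obtain ⟨h1, h2⟩ := hmem T hT
      obtain ⟨h1', h2'⟩ := hmem T' hT'
      apply pat_translate_eq h h1 h1' (by omega) (by omega) (t := 0)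
      simp only [add_zero, Finset.image_id']
      exact heq.symm
    rw [hcard, hTT, Finset.card_powersetCard, Finset.card_range] at key
    have h1 : C * (X e k).card ≤ C * (k * k) := Nat.mul_le_mul_left _ (card_X k)
    have h2 : k.choose 3 ≤ C * (k * k) := key.trans h1
    have h3 := Nat.descFactorial_eq_factorial_mul_choose k 3
    have h4 : k.descFactorial 3 = (6 * C + 7) * (6 * C + 8) * (6 * C + 9) := by
      rw [hk]
      simp only [Nat.descFactorial_succ, Nat.descFactorial_zero]
      have e1 : 6 * C + 9 - 2 = 6 * C + 7 := by omega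
      have e2 : 6 * C + 9 - 1 = 6 * C + 8 := by omega
      rw [e1, e2]
      simp only [Nat.sub_zero]
      ring
    have h5 : Nat.factorial 3 = 6 := rfl
    rw [h4, h5] at h3
    have h6 : (6 * C + 7) * (6 * C + 8) * (6 * C + 9) ≤ 6 * (C * ((6 * C + 9) * (6 * C + 9))) := by
      rw [h3]
      exact Nat.mul_le_mul_left _ h2
    nlinarith
  · intro A hA
    obtain ⟨T, hT, rfl⟩ := Finset.mem_image.1 hA
    obtain ⟨h1, h2⟩ := hmem T hT
    have hne : T.Nonempty := Finset.card_pos.1 (by omega)
    have hbase := base_mem hne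
    refine ⟨?_, ?_, ?_, ?_⟩
    · have : (Finset.range k \ T).Nonempty := by
        apply Finset.card_pos.1
        rw [Finset.card_sdiff_of_subset h1, Finset.card_range]
        omega
      exact this.image _
    · have := pat_translate (e := e) h1 hbase
      simpa using this
    · obtain ⟨j, hj, hjne⟩ := Finset.exists_mem_ne (by omega : 1 < T.card) (base T)
      refine ⟨e (2 * j + 1) - e (2 * base T + 1), ?_, pat_translate h1 hj⟩
      intro h0
      have := hinj _ _ (sub_eq_zero.1 h0)
      omega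
    · intro B hB
      exact pat_maximal h h1 (by omega) B hB
  · intro A hA B hB t heq
    obtain ⟨T, hT, rfl⟩ := Finset.mem_image.1 hA
    obtain ⟨T', hT', rfl⟩ := Finset.mem_image.1 hB
    obtain ⟨h1, h2⟩ := hmem T hT
    obtain ⟨h1', h2'⟩ := hmem T' hT'
    rw [pat_translate_eq h h1 h1' (by omega) (by omega) heq]

end Pool.Agent.S06658
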