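import Pool.Statements.S06660
import Pool.Agent.H841R2.FlowHalf

set_option autoImplicit false
open Pool Pool.MP_862149_co

namespace Pool.Agent.S06660

/-- The negation of the preceding statement: For every finite multigraph (loops and parallel edges allowed) that is connected and stays connected after deleting any one edge, its flow polynomial, written as a signed sum over edge subsets, is positive at 5.5. -/
theorem result :
    ¬ (∀ (V E : Type) [Fintype V] [Fintype E] (ends : E → Sym2 V),
      (SimpleGraph.fromEdgeSet (Set.range ends)).Connected →
      (∀ e : E, (SimpleGraph.fromEdgeSet (ends '' ({e}ᶜ : Set E))).Connected) →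
      0 < ∑ A ∈ (Finset.univ : Finset E).powerset,
            (-1 : ℝ) ^ (Fintype.card E - A.card) *
              (11 / 2 : ℝ) ^ ((A.card +
                Nat.card (SimpleGraph.fromEdgeSet (ends '' (A : Set E))).ConnectedComponent)
                  - Fintype.card V)) := by
  intro H
  obtain ⟨n, k, src, tgt, h⟩ := Pool.Agent.H841R2.FlowHalf.exists_neg_value
  exact absurd h (not_lt.2 (Pool.Agent.H841R2.FlowHalf.nonneg_of H _ _ _ _ rfl))

end Pool.Agent.S06660
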