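import Pool.Statements.S06674
import Pool.Agent.H139R2.RL.Main
import Pool.Agent.H139R2.GP.Final
import Pool.Agent.H137R2.PFR.Wrap
import Pool.Agent.H460R2.RMc
import Pool.Agent.H460R2.Claim
import Pool.Agent.H460R2.PtsBound

set_option autoImplicit false
open scoped Pointwise
open Pool Pool.MP_86f7a7_co

namespace Pool.Agent.S06674

/-- The negation of the preceding statement: There are absolute constants C,c>0 such that any finite nonempty A in a torsion-free abelian group with ∣A+A∣ ≤ K∣A∣ meets, in at least C⁻¹K^(-c)∣A∣ points, a progression of rank at most C·K^c and size at most C·K^c·∣A∣. -/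
theorem result :
    ¬ (∃ C : ℝ, 0 < C ∧ ∃ c : ℝ, 0 < c ∧
  ∀ (G : Type) [AddCommGroup G],
    (∀ (n : ℕ) (x : G), n ≠ 0 → n • x = 0 → x = 0) →
    ∀ (A : Set G) (K : ℝ), A.Finite → A.Nonempty →
      ((A + A).ncard : ℝ) ≤ K * (A.ncard : ℝ) →
      ∃ (d : ℕ) (a : G) (v : Fin d → G) (N : Fin d → ℕ) (P : Set G),
        P = {x : G | ∃ k : Fin d → ℕ, (∀ i, k i < N i) ∧ x = a + ∑ i, k i • v i} ∧
        (d : ℝ) ≤ C * K ^ c ∧
        (P.ncard : ℝ) ≤ C * K ^ c * (A.ncard : ℝ) ∧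
        C⁻¹ * K ^ (-c) * (A.ncard : ℝ) ≤ ((A ∩ P).ncard : ℝ)) := by
  refine H139R2.GP.gap_final H139R2.random_lattice
    (H460.claimStar (H460.rm_of_pfr2 H137.PFR.pfr2Statement)) ?_
  intro n μ hμ L hL V d hd S hS hz
  obtain ⟨z, hz⟩ := hz
  exact H460.pts_bound hμ hL V hd S hS z hz

end Pool.Agent.S06674
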