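import Pool.Statements.S06714
import Pool.Agent.H199R2.Coalition

set_option autoImplicit false
open Pool Pool.MP_88b929_co

namespace Pool.Agent.S06714

/-- The negation of the preceding statement: There is a constant C such that for all large N, whenever the two-colour coalition has a winning strategy in the (2:1) game on K_N for a red or white K_q, then q is at most 2 log_3 N − 2 log_3 log_3 N + C. -/
theorem result :
    ¬ (∃ C : ℝ, ∃ N₀ : ℕ, ∀ N : ℕ, N₀ ≤ N → ∀ q : ℕ,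
    (∀ S : Set (Set (Fin N × Fin N) × Set (Fin N × Fin N) × Set (Fin N × Fin N)),
      (∀ R W B : Set (Fin N × Fin N),
        ((∃ e f : Fin N × Fin N, e.1 < e.2 ∧ f.1 < f.2 ∧ e ≠ f ∧ e ∉ R ∧ e ∉ W ∧ e ∉ B ∧
            f ∉ R ∧ f ∉ W ∧ f ∉ B ∧
            ((∃ K : Finset (Fin N), K.card = q ∧
                ∀ x ∈ K, ∀ y ∈ K, x < y → (x, y) ∈ insert e R) ∨
             (∃ K : Finset (Fin N), K.card = q ∧
                ∀ x ∈ K, ∀ y ∈ K, x < y → (x, y) ∈ insert f W) ∨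
             ((∃ g : Fin N × Fin N, g.1 < g.2 ∧ g ∉ R ∧ g ∉ W ∧ g ∉ B ∧ g ≠ e ∧ g ≠ f) ∧
              ∀ g : Fin N × Fin N, g.1 < g.2 → g ∉ R → g ∉ W → g ∉ B → g ≠ e → g ≠ f →
                (insert e R, insert f W, insert g B) ∈ S))) ∨
         (∃ e : Fin N × Fin N, e.1 < e.2 ∧ e ∉ R ∧ e ∉ W ∧ e ∉ B ∧
            (∀ f : Fin N × Fin N, f.1 < f.2 → f ∉ R → f ∉ W → f ∉ B → f = e) ∧
            ((∃ K : Finset (Fin N), K.card = q ∧
                ∀ x ∈ K, ∀ y ∈ K, x < y → (x, y) ∈ insert e R) ∨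
             (∃ K : Finset (Fin N), K.card = q ∧
                ∀ x ∈ K, ∀ y ∈ K, x < y → (x, y) ∈ insert e W)))) →
        (R, W, B) ∈ S) →
      ((∅ : Set (Fin N × Fin N)), (∅ : Set (Fin N × Fin N)), (∅ : Set (Fin N × Fin N))) ∈ S) →
    (q : ℝ) ≤ 2 * Real.logb 3 (N : ℝ) - 2 * Real.logb 3 (Real.logb 3 (N : ℝ)) + C) := by
  rintro ⟨C, N₀, h⟩
  obtain ⟨n, q, hN, hlt, hwin⟩ := Pool.Agent.H199R2.Coalition.main C N₀
  exact absurd (h (n + n) hN q (fun S hS => hwin S hS)) (not_le.mpr hlt)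


end Pool.Agent.S06714
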