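import Pool.Statements.S06759
import Pool.Agent.H149R2.SD.Wrap

set_option autoImplicit false
open N3e647761
open scoped Pointwise
open Pool Pool.MP_8be780_co

namespace Pool.Agent.S06759

/-- The real supremum over finite A ⊆ ℤ of log∣A−A∣/log∣A+A∣ (degenerate A give 0/0=0, harmless; set bounded by Freiman–Pigaev so sSup is genuine) is strictly less than 4/3. -/
theorem result :
    C3e < 4 / 3 := by
  have h : C3e ≤ 11071 / 8304 := by
    unfold C3e
    refine csSup_le ⟨_, ∅, rfl⟩ ?_
    rintro x ⟨A, rfl⟩
    exact Pool.Agent.H149R2.SD.ratio_le A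
  exact h.trans_lt (by norm_num)

end Pool.Agent.S06759
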