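import Pool.Statements.S06921
import Pool.Agent.H262R2.Crown

set_option autoImplicit false
open Pool Pool.MP_96500d_co

namespace Pool.Agent.S06921

open Pool.Agent.H262R2

theorem eqv_of_walk {A : Type} [PartialOrder A] {a b : A} (w : (G A).Walk a b) :
    Relation.EqvGen (· ≤ ·) a b := by
  induction w with
  | nil => exact Relation.EqvGen.refl _
  | @cons a c b hac w ih =>
    refine Relation.EqvGen.trans _ _ _ ?_ ih
    rcases (SimpleGraph.fromRel_adj _ _ _).1 hac with ⟨_, h | h⟩
    · exact Relation.EqvGen.rel _ _ h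
    · exact (Relation.EqvGen.rel _ _ h).symm _ _

theorem conn_of_ne_top {A : Type} [PartialOrder A]
    (h : (⨆ f : A →o A, ⨅ a : A, (G A).edist a (f a)) ≠ ⊤) : Conn A := by
  classical
  intro a b
  by_contra hab
  apply h
  let u : A →o A := ⟨fun x => if Relation.EqvGen (· ≤ ·) x a then b else a, by
    intro x y hxy
    have hxy' : Relation.EqvGen (· ≤ ·) x y := Relation.EqvGen.rel _ _ hxy
    have : Relation.EqvGen (· ≤ ·) x a ↔ Relation.EqvGen (· ≤ ·) y a :=
      ⟨fun h => (hxy'.symm _ _).trans _ _ _ h, fun h => hxy'.trans _ _ _ h⟩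
    show (if Relation.EqvGen (· ≤ ·) x a then b else a) ≤
      (if Relation.EqvGen (· ≤ ·) y a then b else a)
    by_cases hx : Relation.EqvGen (· ≤ ·) x a
    · rw [if_pos hx, if_pos (this.1 hx)]
    · rw [if_neg hx, if_neg (fun h => hx (this.2 h))]⟩
  rw [eq_top_iff]
  refine le_trans ?_ (le_iSup _ u)
  refine le_iInf fun x => ?_
  rw [top_le_iff]
  by_contra hne
  obtain ⟨w, _⟩ := SimpleGraph.exists_walk_of_edist_ne_top hne
  have hw := eqv_of_walk w
  by_cases hx : Relation.EqvGen (· ≤ ·) x a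
  · have hux : u x = b := if_pos hx
    rw [hux] at hw
    exact hab ((hx.symm _ _).trans _ _ _ hw)
  · have hux : u x = a := if_neg hx
    rw [hux] at hw
    exact hx hw

theorem edist_crown {n : ℕ} (m : ℕ) :
    (G (Crown n)).edist (Crown.mk false 0) (Crown.mk false (m : ZMod n)) ≤ ((2 * m : ℕ) : ℕ∞) := by
  induction m with
  | zero => rw [Nat.cast_zero]; simp
  | succ m ih =>
    have h1 : Crown.mk (n := n) false ((m + 1 : ℕ) : ZMod n) ≤ Crown.mk true (m : ZMod n) := by
      rw [Crown.le_def]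
      refine Or.inr ⟨rfl, rfl, Or.inr ?_⟩
      show ((m + 1 : ℕ) : ZMod n) = (m : ZMod n) + 1
      push_cast; rfl
    have h2 : Crown.mk (n := n) false (m : ZMod n) ≤ Crown.mk true (m : ZMod n) := by
      rw [Crown.le_def]
      exact Or.inr ⟨rfl, rfl, Or.inl rfl⟩
    calc (G (Crown n)).edist (Crown.mk false 0) (Crown.mk false ((m + 1 : ℕ) : ZMod n))
        ≤ (G (Crown n)).edist (Crown.mk false 0) (Crown.mk false (m : ZMod n)) +
          (G (Crown n)).edist (Crown.mk false (m : ZMod n)) (Crown.mk false ((m + 1 : ℕ) : ZMod n)) :=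
            SimpleGraph.edist_triangle
      _ ≤ ((2 * m : ℕ) : ℕ∞) + ((G (Crown n)).edist (Crown.mk false (m : ZMod n)) (Crown.mk true (m : ZMod n)) +
          (G (Crown n)).edist (Crown.mk true (m : ZMod n)) (Crown.mk false ((m + 1 : ℕ) : ZMod n))) :=
            add_le_add ih SimpleGraph.edist_triangle
      _ ≤ ((2 * m : ℕ) : ℕ∞) + (1 + 1) :=
            add_le_add le_rfl (add_le_add (edist_step (Or.inl h2)) (edist_step (Or.inr h1)))
      _ = ((2 * (m + 1) : ℕ) : ℕ∞) := by push_cast; ring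

theorem upper {P Q : Type} [PartialOrder P] [PartialOrder Q] [Fintype P] [Fintype Q] [Nonempty P]
    (hPc : Conn P) (k : ℕ) (hP : ∀ u : P →o P, ∃ z, Alt true (2 * k) z (u z))
    (hQ : ∀ u : Q →o Q, ∃ z, Alt true (2 * k) z (u z)) (f : P × Q →o P × Q) :
    ∃ x, (G (P × Q)).edist x (f x) ≤ ((2 * k : ℕ) : ℕ∞) := by
  rcases Nat.eq_zero_or_pos k with rfl | hk
  · obtain ⟨ξ, hξ⟩ := main_prod (J := Unit) hPc (fun _ _ => Relation.EqvGen.refl _)
      (OrderIso.refl Unit) ()
      (fun u => by
        obtain ⟨z, hz⟩ := hP u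
        exact ⟨⟨fun _ => z, fun _ _ _ => le_rfl⟩, fun _ => hz⟩)
      (fun u => by
        obtain ⟨z, hz⟩ := hQ u
        exact ⟨⟨fun _ => z, fun _ _ _ => le_rfl⟩, fun _ => hz⟩) f
    refine ⟨ξ (), ?_⟩
    have h' : f (ξ ()) = ξ () := hξ.symm
    rw [h', SimpleGraph.edist_self]
    exact bot_le
  · obtain ⟨N, hN, hNP, hNQ⟩ := unif_exp P Q
    have : NeZero (N * k) := ⟨Nat.mul_ne_zero hN.ne' hk.ne'⟩
    obtain ⟨ξ, hξ⟩ := main_prod (J := Crown (N * k)) hPc Crown.conn
      (Crown.rot (k : ZMod (N * k))) (Crown.mk false 0)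
      (fun u => by
        obtain ⟨z, hz⟩ := hP u
        exact crown_map u k N hk (hNP u) z hz)
      (fun u => by
        obtain ⟨z, hz⟩ := hQ u
        exact crown_map u k N hk (hNQ u) z hz) f
    refine ⟨ξ (Crown.mk false 0), ?_⟩
    rw [← hξ]
    refine le_trans (edist_map ξ (fun _ _ h => ξ.monotone h) _ _) ?_
    have : Crown.rot (k : ZMod (N * k)) (Crown.mk false 0) = Crown.mk false (k : ZMod (N * k)) := by
      show Crown.mk false (0 + (k : ZMod (N * k))) = _
      rw [zero_add]
    rw [this]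
    exact edist_crown k

theorem attained {A : Type} [PartialOrder A] [Fintype A] [Nonempty A] (n : ℕ)
    (h : (⨆ f : A →o A, ⨅ a : A, (G A).edist a (f a)) ≤ (n : ℕ∞)) (u : A →o A) :
    ∃ z, Alt true (2 * (n / 2)) z (u z) := by
  obtain ⟨a, ha⟩ := exists_eq_ciInf_of_finite (f := fun a : A => (G A).edist a (u a))
  refine parity u n a (alt_of_edist ?_)
  calc (G A).edist a (u a) = ⨅ a : A, (G A).edist a (u a) := ha
    _ ≤ ⨆ f : A →o A, ⨅ a : A, (G A).edist a (f a) := le_iSup
      (f := fun f : A →o A => ⨅ a : A, (G A).edist a (f a)) u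
    _ ≤ n := h

/-- For all finite nonempty posets P, Q, the max over order-preserving self-maps f of the min over points a of the fence distance from a to f(a) is the same for P×Q as the larger of the two values for P and for Q. -/
theorem result :
    ∀ (P Q : Type) [PartialOrder P] [Fintype P] [Nonempty P]
      [PartialOrder Q] [Fintype Q] [Nonempty Q],
      (⨆ f : (P × Q) →o (P × Q), ⨅ a : P × Q,
          (SimpleGraph.fromRel (fun x y : P × Q => x ≤ y)).edist a (f a)) =
        max (⨆ f : P →o P, ⨅ a : P,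
              (SimpleGraph.fromRel (fun x y : P => x ≤ y)).edist a (f a))
            (⨆ f : Q →o Q, ⨅ a : Q,
              (SimpleGraph.fromRel (fun x y : Q => x ≤ y)).edist a (f a)) := by
  intro P Q _ _ _ _ _ _
  apply le_antisymm
  · apply iSup_le
    intro f
    by_cases htop : max (⨆ f : P →o P, ⨅ a : P, (G P).edist a (f a))
        (⨆ f : Q →o Q, ⨅ a : Q, (G Q).edist a (f a)) = ⊤
    · exact le_trans le_top htop.ge
    · obtain ⟨n, hn⟩ := ENat.ne_top_iff_exists.1 htop
      have h1 : (⨆ f : P →o P, ⨅ a : P, (G P).edist a (f a)) ≤ (n : ℕ∞) := by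
        rw [hn]; exact le_max_left _ _
      have h2 : (⨆ f : Q →o Q, ⨅ a : Q, (G Q).edist a (f a)) ≤ (n : ℕ∞) := by
        rw [hn]; exact le_max_right _ _
      have hPc : Conn P := conn_of_ne_top (ne_top_of_le_ne_top (ENat.natCast_ne_top n) h1)
      obtain ⟨x, hx⟩ := upper hPc (n / 2) (attained n h1) (attained n h2) f
      have hle : ((2 * (n / 2) : ℕ) : ℕ∞) ≤ (n : ℕ∞) := by
        exact_mod_cast (Nat.mul_div_le n 2)
      refine le_trans (iInf_le _ x) (le_trans hx (le_trans hle ?_))
      exact hn.le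
  · apply max_le
    · apply iSup_le
      intro g
      let f : P × Q →o P × Q := ⟨fun x => (g x.1, x.2), fun x y h => ⟨g.monotone h.1, h.2⟩⟩
      refine le_trans ?_ (le_iSup _ f)
      refine le_iInf fun x => le_trans (iInf_le _ x.1) ?_
      exact edist_map (A := P × Q) (B := P) Prod.fst (fun _ _ h => (Prod.le_def.1 h).1) x (f x)
    · apply iSup_le
      intro g
      let f : P × Q →o P × Q := ⟨fun x => (x.1, g x.2), fun x y h => ⟨h.1, g.monotone h.2⟩⟩
      refine le_trans ?_ (le_iSup _ f)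
      refine le_iInf fun x => le_trans (iInf_le _ x.2) ?_
      exact edist_map (A := P × Q) (B := Q) Prod.snd (fun _ _ h => (Prod.le_def.1 h).2) x (f x)

end Pool.Agent.S06921
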