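import Pool.Statements.S06973
import Pool.Agent.H993R2.TP.Final
import Pool.Agent.H993R2.TP.Rep

set_option autoImplicit false
open Pool Pool.MP_99d303_co

namespace Pool.Agent.S06973

open Pool.Agent.H993R2.TP

lemma good_of_free {n : ℕ} (H : Finset (Finset (Fin n)))
    (hfree : ¬ ∃ a b c d e : Fin n, [a, b, c, d, e].Nodup ∧
            ({a, b, c} : Finset (Fin n)) ∈ H ∧ ({b, c, d} : Finset (Fin n)) ∈ H ∧
            ({c, d, e} : Finset (Fin n)) ∈ H) :
    Rep.Good (fun x y z : Fin n => x ≠ y ∧ x ≠ z ∧ y ≠ z ∧ ({x, y, z} : Finset (Fin n)) ∈ H) where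
  s12 := by
    rintro x y z ⟨h1, h2, h3, h4⟩
    refine ⟨h1.symm, h3, h2, ?_⟩
    rw [Finset.insert_comm]
    exact h4
  s23 := by
    rintro x y z ⟨h1, h2, h3, h4⟩
    refine ⟨h2, h1, h3.symm, ?_⟩
    rw [Finset.pair_comm]
    exact h4
  n12 := fun h => h.1
  n13 := fun h => h.2.1
  n23 := fun h => h.2.2.1
  free := by
    rintro a b c d e h1 h2 h3 ⟨a1, a2, a3, a4⟩ ⟨b1, b2, b3, b4⟩ ⟨c1, c2, c3, c4⟩
    apply hfree
    refine ⟨a, b, c, d, e, ?_, a4, b4, c4⟩
    simp only [List.nodup_cons, List.mem_cons, List.not_mem_nil, or_false, not_or,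
      List.nodup_nil, and_true, not_false_eq_true]
    exact ⟨⟨a1, a2, h1, h2⟩, ⟨b1, b2, h3⟩, ⟨c1, c2⟩, c3⟩

/-- For every ε>0 and all large t, if n ≥ εt², then any family of triples on n points contains a tight 3-edge path on 5 distinct vertices, or has a t-set spanning none of its triples; that is, r_3(P_3,K_t)=o(t^2). -/
theorem result :
    ∀ ε : ℝ, 0 < ε → ∃ T : ℕ, ∀ t : ℕ, T ≤ t → ∀ n : ℕ, ε * (t : ℝ) ^ 2 ≤ (n : ℝ) →
      ∀ H : Finset (Finset (Fin n)),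
        (∃ a b c d e : Fin n, [a, b, c, d, e].Nodup ∧
            ({a, b, c} : Finset (Fin n)) ∈ H ∧ ({b, c, d} : Finset (Fin n)) ∈ H ∧
            ({c, d, e} : Finset (Fin n)) ∈ H) ∨
        (∃ S : Finset (Fin n), S.card = t ∧
            ∀ x y z : Fin n, x ∈ S → y ∈ S → z ∈ S → x ≠ y → x ≠ z → y ≠ z →
              ({x, y, z} : Finset (Fin n)) ∉ H) := by
  intro ε hε
  have hse : 0 < Real.sqrt ε := Real.sqrt_pos.mpr hε
  obtain ⟨s0, hs0⟩ := main (1 + 1 / Real.sqrt ε) (by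
    have : 0 < 1 / Real.sqrt ε := by positivity
    linarith)
  obtain ⟨T, hT⟩ := exists_nat_ge (s0 / Real.sqrt ε)
  refine ⟨T, ?_⟩
  intro t ht n hn H
  by_cases hP : ∃ a b c d e : Fin n, [a, b, c, d, e].Nodup ∧
            ({a, b, c} : Finset (Fin n)) ∈ H ∧ ({b, c, d} : Finset (Fin n)) ∈ H ∧
            ({c, d, e} : Finset (Fin n)) ∈ H
  · exact Or.inl hP
  right
  have hgood := good_of_free H hP
  have hs1 : Real.sqrt ε * t ≤ Real.sqrt n := by
    have h1 : Real.sqrt (ε * (t : ℝ) ^ 2) ≤ Real.sqrt n := Real.sqrt_le_sqrt hn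
    rwa [Real.sqrt_mul hε.le, Real.sqrt_sq (Nat.cast_nonneg t)] at h1
  have hs2 : s0 ≤ Real.sqrt n := by
    have h1 : s0 ≤ T * Real.sqrt ε := by
      rwa [div_le_iff₀ hse] at hT
    have h2 : (T : ℝ) * Real.sqrt ε ≤ t * Real.sqrt ε := by
      apply mul_le_mul_of_nonneg_right _ hse.le
      exact_mod_cast ht
    linarith
  obtain ⟨S, hS, hcard⟩ := hs0 (Fin n) (Rep.sys hgood) (Real.sqrt n) hs2 (by
    rw [Fintype.card_fin, Real.sq_sqrt (Nat.cast_nonneg n)])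
  have htS : t ≤ S.card := by
    have h1 : (t : ℝ) ≤ 1 / Real.sqrt ε * Real.sqrt n := by
      rw [one_div_mul_eq_div, le_div_iff₀ hse]
      linarith
    have h2 : (t : ℝ) ≤ S.card := by
      have h3 := Real.sqrt_nonneg (n : ℝ)
      have h4 : (1 + 1 / Real.sqrt ε) * Real.sqrt n
          = Real.sqrt n + 1 / Real.sqrt ε * Real.sqrt n := by ring
      rw [h4] at hcard
      linarith
    exact_mod_cast h2
  obtain ⟨S', hS', hc⟩ := Finset.exists_subset_card_eq htS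
  refine ⟨S', hc, ?_⟩
  intro x y z hx hy hz hxy hxz hyz hmem
  have htri := Rep.cover hgood (x := x) (y := y) (z := z) ⟨hxy, hxz, hyz, hmem⟩
  rcases htri with h | h | h
  · exact hS x (hS' hx) y (hS' hy) z (hS' hz) h
  · exact hS y (hS' hy) x (hS' hx) z (hS' hz) h
  · exact hS z (hS' hz) x (hS' hx) y (hS' hy) h

end Pool.Agent.S06973
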