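import Pool.Statements.S07101
import Pool.Agent.H939R2.Edim.E2V
import Pool.Agent.H939R2.Edim.V2EFin

set_option autoImplicit false
open Pool Pool.MP_a20e8c_co

namespace Pool.Agent.S07101

open Pool.Agent.H939R2.Edim

/-- For every finite connected simple graph, `|V| ≤ |E| + 1`. -/
lemma card_le {V : Type} [Fintype V] [DecidableEq V] (G : SimpleGraph V) [DecidableRel G.Adj]
    (hG : G.Connected) : Fintype.card V ≤ G.edgeFinset.card + 1 := by
  obtain ⟨r⟩ := hG.nonempty
  obtain ⟨B, -⟩ := exists_base hG {r} ⟨r, Finset.mem_singleton_self r⟩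
  have := card_N B ∅ (by simp)
  simpa using this

lemma vres_univ {V : Type} [Fintype V] [DecidableEq V] (G : SimpleGraph V)
    (hG : G.Connected) (u v : V) (huv : u ≠ v) :
    ∃ w ∈ (Finset.univ : Finset V), G.dist u w ≠ G.dist v w := by
  refine ⟨u, Finset.mem_univ _, ?_⟩
  rw [SimpleGraph.dist_self]
  intro h
  exact huv ((hG.dist_eq_zero_iff).mp h.symm).symm

lemma eres_univ {V : Type} [Fintype V] [DecidableEq V] (G : SimpleGraph V)
    (hG : G.Connected) (a b c d : V) (hab : G.Adj a b) (_ : G.Adj c d)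
    (hne : s(a, b) ≠ s(c, d)) :
    ∃ w ∈ (Finset.univ : Finset V),
      min (G.dist a w) (G.dist b w) ≠ min (G.dist c w) (G.dist d w) := by
  by_contra hcon
  push Not at hcon
  have h1 := hcon a (Finset.mem_univ _)
  have h2 := hcon b (Finset.mem_univ _)
  rw [SimpleGraph.dist_self, Nat.zero_min] at h1
  rw [SimpleGraph.dist_self (v := b), Nat.min_zero] at h2
  have h3 : c = a ∨ d = a := by
    rcases Nat.min_eq_zero_iff.mp h1.symm with h | h
    · exact Or.inl ((hG.dist_eq_zero_iff).mp h)
    · exact Or.inr ((hG.dist_eq_zero_iff).mp h)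
  have h4 : c = b ∨ d = b := by
    rcases Nat.min_eq_zero_iff.mp h2.symm with h | h
    · exact Or.inl ((hG.dist_eq_zero_iff).mp h)
    · exact Or.inr ((hG.dist_eq_zero_iff).mp h)
  have hab' := hab.ne
  rcases h3 with h3 | h3 <;> rcases h4 with h4 | h4
  · exact hab' (h3.symm.trans h4)
  · subst h3 h4
    exact hne rfl
  · subst h3 h4
    exact hne Sym2.eq_swap
  · exact hab' (h3.symm.trans h4)

/-- For every finite connected graph not on exactly two vertices (i.e. not K2), the metric dimension and the edge metric dimension differ by at most the cyclomatic number, edges minus vertices plus one. -/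
theorem result :
  ∀ (V : Type) [Fintype V] [DecidableEq V] (G : SimpleGraph V) [DecidableRel G.Adj],
    G.Connected → Fintype.card V ≠ 2 →
    |((sInf {k : ℕ | ∃ S : Finset V, S.card = k ∧
          ∀ u v : V, u ≠ v → ∃ w ∈ S, G.dist u w ≠ G.dist v w} : ℕ) : ℤ)
      - ((sInf {k : ℕ | ∃ S : Finset V, S.card = k ∧
          ∀ a b c d : V, G.Adj a b → G.Adj c d → s(a, b) ≠ s(c, d) →
            ∃ w ∈ S, min (G.dist a w) (G.dist b w) ≠ min (G.dist c w) (G.dist d w)} : ℕ) : ℤ)|
      ≤ (G.edgeFinset.card : ℤ) - (Fintype.card V : ℤ) + 1 := by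
  intro V _ _ G _ hG hcard
  have hVE := card_le G hG
  set DV : Set ℕ := {k : ℕ | ∃ S : Finset V, S.card = k ∧
          ∀ u v : V, u ≠ v → ∃ w ∈ S, G.dist u w ≠ G.dist v w} with hDV
  set DE : Set ℕ := {k : ℕ | ∃ S : Finset V, S.card = k ∧
          ∀ a b c d : V, G.Adj a b → G.Adj c d → s(a, b) ≠ s(c, d) →
            ∃ w ∈ S, min (G.dist a w) (G.dist b w) ≠ min (G.dist c w) (G.dist d w)} with hDE
  have hDVne : DV.Nonempty := ⟨_, Finset.univ, rfl, fun u v h => vres_univ G hG u v h⟩
  have hDEne : DE.Nonempty :=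
    ⟨_, Finset.univ, rfl, fun a b c d h1 h2 h3 => eres_univ G hG a b c d h1 h2 h3⟩
  -- direction 1
  have dir1 : sInf DV + Fintype.card V ≤ sInf DE + G.edgeFinset.card + 1 := by
    obtain ⟨S, hSc, hS⟩ := Nat.sInf_mem hDEne
    rcases S.eq_empty_or_nonempty with hS0 | hS0
    · -- no two distinct edges
      subst hS0
      have hE : G.edgeFinset.card ≤ 1 := by
        by_contra hlt
        push Not at hlt
        obtain ⟨e, he, f, hf, hef⟩ := Finset.one_lt_card.mp hlt
        revert he hf hef
        refine Sym2.ind (fun a b => ?_) e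
        refine Sym2.ind (fun c d => ?_) f
        intro he hf hef
        rw [SimpleGraph.mem_edgeFinset, SimpleGraph.mem_edgeSet] at he hf
        obtain ⟨w, hw, -⟩ := hS a b c d he hf hef
        exact absurd hw (Finset.notMem_empty w)
      have hpos : 0 < Fintype.card V := Fintype.card_pos_iff.mpr hG.nonempty
      have hV1 : Fintype.card V = 1 := by omega
      have hsub : Subsingleton V := Fintype.card_le_one_iff_subsingleton.mp (le_of_eq hV1)
      have h0 : sInf DV ≤ 0 := Nat.sInf_le ⟨∅, Finset.card_empty, fun u v h =>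
        absurd (Subsingleton.elim u v) h⟩
      omega
    · obtain ⟨B, hB⟩ := exists_base hG S hS0
      subst hB
      obtain ⟨A, hA1, hA2⟩ := e2v B hS
      have h1 : sInf DV ≤ (B.S ∪ A).card := Nat.sInf_le ⟨B.S ∪ A, rfl, hA2⟩
      have h2 := Finset.card_union_le B.S A
      omega
  have dir2 : sInf DE + Fintype.card V ≤ sInf DV + G.edgeFinset.card + 1 := by
    obtain ⟨S, hSc, hS⟩ := Nat.sInf_mem hDVne
    rcases S.eq_empty_or_nonempty with hS0 | hS0
    · subst hS0
      have h0 : sInf DE ≤ 0 := Nat.sInf_le ⟨∅, Finset.card_empty, fun a b c d h1 _ _ => by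
        obtain ⟨w, hw, -⟩ := hS a b h1.ne
        exact absurd hw (Finset.notMem_empty w)⟩
      omega
    · obtain ⟨B, hB⟩ := exists_base hG S hS0
      subst hB
      obtain ⟨A, hA1, hA2⟩ := v2e B hS
      have h1 : sInf DE ≤ (B.S ∪ A).card := Nat.sInf_le ⟨B.S ∪ A, rfl, hA2⟩
      have h2 := Finset.card_union_le B.S A
      omega
  rw [abs_le]
  constructor <;> omega

end Pool.Agent.S07101
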