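import Pool.Statements.S07143
import Pool.Agent.Helper677.QSD
import Pool.Agent.H132.Final

set_option autoImplicit false
open Pool Pool.MP_a53b92_co

namespace Pool.Agent.S07143

/-- There is a bound N such that every 2-(v,k,λ) design with distinct blocks meeting in 0 or y points (both occurring), y ≥ 2, 2y < k < y(y+1), and no three pairwise disjoint blocks has v ≤ N. -/
theorem result :
    ∃ N : ℕ, ∀ (v k lam y : ℕ) (B : Finset (Finset (Fin v))),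
      2 ≤ y → 2 * y < k → k < y * (y + 1) →
      (∀ b ∈ B, b.card = k) →
      (∀ p q : Fin v, p ≠ q → (B.filter (fun b => p ∈ b ∧ q ∈ b)).card = lam) →
      (∀ b ∈ B, ∀ c ∈ B, b ≠ c → (b ∩ c).card = 0 ∨ (b ∩ c).card = y) →
      (∃ b ∈ B, ∃ c ∈ B, b ≠ c ∧ (b ∩ c).card = 0) →
      (∃ b ∈ B, ∃ c ∈ B, b ≠ c ∧ (b ∩ c).card = y) →
      (¬ ∃ a ∈ B, ∃ b ∈ B, ∃ c ∈ B, Disjoint a b ∧ Disjoint a c ∧ Disjoint b c) →
      v ≤ N := by
  refine ⟨5 * ((10 ^ 60) ^ 7) ^ 6, ?_⟩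
  intro v k lam y B h1 h2 h3 h4 h5 h6 h7 h8 h9
  have E : Pool.Agent.Helper677.QSD.Exceptional v k lam y B := ⟨h1, h2, h3, h4, h5, h6, h7, h8, h9⟩
  obtain ⟨m, θ, hk, hm, hmy, hθ, hlam, g1, g2, g3⟩ := Pool.Agent.Helper677.QSD.params E
  have hpos := Pool.Agent.Helper677.QSD.pos_part hm hθ hlam g2
  have hv := Pool.Agent.Helper677.QSD.v_bound hm hmy hθ hlam hk g1 g2 g3
  have hmb := Pool.Agent.H132.Final.m_bound hm hmy hpos g1 g2
  have h10 : m ^ 6 ≤ ((10 ^ 60) ^ 7) ^ 6 := pow_le_pow_left₀ (by omega) hmb 6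
  have h11 : (v : ℤ) ≤ 5 * ((10 ^ 60) ^ 7) ^ 6 := by linarith
  exact_mod_cast h11

end Pool.Agent.S07143
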