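import Pool.Statements.S07226

set_option autoImplicit false
open Pool Pool.MP_a9902f_co

namespace Pool.Agent.S07226

/-- The big factor, a translate of Szabo's perturbed grid in
`Z_900 = Z_4 x Z_9 x Z_25`. -/
def RR : Finset ℕ :=
  {0, 24, 54, 69, 84, 174, 180, 204, 214, 234, 264, 354, 360, 384, 444, 474, 514, 519, 534,
    540, 564, 594, 624, 654, 720, 774, 804, 814, 834, 894}

/-- The box `[0,2) x [0,3) x [0,5)` in `Z_900 = Z_4 x Z_9 x Z_25`. -/
def SS : Finset ℕ :=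
  {0, 1, 28, 29, 100, 101, 128, 153, 200, 225, 252, 253, 325, 352, 353, 425, 452, 477, 504,
    576, 577, 604, 676, 677, 704, 729, 776, 801, 828, 829}

theorem surj : ∀ k < 900, ∃ rs ∈ RR ×ˢ SS, (rs.1 + rs.2) % 900 = k := by
  decide +kernel

theorem cardRS : (RR ×ˢ SS).card = 900 := by
  decide +kernel

theorem inj : ∀ a ∈ RR ×ˢ SS, ∀ b ∈ RR ×ˢ SS, (a.1 + a.2) % 900 = (b.1 + b.2) % 900 → a = b := by
  have h := Finset.injOn_of_surjOn_of_card_le (s := RR ×ˢ SS) (t := Finset.range 900)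
    (fun rs : ℕ × ℕ => (rs.1 + rs.2) % 900)
    (by
      intro a _
      simp only [Finset.coe_range, Set.mem_Iio]
      exact Nat.mod_lt _ (by norm_num))
    (by
      intro k hk
      simp only [Finset.coe_range, Set.mem_Iio] at hk
      obtain ⟨rs, hrs, h⟩ := surj k hk
      exact ⟨rs, by exact_mod_cast hrs, h⟩)
    (by rw [cardRS, Finset.card_range])
  intro a ha b hb hab
  exact h (by exact_mod_cast ha) (by exact_mod_cast hb) hab

/-- The negation of the preceding statement: For coprime p,q ≥ 2 there is no n ≥ 1 and no finite sets R,S of naturals with 0,p,q in R and 0,1 in S such that every residue mod n is r+s mod n for exactly one pair (r,s) in R×S. -/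
theorem result :
    ¬ (∀ p q : ℕ, 2 ≤ p → 2 ≤ q → Nat.Coprime p q →
      ¬ ∃ n : ℕ, 1 ≤ n ∧ ∃ R S : Finset ℕ,
        0 ∈ R ∧ p ∈ R ∧ q ∈ R ∧ 0 ∈ S ∧ 1 ∈ S ∧
        ∀ x : ZMod n, ∃! rs : ℕ × ℕ,
          rs.1 ∈ R ∧ rs.2 ∈ S ∧ (((rs.1 + rs.2 : ℕ)) : ZMod n) = x) := by
  intro h
  refine h 69 214 (by norm_num) (by norm_num) (by norm_num) ⟨900, by norm_num, RR, SS,
    by decide +kernel, by decide +kernel, by decide +kernel, by decide +kernel,
    by decide +kernel, ?_⟩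
  intro x
  have hx : ((x.val : ℕ) : ZMod 900) = x := ZMod.natCast_zmod_val x
  obtain ⟨rs, hrs, hk⟩ := surj x.val (ZMod.val_lt x)
  rw [Finset.mem_product] at hrs
  refine ⟨rs, ⟨hrs.1, hrs.2, ?_⟩, ?_⟩
  · rw [← hx, ZMod.natCast_eq_natCast_iff']
    rw [hk, Nat.mod_eq_of_lt (ZMod.val_lt x)]
  · rintro rs' ⟨h1, h2, h3⟩
    apply inj rs' (Finset.mem_product.mpr ⟨h1, h2⟩) rs (Finset.mem_product.mpr hrs)
    rw [← hx, ZMod.natCast_eq_natCast_iff'] at h3
    rw [hk, h3, Nat.mod_eq_of_lt (ZMod.val_lt x)]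

end Pool.Agent.S07226
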