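import Pool.Statements.S07260
import Pool.Agent.Results.MP_abfa3d_co.EveryIntegerDegree

set_option autoImplicit false
open Pool Pool.MP_abfa3d_co

namespace Pool.Agent.S07260

/-- The negation of the preceding statement: For n-vertex graphs G1, G2 and real p>0, if n is at least ⌊Δ1/p⌋(Δ2+1)+⌊Δ2/p⌋(Δ1+1−p⌊Δ1/p⌋), then some relabelling of G2 overlaps G1 so that every vertex has fewer than p common edges. -/
theorem result :
    ¬ (∀ (n : ℕ) (p : ℝ), 0 < p →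
      ∀ (G₁ G₂ : SimpleGraph (Fin n)) [DecidableRel G₁.Adj] [DecidableRel G₂.Adj],
        (n : ℝ) ≥
          (⌊(G₁.maxDegree : ℝ) / p⌋ : ℝ) * ((G₂.maxDegree : ℝ) + 1) +
          (⌊(G₂.maxDegree : ℝ) / p⌋ : ℝ) *
            ((G₁.maxDegree : ℝ) + 1 - p * (⌊(G₁.maxDegree : ℝ) / p⌋ : ℝ)) →
        ∃ σ : Equiv.Perm (Fin n), ∀ v : Fin n,
          (((Finset.univ.filter
              (fun w : Fin n => G₁.Adj v w ∧ G₂.Adj (σ v) (σ w))).card : ℕ) : ℝ) < p) := by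
  intro H
  obtain ⟨G₁, G₂, i1, i2, h1, h2⟩ :=
    Pool.Agent.Results.MP_abfa3d_co.EveryIntegerDegree.result 2 4 (by norm_num) (by norm_num)
      (by decide) (by decide)
  obtain ⟨σ, hσ⟩ := H 4 ((2 : ℕ) : ℝ) (by norm_num) G₁ G₂ (by exact_mod_cast h1)
  obtain ⟨v, hv⟩ := h2 σ
  have h3 := hσ v
  have h4 : ((2 : ℕ) : ℝ) ≤ (((Finset.univ.filter
      (fun w : Fin 4 => G₁.Adj v w ∧ G₂.Adj (σ v) (σ w))).card : ℕ) : ℝ) := by
    exact_mod_cast hv
  exact absurd h3 (not_lt.2 h4)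

end Pool.Agent.S07260
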