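import Pool.Statements.S07336
-- import your own Pool.Agent.* helpers here

set_option autoImplicit false
open Pool Pool.MP_b020eb_co

namespace Pool.Agent.S07336

/-!
The counterexample: a 3-regular oriented graph on 13 = 4 * 3 + 1 vertices, strongly connected after the
deletion of any one vertex, with no directed Hamilton cycle.
-/

/-- Out-neighbours of each of the 13 vertices. -/
def nb : ℕ → List ℕ
  | 0 => [1, 2, 6]
  | 1 => [4, 8, 10]
  | 2 => [9, 10, 11]
  | 3 => [2, 4, 11]
  | 4 => [8, 11, 12]
  | 5 => [0, 2, 3]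
  | 6 => [1, 3, 7]
  | 7 => [4, 9, 12]
  | 8 => [7, 10, 12]
  | 9 => [3, 5, 6]
  | 10 => [0, 6, 7]
  | 11 => [5, 8, 9]
  | 12 => [0, 1, 5]
  | _ => []

/-- The arc relation. -/
def G (u v : Fin 13) : Prop := (nb u.val).contains v.val = true

instance : DecidableRel G := fun _ _ => inferInstanceAs (Decidable (_ = true))

/-- Exhaustive search for a directed path through all vertices that ends at an in-neighbour of `0`:
`k` more vertices are to be visited, `vis` have been visited and the path stands at `v`. -/
def dfs : ℕ → List ℕ → ℕ → Bool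
  | 0, _, v => (nb v).contains 0
  | k + 1, vis, v => (nb v).any fun w => !(vis.contains w) && dfs k (w :: vis) w

theorem dfs_false : dfs 12 [0] 0 = false := by decide +kernel

/-- The vertices reached from `u` in at most `k` steps without visiting `x`. -/
def reach (x : Fin 13) : ℕ → Fin 13 → List (Fin 13)
  | 0, u => [u]
  | k + 1, u => reach x k u ++
      (List.finRange 13).filter (fun w => decide (w ≠ x) && (reach x k u).any (fun z => decide (G z w)))

theorem reach_sound (x u : Fin 13) (hu : u ≠ x) (k : ℕ) : ∀ v ∈ reach x k u, v ≠ x ∧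
    Relation.ReflTransGen (fun a b => G a b ∧ a ≠ x ∧ b ≠ x) u v := by
  induction k with
  | zero =>
    intro v hv
    simp only [reach, List.mem_singleton] at hv
    subst hv
    exact ⟨hu, Relation.ReflTransGen.refl⟩
  | succ k ih =>
    intro v hv
    simp only [reach, List.mem_append, List.mem_filter, List.mem_finRange, true_and,
      Bool.and_eq_true, decide_eq_true_eq, List.any_eq_true] at hv
    rcases hv with hv | ⟨hvx, z, hz, hzv⟩
    · exact ih v hv
    · obtain ⟨hzx, hp⟩ := ih z hz
      exact ⟨hvx, hp.tail ⟨hzv, hzx, hvx⟩⟩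

theorem reach_all : ∀ x u v : Fin 13, u ≠ x → v ≠ x → v ∈ reach x 4 u := by
  decide +kernel

theorem path_found (p : ℕ → ℕ) (hadj : ∀ i, i < 12 → (nb (p i)).contains (p (i + 1)) = true)
    (hlast : (nb (p 12)).contains 0 = true)
    (hinj : ∀ i j, i ≤ 12 → j ≤ 12 → p i = p j → i = j) :
    ∀ k j, j + k = 12 → ∀ vis : List ℕ, (∀ w ∈ vis, ∃ i, i ≤ j ∧ p i = w) →
      dfs k vis (p j) = true := by
  intro k
  induction k with
  | zero =>
    intro j hj vis _
    have : j = 12 := by omega
    subst this
    exact hlast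
  | succ k ih =>
    intro j hj vis hvis
    rw [dfs, List.any_eq_true]
    refine ⟨p (j + 1), ?_, ?_⟩
    · have := hadj j (by omega)
      rwa [List.contains_iff_mem] at this
    · rw [Bool.and_eq_true]
      constructor
      · rw [Bool.not_eq_true', ← Bool.not_eq_true, List.contains_iff_mem]
        intro hmem
        obtain ⟨i, hi, hpi⟩ := hvis _ hmem
        have := hinj i (j + 1) (by omega) (by omega) hpi
        omega
      · apply ih (j + 1) (by omega)
        intro w hw
        rcases List.mem_cons.mp hw with rfl | hw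
        · exact ⟨j + 1, le_refl _, rfl⟩
        · obtain ⟨i, hi, hpi⟩ := hvis w hw
          exact ⟨i, by omega, hpi⟩

theorem no_ham (σ : Equiv.Perm (Fin 13)) (hσ : ∀ i : Fin 13, G (σ i) (σ (finRotate 13 i))) :
    False := by
  have hrot : ∀ i : Fin 13, finRotate 13 i = i + 1 := fun i => finRotate_apply i
  simp only [hrot] at hσ
  obtain ⟨i0, hi0⟩ : ∃ i0 : Fin 13, σ i0 = 0 := ⟨σ.symm 0, by simp⟩
  have hstep : ∀ k : ℕ, i0 + Fin.ofNat 13 (k + 1) = i0 + Fin.ofNat 13 k + 1 := by
    intro k
    apply Fin.ext
    simp only [Fin.val_add, Fin.val_ofNat]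
    have : ((1 : Fin 13) : ℕ) = 1 := rfl
    omega
  have h13 : i0 + Fin.ofNat 13 12 + 1 = i0 := by
    apply Fin.ext
    simp only [Fin.val_add, Fin.val_ofNat]
    have : ((1 : Fin 13) : ℕ) = 1 := rfl
    omega
  have hzero : i0 + Fin.ofNat 13 0 = i0 := by
    apply Fin.ext
    simp only [Fin.val_add, Fin.val_ofNat]
    omega
  have h := path_found (fun k => (σ (i0 + Fin.ofNat 13 k)).val) ?_ ?_ ?_ 12 0 rfl [0] ?_
  · have h0 : (σ (i0 + Fin.ofNat 13 0)).val = 0 := by
      rw [hzero, hi0]
      rfl
    have h' : dfs 12 [0] (σ (i0 + Fin.ofNat 13 0)).val = true := h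
    rw [h0, dfs_false] at h'
    exact Bool.noConfusion h'
  · intro i _
    have := hσ (i0 + Fin.ofNat 13 i)
    rw [← hstep] at this
    exact this
  · have := hσ (i0 + Fin.ofNat 13 12)
    rw [h13, hi0] at this
    exact this
  · intro i j hi hj hij
    have h1 : i0 + Fin.ofNat 13 i = i0 + Fin.ofNat 13 j := σ.injective (Fin.val_injective hij)
    have h3 := congrArg Fin.val (add_left_cancel h1)
    rw [Fin.val_ofNat, Fin.val_ofNat] at h3
    omega
  · intro w hw
    rw [List.mem_singleton] at hw
    refine ⟨0, le_refl _, ?_⟩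
    show (σ (i0 + Fin.ofNat 13 0)).val = w
    rw [hzero, hi0, hw]
    rfl

/-- The negation of the preceding statement: For every d>2, every oriented graph on n≤6d vertices with all in- and out-degrees equal to d, at least 3 vertices, and strongly connected after deleting any one vertex, has a directed Hamilton cycle. -/
theorem result :
    ¬ (∀ (d n : ℕ) (adj : Fin n → Fin n → Prop),
      2 < d → n ≤ 6 * d →
      (∀ u v, adj u v → ¬ adj v u) →
      (∀ u, Set.ncard {v | adj u v} = d) →
      (∀ v, Set.ncard {u | adj u v} = d) →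
      3 ≤ n →
      (∀ x u v, u ≠ x → v ≠ x →
        Relation.ReflTransGen (fun a b => adj a b ∧ a ≠ x ∧ b ≠ x) u v) →
      ∃ σ : Equiv.Perm (Fin n), ∀ i : Fin n, adj (σ i) (σ (finRotate n i))) := by
  intro h
  obtain ⟨σ, hσ⟩ := h 3 13 G (by norm_num) (by norm_num) (by decide +kernel)
    (by
      intro u
      rw [Set.ncard_eq_toFinset_card']
      have : ∀ u : Fin 13, (Finset.univ.filter (fun v => G u v)).card = 3 := by decide +kernel
      rw [← this u]
      congr 1
      ext v
      simp)
    (by
      intro v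
      rw [Set.ncard_eq_toFinset_card']
      have : ∀ v : Fin 13, (Finset.univ.filter (fun u => G u v)).card = 3 := by decide +kernel
      rw [← this v]
      congr 1
      ext u
      simp)
    (by norm_num)
    (fun x u v hu hv => (reach_sound x u hu 4 v (reach_all x u v hu hv)).2)
  exact no_ham σ hσ

end Pool.Agent.S07336
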