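import Pool.Statements.S07451
import Pool.Agent.H277R2.OM6

set_option autoImplicit false
open Pool Pool.MP_b7b1cf_co

namespace Pool.Agent.S07451

/-- For oriented matroids M1, M2* on an n-element set (given by covector axioms) whose union is free and whose ranks sum to n: they share a nonzero covector iff they share a nonzero vector. -/
theorem result :
    ∀ (n : ℕ) (OM : Set (Fin n → SignType) → Prop)
      (Vec : Set (Fin n → SignType) → Set (Fin n → SignType))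
      (Indep : Set (Fin n → SignType) → Finset (Fin n) → Prop),
      (∀ L : Set (Fin n → SignType), OM L ↔
        ((0 : Fin n → SignType) ∈ L ∧
         (∀ X ∈ L, -X ∈ L) ∧
         (∀ X ∈ L, ∀ Y ∈ L, (fun e => if X e = 0 then Y e else X e) ∈ L) ∧
         (∀ X ∈ L, ∀ Y ∈ L, ∀ e : Fin n, X e ≠ 0 → X e = -Y e →
            ∃ Z ∈ L, Z e = 0 ∧
              ∀ f : Fin n, (X f = 0 ∨ X f ≠ -Y f) →
                Z f = (if X f = 0 then Y f else X f)))) →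
      (∀ (L : Set (Fin n → SignType)) (Y : Fin n → SignType), Y ∈ Vec L ↔
        ∀ X ∈ L, (∀ e : Fin n, X e * Y e = 0) ∨
          ∃ e f : Fin n, X e * Y e = 1 ∧ X f * Y f = -1) →
      (∀ (L : Set (Fin n → SignType)) (I : Finset (Fin n)), Indep L I ↔
        ∀ Y ∈ Vec L, Y ≠ 0 → ∃ e : Fin n, Y e ≠ 0 ∧ e ∉ I) →
      ∀ L₁ L₂ : Set (Fin n → SignType), OM L₁ → OM L₂ →
        (∃ I₁ I₂ : Finset (Fin n), Indep L₁ I₁ ∧ Indep L₂ I₂ ∧ I₁ ∪ I₂ = Finset.univ) →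
        (∃ B₁ B₂ : Finset (Fin n), Indep L₁ B₁ ∧ Indep L₂ B₂ ∧
          (∀ J : Finset (Fin n), Indep L₁ J → J.card ≤ B₁.card) ∧
          (∀ J : Finset (Fin n), Indep L₂ J → J.card ≤ B₂.card) ∧
          B₁.card + B₂.card = n) →
        ((∃ X : Fin n → SignType, X ≠ 0 ∧ X ∈ L₁ ∧ X ∈ L₂) ↔
          (∃ Y : Fin n → SignType, Y ≠ 0 ∧ Y ∈ Vec L₁ ∧ Y ∈ Vec L₂)) := by
  intro n OM Vec Indep hOM hVec hIndep L₁ L₂ hL₁ hL₂ _ ⟨B₁, B₂, hB₁, hB₂, hm₁, hm₂, hcard⟩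
  have hom : ∀ L, OM L → H277R2.OM.IsOM L := by
    intro L hL
    obtain ⟨a, b, c, d⟩ := (hOM L).1 hL
    exact ⟨a, b, c, d⟩
  have hvec : ∀ L, Vec L = H277R2.OM.Vc L := by
    intro L
    ext Y
    exact hVec L Y
  have hind : ∀ L I, Indep L I ↔ ∀ Y ∈ H277R2.OM.Vc L, Y ≠ 0 → ∃ e : Fin n, Y e ≠ 0 ∧ e ∉ I := by
    intro L I
    rw [hIndep, hvec]
  have h₁ := hom L₁ hL₁
  have h₂ := hom L₂ hL₂
  rw [hind] at hB₁ hB₂
  simp only [hind] at hm₁ hm₂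
  rw [hvec L₁, hvec L₂]
  constructor
  · rintro ⟨X, hX0, hX₁, hX₂⟩
    refine H277R2.OM.core (H277R2.OM.Vc_om h₁) (H277R2.OM.Vc_om h₂)
      (H277R2.OM.bas_dual hB₁ hm₁) (H277R2.OM.bas_dual hB₂ hm₂) ?_ hX0 ?_ ?_
    · rw [Finset.card_compl, Finset.card_compl, Fintype.card_fin]
      omega
    · intro Y hY
      exact H277R2.OM.orth_symm _ _ (hY X hX₁)
    · intro Y hY
      exact H277R2.OM.orth_symm _ _ (hY X hX₂)
  · rintro ⟨Y, hY0, hY₁, hY₂⟩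
    exact H277R2.OM.core h₁ h₂ (H277R2.OM.bas_primal h₁ hB₁ hm₁) (H277R2.OM.bas_primal h₂ hB₂ hm₂)
      hcard.ge hY0 hY₁ hY₂

end Pool.Agent.S07451
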