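import Pool.Statements.S07453
import Pool.Agent.H993R2.LT.Final

set_option autoImplicit false
open Pool Pool.MP_b7c82d_co

namespace Pool.Agent.S07453

open Pool.Agent.H993R2.LT in
/-- the triple system attached to a loose-triangle-free family without independent `t`-sets -/
noncomputable def toLS {n t : ℕ} (H : Finset (Finset (Fin n))) (h3 : ∀ x ∈ H, x.card = 3)
    (h1 : ¬ ∃ a b c d e f : Fin n, [a, b, c, d, e, f].Nodup ∧
            ({a, b, c} : Finset (Fin n)) ∈ H ∧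
            ({c, d, e} : Finset (Fin n)) ∈ H ∧
            ({e, f, a} : Finset (Fin n)) ∈ H)
    (h2 : ¬ ∃ S : Finset (Fin n), S.card = t ∧ ∀ x ∈ H, ¬ x ⊆ S) : LS (Fin n) where
  T := fun x y z => x ≠ y ∧ x ≠ z ∧ y ≠ z ∧ ({x, y, z} : Finset (Fin n)) ∈ H
  T12 := by
    rintro x y z ⟨a1, a2, a3, a4⟩
    refine ⟨a1.symm, a3, a2, ?_⟩
    rw [Finset.insert_comm]
    exact a4
  T23 := by
    rintro x y z ⟨a1, a2, a3, a4⟩
    refine ⟨a2, a1, a3.symm, ?_⟩
    rw [Finset.pair_comm]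
    exact a4
  T1 := fun h => h.1
  lf := by
    rintro a b c d e f hn ⟨-, -, -, b1⟩ ⟨-, -, -, b2⟩ ⟨-, -, -, b3⟩
    exact h1 ⟨a, b, c, d, e, f, hn, b1, b2, b3⟩
  κ := (t : ℝ)
  hind := by
    intro S hS
    by_contra hc
    push Not at hc
    have hc' : t ≤ S.card := by exact_mod_cast hc.le
    obtain ⟨S', hS', hcard⟩ := Finset.exists_subset_card_eq hc'
    apply h2
    refine ⟨S', hcard, ?_⟩
    intro x hx hxS
    obtain ⟨a, b, c, a1, a2, a3, rfl⟩ := Finset.card_eq_three.mp (h3 x hx)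
    have ha : a ∈ S := hS' (hxS (by simp))
    have hb : b ∈ S := hS' (hxS (by simp))
    have hc : c ∈ S := hS' (hxS (by simp))
    exact hS a ha b hb c hc ⟨a1, a2, a3, hx⟩

/-- For every ε>0, for all large t, every 3-uniform hypergraph on at least ε·t^(3/2) vertices contains a loose triangle abc,cde,efa on six distinct vertices or has t vertices containing no edge. -/
theorem result :
    ∀ ε : ℝ, 0 < ε → ∃ T : ℕ, ∀ t : ℕ, T ≤ t → ∀ n : ℕ,
      ε * (t : ℝ) ^ ((3 : ℝ) / 2) ≤ (n : ℝ) →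
      ∀ H : Finset (Finset (Fin n)), (∀ x ∈ H, x.card = 3) →
        (∃ a b c d e f : Fin n, [a, b, c, d, e, f].Nodup ∧
            ({a, b, c} : Finset (Fin n)) ∈ H ∧
            ({c, d, e} : Finset (Fin n)) ∈ H ∧
            ({e, f, a} : Finset (Fin n)) ∈ H) ∨
        (∃ S : Finset (Fin n), S.card = t ∧ ∀ x ∈ H, ¬ x ⊆ S) := by
  intro ε hε
  obtain ⟨τ0, hτ0⟩ := Pool.Agent.H993R2.LT.main_bound (max (32 / ε) 1) (le_max_right _ _)
  obtain ⟨T, hT⟩ := exists_nat_ge (τ0 ^ 2)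
  refine ⟨T + 2, ?_⟩
  intro t ht n hn H h3
  by_contra hcon
  rw [not_or] at hcon
  obtain ⟨h1, h2⟩ := hcon
  have ht2 : (2 : ℝ) ≤ t := by exact_mod_cast (by omega : 2 ≤ t)
  have htT : (T : ℝ) ≤ t := by exact_mod_cast (by omega : T ≤ t)
  have ht0 : (0 : ℝ) ≤ t := by linarith
  have hsq : Real.sqrt t ^ 2 = t := Real.sq_sqrt ht0
  have hs0 : 0 < Real.sqrt t := Real.sqrt_pos.mpr (by linarith)
  have h4 : τ0 ≤ Real.sqrt t := by
    apply Real.le_sqrt_of_sq_le
    linarith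
  have h5 := hτ0 n (toLS H h3 h1 h2) (Real.sqrt t) h4 (by rw [hsq]; exact le_rfl)
  rw [hsq] at h5
  have h6 : (t : ℝ) ^ ((3 : ℝ) / 2) = t * Real.sqrt t := by
    rw [show (3 : ℝ) / 2 = 1 + 1 / 2 by norm_num, Real.rpow_add (by linarith), Real.rpow_one,
      ← Real.sqrt_eq_rpow]
  rw [h6] at hn
  have h7 : 2 * (t : ℝ) ≤ max (32 / ε) 1 * n / (16 * Real.sqrt t) := by
    rw [le_div_iff₀ (by positivity)]
    calc 2 * (t : ℝ) * (16 * Real.sqrt t) = (32 / ε) * (ε * (t * Real.sqrt t)) := by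
          field_simp; ring
      _ ≤ (32 / ε) * n := mul_le_mul_of_nonneg_left hn (by positivity)
      _ ≤ max (32 / ε) 1 * n := mul_le_mul_of_nonneg_right (le_max_left _ _) (by positivity)
  linarith

end Pool.Agent.S07453
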