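import Pool.Statements.S07526
-- import your own Pool.Agent.* helpers here
import Pool.Agent.H169R3.KR.I1
import Pool.Agent.H169R3.KR.I2
import Pool.Agent.H169R3.KR.I3

set_option autoImplicit false
open Pool Pool.MP_bb931d_co

namespace Pool.Agent.S07526

open Pool.Agent.H169R3.KR in
/-- the group `C_2^5 × C_p` is not cyclic -/
theorem not_cyclic (p : ℕ) [Fact p.Prime] : ¬ IsAddCyclic ((Fin 5 → ZMod 2) × ZMod p) := by
  intro hc
  obtain ⟨g, hg⟩ := hc.exists_generator (α := (Fin 5 → ZMod 2) × ZMod p)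
  -- first components of multiples of g lie in {0, g.1}
  have key : ∀ n : ℤ, (n • g).1 = 0 ∨ (n • g).1 = g.1 := by
    intro n
    have h1 : (n • g).1 = n • g.1 := rfl
    rw [h1]
    rcases Int.even_or_odd' n with ⟨m, hm | hm⟩
    · left
      rw [hm]
      funext i
      simp only [Pi.smul_apply, Pi.zero_apply]
      have : ∀ a : ZMod 2, (2 * m) • a = 0 := by
        intro a
        rw [mul_comm, mul_smul]
        have : (2 : ℤ) • a = 0 := by
          revert a; decide
        rw [this, smul_zero]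
      exact this _
    · right
      rw [hm]
      funext i
      simp only [Pi.smul_apply]
      have : ∀ a : ZMod 2, (2 * m + 1) • a = a := by
        intro a
        rw [add_smul, mul_comm, mul_smul]
        have : (2 : ℤ) • a = 0 := by
          revert a; decide
        rw [this, smul_zero, zero_add, one_smul]
      exact this _
  have hall : ∀ v : Fin 5 → ZMod 2, v = 0 ∨ v = g.1 := by
    intro v
    obtain ⟨n, hn⟩ := AddSubgroup.mem_zmultiples_iff.mp (hg (v, 0))
    have := key n
    rw [hn] at this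
    exact this
  have h1 := hall (Pi.single 0 1)
  have h2 := hall (Pi.single 1 1)
  have e1 : (Pi.single 0 1 : Fin 5 → ZMod 2) ≠ 0 := by
    intro h
    have := congrFun h 0
    simp at this
  have e2 : (Pi.single 1 1 : Fin 5 → ZMod 2) ≠ 0 := by
    intro h
    have := congrFun h 1
    simp at this
  have h3 : (Pi.single 0 1 : Fin 5 → ZMod 2) = Pi.single 1 1 := by
    rw [h1.resolve_left e1, h2.resolve_left e2]
  have := congrFun h3 0
  simp at this

/-- The negation of the preceding statement: For every finite non-cyclic abelian group G with Davenport constant D, there is k* such that for all k ≥ k*, the largest number of minimal zero-sum sequences whose product equals a product of 2k+1 of them is exactly kD + floor(D/2). -/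
theorem result :
    ¬ (∀ (G : Type) [AddCommGroup G] [Finite G], ¬ IsAddCyclic G →
    ∃ kstar : ℕ, ∀ k : ℕ, kstar ≤ k → ∀ D : ℕ,
      IsGreatest {n : ℕ | ∃ A : Multiset G, A ≠ 0 ∧ A.sum = 0 ∧
          (∀ B : Multiset G, B ≤ A → B ≠ 0 → B.sum = 0 → B = A) ∧
          Multiset.card A = n} D →
      IsGreatest {l : ℕ | ∃ xs ys : List (Multiset G),
          xs.length = 2 * k + 1 ∧ ys.length = l ∧
          (∀ A ∈ xs, A ≠ 0 ∧ A.sum = 0 ∧
            ∀ B : Multiset G, B ≤ A → B ≠ 0 → B.sum = 0 → B = A) ∧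
          (∀ A ∈ ys, A ≠ 0 ∧ A.sum = 0 ∧
            ∀ B : Multiset G, B ≤ A → B ≠ 0 → B.sum = 0 → B = A) ∧
          xs.sum = ys.sum} (k * D + D / 2)) := by
  intro H
  obtain ⟨N, hN⟩ := Pool.Agent.H169R3.KR.structure_ms
  obtain ⟨p, hpN, hp⟩ := Nat.exists_infinite_primes (N + 1000)
  have : Fact p.Prime := ⟨hp⟩
  have hst := hN p (by omega)
  obtain ⟨kstar, hk⟩ := H ((Fin 5 → ZMod 2) × ZMod p) (not_cyclic p)
  have hD : IsGreatest {n : ℕ | ∃ A : Multiset ((Fin 5 → ZMod 2) × ZMod p), A ≠ 0 ∧ A.sum = 0 ∧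
          (∀ B : Multiset ((Fin 5 → ZMod 2) × ZMod p), B ≤ A → B ≠ 0 → B.sum = 0 → B = A) ∧
          Multiset.card A = n} (2 * p + 5) := by
    constructor
    · obtain ⟨A, hA, hc⟩ := Pool.Agent.H169R3.KR.example_atom p (by omega)
      exact ⟨A, hA.1, hA.2.1, hA.2.2, hc⟩
    · rintro n ⟨A, h1, h2, h3, h4⟩
      have := (hst A ⟨h1, h2, h3⟩).1
      omega
  obtain ⟨⟨xs, ys, hx, hy, hxa, hya, hs⟩, -⟩ := hk kstar le_rfl _ hD
  exact Pool.Agent.H169R3.KR.final_count p (by omega)
    (fun A hA => (hst A hA).1) (fun A hA => (hst A hA).2.1) (fun A hA => (hst A hA).2.2)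
    kstar xs ys hx hy (fun A hA => hxa A hA) (fun A hA => hya A hA) hs

end Pool.Agent.S07526
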