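import Pool.Statements.S07552
import Pool.Agent.H470R2.Box3

set_option autoImplicit false
open Pool Pool.MP_bd3044_co

namespace Pool.Agent.S07552

/-- The negation of the preceding statement: For each k ≥ 3 there is c > 0 such that for all x ≥ 2 and every finite set P in [0,x)^k, some box of half-open intervals inside [0,x)^k has ∣number of points of P in it minus its volume∣ > c (log x)^(k−1). -/
theorem result :
    ¬ (∀ k : ℕ, 3 ≤ k → ∃ c : ℝ, 0 < c ∧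
      ∀ x : ℝ, 2 ≤ x → ∀ P : Finset (Fin k → ℝ),
        (∀ p ∈ P, ∀ i, 0 ≤ p i ∧ p i < x) →
        ∃ a b : Fin k → ℝ, (∀ i, 0 ≤ a i ∧ a i ≤ b i ∧ b i ≤ x) ∧
          c * Real.log x ^ (k - 1) <
            |((((P : Set (Fin k → ℝ)) ∩
                {p : Fin k → ℝ | ∀ i, a i ≤ p i ∧ p i < b i}).ncard : ℕ) : ℝ)
              - ∏ i, (b i - a i)|) := by
  intro h
  obtain ⟨c, hc, hP⟩ := h 3 le_rfl
  obtain ⟨K, hK, hfin⟩ := H470R2.finite_all
  obtain ⟨M, hM8, hM3, hMc⟩ := H470R2.exists_good_M K (c / 72) (by positivity) 8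
  obtain ⟨X, Y, hX, hY, hb⟩ := hfin M hM3
  have hM1 : 1 ≤ M := by omega
  have hM0 : (0:ℝ) < M := by exact_mod_cast hM1
  set x : ℝ := (M:ℝ) ^ ((1:ℝ) / 3) with hx
  have hx0 : 0 < x := Real.rpow_pos_of_pos hM0 _
  have hx3 : x ^ 3 = M := by
    rw [hx, ← Real.rpow_natCast, ← Real.rpow_mul hM0.le]
    norm_num
  have hlogx : Real.log x = Real.log M / 3 := by
    rw [hx, Real.log_rpow hM0]; ring
  have hx2 : 2 ≤ x := by
    by_contra hcon
    push Not at hcon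
    have h1 : x ^ 3 < 2 ^ 3 := pow_lt_pow_left₀ hcon hx0.le (by norm_num)
    have h2 : (8:ℝ) ≤ M := by exact_mod_cast hM8
    rw [hx3] at h1
    linarith
  set f : ℕ → Fin 3 → ℝ := fun n => ![(n:ℝ) / M * x, X n * x, Y n * x] with hf
  set P : Finset (Fin 3 → ℝ) := (Finset.range M).image f with hPdef
  have hPmem : ∀ q ∈ P, ∀ i, 0 ≤ q i ∧ q i < x := by
    intro q hq i
    obtain ⟨n, hn, rfl⟩ := Finset.mem_image.1 hq
    have hnM : (n:ℝ) / M < 1 := by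
      rw [div_lt_one hM0]; exact_mod_cast Finset.mem_range.1 hn
    fin_cases i
    · show 0 ≤ (n:ℝ) / M * x ∧ (n:ℝ) / M * x < x
      exact ⟨by positivity, by nlinarith⟩
    · show 0 ≤ X n * x ∧ X n * x < x
      exact ⟨mul_nonneg (hX n).1 hx0.le, by nlinarith [(hX n).2]⟩
    · show 0 ≤ Y n * x ∧ Y n * x < x
      exact ⟨mul_nonneg (hY n).1 hx0.le, by nlinarith [(hY n).2]⟩
  obtain ⟨a, b, hab, hlt⟩ := hP x hx2 P hPmem
  have hfinj : Function.Injective f := by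
    intro n n' hnn'
    have h1 := congrFun hnn' 0
    have h2 : (n:ℝ) / M * x = (n':ℝ) / M * x := h1
    have h3 : (n:ℝ) / M = (n':ℝ) / M := mul_right_cancel₀ hx0.ne' h2
    have h4 : (n:ℝ) = n' := by
      field_simp at h3
      exact h3
    exact_mod_cast h4
  have hcount : ((P : Set (Fin 3 → ℝ)) ∩ {q : Fin 3 → ℝ | ∀ i, a i ≤ q i ∧ q i < b i}).ncard =
      ((Finset.range M).filter (fun n : ℕ => (a 0 / x ≤ (n:ℝ) / M ∧ (n:ℝ) / M < b 0 / x) ∧
        (a 1 / x ≤ X n ∧ X n < b 1 / x) ∧ (a 2 / x ≤ Y n ∧ Y n < b 2 / x))).card := by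
    have e1 : ((P : Set (Fin 3 → ℝ)) ∩ {q : Fin 3 → ℝ | ∀ i, a i ≤ q i ∧ q i < b i}) =
        ((((Finset.range M).filter (fun n : ℕ => (a 0 / x ≤ (n:ℝ) / M ∧ (n:ℝ) / M < b 0 / x) ∧
        (a 1 / x ≤ X n ∧ X n < b 1 / x) ∧ (a 2 / x ≤ Y n ∧ Y n < b 2 / x))).image f :
          Finset (Fin 3 → ℝ)) : Set (Fin 3 → ℝ)) := by
      ext q
      simp only [hPdef, Finset.coe_image, Set.mem_inter_iff, Set.mem_image, Finset.mem_coe,
        Finset.mem_range, Finset.mem_filter]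
      constructor
      · rintro ⟨⟨n, hn, rfl⟩, hq⟩
        refine ⟨n, ⟨hn, ?_, ?_, ?_⟩, rfl⟩
        · have := hq 0
          exact ⟨(div_le_iff₀ hx0).2 this.1, (lt_div_iff₀ hx0).2 this.2⟩
        · have := hq 1
          exact ⟨(div_le_iff₀ hx0).2 this.1, (lt_div_iff₀ hx0).2 this.2⟩
        · have := hq 2
          exact ⟨(div_le_iff₀ hx0).2 this.1, (lt_div_iff₀ hx0).2 this.2⟩
      · rintro ⟨n, ⟨hn, h0, h1, h2⟩, rfl⟩
        refine ⟨⟨n, hn, rfl⟩, ?_⟩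
        intro i
        fin_cases i
        · exact ⟨(div_le_iff₀ hx0).1 h0.1, (lt_div_iff₀ hx0).1 h0.2⟩
        · exact ⟨(div_le_iff₀ hx0).1 h1.1, (lt_div_iff₀ hx0).1 h1.2⟩
        · exact ⟨(div_le_iff₀ hx0).1 h2.1, (lt_div_iff₀ hx0).1 h2.2⟩
    rw [e1, Set.ncard_coe_finset, Finset.card_image_of_injective _ hfinj]
  rw [hcount] at hlt
  have hbox := H470R2.cube_box hM1 hb (a₀ := a 0 / x) (b₀ := b 0 / x) (a₁ := a 1 / x)
    (b₁ := b 1 / x) (a₂ := a 2 / x) (b₂ := b 2 / x)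
    (div_nonneg (hab 0).1 hx0.le) (div_le_div_of_nonneg_right (hab 0).2.1 hx0.le)
    ((div_le_one hx0).2 (hab 0).2.2)
    (div_nonneg (hab 1).1 hx0.le) (div_le_div_of_nonneg_right (hab 1).2.1 hx0.le)
    ((div_le_one hx0).2 (hab 1).2.2)
    (div_nonneg (hab 2).1 hx0.le) (div_le_div_of_nonneg_right (hab 2).2.1 hx0.le)
    ((div_le_one hx0).2 (hab 2).2.2)
  have hvol : (M:ℝ) * (b 0 / x - a 0 / x) * (b 1 / x - a 1 / x) * (b 2 / x - a 2 / x) =
      ∏ i, (b i - a i) := by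
    rw [Fin.prod_univ_three, ← hx3]
    field_simp
  rw [hvol] at hbox
  have h1 := lt_of_lt_of_le hlt hbox
  rw [hlogx] at h1
  have h2 : c * (Real.log M / 3) ^ (3 - 1) = 8 * (c / 72 * Real.log M ^ 2) := by
    norm_num
    ring
  rw [h2] at h1
  linarith

end Pool.Agent.S07552
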