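import Pool.Statements.S07624
-- import your own Pool.Agent.* helpers here

set_option autoImplicit false
open Pool Pool.MP_c0f93d_co

namespace Pool.Agent.S07624

/-- 17 lines of the projective plane of order 4 (the translates of the difference set
`{0,1,4,14,16}` modulo 21 that meet `{0,1,2,3,8}`), the set `{0,1,2,3,8}` and two further sets. -/
def fam : List (List ℕ) :=
  [[0, 1, 4, 14, 16], [1, 2, 5, 15, 17], [2, 3, 6, 16, 18], [3, 4, 7, 17, 19], [4, 5, 8, 18, 20],
   [0, 5, 6, 9, 19], [1, 6, 7, 10, 20], [0, 2, 7, 8, 11], [1, 3, 8, 9, 12], [2, 4, 9, 10, 13],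
   [3, 5, 10, 11, 14], [6, 8, 13, 14, 17], [8, 10, 15, 16, 19], [0, 10, 12, 17, 18],
   [1, 11, 13, 18, 19], [2, 12, 14, 19, 20], [0, 3, 13, 15, 20], [0, 1, 2, 3, 8],
   [0, 2, 8, 10, 19], [1, 3, 8, 10, 19]]

/-- `A` and `cur` have no common element -/
def disj (A cur : List ℕ) : Bool := A.all (fun a => !cur.contains a)

/-- Branching over the covers: `chk L k cur` checks that each cover of `L` with `cur.length + k`
elements that contains `cur` contains a member of `L`. -/
def chk (L : List (List ℕ)) : ℕ → List ℕ → Bool
  | 0, cur => L.any (fun A => A.all (fun a => cur.contains a)) || L.any (fun A => disj A cur)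
  | k + 1, cur =>
    match L.find? (fun A => disj A cur) with
    | none => false
    | some A => A.all (fun a => chk L k (a :: cur))

theorem disj_iff (A cur : List ℕ) : disj A cur = true ↔ ∀ a ∈ A, a ∉ cur := by
  simp [disj]

theorem chk_correct (L : List (List ℕ)) (B : Finset ℕ) (hB : ∀ A ∈ L, ∃ a ∈ A, a ∈ B) :
    ∀ (k : ℕ) (cur : List ℕ), (∀ x ∈ cur, x ∈ B) → cur.Nodup → cur.length + k = B.card →
      chk L k cur = true → ∃ A ∈ L, ∀ a ∈ A, a ∈ B := by
  intro k
  induction k with
  | zero =>
    intro cur hcur hnd hlen hchk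
    have hsub : cur.toFinset ⊆ B := by
      intro x hx
      exact hcur x (List.mem_toFinset.mp hx)
    have heq : cur.toFinset = B := by
      apply Finset.eq_of_subset_of_card_le hsub
      rw [List.toFinset_card_of_nodup hnd]
      omega
    unfold chk at hchk
    rw [Bool.or_eq_true, List.any_eq_true, List.any_eq_true] at hchk
    rcases hchk with ⟨A, hA, h⟩ | ⟨A, hA, h⟩
    · refine ⟨A, hA, ?_⟩
      intro a ha
      rw [List.all_eq_true] at h
      have := h a ha
      rw [List.contains_iff_mem] at this
      exact hcur a this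
    · exfalso
      rw [disj_iff] at h
      obtain ⟨a, ha, haB⟩ := hB A hA
      rw [← heq, List.mem_toFinset] at haB
      exact h a ha haB
  | succ k ih =>
    intro cur hcur hnd hlen hchk
    unfold chk at hchk
    cases hf : L.find? (fun A => disj A cur) with
    | none => rw [hf] at hchk; simp at hchk
    | some A =>
      rw [hf] at hchk
      simp only [List.all_eq_true] at hchk
      have hA := List.mem_of_find?_eq_some hf
      have hd := List.find?_some hf
      rw [disj_iff] at hd
      obtain ⟨a, ha, haB⟩ := hB A hA
      apply ih (a :: cur)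
      · intro x hx
        rcases List.mem_cons.mp hx with rfl | hx
        · exact haB
        · exact hcur x hx
      · exact List.nodup_cons.mpr ⟨hd a ha, hnd⟩
      · simp only [List.length_cons]; omega
      · exact hchk a ha

/-- the family as a finset -/
def F : Finset (Finset ℕ) := (fam.map (fun A => A.toFinset)).toFinset

theorem mem_F (A : Finset ℕ) : A ∈ F ↔ ∃ l ∈ fam, l.toFinset = A := by
  simp [F]

theorem chk_fam : chk fam 5 [] = true := by decide +kernel

theorem F_card : F.card = 20 := by decide +kernel

theorem F_union : (F.biUnion id).card = 21 := by decide +kernel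

theorem fam_card : ∀ l ∈ fam, l.toFinset.card = 5 := by decide +kernel

theorem fam_inter : ∀ l ∈ fam, ∀ m ∈ fam, (l.toFinset ∩ m.toFinset).Nonempty := by
  decide +kernel

/-- The negation of the preceding statement: For every n and every finite family of n-subsets of ℕ that is pairwise intersecting and maximal (any n-set meeting all members is a member), the union of the family has at most as many elements as the family has members. -/
theorem result :
    ¬ (∀ (n : ℕ) (F : Finset (Finset ℕ)),
      (∀ A ∈ F, A.card = n) →
      (∀ A ∈ F, ∀ B ∈ F, (A ∩ B).Nonempty) →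
      (∀ B : Finset ℕ, B.card = n → (∀ A ∈ F, (A ∩ B).Nonempty) → B ∈ F) →
      (F.biUnion id).card ≤ F.card) := by
  intro h
  have h1 := h 5 F ?_ ?_ ?_
  · rw [F_card, F_union] at h1
    omega
  · intro A hA
    obtain ⟨l, hl, rfl⟩ := (mem_F A).mp hA
    exact fam_card l hl
  · intro A hA B hB
    obtain ⟨l, hl, rfl⟩ := (mem_F A).mp hA
    obtain ⟨m, hm, rfl⟩ := (mem_F B).mp hB
    exact fam_inter l hl m hm
  · intro B hB hhit
    obtain ⟨A, hA, hAB⟩ := chk_correct fam B (by
      intro A hA
      obtain ⟨x, hx⟩ := hhit A.toFinset ((mem_F _).mpr ⟨A, hA, rfl⟩)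
      rw [Finset.mem_inter, List.mem_toFinset] at hx
      exact ⟨x, hx.1, hx.2⟩) 5 [] (by simp) List.nodup_nil (by simp [hB]) chk_fam
    have hsub : A.toFinset ⊆ B := by
      intro x hx
      exact hAB x (List.mem_toFinset.mp hx)
    have heq : A.toFinset = B := by
      apply Finset.eq_of_subset_of_card_le hsub
      rw [hB, fam_card A hA]
    exact (mem_F B).mpr ⟨A, hA, heq⟩

end Pool.Agent.S07624
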