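import Pool.Statements.S07637
import Pool.Agent.H149R2.AlmostSubspace

set_option autoImplicit false
open Pointwise
open Pool Pool.MP_c1f673_co

namespace Pool.Agent.S07637

/-- There is C>0 so that for every n, nonempty A in F_2^n of density α and ε in (0,1], some subspace V of codimension at most C(1+log(1/(εα)))^C has at least (1−ε)∣V∣ of its points in A+A. -/
theorem result :
    ∃ C : ℝ, 0 < C ∧
      ∀ n : ℕ, ∀ A : Finset (Fin n → ZMod 2), A.Nonempty →
        ∀ ε : ℝ, 0 < ε → ε ≤ 1 →
          ∃ V : Submodule (ZMod 2) (Fin n → ZMod 2),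
            ((n : ℝ) - (Module.finrank (ZMod 2) V : ℝ)) ≤
                C * (1 + Real.log (1 / (ε * ((A.card : ℝ) / 2 ^ n)))) ^ C ∧
            (1 - ε) * (Nat.card V : ℝ) ≤
                ((((A + A : Finset (Fin n → ZMod 2)) : Set (Fin n → ZMod 2)) ∩
                    (V : Set (Fin n → ZMod 2))).ncard : ℝ) :=
  Pool.Agent.H149R2.main_theorem

end Pool.Agent.S07637
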