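import Pool.Statements.S07650
-- import your own Pool.Agent.* helpers here

set_option autoImplicit false
open Pool Pool.MP_c26b0d_co

namespace Pool.Agent.S07650

/-- Adjacency bit masks of a 4-regular graph on 17 vertices with cut vertex 0. -/
def nbm : List ℕ := [49344, 92, 394, 294, 226, 408, 275, 53, 108, 23552, 100864, 75264, 57856, 104448, 70145, 13313, 27648]

/-- Closed neighbourhood masks. -/
def cmm : List ℕ := [49345, 94, 398, 302, 242, 440, 339, 181, 364, 24064, 101888, 77312, 61952, 112640, 86529, 46081, 93184]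

/-- Edge indices (34 = no edge). -/
def eixT : List (List ℕ) := [[34, 34, 34, 34, 34, 34, 0, 1, 34, 34, 34, 34, 34, 34, 2, 3, 34], [34, 34, 4, 5, 6, 34, 7, 34, 34, 34, 34, 34, 34, 34, 34, 34, 34], [34, 4, 34, 8, 34, 34, 34, 9, 10, 34, 34, 34, 34, 34, 34, 34, 34], [34, 5, 8, 34, 34, 11, 34, 34, 12, 34, 34, 34, 34, 34, 34, 34, 34], [34, 6, 34, 34, 34, 13, 14, 15, 34, 34, 34, 34, 34, 34, 34, 34, 34], [34, 34, 34, 11, 13, 34, 34, 16, 17, 34, 34, 34, 34, 34, 34, 34, 34], [0, 7, 34, 34, 14, 34, 34, 34, 18, 34, 34, 34, 34, 34, 34, 34, 34], [1, 34, 9, 34, 15, 16, 34, 34, 34, 34, 34, 34, 34, 34, 34, 34, 34], [34, 34, 10, 12, 34, 17, 18, 34, 34, 34, 34, 34, 34, 34, 34, 34, 34], [34, 34, 34, 34, 34, 34, 34, 34, 34, 34, 19, 20, 21, 34, 22, 34, 34], [34, 34, 34, 34, 34, 34, 34, 34, 34, 19, 34, 23, 34, 34, 34, 24, 25], [34, 34, 34, 34, 34, 34, 34, 34, 34, 20, 23, 34, 34, 26, 34, 34, 27], [34, 34, 34, 34, 34, 34, 34, 34, 34, 21, 34, 34, 34, 28, 29, 30, 34], [34, 34, 34, 34, 34, 34, 34, 34,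 34, 34, 34, 26, 28, 34, 34, 31, 32], [2, 34, 34, 34, 34, 34, 34, 34, 34, 22, 34, 34, 29, 34, 34, 34, 33], [3, 34, 34, 34, 34, 34, 34, 34, 34, 34, 24, 34, 30, 31, 34, 34, 34], [34, 34, 34, 34, 34, 34, 34, 34, 34, 34, 25, 27, 34, 32, 33, 34, 34]]

/-- Dominating sets used in the certificate. -/
def DL : List (List (Fin 17)) := [[0, 1, 5, 9, 13], [0, 1, 5, 11, 12], [0, 3, 4, 9, 13], [0, 3, 4, 11, 12], [1, 5, 11, 14, 15], [2, 4, 11, 14, 15], [3, 4, 11, 14, 15], [3, 6, 7, 9, 13], [3, 6, 7, 10, 12], [3, 6, 7, 11, 12], [3, 6, 7, 12, 16], [4, 8, 11, 14, 15], [0, 1, 5, 9, 16], [0, 1, 5, 10, 12], [0, 1, 5, 10, 13], [0, 1, 5, 12, 16], [0, 1, 8, 9, 13], [0, 2, 4, 9, 13], [0, 2, 5, 9, 13], [0, 4, 8, 9, 13], [1, 5, 9, 15, 16], [1, 5, 10, 13, 14], [1, 7, 8, 9, 13], [2, 5, 6, 9, 13]]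

/-- For every dominating set, the edge sets that have to be deleted to undominate a given vertex. -/
def LS : List (List (List ℕ)) := [[[4], [5, 11], [6, 13], [0, 7], [1, 16], [17], [19], [20, 26], [21, 28], [2, 22], [3, 31], [32]], [[4], [5, 11], [6, 13], [0, 7], [1, 16], [17], [20, 21], [23], [26, 28], [2, 29], [3, 30], [27]], [[5, 6], [8], [11, 13], [0, 14], [1, 15], [12], [19], [20, 26], [21, 28], [2, 22], [3, 31], [32]], [[5, 6], [8], [11, 13], [0, 14], [1, 15], [12], [20, 21], [23], [26, 28], [2, 29], [3, 30], [27]], [[2, 3], [4], [5, 11], [6, 13], [7], [16], [17], [20, 22], [23, 24], [29, 30], [26, 31], [27, 33]], [[2, 3], [4, 6], [8], [13], [14], [9, 15], [10], [20, 22], [23, 24], [29, 30], [26, 31], [27, 33]], [[2, 3], [5, 6], [8], [11, 13], [14], [15], [12], [20, 22], [23, 24], [29, 30], [26, 31], [27, 33]], [[0, 1], [5, 7], [8, 9], [14, 15], [11, 16], [12, 18], [19], [20, 26], [21, 28], [22], [31], [32]], [[0, 1], [5, 7], [8, 9], [14, 15], [11, 16], [12, 18], [19,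 21], [23], [28], [29], [24, 30], [25]], [[0, 1], [5, 7], [8, 9], [14, 15], [11, 16], [12, 18], [20, 21], [23], [26, 28], [29], [30], [27]], [[0, 1], [5, 7], [8, 9], [14, 15], [11, 16], [12, 18], [21], [25], [27], [28, 32], [29, 33], [30]], [[2, 3], [6], [10], [12], [13, 17], [14, 18], [15], [20, 22], [23, 24], [29, 30], [26, 31], [27, 33]], [[4], [5, 11], [6, 13], [0, 7], [1, 16], [17], [19, 25], [20, 27], [21], [32], [2, 22, 33], [3]], [[4], [5, 11], [6, 13], [0, 7], [1, 16], [17], [19, 21], [23], [28], [2, 29], [3, 24, 30], [25]], [[4], [5, 11], [6, 13], [0, 7], [1, 16], [17], [19], [23, 26], [28], [2], [3, 24, 31], [25, 32]], [[4], [5, 11], [6, 13], [0, 7], [1, 16], [17], [21], [25], [27], [28, 32], [2, 29, 33], [3, 30]], [[4, 10], [5, 12], [6], [17], [0, 7, 18], [1], [19], [20, 26], [21, 28], [2, 22], [3, 31], [32]], [[4, 6], [8], [13], [0, 14], [1, 9, 15], [10], [19], [20, 26], [21, 28], [2, 22], [3, 31], [32]], [[4], [8, 11], [13], [0], [1, 9, 16], [10, 17], [19], [20,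 26], [21, 28], [2, 22], [3, 31], [32]], [[6], [10], [12], [13, 17], [0, 14, 18], [1, 15], [19], [20, 26], [21, 28], [2, 22], [3, 31], [32]], [[3], [4], [5, 11], [6, 13], [7], [16], [17], [19, 24, 25], [20, 27], [21, 30], [31, 32], [22, 33]], [[2], [4], [5, 11], [6, 13], [7], [16], [17], [19, 22], [23, 26], [28, 29], [24, 31], [25, 32, 33]], [[1], [4, 9, 10], [5, 12], [6, 15], [16, 17], [7, 18], [19], [20, 26], [21, 28], [22], [31], [32]], [[0], [4, 7], [8, 11], [13, 14], [9, 16], [10, 17, 18], [19], [20, 26], [21, 28], [22], [31], [32]]]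

def adjB (a b : Fin 17) : Bool := (nbm.getD a.val 0).testBit b.val

def cm (a : Fin 17) : ℕ := cmm.getD a.val 0

def eix (a b : Fin 17) : ℕ := (eixT.getD a.val []).getD b.val 34

lemma adjB_symm : ∀ a b : Fin 17, adjB a b = true → adjB b a = true := by decide +kernel
lemma adjB_irrefl : ∀ a : Fin 17, adjB a a ≠ true := by decide +kernel

/-- The counterexample graph. -/
def GG : SimpleGraph (Fin 17) where
  Adj a b := adjB a b = true
  symm := ⟨fun a b h => adjB_symm a b h⟩
  loopless := ⟨fun a h => adjB_irrefl a h⟩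

instance : DecidableRel GG.Adj := fun a b => inferInstanceAs (Decidable (adjB a b = true))

lemma eix_symm : ∀ a b : Fin 17, eix a b = eix b a := by decide +kernel

lemma eix_inj : ∀ a b : Fin 17, adjB a b = true → ∀ c d : Fin 17, adjB c d = true →
    eix a b = eix c d → (a = c ∧ b = d) ∨ (a = d ∧ b = c) := by decide +kernel

def esOf (D : List (Fin 17)) : List (List ℕ) :=
  ((List.finRange 17).filter (fun v => !(D.contains v))).map
    (fun v => (D.filter (fun w => adjB v w)).map (fun w => eix v w))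

lemma LS_eq : DL.map esOf = LS := by decide +kernel

lemma LS_nodup : ∀ es ∈ LS, ∀ e ∈ es, e.Nodup := by decide +kernel

lemma DL_len : ∀ D ∈ DL, D.length = 5 := by decide +kernel

def addE (R e : List ℕ) : List ℕ := (e.filter (fun x => !(R.contains x))) ++ R

def run : ℕ → List ℕ → Bool
  | 0, _ => false
  | f + 1, R => LS.any (fun es => es.all (fun e => e.any (fun x => !(R.contains x))) &&
      es.all (fun e => Nat.blt 4 (addE R e).length || run f (addE R e)))

lemma run_ok : run 6 [] = true := by decide +kernel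

lemma run_sound (M : Finset ℕ) (hM : M.card ≤ 4) :
    ∀ f R, R.Nodup → (∀ x ∈ R, x ∈ M) → run f R = true →
      ∃ es ∈ LS, ∀ e ∈ es, ∃ x ∈ e, x ∉ M := by
  intro f
  induction f with
  | zero => intro R _ _ h; simp [run] at h
  | succ f ih =>
    intro R hnd hRM h
    rw [run, List.any_eq_true] at h
    obtain ⟨es, hes, h2⟩ := h
    rw [Bool.and_eq_true] at h2
    obtain ⟨-, h3⟩ := h2
    by_cases hall : ∀ e ∈ es, ∃ x ∈ e, x ∉ M
    · exact ⟨es, hes, hall⟩
    · push Not at hall
      obtain ⟨e, he, heM⟩ := hall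
      rw [List.all_eq_true] at h3
      have h4 := h3 e he
      have hnd2 : (addE R e).Nodup := by
        unfold addE
        rw [List.nodup_append]
        refine ⟨(LS_nodup es hes e he).filter _, hnd, ?_⟩
        intro a ha b hb hab
        subst hab
        rw [List.mem_filter] at ha
        simp at ha
        exact ha.2 hb
      have hmem : ∀ x ∈ addE R e, x ∈ M := by
        intro x hx
        unfold addE at hx
        rw [List.mem_append] at hx
        rcases hx with hx | hx
        · exact heM x (List.mem_of_mem_filter hx)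
        · exact hRM x hx
      have hlen : (addE R e).length ≤ 4 := by
        have h5 : (addE R e).toFinset ⊆ M := by
          intro x hx
          exact hmem x (List.mem_toFinset.1 hx)
        have h6 := Finset.card_le_card h5
        rw [List.toFinset_card_of_nodup hnd2] at h6
        omega
      rw [Bool.or_eq_true] at h4
      rcases h4 with h4 | h4
      · have : 4 < (addE R e).length := by
          simpa [Nat.blt_eq] using h4
        omega
      · exact ih _ hnd2 hmem h4

lemma cm_spec : ∀ a v : Fin 17, (cm a).testBit v.val = true ↔ (v = a ∨ adjB a v = true) := by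
  decide +kernel

def nd : ℕ → ℕ → Bool
  | 0, m => (List.finRange 17).any (fun v => !(m.testBit v.val))
  | k + 1, m => (List.finRange 17).any (fun v => !(m.testBit v.val) &&
      (List.finRange 17).all (fun w => !((cm v).testBit w.val) || nd k (m ||| cm w)))

lemma nd_ok : nd 4 0 = true := by decide +kernel

lemma nd_sound : ∀ k m, nd k m = true → ∀ D0 : Finset (Fin 17), D0.card ≤ k →
    ¬ (∀ v : Fin 17, m.testBit v.val = true ∨ v ∈ D0 ∨ ∃ u ∈ D0, GG.Adj u v) := by
  intro k
  induction k with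
  | zero =>
    intro m h D0 hD0 hall
    rw [nd, List.any_eq_true] at h
    obtain ⟨v, -, hv⟩ := h
    have hempty : D0 = ∅ := Finset.card_eq_zero.1 (by omega)
    subst hempty
    have := hall v
    simp at this
    simp [this] at hv
  | succ k ih =>
    intro m h D0 hD0 hall
    rw [nd, List.any_eq_true] at h
    obtain ⟨v, -, hv⟩ := h
    rw [Bool.and_eq_true] at hv
    obtain ⟨hv1, hv2⟩ := hv
    rw [List.all_eq_true] at hv2
    have hmv : ¬ (m.testBit v.val = true) := by
      intro h1; rw [h1] at hv1; exact absurd hv1 (by simp)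
    have hw : ∃ w ∈ D0, (cm v).testBit w.val = true := by
      rcases hall v with h1 | h1 | ⟨u, hu, huv⟩
      · exact absurd h1 hmv
      · exact ⟨v, h1, (cm_spec v v).2 (Or.inl rfl)⟩
      · exact ⟨u, hu, (cm_spec v u).2 (Or.inr huv.symm)⟩
    obtain ⟨w, hwD, hwv⟩ := hw
    have h5 := hv2 w (List.mem_finRange w)
    rw [hwv] at h5
    simp only [Bool.not_true, Bool.false_or] at h5
    refine ih (m ||| cm w) h5 (D0.erase w) ?_ ?_
    · rw [Finset.card_erase_of_mem hwD]; omega
    · intro x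
      by_cases hxw : (cm w).testBit x.val = true
      · left
        rw [Nat.testBit_or, hxw, Bool.or_true]
      · have hne : x ≠ w := by
          intro h6; subst h6; exact hxw ((cm_spec x x).2 (Or.inl rfl))
        rcases hall x with h1 | h1 | ⟨u, hu, hux⟩
        · left
          rw [Nat.testBit_or, h1, Bool.true_or]
        · right; left
          exact Finset.mem_erase.2 ⟨hne, h1⟩
        · right; right
          refine ⟨u, Finset.mem_erase.2 ⟨?_, hu⟩, hux⟩
          intro h6
          subst h6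
          exact hxw ((cm_spec u x).2 (Or.inr hux))

lemma dom_card (D0 : Finset (Fin 17)) (hD : ∀ v, v ∈ D0 ∨ ∃ u ∈ D0, GG.Adj u v) : 5 ≤ D0.card := by
  by_contra hlt
  push Not at hlt
  exact nd_sound 4 0 nd_ok D0 (by omega) (fun v => Or.inr (hD v))

def par : Fin 17 → Fin 17 := fun v => ([0, 6, 7, 1, 6, 7, 0, 0, 6, 14, 15, 9, 14, 15, 0, 0, 14] : List (Fin 17)).getD v.val 0
def rk : Fin 17 → ℕ := fun v => ([0, 2, 2, 3, 2, 2, 1, 1, 2, 2, 2, 3, 2, 2, 1, 1, 2] : List ℕ).getD v.val 0

lemma par_spec : ∀ v : Fin 17, v = 0 ∨ (adjB (par v) v = true ∧ rk (par v) < rk v) := by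
  decide +kernel

lemma reach (n : ℕ) : ∀ v : Fin 17, rk v ≤ n → GG.Reachable 0 v := by
  induction n with
  | zero =>
    intro v hv
    rcases par_spec v with h | ⟨_, h2⟩
    · subst h; exact SimpleGraph.Reachable.refl _
    · omega
  | succ n ih =>
    intro v hv
    rcases par_spec v with h | ⟨h1, h2⟩
    · subst h; exact SimpleGraph.Reachable.refl _
    · have h3 := ih (par v) (by omega)
      have h4 : GG.Adj (par v) v := h1
      exact h3.trans h4.reachable

lemma conn : GG.Connected := by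
  have : Nonempty (Fin 17) := ⟨0⟩
  refine ⟨?_⟩
  intro a b
  exact (reach _ a le_rfl).symm.trans (reach _ b le_rfl)

lemma side : ∀ a b : Fin 17, a ≠ 0 → b ≠ 0 → adjB a b = true → a.val ≤ 8 → b.val ≤ 8 := by
  decide +kernel

lemma disconn : ¬ (GG.induce ((↑({0} : Finset (Fin 17)) : Set (Fin 17))ᶜ)).Connected := by
  intro h
  have m1 : (1 : Fin 17) ∈ ((↑({0} : Finset (Fin 17)) : Set (Fin 17))ᶜ) := by simp
  have m9 : (9 : Fin 17) ∈ ((↑({0} : Finset (Fin 17)) : Set (Fin 17))ᶜ) := by simp
  have hr := h.preconnected ⟨1, m1⟩ ⟨9, m9⟩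
  obtain ⟨p⟩ := hr
  have key : ∀ (a b : ((↑({0} : Finset (Fin 17)) : Set (Fin 17))ᶜ : Set (Fin 17)))
      (_ : (GG.induce ((↑({0} : Finset (Fin 17)) : Set (Fin 17))ᶜ)).Walk a b),
      a.1.val ≤ 8 → b.1.val ≤ 8 := by
    intro a b q
    induction q with
    | nil => exact id
    | cons hadj _ ih =>
      rename_i u v w _
      intro hu
      apply ih
      have hu0 : u.1 ≠ 0 := by
        have := u.2
        simpa using this
      have hv0 : v.1 ≠ 0 := by
        have := v.2
        simpa using this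
      exact side u.1 v.1 hu0 hv0 hadj hu
  have h8 : (1 : Fin 17).val ≤ 8 := by decide
  have h9 : ¬ (9 : Fin 17).val ≤ 8 := by decide
  exact h9 (key _ _ p h8)

lemma deg_le : ∀ v : Fin 17, GG.degree v ≤ 4 := by decide +kernel

lemma maxdeg : GG.maxDegree ≤ 4 := GG.maxDegree_le_of_forall_degree_le 4 deg_le

/-- Deleting at most 4 edges leaves a dominating set with 5 vertices. -/
lemma robust (F : Finset (Sym2 (Fin 17))) (hc : F.card ≤ 4) :
    ∃ D : Finset (Fin 17), D.card ≤ 5 ∧
      ∀ v, v ∈ D ∨ ∃ u ∈ D, (GG.deleteEdges (↑F : Set (Sym2 (Fin 17)))).Adj u v := by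
  classical
  let idx : Sym2 (Fin 17) → ℕ := Sym2.lift ⟨eix, eix_symm⟩
  have hidx : ∀ a b, idx s(a, b) = eix a b := fun a b => rfl
  set M : Finset ℕ := F.image idx with hMdef
  have hM : M.card ≤ 4 := le_trans Finset.card_image_le hc
  obtain ⟨es, hes, hal⟩ := run_sound M hM 6 [] List.nodup_nil (by simp) run_ok
  rw [← LS_eq, List.mem_map] at hes
  obtain ⟨D, hD, rfl⟩ := hes
  refine ⟨D.toFinset, le_trans (List.toFinset_card_le D) (le_of_eq (DL_len D hD)), ?_⟩
  intro v
  by_cases hv : v ∈ D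
  · left; exact List.mem_toFinset.2 hv
  · right
    have he : (D.filter (fun w => adjB v w)).map (fun w => eix v w) ∈ esOf D := by
      unfold esOf
      rw [List.mem_map]
      refine ⟨v, ?_, rfl⟩
      rw [List.mem_filter]
      refine ⟨List.mem_finRange v, ?_⟩
      simpa using hv
    obtain ⟨x, hx, hxM⟩ := hal _ he
    rw [List.mem_map] at hx
    obtain ⟨w, hw, rfl⟩ := hx
    rw [List.mem_filter] at hw
    have hvw : GG.Adj v w := hw.2
    refine ⟨w, List.mem_toFinset.2 hw.1, ?_⟩
    rw [SimpleGraph.deleteEdges_adj]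
    refine ⟨hvw.symm, ?_⟩
    intro hin
    apply hxM
    rw [hMdef, Finset.mem_image]
    refine ⟨s(w, v), hin, ?_⟩
    rw [hidx]
    exact eix_symm w v

/-- The negation of the preceding statement: For every finite connected graph G on at least 2 vertices, some set of at most Δ(G)+κ(G)−1 edges can be deleted so that the domination number strictly increases; that is, b(G) ≤ Δ(G)+κ(G)−1. -/
theorem result :
    ¬ (∀ (V : Type) [Fintype V] [DecidableEq V] (G : SimpleGraph V) [DecidableRel G.Adj],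
      G.Connected → 2 ≤ Fintype.card V →
      ∀ S : Finset V,
        (¬ (G.induce ((↑S : Set V)ᶜ)).Connected ∨ Sᶜ.card ≤ 1) →
        ∃ F : Finset (Sym2 V),
          (↑F : Set (Sym2 V)) ⊆ G.edgeSet ∧
          F.card + 1 ≤ G.maxDegree + S.card ∧
          ∃ D0 : Finset V,
            (∀ v : V, v ∈ D0 ∨ ∃ u ∈ D0, G.Adj u v) ∧
            ∀ D : Finset V,
              (∀ v : V, v ∈ D ∨ ∃ u ∈ D, (G.deleteEdges (↑F : Set (Sym2 V))).Adj u v) →
              D0.card < D.card) := by
  intro H
  obtain ⟨F, hF, hcard, D0, hD0, hD⟩ := H (Fin 17) GG conn (by decide) {0} (Or.inl disconn)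
  have h4 : F.card ≤ 4 := by
    have := maxdeg
    have h1 : ({0} : Finset (Fin 17)).card = 1 := rfl
    omega
  obtain ⟨D, hDc, hDd⟩ := robust F h4
  have h5 := dom_card D0 hD0
  have h6 := hD D hDd
  omega

end Pool.Agent.S07650
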