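import Pool.Statements.S07705
import Pool.Agent.H730R2.LD.Meas

set_option autoImplicit false
open Pool Pool.MP_c61924_co

namespace Pool.Agent.S07705

open MeasureTheory

/-- the counting function as a sum -/
theorem ncard_eq {d : ℕ} (P : Finset (Fin d → ℝ)) (x : Fin d → ℝ) :
    ((((P : Set (Fin d → ℝ)) ∩ Set.pi Set.univ (fun i => Set.Iio (x i))).ncard : ℕ) : ℝ) =
      ∑ p ∈ P, if ∀ i, p i < x i then (1 : ℝ) else 0 := by
  classical
  have h : ((P : Set (Fin d → ℝ)) ∩ Set.pi Set.univ (fun i => Set.Iio (x i))) =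
      ((P.filter (fun p => ∀ i, p i < x i) : Finset (Fin d → ℝ)) : Set (Fin d → ℝ)) := by
    ext p
    simp [Set.mem_pi]
  rw [h, Set.ncard_coe_finset, Finset.card_filter]
  push_cast
  rfl

/-- almost everywhere the boxes may be closed -/
theorem ae_closed {d : ℕ} (P : Finset (Fin d → ℝ)) :
    ∀ᵐ x : Fin d → ℝ, ∀ p ∈ P, ∀ i, x i ≠ p i := by
  have h1 : ∀ p ∈ P, ∀ᵐ x : Fin d → ℝ, ∀ i, x i ≠ p i := by
    intro p _
    rw [ae_all_iff]
    intro i
    have : (volume : Measure (Fin d → ℝ)) {f | f i = p i} = 0 := by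
      rw [volume_pi]
      exact Measure.pi_hyperplane (fun _ : Fin d => (volume : Measure ℝ)) i (p i)
    rw [ae_iff]
    simpa using this
  exact (Filter.eventually_all_finset P).2 h1

/-- For each d ≥ 3 there is c > 0 such that every set of N ≥ 2 points in [0,1]^d has L1 norm of its local discrepancy, counted over boxes [0,x), at least c·(log N)^((d−1)/2). -/
theorem result :
    ∀ d : ℕ, 3 ≤ d → ∃ c : ℝ, 0 < c ∧
      ∀ N : ℕ, 2 ≤ N → ∀ P : Finset (Fin d → ℝ), P.card = N →
        (∀ p ∈ P, p ∈ Set.Icc (0 : Fin d → ℝ) 1) →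
        c * (Real.log (N : ℝ)) ^ (((d : ℝ) - 1) / 2) ≤
          ∫ x in Set.Icc (0 : Fin d → ℝ) 1,
            abs ((((P : Set (Fin d → ℝ)) ∩ Set.pi Set.univ (fun i => Set.Iio (x i))).ncard : ℝ)
              - (N : ℝ) * ∏ i, x i) := by
  intro d hd
  obtain ⟨ε, hε, c, hc, H⟩ := H730R2.LD.measure_sharp d (by omega) 1
  refine ⟨c * ε, by positivity, fun N hN P hcard _ => ?_⟩
  have hN2 : (2 : ℝ) ≤ N := by exact_mod_cast hN
  have hm := H N hN2 (Fin d → ℝ) P (fun _ => 1) id (by rw [hcard]; simp)
  set θ : ℝ := c * (Real.log N) ^ (((d : ℝ) - 1) / 2) with hθ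
  have hlog : 0 ≤ Real.log N := Real.log_nonneg (by linarith)
  have hθ0 : 0 ≤ θ := by positivity
  -- the discrepancy function
  set D : (Fin d → ℝ) → ℝ := fun x => H736R2.Lone.disc P (fun _ => 1) id (N : ℝ) x with hD
  have hDm : Measurable D := by
    rw [hD]
    unfold H736R2.Lone.disc
    apply Measurable.sub
    · apply Finset.measurable_fun_sum
      intro p _
      apply Measurable.ite _ measurable_const measurable_const
      have : {x : Fin d → ℝ | ∀ i, id p i ≤ x i} = ⋂ i, {x : Fin d → ℝ | p i ≤ x i} := by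
        ext x
        simp
      rw [this]
      exact MeasurableSet.iInter fun i => measurableSet_le measurable_const (measurable_pi_apply i)
    · apply Measurable.const_mul
      apply Finset.measurable_fun_prod
      intro i _
      exact measurable_pi_apply i
  have hcongr : ∫ x in Set.Icc (0 : Fin d → ℝ) 1,
      abs ((((P : Set (Fin d → ℝ)) ∩ Set.pi Set.univ (fun i => Set.Iio (x i))).ncard : ℝ)
        - (N : ℝ) * ∏ i, x i) = ∫ x in Set.Icc (0 : Fin d → ℝ) 1, |D x| := by
    apply integral_congr_ae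
    have h := ae_restrict_of_ae (s := Set.Icc (0 : Fin d → ℝ) 1) (ae_closed P)
    filter_upwards [h] with x hx
    rw [ncard_eq, hD]
    unfold H736R2.Lone.disc
    congr 2
    apply Finset.sum_congr rfl
    intro p hp
    have : (∀ i, p i < x i) ↔ (∀ i, id p i ≤ x i) :=
      ⟨fun h i => (h i).le, fun h i => lt_of_le_of_ne (h i) (hx p hp i).symm⟩
    simp only [this]
  rw [hcongr]
  have hbound : ∀ x ∈ Set.Icc (0 : Fin d → ℝ) 1, |D x| ≤ N + N := by
    intro x hx
    rw [hD]
    unfold H736R2.Lone.disc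
    refine (abs_sub _ _).trans ?_
    have h1 : |∑ p ∈ P, (if ∀ i, id p i ≤ x i then (1 : ℝ) else 0)| ≤ N := by
      refine (Finset.abs_sum_le_sum_abs _ _).trans ?_
      rw [← hcard]
      refine (Finset.sum_le_card_nsmul _ _ 1 ?_).trans (by simp)
      intro p _
      split_ifs <;> simp
    have h2 : |(N : ℝ) * ∏ i, x i| ≤ N := by
      rw [abs_mul, Finset.abs_prod]
      have h3 : ∏ i, |x i| ≤ 1 := by
        apply Finset.prod_le_one
        · intro i _
          exact abs_nonneg _
        · intro i _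
          rw [abs_of_nonneg (hx.1 i)]
          exact hx.2 i
      have h4 : |(N : ℝ)| = N := abs_of_nonneg (by positivity)
      rw [h4]
      nlinarith
    linarith
  have hvol : volume (Set.Icc (0 : Fin d → ℝ) 1) ≠ ⊤ := by
    exact (isCompact_Icc.measure_lt_top).ne
  have hint : Integrable (fun x => |D x|) (volume.restrict (Set.Icc (0 : Fin d → ℝ) 1)) := by
    apply Measure.integrableOn_of_bounded (M := N + N) hvol hDm.abs.aestronglyMeasurable
    rw [ae_restrict_iff' measurableSet_Icc]
    filter_upwards with x hx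
    rw [Real.norm_eq_abs, abs_abs]
    exact hbound x hx
  have hmk := mul_meas_ge_le_integral_of_nonneg (μ := volume.restrict (Set.Icc (0 : Fin d → ℝ) 1))
    (f := fun x => |D x|) (by filter_upwards with x; exact abs_nonneg _) hint θ
  refine le_trans ?_ hmk
  have hset : (volume.restrict (Set.Icc (0 : Fin d → ℝ) 1)).real {x | θ ≤ |D x|} ≥ ε := by
    rw [Measure.real, Measure.restrict_apply (measurableSet_le measurable_const hDm.abs)]
    rw [ge_iff_le, ← ENNReal.ofReal_le_iff_le_toReal]
    · refine hm.trans (measure_mono ?_)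
      rintro x ⟨hx1, hx2⟩
      exact ⟨hx2, hx1⟩
    · exact ne_top_of_le_ne_top hvol (measure_mono Set.inter_subset_right)
  calc c * ε * (Real.log N) ^ (((d : ℝ) - 1) / 2) = θ * ε := by rw [hθ]; ring
    _ ≤ _ := by gcongr

end Pool.Agent.S07705
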