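import Pool.Statements.S07839
import Pool.Agent.H193R2.DRC

set_option autoImplicit false
open Pool Pool.MP_cdedfe_co

namespace Pool.Agent.S07839

/-- For every 0<c<1 there are ε>0 and C>0 such that, for all large n, any n subsets of an n-element set each of size at least cn contain at least C√n of them whose pairwise intersections all exceed εn. -/
theorem result :
    ∀ c : ℝ, 0 < c → c < 1 →
      ∃ ε : ℝ, 0 < ε ∧ ∃ C : ℝ, 0 < C ∧ ∃ N : ℕ, ∀ n : ℕ, N ≤ n →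
        ∀ A : Fin n → Finset (Fin n), (∀ k, c * (n : ℝ) ≤ ((A k).card : ℝ)) →
          ∃ I : Finset (Fin n), C * Real.sqrt (n : ℝ) ≤ (I.card : ℝ) ∧
            ∀ i ∈ I, ∀ j ∈ I, i ≠ j → ε * (n : ℝ) < (((A i ∩ A j).card : ℕ) : ℝ) := by
  intro c hc0 hc1
  refine ⟨c ^ 4, by positivity, 1 / 2, by norm_num, ⌈4 * (c⁻¹) ^ 8⌉₊ + 1, ?_⟩
  intro n hn A hA
  have hn1 : 1 ≤ n := by omega
  have hn1' : (1 : ℝ) ≤ n := by exact_mod_cast hn1
  have hn0 : (0 : ℝ) < n := by linarith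
  have hnc : 4 * (c⁻¹) ^ 8 ≤ (n : ℝ) := by
    have h1 := Nat.le_ceil (4 * (c⁻¹) ^ 8)
    have h2 : (⌈4 * (c⁻¹) ^ 8⌉₊ : ℝ) ≤ n := by exact_mod_cast (by omega : ⌈4 * (c⁻¹) ^ 8⌉₊ ≤ n)
    linarith
  have hinv : (n : ℝ)⁻¹ ≤ 1 := inv_le_one_of_one_le₀ hn1'
  have hinv0 : 0 < (n : ℝ)⁻¹ := by positivity
  have hc2 : 0 < c ^ 2 := by positivity
  have hc2' : c ^ 2 < 1 := by nlinarith
  obtain ⟨t, ht1, ht2⟩ := exists_nat_pow_near_of_lt_one hinv0 hinv hc2 hc2'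
  obtain ⟨I, hI1, hI2⟩ := Pool.Agent.H193R2.DRC.drc A c (c ^ 4) hc0.le (by positivity) t
    (by rw [Fintype.card_fin]; omega) (by simpa using hA)
  refine ⟨I, ?_, fun i hi j hj _ => by simpa using hI2 i hi j hj⟩
  refine le_trans ?_ hI1
  rw [Fintype.card_fin]
  have hN : (((Finset.univ.image A).card : ℕ) : ℝ) ≤ n := by
    have : (Finset.univ.image A).card ≤ n := by
      simpa using (Finset.card_image_le (s := Finset.univ) (f := A))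
    exact_mod_cast this
  -- `√n ≤ n c ^ t`
  have h1 : Real.sqrt n ≤ n * c ^ t := by
    rw [Real.sqrt_le_left (by positivity)]
    have h2 : (n : ℝ)⁻¹ * n ≤ (c ^ 2) ^ t * n := mul_le_mul_of_nonneg_right ht2 hn0.le
    rw [inv_mul_cancel₀ hn0.ne'] at h2
    have h3 : ((n : ℝ) * c ^ t) ^ 2 = n * ((c ^ 2) ^ t * n) := by
      rw [← pow_mul, mul_comm 2 t, pow_mul]; ring
    rw [h3]
    nlinarith
  -- `n ^ 2 ε ^ t ≤ c⁻⁴`
  have h4 : (n : ℝ) * (((Finset.univ.image A).card : ℕ) : ℝ) * (c ^ 4) ^ t ≤ (c⁻¹) ^ 4 := by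
    have h5 : (n : ℝ) * (c ^ 2) ^ t ≤ (c⁻¹) ^ 2 := by
      have h6 : (c ^ 2) ^ t * c ^ 2 * n ≤ 1 := by
        have h7 : (c ^ 2) ^ (t + 1) * n ≤ (n : ℝ)⁻¹ * n := mul_le_mul_of_nonneg_right ht1.le hn0.le
        rw [inv_mul_cancel₀ hn0.ne', pow_succ] at h7
        exact h7
      rw [inv_pow, ← one_div, le_div_iff₀ hc2]
      linarith
    calc (n : ℝ) * (((Finset.univ.image A).card : ℕ) : ℝ) * (c ^ 4) ^ t
        ≤ (n : ℝ) * n * (c ^ 4) ^ t := by gcongr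
      _ = (n * (c ^ 2) ^ t) ^ 2 := by
          rw [← pow_mul, mul_pow, ← pow_mul, ← pow_mul]
          ring_nf
      _ ≤ ((c⁻¹) ^ 2) ^ 2 := pow_le_pow_left₀ (by positivity) h5 2
      _ = (c⁻¹) ^ 4 := by ring
  have h8 : 2 * (c⁻¹) ^ 4 ≤ Real.sqrt n := by
    apply Real.le_sqrt_of_sq_le
    have h9 : (2 * (c⁻¹) ^ 4) ^ 2 = 4 * (c⁻¹) ^ 8 := by
      rw [mul_pow, ← pow_mul]; norm_num
    rw [h9]
    exact hnc
  linarith

end Pool.Agent.S07839
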