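import Pool.Statements.S07878
import Pool.Agent.H425Sn.Fin

set_option autoImplicit false
open Pool Pool.MP_cfd6b1_co

namespace Pool.Agent.S07878

/-- The negation of the preceding statement: Every cubic, girth at least 5, cyclically 4-edge-connected, non-3-edge-colourable graph that becomes 3-edge-colourable after deleting any two vertices has every nonzero zero-sum boundary realized by a nowhere-zero Z2×Z2 map and by a nowhere-zero Z4 map. -/
theorem result :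
    ¬ (∀ (n : ℕ) (G : SimpleGraph (Fin n)) [DecidableRel G.Adj],
    G.IsRegularOfDegree 3 →
    5 ≤ G.egirth →
    (∀ S : Finset (Fin n),
      (∃ (v : Fin n) (w : G.Walk v v), w.IsCycle ∧ ∀ x ∈ w.support, x ∈ S) →
      (∃ (v : Fin n) (w : G.Walk v v), w.IsCycle ∧ ∀ x ∈ w.support, x ∉ S) →
      4 ≤ ((Finset.univ : Finset (Fin n × Fin n)).filter
            (fun p => p.1 ∈ S ∧ p.2 ∉ S ∧ G.Adj p.1 p.2)).card) →
    (¬ ∃ c : Fin n → Fin n → Fin 3,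
        (∀ u v, G.Adj u v → c u v = c v u) ∧
        (∀ u v w, G.Adj u v → G.Adj u w → v ≠ w → c u v ≠ c u w)) →
    (∀ x y : Fin n, x ≠ y → ∃ c : Fin n → Fin n → Fin 3,
        (∀ u v, u ≠ x → u ≠ y → v ≠ x → v ≠ y → G.Adj u v → c u v = c v u) ∧
        (∀ u v w, u ≠ x → u ≠ y → v ≠ x → v ≠ y → w ≠ x → w ≠ y →
            G.Adj u v → G.Adj u w → v ≠ w → c u v ≠ c u w)) →
    (∀ b : Fin n → ZMod 2 × ZMod 2, ∑ v, b v = 0 → b ≠ 0 →
      ∃ f : Fin n → Fin n → ZMod 2 × ZMod 2,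
        (∀ u v, G.Adj u v → f u v ≠ 0) ∧ (∀ u v, ¬ G.Adj u v → f u v = 0) ∧
        (∀ u v, f u v = - f v u) ∧ ∀ v, ∑ u, f v u = b v) ∧
    (∀ b : Fin n → ZMod 4, ∑ v, b v = 0 → b ≠ 0 →
      ∃ f : Fin n → Fin n → ZMod 4,
        (∀ u v, G.Adj u v → f u v ≠ 0) ∧ (∀ u v, ¬ G.Adj u v → f u v = 0) ∧
        (∀ u v, f u v = - f v u) ∧ ∀ v, ∑ u, f v u = b v)) := by
  exact Pool.Agent.H425Sn.neg_statement (T := Pool.Agent.H425Sn.T58) (Pool.Agent.H425Sn.ok_of _ Pool.Agent.H425Sn.ok58)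
    Pool.Agent.H425Sn.girth58 Pool.Agent.H425Sn.lab Pool.Agent.H425Sn.lab58 Pool.Agent.H425Sn.cut58
    Pool.Agent.H425Sn.tree58 7 Pool.Agent.H425Sn.prog Pool.Agent.H425Sn.run0 Pool.Agent.H425Sn.bet
    Pool.Agent.H425Sn.runb Pool.Agent.H425Sn.hbic58 Pool.Agent.H425Sn.bb Pool.Agent.H425Sn.bb_zc
    Pool.Agent.H425Sn.bb_sum Pool.Agent.H425Sn.bb_ne

end Pool.Agent.S07878
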