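import Pool.Statements.S07891
import Pool.Agent.H135R2.RC.Analysis

set_option autoImplicit false
open Classical
open Pool Pool.MP_d08991_co

namespace Pool.Agent.S07891

open Pool.Agent.H135R2.RC Pool.Agent.H135R2.Rigid in
theorem count_aux {V : Type} [Fintype V] (G : SimpleGraph V) (S : Finset V) :
    ((S ×ˢ S).filter (fun x : V × V => G.Adj x.1 x.2)).card = 2 * (ins G.edgeSet S).ncard := by
  rw [← sum_deg (ins G.edgeSet S) (fun c hc => by
    have := hc.1
    simp at this)]
  rw [Finset.card_filter, Finset.sum_product, ← Finset.sum_subset (Finset.subset_univ S)]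
  · refine Finset.sum_congr rfl fun a ha => ?_
    rw [← Finset.card_filter]
    unfold deg
    rw [← Set.ncard_coe_finset]
    congr 1
    ext b
    simp only [Finset.coe_filter, Set.mem_ofPred_eq, ins, SimpleGraph.mem_edgeSet]
    constructor
    · rintro ⟨h1, h2⟩
      refine ⟨h2, fun v hv => ?_⟩
      rw [Sym2.mem_iff] at hv
      rcases hv with rfl | rfl
      · exact ha
      · exact h1
    · rintro ⟨h1, h2⟩
      exact ⟨h2 b (Sym2.mem_mk_right _ _), h1⟩
  · intro a _ ha
    unfold deg
    rw [Set.ncard_eq_zero (Set.toFinite _)]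
    ext b
    simp only [Set.mem_ofPred_eq, Set.mem_empty_iff_false, iff_false]
    intro h
    exact ha (h.2 a (Sym2.mem_mk_left _ _))

/-- Every Laman (minimally rigid planar) graph on n vertices has a generic planar realization with at least 2^(n-3) real frameworks having the same edge lengths, pairwise not congruent. -/
theorem result :
    ∀ (V : Type) [Fintype V] (G : SimpleGraph V),
      (Finset.univ.filter (fun x : V × V => G.Adj x.1 x.2)).card + 6 = 4 * Fintype.card V →
      (∀ S : Finset V, 2 ≤ S.card →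
        ((S ×ˢ S).filter (fun x : V × V => G.Adj x.1 x.2)).card + 6 ≤ 4 * S.card) →
      ∃ p : V → EuclideanSpace ℝ (Fin 2),
        AlgebraicIndependent ℚ (fun x : V × Fin 2 => p x.1 x.2) ∧
        ∃ q : Fin (2 ^ (Fintype.card V - 3)) → V → EuclideanSpace ℝ (Fin 2),
          (∀ i u v, G.Adj u v → dist (q i u) (q i v) = dist (p u) (p v)) ∧
          (∀ i j, i ≠ j → ∃ u v, dist (q i u) (q i v) ≠ dist (q j u) (q j v)) := by
  intro V _ G h1 h2
  have hc := count_aux G
  have hS : Pool.Agent.H135R2.RC.Sparse G.edgeSet := by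
    intro S hS
    have := h2 S hS
    rw [hc] at this
    omega
  have hE : G.edgeSet.ncard + 3 = 2 * Fintype.card V := by
    have h3 := hc Finset.univ
    rw [Finset.univ_product_univ] at h3
    have h4 : Pool.Agent.H135R2.RC.ins G.edgeSet (Finset.univ : Finset V) = G.edgeSet := by
      ext e
      exact ⟨fun h => h.1, fun h => ⟨h, fun v _ => Finset.mem_univ v⟩⟩
    rw [h4] at h3
    omega
  have hd : ∀ c : V, s(c, c) ∉ G.edgeSet := fun c hc => by simp at hc
  have hn : 2 ≤ Fintype.card V := by omega
  obtain ⟨D, hD, hG⟩ := Pool.Agent.H135R2.RC.exists_good (Fintype.card V) Finset.univ G.edgeSet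
    Finset.card_univ hn (fun e _ v _ => Finset.mem_univ v) hd hS hE
  by_cases h3 : Fintype.card V ≤ 3
  · obtain ⟨p, hp⟩ := Pool.Agent.H135R2.Rigid.exists_generic V
    refine ⟨Pool.Agent.H135R2.Rigid.ofConf p, hp, fun _ => Pool.Agent.H135R2.Rigid.ofConf p,
      fun _ _ _ _ => rfl, fun i j hij => ?_⟩
    exfalso
    apply hij
    have h4 : 2 ^ (Fintype.card V - 3) = 1 := by
      rw [Nat.sub_eq_zero_of_le h3, pow_zero]
    have hi := lt_of_lt_of_eq i.2 h4
    have hj := lt_of_lt_of_eq j.2 h4
    exact Fin.ext (by omega)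
  · push Not at h3
    -- the third vertex
    obtain ⟨t, ht⟩ : ∃ t, t ∉ ({D.v0, D.r} : Finset V) := by
      by_contra hcon
      push Not at hcon
      have h4 : (Finset.univ : Finset V).card ≤ ({D.v0, D.r} : Finset V).card :=
        Finset.card_le_card fun x _ => hcon x
      have h5 := Finset.card_le_two (a := D.v0) (b := D.r)
      rw [Finset.card_univ] at h4
      omega
    rw [Finset.mem_insert, Finset.mem_singleton] at ht
    push Not at ht
    obtain ⟨ht0, htr⟩ := ht
    let K : Finset V := ({D.v0, D.r, t} : Finset V)ᶜ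
    have hK : ∀ k, k ∈ K ↔ k ≠ D.v0 ∧ k ≠ D.r ∧ k ≠ t := by
      intro k
      simp only [K, Finset.mem_compl, Finset.mem_insert, Finset.mem_singleton]
      tauto
    have hKc : Fintype.card (K → Bool) = 2 ^ (Fintype.card V - 3) := by
      rw [Fintype.card_fun, Fintype.card_bool, Fintype.card_coe, Finset.card_compl]
      rw [Finset.card_eq_three.2 ⟨D.v0, D.r, t, hD.ne, ht0.symm, htr.symm, rfl⟩]
    let φ := (Fintype.equivFinOfCardEq hKc).symm
    let σ : Fin (2 ^ (Fintype.card V - 3)) → V → ℝ := fun i k =>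
      if k = D.r then 0 else if h : k ∈ K then (if φ i ⟨k, h⟩ then 1 else -1) else 1
    have hne : Nonempty (Fin (2 ^ (Fintype.card V - 3))) := ⟨⟨0, by positivity⟩⟩
    obtain ⟨p, hp, q, hq1, hq2⟩ := Pool.Agent.H135R2.RC.realise hD hd hG σ
      (fun i k hk => by
        simp only [σ]
        rw [if_neg hk]
        split_ifs <;> norm_num)
      (fun i => by simp [σ])
    refine ⟨Pool.Agent.H135R2.Rigid.ofConf p, hp,
      fun i => Pool.Agent.H135R2.Rigid.ofConf (q i), ?_, ?_⟩
    · intro i u v huv
      rw [Pool.Agent.H135R2.Rigid.dist_eq_iff]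
      exact hq1 i u v huv
    · intro i j hij
      by_contra hcon
      push Not at hcon
      apply hij
      have h5 : ∀ a b, Pool.Agent.H135R2.Rigid.sq (q i) a b =
          Pool.Agent.H135R2.Rigid.sq (q j) a b := by
        intro a b
        have := hcon a b
        rw [Pool.Agent.H135R2.Rigid.dist_eq_iff] at this
        exact this
      have h6 := hq2 i j h5
      have h7 : ∀ m, σ m t = 1 := by
        intro m
        simp only [σ]
        rw [if_neg htr, dif_neg]
        rw [hK]
        tauto
      apply φ.injective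
      ext ⟨k, hk⟩
      have hk' := (hK k).1 hk
      have h8 := h6 k t hk'.1 hk'.2.1 ht0 htr
      rw [h7, h7, mul_one, mul_one] at h8
      simp only [σ] at h8
      rw [if_neg hk'.2.1, if_neg hk'.2.1, dif_pos hk, dif_pos hk] at h8
      cases h9 : φ i ⟨k, hk⟩ <;> cases h10 : φ j ⟨k, hk⟩ <;> rw [h9, h10] at h8 <;>
        first | rfl | exact absurd h8 (by norm_num)

end Pool.Agent.S07891
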