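import Pool.Statements.S07922
import Mathlib
import Pool.Agent.H219R2.EnergyLib

set_option autoImplicit false
open Pool Pool.MP_d26300_co

namespace Pool.Agent.S07922

open Finset Matrix Pool.Agent.H219R2.EnergyLib

/-! ### The singular tree: a path on 99 vertices with one more leaf at its second vertex -/

def pS (v : Fin 100) : Fin 100 := if v.val = 99 then 1 else ⟨v.val - 1, by omega⟩

/-- the singular tree -/
def GS : SimpleGraph (Fin 100) := parG (m := 99) pS

instance : DecidableRel GS.Adj := inferInstanceAs (DecidableRel (parG (m := 99) pS).Adj)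

lemma GS_tree : GS.IsTree := parG_isTree (m := 99) pS (by decide)

def bv (u v : ℕ) : ℕ :=
  if (v < u && (if u = 99 then 1 else u - 1) == v) || (u < v && (if v = 99 then 1 else v - 1) == u)
  then 1 else 0

set_option maxRecDepth 100000 in
theorem t2 : (∑ i : Fin 100, ∑ j : Fin 100, bv i j) = 198 := by decide +kernel

lemma bv_symm (i j : ℕ) : bv i j = bv j i := by
  unfold bv
  rw [Bool.or_comm]

lemma bv_le (i j : ℕ) : bv i j ≤ 1 := by
  unfold bv
  split_ifs <;> omega

lemma bv_cond (i k : Fin 100) (h : bv i k ≠ 0) :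
    (k.val < i.val ∧ (i.val = 99 → k.val = 1) ∧ (i.val ≠ 99 → k.val = i.val - 1)) ∨
    (i.val < k.val ∧ (k.val = 99 → i.val = 1) ∧ (k.val ≠ 99 → i.val = k.val - 1)) := by
  unfold bv at h
  have h1 : ((decide ((k : ℕ) < i) && (if (i : ℕ) = 99 then 1 else (i : ℕ) - 1) == (k : ℕ)) ||
      (decide ((i : ℕ) < k) && (if (k : ℕ) = 99 then 1 else (k : ℕ) - 1) == (i : ℕ))) = true := by
    by_contra hc
    rw [if_neg hc] at h
    exact h rfl
  simp only [Bool.or_eq_true, Bool.and_eq_true, decide_eq_true_eq, beq_iff_eq] at h1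
  rcases h1 with ⟨h2, h3⟩ | ⟨h2, h3⟩
  · left
    refine ⟨h2, fun h4 => ?_, fun h4 => ?_⟩
    · rw [if_pos h4] at h3; omega
    · rw [if_neg h4] at h3; omega
  · right
    refine ⟨h2, fun h4 => ?_, fun h4 => ?_⟩
    · rw [if_pos h4] at h3; omega
    · rw [if_neg h4] at h3; omega

lemma common_le (i j : Fin 100) (hij : i ≠ j) : (∑ k : Fin 100, bv i k * bv k j) ≤ 1 := by
  by_cases h : ∃ k : Fin 100, bv i k * bv k j ≠ 0
  · obtain ⟨k, hk⟩ := h
    rw [Finset.sum_eq_single k]
    · exact Nat.mul_le_mul (bv_le _ _) (bv_le _ _)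
    · intro l _ hl
      by_contra hc
      have h1 := bv_cond i k (left_ne_zero_of_mul hk)
      have h2 := bv_cond k j (right_ne_zero_of_mul hk)
      have h3 := bv_cond i l (left_ne_zero_of_mul hc)
      have h4 := bv_cond l j (right_ne_zero_of_mul hc)
      have h5 : i.val ≠ j.val := fun h => hij (Fin.ext h)
      have h6 : l.val ≠ k.val := fun h => hl (Fin.ext h)
      have := i.isLt
      have := j.isLt
      have := k.isLt
      have := l.isLt
      omega
    · intro h; exact absurd (Finset.mem_univ _) h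
  · push Not at h
    rw [Finset.sum_eq_zero fun k _ => h k]
    exact Nat.zero_le _

set_option maxRecDepth 100000 in
theorem td2 : (∑ i : Fin 100, (∑ j : Fin 100, bv i j) ^ 2) = 396 := by decide +kernel

lemma sum_sq_aux {ι : Type} [Fintype ι] [DecidableEq ι] (f : ι → ℕ) (i : ι)
    (hf : ∀ j, j ≠ i → f j ≤ 1) : ∑ j, f j ^ 2 + f i = f i ^ 2 + ∑ j, f j := by
  rw [← Finset.add_sum_erase Finset.univ (fun j => f j ^ 2) (Finset.mem_univ i),
      ← Finset.add_sum_erase Finset.univ f (Finset.mem_univ i)]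
  have h2 : ∑ j ∈ Finset.univ.erase i, f j ^ 2 = ∑ j ∈ Finset.univ.erase i, f j := by
    refine Finset.sum_congr rfl fun j hj => ?_
    have h3 := hf j (Finset.ne_of_mem_erase hj)
    interval_cases h : f j <;> rfl
  rw [h2]
  ring

lemma sum_sq_aux2 {ι : Type} [Fintype ι] [DecidableEq ι] (f : ι → ι → ℕ)
    (hf : ∀ i j, i ≠ j → f i j ≤ 1) :
    (∑ i, ∑ j, f i j ^ 2) + ∑ i, f i i = (∑ i, f i i ^ 2) + ∑ i, ∑ j, f i j := by
  rw [← Finset.sum_add_distrib, ← Finset.sum_add_distrib]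
  exact Finset.sum_congr rfl fun i _ => sum_sq_aux (f i) i fun j hj => hf i j hj.symm

lemma count4 {ι : Type} [Fintype ι] [DecidableEq ι] (b : ι → ι → ℕ) (hs : ∀ i j, b i j = b j i)
    (hidem : ∀ i j, b i j * b i j = b i j)
    (hcom : ∀ i j, i ≠ j → (∑ k, b i k * b k j) ≤ 1) :
    (∑ i, ∑ j, (∑ k, b i k * b k j) ^ 2) + ∑ i, ∑ j, b i j
      = (∑ i, (∑ j, b i j) ^ 2) + (∑ i, (∑ j, b i j) ^ 2) := by
  have h1 := sum_sq_aux2 (fun i j => ∑ k, b i k * b k j) hcom
  beta_reduce at h1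
  have hd : ∀ i, (∑ k, b i k * b k i) = ∑ k, b i k := by
    intro i
    refine Finset.sum_congr rfl fun k _ => ?_
    rw [hs k i, hidem]
  simp only [hd] at h1
  have h2 : ∑ i, ∑ j, (∑ k, b i k * b k j) = ∑ i, (∑ j, b i j) ^ 2 := by
    have h3 : ∀ i, ∑ j, (∑ k, b i k * b k j) = ∑ k, b i k * ∑ j, b k j := by
      intro i
      rw [Finset.sum_comm]
      refine Finset.sum_congr rfl fun k _ => ?_
      rw [Finset.mul_sum]
    rw [Finset.sum_congr rfl fun i _ => h3 i, Finset.sum_comm]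
    refine Finset.sum_congr rfl fun k _ => ?_
    rw [← Finset.sum_mul, sq]
    congr 1
    refine Finset.sum_congr rfl fun i _ => hs _ _
  rw [h2] at h1
  exact h1

lemma count4' {ι : Type} [Fintype ι] [DecidableEq ι] (b : ι → ι → ℕ) (hs : ∀ i j, b i j = b j i)
    (hidem : ∀ i j, b i j * b i j = b i j)
    (hcom : ∀ i j, i ≠ j → (∑ k, b i k * b k j) ≤ 1)
    (h2 : ∑ i, ∑ j, b i j = 198) (h3 : ∑ i, (∑ j, b i j) ^ 2 = 396) :
    (∑ i, ∑ j, (∑ k, b i k * b k j) ^ 2) = 594 := by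
  have h := count4 b hs hidem hcom
  rw [h2, h3] at h
  omega

theorem t4 : (∑ i : Fin 100, ∑ j : Fin 100, (∑ k : Fin 100, bv i k * bv k j) ^ 2) = 594 :=
  count4' (fun i j : Fin 100 => bv i j) (fun i j => bv_symm i j)
    (fun i j => by unfold bv; split_ifs <;> rfl) common_le t2 td2

lemma adj_bv (i j : Fin 100) : GS.adjMatrix ℝ i j = (bv i j : ℝ) := by
  rw [SimpleGraph.adjMatrix_apply]
  unfold bv
  have h : GS.Adj i j ↔ (((j : ℕ) < i && (if (i : ℕ) = 99 then 1 else (i : ℕ) - 1) == (j : ℕ)) ||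
      ((i : ℕ) < j && (if (j : ℕ) = 99 then 1 else (j : ℕ) - 1) == (i : ℕ))) = true := by
    unfold GS parG pS
    simp only [Fin.lt_def, Bool.or_eq_true, Bool.and_eq_true, decide_eq_true_eq, beq_iff_eq,
      Fin.ext_iff]
    constructor
    · rintro (⟨h1, h2⟩ | ⟨h1, h2⟩)
      · left
        refine ⟨h1, ?_⟩
        split_ifs at h2 ⊢ with h3
        · exact h2
        · exact h2
      · right
        refine ⟨h1, ?_⟩
        split_ifs at h2 ⊢ with h3
        · exact h2
        · exact h2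
    · rintro (⟨h1, h2⟩ | ⟨h1, h2⟩)
      · left
        refine ⟨h1, ?_⟩
        split_ifs at h2 ⊢ with h3
        · exact h2
        · exact h2
      · right
        refine ⟨h1, ?_⟩
        split_ifs at h2 ⊢ with h3
        · exact h2
        · exact h2
  by_cases hh : GS.Adj i j
  · rw [if_pos hh, if_pos (h.mp hh)]; norm_num
  · rw [if_neg hh, if_neg (fun h' => hh (h.mpr h'))]; norm_num

lemma tr2 : ((GS.adjMatrix ℝ) ^ 2).trace = 198 := by
  have h : ((GS.adjMatrix ℝ) ^ 2).trace = ∑ i : Fin 100, ∑ j : Fin 100, (bv i j : ℝ) := by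
    rw [sq, Matrix.trace]
    refine Finset.sum_congr rfl fun i _ => ?_
    rw [Matrix.diag_apply, Matrix.mul_apply]
    refine Finset.sum_congr rfl fun j _ => ?_
    rw [adj_bv, adj_bv, bv_symm j i]
    unfold bv
    split_ifs <;> norm_num
  rw [h]
  have := t2
  exact_mod_cast this

lemma tr4 : ((GS.adjMatrix ℝ) ^ 4).trace = 594 := by
  have h : ((GS.adjMatrix ℝ) ^ 4).trace =
      ∑ i : Fin 100, ∑ j : Fin 100, (∑ k : Fin 100, (bv i k : ℝ) * bv k j) ^ 2 := by
    have h4 : (GS.adjMatrix ℝ) ^ 4 = (GS.adjMatrix ℝ * GS.adjMatrix ℝ) *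
        (GS.adjMatrix ℝ * GS.adjMatrix ℝ) := by
      noncomm_ring
    rw [h4, Matrix.trace]
    refine Finset.sum_congr rfl fun i _ => ?_
    rw [Matrix.diag_apply, Matrix.mul_apply]
    refine Finset.sum_congr rfl fun j _ => ?_
    rw [Matrix.mul_apply, Matrix.mul_apply, sq]
    congr 1
    · refine Finset.sum_congr rfl fun k _ => ?_
      rw [adj_bv, adj_bv]
    · refine Finset.sum_congr rfl fun k _ => ?_
      rw [adj_bv, adj_bv, bv_symm j k, bv_symm k i, mul_comm]
  rw [h]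
  have := t4
  exact_mod_cast this

lemma det_S : (GS.adjMatrix ℝ).det = 0 := by
  apply Matrix.det_zero_of_row_eq (i := (0 : Fin 100)) (j := (99 : Fin 100)) (by decide)
  funext j
  rw [SimpleGraph.adjMatrix_apply, SimpleGraph.adjMatrix_apply]
  have h : ∀ j : Fin 100, GS.Adj 0 j ↔ GS.Adj 99 j := by decide
  by_cases hh : GS.Adj 0 j
  · rw [if_pos hh, if_pos ((h j).mp hh)]
  · rw [if_neg hh, if_neg (fun h' => hh ((h j).mpr h'))]

/-! ### The nonsingular tree: a star with 49 leaves, with a pendant vertex at every vertex -/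

def pT (v : Fin 100) : Fin 100 := if v.val < 50 then 0 else ⟨v.val - 50, by omega⟩

/-- the nonsingular tree -/
def GT : SimpleGraph (Fin 100) := parG (m := 99) pT

instance : DecidableRel GT.Adj := inferInstanceAs (DecidableRel (parG (m := 99) pT).Adj)

lemma GT_tree : GT.IsTree := parG_isTree (m := 99) pT (by decide)

/-- block equivalence -/
def e2 : Fin 50 ⊕ Fin 50 ≃ Fin 100 := finSumFinEquiv

lemma e2_inl (i : Fin 50) : (e2 (Sum.inl i)).val = i.val := rfl

lemma e2_inr (i : Fin 50) : (e2 (Sum.inr i)).val = 50 + i.val := rfl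

/-- adjacency matrix of the star -/
def B : Matrix (Fin 50) (Fin 50) ℝ := fun i j =>
  if (i.val = 0 ∧ j.val ≠ 0) ∨ (i.val ≠ 0 ∧ j.val = 0) then 1 else 0

lemma GT_adj (u v : Fin 100) : GT.Adj u v ↔
    ((v.val < u.val ∧ (if u.val < 50 then 0 else u.val - 50) = v.val) ∨
     (u.val < v.val ∧ (if v.val < 50 then 0 else v.val - 50) = u.val)) := by
  unfold GT parG pT
  simp only [Fin.lt_def, Fin.ext_iff]
  split_ifs <;> simp

lemma adjT_block : (GT.adjMatrix ℝ).submatrix e2 e2 =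
    Matrix.fromBlocks B (1 : Matrix (Fin 50) (Fin 50) ℝ) 1 0 := by
  ext i j
  rw [Matrix.submatrix_apply, SimpleGraph.adjMatrix_apply]
  rcases i with i | i <;> rcases j with j | j
  · rw [Matrix.fromBlocks_apply₁₁]
    unfold B
    congr 1
    rw [GT_adj, e2_inl, e2_inl, eq_iff_iff]
    have := i.isLt
    have := j.isLt
    rw [if_pos (by omega), if_pos (by omega)]
    omega
  · rw [Matrix.fromBlocks_apply₁₂, Matrix.one_apply]
    congr 1
    rw [GT_adj, e2_inl, e2_inr, eq_iff_iff, Fin.ext_iff]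
    have := i.isLt
    have := j.isLt
    rw [if_pos (by omega), if_neg (by omega)]
    omega
  · rw [Matrix.fromBlocks_apply₂₁, Matrix.one_apply]
    congr 1
    rw [GT_adj, e2_inl, e2_inr, eq_iff_iff, Fin.ext_iff]
    have := i.isLt
    have := j.isLt
    rw [if_neg (by omega), if_pos (by omega)]
    omega
  · rw [Matrix.fromBlocks_apply₂₂, Matrix.zero_apply, if_neg]
    rw [GT_adj, e2_inr, e2_inr]
    have := i.isLt
    have := j.isLt
    rw [if_neg (by omega), if_neg (by omega)]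
    omega

lemma det_T : |(GT.adjMatrix ℝ).det| = 1 := by
  have h1 : (GT.adjMatrix ℝ).det = (Matrix.fromBlocks B (1 : Matrix (Fin 50) (Fin 50) ℝ) 1 0).det := by
    rw [← adjT_block, Matrix.det_submatrix_equiv_self]
  have hP : (Matrix.fromBlocks (0 : Matrix (Fin 50) (Fin 50) ℝ) (1 : Matrix (Fin 50) (Fin 50) ℝ)
      (1 : Matrix (Fin 50) (Fin 50) ℝ) (0 : Matrix (Fin 50) (Fin 50) ℝ)).det ^ 2 = 1 := by
    rw [sq, ← Matrix.det_mul, Matrix.fromBlocks_multiply]
    simp
  have hM : (Matrix.fromBlocks B (1 : Matrix (Fin 50) (Fin 50) ℝ) 1 0).det *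
      (Matrix.fromBlocks (0 : Matrix (Fin 50) (Fin 50) ℝ) (1 : Matrix (Fin 50) (Fin 50) ℝ)
      (1 : Matrix (Fin 50) (Fin 50) ℝ) (0 : Matrix (Fin 50) (Fin 50) ℝ)).det = 1 := by
    rw [← Matrix.det_mul, Matrix.fromBlocks_multiply]
    simp
  have h2 : (Matrix.fromBlocks B (1 : Matrix (Fin 50) (Fin 50) ℝ) 1 0).det ^ 2 = 1 := by
    have := congrArg (fun x => x ^ 2) hM
    simp only [mul_pow, hP, mul_one, one_pow] at this
    exact this
  rw [h1]
  have h3 : |(Matrix.fromBlocks B (1 : Matrix (Fin 50) (Fin 50) ℝ) 1 0).det| ^ 2 = 1 := by rw [sq_abs, h2]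
  have h4 : 0 ≤ |(Matrix.fromBlocks B (1 : Matrix (Fin 50) (Fin 50) ℝ) 1 0).det| := abs_nonneg _
  nlinarith

/-- the comparison matrix for the upper bound -/
noncomputable def Q : Matrix (Fin 50 ⊕ Fin 50) (Fin 50 ⊕ Fin 50) ℝ :=
  1 + (7 : ℝ) • Matrix.vecMulVec (fun i => if i = Sum.inl 0 then 1 else 0)
        (fun i => if i = Sum.inl 0 then 1 else 0)
    + (1/7 : ℝ) • Matrix.vecMulVec (fun i => Sum.elim (fun j : Fin 50 => if j = 0 then 0 else 1)
        (fun _ => 0) i)
      (fun i => Sum.elim (fun j : Fin 50 => if j = 0 then 0 else 1) (fun _ => 0) i)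

lemma amgm (a b : ℝ) : |2 * (a * b)| ≤ a ^ 2 + b ^ 2 := by
  rw [abs_le]
  constructor <;> nlinarith [sq_nonneg (a + b), sq_nonneg (a - b)]

lemma amgm2 (a s : ℝ) : |2 * a * s| ≤ 7 * a ^ 2 + (1/7) * s ^ 2 := by
  rw [abs_le]
  constructor <;> nlinarith [sq_nonneg (7 * a + s), sq_nonneg (7 * a - s)]

lemma energy_T : ((GT.adjMatrix ℝ).charpoly.roots.map (fun x : ℝ => |x|)).sum ≤ 114 := by
  have h0 : (GT.adjMatrix ℝ).charpoly = (Matrix.fromBlocks B (1 : Matrix (Fin 50) (Fin 50) ℝ) 1 0).charpoly := by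
    rw [← adjT_block, ← Matrix.charpoly_reindex e2 ((GT.adjMatrix ℝ).submatrix e2 e2)]
    congr 1
    ext i j
    simp [Matrix.reindex_apply]
  rw [h0]
  have hB : B.IsHermitian := by
    ext i j
    rw [Matrix.conjTranspose_apply]
    change star (if (j.val = 0 ∧ i.val ≠ 0) ∨ (j.val ≠ 0 ∧ i.val = 0) then (1:ℝ) else 0) =
      (if (i.val = 0 ∧ j.val ≠ 0) ∨ (i.val ≠ 0 ∧ j.val = 0) then (1:ℝ) else 0)
    have hsw : ((j.val = 0 ∧ i.val ≠ 0) ∨ (j.val ≠ 0 ∧ i.val = 0)) ↔
        ((i.val = 0 ∧ j.val ≠ 0) ∨ (i.val ≠ 0 ∧ j.val = 0)) := by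
      constructor
      · rintro (h | h)
        · exact Or.inr ⟨h.2, h.1⟩
        · exact Or.inl ⟨h.2, h.1⟩
      · rintro (h | h)
        · exact Or.inr ⟨h.2, h.1⟩
        · exact Or.inl ⟨h.2, h.1⟩
    by_cases h : (i.val = 0 ∧ j.val ≠ 0) ∨ (i.val ≠ 0 ∧ j.val = 0)
    · rw [if_pos h, if_pos (hsw.mpr h)]; simp
    · rw [if_neg h, if_neg (fun h' => h (hsw.mp h'))]; simp
  have hA : (Matrix.fromBlocks B (1 : Matrix (Fin 50) (Fin 50) ℝ) 1 0).IsHermitian := by
    apply Matrix.IsHermitian.fromBlocks hB (by simp) (by simp [Matrix.IsHermitian])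
  have hQ : Q.trace = 114 := by
    unfold Q
    rw [Matrix.trace_add, Matrix.trace_add, Matrix.trace_smul, Matrix.trace_smul,
      Matrix.trace_vecMulVec, Matrix.trace_vecMulVec, Matrix.trace_one]
    simp only [dotProduct, Fintype.sum_sum_type, Sum.inl.injEq, reduceCtorEq, if_false,
      Sum.elim_inl, Sum.elim_inr, mul_zero, Finset.sum_const_zero, add_zero]
    have h1 : ∑ x : Fin 50, ((if x = 0 then (1:ℝ) else 0) * if x = 0 then 1 else 0) = 1 := by
      simp
    have h2 : ∑ x : Fin 50, ((if x = 0 then (0:ℝ) else 1) * if x = 0 then 0 else 1) = 49 := by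
      rw [Fin.sum_univ_succ]
      simp [Fin.succ_ne_zero]
    rw [h1, h2]
    simp
    norm_num
  rw [← hQ]
  apply energy_le _ _ hA
  intro v
  set f : Fin 50 → ℝ := fun i => v (Sum.inl i) with hf
  set g : Fin 50 → ℝ := fun i => v (Sum.inr i) with hg
  set s : ℝ := ∑ i : Fin 49, f i.succ with hs
  have hqA : quad (Matrix.fromBlocks B (1 : Matrix (Fin 50) (Fin 50) ℝ) 1 0) v = 2 * f 0 * s + 2 * ∑ i, f i * g i := by
    unfold quad
    rw [Matrix.fromBlocks_mulVec]
    simp only [dotProduct, Fintype.sum_sum_type, Sum.elim_inl, Sum.elim_inr, Matrix.one_mulVec,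
      Matrix.zero_mulVec, add_zero, Pi.add_apply, Function.comp_apply]
    have hB0 : (B *ᵥ (v ∘ Sum.inl)) 0 = s := by
      rw [Matrix.mulVec, dotProduct, Fin.sum_univ_succ]
      simp [B, hs, hf, Fin.succ_ne_zero]
    have hBs : ∀ i : Fin 49, (B *ᵥ (v ∘ Sum.inl)) i.succ = f 0 := by
      intro i
      rw [Matrix.mulVec, dotProduct, Fin.sum_univ_succ]
      simp [B, hf, Fin.succ_ne_zero]
    have h3 : ∑ x : Fin 50, v (Sum.inl x) * ((B *ᵥ (v ∘ Sum.inl)) x + v (Sum.inr x))
        = 2 * f 0 * s + ∑ i, f i * g i := by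
      simp only [mul_add, Finset.sum_add_distrib]
      rw [Fin.sum_univ_succ]
      simp only [hB0, hBs]
      rw [← Finset.sum_mul]
      change f 0 * s + s * f 0 + _ = _
      ring
    have h4 : ∑ x : Fin 50, v (Sum.inr x) * v (Sum.inl x) = ∑ i, f i * g i := by
      refine Finset.sum_congr rfl fun i _ => ?_
      simp only [hf, hg]; ring
    rw [h3, h4]
    ring
  have hqQ : quad Q v = (∑ i, f i ^ 2 + ∑ i, g i ^ 2) + 7 * f 0 ^ 2 + (1/7) * s ^ 2 := by
    unfold quad Q
    rw [Matrix.add_mulVec, Matrix.add_mulVec, Matrix.smul_mulVec, Matrix.smul_mulVec,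
      Matrix.one_mulVec, Matrix.vecMulVec_mulVec, Matrix.vecMulVec_mulVec]
    simp only [dotProduct, Fintype.sum_sum_type, Pi.add_apply, Pi.smul_apply, Sum.inl.injEq,
      reduceCtorEq, if_false, Sum.elim_inl, Sum.elim_inr, smul_eq_mul, MulOpposite.smul_eq_mul_unop,
      MulOpposite.unop_op, zero_mul, mul_zero, Finset.sum_const_zero, add_zero]
    have h1 : ∑ x : Fin 50, (if x = 0 then (1:ℝ) else 0) * v (Sum.inl x) = f 0 := by
      simp [hf]
    have h2 : ∑ x : Fin 50, (if x = 0 then (0:ℝ) else 1) * v (Sum.inl x) = s := by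
      rw [Fin.sum_univ_succ]
      simp [Fin.succ_ne_zero, hs, hf]
    rw [h1, h2]
    have h3 : ∀ x : Fin 50, v (Sum.inl x) * (v (Sum.inl x) + 7 * ((if x = 0 then (1:ℝ) else 0) * f 0)
        + 1/7 * ((if x = 0 then (0:ℝ) else 1) * s)) = f x ^ 2 +
          7 * f 0 * ((if x = 0 then (1:ℝ) else 0) * v (Sum.inl x))
          + 1/7 * s * ((if x = 0 then (0:ℝ) else 1) * v (Sum.inl x)) := by
      intro x
      simp only [hf]
      ring
    rw [Finset.sum_congr rfl fun x _ => h3 x, Finset.sum_add_distrib, Finset.sum_add_distrib,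
      ← Finset.mul_sum, ← Finset.mul_sum, h1, h2]
    have h4 : ∑ x : Fin 50, v (Sum.inr x) * v (Sum.inr x) = ∑ i, g i ^ 2 := by
      refine Finset.sum_congr rfl fun i _ => ?_
      simp only [hg]; ring
    rw [h4]
    ring
  rw [hqA, hqQ]
  have hfg : |2 * ∑ i, f i * g i| ≤ ∑ i, f i ^ 2 + ∑ i, g i ^ 2 := by
    rw [Finset.mul_sum, ← Finset.sum_add_distrib]
    refine (Finset.abs_sum_le_sum_abs _ _).trans (Finset.sum_le_sum fun i _ => ?_)
    exact amgm (f i) (g i)
  have hs2 : |2 * f 0 * s| ≤ 7 * f 0 ^ 2 + (1/7) * s ^ 2 := amgm2 (f 0) s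
  calc |2 * f 0 * s + 2 * ∑ i, f i * g i| ≤ |2 * f 0 * s| + |2 * ∑ i, f i * g i| := abs_add_le _ _
    _ ≤ _ := by linarith

/-- The negation of the preceding statement: For trees T, S on the same even number of vertices: if the product of absolute adjacency eigenvalues is 1 for T and 0 for S, then the sum of absolute eigenvalues (energy) of T is strictly larger than that of S. -/
theorem result :
    ¬ (∀ (n : ℕ) (T S : SimpleGraph (Fin n)) [DecidableRel T.Adj] [DecidableRel S.Adj],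
      Even n → T.IsTree → S.IsTree →
      ((T.adjMatrix ℝ).charpoly.roots.map (fun x : ℝ => |x|)).prod = 1 →
      ((S.adjMatrix ℝ).charpoly.roots.map (fun x : ℝ => |x|)).prod = 0 →
      ((S.adjMatrix ℝ).charpoly.roots.map (fun x : ℝ => |x|)).sum <
        ((T.adjMatrix ℝ).charpoly.roots.map (fun x : ℝ => |x|)).sum) := by
  intro H
  have hHS : (GS.adjMatrix ℝ).IsHermitian := by
    rw [Matrix.IsHermitian, Matrix.conjTranspose_eq_transpose_of_trivial]
    exact SimpleGraph.transpose_adjMatrix (α := ℝ) (G := GS)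
  have hHT : (GT.adjMatrix ℝ).IsHermitian := by
    rw [Matrix.IsHermitian, Matrix.conjTranspose_eq_transpose_of_trivial]
    exact SimpleGraph.transpose_adjMatrix (α := ℝ) (G := GT)
  have h := H 100 GT GS (by decide) GT_tree GS_tree (by rw [prod_eq _ hHT, det_T])
    (by rw [prod_eq _ hHS, det_S, abs_zero])
  have h1 := energy_T
  have h2 := le_energy (GS.adjMatrix ℝ) hHS
  rw [tr2, tr4] at h2
  have h3 : (114 : ℝ) < (6/7) * 198 - (32/343) * 594 := by norm_num
  linarith

end Pool.Agent.S07922
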