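import Pool.Statements.S07983
-- import your own Pool.Agent.* helpers here
import Pool.Agent.H285R2.PolyCompat3

set_option autoImplicit false
open Pool Pool.MP_d612eb_co

namespace Pool.Agent.S07983

open Pool.Agent.H285R2.PolyCompat in
/-- The function on the cube attached to a family of coefficients. -/
noncomputable def fn {N : ℕ} (c : Finset (Fin N) → ℝ) (x : Fin N → Bool) : ℝ :=
  ∑ S, c S * chi S x

open Pool.Agent.H285R2.PolyCompat in
lemma fn_mem {N d : ℕ} (c : Finset (Fin N) → ℝ) (hc : ∀ S, c S ≠ 0 → S.card ≤ d) :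
    fn c ∈ Deg N d := by
  have h : fn c = ∑ S, c S • chi S := by
    funext x; simp [fn]
  rw [h]
  apply Submodule.sum_mem
  intro S _
  by_cases hS : c S = 0
  · rw [hS, zero_smul]; exact Submodule.zero_mem _
  · exact Submodule.smul_mem _ _ (chi_mem S (hc S hS))

open Pool.Agent.H285R2.PolyCompat in
lemma fn_norm {N : ℕ} (c : Finset (Fin N) → ℝ) : E (fun x => fn c x ^ 2) = ∑ S, c S ^ 2 :=
  parseval c

open Pool.Agent.H285R2.PolyCompat in
lemma fn_inf {N : ℕ} (c : Finset (Fin N) → ℝ) (i : Fin N) :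
    E (fun x => (fn c (flip {i} x) - fn c x) ^ 2) =
      4 * ∑ S ∈ Finset.univ.filter (fun S : Finset (Fin N) => i ∈ S), c S ^ 2 := by
  have h1 : ∀ x, fn c (flip {i} x) - fn c x =
      ∑ S, (if i ∈ S then -2 * c S else 0) * chi S x := by
    intro x
    unfold fn
    rw [← Finset.sum_sub_distrib]
    refine Finset.sum_congr rfl fun S _ => ?_
    rw [chi_flip]
    by_cases h : i ∈ S
    · have : S ∩ {i} = {i} := by ext j; simp; rintro rfl; exact h
      rw [this]; simp [h]; ring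
    · have : S ∩ {i} = ∅ := by ext j; simp; rintro h2 rfl; exact h h2
      rw [this]; simp [h]
  simp only [h1]
  rw [parseval, Finset.mul_sum, Finset.sum_filter]
  refine Finset.sum_congr rfl fun S _ => ?_
  split_ifs <;> ring

open Pool.Agent.H285R2.PolyCompat in
/-- The `L¹` influence of the square of a function. -/
lemma sq_inf {N : ℕ} (c : Finset (Fin N) → ℝ) (hc : ∑ S, c S ^ 2 = 1) (i : Fin N) (lam : ℝ)
    (hl : 0 < lam) :
    E (fun x => |fn c (flip {i} x) ^ 2 - fn c x ^ 2|) ≤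
      2 / lam * (∑ S ∈ Finset.univ.filter (fun S : Finset (Fin N) => i ∈ S), c S ^ 2) + 2 * lam := by
  have h1 : ∀ x, |fn c (flip {i} x) ^ 2 - fn c x ^ 2| ≤
      1 / (2 * lam) * (fn c (flip {i} x) - fn c x) ^ 2 +
      lam * (fn c (flip {i} x) ^ 2 + fn c x ^ 2) := by
    intro x
    set u := fn c (flip {i} x)
    set v := fn c x
    have h2 : |u ^ 2 - v ^ 2| = |u - v| * |u + v| := by rw [← abs_mul]; ring_nf
    have h3 : |u - v| * |u + v| ≤ 1 / (2 * lam) * |u - v| ^ 2 + lam / 2 * |u + v| ^ 2 := by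
      have h4 : 0 ≤ (|u - v| - lam * |u + v|) ^ 2 := sq_nonneg _
      have h5 : 1 / (2 * lam) * |u - v| ^ 2 + lam / 2 * |u + v| ^ 2 - |u - v| * |u + v| =
          1 / (2 * lam) * (|u - v| - lam * |u + v|) ^ 2 := by
        field_simp; ring
      have h6 : 0 ≤ 1 / (2 * lam) * (|u - v| - lam * |u + v|) ^ 2 := by positivity
      linarith
    rw [sq_abs, sq_abs] at h3
    have h7 : lam / 2 * (u + v) ^ 2 ≤ lam * (u ^ 2 + v ^ 2) := by
      nlinarith [sq_nonneg (u - v)]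
    rw [h2]; linarith
  refine (E_mono h1).trans ?_
  rw [E_add, E_smul, E_smul, E_add, fn_inf, E_flip {i} (fun x => fn c x ^ 2), fn_norm, hc]
  apply le_of_eq
  field_simp
  ring

open Pool.Agent.H285R2.PolyCompat in
/-- The mixture of squares has small `L¹` influences. -/
lemma mix_inf {N m : ℕ} (p : Fin m → ℝ) (f : Fin m → Finset (Fin N) → ℝ) (hp : ∀ k, 0 < p k)
    (hp1 : ∑ k, p k = 1) (hf : ∀ k, ∑ S, (f k S) ^ 2 = 1) (i : Fin N) (lam : ℝ) (hl : 0 < lam)
    (hi : ∑ k, p k * ∑ S ∈ Finset.univ.filter (fun S : Finset (Fin N) => i ∈ S), (f k S) ^ 2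
          ≤ lam ^ 2) :
    E (fun x => |(∑ k, p k * fn (f k) (flip {i} x) ^ 2) - ∑ k, p k * fn (f k) x ^ 2|) ≤
      4 * lam := by
  have h1 : ∀ x, |(∑ k, p k * fn (f k) (flip {i} x) ^ 2) - ∑ k, p k * fn (f k) x ^ 2| ≤
      ∑ k, p k * |fn (f k) (flip {i} x) ^ 2 - fn (f k) x ^ 2| := by
    intro x
    rw [← Finset.sum_sub_distrib]
    refine (Finset.abs_sum_le_sum_abs _ _).trans (Finset.sum_le_sum fun k _ => ?_)
    rw [← mul_sub, abs_mul, abs_of_pos (hp k)]
  refine (E_mono h1).trans ?_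
  rw [E_sum]
  simp only [E_smul]
  calc _ ≤ ∑ k, p k * (2 / lam * (∑ S ∈ Finset.univ.filter (fun S : Finset (Fin N) => i ∈ S),
        (f k S) ^ 2) + 2 * lam) := by
        apply Finset.sum_le_sum
        intro k _
        exact mul_le_mul_of_nonneg_left (sq_inf (f k) (hf k) i lam hl) (hp k).le
    _ = 2 / lam * (∑ k, p k * ∑ S ∈ Finset.univ.filter (fun S : Finset (Fin N) => i ∈ S),
        (f k S) ^ 2) + 2 * lam * ∑ k, p k := by
        rw [Finset.mul_sum, Finset.mul_sum, ← Finset.sum_add_distrib]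
        refine Finset.sum_congr rfl fun k _ => ?_
        ring
    _ ≤ 2 / lam * lam ^ 2 + 2 * lam * 1 := by
        rw [hp1]
        gcongr
    _ = 4 * lam := by field_simp; ring

open Pool.Agent.H285R2.PolyCompat in
lemma mix_E {N m : ℕ} (p : Fin m → ℝ) (f : Fin m → Finset (Fin N) → ℝ)
    (hp1 : ∑ k, p k = 1) (hf : ∀ k, ∑ S, (f k S) ^ 2 = 1) :
    E (fun x => ∑ k, p k * fn (f k) x ^ 2) = 1 := by
  rw [E_sum]
  simp only [E_smul, fn_norm, hf, mul_one, hp1]

open Pool.Agent.H285R2.PolyCompat in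
lemma mix_mem {N m d : ℕ} (p : Fin m → ℝ) (f : Fin m → Finset (Fin N) → ℝ)
    (hf : ∀ k S, f k S ≠ 0 → S.card ≤ d) :
    (fun x => ∑ k, p k * fn (f k) x ^ 2) ∈ Deg N (d + d) := by
  have h : (fun x => ∑ k, p k * fn (f k) x ^ 2) = ∑ k, p k • (fn (f k) * fn (f k)) := by
    funext x; simp [sq]
  rw [h]
  apply Submodule.sum_mem
  intro k _
  apply Submodule.smul_mem
  exact Deg_mul (fn_mem _ (hf k)) (fn_mem _ (hf k))

open Pool.Agent.H285R2.PolyCompat in
/-- For some c>0 and C, whenever two finite distributions of multilinear polynomials of degree ≤ d with unit L2 norm have every average influence ≤ c/(d+1)^C, some f and g in their supports and some sign vector x satisfy f(x)g(x) ≠ 0. -/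
theorem result :
    ∃ c : ℝ, 0 < c ∧ ∃ C : ℕ, ∀ d N m n : ℕ,
      ∀ p : Fin m → ℝ, ∀ f : Fin m → Finset (Fin N) → ℝ,
      ∀ q : Fin n → ℝ, ∀ g : Fin n → Finset (Fin N) → ℝ,
      (∀ k, 0 < p k) → (∑ k, p k = 1) →
      (∀ k, 0 < q k) → (∑ k, q k = 1) →
      (∀ k S, f k S ≠ 0 → S.card ≤ d) →
      (∀ k S, g k S ≠ 0 → S.card ≤ d) →
      (∀ k, ∑ S, (f k S) ^ 2 = 1) →
      (∀ k, ∑ S, (g k S) ^ 2 = 1) →
      (∀ i : Fin N, ∑ k, p k * ∑ S ∈ Finset.univ.filter (fun S : Finset (Fin N) => i ∈ S), (f k S) ^ 2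
          ≤ c / ((d : ℝ) + 1) ^ C) →
      (∀ i : Fin N, ∑ k, q k * ∑ S ∈ Finset.univ.filter (fun S : Finset (Fin N) => i ∈ S), (g k S) ^ 2
          ≤ c / ((d : ℝ) + 1) ^ C) →
      ∃ k : Fin m, ∃ l : Fin n, ∃ x : Fin N → ℝ, (∀ i, x i = 1 ∨ x i = -1) ∧
        (∑ S, f k S * ∏ i ∈ S, x i) * (∑ S, g l S * ∏ i ∈ S, x i) ≠ 0 := by
  refine ⟨1 / 16384, by norm_num, 8, ?_⟩
  intro d N m n p f q g hp hp1 hq hq1 hfd hgd hf1 hg1 hfi hgi
  by_contra hcon
  push Not at hcon
  -- all products vanish on the cube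
  have hzero : ∀ (k : Fin m) (l : Fin n) (x : Fin N → Bool), fn (f k) x * fn (g l) x = 0 := by
    intro k l x
    have := hcon k l (fun i => sg (x i)) (fun i => by cases x i <;> simp [sg])
    exact this
  set P : (Fin N → Bool) → ℝ := fun x => ∑ k, p k * fn (f k) x ^ 2 with hPdef
  set Q : (Fin N → Bool) → ℝ := fun x => ∑ k, q k * fn (g k) x ^ 2 with hQdef
  have hP0 : ∀ y, 0 ≤ P y := fun y =>
    Finset.sum_nonneg (fun k _ => mul_nonneg (hp k).le (sq_nonneg _))
  have hPQ : ∀ y, P y = 0 ∨ Q y = 0 := by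
    intro y
    by_cases h : ∀ k, fn (f k) y = 0
    · left
      simp [hPdef, h]
    · right
      push Not at h
      obtain ⟨k, hk⟩ := h
      have h2 : ∀ l, fn (g l) y = 0 := fun l => (mul_eq_zero.mp (hzero k l y)).resolve_left hk
      simp [hQdef, h2]
  obtain ⟨a, ha, ha01, haP, haQ⟩ := separate (d + d) (mix_mem p f hfd) (mix_mem q g hgd) hP0 hPQ
  set D : ℕ := (d + d) ^ 2 * (d + d) * (d + d) with hD
  set lam : ℝ := 1 / (128 * ((d : ℝ) + 1) ^ 4) with hlam
  have hlpos : 0 < lam := by positivity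
  have hlam2 : (1 / 16384 : ℝ) / ((d : ℝ) + 1) ^ 8 = lam ^ 2 := by
    rw [hlam]; field_simp; norm_num
  have hPi : ∀ i, E (fun x => |P (flip {i} x) - P x|) ≤ 2 * (2 * lam) := by
    intro i
    have := mix_inf p f hp hp1 hf1 i lam hlpos (by rw [← hlam2]; exact hfi i)
    calc _ ≤ 4 * lam := this
      _ = _ := by ring
  have hQi : ∀ i, E (fun x => |Q (flip {i} x) - Q x|) ≤ 2 * (2 * lam) := by
    intro i
    have := mix_inf q g hq hq1 hg1 i lam hlpos (by rw [← hlam2]; exact hgi i)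
    calc _ ≤ 4 * lam := this
      _ = _ := by ring
  have h01 : ∀ x, 0 ≤ a x ∧ a x ≤ 1 := by
    intro x
    rcases ha01 x with h | h <;> rw [h] <;> norm_num
  have hcovP := osss (by positivity) hPi D ha h01
  have hcovQ := osss (by positivity) hQi D ha h01
  have hEP : E P = 1 := mix_E p f hp1 hf1
  have hEQ : E Q = 1 := mix_E q g hq1 hg1
  have h1 : (fun x => a x * P x) = P := by
    funext x
    rcases ha01 x with h | h
    · have h' : P x = 0 := haP x h
      rw [h', mul_zero]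
    · rw [h, one_mul]
  have h2 : (fun x => a x * Q x) = fun _ => 0 := by
    funext x
    rcases ha01 x with h | h
    · rw [h, zero_mul]
    · have h' : Q x = 0 := haQ x h
      rw [h', mul_zero]
  rw [h1, hEP, mul_one] at hcovP
  rw [h2, hEQ, mul_one, E_const] at hcovQ
  have h3 : (D : ℝ) * (2 * lam) ≤ 1 / 4 := by
    have h4 : (D : ℝ) = 16 * (d : ℝ) ^ 4 := by rw [hD]; push_cast; ring
    rw [h4, hlam]
    have h5 : (d : ℝ) ^ 4 ≤ ((d : ℝ) + 1) ^ 4 := by gcongr; linarith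
    have h6 : 0 < ((d : ℝ) + 1) ^ 4 := by positivity
    rw [show 16 * (d : ℝ) ^ 4 * (2 * (1 / (128 * ((d : ℝ) + 1) ^ 4))) =
      (d : ℝ) ^ 4 / ((d : ℝ) + 1) ^ 4 * (1 / 4) by field_simp; ring]
    have h7 : (d : ℝ) ^ 4 / ((d : ℝ) + 1) ^ 4 ≤ 1 := by rw [div_le_one h6]; exact h5
    linarith
  rw [abs_le] at hcovP hcovQ
  linarith [hcovP.1, hcovP.2, hcovQ.1, hcovQ.2]

end Pool.Agent.S07983
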