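import Pool.Statements.S08002
import Pool.Agent.H166R2.CritPM

set_option autoImplicit false
open Pool Pool.MP_d7f445_co

namespace Pool.Agent.S08002

/-- The negation of the preceding statement: Every connected graph of even order that cannot be properly edge-coloured with max-degree many colours, but becomes so colourable after deleting any single edge, has a perfect matching. -/
theorem result :
    ¬ (∀ (n : ℕ) (G : SimpleGraph (Fin n)) [DecidableRel G.Adj],
      G.Connected → Even n →
      (¬ ∃ c : G.edgeSet → Fin G.maxDegree,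
          ∀ e f : G.edgeSet, e ≠ f → (∃ v, v ∈ e.1 ∧ v ∈ f.1) → c e ≠ c f) →
      (∀ e ∈ G.edgeSet,
          ∃ c : (G.deleteEdges {e}).edgeSet → Fin G.maxDegree,
            ∀ a b : (G.deleteEdges {e}).edgeSet, a ≠ b →
              (∃ v, v ∈ a.1 ∧ v ∈ b.1) → c a ≠ c b) →
      ∃ M : G.Subgraph, M.IsPerfectMatching) := by
  intro h
  have key := h 110 Pool.Agent.H166R2.CritPM.G Pool.Agent.H166R2.CritPM.connected (by decide)
  have h1 : ¬ ∃ c : Pool.Agent.H166R2.CritPM.G.edgeSet →
      Fin Pool.Agent.H166R2.CritPM.G.maxDegree,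
      ∀ e f : Pool.Agent.H166R2.CritPM.G.edgeSet, e ≠ f → (∃ v, v ∈ e.1 ∧ v ∈ f.1) →
        c e ≠ c f := by
    rintro ⟨c, hc⟩
    refine Pool.Agent.H166R2.CritPM.not_colorable
      (fun e => Fin.cast Pool.Agent.H166R2.CritPM.maxDegree_eq (c e)) ?_
    intro e f hef hv he
    exact hc e f hef hv (Fin.cast_injective _ he)
  have h2 : ∀ e ∈ Pool.Agent.H166R2.CritPM.G.edgeSet,
      ∃ c : (Pool.Agent.H166R2.CritPM.G.deleteEdges {e}).edgeSet →
        Fin Pool.Agent.H166R2.CritPM.G.maxDegree,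
        ∀ a b : (Pool.Agent.H166R2.CritPM.G.deleteEdges {e}).edgeSet, a ≠ b →
          (∃ v, v ∈ a.1 ∧ v ∈ b.1) → c a ≠ c b := by
    intro e he
    obtain ⟨c, hc⟩ := Pool.Agent.H166R2.CritPM.critical e he
    refine ⟨fun f => Fin.cast Pool.Agent.H166R2.CritPM.maxDegree_eq.symm (c f), ?_⟩
    intro a b hab hv he
    exact hc a b hab hv (Fin.cast_injective _ he)
  obtain ⟨M, hM⟩ := key h1 h2
  exact Pool.Agent.H166R2.CritPM.no_pm M hM

end Pool.Agent.S08002
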