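import Pool.Statements.S08004
import Pool.Agent.H958R2.GK.Main

set_option autoImplicit false
open Pool Pool.MP_d802e4_co

namespace Pool.Agent.S08004

/-- The negation of the preceding statement: For every natural number g there is a finite simple graph in which every vertex has exactly 4 neighbours, whose chromatic number is exactly 4, and whose girth is at least g. -/
theorem result :
    ¬ (∀ g : ℕ, ∃ (n : ℕ) (G : SimpleGraph (Fin n)),
      (∀ v : Fin n, (G.neighborSet v).ncard = 4) ∧
      G.chromaticNumber = 4 ∧
      (g : ℕ∞) ≤ G.egirth) := by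
  intro h
  obtain ⟨g, hg⟩ := Pool.Agent.H958R2.GK.main
  obtain ⟨n, G, h4, hchi, hgirth⟩ := h g
  have hcol : G.Colorable 3 := hg (Fin n) G h4 hgirth
  have hle : G.chromaticNumber ≤ 3 := hcol.chromaticNumber_le
  rw [hchi] at hle
  have : ¬ ((4 : ℕ∞) ≤ 3) := by decide
  exact this hle

end Pool.Agent.S08004
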