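import Pool.Statements.S08023
import Pool.Agent.H232R2.Lower

set_option autoImplicit false
open Matrix
open Pool Pool.MP_d93cb3_co

namespace Pool.Agent.S08023

/-- the numerical identity between the recursion value and the conjectured formula -/
lemma LB_formula (r k n : ℕ) (hk : k ≤ r + 1) (hn : r + 2 ≤ n) :
    ((Pool.Agent.H232R2.LB (r + 2) n (r + 1 - k) : ℕ) : ℚ) / 2 =
      (2 : ℚ) ^ ((k : ℤ) - 1) * (2 * ((r + 1).choose k : ℚ) - (if k = 0 then (0 : ℚ) else ((r + 1 - 1).choose (k - 1) : ℚ))) * (n : ℚ)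
          - (2 : ℚ) ^ ((k : ℤ) - 1) * (((r + 1 : ℕ) : ℚ) + 1) * (2 * (k : ℚ) / ((k : ℚ) + 1) * ((r + 1).choose k : ℚ) - (if k = 0 then (0 : ℚ) else ((r + 1 - 1).choose (k - 1) : ℚ))) := by
  obtain ⟨s, rfl⟩ : ∃ s, n = r + 2 + s := ⟨n - (r + 2), by omega⟩
  unfold Pool.Agent.H232R2.LB
  rcases k with _ | j
  · have e1 : r + 2 - (r + 1 - 0) = 1 := by omega
    have e2 : r + 2 - 2 = r := by omega
    have e3 : r + 1 - 0 - 1 = r := by omega
    have e4 : r + 2 + s - (r + 2) = s := by omega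
    rw [e1, e2, e3, e4]
    have c1 : (r + 2).choose (r + 1 - 0) = r + 2 := by
      simp
    have c2 : r.choose (r + 1 - 0) = 0 := Nat.choose_eq_zero_of_lt (by omega)
    rw [c1, c2]
    have hz : ((2 : ℚ) ^ (((0 : ℕ) : ℤ) - 1)) = 1 / 2 := by norm_num
    rw [hz]
    simp
    ring
  · have e1 : r + 2 - (r + 1 - (j + 1)) = j + 2 := by omega
    have e2 : r + 2 - 2 = r := by omega
    have e4 : r + 2 + s - (r + 2) = s := by omega
    have e5 : r + 1 - (j + 1) = r - j := by omega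
    have e6 : r + 1 - 1 = r := by omega
    have e7 : j + 1 - 1 = j := by omega
    have e8 : r - (r - j) = j := by omega
    rw [e1, e2, e4, e5, e6, e7, e8]
    have hj : j ≤ r := by omega
    have c1 : (r + 2).choose (r - j) = (r + 2).choose (j + 2) := by
      rw [← Nat.choose_symm (show r - j ≤ r + 2 by omega)]
      congr 1
      omega
    have c2 : r.choose (r - j) = r.choose j := Nat.choose_symm hj
    have c3 : (if r - j = 0 then 0 else 2 * (r.choose (r - j - 1) * 2 ^ (r - (r - j - 1)))) =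
        2 * (r.choose (j + 1) * 2 ^ (j + 1)) := by
      split_ifs with h
      · have : j = r := by omega
        rw [this]
        simp
      · have h1 : r - (r - j - 1) = j + 1 := by omega
        have h2 : r.choose (r - j - 1) = r.choose (j + 1) := by
          rw [← Nat.choose_symm (show j + 1 ≤ r by omega)]
          congr 1
        rw [h1, h2]
    rw [c1, c2, c3]
    have hz : ((2 : ℚ) ^ (((j + 1 : ℕ) : ℤ) - 1)) = 2 ^ j := by
      push_cast
      rw [add_sub_cancel_right, zpow_natCast]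
    rw [hz, if_neg (Nat.succ_ne_zero j)]
    have p1 : ((r + 1).choose (j + 1) : ℚ) = (r.choose j : ℚ) + (r.choose (j + 1) : ℚ) := by
      exact_mod_cast Nat.choose_succ_succ r j
    have p2 : ((r : ℚ) + 2) * ((r + 1).choose (j + 1) : ℚ) = ((r + 2).choose (j + 2) : ℚ) * ((j : ℚ) + 2) := by
      have := Nat.add_one_mul_choose_eq (r + 1) (j + 1)
      have h2 : ((((r + 1 + 1) * (r + 1).choose (j + 1) : ℕ)) : ℚ) =
        ((((r + 1 + 1).choose (j + 1 + 1) * (j + 1 + 1) : ℕ)) : ℚ) := by exact_mod_cast this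
      push_cast at h2
      have e9 : r + 1 + 1 = r + 2 := rfl
      have e10 : j + 1 + 1 = j + 2 := rfl
      rw [e9, e10] at h2
      linarith
    have hj2 : ((j : ℚ) + 2) ≠ 0 := by positivity
    have p3 : ((r + 2).choose (j + 2) : ℚ) = ((r : ℚ) + 2) * ((r + 1).choose (j + 1) : ℚ) / ((j : ℚ) + 2) := by
      rw [eq_div_iff hj2, p2]
    push_cast
    rw [p3, p1]
    have hj3 : ((j : ℚ) + 1 + 1) ≠ 0 := by positivity
    field_simp
    ring


/-- For d≥1, 0≤k≤d, n≥d+1: among arrangements of n distinct hyperplanes in real projective d-space with empty common intersection, the least number of k-faces is exactly 2^(k-1)(2C(d,k)-C(d-1,k-1))n - 2^(k-1)(d+1)(2k/(k+1)C(d,k)-C(d-1,k-1)). -/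
theorem result :
    ∀ d k n : ℕ, 1 ≤ d → k ≤ d → d + 1 ≤ n →
      (∃ a : Fin n → Fin (d + 1) → ℝ,
        (∀ i, a i ≠ 0) ∧
        (∀ i j, i ≠ j → ∀ c : ℝ, a i ≠ c • a j) ∧
        (∀ x : Fin (d + 1) → ℝ, (∀ i, dotProduct (a i) x = 0) → x = 0) ∧
        ((Set.ncard {σ : Fin n → SignType |
            (∃ x : Fin (d + 1) → ℝ, ∀ i, SignType.sign (dotProduct (a i) x) = σ i) ∧
            Module.finrank ℝ (Submodule.span ℝ (a '' {i | σ i = 0})) = d - k} : ℚ) / 2 =
          (2 : ℚ) ^ ((k : ℤ) - 1) * (2 * (d.choose k : ℚ) - (if k = 0 then (0 : ℚ) else ((d - 1).choose (k - 1) : ℚ))) * (n : ℚ)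
          - (2 : ℚ) ^ ((k : ℤ) - 1) * ((d : ℚ) + 1) * (2 * (k : ℚ) / ((k : ℚ) + 1) * (d.choose k : ℚ) - (if k = 0 then (0 : ℚ) else ((d - 1).choose (k - 1) : ℚ))))) ∧
      (∀ a : Fin n → Fin (d + 1) → ℝ,
        (∀ i, a i ≠ 0) →
        (∀ i j, i ≠ j → ∀ c : ℝ, a i ≠ c • a j) →
        (∀ x : Fin (d + 1) → ℝ, (∀ i, dotProduct (a i) x = 0) → x = 0) →
        (2 : ℚ) ^ ((k : ℤ) - 1) * (2 * (d.choose k : ℚ) - (if k = 0 then (0 : ℚ) else ((d - 1).choose (k - 1) : ℚ))) * (n : ℚ)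
          - (2 : ℚ) ^ ((k : ℤ) - 1) * ((d : ℚ) + 1) * (2 * (k : ℚ) / ((k : ℚ) + 1) * (d.choose k : ℚ) - (if k = 0 then (0 : ℚ) else ((d - 1).choose (k - 1) : ℚ)))
          ≤ (Set.ncard {σ : Fin n → SignType |
              (∃ x : Fin (d + 1) → ℝ, ∀ i, SignType.sign (dotProduct (a i) x) = σ i) ∧
              Module.finrank ℝ (Submodule.span ℝ (a '' {i | σ i = 0})) = d - k} : ℚ) / 2) := by
  intro d k n hd hk hn
  obtain ⟨r, rfl⟩ : ∃ r, d = r + 1 := ⟨d - 1, by omega⟩
  have hlow : ∀ a : Fin n → Fin (r + 1 + 1) → ℝ,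
        (∀ i, a i ≠ 0) →
        (∀ i j, i ≠ j → ∀ c : ℝ, a i ≠ c • a j) →
        (∀ x : Fin (r + 1 + 1) → ℝ, (∀ i, dotProduct (a i) x = 0) → x = 0) →
        (Pool.Agent.H232R2.LB (r + 2) n (r + 1 - k)) ≤
          Set.ncard {σ : Fin n → SignType |
            (∃ x : Fin (r + 1 + 1) → ℝ, ∀ i, SignType.sign (dotProduct (a i) x) = σ i) ∧
            Module.finrank ℝ (Submodule.span ℝ (a '' {i | σ i = 0})) = r + 1 - k} := by
    intro a h0 hpar hker
    exact Pool.Agent.H232R2.lower_bound (r + 2) n hn a h0 hpar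
      (Pool.Agent.H232R2.span_of_ker a hker) (r + 1 - k)
  constructor
  · refine ⟨fun i => Pool.Agent.H232R2.np r i, fun i => Pool.Agent.H232R2.np_ne_zero r i,
      fun i j hij c => Pool.Agent.H232R2.np_par r i j (fun h => hij (Fin.ext h)) c,
      Pool.Agent.H232R2.np_ker r n hn, ?_⟩
    have h1 := hlow (fun i => Pool.Agent.H232R2.np r i)
      (fun i => Pool.Agent.H232R2.np_ne_zero r i)
      (fun i j hij c => Pool.Agent.H232R2.np_par r i j (fun h => hij (Fin.ext h)) c)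
      (Pool.Agent.H232R2.np_ker r n hn)
    have h2 : Set.ncard {σ : Fin n → SignType |
            (∃ x : Fin (r + 1 + 1) → ℝ, ∀ i : Fin n,
              SignType.sign (dotProduct (Pool.Agent.H232R2.np r i) x) = σ i) ∧
            Module.finrank ℝ (Submodule.span ℝ ((fun i : Fin n => Pool.Agent.H232R2.np r i) '' {i | σ i = 0})) = r + 1 - k}
        ≤ Pool.Agent.H232R2.LB (r + 2) n (r + 1 - k) :=
      Pool.Agent.H232R2.upper_np r n hn (r + 1 - k)
    rw [le_antisymm h2 h1]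
    exact LB_formula r k n hk hn
  · intro a h0 hpar hker
    have h1 := hlow a h0 hpar hker
    rw [← LB_formula r k n hk hn]
    have h2 : ((Pool.Agent.H232R2.LB (r + 2) n (r + 1 - k) : ℕ) : ℚ) ≤ ((Set.ncard {σ : Fin n → SignType |
            (∃ x : Fin (r + 1 + 1) → ℝ, ∀ i, SignType.sign (dotProduct (a i) x) = σ i) ∧
            Module.finrank ℝ (Submodule.span ℝ (a '' {i | σ i = 0})) = r + 1 - k} : ℕ) : ℚ) := by
      exact_mod_cast h1
    linarith

end Pool.Agent.S08023
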