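import Pool.Statements.S08054

set_option autoImplicit false
open Pool Pool.MP_daf6f7_co

namespace Pool.Agent.S08054

/-- The dual hypergraph of the odd wheel `W_5`: six edges (hub, then the five rim vertices),
each one being the set of wheel edges at that vertex. -/
def wheel : Fin 6 → Finset (Fin 10) :=
  ![{0, 1, 2, 3, 4}, {0, 5, 9}, {1, 6, 5}, {2, 7, 6}, {3, 8, 7}, {4, 9, 8}]

lemma wheel_nonempty : ∀ i, (wheel i).Nonempty := by
  decide

lemma wheel_match : ∀ S : Finset (Fin 6), ∃ M ∈ S.powerset,
        (∀ i ∈ M, ∀ j ∈ M, i ≠ j → Disjoint (wheel i) (wheel j)) ∧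
        S.card ≤ M.card *
          (Finset.univ.sup (fun v : Fin 10 => (S.filter (fun i => v ∈ wheel i)).card) + 1) := by
  decide +kernel

lemma wheel_sup : (Finset.univ.sup
        (fun v : Fin 10 => (Finset.univ.filter (fun i : Fin 6 => v ∈ wheel i)).card) + 1) = 3 := by
  decide +kernel

lemma wheel_col : ∀ c : Fin 6 → Fin 3, ∃ i j : Fin 6, i ≠ j ∧ c i = c j ∧
    ¬ Disjoint (wheel i) (wheel j) := by
  decide +kernel

/-- The negation of the preceding statement: For any finite hypergraph (edges may repeat) in which every subfamily of edges has a matching of size at least its edge count divided by its max degree plus one, the edges can be colored with max degree plus one colors so same-colored edges are disjoint. -/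
theorem result :
    ¬ (∀ (V : Type) [Fintype V] [DecidableEq V] (m : ℕ) (e : Fin m → Finset V),
    (∀ i, (e i).Nonempty) →
    (∀ S : Finset (Fin m), ∃ M ⊆ S,
        (∀ i ∈ M, ∀ j ∈ M, i ≠ j → Disjoint (e i) (e j)) ∧
        S.card ≤ M.card *
          (Finset.univ.sup (fun v : V => (S.filter (fun i => v ∈ e i)).card) + 1)) →
    ∃ c : Fin m → Fin (Finset.univ.sup
        (fun v : V => (Finset.univ.filter (fun i : Fin m => v ∈ e i)).card) + 1),
      ∀ i j, i ≠ j → c i = c j → Disjoint (e i) (e j)) := by
  intro h
  obtain ⟨c, hc⟩ := h (Fin 10) 6 wheel wheel_nonempty (by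
    intro S
    obtain ⟨M, hM, h1, h2⟩ := wheel_match S
    exact ⟨M, Finset.mem_powerset.mp hM, h1, h2⟩)
  obtain ⟨i, j, hij, hcij, hd⟩ := wheel_col (fun i => Fin.cast wheel_sup (c i))
  apply hd
  apply hc i j hij
  have := congrArg Fin.val hcij
  simp only [Fin.val_cast] at this
  exact Fin.ext this

end Pool.Agent.S08054
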