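import Pool.Statements.S08118
-- import your own Pool.Agent.* helpers here

set_option autoImplicit false
open Pool Pool.MP_de7a81_co

namespace Pool.Agent.S08118

/-- Adjacency: the square `4 5 7 6` (in this cyclic order), the vertices `3, 1, 0, 2` each joined to
both ends of one side of the square (`3` to `4, 5`; `1` to `5, 7`; `0` to `7, 6`; `2` to `6, 4`), and the
vertex `8` joined to `0, 1, 2, 3`. -/
def A (u v : Fin 9) : Bool :=
  ((![448, 416, 336, 304, 108, 154, 149, 99, 15] : Fin 9 → ℕ) u).testBit v.val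

/-- the counterexample -/
def H : SimpleGraph (Fin 9) where
  Adj u v := A u v = true
  symm := ⟨by decide +kernel⟩
  loopless := ⟨by decide +kernel⟩

instance : DecidableRel H.Adj := fun u v => inferInstanceAs (Decidable (A u v = true))

lemma no_k23 : ∀ a b : Fin 9, a ≠ b → ∀ x, A a x = true → A b x = true →
    ∀ y, x ≠ y → A a y = true → A b y = true →
    ∀ z, x ≠ z → y ≠ z → A a z = true → A b z = true → False := by decide +kernel

lemma deg_le : ∀ v : Fin 9, H.degree v ≤ 4 := by decide +kernel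

lemma deg_eq : ∀ v : Fin 9, 4 ≤ H.degree v → v = 4 ∨ v = 5 ∨ v = 6 ∨ v = 7 ∨ v = 8 := by
  decide +kernel

lemma deg_zero : H.degree 0 = 3 := by decide +kernel

lemma deg_three : ∀ v : Fin 9, 3 ≤ H.degree v := by decide +kernel

lemma card_five : (Finset.univ.filter (fun v : Fin 9 => 5 - 1 ≤ H.degree v)).card = 5 := by
  decide +kernel

set_option synthInstance.maxSize 4096 in
/-- no b-colouring with four colours, written out -/
lemma no_four : ∀ x8 x0 : Fin 4, x0 ≠ x8 → ∀ x1, x1 ≠ x8 → ∀ x2, x2 ≠ x8 → ∀ x3, x3 ≠ x8 →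
    ∀ x4, x4 ≠ x2 → x4 ≠ x3 → ∀ x5, x5 ≠ x1 → x5 ≠ x3 → x5 ≠ x4 →
    ∀ x6, x6 ≠ x0 → x6 ≠ x2 → x6 ≠ x4 → ∀ x7, x7 ≠ x0 → x7 ≠ x1 → x7 ≠ x5 → x7 ≠ x6 →
    ¬ (∀ i : Fin 4, ∃ v : Fin 9, ![x0, x1, x2, x3, x4, x5, x6, x7, x8] v = i ∧
      ∀ j : Fin 4, j ≠ i → ∃ w : Fin 9, A v w = true ∧
        ![x0, x1, x2, x3, x4, x5, x6, x7, x8] w = j) := by
  decide +kernel

lemma four (c : Fin 9 → Fin 4) (hp : ∀ u v, H.Adj u v → c u ≠ c v)
    (hb : ∀ i : Fin 4, ∃ v : Fin 9, c v = i ∧ ∀ j : Fin 4, j ≠ i → ∃ w : Fin 9, H.Adj v w ∧ c w = j) :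
    False := by
  have hc : ![c 0, c 1, c 2, c 3, c 4, c 5, c 6, c 7, c 8] = c := by
    funext v
    fin_cases v <;> rfl
  have e : ∀ u v : Fin 9, A u v = true → c u ≠ c v := fun u v h => hp u v h
  refine no_four (c 8) (c 0) (e _ _ (by decide)) (c 1) (e _ _ (by decide)) (c 2) (e _ _ (by decide))
    (c 3) (e _ _ (by decide)) (c 4) (e _ _ (by decide)) (e _ _ (by decide))
    (c 5) (e _ _ (by decide)) (e _ _ (by decide)) (e _ _ (by decide))
    (c 6) (e _ _ (by decide)) (e _ _ (by decide)) (e _ _ (by decide))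
    (c 7) (e _ _ (by decide)) (e _ _ (by decide)) (e _ _ (by decide)) (e _ _ (by decide)) ?_
  rw [hc]
  exact hb

/-- no b-colouring with five or more colours -/
lemma five {k : ℕ} (hk : 5 ≤ k) (c : Fin 9 → Fin k) (hp : ∀ u v, H.Adj u v → c u ≠ c v)
    (hb : ∀ i : Fin k, ∃ v : Fin 9, c v = i ∧ ∀ j : Fin k, j ≠ i → ∃ w : Fin 9, H.Adj v w ∧ c w = j) :
    False := by
  choose v hv1 hv2 using hb
  have hdeg : ∀ i, k - 1 ≤ H.degree (v i) := by
    intro i
    have h1 : (Finset.univ.erase i).card ≤ ((H.neighborFinset (v i)).image c).card := by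
      apply Finset.card_le_card
      intro j hj
      obtain ⟨w, hw1, hw2⟩ := hv2 i j (Finset.ne_of_mem_erase hj)
      exact Finset.mem_image.mpr ⟨w, (H.mem_neighborFinset _ _).mpr hw1, hw2⟩
    have h2 := h1.trans Finset.card_image_le
    rw [Finset.card_erase_of_mem (Finset.mem_univ _), Finset.card_univ, Fintype.card_fin] at h2
    exact h2
  have hinj : Function.Injective v := by
    intro i j hij
    rw [← hv1 i, ← hv1 j, hij]
  have hmem : ∀ i, v i ∈ ({4, 5, 6, 7, 8} : Finset (Fin 9)) := by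
    intro i
    have := deg_eq (v i) (by have := hdeg i; omega)
    simpa using this
  -- the image is everything
  have himg : Finset.univ.image v = ({4, 5, 6, 7, 8} : Finset (Fin 9)) := by
    apply Finset.eq_of_subset_of_card_le
    · intro x hx
      obtain ⟨i, -, rfl⟩ := Finset.mem_image.mp hx
      exact hmem i
    · rw [Finset.card_image_of_injective _ hinj, Finset.card_univ, Fintype.card_fin]
      exact le_trans (by decide) hk
  have hsurj : ∀ x ∈ ({4, 5, 6, 7, 8} : Finset (Fin 9)), ∃ i, v i = x := by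
    intro x hx
    rw [← himg] at hx
    obtain ⟨i, -, hi⟩ := Finset.mem_image.mp hx
    exact ⟨i, hi⟩
  have hdist : ∀ x ∈ ({4, 5, 6, 7, 8} : Finset (Fin 9)), ∀ y ∈ ({4, 5, 6, 7, 8} : Finset (Fin 9)),
      x ≠ y → c x ≠ c y := by
    intro x hx y hy hxy heq
    obtain ⟨i, rfl⟩ := hsurj x hx
    obtain ⟨j, rfl⟩ := hsurj y hy
    rw [hv1, hv1] at heq
    exact hxy (congrArg v heq)
  obtain ⟨i, hi⟩ := hsurj 6 (by decide)
  have hc6 : c 6 = i := by rw [← hi, hv1]
  obtain ⟨w, hw1, hw2⟩ := hv2 i (c 8) (by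
    rw [← hc6]
    exact hdist 8 (by decide) 6 (by decide) (by decide))
  rw [hi] at hw1
  have hw : ∀ w : Fin 9, A 6 w = true → w = 0 ∨ w = 2 ∨ w = 4 ∨ w = 7 := by decide +kernel
  rcases hw w hw1 with rfl | rfl | rfl | rfl
  · exact hp 0 8 (show A 0 8 = true by decide) hw2
  · exact hp 2 8 (show A 2 8 = true by decide) hw2
  · exact hdist 4 (by decide) 8 (by decide) (by decide) hw2
  · exact hdist 7 (by decide) 8 (by decide) (by decide) hw2

lemma box_degree : ∀ p : Fin 3 × Fin 3,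
    Fintype.card ((SimpleGraph.boxProd (SimpleGraph.cycleGraph 3) (SimpleGraph.cycleGraph 3)).neighborSet p)
      = 4 := by
  decide +kernel

/-- The negation of the preceding statement: Every finite K_{2,3}-free graph has a b-colouring with at least m(G)−1 colours, unless it has a component isomorphic to C3□C3 and all other components have maximum degree at most 2. -/
theorem result :
    ¬ (∀ (V : Type) [Fintype V] [DecidableEq V] (G : SimpleGraph V) [DecidableRel G.Adj],
      (¬ ∃ f : (Fin 2 ⊕ Fin 3) → V, Function.Injective f ∧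
          ∀ i j, G.Adj (f (Sum.inl i)) (f (Sum.inr j))) →
      (¬ ∃ C : G.ConnectedComponent,
          Nonempty (SimpleGraph.Iso (G.induce C.supp)
            (SimpleGraph.boxProd (SimpleGraph.cycleGraph 3) (SimpleGraph.cycleGraph 3))) ∧
          ∀ v : V, G.connectedComponentMk v ≠ C → G.degree v ≤ 2) →
      ∀ m : ℕ, m ≤ (Finset.univ.filter (fun v : V => m - 1 ≤ G.degree v)).card →
        ∃ k : ℕ, m - 1 ≤ k ∧ ∃ c : V → Fin k,
          (∀ u v : V, G.Adj u v → c u ≠ c v) ∧
          ∀ i : Fin k, ∃ v : V, c v = i ∧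
            ∀ j : Fin k, j ≠ i → ∃ w : V, G.Adj v w ∧ c w = j) := by
  intro hmain
  have hK : ¬ ∃ f : (Fin 2 ⊕ Fin 3) → Fin 9, Function.Injective f ∧
      ∀ i j, H.Adj (f (Sum.inl i)) (f (Sum.inr j)) := by
    rintro ⟨f, hf, hadj⟩
    exact no_k23 (f (Sum.inl 0)) (f (Sum.inl 1)) (hf.ne (by decide))
      (f (Sum.inr 0)) (hadj 0 0) (hadj 1 0)
      (f (Sum.inr 1)) (hf.ne (by decide)) (hadj 0 1) (hadj 1 1)
      (f (Sum.inr 2)) (hf.ne (by decide)) (hf.ne (by decide)) (hadj 0 2) (hadj 1 2)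
  have hE : ¬ ∃ C : H.ConnectedComponent,
      Nonempty (SimpleGraph.Iso (H.induce C.supp)
        (SimpleGraph.boxProd (SimpleGraph.cycleGraph 3) (SimpleGraph.cycleGraph 3))) ∧
      ∀ v : Fin 9, H.connectedComponentMk v ≠ C → H.degree v ≤ 2 := by
    rintro ⟨C, ⟨φ⟩, hC⟩
    have h0 : (0 : Fin 9) ∈ C.supp := by
      by_contra h
      have h1 := hC 0 (fun h2 => h ((SimpleGraph.ConnectedComponent.mem_supp_iff C 0).mpr h2))
      rw [deg_zero] at h1
      omega
    have e1 := Nat.card_congr (φ.mapNeighborSet ⟨0, h0⟩)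
    have e2 := box_degree (φ ⟨0, h0⟩)
    rw [← Nat.card_eq_fintype_card] at e2
    rw [e2] at e1
    have h3 : Nat.card ((H.induce C.supp).neighborSet ⟨0, h0⟩) ≤ Nat.card (H.neighborSet 0) := by
      refine Nat.card_le_card_of_injective
        (fun x => (⟨x.1.1, x.2⟩ : H.neighborSet 0)) ?_
      intro x y hxy
      apply Subtype.ext
      apply Subtype.ext
      have h5 := Subtype.mk.inj hxy
      exact h5
    have h4 : Nat.card (H.neighborSet 0) = 3 := by
      rw [Nat.card_eq_fintype_card, SimpleGraph.card_neighborSet_eq_degree, deg_zero]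
    omega
  obtain ⟨k, hk, c, hp, hb⟩ := hmain (Fin 9) H hK hE 5 (le_of_eq card_five.symm)
  rcases Nat.lt_or_ge k 5 with h | h
  · obtain rfl : k = 4 := by omega
    exact four c hp hb
  · exact five h c hp hb

end Pool.Agent.S08118
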