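import Pool.Statements.S08128
import Mathlib

set_option autoImplicit false
open Pool Pool.MP_df0568_co

namespace Pool.Agent.S08128

/-- Euclidean three-space -/
abbrev E3 : Type := EuclideanSpace ℝ (Fin 3)

/-- `F` is the vertex set of a facet of the polytope with vertex set `V`. -/
def IsFacet (V F : Finset E3) : Prop :=
  F ⊆ V ∧
  (∃ l : E3 →ₗ[ℝ] ℝ, ∃ c : ℝ, ∀ w ∈ V, l w ≤ c ∧ (l w = c ↔ w ∈ F)) ∧
  Module.finrank ℝ (vectorSpan ℝ (F : Set E3)) = 2

theorem finrank_two {S : Set E3} {l' : E3 →ₗ[ℝ] ℝ} {c' : ℝ} (h : ∀ w ∈ S, l' w = c')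
    (hne : l' ≠ 0) {p q r : E3} (hp : p ∈ S) (hq : q ∈ S) (hr : r ∈ S) (k : E3 →ₗ[ℝ] ℝ)
    (hk : k q = k p) (hpq : q ≠ p) (hk' : k r ≠ k p) :
    Module.finrank ℝ (vectorSpan ℝ S) = 2 := by
  apply le_antisymm
  · have h1 : vectorSpan ℝ S ≤ LinearMap.ker l' := by
      rw [vectorSpan_def, Submodule.span_le]
      rintro _ ⟨x, hx, y, hy, rfl⟩
      simp [h x hx, h y hy]
    have h2 := LinearMap.finrank_range_add_finrank_ker l'
    rw [LinearMap.range_eq_top.2 (LinearMap.surjective_of_ne_zero hne), finrank_top,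
      Module.finrank_self, finrank_euclideanSpace_fin] at h2
    have h3 := Submodule.finrank_mono h1
    omega
  · have hli : LinearIndependent ℝ ![q - p, r - p] := by
      rw [LinearIndependent.pair_iff]
      intro s t hst
      have e := congrArg k hst
      simp only [map_add, map_smul, map_sub, hk, sub_self, smul_eq_mul, mul_zero, zero_add,
        map_zero, mul_eq_zero] at e
      have ht : t = 0 := by
        rcases e with e | e
        · exact e
        · exact absurd (sub_eq_zero.1 e) hk'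
      subst ht
      rw [zero_smul, add_zero, smul_eq_zero] at hst
      rcases hst with hst | hst
      · exact ⟨hst, rfl⟩
      · exact absurd (sub_eq_zero.1 hst) hpq
    have h1 := finrank_span_eq_card hli
    have h2 : Submodule.span ℝ (Set.range ![q - p, r - p]) ≤ vectorSpan ℝ S := by
      rw [Submodule.span_le]
      rintro _ ⟨i, rfl⟩
      fin_cases i
      · exact vsub_mem_vectorSpan ℝ hq hp
      · exact vsub_mem_vectorSpan ℝ hr hp
    have h3 := Submodule.finrank_mono h2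
    rw [h1] at h3
    simpa using h3

/-- Rotating a facet plane about one of its sides: for a triangular facet `v a b` there is a facet
containing `v` and `a` but not `b`. -/
theorem rotate {V F : Finset E3} (hV : affineSpan ℝ (V : Set E3) = ⊤) (hF : IsFacet V F)
    {v a b : E3} (hFe : ∀ w, w ∈ F ↔ (w = v ∨ w = a ∨ w = b)) (hva : a ≠ v) :
    ∃ G, IsFacet V G ∧ v ∈ G ∧ a ∈ G ∧ b ∉ G := by
  classical
  obtain ⟨hsub, ⟨l, c, hl⟩, hr⟩ := hF
  have hv : v ∈ F := (hFe v).2 (Or.inl rfl)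
  have ha : a ∈ F := (hFe a).2 (Or.inr (Or.inl rfl))
  have hb : b ∈ F := (hFe b).2 (Or.inr (Or.inr rfl))
  have hnot : b - v ∉ Submodule.span ℝ {a - v} := by
    intro hmem
    rw [Submodule.mem_span_singleton] at hmem
    obtain ⟨t, ht⟩ := hmem
    have hcol : Collinear ℝ (F : Set E3) := by
      rw [collinear_iff_of_mem (p₀ := v) hv]
      refine ⟨a - v, ?_⟩
      intro w hw
      rcases (hFe w).1 hw with rfl | rfl | rfl
      · exact ⟨0, by simp⟩
      · exact ⟨1, by simp⟩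
      · exact ⟨t, by rw [ht]; simp⟩
    rw [collinear_iff_finrank_le_one, hr] at hcol
    omega
  obtain ⟨m0, hm0, hm0'⟩ := Submodule.exists_le_ker_of_notMem hnot
  have hm0a : m0 (a - v) = 0 := hm0' (Submodule.mem_span_singleton_self _)
  set m : E3 →ₗ[ℝ] ℝ := (m0 (b - v))⁻¹ • m0 with hm
  have hma : m (a - v) = 0 := by simp [hm, hm0a]
  have hmb : m (b - v) = 1 := by
    simp only [hm, LinearMap.smul_apply, smul_eq_mul]
    exact inv_mul_cancel₀ hm0
  have hmv : m (v - v) = 0 := by simp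
  have hne : (V \ F).Nonempty := by
    rw [Finset.sdiff_nonempty]
    intro hVF
    have hE : V = F := Finset.Subset.antisymm hVF hsub
    have h1 : vectorSpan ℝ (F : Set E3) = ⊤ := by
      rw [← direction_affineSpan, ← hE, hV, AffineSubspace.direction_top]
    rw [h1, finrank_top, finrank_euclideanSpace_fin] at hr
    omega
  have hpos : ∀ w ∈ V, w ∉ F → 0 < c - l w := by
    intro w hw hwF
    have h1 := hl w hw
    have h2 : l w ≠ c := fun h => hwF (h1.2.1 h)
    have h3 := lt_of_le_of_ne h1.1 h2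
    linarith
  have hzero : ∀ w ∈ F, c - l w = 0 := by
    intro w hw
    rw [(hl w (hsub hw)).2.2 hw, sub_self]
  set g : E3 → ℝ := fun w => -(m (w - v)) / (c - l w) with hg
  obtain ⟨x, hx, hxt⟩ := Finset.exists_mem_eq_sup' hne g
  set t : ℝ := (V \ F).sup' hne g with ht
  rw [Finset.mem_sdiff] at hx
  have hxa : m (x - v) + t * (c - l x) = 0 := by
    rw [hxt, hg]
    have := (hpos x hx.1 hx.2).ne'
    field_simp
    ring
  have hnn : ∀ w ∈ V, 0 ≤ m (w - v) + t * (c - l w) := by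
    intro w hw
    by_cases hwF : w ∈ F
    · rw [hzero w hwF, mul_zero, add_zero]
      rcases (hFe w).1 hwF with rfl | rfl | rfl
      · rw [hmv]
      · rw [hma]
      · rw [hmb]; norm_num
    · have h1 : g w ≤ t := Finset.le_sup' g (Finset.mem_sdiff.2 ⟨hw, hwF⟩)
      have h2 := hpos w hw hwF
      rw [hg] at h1
      simp only at h1
      rw [div_le_iff₀ h2] at h1
      linarith
  refine ⟨V.filter (fun w => m (w - v) + t * (c - l w) = 0), ⟨Finset.filter_subset _ _, ?_, ?_⟩,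
    ?_, ?_, ?_⟩
  · refine ⟨t • l - m, t * c - m v, ?_⟩
    intro w hw
    have h1 := hnn w hw
    rw [Finset.mem_filter]
    simp only [LinearMap.sub_apply, LinearMap.smul_apply, smul_eq_mul, map_sub] at h1 ⊢
    refine ⟨by linarith, ⟨fun h => ⟨hw, by linarith⟩, fun h => by linarith [h.2]⟩⟩
  · refine finrank_two (l' := t • l - m) (c' := t * c - m v) (p := v) (q := a) (r := x) ?_ ?_
      ?_ ?_ ?_ l ?_ hva ?_
    · intro w hw
      have h1 := (Finset.mem_filter.1 hw).2
      simp only [LinearMap.sub_apply, LinearMap.smul_apply, smul_eq_mul, map_sub] at h1 ⊢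
      linarith
    · intro h0
      have h1 : (t • l - m) (b - v) = 0 := by rw [h0]; rfl
      have h2 := hzero b hb
      have h3 := hzero v hv
      have h4 : l (b - v) = 0 := by rw [map_sub]; linarith
      simp only [LinearMap.sub_apply, LinearMap.smul_apply, smul_eq_mul, h4, hmb] at h1
      norm_num at h1
    · exact Finset.mem_filter.2 ⟨hsub hv, by rw [hmv, hzero v hv]; ring⟩
    · exact Finset.mem_filter.2 ⟨hsub ha, by rw [hma, hzero a ha]; ring⟩
    · exact Finset.mem_filter.2 ⟨hx.1, hxa⟩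
    · have h2 := hzero a ha
      have h3 := hzero v hv
      linarith
    · have h2 := hpos x hx.1 hx.2
      have h3 := hzero v hv
      intro h4
      linarith
  · exact Finset.mem_filter.2 ⟨hsub hv, by rw [hmv, hzero v hv]; ring⟩
  · exact Finset.mem_filter.2 ⟨hsub ha, by rw [hma, hzero a ha]; ring⟩
  · intro h
    have h1 := (Finset.mem_filter.1 h).2
    rw [hmb, hzero b hb] at h1
    norm_num at h1

theorem mem_of_three {α : Type*} {S : Set α} (hS : S.ncard = 3) {A B C D : α} (hA : A ∈ S)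
    (hB : B ∈ S) (hC : C ∈ S) (hD : D ∈ S) (hAB : A ≠ B) (hAC : A ≠ C) (hBC : B ≠ C) :
    D = A ∨ D = B ∨ D = C := by
  have hfin : S.Finite := Set.finite_of_ncard_ne_zero (by rw [hS]; norm_num)
  have h1 : ({A, B, C} : Set α).ncard = 3 := Set.ncard_eq_three.2 ⟨A, B, C, hAB, hAC, hBC, rfl⟩
  have h2 : ({A, B, C} : Set α) = S := by
    apply Set.eq_of_subset_of_ncard_le _ _ hfin
    · rintro x (rfl | rfl | rfl) <;> assumption
    · rw [h1, hS]
  rw [← h2] at hD
  simpa using hD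

/-- the core: configuration around `v`, `a` -/
theorem core {V : Finset E3} (hV : affineSpan ℝ (V : Set E3) = ⊤)
    (hex : ∀ v ∈ V, v ∉ convexHull ℝ ((V : Set E3) \ {v}))
    (h3 : ∀ v ∈ V, {F : Finset E3 | IsFacet V F ∧ v ∈ F}.ncard = 3)
    {F₁ F₂ : Finset E3} (hF₁ : IsFacet V F₁) (hF₂ : IsFacet V F₂) {v a b c : E3}
    (h1 : ∀ w, w ∈ F₁ ↔ (w = v ∨ w = a ∨ w = b)) (h2 : ∀ w, w ∈ F₂ ↔ (w = v ∨ w = a ∨ w = c))
    (hva : v ≠ a) (hvb : v ≠ b) (hab : a ≠ b) (hvc : v ≠ c) (hac : a ≠ c) (hbc : b ≠ c) :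
    V.card ≤ 4 := by
  classical
  have v1 : v ∈ F₁ := (h1 v).2 (Or.inl rfl)
  have a1 : a ∈ F₁ := (h1 a).2 (Or.inr (Or.inl rfl))
  have b1 : b ∈ F₁ := (h1 b).2 (Or.inr (Or.inr rfl))
  have v2 : v ∈ F₂ := (h2 v).2 (Or.inl rfl)
  have a2 : a ∈ F₂ := (h2 a).2 (Or.inr (Or.inl rfl))
  have c2 : c ∈ F₂ := (h2 c).2 (Or.inr (Or.inr rfl))
  have b2 : b ∉ F₂ := by
    intro h
    rcases (h2 b).1 h with h | h | h
    · exact hvb h.symm
    · exact hab h.symm
    · exact hbc h
  have c1 : c ∉ F₁ := by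
    intro h
    rcases (h1 c).1 h with h | h | h
    · exact hvc h.symm
    · exact hac h.symm
    · exact hbc h.symm
  have h12 : F₁ ≠ F₂ := fun h => b2 (h ▸ b1)
  have vV : v ∈ V := hF₁.1 v1
  have aV : a ∈ V := hF₁.1 a1
  have bV : b ∈ V := hF₁.1 b1
  have cV : c ∈ V := hF₂.1 c2
  -- the third facet at v
  obtain ⟨G, hG, vG, bG, aG⟩ := rotate hV hF₁ (v := v) (a := b) (b := a)
    (fun w => by rw [h1]; tauto) hvb.symm
  obtain ⟨G', hG', vG', cG', aG'⟩ := rotate hV hF₂ (v := v) (a := c) (b := a)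
    (fun w => by rw [h2]; tauto) hvc.symm
  have e1 : F₁ ≠ G := fun h => aG (h ▸ a1)
  have e2 : F₂ ≠ G := fun h => aG (h ▸ a2)
  have hGG : G' = G := by
    rcases mem_of_three (h3 v vV) (A := F₁) (B := F₂) (C := G) (D := G') ⟨hF₁, v1⟩ ⟨hF₂, v2⟩
      ⟨hG, vG⟩ ⟨hG', vG'⟩ h12 e1 e2 with h | h | h
    · exact absurd (h ▸ a1) aG'
    · exact absurd (h ▸ a2) aG'
    · exact h
  rw [hGG] at cG'
  -- the third facet at a
  obtain ⟨K, hK, aK, bK, vK⟩ := rotate hV hF₁ (v := a) (a := b) (b := v)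
    (fun w => by rw [h1]; tauto) hab.symm
  obtain ⟨K', hK', aK', cK', vK'⟩ := rotate hV hF₂ (v := a) (a := c) (b := v)
    (fun w => by rw [h2]; tauto) hac.symm
  have e3 : F₁ ≠ K := fun h => vK (h ▸ v1)
  have e4 : F₂ ≠ K := fun h => vK (h ▸ v2)
  have hKK : K' = K := by
    rcases mem_of_three (h3 a aV) (A := F₁) (B := F₂) (C := K) (D := K') ⟨hF₁, a1⟩ ⟨hF₂, a2⟩
      ⟨hK, aK⟩ ⟨hK', aK'⟩ h12 e3 e4 with h | h | h
    · exact absurd (h ▸ v1) vK'
    · exact absurd (h ▸ v2) vK'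
    · exact h
  rw [hKK] at cK'
  -- the four functionals
  obtain ⟨-, ⟨l₁, k₁, hl₁⟩, hr₁⟩ := hF₁
  obtain ⟨-, ⟨l₂, k₂, hl₂⟩, -⟩ := hF₂
  obtain ⟨-, ⟨l₃, k₃, hl₃⟩, -⟩ := hG
  obtain ⟨-, ⟨l₄, k₄, hl₄⟩, -⟩ := hK
  have p1 : 0 < k₁ - l₁ c := by
    have := lt_of_le_of_ne (hl₁ c cV).1 (fun h => c1 ((hl₁ c cV).2.1 h)); linarith
  have p2 : 0 < k₂ - l₂ b := by
    have := lt_of_le_of_ne (hl₂ b bV).1 (fun h => b2 ((hl₂ b bV).2.1 h)); linarith
  have p3 : 0 < k₃ - l₃ a := by
    have := lt_of_le_of_ne (hl₃ a aV).1 (fun h => aG ((hl₃ a aV).2.1 h)); linarith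
  have p4 : 0 < k₄ - l₄ v := by
    have := lt_of_le_of_ne (hl₄ v vV).1 (fun h => vK ((hl₄ v vV).2.1 h)); linarith
  have q1v : l₁ v = k₁ := (hl₁ v vV).2.2 v1
  have q1a : l₁ a = k₁ := (hl₁ a aV).2.2 a1
  have q1b : l₁ b = k₁ := (hl₁ b bV).2.2 b1
  have q2v : l₂ v = k₂ := (hl₂ v vV).2.2 v2
  have q2a : l₂ a = k₂ := (hl₂ a aV).2.2 a2
  have q2c : l₂ c = k₂ := (hl₂ c cV).2.2 c2
  have q3v : l₃ v = k₃ := (hl₃ v vV).2.2 vG
  have q3b : l₃ b = k₃ := (hl₃ b bV).2.2 bG
  have q3c : l₃ c = k₃ := (hl₃ c cV).2.2 cG'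
  have q4a : l₄ a = k₄ := (hl₄ a aV).2.2 aK
  have q4b : l₄ b = k₄ := (hl₄ b bV).2.2 bK
  have q4c : l₄ c = k₄ := (hl₄ c cV).2.2 cK'
  -- affine independence of v, a, b, c
  have hli : LinearIndependent ℝ ![a - v, b - v, c - v] := by
    rw [Fintype.linearIndependent_iff]
    intro g hg
    simp only [Fin.sum_univ_three, Matrix.cons_val_zero, Matrix.cons_val_one,
      Matrix.cons_val_two, Matrix.head_cons, Matrix.tail_cons] at hg
    have f1 := congrArg l₁ hg
    have f2 := congrArg l₂ hg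
    have f3 := congrArg l₃ hg
    simp only [map_add, map_smul, map_sub, smul_eq_mul, map_zero, q1v, q1a, q1b, q2v, q2a, q2c,
      q3v, q3b, q3c, sub_self, mul_zero, add_zero, zero_add] at f1 f2 f3
    have g2 : g 2 = 0 := by
      rcases mul_eq_zero.1 f1 with h | h
      · exact h
      · exact absurd h (by linarith)
    have g1 : g 1 = 0 := by
      rcases mul_eq_zero.1 f2 with h | h
      · exact h
      · exact absurd h (by linarith)
    have g0 : g 0 = 0 := by
      rcases mul_eq_zero.1 f3 with h | h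
      · exact h
      · exact absurd h (by linarith)
    intro i
    fin_cases i
    · exact g0
    · exact g1
    · exact g2
  have hspan : Submodule.span ℝ (Set.range ![a - v, b - v, c - v]) = ⊤ := by
    apply hli.span_eq_top_of_card_eq_finrank
    simp
  -- every vertex is one of the four
  have hall : ∀ w ∈ V, w = v ∨ w = a ∨ w = b ∨ w = c := by
    intro w hw
    by_contra hne
    push Not at hne
    obtain ⟨n1, n2, n3, n4⟩ := hne
    have hmem : w - v ∈ Submodule.span ℝ (Set.range ![a - v, b - v, c - v]) := by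
      rw [hspan]; trivial
    rw [Submodule.mem_span_range_iff_exists_fun] at hmem
    obtain ⟨g, hg⟩ := hmem
    simp only [Fin.sum_univ_three, Matrix.cons_val_zero, Matrix.cons_val_one,
      Matrix.cons_val_two, Matrix.head_cons, Matrix.tail_cons] at hg
    have hw' : w = v + (g 0 • (a - v) + g 1 • (b - v) + g 2 • (c - v)) := by
      rw [hg]; abel
    have f1 := congrArg l₁ hg
    have f2 := congrArg l₂ hg
    have f3 := congrArg l₃ hg
    have f4 := congrArg l₄ hg
    simp only [map_add, map_smul, map_sub, smul_eq_mul, q1v, q1a, q1b, q2v, q2a, q2c,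
      q3v, q3b, q3c, q4a, q4b, q4c, sub_self, mul_zero, add_zero, zero_add] at f1 f2 f3 f4
    have w1 := (hl₁ w hw).1
    have w2 := (hl₂ w hw).1
    have w3 := (hl₃ w hw).1
    have w4 := (hl₄ w hw).1
    have g2 : 0 ≤ g 2 := by
      by_contra h
      push Not at h
      nlinarith
    have g1 : 0 ≤ g 1 := by
      by_contra h
      push Not at h
      nlinarith
    have g0 : 0 ≤ g 0 := by
      by_contra h
      push Not at h
      nlinarith
    have g3 : 0 ≤ 1 - g 0 - g 1 - g 2 := by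
      by_contra h
      push Not at h
      nlinarith
    apply hex w hw
    have hcv := convex_convexHull ℝ ((V : Set E3) \ {w})
    have mv : v ∈ convexHull ℝ ((V : Set E3) \ {w}) :=
      subset_convexHull ℝ _ ⟨vV, fun h => n1 h.symm⟩
    have ma : a ∈ convexHull ℝ ((V : Set E3) \ {w}) :=
      subset_convexHull ℝ _ ⟨aV, fun h => n2 h.symm⟩
    have mb : b ∈ convexHull ℝ ((V : Set E3) \ {w}) :=
      subset_convexHull ℝ _ ⟨bV, fun h => n3 h.symm⟩
    have mc : c ∈ convexHull ℝ ((V : Set E3) \ {w}) :=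
      subset_convexHull ℝ _ ⟨cV, fun h => n4 h.symm⟩
    have hsum := hcv.sum_mem (t := (Finset.univ : Finset (Fin 4)))
      (w := ![1 - g 0 - g 1 - g 2, g 0, g 1, g 2]) (z := ![v, a, b, c])
      (by intro i _; fin_cases i <;> simp <;> linarith)
      (by simp [Fin.sum_univ_four]; ring)
      (by intro i _; fin_cases i <;> simp <;> assumption)
    have : ∑ i : Fin 4, (![1 - g 0 - g 1 - g 2, g 0, g 1, g 2] i) • (![v, a, b, c] i) = w := by
      simp only [Fin.sum_univ_four, Matrix.cons_val_zero, Matrix.cons_val_one,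
        Matrix.cons_val_two, Matrix.cons_val_three, Matrix.head_cons, Matrix.tail_cons]
      rw [hw']
      simp only [smul_sub, sub_smul, one_smul]
      abel
    rw [this] at hsum
    exact hsum
  have hsubs : V ⊆ {v, a, b, c} := by
    intro w hw
    simp only [Finset.mem_insert, Finset.mem_singleton]
    exact hall w hw
  exact (Finset.card_le_card hsubs).trans Finset.card_le_four

/-- Two different triangular facets with a common vertex: the polytope is a tetrahedron. -/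
theorem triangles_disjoint {V : Finset E3} (hV : affineSpan ℝ (V : Set E3) = ⊤)
    (hex : ∀ v ∈ V, v ∉ convexHull ℝ ((V : Set E3) \ {v}))
    (h3 : ∀ v ∈ V, {F : Finset E3 | IsFacet V F ∧ v ∈ F}.ncard = 3)
    {F₁ F₂ : Finset E3} (hF₁ : IsFacet V F₁) (hF₂ : IsFacet V F₂) (h12 : F₁ ≠ F₂)
    (k1 : F₁.card = 3) (k2 : F₂.card = 3) {v : E3} (v1 : v ∈ F₁) (v2 : v ∈ F₂) :
    V.card ≤ 4 := by
  classical
  have key : ∀ F : Finset E3, F.card = 3 → v ∈ F → ∃ a b, v ≠ a ∧ v ≠ b ∧ a ≠ b ∧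
      ∀ w, w ∈ F ↔ (w = v ∨ w = a ∨ w = b) := by
    intro F hF hv
    have h1 : (F.erase v).card = 2 := by rw [Finset.card_erase_of_mem hv, hF]
    obtain ⟨a, b, hab, he⟩ := Finset.card_eq_two.1 h1
    have h2 : F = insert v {a, b} := by rw [← he, Finset.insert_erase hv]
    have ha : a ∈ F.erase v := by rw [he]; simp
    have hb : b ∈ F.erase v := by rw [he]; simp
    refine ⟨a, b, (Finset.ne_of_mem_erase ha).symm, (Finset.ne_of_mem_erase hb).symm, hab, ?_⟩
    intro w
    rw [h2]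
    simp
  obtain ⟨a, b, hva, hvb, hab, e1⟩ := key F₁ k1 v1
  obtain ⟨c, d, hvc, hvd, hcd, e2⟩ := key F₂ k2 v2
  have vV : v ∈ V := hF₁.1 v1
  have a1 : a ∈ F₁ := (e1 a).2 (Or.inr (Or.inl rfl))
  have b1 : b ∈ F₁ := (e1 b).2 (Or.inr (Or.inr rfl))
  -- F₂ contains a or b
  have hcom : a ∈ F₂ ∨ b ∈ F₂ := by
    obtain ⟨G, hG, vG, aG, bG⟩ := rotate hV hF₁ (v := v) (a := a) (b := b) e1 hva.symm
    obtain ⟨G', hG', vG', bG', aG'⟩ := rotate hV hF₁ (v := v) (a := b) (b := a)
      (fun w => by rw [e1]; tauto) hvb.symm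
    have n1 : F₁ ≠ G := fun h => bG (h ▸ b1)
    have n2 : F₁ ≠ G' := fun h => aG' (h ▸ a1)
    have n3 : G ≠ G' := fun h => aG' (h ▸ aG)
    rcases mem_of_three (h3 v vV) (A := F₁) (B := G) (C := G') (D := F₂) ⟨hF₁, v1⟩ ⟨hG, vG⟩
      ⟨hG', vG'⟩ ⟨hF₂, v2⟩ n1 n2 n3 with h | h | h
    · exact absurd h.symm h12
    · exact Or.inl (h ▸ aG)
    · exact Or.inr (h ▸ bG')
  -- reduce to the core configuration
  have main : ∀ a b : E3, v ≠ a → v ≠ b → a ≠ b → (∀ w, w ∈ F₁ ↔ (w = v ∨ w = a ∨ w = b)) →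
      a ∈ F₂ → V.card ≤ 4 := by
    intro a b hva hvb hab e1 ha2
    have main2 : ∀ c : E3, v ≠ c → a ≠ c → (∀ w, w ∈ F₂ ↔ (w = v ∨ w = a ∨ w = c)) →
        V.card ≤ 4 := by
      intro c hvc hac e2
      have hbc : b ≠ c := by
        rintro rfl
        apply h12
        ext w
        rw [e1, e2]
      exact core hV hex h3 hF₁ hF₂ e1 e2 hva hvb hab hvc hac hbc
    rcases (e2 a).1 ha2 with h | h | h
    · exact absurd h.symm hva
    · subst h
      exact main2 d hvd hcd e2
    · subst h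
      exact main2 c hvc hcd.symm (fun w => by rw [e2]; tauto)
  rcases hcom with h | h
  · exact main a b hva hvb hab e1 h
  · exact main b a hvb hva hab.symm (fun w => by rw [e1]; tauto) h

/-- The negation of the preceding statement: Any finitely supported p_k (3≤k≠6, k≤N) with sum of (6−k)p_k = 12 is realized as the k-gonal facet counts of some simple convex 3-polytope, with p_6 hexagons where p_6 is less than the largest k having p_k nonzero. -/
theorem result :
    ¬ (∀ (N : ℕ) (p : ℕ → ℕ),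
    (∑ k ∈ (Finset.Icc 3 N).filter (fun k => k ≠ 6), ((6 : ℤ) - (k : ℤ)) * (p k : ℤ)) = 12 →
    ∃ p6 : ℕ, (∃ k : ℕ, 3 ≤ k ∧ k ≤ N ∧ k ≠ 6 ∧ p k ≠ 0 ∧ p6 < k) ∧
      ∃ V : Finset (EuclideanSpace ℝ (Fin 3)),
        affineSpan ℝ (V : Set (EuclideanSpace ℝ (Fin 3))) = ⊤ ∧
        (∀ v ∈ V, v ∉ convexHull ℝ ((V : Set (EuclideanSpace ℝ (Fin 3))) \ {v})) ∧
        (∀ v ∈ V,
          {F : Finset (EuclideanSpace ℝ (Fin 3)) |
            F ⊆ V ∧
            (∃ l : EuclideanSpace ℝ (Fin 3) →ₗ[ℝ] ℝ, ∃ c : ℝ,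
              ∀ w ∈ V, l w ≤ c ∧ (l w = c ↔ w ∈ F)) ∧
            Module.finrank ℝ (vectorSpan ℝ (F : Set (EuclideanSpace ℝ (Fin 3)))) = 2 ∧
            v ∈ F}.ncard = 3) ∧
        (∀ k : ℕ,
          {F : Finset (EuclideanSpace ℝ (Fin 3)) |
            F ⊆ V ∧
            (∃ l : EuclideanSpace ℝ (Fin 3) →ₗ[ℝ] ℝ, ∃ c : ℝ,
              ∀ w ∈ V, l w ≤ c ∧ (l w = c ↔ w ∈ F)) ∧
            Module.finrank ℝ (vectorSpan ℝ (F : Set (EuclideanSpace ℝ (Fin 3)))) = 2 ∧
            F.card = k}.ncard =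
          (if 3 ≤ k ∧ k ≤ N ∧ k ≠ 6 then p k else if k = 6 then p6 else 0))) := by
  classical
  intro H
  obtain ⟨p6, ⟨k, hk3, hkN, hk6, hpk, hlt⟩, V, hV, hex, h3, hc⟩ :=
    H 15 (fun k => if k = 3 then 70 else if k = 15 then 22 else 0) (by decide)
  have hp6 : p6 < 15 := lt_of_lt_of_le hlt hkN
  -- facets as a finset
  set Fs : Finset (Finset E3) := V.powerset.filter (fun F => IsFacet V F) with hFs
  have memFs : ∀ F, F ∈ Fs ↔ IsFacet V F := by
    intro F
    rw [hFs, Finset.mem_filter, Finset.mem_powerset]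
    exact ⟨fun h => h.2, fun h => ⟨h.1, h⟩⟩
  have h3' : ∀ v ∈ V, {F : Finset E3 | IsFacet V F ∧ v ∈ F}.ncard = 3 := by
    intro v hv
    refine Eq.trans ?_ (h3 v hv)
    congr 1
    ext F
    simp only [IsFacet, Set.mem_ofPred_eq, and_assoc]
  have h3'' : ∀ v ∈ V, (Fs.filter (fun F => v ∈ F)).card = 3 := by
    intro v hv
    refine Eq.trans ?_ (h3' v hv)
    rw [← Set.ncard_coe_finset]
    congr 1
    ext F
    simp only [Finset.coe_filter, memFs, Set.mem_ofPred_eq]
  have hc' : ∀ k, (Fs.filter (fun F => F.card = k)).card =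
      (if 3 ≤ k ∧ k ≤ 15 ∧ k ≠ 6 then (if k = 3 then 70 else if k = 15 then 22 else 0)
        else if k = 6 then p6 else 0) := by
    intro k
    rw [← hc k, ← Set.ncard_coe_finset]
    congr 1
    ext F
    simp only [Finset.coe_filter, memFs, Set.mem_ofPred_eq, IsFacet, and_assoc]
  -- card of facets is at most 15
  have hcard : ∀ F ∈ Fs, F.card ∈ ({3, 6, 15} : Finset ℕ) := by
    intro F hF
    have h1 := hc' F.card
    have h2 : 0 < (Fs.filter (fun F' => F'.card = F.card)).card :=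
      Finset.card_pos.2 ⟨F, Finset.mem_filter.2 ⟨hF, rfl⟩⟩
    rw [h1] at h2
    by_contra hne
    simp only [Finset.mem_insert, Finset.mem_singleton, not_or] at hne
    obtain ⟨n1, n2, n3⟩ := hne
    simp [n1, n2, n3] at h2
  -- double counting
  have hdc : ∑ v ∈ V, (Fs.filter (fun F => v ∈ F)).card = ∑ F ∈ Fs, F.card := by
    have h1 : ∀ F ∈ Fs, F.card = (V.filter (fun v => v ∈ F)).card := by
      intro F hF
      congr 1
      ext w
      rw [Finset.mem_filter]
      exact ⟨fun h => ⟨((memFs F).1 hF).1 h, h⟩, fun h => h.2⟩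
    rw [Finset.sum_congr rfl h1]
    simp only [Finset.card_filter]
    exact Finset.sum_comm
  have hl : ∑ v ∈ V, (Fs.filter (fun F => v ∈ F)).card = 3 * V.card := by
    rw [Finset.sum_congr rfl h3'', Finset.sum_const, smul_eq_mul, mul_comm]
  have hrr : ∑ F ∈ Fs, F.card = 3 * 70 + 6 * p6 + 15 * 22 := by
    rw [← Finset.sum_fiberwise_of_maps_to (g := fun F : Finset E3 => F.card) hcard]
    have h1 : ∀ k : ℕ, ∑ F ∈ Fs with F.card = k, F.card
        = k * (Fs.filter (fun F => F.card = k)).card := by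
      intro k
      rw [Finset.sum_congr rfl (fun F hF => (Finset.mem_filter.1 hF).2), Finset.sum_const,
        smul_eq_mul, mul_comm]
    simp only [h1, hc']
    rw [Finset.sum_insert (by norm_num), Finset.sum_insert (by norm_num), Finset.sum_singleton]
    norm_num
    ring
  -- triangles are disjoint
  have hbig : 4 < V.card := by omega
  have hT : ((Fs.filter (fun F => F.card = 3)).biUnion id).card = 3 * 70 := by
    rw [Finset.card_biUnion]
    · have h1 : ∀ F ∈ Fs.filter (fun F => F.card = 3), (id F : Finset E3).card = 3 :=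
        fun F hF => (Finset.mem_filter.1 hF).2
      rw [Finset.sum_congr rfl h1, Finset.sum_const, smul_eq_mul, hc']
      norm_num
    · intro F hF F' hF' hne
      rw [Function.onFun, Finset.disjoint_left]
      intro v hv hv'
      have a1 := Finset.mem_filter.1 hF
      have a2 := Finset.mem_filter.1 hF'
      have := triangles_disjoint hV hex h3' ((memFs F).1 a1.1) ((memFs F').1 a2.1) hne a1.2 a2.2
        hv hv'
      omega
  have hsubV : (Fs.filter (fun F => F.card = 3)).biUnion id ⊆ V := by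
    intro v hv
    rw [Finset.mem_biUnion] at hv
    obtain ⟨F, hF, hv⟩ := hv
    exact ((memFs F).1 (Finset.mem_filter.1 hF).1).1 hv
  have := Finset.card_le_card hsubV
  omega

end Pool.Agent.S08128
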