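import Pool.Statements.S08138
import Pool.Agent.H416R2.KleinMain

set_option autoImplicit false
open Pool Pool.MP_dfb409_co

namespace Pool.Agent.S08138

open Pool.Agent.H416R2.KleinCert

theorem exists_missing (H : G.Subgraph) (hH : H.coe.Colorable 3) :
    ∃ u v, G.Adj u v ∧ ¬ H.Adj u v := by
  by_contra hcon
  push Not at hcon
  obtain ⟨c⟩ := hH
  apply not_colorable
  have hmem : ∀ w : Fin 49, w ∈ H.verts := by
    intro w
    have hnb : ∃ z, G.Adj w z := by
      have hx : ∃ x y : Fin 7, w = vtx x y := by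
        refine ⟨⟨w.1 % 7, by omega⟩, ⟨w.1 / 7, by omega⟩, ?_⟩
        apply Fin.ext
        simp only [vtx]
        omega
      obtain ⟨x, y, rfl⟩ := hx
      exact ⟨vtx (x + 1) y, adj_h x y⟩
    obtain ⟨z, hz⟩ := hnb
    exact H.edge_vert (hcon w z hz)
  refine ⟨SimpleGraph.Coloring.mk (fun w => c ⟨w, hmem w⟩) ?_⟩
  intro a b hab
  exact c.valid (by simpa using hcon a b hab)

/-- restrict a colouring of `G` minus the edge `uv` to a subgraph missing `uv` -/
theorem restrict (H : G.Subgraph) {u v : Fin 49} (huv : ¬ H.Adj u v) {col : Fin 49 → Fin 3}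
    (hcol : Good u v col) : ∃ c : H.coe.Coloring (Fin 3), ∀ w, c w = col w.1 := by
  refine ⟨SimpleGraph.Coloring.mk (fun w => col w.1) ?_, fun w => rfl⟩
  intro a b hab
  have hab' : H.Adj a.1 b.1 := by simpa using hab
  refine hcol a.1 b.1 (H.adj_sub hab') ?_ ?_
  · rintro ⟨h1, h2⟩
    rw [h1, h2] at hab'
    exact huv hab'
  · rintro ⟨h1, h2⟩
    rw [h1, h2] at hab'
    exact huv hab'.symm

/-- The negation of the preceding statement: Every finite K4-free graph that is not 3-colorable has distinct vertices x,y and two 3-colorable subgraphs containing x,y but not edge xy, one where every 3-coloring separates x,y and one where every 3-coloring equates them. -/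
theorem result :
    ¬ (∀ (V : Type) [Fintype V] (G : SimpleGraph V),
      G.CliqueFree 4 → ¬ G.Colorable 3 →
      ∃ x y : V, x ≠ y ∧
        ∃ G₁ G₂ : G.Subgraph,
        ∃ hx₁ : x ∈ G₁.verts, ∃ hy₁ : y ∈ G₁.verts,
        ∃ hx₂ : x ∈ G₂.verts, ∃ hy₂ : y ∈ G₂.verts,
          ¬ G₁.Adj x y ∧ ¬ G₂.Adj x y ∧
          G₁.coe.Colorable 3 ∧ G₂.coe.Colorable 3 ∧
          (∀ c : G₁.coe.Coloring (Fin 3), c ⟨x, hx₁⟩ ≠ c ⟨y, hy₁⟩) ∧
          (∀ c : G₂.coe.Coloring (Fin 3), c ⟨x, hx₂⟩ = c ⟨y, hy₂⟩)) := by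
  intro hall
  obtain ⟨x, y, hne, G₁, G₂, hx₁, hy₁, hx₂, hy₂, hn₁, hn₂, hc₁, hc₂, hD, hE⟩ :=
    hall (Fin 49) G (cliqueFree_three.mono (by norm_num)) not_colorable
  by_cases hadj : G.Adj x y
  · obtain ⟨col, hg, heq⟩ := certSelf hadj
    obtain ⟨c, hc⟩ := restrict G₁ hn₁ hg
    apply hD c
    rw [hc, hc]
    exact heq
  · by_cases hS : inS x.1 y.1 = true
    · obtain ⟨u, v, huv, hmiss⟩ := exists_missing G₁ hc₁
      obtain ⟨col, hg, heq⟩ := certS huv hne hadj hS
      obtain ⟨c, hc⟩ := restrict G₁ hmiss hg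
      apply hD c
      rw [hc, hc]
      exact heq
    · obtain ⟨u, v, huv, hmiss⟩ := exists_missing G₂ hc₂
      obtain ⟨col, hg, hneq⟩ := certN huv hne hadj hS
      obtain ⟨c, hc⟩ := restrict G₂ hmiss hg
      apply hneq
      have := hE c
      rw [hc, hc] at this
      exact this

end Pool.Agent.S08138
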