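import Pool.Statements.S08199
import Pool.Agent.H425R2.Steal
import Pool.Agent.H425R2.Main

set_option autoImplicit false
open Pool Pool.MP_e28b35_co

namespace Pool.Agent.S08199

/-- In 5x5x5 tic-tac-toe, where the first to fully occupy one of the cube's geometric lines wins, neither the first nor the second player has a legal strategy that guarantees completing a line before the opponent does; the game is a draw. -/
theorem result :
    (¬ ∃ σ : List (Fin 3 → Fin 5) → (Fin 3 → Fin 5),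
      (∀ l : List (Fin 3 → Fin 5), l.Nodup → Even l.length → l.length < 125 → σ l ∉ l) ∧
      ∀ p : ℕ → (Fin 3 → Fin 5),
        (∀ i j : ℕ, i < 125 → j < 125 → p i = p j → i = j) →
        (∀ k : ℕ, k < 125 → Even k → p k = σ ((List.range k).map p)) →
        ∃ t : ℕ, t < 125 ∧
          (∃ a : Fin 3 → Fin 5, ∃ s : Fin 3 → Fin 3, (∃ j, s j ≠ 0) ∧
            ∀ i : Fin 5, ∃ k : ℕ, k ≤ t ∧ Even k ∧
              p k = fun j => if s j = 0 then a j else if s j = 1 then i else i.rev) ∧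
          ¬ (∃ a : Fin 3 → Fin 5, ∃ s : Fin 3 → Fin 3, (∃ j, s j ≠ 0) ∧
            ∀ i : Fin 5, ∃ k : ℕ, k ≤ t ∧ Odd k ∧
              p k = fun j => if s j = 0 then a j else if s j = 1 then i else i.rev)) ∧
    (¬ ∃ σ : List (Fin 3 → Fin 5) → (Fin 3 → Fin 5),
      (∀ l : List (Fin 3 → Fin 5), l.Nodup → Odd l.length → l.length < 125 → σ l ∉ l) ∧
      ∀ p : ℕ → (Fin 3 → Fin 5),
        (∀ i j : ℕ, i < 125 → j < 125 → p i = p j → i = j) →
        (∀ k : ℕ, k < 125 → Odd k → p k = σ ((List.range k).map p)) →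
        ∃ t : ℕ, t < 125 ∧
          (∃ a : Fin 3 → Fin 5, ∃ s : Fin 3 → Fin 3, (∃ j, s j ≠ 0) ∧
            ∀ i : Fin 5, ∃ k : ℕ, k ≤ t ∧ Odd k ∧
              p k = fun j => if s j = 0 then a j else if s j = 1 then i else i.rev) ∧
          ¬ (∃ a : Fin 3 → Fin 5, ∃ s : Fin 3 → Fin 3, (∃ j, s j ≠ 0) ∧
            ∀ i : Fin 5, ∃ k : ℕ, k ≤ t ∧ Even k ∧
              p k = fun j => if s j = 0 then a j else if s j = 1 then i else i.rev)) := by
  have hcard : Fintype.card (Fin 3 → Fin 5) = 125 := by simp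
  let W : ((Fin 3 → Fin 5) → Prop) → Prop := fun S =>
    ∃ a : Fin 3 → Fin 5, ∃ s : Fin 3 → Fin 3, (∃ j, s j ≠ 0) ∧
      ∀ i : Fin 5, S (fun j => if s j = 0 then a j else if s j = 1 then i else i.rev)
  have hW : ∀ s t : (Fin 3 → Fin 5) → Prop, (∀ c, s c → t c) → W s → W t := by
    rintro s t hst ⟨a, u, hu, h⟩
    exact ⟨a, u, hu, fun i => hst _ (h i)⟩
  constructor
  · have h := Pool.Agent.Helper582.Cube.draw_of_BW Pool.Agent.H425R2.five
    obtain ⟨τ, hτ⟩ := h
    have key := Pool.Agent.H425R2.Steal.no_first (α := Fin 3 → Fin 5) (fun _ => 0) W τ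
      (fun l hl hs => hτ l hl hs) hW
    rw [hcard] at key
    exact key
  · have key := Pool.Agent.H425R2.Steal.steal (α := Fin 3 → Fin 5) (by rw [hcard]; decide)
      (fun _ => 0) W hW
    rw [hcard] at key
    exact key

end Pool.Agent.S08199
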