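import Pool.Statements.S08204

set_option autoImplicit false
open Pool Pool.MP_e2b918_co

namespace Pool.Agent.S08204

/-- Adjacency of the circulant graph on `ℤ/17` with connection set `{±1, ±3, ±4, ±5}`. -/
def adjB (i j : ℕ) : Bool := Nat.testBit 94266 ((i + 17 - j) % 17)

/-- Compatibility of the images (in reverse order) `l` of `0, …, k - 1` with `k ↦ x`. -/
def okNew (k x : ℕ) : List ℕ → Bool
  | [] => true
  | y :: l => (y != x) && (adjB y x != adjB l.length k) && okNew k x l

/-- Value of the map coded by the full list `l` of length `17` at `i`. -/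
def ev (l : List ℕ) (i : ℕ) : ℕ := l.getD (16 - i) 0

/-- Some vertex has `f (f (f (f i))) ≠ i`. -/
def bad (l : List ℕ) : Bool :=
  (List.range 17).any fun i => ev l (ev l (ev l (ev l i))) != i

/-- No antimorphism extending `l` (with `r` values missing) has fourth power the identity. -/
def search : ℕ → ℕ → List ℕ → Bool
  | 0, _, l => bad l
  | r + 1, k, l => (List.range 17).all fun x => !(okNew k x l) || search r (k + 1) (x :: l)

/-- the list of the images of `k - 1, …, 0`. -/
def imgs (f : ℕ → ℕ) : ℕ → List ℕ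
  | 0 => []
  | k + 1 => f k :: imgs f k

theorem length_imgs (f : ℕ → ℕ) (k : ℕ) : (imgs f k).length = k := by
  induction k with
  | zero => rfl
  | succ k ih => simp [imgs, ih]

theorem okNew_imgs (f : ℕ → ℕ) (hf : ∀ i j, i < 17 → j < 17 → i ≠ j → f i ≠ f j ∧
    adjB (f i) (f j) ≠ adjB i j) (k : ℕ) (hk : k < 17) :
    ∀ m, m ≤ k → okNew k (f k) (imgs f m) = true := by
  intro m
  induction m with
  | zero => intro _; rfl
  | succ m ih =>
    intro hm
    have h := hf m k (by omega) hk (by omega)
    simp only [imgs, okNew, Bool.and_eq_true, bne_iff_ne, length_imgs]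
    exact ⟨⟨h.1, h.2⟩, ih (by omega)⟩

theorem search_sound (f : ℕ → ℕ) (hlt : ∀ i, i < 17 → f i < 17)
    (hf : ∀ i j, i < 17 → j < 17 → i ≠ j → f i ≠ f j ∧ adjB (f i) (f j) ≠ adjB i j) :
    ∀ r k, r + k = 17 → search r k (imgs f k) = true → bad (imgs f 17) = true := by
  intro r
  induction r with
  | zero =>
    intro k hk h
    obtain rfl : k = 17 := by omega
    exact h
  | succ r ih =>
    intro k hk h
    rw [search, List.all_eq_true] at h
    have h1 := h (f k) (List.mem_range.2 (hlt k (by omega)))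
    rw [okNew_imgs f hf k (by omega) k le_rfl, Bool.not_true, Bool.false_or] at h1
    exact ih (k + 1) (by omega) h1

theorem getD_imgs (f : ℕ → ℕ) (i : ℕ) : ∀ k, i < k → (imgs f k).getD (k - 1 - i) 0 = f i := by
  intro k
  induction k with
  | zero => intro h; omega
  | succ k ih =>
    intro h
    rcases Nat.lt_succ_iff_lt_or_eq.1 h with h1 | rfl
    · have h2 : k + 1 - 1 - i = (k - 1 - i) + 1 := by omega
      rw [h2, imgs, List.getD_cons_succ]
      exact ih h1
    · simp [imgs]

theorem ev_imgs (f : ℕ → ℕ) (i : ℕ) (hi : i < 17) : ev (imgs f 17) i = f i :=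
  getD_imgs f i 17 hi

set_option maxRecDepth 100000 in
theorem search_true : search 17 0 [] = true := by decide +kernel

/-- The circulant graph. -/
def G : SimpleGraph (Fin 17) where
  Adj i j := adjB i j = true
  symm := ⟨by decide⟩
  loopless := ⟨by decide⟩

instance : DecidableRel G.Adj := fun i j => inferInstanceAs (Decidable (adjB i j = true))

theorem G_adj (i j : Fin 17) : G.Adj i j ↔ adjB i j = true := Iff.rfl

/-- Multiplication by two is an isomorphism onto the complement. -/
def dbl : G ≃g Gᶜ where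
  toFun i := 2 * i
  invFun i := 9 * i
  left_inv := by decide
  right_inv := by decide
  map_rel_iff' := by
    intro a b
    revert a b
    simp only [SimpleGraph.compl_adj, G_adj]
    decide

/-- The negation of the preceding statement: Every finite regular self-complementary graph has an isomorphism onto its complement whose permutation of the vertices has at most one fixed point, with every other vertex lying on a cycle of length exactly 4. -/
theorem result :
    ¬ (∀ (V : Type) [Fintype V] [DecidableEq V] (G : SimpleGraph V) [DecidableRel G.Adj],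
      (∃ d : ℕ, G.IsRegularOfDegree d) →
      Nonempty (G ≃g Gᶜ) →
      ∃ σ : G ≃g Gᶜ,
        (∀ u v : V, σ u = u → σ v = v → u = v) ∧
        (∀ v : V, σ v ≠ v → σ (σ v) ≠ v ∧ σ (σ (σ (σ v))) = v)) := by
  intro H
  obtain ⟨σ, -, h4⟩ := H (Fin 17) G ⟨8, fun v => by revert v; decide +kernel⟩ ⟨dbl⟩
  have h4' : ∀ v : Fin 17, σ (σ (σ (σ v))) = v := by
    intro v
    by_cases hv : σ v = v
    · rw [hv, hv, hv, hv]
    · exact (h4 v hv).2
  let f : ℕ → ℕ := fun i => if h : i < 17 then (σ ⟨i, h⟩ : Fin 17).val else 0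
  have hfv : ∀ v : Fin 17, f v.val = (σ v).val := by
    intro v
    simp only [f, v.isLt, dif_pos, Fin.eta]
  have hlt : ∀ i, i < 17 → f i < 17 := by
    intro i hi
    have := hfv ⟨i, hi⟩
    simp only at this
    rw [this]
    exact (σ ⟨i, hi⟩).isLt
  have hf : ∀ i j, i < 17 → j < 17 → i ≠ j → f i ≠ f j ∧ adjB (f i) (f j) ≠ adjB i j := by
    intro i j hi hj hij
    have e1 : f i = (σ ⟨i, hi⟩ : Fin 17).val := hfv ⟨i, hi⟩
    have e2 : f j = (σ ⟨j, hj⟩ : Fin 17).val := hfv ⟨j, hj⟩
    have hne : σ ⟨i, hi⟩ ≠ σ ⟨j, hj⟩ := by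
      intro h
      have := σ.injective h
      exact hij (by simpa using this)
    have hadj := σ.map_adj_iff (v := (⟨i, hi⟩ : Fin 17)) (w := ⟨j, hj⟩)
    rw [SimpleGraph.compl_adj, G_adj, G_adj] at hadj
    rw [e1, e2]
    refine ⟨fun h => hne (Fin.ext h), fun h => ?_⟩
    rw [h] at hadj
    simp only [ne_eq] at hadj
    by_cases hA : adjB i j = true
    · exact (hadj.2 hA).2 hA
    · exact hA (hadj.1 ⟨hne, hA⟩)
  have hb := search_sound f hlt hf 17 0 rfl search_true
  rw [bad, List.any_eq_true] at hb
  obtain ⟨i, hi, hb⟩ := hb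
  have hi' : i < 17 := List.mem_range.1 hi
  have e1 := ev_imgs f i hi'
  have e2 := ev_imgs f _ (hlt i hi')
  have e3 := ev_imgs f _ (hlt _ (hlt i hi'))
  have e4 := ev_imgs f _ (hlt _ (hlt _ (hlt i hi')))
  rw [e1, e2, e3, e4, bne_iff_ne] at hb
  apply hb
  have k1 : f i = (σ ⟨i, hi'⟩ : Fin 17).val := hfv ⟨i, hi'⟩
  rw [k1, hfv, hfv, hfv, h4']

end Pool.Agent.S08204
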