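-- The complete graph on six vertices refutes the description: put weight one on the edge 01 and on
-- every edge of the K5 on 1..5, and weight zero on the other edges at 0.  The edge 01 carries weight,
-- but each triangle through it uses an edge of weight zero, so the vector is outside the cone.
-- All inequalities v_H hold, with H any triangle-free subgraph (a short count on K5).
import Pool.Statements.S08312

set_option autoImplicit false
open Classical
open Pool Pool.MP_eb5675_co

namespace Pool.Agent.S08312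

/-- the vector -/
noncomputable def x0 : Sym2 (Fin 6) → ℝ :=
  fun e => if e = s(0, 1) then 1 else if (0 : Fin 6) ∈ e then 0 else 1

/-- the explicit edge set of the complete graph on six vertices -/
def edges6 : Finset (Sym2 (Fin 6)) :=
  {s(0, 1), s(0, 2), s(0, 3), s(0, 4), s(0, 5), s(1, 2), s(1, 3), s(1, 4), s(1, 5),
    s(2, 3), s(2, 4), s(2, 5), s(3, 4), s(3, 5), s(4, 5)}

theorem edges6_eq : (⊤ : SimpleGraph (Fin 6)).edgeFinset = edges6 := by
  ext e
  rw [SimpleGraph.mem_edgeFinset, SimpleGraph.edgeSet_top]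
  revert e
  have key : ∀ e : Sym2 (Fin 6), ¬ e.IsDiag ↔ e ∈ edges6 := by decide
  intro e
  simpa using key e

theorem not_cone (c : Finset (Fin 6) → ℝ) (hc : ∀ t, 0 ≤ c t)
    (h : ∀ e ∈ (⊤ : SimpleGraph (Fin 6)).edgeFinset,
      x0 e = ∑ t ∈ (⊤ : SimpleGraph (Fin 6)).cliqueFinset 3,
        (if (∀ v ∈ e, v ∈ t) then c t else 0)) : False := by
  -- zero edges kill all triangles through them
  have kill : ∀ v : Fin 6, v ≠ 0 → v ≠ 1 →
      ∀ t ∈ (⊤ : SimpleGraph (Fin 6)).cliqueFinset 3, (0 : Fin 6) ∈ t → v ∈ t → c t = 0 := by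
    intro v hv0 hv1 t ht h0 hvt
    have hmem : s((0 : Fin 6), v) ∈ (⊤ : SimpleGraph (Fin 6)).edgeFinset := by
      rw [SimpleGraph.mem_edgeFinset, SimpleGraph.mem_edgeSet]
      exact hv0.symm
    have hx : x0 s((0 : Fin 6), v) = 0 := by
      unfold x0
      rw [if_neg, if_pos]
      · simp
      · intro hh
        rw [Sym2.eq_iff] at hh
        rcases hh with ⟨_, h2⟩ | ⟨h1, _⟩
        · exact hv1 h2
        · exact absurd h1 (by decide)
    have hs := h _ hmem
    rw [hx] at hs
    have hz := (Finset.sum_eq_zero_iff_of_nonneg (s := (⊤ : SimpleGraph (Fin 6)).cliqueFinset 3)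
      (f := fun t => if (∀ u ∈ s((0 : Fin 6), v), u ∈ t) then c t else 0)
      (fun t _ => by
        show 0 ≤ (if (∀ u ∈ s((0 : Fin 6), v), u ∈ t) then c t else 0)
        split_ifs
        · exact hc t
        · exact le_refl _)).1 hs.symm t ht
    have hcond : ∀ u ∈ s((0 : Fin 6), v), u ∈ t := by
      intro u hu
      rw [Sym2.mem_iff] at hu
      rcases hu with rfl | rfl
      · exact h0
      · exact hvt
    simpa only [if_pos hcond] using hz
  have hmem : s((0 : Fin 6), 1) ∈ (⊤ : SimpleGraph (Fin 6)).edgeFinset := by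
    rw [SimpleGraph.mem_edgeFinset, SimpleGraph.mem_edgeSet]
    decide
  have hs := h _ hmem
  have hx : x0 s((0 : Fin 6), 1) = 1 := by
    unfold x0
    rw [if_pos rfl]
  rw [hx] at hs
  have hz : ∑ t ∈ (⊤ : SimpleGraph (Fin 6)).cliqueFinset 3,
        (if (∀ v ∈ s((0 : Fin 6), 1), v ∈ t) then c t else 0) = 0 := by
    apply Finset.sum_eq_zero
    intro t ht
    split_ifs with hcond
    · have h0 : (0 : Fin 6) ∈ t := hcond 0 (by simp)
      have h1 : (1 : Fin 6) ∈ t := hcond 1 (by simp)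
      have hcard : t.card = 3 := by
        have := (SimpleGraph.mem_cliqueFinset_iff).1 ht
        exact this.card_eq
      -- a third vertex
      have : ∃ w ∈ t, w ∉ ({0, 1} : Finset (Fin 6)) := by
        by_contra hcon
        push Not at hcon
        have hle : t.card ≤ ({0, 1} : Finset (Fin 6)).card := Finset.card_le_card hcon
        have h2 : ({0, 1} : Finset (Fin 6)).card = 2 := by decide
        omega
      obtain ⟨w, hw, hw'⟩ := this
      have hw0 : w ≠ 0 := by
        rintro rfl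
        exact hw' (by simp)
      have hw1 : w ≠ 1 := by
        rintro rfl
        exact hw' (by simp)
      exact kill w hw0 hw1 t ht h0 hw
    · rfl
  rw [hz] at hs
  exact one_ne_zero hs

/-- the coefficient of one edge, in linear form -/
theorem coef (V' : Finset (Fin 6)) (H : SimpleGraph (Fin 6))
    (hV : ∀ u v, H.Adj u v → u ∈ V' ∧ v ∈ V') (i j : Fin 6) :
    (if s(i, j) ∈ H.edgeSet then (-1 : ℝ)
      else if (∀ v ∈ s(i, j), v ∈ V') then 2
      else if (∃ v ∈ s(i, j), v ∈ V') then 1 / 2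
      else 0) =
    (if i ∈ V' then (if j ∈ V' then 2 - 3 * (if H.Adj i j then (1 : ℝ) else 0) else 1 / 2)
      else (if j ∈ V' then 1 / 2 else 0)) := by
  have hA : s(i, j) ∈ H.edgeSet ↔ H.Adj i j := SimpleGraph.mem_edgeSet H
  by_cases hi : i ∈ V' <;> by_cases hj : j ∈ V' <;> by_cases hadj : H.Adj i j
  · simp [hA, hi, hj, hadj]; norm_num
  · simp [hA, hi, hj, hadj]
  · exact absurd (hV i j hadj).2 hj
  · simp [hA, hi, hj, hadj]
  · exact absurd (hV i j hadj).1 hi
  · simp [hA, hi, hj, hadj]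
  · exact absurd (hV i j hadj).1 hi
  · simp [hA, hi, hj, hadj]

theorem tri (H : SimpleGraph (Fin 6)) (hfree : H.CliqueFree 3) (i j k : Fin 6) :
    (if H.Adj i j then (1 : ℝ) else 0) + (if H.Adj i k then (1 : ℝ) else 0)
      + (if H.Adj j k then (1 : ℝ) else 0) ≤ 2 := by
  by_cases h1 : H.Adj i j <;> by_cases h2 : H.Adj i k <;> by_cases h3 : H.Adj j k
  · exfalso
    exact hfree {i, j, k} (SimpleGraph.is3Clique_triple_iff.2 ⟨h1, h2, h3⟩)
  all_goals (simp [h1, h2, h3]; try norm_num)

theorem ind01 (H : SimpleGraph (Fin 6)) (i j : Fin 6) :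
    ∃ n : ℤ, (if H.Adj i j then (1 : ℝ) else 0) = n ∧ 0 ≤ n ∧ n ≤ 1 := by
  by_cases h : H.Adj i j
  · exact ⟨1, by simp [h], by norm_num, le_refl _⟩
  · exact ⟨0, by simp [h], le_refl _, by norm_num⟩

theorem in_P (V' : Finset (Fin 6)) (H : SimpleGraph (Fin 6))
    (hV : ∀ u v, H.Adj u v → u ∈ V' ∧ v ∈ V') (hfree : H.CliqueFree 3) :
    0 ≤ ∑ e ∈ (⊤ : SimpleGraph (Fin 6)).edgeFinset,
            (if e ∈ H.edgeSet then (-1 : ℝ)
              else if (∀ v ∈ e, v ∈ V') then 2
              else if (∃ v ∈ e, v ∈ V') then 1 / 2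
              else 0) * x0 e := by
  rw [edges6_eq]
  have hsum : ∀ f : Sym2 (Fin 6) → ℝ, ∑ e ∈ edges6, f e * x0 e =
      f s(0, 1) + (f s(1, 2) + f s(1, 3) + f s(1, 4) + f s(1, 5) + f s(2, 3) + f s(2, 4)
        + f s(2, 5) + f s(3, 4) + f s(3, 5) + f s(4, 5)) := by
    intro f
    have x01 : x0 s(0, 1) = 1 := by unfold x0; rw [if_pos rfl]
    have xz : ∀ v : Fin 6, v ≠ 0 → v ≠ 1 → x0 s(0, v) = 0 := by
      intro v h0 h1
      unfold x0
      rw [if_neg (fun hh => ?_), if_pos (by simp)]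
      rw [Sym2.eq_iff] at hh
      rcases hh with ⟨_, h2⟩ | ⟨h2, _⟩
      · exact h1 h2
      · exact absurd h2 (by decide)
    have xo : ∀ u v : Fin 6, u ≠ 0 → v ≠ 0 → x0 s(u, v) = 1 := by
      intro u v h0 h1
      unfold x0
      rw [if_neg (fun hh => ?_), if_neg (fun hh => ?_)]
      · rw [Sym2.mem_iff] at hh
        rcases hh with h | h
        · exact h0 h.symm
        · exact h1 h.symm
      · rw [Sym2.eq_iff] at hh
        rcases hh with ⟨h, _⟩ | ⟨_, h⟩
        · exact h0 h
        · exact h1 h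
    unfold edges6
    rw [Finset.sum_insert (by decide), Finset.sum_insert (by decide),
      Finset.sum_insert (by decide), Finset.sum_insert (by decide),
      Finset.sum_insert (by decide), Finset.sum_insert (by decide),
      Finset.sum_insert (by decide), Finset.sum_insert (by decide),
      Finset.sum_insert (by decide), Finset.sum_insert (by decide),
      Finset.sum_insert (by decide), Finset.sum_insert (by decide),
      Finset.sum_insert (by decide), Finset.sum_insert (by decide),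
      Finset.sum_singleton]
    rw [x01, xz 2 (by decide) (by decide), xz 3 (by decide) (by decide),
      xz 4 (by decide) (by decide), xz 5 (by decide) (by decide),
      xo 1 2 (by decide) (by decide), xo 1 3 (by decide) (by decide),
      xo 1 4 (by decide) (by decide), xo 1 5 (by decide) (by decide),
      xo 2 3 (by decide) (by decide), xo 2 4 (by decide) (by decide),
      xo 2 5 (by decide) (by decide), xo 3 4 (by decide) (by decide),
      xo 3 5 (by decide) (by decide), xo 4 5 (by decide) (by decide)]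
    ring
  rw [hsum]
  simp only [coef V' H hV]
  have t123 := tri H hfree 1 2 3
  have t124 := tri H hfree 1 2 4
  have t125 := tri H hfree 1 2 5
  have t134 := tri H hfree 1 3 4
  have t135 := tri H hfree 1 3 5
  have t145 := tri H hfree 1 4 5
  have t234 := tri H hfree 2 3 4
  have t235 := tri H hfree 2 3 5
  have t245 := tri H hfree 2 4 5
  have t345 := tri H hfree 3 4 5
  obtain ⟨n01, e01, l01, u01⟩ := ind01 H 0 1
  obtain ⟨n12, e12, l12, u12⟩ := ind01 H 1 2
  obtain ⟨n13, e13, l13, u13⟩ := ind01 H 1 3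
  obtain ⟨n14, e14, l14, u14⟩ := ind01 H 1 4
  obtain ⟨n15, e15, l15, u15⟩ := ind01 H 1 5
  obtain ⟨n23, e23, l23, u23⟩ := ind01 H 2 3
  obtain ⟨n24, e24, l24, u24⟩ := ind01 H 2 4
  obtain ⟨n25, e25, l25, u25⟩ := ind01 H 2 5
  obtain ⟨n34, e34, l34, u34⟩ := ind01 H 3 4
  obtain ⟨n35, e35, l35, u35⟩ := ind01 H 3 5
  obtain ⟨n45, e45, l45, u45⟩ := ind01 H 4 5
  rw [e12, e13, e23] at t123
  rw [e12, e14, e24] at t124
  rw [e12, e15, e25] at t125
  rw [e13, e14, e34] at t134
  rw [e13, e15, e35] at t135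
  rw [e14, e15, e45] at t145
  rw [e23, e24, e34] at t234
  rw [e23, e25, e35] at t235
  rw [e24, e25, e45] at t245
  rw [e34, e35, e45] at t345
  rw [e01, e12, e13, e14, e15, e23, e24, e25, e34, e35, e45]
  norm_cast at t123 t124 t125 t134 t135 t145 t234 t235 t245 t345
  have S : n12 + n13 + n14 + n15 + n23 + n24 + n25 + n34 + n35 + n45 ≤ 6 := by
    have : 3 * (n12 + n13 + n14 + n15 + n23 + n24 + n25 + n34 + n35 + n45) ≤ 20 := by linarith
    omega
  have S' : ((n12 + n13 + n14 + n15 + n23 + n24 + n25 + n34 + n35 + n45 : ℤ) : ℝ) ≤ 6 := by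
    exact_mod_cast S
  have r123 : ((n12 + n13 + n23 : ℤ) : ℝ) ≤ 2 := by exact_mod_cast t123
  have r124 : ((n12 + n14 + n24 : ℤ) : ℝ) ≤ 2 := by exact_mod_cast t124
  have r125 : ((n12 + n15 + n25 : ℤ) : ℝ) ≤ 2 := by exact_mod_cast t125
  have r134 : ((n13 + n14 + n34 : ℤ) : ℝ) ≤ 2 := by exact_mod_cast t134
  have r135 : ((n13 + n15 + n35 : ℤ) : ℝ) ≤ 2 := by exact_mod_cast t135
  have r145 : ((n14 + n15 + n45 : ℤ) : ℝ) ≤ 2 := by exact_mod_cast t145
  have r234 : ((n23 + n24 + n34 : ℤ) : ℝ) ≤ 2 := by exact_mod_cast t234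
  have r235 : ((n23 + n25 + n35 : ℤ) : ℝ) ≤ 2 := by exact_mod_cast t235
  have r245 : ((n24 + n25 + n45 : ℤ) : ℝ) ≤ 2 := by exact_mod_cast t245
  have r345 : ((n34 + n35 + n45 : ℤ) : ℝ) ≤ 2 := by exact_mod_cast t345
  have v01 : (n01 : ℝ) ≤ 1 := by exact_mod_cast u01
  have v12 : (n12 : ℝ) ≤ 1 := by exact_mod_cast u12
  have v13 : (n13 : ℝ) ≤ 1 := by exact_mod_cast u13
  have v14 : (n14 : ℝ) ≤ 1 := by exact_mod_cast u14
  have v15 : (n15 : ℝ) ≤ 1 := by exact_mod_cast u15
  have v23 : (n23 : ℝ) ≤ 1 := by exact_mod_cast u23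
  have v24 : (n24 : ℝ) ≤ 1 := by exact_mod_cast u24
  have v25 : (n25 : ℝ) ≤ 1 := by exact_mod_cast u25
  have v34 : (n34 : ℝ) ≤ 1 := by exact_mod_cast u34
  have v35 : (n35 : ℝ) ≤ 1 := by exact_mod_cast u35
  have v45 : (n45 : ℝ) ≤ 1 := by exact_mod_cast u45
  push_cast at S' r123 r124 r125 r134 r135 r145 r234 r235 r245 r345
  clear t123 t124 t125 t134 t135 t145 t234 t235 t245 t345 S hsum
  by_cases p0 : (0 : Fin 6) ∈ V' <;> by_cases p1 : (1 : Fin 6) ∈ V' <;>
  by_cases p2 : (2 : Fin 6) ∈ V' <;> by_cases p3 : (3 : Fin 6) ∈ V' <;>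
  by_cases p4 : (4 : Fin 6) ∈ V' <;> by_cases p5 : (5 : Fin 6) ∈ V' <;>
  simp only [p0, p1, p2, p3, p4, p5, if_true, if_false] <;> linarith

/-- The negation of the preceding statement: For every finite graph G and real edge vector x: x is a nonnegative combination of triangle edge-indicator vectors iff the sum of v_H(e)·x(e) is at least 0 for every triangle-free subgraph H, with v_H equal to -1 on H-edges, 2 inside V', 1/2 on edges with exactly one end in V', 0 otherwise. -/
theorem result :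
    ¬ (∀ (V : Type) [Fintype V] (G : SimpleGraph V) (x : Sym2 V → ℝ),
      (∃ c : Finset V → ℝ, (∀ t, 0 ≤ c t) ∧
          ∀ e ∈ G.edgeFinset,
            x e = ∑ t ∈ G.cliqueFinset 3, (if (∀ v ∈ e, v ∈ t) then c t else 0)) ↔
      (∀ (V' : Finset V) (H : SimpleGraph V), H ≤ G →
          (∀ u v, H.Adj u v → u ∈ V' ∧ v ∈ V') → H.CliqueFree 3 →
          0 ≤ ∑ e ∈ G.edgeFinset,
            (if e ∈ H.edgeSet then (-1 : ℝ)
              else if (∀ v ∈ e, v ∈ V') then 2
              else if (∃ v ∈ e, v ∈ V') then 1 / 2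
              else 0) * x e)) := by
  intro hall
  have h := (hall (Fin 6) ⊤ x0).2 (fun V' H _ hV hfree => by
    have := in_P V' H hV hfree
    convert this)
  obtain ⟨c, hc, h⟩ := h
  exact not_cone c hc (fun e he => by
    have := h e (by convert he)
    rw [this]
    apply Finset.sum_congr
    · ext t
      simp only [SimpleGraph.mem_cliqueFinset_iff]
    · intro t _
      split_ifs <;> rfl)

end Pool.Agent.S08312
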