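import Pool.Statements.S08322
import Pool.Agent.H293R2.RandSubset

set_option autoImplicit false
open MeasureTheory
open Pool Pool.MP_ebd703_co

namespace Pool.Agent.S08322

/-- The negation of the preceding statement: For every countably infinite group G, picking each element independently with probability 1/2 gives, with probability zero, a subset fixed setwise by some non-identity automorphism of G. -/
theorem result :
    ¬ (∀ (G : Type) [Group G] [Countable G] [Infinite G],
      Measure.infinitePi (fun _ : G => (PMF.uniformOfFintype Bool).toMeasure)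
        {f : G → Bool | ∃ φ : MulAut G, φ ≠ 1 ∧ ∀ g : G, f (φ g) = f g} = 0) := by
  intro h
  haveI : Countable (ℕ →₀ ZMod 2) := inferInstance
  haveI : Countable (Multiplicative (ℕ →₀ ZMod 2)) := this
  haveI : Infinite (ℕ →₀ ZMod 2) := inferInstance
  haveI : Infinite (Multiplicative (ℕ →₀ ZMod 2)) := this
  have h1 := h (Multiplicative (ℕ →₀ ZMod 2))
  have h2 := Pool.Agent.H293R2.RandSubset.ae_EP (A := (ℕ →₀ ZMod 2))
  have h3 : ∀ᵐ f ∂(Pool.Agent.H293R2.RandSubset.coin (ℕ →₀ ZMod 2)),
      ¬ (∃ φ : MulAut (Multiplicative (ℕ →₀ ZMod 2)), φ ≠ 1 ∧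
        ∀ g : Multiplicative (ℕ →₀ ZMod 2), f (φ g) = f g) := by
    rw [ae_iff]
    simp only [not_not]
    exact h1
  have h4 : ∀ᵐ f ∂(Pool.Agent.H293R2.RandSubset.coin (ℕ →₀ ZMod 2)), False := by
    filter_upwards [h2, h3] with f hf2 hf3
    apply hf3
    obtain ⟨φ, ⟨a, ha⟩, hφ⟩ := Pool.Agent.H293R2.RandSubset.exists_aut f hf2
    refine ⟨AddEquiv.toMultiplicative φ, ?_, fun g => hφ g⟩
    intro he
    apply ha
    have := congrArg (fun ψ : MulAut (Multiplicative (ℕ →₀ ZMod 2)) => ψ (Multiplicative.ofAdd a)) he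
    exact this
  rw [ae_iff] at h4
  simp at h4

end Pool.Agent.S08322
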