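import Pool.Statements.S08354
import Pool.Agent.H940R3.Final

set_option autoImplicit false
open Pool Pool.MP_ee6896_co

namespace Pool.Agent.S08354

/-- The negation of the preceding statement: There are constants C, d such that for every finite graph G, Builder can force a monochromatic copy of G in the online edge-colouring game while keeping maximum degree at most C(Δ(G)+1)^d, i.e. odr(G) is polynomially bounded in Δ(G). -/
theorem result :
    ¬ (∃ C d : ℕ, ∀ (V : Type) [Fintype V] (G : SimpleGraph V) [DecidableRel G.Adj],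
      ∃ B : List (Sym2 ℕ × Bool) → Sym2 ℕ,
        ∀ P : List (Sym2 ℕ × Bool) → Sym2 ℕ → Bool,
          ∀ h : ℕ → List (Sym2 ℕ × Bool),
            h 0 = [] →
            (∀ n, h (n + 1) = h n ++ [(B (h n), P (h n) (B (h n)))]) →
            ∃ n : ℕ,
              ((h n).map Prod.fst).Nodup ∧
              (∀ x ∈ h n, ¬ x.1.IsDiag) ∧
              (∀ v : ℕ, ((h n).filter (fun x => v ∈ x.1)).length
                  ≤ C * (G.maxDegree + 1) ^ d) ∧
              ∃ φ : V → ℕ, Function.Injective φ ∧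
                ∃ c : Bool, ∀ u w : V, G.Adj u w → (s(φ u, φ w), c) ∈ h n) := by
  rintro ⟨C, d, hCd⟩
  obtain ⟨k, hk⟩ := Pool.Agent.H940R3.growth C d
  set D0 : ℕ := C * (2 * k + 1) ^ d with hD0
  haveI : Nonempty (Fin (2 * k + 1)) := ⟨0⟩
  obtain ⟨B, hB⟩ := hCd (Fin (2 * k + 1)) (⊤ : SimpleGraph (Fin (2 * k + 1)))
  let Pn : List (Sym2 ℕ × Bool) → Sym2 ℕ → Bool :=
    Pool.Agent.H940R3.painter (Pool.Agent.H940R3.qq D0) (Pool.Agent.H940R3.LL D0) (1 / 4)
  let h : ℕ → List (Sym2 ℕ × Bool) := fun n =>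
    Nat.rec [] (fun _ l => l ++ [(B l, Pn l (B l))]) n
  have h0 : h 0 = [] := rfl
  have hs : ∀ n, h (n + 1) = h n ++ [(B (h n), Pn (h n) (B (h n)))] := fun n => rfl
  have hreg : ∀ n, Pool.Agent.H940R3.Reg (Pool.Agent.H940R3.zof (Pool.Agent.H940R3.qq D0)
      (Pool.Agent.H940R3.LL D0) (1 / 4) (h n)) := by
    intro n
    induction n with
    | zero =>
      rw [h0, Pool.Agent.H940R3.zof_nil]
      exact Pool.Agent.H940R3.reg_init (by norm_num) (by norm_num)
    | succ n ih =>
      rw [hs n]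
      exact Pool.Agent.H940R3.painter_spec (Pool.Agent.H940R3.qq_nonneg D0)
        (Pool.Agent.H940R3.qq_le_one D0) (Pool.Agent.H940R3.LL_pos D0)
        (Pool.Agent.H940R3.qL D0) ih (B (h n))
  obtain ⟨n, hnd, hdiag, hdeg, φ, hφ, c, hmono⟩ := hB Pn h h0 hs
  have hmax : (⊤ : SimpleGraph (Fin (2 * k + 1))).maxDegree + 1 ≤ 2 * k + 1 := by
    have h1 := (⊤ : SimpleGraph (Fin (2 * k + 1))).maxDegree_lt_card_verts
    rw [Fintype.card_fin] at h1
    exact h1
  refine Pool.Agent.H940R3.painter_avoids k D0 hk (h n) (hreg n) hnd hdiag ?_ φ hφ c ?_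
  · intro v
    refine (hdeg v).trans ?_
    exact Nat.mul_le_mul_left _ (Nat.pow_le_pow_left hmax d)
  · intro u w huw
    exact hmono u w ((SimpleGraph.top_adj u w).2 huw)

end Pool.Agent.S08354
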