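import Pool.Statements.S08361
import Pool.Agent.H241R2.QueensFin
-- import your own Pool.Agent.* helpers here

set_option autoImplicit false
open Pool Pool.MP_ef2397_co

namespace Pool.Agent.S08361

/-- For every positive n with gcd(n,12) equal to 6 or 12, the largest set of queens on the n×n torus board, pairwise sharing no row, column, or wrapped diagonal (i+j or i−j mod n), has exactly n−2 queens. -/
theorem result :
    ∀ n : ℕ, 0 < n → (Nat.gcd n 12 = 6 ∨ Nat.gcd n 12 = 12) →
      IsGreatest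
        {k : ℕ | ∃ S : Finset (ZMod n × ZMod n), S.card = k ∧
          ∀ p ∈ S, ∀ q ∈ S, p ≠ q →
            p.1 ≠ q.1 ∧ p.2 ≠ q.2 ∧ p.1 + p.2 ≠ q.1 + q.2 ∧ p.1 - p.2 ≠ q.1 - q.2}
        (n - 2) := by
  intro n hn hg
  refine Pool.Agent.H241R2.Queens.isGreatest n hn ?_
  rcases hg with h | h
  · exact h ▸ Nat.gcd_dvd_left n 12
  · exact dvd_trans (by norm_num) (h ▸ Nat.gcd_dvd_left n 12)

end Pool.Agent.S08361
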