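import Pool.Statements.S08417

set_option autoImplicit false
open Pool Pool.MP_f1eca3_co

namespace Pool.Agent.S08417

open Finset

/-- greedy balancing -/
lemma balance {ι : Type} [DecidableEq ι] (b : ι → ℕ) (s : Finset ι) :
    (∀ i ∈ s, b i ≤ 2 + ∑ j ∈ s.filter (fun j => b j < b i), b j) →
    ∀ t : ℤ, |t| ≤ 2 + ∑ i ∈ s, (b i : ℤ) →
      ∃ ε : ι → ℤ, (∀ i, ε i = 1 ∨ ε i = -1) ∧ |t + ∑ i ∈ s, ε i * b i| ≤ 2 := by
  refine Finset.induction_on_max_value b s ?_ ?_
  · intro _ t ht
    refine ⟨fun _ => 1, fun _ => Or.inl rfl, ?_⟩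
    simpa using ht
  · intro a s ha hmax ih hs t ht
    have hs' : ∀ i ∈ s, b i ≤ 2 + ∑ j ∈ s.filter (fun j => b j < b i), b j := by
      intro i hi
      have h1 := hs i (Finset.mem_insert_of_mem hi)
      rw [Finset.filter_insert, if_neg (by have := hmax i hi; omega)] at h1
      exact h1
    have hba : b a ≤ 2 + ∑ j ∈ s, b j := by
      have h1 := hs a (Finset.mem_insert_self a s)
      rw [Finset.filter_insert, if_neg (lt_irrefl _)] at h1
      have h2 : ∑ j ∈ s.filter (fun j => b j < b a), b j ≤ ∑ j ∈ s, b j :=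
        Finset.sum_le_sum_of_subset (Finset.filter_subset _ _)
      omega
    have hba' : (b a : ℤ) ≤ 2 + ∑ j ∈ s, (b j : ℤ) := by exact_mod_cast hba
    rw [Finset.sum_insert ha] at ht
    obtain ⟨e, he, het⟩ : ∃ e : ℤ, (e = 1 ∨ e = -1) ∧ |t + e * b a| ≤ 2 + ∑ j ∈ s, (b j : ℤ) := by
      have hb0 : (0:ℤ) ≤ b a := Int.natCast_nonneg _
      rcases le_total 0 t with h | h
      · refine ⟨-1, Or.inr rfl, ?_⟩
        rw [abs_of_nonneg h] at ht
        rw [abs_le]
        constructor <;> linarith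
      · refine ⟨1, Or.inl rfl, ?_⟩
        rw [abs_of_nonpos h] at ht
        rw [abs_le]
        constructor <;> linarith
    obtain ⟨ε, hε, hεs⟩ := ih hs' (t + e * b a) het
    refine ⟨fun i => if i = a then e else ε i, ?_, ?_⟩
    · intro i
      by_cases hi : i = a
      · simp [hi, he]
      · simp [hi, hε i]
    · rw [Finset.sum_insert ha]
      have h1 : ∑ i ∈ s, (if i = a then e else ε i) * (b i : ℤ) = ∑ i ∈ s, ε i * b i := by
        apply Finset.sum_congr rfl
        intro i hi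
        rw [if_neg]
        rintro rfl
        exact ha hi
      rw [h1]
      simp only [if_true]
      rw [← add_assoc]
      exact hεs

lemma sum_sets {n : ℕ} (N : Finset (Fin n)) (F : ℕ → ℝ) :
    ∑ Y : Finset (Fin n), F (symmDiff Y N).card = ∑ k ∈ range (n + 1), (n.choose k : ℝ) * F k := by
  have h1 : ∑ Y : Finset (Fin n), F (symmDiff Y N).card = ∑ Y : Finset (Fin n), F Y.card := by
    apply Finset.sum_nbij' (fun Y => symmDiff Y N) (fun Y => symmDiff Y N)
    · intro a _; exact Finset.mem_univ _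
    · intro a _; exact Finset.mem_univ _
    · intro a _; exact symmDiff_symmDiff_cancel_right N a
    · intro a _; exact symmDiff_symmDiff_cancel_right N a
    · intro a _; rfl
  rw [h1]
  have h2 := Finset.sum_powerset_apply_card F (x := (univ : Finset (Fin n)))
  simp only [Finset.powerset_univ, Finset.card_univ, Fintype.card_fin, nsmul_eq_mul] at h2
  exact h2

lemma sum_sym_even (m : ℕ) (f : ℕ → ℝ) :
    ∑ k ∈ range (2 * m + 1), ((2 * m).choose k : ℝ) * f (min k (2 * m - k))
      = 2 * ∑ k ∈ range m, ((2 * m).choose k : ℝ) * f k + ((2 * m).choose m : ℝ) * f m := by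
  rw [show 2 * m + 1 = (m + 1) + m by ring, Finset.sum_range_add, Finset.sum_range_succ]
  have e1 : ∑ k ∈ range m, ((2 * m).choose k : ℝ) * f (min k (2 * m - k))
      = ∑ k ∈ range m, ((2 * m).choose k : ℝ) * f k := by
    apply Finset.sum_congr rfl
    intro k hk
    have := Finset.mem_range.mp hk
    rw [min_eq_left (by omega)]
  have e2 : ∑ k ∈ range m, ((2 * m).choose (m + 1 + k) : ℝ)
      * f (min (m + 1 + k) (2 * m - (m + 1 + k)))
      = ∑ k ∈ range m, ((2 * m).choose k : ℝ) * f k := by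
    rw [← Finset.sum_range_reflect]
    apply Finset.sum_congr rfl
    intro k hk
    have := Finset.mem_range.mp hk
    rw [min_eq_right (by omega)]
    rw [← Nat.choose_symm (show k ≤ 2 * m by omega)]
    congr 2
    · congr 1
      omega
    · omega
  rw [e1, e2, min_eq_left (by omega)]
  ring

lemma sum_sym_odd (m : ℕ) (f : ℕ → ℝ) :
    ∑ k ∈ range (2 * m + 1 + 1), ((2 * m + 1).choose k : ℝ) * f (min k (2 * m + 1 - k))
      = 2 * ∑ k ∈ range (m + 1), ((2 * m + 1).choose k : ℝ) * f k := by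
  rw [show 2 * m + 1 + 1 = (m + 1) + (m + 1) by ring, Finset.sum_range_add]
  have e1 : ∑ k ∈ range (m + 1), ((2 * m + 1).choose k : ℝ) * f (min k (2 * m + 1 - k))
      = ∑ k ∈ range (m + 1), ((2 * m + 1).choose k : ℝ) * f k := by
    apply Finset.sum_congr rfl
    intro k hk
    have := Finset.mem_range.mp hk
    rw [min_eq_left (by omega)]
  have e2 : ∑ k ∈ range (m + 1), ((2 * m + 1).choose (m + 1 + k) : ℝ)
      * f (min (m + 1 + k) (2 * m + 1 - (m + 1 + k)))
      = ∑ k ∈ range (m + 1), ((2 * m + 1).choose k : ℝ) * f k := by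
    rw [← Finset.sum_range_reflect]
    apply Finset.sum_congr rfl
    intro k hk
    have := Finset.mem_range.mp hk
    rw [min_eq_right (by omega)]
    rw [← Nat.choose_symm (show k ≤ 2 * m + 1 by omega)]
    congr 2
    · congr 1
      omega
    · omega
  rw [e1, e2]
  ring

/-- telescoping identity -/
lemma tele (m : ℕ) : ∑ k ∈ range m, 2 * ((m:ℝ) - k) * ((2 * m).choose k : ℝ)
    = m * ((2 * m).choose m : ℝ) := by
  have key : ∀ k < m, 2 * ((m:ℝ) - k) * ((2 * m).choose k : ℝ)
      = ((k + 1 : ℕ) : ℝ) * ((2 * m).choose (k + 1) : ℝ) - (k : ℝ) * ((2 * m).choose k : ℝ) := by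
    intro k hk
    have h1 := Nat.choose_succ_right_eq (2 * m) k
    have h2 : ((2 * m).choose (k + 1) : ℝ) * ((k:ℝ) + 1) = ((2 * m).choose k : ℝ) * (2 * m - k) := by
      have h3 : ((2 * m - k : ℕ) : ℝ) = 2 * m - k := by
        rw [Nat.cast_sub (by omega)]; push_cast; ring
      rw [← h3]
      exact_mod_cast h1
    push_cast
    linarith
  rw [Finset.sum_congr rfl (fun k hk => key k (Finset.mem_range.mp hk))]
  rw [Finset.sum_range_sub (fun k => (k : ℝ) * ((2 * m).choose k : ℝ))]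
  simp

/-- weights, even case `n = 2m` -/
noncomputable def We (m k : ℕ) : ℝ :=
  if k = m then -((m:ℝ) ^ 2 - 4) else if k + 1 = m then ((m:ℝ) + 1) * (m + 2)
  else -(((m:ℝ) - k - 2) * (m + 1))

lemma even_pos (m : ℕ) (hm : 1 ≤ m) :
    0 < ∑ k ∈ range (2 * m + 1), ((2 * m).choose k : ℝ) * We m (min k (2 * m - k)) := by
  rw [sum_sym_even]
  obtain ⟨m', rfl⟩ : ∃ m', m = m' + 1 := ⟨m - 1, by omega⟩
  rw [Finset.sum_range_succ]
  have e1 : We (m' + 1) (m' + 1) = -(((m' + 1 : ℕ) : ℝ) ^ 2 - 4) := by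
    unfold We; rw [if_pos rfl]
  have e2 : We (m' + 1) m' = (((m' + 1 : ℕ):ℝ) + 1) * ((m' + 1 : ℕ) + 2) := by
    unfold We
    rw [if_neg (by omega), if_pos rfl]
  have e3 : ∀ k ∈ range m', ((2 * (m' + 1)).choose k : ℝ) * We (m' + 1) k
      = -((((m' + 1 : ℕ):ℝ) + 1) / 2) * (2 * (((m' + 1 : ℕ):ℝ) - k) * ((2 * (m' + 1)).choose k : ℝ))
        + 2 * (((m' + 1 : ℕ):ℝ) + 1) * ((2 * (m' + 1)).choose k : ℝ) := by
    intro k hk
    have hk' := Finset.mem_range.mp hk
    unfold We
    rw [if_neg (by omega), if_neg (by omega)]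
    ring
  rw [e1, e2, Finset.sum_congr rfl e3, Finset.sum_add_distrib, ← Finset.mul_sum, ← Finset.mul_sum]
  have t1 := tele (m' + 1)
  rw [Finset.sum_range_succ] at t1
  -- total mass
  have t2 : 2 * (∑ k ∈ range m', ((2 * (m' + 1)).choose k : ℝ)) + 2 * ((2 * (m' + 1)).choose m' : ℝ)
      + ((2 * (m' + 1)).choose (m' + 1) : ℝ) = 4 ^ (m' + 1) := by
    have h := sum_sym_even (m' + 1) (fun _ => 1)
    simp only [mul_one] at h
    rw [Finset.sum_range_succ (fun x => ((2 * (m' + 1)).choose x : ℝ)) m'] at h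
    have h2 : ∑ k ∈ range (2 * (m' + 1) + 1), ((2 * (m' + 1)).choose k : ℝ) = 2 ^ (2 * (m' + 1)) := by
      exact_mod_cast Nat.sum_range_choose (2 * (m' + 1))
    rw [h2, pow_mul] at h
    norm_num at h ⊢
    linarith
  have t3 : (((m' + 1 : ℕ):ℝ) + 1) * ((2 * (m' + 1)).choose m' : ℝ)
      = ((m' + 1 : ℕ):ℝ) * ((2 * (m' + 1)).choose (m' + 1) : ℝ) := by
    have h1 := Nat.choose_succ_right_eq (2 * (m' + 1)) m'
    have h2 : 2 * (m' + 1) - m' = m' + 1 + 1 := by omega
    rw [h2] at h1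
    have h3 : ((2 * (m' + 1)).choose (m' + 1) : ℝ) * ((m' + 1 : ℕ) : ℝ)
      = ((2 * (m' + 1)).choose m' : ℝ) * ((m' + 1 : ℕ) + 1) := by exact_mod_cast h1
    linarith
  have t4 : ((2 * (m' + 1)).choose (m' + 1) : ℝ) ≤ 4 ^ (m' + 1) := by
    have hn : 0 ≤ (∑ k ∈ range m', ((2 * (m' + 1)).choose k : ℝ)) := by positivity
    have hn2 : 0 ≤ ((2 * (m' + 1)).choose m' : ℝ) := by positivity
    linarith
  have t5 : (0:ℝ) < 4 ^ (m' + 1) := by positivity
  have t6 : (0:ℝ) ≤ ((2 * (m' + 1)).choose (m' + 1) : ℝ) := by positivity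
  have e4 : ((m' + 1 : ℕ):ℝ) - (m':ℝ) = 1 := by push_cast; ring
  rw [e4] at t1
  have hm0 : (1:ℝ) ≤ ((m' + 1 : ℕ):ℝ) := by exact_mod_cast Nat.succ_le_succ (Nat.zero_le m')
  generalize ((m' + 1 : ℕ):ℝ) = x at *
  generalize (∑ k ∈ range m', 2 * (x - (k:ℝ)) * ((2 * (m' + 1)).choose k : ℝ)) = S1 at *
  generalize (∑ k ∈ range m', ((2 * (m' + 1)).choose k : ℝ)) = S0 at *
  generalize ((2 * (m' + 1)).choose m' : ℝ) = c1 at *
  generalize ((2 * (m' + 1)).choose (m' + 1) : ℝ) = c0 at *
  generalize (4:ℝ) ^ (m' + 1) = P at *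
  -- target : 0 < 2 * ((-(x+1)/2 * S1 + 2(x+1) S0) + c1 * ((x+1)(x+2))) + c0 * (-(x^2-4))
  have h1 : S1 = x * c0 - 2 * c1 := by linarith
  have h0 : S0 = (P - c0) / 2 - c1 := by linarith
  rw [h1, h0]
  have h5 : 2 * (-((x + 1) / 2) * (x * c0 - 2 * c1) + 2 * (x + 1) * ((P - c0) / 2 - c1)
      + c1 * ((x + 1) * (x + 2))) + c0 * -(x ^ 2 - 4)
      = (2 - x) * c0 + 2 * (x + 1) * P := by
    linear_combination (2 * (x + 1)) * t3
  rw [h5]
  nlinarith [mul_nonneg (by linarith : (0:ℝ) ≤ x) (by linarith : (0:ℝ) ≤ P - c0)]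

/-- weights, odd case `n = 2m+1` -/
noncomputable def Wo (m k : ℕ) : ℝ :=
  if k = m then 1 else -(((m:ℝ) - 1 - k) / (k + 1))

lemma odd_pos (m : ℕ) :
    0 < ∑ k ∈ range (2 * m + 1 + 1), ((2 * m + 1).choose k : ℝ) * Wo m (min k (2 * m + 1 - k)) := by
  rw [sum_sym_odd, Finset.sum_range_succ]
  have e1 : Wo m m = 1 := by unfold Wo; rw [if_pos rfl]
  have e2 : ∀ k ∈ range m, -(1 / (4 * ((m:ℝ) + 1)) *
      (2 * (((m + 1 : ℕ):ℝ) - ((k + 1 : ℕ) : ℝ)) * ((2 * (m + 1)).choose (k + 1) : ℝ)))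
      ≤ ((2 * m + 1).choose k : ℝ) * Wo m k := by
    intro k hk
    have hk' := Finset.mem_range.mp hk
    unfold Wo
    rw [if_neg (by omega)]
    have h1 := Nat.add_one_mul_choose_eq (2 * m + 1) k
    have h2 : (2 * (m:ℝ) + 2) * ((2 * m + 1).choose k : ℝ)
        = ((2 * (m + 1)).choose (k + 1) : ℝ) * (k + 1) := by
      have h3 : (2 * m + 1 + 1) = 2 * (m + 1) := by ring
      rw [h3] at h1
      have h4 : ((2 * (m + 1) : ℕ) : ℝ) * ((2 * m + 1).choose k : ℝ)
        = ((2 * (m + 1)).choose (k + 1) : ℝ) * ((k + 1 : ℕ) : ℝ) := by exact_mod_cast h1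
      push_cast at h4
      linarith
    have hc0 : (0:ℝ) ≤ ((2 * m + 1).choose k : ℝ) := by positivity
    have hm0 : (0:ℝ) ≤ m := Nat.cast_nonneg m
    have hk0 : (0:ℝ) ≤ k := Nat.cast_nonneg k
    have h5 : 1 / (4 * ((m:ℝ) + 1)) *
      (2 * (((m + 1 : ℕ):ℝ) - ((k + 1 : ℕ) : ℝ)) * ((2 * (m + 1)).choose (k + 1) : ℝ))
      = ((2 * m + 1).choose k : ℝ) * (((m:ℝ) - k) / (k + 1)) := by
      have h6 : ((2 * (m + 1)).choose (k + 1) : ℝ)
        = (2 * (m:ℝ) + 2) * ((2 * m + 1).choose k : ℝ) / (k + 1) := by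
        rw [h2]; field_simp
      rw [h6]
      push_cast
      field_simp
      ring
    rw [h5, mul_neg]
    apply neg_le_neg
    apply mul_le_mul_of_nonneg_left _ hc0
    apply div_le_div_of_nonneg_right _ (by positivity)
    linarith
  have t1 := tele (m + 1)
  rw [Finset.sum_range_succ'] at t1
  have h2 : ((2 * (m + 1)).choose (m + 1) : ℝ) = 2 * ((2 * m + 1).choose m : ℝ) := by
    have h1 := Nat.add_one_mul_choose_eq (2 * m + 1) m
    have h3 : (2 * m + 1 + 1) = 2 * (m + 1) := by ring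
    rw [h3] at h1
    have h4 : 2 * (m + 1) * (2 * m + 1).choose m = (2 * (m + 1)).choose (m + 1) * (m + 1) := h1
    have h5 : (m + 1) * (2 * (2 * m + 1).choose m) = (m + 1) * (2 * (m + 1)).choose (m + 1) := by
      rw [mul_comm (m + 1) ((2 * (m + 1)).choose (m + 1)), ← h4]; ring
    have h6 := Nat.eq_of_mul_eq_mul_left (Nat.succ_pos m) h5
    exact_mod_cast h6.symm
  have h3 := Finset.sum_le_sum e2
  rw [Finset.sum_neg_distrib, ← Finset.mul_sum] at h3
  rw [e1, mul_one]
  rw [h2] at t1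
  have hm0 : (0:ℝ) ≤ m := Nat.cast_nonneg m
  have hc : (0:ℝ) < ((2 * m + 1).choose m : ℝ) := by
    exact_mod_cast Nat.choose_pos (by omega)
  have t2 : ∑ k ∈ range m, 2 * (((m + 1 : ℕ):ℝ) - ((k + 1 : ℕ):ℝ))
      * ((2 * (m + 1)).choose (k + 1) : ℝ) ≤ ((m:ℝ) + 1) * (2 * ((2 * m + 1).choose m : ℝ)) := by
    have h4 : 0 ≤ 2 * (((m + 1 : ℕ):ℝ) - ((0 : ℕ):ℝ)) * ((2 * (m + 1)).choose 0 : ℝ) := by
      simp
      positivity
    have h5 : (((m + 1 : ℕ):ℝ)) = (m:ℝ) + 1 := by push_cast; ring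
    rw [← h5]
    linarith
  have t3 : 1 / (4 * ((m:ℝ) + 1)) * (∑ k ∈ range m, 2 * (((m + 1 : ℕ):ℝ) - ((k + 1 : ℕ):ℝ))
      * ((2 * (m + 1)).choose (k + 1) : ℝ)) ≤ ((2 * m + 1).choose m : ℝ) / 2 := by
    calc _ ≤ 1 / (4 * ((m:ℝ) + 1)) * (((m:ℝ) + 1) * (2 * ((2 * m + 1).choose m : ℝ))) :=
          mul_le_mul_of_nonneg_left t2 (by positivity)
      _ = _ := by field_simp; ring
  linarith

/-- good index sets exist by averaging -/
lemma exists_good {n : ℕ} (hn : 1 ≤ n) (N : Fin n → Finset (Fin n)) (W : ℕ → ℝ)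
    (hW : 0 < ∑ k ∈ range (n + 1), (n.choose k : ℝ) * W (min k (n - k))) :
    ∃ Y : Finset (Fin n), 0 < ∑ i, W (min (symmDiff Y (N i)).card (n - (symmDiff Y (N i)).card)) := by
  by_contra hcon
  push Not at hcon
  have h1 : ∑ Y : Finset (Fin n), ∑ i, W (min (symmDiff Y (N i)).card
      (n - (symmDiff Y (N i)).card)) ≤ 0 :=
    Finset.sum_nonpos (fun Y _ => hcon Y)
  rw [Finset.sum_comm] at h1
  have h2 : ∀ i : Fin n, ∑ Y : Finset (Fin n), W (min (symmDiff Y (N i)).card
      (n - (symmDiff Y (N i)).card))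
      = ∑ k ∈ range (n + 1), (n.choose k : ℝ) * W (min k (n - k)) :=
    fun i => sum_sets (N i) (fun k => W (min k (n - k)))
  rw [Finset.sum_congr rfl (fun i _ => h2 i)] at h1
  simp only [Finset.sum_const, Finset.card_univ, Fintype.card_fin, nsmul_eq_mul] at h1
  have hn' : (1:ℝ) ≤ n := by exact_mod_cast hn
  nlinarith

/-- the weight inequality implies the balancing condition, even case -/
lemma cond_even (m : ℕ) (j : Fin (2 * m) → ℕ) (hj : ∀ i, j i ≤ m)
    (hpos : 0 < ∑ i, We m (j i)) (i : Fin (2 * m)) :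
    2 * m - 2 * j i ≤ 2 + ∑ l ∈ univ.filter (fun l => 2 * m - 2 * j l < 2 * m - 2 * j i),
      (2 * m - 2 * j l) := by
  by_contra hcon
  push Not at hcon
  -- P : small nonzero elements
  set P := univ.filter (fun l => 2 * m - 2 * j l < 2 * m - 2 * j i ∧ j l < m) with hP
  have hPcard : 2 * P.card ≤ ∑ l ∈ univ.filter (fun l => 2 * m - 2 * j l < 2 * m - 2 * j i),
      (2 * m - 2 * j l) := by
    have h1 : P ⊆ univ.filter (fun l => 2 * m - 2 * j l < 2 * m - 2 * j i) := by
      intro l hl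
      rw [hP] at hl
      simp only [mem_filter, mem_univ, true_and] at hl ⊢
      exact hl.1
    calc 2 * P.card = ∑ l ∈ P, 2 := by rw [Finset.sum_const, smul_eq_mul, mul_comm]
      _ ≤ ∑ l ∈ P, (2 * m - 2 * j l) := by
          apply Finset.sum_le_sum
          intro l hl
          rw [hP] at hl
          simp only [mem_filter, mem_univ, true_and] at hl
          omega
      _ ≤ _ := Finset.sum_le_sum_of_subset h1
  have hji := hj i
  have hK : j i + 2 ≤ m := by omega
  obtain ⟨q, hq⟩ : ∃ q, m = j i + 2 + q := ⟨m - (j i + 2), by omega⟩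
  have hPq : P.card ≤ q := by omega
  have hqm : q + 2 ≤ m := by omega
  have hb : ∀ l, We m (j l) ≤ -((q:ℝ) * (m + 1))
      + (if l ∈ P then ((q:ℝ) * (m + 1) + (m + 1) * (m + 2)) else 0) := by
    intro l
    have hjl := hj l
    have hm0 : (0:ℝ) ≤ m := Nat.cast_nonneg m
    have hq0 : (0:ℝ) ≤ q := Nat.cast_nonneg q
    have hqm' : (q:ℝ) + 2 ≤ m := by exact_mod_cast hqm
    by_cases h1 : j l = m
    · have h2 : l ∉ P := by
        rw [hP]; simp only [mem_filter, mem_univ, true_and]; omega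
      rw [if_neg h2]
      unfold We
      rw [if_pos h1]
      nlinarith
    · have h1' : j l < m := by omega
      by_cases h2 : 2 * m - 2 * j l < 2 * m - 2 * j i
      · have h3 : l ∈ P := by
          rw [hP]; simp only [mem_filter, mem_univ, true_and]; exact ⟨h2, h1'⟩
        rw [if_pos h3]
        unfold We
        rw [if_neg h1]
        split_ifs with h4
        · linarith
        · have h5 : (j l : ℝ) + 2 ≤ m := by exact_mod_cast (by omega : j l + 2 ≤ m)
          nlinarith [mul_nonneg (by linarith : (0:ℝ) ≤ (m:ℝ) - j l - 2) (by linarith : (0:ℝ) ≤ (m:ℝ) + 1),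
            mul_nonneg (by linarith : (0:ℝ) ≤ (m:ℝ) + 1) (by linarith : (0:ℝ) ≤ (m:ℝ) + 2)]
      · have h3 : l ∉ P := by
          rw [hP]; simp only [mem_filter, mem_univ, true_and]
          intro h; exact h2 h.1
        rw [if_neg h3]
        have h4 : j l ≤ j i := by omega
        unfold We
        rw [if_neg h1, if_neg (by omega)]
        have h5 : (j l : ℝ) ≤ j i := by exact_mod_cast h4
        have h6 : (m:ℝ) = j i + 2 + q := by exact_mod_cast hq
        have h7 : (q:ℝ) ≤ (m:ℝ) - j l - 2 := by linarith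
        have h8 := mul_le_mul_of_nonneg_right h7 (by linarith : (0:ℝ) ≤ (m:ℝ) + 1)
        linarith
  have h1 : ∑ l, We m (j l) ≤ ∑ l : Fin (2 * m), (-((q:ℝ) * (m + 1))
      + (if l ∈ P then ((q:ℝ) * (m + 1) + (m + 1) * (m + 2)) else 0)) :=
    Finset.sum_le_sum (fun l _ => hb l)
  rw [Finset.sum_add_distrib, Finset.sum_const, Finset.card_univ, Fintype.card_fin, nsmul_eq_mul,
    ← Finset.sum_filter, Finset.filter_mem_eq_inter, Finset.univ_inter, Finset.sum_const,
    nsmul_eq_mul] at h1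
  have hP' : (P.card : ℝ) ≤ q := by exact_mod_cast hPq
  have hqm' : (q:ℝ) + 2 ≤ m := by exact_mod_cast hqm
  have hq0 : (0:ℝ) ≤ q := Nat.cast_nonneg q
  have hm0 : (0:ℝ) ≤ m := Nat.cast_nonneg m
  push_cast at h1
  have h2 : (P.card : ℝ) * ((q:ℝ) * (m + 1) + (m + 1) * (m + 2))
      ≤ q * ((q:ℝ) * (m + 1) + (m + 1) * (m + 2)) :=
    mul_le_mul_of_nonneg_right hP' (by positivity)
  have h3 : 2 * (m:ℝ) * -((q:ℝ) * (m + 1)) + q * ((q:ℝ) * (m + 1) + (m + 1) * (m + 2))
      = -(q * (m + 1) * (m - (q + 2))) := by ring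
  have h4 : 0 ≤ (q:ℝ) * (m + 1) * (m - (q + 2)) := by
    apply mul_nonneg (by positivity) (by linarith)
  linarith

/-- the weight inequality implies the balancing condition, odd case -/
lemma cond_odd (m : ℕ) (j : Fin (2 * m + 1) → ℕ) (hj : ∀ i, j i ≤ m)
    (hpos : 0 < ∑ i, Wo m (j i)) (i : Fin (2 * m + 1)) :
    2 * m + 1 - 2 * j i ≤ 2 + ∑ l ∈ univ.filter
      (fun l => 2 * m + 1 - 2 * j l < 2 * m + 1 - 2 * j i), (2 * m + 1 - 2 * j l) := by
  by_contra hcon
  push Not at hcon
  set P := univ.filter (fun l => 2 * m + 1 - 2 * j l < 2 * m + 1 - 2 * j i) with hP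
  have hPcard : P.card ≤ ∑ l ∈ P, (2 * m + 1 - 2 * j l) := by
    calc P.card = ∑ l ∈ P, 1 := by simp
      _ ≤ ∑ l ∈ P, (2 * m + 1 - 2 * j l) := by
          apply Finset.sum_le_sum
          intro l _
          have := hj l
          omega
  have hji := hj i
  have hK : j i + 1 ≤ m := by omega
  obtain ⟨q, hq⟩ : ∃ q, m = j i + 1 + q := ⟨m - (j i + 1), by omega⟩
  have hPq : P.card ≤ 2 * q := by omega
  have hji0 : (0:ℝ) < (j i : ℝ) + 1 := by positivity
  have hq0 : (0:ℝ) ≤ q := Nat.cast_nonneg q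
  have hb : ∀ l, Wo m (j l) ≤ -((q:ℝ) / (j i + 1))
      + (if l ∈ P then ((q:ℝ) / (j i + 1) + 1) else 0) := by
    intro l
    have hjl := hj l
    have h6 : (m:ℝ) = j i + 1 + q := by exact_mod_cast hq
    by_cases h2 : l ∈ P
    · rw [if_pos h2]
      unfold Wo
      split_ifs with h4
      · linarith
      · have h5 : (j l : ℝ) + 1 ≤ m := by exact_mod_cast (by omega : j l + 1 ≤ m)
        have h7 : 0 ≤ ((m:ℝ) - 1 - j l) / (j l + 1) := by
          apply div_nonneg (by linarith) (by positivity)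
        linarith
    · rw [if_neg h2]
      have h3 : j l ≤ j i := by
        rw [hP] at h2
        simp only [mem_filter, mem_univ, true_and] at h2
        omega
      unfold Wo
      rw [if_neg (by omega), add_zero]
      apply neg_le_neg
      have h5 : (j l : ℝ) ≤ j i := by exact_mod_cast h3
      have h7 : (0:ℝ) < (j l : ℝ) + 1 := by positivity
      rw [div_le_div_iff₀ hji0 h7]
      have h8 : (q:ℝ) ≤ (m:ℝ) - 1 - j l := by linarith
      nlinarith
  have h1 : ∑ l, Wo m (j l) ≤ ∑ l : Fin (2 * m + 1), (-((q:ℝ) / (j i + 1))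
      + (if l ∈ P then ((q:ℝ) / (j i + 1) + 1) else 0)) :=
    Finset.sum_le_sum (fun l _ => hb l)
  rw [Finset.sum_add_distrib, Finset.sum_const, Finset.card_univ, Fintype.card_fin, nsmul_eq_mul,
    ← Finset.sum_filter, Finset.filter_mem_eq_inter, Finset.univ_inter, Finset.sum_const,
    nsmul_eq_mul] at h1
  have hP' : (P.card : ℝ) ≤ 2 * q := by exact_mod_cast hPq
  have h6 : (m:ℝ) = j i + 1 + q := by exact_mod_cast hq
  push_cast at h1
  have h2 : (P.card : ℝ) * ((q:ℝ) / (j i + 1) + 1) ≤ 2 * q * ((q:ℝ) / (j i + 1) + 1) :=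
    mul_le_mul_of_nonneg_right hP' (by positivity)
  have h3 : (2 * (m:ℝ) + 1) * -((q:ℝ) / (j i + 1)) + 2 * q * ((q:ℝ) / (j i + 1) + 1)
      = -(q / (j i + 1)) := by
    rw [h6]
    field_simp
    ring
  have h4 : 0 ≤ (q:ℝ) / (j i + 1) := by positivity
  linarith

/-- assembling: from the condition to the switching -/
lemma finish {n : ℕ} (A : Fin n → Fin n → ℤ) (hA : ∀ i j, A i j = 1 ∨ A i j = -1)
    (Y : Finset (Fin n))
    (hcond : ∀ i, n - 2 * (min (symmDiff Y (univ.filter (fun j => A i j = -1))).card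
        (n - (symmDiff Y (univ.filter (fun j => A i j = -1))).card))
      ≤ 2 + ∑ l ∈ univ.filter (fun l => n - 2 * (min (symmDiff Y (univ.filter (fun j => A l j = -1))).card
        (n - (symmDiff Y (univ.filter (fun j => A l j = -1))).card))
        < n - 2 * (min (symmDiff Y (univ.filter (fun j => A i j = -1))).card
        (n - (symmDiff Y (univ.filter (fun j => A i j = -1))).card))),
        (n - 2 * (min (symmDiff Y (univ.filter (fun j => A l j = -1))).card
        (n - (symmDiff Y (univ.filter (fun j => A l j = -1))).card)))) :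
    ∃ r c : Fin n → ℤ, (∀ i, r i = 1 ∨ r i = -1) ∧ (∀ j, c j = 1 ∨ c j = -1) ∧
        |∑ i, ∑ j, r i * A i j * c j| ≤ 2 := by
  set b : Fin n → ℕ := fun i => n - 2 * (min (symmDiff Y (univ.filter (fun j => A i j = -1))).card
        (n - (symmDiff Y (univ.filter (fun j => A i j = -1))).card)) with hb
  obtain ⟨ε, hε, hs⟩ := balance b univ (fun i _ => hcond i) 0 (by
    rw [abs_zero]; positivity)
  set c : Fin n → ℤ := fun j => if j ∈ Y then -1 else 1 with hc
  have hrow : ∀ i, ∑ j, A i j * c j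
      = (n:ℤ) - 2 * ((symmDiff Y (univ.filter (fun j => A i j = -1))).card : ℤ) := by
    intro i
    have h1 : ∀ j, A i j * c j
        = 1 - 2 * (if j ∈ symmDiff Y (univ.filter (fun j => A i j = -1)) then (1:ℤ) else 0) := by
      intro j
      simp only [hc, Finset.mem_symmDiff, mem_filter, mem_univ, true_and]
      rcases hA i j with h | h <;> by_cases hY : j ∈ Y <;> simp [h, hY]
    rw [Finset.sum_congr rfl (fun j _ => h1 j), Finset.sum_sub_distrib, ← Finset.mul_sum,
      Finset.sum_boole]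
    simp only [Finset.filter_mem_eq_inter, Finset.univ_inter]
    simp
  have habs : ∀ i, |∑ j, A i j * c j| = (b i : ℤ) := by
    intro i
    rw [hrow i]
    have h2 : (symmDiff Y (univ.filter (fun j => A i j = -1))).card ≤ n := by
      have := Finset.card_le_univ (symmDiff Y (univ.filter (fun j => A i j = -1)))
      simpa using this
    simp only [hb]
    generalize (symmDiff Y (univ.filter (fun j => A i j = -1))).card = k at *
    rcases le_total (2 * k) n with h | h
    · rw [min_eq_left (by omega), abs_of_nonneg (by omega)]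
      omega
    · rw [min_eq_right (by omega), abs_of_nonpos (by omega)]
      omega
  refine ⟨fun i => if 0 ≤ ∑ j, A i j * c j then ε i else - ε i, c, ?_, ?_, ?_⟩
  · intro i
    rcases hε i with h | h <;> by_cases h0 : 0 ≤ ∑ j, A i j * c j <;> simp [h0, h]
  · intro j
    simp only [hc]
    by_cases hY : j ∈ Y <;> simp [hY]
  · have h3 : ∀ i, ∑ j, (if 0 ≤ ∑ j, A i j * c j then ε i else - ε i) * A i j * c j
        = ε i * (b i : ℤ) := by
      intro i
      rw [← habs i]
      have h4 : ∑ j, (if 0 ≤ ∑ j, A i j * c j then ε i else - ε i) * A i j * c j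
          = (if 0 ≤ ∑ j, A i j * c j then ε i else - ε i) * ∑ j, A i j * c j := by
        rw [Finset.mul_sum]
        apply Finset.sum_congr rfl
        intro j _
        ring
      rw [h4]
      split_ifs with h5
      · rw [abs_of_nonneg h5]
      · rw [abs_of_neg (not_le.mp h5)]
        ring
    rw [Finset.sum_congr rfl (fun i _ => h3 i)]
    simpa using hs

/-- For every n and every n×n matrix of ±1 entries, there are row signs and column signs (each ±1) such that the absolute value of the total sum of the sign-flipped matrix is at most 2. -/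
theorem result :
    ∀ n : ℕ, ∀ A : Fin n → Fin n → ℤ, (∀ i j, A i j = 1 ∨ A i j = -1) →
      ∃ r c : Fin n → ℤ, (∀ i, r i = 1 ∨ r i = -1) ∧ (∀ j, c j = 1 ∨ c j = -1) ∧
        |∑ i, ∑ j, r i * A i j * c j| ≤ 2 := by
  intro n A hA
  rcases Nat.even_or_odd' n with ⟨m, rfl | rfl⟩
  · rcases Nat.eq_zero_or_pos m with rfl | hm
    · exact ⟨fun _ => 1, fun _ => 1, fun _ => Or.inl rfl, fun _ => Or.inl rfl, by simp⟩
    · obtain ⟨Y, hY⟩ := exists_good (by omega) (fun i => univ.filter (fun j => A i j = -1)) (We m)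
        (even_pos m hm)
      apply finish A hA Y
      intro i
      have hcard : ∀ l, (symmDiff Y (univ.filter (fun j => A l j = -1))).card ≤ 2 * m := by
        intro l
        have := Finset.card_le_univ (symmDiff Y (univ.filter (fun j => A l j = -1)))
        simpa using this
      exact cond_even m (fun l => min (symmDiff Y (univ.filter (fun j => A l j = -1))).card
        (2 * m - (symmDiff Y (univ.filter (fun j => A l j = -1))).card))
        (fun l => by have := hcard l; omega) hY i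
  · obtain ⟨Y, hY⟩ := exists_good (by omega) (fun i => univ.filter (fun j => A i j = -1)) (Wo m)
        (odd_pos m)
    apply finish A hA Y
    intro i
    have hcard : ∀ l, (symmDiff Y (univ.filter (fun j => A l j = -1))).card ≤ 2 * m + 1 := by
      intro l
      have := Finset.card_le_univ (symmDiff Y (univ.filter (fun j => A l j = -1)))
      simpa using this
    exact cond_odd m (fun l => min (symmDiff Y (univ.filter (fun j => A l j = -1))).card
      (2 * m + 1 - (symmDiff Y (univ.filter (fun j => A l j = -1))).card))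
      (fun l => by have := hcard l; omega) hY i

end Pool.Agent.S08417
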