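import Pool.Statements.S08473
import Pool.Agent.H234R2.Main

set_option autoImplicit false
open Pool Pool.MP_f6404a_co

namespace Pool.Agent.S08473

/-- There are connected vertex-transitive graphs of degree at most D with vertex counts tending to infinity, and radii d_n, such that the d_n-sphere has at least half the vertices, 99% of it has no neighbour at distance d_n+1, and diameter is at least 1.9 d_n. -/
theorem result :
    ∃ (D : ℕ) (N : ℕ → ℕ) (G : ∀ n, SimpleGraph (Fin (N n))) (d : ℕ → ℕ),
      Filter.Tendsto N Filter.atTop Filter.atTop ∧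
      ∀ n, (G n).Connected ∧
        (∀ u v : Fin (N n), ∃ φ : G n ≃g G n, φ u = v) ∧
        (∀ v : Fin (N n), ((G n).neighborSet v).ncard ≤ D) ∧
        ∃ v₀ : Fin (N n),
          N n ≤ 2 * {v : Fin (N n) | (G n).dist v₀ v = d n}.ncard ∧
          99 * {v : Fin (N n) | (G n).dist v₀ v = d n}.ncard ≤
            100 * {v : Fin (N n) | (G n).dist v₀ v = d n ∧
              ∀ w : Fin (N n), (G n).Adj v w → (G n).dist v₀ w ≠ d n + 1}.ncard ∧
          19 * d n ≤ 10 * (G n).diam := by
  obtain ⟨D, hD⟩ := Pool.Agent.H234R2.exists_good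
  choose V hfin Γ o d hcard hgood using hD
  refine ⟨D, fun n => Nat.card (V n), fun n => (Γ n).map (Finite.equivFin (V n)).toEmbedding, d,
    Filter.tendsto_atTop_mono hcard Filter.tendsto_id, fun n => ?_⟩
  have h := Pool.Agent.H234R2.good_transport
    (SimpleGraph.Iso.map (Finite.equivFin (V n)) (Γ n)) (hgood n)
  obtain ⟨h1, h2, h3, h4, h5, h6⟩ := h
  refine ⟨h1, h2, h3, _, ?_, h5, h6⟩
  rw [Nat.card_fin] at h4
  exact h4

end Pool.Agent.S08473
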