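import Pool.Statements.S08591
import Pool.Agent.H443R2.AB.Final

set_option autoImplicit false
open Pool Pool.MP_fb9763_co

namespace Pool.Agent.S08591

/-- For every prime p there is C such that for all n and any C linear automorphisms T_j of F_p^n, every vector is a sum of T_j(x_j) with each x_j a 0/1 vector, i.e. any C cubes sum to all of F_p^n. -/
theorem result :
    ∀ p : ℕ, p.Prime → ∃ C : ℕ, ∀ n : ℕ,
      ∀ T : Fin C → ((Fin n → ZMod p) ≃ₗ[ZMod p] (Fin n → ZMod p)),
        ∀ y : Fin n → ZMod p,
          ∃ x : Fin C → Fin n → ZMod p,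
            (∀ j i, x j i = 0 ∨ x j i = 1) ∧ ∑ j, T j (x j) = y := by
  classical
  intro p hp
  obtain ⟨C, hC⟩ := Pool.Agent.H443R2.AB.S05273 p hp
  refine ⟨C, fun n T y => ?_⟩
  obtain ⟨S, hS⟩ := hC n (fun j => (Pi.basisFun (ZMod p) (Fin n)).map (T j)) y
  refine ⟨fun j i => if (j, i) ∈ S then 1 else 0, ?_, ?_⟩
  · intro j i
    by_cases h : (j, i) ∈ S
    · right; simp [h]
    · left; simp [h]
  · rw [← hS]
    have h1 : ∀ j : Fin C, T j (fun i => if (j, i) ∈ S then (1 : ZMod p) else 0) =
        ∑ i : Fin n, if (j, i) ∈ S then T j (Pi.single i 1) else 0 := by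
      intro j
      have h2 : (fun i => if (j, i) ∈ S then (1 : ZMod p) else 0) =
          ∑ i : Fin n, (if (j, i) ∈ S then (Pi.single i (1 : ZMod p)) else 0) := by
        ext k
        rw [Finset.sum_apply]
        rw [Finset.sum_eq_single k]
        · by_cases h : (j, k) ∈ S <;> simp [h]
        · intro i _ hik
          by_cases h : (j, i) ∈ S
          · simp [h, Pi.single_apply, Ne.symm hik]
          · simp [h]
        · intro h; exact absurd (Finset.mem_univ k) h
      rw [h2, map_sum]
      refine Finset.sum_congr rfl fun i _ => ?_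
      by_cases h : (j, i) ∈ S <;> simp [h]
    simp only [h1]
    rw [← Finset.sum_product']
    rw [← Finset.sum_filter]
    have h3 : (Finset.univ ×ˢ Finset.univ : Finset (Fin C × Fin n)).filter
        (fun x => (x.1, x.2) ∈ S) = S := by
      ext x; simp
    rw [h3]
    refine Finset.sum_congr rfl fun x _ => ?_
    simp
end Pool.Agent.S08591
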