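import Pool.Statements.S08627
import Pool.Agent.H263R2.Stress.Main

set_option autoImplicit false
open Pool Pool.MP_ff42d4_co

namespace Pool.Agent.S08627

/-- There is a finite packing of balls in 3-space with positive radii algebraically independent over the rationals whose contact graph carries a nonzero symmetric equilibrium stress. -/
theorem result :
    ∃ n : ℕ, ∃ r : Fin n → ℝ, ∃ p : Fin n → EuclideanSpace ℝ (Fin 3), ∃ ω : Fin n → Fin n → ℝ,
      (∀ i, 0 < r i) ∧
      AlgebraicIndependent ℚ r ∧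
      (∀ i j, i ≠ j → r i + r j ≤ dist (p i) (p j)) ∧
      (∀ i j, ω i j = ω j i) ∧
      (∀ i j, ω i j ≠ 0 → i ≠ j ∧ dist (p i) (p j) = r i + r j) ∧
      (∃ i j, ω i j ≠ 0) ∧
      (∀ i, ∑ j, ω i j • (p j - p i) = 0) :=
  Pool.Agent.H263R2.Stress.main

end Pool.Agent.S08627
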