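import Pool.Statements.S08630
-- import your own Pool.Agent.* helpers here

set_option autoImplicit false
open Pool Pool.MP_ffc190_co

namespace Pool.Agent.S08630

/-- The ambient space. -/
abbrev E3 := EuclideanSpace ℝ (Fin 3)

/-- The three clusters: points on three slightly curved, pairwise skew arcs
(a twisted triangular prism). -/
noncomputable def pt (k : Fin 3) (t : ℝ) : E3 :=
  match k with
  | 0 => !₂[1 + t - t ^ 2, 2 * t, 0]
  | 1 => !₂[0, 1 + t - t ^ 2, 2 * t]
  | 2 => !₂[2 * t, 0, 1 + t - t ^ 2]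

/-- Coefficients of the functional which is maximal at `pt k s` and minimal at `pt (k+1) t`. -/
noncomputable def co (k : Fin 3) (s t : ℝ) : Fin 3 → ℝ :=
  match k with
  | 0 => ![4, -2 * (1 - 2 * s), (1 - 2 * s) * (1 - 2 * t)]
  | 1 => ![(1 - 2 * s) * (1 - 2 * t), 4, -2 * (1 - 2 * s)]
  | 2 => ![-2 * (1 - 2 * s), (1 - 2 * s) * (1 - 2 * t), 4]

/-- The functional. -/
noncomputable def fn (k : Fin 3) (s t : ℝ) : E3 →ₗ[ℝ] ℝ :=
  ∑ j : Fin 3, (co k s t j) • (EuclideanSpace.proj j : E3 →L[ℝ] ℝ).toLinearMap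

lemma fn_apply (k : Fin 3) (s t : ℝ) (x : E3) :
    fn k s t x = co k s t 0 * x 0 + co k s t 1 * x 1 + co k s t 2 * x 2 := by
  simp [fn, Fin.sum_univ_three]

lemma fn_self (k : Fin 3) (s t u : ℝ) :
    fn k s t (pt k u) = 4 + 4 * s ^ 2 - 4 * (u - s) ^ 2 := by
  rw [fn_apply]
  fin_cases k <;> simp [pt, co] <;> ring

lemma fn_succ (k : Fin 3) (s t u : ℝ) :
    fn k s t (pt (k + 1) u) = -2 * (1 - 2 * s) * (1 + t ^ 2 - (u - t) ^ 2) := by
  rw [fn_apply]
  fin_cases k <;> simp [pt, co] <;> ring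

lemma fn_succ2 (k : Fin 3) (s t u : ℝ) :
    fn k s t (pt (k + 2) u) = 8 * u + (1 - 2 * s) * (1 - 2 * t) * (1 + u - u ^ 2) := by
  rw [fn_apply]
  fin_cases k <;> simp [pt, co] <;> ring


lemma fn_le {k l : Fin 3} {s t u : ℝ} (hs : 0 ≤ s) (hs' : s ≤ 1 / 16) (ht : 0 ≤ t)
    (ht' : t ≤ 1 / 16) (hu : 0 ≤ u) (hu' : u ≤ 1 / 16) :
    fn k s t (pt l u) ≤ 4 + 4 * s ^ 2 ∧
      (fn k s t (pt l u) = 4 + 4 * s ^ 2 → l = k ∧ u = s) := by
  have hl : l = k ∨ l = k + 1 ∨ l = k + 2 := by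
    revert k l; decide
  rcases hl with rfl | rfl | rfl
  · rw [fn_self]
    refine ⟨by nlinarith [sq_nonneg (u - s)], fun h => ⟨rfl, ?_⟩⟩
    have : (u - s) ^ 2 = 0 := by linarith
    have := pow_eq_zero_iff (two_ne_zero) |>.mp this
    linarith
  · rw [fn_succ]
    have h1 : 0 ≤ (1 - 2 * s) * (1 + t ^ 2 - (u - t) ^ 2) := by
      apply mul_nonneg
      · linarith
      · nlinarith
    refine ⟨by nlinarith, fun h => ?_⟩
    exfalso
    nlinarith
  · rw [fn_succ2]
    have h1 : (1 - 2 * s) * (1 - 2 * t) * (1 + u - u ^ 2) ≤ 1 * 1 * 2 := by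
      apply mul_le_mul
      · apply mul_le_mul <;> nlinarith
      · nlinarith
      · nlinarith
      · norm_num
    refine ⟨by nlinarith, fun h => ?_⟩
    exfalso
    nlinarith

lemma fn_ge {k l : Fin 3} {s t u : ℝ} (hs : 0 ≤ s) (hs' : s ≤ 1 / 16) (_ht : 0 ≤ t)
    (ht' : t ≤ 1 / 16) (hu : 0 ≤ u) (hu' : u ≤ 1 / 16) :
    -2 * (1 - 2 * s) * (1 + t ^ 2) ≤ fn k s t (pt l u) := by
  have hl : l = k ∨ l = k + 1 ∨ l = k + 2 := by
    revert k l; decide
  have h0 : 0 ≤ (1 - 2 * s) * (1 + t ^ 2) := by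
    apply mul_nonneg
    · linarith
    · nlinarith
  rcases hl with rfl | rfl | rfl
  · rw [fn_self]
    nlinarith
  · rw [fn_succ]
    have h1 : 0 ≤ (1 - 2 * s) * (u - t) ^ 2 := by
      apply mul_nonneg
      · linarith
      · positivity
    nlinarith
  · rw [fn_succ2]
    have h1 : 0 ≤ (1 - 2 * s) * (1 - 2 * t) * (1 + u - u ^ 2) := by
      apply mul_nonneg
      · apply mul_nonneg <;> linarith
      · nlinarith
    nlinarith

/-- the parameter values -/
noncomputable def tau (m : ℕ) (i : Fin m) : ℝ := (i : ℕ) / (16 * m)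

lemma tau_nonneg (m : ℕ) (i : Fin m) : 0 ≤ tau m i := by
  unfold tau; positivity

lemma tau_le (m : ℕ) (i : Fin m) : tau m i ≤ 1 / 16 := by
  unfold tau
  have hm : 0 < m := Nat.lt_of_le_of_lt (Nat.zero_le _) i.2
  have hm' : (0 : ℝ) < m := by exact_mod_cast hm
  have hi : ((i : ℕ) : ℝ) ≤ m := by exact_mod_cast i.2.le
  rw [div_le_div_iff₀ (by positivity) (by norm_num)]
  nlinarith

lemma tau_inj (m : ℕ) : Function.Injective (tau m) := by
  intro i j h
  unfold tau at h
  have hm : 0 < m := Nat.lt_of_le_of_lt (Nat.zero_le _) i.2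
  have hm' : (0 : ℝ) < m := by exact_mod_cast hm
  have h2 : ((i : ℕ) : ℝ) = (j : ℕ) := by
    field_simp at h
    linarith
  exact Fin.ext (by exact_mod_cast h2)

/-- the points as a function of the index -/
noncomputable def P (m : ℕ) (p : Fin 3 × Fin m) : E3 := pt p.1 (tau m p.2)

lemma fn_P_le (m : ℕ) (k : Fin 3) (i j : Fin m) (q : Fin 3 × Fin m) :
    fn k (tau m i) (tau m j) (P m q) ≤ fn k (tau m i) (tau m j) (P m (k, i)) ∧
    (fn k (tau m i) (tau m j) (P m q) = fn k (tau m i) (tau m j) (P m (k, i)) → q = (k, i)) := by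
  have h1 := fn_le (k := k) (l := q.1) (tau_nonneg m i) (tau_le m i) (tau_nonneg m j)
    (tau_le m j) (tau_nonneg m q.2) (tau_le m q.2)
  have h2 : fn k (tau m i) (tau m j) (P m (k, i)) = 4 + 4 * (tau m i) ^ 2 := by
    rw [P, fn_self]; ring
  rw [h2]
  refine ⟨h1.1, fun h => ?_⟩
  obtain ⟨ha, hb⟩ := h1.2 h
  exact Prod.ext ha (tau_inj m hb)

lemma fn_P_ge (m : ℕ) (k : Fin 3) (i j : Fin m) (q : Fin 3 × Fin m) :
    fn k (tau m i) (tau m j) (P m (k + 1, j)) ≤ fn k (tau m i) (tau m j) (P m q) := by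
  have h1 := fn_ge (k := k) (l := q.1) (tau_nonneg m i) (tau_le m i) (tau_nonneg m j)
    (tau_le m j) (tau_nonneg m q.2) (tau_le m q.2)
  have h2 : fn k (tau m i) (tau m j) (P m (k + 1, j)) =
      -2 * (1 - 2 * tau m i) * (1 + (tau m j) ^ 2) := by
    rw [P, fn_succ]; ring
  rw [h2]
  exact h1

lemma P_inj (m : ℕ) : Function.Injective (P m) := by
  intro p q h
  have := (fn_P_le m p.1 p.2 p.2 q).2 (by rw [← h])
  exact this.symm

open Classical in
/-- the point set -/
noncomputable def S (m : ℕ) : Finset E3 := Finset.univ.image (P m)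

lemma mem_S {m : ℕ} {x : E3} : x ∈ S m ↔ ∃ p, P m p = x := by
  classical
  simp [S]

lemma card_S (m : ℕ) : (S m).card = 3 * m := by
  classical
  rw [S, Finset.card_image_of_injective _ (P_inj m)]
  simp

/-- An exposed point of a finite set is extreme in the convex hull. -/
lemma extreme_of_exposed {V : Type*} [AddCommGroup V] [Module ℝ V] (T : Set V) (x : V)
    (hx : x ∈ T) (f : V →ₗ[ℝ] ℝ) (h : ∀ z ∈ T, z ≠ x → f z < f x) :
    x ∈ Set.extremePoints ℝ (convexHull ℝ T) := by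
  have hconv : Convex ℝ ({x} ∪ {z | f z < f x} : Set V) := by
    intro a ha b hb α β hα hβ hαβ
    rcases eq_or_lt_of_le hα with h0 | h0
    · subst h0
      have : β = 1 := by linarith
      subst this
      simpa using hb
    rcases eq_or_lt_of_le hβ with h1 | h1
    · subst h1
      have : α = 1 := by linarith
      subst this
      simpa using ha
    by_cases hab : a = x ∧ b = x
    · left
      rw [hab.1, hab.2, ← add_smul, hαβ, one_smul]
      rfl
    · right
      show f (α • a + β • b) < f x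
      rw [map_add, map_smul, map_smul, smul_eq_mul, smul_eq_mul]
      have ha' : f a ≤ f x := by
        rcases ha with ha | ha
        · rw [Set.mem_singleton_iff.mp ha]
        · exact le_of_lt ha
      have hb' : f b ≤ f x := by
        rcases hb with hb | hb
        · rw [Set.mem_singleton_iff.mp hb]
        · exact le_of_lt hb
      have hsum : α * f x + β * f x = f x := by rw [← add_mul, hαβ, one_mul]
      rcases not_and_or.mp hab with hne | hne
      · have : f a < f x := by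
          rcases ha with ha | ha
          · exact absurd (Set.mem_singleton_iff.mp ha) hne
          · exact ha
        have h2 := mul_lt_mul_of_pos_left this h0
        have h3 := mul_le_mul_of_nonneg_left hb' hβ
        linarith
      · have : f b < f x := by
          rcases hb with hb | hb
          · exact absurd (Set.mem_singleton_iff.mp hb) hne
          · exact hb
        have h2 := mul_lt_mul_of_pos_left this h1
        have h3 := mul_le_mul_of_nonneg_left ha' hα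
        linarith
  have hsub : convexHull ℝ T ⊆ ({x} ∪ {z | f z < f x} : Set V) := by
    apply convexHull_min _ hconv
    intro z hz
    by_cases hzx : z = x
    · left; exact hzx
    · right; exact h z hz hzx
  rw [mem_extremePoints]
  refine ⟨subset_convexHull ℝ T hx, ?_⟩
  intro a ha b hb hseg
  obtain ⟨α, β, hα, hβ, hαβ, hx'⟩ := hseg
  have ha' := hsub ha
  have hb' := hsub hb
  have hfx : α * f a + β * f b = f x := by
    rw [← hx', map_add, map_smul, map_smul, smul_eq_mul, smul_eq_mul]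
  have ha2 : f a ≤ f x := by
    rcases ha' with ha | ha
    · rw [Set.mem_singleton_iff.mp ha]
    · exact le_of_lt ha
  have hb2 : f b ≤ f x := by
    rcases hb' with hb | hb
    · rw [Set.mem_singleton_iff.mp hb]
    · exact le_of_lt hb
  have hsum : α * f x + β * f x = f x := by rw [← add_mul, hαβ, one_mul]
  constructor
  · rcases ha' with ha | ha
    · exact ha
    · exfalso
      have : f a < f x := ha
      have h2 := mul_lt_mul_of_pos_left this hα
      have h3 := mul_le_mul_of_nonneg_left hb2 hβ.le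
      linarith
  · rcases hb' with hb | hb
    · exact hb
    · exfalso
      have : f b < f x := hb
      have h2 := mul_lt_mul_of_pos_left this hβ
      have h3 := mul_le_mul_of_nonneg_left ha2 hα.le
      linarith

lemma extreme_S (m : ℕ) : ∀ x ∈ S m, x ∈ Set.extremePoints ℝ (convexHull ℝ (S m : Set E3)) := by
  intro x hx
  obtain ⟨⟨k, i⟩, rfl⟩ := mem_S.mp hx
  apply extreme_of_exposed _ _ (by exact_mod_cast hx) (fn k (tau m i) (tau m i))
  intro z hz hne
  obtain ⟨q, rfl⟩ := mem_S.mp (by exact_mod_cast hz : z ∈ S m)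
  have h := fn_P_le m k i i q
  refine lt_of_le_of_ne h.1 (fun h' => hne ?_)
  rw [h.2 h']

lemma span_S (m : ℕ) (hm : 2 ≤ m) : affineSpan ℝ (S m : Set E3) = ⊤ := by
  have h0 : 0 < m := by omega
  have h1 : 1 < m := by omega
  have hP : ∀ p, P m p ∈ (S m : Set E3) := fun p => by
    have : P m p ∈ S m := mem_S.mpr ⟨p, rfl⟩
    exact_mod_cast this
  rw [AffineSubspace.affineSpan_eq_top_iff_vectorSpan_eq_top_of_nonempty ℝ E3 E3 ⟨_, hP (0, ⟨0, h0⟩)⟩]
  set W := vectorSpan ℝ (S m : Set E3) with hW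
  have hd : ∀ p q, P m p - P m q ∈ W := fun p q => by
    have := vsub_mem_vectorSpan ℝ (hP p) (hP q)
    simpa using this
  set τ : ℝ := tau m ⟨1, h1⟩ with hτ
  have hτpos : 0 < τ := by
    rw [hτ, tau]
    have : (0 : ℝ) < m := by exact_mod_cast h0
    positivity
  have hτle : τ ≤ 1 / 16 := tau_le m _
  have ht0 : tau m ⟨0, h0⟩ = 0 := by simp [tau]
  have e0 : P m (0, ⟨0, h0⟩) = !₂[1, 0, 0] := by simp [P, ht0, pt]
  have e1 : P m (1, ⟨0, h0⟩) = !₂[0, 1, 0] := by simp [P, ht0, pt]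
  have e2 : P m (2, ⟨0, h0⟩) = !₂[0, 0, 1] := by simp [P, ht0, pt]
  have e3 : P m (0, ⟨1, h1⟩) = !₂[1 + τ - τ ^ 2, 2 * τ, 0] := by simp [P, pt, hτ]
  have d1 := hd (1, ⟨0, h0⟩) (0, ⟨0, h0⟩)
  have d2 := hd (2, ⟨0, h0⟩) (0, ⟨0, h0⟩)
  have d3 := hd (0, ⟨1, h1⟩) (0, ⟨0, h0⟩)
  rw [e0, e1] at d1
  rw [e0, e2] at d2
  rw [e0, e3] at d3
  have hne : (3 * τ - τ ^ 2) ≠ 0 := by nlinarith
  have f0 : (!₂[1, 0, 0] : E3) ∈ W := by
    have h : (3 * τ - τ ^ 2) • (!₂[1, 0, 0] : E3) =
        ((!₂[1 + τ - τ ^ 2, 2 * τ, 0] - !₂[1, 0, 0]) - (2 * τ) • (!₂[0, 1, 0] - !₂[1, 0, 0])) := by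
      ext j
      fin_cases j <;> simp
      ring
    rw [← W.smul_mem_iff hne, h]
    exact (W.sub_mem d3 (W.smul_mem _ d1))
  have f1 : (!₂[0, 1, 0] : E3) ∈ W := by
    have := W.add_mem d1 f0
    simpa using this
  have f2 : (!₂[0, 0, 1] : E3) ∈ W := by
    have := W.add_mem d2 f0
    simpa using this
  rw [eq_top_iff]
  intro x _
  have : x = x 0 • !₂[1, 0, 0] + x 1 • !₂[0, 1, 0] + x 2 • !₂[0, 0, 1] := by
    ext j
    fin_cases j <;> simp
  rw [this]
  exact W.add_mem (W.add_mem (W.smul_mem _ f0) (W.smul_mem _ f1)) (W.smul_mem _ f2)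

/-- ordered antipodal pairs -/
def AP (T : Finset E3) : Set (E3 × E3) :=
  {p : E3 × E3 | p.1 ∈ T ∧ p.2 ∈ T ∧ p.1 ≠ p.2 ∧
    ∃ f : E3 →ₗ[ℝ] ℝ, f p.2 < f p.1 ∧ ∀ z ∈ T, f p.2 ≤ f z ∧ f z ≤ f p.1}

lemma AP_sub (T : Finset E3) : AP T ⊆ ((T ×ˢ T : Finset (E3 × E3)) : Set (E3 × E3)) := by
  rintro ⟨x, y⟩ ⟨hx, hy, -⟩
  simp only [Finset.coe_product, Set.mem_prod, Finset.mem_coe]
  exact ⟨hx, hy⟩

lemma AP_fin (T : Finset E3) : (AP T).Finite := (Finset.finite_toSet _).subset (AP_sub T)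

lemma AP_card_le (T : Finset E3) : (AP T).ncard ≤ T.card ^ 2 := by
  have := Set.ncard_le_ncard (AP_sub T) (Finset.finite_toSet _)
  rw [Set.ncard_coe_finset, Finset.card_product] at this
  nlinarith

/-- injection of the index set into ordered antipodal pairs -/
noncomputable def Phi (m : ℕ) (q : Fin 3 × Bool × Fin m × Fin m) : E3 × E3 :=
  if q.2.1 then (P m (q.1, q.2.2.1), P m (q.1 + 1, q.2.2.2))
  else (P m (q.1 + 1, q.2.2.2), P m (q.1, q.2.2.1))

lemma Phi_inj (m : ℕ) : Function.Injective (Phi m) := by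
  rintro ⟨k, b, i, j⟩ ⟨k', b', i', j'⟩ h
  cases b <;> cases b' <;> simp only [Phi, Bool.false_eq_true, if_true, if_false, Prod.mk.injEq,
    (P_inj m).eq_iff] at h ⊢
  · obtain ⟨⟨h1, h2⟩, h3, h4⟩ := h
    exact ⟨h3, trivial, h4, h2⟩
  · obtain ⟨⟨h1, h2⟩, h3, h4⟩ := h
    exfalso
    revert h1 h3
    revert k k'
    decide
  · obtain ⟨⟨h1, h2⟩, h3, h4⟩ := h
    exfalso
    revert h1 h3
    revert k k'
    decide
  · obtain ⟨⟨h1, h2⟩, h3, h4⟩ := h
    exact ⟨h1, trivial, h2, h4⟩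

lemma Phi_mem (m : ℕ) (q : Fin 3 × Bool × Fin m × Fin m) : Phi m q ∈ AP (S m) := by
  obtain ⟨k, b, i, j⟩ := q
  have hne : P m (k, i) ≠ P m (k + 1, j) := by
    intro h
    have h2 : k = k + 1 := congrArg Prod.fst (P_inj m h)
    clear h
    revert h2
    revert k
    decide
  have hlt : fn k (tau m i) (tau m j) (P m (k + 1, j)) < fn k (tau m i) (tau m j) (P m (k, i)) := by
    refine lt_of_le_of_ne (fn_P_le m k i j _).1 (fun h => hne ?_)
    rw [(fn_P_le m k i j _).2 h]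
  cases b
  · refine ⟨mem_S.mpr ⟨_, rfl⟩, mem_S.mpr ⟨_, rfl⟩, ?_, -fn k (tau m i) (tau m j), ?_, ?_⟩
    · simpa [Phi] using hne.symm
    · simpa [Phi] using hlt
    · intro z hz
      obtain ⟨q, rfl⟩ := mem_S.mp hz
      have h1 := (fn_P_le m k i j q).1
      have h2 := fn_P_ge m k i j q
      simpa [Phi] using ⟨h1, h2⟩
  · refine ⟨mem_S.mpr ⟨_, rfl⟩, mem_S.mpr ⟨_, rfl⟩, ?_, fn k (tau m i) (tau m j), ?_, ?_⟩
    · simpa [Phi] using hne
    · simpa [Phi] using hlt
    · intro z hz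
      obtain ⟨q, rfl⟩ := mem_S.mp hz
      have h1 := (fn_P_le m k i j q).1
      have h2 := fn_P_ge m k i j q
      simpa [Phi] using ⟨h2, h1⟩

lemma AP_card_ge (m : ℕ) : 6 * m ^ 2 ≤ (AP (S m)).ncard := by
  have h1 : (Set.range (Phi m)) ⊆ AP (S m) := by
    rintro _ ⟨q, rfl⟩
    exact Phi_mem m q
  have h2 := Set.ncard_le_ncard h1 (AP_fin _)
  have h3 : (Set.range (Phi m)).ncard = 6 * m ^ 2 := by
    rw [← Set.image_univ, Set.ncard_image_of_injective _ (Phi_inj m), Set.ncard_univ,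
      Nat.card_eq_fintype_card]
    simp only [Fintype.card_prod, Fintype.card_fin, Fintype.card_bool]
    ring
  omega

/-- the set whose supremum is taken -/
def VS (n : ℕ) : Set ℕ := {m : ℕ | ∃ S : Finset (EuclideanSpace ℝ (Fin 3)),
              S.card = n ∧
              affineSpan ℝ (S : Set (EuclideanSpace ℝ (Fin 3))) = ⊤ ∧
              (∀ x ∈ S, x ∈ Set.extremePoints ℝ
                (convexHull ℝ (S : Set (EuclideanSpace ℝ (Fin 3))))) ∧
              m = (AP S).ncard}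

lemma sSup_VS (m : ℕ) (hm : 2 ≤ m) : 6 * m ^ 2 ≤ sSup (VS (3 * m)) := by
  refine (AP_card_ge m).trans (le_csSup ⟨(3 * m) ^ 2, ?_⟩ ?_)
  · rintro k ⟨T, hT, -, -, rfl⟩
    rw [← hT]
    exact AP_card_le T
  · exact ⟨S m, card_S m, span_S m hm, extreme_S m, rfl⟩

lemma key (h : Filter.Tendsto (fun n : ℕ => ((sSup (VS n) : ℕ) : ℝ) / 2 / (n : ℝ) ^ 2)
    Filter.atTop (nhds ((1 : ℝ) / 2 - 1 / 2 ^ (3 - 1)))) : False := by
  have h3 : Filter.Tendsto (fun m : ℕ => 3 * m) Filter.atTop Filter.atTop :=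
    Filter.tendsto_id.const_mul_atTop' (by norm_num)
  have h4 := h.comp h3
  have h5 : (1 : ℝ) / 3 ≤ (1 : ℝ) / 2 - 1 / 2 ^ (3 - 1) := by
    refine ge_of_tendsto h4 ?_
    filter_upwards [Filter.eventually_ge_atTop 2] with m hm
    have h6 := sSup_VS m hm
    have h7 : (6 : ℝ) * m ^ 2 ≤ ((sSup (VS (3 * m)) : ℕ) : ℝ) := by exact_mod_cast h6
    have hm' : (0 : ℝ) < m := by
      have : 0 < m := by omega
      exact_mod_cast this
    simp only [Function.comp_apply]
    push_cast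
    rw [div_div, div_le_div_iff₀ (by norm_num) (by positivity)]
    nlinarith
  norm_num at h5

end Pool.Agent.S08630

namespace Pool.Agent.S08630

/-- The negation of the preceding statement: For every d ≥ 2, let e(d,n) be the max number of antipodal vertex pairs of a d-polytope with n vertices (vertices on distinct parallel supporting hyperplanes); then e(d,n)/n² tends to 1/2 − 1/2^(d−1). -/
theorem result :
    ¬ (∀ d : ℕ, 2 ≤ d →
      Filter.Tendsto
        (fun n : ℕ =>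
          ((sSup {m : ℕ | ∃ S : Finset (EuclideanSpace ℝ (Fin d)),
              S.card = n ∧
              affineSpan ℝ (S : Set (EuclideanSpace ℝ (Fin d))) = ⊤ ∧
              (∀ x ∈ S, x ∈ Set.extremePoints ℝ
                (convexHull ℝ (S : Set (EuclideanSpace ℝ (Fin d))))) ∧
              m = {p : EuclideanSpace ℝ (Fin d) × EuclideanSpace ℝ (Fin d) |
                    p.1 ∈ S ∧ p.2 ∈ S ∧ p.1 ≠ p.2 ∧
                    ∃ f : EuclideanSpace ℝ (Fin d) →ₗ[ℝ] ℝ,
                      f p.2 < f p.1 ∧ ∀ z ∈ S, f p.2 ≤ f z ∧ f z ≤ f p.1}.ncard}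
            : ℕ) : ℝ) / 2 / (n : ℝ) ^ 2)
        Filter.atTop
        (nhds ((1 : ℝ) / 2 - 1 / 2 ^ (d - 1)))) := by
  intro h
  exact key (h 3 (by norm_num))

end Pool.Agent.S08630
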