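import Pool.Statements.S08666
-- import your own Pool.Agent.* helpers here
import Pool.Agent.H823R2.NotMain

set_option autoImplicit false
open Pool Pool.MP_07c156_gt

namespace Pool.Agent.S08666

/-- The negation of the preceding statement: For every d ≥ 3 and triangulable closed connected d-manifolds M, N, every connected sum P satisfies γ(P) + γ(S^d) = γ(M) + γ(N), where γ(X) is the least value of f1 − (d+1)f0 over finite triangulations of X. -/
theorem result :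
    ¬ (∀ d : ℕ, 3 ≤ d →
  ∀ (M N P : Type) [TopologicalSpace M] [TopologicalSpace N] [TopologicalSpace P]
    [ChartedSpace (EuclideanSpace ℝ (Fin d)) M] [ChartedSpace (EuclideanSpace ℝ (Fin d)) N]
    [T2Space M] [T2Space N] [CompactSpace M] [CompactSpace N]
    [ConnectedSpace M] [ConnectedSpace N],
  {z : ℤ | ∃ n : ℕ, ∃ K : Geometry.SimplicialComplex ℝ (EuclideanSpace ℝ (Fin n)),
      K.faces.Finite ∧ Nonempty (K.space ≃ₜ M) ∧
      z = ((Set.ncard {s ∈ K.faces | s.card = 2} : ℕ) : ℤ)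
        - ((d : ℤ) + 1) * ((Set.ncard {s ∈ K.faces | s.card = 1} : ℕ) : ℤ)}.Nonempty →
  {z : ℤ | ∃ n : ℕ, ∃ K : Geometry.SimplicialComplex ℝ (EuclideanSpace ℝ (Fin n)),
      K.faces.Finite ∧ Nonempty (K.space ≃ₜ N) ∧
      z = ((Set.ncard {s ∈ K.faces | s.card = 2} : ℕ) : ℤ)
        - ((d : ℤ) + 1) * ((Set.ncard {s ∈ K.faces | s.card = 1} : ℕ) : ℤ)}.Nonempty →
  (∃ a : EuclideanSpace ℝ (Fin d) → M, ∃ b : EuclideanSpace ℝ (Fin d) → N,
    ∃ u : ({a 0}ᶜ : Set M) → P, ∃ v : ({b 0}ᶜ : Set N) → P,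
      Topology.IsOpenEmbedding a ∧ Topology.IsOpenEmbedding b ∧
      Topology.IsOpenEmbedding u ∧ Topology.IsOpenEmbedding v ∧
      Set.range u ∪ Set.range v = Set.univ ∧
      ∀ (p : ({a 0}ᶜ : Set M)) (q : ({b 0}ᶜ : Set N)),
        (u p = v q ↔ ∃ x : EuclideanSpace ℝ (Fin d), x ≠ 0 ∧ (p : M) = a x ∧
          (q : N) = b ((‖x‖ ^ 2)⁻¹ • x))) →
  sInf {z : ℤ | ∃ n : ℕ, ∃ K : Geometry.SimplicialComplex ℝ (EuclideanSpace ℝ (Fin n)),
      K.faces.Finite ∧ Nonempty (K.space ≃ₜ P) ∧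
      z = ((Set.ncard {s ∈ K.faces | s.card = 2} : ℕ) : ℤ)
        - ((d : ℤ) + 1) * ((Set.ncard {s ∈ K.faces | s.card = 1} : ℕ) : ℤ)}
  + sInf {z : ℤ | ∃ n : ℕ, ∃ K : Geometry.SimplicialComplex ℝ (EuclideanSpace ℝ (Fin n)),
      K.faces.Finite ∧
      Nonempty (K.space ≃ₜ (Metric.sphere (0 : EuclideanSpace ℝ (Fin (d + 1))) 1)) ∧
      z = ((Set.ncard {s ∈ K.faces | s.card = 2} : ℕ) : ℤ)
        - ((d : ℤ) + 1) * ((Set.ncard {s ∈ K.faces | s.card = 1} : ℕ) : ℤ)}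
  = sInf {z : ℤ | ∃ n : ℕ, ∃ K : Geometry.SimplicialComplex ℝ (EuclideanSpace ℝ (Fin n)),
      K.faces.Finite ∧ Nonempty (K.space ≃ₜ M) ∧
      z = ((Set.ncard {s ∈ K.faces | s.card = 2} : ℕ) : ℤ)
        - ((d : ℤ) + 1) * ((Set.ncard {s ∈ K.faces | s.card = 1} : ℕ) : ℤ)}
  + sInf {z : ℤ | ∃ n : ℕ, ∃ K : Geometry.SimplicialComplex ℝ (EuclideanSpace ℝ (Fin n)),
      K.faces.Finite ∧ Nonempty (K.space ≃ₜ N) ∧
      z = ((Set.ncard {s ∈ K.faces | s.card = 2} : ℕ) : ℤ)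
        - ((d : ℤ) + 1) * ((Set.ncard {s ∈ K.faces | s.card = 1} : ℕ) : ℤ)}) := by
  intro h
  obtain ⟨M, N, P, tM, tN, tP, hM, hN, hP, -, -, -, hsum, gM, gN, gP, gS, hgM, hgN, hgP, hgS,
    hne⟩ := Pool.Agent.Results.MP_07c156_gt.NotAdditive.result
  let _ := tM
  let _ := tN
  let _ := tP
  let _ := Pool.Agent.H823R2.chartsOf hM
  let _ := Pool.Agent.H823R2.chartsOf hN
  have := hM.compact
  have := hM.hausdorff
  have := hM.connected
  have := hN.compact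
  have := hN.hausdorff
  have := hN.connected
  have h1 := h 4 (by norm_num) M N P (Pool.Agent.H823R2.gamma_sInf hgM).1
    (Pool.Agent.H823R2.gamma_sInf hgN).1 (Pool.Agent.H823R2.sum_to_conn hsum)
  rw [(Pool.Agent.H823R2.gamma_sInf hgM).2, (Pool.Agent.H823R2.gamma_sInf hgN).2,
    (Pool.Agent.H823R2.gamma_sInf hgP).2] at h1
  have h2 := (Pool.Agent.H823R2.gamma_sInf hgS).2
  apply hne
  have h3 : gP + gS = gM + gN := by
    rw [← h1, ← h2]
  linarith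

end Pool.Agent.S08666
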