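import Pool.Statements.S08677
import Pool.Agent.H604R2.SW.Final

set_option autoImplicit false
open Pool Pool.MP_09e61a_gt

namespace Pool.Agent.S08677

/-- For d ≥ 4, any simplex with vertices in the closed unit ball of ℝ^d has its support function's integral over the unit ball, which is proportional to mean width, at most that of the inscribed regular simplex. -/
theorem result :
    ∀ d : ℕ, 4 ≤ d →
      ∀ v w : Fin (d + 1) → EuclideanSpace ℝ (Fin d),
        AffineIndependent ℝ v →
        (∀ i, ‖v i‖ ≤ 1) →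
        (∀ i, ‖w i‖ = 1) →
        (∀ i j, i ≠ j → inner ℝ (w i) (w j) = -1 / (d : ℝ)) →
        (∫ x in Metric.ball (0 : EuclideanSpace ℝ (Fin d)) 1, ⨆ i, inner ℝ (v i) x)
          ≤ ∫ x in Metric.ball (0 : EuclideanSpace ℝ (Fin d)) 1, ⨆ i, inner ℝ (w i) x := by
  intro d hd v w hv h1 h2 h3
  exact Pool.Agent.H604R2.SW.f_08677 d hd v w hv h1 h2 h3

end Pool.Agent.S08677
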