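import Pool.Statements.S08789
import Pool.Agent.H10R2.SideChord7

set_option autoImplicit false
open Pool Pool.MP_223099_gt

namespace Pool.Agent.S08789

open Pool.Agent.H10R2.SideChord in
/-- the supremum defining the longest chord is attained -/
lemma chord_of_b {m : ℕ} (hm : 2 ≤ m) (v : Fin (m + 1) → ℝ × ℝ) (H : SC v)
    (b : Fin (m + 1) → ℝ)
    (hb : ∀ i : Fin (m + 1), b i = sSup {r : ℝ | ∃ x ∈ convexHull ℝ (Set.range v),
            ∃ y ∈ convexHull ℝ (Set.range v), ∃ c : ℝ,
              y - x = c • (v (i + 1) - v i) ∧ r = dist x y}) :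
    Chord v (fun i => dist (v i) (v (i + 1)) / b i) := by
  intro i
  have hE : E v i ≠ 0 := E_ne hm H i
  have hEn : 0 < ‖E v i‖ := norm_pos_iff.2 hE
  have hcompK : IsCompact (convexHull ℝ (Set.range v)) := (Set.finite_range v).isCompact_convexHull ℝ
  have hclosed : IsClosed {z : (ℝ × ℝ) × (ℝ × ℝ) | cr (E v i) (z.2 - z.1) = 0} := by
    apply isClosed_eq _ continuous_const
    unfold cr
    fun_prop
  have hcomp : IsCompact (((convexHull ℝ (Set.range v)) ×ˢ (convexHull ℝ (Set.range v))) ∩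
      {z : (ℝ × ℝ) × (ℝ × ℝ) | cr (E v i) (z.2 - z.1) = 0}) :=
    (hcompK.prod hcompK).inter_right hclosed
  have hvi : ∀ j, v j ∈ convexHull ℝ (Set.range v) := fun j =>
    subset_convexHull ℝ _ (Set.mem_range_self j)
  have hne : (((convexHull ℝ (Set.range v)) ×ˢ (convexHull ℝ (Set.range v))) ∩
      {z : (ℝ × ℝ) × (ℝ × ℝ) | cr (E v i) (z.2 - z.1) = 0}).Nonempty := by
    refine ⟨(v i, v (i + 1)), ⟨hvi _, hvi _⟩, ?_⟩
    change cr (E v i) (E v i) = 0
    exact cr_self _
  obtain ⟨⟨x, y⟩, ⟨⟨hx, hy⟩, hxy⟩, hmax⟩ := hcomp.exists_isMaxOn hne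
    (f := fun z => dist z.1 z.2) (by fun_prop)
  have hpar : ∀ w : ℝ × ℝ, cr (E v i) w = 0 → ∃ c : ℝ, w = c • E v i := by
    intro w hw
    have hn : (E v i).1 ^ 2 + (E v i).2 ^ 2 ≠ 0 := by
      intro h0
      apply hE
      ext
      · have : (E v i).1 ^ 2 = 0 := by nlinarith [sq_nonneg (E v i).1, sq_nonneg (E v i).2]
        simpa using this
      · have : (E v i).2 ^ 2 = 0 := by nlinarith [sq_nonneg (E v i).1, sq_nonneg (E v i).2]
        simpa using this
    refine ⟨(w.1 * (E v i).1 + w.2 * (E v i).2) / ((E v i).1 ^ 2 + (E v i).2 ^ 2), ?_⟩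
    unfold cr at hw
    ext
    · simp only [Prod.smul_fst, smul_eq_mul]
      field_simp
      linear_combination -(E v i).2 * hw
    · simp only [Prod.smul_snd, smul_eq_mul]
      field_simp
      linear_combination (E v i).1 * hw
  obtain ⟨c, hc⟩ := hpar (y - x) hxy
  have hdxy : dist x y = |c| * ‖E v i‖ := by
    rw [dist_comm, dist_eq_norm, hc, norm_smul, Real.norm_eq_abs]
  have hdi : dist (v i) (v (i + 1)) = ‖E v i‖ := by
    rw [dist_comm, dist_eq_norm]; rfl
  have hgr : IsGreatest {r : ℝ | ∃ x ∈ convexHull ℝ (Set.range v),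
            ∃ y ∈ convexHull ℝ (Set.range v), ∃ c : ℝ,
              y - x = c • (v (i + 1) - v i) ∧ r = dist x y} (dist x y) := by
    refine ⟨⟨x, hx, y, hy, c, hc, rfl⟩, ?_⟩
    rintro r ⟨x', hx', y', hy', c', hc', rfl⟩
    have hmem : ((x', y') : (ℝ × ℝ) × (ℝ × ℝ)) ∈
        (((convexHull ℝ (Set.range v)) ×ˢ (convexHull ℝ (Set.range v))) ∩
      {z : (ℝ × ℝ) × (ℝ × ℝ) | cr (E v i) (z.2 - z.1) = 0}) := by
      refine ⟨⟨hx', hy'⟩, ?_⟩
      change cr (E v i) (y' - x') = 0
      rw [hc', cr_smul]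
      change c' * cr (E v i) (E v i) = 0
      rw [cr_self, mul_zero]
    exact hmax hmem
  have hbi : b i = dist x y := by rw [hb i]; exact hgr.csSup_eq
  have hge : ‖E v i‖ ≤ dist x y := by
    rw [← hdi]
    exact hgr.2 ⟨v i, hvi _, v (i + 1), hvi _, 1, by rw [one_smul], rfl⟩
  have hcpos : 0 < |c| := by
    by_contra hcon
    have h0 : |c| = 0 := le_antisymm (not_lt.1 hcon) (abs_nonneg _)
    rw [hdxy, h0, zero_mul] at hge
    linarith
  have hN : dist (v i) (v (i + 1)) / b i = |c|⁻¹ := by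
    rw [hbi, hdi, hdxy]
    field_simp
  refine ⟨?_, x, hx, y, hy, c, hc, ?_⟩
  · change 0 < dist (v i) (v (i + 1)) / b i
    rw [hN]; exact inv_pos.2 hcpos
  · change |c| * (dist (v i) (v (i + 1)) / b i) = 1
    rw [hN, mul_inv_cancel₀ hcpos.ne']

/-- For every convex n-gon, the sum over sides of side length divided by the longest chord parallel to that side is at least 3. Equality holds only when the polygon is a triangle with its three corners cut off at the same ratio t in [0,1/2], by lines parallel to the opposite sides. -/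
theorem result :
    ∀ n : ℕ, 3 ≤ n → ∀ v : Fin n → ℝ × ℝ,
      (∀ i j : Fin n, j ≠ i → j ≠ finRotate n i →
        0 < ((v (finRotate n i)).1 - (v i).1) * ((v j).2 - (v i).2)
            - ((v (finRotate n i)).2 - (v i).2) * ((v j).1 - (v i).1)) →
      ∀ b : Fin n → ℝ,
        (∀ i : Fin n, b i = sSup {r : ℝ | ∃ x ∈ convexHull ℝ (Set.range v),
            ∃ y ∈ convexHull ℝ (Set.range v), ∃ c : ℝ,
              y - x = c • (v (finRotate n i) - v i) ∧ r = dist x y}) →
        3 ≤ ∑ i : Fin n, dist (v i) (v (finRotate n i)) / b i ∧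
        (∑ i : Fin n, dist (v i) (v (finRotate n i)) / b i = 3 →
          ∃ A B C : ℝ × ℝ, AffineIndependent ℝ ![A, B, C] ∧
            ∃ t : ℝ, 0 ≤ t ∧ t ≤ 1 / 2 ∧
              convexHull ℝ (Set.range v) =
                convexHull ℝ ({A + t • (B - A), A + t • (C - A),
                  B + t • (A - B), B + t • (C - B),
                  C + t • (A - C), C + t • (B - C)} : Set (ℝ × ℝ))) := by
  intro n hn v hv b hb
  obtain ⟨m, rfl⟩ : ∃ m, n = m + 1 := ⟨n - 1, by omega⟩
  have hm : 2 ≤ m := by omega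
  simp only [finRotate_succ_apply] at hv hb ⊢
  have H : Pool.Agent.H10R2.SideChord.SC v := hv
  have hC := chord_of_b hm v H b hb
  refine ⟨?_, fun hS => Pool.Agent.H10R2.SideChord.shape hm H hC hS⟩
  obtain ⟨f, hf⟩ := (Pool.Agent.H10R2.SideChord.infinite_unit hm H).nonempty
  obtain ⟨g, hg, hfg⟩ := Pool.Agent.H10R2.SideChord.exists_partner hm H hf
  exact Pool.Agent.H10R2.SideChord.sum_N_ge hC ⟨hf, hg, hfg⟩

end Pool.Agent.S08789
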