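import Pool.Statements.S08844
import Pool.Agent.H884R2.Cox3

set_option autoImplicit false
open Matrix
open Pool Pool.MP_2ee781_gt

namespace Pool.Agent.S08844

/-- The negation of the preceding statement: Take a finitely generated Coxeter group acting faithfully and discretely, with determinants ±1, on a properly convex cone with finite Hilbert covolume. Then each generator acts as a linear reflection in a facet of a polyhedral cone whose translates have disjoint interiors (Vinberg's projective refle -/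
theorem result :
    ¬ (∀ (n : ℕ) (B : Type) [Finite B] (M : CoxeterMatrix B) (W : Type) [Group W]
    (cs : CoxeterSystem M W)
    (ρ : W →* Matrix.GeneralLinearGroup (Fin n) ℝ) (C : Set (Fin n → ℝ)),
    Function.Injective ρ →
    (∀ w : W, (ρ w : Matrix (Fin n) (Fin n) ℝ).det = 1 ∨
      (ρ w : Matrix (Fin n) (Fin n) ℝ).det = -1) →
    IsOpen C → Convex ℝ C → C.Nonempty →
    (∀ x ∈ C, ∀ t : ℝ, 0 < t → t • x ∈ C) →
    (∀ x : Fin n → ℝ, x ∈ closure C → -x ∈ closure C → x = 0) →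
    (∀ (w : W) (x : Fin n → ℝ), x ∈ C ↔ (ρ w : Matrix (Fin n) (Fin n) ℝ) *ᵥ x ∈ C) →
    (∀ w : W, ∃ U : Set (Matrix (Fin n) (Fin n) ℝ), IsOpen U ∧
      (ρ w : Matrix (Fin n) (Fin n) ℝ) ∈ U ∧
      ∀ w' : W, (ρ w' : Matrix (Fin n) (Fin n) ℝ) ∈ U → w' = w) →
    (∃ F : Set (Fin n → ℝ), F ⊆ C ∧
      C ⊆ ⋃ w : W, (fun x => (ρ w : Matrix (Fin n) (Fin n) ℝ) *ᵥ x) '' F ∧
      (⨆ (r : ENNReal) (_ : 0 < r),
        ⨅ (U : ℕ → Set (Fin n → ℝ)) (_ : F ⊆ ⋃ i, U i) (_ : ∀ i, U i ⊆ C)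
          (_ : ∀ i, (⨆ x ∈ U i, ⨆ y ∈ U i, ENNReal.ofReal ((1 / 2 : ℝ) *
              Real.log (sInf {t : ℝ | t • y - x ∈ closure C} *
                sInf {t : ℝ | t • x - y ∈ closure C}))) ≤ r),
          ∑' i, ⨆ (_ : (U i).Nonempty),
            (⨆ x ∈ U i, ⨆ y ∈ U i, ENNReal.ofReal ((1 / 2 : ℝ) *
              Real.log (sInf {t : ℝ | t • y - x ∈ closure C} *
                sInf {t : ℝ | t • x - y ∈ closure C}))) ^ (n - 1)) < ⊤) →
    ∃ α v : B → Fin n → ℝ,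
      (∀ s : B, α s ⬝ᵥ v s = 2 ∧
        (ρ (cs.simple s) : Matrix (Fin n) (Fin n) ℝ) = 1 - Matrix.vecMulVec (v s) (α s)) ∧
      (∃ x : Fin n → ℝ, ∀ s : B, α s ⬝ᵥ x < 0) ∧
      (∀ s : B, ∃ x : Fin n → ℝ, α s ⬝ᵥ x = 0 ∧ ∀ s' : B, s' ≠ s → α s' ⬝ᵥ x < 0) ∧
      (∀ w : W, w ≠ 1 → ∀ x : Fin n → ℝ, (∀ s : B, α s ⬝ᵥ x < 0) →
        ¬ (∀ s : B, α s ⬝ᵥ ((ρ w : Matrix (Fin n) (Fin n) ℝ) *ᵥ x) < 0))) := by
  intro H
  obtain ⟨α, v, h1, -⟩ := H 3 (Fin 3) Pool.Agent.H884R2.Cox.M Pool.Agent.H884R2.Cox.W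
    Pool.Agent.H884R2.Cox.cs Pool.Agent.H884R2.Cox.rho Pool.Agent.H884R2.Cox.C
    Pool.Agent.H884R2.Cox.rho_inj (fun w => Or.inl (Pool.Agent.H884R2.Cox.rho_det w))
    Pool.Agent.H884R2.Cox.isOpen_C Pool.Agent.H884R2.Cox.convex_C
    Pool.Agent.H884R2.Cox.nonempty_C
    (fun x hx t ht => Pool.Agent.H884R2.Cox.smul_mem hx ht)
    Pool.Agent.H884R2.Cox.pointed Pool.Agent.H884R2.Cox.C_iff
    Pool.Agent.H884R2.Cox.discrete Pool.Agent.H884R2.Cox.finite_covolume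
  exact Pool.Agent.H884R2.Cox.not_reflection (α 0) (v 0) (h1 0).1 (h1 0).2

end Pool.Agent.S08844
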