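import Pool.Statements.S08857
import Pool.Agent.H893R2.GO5

set_option autoImplicit false
open Pool Pool.MP_31078b_gt

namespace Pool.Agent.S08857

/-- Every generalized ordered space (open rays are open, base of open convex sets) in which every subspace is a Nagami Σ-space (σ-locally finite closed network modulo a cover by closed countably compact sets) is metrizable. -/
theorem result :
  ∀ (X : Type) [LinearOrder X] [TopologicalSpace X],
    (∀ a : X, IsOpen (Set.Ioi a) ∧ IsOpen (Set.Iio a)) →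
    TopologicalSpace.IsTopologicalBasis {U : Set X | IsOpen U ∧ U.OrdConnected} →
    (∀ Y : Set X, ∃ (F : ℕ → Set (Set ↥Y)) (K : Set (Set ↥Y)),
      (∀ n, LocallyFinite (fun s : F n => (s : Set ↥Y))) ∧
      (∀ n, ∀ s ∈ F n, IsClosed s) ∧
      (∀ y : ↥Y, ∃ k ∈ K, y ∈ k) ∧
      (∀ k ∈ K, IsClosed k ∧
        ∀ u : ℕ → Set ↥Y, (∀ n, IsOpen (u n)) → k ⊆ ⋃ n, u n →
          ∃ t : Finset ℕ, k ⊆ ⋃ n ∈ t, u n) ∧
      (∀ k ∈ K, ∀ U : Set ↥Y, IsOpen U → k ⊆ U →
          ∃ n, ∃ s ∈ F n, k ⊆ s ∧ s ⊆ U)) →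
    TopologicalSpace.MetrizableSpace X := by
  intro X _ _ hray hbasis hS
  classical
  have h : Pool.Agent.H893R2.IsGO X := by
    refine ⟨fun a => (hray a).1, fun a => (hray a).2, ?_⟩
    intro x U hU
    obtain ⟨V, ⟨hV1, hV2⟩, hxV, hVU⟩ := hbasis.mem_nhds_iff.1 hU
    exact ⟨V, hVU, hV1, hV2, hxV⟩
  have hs : Pool.Agent.H893R2.HS X := by
    intro Y
    obtain ⟨F, K, h1, -, h3, h4, h5⟩ := hS Y
    choose k hk hyk using h3
    refine ⟨fun n => (fun s => Subtype.val '' s) '' F n,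
      fun x => if hx : x ∈ Y then Subtype.val '' (k ⟨x, hx⟩) else ∅, ?_⟩
    constructor
    · rintro n _ ⟨s, hs, rfl⟩ _ ⟨y, hy, rfl⟩
      exact y.2
    · intro n z hz
      obtain ⟨t, ht, htf⟩ := h1 n ⟨z, hz⟩
      rw [nhds_subtype_eq_comap, Filter.mem_comap] at ht
      obtain ⟨V, hV, hVt⟩ := ht
      refine ⟨V, hV, ?_⟩
      apply (htf.image (fun s : F n => (Subtype.val '' (s : Set ↥Y) : Set X))).subset
      rintro _ ⟨⟨s, hs, rfl⟩, _, ⟨w, hw, rfl⟩, hw2⟩
      exact ⟨⟨s, hs⟩, ⟨w, hw, hVt hw2⟩, rfl⟩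
    · intro z hz
      rw [dif_pos hz]
      exact ⟨⟨z, hz⟩, hyk _, rfl⟩
    · intro z hz
      rw [dif_pos hz]
      rintro _ ⟨y, hy, rfl⟩
      exact y.2
    · intro z hz
      rw [dif_pos hz]
      intro u hu hcov
      obtain ⟨t, ht⟩ := (h4 _ (hk ⟨z, hz⟩)).2 (fun n => Subtype.val ⁻¹' u n)
        (fun n => (hu n).preimage continuous_subtype_val) (by
          intro y hy
          have := hcov ⟨y, hy, rfl⟩
          simp only [Set.mem_iUnion] at this ⊢
          exact this)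
      refine ⟨t, ?_⟩
      rintro _ ⟨y, hy, rfl⟩
      have := ht hy
      simp only [Set.mem_iUnion] at this ⊢
      exact this
    · intro z hz U hU hzU
      rw [dif_pos hz] at hzU ⊢
      obtain ⟨n, s, hs, hs1, hs2⟩ := h5 _ (hk ⟨z, hz⟩) (Subtype.val ⁻¹' U)
        (hU.preimage continuous_subtype_val) (fun y hy => hzU ⟨y, hy, rfl⟩)
      refine ⟨n, _, ⟨s, hs, rfl⟩, Set.image_mono hs1, ?_⟩
      rintro _ ⟨y, hy, rfl⟩
      exact hs2 hy
  exact Pool.Agent.H893R2.metrizable h hs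

end Pool.Agent.S08857
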