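import Pool.Statements.S09028
import Pool.Agent.H868R2.Plate4

set_option autoImplicit false
open MeasureTheory
open scoped Pointwise
open Pool Pool.MP_598757_gt

namespace Pool.Agent.S09028

/-- The negation of the preceding statement: For every convex body K in 3-space and real c: if every orthogonal plane projection has isoperimetric ratio π·area/V₁² at least c, then 9π·vol(K)²/(2·V₂(K)³) is at least c (V₁, V₂ given via Steiner-formula limits). -/
theorem result :
    ¬ (∀ (K : Set (EuclideanSpace ℝ (Fin 3))) (c : ℝ),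
    IsCompact K → Convex ℝ K → (interior K).Nonempty →
    (∀ u ∈ Metric.sphere (0 : EuclideanSpace ℝ (Fin 3)) 1, ∀ L : ℝ,
      Filter.Tendsto (fun t : ℝ =>
        ((volume ((fun x : EuclideanSpace ℝ (Fin 3) => x - (inner ℝ u x) • u) '' K
              + Metric.closedBall (0 : EuclideanSpace ℝ (Fin 3)) t)).toReal
          - 2 * t * ((volume (K + segment ℝ (0 : EuclideanSpace ℝ (Fin 3)) u)).toReal
              - (volume K).toReal)) / (Real.pi * t ^ 2))
        (nhdsWithin 0 (Set.Ioi 0)) (nhds L) →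
      c ≤ Real.pi * ((volume (K + segment ℝ (0 : EuclideanSpace ℝ (Fin 3)) u)).toReal
              - (volume K).toReal) / L ^ 2) →
    ∀ S : ℝ,
      Filter.Tendsto (fun t : ℝ =>
        ((volume (K + Metric.closedBall (0 : EuclideanSpace ℝ (Fin 3)) t)).toReal
          - (volume K).toReal) / (2 * t))
        (nhdsWithin 0 (Set.Ioi 0)) (nhds S) →
      c ≤ 9 * Real.pi * (volume K).toReal ^ 2 / (2 * S ^ 3)) := by
  intro H
  have h0 : (0 : ℝ) < 1 / 100000 := by norm_num
  have h1 : (1 / 100000 : ℝ) ≤ 1 := by norm_num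
  have key := H (H868R2.Plate.K (1 / 100000)) (1 / 100000 / 1000) (H868R2.Plate.K_compact h1)
    (H868R2.Plate.K_convex _) (H868R2.Plate.K_interior h0 h1) ?_ _ (H868R2.Plate.tendsto_S h0 h1)
  · rw [H868R2.Plate.vol_K h0, ENNReal.toReal_ofReal (by norm_num)] at key
    have hpi := Real.pi_lt_d2
    have h2 : 9 * Real.pi * (8 * (1 / 100000)) ^ 2 / (2 * (4 * (1 + 2 * (1 / 100000 : ℝ))) ^ 3) ≤
        9 * 3.15 * (8 * (1 / 100000)) ^ 2 / (2 * (4 * (1 + 2 * (1 / 100000 : ℝ))) ^ 3) := by
      gcongr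
    have h3 : 9 * 3.15 * (8 * (1 / 100000)) ^ 2 / (2 * (4 * (1 + 2 * (1 / 100000 : ℝ))) ^ 3) <
        1 / 100000 / 1000 := by norm_num
    linarith
  · intro u hu L hL
    rw [mem_sphere_zero_iff_norm] at hu
    exact H868R2.Plate.main_u h0 h1 u hu L hL

end Pool.Agent.S09028
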