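import Pool.Statements.S09115
-- import your own Pool.Agent.* helpers here

set_option autoImplicit false
open Pool Pool.MP_6c8a84_gt

namespace Pool.Agent.S09115

open Set Complex Topology

/-- Two continuous functions on a connected space with the same exponential that agree at one
point are equal. -/
lemma eq_of_exp_eq {A : Type} [TopologicalSpace A] [PreconnectedSpace A] {g₁ g₂ : A → ℂ}
    (h₁ : Continuous g₁) (h₂ : Continuous g₂) (he : ∀ a, Complex.exp (g₁ a) = Complex.exp (g₂ a))
    (a : A) (ha : g₁ a = g₂ a) : g₁ = g₂ :=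
  Complex.isCoveringMap_exp.eq_of_comp_eq h₁ h₂
    (funext fun x => Subtype.ext (he x)) a ha

/-- The plane with a countable dense set removed has only the stationary homotopy of the
identity. -/
lemma rigid (D : Set ℂ) (hc : D.Countable) (hd : Dense D)
    (h : {x : ℂ // x ∉ D} × unitInterval → {x : ℂ // x ∉ D}) (hh : Continuous h)
    (h0 : ∀ x, h (x, (0 : unitInterval)) = x) (a : {x : ℂ // x ∉ D}) (t : unitInterval) :
    h (a, t) = a := by
  by_contra hne
  set b : ℂ := (h (a, t)).1 with hb
  have hab : b ≠ a.1 := fun e => hne (Subtype.ext e)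
  have hpos : 0 < ‖b - a.1‖ := norm_pos_iff.mpr (sub_ne_zero.mpr hab)
  set ε : ℝ := ‖b - a.1‖ / 3 with hε
  have hεpos : 0 < ε := by positivity
  -- continuity at a
  have hcont : Continuous fun x : {x : ℂ // x ∉ D} => h (x, t) :=
    hh.comp (Continuous.prodMk continuous_id continuous_const)
  obtain ⟨δ₀, hδ₀, hδ₀'⟩ := Metric.continuous_iff.mp hcont a ε hεpos
  set δ : ℝ := min δ₀ ε with hδ
  have hδpos : 0 < δ := lt_min hδ₀ hεpos
  -- a removed point close to a
  obtain ⟨d, hdD, hda⟩ := Metric.dense_iff.mp hd a.1 (δ / 2) (by positivity)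
  rw [Metric.mem_ball, dist_eq_norm] at hdD
  have hρpos : 0 < ‖d - a.1‖ := by
    rw [norm_pos_iff, sub_ne_zero]; rintro rfl; exact a.2 hda
  -- a good radius
  have hbad : ((fun d' : ℂ => ‖d' - a.1‖) '' D).Countable := hc.image _
  have hdense := hbad.dense_compl ℝ
  obtain ⟨r, hr1, hr2⟩ := hdense.exists_mem_open (isOpen_Ioo (a := ‖d - a.1‖) (b := δ))
    ⟨(‖d - a.1‖ + δ) / 2, by constructor <;> linarith⟩
  obtain ⟨hrl, hru⟩ := hr2
  have hrpos : 0 < r := hρpos.trans hrl
  have hcirc : ∀ θ : ℝ, a.1 + r * Complex.exp (θ * I) ∉ D := by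
    intro θ hD
    apply hr1
    refine ⟨_, hD, ?_⟩
    simp only [add_sub_cancel_left, norm_mul, Complex.norm_exp_ofReal_mul_I, mul_one,
      Complex.norm_real, Real.norm_eq_abs, abs_of_pos hrpos]
  -- the homotopy
  let f : C(ℝ × ℝ, ℂ) :=
    ⟨fun p => (h (⟨a.1 + r * Complex.exp (p.1 * I), hcirc p.1⟩,
        (Set.projIcc (0 : ℝ) 1 zero_le_one p.2) * t)).1 - d, by
      refine Continuous.sub (continuous_subtype_val.comp (hh.comp ?_)) continuous_const
      refine Continuous.prodMk ?_ ?_
      · refine Continuous.subtype_mk ?_ _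
        fun_prop
      · refine Continuous.mul (continuous_projIcc.comp continuous_snd) continuous_const⟩
  have hf : ∀ p, f p ∈ ({0}ᶜ : Set ℂ) := by
    intro p hp
    rw [Set.mem_singleton_iff] at hp
    have hp' : (h (⟨a.1 + r * Complex.exp (p.1 * I), hcirc p.1⟩,
        (Set.projIcc (0 : ℝ) 1 zero_le_one p.2) * t)).1 = d := sub_eq_zero.mp hp
    exact (h (⟨a.1 + r * Complex.exp (p.1 * I), hcirc p.1⟩,
        (Set.projIcc (0 : ℝ) 1 zero_le_one p.2) * t)).2 (hp' ▸ hda)
  obtain ⟨L, ⟨-, hL⟩, -⟩ := Complex.isCoveringMapOn_exp.existsUnique_continuousMap_lifts f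
    (a₀ := (0, 0)) (e₀ := Complex.log (f (0, 0))) (Complex.exp_log (hf (0, 0))) hf
  have hLe : ∀ p, Complex.exp (L p) = f p := fun p => congrFun hL p
  have hper : ∀ s : ℝ, f (2 * Real.pi, s) = f (0, s) := by
    intro s
    have : Complex.exp (((2 * Real.pi : ℝ) : ℂ) * I) = Complex.exp (((0 : ℝ) : ℂ) * I) := by
      push_cast
      rw [Complex.exp_two_pi_mul_I]; simp
    simp only [f, ContinuousMap.coe_mk]
    congr 3
    simp only [this]
  have hL0 : Continuous fun s : ℝ => L (0, s) := by fun_prop
  have hL2 : Continuous fun s : ℝ => L (2 * Real.pi, s) - (L (2 * Real.pi, 0) - L (0, 0)) := by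
    fun_prop
  have hone : Complex.exp (L (2 * Real.pi, 0) - L (0, 0)) = 1 := by
    rw [Complex.exp_sub, hLe, hLe, hper, div_self]
    exact hf _
  have key := eq_of_exp_eq hL2 hL0 (by
    intro s
    rw [Complex.exp_sub, hone, div_one, hLe, hLe, hper]) 0 (by ring)
  have key1 : L (2 * Real.pi, 1) - L (0, 1) = L (2 * Real.pi, 0) - L (0, 0) := by
    have := congrFun key 1
    linear_combination this
  -- at time 1 there is no winding
  have hbd : b - d ≠ 0 := by
    intro e
    have : ‖b - a.1‖ = ‖d - a.1‖ := by rw [sub_eq_zero.mp e]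
    have h3 : δ ≤ ε := min_le_right _ _
    linarith
  have hbd' : 2 * ε < ‖b - d‖ := by
    have h1 : ‖b - a.1‖ ≤ ‖b - d‖ + ‖d - a.1‖ := by
      have : b - a.1 = (b - d) + (d - a.1) := by ring
      rw [this]; exact norm_add_le _ _
    have h3 : δ ≤ ε := min_le_right _ _
    linarith
  have hslit : ∀ θ : ℝ, f (θ, 1) / (b - d) ∈ Complex.slitPlane := by
    intro θ
    have h1 : ‖f (θ, 1) - (b - d)‖ < ε := by
      have h2 := hδ₀' ⟨a.1 + r * Complex.exp (θ * I), hcirc θ⟩ (by
        rw [Subtype.dist_eq, dist_eq_norm]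
        simp only [add_sub_cancel_left, norm_mul, Complex.norm_exp_ofReal_mul_I, mul_one,
          Complex.norm_real, Real.norm_eq_abs, abs_of_pos hrpos]
        exact hru.trans_le (min_le_left _ _))
      rw [Subtype.dist_eq, Complex.dist_eq] at h2
      have h3 : (Set.projIcc (0 : ℝ) 1 zero_le_one 1) * t = t := by
        rw [Set.projIcc_right]; exact one_mul t
      simp only [f, ContinuousMap.coe_mk, h3]
      rw [sub_sub_sub_cancel_right]
      exact h2
    have h4 : ‖f (θ, 1) / (b - d) - 1‖ < 1 := by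
      have : f (θ, 1) / (b - d) - 1 = (f (θ, 1) - (b - d)) / (b - d) := by
        field_simp
      rw [this, norm_div, div_lt_one (norm_pos_iff.mpr hbd)]
      linarith
    left
    have h5 := Complex.abs_re_le_norm (f (θ, 1) / (b - d) - 1)
    rw [Complex.sub_re, Complex.one_re] at h5
    have h6 := abs_lt.mp (h5.trans_lt h4)
    linarith [h6.1]
  have hend : L (2 * Real.pi, 1) - L (0, 1) = 0 := by
    have hg : Continuous fun θ : ℝ => L (θ, 1) - Complex.log (f (θ, 1) / (b - d)) := by
      refine Continuous.sub (by fun_prop) ?_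
      refine Continuous.clog (by fun_prop) hslit
    have := eq_of_exp_eq hg (continuous_const (y := L (0, 1) - Complex.log (f (0, 1) / (b - d))))
      (by
        intro θ
        rw [Complex.exp_sub, Complex.exp_sub, hLe, hLe,
          Complex.exp_log (Complex.slitPlane_ne_zero (hslit θ)),
          Complex.exp_log (Complex.slitPlane_ne_zero (hslit 0))]
        have e1 := hf (θ, 1)
        have e2 := hf (0, 1)
        rw [Set.mem_compl_iff, Set.mem_singleton_iff] at e1 e2
        field_simp) 0 rfl
    have := congrFun this (2 * Real.pi)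
    simp only [hper] at this
    linear_combination this
  -- at time 0 the winding number is one
  have hslit0 : ∀ θ : ℝ, 1 + (a.1 - d) / r * Complex.exp (-(θ * I)) ∈ Complex.slitPlane := by
    intro θ
    left
    have h4 : ‖(a.1 - d) / r * Complex.exp (-(θ * I))‖ < 1 := by
      have : Complex.exp (-(θ * I)) = Complex.exp (((-θ : ℝ) : ℂ) * I) := by
        push_cast; ring_nf
      rw [norm_mul, this, Complex.norm_exp_ofReal_mul_I, mul_one, norm_div, Complex.norm_real,
        Real.norm_eq_abs, abs_of_pos hrpos, div_lt_one hrpos, norm_sub_rev]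
      exact hrl
    have h5 := Complex.abs_re_le_norm ((a.1 - d) / r * Complex.exp (-(θ * I)))
    have h6 := abs_lt.mp (h5.trans_lt h4)
    rw [Complex.add_re, Complex.one_re]
    linarith [h6.1]
  have hf0 : ∀ θ : ℝ, f (θ, 0) =
      r * Complex.exp (θ * I) * (1 + (a.1 - d) / r * Complex.exp (-(θ * I))) := by
    intro θ
    have h3 : (Set.projIcc (0 : ℝ) 1 zero_le_one 0) * t = 0 := by
      rw [Set.projIcc_left]; exact zero_mul t
    simp only [f, ContinuousMap.coe_mk, h3, h0]
    have e1 : Complex.exp (θ * I) * Complex.exp (-(θ * I)) = 1 := by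
      rw [← Complex.exp_add]; simp
    have hr0 : (r : ℂ) ≠ 0 := by exact_mod_cast hrpos.ne'
    have e2 : (r : ℂ) * Complex.exp (θ * I) * (1 + (a.1 - d) / r * Complex.exp (-(θ * I)))
        = r * Complex.exp (θ * I) +
          (r / r) * (a.1 - d) * (Complex.exp (θ * I) * Complex.exp (-(θ * I))) := by ring
    rw [e2, e1, div_self hr0]
    ring
  have hstart : L (2 * Real.pi, 0) - L (0, 0) = 2 * Real.pi * I := by
    have hg : Continuous fun θ : ℝ => L (θ, 0) - θ * I -
        Complex.log (1 + (a.1 - d) / r * Complex.exp (-(θ * I))) := by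
      refine Continuous.sub (by fun_prop) ?_
      refine Continuous.clog (by fun_prop) hslit0
    have hr0 : (r : ℂ) ≠ 0 := by exact_mod_cast hrpos.ne'
    have hexp : ∀ θ : ℝ, Complex.exp (L (θ, 0) - θ * I -
        Complex.log (1 + (a.1 - d) / r * Complex.exp (-(θ * I)))) = r := by
      intro θ
      rw [Complex.exp_sub, Complex.exp_sub, hLe,
        Complex.exp_log (Complex.slitPlane_ne_zero (hslit0 θ)), hf0]
      have e1 := Complex.slitPlane_ne_zero (hslit0 θ)
      have e2 := Complex.exp_ne_zero (θ * I)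
      rw [div_div, mul_assoc, mul_div_assoc, div_self (mul_ne_zero e2 e1), mul_one]
    have := eq_of_exp_eq hg (continuous_const (y := L (((0 : ℝ)), 0) - ((0 : ℝ) : ℂ) * I -
        Complex.log (1 + (a.1 - d) / r * Complex.exp (-(((0 : ℝ) : ℂ) * I)))))
      (fun θ => (hexp θ).trans (hexp 0).symm) 0 rfl
    have := congrFun this (2 * Real.pi)
    have e3 : Complex.exp (-(((2 * Real.pi : ℝ) : ℂ) * I)) =
        Complex.exp (-(((0 : ℝ) : ℂ) * I)) := by
      rw [Complex.exp_neg, Complex.exp_neg]
      push_cast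
      rw [Complex.exp_two_pi_mul_I]; simp
    simp only [e3] at this
    push_cast at this
    linear_combination this
  rw [hend, hstart] at key1
  exact Complex.two_pi_I_ne_zero key1.symm

/-- There is a metric space X on which every homotopy starting at the identity is stationary, yet some continuous open surjection g from a metric space Z onto X admits a homotopy starting at g that moves some point. -/
theorem result :
    ∃ (X : Type) (_ : MetricSpace X),
      (∀ h : X × unitInterval → X, Continuous h →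
          (∀ x : X, h (x, (0 : unitInterval)) = x) →
          ∀ (a : X) (t : unitInterval), h (a, t) = a) ∧
      ∃ (Z : Type) (_ : MetricSpace Z) (g : Z → X),
        Continuous g ∧ IsOpenMap g ∧ Function.Surjective g ∧
        ∃ (a : Z) (h : Z × unitInterval → X), Continuous h ∧
          (∀ z : Z, h (z, (0 : unitInterval)) = g z) ∧
          ∃ t : unitInterval, h (a, t) ≠ g a := by
  obtain ⟨D, hc, hd⟩ := TopologicalSpace.exists_countable_dense ℂ
  -- for every x outside D all but countably many slopes are good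
  have good : ∀ x : ℂ, x ∉ D → Dense {m : ℝ | ∀ s : unitInterval,
      x + (s : ℝ) * (1 + m * I) ∉ D} := by
    intro x hx
    have hbad : ((fun d : ℂ => (d - x).im / (d - x).re) '' D).Countable := hc.image _
    refine (hbad.dense_compl ℝ).mono ?_
    intro m hm s hs
    apply hm
    refine ⟨_, hs, ?_⟩
    have hs0 : (s : ℝ) ≠ 0 := by
      intro e
      rw [e] at hs
      simp at hs
      exact hx hs
    simp only [add_sub_cancel_left]
    simp
    field_simp
  refine ⟨{x : ℂ // x ∉ D}, inferInstance, rigid D hc hd, ?_⟩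
  refine ⟨{p : ℂ × ℝ // p.1 ∉ D ∧ ∀ s : unitInterval,
      p.1 + (s : ℝ) * (1 + p.2 * I) ∉ D}, inferInstance, fun p => ⟨p.1.1, p.2.1⟩, ?_, ?_, ?_, ?_⟩
  · exact Continuous.subtype_mk (continuous_fst.comp continuous_subtype_val) _
  · intro U hU
    rw [Metric.isOpen_iff] at hU ⊢
    rintro _ ⟨z, hz, rfl⟩
    obtain ⟨ε, hε, hεU⟩ := hU z hz
    refine ⟨ε, hε, ?_⟩
    intro x' hx'
    obtain ⟨m', hm', hm2⟩ := Metric.dense_iff.mp (good x'.1 x'.2) z.1.2 ε hε
    refine ⟨⟨(x'.1, m'), x'.2, hm2⟩, hεU ?_, rfl⟩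
    rw [Metric.mem_ball, Subtype.dist_eq, Prod.dist_eq]
    rw [Metric.mem_ball, Subtype.dist_eq] at hx'
    exact max_lt hx' hm'
  · intro x
    obtain ⟨m, hm⟩ := (good x.1 x.2).nonempty
    exact ⟨⟨(x.1, m), x.2, hm⟩, rfl⟩
  · have hne : ∃ x : ℂ, x ∉ D := by
      obtain ⟨x, hx⟩ := (hc.dense_compl ℝ).nonempty
      exact ⟨x, hx⟩
    obtain ⟨x, hx⟩ := hne
    obtain ⟨m, hm⟩ := (good x hx).nonempty
    refine ⟨⟨(x, m), hx, hm⟩, fun q => ⟨q.1.1.1 + (q.2 : ℝ) * (1 + q.1.1.2 * I), q.1.2.2 q.2⟩,
      ?_, ?_, 1, ?_⟩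
    · refine Continuous.subtype_mk ?_ _
      fun_prop
    · intro z
      apply Subtype.ext
      simp
    · intro e
      have := congrArg Subtype.val e
      simp only [Set.Icc.coe_one, Complex.ofReal_one, one_mul] at this
      have h2 := congrArg Complex.re this
      simp at h2

end Pool.Agent.S09115
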