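import Pool.Statements.S09132

set_option autoImplicit false
open Pool Pool.MP_6f431b_gt

namespace Pool.Agent.S09132

open Set Topology Filter

/-- The irrational numbers with the usual (metrizable) topology. -/
abbrev M : Type := {x : ℝ // Irrational x}

/-- The irrational numbers with the discrete topology. -/
def D : Type := {x : ℝ // Irrational x}

instance : TopologicalSpace D := ⊥
instance : DiscreteTopology D := ⟨rfl⟩

/-- The Michael line. -/
def Y : Type := ℝ

instance : TopologicalSpace Y where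
  IsOpen U := ∀ x ∈ U, ¬ Irrational (show ℝ from x) → (show Set ℝ from U) ∈ 𝓝 (show ℝ from x)
  isOpen_univ := fun _ _ _ => univ_mem
  isOpen_inter := fun s t hs ht x hx hr => inter_mem (hs x hx.1 hr) (ht x hx.2 hr)
  isOpen_sUnion := fun S hS x hx hr => by
    obtain ⟨s, hs, hxs⟩ := hx
    exact mem_of_superset (hS s hs x hxs hr) (subset_sUnion_of_mem hs)

theorem Y_isOpen_iff (U : Set Y) :
    IsOpen U ↔ ∀ x ∈ U, ¬ Irrational (show ℝ from x) → (show Set ℝ from U) ∈ 𝓝 (show ℝ from x) :=
  Iff.rfl

/-- the identity from the Michael line to the real line -/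
def v (y : Y) : ℝ := y

theorem v_cont : Continuous v := by
  rw [continuous_def]
  intro U hU
  rw [Y_isOpen_iff]
  intro x hx _
  exact hU.mem_nhds hx

theorem Y_isOpen_singleton (y : Y) (hy : Irrational (v y)) : IsOpen ({y} : Set Y) := by
  rw [Y_isOpen_iff]
  intro x hx hr
  rw [mem_singleton_iff] at hx
  subst hx
  exact absurd hy hr

theorem Y_nhds (y : Y) (hy : ¬ Irrational (v y)) (V : Set Y) (hV : V ∈ 𝓝 y) :
    (show Set ℝ from V) ∈ 𝓝 (v y) := by
  obtain ⟨U, hUV, hU, hyU⟩ := mem_nhds_iff.mp hV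
  exact mem_of_superset ((Y_isOpen_iff U).mp hU y hyU hy) hUV

/-- the point of `D` given by an irrational number -/
def toD (m : M) : D := m

/-- the irrational number given by a point of `D` -/
def toM (d : D) : M := d

theorem D_isOpen_some (d : D) : IsOpen ({(d : OnePoint D)} : Set (OnePoint D)) := by
  have := OnePoint.isOpenEmbedding_coe.isOpenMap {d} (isOpen_discrete _)
  rwa [image_singleton] at this

/-- the closed set -/
def A : Set (M × OnePoint D) := {p | p.2 = OnePoint.infty ∨ p.2 = (toD p.1 : OnePoint D)}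

theorem A_closed : IsClosed A := by
  rw [← isOpen_compl_iff, isOpen_iff_mem_nhds]
  rintro ⟨m, k⟩ hk
  rw [mem_compl_iff] at hk
  have hk1 : k ≠ OnePoint.infty := fun h => hk (Or.inl h)
  have hk2 : k ≠ (toD m : OnePoint D) := fun h => hk (Or.inr h)
  obtain ⟨d, rfl⟩ := OnePoint.ne_infty_iff_exists.mp hk1
  have hd : toM d ≠ m := fun h => hk2 (by rw [← h]; rfl)
  have hopen : IsOpen (({toM d}ᶜ : Set M) ×ˢ ({(d : OnePoint D)} : Set (OnePoint D))) :=
    (isOpen_compl_singleton).prod (D_isOpen_some d)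
  refine mem_of_superset (hopen.mem_nhds ⟨fun h => hd h.symm, rfl⟩) ?_
  rintro ⟨m', k'⟩ ⟨h1, h2⟩
  simp only [mem_compl_iff, mem_singleton_iff] at h1 h2
  rw [mem_compl_iff]
  rintro (h | h)
  · simp only [h2] at h
    exact OnePoint.coe_ne_infty d h
  · simp only [h2] at h
    exact h1 (congrArg toM (OnePoint.coe_injective h)).symm

open Classical in
/-- the function -/
noncomputable def g (p : (M × OnePoint D) × Y) : ℝ :=
  if p.1.2 = (toD p.1.1 : OnePoint D) ∧ v p.2 = p.1.1 then 1 else 0

theorem g_cont : ContinuousOn g (A ×ˢ (univ : Set Y)) := by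
  rintro ⟨⟨m, k⟩, y⟩ ⟨hA, -⟩
  have key : ∀ᶠ q in 𝓝[A ×ˢ (univ : Set Y)] ((m, k), y), g q = g ((m, k), y) := by
    rw [eventually_nhdsWithin_iff]
    by_cases hym : v y = m
    · -- `y` is irrational
      have hy : Irrational (v y) := by rw [hym]; exact m.2
      have h1 : ∀ᶠ q : (M × OnePoint D) × Y in 𝓝 ((m, k), y), q.2 = y :=
        (continuous_snd.continuousAt (x := ((m, k), y))).eventually
          ((Y_isOpen_singleton y hy).mem_nhds rfl)
      rcases hA with hA | hA
      · -- `k = ∞`
        simp only at hA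
        subst hA
        have h2 : ∀ᶠ q : (M × OnePoint D) × Y in 𝓝 ((m, OnePoint.infty), y),
            q.1.2 ≠ (toD m : OnePoint D) :=
          ((continuous_snd.comp continuous_fst).continuousAt
            (x := ((m, OnePoint.infty), y))).eventually
            (isOpen_compl_singleton.mem_nhds (OnePoint.infty_ne_coe _))
        filter_upwards [h1, h2] with q hq1 hq2 _
        have e1 : g q = 0 := by
          unfold g
          rw [if_neg]
          rintro ⟨h3, h4⟩
          apply hq2
          rw [h3]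
          congr 1
          apply Subtype.ext
          change (q.1.1 : ℝ) = m
          rw [← h4, hq1, hym]
        have e2 : g ((m, OnePoint.infty), y) = 0 := by
          unfold g
          rw [if_neg]
          rintro ⟨h3, -⟩
          exact OnePoint.infty_ne_coe _ h3
        rw [e1, e2]
      · simp only at hA
        subst hA
        have h2 : ∀ᶠ q : (M × OnePoint D) × Y in 𝓝 ((m, (toD m : OnePoint D)), y),
            q.1.2 = (toD m : OnePoint D) :=
          ((continuous_snd.comp continuous_fst).continuousAt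
            (x := ((m, (toD m : OnePoint D)), y))).eventually
            ((D_isOpen_some (toD m)).mem_nhds rfl)
        filter_upwards [h1, h2] with q hq1 hq2 hq3
        have hq4 : q.1.1 = m := by
          rcases hq3.1 with h | h
          · rw [hq2] at h; exact absurd h (OnePoint.coe_ne_infty _)
          · rw [hq2] at h; exact (OnePoint.coe_injective h).symm
        have : q = ((m, (toD m : OnePoint D)), y) := by
          rcases q with ⟨⟨q1, q2⟩, q3⟩
          simp only at hq1 hq2 hq4
          rw [hq1, hq2, hq4]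
        rw [this]
    · have h1 : ∀ᶠ q : (M × OnePoint D) × Y in 𝓝 ((m, k), y), v q.2 ≠ q.1.1 := by
        have c1 : Continuous fun q : (M × OnePoint D) × Y => v q.2 :=
          v_cont.comp continuous_snd
        have c2 : Continuous fun q : (M × OnePoint D) × Y => (q.1.1 : ℝ) :=
          continuous_subtype_val.comp (continuous_fst.comp continuous_fst)
        exact (isOpen_ne_fun c1 c2).mem_nhds hym
      filter_upwards [h1] with q hq _
      unfold g
      rw [if_neg (fun h => hq h.2), if_neg (fun h => hym h.2)]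
  exact (tendsto_congr' key).mpr tendsto_const_nhds

theorem result :
    ¬ (∀ (X : Type) [TopologicalSpace X] [T2Space X],
      (∃ (M : Type) (tM : TopologicalSpace M),
          TopologicalSpace.MetrizableSpace M ∧ ∃ f : X → M, IsProperMap f) →
      ∀ A : Set X, IsClosed A →
      ∀ (Y : Type) [TopologicalSpace Y]
        (E : Type) [NormedAddCommGroup E] [NormedSpace ℝ E] [CompleteSpace E]
        (g : X × Y → E),
        ContinuousOn g (A ×ˢ (Set.univ : Set Y)) →
        ∃ G : X × Y → E, Continuous G ∧ Set.EqOn G g (A ×ˢ (Set.univ : Set Y))) := by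
  intro H
  obtain ⟨G, hG, hGg⟩ := H (M × OnePoint D) ⟨M, inferInstance, inferInstance, Prod.fst,
    isProperMap_fst_of_compactSpace⟩ A A_closed Y ℝ g g_cont
  -- radii
  have hrad : ∀ m : M, ∃ n : ℕ, ∀ m' : M, |(m' : ℝ) - m| < 1 / ((n : ℝ) + 1) →
      1 / 2 < G ((m', (toD m : OnePoint D)), (m : ℝ)) := by
    intro m
    have h1 : G ((m, (toD m : OnePoint D)), (m : ℝ)) = 1 := by
      rw [hGg ⟨Or.inr rfl, mem_univ _⟩]
      exact if_pos ⟨rfl, rfl⟩
    have hc : Continuous fun m' : M =>
        G ((m', (toD m : OnePoint D)), (show Y from (m : ℝ))) := by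
      fun_prop
    have h2 : ∀ᶠ m' : M in 𝓝 m, 1 / 2 < G ((m', (toD m : OnePoint D)), (show Y from (m : ℝ))) := by
      apply hc.continuousAt.eventually (lt_mem_nhds _)
      change 1 / 2 < G ((m, (toD m : OnePoint D)), (m : ℝ))
      rw [h1]; norm_num
    obtain ⟨ε, hε, h3⟩ := Metric.eventually_nhds_iff.mp h2
    obtain ⟨n, hn⟩ := exists_nat_one_div_lt hε
    refine ⟨n, fun m' hm' => h3 ?_⟩
    rw [Subtype.dist_eq, Real.dist_eq]
    exact hm'.trans hn
  choose n hn using hrad
  -- Baire category
  let P : ℕ → Set ℝ := fun k => {x | ∃ hx : Irrational x, n ⟨x, hx⟩ = k}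
  obtain ⟨i, hi⟩ := nonempty_interior_of_iUnion_of_closed
    (f := fun i : ℕ ⊕ ℚ => Sum.elim (fun k => closure (P k)) (fun q : ℚ => {(q : ℝ)}) i)
    (by
      rintro (k | q)
      · exact isClosed_closure
      · exact isClosed_singleton)
    (by
      rw [eq_univ_iff_forall]
      intro x
      rw [mem_iUnion]
      by_cases hx : Irrational x
      · exact ⟨Sum.inl (n ⟨x, hx⟩), subset_closure ⟨hx, rfl⟩⟩
      · rw [Irrational, not_not] at hx
        obtain ⟨q, hq⟩ := hx
        exact ⟨Sum.inr q, hq.symm⟩)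
  rcases i with k | q
  swap
  · simp only [Sum.elim_inr, interior_singleton] at hi
    exact absurd hi not_nonempty_empty
  simp only [Sum.elim_inl] at hi
  -- a rational point in the interior
  obtain ⟨_, hq, q, rfl⟩ := Rat.denseRange_cast.inter_open_nonempty _ isOpen_interior hi
  have hqr : ¬ Irrational (v (show Y from (q : ℝ))) := Rat.not_irrational q
  -- a nearby irrational point
  have hkpos : (0 : ℝ) < 1 / ((k : ℝ) + 1) / 2 := by positivity
  obtain ⟨x0, hx0, hx0irr⟩ := dense_irrational.inter_open_nonempty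
    (Metric.ball (q : ℝ) (1 / ((k : ℝ) + 1) / 2)) Metric.isOpen_ball ⟨_, Metric.mem_ball_self hkpos⟩
  let m0 : M := ⟨x0, hx0irr⟩
  have h0 : G ((m0, OnePoint.infty), (show Y from (q : ℝ))) = 0 := by
    rw [hGg ⟨Or.inl rfl, mem_univ _⟩]
    exact if_neg (fun h => OnePoint.infty_ne_coe _ h.1)
  have hc : Continuous fun p : OnePoint D × Y => G ((m0, p.1), p.2) := by fun_prop
  have hN : ∀ᶠ p : OnePoint D × Y in 𝓝 (OnePoint.infty, (show Y from (q : ℝ))),
      G ((m0, p.1), p.2) < 1 / 2 := by
    apply hc.continuousAt.eventually (gt_mem_nhds _)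
    change G ((m0, OnePoint.infty), (show Y from (q : ℝ))) < 1 / 2
    rw [h0]; norm_num
  rw [nhds_prod_eq, Filter.eventually_prod_iff] at hN
  obtain ⟨pW, hW, pV, hV, hWV⟩ := hN
  have hV' : ∀ᶠ x : ℝ in 𝓝 (q : ℝ), pV x := Y_nhds (show Y from (q : ℝ)) hqr {y | pV y} hV
  have hW' : {d : D | ¬ pW (d : OnePoint D)}.Finite := by
    have : ∀ᶠ d : D in Filter.coclosedCompact D, pW (d : OnePoint D) :=
      OnePoint.tendsto_coe_infty.eventually hW
    rw [Filter.coclosedCompact_eq_cocompact, Filter.cocompact_eq_cofinite] at this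
    exact this
  have hfin : (Subtype.val '' (show Set M from {d : D | ¬ pW (d : OnePoint D)}) : Set ℝ).Finite :=
    Finite.image _ hW'
  have hq_not : (q : ℝ) ∉ (Subtype.val '' (show Set M from {d : D | ¬ pW (d : OnePoint D)}) : Set ℝ) := by
    rintro ⟨m, -, hm⟩
    exact Rat.not_irrational q (hm ▸ m.2)
  have hcl : (q : ℝ) ∈ closure (P k) := interior_subset hq
  have hnb : {x : ℝ | pV x} ∩ Metric.ball (q : ℝ) (1 / ((k : ℝ) + 1) / 2) ∩
      (Subtype.val '' (show Set M from {d : D | ¬ pW (d : OnePoint D)}) : Set ℝ)ᶜ ∈ 𝓝 (q : ℝ) :=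
    inter_mem (inter_mem hV' (Metric.ball_mem_nhds _ hkpos)) (hfin.isClosed.isOpen_compl.mem_nhds hq_not)
  obtain ⟨x, ⟨⟨hx1, hx2⟩, hx3⟩, hxirr, hxn⟩ := mem_closure_iff_nhds.mp hcl _ hnb
  have hWx : pW ((toD ⟨x, hxirr⟩ : D) : OnePoint D) := by
    by_contra hcon
    exact hx3 ⟨⟨x, hxirr⟩, hcon, rfl⟩
  have hlt := hWV hWx hx1
  have hgt := hn ⟨x, hxirr⟩ m0 (by
    rw [hxn]
    change |x0 - x| < _
    rw [Metric.mem_ball, Real.dist_eq] at hx0 hx2
    have : |x0 - x| ≤ |x0 - q| + |x - q| := by
      have h := abs_sub_le x0 q x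
      rwa [abs_sub_comm (q : ℝ) x] at h
    linarith)
  exact absurd hlt (not_lt.mpr hgt.le)

end Pool.Agent.S09132
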