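import Pool.Statements.S09167
import Pool.Agent.H874R2.JonesT
-- import your own Pool.Agent.* helpers here

set_option autoImplicit false
open Pool Pool.MP_78e9bd_gt

namespace Pool.Agent.S09167

/-- For every compact connected Hausdorff space S: if Jones's T is continuous on the nonempty closed sets with the Vietoris topology, then T(A ∪ B) = T(A) ∪ T(B) for all closed A, B. -/
theorem result :
    ∀ (S : Type) [TopologicalSpace S] [CompactSpace S] [T2Space S] [ConnectedSpace S],
      @ContinuousOn (Set S) (Set S)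
        (TopologicalSpace.generateFrom
          ({𝒰 : Set (Set S) | ∃ U : Set S, IsOpen U ∧ 𝒰 = {A : Set S | A ⊆ U}} ∪
           {𝒰 : Set (Set S) | ∃ U : Set S, IsOpen U ∧ 𝒰 = {A : Set S | (A ∩ U).Nonempty}}))
        (TopologicalSpace.generateFrom
          ({𝒰 : Set (Set S) | ∃ U : Set S, IsOpen U ∧ 𝒰 = {A : Set S | A ⊆ U}} ∪
           {𝒰 : Set (Set S) | ∃ U : Set S, IsOpen U ∧ 𝒰 = {A : Set S | (A ∩ U).Nonempty}}))
        (fun A : Set S => {p : S | ∀ W : Set S, IsCompact W → IsConnected W →
            W ∈ nhds p → (W ∩ A).Nonempty})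
        {A : Set S | IsClosed A ∧ A.Nonempty} →
      ∀ A B : Set S, IsClosed A → IsClosed B →
        {p : S | ∀ W : Set S, IsCompact W → IsConnected W → W ∈ nhds p → (W ∩ (A ∪ B)).Nonempty} =
          {p : S | ∀ W : Set S, IsCompact W → IsConnected W → W ∈ nhds p → (W ∩ A).Nonempty} ∪
          {p : S | ∀ W : Set S, IsCompact W → IsConnected W → W ∈ nhds p → (W ∩ B).Nonempty} := by
  intro S _ _ _ _ hcont A B hA hB
  have hTe : ∀ A : Set S, {p : S | ∀ W : Set S, IsCompact W → IsConnected W →
      W ∈ nhds p → (W ∩ A).Nonempty} = Pool.Agent.H874R2.JT.T A := by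
    intro A
    ext x
    constructor
    · intro hx W hW hWc hxW
      exact hx W hW.isCompact hWc (mem_interior_iff_mem_nhds.1 hxW)
    · intro hx W hW hWc hxW
      exact hx W hW.isClosed hWc (mem_interior_iff_mem_nhds.2 hxW)
  have hcont' : @Continuous {A : Set S // IsClosed A ∧ A.Nonempty} (Set S)
      (TopologicalSpace.induced Subtype.val (Pool.Agent.H874R2.JT.viet S))
      (Pool.Agent.H874R2.JT.viet S) (fun A => Pool.Agent.H874R2.JT.T A.1) := by
    let _ : TopologicalSpace (Set S) := Pool.Agent.H874R2.JT.viet S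
    have h1 : ContinuousOn (fun A : Set S => Pool.Agent.H874R2.JT.T A)
        {A : Set S | IsClosed A ∧ A.Nonempty} := by
      have h2 : (fun A : Set S => Pool.Agent.H874R2.JT.T A) = (fun A : Set S =>
          {p : S | ∀ W : Set S, IsCompact W → IsConnected W →
            W ∈ nhds p → (W ∩ A).Nonempty}) := by
        funext A
        exact (hTe A).symm
      rw [h2]
      exact hcont
    exact continuousOn_iff_continuous_domRestrict.1 h1
  have h := Pool.Agent.H874R2.JT.tcont_of_continuous hcont'
  rw [hTe, hTe, hTe]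
  exact h.additive hA hB

end Pool.Agent.S09167
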