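import Pool.Statements.S09179
import Pool.Agent.Results.MP_7baebc_gt.ParabolicHalf

set_option autoImplicit false
open Pool Pool.MP_7baebc_gt

namespace Pool.Agent.S09179

/-- There is a subset E of the hyperbolic plane such that two isometric copies of E partition the plane, and also continuum many isometric copies of E, indexed by the reals, partition the plane. -/
theorem result :
    ∃ E : Set UpperHalfPlane,
      (∃ g h : UpperHalfPlane ≃ᵢ UpperHalfPlane,
          Disjoint (⇑g '' E) (⇑h '' E) ∧ ⇑g '' E ∪ ⇑h '' E = Set.univ) ∧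
      (∃ f : ℝ → (UpperHalfPlane ≃ᵢ UpperHalfPlane),
          Pairwise (fun r s => Disjoint (⇑(f r) '' E) (⇑(f s) '' E)) ∧
          (⋃ r : ℝ, ⇑(f r) '' E) = Set.univ) := by
  obtain ⟨k, c, E, γ, f, hk, -, -, h2, h3, h4⟩ :=
    Pool.Agent.Results.MP_7baebc_gt.ParabolicHalf.result
  obtain ⟨e⟩ : Nonempty (ℝ ≃ k) := by
    apply Cardinal.eq.1
    rw [hk, Cardinal.mk_real]
  have hid : ⇑(IsometryEquiv.refl UpperHalfPlane) '' E = E := by
    ext x
    constructor
    · rintro ⟨y, hy, rfl⟩
      exact hy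
    · intro hx
      exact ⟨x, hx, rfl⟩
  refine ⟨E, ⟨IsometryEquiv.refl _, γ, ?_, ?_⟩, fun r => f (e r), ?_, ?_⟩
  · rw [hid]; exact h2.1
  · rw [hid]; exact h2.2
  · intro r s hrs
    exact h3 (fun h => hrs (e.injective h))
  · rw [← h4]
    exact e.surjective.iUnion_comp (fun t => ⇑(f t) '' E)

end Pool.Agent.S09179
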