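import Pool.Statements.S09184

set_option autoImplicit false
open Pool Pool.MP_7ca978_gt

namespace Pool.Agent.S09184

/-- The rotation by the angle with cosine 3/5 and sine 4/5 in the first two coordinates, combined with
the reflection in the third one. -/
noncomputable def rotRefl : EuclideanSpace ℝ (Fin 3) →ₗᵢ[ℝ] EuclideanSpace ℝ (Fin 3) where
  toFun p := !₂[(3 / 5) * p 0 - (4 / 5) * p 1, (4 / 5) * p 0 + (3 / 5) * p 1, - p 2]
  map_add' p q := by
    ext i
    fin_cases i <;> simp <;> ring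
  map_smul' c p := by
    ext i
    fin_cases i <;> simp <;> ring
  norm_map' p := by
    simp only [LinearMap.coe_mk, AddHom.coe_mk, EuclideanSpace.norm_eq, Fin.sum_univ_three]
    congr 1
    simp [Real.norm_eq_abs, sq_abs]
    ring

/-- The negation of the preceding statement: For every n ≥ 1, every orthogonal map T of ℝ^n and any n−1 real functions continuous on the unit sphere, some point p of the sphere satisfies φ_i(Tp) = φ_i(p) for all i. -/
theorem result :
    ¬ (∀ n : ℕ, 1 ≤ n →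
      ∀ T : EuclideanSpace ℝ (Fin n) ≃ₗᵢ[ℝ] EuclideanSpace ℝ (Fin n),
      ∀ φ : Fin (n - 1) → EuclideanSpace ℝ (Fin n) → ℝ,
        (∀ i, ContinuousOn (φ i) (Metric.sphere (0 : EuclideanSpace ℝ (Fin n)) 1)) →
        ∃ p ∈ Metric.sphere (0 : EuclideanSpace ℝ (Fin n)) 1,
          ∀ i, φ i (T p) = φ i p) := by
  intro h
  obtain ⟨p, hp, hq⟩ := h 3 (by norm_num) (rotRefl.toLinearIsometryEquiv rfl)
    ![fun p => -((p 0) ^ 2 - (p 1) ^ 2) / 2 + 3 / 4 * (p 0 * p 1) + p 2 * (p 0 / 2 + p 1 / 4),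
      fun p => - p 0 / 2 + p 1 - p 2 * (((p 0) ^ 2 - (p 1) ^ 2) / 2 + 4 / 3 * (p 0 * p 1)) + p 2 / 2]
    (by
      intro i
      apply Continuous.continuousOn
      fin_cases i
      · simp
        fun_prop
      · simp
        fun_prop)
  have h0 := hq 0
  have h1 := hq 1
  simp [rotRefl] at h0 h1
  rw [mem_sphere_zero_iff_norm, EuclideanSpace.norm_eq, Fin.sum_univ_three] at hp
  have hn : p 0 ^ 2 + p 1 ^ 2 + p 2 ^ 2 = 1 := by
    have := Real.sqrt_eq_one.1 hp
    simpa only [Real.norm_eq_abs, sq_abs] using this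
  generalize p 0 = x at *
  generalize p 1 = y at *
  generalize p 2 = t at *
  have e1 : x ^ 2 - y ^ 2 = t * x := by linarith
  have e2 : x + t * (x ^ 2 - y ^ 2) - t = 0 := by linarith
  have e3 : x * (1 + t ^ 2) = t := by rw [e1] at e2; linarith
  -- `y ^ 2 * (1 + t ^ 2) ^ 2 = - t ^ 4`
  have e4 : y ^ 2 * (1 + t ^ 2) ^ 2 + t ^ 4 = 0 := by
    have h2 : y ^ 2 = x ^ 2 - t * x := by linarith
    rw [h2]
    have h3 : (x ^ 2 - t * x) * (1 + t ^ 2) ^ 2 =
        (x * (1 + t ^ 2)) ^ 2 - t * (x * (1 + t ^ 2)) * (1 + t ^ 2) := by ring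
    rw [h3, e3]
    ring
  have ht : t = 0 := by
    have h1 : 0 ≤ y ^ 2 * (1 + t ^ 2) ^ 2 := by positivity
    have h2 : 0 ≤ t ^ 4 := by positivity
    have h3 : t ^ 4 = 0 := by linarith
    exact pow_eq_zero_iff (by norm_num) |>.1 h3
  subst ht
  have hx : x = 0 := by simpa using e3
  subst hx
  have hy : y = 0 := by
    have : y ^ 2 = 0 := by linarith
    exact pow_eq_zero_iff (by norm_num) |>.1 this
  subst hy
  norm_num at hn

end Pool.Agent.S09184
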