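import Pool.Statements.S09297
import Pool.Agent.Results.MP_497448_gt.NeighbourhoodNotUnique

set_option autoImplicit false
open scoped MeasureTheory
open Pool Pool.MP_93ef73_gt

namespace Pool.Agent.S09297


open MeasureTheory Metric Pool.Agent.Helper752
open Pool.Agent.Results.MP_497448_gt.NeighbourhoodNotUnique

/-- A connected unbounded set in a metric space has infinite length. -/
theorem top_of_unbounded {K : Set E2} (hc : IsConnected K) (hb : ¬ Bornology.IsBounded K) :
    μH[1] K = ⊤ := by
  obtain ⟨x0, hx0⟩ := hc.nonempty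
  have hlip : LipschitzWith 1 (fun x : E2 => dist x0 x) := LipschitzWith.dist_right x0
  have h1 : μH[1] ((fun x : E2 => dist x0 x) '' K) ≤ μH[1] K := by
    have := hlip.hausdorffMeasure_image_le (d := 1) zero_le_one K
    simpa using this
  have hpre : IsPreconnected ((fun x : E2 => dist x0 x) '' K) :=
    hc.isPreconnected.image _ hlip.continuous.continuousOn
  have h2 : ∀ R : ℝ, Set.Icc 0 R ⊆ (fun x : E2 => dist x0 x) '' K := by
    intro R
    have hex : ∃ y ∈ K, R ≤ dist x0 y := by
      by_contra hcon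
      push Not at hcon
      apply hb
      refine (isBounded_closedBall (x := x0) (r := R)).subset ?_
      intro y hy
      rw [mem_closedBall, dist_comm]
      exact (hcon y hy).le
    obtain ⟨y, hyK, hy⟩ := hex
    have h3 : Set.Icc (dist x0 x0) (dist x0 y) ⊆ (fun x : E2 => dist x0 x) '' K :=
      hpre.Icc_subset ⟨x0, hx0, rfl⟩ ⟨y, hyK, rfl⟩
    rw [dist_self] at h3
    exact (Set.Icc_subset_Icc_right hy).trans h3
  rw [eq_top_iff]
  refine le_trans ?_ h1
  rw [hausdorffMeasure_real]
  refine ENNReal.le_of_forall_nnreal_lt ?_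
  intro r _
  refine le_trans ?_ (measure_mono (h2 r))
  rw [Real.volume_Icc]
  simp

/-- Every closed connected set of the plane satisfies the lower bound as soon as compact connected
ones do. -/
theorem lower_closed (P : Set E2 → Prop) (c : ENNReal)
    (h : ∀ K : Set E2, IsCompact K → IsConnected K → P K → c ≤ μH[1] K) :
    ∀ K : Set E2, IsClosed K → IsConnected K → P K → c ≤ μH[1] K := by
  intro K hK hc hP
  by_cases hb : Bornology.IsBounded K
  · exact h K (isCompact_of_isClosed_isBounded hK hb) hc hP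
  · rw [top_of_unbounded hc hb]
    exact le_top

/-- The four corners. -/
def corners : Set E2 :=
  {!₂[1, 1], !₂[1, -1], !₂[-1, 1], !₂[-1, -1]}

theorem mem_corners (sx sy : ℝ) (hx : sx = 1 ∨ sx = -1) (hy : sy = 1 ∨ sy = -1) :
    (!₂[sx, sy] : E2) ∈ corners := by
  unfold corners
  rcases hx with rfl | rfl <;> rcases hy with rfl | rfl <;> simp

theorem corners_finite : corners.Finite := by
  unfold corners
  exact Set.toFinite _

theorem steiner_lower (K : Set E2) (hK : IsCompact K) (hc : IsConnected K) (hA : corners ⊆ K) :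
    ENNReal.ofReal (2 + 2 * √3) ≤ μH[1] K := by
  refine Hull.hull_lower hK hc ?_
  intro sx sy hsx hsy P Q hP hQ
  refine ⟨!₂[sx, sy], hA (mem_corners sx sy hsx hsy), ?_⟩
  have hsx2 : sx * sx = 1 := by rcases hsx with rfl | rfl <;> norm_num
  have hsy2 : sy * sy = 1 := by rcases hsy with rfl | rfl <;> norm_num
  simp [hsx2, hsy2]

theorem corners_sub {S : Set E2}
    (h : ∀ (sx sy : ℝ), (sx = 1 ∨ sx = -1) → (sy = 1 ∨ sy = -1) → (!₂[sx, sy] : E2) ∈ S) :
    corners ⊆ S := by
  intro x hx
  unfold corners at hx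
  simp only [Set.mem_insert_iff, Set.mem_singleton_iff] at hx
  rcases hx with rfl | rfl | rfl | rfl <;> exact h _ _ (by simp) (by simp)

/-- There exist d, a nonempty compact totally disconnected A in R^d with two distinct Steiner trees S and T, a compact M and r>0 such that S has least length among closed connected sets within distance r of every point of M. -/
theorem result :
    ∃ (d : ℕ) (A S T M : Set (EuclideanSpace ℝ (Fin d))) (r : ℝ),
      IsCompact A ∧ A.Nonempty ∧ IsTotallyDisconnected A ∧
      (IsCompact S ∧ IsConnected S ∧ A ⊆ S ∧ μH[1] S < ⊤ ∧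
        ∀ K : Set (EuclideanSpace ℝ (Fin d)),
          IsClosed K → IsConnected K → A ⊆ K → μH[1] S ≤ μH[1] K) ∧
      (IsCompact T ∧ IsConnected T ∧ A ⊆ T ∧ μH[1] T < ⊤ ∧
        ∀ K : Set (EuclideanSpace ℝ (Fin d)),
          IsClosed K → IsConnected K → A ⊆ K → μH[1] T ≤ μH[1] K) ∧
      S ≠ T ∧
      IsCompact M ∧ 0 < r ∧
      (∀ y ∈ M, Metric.infDist y S ≤ r) ∧
      (∀ K : Set (EuclideanSpace ℝ (Fin d)),
          IsClosed K → IsConnected K → (∀ y ∈ M, Metric.infDist y K ≤ r) →
            μH[1] S ≤ μH[1] K) := by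
  refine ⟨2, corners, SA, SB, MM, 2, corners_finite.isCompact,
    ⟨_, mem_corners 1 1 (Or.inl rfl) (Or.inl rfl)⟩, corners_finite.countable.isTotallyDisconnected,
    ⟨SA_compact, SA_conn, corners_sub corner_SA, SA_len.trans_lt ENNReal.ofReal_lt_top, ?_⟩,
    ⟨SB_compact, SB_conn, corners_sub corner_SB, SB_len.trans_lt ENNReal.ofReal_lt_top, ?_⟩,
    SA_ne_SB.symm, MM_compact, by norm_num, fun y hy => hy, ?_⟩
  · intro K hK hc hA
    exact SA_len.trans (lower_closed (fun K => corners ⊆ K) _ steiner_lower K hK hc hA)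
  · intro K hK hc hA
    exact SB_len.trans (lower_closed (fun K => corners ⊆ K) _ steiner_lower K hK hc hA)
  · intro K hK hc hM
    exact SA_len.trans (lower_closed (fun K => ∀ y ∈ MM, infDist y K ≤ 2) _
      (fun K hK hc hM => lower K ⟨hK, hc, hM⟩) K hK hc hM)


end Pool.Agent.S09297
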