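import Pool.Statements.S09304

set_option autoImplicit false
open Pool Pool.MP_94b191_gt

namespace Pool.Agent.S09304

open Set Filter Topology

/-- index set of the rays: `0` and the reciprocals `1/(k+1)` -/
def KS : Set ℝ := insert 0 (range (fun k : ℕ => 1 / ((k : ℝ) + 1)))

theorem KS_compact : IsCompact KS :=
  (tendsto_one_div_add_atTop_nhds_zero_nat (𝕜 := ℝ)).isCompact_insert_range

theorem KS_nonneg {κ : ℝ} (h : κ ∈ KS) : 0 ≤ κ := by
  rcases h with h | ⟨k, rfl⟩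
  · rw [h]
  · positivity

noncomputable def cx (u : ℝ) : ℝ := min u 0 + (1 - Real.cos (Real.pi * max u 0)) / 2

noncomputable def cy (κ u : ℝ) : ℝ := κ * (1 + min u 0) / (2 + κ * max u 0)

noncomputable def G (p : ℝ × ℝ) : ℝ × ℝ := (cx p.2, cy p.1 p.2)

def dom : Set (ℝ × ℝ) := KS ×ˢ Icc (-1 : ℝ) 2

theorem dom_compact : IsCompact dom := KS_compact.prod isCompact_Icc

theorem G_cont : ContinuousOn G dom := by
  have h1 : Continuous fun p : ℝ × ℝ => cx p.2 := by
    unfold cx; fun_prop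
  have h2 : ContinuousOn (fun p : ℝ × ℝ => cy p.1 p.2) dom := by
    unfold cy
    apply ContinuousOn.div
    · fun_prop
    · fun_prop
    · rintro ⟨κ, u⟩ hp
      have hk : 0 ≤ κ := KS_nonneg hp.1
      have : 0 ≤ κ * max u 0 := mul_nonneg hk (le_max_right _ _)
      simp only
      linarith
  exact h1.continuousOn.prodMk h2

def XS : Set (ℝ × ℝ) := G '' dom

theorem XS_compact : IsCompact XS := dom_compact.image_of_continuousOn G_cont

abbrev X : Type := ↥XS

instance : CompactSpace X := isCompact_iff_compactSpace.mp XS_compact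

theorem zero_mem : (0 : ℝ) ∈ KS := Or.inl rfl

theorem G_neg_one (κ : ℝ) : G (κ, -1) = (-1, 0) := by
  unfold G cx cy
  simp

noncomputable def mk (κ u : ℝ) (h : κ ∈ KS) (hu : u ∈ Icc (-1 : ℝ) 2) : X := ⟨G (κ, u), (κ, u), ⟨h, hu⟩, rfl⟩

noncomputable def hh : X := mk 0 (-1) zero_mem (by constructor <;> norm_num)

theorem mk_neg_one (κ : ℝ) (h : κ ∈ KS) (hu : (-1 : ℝ) ∈ Icc (-1 : ℝ) 2) : mk κ (-1) h hu = hh := by
  apply Subtype.ext
  show G (κ, -1) = G (0, -1)
  rw [G_neg_one, G_neg_one]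

theorem exists_mk (q : X) : ∃ κ u, ∃ (h : κ ∈ KS) (hu : u ∈ Icc (-1 : ℝ) 2), q = mk κ u h hu := by
  obtain ⟨q, ⟨κ, u⟩, ⟨h, hu⟩, rfl⟩ := q
  exact ⟨κ, u, h, hu, rfl⟩

theorem aff_mem {u : ℝ} (hu : u ∈ Icc (-1 : ℝ) 2) (t : unitInterval) :
    -1 + (t : ℝ) * (u + 1) ∈ Icc (-1 : ℝ) 2 := by
  obtain ⟨h1, h2⟩ := hu
  have t0 := t.2.1
  have t1 := t.2.2
  constructor <;> nlinarith

def HasMod (δ : ℝ → ℝ) {x y : X} (γ : Path x y) : Prop :=
  ∀ ε : ℝ, 0 < ε → ∀ s t : unitInterval, dist s t ≤ δ ε → dist (γ s) (γ t) ≤ ε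

theorem HasMod.symm {δ : ℝ → ℝ} {x y : X} {γ : Path x y} (h : HasMod δ γ) : HasMod δ γ.symm := by
  intro ε hε s t hst
  apply h ε hε
  have : dist (unitInterval.symm s) (unitInterval.symm t) = dist s t := by
    simp only [Subtype.dist_eq, unitInterval.coe_symm_eq, Real.dist_eq]
    rw [← abs_neg]; congr 1; ring
  rw [this]; exact hst

theorem HasMod.trans {δ : ℝ → ℝ} {x y z : X} {γ : Path x y} {γ' : Path y z}
    (h : HasMod δ γ) (h' : HasMod δ γ') : HasMod (fun ε => δ (ε / 2) / 2) (γ.trans γ') := by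
  have key : ∀ ε : ℝ, 0 < ε → ∀ s t : unitInterval, (s : ℝ) ≤ t → dist s t ≤ δ (ε / 2) / 2 →
      dist ((γ.trans γ') s) ((γ.trans γ') t) ≤ ε := by
    intro ε hε s t hst hd
    have hd' : (t : ℝ) - s ≤ δ (ε / 2) / 2 := by
      rw [Subtype.dist_eq, Real.dist_eq, abs_sub_comm, abs_of_nonneg (by linarith)] at hd
      exact hd
    have s0 := s.2.1
    have t1 := t.2.2
    rw [Path.trans_apply, Path.trans_apply]
    by_cases hs : (s : ℝ) ≤ 1 / 2
    · by_cases ht : (t : ℝ) ≤ 1 / 2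
      · rw [dif_pos hs, dif_pos ht]
        refine (h (ε / 2) (by linarith) _ _ ?_).trans (by linarith)
        rw [Subtype.dist_eq, Real.dist_eq, abs_sub_comm]
        show |2 * (t : ℝ) - 2 * (s : ℝ)| ≤ _
        rw [abs_of_nonneg (by linarith)]
        linarith
      · rw [dif_pos hs, dif_neg ht]
        push Not at ht
        have e1 : dist (γ ⟨2 * (s : ℝ), (unitInterval.mul_pos_mem_iff zero_lt_two).2 ⟨s.2.1, hs⟩⟩) (γ 1) ≤ ε / 2 := by
          apply h (ε / 2) (by linarith)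
          rw [Subtype.dist_eq, Real.dist_eq, abs_sub_comm]
          show |(1 : ℝ) - 2 * (s : ℝ)| ≤ _
          rw [abs_of_nonneg (by linarith)]
          linarith
        have e2 : dist (γ' 0) (γ' ⟨2 * (t : ℝ) - 1, unitInterval.two_mul_sub_one_mem_iff.2 ⟨ht.le, t.2.2⟩⟩) ≤ ε / 2 := by
          apply h' (ε / 2) (by linarith)
          rw [Subtype.dist_eq, Real.dist_eq, abs_sub_comm]
          show |(2 * (t : ℝ) - 1) - 0| ≤ _
          rw [abs_of_nonneg (by linarith)]
          linarith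
        rw [γ.target] at e1
        rw [γ'.source] at e2
        calc _ ≤ _ := dist_triangle _ y _
          _ ≤ ε / 2 + ε / 2 := add_le_add e1 e2
          _ = ε := by ring
    · have ht : ¬ (t : ℝ) ≤ 1 / 2 := by push Not at hs ⊢; linarith
      rw [dif_neg hs, dif_neg ht]
      refine (h' (ε / 2) (by linarith) _ _ ?_).trans (by linarith)
      rw [Subtype.dist_eq, Real.dist_eq, abs_sub_comm]
      show |(2 * (t : ℝ) - 1) - (2 * (s : ℝ) - 1)| ≤ _
      rw [abs_of_nonneg (by linarith)]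
      linarith
  intro ε hε s t hst
  rcases le_total (s : ℝ) t with hle | hle
  · exact key ε hε s t hle hst
  · rw [dist_comm]
    exact key ε hε t s hle (by rw [dist_comm]; exact hst)

theorem ray_cont (κ u : ℝ) (h : κ ∈ KS) (hu : u ∈ Icc (-1 : ℝ) 2) :
    Continuous fun t : unitInterval => mk κ (-1 + (t : ℝ) * (u + 1)) h (aff_mem hu t) := by
  apply Continuous.subtype_mk
  apply G_cont.comp_continuous (by fun_prop)
  intro t
  exact ⟨h, aff_mem hu t⟩

noncomputable def ray (κ u : ℝ) (h : κ ∈ KS) (hu : u ∈ Icc (-1 : ℝ) 2) : Path hh (mk κ u h hu) where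
  toFun t := mk κ (-1 + (t : ℝ) * (u + 1)) h (aff_mem hu t)
  continuous_toFun := ray_cont κ u h hu
  source' := by
    apply Subtype.ext
    show G (κ, -1 + ((0 : unitInterval) : ℝ) * (u + 1)) = G (0, -1)
    rw [G_neg_one]; simp [G_neg_one]
  target' := by
    apply Subtype.ext
    show G (κ, -1 + ((1 : unitInterval) : ℝ) * (u + 1)) = G (κ, u)
    simp

theorem exists_mod : ∃ δ : ℝ → ℝ, (∀ ε, 0 < ε → 0 < δ ε) ∧
    ∀ (κ u : ℝ) (h : κ ∈ KS) (hu : u ∈ Icc (-1 : ℝ) 2), HasMod δ (ray κ u h hu) := by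
  have huc := dom_compact.uniformContinuousOn_of_continuous G_cont
  rw [Metric.uniformContinuousOn_iff_le] at huc
  choose! δ hδ0 hδ using huc
  refine ⟨fun ε => δ ε / 3, fun ε hε => by have := hδ0 ε hε; positivity, ?_⟩
  intro κ u h hu ε hε s t hst
  apply hδ ε hε _ ⟨h, aff_mem hu s⟩ _ ⟨h, aff_mem hu t⟩
  rw [Prod.dist_eq]
  simp only [dist_self]
  have hp := hδ0 ε hε
  apply max_le hp.le
  rw [Subtype.dist_eq] at hst
  rw [Real.dist_eq] at hst ⊢
  have e : -1 + (s : ℝ) * (u + 1) - (-1 + (t : ℝ) * (u + 1)) = (s - t) * (u + 1) := by ring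
  rw [e, abs_mul]
  have h3 : |u + 1| ≤ 3 := by rw [abs_le]; constructor <;> linarith [hu.1, hu.2]
  have h0 : 0 ≤ |(s : ℝ) - t| := abs_nonneg _
  calc |(s : ℝ) - t| * |u + 1| ≤ (δ ε / 3) * 3 := mul_le_mul hst h3 (abs_nonneg _) (by positivity)
    _ = δ ε := by ring

instance : ConnectedSpace X := by
  have : PathConnectedSpace X := by
    refine ⟨⟨hh⟩, fun x y => ?_⟩
    obtain ⟨κ, u, h, hu, rfl⟩ := exists_mk x
    obtain ⟨κ', u', h', hu', rfl⟩ := exists_mk y
    exact ⟨(ray κ u h hu).symm.trans (ray κ' u' h' hu')⟩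
  infer_instance

/-- a family of paths with a common modulus is uniform -/
theorem uniform_of_mod {δ : ℝ → ℝ} (hδ : ∀ ε, 0 < ε → 0 < δ ε) (a b : X) (ε : ℝ) (hε : ε > 0) :
    ∃ n : ℕ, ∀ p ∈ {p : Path a b | HasMod δ p}, ∃ t : Fin (n + 1) → unitInterval,
              t 0 = 0 ∧ t (Fin.last n) = 1 ∧ StrictMono t ∧
              ∀ i : Fin n, Metric.diam (⇑p '' Set.Icc (t i.castSucc) (t i.succ)) ≤ ε := by
  obtain ⟨n, hn⟩ := exists_nat_gt (1 / δ ε)
  have hn0 : (0 : ℝ) < n + 1 := by positivity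
  refine ⟨n + 1, fun p hp => ?_⟩
  refine ⟨fun i => ⟨(i : ℝ) / (n + 1), ?_, ?_⟩, ?_, ?_, ?_, ?_⟩
  · positivity
  · rw [div_le_one hn0]
    have := i.2
    have h2 : (i : ℕ) ≤ n + 1 := by omega
    exact_mod_cast h2
  · apply Subtype.ext; simp
  · apply Subtype.ext
    simp only [Fin.val_last, Set.Icc.coe_one]
    push_cast
    exact div_self hn0.ne'
  · intro i j hij
    rw [← Subtype.coe_lt_coe]
    simp only
    apply div_lt_div_of_pos_right _ hn0
    exact_mod_cast hij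
  · intro i
    apply Metric.diam_le_of_forall_dist_le hε.le
    rintro _ ⟨s, ⟨hs1, hs2⟩, rfl⟩ _ ⟨t, ⟨ht1, ht2⟩, rfl⟩
    apply hp ε hε
    rw [← Subtype.coe_le_coe] at hs1 hs2 ht1 ht2
    simp only [Fin.val_castSucc, Fin.val_succ, Nat.cast_add, Nat.cast_one] at hs1 hs2 ht1 ht2
    have hdiv : ((i : ℝ) + 1) / (n + 1) - (i : ℝ) / (n + 1) = 1 / (n + 1) := by ring
    have h1 : 1 / ((n : ℝ) + 1) ≤ δ ε := by
      have h0 := hδ ε hε
      rw [div_le_iff₀ hn0]
      rw [div_lt_iff₀ h0] at hn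
      nlinarith
    rw [Subtype.dist_eq, Real.dist_eq, abs_le]
    constructor <;> linarith

theorem part1 (a b : X) : ∃ P : Set (Path a b),
          (∀ ε : ℝ, ε > 0 → ∃ n : ℕ, ∀ p ∈ P, ∃ t : Fin (n + 1) → unitInterval,
              t 0 = 0 ∧ t (Fin.last n) = 1 ∧ StrictMono t ∧
              ∀ i : Fin n, Metric.diam (⇑p '' Set.Icc (t i.castSucc) (t i.succ)) ≤ ε) ∧
          (⋃ p ∈ P, Set.range ⇑p) = Set.univ := by
  obtain ⟨δ, hδ, hray⟩ := exists_mod
  set δ1 : ℝ → ℝ := fun ε => δ (ε / 2) / 2 with hδ1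
  set δ2 : ℝ → ℝ := fun ε => δ1 (ε / 2) / 2 with hδ2
  have hδ1' : ∀ ε, 0 < ε → 0 < δ1 ε := fun ε hε => by
    have := hδ (ε / 2) (by linarith); simp only [hδ1]; linarith
  have hδ2' : ∀ ε, 0 < ε → 0 < δ2 ε := fun ε hε => by
    have := hδ1' (ε / 2) (by linarith); simp only [hδ2]; linarith
  refine ⟨{p | HasMod δ2 p}, fun ε hε => uniform_of_mod hδ2' a b ε hε, ?_⟩
  rw [eq_univ_iff_forall]
  intro q
  obtain ⟨κ, u, h, hu, rfl⟩ := exists_mk q
  obtain ⟨κ', u', h', hu', rfl⟩ := exists_mk a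
  obtain ⟨κ'', u'', h'', hu'', rfl⟩ := exists_mk b
  rw [mem_iUnion₂]
  refine ⟨((ray κ' u' h' hu').symm.trans (ray κ u h hu)).trans
    ((ray κ u h hu).symm.trans (ray κ'' u'' h'' hu'')), ?_, ?_⟩
  · exact (((hray _ _ _ _).symm).trans (hray _ _ _ _)).trans
      (((hray _ _ _ _).symm).trans (hray _ _ _ _))
  · rw [Path.trans_range]
    left
    exact ⟨1, Path.target _⟩


/-- the level function, continuous away from `hh` -/
noncomputable def lev (q : ℝ × ℝ) : ℝ := q.2 / (1 + min q.1 0)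

theorem cx_of_nonpos {u : ℝ} (hu : u ≤ 0) : cx u = u := by
  unfold cx; rw [min_eq_left hu, max_eq_right hu]; simp

theorem cx_of_nonneg {u : ℝ} (hu : 0 ≤ u) : cx u = (1 - Real.cos (Real.pi * u)) / 2 := by
  unfold cx; rw [min_eq_right hu, max_eq_left hu]; simp

theorem cy_of_nonpos {κ u : ℝ} (hu : u ≤ 0) : cy κ u = κ * (1 + u) / 2 := by
  unfold cy; rw [min_eq_left hu, max_eq_right hu]; simp

theorem cy_of_nonneg {κ u : ℝ} (hu : 0 ≤ u) : cy κ u = κ / (2 + κ * u) := by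
  unfold cy; rw [min_eq_right hu, max_eq_left hu]; simp

theorem cx_nonneg {u : ℝ} (hu : 0 ≤ u) : 0 ≤ cx u := by
  rw [cx_of_nonneg hu]; linarith [Real.cos_le_one (Real.pi * u)]

theorem lev_nonpos {κ u : ℝ} (hu : u ≤ 0) (hu1 : -1 < u) : lev (G (κ, u)) = κ / 2 := by
  unfold lev G
  simp only
  rw [cx_of_nonpos hu, cy_of_nonpos hu, min_eq_left hu]
  have : 1 + u ≠ 0 := by linarith
  field_simp

theorem lev_nonneg {κ u : ℝ} (hu : 0 ≤ u) : lev (G (κ, u)) = κ / (2 + κ * u) := by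
  unfold lev G
  simp only
  rw [min_eq_right (cx_nonneg hu), cy_of_nonneg hu]
  simp

/-- points of odd level have abscissa one -/
theorem level_odd {q : ℝ × ℝ} (hq : q ∈ XS) (hne : q ≠ (-1, 0)) (j : ℕ)
    (h : lev q = 1 / (2 * (j : ℝ) + 1)) : q.1 = 1 := by
  obtain ⟨⟨κ, u⟩, ⟨hκ, hu1, hu2⟩, rfl⟩ := hq
  simp only at hκ hu1 hu2
  have hj : (0 : ℝ) < 2 * (j : ℝ) + 1 := by positivity
  have hu1' : -1 < u := by
    rcases hu1.lt_or_eq with h1 | h1
    · exact h1
    · exfalso; apply hne; rw [← h1, G_neg_one]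
  rcases hκ with hκ | ⟨m, rfl⟩
  · exfalso
    have : (0 : ℝ) < 1 / (2 * (j : ℝ) + 1) := by positivity
    rcases le_total u 0 with h0 | h0
    · rw [lev_nonpos h0 hu1', hκ] at h; linarith
    · rw [lev_nonneg h0, hκ] at h; simp at h; linarith
  · have hm : (0 : ℝ) < (m : ℝ) + 1 := by positivity
    rcases le_total u 0 with h0 | h0
    · rw [lev_nonpos h0 hu1'] at h
      exfalso
      have h3 : 2 * (j : ℝ) + 1 = 2 * ((m : ℝ) + 1) := by
        field_simp at h; linarith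
      have h4 : 2 * j + 1 = 2 * (m + 1) := by exact_mod_cast h3
      omega
    · rw [lev_nonneg h0] at h
      have hd : (0 : ℝ) < 2 + 1 / ((m : ℝ) + 1) * u := by positivity
      have h3 : 2 * (j : ℝ) + 1 = 2 * ((m : ℝ) + 1) + u := by
        rw [div_eq_div_iff hd.ne' hj.ne'] at h
        field_simp at h
        linarith
      show cx u = 1
      have h4 : u = 2 * ((j : ℝ) - m - 1) + 1 := by linarith
      have h5 : (j : ℤ) - m - 1 = 0 := by
        have a1 : (-1 : ℝ) < ((j : ℤ) - m - 1 : ℤ) := by push_cast; linarith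
        have a2 : (((j : ℤ) - m - 1 : ℤ) : ℝ) < 1 := by push_cast; linarith
        have a1' : (-1 : ℤ) < ((j : ℤ) - m - 1 : ℤ) := by exact_mod_cast a1
        have a2' : ((j : ℤ) - m - 1 : ℤ) < 1 := by exact_mod_cast a2
        omega
      have h6 : (j : ℝ) - m - 1 = 0 := by exact_mod_cast h5
      rw [h6] at h4
      rw [cx_of_nonneg h0, h4]
      simp

/-- points of even level have nonpositive abscissa -/
theorem level_even {q : ℝ × ℝ} (hq : q ∈ XS) (hne : q ≠ (-1, 0)) (j : ℕ)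
    (h : lev q = 1 / (2 * (j : ℝ) + 2)) : q.1 ≤ 0 := by
  obtain ⟨⟨κ, u⟩, ⟨hκ, hu1, hu2⟩, rfl⟩ := hq
  simp only at hκ hu1 hu2
  have hj : (0 : ℝ) < 2 * (j : ℝ) + 2 := by positivity
  show cx u ≤ 0
  rcases le_total u 0 with h0 | h0
  · rw [cx_of_nonpos h0]; exact h0
  rcases hκ with hκ | ⟨m, rfl⟩
  · exfalso
    have : (0 : ℝ) < 1 / (2 * (j : ℝ) + 2) := by positivity
    rw [lev_nonneg h0, hκ] at h; simp at h; linarith
  · have hm : (0 : ℝ) < (m : ℝ) + 1 := by positivity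
    rw [lev_nonneg h0] at h
    have hd : (0 : ℝ) < 2 + 1 / ((m : ℝ) + 1) * u := by positivity
    have h3 : 2 * (j : ℝ) + 2 = 2 * ((m : ℝ) + 1) + u := by
      rw [div_eq_div_iff hd.ne' hj.ne'] at h
      field_simp at h
      linarith
    have h4 : u = 2 * ((j : ℝ) - m) := by linarith
    have h5 : (j : ℤ) - m = 0 ∨ (j : ℤ) - m = 1 := by
      have a1 : (-1 : ℝ) < ((j : ℤ) - m : ℤ) := by push_cast; linarith
      have a2 : (((j : ℤ) - m : ℤ) : ℝ) < 2 := by push_cast; linarith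
      have a1' : (-1 : ℤ) < ((j : ℤ) - m : ℤ) := by exact_mod_cast a1
      have a2' : ((j : ℤ) - m : ℤ) < 2 := by exact_mod_cast a2
      omega
    rw [cx_of_nonneg h0]
    rcases h5 with h5 | h5
    · have h6 : (j : ℝ) - m = 0 := by exact_mod_cast h5
      rw [h4, h6]; simp
    · have h6 : (j : ℝ) - m = 1 := by exact_mod_cast h5
      rw [h4, h6]
      have : Real.pi * (2 * 1) = 2 * Real.pi := by ring
      rw [this, Real.cos_two_pi]; simp

theorem far {q q' : ℝ × ℝ} (hq : q ∈ XS) (hne : q ≠ (-1, 0)) (hq' : q' ∈ XS) (hne' : q' ≠ (-1, 0))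
    (M : ℕ) (hM : 2 ≤ M) (h : lev q = 1 / ((M + 1 : ℕ) : ℝ)) (h' : lev q' = 1 / (M : ℝ)) :
    1 ≤ dist q q' := by
  have key : 1 ≤ |q.1 - q'.1| := by
    rcases Nat.even_or_odd' M with ⟨j, hj | hj⟩
    · obtain ⟨i, rfl⟩ : ∃ i, j = i + 1 := ⟨j - 1, by omega⟩
      have e1 := level_even hq' hne' i (by rw [h', hj]; push_cast; ring_nf)
      have e2 := level_odd hq hne (i + 1) (by rw [h, hj]; push_cast; ring_nf)
      rw [e2, abs_of_nonneg (by linarith)]; linarith
    · have e1 := level_odd hq' hne' j (by rw [h', hj]; push_cast; ring_nf)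
      have e2 := level_even hq hne j (by rw [h, hj]; push_cast; ring_nf)
      rw [e1, abs_of_nonpos (by linarith)]; linarith
  rw [Prod.dist_eq]
  exact key.trans (le_max_left _ _)

theorem one_mem : (1 : ℝ) ∈ KS := Or.inr ⟨0, by simp⟩

theorem inv_mem (k : ℕ) : 1 / ((k : ℝ) + 1) ∈ KS := Or.inr ⟨k, rfl⟩

theorem zero_mem_Icc : (0 : ℝ) ∈ Icc (-1 : ℝ) 2 := by constructor <;> norm_num

/-- end point -/
noncomputable def bb : X := mk 1 0 one_mem zero_mem_Icc

noncomputable def vv (k : ℕ) : X := mk (1 / ((k : ℝ) + 1)) 0 (inv_mem k) zero_mem_Icc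

theorem lev_mk_zero (κ : ℝ) (h : κ ∈ KS) : lev (mk κ 0 h zero_mem_Icc).1 = κ / 2 := by
  show lev (G (κ, 0)) = κ / 2
  rw [lev_nonneg le_rfl]; simp

theorem hh_val : (hh : X).1 = (-1, 0) := G_neg_one 0

theorem ne_hh_iff (q : X) : q ≠ hh → q.1 ≠ (-1, 0) := by
  intro h h1
  apply h
  apply Subtype.ext
  rw [h1, hh_val]

theorem lev_cont : ContinuousOn lev {q | q.1 > -1} := by
  unfold lev
  apply ContinuousOn.div (by fun_prop) (by fun_prop)
  intro q hq
  have hq' : q.1 > -1 := hq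
  have : -1 < min q.1 0 := lt_min hq' (by norm_num)
  linarith

theorem fst_gt {q : ℝ × ℝ} (hq : q ∈ XS) (hne : q ≠ (-1, 0)) : q.1 > -1 := by
  obtain ⟨⟨κ, u⟩, ⟨hκ, hu1, hu2⟩, rfl⟩ := hq
  simp only at hκ hu1 hu2
  show cx u > -1
  rcases le_total u 0 with h0 | h0
  · rw [cx_of_nonpos h0]
    rcases hu1.lt_or_eq with h1 | h1
    · exact h1
    · exfalso; apply hne; rw [← h1, G_neg_one]
  · linarith [cx_nonneg h0]

theorem crossing (k : ℕ) (p : Path hh bb) (hp : Function.Injective p) (hv : vv k ∈ range p) (N : ℕ)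
    (T : Fin (N + 1) → unitInterval) (hTl : T (Fin.last N) = 1)
    (hd : ∀ i : Fin N, Metric.diam (⇑p '' Set.Icc (T i.castSucc) (T i.succ)) ≤ 1 / 2)
    (hT0 : T 0 = 0) : 2 * k ≤ N := by
  by_contra hlt
  push Not at hlt
  obtain ⟨τ, hτ⟩ := hv
  have hτ0 : 0 < τ := by
    rcases eq_or_ne τ 0 with h | h
    · exfalso
      rw [h, p.source] at hτ
      have h1 := congrArg (fun q : X => q.1.1) hτ
      simp only [hh_val] at h1
      have h2 : (vv k).1.1 = cx 0 := rfl
      rw [h2, cx_of_nonpos le_rfl] at h1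
      norm_num at h1
    · exact unitInterval.pos_iff_ne_zero.mpr h
  have hne : ∀ t, τ ≤ t → p t ≠ hh := by
    intro t ht h
    have h0 : p t = p 0 := by rw [h, p.source]
    have := hp h0
    rw [this] at ht
    exact absurd ht (not_le.mpr hτ0)
  have hφ : ContinuousOn (fun t : unitInterval => lev (p t).1) (Icc τ 1) := by
    apply lev_cont.comp (by fun_prop)
    intro t ht
    exact fst_gt (p t).2 (ne_hh_iff _ (hne t ht.1))
  have main : ∀ i : ℕ, ∀ hi : i ≤ N, ∃ t : unitInterval, τ ≤ t ∧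
      lev (p t).1 = 1 / ((2 * k + 2 - i : ℕ) : ℝ) ∧ T ⟨i, by omega⟩ ≤ t := by
    intro i
    induction i with
    | zero =>
      intro _
      refine ⟨τ, le_rfl, ?_, ?_⟩
      · rw [hτ]
        unfold vv
        rw [lev_mk_zero]
        push_cast
        field_simp
      · show T 0 ≤ τ
        rw [hT0]; exact hτ0.le
    | succ i ih =>
      intro hi
      obtain ⟨t, ht1, ht2, ht3⟩ := ih (by omega)
      obtain ⟨M, hM⟩ : ∃ M, 2 * k + 2 - (i + 1) = M := ⟨_, rfl⟩
      have hM2 : 2 ≤ M := by omega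
      have hM1 : 2 * k + 2 - i = M + 1 := by omega
      rw [hM1] at ht2
      rw [hM]
      have hMpos : (0 : ℝ) < M := by exact_mod_cast (by omega : 0 < M)
      have hb : lev (p 1).1 = 1 / 2 := by
        rw [p.target]; exact lev_mk_zero 1 one_mem
      have hsub : Icc t 1 ⊆ Icc τ 1 := Icc_subset_Icc_left ht1
      have hival := intermediate_value_Icc (show t ≤ 1 from t.2.2) (hφ.mono hsub)
      have hmem : (1 / (M : ℝ)) ∈ Icc (lev (p t).1) (lev (p 1).1) := by
        rw [ht2, hb]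
        constructor
        · apply one_div_le_one_div_of_le hMpos
          push_cast; linarith
        · apply one_div_le_one_div_of_le (by norm_num)
          exact_mod_cast hM2
      obtain ⟨t', ⟨ht'1, ht'2⟩, ht'3⟩ := hival hmem
      simp only at ht'3
      refine ⟨t', ht1.trans ht'1, ht'3, ?_⟩
      by_contra hcon
      push Not at hcon
      have hdi := hd ⟨i, by omega⟩
      have h1 : t ∈ Icc (T (Fin.castSucc ⟨i, by omega⟩)) (T (Fin.succ ⟨i, by omega⟩)) :=
        ⟨ht3, ht'1.trans hcon.le⟩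
      have h2 : t' ∈ Icc (T (Fin.castSucc ⟨i, by omega⟩)) (T (Fin.succ ⟨i, by omega⟩)) :=
        ⟨ht3.trans ht'1, hcon.le⟩
      have hfar := far (p t).2 (ne_hh_iff _ (hne t ht1)) (p t').2
        (ne_hh_iff _ (hne t' (ht1.trans ht'1))) M hM2 ht2 ht'3
      have hdist : dist (p t) (p t') ≤ 1 / 2 :=
        (Metric.dist_le_diam_of_mem (isCompact_Icc.image p.continuous).isBounded
          (mem_image_of_mem _ h1) (mem_image_of_mem _ h2)).trans hdi
      rw [Subtype.dist_eq] at hdist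
      linarith
  obtain ⟨t, ht1, ht2, ht3⟩ := main N le_rfl
  have ht : t = 1 := by
    apply le_antisymm (show t ≤ 1 from t.2.2)
    rw [← hTl]; exact ht3
  have hb : lev (p 1).1 = 1 / 2 := by
    rw [p.target]; exact lev_mk_zero 1 one_mem
  rw [ht, hb] at ht2
  have hpos : (0 : ℝ) < ((2 * k + 2 - N : ℕ) : ℝ) := by
    exact_mod_cast (by omega : 0 < 2 * k + 2 - N)
  rw [div_eq_div_iff (by norm_num) hpos.ne'] at ht2
  have : ((2 * k + 2 - N : ℕ) : ℝ) = ((2 : ℕ) : ℝ) := by push_cast; linarith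
  have := Nat.cast_injective this
  omega

/-- the explicit arc through `vv k` -/
noncomputable def F (k : ℕ) (u : ℝ) : ℝ × ℝ :=
  (cx u, (1 + min u 0) / (2 * ((k : ℝ) + 1) - max u 0))

theorem F_mem (k : ℕ) {u : ℝ} (h1 : -1 ≤ u) (h2 : u ≤ 2 * k) : F k u ∈ XS := by
  rcases le_total u 0 with h0 | h0
  · refine ⟨(1 / ((k : ℝ) + 1), u), ⟨inv_mem k, h1, by linarith⟩, ?_⟩
    unfold G F
    simp only
    rw [cy_of_nonpos h0, min_eq_left h0, max_eq_right h0]
    congr 1
    field_simp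
    ring
  · obtain ⟨s, hs⟩ : ∃ s, s = 2 * ((k : ℝ) + 1) - u := ⟨_, rfl⟩
    have hs2 : 2 ≤ s := by rw [hs]; linarith
    obtain ⟨m, hm⟩ : ∃ m : ℕ, ⌊s / 2⌋₊ = m + 1 := by
      have : 1 ≤ ⌊s / 2⌋₊ := by
        rw [Nat.one_le_floor_iff]; linarith
      exact ⟨⌊s / 2⌋₊ - 1, by omega⟩
    have hf1 : ((m : ℝ) + 1) ≤ s / 2 := by
      have := Nat.floor_le (by linarith : (0 : ℝ) ≤ s / 2)
      rw [hm] at this; push_cast at this; exact this
    have hf2 : s / 2 < (m : ℝ) + 1 + 1 := by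
      have := Nat.lt_floor_add_one (s / 2)
      rw [hm] at this; push_cast at this; exact this
    have hm0 : (0 : ℝ) < (m : ℝ) + 1 := by positivity
    have hu0 : 0 ≤ s - 2 * ((m : ℝ) + 1) := by linarith
    refine ⟨(1 / ((m : ℝ) + 1), s - 2 * ((m : ℝ) + 1)), ⟨inv_mem m, by linarith, by linarith⟩, ?_⟩
    unfold G F
    simp only
    rw [cy_of_nonneg hu0, min_eq_right h0, max_eq_left h0, cx_of_nonneg hu0, cx_of_nonneg h0, ← hs]
    congr 1
    · congr 2
      have : Real.pi * (s - 2 * ((m : ℝ) + 1)) = ((k : ℤ) - m : ℤ) * (2 * Real.pi) - Real.pi * u := by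
        rw [hs]; push_cast; ring
      rw [this, sub_eq_neg_add, Real.cos_add_int_mul_two_pi, Real.cos_neg]
    · have : (2 : ℝ) + 1 / ((m : ℝ) + 1) * (s - 2 * ((m : ℝ) + 1)) = s / ((m : ℝ) + 1) := by
        field_simp; ring
      rw [this]
      field_simp
      simp

theorem F_inj (k : ℕ) {u u' : ℝ} (h2 : u ≤ 2 * k) (h2' : u' ≤ 2 * k)
    (h : F k u = F k u') : u = u' := by
  have e1 : cx u = cx u' := congrArg Prod.fst h
  have e2 : (1 + min u 0) / (2 * ((k : ℝ) + 1) - max u 0) =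
    (1 + min u' 0) / (2 * ((k : ℝ) + 1) - max u' 0) := congrArg Prod.snd h
  rcases le_total u 0 with h0 | h0 <;> rcases le_total u' 0 with h0' | h0'
  · rwa [cx_of_nonpos h0, cx_of_nonpos h0'] at e1
  · rw [cx_of_nonpos h0] at e1
    have h3 := cx_nonneg h0'
    have hu : u = 0 := by linarith
    subst hu
    rw [min_eq_left le_rfl, max_eq_left le_rfl, min_eq_right h0', max_eq_left h0'] at e2
    have hk : (0 : ℝ) ≤ k := Nat.cast_nonneg k
    rw [div_eq_div_iff (by linarith) (by linarith)] at e2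
    linarith
  · rw [cx_of_nonpos h0'] at e1
    have h3 := cx_nonneg h0
    have hu : u' = 0 := by linarith
    subst hu
    rw [min_eq_left (le_refl (0 : ℝ)), max_eq_left (le_refl (0 : ℝ)), min_eq_right h0, max_eq_left h0] at e2
    have hk : (0 : ℝ) ≤ k := Nat.cast_nonneg k
    rw [div_eq_div_iff (by linarith) (by linarith)] at e2
    linarith
  · rw [min_eq_right h0, max_eq_left h0, min_eq_right h0', max_eq_left h0'] at e2
    rw [div_eq_div_iff (by linarith) (by linarith)] at e2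
    linarith

theorem aff_le (k : ℕ) (t : unitInterval) : -1 + (2 * (k : ℝ) + 1) * t ≤ 2 * k := by
  have := t.2.2
  have hk : (0 : ℝ) ≤ k := by positivity
  nlinarith

theorem aff_ge (k : ℕ) (t : unitInterval) : -1 ≤ -1 + (2 * (k : ℝ) + 1) * t := by
  have := t.2.1
  have hk : (0 : ℝ) ≤ k := by positivity
  nlinarith

noncomputable def arc (k : ℕ) : Path hh bb where
  toFun t := ⟨F k (-1 + (2 * (k : ℝ) + 1) * t), F_mem k (aff_ge k t) (aff_le k t)⟩
  continuous_toFun := by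
    apply Continuous.subtype_mk
    unfold F cx
    apply Continuous.prodMk (by fun_prop)
    apply Continuous.div (by fun_prop) (by fun_prop)
    intro t
    have h1 := aff_le k t
    have : max (-1 + (2 * (k : ℝ) + 1) * (t : ℝ)) 0 ≤ 2 * k := max_le h1 (by positivity)
    linarith
  source' := by
    apply Subtype.ext
    rw [hh_val]
    show F k (-1 + (2 * (k : ℝ) + 1) * ((0 : unitInterval) : ℝ)) = (-1, 0)
    unfold F
    simp [cx_of_nonpos]
  target' := by
    apply Subtype.ext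
    show F k (-1 + (2 * (k : ℝ) + 1) * ((1 : unitInterval) : ℝ)) = G (1, 0)
    have : -1 + (2 * (k : ℝ) + 1) * ((1 : unitInterval) : ℝ) = 2 * k := by simp
    rw [this]
    have hk : (0 : ℝ) ≤ 2 * k := by positivity
    unfold F G
    simp only
    rw [cx_of_nonneg hk, cx_of_nonneg le_rfl, min_eq_right hk, max_eq_left hk, cy_of_nonneg le_rfl]
    congr 1
    · have : Real.pi * (2 * (k : ℝ)) = k * (2 * Real.pi) := by ring
      rw [this, Real.cos_nat_mul_two_pi]; simp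
    · rw [show 2 * ((k : ℝ) + 1) - 2 * k = 2 by ring]; simp

theorem arc_inj (k : ℕ) : Function.Injective (arc k) := by
  intro s t h
  have h1 := congrArg Subtype.val h
  have h2 := F_inj k (aff_le k s) (aff_le k t) h1
  apply Subtype.ext
  have hk : (0 : ℝ) < 2 * (k : ℝ) + 1 := by positivity
  have h3 : (2 * (k : ℝ) + 1) * s = (2 * (k : ℝ) + 1) * t := by linarith
  exact mul_left_cancel₀ hk.ne' h3

theorem vv_mem_arc (k : ℕ) : vv k ∈ range (arc k) := by
  have hk : (0 : ℝ) < 2 * (k : ℝ) + 1 := by positivity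
  refine ⟨⟨1 / (2 * (k : ℝ) + 1), by positivity, ?_⟩, ?_⟩
  · rw [div_le_one hk]; linarith [(Nat.cast_nonneg k : (0 : ℝ) ≤ k)]
  · apply Subtype.ext
    show F k (-1 + (2 * (k : ℝ) + 1) * (1 / (2 * (k : ℝ) + 1))) = G (1 / ((k : ℝ) + 1), 0)
    have : -1 + (2 * (k : ℝ) + 1) * (1 / (2 * (k : ℝ) + 1)) = 0 := by field_simp; ring
    rw [this]
    unfold F G
    simp only
    rw [cy_of_nonneg le_rfl]
    congr 1
    simp
    ring

/-- The negation of the preceding statement: Every continuum in which any two points are joined by a uniform family of paths covering the space has, for any two points, a uniform family of arcs between them covering the union of all arcs joining them. -/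
theorem result :
    ¬ (∀ (X : Type) [MetricSpace X] [CompactSpace X] [ConnectedSpace X],
      (∀ a b : X, ∃ P : Set (Path a b),
          (∀ ε : ℝ, ε > 0 → ∃ n : ℕ, ∀ p ∈ P, ∃ t : Fin (n + 1) → unitInterval,
              t 0 = 0 ∧ t (Fin.last n) = 1 ∧ StrictMono t ∧
              ∀ i : Fin n, Metric.diam (⇑p '' Set.Icc (t i.castSucc) (t i.succ)) ≤ ε) ∧
          (⋃ p ∈ P, Set.range ⇑p) = Set.univ) →
      (∀ a b : X, ∃ P : Set (Path a b),
          (∀ p ∈ P, Function.Injective ⇑p) ∧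
          (∀ ε : ℝ, ε > 0 → ∃ n : ℕ, ∀ p ∈ P, ∃ t : Fin (n + 1) → unitInterval,
              t 0 = 0 ∧ t (Fin.last n) = 1 ∧ StrictMono t ∧
              ∀ i : Fin n, Metric.diam (⇑p '' Set.Icc (t i.castSucc) (t i.succ)) ≤ ε) ∧
          (⋃ p ∈ P, Set.range ⇑p) =
            ⋃ (q : Path a b) (_ : Function.Injective ⇑q), Set.range ⇑q)) := by
  intro H
  obtain ⟨P, hP1, hP2, hP3⟩ := H X part1 hh bb
  obtain ⟨N, hN⟩ := hP2 (1 / 2) (by norm_num)
  have hv : vv (N + 1) ∈ ⋃ (q : Path hh bb) (_ : Function.Injective ⇑q), Set.range ⇑q := by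
    rw [mem_iUnion₂]
    exact ⟨arc (N + 1), arc_inj (N + 1), vv_mem_arc (N + 1)⟩
  rw [← hP3, mem_iUnion₂] at hv
  obtain ⟨p, hp, hvp⟩ := hv
  obtain ⟨T, hT0, hT1, -, hTd⟩ := hN p hp
  have := crossing (N + 1) p (hP1 p hp) hvp N T hT1 hTd hT0
  omega

end Pool.Agent.S09304
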