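import Pool.Statements.S09307
import Pool.Agent.H900.Str.Main
-- import your own Pool.Agent.* helpers here

set_option autoImplicit false
open Pool Pool.MP_94e842_gt

namespace Pool.Agent.S09307

/-- Any planar convex body whose boundary has the transitivity property is an ellipse. Transitivity: string construction at length ℓ1, then at any ℓ2 above the new perimeter, equals a single string construction at some ℓ3. -/
theorem result :
    ∀ K : Set (EuclideanSpace ℝ (Fin 2)), IsCompact K → Convex ℝ K → (interior K).Nonempty →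
      (∀ ℓ1 : ℝ, (MeasureTheory.Measure.hausdorffMeasure 1 (frontier K)).toReal < ℓ1 →
        ∀ ℓ2 : ℝ,
          (MeasureTheory.Measure.hausdorffMeasure 1
              (frontier {x : EuclideanSpace ℝ (Fin 2) |
                (MeasureTheory.Measure.hausdorffMeasure 1
                  (frontier (convexHull ℝ (insert x K)))).toReal ≤ ℓ1})).toReal < ℓ2 →
          ∃ ℓ3 : ℝ,
            {y : EuclideanSpace ℝ (Fin 2) |
              (MeasureTheory.Measure.hausdorffMeasure 1
                (frontier (convexHull ℝ (insert y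
                  {x : EuclideanSpace ℝ (Fin 2) |
                    (MeasureTheory.Measure.hausdorffMeasure 1
                      (frontier (convexHull ℝ (insert x K)))).toReal ≤ ℓ1})))).toReal = ℓ2}
            = {y : EuclideanSpace ℝ (Fin 2) |
              (MeasureTheory.Measure.hausdorffMeasure 1
                (frontier (convexHull ℝ (insert y K)))).toReal = ℓ3}) →
      ∃ f : EuclideanSpace ℝ (Fin 2) ≃ᵃ[ℝ] EuclideanSpace ℝ (Fin 2),
        K = f '' Metric.closedBall 0 1 := by
  intro K hK hconv hint h
  have hne : K.Nonempty := hint.mono interior_subset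
  apply Pool.Agent.H900.Str.ellipse_of_Tr hK hconv hint
  have hp : ∀ P, (MeasureTheory.Measure.hausdorffMeasure 1
      (frontier (convexHull ℝ (insert P K)))).toReal = Pool.Agent.H900.Str.L K P :=
    fun P => Pool.Agent.H900.Str.perim_hull hK hne hconv hint P
  have hl : (MeasureTheory.Measure.hausdorffMeasure 1 (frontier K)).toReal =
      Pool.Agent.H900.Str.len K := Pool.Agent.H900.Str.cauchy hK hconv hint
  intro ℓ1 hℓ1 ℓ2 hℓ2
  have hset : {x : EuclideanSpace ℝ (Fin 2) | (MeasureTheory.Measure.hausdorffMeasure 1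
      (frontier (convexHull ℝ (insert x K)))).toReal ≤ ℓ1} = Pool.Agent.H900.Str.Sub K ℓ1 := by
    ext x
    change (MeasureTheory.Measure.hausdorffMeasure 1
      (frontier (convexHull ℝ (insert x K)))).toReal ≤ ℓ1 ↔ Pool.Agent.H900.Str.L K x ≤ ℓ1
    rw [hp]
  have hSc := Pool.Agent.H900.Str.Sub_compact hK hne ℓ1
  have hSconv := Pool.Agent.H900.Str.Sub_convex hK hne ℓ1
  have hsub := Pool.Agent.H900.Str.sub_Sub hK hne hℓ1.le
  have hSint : (interior (Pool.Agent.H900.Str.Sub K ℓ1)).Nonempty :=
    hint.mono (interior_mono hsub)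
  have hSne : (Pool.Agent.H900.Str.Sub K ℓ1).Nonempty := hne.mono hsub
  obtain ⟨ℓ3, h3⟩ := h ℓ1 (by rw [hl]; exact hℓ1) ℓ2 (by
    rw [hset]
    have : (MeasureTheory.Measure.hausdorffMeasure 1
        (frontier (Pool.Agent.H900.Str.Sub K ℓ1))).toReal =
        Pool.Agent.H900.Str.len (Pool.Agent.H900.Str.Sub K ℓ1) :=
      Pool.Agent.H900.Str.cauchy hSc hSconv hSint
    rw [this]
    exact hℓ2)
  refine ⟨ℓ3, fun y => ?_⟩
  rw [hset] at h3
  have h4 := Set.ext_iff.1 h3 y
  have hp1 : (MeasureTheory.Measure.hausdorffMeasure 1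
      (frontier (convexHull ℝ (insert y (Pool.Agent.H900.Str.Sub K ℓ1))))).toReal =
      Pool.Agent.H900.Str.L (Pool.Agent.H900.Str.Sub K ℓ1) y :=
    Pool.Agent.H900.Str.perim_hull hSc hSne hSconv hSint y
  simp only [Set.mem_setOf_eq, hp, hp1] at h4
  exact h4

end Pool.Agent.S09307
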