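import Pool.Statements.S09319
import Pool.Agent.H864R2.Lieb

set_option autoImplicit false
open Pool Pool.MP_976da4_gt

namespace Pool.Agent.S09319

/-- Every smooth closed convex surface in 3-space on which any two points joined by two distinct shortest surface curves are joined by infinitely many must be a round sphere. -/
theorem result :
    ∀ f : EuclideanSpace ℝ (Fin 3) → ℝ,
      ContDiff ℝ ((⊤ : ℕ∞) : WithTop ℕ∞) f →
      Convex ℝ {x | f x ≤ 0} →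
      IsCompact {x | f x ≤ 0} →
      (interior {x | f x ≤ 0}).Nonempty →
      (∀ x, f x = 0 → fderiv ℝ f x ≠ 0) →
      (∀ x y : EuclideanSpace ℝ (Fin 3), f x = 0 → f y = 0 →
        ∀ 𝒜 : Set (Set (EuclideanSpace ℝ (Fin 3))),
          𝒜 = {A | ∃ γ : ℝ → EuclideanSpace ℝ (Fin 3),
                ContinuousOn γ (Set.Icc 0 1) ∧ γ 0 = x ∧ γ 1 = y ∧
                (∀ t ∈ Set.Icc (0:ℝ) 1, f (γ t) = 0) ∧
                (∀ δ : ℝ → EuclideanSpace ℝ (Fin 3),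
                  ContinuousOn δ (Set.Icc 0 1) → δ 0 = x → δ 1 = y →
                  (∀ t ∈ Set.Icc (0:ℝ) 1, f (δ t) = 0) →
                  eVariationOn γ (Set.Icc 0 1) ≤ eVariationOn δ (Set.Icc 0 1)) ∧
                γ '' Set.Icc 0 1 = A} →
          𝒜.Subsingleton ∨ 𝒜.Infinite) →
      ∃ c : EuclideanSpace ℝ (Fin 3), ∃ r : ℝ, 0 < r ∧ {x | f x = 0} = Metric.sphere c r := by
  intro f hf hconv hcpt hint hreg hM
  let S : Pool.Agent.H864R2.Surf := ⟨f, hf, hconv, hcpt, hint, hreg⟩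
  have hP : S.PropM := by
    intro x y hx hy
    have h := hM x y hx hy _ rfl
    have heq : {A : Set (EuclideanSpace ℝ (Fin 3)) | ∃ γ : ℝ → EuclideanSpace ℝ (Fin 3),
          S.Adm x y γ ∧ (∀ δ : ℝ → EuclideanSpace ℝ (Fin 3), S.Adm x y δ →
            eVariationOn γ (Set.Icc 0 1) ≤ eVariationOn δ (Set.Icc 0 1)) ∧ γ '' Set.Icc 0 1 = A} =
        {A | ∃ γ : ℝ → EuclideanSpace ℝ (Fin 3),
                ContinuousOn γ (Set.Icc 0 1) ∧ γ 0 = x ∧ γ 1 = y ∧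
                (∀ t ∈ Set.Icc (0:ℝ) 1, f (γ t) = 0) ∧
                (∀ δ : ℝ → EuclideanSpace ℝ (Fin 3),
                  ContinuousOn δ (Set.Icc 0 1) → δ 0 = x → δ 1 = y →
                  (∀ t ∈ Set.Icc (0:ℝ) 1, f (δ t) = 0) →
                  eVariationOn γ (Set.Icc 0 1) ≤ eVariationOn δ (Set.Icc 0 1)) ∧
                γ '' Set.Icc 0 1 = A} := by
      ext A
      constructor
      · rintro ⟨γ, ⟨h1, h2, h3, h4⟩, h5, h6⟩
        exact ⟨γ, h1, h2, h3, h4, fun δ d1 d2 d3 d4 => h5 δ ⟨d1, d2, d3, d4⟩, h6⟩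
      · rintro ⟨γ, h1, h2, h3, h4, h5, h6⟩
        exact ⟨γ, ⟨h1, h2, h3, h4⟩, fun δ ⟨d1, d2, d3, d4⟩ => h5 δ d1 d2 d3 d4, h6⟩
    rw [heq]
    exact h
  obtain ⟨c, r, hr, hs⟩ := S.on_sphere hP
  exact ⟨c, r, hr, S.eq_sphere hr hs⟩

end Pool.Agent.S09319
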