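import Pool.Statements.S09388

set_option autoImplicit false
open Pool Pool.MP_a6a8af_gt

namespace Pool.Agent.S09388

open Set Topology

abbrev T := UnitAddCircle
abbrev X := T × T × T
abbrev GG := ZMod 2 × ZMod 2

noncomputable def h : T := ((1 / 2 : ℝ) : T)

theorem h_add_h : h + h = 0 := by
  unfold h
  rw [← AddCircle.coe_add, AddCircle.coe_eq_zero_iff]
  exact ⟨1, by norm_num⟩

theorem neg_h : -h = h := by
  rw [neg_eq_iff_add_eq_zero]; exact h_add_h

theorem h_ne : h ≠ 0 := by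
  unfold h
  intro H
  rw [AddCircle.coe_eq_zero_iff] at H
  obtain ⟨n, hn⟩ := H
  simp only [zsmul_eq_mul, mul_one] at hn
  have h2 : (n : ℝ) * 2 = 1 := by rw [hn]; norm_num
  have h3 : n * 2 = 1 := by exact_mod_cast h2
  omega

noncomputable def sg (a : ZMod 2) (x : T) : T := if a = 0 then x else -x
noncomputable def sh (a : ZMod 2) : T := if a = 0 then 0 else h

theorem z2 (a : ZMod 2) : a = 0 ∨ a = 1 := by revert a; decide

theorem one_one : (1 : ZMod 2) + 1 = 0 := by decide

theorem one_ne : (1 : ZMod 2) ≠ 0 := by decide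

theorem sg_zero (x : T) : sg 0 x = x := by simp [sg]
theorem sh_zero : sh 0 = 0 := by simp [sh]
theorem sg_one (x : T) : sg 1 x = -x := by simp [sg, one_ne]
theorem sh_one : sh 1 = h := by simp [sh, one_ne]

theorem sg_sg (a b : ZMod 2) (x : T) : sg a (sg b x) = sg (a + b) x := by
  rcases z2 a with rfl | rfl <;> rcases z2 b with rfl | rfl <;>
    simp [sg_zero, sg_one, one_one]

theorem sg_add (a : ZMod 2) (x y : T) : sg a (x + y) = sg a x + sg a y := by
  unfold sg
  split_ifs
  · rfl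
  · rw [neg_add]

theorem sg_sh (a b : ZMod 2) : sg a (sh b) = sh b := by
  unfold sg sh
  split_ifs <;> simp [neg_h]

theorem sh_sh (a b : ZMod 2) : sh a + sh b = sh (a + b) := by
  rcases z2 a with rfl | rfl <;> rcases z2 b with rfl | rfl <;>
    simp [sh_zero, sh_one, one_one, h_add_h]

noncomputable def act (g : GG) (p : X) : X :=
  (sg g.2 p.1 + sh g.1, sg g.1 p.2.1 + sh (g.1 + g.2), sg (g.1 + g.2) p.2.2 + sh g.2)

theorem act_zero (p : X) : act 0 p = p := by
  unfold act
  simp [sg_zero, sh_zero]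

theorem act_add (g g' : GG) (p : X) : act (g + g') p = act g (act g' p) := by
  unfold act
  simp only [sg_add, sg_sg, sg_sh, Prod.fst_add, Prod.snd_add, add_assoc, sh_sh]
  refine Prod.ext ?_ (Prod.ext ?_ ?_)
  · simp only
    rw [add_comm g'.1 g.1]
  · simp only
    congr 2
    ring
  · simp only
    congr 2
    · ring
    · ring

noncomputable instance : AddAction GG X where
  vadd := act
  zero_vadd := act_zero
  add_vadd := act_add

theorem vadd_def (g : GG) (p : X) : g +ᵥ p = act g p := rfl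

theorem sg_cont (a : ZMod 2) : Continuous (sg a) := by
  unfold sg
  split_ifs
  · exact continuous_id
  · exact continuous_neg

instance : ContinuousConstVAdd GG X where
  continuous_const_vadd g := by
    show Continuous (act g)
    unfold act
    have h1 := sg_cont g.2
    have h2 := sg_cont g.1
    have h3 := sg_cont (g.1 + g.2)
    fun_prop

instance : IsCancelVAdd GG X := by
  rw [isCancelVAdd_iff_eq_zero_of_vadd_eq]
  rintro ⟨a, b⟩ ⟨x, y, z⟩ H
  rw [vadd_def] at H
  unfold act at H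
  simp only [Prod.mk.injEq] at H
  obtain ⟨h1, h2, h3⟩ := H
  rcases z2 a with rfl | rfl <;> rcases z2 b with rfl | rfl
  · rfl
  · exfalso
    simp [sg_zero, sh_one, h_ne] at h2
  · exfalso
    simp [sg_zero, sh_one, h_ne] at h1
  · exfalso
    simp [sg_zero, sh_one, h_ne, one_one] at h3

abbrev Y := Quotient (AddAction.orbitRel GG X)

noncomputable def f : X → Y := Quotient.mk _

theorem f_cov : IsAddQuotientCoveringMap f GG :=
  isAddQuotientCoveringMap_quotientMk_of_properlyDiscontinuousVAdd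

instance : LocallyPathConnectedSpace T :=
  (AddCircle.isAddQuotientCoveringMap_coe (1 : ℝ)).toIsQuotientMap.locallyPathConnectedSpace

instance : T2Space Y := t2Space_of_properlyDiscontinuousVAdd_of_t2Space

instance : SecondCountableTopology Y := ContinuousConstVAdd.secondCountableTopology

instance : CompactSpace Y := inferInstance

noncomputable instance metY : MetricSpace Y := TopologicalSpace.metrizableSpaceMetric Y

/-- projection from space -/
noncomputable def pr : ℝ × ℝ × ℝ → X := Prod.map (↑) (Prod.map (↑) (↑))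

theorem pr_open : IsOpenQuotientMap pr := by
  have h1 : IsOpenQuotientMap ((↑) : ℝ → T) :=
    (AddCircle.isAddQuotientCoveringMap_coe (1 : ℝ)).isOpenQuotientMap
  exact h1.prodMap (h1.prodMap h1)

abbrev E3 := ℝ × ℝ × ℝ

noncomputable def al (v : E3) : E3 := (v.1 + 1 / 2, -v.2.1 + 1 / 2, -v.2.2)
noncomputable def be (v : E3) : E3 := (-v.1, v.2.1 + 1 / 2, -v.2.2 + 1 / 2)

theorem pr_al (v : E3) : pr (al v) = ((1, 0) : GG) +ᵥ pr v := by
  rw [vadd_def]
  simp [pr, al, act, sg_zero, sg_one, sh_zero, sh_one, h]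

theorem pr_be (v : E3) : pr (be v) = ((0, 1) : GG) +ᵥ pr v := by
  rw [vadd_def]
  simp [pr, be, act, sg_zero, sg_one, sh_zero, sh_one, h]

theorem f_vadd (g : GG) (p : X) : f (g +ᵥ p) = f p := f_cov.map_vadd g

/-- lifting along the exponential covering -/
theorem exists_H (φ : C(Y, T)) : ∃ H : C(E3, ℝ), ∀ v, ((H v : ℝ) : T) = φ (f (pr v)) := by
  have hc : IsCoveringMap ((↑) : ℝ → T) := AddCircle.isCoveringMap_coe (1 : ℝ)
  have hcont : Continuous fun v : E3 => φ (f (pr v)) :=
    φ.continuous.comp (f_cov.isCoveringMap.continuous.comp pr_open.continuous)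
  obtain ⟨e0, he0⟩ := QuotientAddGroup.mk_surjective (φ (f (pr (0, 0, 0))))
  obtain ⟨H, ⟨-, hH⟩, -⟩ := hc.existsUnique_continuousMap_lifts ⟨_, hcont⟩ ((0, 0, 0) : E3) e0 he0
  exact ⟨H, fun v => congrFun hH v⟩

theorem const_diff (φ : C(Y, T)) (H : C(E3, ℝ)) (hH : ∀ v, ((H v : ℝ) : T) = φ (f (pr v)))
    (S : E3 → E3) (hS : Continuous S) (hf : ∀ v, f (pr (S v)) = f (pr v)) :
    ∃ c : ℝ, ∀ v, H (S v) = H v + c := by
  have hc : IsCoveringMap ((↑) : ℝ → T) := AddCircle.isCoveringMap_coe (1 : ℝ)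
  refine ⟨H (S 0) - H 0, fun v => ?_⟩
  have h0 : (((H (S 0) - H 0 : ℝ)) : T) = 0 := by
    rw [AddCircle.coe_sub, hH, hH, hf, sub_self]
  have := hc.eq_of_comp_eq (g₁ := fun v => H (S v)) (g₂ := fun v => H v + (H (S 0) - H 0))
    (H.continuous.comp hS) (by fun_prop) ?_ 0 (by ring)
  · exact congrFun this v
  · funext w
    show ((H (S w) : ℝ) : T) = ((H w + (H (S 0) - H 0) : ℝ) : T)
    rw [AddCircle.coe_add, h0, hH, hH, hf, add_zero]

theorem pr_e1 (v : E3) (n : ℤ) : pr (v.1 + n, v.2.1, v.2.2) = pr v := by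
  obtain ⟨a, b, c⟩ := v
  simp [pr]
theorem pr_e2 (v : E3) (n : ℤ) : pr (v.1, v.2.1 + n, v.2.2) = pr v := by
  obtain ⟨a, b, c⟩ := v
  simp [pr]
theorem pr_e3 (v : E3) (n : ℤ) : pr (v.1, v.2.1, v.2.2 + n) = pr v := by
  obtain ⟨a, b, c⟩ := v
  simp [pr]

theorem lift_exists (φ : C(Y, T)) : ∃ θ : C(Y, ℝ), ∀ y, ((θ y : ℝ) : T) = φ y := by
  obtain ⟨H, hH⟩ := exists_H φ
  have hal : ∀ v, f (pr (al v)) = f (pr v) := fun v => by rw [pr_al, f_vadd]
  have hbe : ∀ v, f (pr (be v)) = f (pr v) := fun v => by rw [pr_be, f_vadd]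
  obtain ⟨ca, hca⟩ := const_diff φ H hH al (by unfold al; fun_prop) hal
  obtain ⟨cb, hcb⟩ := const_diff φ H hH be (by unfold be; fun_prop) hbe
  have t1 : ∀ n : ℤ, ∃ c : ℝ, ∀ v : E3, H (v.1 + n, v.2.1, v.2.2) = H v + c := fun n =>
    const_diff φ H hH (fun v => (v.1 + n, v.2.1, v.2.2)) (by fun_prop) (fun v => by rw [pr_e1])
  have t2 : ∀ n : ℤ, ∃ c : ℝ, ∀ v : E3, H (v.1, v.2.1 + n, v.2.2) = H v + c := fun n =>
    const_diff φ H hH (fun v => (v.1, v.2.1 + n, v.2.2)) (by fun_prop) (fun v => by rw [pr_e2])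
  have t3 : ∀ n : ℤ, ∃ c : ℝ, ∀ v : E3, H (v.1, v.2.1, v.2.2 + n) = H v + c := fun n =>
    const_diff φ H hH (fun v => (v.1, v.2.1, v.2.2 + n)) (by fun_prop) (fun v => by rw [pr_e3])
  -- the translations act trivially
  have T2 : ∀ (n : ℤ) (v : E3), H (v.1, v.2.1 + n, v.2.2) = H v := by
    intro n
    obtain ⟨c, hc⟩ := t2 n
    have e1 := hca (0, 0 + n, 0)
    have e2 := hc (al (0, 0 + n, 0))
    have e3 := hc (0, 0, 0)
    have e4 := hca (0, 0, 0)
    have e5 : ((al (0, 0 + (n : ℝ), 0)).1, (al (0, 0 + (n : ℝ), 0)).2.1 + (n : ℝ), (al (0, 0 + (n : ℝ), 0)).2.2) = al (0, 0, 0) := by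
      unfold al; simp
    rw [e5] at e2
    have : c = 0 := by linarith
    intro v; rw [hc v, this, add_zero]
  have T3 : ∀ (n : ℤ) (v : E3), H (v.1, v.2.1, v.2.2 + n) = H v := by
    intro n
    obtain ⟨c, hc⟩ := t3 n
    have e1 := hca (0, 0, 0 + n)
    have e2 := hc (al (0, 0, 0 + n))
    have e3 := hc (0, 0, 0)
    have e4 := hca (0, 0, 0)
    have e5 : ((al (0, 0, 0 + (n : ℝ))).1, (al (0, 0, 0 + (n : ℝ))).2.1, (al (0, 0, 0 + (n : ℝ))).2.2 + (n : ℝ)) = al (0, 0, 0) := by
      unfold al; simp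
    rw [e5] at e2
    have : c = 0 := by linarith
    intro v; rw [hc v, this, add_zero]
  have T1 : ∀ (n : ℤ) (v : E3), H (v.1 + n, v.2.1, v.2.2) = H v := by
    intro n
    obtain ⟨c, hc⟩ := t1 n
    have e1 := hcb (0 + n, 0, 0)
    have e2 := hc (be (0 + n, 0, 0))
    have e3 := hc (0, 0, 0)
    have e4 := hcb (0, 0, 0)
    have e5 : ((be (0 + (n : ℝ), 0, 0)).1 + (n : ℝ), (be (0 + (n : ℝ), 0, 0)).2.1, (be (0 + (n : ℝ), 0, 0)).2.2) = be (0, 0, 0) := by
      unfold be; simp
    rw [e5] at e2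
    have : c = 0 := by linarith
    intro v; rw [hc v, this, add_zero]
  have ca0 : ca = 0 := by
    have e1 := hca (0, 0, 0)
    have e2 := hca (al (0, 0, 0))
    have e3 := T1 1 (0, 0, 0)
    have e4 : al (al (0, 0, 0)) = (((0, 0, 0) : E3).1 + ((1 : ℤ) : ℝ), ((0, 0, 0) : E3).2.1, ((0, 0, 0) : E3).2.2) := by
      unfold al; simp; norm_num
    rw [e4] at e2
    linarith
  have cb0 : cb = 0 := by
    have e1 := hcb (0, 0, 0)
    have e2 := hcb (be (0, 0, 0))
    have e3 := T2 1 (0, 0, 0)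
    have e4 : be (be (0, 0, 0)) = (((0, 0, 0) : E3).1, ((0, 0, 0) : E3).2.1 + ((1 : ℤ) : ℝ), ((0, 0, 0) : E3).2.2) := by
      unfold be; simp; norm_num
    rw [e4] at e2
    linarith
  subst ca0 cb0
  simp only [add_zero] at hca hcb
  have hpr : ∀ v w : E3, pr v = pr w → H v = H w := by
    rintro ⟨a, b, c⟩ ⟨a', b', c'⟩ hvw
    simp only [pr, Prod.map_apply, Prod.mk.injEq] at hvw
    obtain ⟨h1, h2, h3⟩ := hvw
    rw [← sub_eq_zero, ← AddCircle.coe_sub, AddCircle.coe_eq_zero_iff] at h1 h2 h3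
    obtain ⟨n1, h1⟩ := h1
    obtain ⟨n2, h2⟩ := h2
    obtain ⟨n3, h3⟩ := h3
    simp only [zsmul_eq_mul, mul_one] at h1 h2 h3
    have e1 : a = a' + n1 := by linarith
    have e2 : b = b' + n2 := by linarith
    have e3 : c = c' + n3 := by linarith
    rw [e1, e2, e3]
    have s1 := T1 n1 (a', b' + n2, c' + n3)
    have s2 := T2 n2 (a', b', c' + n3)
    have s3 := T3 n3 (a', b', c')
    simp only at s1 s2 s3
    rw [s1, s2, s3]
  have hcomp : IsOpenQuotientMap (f ∘ pr) := f_cov.isOpenQuotientMap.comp pr_open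
  have hfac : Function.FactorsThrough H (f ∘ pr) := by
    intro v w hvw
    have : f (pr v) = f (pr w) := hvw
    obtain ⟨⟨a, b⟩, hg⟩ := f_cov.apply_eq_iff_mem_orbit.mp this
    simp only at hg
    rcases z2 a with rfl | rfl <;> rcases z2 b with rfl | rfl
    · have : ((0, 0) : GG) +ᵥ pr w = pr w := zero_vadd _ _
      rw [this] at hg
      exact hpr _ _ hg.symm
    · rw [← pr_be] at hg
      rw [hpr _ _ hg.symm, hcb]
    · rw [← pr_al] at hg
      rw [hpr _ _ hg.symm, hca]
    · have e : ((1, 1) : GG) = (1, 0) + (0, 1) := by simp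
      rw [e, add_vadd, ← pr_be, ← pr_al] at hg
      rw [hpr _ _ hg.symm, hca, hcb]
  let F : C(E3, Y) := ⟨f ∘ pr, hcomp.continuous⟩
  have hF : IsQuotientMap F := hcomp.isQuotientMap
  refine ⟨hF.lift H hfac, fun y => ?_⟩
  obtain ⟨v, rfl⟩ := hcomp.surjective y
  have : hF.lift H hfac ((f ∘ pr) v) = H v := by
    have := hF.lift_comp H hfac
    exact congrArg (fun g : C(E3, ℝ) => g v) this
  rw [this, hH]; rfl

theorem uni (A B : Set Y) (hA : IsClosed A) (hB : IsClosed B) (hAc : IsConnected A)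
    (hBc : IsConnected B) (hAB : A ∪ B = univ) : IsConnected (A ∩ B) := by
  have hpre : IsPreconnected (univ : Set Y) := isPreconnected_univ
  constructor
  · have := isPreconnected_closed_iff.mp hpre A B hA hB (by rw [hAB])
      (by simpa using hAc.nonempty) (by simpa using hBc.nonempty)
    simpa using this
  · rw [isPreconnected_closed_iff]
    intro t t' ht ht' hsub h1 h2
    by_contra hcon
    set P := A ∩ B ∩ t with hP
    set Q := A ∩ B ∩ t' with hQ
    have hPc : IsClosed P := (hA.inter hB).inter ht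
    have hQc : IsClosed Q := (hA.inter hB).inter ht'
    have hdis : Disjoint P Q := by
      rw [Set.disjoint_iff]
      rintro y ⟨hy1, hy2⟩
      exact hcon ⟨y, hy1.1, hy1.2, hy2.2⟩
    obtain ⟨g, hg0, hg1, -⟩ := exists_continuous_zero_one_of_isClosed hPc hQc hdis
    obtain ⟨p0, hp0⟩ := h1
    obtain ⟨q0, hq0⟩ := h2
    classical
    let u : Y → T := fun y => if y ∈ A then ((g y / 2 : ℝ) : T) else ((-(g y) / 2 : ℝ) : T)
    have huA : EqOn u (fun y => ((g y / 2 : ℝ) : T)) A := fun y hy => by simp [u, hy]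
    have huB : EqOn u (fun y => ((-(g y) / 2 : ℝ) : T)) B := by
      intro y hy
      by_cases hyA : y ∈ A
      · rw [huA hyA]
        have hy' : y ∈ t ∪ t' := hsub ⟨hyA, hy⟩
        rcases hy' with hy' | hy'
        · have : g y = 0 := hg0 (⟨⟨hyA, hy⟩, hy'⟩ : y ∈ P)
          simp [this]
        · have : g y = 1 := hg1 (⟨⟨hyA, hy⟩, hy'⟩ : y ∈ Q)
          simp only [this]
          rw [← sub_eq_zero, ← AddCircle.coe_sub, AddCircle.coe_eq_zero_iff]
          exact ⟨1, by norm_num⟩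
      · simp [u, hyA]
    have hcA : ContinuousOn u A := by
      refine ContinuousOn.congr ?_ huA
      exact ((AddCircle.continuous_mk' (1 : ℝ)).comp (by fun_prop)).continuousOn
    have hcB : ContinuousOn u B := by
      refine ContinuousOn.congr ?_ huB
      exact ((AddCircle.continuous_mk' (1 : ℝ)).comp (by fun_prop)).continuousOn
    have hu : Continuous u := by
      rw [← continuousOn_univ, ← hAB]
      exact hcA.union_of_isClosed hcB hA hB
    obtain ⟨θ, hθ⟩ := lift_exists ⟨u, hu⟩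
    have hc : IsCoveringMap ((↑) : ℝ → T) := AddCircle.isCoveringMap_coe (1 : ℝ)
    have gp0 : g p0 = 0 := hg0 hp0
    have gq0 : g q0 = 1 := hg1 hq0
    have θp0 : ((θ p0 : ℝ) : T) = 0 := by
      rw [hθ]
      show u p0 = 0
      rw [huA hp0.1.1]; simp [gp0]
    have EA := hc.eqOn_of_comp_eqOn (g₁ := θ) (g₂ := fun y => g y / 2 + θ p0) hAc.isPreconnected
      θ.continuous.continuousOn (by fun_prop) (by
        intro y hy
        show ((θ y : ℝ) : T) = ((g y / 2 + θ p0 : ℝ) : T)
        rw [AddCircle.coe_add, θp0, add_zero, hθ]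
        exact huA hy) hp0.1.1 (by simp [gp0])
    have EB := hc.eqOn_of_comp_eqOn (g₁ := θ) (g₂ := fun y => -(g y) / 2 + θ p0) hBc.isPreconnected
      θ.continuous.continuousOn (by fun_prop) (by
        intro y hy
        show ((θ y : ℝ) : T) = ((-(g y) / 2 + θ p0 : ℝ) : T)
        rw [AddCircle.coe_add, θp0, add_zero, hθ]
        exact huB hy) hp0.1.2 (by simp [gp0])
    have a1 := EA hq0.1.1
    have a2 := EB hq0.1.2
    simp only [gq0] at a1 a2
    linarith

theorem nonuni : ∃ A B : Set X, IsClosed A ∧ IsClosed B ∧ IsConnected A ∧ IsConnected B ∧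
          A ∪ B = Set.univ ∧ ¬ IsConnected (A ∩ B) := by
  have hcoe : Continuous ((↑) : ℝ → T) := AddCircle.continuous_mk' (1 : ℝ)
  set S : Set T := ((↑) : ℝ → T) '' Icc 0 (1 / 2) with hS
  set S' : Set T := ((↑) : ℝ → T) '' Icc (1 / 2) 1 with hS'
  have hSc : IsClosed S := (isCompact_Icc.image hcoe).isClosed
  have hS'c : IsClosed S' := (isCompact_Icc.image hcoe).isClosed
  have hSi : IsConnected S := (isConnected_Icc (by norm_num)).image _ hcoe.continuousOn
  have hS'i : IsConnected S' := (isConnected_Icc (by norm_num)).image _ hcoe.continuousOn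
  refine ⟨S ×ˢ univ, S' ×ˢ univ, hSc.prod isClosed_univ, hS'c.prod isClosed_univ,
    hSi.prod isConnected_univ, hS'i.prod isConnected_univ, ?_, ?_⟩
  · rw [← union_prod]
    have : S ∪ S' = univ := by
      rw [eq_univ_iff_forall]
      intro x
      obtain ⟨r, hr, rfl⟩ : ∃ r ∈ Ico (0 : ℝ) 1, (r : T) = x := by
        have := AddCircle.coe_image_Ico_eq (1 : ℝ) 0
        have hx : x ∈ ((↑) : ℝ → T) '' Ico (0 : ℝ) (0 + 1) := by rw [this]; trivial
        obtain ⟨r, hr, rfl⟩ := hx
        exact ⟨r, by simpa using hr, rfl⟩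
      rcases le_total r (1 / 2) with hle | hle
      · left; exact ⟨r, ⟨hr.1, hle⟩, rfl⟩
      · right; exact ⟨r, ⟨hle, hr.2.le⟩, rfl⟩
    rw [this, univ_prod_univ]
  · intro hcon
    have h1 : Prod.fst '' (S ×ˢ (univ : Set (T × T)) ∩ S' ×ˢ (univ : Set (T × T))) = S ∩ S' := by
      ext x
      constructor
      · rintro ⟨⟨x, y⟩, ⟨h1, h2⟩, rfl⟩
        exact ⟨h1.1, h2.1⟩
      · rintro ⟨h1, h2⟩
        exact ⟨(x, 0), ⟨⟨h1, trivial⟩, ⟨h2, trivial⟩⟩, rfl⟩
    have h2 : IsPreconnected (S ∩ S') := by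
      rw [← h1]; exact hcon.isPreconnected.image _ continuous_fst.continuousOn
    rw [isPreconnected_closed_iff] at h2
    have m0 : (0 : T) ∈ S ∩ S' := by
      refine ⟨⟨0, by constructor <;> norm_num, by simp⟩, ⟨1, by constructor <;> norm_num, ?_⟩⟩
      rw [AddCircle.coe_eq_zero_iff]; exact ⟨1, by simp⟩
    have mh : h ∈ S ∩ S' :=
      ⟨⟨1 / 2, by constructor <;> norm_num, rfl⟩, ⟨1 / 2, by constructor <;> norm_num, rfl⟩⟩
    have hsub : S ∩ S' ⊆ {0} ∪ {h} := by
      rintro x ⟨⟨r, hr, rfl⟩, ⟨s, hs, hrs⟩⟩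
      rw [← sub_eq_zero, ← AddCircle.coe_sub, AddCircle.coe_eq_zero_iff] at hrs
      obtain ⟨n, hn⟩ := hrs
      simp only [zsmul_eq_mul, mul_one] at hn
      have b1 : (-1 : ℝ) < n := by rw [hn]; linarith [hr.2, hs.1]
      have b2 : (n : ℝ) < 2 := by rw [hn]; linarith [hr.1, hs.2]
      have b1' : (-1 : ℤ) < n := by exact_mod_cast b1
      have b2' : n < 2 := by exact_mod_cast b2
      have b3 : n = 0 ∨ n = 1 := by omega
      rcases b3 with rfl | rfl
      · right
        have : r = 1 / 2 := by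
          have := hr.2; have := hs.1; push_cast at hn; linarith
        rw [this]; rfl
      · left
        have : r = 0 := by
          have := hr.1; have := hs.2; push_cast at hn; linarith
        rw [this]; simp
    obtain ⟨x, -, hx1, hx2⟩ := h2 {0} {h} isClosed_singleton isClosed_singleton hsub
      ⟨0, m0, rfl⟩ ⟨h, mh, rfl⟩
    rw [mem_singleton_iff] at hx1 hx2
    exact h_ne (hx2 ▸ hx1)

/-- The negation of the preceding statement: If X is a locally connected metric continuum that is a union of two subcontinua with disconnected intersection, and f is a local homeomorphism of X onto a metric space Y, then Y is also such a union. -/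
theorem result :
    ¬ (∀ (X Y : Type) [MetricSpace X] [CompactSpace X] [ConnectedSpace X]
      [LocallyConnectedSpace X] [MetricSpace Y] (f : X → Y),
      IsLocalHomeomorph f → Function.Surjective f →
      (∃ A B : Set X, IsClosed A ∧ IsClosed B ∧ IsConnected A ∧ IsConnected B ∧
          A ∪ B = Set.univ ∧ ¬ IsConnected (A ∩ B)) →
      (∃ A B : Set Y, IsClosed A ∧ IsClosed B ∧ IsConnected A ∧ IsConnected B ∧
          A ∪ B = Set.univ ∧ ¬ IsConnected (A ∩ B))) := by
  intro H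
  obtain ⟨A, B, hA, hB, hAc, hBc, hAB, hn⟩ :=
    H X Y f f_cov.isCoveringMap.isLocalHomeomorph f_cov.surjective nonuni
  exact hn (uni A B hA hB hAc hBc hAB)

end Pool.Agent.S09388
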