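import Pool.Statements.S09457
import Pool.Agent.H900.Tor.Final

set_option autoImplicit false
open Pool Pool.MP_b892c7_gt

namespace Pool.Agent.S09457

/-- There is an absolute constant C such that for every n ≥ 1 and every full-rank lattice L in ℝⁿ, the flat torus ℝⁿ/L (distance = distance to L of u−v) embeds into ℓ² with distortion at most C√n. -/
theorem result :
    ∃ C : ℝ, 0 < C ∧ ∀ n : ℕ, 1 ≤ n →
      ∀ (L : Submodule ℤ (EuclideanSpace ℝ (Fin n))) [DiscreteTopology L] [IsZLattice ℝ L],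
        ∃ (f : EuclideanSpace ℝ (Fin n) → lp (fun _ : ℕ => ℝ) 2) (s : ℝ), 0 < s ∧
          ∀ u v : EuclideanSpace ℝ (Fin n),
            s * Metric.infDist (u - v) (L : Set (EuclideanSpace ℝ (Fin n))) ≤ ‖f u - f v‖ ∧
            ‖f u - f v‖ ≤ C * Real.sqrt n * s *
              Metric.infDist (u - v) (L : Set (EuclideanSpace ℝ (Fin n))) := by
  refine ⟨3, by norm_num, fun n hn L _ _ => ?_⟩
  have hn0 : (0:ℝ) < n := by exact_mod_cast hn
  have hτ : (0:ℝ) < 1 / (4 * n) := by positivity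
  obtain ⟨F, hF⟩ := Pool.Agent.H900.Tor.embed L hτ
  set V : ℝ := (MeasureTheory.volume : MeasureTheory.Measure (EuclideanSpace ℝ (Fin n))).real
    (Pool.Agent.H900.Tor.dom L) with hV
  have hVpos : 0 < V := by
    rw [hV]
    exact ENNReal.toReal_pos (Pool.Agent.H900.Tor.dom_ne_zero L)
      (Pool.Agent.H900.Tor.dom_lt_top L).ne
  have hT : (3:ℝ) / 4 ≤ ((1 + 1 / (4 * (n:ℝ)))⁻¹) ^ n := by
    have h1 : 1 - 1 / (4 * (n:ℝ)) ≤ (1 + 1 / (4 * (n:ℝ)))⁻¹ := by
      rw [le_inv_comm₀ (by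
        have : 1 / (4 * (n:ℝ)) < 1 := by
          rw [div_lt_one (by positivity)]
          have : (1:ℝ) ≤ n := by exact_mod_cast hn
          linarith
        linarith) (by positivity)]
      have hx : 1 / (4 * (n:ℝ)) < 1 := by
        rw [div_lt_one (by positivity)]
        have : (1:ℝ) ≤ n := by exact_mod_cast hn
        linarith
      set x := 1 / (4 * (n:ℝ)) with hxd
      rw [le_inv_comm₀ (by linarith) (by linarith), ← one_div, le_div_iff₀ (by linarith)]
      nlinarith [sq_nonneg x]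
    have h2 : (1:ℝ) - 1 / 4 ≤ (1 - 1 / (4 * (n:ℝ))) ^ n := by
      have h3 := one_add_mul_le_pow (a := -(1 / (4 * (n:ℝ)))) (by
        have : 1 / (4 * (n:ℝ)) < 1 := by
          rw [div_lt_one (by positivity)]
          have : (1:ℝ) ≤ n := by exact_mod_cast hn
          linarith
        linarith) n
      have h4 : (n:ℝ) * -(1 / (4 * (n:ℝ))) = -(1 / 4) := by field_simp
      rw [h4] at h3
      simpa [sub_eq_add_neg] using h3
    have h0 : 0 ≤ 1 - 1 / (4 * (n:ℝ)) := by
      have : 1 / (4 * (n:ℝ)) ≤ 1 := by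
        rw [div_le_one (by positivity)]
        have : (1:ℝ) ≤ n := by exact_mod_cast hn
        linarith
      linarith
    have := pow_le_pow_left₀ h0 h1 n
    linarith
  refine ⟨F, Real.sqrt (V / 2), Real.sqrt_pos.2 (by positivity), fun u v => ?_⟩
  set δ := Metric.infDist (u - v) (L : Set (EuclideanSpace ℝ (Fin n))) with hδ
  have hδ0 : 0 ≤ δ := Metric.infDist_nonneg
  have hlow := Pool.Agent.H900.Tor.N_lower L hτ u v
  have hup := Pool.Agent.H900.Tor.N_upper L hτ u v
  rw [← hF, ← hV, ← hδ, finrank_euclideanSpace_fin] at hlow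
  rw [← hF, ← hV, ← hδ] at hup
  have hs : Real.sqrt (V / 2) ^ 2 = V / 2 := Real.sq_sqrt (by positivity)
  have hsn : Real.sqrt n ^ 2 = n := Real.sq_sqrt (by positivity)
  constructor
  · apply le_of_sq_le_sq _ (norm_nonneg _)
    rw [mul_pow, hs]
    refine le_trans ?_ hlow
    have : V / 2 ≤ (2 * ((1 + 1 / (4 * (n:ℝ)))⁻¹) ^ n - 1) * V := by nlinarith
    nlinarith [mul_le_mul_of_nonneg_left this (sq_nonneg δ)]
  · apply le_of_sq_le_sq _ (by positivity)
    refine hup.trans ?_
    rw [mul_pow, mul_pow, mul_pow, hs, hsn]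
    have : δ ^ 2 / (1 / (4 * (n:ℝ))) = 4 * n * δ ^ 2 := by field_simp
    rw [this]
    have h5 : 0 ≤ V * (n * δ ^ 2) := by positivity
    nlinarith

end Pool.Agent.S09457
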