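import Pool.Statements.S09470
import Pool.Agent.H866R2.CM.NotZ

set_option autoImplicit false
open Pool Pool.MP_bb3fde_gt

namespace Pool.Agent.S09470

/-- The negation of the preceding statement: For all Hausdorff spaces X, Y and every continuous closed surjection f from Y onto a space Z: if X × Y is paracompact, then X × Z is paracompact. -/
theorem result :
    ¬ (∀ (X Y Z : Type) [TopologicalSpace X] [TopologicalSpace Y] [TopologicalSpace Z]
      [T2Space X] [T2Space Y] (f : Y → Z),
      Continuous f → IsClosedMap f → Function.Surjective f →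
      ParacompactSpace (X × Y) → ParacompactSpace (X × Z)) := by
  intro h
  haveI : T2Space (Pool.Agent.H866R2.CM.XX ℝ) := Pool.Agent.H866R2.CM.t2_XX
  haveI : T2Space (Pool.Agent.H866R2.CM.YY ℝ) := Pool.Agent.H866R2.CM.t2_YY
  exact Pool.Agent.H866R2.CM.not_paracompact_XZ (H := ℝ)
    (h (Pool.Agent.H866R2.CM.XX ℝ) (Pool.Agent.H866R2.CM.YY ℝ) (Pool.Agent.H866R2.CM.ZZ ℝ)
      Pool.Agent.H866R2.CM.ff Pool.Agent.H866R2.CM.continuous_ff Pool.Agent.H866R2.CM.closed_ff
      Pool.Agent.H866R2.CM.surjective_ff Pool.Agent.H866R2.CM.upc_XY.paracompact)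

end Pool.Agent.S09470
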