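import Pool.Statements.S09509
import Pool.Agent.H908R2.JOmega

set_option autoImplicit false
open Pool Pool.MP_c1092b_gt

namespace Pool.Agent.S09509

/-- There is a dcpo with a well-filtered T0 topology whose point closures are the principal down-sets, while no sober topology on it has point closures equal to the principal down-sets. -/
theorem result :
    ∃ (P : Type) (_ : PartialOrder P),
      (∀ d : Set P, d.Nonempty → DirectedOn (· ≤ ·) d → ∃ x : P, IsLUB d x) ∧
      (∃ t : TopologicalSpace P,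
        (∀ x : P, @closure P t {x} = Set.Iic x) ∧ @T0Space P t ∧
        (∀ 𝒦 : Set (Set P), 𝒦.Nonempty → DirectedOn (· ⊇ ·) 𝒦 →
          (∀ K ∈ 𝒦, @IsCompact P t K ∧ IsUpperSet K) →
          ∀ U : Set P, @IsOpen P t U → ⋂₀ 𝒦 ⊆ U → ∃ K ∈ 𝒦, K ⊆ U)) ∧
      ¬ ∃ t : TopologicalSpace P,
        (∀ x : P, @closure P t {x} = Set.Iic x) ∧ @T0Space P t ∧ @QuasiSober P t := by
  obtain ⟨W, hlin, hwf, w₀, hW⟩ := Pool.Agent.H908R2.JOmega.exists_W
  refine ⟨Pool.Agent.H908R2.JOmega.JP W, inferInstance, Pool.Agent.H908R2.JOmega.dcpo,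
    ⟨inferInstance, fun x => Topology.IsScott.closure_singleton, inferInstance, ?_⟩, ?_⟩
  · intro 𝒦 hne hdir h𝒦 U hU hsub
    exact Pool.Agent.H908R2.JOmega.wellFiltered hW 𝒦 hne hdir h𝒦 U hU hsub
  · rintro ⟨t, hcl, _, hs⟩
    exact @Pool.Agent.H908R2.JOmega.not_sober W hlin hW w₀ t hcl hs

end Pool.Agent.S09509
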