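import Pool.Statements.S09517
-- import your own Pool.Agent.* helpers here

set_option autoImplicit false
open Pool Pool.MP_c36963_gt

namespace Pool.Agent.S09517

/-- There exists r : ℂ → ℂ mapping the closed unit disk into the unit circle, fixing the circle, with connected fibers in the disk, such that only finitely many circle points y fail: for all circle sequences s_n → y, every point of the Kuratowski lim sup of the fibers r⁻¹(s_n) lies in r⁻¹(y). -/
theorem result :
    ∃ r : ℂ → ℂ,
      (∀ z ∈ Metric.closedBall (0:ℂ) 1, r z ∈ Metric.sphere (0:ℂ) 1) ∧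
      (∀ y ∈ Metric.sphere (0:ℂ) 1, r y = y) ∧
      (∀ y ∈ Metric.sphere (0:ℂ) 1,
        IsConnected {z : ℂ | z ∈ Metric.closedBall (0:ℂ) 1 ∧ r z = y}) ∧
      Set.Finite {y : ℂ | y ∈ Metric.sphere (0:ℂ) 1 ∧
        ¬ (∀ s : ℕ → ℂ, (∀ n, s n ∈ Metric.sphere (0:ℂ) 1) →
            Filter.Tendsto s Filter.atTop (nhds y) →
            ∀ x : ℂ, (∀ ε : ℝ, ε > 0 → ∀ N : ℕ, ∃ n : ℕ, n ≥ N ∧
                ∃ z : ℂ, z ∈ Metric.closedBall (0:ℂ) 1 ∧ r z = s n ∧ dist z x < ε) →
              r x = y)} := by
  classical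
  refine ⟨fun z => if ‖z‖ = 1 then z else 1, ?_, ?_, ?_, ?_⟩
  · intro z hz
    by_cases h : ‖z‖ = 1
    · simp [h]
    · simp [h]
  · intro y hy
    have h : ‖y‖ = 1 := by simpa using hy
    simp [h]
  · intro y hy
    have hy1 : ‖y‖ = 1 := by simpa using hy
    by_cases h1 : y = 1
    · subst h1
      have hb : IsConnected (Metric.ball (0:ℂ) 1) :=
        (convex_ball (0:ℂ) 1).isConnected ⟨0, by simp⟩
      refine hb.subset_closure ?_ ?_
      · intro z hz
        have hz' : ‖z‖ < 1 := by simpa using hz
        refine ⟨Metric.ball_subset_closedBall hz, ?_⟩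
        simp [hz'.ne]
      · rw [closure_ball (0:ℂ) one_ne_zero]
        exact fun z hz => hz.1
    · have : {z : ℂ | z ∈ Metric.closedBall (0:ℂ) 1 ∧ (if ‖z‖ = 1 then z else 1) = y} = {y} := by
        ext z
        constructor
        · rintro ⟨_, hz⟩
          by_cases h : ‖z‖ = 1
          · simpa [h] using hz
          · exact absurd (by simpa [h] using hz.symm) h1
        · rintro rfl
          refine ⟨by simp [hy1], by simp [hy1]⟩
      rw [this]
      exact isConnected_singleton
  · refine (Set.finite_singleton (1:ℂ)).subset ?_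
    rintro y ⟨hy, hbad⟩
    by_contra hne
    apply hbad
    intro s hs hlim x hx
    have hy1 : ‖y‖ = 1 := by simpa using hy
    have hev : ∀ᶠ n in Filter.atTop, s n ≠ 1 := hlim.eventually_ne hne
    have hxy : x = y := by
      refine eq_of_forall_dist_le ?_
      intro ε hε
      have hev2 : ∀ᶠ n in Filter.atTop, dist (s n) y < ε / 2 :=
        (Metric.tendsto_nhds.1 hlim) (ε / 2) (half_pos hε)
      obtain ⟨N, hN⟩ := Filter.eventually_atTop.1 (hev.and hev2)
      obtain ⟨n, hn, z, hz, hrz, hd⟩ := hx (ε / 2) (half_pos hε) N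
      obtain ⟨h1, h2⟩ := hN n hn
      have hzs : z = s n := by
        by_cases h : ‖z‖ = 1
        · simpa [h] using hrz
        · exact absurd (by simpa [h] using hrz.symm) h1
      rw [hzs] at hd
      have := dist_triangle x (s n) y
      rw [dist_comm x (s n)] at this
      linarith
    rw [hxy]
    simp [hy1]

end Pool.Agent.S09517
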