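import Pool.Statements.S09590
import Pool.Agent.Helper495.KO.Final

set_option autoImplicit false
open Pool Pool.MP_d0cb45_gt

namespace Pool.Agent.S09590

/-- The negation of the preceding statement: For Tychonoff spaces X and Y whose spaces of continuous real functions with the pointwise topology are homeomorphic, if X is a hemicompact k-space then so is Y. -/
theorem result :
    ¬ (∀ (X Y : Type) [TopologicalSpace X] [TopologicalSpace Y] [T35Space X] [T35Space Y],
      Nonempty ({f : X → ℝ // Continuous f} ≃ₜ {g : Y → ℝ // Continuous g}) →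
      (CompactlyGeneratedSpace X ∧
        ∃ K : ℕ → Set X, (∀ n, IsCompact (K n)) ∧ ∀ C : Set X, IsCompact C → ∃ n, C ⊆ K n) →
      (CompactlyGeneratedSpace Y ∧
        ∃ K : ℕ → Set Y, (∀ n, IsCompact (K n)) ∧ ∀ C : Set Y, IsCompact C → ∃ n, C ⊆ K n)) := by
  intro h
  refine Pool.Agent.Helper495.KO.main ?_
  intro X Y _ _ _ _ hu hX
  obtain ⟨u⟩ := hu
  have hcX : CompactlyGeneratedSpace X := compactlyGeneratedSpace_of_isClosed_of_t2 hX.2
  obtain ⟨hcY, hK⟩ := h X Y ⟨u.toHomeomorph⟩ ⟨hcX, hX.1⟩
  exact ⟨hK, fun A hA => CompactlyGeneratedSpace.isClosed (fun C hC => hA C hC)⟩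

end Pool.Agent.S09590
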