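import Pool.Statements.S09601
import Pool.Agent.Helper739.CGUnion

set_option autoImplicit false
open Pool Pool.MP_d2d3ba_gt

namespace Pool.Agent.S09601

open Set Topology
open Pool.Agent.Helper739.CT (Ctm)
open Pool.Agent.Helper739.CG (Two NoTriod SZ)

/-- preimage in a subtype of a compact connected subset -/
theorem ctm_pre {X : Type} [TopologicalSpace X] {S A : Set X} (hAS : A ⊆ S) (hA : Ctm A) :
    Ctm (Subtype.val ⁻¹' A : Set S) := by
  refine ⟨?_, ?_⟩
  · rw [Topology.IsEmbedding.subtypeVal.isCompact_iff, Subtype.image_preimage_coe,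
      inter_eq_self_of_subset_right hAS]
    exact hA.1
  · refine ⟨?_, ?_⟩
    · obtain ⟨x, hx⟩ := hA.2.1
      exact ⟨⟨x, hAS hx⟩, hx⟩
    · rw [← Topology.IsInducing.subtypeVal.isPreconnected_image, Subtype.image_preimage_coe,
        inter_eq_self_of_subset_right hAS]
      exact hA.2.2

theorem disj_closure {X : Type} [TopologicalSpace X] {S : Set X} {A B : Set S}
    (hS : IsClosed S)
    (h : Disjoint (closure A) B) :
    Disjoint (closure (Subtype.val '' A : Set X)) (Subtype.val '' B) := by
  rw [hS.isClosedEmbedding_subtypeVal.closure_image_eq]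
  exact (disjoint_image_iff Subtype.val_injective).2 h

theorem sz_pre {X : Type} [TopologicalSpace X] {S A : Set X}
    (h : ∀ W : Set (X × X), IsCompact W → IsConnected W → W ⊆ A ×ˢ A →
        Prod.fst '' W = Prod.snd '' W → ∃ x, (x, x) ∈ W) :
    SZ (Subtype.val ⁻¹' A : Set S) := by
  intro Z hZc hZ hsub he
  have hcont : Continuous (Prod.map Subtype.val Subtype.val : S × S → X × X) :=
    continuous_subtype_val.prodMap continuous_subtype_val
  obtain ⟨x, hx⟩ := h (Prod.map Subtype.val Subtype.val '' Z) (hZc.image hcont)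
    (hZ.image _ hcont.continuousOn) (by
      rintro _ ⟨⟨a, b⟩, hab, rfl⟩
      exact ⟨(hsub hab).1, (hsub hab).2⟩) (by
      rw [image_image, image_image]
      simp only [Prod.map_fst, Prod.map_snd]
      rw [← image_image Subtype.val Prod.fst, ← image_image Subtype.val Prod.snd, he])
  obtain ⟨⟨a, b⟩, hab, hab'⟩ := hx
  refine ⟨(a, b), hab, ?_⟩
  have h1 : (a : X) = x := congrArg Prod.fst hab'
  have h2 : (b : X) = x := congrArg Prod.snd hab'
  exact Subtype.ext (h1.trans h2.symm)

/-- For metric continua H, K with span zero, whose intersection is a nonempty continuum and whose union contains no triod, the union also has span zero: every subcontinuum of its square with equal projections meets the diagonal. -/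
theorem result :
    ∀ (X : Type) [MetricSpace X] (H K : Set X),
      IsCompact H → IsConnected H → IsCompact K → IsConnected K →
      IsConnected (H ∩ K) →
      (∀ T ⊆ H ∪ K, IsCompact T → IsConnected T →
        ¬ ∃ Z ⊆ T, IsCompact Z ∧ IsConnected Z ∧
          ∃ A B C : Set X, A.Nonempty ∧ B.Nonempty ∧ C.Nonempty ∧
            T \ Z = A ∪ B ∪ C ∧
            Disjoint (closure A) B ∧ Disjoint A (closure B) ∧
            Disjoint (closure A) C ∧ Disjoint A (closure C) ∧
            Disjoint (closure B) C ∧ Disjoint B (closure C)) →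
      (∀ W : Set (X × X), IsCompact W → IsConnected W → W ⊆ H ×ˢ H →
        Prod.fst '' W = Prod.snd '' W → ∃ x, (x, x) ∈ W) →
      (∀ W : Set (X × X), IsCompact W → IsConnected W → W ⊆ K ×ˢ K →
        Prod.fst '' W = Prod.snd '' W → ∃ x, (x, x) ∈ W) →
      (∀ W : Set (X × X), IsCompact W → IsConnected W → W ⊆ (H ∪ K) ×ˢ (H ∪ K) →
        Prod.fst '' W = Prod.snd '' W → ∃ x, (x, x) ∈ W) := by
  intro X _ H K hHc hH hKc hK hI hT hsH hsK W hWc hW hWsub hWe
  have hcpt : CompactSpace ↥(H ∪ K) := isCompact_iff_compactSpace.1 (hHc.union hKc)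
  have hcl : IsClosed (H ∪ K) := (hHc.union hKc).isClosed
  have hnt : NoTriod ↥(H ∪ K) := by
    intro T C hTc hCc hCT A B D hA hB hD he d1 d2 d3 d4 d5 d6
    refine hT (Subtype.val '' T) (by rintro _ ⟨x, -, rfl⟩; exact x.2)
      (hTc.image continuous_subtype_val.continuousOn).1
      (hTc.image continuous_subtype_val.continuousOn).2
      ⟨Subtype.val '' C, image_mono hCT,
      (hCc.image continuous_subtype_val.continuousOn).1,
      (hCc.image continuous_subtype_val.continuousOn).2,
      Subtype.val '' A, Subtype.val '' B, Subtype.val '' D, hA.image _, hB.image _, hD.image _,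
      ?_, disj_closure hcl d1, ?_, disj_closure hcl d3, ?_, disj_closure hcl d5, ?_⟩
    · rw [← image_sdiff Subtype.val_injective, he, image_union, image_union]
    · exact (disj_closure hcl d2.symm).symm
    · exact (disj_closure hcl d4.symm).symm
    · exact (disj_closure hcl d6.symm).symm
  have two : Two (M := ↥(H ∪ K)) (Subtype.val ⁻¹' H) (Subtype.val ⁻¹' K) := by
    refine ⟨ctm_pre subset_union_left ⟨hHc, hH⟩, ctm_pre subset_union_right ⟨hKc, hK⟩, ?_, ?_,
      sz_pre hsH, sz_pre hsK, hnt⟩
    · rw [← preimage_inter]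
      exact ctm_pre (inter_subset_left.trans subset_union_left) ⟨hHc.inter hKc, hI⟩
    · rw [← preimage_union, Subtype.coe_preimage_self]
  set Z : Set (↥(H ∪ K) × ↥(H ∪ K)) := Prod.map Subtype.val Subtype.val ⁻¹' W with hZ
  have hemb : Topology.IsEmbedding (Prod.map Subtype.val Subtype.val : ↥(H ∪ K) × ↥(H ∪ K) → X × X) :=
    Topology.IsEmbedding.subtypeVal.prodMap Topology.IsEmbedding.subtypeVal
  have himg : Prod.map Subtype.val Subtype.val '' Z = W := by
    apply Subset.antisymm
    · rintro _ ⟨p, hp, rfl⟩; exact hp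
    · rintro ⟨a, b⟩ hab
      exact ⟨(⟨a, (hWsub hab).1⟩, ⟨b, (hWsub hab).2⟩), hab, rfl⟩
  have hZc : Ctm Z := by
    refine ⟨?_, ?_, ?_⟩
    · rw [hemb.isCompact_iff, himg]; exact hWc
    · obtain ⟨⟨a, b⟩, hab⟩ := hW.1
      exact ⟨(⟨a, (hWsub hab).1⟩, ⟨b, (hWsub hab).2⟩), hab⟩
    · rw [← hemb.isInducing.isPreconnected_image, himg]; exact hW.2
  have hZe : Prod.fst '' Z = Prod.snd '' Z := by
    have h1 : Subtype.val '' (Prod.fst '' Z) = Subtype.val '' (Prod.snd '' Z) := by
      have e1 : Subtype.val '' (Prod.fst '' Z) = Prod.fst '' W := by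
        rw [← himg, image_image, image_image]; rfl
      have e2 : Subtype.val '' (Prod.snd '' Z) = Prod.snd '' W := by
        rw [← himg, image_image, image_image]; rfl
      rw [e1, e2, hWe]
    exact Subtype.val_injective.image_injective h1
  obtain ⟨⟨a, b⟩, hp, hpe⟩ := two.span hZc hZe
  have : a = b := hpe
  subst this
  exact ⟨a, hp⟩

end Pool.Agent.S09601
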