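import Pool.Statements.S09725
import Pool.Agent.H874R2.JonesT
-- import your own Pool.Agent.* helpers here

set_option autoImplicit false
open Pool Pool.MP_e81b80_gt

namespace Pool.Agent.S09725

/-- For a Hausdorff continuum S, if Jones's function T is continuous on nonempty closed sets (Vietoris topology), then the sets T({p}) partition S into a continuous decomposition whose quotient space is locally connected. -/
theorem result :
    ∀ (S : Type) [TopologicalSpace S] [CompactSpace S] [ConnectedSpace S] [T2Space S]
      (T : Set S → Set S) (V : TopologicalSpace (Set S)),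
      (∀ A : Set S, T A = {x : S | ∀ W : Set S, IsClosed W → IsConnected W →
          x ∈ interior W → (W ∩ A).Nonempty}) →
      V = TopologicalSpace.generateFrom
          ({𝒰 : Set (Set S) | ∃ U : Set S, IsOpen U ∧ 𝒰 = {A : Set S | A ⊆ U}} ∪
           {𝒰 : Set (Set S) | ∃ U : Set S, IsOpen U ∧ 𝒰 = {A : Set S | (A ∩ U).Nonempty}}) →
      @Continuous {A : Set S // IsClosed A ∧ A.Nonempty} (Set S)
          (TopologicalSpace.induced Subtype.val V) V (fun A => T A.1) →
      (∀ p q : S, T {p} = T {q} ∨ Disjoint (T {p}) (T {q})) ∧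
      @Continuous S (Set S) _ V (fun p => T {p}) ∧
      ∀ r : S → S → Prop, (∀ p q : S, r p q ↔ T {p} = T {q}) →
        LocallyConnectedSpace (Quot r) := by
  intro S _ _ _ _ T V hT hV hcont
  have hTe : T = Pool.Agent.H874R2.JT.T := by
    funext A
    rw [hT A]
    rfl
  have hVe : V = Pool.Agent.H874R2.JT.viet S := hV
  subst hTe
  subst hVe
  have h := Pool.Agent.H874R2.JT.tcont_of_continuous hcont
  refine ⟨h.partition, ?_, h.locallyConnected⟩
  apply continuous_generateFrom_iff.2
  rintro s (⟨U, hU, rfl⟩ | ⟨U, hU, rfl⟩)
  · exact h.upper1 hU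
  · exact h.lower1 hU

end Pool.Agent.S09725
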