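import Pool.Statements.S09787
import Pool.Agent.H865R2.PsiMan

set_option autoImplicit false
open Pool Pool.MP_f74cc2_gt

namespace Pool.Agent.S09787

/-- There is a Hausdorff locally Euclidean space whose diagonal is a G-delta set and which is quasi-developable (has a sequence of open families forming a quasi-development) but admits no development by a sequence of open covers. -/
theorem result :
    ∃ (X : Type) (_ : TopologicalSpace X) (_ : T2Space X) (n : ℕ)
      (_ : ChartedSpace (EuclideanSpace ℝ (Fin n)) X),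
      IsGδ (Set.diagonal X) ∧
      (∃ G : ℕ → Set (Set X),
        (∀ k, ∀ V ∈ G k, IsOpen V) ∧
        ∀ x : X, ∀ U : Set X, IsOpen U → x ∈ U →
          ∃ k, (∃ V ∈ G k, x ∈ V) ∧ ∀ V ∈ G k, x ∈ V → V ⊆ U) ∧
      ¬ (∃ G : ℕ → Set (Set X),
        (∀ k, ∀ V ∈ G k, IsOpen V) ∧
        (∀ k, ⋃₀ G k = Set.univ) ∧
        ∀ x : X, ∀ U : Set X, IsOpen U → x ∈ U →
          ∃ k, ∀ V ∈ G k, x ∈ V → V ⊆ U) := by
  exact Pool.Agent.H865R2.PsiMan.exists_surface

end Pool.Agent.S09787
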