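import Pool.Statements.S09864
import Pool.Agent.H533R2.OG.P.FIN

set_option autoImplicit false
open Pool Pool.MP_09f6a2_lc

namespace Pool.Agent.S09864

/-- The negation of the preceding statement: For M the codes on ℕ of orders of type zeta^alpha or zeta^alpha times eta (alpha countable), some Polish topology on M makes the permutation logic action of S_infinity on M continuous. -/
theorem result :
    ¬ (∀ M : Set (ℕ × ℕ → Bool),
      M = {x : (ℕ × ℕ → Bool) | ∃ α : Ordinal.{0}, Ordinal.card α ≤ Cardinal.aleph0 ∧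
        ((∃ e : ℕ ≃ Subtype (fun f : (Ordinal.{0} → ℤ) =>
              (∀ β : Ordinal.{0}, f β ≠ 0 → β < α) ∧ (Function.support f).Finite),
            ∀ m n : ℕ, x (m, n) = true ↔
              (e m = e n ∨ ∃ β : Ordinal.{0}, (e m).1 β < (e n).1 β ∧
                ∀ γ : Ordinal.{0}, β < γ → (e m).1 γ = (e n).1 γ)) ∨
         (∃ e : ℕ ≃ ℚ × Subtype (fun f : (Ordinal.{0} → ℤ) =>
              (∀ β : Ordinal.{0}, f β ≠ 0 → β < α) ∧ (Function.support f).Finite),
            ∀ m n : ℕ, x (m, n) = true ↔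
              (e m = e n ∨ (e m).1 < (e n).1 ∨
                ((e m).1 = (e n).1 ∧
                  ∃ β : Ordinal.{0}, (e m).2.1 β < (e n).2.1 β ∧
                    ∀ γ : Ordinal.{0}, β < γ → (e m).2.1 γ = (e n).2.1 γ))))} →
      ∃ t : TopologicalSpace M, @PolishSpace M t ∧
        ∃ a : Equiv.Perm ℕ × M → M,
          (∀ g : Equiv.Perm ℕ, ∀ x : M,
            ((a (g, x) : M) : ℕ × ℕ → Bool) =
              (fun p : ℕ × ℕ => (x : ℕ × ℕ → Bool) (g.symm p.1, g.symm p.2))) ∧
          @Continuous (Equiv.Perm ℕ × M) M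
            (@instTopologicalSpaceProd (Equiv.Perm ℕ) M
              (TopologicalSpace.induced (fun g : Equiv.Perm ℕ => (⇑g : ℕ → ℕ)) inferInstance) t)
            t a) := by
  intro h
  exact Pool.Agent.H533R2.OG.P.no_polish (h Pool.Agent.H533R2.OG.Mset rfl)

end Pool.Agent.S09864
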