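import Pool.Statements.S09892
import Pool.Agent.H367R2.H10.Fin3

set_option autoImplicit false
open Pool Pool.MP_11ee63_lc

namespace Pool.Agent.S09892

/-- The negation of the preceding statement: For every prime p, it is algorithmically decidable whether a finite system of polynomial equations and inequations with integer coefficients has a solution in the local ring F_p[t] localized at (t). -/
theorem result :
    ¬ (∀ p : ℕ, p.Prime →
      ComputablePred
        (fun S : List (List (ℕ × List ℕ) × List (ℕ × List ℕ)) ×
                 List (List (ℕ × List ℕ) × List (ℕ × List ℕ)) =>
          ∃ x : ℕ → Localization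
              (Submonoid.comap (Polynomial.constantCoeff (R := ZMod p))
                (nonZeroDivisors (ZMod p))),
            (∀ e ∈ S.1,
                (e.1.map (fun m => m.1 • (m.2.map x).prod)).sum
                  = (e.2.map (fun m => m.1 • (m.2.map x).prod)).sum) ∧
            (∀ e ∈ S.2,
                (e.1.map (fun m => m.1 • (m.2.map x).prod)).sum
                  ≠ (e.2.map (fun m => m.1 • (m.2.map x).prod)).sum))) := by
  intro h
  haveI : Fact (Nat.Prime 2) := ⟨Nat.prime_two⟩
  exact Pool.Agent.H367R2.H10.undecidable_loc 2 (h 2 Nat.prime_two)

end Pool.Agent.S09892
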