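import Pool.Statements.S09898
import Pool.Agent.H936R2.SH.Therien

set_option autoImplicit false
open Pool Pool.MP_15f063_lc

namespace Pool.Agent.S09898

/-- The closure operator of the frozen statement. -/
def Cl (G : Set (Set (List Bool))) : Set (Set (List Bool)) :=
  {L | ∀ S : Set (Set (List Bool)), G ⊆ S →
          (∅ : Set (List Bool)) ∈ S →
          ({[]} : Set (List Bool)) ∈ S →
          ({[false]} : Set (List Bool)) ∈ S →
          ({[true]} : Set (List Bool)) ∈ S →
          (∀ X ∈ S, ∀ Y ∈ S, X ∪ Y ∈ S) →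
          (∀ X ∈ S, ∀ Y ∈ S, H936R2.SH.cat X Y ∈ S) →
          (∀ X ∈ S, Xᶜ ∈ S) → L ∈ S}

open Pool.Agent.H936R2.SH in
theorem mem_Cl {G : Set (Set (List Bool))} {n : ℕ} {L : Set (List Bool)} (h : HS n L) :
    (∀ m X, n = m + 1 → HS m X → st X ∈ Cl G) → L ∈ Cl G := by
  induction h with
  | empty n => intro _ S _ h1 _ _ _ _ _ _; exact h1
  | eps n => intro _ S _ _ h2 _ _ _ _ _; exact h2
  | letter n a =>
    intro _ S _ _ _ h3 h4 _ _ _
    cases a
    · exact h3
    · exact h4
  | union _ _ ih1 ih2 =>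
    intro hG S h0 h1 h2 h3 h4 h5 h6 h7
    exact h5 _ (ih1 hG S h0 h1 h2 h3 h4 h5 h6 h7) _ (ih2 hG S h0 h1 h2 h3 h4 h5 h6 h7)
  | cat _ _ ih1 ih2 =>
    intro hG S h0 h1 h2 h3 h4 h5 h6 h7
    exact h6 _ (ih1 hG S h0 h1 h2 h3 h4 h5 h6 h7) _ (ih2 hG S h0 h1 h2 h3 h4 h5 h6 h7)
  | compl _ ih1 =>
    intro hG S h0 h1 h2 h3 h4 h5 h6 h7
    exact h7 _ (ih1 hG S h0 h1 h2 h3 h4 h5 h6 h7)
  | star h ih =>
    intro hG
    exact hG _ _ rfl h

open Pool.Agent.H936R2.SH in
theorem A2_mem : A2 ∈ Cl (st '' Cl ∅) := by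
  refine mem_Cl HS_A2 ?_
  intro m X hm hX S hS _ _ _ _ _ _ _
  apply hS
  refine ⟨X, ?_, rfl⟩
  have hm' : m = 0 := by omega
  subst hm'
  refine mem_Cl hX ?_
  intro m' _ h
  exact absurd h (by omega)

/-- The negation of the preceding statement: The language A2 = (στ*σ ∪ τσ*τ(στ*σ)*τσ*τ)* over {σ,τ} has generalized star height exactly two: it lies in the level-2 Boolean-concatenation-star hierarchy but not in level 1. -/
theorem result :
    ¬ (∀ (cat : Set (List Bool) → Set (List Bool) → Set (List Bool))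
      (st : Set (List Bool) → Set (List Bool))
      (Cl : Set (Set (List Bool)) → Set (Set (List Bool))),
      (∀ L M, cat L M = Set.image2 (fun x y => x ++ y) L M) →
      (∀ L, st L = {w | ∃ l : List (List Bool), (∀ x ∈ l, x ∈ L) ∧ w = l.flatten}) →
      (∀ G, Cl G = {L | ∀ S : Set (Set (List Bool)), G ⊆ S →
          (∅ : Set (List Bool)) ∈ S →
          ({[]} : Set (List Bool)) ∈ S →
          ({[false]} : Set (List Bool)) ∈ S →
          ({[true]} : Set (List Bool)) ∈ S →
          (∀ X ∈ S, ∀ Y ∈ S, X ∪ Y ∈ S) →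
          (∀ X ∈ S, ∀ Y ∈ S, cat X Y ∈ S) →
          (∀ X ∈ S, Xᶜ ∈ S) → L ∈ S}) →
      (st (cat (cat ({[false]} : Set (List Bool)) (st {[true]})) {[false]} ∪
            cat (cat (cat (cat ({[true]} : Set (List Bool)) (st {[false]})) {[true]})
                  (st (cat (cat ({[false]} : Set (List Bool)) (st {[true]})) {[false]})))
                (cat (cat ({[true]} : Set (List Bool)) (st {[false]})) {[true]}))
          ∈ Cl (st '' Cl (st '' Cl ∅)) ∧
       st (cat (cat ({[false]} : Set (List Bool)) (st {[true]})) {[false]} ∪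
            cat (cat (cat (cat ({[true]} : Set (List Bool)) (st {[false]})) {[true]})
                  (st (cat (cat ({[false]} : Set (List Bool)) (st {[true]})) {[false]})))
                (cat (cat ({[true]} : Set (List Bool)) (st {[false]})) {[true]}))
          ∉ Cl (st '' Cl ∅))) := by
  intro h
  have h' := h H936R2.SH.cat H936R2.SH.st Cl (fun _ _ => rfl) (fun _ => rfl) (fun _ => rfl)
  exact h'.2 A2_mem

end Pool.Agent.S09898
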