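import Pool.Statements.S09916
import Pool.Agent.H912R2.SM.Final
import Pool.Agent.H912R2.SM.N0
import Pool.Agent.H912R2.SM.Ext
import Pool.Agent.H912R2.SM.Trans
import Pool.Agent.H912R2.SM.El
import Pool.Agent.H912R2.SM.Sand
import Pool.Agent.H912R2.SM.Min
import Pool.Agent.H912R2.SM.Bnf
import Pool.Agent.H912R2.SM.Free
import Pool.Agent.H912R2.SM.Code
import Pool.Agent.H912R2.SM.MaxS
import Pool.Agent.H912R2.SM.Amalg

set_option autoImplicit false
open FirstOrder FirstOrder.Language
open scoped FirstOrder
open Pool Pool.MP_1b3a35_lc

namespace Pool.Agent.S09916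

/-- The negation of the preceding statement: Every complete first-order theory whose models are all infinite and have every parameter-definable subset finite or cofinite is equivalent to a set of sentences of the form exists-forall-exists followed by a quantifier-free formula. -/
theorem result :
    ¬ (∀ (L : FirstOrder.Language.{0, 0}) (T : L.Theory),
      T.IsComplete →
      (∀ (M : Type) [L.Structure M], M ⊨ T →
        Infinite M ∧
          ∀ s : Set (Fin 1 → M), Set.Definable (Set.univ : Set M) L s → s.Finite ∨ sᶜ.Finite) →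
      ∃ T' : L.Theory,
        (∀ σ ∈ T',
          ∀ R : (n : ℕ) → L.BoundedFormula Empty n → Prop,
            (∀ (n : ℕ) (ψ : L.BoundedFormula Empty n),
              (∀ Q : (m : ℕ) → L.BoundedFormula Empty m → Prop,
                (∀ (m : ℕ) (χ : L.BoundedFormula Empty m),
                  (∀ P : (k : ℕ) → L.BoundedFormula Empty k → Prop,
                    (∀ (k : ℕ) (θ : L.BoundedFormula Empty k), θ.IsQF → P k θ) →
                    (∀ (k : ℕ) (θ : L.BoundedFormula Empty (k + 1)), P (k + 1) θ → P k θ.ex) →
                    P m χ) → Q m χ) →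
                (∀ (m : ℕ) (χ : L.BoundedFormula Empty (m + 1)), Q (m + 1) χ → Q m χ.all) →
                Q n ψ) → R n ψ) →
            (∀ (n : ℕ) (ψ : L.BoundedFormula Empty (n + 1)), R (n + 1) ψ → R n ψ.ex) →
            R 0 σ) ∧
        (∀ σ ∈ T', Theory.ModelsBoundedFormula T σ) ∧
        (∀ σ ∈ T, Theory.ModelsBoundedFormula T' σ)) := by
  have hcode := H912SM.st_Code
  have hdec := H912SM.st_Decomp hcode
  have hfree := H912SM.st_Free hdec
  have hext := H912SM.st_Ext hdec
  have hbnf := H912SM.st_Bnf hext
  have htr := H912SM.st_Trans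
  have hel := H912SM.st_El hcode
  have hmin := H912SM.st_Min htr hel hbnf hfree
  have hsand := H912SM.st_Sand htr hel hfree hext
  have hn0 := H912SM.st_N0 H912SM.st_Max H912SM.st_Amalg H912SM.st_Viol H912SM.st_Viol1
  exact H912SM.final hn0 hmin hsand htr

end Pool.Agent.S09916
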