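import Pool.Statements.S09932
-- import your own Pool.Agent.* helpers here

set_option autoImplicit false
open Pool Pool.MP_21086e_lc

namespace Pool.Agent.S09932

/-!
The counterexample.  Write `a = true`, `b = false`, let `L` be the Łukasiewicz code (the words
whose height `#a - #b` is `1`, all proper prefixes having height `≤ 0`) and `H n = L ^ n`: the
words of height `n` all of whose proper prefixes have height `< n`.  For `n ≥ 2` the formal power
series `(1 + ab)⁻¹ L ^ n (1 + ab)` has coefficients `0` and `1` only: it is the language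

  `X n = { w u : w ∈ H n, the number of leading factors ab of w is even, u ∈ {1, ab} }`

(for `n = 1` it has a coefficient `-1`).  Hence `X m * X n = X (m + n)` for `m, n ≥ 2`, all these
products being unambiguous, so `X 2` is a code commuting with `X 3`.  But `X 2` is not a square,
and `X 3` is not a union of powers of `X 2`.
-/

/-- `H w n`: the word `w` (with `true` a step up, `false` a step down) reaches height `n` for the
first time at its end. -/
def H : List Bool → ℕ → Prop
  | [], n => n = 0
  | true :: w, n => 1 ≤ n ∧ H w (n - 1)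
  | false :: w, n => 1 ≤ n ∧ H w (n + 1)

/-- The parity of the number of leading factors `ab` of a word. -/
def par : List Bool → Bool
  | true :: false :: w => !(par w)
  | _ => false

/-- The height of a word. -/
def ht : List Bool → ℤ
  | [] => 0
  | true :: w => ht w + 1
  | false :: w => ht w - 1

/-- The language `(1 + ab)⁻¹ L ^ n (1 + ab)`. -/
def X (n : ℕ) : Language Bool :=
  {z | ∃ w u : List Bool, z = w ++ u ∧ H w n ∧ par w = false ∧ (u = [] ∨ u = [true, false])}

theorem H_unique : ∀ (u u' v v' : List Bool) (m : ℕ), H u m → H u' m → u ++ v = u' ++ v' →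
    u = u' ∧ v = v'
  | [], u', v, v', m, h, h', e => by
      simp only [H] at h
      subst h
      cases u' with
      | nil => exact ⟨rfl, by simpa using e⟩
      | cons c t => cases c <;> simp [H] at h'
  | c :: u, [], v, v', m, h, h', e => by
      simp only [H] at h'
      subst h'
      cases c <;> simp [H] at h
  | c :: u, c' :: u', v, v', m, h, h', e => by
      simp only [List.cons_append, List.cons.injEq] at e
      obtain ⟨rfl, e⟩ := e
      cases c with
      | true =>
        obtain ⟨h1, h2⟩ := H_unique u u' v v' (m - 1) h.2 h'.2 e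
        exact ⟨by rw [h1], h2⟩
      | false =>
        obtain ⟨h1, h2⟩ := H_unique u u' v v' (m + 1) h.2 h'.2 e
        exact ⟨by rw [h1], h2⟩

theorem H_append : ∀ (u v : List Bool) (m n : ℕ), H u m → H v n → H (u ++ v) (m + n)
  | [], v, m, n, h, h' => by
      simp only [H] at h
      subst h
      simpa using h'
  | true :: u, v, m, n, h, h' => by
      refine ⟨by have := h.1; omega, ?_⟩
      have h1 := h.1
      have := H_append u v (m - 1) n h.2 h'
      rwa [show m - 1 + n = m + n - 1 by omega] at this
  | false :: u, v, m, n, h, h' => by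
      refine ⟨by have := h.1; omega, ?_⟩
      have h1 := h.1
      have := H_append u v (m + 1) n h.2 h'
      rwa [show m + 1 + n = m + n + 1 by omega] at this

theorem H_split : ∀ (z : List Bool) (m n : ℕ), H z (m + n) → ∃ u v, z = u ++ v ∧ H u m ∧ H v n
  | [], m, n, h => by
      simp only [H] at h
      exact ⟨[], [], rfl, by simp only [H]; omega, by simp only [H]; omega⟩
  | c :: z, 0, n, h => ⟨[], c :: z, rfl, rfl, by simpa using h⟩
  | true :: z, m + 1, n, h => by
      have h2 : H z (m + n) := by
        have := h.2
        rwa [show m + 1 + n - 1 = m + n by omega] at this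
      obtain ⟨u, v, e, hu, hv⟩ := H_split z m n h2
      exact ⟨true :: u, v, by rw [e]; rfl, ⟨by omega, by simpa using hu⟩, hv⟩
  | false :: z, m + 1, n, h => by
      have h2 : H z (m + 2 + n) := by
        have := h.2
        rwa [show m + 1 + n + 1 = m + 2 + n by omega] at this
      obtain ⟨u, v, e, hu, hv⟩ := H_split z (m + 2) n h2
      exact ⟨false :: u, v, by rw [e]; rfl, ⟨by omega, by simpa using hu⟩, hv⟩

theorem H_ab (w : List Bool) (n : ℕ) (hn : 2 ≤ n) : H (true :: false :: w) n ↔ H w n := by
  simp only [H]
  constructor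
  · rintro ⟨_, _, h⟩
    rwa [show n - 1 + 1 = n by omega] at h
  · intro h
    refine ⟨by omega, by omega, ?_⟩
    rwa [show n - 1 + 1 = n by omega]

theorem par_append : ∀ (w t : List Bool) (n : ℕ), 2 ≤ n → H w n → par (w ++ t) = par w
  | [], t, n, hn, h => by
      simp only [H] at h
      omega
  | [true], t, n, hn, h => by
      simp only [H] at h
      omega
  | [false], t, n, hn, h => by
      simp only [H] at h
      omega
  | true :: false :: w, t, n, hn, h => by
      have h' := (H_ab w n hn).1 h
      have := par_append w t n hn h'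
      simp only [List.cons_append, par, this]
  | true :: true :: w, t, n, hn, h => by
      simp [par]
  | false :: c :: w, t, n, hn, h => by
      simp [par]

theorem par_true : ∀ w : List Bool, par w = true → ∃ w', w = true :: false :: w' ∧ par w' = false
  | [], h => by simp [par] at h
  | [true], h => by simp [par] at h
  | false :: w, h => by simp [par] at h
  | true :: true :: w, h => by simp [par] at h
  | true :: false :: w, h => ⟨w, rfl, by simpa [par] using h⟩

/-- adding a factor `u ∈ {1, ab}` on the left does not change `H _ n`, `n ≥ 2` -/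
theorem H_u (u w : List Bool) (hu : u = [] ∨ u = [true, false]) (n : ℕ) (hn : 2 ≤ n) :
    H (u ++ w) n ↔ H w n := by
  rcases hu with rfl | rfl
  · rfl
  · exact H_ab w n hn

/-- the products `X m * X n = X (m + n)` -/
theorem X_mul (m n : ℕ) (hm : 2 ≤ m) (hn : 2 ≤ n) : X m * X n = X (m + n) := by
  ext z
  rw [Language.mem_mul]
  constructor
  · rintro ⟨x, ⟨w, u, rfl, hw, pw, hu⟩, y, ⟨w', u', rfl, hw', pw', hu'⟩, rfl⟩
    refine ⟨w ++ (u ++ w'), u', by simp, ?_, ?_, hu'⟩
    · exact H_append _ _ _ _ hw ((H_u u w' hu n hn).2 hw')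
    · rw [par_append w _ m hm hw, pw]
  · rintro ⟨v, u', rfl, hv, pv, hu'⟩
    obtain ⟨w, v', rfl, hw, hv'⟩ := H_split v m n hv
    rw [par_append w _ m hm hw] at pv
    cases hp : par v' with
    | false =>
      exact ⟨w, ⟨w, [], by simp, hw, pv, Or.inl rfl⟩, v' ++ u', ⟨v', u', rfl, hv', hp, hu'⟩,
        by simp⟩
    | true =>
      obtain ⟨w', rfl, pw'⟩ := par_true v' hp
      refine ⟨w ++ [true, false], ⟨w, [true, false], rfl, hw, pv, Or.inr rfl⟩, w' ++ u',
        ⟨w', u', rfl, (H_ab w' n hn).1 hv', pw', hu'⟩, by simp⟩

/-- the product `X m * X n` is unambiguous -/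
theorem X_unique (m n : ℕ) (hm : 2 ≤ m) (hn : 2 ≤ n) (x x' y y' : List Bool) (hx : x ∈ X m)
    (hx' : x' ∈ X m) (hy : y ∈ X n) (hy' : y' ∈ X n) (e : x ++ y = x' ++ y') :
    x = x' ∧ y = y' := by
  obtain ⟨w, u, rfl, hw, pw, hu⟩ := hx
  obtain ⟨w₂, u₂, rfl, hw₂, pw₂, hu₂⟩ := hx'
  obtain ⟨v, t, rfl, hv, pv, ht⟩ := hy
  obtain ⟨v₂, t₂, rfl, hv₂, pv₂, ht₂⟩ := hy'
  have e1 : w ++ (u ++ v ++ t) = w₂ ++ (u₂ ++ v₂ ++ t₂) := by simpa using e
  obtain ⟨rfl, e2⟩ := H_unique _ _ _ _ m hw hw₂ e1
  obtain ⟨e3, rfl⟩ := H_unique _ _ _ _ n ((H_u u v hu n hn).2 hv) ((H_u u₂ v₂ hu₂ n hn).2 hv₂) e2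
  have hp : ∀ u v : List Bool, (u = [] ∨ u = [true, false]) → par v = false →
      (par (u ++ v) = true ↔ u = [true, false]) := by
    intro u v hu hv
    rcases hu with rfl | rfl
    · simp [hv]
    · simp [par, hv]
  have h4 : u = u₂ := by
    by_cases hq : par (u ++ v) = true
    · rw [(hp u v hu pv).1 hq, (hp u₂ v₂ hu₂ pv₂).1 (e3 ▸ hq)]
    · have h5 : ¬ u = [true, false] := fun h => hq ((hp u v hu pv).2 h)
      have h6 : ¬ u₂ = [true, false] := fun h => hq (e3 ▸ (hp u₂ v₂ hu₂ pv₂).2 h)
      rw [hu.resolve_right h5, hu₂.resolve_right h6]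
  subst h4
  have h7 : v = v₂ := List.append_cancel_left e3
  subst h7
  exact ⟨rfl, rfl⟩

theorem ht_append (u v : List Bool) : ht (u ++ v) = ht u + ht v := by
  induction u with
  | nil => simp [ht]
  | cons c u ih => cases c <;> simp [ht, ih] <;> ring

theorem ht_H : ∀ (w : List Bool) (n : ℕ), H w n → ht w = n
  | [], n, h => by
      simp only [H] at h
      simp [ht, h]
  | true :: w, n, h => by
      have h1 := h.1
      have := ht_H w (n - 1) h.2
      simp only [ht, this]
      omega
  | false :: w, n, h => by
      have h1 := h.1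
      have := ht_H w (n + 1) h.2
      simp only [ht, this]
      omega

theorem ht_X (n : ℕ) (z : List Bool) (h : z ∈ X n) : ht z = n := by
  obtain ⟨w, u, rfl, hw, -, hu⟩ := h
  rw [ht_append, ht_H w n hw]
  rcases hu with rfl | rfl <;> simp [ht]

/-- a nonempty product of words of `X 2` lies in `X (2 * k)` -/
theorem flatten_mem : ∀ (l : List (List Bool)), l ≠ [] → (∀ w ∈ l, w ∈ X 2) →
    l.flatten ∈ X (2 * l.length)
  | [], h, _ => absurd rfl h
  | [x], _, h => by simpa using h x (by simp)
  | x :: y :: l, _, h => by
      have h1 : (y :: l).flatten ∈ X (2 * (y :: l).length) :=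
        flatten_mem (y :: l) (by simp) (fun w hw => h w (List.mem_cons_of_mem _ hw))
      have h2 : x ∈ X 2 := h x (by simp)
      have h3 : x ++ (y :: l).flatten ∈ X 2 * X (2 * (y :: l).length) :=
        Language.mem_mul.2 ⟨x, h2, _, h1, rfl⟩
      rw [X_mul 2 _ le_rfl (by simp [List.length_cons])] at h3
      rw [List.flatten_cons]
      rwa [show 2 * (x :: y :: l).length = 2 + 2 * (y :: l).length by
        simp only [List.length_cons]; omega]

theorem ht_flatten : ∀ (l : List (List Bool)), (∀ w ∈ l, w ∈ X 2) →
    ht l.flatten = 2 * l.length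
  | [], _ => by simp [ht]
  | x :: l, h => by
      rw [List.flatten_cons, ht_append, ht_flatten l (fun w hw => h w (List.mem_cons_of_mem _ hw)),
        ht_X 2 x (h x (by simp))]
      push_cast [List.length_cons]
      ring

/-- `X 2` is a code -/
theorem X_code : ∀ (l₁ l₂ : List (List Bool)), (∀ w ∈ l₁, w ∈ X 2) → (∀ w ∈ l₂, w ∈ X 2) →
    l₁.flatten = l₂.flatten → l₁ = l₂
  | [], l₂, h₁, h₂, e => by
      have h3 := ht_flatten [] h₁
      rw [e, ht_flatten l₂ h₂] at h3
      have : l₂.length = 0 := by simpa using h3
      exact (List.length_eq_zero_iff.1 this).symm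
  | x :: l₁, l₂, h₁, h₂, e => by
      have h3 := ht_flatten (x :: l₁) h₁
      rw [e, ht_flatten l₂ h₂] at h3
      have h4 : l₂.length = l₁.length + 1 := by
        rw [List.length_cons] at h3
        push_cast at h3
        omega
      cases l₂ with
      | nil => simp at h4
      | cons y l₂ =>
        have h5 : l₂.length = l₁.length := by simpa using h4
        by_cases hl : l₁ = []
        · subst hl
          have : l₂ = [] := List.length_eq_zero_iff.1 (by simpa using h5)
          subst this
          simpa using e
        · have hl2 : l₂ ≠ [] := by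
            intro h
            apply hl
            subst h
            exact List.length_eq_zero_iff.1 (by simpa using h5.symm)
          have hpos : 1 ≤ l₁.length := by
            rcases l₁ with _ | ⟨_, _⟩
            · exact absurd rfl hl
            · simp
          have m1 := flatten_mem l₁ hl (fun w hw => h₁ w (List.mem_cons_of_mem _ hw))
          have m2 := flatten_mem l₂ hl2 (fun w hw => h₂ w (List.mem_cons_of_mem _ hw))
          rw [h5] at m2
          obtain ⟨e1, e2⟩ := X_unique 2 (2 * l₁.length) le_rfl (by omega) x y _ _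
            (h₁ x (by simp)) (h₂ y (by simp)) m1 m2 (by simpa [List.flatten_cons] using e)
          rw [e1, X_code l₁ l₂ (fun w hw => h₁ w (List.mem_cons_of_mem _ hw))
            (fun w hw => h₂ w (List.mem_cons_of_mem _ hw)) e2]

theorem aa_mem : [true, true] ∈ X 2 :=
  ⟨[true, true], [], rfl, by simp [H], by simp [par], Or.inl rfl⟩

theorem baaa_mem : [false, true, true, true] ∈ X 2 :=
  ⟨[false, true, true, true], [], rfl, by simp [H], by simp [par], Or.inl rfl⟩

theorem aaa_mem : [true, true, true] ∈ X 3 :=
  ⟨[true, true, true], [], rfl, by simp [H], by simp [par], Or.inl rfl⟩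

theorem abaa_not_mem : [true, false, true, true] ∉ X 2 := by
  rintro ⟨w, u, e, hw, pw, rfl | rfl⟩
  · rw [List.append_nil] at e
    subst e
    simp [par] at pw
  · have h1 : [true, false] ++ [true, true] = w ++ [true, false] := e
    have := (List.append_inj' h1 rfl).2
    simp at this

theorem nil_not_mem : ([] : List Bool) ∉ X 2 := by
  intro h
  have := ht_X 2 _ h
  simp [ht] at this

/-- words of `R ^ n` when all words of `R` have height `2` -/
theorem ht_pow (R : Language Bool) (hR : ∀ r ∈ R, ht r = 2) : ∀ (i : ℕ) (z : List Bool),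
    z ∈ R ^ i → ht z = 2 * i
  | 0, z, h => by
      rw [pow_zero, Language.mem_one] at h
      simp [h, ht]
  | i + 1, z, h => by
      rw [pow_succ, Language.mem_mul] at h
      obtain ⟨x, hx, y, hy, rfl⟩ := h
      rw [ht_append, ht_pow R hR i x hx, hR y hy]
      push_cast
      ring

theorem length_pow (R : Language Bool) (hR : ([] : List Bool) ∉ R) : ∀ (i : ℕ) (z : List Bool),
    z ∈ R ^ i → i ≤ z.length
  | 0, z, h => Nat.zero_le _
  | i + 1, z, h => by
      rw [pow_succ, Language.mem_mul] at h
      obtain ⟨x, hx, y, hy, rfl⟩ := h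
      have h1 := length_pow R hR i x hx
      have h2 : 1 ≤ y.length := by
        rcases y with _ | ⟨_, _⟩
        · exact absurd hy hR
        · simp
      simp only [List.length_append]
      omega

/-- The negation of the preceding statement: Over any finite alphabet, if X is a nonempty code (no empty word, unique factorization) and Y is any language with XY = YX, then some language R without the empty word satisfies X = R^n and Y = union of R^i over i in some set I. -/
theorem result :
    ¬ (∀ (α : Type) [Fintype α] (X Y : Language α),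
      X.Nonempty →
      ([] : List α) ∉ X →
      (∀ l₁ l₂ : List (List α), (∀ w ∈ l₁, w ∈ X) → (∀ w ∈ l₂, w ∈ X) →
          l₁.flatten = l₂.flatten → l₁ = l₂) →
      X * Y = Y * X →
      ∃ R : Language α, ([] : List α) ∉ R ∧
        ∃ n : ℕ, ∃ I : Set ℕ, X = R ^ n ∧
          ∀ w : List α, w ∈ Y ↔ ∃ i ∈ I, w ∈ R ^ i) := by
  intro hall
  obtain ⟨R, hR, n, I, hX, hY⟩ := hall Bool (X 2) (X 3) ⟨_, aa_mem⟩ nil_not_mem X_code
    (by rw [X_mul 2 3 (by norm_num) (by norm_num), X_mul 3 2 (by norm_num) (by norm_num)])
  have haa := aa_mem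
  rw [hX] at haa
  have hn : n ≤ 2 := by simpa using length_pow R hR n _ haa
  interval_cases n
  · -- `n = 0`
    rw [pow_zero, Language.mem_one] at haa
    simp at haa
  · -- `n = 1`
    rw [pow_one] at hX
    have hR2 : ∀ r ∈ R, ht r = 2 := fun r hr => by
      rw [← hX] at hr
      exact_mod_cast ht_X 2 r hr
    obtain ⟨i, -, hi⟩ := (hY [true, true, true]).1 aaa_mem
    have h3 := ht_pow R hR2 i _ hi
    simp only [ht] at h3
    omega
  · -- `n = 2`
    rw [pow_two] at hX haa
    rw [Language.mem_mul] at haa
    obtain ⟨r, hr, s, hs, e⟩ := haa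
    have hra : [true] ∈ R := by
      rcases r with _ | ⟨c, r⟩
      · exact absurd hr hR
      · rcases s with _ | ⟨d, s⟩
        · exact absurd hs hR
        · simp only [List.cons_append, List.cons.injEq] at e
          obtain ⟨rfl, e⟩ := e
          rcases r with _ | ⟨_, r⟩
          · exact hr
          · simp at e
    have hR1 : ∀ r ∈ R, ht r = 1 := fun r hr => by
      have h1 : [true] ++ r ∈ R * R := Language.mem_mul.2 ⟨_, hra, _, hr, rfl⟩
      rw [← hX] at h1
      have h2 := ht_X 2 _ h1
      rw [ht_append] at h2
      simp only [ht] at h2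
      push_cast at h2
      linarith
    have hb := baaa_mem
    rw [hX, Language.mem_mul] at hb
    obtain ⟨r, hr, s, hs, e⟩ := hb
    have h1 := hR1 r hr
    have hbaa : [false, true, true] ∈ R := by
      rcases r with _ | ⟨c, _ | ⟨d, _ | ⟨f, _ | ⟨g, r⟩⟩⟩⟩
      · simp [ht] at h1
      · simp only [List.cons_append, List.nil_append, List.cons.injEq] at e
        obtain ⟨rfl, e⟩ := e
        simp [ht] at h1
      · simp only [List.cons_append, List.nil_append, List.cons.injEq] at e
        obtain ⟨rfl, rfl, e⟩ := e
        simp [ht] at h1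
      · simp only [List.cons_append, List.nil_append, List.cons.injEq] at e
        obtain ⟨rfl, rfl, rfl, e⟩ := e
        exact hr
      · simp only [List.cons_append, List.nil_append, List.cons.injEq] at e
        obtain ⟨rfl, rfl, rfl, rfl, e⟩ := e
        have : r = [] := by
          rcases r with _ | ⟨_, _⟩
          · rfl
          · simp at e
        subst this
        simp [ht] at h1
    have hab : [true] ++ [false, true, true] ∈ R * R :=
      Language.mem_mul.2 ⟨_, hra, _, hbaa, rfl⟩
    rw [← hX] at hab
    exact abaa_not_mem hab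

end Pool.Agent.S09932
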