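import Pool.Statements.S09956

/-!
The complement `L` of the set of prefixes of the Thue-Morse word is context-free (a linear grammar
guesses a position `i` such that the letters at `i` and `2i`, or at `i` and `2i+1`, violate the
recursion of the word).  The prefixes of the Thue-Morse word contain no sixth power, hence `L`
contains every word having a factor `u^6` with `u` nonempty, and so `L` satisfies `(Q_6)` trivially.
But `L` is not regular: its complement is infinite and has no sixth powers.
-/

set_option autoImplicit false
open Pool Pool.MP_25e2f4_lc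

namespace Pool.Agent.S09956

open Symbol

/-! ### The Thue-Morse word -/

/-- The Thue-Morse word. -/
def tm : ℕ → Bool
  | 0 => false
  | n + 1 => if (n + 1) % 2 = 0 then tm ((n + 1) / 2) else !tm ((n + 1) / 2)
decreasing_by all_goals omega

theorem tm_even (n : ℕ) : tm (2 * n) = tm n := by
  rcases n with _ | n
  · rfl
  · have h : 2 * (n + 1) = (2 * n + 1) + 1 := by omega
    rw [h, tm]
    have h1 : (2 * n + 1 + 1) % 2 = 0 := by omega
    have h2 : (2 * n + 1 + 1) / 2 = n + 1 := by omega
    rw [if_pos h1, h2]

theorem tm_odd (n : ℕ) : tm (2 * n + 1) = !tm n := by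
  rw [tm]
  have h1 : ¬ (2 * n + 1) % 2 = 0 := by omega
  have h2 : (2 * n + 1) / 2 = n := by omega
  rw [if_neg h1, h2]

/-- No three consecutive equal letters. -/
theorem tm_three (m : ℕ) (h1 : tm m = tm (m + 1)) (h2 : tm (m + 1) = tm (m + 2)) : False := by
  rcases Nat.even_or_odd' m with ⟨i, rfl | rfl⟩
  · rw [tm_even, tm_odd] at h1
    cases h : tm i <;> simp [h] at h1
  · have e : 2 * i + 1 + 1 = 2 * (i + 1) := by omega
    have e2 : 2 * i + 1 + 2 = 2 * (i + 1) + 1 := by omega
    rw [e, e2, tm_even, tm_odd] at h2
    cases h : tm (i + 1) <;> simp [h] at h2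

/-- The Thue-Morse word has no sixth power: no period `p` on an interval of length `6p`. -/
theorem tm_power_free (p : ℕ) : 1 ≤ p → ∀ s : ℕ,
    (∀ j, s ≤ j → j < s + 5 * p → tm j = tm (j + p)) → False := by
  induction p using Nat.strong_induction_on with
  | _ p ih =>
    intro hp s h
    rcases Nat.even_or_odd' p with ⟨r, rfl | rfl⟩
    · refine ih r (by omega) (by omega) ((s + 1) / 2) ?_
      intro j hj1 hj2
      have := h (2 * j) (by omega) (by omega)
      have e : 2 * j + 2 * r = 2 * (j + r) := by omega
      rw [e, tm_even, tm_even] at this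
      exact this
    · -- odd period
      have key : ∀ i, s ≤ 2 * i → 2 * i + 1 < s + 5 * (2 * r + 1) → tm (i + r) = tm (i + r + 1) := by
        intro i h1 h2
        have a := h (2 * i) h1 (by omega)
        have b := h (2 * i + 1) (by omega) h2
        have e1 : 2 * i + (2 * r + 1) = 2 * (i + r) + 1 := by omega
        have e2 : 2 * i + 1 + (2 * r + 1) = 2 * (i + r + 1) := by omega
        rw [e1, tm_even, tm_odd] at a
        rw [e2, tm_odd, tm_even] at b
        rw [← b, a, Bool.not_not]
      have k1 := key ((s + 1) / 2) (by omega) (by omega)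
      have k2 := key ((s + 1) / 2 + 1) (by omega) (by omega)
      have e : (s + 1) / 2 + 1 + r = (s + 1) / 2 + r + 1 := by omega
      rw [e] at k2
      exact tm_three _ k1 k2

/-- Being a prefix of the Thue-Morse word. -/
def IsPre (w : List Bool) : Prop := ∀ i b, w[i]? = some b → b = tm i

/-- Words which are not prefixes, by a local violation. -/
def Bad (w : List Bool) : Prop :=
  (∃ w', w = true :: w') ∨
  (∃ a p c q s, p.length = q.length ∧ w = a :: (p ++ c :: q) ++ (!c) :: s) ∨
  (∃ p c q s, p.length = q.length ∧ w = (p ++ c :: q) ++ c :: s)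

theorem split_two (w : List Bool) (i j : ℕ) (b c : Bool) (hij : i < j) (hi : w[i]? = some b)
    (hj : w[j]? = some c) :
    ∃ p q s, p.length = i ∧ q.length = j - i - 1 ∧ w = p ++ b :: q ++ c :: s := by
  have hjl : j < w.length := by
    rw [List.getElem?_eq_some_iff] at hj
    exact hj.1
  have hil : i < w.length := by omega
  refine ⟨w.take i, (w.drop (i + 1)).take (j - i - 1), w.drop (j + 1), ?_, ?_, ?_⟩
  · simp; omega
  · simp; omega
  · rw [List.getElem?_eq_some_iff] at hi hj
    obtain ⟨hi1, hi2⟩ := hi
    obtain ⟨hj1, hj2⟩ := hj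
    have e1 : w = w.take i ++ b :: w.drop (i + 1) := by
      rw [← hi2, List.cons_getElem_drop_succ, List.take_append_drop]
    have e2 : w.drop (i + 1) = (w.drop (i + 1)).take (j - i - 1) ++ c :: w.drop (j + 1) := by
      have hlen : j - i - 1 < (w.drop (i + 1)).length := by simp; omega
      have e3 : (w.drop (i + 1))[j - i - 1] = c := by
        rw [List.getElem_drop, ← hj2]
        congr 1
        omega
      have e4 : w.drop (j + 1) = (w.drop (i + 1)).drop (j - i - 1 + 1) := by
        rw [List.drop_drop]
        congr 1
        omega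
      rw [e4, ← e3, List.cons_getElem_drop_succ, List.take_append_drop]
    conv_lhs => rw [e1, e2]
    simp

theorem bad_iff (w : List Bool) : Bad w ↔ ¬ IsPre w := by
  constructor
  · rintro (⟨w', rfl⟩ | ⟨a, p, c, q, s, hpq, rfl⟩ | ⟨p, c, q, s, hpq, rfl⟩) h
    · have := h 0 true (by simp)
      simp [tm] at this
    · have h1 := h (p.length + 1) c (by simp)
      have h2 := h (2 * (p.length + 1)) (!c) (by
        have e : 2 * (p.length + 1) = (a :: (p ++ c :: q)).length := by simp; omega
        rw [e, List.getElem?_append_right (le_refl _)]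
        simp)
      rw [tm_even, ← h1] at h2
      cases c <;> simp at h2
    · have h1 := h p.length c (by simp)
      have h2 := h (2 * p.length + 1) c (by
        have e : 2 * p.length + 1 = (p ++ c :: q).length := by simp; omega
        rw [e, List.getElem?_append_right (le_refl _)]
        simp)
      rw [tm_odd, ← h1] at h2
      cases c <;> simp at h2
  · intro h
    classical
    unfold IsPre at h
    push Not at h
    have hex : ∃ i, ∃ b, w[i]? = some b ∧ b ≠ tm i := h
    obtain ⟨b, hb, hne⟩ := Nat.find_spec hex
    have hmin : ∀ j, j < Nat.find hex → ∀ b, w[j]? = some b → b = tm j := by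
      intro j hj b hb
      by_contra hcon
      exact Nat.find_min hex hj ⟨b, hb, hcon⟩
    generalize Nat.find hex = i at hb hne hmin
    have hlt : i < w.length := by
      rw [List.getElem?_eq_some_iff] at hb
      exact hb.1
    rcases Nat.even_or_odd' i with ⟨j, rfl | rfl⟩
    · rcases j with _ | j
      · left
        have : b = true := by
          have : tm (2 * 0) = false := by simp [tm]
          rw [this] at hne
          cases b <;> simp at hne ⊢
        subst this
        rcases w with _ | ⟨a, w⟩
        · simp at hb
        · simp at hb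
          exact ⟨w, by rw [hb]⟩
      · right; left
        obtain ⟨c, hc⟩ : ∃ c, w[j + 1]? = some c := ⟨w[j + 1], by
          rw [List.getElem?_eq_getElem]⟩
        have hc2 := hmin (j + 1) (by omega) c hc
        obtain ⟨p, q, s, hp, hq, hw⟩ := split_two w (j + 1) (2 * (j + 1)) c b (by omega) hc hb
        rcases p with _ | ⟨a, p⟩
        · simp at hp
        · refine ⟨a, p, c, q, s, ?_, ?_⟩
          · simp at hp; omega
          · have hbc : b = !c := by
              rw [tm_even, ← hc2] at hne
              cases b <;> cases c <;> simp at hne ⊢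
            rw [hw, hbc]
            simp
    · right; right
      obtain ⟨c, hc⟩ : ∃ c, w[j]? = some c := ⟨w[j], by rw [List.getElem?_eq_getElem]⟩
      have hc2 := hmin j (by omega) c hc
      obtain ⟨p, q, s, hp, hq, hw⟩ := split_two w j (2 * j + 1) c b (by omega) hc hb
      refine ⟨p, c, q, s, by omega, ?_⟩
      have hbc : b = c := by
        rw [tm_odd, ← hc2] at hne
        cases b <;> cases c <;> simp at hne ⊢
      rw [hw, hbc]

/-! ### The grammar -/

/-- Nonterminals. -/
inductive NT
  | S
  | A
  | E (b : Bool)
  deriving DecidableEq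

/-- The rules. -/
def rl : List (ContextFreeRule Bool NT) := [
  ⟨.S, [terminal true, nonterminal .A]⟩,
  ⟨.S, [terminal true, nonterminal (.E true), terminal false, nonterminal .A]⟩,
  ⟨.S, [terminal false, nonterminal (.E true), terminal false, nonterminal .A]⟩,
  ⟨.S, [terminal true, nonterminal (.E false), terminal true, nonterminal .A]⟩,
  ⟨.S, [terminal false, nonterminal (.E false), terminal true, nonterminal .A]⟩,
  ⟨.S, [nonterminal (.E true), terminal true, nonterminal .A]⟩,
  ⟨.S, [nonterminal (.E false), terminal false, nonterminal .A]⟩,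
  ⟨.A, []⟩,
  ⟨.A, [terminal true, nonterminal .A]⟩,
  ⟨.A, [terminal false, nonterminal .A]⟩,
  ⟨.E true, [terminal true]⟩,
  ⟨.E false, [terminal false]⟩,
  ⟨.E true, [terminal true, nonterminal (.E true), terminal true]⟩,
  ⟨.E true, [terminal true, nonterminal (.E true), terminal false]⟩,
  ⟨.E true, [terminal false, nonterminal (.E true), terminal true]⟩,
  ⟨.E true, [terminal false, nonterminal (.E true), terminal false]⟩,
  ⟨.E false, [terminal true, nonterminal (.E false), terminal true]⟩,
  ⟨.E false, [terminal true, nonterminal (.E false), terminal false]⟩,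
  ⟨.E false, [terminal false, nonterminal (.E false), terminal true]⟩,
  ⟨.E false, [terminal false, nonterminal (.E false), terminal false]⟩]

/-- The grammar. -/
def gr : ContextFreeGrammar Bool where
  NT := NT
  initial := NT.S
  rules := rl.toFinset

/-- Interpretation of a string of symbols. -/
def Yl (I : NT → List Bool → Prop) : List (Symbol Bool NT) → List Bool → Prop
  | [], w => w = []
  | terminal t :: s, w => ∃ w', w = t :: w' ∧ Yl I s w'
  | nonterminal A :: s, w => ∃ w1 w2, w = w1 ++ w2 ∧ I A w1 ∧ Yl I s w2

theorem Yl_append {I : NT → List Bool → Prop} (s : List (Symbol Bool NT)) :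
    ∀ (s' : List (Symbol Bool NT)) (w : List Bool),
      Yl I (s ++ s') w ↔ ∃ w1 w2, w = w1 ++ w2 ∧ Yl I s w1 ∧ Yl I s' w2 := by
  induction s with
  | nil =>
    intro s' w
    constructor
    · intro h; exact ⟨[], w, rfl, rfl, h⟩
    · rintro ⟨w1, w2, rfl, h1, h2⟩
      have : w1 = [] := h1
      subst this
      exact h2
  | cons a s ih =>
    intro s' w
    cases a with
    | terminal t =>
      constructor
      · rintro ⟨w', rfl, h⟩
        obtain ⟨w1, w2, rfl, h1, h2⟩ := (ih s' w').mp h
        exact ⟨t :: w1, w2, rfl, ⟨w1, rfl, h1⟩, h2⟩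
      · rintro ⟨w1, w2, rfl, ⟨w', rfl, h1⟩, h2⟩
        exact ⟨w' ++ w2, rfl, (ih s' _).mpr ⟨w', w2, rfl, h1, h2⟩⟩
    | nonterminal A =>
      constructor
      · rintro ⟨w0, w', rfl, h0, h⟩
        obtain ⟨w1, w2, rfl, h1, h2⟩ := (ih s' w').mp h
        exact ⟨w0 ++ w1, w2, by rw [List.append_assoc], ⟨w0, w1, rfl, h0, h1⟩, h2⟩
      · rintro ⟨w1, w2, rfl, ⟨w0, w', rfl, h0, h1⟩, h2⟩
        exact ⟨w0, w' ++ w2, by rw [List.append_assoc], h0, (ih s' _).mpr ⟨w', w2, rfl, h1, h2⟩⟩

theorem Yl_map {I : NT → List Bool → Prop} (w : List Bool) : Yl I (w.map terminal) w := by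
  induction w with
  | nil => rfl
  | cons t w ih => exact ⟨w, rfl, ih⟩

theorem mem_rules (r : ContextFreeRule Bool NT) : r ∈ gr.rules ↔ r ∈ rl := by
  show r ∈ rl.toFinset ↔ _
  exact List.mem_toFinset

theorem sound {I : NT → List Bool → Prop}
    (hI : ∀ r ∈ rl, ∀ w, Yl I r.output w → I r.input w) {s : List (Symbol Bool NT)}
    {w : List Bool} (h : gr.Derives s (w.map terminal)) : Yl I s w := by
  induction h using Relation.ReflTransGen.head_induction_on with
  | refl => exact Yl_map w
  | head hstep _ ih =>
    obtain ⟨r, hr, hrw⟩ := hstep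
    obtain ⟨p, q, rfl, rfl⟩ := ContextFreeRule.rewrites_iff.mp hrw
    obtain ⟨w12, w3, rfl, h12, h3⟩ := (Yl_append _ _ _).mp ih
    obtain ⟨w1, w2, rfl, h1, h2⟩ := (Yl_append _ _ _).mp h12
    refine (Yl_append _ _ _).mpr ⟨w1 ++ w2, w3, rfl, (Yl_append _ _ _).mpr
      ⟨w1, w2, rfl, h1, w2, [], by simp, hI r ((mem_rules r).mp hr) w2 h2, rfl⟩, h3⟩

/-- Words derived from a nonterminal. -/
def Der (A : NT) (w : List Bool) : Prop := gr.Derives [nonterminal A] (w.map terminal)

theorem der_of_yl (s : List (Symbol Bool NT)) : ∀ w : List Bool,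
    Yl Der s w → gr.Derives s (w.map terminal) := by
  induction s with
  | nil =>
    intro w h
    have : w = [] := h
    subst this
    exact Relation.ReflTransGen.refl
  | cons a s ih =>
    intro w h
    cases a with
    | terminal t =>
      obtain ⟨w', rfl, h⟩ := h
      exact (ih w' h).append_left [terminal t]
    | nonterminal A =>
      obtain ⟨w1, w2, rfl, h1, h2⟩ := h
      have h3 := (ih w2 h2).append_left [nonterminal A]
      have h4 := ContextFreeGrammar.Derives.append_right h1 (w2.map terminal)
      rw [List.map_append]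
      exact h3.trans h4

theorem complete {r : ContextFreeRule Bool NT} (hr : r ∈ rl)
    {w : List Bool} (h : Yl Der r.output w) : Der r.input w := by
  have h1 := der_of_yl _ _ h
  refine Relation.ReflTransGen.head ⟨r, ?_, ?_⟩ h1
  · exact (mem_rules r).mpr hr
  · exact ContextFreeRule.Rewrites.input_output

/-- The intended interpretation. -/
def Int : NT → List Bool → Prop
  | .S, w => Bad w
  | .A, _ => True
  | .E c, w => ∃ p q : List Bool, p.length = q.length ∧ w = p ++ c :: q

theorem int_of_rule : ∀ r ∈ rl, ∀ w, Yl Int r.output w → Int r.input w := by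
  intro r hr w h
  have hE : ∀ a b c : Bool, (∃ w', w = a :: w' ∧ ∃ w1 w2, w' = w1 ++ w2 ∧
      (∃ p q : List Bool, p.length = q.length ∧ w1 = p ++ c :: q) ∧
      ∃ w3, w2 = b :: w3 ∧ w3 = []) → ∃ p q : List Bool, p.length = q.length ∧ w = p ++ c :: q := by
    rintro a b c ⟨_, rfl, _, _, rfl, ⟨p, q, hpq, rfl⟩, _, rfl, rfl⟩
    exact ⟨a :: p, q ++ [b], by simp [hpq], by simp⟩
  have hS : ∀ a c : Bool, (∃ w', w = a :: w' ∧ ∃ w1 w2, w' = w1 ++ w2 ∧
      (∃ p q : List Bool, p.length = q.length ∧ w1 = p ++ c :: q) ∧
      ∃ w3, w2 = (!c) :: w3 ∧ ∃ w4 w5, w3 = w4 ++ w5 ∧ True ∧ w5 = []) → Bad w := by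
    rintro a c ⟨_, rfl, _, _, rfl, ⟨p, q, hpq, rfl⟩, _, rfl, w4, _, rfl, -, rfl⟩
    exact Or.inr (Or.inl ⟨a, p, c, q, w4, hpq, by simp⟩)
  have hT : ∀ c : Bool, (∃ w1 w2, w = w1 ++ w2 ∧
      (∃ p q : List Bool, p.length = q.length ∧ w1 = p ++ c :: q) ∧
      ∃ w3, w2 = c :: w3 ∧ ∃ w4 w5, w3 = w4 ++ w5 ∧ True ∧ w5 = []) → Bad w := by
    rintro c ⟨_, _, rfl, ⟨p, q, hpq, rfl⟩, _, rfl, w4, _, rfl, -, rfl⟩
    exact Or.inr (Or.inr ⟨p, c, q, w4, hpq, by simp⟩)
  simp only [rl, List.mem_cons, List.not_mem_nil, or_false] at hr
  rcases hr with rfl | rfl | rfl | rfl | rfl | rfl | rfl | rfl | rfl | rfl | rfl | rfl | rfl |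
    rfl | rfl | rfl | rfl | rfl | rfl | rfl
  · obtain ⟨w', rfl, -⟩ := h
    exact Or.inl ⟨w', rfl⟩
  · exact hS true true h
  · exact hS false true h
  · exact hS true false h
  · exact hS false false h
  · exact hT true h
  · exact hT false h
  · trivial
  · trivial
  · trivial
  · obtain ⟨w', rfl, h⟩ := h
    have : w' = [] := h
    subst this
    exact ⟨[], [], rfl, rfl⟩
  · obtain ⟨w', rfl, h⟩ := h
    have : w' = [] := h
    subst this
    exact ⟨[], [], rfl, rfl⟩
  · exact hE true true true h
  · exact hE true false true h
  · exact hE false true true h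
  · exact hE false false true h
  · exact hE true true false h
  · exact hE true false false h
  · exact hE false true false h
  · exact hE false false false h

theorem der_A (w : List Bool) : Der .A w := by
  induction w with
  | nil => exact complete (r := ⟨.A, []⟩) (by simp [rl]) rfl
  | cons b w ih =>
    cases b with
    | true =>
      exact complete (r := ⟨.A, [terminal true, nonterminal .A]⟩) (by simp [rl])
        ⟨w, rfl, w, [], by simp, ih, rfl⟩
    | false =>
      exact complete (r := ⟨.A, [terminal false, nonterminal .A]⟩) (by simp [rl])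
        ⟨w, rfl, w, [], by simp, ih, rfl⟩

theorem der_E (c : Bool) (p : List Bool) : ∀ q : List Bool, p.length = q.length →
    Der (.E c) (p ++ c :: q) := by
  induction p with
  | nil =>
    intro q hq
    have : q = [] := List.eq_nil_of_length_eq_zero (by simpa using hq.symm)
    subst this
    cases c with
    | true => exact complete (r := ⟨.E true, [terminal true]⟩) (by simp [rl]) ⟨[], rfl, rfl⟩
    | false => exact complete (r := ⟨.E false, [terminal false]⟩) (by simp [rl]) ⟨[], rfl, rfl⟩
  | cons a p ih =>
    intro q hq
    rcases List.eq_nil_or_concat' q with rfl | ⟨q', b, rfl⟩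
    · simp at hq
    · have h1 := ih q' (by simpa using hq)
      have h2 : Yl Der [terminal a, nonterminal (.E c), terminal b] (a :: p ++ c :: (q' ++ [b])) :=
        ⟨p ++ c :: (q' ++ [b]), rfl, p ++ c :: q', [b], by simp, h1, [], rfl, rfl⟩
      have h3 : (⟨.E c, [terminal a, nonterminal (.E c), terminal b]⟩ : ContextFreeRule Bool NT) ∈ rl := by
        cases a <;> cases b <;> cases c <;> simp [rl]
      exact complete (r := ⟨.E c, [terminal a, nonterminal (.E c), terminal b]⟩) h3 h2

theorem der_S (w : List Bool) (h : Bad w) : Der .S w := by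
  rcases h with ⟨w', rfl⟩ | ⟨a, p, c, q, s, hpq, rfl⟩ | ⟨p, c, q, s, hpq, rfl⟩
  · exact complete (r := ⟨.S, [terminal true, nonterminal .A]⟩) (by simp [rl])
      ⟨w', rfl, w', [], by simp, der_A _, rfl⟩
  · have h2 : Yl Der [terminal a, nonterminal (.E c), terminal (!c), nonterminal .A]
        (a :: (p ++ c :: q) ++ (!c) :: s) :=
      ⟨(p ++ c :: q) ++ (!c) :: s, rfl, p ++ c :: q, (!c) :: s, rfl, der_E c p q hpq, s, rfl, s, [],
        by simp, der_A _, rfl⟩
    have h3 : (⟨.S, [terminal a, nonterminal (.E c), terminal (!c), nonterminal .A]⟩ :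
        ContextFreeRule Bool NT) ∈ rl := by
      cases a <;> cases c <;> simp [rl]
    exact complete (r := ⟨.S, [terminal a, nonterminal (.E c), terminal (!c), nonterminal .A]⟩) h3 h2
  · have h2 : Yl Der [nonterminal (.E c), terminal c, nonterminal .A]
        ((p ++ c :: q) ++ c :: s) :=
      ⟨p ++ c :: q, c :: s, rfl, der_E c p q hpq, s, rfl, s, [],
        by simp, der_A _, rfl⟩
    have h3 : (⟨.S, [nonterminal (.E c), terminal c, nonterminal .A]⟩ :
        ContextFreeRule Bool NT) ∈ rl := by
      cases c <;> simp [rl]
    exact complete (r := ⟨.S, [nonterminal (.E c), terminal c, nonterminal .A]⟩) h3 h2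

/-- The grammar generates exactly the words which are not prefixes of the Thue-Morse word. -/
theorem mem_language (w : List Bool) : w ∈ gr.language ↔ ¬ IsPre w := by
  rw [← bad_iff, ContextFreeGrammar.mem_language_iff]
  constructor
  · intro h
    have := sound int_of_rule h
    obtain ⟨w1, w2, rfl, h1, h2⟩ := this
    have h3 : w2 = [] := h2
    subst h3
    rw [List.append_nil]
    exact h1
  · intro h
    exact der_S w h

/-! ### Powers -/

theorem rep_getElem? (u : List Bool) (m : ℕ) (rest : List Bool) (j : ℕ) :
    j < (m * u.length) →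
    ((List.replicate (m + 1) u).flatten ++ rest)[j]? =
      ((List.replicate (m + 1) u).flatten ++ rest)[j + u.length]? := by
  induction m generalizing j with
  | zero => intro h; omega
  | succ m ih =>
    intro h
    have e : (List.replicate (m + 1 + 1) u).flatten ++ rest =
        u ++ ((List.replicate (m + 1) u).flatten ++ rest) := by
      rw [List.replicate_succ, List.flatten_cons, List.append_assoc]
    rw [e]
    have e2 : (u ++ ((List.replicate (m + 1) u).flatten ++ rest))[j + u.length]? =
        ((List.replicate (m + 1) u).flatten ++ rest)[j]? := by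
      rw [List.getElem?_append_right (by omega)]
      congr 1
      omega
    rw [e2]
    rcases lt_or_ge j u.length with hj | hj
    · rw [List.getElem?_append_left hj]
      rw [List.replicate_succ, List.flatten_cons, List.append_assoc, List.getElem?_append_left hj]
    · rw [List.getElem?_append_right hj]
      have := ih (j - u.length) (by rw [Nat.succ_mul] at h; omega)
      rw [this]
      congr 1
      omega

theorem rep_length (u : List Bool) (m : ℕ) : ((List.replicate m u).flatten).length = m * u.length := by
  simp

/-- A prefix of the Thue-Morse word contains no sixth power. -/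
theorem no_power (a u b : List Bool) (m : ℕ) (hm : 6 ≤ m) (hu : u ≠ []) :
    ¬ IsPre (a ++ (List.replicate m u).flatten ++ b) := by
  intro h
  have hul : 1 ≤ u.length := List.length_pos_iff.mpr hu
  obtain ⟨m, rfl⟩ : ∃ m', m = m' + 1 := ⟨m - 1, by omega⟩
  refine tm_power_free u.length hul a.length ?_
  intro j hj1 hj2
  have hlen : j - a.length < m * u.length := by
    have : 5 * u.length ≤ m * u.length := Nat.mul_le_mul_right _ (by omega)
    omega
  have e1 : (a ++ (List.replicate (m + 1) u).flatten ++ b)[j]? =
      ((List.replicate (m + 1) u).flatten ++ b)[j - a.length]? := by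
    rw [List.append_assoc, List.getElem?_append_right hj1]
  have e2 : (a ++ (List.replicate (m + 1) u).flatten ++ b)[j + u.length]? =
      ((List.replicate (m + 1) u).flatten ++ b)[j - a.length + u.length]? := by
    rw [List.append_assoc, List.getElem?_append_right (by omega)]
    congr 1
    omega
  have e3 := rep_getElem? u m b (j - a.length) hlen
  have hl : j - a.length < ((List.replicate (m + 1) u).flatten ++ b).length := by
    rw [List.length_append, rep_length, Nat.succ_mul]
    omega
  have e4 : ((List.replicate (m + 1) u).flatten ++ b)[j - a.length]? =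
    some (((List.replicate (m + 1) u).flatten ++ b)[j - a.length]) := List.getElem?_eq_getElem hl
  have h1 := h j _ (e1.trans e4)
  have h2 := h (j + u.length) _ (e2.trans (e3.symm.trans e4))
  rw [← h1, ← h2]

/-! ### Prefixes -/

/-- The prefix of length `n`. -/
def pre (n : ℕ) : List Bool := (List.range n).map tm

theorem isPre_pre (n : ℕ) : IsPre (pre n) := by
  intro i b h
  unfold pre at h
  rw [List.getElem?_map] at h
  rcases lt_or_ge i n with hi | hi
  · rw [List.getElem?_range hi] at h
    simpa using h.symm
  · rw [List.getElem?_eq_none (by simpa using hi)] at h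
    simp at h

theorem pre_add (n m : ℕ) : pre (n + m) = pre n ++ (List.range m).map (fun i => tm (n + i)) := by
  unfold pre
  rw [List.range_add, List.map_append, List.map_map]
  rfl

theorem not_regular : ¬ gr.language.IsRegular := by
  rintro ⟨σ, hσ, M, hM⟩
  obtain ⟨i, j, hij, heq⟩ := Finite.exists_ne_map_eq_of_infinite (fun n : ℕ => M.eval (pre n))
  wlog hlt : i < j generalizing i j
  · exact this j i (Ne.symm hij) heq.symm (by omega)
  obtain ⟨d, rfl⟩ : ∃ d, j = i + d := ⟨j - i, by omega⟩
  have hd : 1 ≤ d := by omega
  set v := (List.range d).map (fun k => tm (i + k)) with hv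
  have hvne : v ≠ [] := by
    intro h0
    have := congrArg List.length h0
    simp [hv] at this
    omega
  rw [pre_add, ← hv] at heq
  have key : ∀ m, M.eval (pre i ++ (List.replicate m v).flatten) = M.eval (pre i) := by
    intro m
    induction m with
    | zero => simp
    | succ m ih =>
      have e : (List.replicate (m + 1) v).flatten = (List.replicate m v).flatten ++ v := by
        rw [List.replicate_succ', List.flatten_append]
        simp
      rw [e, ← List.append_assoc, DFA.eval, DFA.evalFrom_of_append]
      have ih' : M.evalFrom M.start (pre i ++ (List.replicate m v).flatten) = M.evalFrom M.start (pre i) := ih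
      rw [ih', ← DFA.evalFrom_of_append]
      exact heq.symm
  have h6 := key 6
  have hin : pre i ++ (List.replicate 6 v).flatten ∈ gr.language := by
    rw [mem_language]
    have := no_power (pre i) v [] 6 (le_refl _) hvne
    simpa using this
  have hout : pre i ∉ gr.language := by
    rw [mem_language, not_not]
    exact isPre_pre i
  rw [← hM] at hin hout
  apply hout
  change M.eval (pre i) ∈ M.accept
  rw [← h6]
  exact hin

/-- The negation of the preceding statement: For every context-free language L over a finite alphabet: L is regular iff for some k ≥ 1, whenever uv is nonempty and x uⁿ y vⁿ z ∈ L for all n ≥ 1, then x u^{kn} y v^{km} z ∈ L for all n, m ≥ 1. -/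
theorem result :
    ¬ (∀ (α : Type) [Fintype α] (L : Language α), L.IsContextFree →
      (L.IsRegular ↔
        ∃ k : ℕ, 1 ≤ k ∧
          ∀ x u y v z : List α, u ++ v ≠ [] →
            (∀ n : ℕ, 1 ≤ n →
              x ++ (List.replicate n u).flatten ++ y ++ (List.replicate n v).flatten ++ z ∈ L) →
            ∀ n m : ℕ, 1 ≤ n → 1 ≤ m →
              x ++ (List.replicate (k * n) u).flatten ++ y ++ (List.replicate (k * m) v).flatten ++ z ∈ L)) := by
  intro H
  refine not_regular ((H Bool gr.language ⟨gr, rfl⟩).mpr ⟨6, by norm_num, ?_⟩)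
  intro x u y v z huv _ n m hn hm
  rw [mem_language]
  by_cases hu : u = []
  · have hv : v ≠ [] := by
      rintro rfl
      exact huv (by simp [hu])
    exact no_power (x ++ (List.replicate (6 * n) u).flatten ++ y) v z (6 * m) (by omega) hv
  · have := no_power x u (y ++ (List.replicate (6 * m) v).flatten ++ z) (6 * n) (by omega) hu
    simpa [List.append_assoc] using this

end Pool.Agent.S09956
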