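import Pool.Statements.S09961
import Pool.Agent.H639R2.NF.Final

set_option autoImplicit false
open Pool Pool.MP_27613e_lc

namespace Pool.Agent.S09961

/-- For all naturals i,j,k, every context-free language L over a finite alphabet has a grammar for L whose rules are A→w with ∣w∣ a length of some word in L, or A→uBvCz with u,v,z terminal words of lengths i,j,k. -/
theorem result :
    ∀ (i j k : ℕ) (T : Type) [Fintype T] (L : Language T), L.IsContextFree →
      ∃ g : ContextFreeGrammar T, g.language = L ∧
        ∀ r ∈ g.rules,
          (∃ w : List T, r.output = w.map (fun a => (Symbol.terminal a : Symbol T g.NT)) ∧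
              ∃ x ∈ L, x.length = w.length) ∨
          (∃ (u v z : List T) (B C : g.NT), u.length = i ∧ v.length = j ∧ z.length = k ∧
            r.output = u.map (fun a => (Symbol.terminal a : Symbol T g.NT)) ++
              [(Symbol.nonterminal B : Symbol T g.NT)] ++
              v.map (fun a => (Symbol.terminal a : Symbol T g.NT)) ++
              [(Symbol.nonterminal C : Symbol T g.NT)] ++
              z.map (fun a => (Symbol.terminal a : Symbol T g.NT))) := by
  intro i j k T _ L hL
  obtain ⟨g, h1, h2⟩ := Pool.Agent.H639R2.NF.main i j k T L hL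
  refine ⟨g, h1, fun r hr => ?_⟩
  rcases h2 r hr with ⟨w, h3, h4⟩ | ⟨u, v, z, B, C, hu, hv, hz, h3⟩
  · exact Or.inl ⟨w, h3, h4⟩
  · exact Or.inr ⟨u, v, z, B, C, hu, hv, hz, h3⟩

end Pool.Agent.S09961
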