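import Pool.Statements.S10005
import Pool.Agent.H595R2.PTF.Final

set_option autoImplicit false
open Pool Pool.MP_375aa5_lc

namespace Pool.Agent.S10005

open Pool.Agent.Helper497.HS (sv samp Ex chi fc Ex_congr Ex_equiv Ex_const)
open Pool.Agent.H595R2.PTF

/-- For every degree d and ε>0 there is q such that for all n, some randomized q-query tester accepts every degree-≤d polynomial threshold function on {-1,1}^n w.p. ≥2/3 and every function ε-far from all such PTFs w.p. ≤1/3. -/
theorem result :
    ∀ d : ℕ, ∀ ε : ℝ, 0 < ε → ∃ q : ℕ, ∀ n : ℕ,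
      ∃ m : ℕ, ∃ w : Fin m → ℝ, ∃ Q : Fin m → Fin q → (Fin n → Bool),
        ∃ D : Fin m → (Fin q → Bool) → Bool,
          (∀ r, 0 ≤ w r) ∧ (∑ r, w r = 1) ∧
          (∀ f : (Fin n → Bool) → Bool,
            (∃ p : MvPolynomial (Fin n) ℝ, p.totalDegree ≤ d ∧
              ∀ x : Fin n → Bool,
                f x = decide (0 < MvPolynomial.eval (fun i => if x i then (1:ℝ) else -1) p)) →
            (2:ℝ)/3 ≤ ∑ r, w r * (if D r (fun j => f (Q r j)) = true then (1:ℝ) else 0)) ∧
          (∀ f : (Fin n → Bool) → Bool,
            (∀ g : (Fin n → Bool) → Bool,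
              (∃ p : MvPolynomial (Fin n) ℝ, p.totalDegree ≤ d ∧
                ∀ x : Fin n → Bool,
                  g x = decide (0 < MvPolynomial.eval (fun i => if x i then (1:ℝ) else -1) p)) →
              ε * (2:ℝ) ^ n ≤ ((Finset.univ.filter (fun x => f x ≠ g x)).card : ℝ)) →
            ∑ r, w r * (if D r (fun j => f (Q r j)) = true then (1:ℝ) else 0) ≤ (1:ℝ)/3) := by
  classical
  intro d ε hε
  obtain ⟨M, hM, hsound⟩ := ptf_soundness d ε hε
  haveI : NeZero M := ⟨hM.ne'⟩
  refine ⟨Fintype.card (Fin M → ℤˣ), fun n => ?_⟩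
  let Ωn := (Fin n → ℤˣ) × (Fin n → Fin M)
  haveI : Nonempty Ωn := ⟨(fun _ => 1, fun _ => 0)⟩
  let eΩ : Ωn ≃ Fin (Fintype.card Ωn) := Fintype.equivFin _
  let eM : (Fin M → ℤˣ) ≃ Fin (Fintype.card (Fin M → ℤˣ)) := Fintype.equivFin _
  have hcard : (0:ℝ) < (Fintype.card Ωn : ℝ) := by exact_mod_cast Fintype.card_pos
  let dec : (Fin (Fintype.card (Fin M → ℤˣ)) → Bool) → Bool := fun ans =>
    decide (∃ P : (Fin M → ℤˣ) → ℝ, LD d P ∧ ∀ u, ans (eM u) = decide (0 < P u))
  let Qf : Fin (Fintype.card Ωn) → Fin (Fintype.card (Fin M → ℤˣ)) → (Fin n → Bool) :=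
    fun r j i => ofu (samp (eΩ.symm r).1 (eΩ.symm r).2 (eM.symm j) i)
  have hsum : ∀ f : (Fin n → Bool) → Bool,
      ∑ r, (1 / (Fintype.card Ωn : ℝ)) *
        (if dec (fun j => f (Qf r j)) = true then (1:ℝ) else 0)
      = Ex (fun zc : Ωn => if dec (fun j => f (fun i => ofu (samp zc.1 zc.2 (eM.symm j) i))) = true
          then (1:ℝ) else 0) := by
    intro f
    unfold Ex
    rw [← Finset.mul_sum, one_div, inv_mul_eq_div]
    congr 1
    rw [← Equiv.sum_comp eΩ]
    refine Finset.sum_congr rfl fun zc _ => ?_
    simp only [Qf, Equiv.symm_apply_apply]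
  refine ⟨Fintype.card Ωn, fun _ => 1 / (Fintype.card Ωn : ℝ), Qf, fun _ => dec,
    fun _ => by positivity, ?_, ?_, ?_⟩
  · rw [Finset.sum_const, Finset.card_univ, Fintype.card_fin, nsmul_eq_mul]
    field_simp
  · -- completeness
    rintro f ⟨p, hp, hf⟩
    rw [hsum f]
    have hall : ∀ zc : Ωn,
        dec (fun j => f (fun i => ofu (samp zc.1 zc.2 (eM.symm j) i))) = true := by
      intro zc
      simp only [dec]
      rw [decide_eq_true_iff]
      refine ⟨fun u => MvPolynomial.eval (fun i => sv (zc.1 i) * sv (u (zc.2 i))) p, ?_, ?_⟩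
      · refine LD_mvpoly p hp (fun i u => sv (zc.1 i) * sv (u (zc.2 i))) fun i => ?_
        exact LD.const_mul _ (LD_var (zc.2 i))
      · intro u
        rw [Equiv.symm_apply_apply, hf]
        have e : (fun i => if ofu (samp zc.1 zc.2 u i) = true then (1:ℝ) else -1)
            = fun i => sv (zc.1 i) * sv (u (zc.2 i)) := by
          funext i
          rw [ite_ofu]
          simp only [samp]
          rw [Pool.Agent.Helper497.HS.sv_mul]
        rw [e]
    simp only [hall, if_true]
    rw [Ex_const]
    norm_num
  · -- soundness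
    intro f hfar
    rw [hsum f]
    set F : (Fin n → ℤˣ) → ℝ := fun x => sv (tu (f (fun i => ofu (x i)))) with hF
    have hFabs : ∀ x, |F x| = 1 := fun x => by simp [hF]
    have hfar' : ∀ P : (Fin n → ℤˣ) → ℝ, LD d P → ε ≤ Pr (fun x => F x * P x ≤ 0) := by
      intro P hP
      obtain ⟨p, hp, hpe⟩ := mvpoly_of_LD P hP
      have h1 := hfar (fun x => decide (0 < MvPolynomial.eval (fun i => if x i then (1:ℝ) else -1) p))
        ⟨p, hp, fun _ => rfl⟩
      rw [Pr_eq, ← Ex_equiv (cubeE n)]
      have h2 : ((Finset.univ.filter (fun x : Fin n → Bool => f x ≠ decide (0 <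
          MvPolynomial.eval (fun i => if x i then (1:ℝ) else -1) p))).card : ℝ)
          ≤ ∑ x : Fin n → Bool, if F (cubeE n x) * P (cubeE n x) ≤ 0 then (1:ℝ) else 0 := by
        rw [Finset.card_filter]
        push_cast
        refine Finset.sum_le_sum fun x _ => ?_
        have e1 : F (cubeE n x) = if f x = true then 1 else -1 := by
          simp only [hF, cubeE, Equiv.coe_fn_mk, ofu_tu]
          rw [sv_tu]
        have e2 : P (cubeE n x)
            = MvPolynomial.eval (fun i => if x i then (1:ℝ) else -1) p := by
          rw [hpe x]; rfl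
        rw [e1, e2]
        set v := MvPolynomial.eval (fun i => if x i then (1:ℝ) else -1) p with hv
        by_cases hc : F (cubeE n x) * P (cubeE n x) ≤ 0
        · rw [e1, e2] at hc
          rw [if_pos hc]
          split_ifs <;> norm_num
        · rw [e1, e2] at hc
          have hnot : ¬ (f x ≠ decide (0 < v)) := by
            intro hne
            apply hc
            by_cases hfx : f x = true
            · rw [if_pos hfx, one_mul]
              by_contra hv0
              push Not at hv0
              apply hne
              rw [hfx]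
              simp [hv0]
            · rw [if_neg hfx]
              have hfx' : f x = false := by simpa using hfx
              by_contra hv0
              have hv1 : v < 0 := by linarith
              apply hne
              rw [hfx']
              have : ¬ (0 < v) := by linarith
              simp [this]
          rw [if_neg hnot]
          split_ifs <;> norm_num
      unfold Ex
      have hcardc : (Fintype.card (Fin n → Bool) : ℝ) = 2 ^ n := by simp
      rw [hcardc, le_div_iff₀ (by positivity)]
      exact h1.trans h2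
    have hs := hsound (Fin n) F hFabs hfar'
    refine le_trans ?_ hs
    rw [Pr_eq]
    refine Pool.Agent.Helper497.HS.Ex_mono fun zc => ?_
    by_cases hd : dec (fun j => f (fun i => ofu (samp zc.1 zc.2 (eM.symm j) i))) = true
    · have hex : ∃ P : (Fin M → ℤˣ) → ℝ, LD d P ∧ ∀ u, 0 < F (samp zc.1 zc.2 u) * P u := by
        simp only [dec] at hd
        rw [decide_eq_true_iff] at hd
        obtain ⟨P, hP, hPu⟩ := hd
        -- perturbation
        have hpert : ∃ t : ℝ, 0 < t ∧ ∀ u, 0 < P u → t < P u := by
          by_cases hne : (Finset.univ.filter (fun u => 0 < P u)).Nonempty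
          · obtain ⟨u0, hu0, hmin⟩ := Finset.exists_min_image _ P hne
            have h0 : 0 < P u0 := (Finset.mem_filter.mp hu0).2
            refine ⟨P u0 / 2, by positivity, fun u hu => ?_⟩
            have := hmin u (Finset.mem_filter.mpr ⟨Finset.mem_univ _, hu⟩)
            linarith
          · refine ⟨1, one_pos, fun u hu => ?_⟩
            exact absurd ⟨u, Finset.mem_filter.mpr ⟨Finset.mem_univ _, hu⟩⟩ hne
        obtain ⟨t, ht, htP⟩ := hpert
        refine ⟨fun u => P u - t, hP.sub (LD.mono (Nat.zero_le _) (LD_const t)), fun u => ?_⟩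
        have h1 := hPu u
        rw [Equiv.symm_apply_apply] at h1
        have e1 : F (samp zc.1 zc.2 u) = if f (fun i => ofu (samp zc.1 zc.2 u i)) = true then 1 else -1 := by
          simp only [hF]
          rw [sv_tu]
        rw [e1]
        by_cases hp : 0 < P u
        · have : f (fun i => ofu (samp zc.1 zc.2 u i)) = true := by rw [h1]; simp [hp]
          rw [if_pos this]
          have := htP u hp
          linarith
        · have : ¬ (f (fun i => ofu (samp zc.1 zc.2 u i)) = true) := by rw [h1]; simp [hp]
          rw [if_neg this]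
          push Not at hp
          linarith
      rw [if_pos hd, if_pos hex]
    · rw [if_neg hd]
      split_ifs <;> norm_num

end Pool.Agent.S10005
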