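import Pool.Statements.S10078
import Pool.Agent.H582R2.NonCF

set_option autoImplicit false
open Pool Pool.MP_519233_lc

namespace Pool.Agent.S10078

/-- The negation of the preceding statement: For every k and every permutation-closed language L over k letters: L is context-free iff for each letter ordering σ, the words of L of the form a_σ(0)* a_σ(1)* ... a_σ(k-1)* form a context-free language. -/
theorem result :
    ¬ (∀ k : ℕ, ∀ L : Language (Fin k),
      (∀ w v : List (Fin k), w.Perm v → w ∈ L → v ∈ L) →
        ((∃ g : ContextFreeGrammar (Fin k), g.language = L) ↔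
          ∀ σ : Equiv.Perm (Fin k),
            ∃ g : ContextFreeGrammar (Fin k),
              ∀ w : List (Fin k),
                w ∈ g.language ↔
                  (w ∈ L ∧ List.Pairwise (fun x y => σ.symm x ≤ σ.symm y) w))) := by
  intro hall
  obtain ⟨g, hg⟩ := (hall 4 Pool.Agent.H582R2.Fl.Lg Pool.Agent.H582R2.Fl.perm_closed).2
    Pool.Agent.H582R2.Fl.side
  exact Pool.Agent.H582R2.NonCF.not_cf g hg

end Pool.Agent.S10078
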