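import Pool.Statements.S10082
import Pool.Agent.H643R2.PDCF
import Pool.Agent.H643R2.Cyl2
import Pool.Agent.Helper79.Comap

set_option autoImplicit false
open Pool Pool.MP_52db1d_lc

namespace Pool.Agent.S10082

/-- The negation of the preceding statement: Any family of languages closed under inverse morphisms and intersection with regular languages, all of whose members are context-free and one-locally-linear (marked-position iteration property), contains only regular languages. -/
theorem result :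
    ¬ (∀ F : ∀ n : ℕ, Set (Language (Fin n)),
      (∀ (m n : ℕ) (g : Fin m → List (Fin n)) (L : Language (Fin n)), L ∈ F n →
          ({w : List (Fin m) | w.flatMap g ∈ L} : Set (List (Fin m))) ∈ F m) →
      (∀ (n : ℕ) (L R : Language (Fin n)), L ∈ F n → R.IsRegular →
          ({w : List (Fin n) | w ∈ L ∧ w ∈ R} : Set (List (Fin n))) ∈ F n) →
      (∀ (n : ℕ) (L : Language (Fin n)), L ∈ F n →
          L.IsContextFree ∧
          ∃ N₀ : ℕ, ∀ f : List (Fin n), f ∈ L → ∀ M : Finset ℕ,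
            (∀ i ∈ M, i < f.length) → N₀ ≤ M.card →
            ∃ x u y : List (Fin n), f = x ++ u ++ y ∧
              (∀ k : ℕ, x ++ (List.replicate k u).flatten ++ y ∈ L) ∧
              (∃ i ∈ M, i < x.length) ∧
              (∃ i ∈ M, x.length ≤ i ∧ i < x.length + u.length) ∧
              (∃ i ∈ M, x.length + u.length ≤ i)) →
      ∀ (n : ℕ) (L : Language (Fin n)), L ∈ F n → L.IsRegular) := by
  classical
  intro hall
  open Pool.Agent.H643R2.PD in
  let F : ∀ n : ℕ, Set (Language (Fin n)) := fun n => {K | ∃ (h : Fin n → List (Fin 2))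
    (R : Language (Fin n)), R.IsRegular ∧ K = {w : List (Fin n) | w.flatMap h ∈ L ∧ w ∈ R}}
  have hreg := hall F ?_ ?_ ?_ 2 Pool.Agent.H643R2.PD.L ?_
  · exact Pool.Agent.H643R2.PD.L_not_regular hreg
  · rintro m n g K ⟨h, R, hR, rfl⟩
    refine ⟨fun a => (g a).flatMap h, {w | w.flatMap g ∈ R},
      Pool.Agent.Helper79.Trans.isRegular_comap g R hR, ?_⟩
    refine Set.ext fun w => ?_
    show ((w.flatMap g).flatMap h ∈ Pool.Agent.H643R2.PD.L ∧ w.flatMap g ∈ R) ↔
      (w.flatMap (fun a => (g a).flatMap h) ∈ Pool.Agent.H643R2.PD.L ∧ w.flatMap g ∈ R)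
    rw [List.flatMap_assoc]
  · rintro n K R ⟨h, R', hR', rfl⟩ hR
    refine ⟨h, R' ⊓ R, hR'.inf hR, ?_⟩
    refine Set.ext fun w => ?_
    show ((w.flatMap h ∈ Pool.Agent.H643R2.PD.L ∧ w ∈ R') ∧ w ∈ R) ↔
      (w.flatMap h ∈ Pool.Agent.H643R2.PD.L ∧ (w ∈ R' ∧ w ∈ R))
    tauto
  · rintro n K ⟨h, R, ⟨σ, hσ, M, rfl⟩, rfl⟩
    constructor
    · obtain ⟨g, hg⟩ := Pool.Agent.H643R2.PD.L_cf
      rw [← hg]
      exact Pool.Agent.Helper79.Trans.isContextFree_comap_inter h M g
    · obtain ⟨N₀, hN₀⟩ := Pool.Agent.H643R2.PD.one_ll (h := h) M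
        (Finset.univ.sup fun a => (h a).length)
        (fun a => Finset.le_sup (f := fun a => (h a).length) (Finset.mem_univ a))
      refine ⟨N₀, fun f hf Mk hMk hcard => ?_⟩
      obtain ⟨p, q, hpq, hq, hp, ⟨i1, h1, h1'⟩, ⟨i2, h2, h2', h2''⟩, ⟨i3, h3, h3'⟩⟩ :=
        hN₀ f hf.1 hf.2 Mk hMk hcard
      have l1 : (f.take p).length = p := by rw [List.length_take]; omega
      have l2 : (Pool.Agent.H643R2.PD.mid f p q).length = q - p := by
        unfold Pool.Agent.H643R2.PD.mid
        rw [List.length_drop, List.length_take]; omega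
      refine ⟨f.take p, Pool.Agent.H643R2.PD.mid f p q, f.drop q,
        Pool.Agent.H643R2.PD.split3 f hpq, fun k => hp k, ⟨i1, h1, by omega⟩,
        ⟨i2, h2, by omega, by omega⟩, ⟨i3, h3, by omega⟩⟩
  · refine ⟨fun a => [a], ⊤, ?_, ?_⟩
    · refine ⟨Unit, inferInstance, ⟨fun _ _ => (), (), Set.univ⟩, ?_⟩
      ext w
      exact ⟨fun _ => trivial, fun _ => trivial⟩
    · refine Set.ext fun w => ?_
      show w ∈ Pool.Agent.H643R2.PD.L ↔
        (w.flatMap (fun a => [a]) ∈ Pool.Agent.H643R2.PD.L ∧ w ∈ (⊤ : Language (Fin 2)))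
      rw [show w.flatMap (fun a => [a]) = w by simp]
      exact ⟨fun h => ⟨h, trivial⟩, fun h => h.1⟩

end Pool.Agent.S10082
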