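import Pool.Statements.S10104
-- import your own Pool.Agent.* helpers here

set_option autoImplicit false
open Pool Pool.MP_5708a2_lc

namespace Pool.Agent.S10104

/-- The negation of the preceding statement: For every countable family of subsets of the real plane there is a finite family of plane sets such that every class containing it and closed under complement, union, projections onto the axes and products of axis sets contains the whole countable family. -/
theorem result :
    ¬ (∀ F : Set (Set (ℝ × ℝ)), F.Countable →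
      ∃ G : Set (Set (ℝ × ℝ)), G.Finite ∧
        ∀ S ∈ F, ∀ C : Set (Set (ℝ × ℝ)),
          (∀ T ∈ C, Tᶜ ∈ C) →
          (∀ T ∈ C, ∀ U ∈ C, T ∪ U ∈ C) →
          (∀ T ∈ C, {p : ℝ × ℝ | p.2 = 0 ∧ ∃ y : ℝ, (p.1, y) ∈ T} ∈ C) →
          (∀ T ∈ C, {p : ℝ × ℝ | p.1 = 0 ∧ ∃ x : ℝ, (x, p.2) ∈ T} ∈ C) →
          (∀ A ∈ C, ∀ B ∈ C, A ⊆ {p : ℝ × ℝ | p.2 = 0} → B ⊆ {p : ℝ × ℝ | p.1 = 0} →
            {p : ℝ × ℝ | ((p.1, (0:ℝ)) ∈ A) ∧ (((0:ℝ), p.2) ∈ B)} ∈ C) →
          G ⊆ C → S ∈ C) := by
  classical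
  intro H
  -- a surjection from the reals onto sequences of sequences of bits
  obtain ⟨e, he⟩ : ∃ e : ℝ → (ℕ → ℕ → Bool), Function.Surjective e := by
    have h1 : Cardinal.mk (ℕ → ℕ → Bool) = Cardinal.mk ℝ := by
      rw [Cardinal.mk_real]
      simp [Cardinal.mk_pi, Cardinal.prod_const]
    obtain ⟨f⟩ := Cardinal.eq.1 h1
    exact ⟨f.symm, f.symm.surjective⟩
  -- the countable family
  let S : ℕ → Set (ℝ × ℝ) := fun i => {p | ∃ n : ℕ, p.1 = (n : ℝ) ∧ e p.2 i n = true}
  obtain ⟨G, hG, hGS⟩ := H (Set.range S) (Set.countable_range S)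
  -- the big algebra: Boolean combinations of members of G and rectangles
  let C : Set (Set (ℝ × ℝ)) := {T | ∃ (κ : Type) (_ : Finite κ) (α β : ℝ → κ),
    ∀ p q : ℝ × ℝ, α p.1 = α q.1 → β p.2 = β q.2 → (∀ g ∈ G, (p ∈ g ↔ q ∈ g)) →
      (p ∈ T ↔ q ∈ T)}
  have hC : ∀ i, S i ∈ C := by
    intro i
    apply hGS (S i) ⟨i, rfl⟩ C
    · rintro T ⟨κ, hκ, α, β, h⟩
      refine ⟨κ, hκ, α, β, ?_⟩
      intro p q h1 h2 h3
      simp only [Set.mem_compl_iff]
      rw [h p q h1 h2 h3]
    · rintro T ⟨κ, hκ, α, β, h⟩ U ⟨κ', hκ', α', β', h'⟩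
      refine ⟨κ × κ', inferInstance, fun x => (α x, α' x), fun x => (β x, β' x), ?_⟩
      intro p q h1 h2 h3
      simp only [Prod.mk.injEq] at h1 h2
      simp only [Set.mem_union]
      rw [h p q h1.1 h2.1 h3, h' p q h1.2 h2.2 h3]
    · rintro T -
      refine ⟨Prop, inferInstance, fun x => ∃ y : ℝ, (x, y) ∈ T, fun y => y = 0, ?_⟩
      intro p q h1 h2 _
      simp only [Set.mem_ofPred_eq]
      simp only [eq_iff_iff] at h1 h2
      rw [h1, h2]
    · rintro T -
      refine ⟨Prop, inferInstance, fun x => x = 0, fun y => ∃ x : ℝ, (x, y) ∈ T, ?_⟩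
      intro p q h1 h2 _
      simp only [Set.mem_ofPred_eq]
      simp only [eq_iff_iff] at h1 h2
      rw [h1, h2]
    · rintro A - B - - -
      refine ⟨Prop, inferInstance, fun x => (x, (0:ℝ)) ∈ A, fun y => ((0:ℝ), y) ∈ B, ?_⟩
      intro p q h1 h2 _
      simp only [Set.mem_ofPred_eq]
      simp only [eq_iff_iff] at h1 h2
      rw [h1, h2]
    · intro g hg
      exact ⟨Unit, inferInstance, fun _ => (), fun _ => (), fun p q _ _ h3 => h3 g hg⟩
  choose κ hκ α β hαβ using hC
  haveI : Finite G := hG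
  haveI : Fintype G := Fintype.ofFinite G
  set k := Fintype.card G with hk
  haveI : ∀ i, Finite (κ i) := hκ
  -- an infinite set of natural numbers not separated by the left hand classes
  obtain ⟨c, hc⟩ : ∃ c : (i : Fin (k + 1)) → κ i,
      Infinite ((fun (n : ℕ) (i : Fin (k + 1)) => α i (n : ℝ)) ⁻¹' {c}) :=
    Finite.exists_infinite_fiber _
  set A : Set ℕ := (fun (n : ℕ) (i : Fin (k + 1)) => α i (n : ℝ)) ⁻¹' {c} with hA
  have hAinf : A.Infinite := Set.infinite_coe_iff.1 hc
  -- choose distinct elements of A, one for each pattern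
  obtain ⟨ι⟩ : Nonempty ((Fin (k + 1) → Bool) ↪ A) := by
    haveI : Infinite A := hc
    exact ⟨(Fintype.equivFin (Fin (k + 1) → Bool)).toEmbedding.trans
      (Fin.valEmbedding.trans (Infinite.natEmbedding A))⟩
  -- choose the right coordinate
  obtain ⟨y, hy⟩ := he (fun i n =>
    if h : i < k + 1 then decide (∃ s : Fin (k + 1) → Bool, ((ι s : A) : ℕ) = n ∧ s ⟨i, h⟩ = true)
    else false)
  have hval : ∀ (s : Fin (k + 1) → Bool) (i : Fin (k + 1)), e y i (ι s : A) = s i := by
    intro s i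
    rw [hy]
    simp only [i.2, dif_pos]
    by_cases hs : s i = true
    · rw [hs]
      simp only [decide_eq_true_eq]
      exact ⟨s, rfl, hs⟩
    · have : s i = false := by simpa using hs
      rw [this]
      simp only [decide_eq_false_iff_not]
      rintro ⟨s', h1, h2⟩
      have h3 : s' = s := by
        apply ι.injective
        exact Subtype.ext h1
      rw [h3] at h2
      exact hs h2
  -- the pattern of G-membership determines s
  have hinj : Function.Injective
      (fun (s : Fin (k + 1) → Bool) (g : G) => decide (((((ι s : A) : ℕ) : ℝ), y) ∈ (g : Set (ℝ × ℝ)))) := by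
    intro s t hst
    funext i
    have h1 : ((((ι s : A) : ℕ) : ℝ), y) ∈ S i ↔ ((((ι t : A) : ℕ) : ℝ), y) ∈ S i := by
      apply hαβ i
      · have hs : (fun (n : ℕ) (i : Fin (k + 1)) => α i (n : ℝ)) ((ι s : A) : ℕ) = c := (ι s).2
        have ht : (fun (n : ℕ) (i : Fin (k + 1)) => α i (n : ℝ)) ((ι t : A) : ℕ) = c := (ι t).2
        have := congrFun (hs.trans ht.symm) i
        exact this
      · rfl
      · intro g hg
        have := congrFun hst ⟨g, hg⟩
        simpa using this
    have key : ∀ u : Fin (k + 1) → Bool,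
        ((((ι u : A) : ℕ) : ℝ), y) ∈ S i ↔ u i = true := by
      intro u
      constructor
      · rintro ⟨n, h2, h3⟩
        have h2' : (((ι u : A) : ℕ) : ℝ) = (n : ℝ) := h2
        have h4 : ((ι u : A) : ℕ) = n := by exact_mod_cast h2'
        rw [← hval u i, h4]
        exact h3
      · intro h
        refine ⟨((ι u : A) : ℕ), rfl, ?_⟩
        rw [← h]
        exact hval u i
    rw [key s, key t] at h1
    exact Bool.eq_iff_iff.2 h1
  have hcard := Fintype.card_le_of_injective _ hinj
  simp only [Fintype.card_pi, Fintype.card_bool, Finset.prod_const, Finset.card_univ,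
    Fintype.card_fin] at hcard
  have : 2 ^ (k + 1) ≤ 2 ^ k := hcard
  have h5 := (Nat.pow_le_pow_iff_right (by norm_num : 1 < 2)).1 this
  omega

end Pool.Agent.S10104
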