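import Pool.Statements.S10120
import Pool.Agent.H696R2.FR.Main

set_option autoImplicit false
open Pool Pool.MP_5ae901_lc

namespace Pool.Agent.S10120

/-- The negation of the preceding statement: Every formally real field that has a computable presentation on ℕ also has some computable presentation on ℕ in which some field ordering (given by its positive cone) is computable. -/
theorem result :
    ¬ (∀ (F : Type) [Field F],
      (∀ (n : ℕ) (c : Fin n → F), ∑ i, c i ^ 2 = 0 → ∀ i, c i = 0) →
      (∃ e : ℕ ≃ F,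
        Computable₂ (fun a b : ℕ => e.symm (e a + e b)) ∧
        Computable₂ (fun a b : ℕ => e.symm (e a * e b)) ∧
        Computable (fun a : ℕ => e.symm (-(e a))) ∧
        Computable (fun a : ℕ => e.symm ((e a)⁻¹))) →
      ∃ e : ℕ ≃ F,
        Computable₂ (fun a b : ℕ => e.symm (e a + e b)) ∧
        Computable₂ (fun a b : ℕ => e.symm (e a * e b)) ∧
        Computable (fun a : ℕ => e.symm (-(e a))) ∧
        Computable (fun a : ℕ => e.symm ((e a)⁻¹)) ∧
        ∃ P : Set F,
          ComputablePred (fun a : ℕ => e a ∈ P) ∧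
          (0 : F) ∉ P ∧
          (∀ x y : F, x ∈ P → y ∈ P → x + y ∈ P) ∧
          (∀ x y : F, x ∈ P → y ∈ P → x * y ∈ P) ∧
          (∀ x : F, x ≠ 0 → x ∈ P ∨ -x ∈ P)) := by
  intro h
  obtain ⟨F, hF, e0, c1, c2, c3, c4⟩ := Pool.Agent.H696R2.FR.exists_FF
  obtain ⟨e, a1, a2, a3, -, P, hP, h0, hadd, hmul, htot⟩ := h F (by
    intro n c hc i
    have h1 : ∑ i, ((c i : ℝ)) ^ 2 = 0 := by
      have := congrArg (Subtype.val (p := fun x => x ∈ F)) hc
      simpa using this
    have h2 := (Finset.sum_eq_zero_iff_of_nonneg (fun i _ => sq_nonneg ((c i : ℝ)))).1 h1 i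
      (Finset.mem_univ i)
    exact Subtype.ext (by simpa using h2)) ⟨e0, c1, c2, c3, c4⟩
  exact Pool.Agent.H696R2.FR.no_copy F hF e a1 a2 a3 P hP h0 hadd hmul htot

end Pool.Agent.S10120
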