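import Pool.Statements.S10139
import Pool.Agent.H597R2.Adm

set_option autoImplicit false
open Pool Pool.MP_5f3cbe_lc

namespace Pool.Agent.S10139

open Pool.Agent.H597R2

/-- the normalised holomorphic functions already form a subring -/
def holSub : Subring (ℂ → ℂ) where
  carrier := {g : ℂ → ℂ | DifferentiableOn ℂ g (Metric.ball (0:ℂ) 1) ∧
                ∀ z ∉ Metric.ball (0:ℂ) 1, g z = g 0}
  mul_mem' := by
    rintro a b ⟨ha, ha'⟩ ⟨hb, hb'⟩
    exact ⟨ha.mul hb, fun z hz => by simp [ha' z hz, hb' z hz]⟩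
  one_mem' := ⟨differentiableOn_const 1, fun z _ => rfl⟩
  add_mem' := by
    rintro a b ⟨ha, ha'⟩ ⟨hb, hb'⟩
    exact ⟨ha.add hb, fun z hz => by simp [ha' z hz, hb' z hz]⟩
  zero_mem' := ⟨differentiableOn_const 0, fun z _ => rfl⟩
  neg_mem' := by
    rintro a ⟨ha, ha'⟩
    exact ⟨ha.neg, fun z hz => by simp [ha' z hz]⟩

theorem closure_eq : Subring.closure {g : ℂ → ℂ | DifferentiableOn ℂ g (Metric.ball (0:ℂ) 1) ∧
                ∀ z ∉ Metric.ball (0:ℂ) 1, g z = g 0} = holSub :=
  Subring.closure_eq holSub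

theorem mem_prop (f : ↥(Subring.closure {g : ℂ → ℂ | DifferentiableOn ℂ g (Metric.ball (0:ℂ) 1) ∧
                ∀ z ∉ Metric.ball (0:ℂ) 1, g z = g 0})) :
    DifferentiableOn ℂ (f : ℂ → ℂ) (Metric.ball (0:ℂ) 1) ∧
      ∀ z ∉ Metric.ball (0:ℂ) 1, (f : ℂ → ℂ) z = (f : ℂ → ℂ) 0 := by
  have h : (f : ℂ → ℂ) ∈ holSub := closure_eq.le f.2
  exact h

open Classical in
/-- the model -/
noncomputable def model : HolModel
    ↥(Subring.closure {g : ℂ → ℂ | DifferentiableOn ℂ g (Metric.ball (0:ℂ) 1) ∧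
                ∀ z ∉ Metric.ball (0:ℂ) 1, g z = g 0}) where
  ev a := (a : ℂ → ℂ)
  diff a := (mem_prop a).1
  surj g hg := by
    refine ⟨⟨fun z => if z ∈ Metric.ball (0:ℂ) 1 then g z else g 0,
      Subring.subset_closure ⟨?_, ?_⟩⟩, ?_⟩
    · apply hg.congr
      intro z hz
      rw [if_pos hz]
    · intro z hz
      simp only
      rw [if_neg hz, if_pos (Metric.mem_ball_self one_pos)]
    · intro z hz
      simp only
      rw [if_pos hz]
  inj a b h := by
    apply Subtype.ext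
    funext z
    by_cases hz : z ∈ Metric.ball (0:ℂ) 1
    · exact h z hz
    · rw [(mem_prop a).2 z hz, (mem_prop b).2 z hz]
      exact h 0 (Metric.mem_ball_self one_pos)
  ev_add a b z _ := rfl
  ev_mul a b z _ := rfl
  ev_one z _ := rfl

/-- There is a parameter-free first-order ring formula that, in the ring of holomorphic functions on the unit disc, holds of f exactly when its Nevanlinna characteristic T(r,f) is not O(log 1/(1-r)) as r tends to 1 from below. -/
theorem result :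
    ∃ φ : FirstOrder.Language.ring.Formula (Fin 1),
      ∀ f : ↥(Subring.closure {g : ℂ → ℂ | DifferentiableOn ℂ g (Metric.ball (0:ℂ) 1) ∧
                ∀ z ∉ Metric.ball (0:ℂ) 1, g z = g 0}),
        (@FirstOrder.Language.Formula.Realize FirstOrder.Language.ring
            ↥(Subring.closure {g : ℂ → ℂ | DifferentiableOn ℂ g (Metric.ball (0:ℂ) 1) ∧
                ∀ z ∉ Metric.ball (0:ℂ) 1, g z = g 0})
            (FirstOrder.Ring.compatibleRingOfRing
              ↥(Subring.closure {g : ℂ → ℂ | DifferentiableOn ℂ g (Metric.ball (0:ℂ) 1) ∧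
                ∀ z ∉ Metric.ball (0:ℂ) 1, g z = g 0})).toStructure
            (Fin 1) φ (fun _ => f)) ↔
        ¬ Asymptotics.IsBigO (nhdsWithin (1:ℝ) (Set.Iio 1))
            (fun r : ℝ => (2 * Real.pi)⁻¹ *
              ∫ θ in (0:ℝ)..(2 * Real.pi),
                Real.posLog ‖(f : ℂ → ℂ) ((r : ℂ) * Complex.exp ((θ : ℂ) * Complex.I))‖)
            (fun r : ℝ => Real.log (1 - r)⁻¹) := by
  let i0 : FirstOrder.Ring.CompatibleRing
      ↥(Subring.closure {g : ℂ → ℂ | DifferentiableOn ℂ g (Metric.ball (0:ℂ) 1) ∧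
                ∀ z ∉ Metric.ball (0:ℂ) 1, g z = g 0}) :=
    FirstOrder.Ring.compatibleRingOfRing _
  obtain ⟨φ, hφ⟩ := D1.formula (P := fun f : ↥(Subring.closure {g : ℂ → ℂ |
    DifferentiableOn ℂ g (Metric.ball (0:ℂ) 1) ∧
                ∀ z ∉ Metric.ball (0:ℂ) 1, g z = g 0}) => ¬ NA f)
    (fun ht => (D1.NA ht).not)
  refine ⟨φ, fun f => (hφ f).trans ?_⟩
  rw [model.na_iff f]
  apply not_congr
  apply Asymptotics.isBigO_congr
  · filter_upwards with r
    exact (TT_eq _ _).symm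
  · rfl

end Pool.Agent.S10139
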