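import Pool.Statements.S10250
import Pool.Agent.H539R2.Diag

set_option autoImplicit false
open Pool Pool.MP_76e736_lc

namespace Pool.Agent.S10250

/-- The negation of the preceding statement: For every finite alphabet, a language is accepted by some bounded one-dimensional cellular automaton (leftmost cell eventually accepting) if and only if it is accepted by some such automaton within time C·(n+1). -/
theorem result :
    ¬ (∀ (m : ℕ) (L : Set (List (Fin m))),
    (∃ (k : ℕ) (inp : Fin m → Fin k) (b : Fin k) (δ : Fin k → Fin k → Fin k → Fin k)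
        (F : Finset (Fin k)),
      ∀ w : List (Fin m), w ∈ L ↔ ∃ t : ℕ,
        (Nat.iterate
          (fun (c : ℕ → Fin k) (i : ℕ) =>
            if 1 ≤ i ∧ i ≤ w.length then δ (c (i - 1)) (c i) (c (i + 1)) else b) t
          (fun (i : ℕ) => if 1 ≤ i ∧ i ≤ w.length then (w.map inp).getD (i - 1) b else b)) 1 ∈ F)
    ↔
    (∃ (k : ℕ) (inp : Fin m → Fin k) (b : Fin k) (δ : Fin k → Fin k → Fin k → Fin k)
        (F : Finset (Fin k)) (C : ℕ),
      ∀ w : List (Fin m), w ∈ L ↔ ∃ t : ℕ, t ≤ C * (w.length + 1) ∧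
        (Nat.iterate
          (fun (c : ℕ → Fin k) (i : ℕ) =>
            if 1 ≤ i ∧ i ≤ w.length then δ (c (i - 1)) (c i) (c (i + 1)) else b) t
          (fun (i : ℕ) => if 1 ≤ i ∧ i ≤ w.length then (w.map inp).getD (i - 1) b else b)) 1 ∈ F)) := by
  intro h
  obtain ⟨k, inp, b, δ, A, hA⟩ := H539R2.ls_lca H539R2.LS.U
  obtain ⟨k', inp', b', δ', F, C, hlin⟩ := (h 1 H539R2.DL).1 ⟨k, inp, b, δ, A, hA⟩
  refine H539R2.DL_not_lin inp' b' δ' F C ?_
  intro n
  rw [hlin (List.replicate n 0)]
  simp only [H539R2.conf, List.length_replicate]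

end Pool.Agent.S10250
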