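import Pool.Statements.S10297

set_option autoImplicit false
open Pool Pool.MP_8565d5_lc

namespace Pool.Agent.S10297

open Finset

/-- The allowed exponents: weight at most two, not of the form `2^i + 2^(i+1)` (cyclically). -/
def Good (t d : ℕ) : Prop :=
  d = 0 ∨ (∃ a, a < t ∧ d = 2 ^ a) ∨
    ∃ a b, a < b ∧ b < t ∧ b ≠ a + 1 ∧ ¬ (a = 0 ∧ b + 1 = t) ∧ d = 2 ^ a + 2 ^ b

theorem dsum_two_mul (n : ℕ) : (Nat.digits 2 (2 * n)).sum = (Nat.digits 2 n).sum := by
  rcases Nat.eq_zero_or_pos n with h | h
  · subst h; simp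
  · rw [Nat.digits_def' (by norm_num) (by omega)]
    simp

theorem dsum_two_mul_add_one (n : ℕ) :
    (Nat.digits 2 (2 * n + 1)).sum = 1 + (Nat.digits 2 n).sum := by
  rw [Nat.digits_def' (by norm_num) (by omega)]
  have h1 : (2 * n + 1) % 2 = 1 := by omega
  have h2 : (2 * n + 1) / 2 = n := by omega
  rw [h1, h2]; simp

theorem dsum_pow_mul (a n : ℕ) : (Nat.digits 2 (2 ^ a * n)).sum = (Nat.digits 2 n).sum := by
  induction a with
  | zero => simp
  | succ a ih => rw [pow_succ, mul_comm (2 ^ a) 2, mul_assoc, dsum_two_mul, ih]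

theorem dsum_pow (a : ℕ) : (Nat.digits 2 (2 ^ a)).sum = 1 := by
  have := dsum_pow_mul a 1
  rw [mul_one] at this
  rw [this]; simp

theorem dsum_pow_add_pow {a b : ℕ} (h : a < b) : (Nat.digits 2 (2 ^ a + 2 ^ b)).sum = 2 := by
  obtain ⟨c, rfl⟩ := Nat.exists_eq_add_of_lt h
  have : 2 ^ a + 2 ^ (a + c + 1) = 2 ^ a * (2 * 2 ^ c + 1) := by ring
  rw [this, dsum_pow_mul, dsum_two_mul_add_one, dsum_pow]

theorem Good.lt {t d : ℕ} (h : Good t d) : d < 2 ^ t := by
  rcases h with h | ⟨a, ha, rfl⟩ | ⟨a, b, hab, hb, _, _, rfl⟩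
  · subst h; positivity
  · exact Nat.pow_lt_pow_right (by norm_num) ha
  · have h1 : 2 ^ a < 2 ^ b := Nat.pow_lt_pow_right (by norm_num) hab
    have h2 : 2 ^ (b + 1) ≤ 2 ^ t := Nat.pow_le_pow_right (by norm_num) hb
    rw [pow_succ] at h2
    omega

theorem Good.dsum {t d : ℕ} (h : Good t d) : (Nat.digits 2 d).sum ≤ 2 := by
  rcases h with h | ⟨a, ha, rfl⟩ | ⟨a, b, hab, hb, _, _, rfl⟩
  · subst h; simp
  · rw [dsum_pow]; norm_num
  · rw [dsum_pow_add_pow hab]

theorem testBit_two {a b : ℕ} (hab : a < b) (i : ℕ) :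
    (2 ^ a + 2 ^ b).testBit i = (decide (a = i) || decide (b = i)) := by
  have : 2 ^ a + 2 ^ b = 2 ^ b ||| 2 ^ a := by
    rw [add_comm]
    have := Nat.two_pow_add_eq_or_of_lt (i := b) (b := 2 ^ a)
      (Nat.pow_lt_pow_right (by norm_num) hab) 1
    simpa using this
  rw [this, Nat.testBit_or, Nat.testBit_two_pow, Nat.testBit_two_pow, Bool.or_comm]

theorem not_good_three {t : ℕ} : ¬ Good t 3 := by
  have key : ∀ i, (3 : ℕ).testBit i = (decide (0 = i) || decide (1 = i)) := by
    intro i
    have := testBit_two (a := 0) (b := 1) (by norm_num) i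
    simpa using this
  rintro (h | ⟨a, ha, h⟩ | ⟨a, b, hab, hb, h1, h2, h⟩)
  · omega
  · have h0 := key 0
    have h1 := key 1
    rw [h, Nat.testBit_two_pow] at h0 h1
    simp at h0 h1
    omega
  · have h0 := key a
    have h1 := key b
    rw [h, testBit_two hab] at h0 h1
    simp at h0 h1
    omega

theorem Good.double {t d : ℕ} (ht : 3 ≤ t) (h : Good t d) (hd : d ≠ 0) :
    Good t ((2 * d - 1) % (2 ^ t - 1) + 1) := by
  have hpos : ∀ a : ℕ, 0 < 2 ^ a := fun a => by positivity
  rcases h with h | ⟨a, ha, rfl⟩ | ⟨a, b, hab, hb, h1, h2, rfl⟩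
  · exact absurd h hd
  · by_cases hat : a + 1 = t
    · have : 2 * 2 ^ a - 1 = 2 ^ t - 1 := by rw [← hat, pow_succ]; ring_nf
      rw [this, Nat.mod_self]
      exact Or.inr (Or.inl ⟨0, by omega, by norm_num⟩)
    · have hlt : 2 ^ (a + 1) < 2 ^ t := Nat.pow_lt_pow_right (by norm_num) (by omega)
      rw [pow_succ] at hlt
      rw [Nat.mod_eq_of_lt (by have := hpos a; omega)]
      refine Or.inr (Or.inl ⟨a + 1, by omega, ?_⟩)
      rw [pow_succ]; have := hpos a; omega
  · by_cases hbt : b + 1 = t
    · have hlt : 2 ^ (a + 1) < 2 ^ t := Nat.pow_lt_pow_right (by norm_num) (by omega)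
      have hlt' : 2 ^ (a + 1) ≤ 2 ^ b := Nat.pow_le_pow_right (by norm_num) (by omega)
      have e1 : 2 * (2 ^ a + 2 ^ b) - 1 = 2 ^ (a + 1) + (2 ^ t - 1) := by
        rw [← hbt, pow_succ, pow_succ]; have := hpos b; omega
      have hlt3 : 2 ^ (a + 1) < 2 ^ t - 1 := by
        have : 2 ^ t = 2 ^ b * 2 := by rw [← hbt, pow_succ]
        have h4 : 2 ^ 2 ≤ 2 ^ b := Nat.pow_le_pow_right (by norm_num) (by omega)
        omega
      rw [e1, Nat.add_mod_right, Nat.mod_eq_of_lt hlt3]
      refine Or.inr (Or.inr ⟨0, a + 1, by omega, by omega, by omega, by omega, ?_⟩)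
      rw [pow_zero]; omega
    · have hlt : 2 ^ (a + 1) < 2 ^ (b + 1) := Nat.pow_lt_pow_right (by norm_num) (by omega)
      have hlt' : 2 ^ (b + 2) ≤ 2 ^ t := Nat.pow_le_pow_right (by norm_num) (by omega)
      have e2 : 2 ^ (b + 2) = 2 ^ (b + 1) * 2 := by rw [pow_succ]
      have e3 : 2 * (2 ^ a + 2 ^ b) = 2 ^ (a + 1) + 2 ^ (b + 1) := by rw [pow_succ, pow_succ]; ring
      rw [e3, Nat.mod_eq_of_lt (by omega)]
      refine Or.inr (Or.inr ⟨a + 1, b + 1, by omega, by omega, by omega, by omega, ?_⟩)
      have := hpos (a + 1)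
      omega

theorem Good.shadow {t d e : ℕ} (h : Good t d)
    (he : ∀ i : ℕ, e.testBit i = true → d.testBit i = true) : Good t e := by
  rcases h with h | ⟨a, ha, rfl⟩ | ⟨a, b, hab, hb, h1, h2, rfl⟩
  · left
    subst h
    apply Nat.eq_of_testBit_eq
    intro i
    by_contra hne
    have : e.testBit i = true := by
      rcases h3 : e.testBit i with _ | _
      · simp [h3] at hne
      · rfl
    have := he i this
    simp at this
  · by_cases hea : e.testBit a = true
    · right; left
      refine ⟨a, ha, Nat.eq_of_testBit_eq fun i => ?_⟩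
      rw [Nat.testBit_two_pow]
      by_cases hai : a = i
      · subst hai; simp [hea]
      · simp only [hai, decide_false]
        by_contra hne
        have h3 : e.testBit i = true := by simpa using hne
        have := he i h3
        rw [Nat.testBit_two_pow] at this
        simp [hai] at this
    · left
      apply Nat.eq_of_testBit_eq
      intro i
      rw [Nat.zero_testBit]
      by_contra hne
      have h3 : e.testBit i = true := by simpa using hne
      have := he i h3
      rw [Nat.testBit_two_pow] at this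
      simp at this
      subst this
      exact hea h3
  · have key : ∀ i, e.testBit i = true → i = a ∨ i = b := by
      intro i hi
      have := he i hi
      rw [testBit_two hab] at this
      simp at this
      omega
    have hsupp : ∀ i, i ≠ a → i ≠ b → e.testBit i = false := by
      intro i h1 h2
      by_contra hne
      have h3 : e.testBit i = true := by simpa using hne
      rcases key i h3 with h | h
      · exact h1 h
      · exact h2 h
    rcases hea : e.testBit a with _ | _
    · rcases heb : e.testBit b with _ | _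
      · left
        apply Nat.eq_of_testBit_eq
        intro i
        rw [Nat.zero_testBit]
        by_cases hia : i = a
        · rw [hia, hea]
        · by_cases hib : i = b
          · rw [hib, heb]
          · exact hsupp i hia hib
      · right; left
        refine ⟨b, hb, Nat.eq_of_testBit_eq fun i => ?_⟩
        rw [Nat.testBit_two_pow]
        by_cases hib : b = i
        · subst hib; simp [heb]
        · by_cases hia : i = a
          · rw [hia, hea]; simp; omega
          · rw [hsupp i hia (fun h => hib h.symm)]; simp [hib]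
    · rcases heb : e.testBit b with _ | _
      · right; left
        refine ⟨a, by omega, Nat.eq_of_testBit_eq fun i => ?_⟩
        rw [Nat.testBit_two_pow]
        by_cases hia : a = i
        · subst hia; simp [hea]
        · by_cases hib : i = b
          · rw [hib, heb]; simp; omega
          · rw [hsupp i (fun h => hia h.symm) hib]; simp [hia]
      · right; right
        refine ⟨a, b, hab, hb, h1, h2, Nat.eq_of_testBit_eq fun i => ?_⟩
        rw [testBit_two hab]
        by_cases hia : a = i
        · subst hia; simp [hea]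
        · by_cases hib : b = i
          · subst hib; simp [heb]
          · rw [hsupp i (fun h => hia h.symm) (fun h => hib h.symm)]; simp [hia, hib]


section field

variable {t : ℕ}

/-- Functions given by polynomials with exponents in `D`. -/
def InV (D : Finset ℕ) (g : GaloisField 2 t → GaloisField 2 t) : Prop :=
  ∃ c : ℕ → GaloisField 2 t, ∀ x : GaloisField 2 t, g x = ∑ d ∈ D, c d * x ^ d

theorem InV.add {D : Finset ℕ} {g h : GaloisField 2 t → GaloisField 2 t} (hg : InV D g)
    (hh : InV D h) : InV D (fun x => g x + h x) := by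
  obtain ⟨c, hc⟩ := hg
  obtain ⟨e, he⟩ := hh
  refine ⟨fun d => c d + e d, fun x => ?_⟩
  simp only [hc, he, ← Finset.sum_add_distrib, add_mul]

theorem InV.smul {D : Finset ℕ} {g : GaloisField 2 t → GaloisField 2 t} (hg : InV D g)
    (a : GaloisField 2 t) : InV D (fun x => a * g x) := by
  obtain ⟨c, hc⟩ := hg
  refine ⟨fun d => a * c d, fun x => ?_⟩
  simp only [hc, Finset.mul_sum, mul_assoc]

theorem InV.zero {D : Finset ℕ} : InV D (fun _ : GaloisField 2 t => (0 : GaloisField 2 t)) :=
  ⟨fun _ => 0, fun x => by simp⟩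

theorem InV.sum {D : Finset ℕ} {ι : Type*} (s : Finset ι)
    (g : ι → GaloisField 2 t → GaloisField 2 t) (hg : ∀ i ∈ s, InV D (g i)) :
    InV D (fun x => ∑ i ∈ s, g i x) := by
  classical
  induction s using Finset.induction_on with
  | empty => simpa using InV.zero
  | insert a s has ih =>
    have h1 := (hg a (Finset.mem_insert_self _ _)).add
      (ih (fun i hi => hg i (Finset.mem_insert_of_mem hi)))
    simpa [Finset.sum_insert has] using h1

theorem InV.mono {D : Finset ℕ} {d : ℕ} (hd : d ∈ D) (a : GaloisField 2 t) :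
    InV D (fun x => a * x ^ d) := by
  classical
  refine ⟨fun e => if e = d then a else 0, fun x => ?_⟩
  rw [Finset.sum_eq_single d]
  · simp
  · intro b _ hb; simp [hb]
  · intro h; exact absurd hd h

theorem trace_eq (ht : t ≠ 0) (x : GaloisField 2 t) :
    algebraMap (ZMod 2) (GaloisField 2 t) (Algebra.trace (ZMod 2) (GaloisField 2 t) x) =
      ∑ i ∈ range t, x ^ 2 ^ i := by
  rw [FiniteField.algebraMap_trace_eq_sum_pow, GaloisField.finrank 2 ht]
  simp

theorem pow_q (ht : t ≠ 0) (x : GaloisField 2 t) : x ^ 2 ^ t = x := by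
  have h : Nat.card (GaloisField 2 t) = 2 ^ t := GaloisField.card 2 t ht
  haveI : Fintype (GaloisField 2 t) := Fintype.ofFinite _
  rw [Nat.card_eq_fintype_card] at h
  rw [← h]
  exact FiniteField.pow_card x

/-- Linear functions lie in the span of the good monomials. -/
theorem InV.linear {D : Finset ℕ} (hD : ∀ d, Good t d → d ∈ D) (ht : t ≠ 0)
    (β : GaloisField 2 t) :
    InV D (fun x => algebraMap (ZMod 2) (GaloisField 2 t)
      (Algebra.trace (ZMod 2) (GaloisField 2 t) (β * x))) := by
  have h1 : InV D (fun x => ∑ i ∈ range t, β ^ 2 ^ i * x ^ 2 ^ i) := by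
    apply InV.sum
    intro i hi
    exact InV.mono (hD _ (Or.inr (Or.inl ⟨i, Finset.mem_range.1 hi, rfl⟩))) _
  simpa only [trace_eq ht, mul_pow] using h1

theorem pow_shift (ht : t ≠ 0) (x : GaloisField 2 t) (i : ℕ) : x ^ 2 ^ i = x ^ 2 ^ (i % t) := by
  have h : ∀ q : ℕ, x ^ 2 ^ (t * q) = x := by
    intro q
    induction q with
    | zero => simp
    | succ q ih => rw [Nat.mul_succ, pow_add, pow_mul, ih, pow_q ht]
  conv_lhs => rw [← Nat.div_add_mod i t, pow_add, pow_mul, h]

/-- The quadratic functions `Tr(β x^(1+2^j))`, `2 ≤ j ≤ t - 2`, lie in the span. -/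
theorem InV.quad {D : Finset ℕ} (hD : ∀ d, Good t d → d ∈ D) {j : ℕ} (hj : 2 ≤ j)
    (hjt : j + 2 ≤ t) (β : GaloisField 2 t) :
    InV D (fun x => algebraMap (ZMod 2) (GaloisField 2 t)
      (Algebra.trace (ZMod 2) (GaloisField 2 t) (β * x ^ (1 + 2 ^ j)))) := by
  have ht : t ≠ 0 := by omega
  have h1 : InV D (fun x => ∑ i ∈ range t, β ^ 2 ^ i * x ^ (2 ^ i + 2 ^ ((i + j) % t))) := by
    apply InV.sum
    intro i hi
    have hi' := Finset.mem_range.1 hi
    apply InV.mono
    apply hD
    right; right
    by_cases hij : i + j < t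
    · rw [Nat.mod_eq_of_lt hij]
      exact ⟨i, i + j, by omega, by omega, by omega, by omega, rfl⟩
    · have : (i + j) % t = i + j - t := by
        rw [Nat.mod_eq_sub_mod (by omega), Nat.mod_eq_of_lt (by omega)]
      rw [this]
      exact ⟨i + j - t, i, by omega, by omega, by omega, by omega, by rw [add_comm]⟩
  have h2 : ∀ (i : ℕ) (x : GaloisField 2 t),
      (x ^ (1 + 2 ^ j)) ^ 2 ^ i = x ^ (2 ^ i + 2 ^ ((i + j) % t)) := by
    intro i x
    rw [pow_add x (2 ^ i) (2 ^ ((i + j) % t)), ← pow_shift ht x (i + j), ← pow_mul, ← pow_add]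
    congr 1
    rw [pow_add]; ring
  simpa only [trace_eq ht, mul_pow, h2] using h1

theorem InV.const {D : Finset ℕ} (hD : ∀ d, Good t d → d ∈ D) (β : GaloisField 2 t) :
    InV D (fun _ => β) := by
  have := InV.mono (hD 0 (Or.inl rfl)) β
  simpa using this

/-- `Tr(x^3)` is not in the span of the good monomials. -/
theorem not_inV {D : Finset ℕ} (hD : ∀ d, d ∈ D ↔ Good t d) (ht : 3 ≤ t) :
    ¬ InV D (fun x => algebraMap (ZMod 2) (GaloisField 2 t)
      (Algebra.trace (ZMod 2) (GaloisField 2 t) (x ^ 3))) := by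
  classical
  rintro ⟨c, hc⟩
  have ht0 : t ≠ 0 := by omega
  haveI : Fintype (GaloisField 2 t) := Fintype.ofFinite _
  have hcard : Fintype.card (GaloisField 2 t) = 2 ^ t := by
    rw [← Nat.card_eq_fintype_card, GaloisField.card 2 t ht0]
  let A : Polynomial (GaloisField 2 t) :=
    ∑ i ∈ range t, Polynomial.X ^ (2 ^ i + 2 ^ ((i + 1) % t))
  let B : Polynomial (GaloisField 2 t) := ∑ d ∈ D, Polynomial.C (c d) * Polynomial.X ^ d
  have hbound : ∀ i < t, 2 ^ i + 2 ^ ((i + 1) % t) < 2 ^ t := by
    intro i hi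
    have h4 : 2 ^ (t - 1 + 1) = 2 ^ (t - 1) * 2 := pow_succ _ _
    rw [Nat.sub_add_cancel (by omega)] at h4
    by_cases hit : i + 1 < t
    · rw [Nat.mod_eq_of_lt hit]
      have h2 : 2 ^ i < 2 ^ (i + 1) := Nat.pow_lt_pow_right (by norm_num) (by omega)
      have h3 : 2 ^ (i + 1) ≤ 2 ^ (t - 1) := Nat.pow_le_pow_right (by norm_num) (by omega)
      omega
    · have : i + 1 = t := by omega
      rw [this, Nat.mod_self]
      have h3 : 2 ^ i ≤ 2 ^ (t - 1) := Nat.pow_le_pow_right (by norm_num) (by omega)
      have h5 : 2 ^ 1 ≤ 2 ^ (t - 1) := Nat.pow_le_pow_right (by norm_num) (by omega)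
      have h6 : 2 ^ 2 ≤ 2 ^ (t - 1) := Nat.pow_le_pow_right (by norm_num) (by omega)
      omega
  have hAB : A - B = 0 := by
    apply Polynomial.eq_zero_of_natDegree_lt_card_of_eval_eq_zero (A - B)
      (f := (id : GaloisField 2 t → GaloisField 2 t)) Function.injective_id
    · intro x
      have h := hc x
      simp only [trace_eq ht0] at h
      simp only [id, A, B, Polynomial.eval_sub, Polynomial.eval_finsetSum, Polynomial.eval_mul,
        Polynomial.eval_C, Polynomial.eval_pow, Polynomial.eval_X]
      rw [← h, sub_eq_zero]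
      apply Finset.sum_congr rfl
      intro i hi
      rw [pow_add, ← pow_shift ht0 x (i + 1), ← pow_mul, ← pow_add]
      congr 1
      rw [pow_succ]; ring
    · rw [hcard]
      apply lt_of_le_of_lt (Polynomial.natDegree_sub_le _ _)
      have hpos : 0 < 2 ^ t := by positivity
      rw [max_lt_iff]
      constructor
      · apply lt_of_le_of_lt (Polynomial.natDegree_sum_le_of_forall_le (n := 2 ^ t - 1) _ _ ?_)
          (by omega)
        intro i hi
        have := hbound i (Finset.mem_range.1 hi)
        simp only [Polynomial.natDegree_X_pow]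
        omega
      · apply lt_of_le_of_lt (Polynomial.natDegree_sum_le_of_forall_le (n := 2 ^ t - 1) _ _ ?_)
          (by omega)
        intro d hd
        have := ((hD d).1 hd).lt
        exact (Polynomial.natDegree_C_mul_X_pow_le _ _).trans (by omega)
  have h3 : (A - B).coeff 3 = 1 := by
    have hA : A.coeff 3 = 1 := by
      simp only [A, Polynomial.finsetSum_coeff, Polynomial.coeff_X_pow]
      rw [Finset.sum_eq_single 0]
      · rw [Nat.mod_eq_of_lt (by omega : 0 + 1 < t)]; simp
      · intro i hi hi0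
        have hi' := Finset.mem_range.1 hi
        rw [if_neg]
        intro h
        have h5 : 2 ^ 1 ≤ 2 ^ i := Nat.pow_le_pow_right (by norm_num) (by omega)
        by_cases hit : i + 1 < t
        · rw [Nat.mod_eq_of_lt hit] at h
          have h6 : 2 ^ 1 ≤ 2 ^ (i + 1) := Nat.pow_le_pow_right (by norm_num) (by omega)
          omega
        · have h7 : i + 1 = t := by omega
          rw [h7, Nat.mod_self] at h
          have h6 : 2 ^ 2 ≤ 2 ^ i := Nat.pow_le_pow_right (by norm_num) (by omega)
          omega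
      · intro h
        exact absurd (Finset.mem_range.2 (by omega)) h
    have hB : B.coeff 3 = 0 := by
      simp only [B, Polynomial.finsetSum_coeff, Polynomial.coeff_C_mul, Polynomial.coeff_X_pow]
      apply Finset.sum_eq_zero
      intro d hd
      rw [if_neg, mul_zero]
      intro h
      rw [← h] at hd
      exact not_good_three ((hD 3).1 hd)
    rw [Polynomial.coeff_sub, hA, hB, sub_zero]
  rw [hAB, Polynomial.coeff_zero] at h3
  exact zero_ne_one h3


/-- The property with degree set `D`, as a subspace. -/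
def prop (D : Finset ℕ) : Submodule (ZMod 2) (GaloisField 2 t → ZMod 2) where
  carrier := {f | InV D (fun x => algebraMap (ZMod 2) (GaloisField 2 t) (f x))}
  add_mem' := by
    intro f g hf hg
    have := InV.add hf hg
    simpa [InV] using this
  zero_mem' := by
    have := InV.zero (t := t) (D := D)
    simpa [InV] using this
  smul_mem' := by
    intro a f hf
    have := InV.smul hf (algebraMap (ZMod 2) (GaloisField 2 t) a)
    simpa [InV] using this

theorem mem_prop {D : Finset ℕ} {f : GaloisField 2 t → ZMod 2} :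
    f ∈ prop D ↔ InV D (fun x => algebraMap (ZMod 2) (GaloisField 2 t) (f x)) := Iff.rfl

/-- evaluation at points -/
def ev {k : ℕ} (α : Fin k → GaloisField 2 t) :
    (GaloisField 2 t → ZMod 2) →ₗ[ZMod 2] (Fin k → ZMod 2) where
  toFun f := fun i => f (α i)
  map_add' f g := rfl
  map_smul' a f := rfl

theorem eq_zero_of_trace {c : GaloisField 2 t}
    (h : ∀ β : GaloisField 2 t, Algebra.trace (ZMod 2) (GaloisField 2 t) (β * c) = 0) : c = 0 := by
  have hn := (traceForm_nondegenerate (ZMod 2) (GaloisField 2 t)).1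
  apply hn c
  intro β
  rw [Algebra.traceForm_apply, mul_comm]
  exact h β

theorem core {D : Finset ℕ} (hD : ∀ d, Good t d → d ∈ D) {k : ℕ} (ht : k + 3 ≤ t)
    (α : Fin k → GaloisField 2 t) :
    ∃ f ∈ prop D, ∀ i, f (α i) = Algebra.trace (ZMod 2) (GaloisField 2 t) ((α i) ^ 3) := by
  classical
  have ht0 : t ≠ 0 := by omega
  by_contra hcon
  let v : Fin k → ZMod 2 := fun i => Algebra.trace (ZMod 2) (GaloisField 2 t) ((α i) ^ 3)
  have hv : v ∉ (prop D).map (ev α) := by
    rintro ⟨f, hf, hfv⟩
    exact hcon ⟨f, hf, fun i => congrFun hfv i⟩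
  obtain ⟨φ, hφv, hφ⟩ := Submodule.exists_le_ker_of_notMem hv
  let l : Fin k → ZMod 2 := fun i => φ (fun j => if i = j then 1 else 0)
  have hl : ∀ w : Fin k → ZMod 2, φ w = ∑ i, w i * l i := by
    intro w
    rw [LinearMap.pi_apply_eq_sum_univ φ w]
    rfl
  have hkill : ∀ f ∈ prop D, ∑ i, f (α i) * l i = 0 := by
    intro f hf
    have : ev α f ∈ LinearMap.ker φ := hφ ⟨f, hf, rfl⟩
    rw [LinearMap.mem_ker, hl] at this
    exact this
  -- scalars in the big field
  let L : Fin k → GaloisField 2 t := fun i => algebraMap (ZMod 2) (GaloisField 2 t) (l i)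
  have hLsq : ∀ i (n : ℕ), (L i) ^ 2 ^ n = L i := by
    intro i n
    have h2 : ∀ z : ZMod 2, z ^ 2 = z := by decide
    induction n with
    | zero => simp
    | succ n ih =>
      rw [pow_succ, pow_mul, ih]
      simp only [L, ← map_pow, h2]
  have htr : ∀ (β : GaloisField 2 t) (g : Fin k → GaloisField 2 t),
      ∑ i, Algebra.trace (ZMod 2) (GaloisField 2 t) (β * g i) * l i =
        Algebra.trace (ZMod 2) (GaloisField 2 t) (β * ∑ i, L i * g i) := by
    intro β g
    rw [Finset.mul_sum, map_sum]
    apply Finset.sum_congr rfl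
    intro i _
    have : β * (L i * g i) = l i • (β * g i) := by
      rw [Algebra.smul_def]; simp only [L]; ring
    rw [this, map_smul, smul_eq_mul, mul_comm]
  have hlin : ∑ i, L i * α i = 0 := by
    apply eq_zero_of_trace
    intro β
    rw [← htr]
    exact hkill (fun x => Algebra.trace (ZMod 2) (GaloisField 2 t) (β * x))
      (InV.linear hD ht0 β)
  have hquad : ∀ j, 2 ≤ j → j + 2 ≤ t → ∑ i, L i * α i ^ (1 + 2 ^ j) = 0 := by
    intro j h1 h2
    apply eq_zero_of_trace
    intro β
    rw [← htr]
    exact hkill (fun x => Algebra.trace (ZMod 2) (GaloisField 2 t) (β * x ^ (1 + 2 ^ j)))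
      (InV.quad hD h1 h2 β)
  -- the coefficient `c`
  set c : GaloisField 2 t := ∑ i, L i * α i ^ 3 with hc
  have hc0 : c = 0 := by
    by_contra hcne
    -- the common kernel of the traces
    let T : GaloisField 2 t →ₗ[ZMod 2] (Fin k → ZMod 2) :=
      LinearMap.pi (fun i => (Algebra.trace (ZMod 2) (GaloisField 2 t)).comp
        (LinearMap.mulLeft (ZMod 2) (α i)))
    have hT : ∀ y, y ∈ LinearMap.ker T →
        ∀ i, Algebra.trace (ZMod 2) (GaloisField 2 t) (α i * y) = 0 := by
      intro y hy i
      rw [LinearMap.mem_ker] at hy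
      have := congrFun hy i
      simpa [T] using this
    have hroot : ∀ y ∈ LinearMap.ker T, c * y ^ 4 + y = 0 := by
      intro y hy
      have h0 : ∑ i, L i * α i * algebraMap (ZMod 2) (GaloisField 2 t)
          (Algebra.trace (ZMod 2) (GaloisField 2 t) (α i * y)) = 0 := by
        apply Finset.sum_eq_zero
        intro i _
        rw [hT y hy i, map_zero, mul_zero]
      have h1 : ∑ j ∈ range t, (∑ i, L i * α i ^ (1 + 2 ^ j)) * y ^ 2 ^ j = 0 := by
        rw [← h0]
        simp only [trace_eq ht0, mul_pow, Finset.mul_sum, Finset.sum_mul]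
        rw [Finset.sum_comm]
        apply Finset.sum_congr rfl
        intro i _
        apply Finset.sum_congr rfl
        intro j _
        rw [pow_add, pow_one]; ring
      have h2 : ∑ i, L i * α i ^ (1 + 2 ^ 0) = 0 := by
        have : (∑ i, L i * α i) ^ 2 = 0 := by rw [hlin]; norm_num
        rw [sum_pow_char] at this
        rw [← this]
        apply Finset.sum_congr rfl
        intro i _
        rw [mul_pow]
        have := hLsq i 1
        rw [pow_one] at this
        rw [this]; norm_num
      have h3 : (∑ i, L i * α i ^ (1 + 2 ^ (t - 1))) ^ 2 = c := by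
        rw [sum_pow_char, hc]
        apply Finset.sum_congr rfl
        intro i _
        rw [mul_pow]
        have h5 := hLsq i 1
        rw [pow_one] at h5
        rw [h5, ← pow_mul]
        congr 1
        have : (1 + 2 ^ (t - 1)) * 2 = 2 + 2 ^ t := by
          obtain ⟨s, rfl⟩ : ∃ s, t = s + 1 := ⟨t - 1, by omega⟩
          rw [Nat.add_sub_cancel, pow_succ]; ring
        rw [this, pow_add, pow_q ht0]; ring
      have h4 : ∑ j ∈ range t, (∑ i, L i * α i ^ (1 + 2 ^ j)) * y ^ 2 ^ j =
          c * y ^ 2 + (∑ i, L i * α i ^ (1 + 2 ^ (t - 1))) * y ^ 2 ^ (t - 1) := by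
        rw [← Finset.sum_subset (s₁ := {1, t - 1})]
        · rw [Finset.sum_pair (by omega)]
          congr 1
        · intro j hj
          rw [Finset.mem_insert, Finset.mem_singleton] at hj
          rw [Finset.mem_range]; omega
        · intro j hj hj'
          rw [Finset.mem_insert, Finset.mem_singleton, not_or] at hj'
          rw [Finset.mem_range] at hj
          rcases Nat.eq_zero_or_pos j with h | h
          · subst h; rw [h2, zero_mul]
          · rw [hquad j (by omega) (by omega), zero_mul]
      rw [h4] at h1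
      have h5 : (c * y ^ 2 + (∑ i, L i * α i ^ (1 + 2 ^ (t - 1))) * y ^ 2 ^ (t - 1)) ^ 2 = 0 := by
        rw [h1]; norm_num
      rw [add_pow_char, mul_pow, mul_pow, h3, ← pow_mul, ← pow_mul] at h5
      have h6 : 2 ^ (t - 1) * 2 = 2 ^ t := by
        rw [← pow_succ, Nat.sub_add_cancel (by omega)]
      rw [h6, pow_q ht0] at h5
      have h7 : c * (c * y ^ 4 + y) = 0 := by
        rw [← h5]; ring
      rcases mul_eq_zero.1 h7 with h | h
      · exact absurd h hcne
      · exact h
    -- counting
    have hcard1 : Nat.card (LinearMap.ker T) ≤ 4 := by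
      let p : Polynomial (GaloisField 2 t) := Polynomial.C c * Polynomial.X ^ 4 + Polynomial.X
      have hpdeg : p.natDegree ≤ 4 := by
        apply Polynomial.natDegree_add_le_of_degree_le
        · exact Polynomial.natDegree_C_mul_X_pow_le _ _
        · rw [Polynomial.natDegree_X]; norm_num
      have hp0 : p ≠ 0 := by
        intro h
        have : p.coeff 1 = 1 := by
          simp [p, Polynomial.coeff_X, Polynomial.coeff_X_pow]
        rw [h, Polynomial.coeff_zero] at this
        exact zero_ne_one this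
      have hsub : ((LinearMap.ker T : Submodule _ _) : Set (GaloisField 2 t)) ⊆
          (p.roots.toFinset : Set (GaloisField 2 t)) := by
        intro y hy
        rw [Finset.mem_coe, Multiset.mem_toFinset, Polynomial.mem_roots hp0]
        simp only [p, Polynomial.IsRoot, Polynomial.eval_add, Polynomial.eval_mul,
          Polynomial.eval_C, Polynomial.eval_pow, Polynomial.eval_X]
        exact hroot y hy
      calc Nat.card (LinearMap.ker T)
          = Set.ncard ((LinearMap.ker T : Submodule _ _) : Set (GaloisField 2 t)) := rfl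
        _ ≤ Set.ncard (p.roots.toFinset : Set (GaloisField 2 t)) :=
            Set.ncard_le_ncard hsub (Finset.finite_toSet _)
        _ = p.roots.toFinset.card := Set.ncard_coe_finset _
        _ ≤ Multiset.card p.roots := Multiset.toFinset_card_le _
        _ ≤ p.natDegree := Polynomial.card_roots' p
        _ ≤ 4 := hpdeg
    have hfin := LinearMap.finrank_range_add_finrank_ker T
    rw [GaloisField.finrank 2 ht0] at hfin
    have hrange : Module.finrank (ZMod 2) (LinearMap.range T) ≤ k := by
      have := Submodule.finrank_le (LinearMap.range T)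
      rwa [Module.finrank_fin_fun] at this
    have hker : 3 ≤ Module.finrank (ZMod 2) (LinearMap.ker T) := by omega
    have hcard2 : Nat.card (LinearMap.ker T) =
        2 ^ Module.finrank (ZMod 2) (LinearMap.ker T) := by
      rw [Module.natCard_eq_pow_finrank (K := ZMod 2)]
      simp
    have : 2 ^ 3 ≤ 2 ^ Module.finrank (ZMod 2) (LinearMap.ker T) :=
      Nat.pow_le_pow_right (by norm_num) hker
    omega
  apply hφv
  rw [hl]
  have h9 := htr 1 (fun i => α i ^ 3)
  simp only [one_mul] at h9
  rw [← hc, hc0, map_zero] at h9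
  exact h9

end field

theorem result :
    ∀ k : ℕ, ∃ t : ℕ, t.Prime ∧ ∃ D : Finset ℕ,
      (∀ d ∈ D, d < 2 ^ t ∧ (Nat.digits 2 d).sum ≤ 2) ∧
      (∃ d : ℕ, d < 2 ^ t ∧ (Nat.digits 2 d).sum ≤ 2 ∧ d ∉ D) ∧
      (∀ d ∈ D, d ≠ 0 → (2 * d - 1) % (2 ^ t - 1) + 1 ∈ D) ∧
      (∀ d ∈ D, ∀ e : ℕ, (∀ i : ℕ, e.testBit i = true → d.testBit i = true) → e ∈ D) ∧
      ¬ ∃ C : Set ((Fin k → GaloisField 2 t) × Set (Fin k → ZMod 2)),
          ∀ f : GaloisField 2 t → ZMod 2,
            ((∃ c : ℕ → GaloisField 2 t, ∀ x : GaloisField 2 t,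
                algebraMap (ZMod 2) (GaloisField 2 t) (f x) = ∑ d ∈ D, c d * x ^ d) ↔
              ∀ p ∈ C, (fun i => f (p.1 i)) ∈ p.2) := by
  classical
  intro k
  obtain ⟨t, htk, htp⟩ := Nat.exists_infinite_primes (k + 3)
  refine ⟨t, htp, (range (2 ^ t)).filter (fun d => Good t d), ?_, ?_, ?_, ?_, ?_⟩
  · intro d hd
    have := (Finset.mem_filter.1 hd).2
    exact ⟨this.lt, this.dsum⟩
  · refine ⟨3, ?_, ?_, ?_⟩
    · have : 2 ^ 2 ≤ 2 ^ t := Nat.pow_le_pow_right (by norm_num) (by omega)
      omega
    · have := dsum_pow_add_pow (a := 0) (b := 1) (by norm_num)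
      norm_num at this ⊢
    · intro h
      exact not_good_three (Finset.mem_filter.1 h).2
  · intro d hd hd0
    have h := ((Finset.mem_filter.1 hd).2).double (by omega) hd0
    exact Finset.mem_filter.2 ⟨Finset.mem_range.2 h.lt, h⟩
  · intro d hd e he
    have h := ((Finset.mem_filter.1 hd).2).shadow he
    exact Finset.mem_filter.2 ⟨Finset.mem_range.2 h.lt, h⟩
  · rintro ⟨C, hC⟩
    have hmem : ∀ d, d ∈ (range (2 ^ t)).filter (fun d => Good t d) ↔ Good t d := by
      intro d
      rw [Finset.mem_filter, Finset.mem_range]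
      exact ⟨fun h => h.2, fun h => ⟨h.lt, h⟩⟩
    have hnot := not_inV hmem (by omega : 3 ≤ t)
    have h1 := (hC (fun x => Algebra.trace (ZMod 2) (GaloisField 2 t) (x ^ 3))).not.1 hnot
    push Not at h1
    obtain ⟨p, hp, hp2⟩ := h1
    obtain ⟨f, hf, hfe⟩ := core (fun d hd => (hmem d).2 hd) htk p.1
    apply hp2
    have h2 := (hC f).1 hf p hp
    have h3 : (fun i => f (p.1 i)) =
        fun i => Algebra.trace (ZMod 2) (GaloisField 2 t) ((p.1 i) ^ 3) := by
      funext i; exact hfe i
    rw [h3] at h2
    exact h2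

end Pool.Agent.S10297
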