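import Pool.Statements.S10311
import Pool.Agent.H570R2.Hitting
-- import your own Pool.Agent.* helpers here

set_option autoImplicit false
open Pool Pool.MP_89ac68_lc

namespace Pool.Agent.S10311

/-- For each k there is a bound N such that every unsatisfiable hitting clause-set with deficiency k, where each variable occurs at least twice in each sign, has at most N variables. This is equivalent to there being finitely many isomorphism types per deficiency. -/
theorem result :
    ∀ k : ℕ, ∃ N : ℕ, ∀ F : Finset (Finset (ℕ × Bool)),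
      (∀ C ∈ F, ∀ v : ℕ, ¬ ((v, true) ∈ C ∧ (v, false) ∈ C)) →
      (∀ C ∈ F, ∀ D ∈ F, C ≠ D → ∃ v : ℕ, ∃ b : Bool, (v, b) ∈ C ∧ (v, !b) ∈ D) →
      (∀ σ : ℕ → Bool, ∃ C ∈ F, ∀ l ∈ C, σ l.1 ≠ l.2) →
      (∀ C ∈ F, ∀ v : ℕ, ∀ b : Bool, (v, b) ∈ C →
        ∀ b' : Bool, 2 ≤ (F.filter (fun D => (v, b') ∈ D)).card) →
      (F.card : ℤ) - ((F.biUnion (fun C => C.image Prod.fst)).card : ℤ) = (k : ℤ) →
      (F.biUnion (fun C => C.image Prod.fst)).card ≤ N := by
  intro k
  refine ⟨Pool.Agent.H570R2.Hitting.bound k, ?_⟩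
  intro F hcons hclash hcover hns hk
  have hF : Pool.Agent.H570R2.Hitting.Hit F := by
    refine ⟨?_, ?_, ?_⟩
    · rintro C hC ⟨v, b⟩ h1 h2
      cases b
      · exact hcons C hC v ⟨h2, h1⟩
      · exact hcons C hC v ⟨h1, h2⟩
    · intro C hC D hD hne
      obtain ⟨v, b, h1, h2⟩ := hclash C hC D hD hne
      exact ⟨(v, b), h1, h2⟩
    · intro σ
      obtain ⟨C, hC, h1⟩ := hcover (fun v => !σ v)
      refine ⟨C, hC, ?_⟩
      intro l hl
      have h2 := h1 l hl
      revert h2
      simp only [ne_eq]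
      cases σ l.1 <;> cases l.2 <;> simp
  have hsing : Pool.Agent.H570R2.Hitting.sing F = ∅ := by
    rw [Finset.eq_empty_iff_forall_notMem]
    rintro ⟨v, b⟩ hl
    have h1 := Pool.Agent.H570R2.Hitting.mem_sing.1 hl
    obtain ⟨C, hC⟩ := Finset.card_pos.1 (by omega : 0 < (Pool.Agent.H570R2.Hitting.occ F (v, b)).card)
    obtain ⟨hC1, hC2⟩ := Pool.Agent.H570R2.Hitting.mem_occ.1 hC
    have h2 : 2 ≤ (Pool.Agent.H570R2.Hitting.occ F (v, b)).card := hns C hC1 v b hC2 b
    omega
  have hcard : F.card ≤ (Pool.Agent.H570R2.Hitting.vars F).card + k := by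
    have h1 : (F.card : ℤ) - ((Pool.Agent.H570R2.Hitting.vars F).card : ℤ) = (k : ℤ) := hk
    omega
  exact Pool.Agent.H570R2.Hitting.vars_bound k F hF hsing hcard

end Pool.Agent.S10311
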