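import Pool.Statements.S10323
import Pool.Agent.H643R2.SemiCone

set_option autoImplicit false
open Pool Pool.MP_8b69ee_lc

namespace Pool.Agent.S10323

/-- For every non-regular language L over a finite alphabet that is the commutative closure of a regular set, the commutative closure of {a^m b^n : m ≠ n} equals h(g⁻¹(L) ∩ R) for some morphisms g, h and regular R, i.e. lies in the rational cone of L. -/
theorem result :
    ∀ (A : Type) [Finite A] (L : Language A),
      (∃ (σ : Type) (_ : Finite σ) (M : DFA A σ),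
          ∀ w : List A, w ∈ L ↔ ∃ v : List A, v ∈ M.accepts ∧ w.Perm v) →
      (¬ ∃ (σ : Type) (_ : Finite σ) (M : DFA A σ),
          ∀ w : List A, w ∈ L ↔ w ∈ M.accepts) →
      ∃ (C : Type) (_ : Finite C) (g : C → List A) (h : C → List (Fin 2))
        (τ : Type) (_ : Finite τ) (M : DFA C τ),
        ∀ x : List (Fin 2),
          (∃ m n : ℕ, m ≠ n ∧ x.Perm (List.replicate m (0 : Fin 2) ++ List.replicate n (1 : Fin 2))) ↔
            ∃ w : List C, w ∈ M.accepts ∧ w.flatMap g ∈ L ∧ w.flatMap h = x := by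
  classical
  rintro A _ L ⟨σ, _, M, hL⟩ hnr
  have : Fintype A := Fintype.ofFinite A
  have : Fintype σ := Fintype.ofFinite σ
  set S : Set (A → ℕ) := {x | ∃ v ∈ M.accepts, Pool.Agent.H643R2.Semi.cnt v = x} with hS
  have hsemi : IsSemilinearSet S := Pool.Agent.H643R2.Semi.parikh_semilinear M
  have hLS : ∀ w : List A, w ∈ L ↔ Pool.Agent.H643R2.Semi.cnt w ∈ S := by
    intro w
    rw [hL]
    constructor
    · rintro ⟨v, hv, hp⟩
      exact ⟨v, hv, ((Pool.Agent.H643R2.Semi.perm_iff_cnt _ _).1 hp).symm⟩
    · rintro ⟨v, hv, hp⟩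
      exact ⟨v, hv, (Pool.Agent.H643R2.Semi.perm_iff_cnt _ _).2 hp.symm⟩
  have hreg : ¬ Language.IsRegular
      ({w : List A | Pool.Agent.H643R2.Semi.cnt w ∈ S} : Language A) := by
    rintro ⟨τ, hτ, N, hN⟩
    apply hnr
    refine ⟨τ, Finite.of_fintype τ, N, fun w => ?_⟩
    rw [hLS, hN]
    exact Iff.rfl
  obtain ⟨i0, hinf⟩ := Pool.Agent.H643R2.Semi.exists_inf S hreg
  obtain ⟨u, v, w, h⟩ := Pool.Agent.H643R2.Semi.pattern S
    (Pool.Agent.H643R2.Semi.det_of_semilinear S hsemi) i0 hinf
  obtain ⟨g, o, x, hgo⟩ := Pool.Agent.H643R2.Semi.cone S u v w h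
  refine ⟨Pool.Agent.H643R2.Semi.Ctl, inferInstance, g, o, Option (Option (Bool × Bool)),
    inferInstance, Pool.Agent.H643R2.Semi.auto x, fun y => ?_⟩
  have hy : (∃ m n : ℕ, m ≠ n ∧ y.Perm (List.replicate m (0 : Fin 2) ++
      List.replicate n (1 : Fin 2))) ↔ y.count 0 ≠ y.count 1 := by
    constructor
    · rintro ⟨m, n, hmn, hp⟩
      rw [hp.count_eq, hp.count_eq, List.count_append, List.count_append, List.count_replicate,
        List.count_replicate, List.count_replicate, List.count_replicate]
      simpa using hmn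
    · intro hne
      refine ⟨y.count 0, y.count 1, hne, ?_⟩
      rw [List.perm_iff_count]
      intro a
      rw [List.count_append, List.count_replicate, List.count_replicate]
      have : a = 0 ∨ a = 1 := by omega
      rcases this with rfl | rfl <;> simp
  rw [hy, hgo y]
  refine exists_congr fun z => and_congr_right fun _ => and_congr_left fun _ => ?_
  exact (hLS _).symm

end Pool.Agent.S10323
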