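import Pool.Statements.S10401
import Pool.Agent.H680R2.PhpMain
-- import your own Pool.Agent.* helpers here

set_option autoImplicit false
open Pool Pool.MP_a24eb1_lc

namespace Pool.Agent.S10401

/-- For each prime p and each degree bound d ≥ 2, once n and ℓ are large enough, no field of characteristic p has a degree-d polynomial calculus refutation of onto functional PHP with n+p^ℓ pigeons and n holes. -/
theorem result :
    ∀ p : ℕ, p.Prime → ∀ d : ℕ, 2 ≤ d → ∃ N : ℕ, ∀ n ℓ : ℕ, N ≤ n → N ≤ ℓ →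
      ∀ (F : Type) [Field F] [CharP F p],
        ¬ (∀ V : Submodule F (MvPolynomial (Fin (n + p ^ ℓ) × Fin n) F),
            (∀ f : MvPolynomial (Fin (n + p ^ ℓ) × Fin n) F,
              ((∃ v : Fin (n + p ^ ℓ) × Fin n,
                  f = MvPolynomial.X v ^ 2 - MvPolynomial.X v) ∨
               (∃ i : Fin (n + p ^ ℓ),
                  f = 1 - ∑ j : Fin n, MvPolynomial.X (i, j)) ∨
               (∃ i : Fin (n + p ^ ℓ), ∃ j k : Fin n, j ≠ k ∧
                  f = MvPolynomial.X (i, j) * MvPolynomial.X (i, k)) ∨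
               (∃ i i' : Fin (n + p ^ ℓ), ∃ j : Fin n, i ≠ i' ∧
                  f = MvPolynomial.X (i, j) * MvPolynomial.X (i', j)) ∨
               (∃ j : Fin n,
                  f = 1 - ∑ i : Fin (n + p ^ ℓ), MvPolynomial.X (i, j))) →
              f ∈ V) →
            (∀ f ∈ V, ∀ v : Fin (n + p ^ ℓ) × Fin n,
              (MvPolynomial.X v * f).totalDegree ≤ d → MvPolynomial.X v * f ∈ V) →
            (1 : MvPolynomial (Fin (n + p ^ ℓ) × Fin n) F) ∈ V) := by
  intro p hp d hd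
  refine ⟨(d + d * Pool.Agent.H680R2.rkB p d) +
    Pool.Agent.H680R2.nD p (d + d * Pool.Agent.H680R2.rkB p d) +
    (2 * (d * 2) + p ^ (d * 2) + 2 * Pool.Agent.H680R2.nD p (d * 2)) + 1, ?_⟩
  intro n ℓ hn hℓ F _ _ hcon
  have hn0 : 0 < n := by omega
  have hdes : Pool.Agent.H680R2.HasDesign F (d + d * Pool.Agent.H680R2.rkB p d)
      (Fin (n + p ^ ℓ)) (Fin n) := by
    have h1 := Pool.Agent.H680R2.eqv_main p (d + d * Pool.Agent.H680R2.rkB p d) F n
      (p ^ (ℓ - (d + d * Pool.Agent.H680R2.rkB p d))) (by omega)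
    have h2 : p ^ (ℓ - (d + d * Pool.Agent.H680R2.rkB p d)) *
        p ^ (d + d * Pool.Agent.H680R2.rkB p d) = p ^ ℓ := by
      rw [← pow_add]
      congr 1
      omega
    rw [h2] at h1
    exact h1
  obtain ⟨V, hV1, hV2, hV3⟩ := Pool.Agent.H680R2.pc_main (F := F) (A := Fin (n + p ^ ℓ))
    (B := Fin n) p hp.pos d hd ⟨0, by omega⟩ (by rw [Fintype.card_fin]; omega)
    (by rw [Fintype.card_fin]; omega) hdes
  apply hV3
  refine hcon V ?_ hV2
  rintro f (⟨v, rfl⟩ | ⟨i, rfl⟩ | ⟨i, j, k, hjk, rfl⟩ | ⟨i, i', j, hii, rfl⟩ | ⟨j, rfl⟩)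
  · exact hV1 _ _ (Pool.Agent.H680R2.Ax.bool v)
  · exact hV1 _ _ (Pool.Agent.H680R2.Ax.row i)
  · exact hV1 _ _ (Pool.Agent.H680R2.Ax.fn i j k hjk)
  · exact hV1 _ _ (Pool.Agent.H680R2.Ax.inj i i' j hii)
  · exact hV1 _ _ (Pool.Agent.H680R2.Ax.col j)

end Pool.Agent.S10401
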