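import Pool.Statements.S10404
-- import your own Pool.Agent.* helpers here

set_option autoImplicit false
open Pool Pool.MP_a271bb_lc

namespace Pool.Agent.S10404

/-- The free group on two generators. -/
abbrev G := FreeGroup (Fin 2)

/-- first generator -/
def a : G := FreeGroup.of 0
/-- second generator -/
def b : G := FreeGroup.of 1

/-- The embedding of the free group onto the subgroup generated by `a` and `b a b⁻¹`. -/
def iota : G →* G := FreeGroup.lift ![a, b * a * b⁻¹]

lemma iota_of_zero : iota (FreeGroup.of 0) = a := by simp [iota]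
lemma iota_of_one : iota (FreeGroup.of 1) = b * a * b⁻¹ := by simp [iota]

/-- permutation by which `a` acts on `G × Bool` -/
def permA : Equiv.Perm (G × Bool) where
  toFun p := (if p.2 then b * p.1 else a * p.1, p.2)
  invFun p := (if p.2 then b⁻¹ * p.1 else a⁻¹ * p.1, p.2)
  left_inv p := by
    rcases p with ⟨g, _ | _⟩ <;> simp
  right_inv p := by
    rcases p with ⟨g, _ | _⟩ <;> simp

/-- permutation by which `b` acts on `G × Bool` -/
def permB : Equiv.Perm (G × Bool) where
  toFun p := (p.1, !p.2)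
  invFun p := (p.1, !p.2)
  left_inv p := by simp
  right_inv p := by simp

/-- the action of the free group on `G × Bool` -/
def theta : G →* Equiv.Perm (G × Bool) := FreeGroup.lift ![permA, permB]

lemma theta_a : theta a = permA := by simp [theta, a]
lemma theta_b : theta b = permB := by simp [theta, b]

/-- diagonal left multiplication twisted by the swap of the generators -/
lemma theta_iota (h : G) : ∀ g : G, theta (iota h) (g, false) = (h * g, false) := by
  induction h using FreeGroup.induction_on with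
  | C1 => intro g; simp
  | of x =>
    intro g
    fin_cases x
    · simp only [Fin.zero_eta, iota_of_zero, theta_a]
      simp [permA, a]
    · simp only [Fin.mk_one, iota_of_one, map_mul, map_inv, theta_a, theta_b]
      have hB : (permB⁻¹ : Equiv.Perm (G × Bool)) = permB := by
        ext p : 1
        rfl
      rw [hB]
      simp [permA, permB, b]
  | inv_of x hx =>
    intro g
    have := hx ((FreeGroup.of x)⁻¹ * g)
    rw [map_inv, map_inv, Equiv.Perm.inv_eq_iff_eq, this]
    simp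
  | mul x y hx hy =>
    intro g
    rw [map_mul, map_mul, Equiv.Perm.mul_apply, hy, hx, mul_assoc]

lemma iota_injective : Function.Injective iota := by
  rw [injective_iff_map_eq_one]
  intro h hh
  have := theta_iota h 1
  rw [hh, map_one] at this
  simpa using this.symm

/-- exponent sum of `b` -/
def eps : G →* Multiplicative ℤ := FreeGroup.lift ![1, Multiplicative.ofAdd 1]

lemma eps_iota (h : G) : eps (iota h) = 1 := by
  have : eps.comp iota = 1 := by
    ext x
    fin_cases x <;> simp [eps, iota, a, b]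
  exact DFunLike.congr_fun this h

lemma eps_b_pow (n : ℤ) : eps (b ^ n) = Multiplicative.ofAdd n := by
  rw [map_zpow]
  simp [eps, b, ← ofAdd_zsmul]

lemma iota_eq_b {h : G} {n : ℤ} (hh : iota h = b ^ n) : n = 0 := by
  have := eps_iota h
  rw [hh, eps_b_pow] at this
  simpa using this

lemma unique_rep {h h' : G} {i j : ℤ} (hh : iota h * b ^ i = iota h' * b ^ j) :
    h = h' ∧ i = j := by
  have h1 : iota (h'⁻¹ * h) = b ^ (j - i) := by
    rw [map_mul, map_inv, zpow_sub, inv_mul_eq_iff_eq_mul, ← mul_assoc, ← hh, mul_assoc, mul_inv_cancel, mul_one]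
  have h2 := iota_eq_b h1
  have h3 : i = j := by omega
  subst h3
  refine ⟨iota_injective ?_, rfl⟩
  exact mul_right_cancel hh

/-- the coding set -/
def S (x : G → ℕ) : Set G := {g | ∃ h : G, ∃ i : ℕ, i ≤ x h ∧ g = iota h * b ^ (-(i : ℤ))}

lemma mem_S_iff {x : G → ℕ} {h : G} {i : ℤ} :
    iota h * b ^ i ∈ S x ↔ i ≤ 0 ∧ -i ≤ x h := by
  constructor
  · rintro ⟨h', j, hj, e⟩
    obtain ⟨rfl, rfl⟩ := unique_rep e
    constructor
    · omega
    · simpa using hj
  · rintro ⟨h1, h2⟩
    refine ⟨h, (-i).toNat, by omega, ?_⟩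
    congr 2
    omega

lemma S_shift (x : G → ℕ) (k g : G) :
    g ∈ S (fun h => x (k⁻¹ * h)) ↔ (iota k)⁻¹ * g ∈ S x := by
  constructor
  · rintro ⟨h, i, hi, rfl⟩
    exact ⟨k⁻¹ * h, i, hi, by rw [map_mul, map_inv, mul_assoc]⟩
  · rintro ⟨h, i, hi, e⟩
    refine ⟨k * h, i, by simpa using hi, ?_⟩
    rw [map_mul, mul_assoc, ← e, mul_inv_cancel_left]

lemma marker {x : G → ℕ} {g : G} : (g ∈ S x ∧ g * b ∉ S x) ↔ ∃ h, g = iota h := by
  constructor
  · rintro ⟨⟨h, i, hi, rfl⟩, h2⟩
    refine ⟨h, ?_⟩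
    have : iota h * b ^ (-(i : ℤ)) * b = iota h * b ^ (-(i : ℤ) + 1) := by
      rw [zpow_add_one, mul_assoc]
    rw [this, mem_S_iff] at h2
    have : i = 0 := by
      by_contra hne
      exact h2 ⟨by omega, by omega⟩
    subst this
    simp
  · rintro ⟨h, rfl⟩
    constructor
    · have := (mem_S_iff (x := x) (h := h) (i := 0)).2 ⟨le_rfl, by simp⟩
      simpa using this
    · intro hc
      have hc' : iota h * b ^ (1 : ℤ) ∈ S x := by simpa using hc
      rw [mem_S_iff] at hc'
      omega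

lemma recover {x y : G → ℕ} {g0 : G} (H : ∀ g, g0⁻¹ * g ∈ S x ↔ g ∈ S y) :
    ∃ k : G, g0 = iota k ∧ (fun h => x (k⁻¹ * h)) = y := by
  have h1 : (1 : G) ∈ S y ∧ (1 : G) * b ∉ S y := marker.2 ⟨1, by simp⟩
  rw [← H, ← H, mul_one, one_mul] at h1
  obtain ⟨k, hk⟩ := marker.1 h1
  have hg : g0 = iota k⁻¹ := by rw [map_inv, ← hk, inv_inv]
  refine ⟨k⁻¹, hg, ?_⟩
  funext h
  have key : ∀ i : ℕ, i ≤ x (k * h) ↔ i ≤ y h := by
    intro i
    have e := H (iota h * b ^ (-(i : ℤ)))
    rw [hg, map_inv, inv_inv, ← mul_assoc, ← map_mul, mem_S_iff, mem_S_iff] at e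
    constructor
    · intro hi
      have := (e.1 ⟨by omega, by omega⟩).2
      omega
    · intro hi
      have := (e.2 ⟨by omega, by omega⟩).2
      omega
  have h2 := (key (x (k * h))).1 le_rfl
  have h3 := (key (y h)).2 le_rfl
  simp only [inv_inv]
  omega

open Classical in
/-- the coding map -/
noncomputable def phi (x : G → ℕ) (g : G) : Fin 2 := if g ∈ S x then 1 else 0

lemma phi_eq_iff {x y : G → ℕ} {g g' : G} : phi x g = phi y g' ↔ (g ∈ S x ↔ g' ∈ S y) := by
  unfold phi
  by_cases h1 : g ∈ S x <;> by_cases h2 : g' ∈ S y <;> simp [h1, h2]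

lemma phi_recover {x y : G → ℕ} {g0 : G} (H : (fun h => phi x (g0⁻¹ * h)) = phi y) :
    ∃ k : G, g0 = iota k ∧ (fun h => x (k⁻¹ * h)) = y :=
  recover fun g => phi_eq_iff.1 (congrFun H g)

lemma phi_shift (x : G → ℕ) (k : G) :
    (fun h => phi x ((iota k)⁻¹ * h)) = phi (fun h => x (k⁻¹ * h)) := by
  funext g
  rw [phi_eq_iff, S_shift]

lemma measurable_phi (g : G) : Measurable fun x : G → ℕ => phi x g := by
  unfold phi
  refine Measurable.ite ?_ measurable_const measurable_const
  have : {x : G → ℕ | g ∈ S x} =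
      ⋃ h : G, ⋃ i : ℕ, {x : G → ℕ | i ≤ x h ∧ g = iota h * b ^ (-(i : ℤ))} := by
    ext x
    simp [S]
  rw [this]
  refine MeasurableSet.iUnion fun h => MeasurableSet.iUnion fun i => ?_
  refine MeasurableSet.inter ?_ (MeasurableSet.const _)
  exact measurableSet_le measurable_const (measurable_pi_apply h)

/-- The negation of the preceding statement: For the free group on two generators and every k ≥ 2, the shift orbit relation on the free part of k^G is Borel reducible to the one on (k+1)^G and to the one on ℕ^G, and neither of those is Borel reducible back to it. -/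
theorem result :
    ¬ (∀ k : ℕ, 2 ≤ k →
    (∃ f : {x : FreeGroup (Fin 2) → Fin k // ∀ g : FreeGroup (Fin 2), (fun h => x (g⁻¹ * h)) = x → g = 1} →
        {x : FreeGroup (Fin 2) → Fin (k+1) // ∀ g : FreeGroup (Fin 2), (fun h => x (g⁻¹ * h)) = x → g = 1},
      Measurable f ∧ ∀ x y, (∃ g : FreeGroup (Fin 2), (fun h => x.1 (g⁻¹ * h)) = y.1) ↔
        (∃ g : FreeGroup (Fin 2), (fun h => (f x).1 (g⁻¹ * h)) = (f y).1)) ∧
    ¬ (∃ f : {x : FreeGroup (Fin 2) → Fin (k+1) // ∀ g : FreeGroup (Fin 2), (fun h => x (g⁻¹ * h)) = x → g = 1} →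
        {x : FreeGroup (Fin 2) → Fin k // ∀ g : FreeGroup (Fin 2), (fun h => x (g⁻¹ * h)) = x → g = 1},
      Measurable f ∧ ∀ x y, (∃ g : FreeGroup (Fin 2), (fun h => x.1 (g⁻¹ * h)) = y.1) ↔
        (∃ g : FreeGroup (Fin 2), (fun h => (f x).1 (g⁻¹ * h)) = (f y).1)) ∧
    (∃ f : {x : FreeGroup (Fin 2) → Fin k // ∀ g : FreeGroup (Fin 2), (fun h => x (g⁻¹ * h)) = x → g = 1} →
        {x : FreeGroup (Fin 2) → ℕ // ∀ g : FreeGroup (Fin 2), (fun h => x (g⁻¹ * h)) = x → g = 1},
      Measurable f ∧ ∀ x y, (∃ g : FreeGroup (Fin 2), (fun h => x.1 (g⁻¹ * h)) = y.1) ↔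
        (∃ g : FreeGroup (Fin 2), (fun h => (f x).1 (g⁻¹ * h)) = (f y).1)) ∧
    ¬ (∃ f : {x : FreeGroup (Fin 2) → ℕ // ∀ g : FreeGroup (Fin 2), (fun h => x (g⁻¹ * h)) = x → g = 1} →
        {x : FreeGroup (Fin 2) → Fin k // ∀ g : FreeGroup (Fin 2), (fun h => x (g⁻¹ * h)) = x → g = 1},
      Measurable f ∧ ∀ x y, (∃ g : FreeGroup (Fin 2), (fun h => x.1 (g⁻¹ * h)) = y.1) ↔
        (∃ g : FreeGroup (Fin 2), (fun h => (f x).1 (g⁻¹ * h)) = (f y).1))) := by
  intro H
  refine (H 2 le_rfl).2.2.2 ⟨fun x => ⟨phi x.1, ?_⟩, ?_, ?_⟩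
  · intro g hg
    obtain ⟨k, rfl, hk⟩ := phi_recover hg
    rw [x.2 k hk, map_one]
  · refine Measurable.subtype_mk ?_
    exact measurable_pi_lambda _ fun g => (measurable_phi g).comp measurable_subtype_coe
  · intro x y
    constructor
    · rintro ⟨k, hk⟩
      refine ⟨iota k, ?_⟩
      rw [phi_shift, hk]
    · rintro ⟨g, hg⟩
      obtain ⟨k, -, hk⟩ := phi_recover hg
      exact ⟨k, hk⟩

end Pool.Agent.S10404
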