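import Pool.Statements.S10408
import Pool.Agent.H626R2.TrueStages

set_option autoImplicit false
open Pool Pool.MP_a2ec29_lc

namespace Pool.Agent.S10408

open Pool.Agent.H626R2.StepAlg Pool.Agent.H626R2.TrueStages
open Pool.Agent.Results.MP_65fbb9_lc.Coincidence (ci_comp ci_pair ci_comp₂ ci_compC ci_fst ci_snd
  computable_of_ci ceqB ceqN cmod cconst cnot cpw cadd bt)

theorem PP_natle (S : Finset ℕ) :
    PP natle S = {x : ℕ | Odd (S.filter (fun s => s ≤ x)).card} := by
  ext x
  show chi natle S x = 1 ↔ Odd (S.filter (fun s => s ≤ x)).card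
  rw [chi_eq_odd]
  have : S.filter (fun j => natle j x = true) = S.filter (fun s => s ≤ x) := by
    ext j
    simp [natle]
  rw [this]

theorem FC_iff (X : Set ℕ) : FC X ↔ X ∈ {X : Set ℕ | ∃ S : Finset ℕ, ∃ b : Bool,
    X = {x : ℕ | Xor' (b = true) (Odd (S.filter (fun s => s ≤ x)).card)}} := by
  constructor
  · intro h
    obtain ⟨S, hS⟩ := exists_PP good_natle h
    refine ⟨S, false, ?_⟩
    rw [← hS, PP_natle]
    ext x
    simp [Xor']
  · rintro ⟨S, b, rfl⟩
    have h1 := PP_FC good_natle S
    rw [PP_natle] at h1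
    cases b with
    | false =>
      have : {x : ℕ | Xor' (false = true) (Odd (S.filter (fun s => s ≤ x)).card)}
          = {x : ℕ | Odd (S.filter (fun s => s ≤ x)).card} := by
        ext x
        simp [Xor']
      rw [this]
      exact h1
    | true =>
      have : {x : ℕ | Xor' (true = true) (Odd (S.filter (fun s => s ≤ x)).card)}
          = {x : ℕ | Odd (S.filter (fun s => s ≤ x)).card}ᶜ := by
        ext x
        simp [Xor']
      rw [this]
      exact FCalg.compl_mem' h1

theorem range_val : Set.range (fun a : FCalg => (a : Set ℕ)) =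
    {X : Set ℕ | ∃ S : Finset ℕ, ∃ b : Bool,
      X = {x : ℕ | Xor' (b = true) (Odd (S.filter (fun s => s ≤ x)).card)}} := by
  ext X
  rw [← FC_iff]
  constructor
  · rintro ⟨a, rfl⟩
    exact a.2
  · intro h
    exact ⟨⟨X, h⟩, rfl⟩

theorem bits_two_pow (k : ℕ) : bits (2 ^ k) = {k} := by
  ext j
  rw [mem_bits, Finset.mem_singleton]
  have h1 : bt (2 ^ k) j = 1 ↔ Nat.testBit (2 ^ k) j = true := by
    rw [Nat.testBit_eq_decide_div_mod_eq]
    simp [bt]
  rw [h1, Nat.testBit_two_pow]
  simp only [decide_eq_true_eq]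
  exact eq_comm

/-- an embedding of the algebra onto itself preserves finiteness -/
theorem fin_of_fin {ψ : FCalg → Set ℕ} (hinj : Function.Injective ψ)
    (hsup : ∀ a b, ψ (a ⊔ b) = ψ a ∪ ψ b)
    (hr : ∀ X, FC X ↔ X ∈ Set.range ψ) (a : FCalg) (ha : (a : Set ℕ).Finite) : (ψ a).Finite := by
  classical
  have h1 : ∀ y : ℕ, ∃ b : FCalg, ψ b = {y} := fun y =>
    (hr {y}).1 (Or.inl (Set.finite_singleton y))
  choose B hB using h1
  have h2 : ∀ y ∈ ψ a, (B y : Set ℕ) ⊆ (a : Set ℕ) := by
    intro y hy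
    have h3 : ψ (B y ⊔ a) = ψ a := by
      rw [hsup, hB]
      exact Set.union_eq_self_of_subset_left (Set.singleton_subset_iff.2 hy)
    have h4 : B y ⊔ a = a := hinj h3
    have h5 : ((B y ⊔ a : FCalg) : Set ℕ) = (a : Set ℕ) := by rw [h4]
    rw [BooleanSubalgebra.val_sup] at h5
    intro x hx
    rw [← h5]
    exact Or.inl hx
  refine Set.Finite.of_finite_image (f := fun y => (B y : Set ℕ)) ?_ ?_
  · refine ha.finite_subsets.subset ?_
    rintro _ ⟨y, hy, rfl⟩
    exact h2 y hy
  · intro y _ z _ hyz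
    have h3 : B y = B z := Subtype.ext hyz
    have h4 : ({y} : Set ℕ) = {z} := by rw [← hB, ← hB, h3]
    exact Set.singleton_injective h4

theorem fin_iff {ψ : FCalg → Set ℕ} (hinj : Function.Injective ψ)
    (hsup : ∀ a b, ψ (a ⊔ b) = ψ a ∪ ψ b) (hcompl : ∀ a, ψ aᶜ = (ψ a)ᶜ)
    (hr : ∀ X, FC X ↔ X ∈ Set.range ψ) (a : FCalg) : (ψ a).Finite ↔ (a : Set ℕ).Finite := by
  constructor
  · intro h
    by_contra hc
    have h1 : (a : Set ℕ)ᶜ.Finite := by
      rcases a.2 with h2 | h2
      · exact absurd h2 hc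
      · exact h2
    have h2 : (ψ aᶜ).Finite := fin_of_fin hinj hsup hr aᶜ (by
      rw [BooleanSubalgebra.val_compl]; exact h1)
    rw [hcompl] at h2
    have h3 : (Set.univ : Set ℕ).Finite := by
      rw [← Set.union_compl_self (ψ a)]
      exact h.union h2
    exact Set.infinite_univ h3
  · exact fin_of_fin hinj hsup hr a

/-- The negation of the preceding statement: Take any computable infinite linear order L and computable Boolean algebra B isomorphic to the algebra of finite unions of half-open intervals of L. Then some computable copy of L makes B computably isomorphic to that copy's interval algebra. -/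
theorem result :
    ¬ (∀ (β : Type) [LinearOrder β] (l : ℕ ≃ β),
      ComputablePred (fun p : ℕ × ℕ => l p.1 ≤ l p.2) →
      ∀ (α : Type) [BooleanAlgebra α] (e : ℕ ≃ α),
        Computable₂ (fun m n : ℕ => e.symm (e m ⊔ e n)) →
        Computable₂ (fun m n : ℕ => e.symm (e m ⊓ e n)) →
        Computable (fun n : ℕ => e.symm (e n)ᶜ) →
        (∃ φ : α → Set β, Function.Injective φ ∧
            (∀ a b, φ (a ⊔ b) = φ a ∪ φ b) ∧
            (∀ a, φ aᶜ = (φ a)ᶜ) ∧
            Set.range φ = {X : Set β | ∃ S : Finset β, ∃ b : Bool,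
              X = {x : β | Xor' (b = true) (Odd (S.filter (fun s => s ≤ x)).card)}}) →
        ∃ l' : ℕ ≃ β, ComputablePred (fun p : ℕ × ℕ => l' p.1 ≤ l' p.2) ∧
          ∃ ψ : α → Set β, Function.Injective ψ ∧
            (∀ a b, ψ (a ⊔ b) = ψ a ∪ ψ b) ∧
            (∀ a, ψ aᶜ = (ψ a)ᶜ) ∧
            Set.range ψ = {X : Set β | ∃ S : Finset β, ∃ b : Bool,
              X = {x : β | Xor' (b = true) (Odd (S.filter (fun s => s ≤ x)).card)}} ∧
            ∃ c : ℕ → List ℕ × Bool, Computable c ∧
              ∀ n : ℕ, ψ (e n) = {x : β | Xor' ((c n).2 = true)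
                (Odd ((c n).1.filter (fun s => decide (l' s ≤ x))).length)}) := by
  intro H
  have hcad : ComputableIn ∅ fun p : ℕ × ℕ => ad rr p.1 p.2 := cad crr ci_fst ci_snd
  have hcx : ComputableIn ∅ fun p : ℕ × ℕ => xr p.1 p.2 := cxr ci_fst ci_snd
  have e1 : (fun m n : ℕ => (num rr good_rr).symm (num rr good_rr m ⊔ num rr good_rr n))
      = fun m n => xr (xr m n) (ad rr m n) := by
    funext m n
    rw [Equiv.symm_apply_eq, num_sup]
  have e2 : (fun m n : ℕ => (num rr good_rr).symm (num rr good_rr m ⊓ num rr good_rr n))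
      = fun m n => ad rr m n := by
    funext m n
    rw [Equiv.symm_apply_eq, num_ad]
  have e3 : (fun n : ℕ => (num rr good_rr).symm (num rr good_rr n)ᶜ) = fun n => xr n 1 := by
    funext n
    rw [Equiv.symm_apply_eq, num_compl]
  obtain ⟨l', -, ψ, hinj, hsup, hcompl, hrange, c, hc, hψ⟩ :=
    H ℕ (Equiv.refl ℕ)
      (Computable.computablePred (by
        have h : Computable fun p : ℕ × ℕ => decide (p.1 ≤ p.2) := Primrec.nat_le.decide.to_comp
        exact h))
      FCalg (num rr good_rr)
      (by rw [e1]; exact computable_of_ci (cxr hcx hcad))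
      (by rw [e2]; exact computable_of_ci hcad)
      (by rw [e3]; exact computable_of_ci (cxr ComputableIn.id (cconst 1)))
      ⟨fun a => (a : Set ℕ), Subtype.val_injective, fun a b => rfl, fun a => rfl, range_val⟩
  have hr : ∀ X, FC X ↔ X ∈ Set.range ψ := by
    intro X
    rw [hrange]
    exact FC_iff X
  -- the decision procedure
  obtain ⟨tt, htt⟩ : ∃ tt : ℕ → Bool, tt = fun z =>
      !(decide ((c (2 ^ (z + 1))).2 = decide ((c (2 ^ (z + 1))).1.length % 2 = 1))) := ⟨_, rfl⟩
  have httc : Computable tt := by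
    have h0 : Computable fun z : ℕ => 2 ^ (z + 1) := by
      apply computable_of_ci
      exact cpw 2 (f := fun z : ℕ => z + 1) (cadd ComputableIn.id (cconst 1))
    have h1 : ComputableIn ∅ fun z : ℕ => (c (2 ^ (z + 1))).2 :=
      (Computable.snd.comp (hc.comp h0)).computableIn
    have h2 : ComputableIn ∅ fun z : ℕ => (c (2 ^ (z + 1))).1.length :=
      (Computable.list_length.comp (Computable.fst.comp (hc.comp h0))).computableIn
    apply computable_of_ci
    rw [htt]
    exact cnot (ceqB h1 (ceqN (cmod h2 (cconst 2)) (cconst 1)))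
  refine no_decider tt httc fun z => ?_
  -- the meaning of the procedure
  have h1 : ((ψ (num rr good_rr (2 ^ (z + 1)))).Finite ↔ ¬ tt z = true) := by
    rw [hψ]
    obtain ⟨B, hB⟩ : ∃ B : ℕ, ∀ s ∈ (c (2 ^ (z + 1))).1, l' s ≤ B := by
      refine ⟨((c (2 ^ (z + 1))).1.map l').sum, fun s hs => ?_⟩
      exact List.single_le_sum (fun _ _ => Nat.zero_le _) _ (List.mem_map_of_mem hs)
    have h2 : ∀ x, B ≤ x → (x ∈ {x : ℕ | Xor' ((c (2 ^ (z + 1))).2 = true)
        (Odd ((c (2 ^ (z + 1))).1.filter (fun s => decide (l' s ≤ x))).length)} ↔ tt z = true) := by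
      intro x hx
      have h3 : (c (2 ^ (z + 1))).1.filter (fun s => decide (l' s ≤ x)) = (c (2 ^ (z + 1))).1 := by
        rw [List.filter_eq_self]
        intro s hs
        have := hB s hs
        simp only [decide_eq_true_eq]
        omega
      show Xor' ((c (2 ^ (z + 1))).2 = true)
        (Odd ((c (2 ^ (z + 1))).1.filter (fun s => decide (l' s ≤ x))).length) ↔ tt z = true
      rw [h3, htt]
      simp only [Bool.not_eq_true', decide_eq_false_iff_not, Nat.odd_iff]
      cases (c (2 ^ (z + 1))).2 <;>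
        by_cases h4 : (c (2 ^ (z + 1))).1.length % 2 = 1 <;> simp [Xor', h4]
    constructor
    · intro hfin htz
      obtain ⟨M, hM⟩ := hfin.bddAbove
      have h3 : M + B + 1 ∈ {x : ℕ | Xor' ((c (2 ^ (z + 1))).2 = true)
        (Odd ((c (2 ^ (z + 1))).1.filter (fun s => decide (l' s ≤ x))).length)} :=
        (h2 _ (by omega)).2 htz
      have := hM h3
      omega
    · intro htz
      refine (Set.finite_Iio B).subset fun x hx => ?_
      rw [Set.mem_Iio]
      by_contra h3
      exact htz ((h2 x (by omega)).1 hx)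
  have h2 := fin_iff hinj hsup hcompl hr (num rr good_rr (2 ^ (z + 1)))
  have h3 : ((num rr good_rr (2 ^ (z + 1)) : FCalg) : Set ℕ).Finite ↔ ¬ Tr z := by
    rw [num_val, bits_two_pow, PP_single]
    constructor
    · intro h4 h5
      have h6 := rr_fin_true h5
      have h7 : (Set.univ : Set ℕ) ⊆ {y | rr y (z + 1) = true} ∪ {y | rr (z + 1) y = true} := by
        intro y _
        rcases rr_tot y (z + 1) with h8 | h8
        · exact Or.inl h8
        · exact Or.inr h8
      exact Set.infinite_univ ((h6.union h4).subset h7)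
    · intro h4
      exact rr_fin_false h4
  tauto

end Pool.Agent.S10408
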