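import Pool.Statements.S10459
import Pool.Agent.H700R2.JacSupp

set_option autoImplicit false
open Pool Pool.MP_afa64c_lc

namespace Pool.Agent.S10459

open MvPolynomial Pool.Agent.H700R2.Jac

/-- the polynomial -/
noncomputable def poly : MvPolynomial (Fin 8) ℤ :=
  (X 1 ^ 2 - 1 + 2 * X 0 ^ 2 + 4 * X 0 ^ 4) ^ 2 + ((1 + 2 * X 0 ^ 2) * X 2 - 1) ^ 2 +
    (X 0 * X 3 - 1 - X 4 ^ 2 - X 5 ^ 2 - X 6 ^ 2 - X 7 ^ 2) ^ 2

theorem aeval_poly (x : Fin 8 → ℚ) : aeval x poly =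
    (x 1 ^ 2 - 1 + 2 * x 0 ^ 2 + 4 * x 0 ^ 4) ^ 2 + ((1 + 2 * x 0 ^ 2) * x 2 - 1) ^ 2 +
    (x 0 * x 3 - 1 - x 4 ^ 2 - x 5 ^ 2 - x 6 ^ 2 - x 7 ^ 2) ^ 2 := by
  unfold poly
  simp only [map_add, map_mul, map_pow, map_sub, map_one, map_ofNat, aeval_X]

/-- the set of subrings with a solution -/
def solv : Set (ℕ → Bool) := {W : ℕ → Bool | ∃ x : Fin 8 → ℚ,
  (∀ i : Fin 8, ∀ k : ℕ, Nat.nth Nat.Prime k ∣ (x i).den → W k = true) ∧
  MvPolynomial.aeval x poly = 0}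

/-- the indices of the primes in the set attached to `(a, b)` -/
noncomputable def idx (a b : ℕ) : Finset ℕ := (exists_set a b).choose.image (Nat.count Nat.Prime)

theorem idx_card (a b : ℕ) : (idx a b).card = cnt a b := by
  unfold idx
  rw [Finset.card_image_of_injOn, (exists_set a b).choose_spec.1]
  intro p hp q hq h
  have hp' := ((exists_set a b).choose_spec.2 p hp).1
  have hq' := ((exists_set a b).choose_spec.2 q hq).1
  have h1 := Nat.nth_count hp'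
  have h2 := Nat.nth_count hq'
  rw [← h1, h, h2]

theorem count_two : Nat.count Nat.Prime 2 = 0 := by
  rw [Nat.count_eq_card_filter_range]
  decide

theorem zero_notMem_idx (a b : ℕ) : 0 ∉ idx a b := by
  unfold idx
  intro h
  rw [Finset.mem_image] at h
  obtain ⟨p, hp, h⟩ := h
  obtain ⟨h1, h2, -⟩ := (exists_set a b).choose_spec.2 p hp
  apply h2
  have h3 := Nat.nth_count h1
  have h4 := Nat.nth_count Nat.prime_two
  rw [h] at h3
  rw [count_two] at h4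
  rw [← h3, h4]

/-- the bad sets of subrings -/
def bad (a b : ℕ) : Set (ℕ → Bool) := {W | W 0 = false ∧ ∀ i ∈ idx a b, W i = true}

theorem solv_subset : solv ⊆ {W | W 0 = true} ∪ ⋃ a : ℕ, ⋃ b : ℕ, bad a b := by
  rintro W ⟨x, hx, h0⟩
  rw [aeval_poly] at h0
  have e1 : (x 1 ^ 2 - 1 + 2 * x 0 ^ 2 + 4 * x 0 ^ 4) ^ 2 = 0 := by
    have := sq_nonneg (x 1 ^ 2 - 1 + 2 * x 0 ^ 2 + 4 * x 0 ^ 4)
    have := sq_nonneg ((1 + 2 * x 0 ^ 2) * x 2 - 1)
    have := sq_nonneg (x 0 * x 3 - 1 - x 4 ^ 2 - x 5 ^ 2 - x 6 ^ 2 - x 7 ^ 2)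
    linarith
  have e2 : ((1 + 2 * x 0 ^ 2) * x 2 - 1) ^ 2 = 0 := by
    have := sq_nonneg (x 1 ^ 2 - 1 + 2 * x 0 ^ 2 + 4 * x 0 ^ 4)
    have := sq_nonneg ((1 + 2 * x 0 ^ 2) * x 2 - 1)
    have := sq_nonneg (x 0 * x 3 - 1 - x 4 ^ 2 - x 5 ^ 2 - x 6 ^ 2 - x 7 ^ 2)
    linarith
  have e3 : (x 0 * x 3 - 1 - x 4 ^ 2 - x 5 ^ 2 - x 6 ^ 2 - x 7 ^ 2) ^ 2 = 0 := by
    have := sq_nonneg (x 1 ^ 2 - 1 + 2 * x 0 ^ 2 + 4 * x 0 ^ 4)
    have := sq_nonneg ((1 + 2 * x 0 ^ 2) * x 2 - 1)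
    have := sq_nonneg (x 0 * x 3 - 1 - x 4 ^ 2 - x 5 ^ 2 - x 6 ^ 2 - x 7 ^ 2)
    linarith
  have f1 : x 1 ^ 2 = 1 - 2 * x 0 ^ 2 - 4 * x 0 ^ 4 := by
    have := pow_eq_zero_iff (two_ne_zero) |>.1 e1
    linarith
  have f2 : (1 + 2 * x 0 ^ 2) * x 2 = 1 := by
    have := pow_eq_zero_iff (two_ne_zero) |>.1 e2
    linarith
  have f3 : x 0 * x 3 = 1 + x 4 ^ 2 + x 5 ^ 2 + x 6 ^ 2 + x 7 ^ 2 := by
    have := pow_eq_zero_iff (two_ne_zero) |>.1 e3
    linarith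
  have hs0 : x 0 ≠ 0 := by
    intro h
    rw [h, zero_mul] at f3
    have : 0 < 1 + x 4 ^ 2 + x 5 ^ 2 + x 6 ^ 2 + x 7 ^ 2 := by positivity
    linarith
  set R : Pt := ⟨x 0, x 1, f1⟩ with hR
  rcases ker_or_big_two R with hk | hb
  · by_cases hW : W 0 = true
    · exact Or.inl hW
    right
    obtain ⟨a, b, hab⟩ := support hk hs0
    rw [Set.mem_iUnion]
    refine ⟨a, ?_⟩
    rw [Set.mem_iUnion]
    refine ⟨b, by simpa using hW, ?_⟩
    intro i hi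
    unfold idx at hi
    rw [Finset.mem_image] at hi
    obtain ⟨p, hp, rfl⟩ := hi
    obtain ⟨h1, h2, h3⟩ := (exists_set a b).choose_spec.2 p hp
    have : Fact p.Prime := ⟨h1⟩
    rcases h3 with h3 | h3
    · have h4 := (hab p h1 h2).1 h3
      apply hx 0
      rw [Nat.nth_count h1, ← one_lt_nm_iff]
      exact h4
    · have h4 := (hab p h1 h2).2 h3
      apply hx 2
      rw [Nat.nth_count h1, ← one_lt_nm_iff]
      have h5 : padicNorm p (1 + 2 * x 0 ^ 2) < 1 := h4.2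
      have h6 := congrArg (padicNorm p) f2
      rw [padicNorm.mul, padicNorm.one] at h6
      by_contra hcon
      push Not at hcon
      have h7 := nm_nonneg (p := p) (1 + 2 * x 0 ^ 2)
      have h8 : padicNorm p (1 + 2 * x 0 ^ 2) * padicNorm p (x 2) ≤
          padicNorm p (1 + 2 * x 0 ^ 2) * 1 := mul_le_mul_of_nonneg_left hcon h7
      linarith
  · left
    apply hx 0
    rw [Nat.nth_prime_zero_eq_two, ← one_lt_nm_iff]
    exact hb

/-! ### Measure -/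

open MeasureTheory

/-- the fair coin measure -/
noncomputable abbrev μ : Measure (ℕ → Bool) :=
  Measure.infinitePi (fun _ : ℕ => (PMF.uniformOfFintype Bool).toMeasure)

theorem cyl (F : Finset ℕ) (v : ℕ → Bool) :
    μ {W : ℕ → Bool | ∀ i ∈ F, W i = v i} = (2⁻¹ : ENNReal) ^ F.card := by
  have e : {W : ℕ → Bool | ∀ i ∈ F, W i = v i} = Set.pi (F : Set ℕ) (fun i => {v i}) := by
    ext W
    simp [Set.mem_pi]
  rw [e]
  unfold μ
  rw [Measure.infinitePi_pi _ (fun i _ => measurableSet_singleton _)]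
  have h : ∀ i ∈ F, ((PMF.uniformOfFintype Bool).toMeasure) {v i} = (2⁻¹ : ENNReal) := by
    intro i _
    rw [PMF.toMeasure_apply_singleton _ _ (measurableSet_singleton _), PMF.uniformOfFintype_apply]
    simp
  rw [Finset.prod_congr rfl h, Finset.prod_const]

theorem mu_bad (a b : ℕ) : μ (bad a b) = (2⁻¹ : ENNReal) ^ (cnt a b + 1) := by
  have e : bad a b = {W : ℕ → Bool | ∀ i ∈ insert 0 (idx a b), W i = (fun i => decide (i ≠ 0)) i} := by
    ext W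
    unfold bad
    simp only [Set.mem_ofPred_eq, Finset.mem_insert, forall_eq_or_imp]
    constructor
    · rintro ⟨h1, h2⟩
      refine ⟨by simpa using h1, fun i hi => ?_⟩
      rw [h2 i hi]
      have : i ≠ 0 := by
        rintro rfl
        exact zero_notMem_idx a b hi
      simp [this]
    · rintro ⟨h1, h2⟩
      refine ⟨by simpa using h1, fun i hi => ?_⟩
      rw [h2 i hi]
      have : i ≠ 0 := by
        rintro rfl
        exact zero_notMem_idx a b hi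
      simp [this]
  rw [e, cyl, Finset.card_insert_of_notMem (zero_notMem_idx a b), idx_card]

theorem mu_zero : μ {W : ℕ → Bool | W 0 = true} = 2⁻¹ := by
  have e : {W : ℕ → Bool | W 0 = true} = {W : ℕ → Bool | ∀ i ∈ ({0} : Finset ℕ), W i = (fun _ => true) i} := by
    ext W; simp
  rw [e, cyl]; simp

theorem tsum_geo : ∑' a : ℕ, ∑' b : ℕ, (2⁻¹ : ENNReal) ^ (a + b + 2 + 1) = 2⁻¹ := by
  have h2 : ∑' b : ℕ, (2⁻¹ : ENNReal) ^ (b + 1) = 1 := by
    rw [ENNReal.tsum_geometric_add_one, ENNReal.one_sub_inv_two, inv_inv]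
    exact ENNReal.inv_mul_cancel (by norm_num) (by norm_num)
  have h1 : ∀ a : ℕ, ∑' b : ℕ, (2⁻¹ : ENNReal) ^ (a + b + 2 + 1) =
      (2⁻¹ : ENNReal) ^ (a + 1) * 2⁻¹ := by
    intro a
    have : ∀ b : ℕ, (2⁻¹ : ENNReal) ^ (a + b + 2 + 1) =
        ((2⁻¹ : ENNReal) ^ (a + 1) * 2⁻¹) * (2⁻¹ : ENNReal) ^ (b + 1) := by
      intro b
      rw [← pow_succ, ← pow_add]; congr 1; ring
    simp_rw [this]
    rw [ENNReal.tsum_mul_left, h2, mul_one]
  simp_rw [h1]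
  rw [ENNReal.tsum_mul_right, h2, one_mul]

theorem tsum_bad : ∑' a : ℕ, ∑' b : ℕ, (2⁻¹ : ENNReal) ^ (cnt a b + 1) < 2⁻¹ := by
  have key : (∑' a : ℕ, ∑' b : ℕ, (2⁻¹ : ENNReal) ^ (cnt a b + 1)) + (2⁻¹ : ENNReal) ^ 4 = 2⁻¹ := by
    have h1 : (∑' a : ℕ, ∑' b : ℕ, if a = 0 then (if b = 0 then (2⁻¹ : ENNReal) ^ 4 else 0) else 0) =
        (2⁻¹ : ENNReal) ^ 4 := by
      rw [tsum_eq_single 0, tsum_eq_single 0]
      · simp
      · intro b hb; simp [hb]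
      · intro a ha; simp [ha]
    rw [← h1, ← ENNReal.tsum_add]
    conv_rhs => rw [← tsum_geo]
    apply tsum_congr
    intro a
    rw [← ENNReal.tsum_add]
    apply tsum_congr
    intro b
    unfold cnt
    by_cases ha : a = 0
    · by_cases hb : b = 0
      · subst ha; subst hb
        simp only [and_self, if_true]
        have : (2⁻¹ : ENNReal) ^ (0 + 0 + 2 + 1) = 2 * (2⁻¹ : ENNReal) ^ 4 := by
          rw [pow_succ' _ 3, ← mul_assoc, ENNReal.mul_inv_cancel (by norm_num) (by norm_num), one_mul]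
        rw [this, two_mul]
      · simp [ha, hb]
    · simp [ha]
  have hfin : (2⁻¹ : ENNReal) ≠ ⊤ := by simp
  have hfin2 : (∑' a : ℕ, ∑' b : ℕ, (2⁻¹ : ENNReal) ^ (cnt a b + 1)) ≠ ⊤ := by
    intro h
    rw [h, top_add] at key
    exact hfin key.symm
  calc _ < (∑' a : ℕ, ∑' b : ℕ, (2⁻¹ : ENNReal) ^ (cnt a b + 1)) + (2⁻¹ : ENNReal) ^ 4 := by
        apply ENNReal.lt_add_right hfin2
        simp
    _ = _ := key

theorem mu_compl : 0 < μ solvᶜ := by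
  rw [pos_iff_ne_zero]
  intro h
  have h1 : μ Set.univ = 1 := measure_univ
  have h2 : (Set.univ : Set (ℕ → Bool)) ⊆
      solvᶜ ∪ ({W | W 0 = true} ∪ ⋃ a : ℕ, ⋃ b : ℕ, bad a b) := by
    intro W _
    by_cases hW : W ∈ solv
    · exact Or.inr (solv_subset hW)
    · exact Or.inl hW
  have h3 : μ (⋃ a : ℕ, ⋃ b : ℕ, bad a b) < 2⁻¹ := by
    calc μ (⋃ a : ℕ, ⋃ b : ℕ, bad a b) ≤ ∑' a : ℕ, μ (⋃ b : ℕ, bad a b) := measure_iUnion_le _
      _ ≤ ∑' a : ℕ, ∑' b : ℕ, μ (bad a b) := ENNReal.tsum_le_tsum fun a => measure_iUnion_le _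
      _ = ∑' a : ℕ, ∑' b : ℕ, (2⁻¹ : ENNReal) ^ (cnt a b + 1) := by simp_rw [mu_bad]
      _ < 2⁻¹ := tsum_bad
  have h4 : μ Set.univ < 1 := by
    calc μ Set.univ ≤ μ (solvᶜ ∪ ({W | W 0 = true} ∪ ⋃ a : ℕ, ⋃ b : ℕ, bad a b)) := measure_mono h2
      _ ≤ μ solvᶜ + μ ({W | W 0 = true} ∪ ⋃ a : ℕ, ⋃ b : ℕ, bad a b) := measure_union_le _ _
      _ ≤ 0 + (μ {W | W 0 = true} + μ (⋃ a : ℕ, ⋃ b : ℕ, bad a b)) := by
          rw [h]; gcongr; exact measure_union_le _ _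
      _ < 0 + (2⁻¹ + 2⁻¹) := by
          rw [mu_zero, zero_add, zero_add]
          exact ENNReal.add_lt_add_left (by simp) h3
      _ = 1 := by rw [zero_add, ENNReal.inv_two_add_inv_two]
  rw [h1] at h4
  exact lt_irrefl _ h4

/-! ### Density -/

theorem exists_sol (B : ℕ) : ∃ x : Fin 8 → ℚ, (∀ i : Fin 8, ∀ q : ℕ, q < B → q.Prime →
    ¬ q ∣ (x i).den) ∧ MvPolynomial.aeval x poly = 0 := by
  obtain ⟨n, hn, hker⟩ := exists_ker_all (max B 3)
  set R : Pt := n • P0 with hR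
  have hk2 : Ker 2 R := hker 2 (by omega) Nat.prime_two
  have hs0 : R.s ≠ 0 := by
    have hev : Even (n : ℤ) := by
      by_contra hcon
      rw [Int.not_even_iff_odd] at hcon
      apply odd_not_ker hcon
      rw [natCast_zsmul]; exact hk2
    obtain ⟨k, hk⟩ : ∃ k : ℕ, n = 2 * k := ⟨n / 2, by have := Int.even_iff.1 hev; omega⟩
    have e : R = k • Q0 := by
      rw [hR, hk, mul_comm, mul_smul, two_smul]; rfl
    rw [e]
    exact (good_Q0.nsmul (by rintro rfl; omega)).2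
  set M : ℤ := R.s.num with hM
  have hM0 : M ≠ 0 := by rw [hM, Ne, Rat.num_eq_zero]; exact hs0
  obtain ⟨a, b, c, d, habcd⟩ := Nat.sum_four_squares (M.natAbs ^ 2 - 1)
  have hM1 : 1 ≤ M.natAbs ^ 2 := Nat.one_le_pow _ _ (Int.natAbs_pos.2 hM0)
  have hsq : (1 : ℚ) + a ^ 2 + b ^ 2 + c ^ 2 + d ^ 2 = (M : ℚ) ^ 2 := by
    have h1 : 1 + a ^ 2 + b ^ 2 + c ^ 2 + d ^ 2 = M.natAbs ^ 2 := by omega
    have h2 : ((1 + a ^ 2 + b ^ 2 + c ^ 2 + d ^ 2 : ℕ) : ℤ) = M ^ 2 := by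
      rw [h1]; push_cast; exact sq_abs M
    exact_mod_cast h2
  refine ⟨![R.s, R.t, 1 / (1 + 2 * R.s ^ 2), (M : ℚ) * (R.s.den : ℚ), a, b, c, d], ?_, ?_⟩
  · intro i q hq hqp
    have : Fact q.Prime := ⟨hqp⟩
    have hkq : Ker q R := hker q (by omega) hqp
    rw [← nm_le_one_iff]
    have hnat : ∀ m : ℕ, padicNorm q (m : ℚ) ≤ 1 := fun m => padicNorm.of_nat m
    fin_cases i
    · exact hkq.le
    · exact hkq.t.le
    · show padicNorm q (1 / (1 + 2 * R.s ^ 2)) ≤ 1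
      rw [padicNorm.div, padicNorm.one,
        nm_one_add (nm_mul_lt nm_two_le (nm_pow_lt hkq (by norm_num))), div_one]
    · exact nm_mul_le (nm_int _) (hnat _)
    · exact hnat a
    · exact hnat b
    · exact hnat c
    · exact hnat d
  · rw [aeval_poly]
    have hden : (1 + 2 * R.s ^ 2) ≠ 0 := by positivity
    have hN : (R.s.den : ℚ) ≠ 0 := by exact_mod_cast R.s.den_nz
    have e1 : R.t ^ 2 - 1 + 2 * R.s ^ 2 + 4 * R.s ^ 4 = 0 := by rw [R.h]; ring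
    have e2 : (1 + 2 * R.s ^ 2) * (1 / (1 + 2 * R.s ^ 2)) - 1 = 0 := by
      rw [mul_one_div_cancel hden, sub_self]
    have e3 : R.s * ((M : ℚ) * (R.s.den : ℚ)) - 1 - (a : ℚ) ^ 2 - b ^ 2 - c ^ 2 - d ^ 2 = 0 := by
      have h1 : R.s * ((M : ℚ) * (R.s.den : ℚ)) = (M : ℚ) ^ 2 := by
        have : R.s * (R.s.den : ℚ) = M := Rat.mul_den_eq_num R.s
        rw [mul_left_comm, this]; ring
      rw [h1, ← hsq]; ring
    show (R.t ^ 2 - 1 + 2 * R.s ^ 2 + 4 * R.s ^ 4) ^ 2 +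
      ((1 + 2 * R.s ^ 2) * (1 / (1 + 2 * R.s ^ 2)) - 1) ^ 2 +
      (R.s * ((M : ℚ) * (R.s.den : ℚ)) - 1 - (a : ℚ) ^ 2 - (b : ℚ) ^ 2 - (c : ℚ) ^ 2 - (d : ℚ) ^ 2) ^ 2 = 0
    rw [e1, e2, e3]; norm_num

theorem dense_solv (W0 : ℕ → Bool) : W0 ∈ closure solv := by
  have hlim : Filter.Tendsto (fun k : ℕ => (fun i : ℕ => if i < k then W0 i else true))
      Filter.atTop (nhds W0) := by
    rw [tendsto_pi_nhds]
    intro i
    apply tendsto_const_nhds.congr'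
    filter_upwards [Filter.eventually_gt_atTop i] with k hk
    simp [hk]
  apply mem_closure_of_tendsto hlim
  apply Filter.Eventually.of_forall
  intro k
  obtain ⟨x, hx, h0⟩ := exists_sol (Nat.nth Nat.Prime k)
  refine ⟨x, ?_, h0⟩
  intro i j hj
  by_cases hjk : j < k
  · exfalso
    exact hx i (Nat.nth Nat.Prime j) (Nat.nth_strictMono Nat.infinite_setOfPred_prime hjk)
      (Nat.nth_mem_of_infinite Nat.infinite_setOfPred_prime j) hj
  · simp [hjk]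

/-- Some integer polynomial f exists such that, identifying subrings of Q with sets of primes (Cantor space, fair-coin measure), the boundary of the set of subrings where f has no solution has positive measure. -/
theorem result :
    ∃ n : ℕ, ∃ f : MvPolynomial (Fin n) ℤ,
      0 < (MeasureTheory.Measure.infinitePi
            (fun _ : ℕ => (PMF.uniformOfFintype Bool).toMeasure))
          (frontier ({W : ℕ → Bool | ∃ x : Fin n → ℚ,
              (∀ i : Fin n, ∀ k : ℕ, Nat.nth Nat.Prime k ∣ (x i).den → W k = true) ∧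
              MvPolynomial.aeval x f = 0}ᶜ)) := by
  refine ⟨8, poly, ?_⟩
  show 0 < μ (frontier solvᶜ)
  refine lt_of_lt_of_le mu_compl (measure_mono ?_)
  intro W hW
  rw [frontier_compl, frontier_eq_closure_inter_closure]
  exact ⟨dense_solv W, subset_closure hW⟩

end Pool.Agent.S10459
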