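import Pool.Statements.S10461
import Pool.Agent.H656R2.AS.Complete
-- import your own Pool.Agent.* helpers here

set_option autoImplicit false
open Pool Pool.MP_b0758d_lc

namespace Pool.Agent.S10461

/-- Over some finite alphabet there is a context-free language whose complement is infinite and contains no word having a factor xy with x nonempty and y a rearrangement of x. -/
theorem result :
    ∃ k : ℕ, ∃ L : Language (Fin k),
      Language.IsContextFree L ∧
      Set.Infinite {w : List (Fin k) | w ∉ L} ∧
      ∀ w : List (Fin k), w ∉ L →
        ∀ u x y v : List (Fin k), w = u ++ x ++ y ++ v → x ≠ [] → ¬ List.Perm x y := by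
  refine ⟨24, Pool.Agent.H656R2.AS.Lg, Pool.Agent.H656R2.AS.cf_Lg, ?_, ?_⟩
  · refine Set.infinite_of_injective_forall_mem (f := Pool.Agent.H656R2.AS.W) ?_
      (fun n => Pool.Agent.H656R2.AS.sound n)
    have hmono : StrictMono (fun n => (Pool.Agent.H656R2.AS.W n).length) := by
      apply strictMono_nat_of_lt_succ
      intro n
      have h1 : Pool.Agent.H656R2.AS.W (n + 1) =
        Pool.Agent.H656R2.AS.W n ++ Pool.Agent.H656R2.AS.cb n := rfl
      have h2 := List.length_pos_iff.2 (Pool.Agent.H656R2.AS.cb_ne_nil n)
      show _ < (Pool.Agent.H656R2.AS.W (n + 1)).length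
      rw [h1, List.length_append]
      omega
    intro a b hab
    exact hmono.injective (congrArg List.length hab)
  · intro w hw
    obtain ⟨N, t, hN⟩ := Pool.Agent.H656R2.AS.complete w hw
    exact (Pool.Agent.H656R2.AS.AF_W N).factor (a := []) (b := t) (by simpa using hN)

end Pool.Agent.S10461
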