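import Pool.Statements.S10487
-- import your own Pool.Agent.* helpers here
import Pool.Agent.H561R2.VSpaceMain

set_option autoImplicit false
open Pool Pool.MP_b75d2f_lc

namespace Pool.Agent.S10487

/-- There is a constant c such that every CNF in n variables with a resolution refutation in variable space V also has a resolution refutation of depth at most (V·(log₂ n + 1))^c. -/
theorem result :
  ∃ c : ℕ, ∀ (n V : ℕ) (F : Finset (Finset (Fin n × Bool))),
    (∀ i : Fin n, ∃ C ∈ F, ∃ b : Bool, (i, b) ∈ C) →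
    (∃ (t : ℕ) (M : ℕ → Finset (Finset (Fin n × Bool))),
      M 0 = ∅ ∧ ∅ ∈ M t ∧
      (∀ i < t,
        (∃ C ∈ F, M (i + 1) = insert C (M i)) ∨
        (∃ C ∈ M i, M (i + 1) = (M i).erase C) ∨
        (∃ C₁ ∈ M i, ∃ C₂ ∈ M i, ∃ x : Fin n, (x, true) ∈ C₁ ∧ (x, false) ∈ C₂ ∧
          M (i + 1) = insert (C₁.erase (x, true) ∪ C₂.erase (x, false)) (M i))) ∧
      ∀ i ≤ t, (((M i).biUnion id).image Prod.fst).card ≤ V) →
    ∃ (D : ℕ) (S : ℕ → Set (Finset (Fin n × Bool))),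
      S 0 = (↑F : Set (Finset (Fin n × Bool))) ∧
      (∀ (k : ℕ) (C : Finset (Fin n × Bool)), C ∈ S (k + 1) ↔
        (C ∈ S k ∨ ∃ C₁ ∈ S k, ∃ C₂ ∈ S k, ∃ x : Fin n, (x, true) ∈ C₁ ∧ (x, false) ∈ C₂ ∧
          C = C₁.erase (x, true) ∪ C₂.erase (x, false))) ∧
      (∅ : Finset (Fin n × Bool)) ∈ S D ∧ D ≤ (V * (Nat.log 2 n + 1)) ^ c := by
  classical
  refine ⟨6, ?_⟩
  intro n V F _ hM
  obtain ⟨t, M, h0, ht, hstep, hV⟩ := hM
  have hstep' : ∀ i < t, Pool.Agent.H561R2.VS.Step F (M i) (M (i + 1)) := by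
    intro i hi
    exact hstep i hi
  have hV' : ∀ i ≤ t, (Pool.Agent.H561R2.VS.vars (M i)).card ≤ V := hV
  -- reduce to `Der`
  suffices hD : ∃ D, D ≤ (V * (Nat.log 2 n + 1)) ^ 6 ∧ Pool.Agent.H561R2.VS.Der F D ∅ by
    obtain ⟨D, hle, C', hC', hsub⟩ := hD
    have hC0 : C' = ∅ := Finset.subset_empty.1 hsub
    subst hC0
    exact ⟨D, Pool.Agent.H561R2.VS.lev F, rfl, fun k C => Iff.rfl, hC', hle⟩
  have hb := Pool.Agent.H561R2.VS.depth_bound F M t V h0 ht hstep' hV'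
  have hn := Pool.Agent.H561R2.VS.depth_le_n F M t h0 ht hstep'
  rcases Nat.eq_zero_or_pos V with hV0 | hVpos
  · subst hV0
    refine ⟨0, Nat.zero_le _, ?_⟩
    simpa using hb
  · rcases Nat.lt_or_ge n 2 with hn2 | hn2
    · refine ⟨n, ?_, hn⟩
      have : 1 ≤ (V * (Nat.log 2 n + 1)) ^ 6 := Nat.one_le_pow _ _ (by positivity)
      omega
    · refine ⟨_, ?_, hb⟩
      have hL : 2 ≤ Nat.log 2 n + 1 := by
        have : 1 ≤ Nat.log 2 n := Nat.le_log_of_pow_le (by norm_num) (by simpa using hn2)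
        omega
      generalize Nat.log 2 n + 1 = L at hL
      have hx : 2 ≤ V * L := by nlinarith
      have hVx : V ≤ V * L := by nlinarith
      have hcomm : L * V = V * L := mul_comm _ _
      rw [hcomm]
      generalize V * L = x at hx hVx
      have h1 : (x + 1) * ((x + V + 2) * V) + V ≤ (x + 1) * ((x + x + 2) * x) + x := by
        gcongr
      refine h1.trans ?_
      have h8 : 8 ≤ x ^ 3 := by
        calc 8 = 2 ^ 3 := by norm_num
          _ ≤ x ^ 3 := Nat.pow_le_pow_left hx 3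
      have h6 : x ^ 6 = x ^ 3 * x ^ 3 := by ring
      rw [h6]
      have h9 : 8 * x ^ 3 ≤ x ^ 3 * x ^ 3 := Nat.mul_le_mul_right _ h8
      refine le_trans ?_ h9
      obtain ⟨y, rfl⟩ : ∃ y, x = y + 2 := ⟨x - 2, by omega⟩
      ring_nf
      nlinarith [Nat.zero_le y, Nat.zero_le (y^2), Nat.zero_le (y^3)]

end Pool.Agent.S10487
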