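import Pool.Statements.S10537
import Pool.Agent.H653R2.Quot

set_option autoImplicit false
open Pool Pool.MP_c39e9e_lc

namespace Pool.Agent.S10537

/-- There is a family of ideals on the subsets of ℤ, indexed by a set of size 2^continuum, such that for distinct indices the quotient Boolean algebras P(ℤ)/I are not isomorphic. -/
theorem result :
    ∃ F : Set (Set ℕ) → Order.Ideal (Set ℤ),
      ∀ a b : Set (Set ℕ), a ≠ b →
        ¬ ∃ f : Set ℤ → Set ℤ,
          (∀ A B : Set ℤ, symmDiff A B ∈ F a ↔ symmDiff (f A) (f B) ∈ F b) ∧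
          (∀ C : Set ℤ, ∃ A : Set ℤ, symmDiff (f A) C ∈ F b) ∧
          (∀ A B : Set ℤ, symmDiff (f (A ∩ B)) (f A ∩ f B) ∈ F b) ∧
          (∀ A : Set ℤ, symmDiff (f Aᶜ) (f A)ᶜ ∈ F b) := by
  classical
  obtain ⟨U, hU1, hU2⟩ := Helper290.Ultra.exists_ultrafilters ℕ
  let ε : Helper290.Ultra.Idx ℕ ≃ ℕ := Denumerable.eqv _
  let V : Set (Set ℕ) → Ultrafilter ℕ := fun J => (U J).map ε
  have hV1 : Function.Injective V := by
    intro J J' h
    apply hU1
    have := congrArg (Ultrafilter.map ε.symm) h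
    simpa [V, Ultrafilter.map_map] using this
  have hV2 : ∀ J x, {x} ∉ V J := by
    intro J x hx
    apply hU2 J (ε.symm x)
    have : ε ⁻¹' {x} ∈ U J := hx
    have h2 : ε ⁻¹' {x} = {ε.symm x} := by
      ext y; simp [Equiv.eq_symm_apply]
    rwa [h2] at this
  let st : Setoid (Set (Set ℕ)) :=
    { r := fun J J' => ∃ σ : Equiv.Perm ℕ, V J' = (V J).map σ
      iseqv := by
        refine ⟨fun J => ⟨Equiv.refl ℕ, ?_⟩, ?_, ?_⟩
        · simp
        · rintro J J' ⟨σ, h⟩
          refine ⟨σ.symm, ?_⟩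
          rw [h, Ultrafilter.map_map]
          simp
        · rintro J J' J'' ⟨σ, h⟩ ⟨τ, h'⟩
          refine ⟨σ.trans τ, ?_⟩
          rw [h', h, Ultrafilter.map_map]
          rfl }
  have hcard : Cardinal.mk (Set (Set ℕ)) ≤ Cardinal.mk (Quotient st) := by
    refine H653R2.Quot.le_card_of_fibres (fun J => Quotient.mk st J) Cardinal.continuum ?_ ?_ ?_
    · exact Cardinal.aleph0_le_mk _
    · rw [Cardinal.mk_set, Cardinal.mk_set, Cardinal.mk_nat, Cardinal.two_power_aleph0]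
      exact Cardinal.cantor _
    · intro J
      have h1 : Cardinal.mk (ℕ → ℕ) = Cardinal.continuum := by
        rw [← Cardinal.power_def, Cardinal.mk_nat]
        exact Cardinal.aleph0_power_aleph0
      rw [← h1]
      have hch : ∀ y : {y // Quotient.mk st y = Quotient.mk st J}, ∃ σ : ℕ → ℕ, V J = (V y.1).map σ := by
        intro y
        obtain ⟨σ, hσ⟩ : ∃ σ : Equiv.Perm ℕ, V J = (V y.1).map σ := Quotient.exact y.2
        exact ⟨σ, hσ⟩
      have hch' : ∀ y : {y // Quotient.mk st y = Quotient.mk st J}, ∃ σ : ℕ → ℕ, V y.1 = (V J).map σ := by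
        intro y
        obtain ⟨σ, hσ⟩ : ∃ σ : Equiv.Perm ℕ, V y.1 = (V J).map σ := Quotient.exact y.2.symm
        exact ⟨σ, hσ⟩
      choose g hg using hch'
      refine Cardinal.mk_le_of_injective (f := g) (fun y z hyz => ?_)
      apply Subtype.ext
      apply hV1
      rw [hg y, hg z, hyz]
  obtain ⟨ι⟩ : Nonempty (Set (Set ℕ) ↪ Quotient st) := hcard
  refine ⟨fun J => H653R2.Quot.idl (V ∅) (V (ι J).out), ?_⟩
  rintro a b hab ⟨f, h1, h2, h3, -⟩
  obtain ⟨σ, hσ⟩ := H653R2.Quot.main (V ∅) _ _ (hV2 _) (hV2 _) (hV2 _) f h1 h2 h3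
  apply hab
  apply ι.injective
  rw [← Quotient.out_eq (ι a), ← Quotient.out_eq (ι b)]
  exact Quotient.sound ⟨σ, hσ⟩

end Pool.Agent.S10537
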