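import Pool.Statements.S10543
import Pool.Agent.H647R2.FSigma

set_option autoImplicit false
open Pool Pool.MP_c49eb4_lc

namespace Pool.Agent.S10543

/-- Take any group in bijection with the reals whose multiplication graph in R^3 is a countable union of closed sets. If every subgroup generated by fewer than aleph_omega elements is free, then the whole group is free. -/
theorem result :
    ∀ (G : Type) [Group G] (e : G ≃ ℝ),
      (∃ F : ℕ → Set (ℝ × ℝ × ℝ), (∀ n, IsClosed (F n)) ∧
        {p : ℝ × ℝ × ℝ | e.symm p.1 * e.symm p.2.1 = e.symm p.2.2} = ⋃ n, F n) →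
      (∀ S : Set G, Cardinal.mk S < Cardinal.aleph Ordinal.omega0 →
        IsFreeGroup (Subgroup.closure S)) →
      IsFreeGroup G := by
  intro G _ e hF hfree
  obtain ⟨F, hFc, hFU⟩ := hF
  obtain ⟨S, hS, hnot⟩ := Pool.Agent.H647R2.FSigma.not_free_of_FSigma e hFc hFU
  exact absurd (hfree S (by
    rw [hS]
    exact Cardinal.aleph_lt_aleph.2 Ordinal.one_lt_omega0)) hnot

end Pool.Agent.S10543
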