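import Pool.Statements.S10598
import Pool.Agent.H615R2.Tri.Main

set_option autoImplicit false
open Pool Pool.MP_d3d6ea_lc

namespace Pool.Agent.S10598

/-- The negation of the preceding statement: It is computable, given a finite list of polynomials in ℚ[x_0,x_1,…] with integer coefficients in an explicit encoding, whether the ideal they generate contains a nonzero polynomial with at most three terms. -/
theorem result :
    ¬ (ComputablePred (fun L : List (List (List ℕ × ℕ × ℕ)) =>
      ∃ f ∈ Ideal.span {q : MvPolynomial ℕ ℚ | q ∈ L.map (fun p =>
          (p.map (fun t => MvPolynomial.C ((t.2.1 : ℚ) - (t.2.2 : ℚ)) *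
            (t.1.map (MvPolynomial.X : ℕ → MvPolynomial ℕ ℚ)).prod)).sum)},
        f ≠ 0 ∧ f.support.card ≤ 3)) := by
  exact Pool.Agent.H615R2.Tri.main

end Pool.Agent.S10598
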