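import Pool.Statements.S10606
import Pool.Agent.H571R3.Asm

set_option autoImplicit false
open Pool Pool.MP_d4e2f9_lc

namespace Pool.Agent.S10606

/-- The negation of the preceding statement: For every ε>0, for all large n, every non-constant monotone Boolean function on n variables whose symmetry group is transitive on variables needs decision-tree depth at least n^(1-ε). -/
theorem result :
    ¬ (∀ ε : ℝ, 0 < ε → ∃ N : ℕ, ∀ n : ℕ, N ≤ n →
      ∀ f : (Fin n → Bool) → Bool,
        Monotone f →
        (∃ x y : Fin n → Bool, f x ≠ f y) →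
        (∀ i j : Fin n, ∃ σ : Equiv.Perm (Fin n), σ i = j ∧
            ∀ x : Fin n → Bool, f (x ∘ σ) = f x) →
        ∀ (d : ℕ) (Q : List Bool → Fin n),
          (∀ x y : Fin n → Bool, ∀ p : ℕ → Fin n,
              (∀ k : ℕ, k < d → p k = Q (List.ofFn (fun j : Fin k => x (p j.val)))) →
              (∀ k : ℕ, k < d → x (p k) = y (p k)) →
              f x = f y) →
          (n : ℝ) ^ (1 - ε) ≤ (d : ℝ)) := by
  obtain ⟨W, hW, f, T, hm, hnc, htr, hT, hd⟩ := Pool.Agent.H571R3.Asm.exists_nonevasive
  exact Pool.Agent.H128R2.Evas.final f hm hnc htr T hT hd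

end Pool.Agent.S10606
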