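import Pool.Statements.S10626
-- import your own Pool.Agent.* helpers here
import Pool.Agent.H626R2.LowReal

set_option autoImplicit false
open Pool Pool.MP_d6e56f_lc

namespace Pool.Agent.S10626

open Pool.Agent.H626R2.Low Pool.Agent.H626R2.LowReal Pool.Agent.H626R2.IntPrim
open Pool.Agent.Helper67.BN (seg ci_comp ci_pair ci_comp₂ ci_compC ci_fst ci_snd ci_nat_rec
  computable_of_ci cand cor cnot ceqN clt cle cadd csub cmul cconst ccond cunl cunr)

/-- The group `ℤ × ℤ`, written multiplicatively; it is ordered by the values `x + y * al`. -/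
def GG : Type := Multiplicative (ℤ × ℤ)

instance : Group GG := inferInstanceAs (Group (Multiplicative (ℤ × ℤ)))

/-- coordinates -/
def toP (z : GG) : ℤ × ℤ := Multiplicative.toAdd z
/-- element with given coordinates -/
def ofP (z : ℤ × ℤ) : GG := Multiplicative.ofAdd z

theorem toP_ofP (z : ℤ × ℤ) : toP (ofP z) = z := rfl
theorem ofP_toP (z : GG) : ofP (toP z) = z := rfl
theorem toP_mul (a b : GG) : toP (a * b) = ((toP a).1 + (toP b).1, (toP a).2 + (toP b).2) := rfl
theorem toP_one : toP 1 = (0, 0) := rfl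

/-- the value of an element -/
noncomputable def val (z : GG) : ℝ := ((toP z).1 : ℝ) + ((toP z).2 : ℝ) * al

theorem val_mul (a b : GG) : val (a * b) = val a + val b := by
  unfold val
  rw [toP_mul]
  push_cast
  ring

theorem val_inj : Function.Injective val := by
  intro a b h
  unfold val at h
  have h1 : (((toP a).1 - (toP b).1 : ℤ) : ℝ) + (((toP a).2 - (toP b).2 : ℤ) : ℝ) * al = 0 := by
    push_cast
    linarith
  have h2 := irr h1
  have h3 : toP a = toP b := Prod.ext (by omega) (by omega)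
  rw [← ofP_toP a, h3, ofP_toP]

noncomputable instance : LinearOrder GG := LinearOrder.lift' val val_inj

theorem le_iff (a b : GG) : a ≤ b ↔ val a ≤ val b := Iff.rfl

/-- the presentation -/
def nu : ℕ ≃ GG where
  toFun n := ofP (Denumerable.ofNat ℤ n.unpair.1, Denumerable.ofNat ℤ n.unpair.2)
  invFun z := Nat.pair (Encodable.encode (toP z).1) (Encodable.encode (toP z).2)
  left_inv n := by
    show Nat.pair (Encodable.encode (Denumerable.ofNat ℤ n.unpair.1))
      (Encodable.encode (Denumerable.ofNat ℤ n.unpair.2)) = n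
    rw [Denumerable.encode_ofNat, Denumerable.encode_ofNat, Nat.pair_unpair]
  right_inv z := by
    show ofP (Denumerable.ofNat ℤ (Nat.unpair (Nat.pair (Encodable.encode (toP z).1)
      (Encodable.encode (toP z).2))).1, Denumerable.ofNat ℤ (Nat.unpair (Nat.pair
      (Encodable.encode (toP z).1) (Encodable.encode (toP z).2))).2) = z
    rw [Nat.unpair_pair, Denumerable.ofNat_encode, Denumerable.ofNat_encode]
    rfl

theorem toP_nu (n : ℕ) : toP (nu n) =
    (Denumerable.ofNat ℤ n.unpair.1, Denumerable.ofNat ℤ n.unpair.2) := rfl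
theorem nu_symm (z : GG) : nu.symm z =
    Nat.pair (Encodable.encode (toP z).1) (Encodable.encode (toP z).2) := rfl

theorem nu_mul : Computable₂ (fun m n : ℕ => nu.symm (nu m * nu n)) := by
  have h : Primrec₂ (fun m n : ℕ => nu.symm (nu m * nu n)) := by
    have e : (fun m n : ℕ => nu.symm (nu m * nu n)) = fun m n : ℕ =>
        Nat.pair (Encodable.encode (Denumerable.ofNat ℤ m.unpair.1 + Denumerable.ofNat ℤ n.unpair.1))
          (Encodable.encode (Denumerable.ofNat ℤ m.unpair.2 + Denumerable.ofNat ℤ n.unpair.2)) := by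
      funext m n
      rw [nu_symm, toP_mul, toP_nu, toP_nu]
    rw [e]
    have h1 : Primrec fun p : ℕ × ℕ => Denumerable.ofNat ℤ p.1.unpair.1 :=
      (Primrec.ofNat ℤ).comp (Primrec.fst.comp (Primrec.unpair.comp Primrec.fst))
    have h2 : Primrec fun p : ℕ × ℕ => Denumerable.ofNat ℤ p.2.unpair.1 :=
      (Primrec.ofNat ℤ).comp (Primrec.fst.comp (Primrec.unpair.comp Primrec.snd))
    have h3 : Primrec fun p : ℕ × ℕ => Denumerable.ofNat ℤ p.1.unpair.2 :=
      (Primrec.ofNat ℤ).comp (Primrec.snd.comp (Primrec.unpair.comp Primrec.fst))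
    have h4 : Primrec fun p : ℕ × ℕ => Denumerable.ofNat ℤ p.2.unpair.2 :=
      (Primrec.ofNat ℤ).comp (Primrec.snd.comp (Primrec.unpair.comp Primrec.snd))
    exact Primrec₂.natPair.comp (Primrec.encode.comp (prim_int_add.comp h1 h2))
      (Primrec.encode.comp (prim_int_add.comp h3 h4))
  exact h.to_comp

/-- the approximations to the order -/
def DD (σ : List ℕ) (k : ℕ) : Option ℕ :=
  sgn (Denumerable.ofNat ℤ (Nat.unpair (Nat.unpair k).2).1 -
      Denumerable.ofNat ℤ (Nat.unpair (Nat.unpair k).1).1)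
    (Denumerable.ofNat ℤ (Nat.unpair (Nat.unpair k).2).2 -
      Denumerable.ofNat ℤ (Nat.unpair (Nat.unpair k).1).2) σ

theorem cofNat {α : Type} [Primcodable α] {O : Set (ℕ →. ℕ)} {f : α → ℕ}
    (hf : ComputableIn O f) : ComputableIn O fun a => Denumerable.ofNat ℤ (f a) :=
  ci_compC (Primrec.ofNat ℤ).to_comp hf

theorem cDD : Computable₂ DD := by
  apply computable_of_ci (f := fun p : List ℕ × ℕ => DD p.1 p.2)
  have hk : ComputableIn ∅ fun p : List ℕ × ℕ => p.2 := ci_snd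
  exact csgn (cint_sub (cofNat (cunl (cunr hk))) (cofNat (cunl (cunl hk))))
    (cint_sub (cofNat (cunr (cunr hk))) (cofNat (cunr (cunl hk)))) ci_fst

theorem DD_total (k : ℕ) : ∃ n, DD (seg A n) k =
    some (if nu (Nat.unpair k).1 ≤ nu (Nat.unpair k).2 then 1 else 0) := by
  classical
  obtain ⟨n, hn⟩ := sgn_total (Denumerable.ofNat ℤ (Nat.unpair (Nat.unpair k).2).1 -
      Denumerable.ofNat ℤ (Nat.unpair (Nat.unpair k).1).1)
    (Denumerable.ofNat ℤ (Nat.unpair (Nat.unpair k).2).2 -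
      Denumerable.ofNat ℤ (Nat.unpair (Nat.unpair k).1).2)
  refine ⟨n, ?_⟩
  unfold DD
  rw [hn]
  congr 1
  have h : (0 ≤ ((Denumerable.ofNat ℤ (Nat.unpair (Nat.unpair k).2).1 -
      Denumerable.ofNat ℤ (Nat.unpair (Nat.unpair k).1).1 : ℤ) : ℝ) +
      ((Denumerable.ofNat ℤ (Nat.unpair (Nat.unpair k).2).2 -
      Denumerable.ofNat ℤ (Nat.unpair (Nat.unpair k).1).2 : ℤ) : ℝ) * al) ↔
      nu (Nat.unpair k).1 ≤ nu (Nat.unpair k).2 := by
    rw [le_iff]
    unfold val
    rw [toP_nu, toP_nu]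
    push_cast
    constructor <;> intro h <;> linarith
  by_cases h1 : nu (Nat.unpair k).1 ≤ nu (Nat.unpair k).2
  · rw [if_pos h1, if_pos (h.2 h1)]
  · rw [if_neg h1, if_neg (fun h2 => h1 (h.1 h2))]

theorem nu_low (S : Set ℕ)
    (hS : ∃ f : ℕ →. ℕ,
          TuringReducible f
            (fun k : ℕ => Part.some
              (if nu (Nat.unpair k).1 ≤ nu (Nat.unpair k).2 then 1 else 0 : ℕ)) ∧
          ∀ n : ℕ, n ∈ S ↔ (f n).Dom) :
        ∃ g : ℕ → ℕ → Bool, Computable₂ g ∧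
          ∀ n : ℕ, ∀ᶠ s in Filter.atTop, (g n s = true ↔ n ∈ S) := by
  obtain ⟨f, hf, hS⟩ := hS
  obtain ⟨g, hg, h⟩ := low DD cDD (fun σ τ k v hst hv => sgn_mono _ _ hst hv)
    (fun k => if nu (Nat.unpair k).1 ≤ nu (Nat.unpair k).2 then 1 else 0) DD_total f
    (RecursiveIn.iff_nat.1 hf)
  refine ⟨g, hg, fun n => ?_⟩
  filter_upwards [h n] with s hs
  rw [hS, hs]

/-- powers in a presentation -/
def pw (mul : ℕ → ℕ → ℕ) (e g : ℕ) (n : ℕ) : ℕ :=
  Nat.rec (motive := fun _ => ℕ) e (fun _ r => mul r g) n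

theorem pw_zero (mul : ℕ → ℕ → ℕ) (e g : ℕ) : pw mul e g 0 = e := rfl
theorem pw_succ (mul : ℕ → ℕ → ℕ) (e g n : ℕ) : pw mul e g (n + 1) = mul (pw mul e g n) g := rfl

theorem cpw {mul : ℕ → ℕ → ℕ} (hm : Computable₂ mul) (e g : ℕ) :
    ComputableIn ∅ (pw mul e g) := by
  have h1 : ComputableIn ∅ fun p : ℕ × (ℕ × ℕ) => mul p.2.2 g :=
    ci_comp₂ hm (ci_comp (f := fun q : ℕ × ℕ => q.2) ci_snd ci_snd) (cconst g)
  exact ci_nat_rec (f := fun n : ℕ => n) (g := fun _ => e)
    (h := fun (_ : ℕ) (p : ℕ × ℕ) => mul p.2 g) ComputableIn.id (cconst e) h1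

theorem result :
    ¬ (∀ (G : Type) [Group G] [LinearOrder G] (ν : ℕ ≃ G),
      (∀ a b c : G, a ≤ b → c * a ≤ c * b ∧ a * c ≤ b * c) →
      Computable₂ (fun m n : ℕ => ν.symm (ν m * ν n)) →
      (∀ S : Set ℕ,
        (∃ f : ℕ →. ℕ,
          TuringReducible f
            (fun k : ℕ => Part.some
              (if ν (Nat.unpair k).1 ≤ ν (Nat.unpair k).2 then 1 else 0 : ℕ)) ∧
          ∀ n : ℕ, n ∈ S ↔ (f n).Dom) →
        ∃ g : ℕ → ℕ → Bool, Computable₂ g ∧
          ∀ n : ℕ, ∀ᶠ s in Filter.atTop, (g n s = true ↔ n ∈ S)) →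
      ∃ μ : ℕ ≃ G,
        Computable₂ (fun m n : ℕ => μ.symm (μ m * μ n)) ∧
        ComputablePred (fun p : ℕ × ℕ => μ p.1 ≤ μ p.2)) := by
  intro H
  obtain ⟨μ, hμ, hle⟩ := H GG nu (by
    intro a b c h
    rw [le_iff] at h ⊢
    rw [le_iff, val_mul, val_mul, val_mul, val_mul]
    constructor <;> linarith) nu_mul nu_low
  obtain ⟨hdec, hle⟩ := hle
  -- powers
  obtain ⟨pw1, hpw1, h1⟩ : ∃ p : ℕ → ℕ, ComputableIn ∅ p ∧ ∀ n, μ (p n) = ofP ((n : ℤ), 0) := by
    refine ⟨pw (fun m n : ℕ => μ.symm (μ m * μ n)) (μ.symm 1) (μ.symm (ofP (1, 0))),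
      cpw hμ _ _, fun n => ?_⟩
    induction n with
    | zero => rw [pw_zero, Equiv.apply_symm_apply]; rfl
    | succ n ih =>
      rw [pw_succ, Equiv.apply_symm_apply, Equiv.apply_symm_apply, ih]
      rw [← ofP_toP (ofP _ * ofP _), toP_mul]
      simp [toP_ofP]
  obtain ⟨pw2, hpw2, h2⟩ : ∃ p : ℕ → ℕ, ComputableIn ∅ p ∧ ∀ n, μ (p n) = ofP (0, (n : ℤ)) := by
    refine ⟨pw (fun m n : ℕ => μ.symm (μ m * μ n)) (μ.symm 1) (μ.symm (ofP (0, 1))),
      cpw hμ _ _, fun n => ?_⟩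
    induction n with
    | zero => rw [pw_zero, Equiv.apply_symm_apply]; rfl
    | succ n ih =>
      rw [pw_succ, Equiv.apply_symm_apply, Equiv.apply_symm_apply, ih]
      rw [← ofP_toP (ofP _ * ofP _), toP_mul]
      simp [toP_ofP]
  refine no_comparison (le := fun p q => @decide _ (hdec (pw1 p, pw2 q))) ?_ ?_
  · apply computable_of_ci (f := fun p : ℕ × ℕ => @decide _ (hdec (pw1 p.1, pw2 p.2)))
    exact ci_compC hle (ci_pair (ci_comp hpw1 ci_fst) (ci_comp hpw2 ci_snd))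
  · intro p q
    rw [decide_eq_true_eq]
    show μ (pw1 p) ≤ μ (pw2 q) ↔ _
    rw [h1, h2, le_iff]
    unfold val
    rw [toP_ofP, toP_ofP]
    push_cast
    simp

end Pool.Agent.S10626
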