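import Pool.Statements.S10704
import Pool.Agent.H623R2.Shuf.Source
import Pool.Agent.H623R2.Shuf.Enc

/-!
Non-trivial shuffle decomposability of regular languages is undecidable.

A fixed queue system with undecidable halting problem (Helper522) is encoded in a regular language
`R n = InR mk s t (NN Pr κ (u n))`: words of `R n` contain at most two markers `mk`, a non-trivial
decomposition splits the words with one marker in two sides, words `mk z` and `mk z'` are forced
to lie on the same side if some interleaving of `z` and `z'` is forbidden, and the word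
`mk mk t s` forces `mk s` and `mk t` on different sides. The forbidden words link `s` to the start
configuration, each configuration to its successor, and `t` to the halting configuration.
-/

set_option autoImplicit false
open Pool Pool.MP_ea5d49_lc

namespace Pool.Agent.S10704

open Pool.Agent.H623R2.Shuf Pool.Agent.Helper522.Kos.Queue in
/-- The negation of the preceding statement: There is an algorithm that, given an alphabet size and a finite automaton, decides whether its language equals the shuffle of two languages L1, L2, neither equal to the language containing only the empty word. -/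
theorem result :
    ¬ (ComputablePred (fun p : ℕ × List ℕ × List ℕ =>
      ∃ L₁ L₂ : Set (List (Fin p.1)),
        L₁ ≠ {[]} ∧ L₂ ≠ {[]} ∧
        ∀ w : List (Fin p.1),
          (w.foldl (fun q a => p.2.1.getD (q * p.1 + a.val) 0) 0 ∈ p.2.2) ↔
            ∃ u ∈ L₁, ∃ v ∈ L₂, ∃ m : List Bool, m.length = w.length ∧
              ((w.zip m).filter (fun x => x.2)).map Prod.fst = u ∧
              ((w.zip m).filter (fun x => !x.2)).map Prod.fst = v)) := by
  intro hdec
  obtain ⟨S, iS, dS, Pr, κ, u, hu, hund⟩ := exists_queue
  have fL : Finite (Lt S) := by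
    let f : Lt S → (Unit ⊕ Unit ⊕ Unit) ⊕ Bool ⊕ (Bool × S) := fun x => match x with
      | .mk => .inl (.inl ())
      | .s => .inl (.inr (.inl ()))
      | .t => .inl (.inr (.inr ()))
      | .hash b => .inr (.inl b)
      | .c b a => .inr (.inr (b, a))
    apply Finite.of_injective f
    intro x y h
    cases x <;> cases y <;> simp_all [f]
  let _ : Fintype (Lt S) := Fintype.ofFinite _
  have hc : ∀ g : Lt S → ℕ, Computable fun n => (Lt.s :: cfg false (u n)).map g := by
    intro g
    have h1 := hu (fun a => g (.c false a))
    have h2 : Computable fun n => g .s :: g (.hash false) ::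
        (u n).map (fun a => g (.c false a)) :=
      Computable.list_cons.comp (Computable.const _)
        (Computable.list_cons.comp (Computable.const _) h1)
    refine h2.of_eq (fun n => ?_)
    simp [cfg, Function.comp_def]
  obtain ⟨k, e, T, F, hT, hF, hcode⟩ := exists_code (reg_InR Pr κ) .mk
    (fun n => .s :: cfg false (u n)) (fun n => ⟨_, _, rfl, by simp⟩) hc
  have hcomp : Computable fun n => ((k, T n, F n) : ℕ × List ℕ × List ℕ) :=
    (Computable.const k).pair (hT.pair hF)
  have hred := ComputablePred.computable_of_manyOneReducible
    (p := fun n => (fun p : ℕ × List ℕ × List ℕ =>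
      ∃ L₁ L₂ : Set (List (Fin p.1)),
        L₁ ≠ {[]} ∧ L₂ ≠ {[]} ∧
        ∀ w : List (Fin p.1),
          (w.foldl (fun q a => p.2.1.getD (q * p.1 + a.val) 0) 0 ∈ p.2.2) ↔
            ∃ u ∈ L₁, ∃ v ∈ L₂, ∃ m : List Bool, m.length = w.length ∧
              ((w.zip m).filter (fun x => x.2)).map Prod.fst = u ∧
              ((w.zip m).filter (fun x => !x.2)).map Prod.fst = v)
      ((k, T n, F n) : ℕ × List ℕ × List ℕ)) ⟨_, hcomp, fun _ => Iff.rfl⟩ hdec
  apply hund
  have key : ∀ n, QReach Pr (u n) [κ] ↔ ¬ (fun p : ℕ × List ℕ × List ℕ =>
      ∃ L₁ L₂ : Set (List (Fin p.1)),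
        L₁ ≠ {[]} ∧ L₂ ≠ {[]} ∧
        ∀ w : List (Fin p.1),
          (w.foldl (fun q a => p.2.1.getD (q * p.1 + a.val) 0) 0 ∈ p.2.2) ↔
            ∃ u ∈ L₁, ∃ v ∈ L₂, ∃ m : List Bool, m.length = w.length ∧
              ((w.zip m).filter (fun x => x.2)).map Prod.fst = u ∧
              ((w.zip m).filter (fun x => !x.2)).map Prod.fst = v)
      ((k, T n, F n) : ℕ × List ℕ × List ℕ) := by
    intro n
    have h1 := decomp_iff Pr κ (u n)
    have h2 := decomp_congr e.symm (InR .mk .s .t (NN Pr κ (u n)))
    rw [← h2] at h1
    rw [← not_iff_not, ← h1, not_not]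
    unfold Decomp
    simp only [sh_iff_mask]
    refine exists_congr fun L1 => exists_congr fun L2 => and_congr_right fun _ =>
      and_congr_right fun _ => forall_congr' fun w => ?_
    rw [hcode n w, InR_NN_iff]
  exact hred.not.of_eq fun n => (key n).symm

end Pool.Agent.S10704
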