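import Pool.Statements.S10711
import Pool.Agent.H681R2.VaughtMain

/-!
# Proof idea

Induct on `α`.  For `P = ⋃ n, f n` with `(f n)ᶜ ∈ Σ⁰_{β n}`, `β n < α`, let `t'` be the join of `τ`
and of admissible topologies, given by the induction hypothesis, in which the Vaught transforms
`((f n)ᶜ)^{Δ B}` are open, for `B` running over the balls with centres in a dense sequence of `G`
and rational radii, where the metric of `G` is right invariant.  Let `C_n x` be the closed set of
those `g ∈ G` such that every neighbourhood of `g` contains nonmeagerly many `k` with `k x ∉ f n`.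
The truncated distance `x ↦ dist (g, C_n x)` is upper semicontinuous for `t'`, so refining `t'` by
countably many such functions gives a Polish topology `t`.  As the distance is `1`-Lipschitz in `g`
and `dist (g, C_n (k x)) = dist (g k, C_n x)`, the action is continuous for `t`.  The open sets of
`t` are `Σ⁰_α`, and `P^{Δ v}` is the union of the sets `{x | 0 < dist (g, C_n x)}`, `g ∈ v`.
-/

set_option autoImplicit false
open Pool Pool.MP_eb5c78_lc

namespace Pool.Agent.S10711

open Pool.Agent.H681R2 in
/-- For any Polish group acting continuously on a Polish space, nonempty open v, countable α≥1 and Σ⁰_α set P, some finer Polish topology makes the Vaught transform of P open, keeps the action continuous, and has a countable basis of Σ⁰_α sets. -/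
theorem result :
    ∀ (G X : Type) [tG : TopologicalSpace G] [Group G] [IsTopologicalGroup G] [PolishSpace G]
      (τ : TopologicalSpace X), @PolishSpace X τ →
      ∀ (a : G × X → X), (∀ x : X, a (1, x) = x) →
        (∀ (g h : G) (x : X), a (g * h, x) = a (g, a (h, x))) →
        @Continuous (G × X) X
          (TopologicalSpace.induced Prod.fst tG ⊓ TopologicalSpace.induced Prod.snd τ) τ a →
      ∀ (v : Set G), IsOpen v → v.Nonempty →
      ∀ (α : Ordinal.{0}), 1 ≤ α → α < (Cardinal.aleph.{0} 1).ord →
      ∀ (P : Set X),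
        (∀ S : Ordinal.{0} → Set (Set X),
          (∀ γ : Ordinal.{0}, 1 ≤ γ → ∀ U : Set X, @IsOpen X τ U → U ∈ S γ) →
          (∀ γ : Ordinal.{0}, ∀ f : ℕ → Set X,
            (∀ n : ℕ, ∃ β : Ordinal.{0}, 1 ≤ β ∧ β < γ ∧ (f n)ᶜ ∈ S β) →
              (⋃ n, f n) ∈ S γ) →
          P ∈ S α) →
      ∃ t : TopologicalSpace X, @PolishSpace X t ∧ t ≤ τ ∧
        @IsOpen X t {x : X | ¬ IsMeagre {g : G | g ∈ v ∧ a (g, x) ∈ P}} ∧
        @Continuous (G × X) X
          (TopologicalSpace.induced Prod.fst tG ⊓ TopologicalSpace.induced Prod.snd t) t a ∧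
        ∃ B : Set (Set X), B.Countable ∧ @TopologicalSpace.IsTopologicalBasis X t B ∧
          ∀ b ∈ B,
            (∀ S : Ordinal.{0} → Set (Set X),
              (∀ γ : Ordinal.{0}, 1 ≤ γ → ∀ U : Set X, @IsOpen X τ U → U ∈ S γ) →
              (∀ γ : Ordinal.{0}, ∀ f : ℕ → Set X,
                (∀ n : ℕ, ∃ β : Ordinal.{0}, 1 ≤ β ∧ β < γ ∧ (f n)ᶜ ∈ S β) →
                  (⋃ n, f n) ∈ S γ) →
              b ∈ S α) := by
  intro G X tG _ _ _ τ hτ a _ ha hcont v hv _ α _ _ P hP
  obtain ⟨I, hI, hinv⟩ := exists_rightInv_dist G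
  subst hI
  have key : Sig τ α P ∧ Good τ a α P := by
    refine hP (fun γ => {P | Sig τ γ P ∧ Good τ a γ P}) ?_ ?_
    · intro γ hγ U hU
      refine ⟨Sig.of_isOpen hγ hU, fun w hw => ⟨τ, hτ, le_rfl, ?_, hcont,
        fun V hV => Sig.of_isOpen hγ hV⟩⟩
      have e : {x : X | ¬ IsMeagre {g : G | g ∈ w ∧ a (g, x) ∈ U}} =
          ⋃ g : w, (fun x => a (g.1, x)) ⁻¹' U := by
        ext x
        simp only [Set.mem_ofPred_eq, Set.mem_iUnion, Set.mem_preimage, Subtype.exists]
        constructor
        · intro h
          obtain ⟨g, hg1, hg2⟩ := nonempty_of_not_isMeagre h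
          exact ⟨g, hg1, hg2⟩
        · rintro ⟨g, hg1, hg2⟩
          have hopen : IsOpen {g : G | g ∈ w ∧ a (g, x) ∈ U} := by
            let _ := τ
            have h2 : Continuous (fun g : G => (g, x)) := by fun_prop
            exact hw.inter (hU.preimage (Continuous.comp (Y := G × X) hcont h2))
          exact not_isMeagre_of_isOpen hopen ⟨g, hg1, hg2⟩
      rw [e]
      let _ := τ
      refine isOpen_iUnion fun g => hU.preimage ?_
      have h2 : Continuous (fun x : X => (g.1, x)) := by fun_prop
      exact Continuous.comp (Y := G × X) hcont h2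
    · intro γ f hf
      refine ⟨Sig.of_iUnion_compl fun n => ?_, good_union hinv hτ ha hcont fun n => ?_⟩
      · obtain ⟨β, h1, h2, h3⟩ := hf n
        exact ⟨β, h1, h2, h3.1⟩
      · obtain ⟨β, h1, h2, h3⟩ := hf n
        exact ⟨β, h1, h2, h3.1, h3.2⟩
  obtain ⟨t, h1, h2, h3, h4, h5⟩ := key.2 v hv
  refine ⟨t, h1, h2, h3, h4, @TopologicalSpace.countableBasis X t h1.toSecondCountableTopology,
    @TopologicalSpace.countable_countableBasis X t h1.toSecondCountableTopology,
    @TopologicalSpace.isBasis_countableBasis X t h1.toSecondCountableTopology, ?_⟩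
  intro b hb
  exact h5 b (@TopologicalSpace.isOpen_of_mem_countableBasis X t h1.toSecondCountableTopology _ hb)

end Pool.Agent.S10711
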