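import Pool.Statements.S10750
import Pool.Agent.H607R2.Main

set_option autoImplicit false
open Pool Pool.MP_f72d10_lc

namespace Pool.Agent.S10750

/-- The negation of the preceding statement: There is a constant κ>0 such that for every nonzero real polynomial f and every way of writing f as a sum of real multiples of squares of polynomials, the number of distinct real roots of f is at most κ times the total number of monomials of the squared polynomials. -/
theorem result :
    ¬ (∃ κ : ℝ, 0 < κ ∧
      ∀ f : Polynomial ℝ, f ≠ 0 →
        ∀ (s : ℕ) (c : Fin s → ℝ) (g : Fin s → Polynomial ℝ),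
          f = ∑ i, Polynomial.C (c i) * g i ^ 2 →
            (f.roots.toFinset.card : ℝ) ≤ κ * ((∑ i, (g i).support.card : ℕ) : ℝ)) := by
  exact Pool.Agent.H607R2.disproof

end Pool.Agent.S10750
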