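import Pool.Statements.S10827
import Pool.Agent.H9R2.MA.NB10

set_option autoImplicit false
open Pool Pool.MP_97ca50_mp

namespace Pool.Agent.S10827

/-- For every ε>0 there is zc>0 such that for all N and 0≤z<zc, the Pauli energy Σ‖σ·(p_i+A)ψ‖² − zΣ⟨∣x_i∣⁻¹⟩ + ε∫∣curl A∣², without e–e repulsion, is bounded below over smooth compactly supported antisymmetric normalized ψ and smooth compactly supported A. -/
theorem result :
    ∀ ε : ℝ, 0 < ε → ∃ zc : ℝ, 0 < zc ∧ ∀ N : ℕ, ∀ z : ℝ, 0 ≤ z → z < zc →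
      ∃ C : ℝ, ∀ (ψ : (Fin N → EuclideanSpace ℝ (Fin 3)) → (Fin N → Fin 2) → ℂ)
        (A : EuclideanSpace ℝ (Fin 3) → EuclideanSpace ℝ (Fin 3)),
        (∀ s, ContDiff ℝ ((⊤ : ℕ∞) : WithTop ℕ∞) (fun x => ψ x s)) →
        (∀ s, HasCompactSupport (fun x => ψ x s)) →
        (∀ (σ : Equiv.Perm (Fin N)) (x : Fin N → EuclideanSpace ℝ (Fin 3)) (s : Fin N → Fin 2),
          ψ (x ∘ σ) (s ∘ σ) = ((Equiv.Perm.sign σ : ℤ) : ℂ) * ψ x s) →
        (∫ x, ∑ s, ‖ψ x s‖ ^ 2) = 1 →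
        ContDiff ℝ ((⊤ : ℕ∞) : WithTop ℕ∞) A →
        HasCompactSupport A →
        C ≤ (∑ i : Fin N, ∫ x, ∑ s : Fin N → Fin 2,
              ‖∑ k : Fin 3, ∑ t : Fin 2,
                ((![!![0, 1; 1, 0], !![0, -Complex.I; Complex.I, 0], !![1, 0; 0, -1]] :
                    Fin 3 → Matrix (Fin 2) (Fin 2) ℂ) k (s i) t) *
                  ((-Complex.I) * fderiv ℝ (fun y => ψ y (Function.update s i t)) x
                      (Pi.single i (EuclideanSpace.single k (1 : ℝ)) :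
                        Fin N → EuclideanSpace ℝ (Fin 3))
                    + ((A (x i) k : ℝ) : ℂ) * ψ x (Function.update s i t))‖ ^ 2)
            - z * (∑ i : Fin N, ∫ x, ∑ s : Fin N → Fin 2, ‖ψ x s‖ ^ 2 / ‖x i‖)
            + ε * ∫ y, (1 / 2 : ℝ) * ∑ j : Fin 3, ∑ k : Fin 3,
                ((fderiv ℝ A y (EuclideanSpace.single j (1 : ℝ))) k
                  - (fderiv ℝ A y (EuclideanSpace.single k (1 : ℝ))) j) ^ 2 := by
  intro ε hε
  refine ⟨10 * ε / (32 * 40000 ^ 2), by positivity, ?_⟩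
  intro N z hz0 hz
  have hB0 : ∀ A : EuclideanSpace ℝ (Fin 3) → EuclideanSpace ℝ (Fin 3),
      0 ≤ ∫ y, (1 / 2 : ℝ) * ∑ j : Fin 3, ∑ k : Fin 3,
                ((fderiv ℝ A y (EuclideanSpace.single j (1 : ℝ))) k
                  - (fderiv ℝ A y (EuclideanSpace.single k (1 : ℝ))) j) ^ 2 := fun A =>
    MeasureTheory.integral_nonneg fun y => by positivity
  have hB : ∀ A : EuclideanSpace ℝ (Fin 3) → EuclideanSpace ℝ (Fin 3),
      ∫ y, (1 / 2 : ℝ) * ∑ j : Fin 3, ∑ k : Fin 3,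
                ((fderiv ℝ A y (EuclideanSpace.single j (1 : ℝ))) k
                  - (fderiv ℝ A y (EuclideanSpace.single k (1 : ℝ))) j) ^ 2 =
        ∫ y, Pool.Agent.H9R2.MA.Bsq A y := fun A => rfl
  rcases Nat.eq_zero_or_pos N with rfl | hN
  · refine ⟨0, fun ψ A _ _ _ _ _ _ => ?_⟩
    have h1 := hB0 A
    have h2 := mul_nonneg hε.le h1
    simp only [Finset.univ_eq_empty, Finset.sum_empty, mul_zero, sub_zero, zero_add]
    exact h2
  · obtain ⟨n, rfl⟩ : ∃ n, N = n + 1 := ⟨N - 1, by omega⟩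
    rcases eq_or_lt_of_le hz0 with hz1 | hz1
    · refine ⟨0, fun ψ A _ _ _ _ _ _ => ?_⟩
      have h1 := hB0 A
      have h2 := mul_nonneg hε.le h1
      rw [← hz1, zero_mul, sub_zero]
      refine add_nonneg (Finset.sum_nonneg fun i _ => ?_) h2
      exact MeasureTheory.integral_nonneg fun x => Finset.sum_nonneg fun s _ => by positivity
    · refine ⟨-(36 * z ^ 2 * (n + 1)), fun ψ A hψ hψc hanti hnorm hA hAc => ?_⟩
      have hSm : Pool.Agent.H9R2.MA.Sm ψ :=
        ⟨fun s => by exact_mod_cast contDiff_infty.1 (hψ s) 2, hψc⟩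
      have hA1 : ContDiff ℝ 1 A := by exact_mod_cast contDiff_infty.1 hA 1
      have key := Pool.Agent.H9R2.MA.nbody hA1 hAc hSm hanti hnorm hz1
      have h1 := hB0 A
      rw [hB A] at h1 ⊢
      have h2 : (z / 10) * (32 * 40000 ^ 2 * ∫ x, Pool.Agent.H9R2.MA.Bsq A x) ≤
          ε * ∫ x, Pool.Agent.H9R2.MA.Bsq A x := by
        rw [← mul_assoc]
        apply mul_le_mul_of_nonneg_right _ h1
        rw [lt_div_iff₀ (by positivity)] at hz
        linarith
      have h3 : ∑ i : Fin (n + 1), ∫ x, ∑ s : Fin (n + 1) → Fin 2,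
              ‖∑ k : Fin 3, ∑ t : Fin 2,
                ((![!![0, 1; 1, 0], !![0, -Complex.I; Complex.I, 0], !![1, 0; 0, -1]] :
                    Fin 3 → Matrix (Fin 2) (Fin 2) ℂ) k (s i) t) *
                  ((-Complex.I) * fderiv ℝ (fun y => ψ y (Function.update s i t)) x
                      (Pi.single i (EuclideanSpace.single k (1 : ℝ)) :
                        Fin (n + 1) → EuclideanSpace ℝ (Fin 3))
                    + ((A (x i) k : ℝ) : ℂ) * ψ x (Function.update s i t))‖ ^ 2 =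
          ∑ i, ∫ X, ∑ s, ‖Pool.Agent.H9R2.MA.nd A ψ i X s‖ ^ 2 := rfl
      rw [h3]
      linarith


end Pool.Agent.S10827
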