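import Pool.Statements.S10909
import Pool.Agent.H379R2.App1b
import Pool.Agent.H410R2.MFinal
import Pool.Agent.H307R2.Cert

set_option autoImplicit false
open N36a859e3
open Nat Filter
open scoped Topology Asymptotics
open Pool Pool.MP_078383_nt

namespace Pool.Agent.S10909

/-- The set of primes q such that for all n ∈ ℕ, (least positive k with n ∣ φ(k)) = q iff n = q-1, is infinite. -/
theorem result :
    { q | q.Prime ∧ ∀ n, m n = q ↔ n = q - 1 }.Infinite := by
  exact Pool.Agent.H379R2.App1b.s10909 Pool.Agent.H410R2.maynardTao Pool.Agent.H307R2.CertA.cert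

end Pool.Agent.S10909
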