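import Pool.Statements.S10980

set_option autoImplicit false
open Pool Pool.MP_0e0d5f_nt

namespace Pool.Agent.S10980

open Filter Topology Chebyshev

/-- the `i`-th prime -/
noncomputable def pr (i : ℕ) : ℕ := Nat.nth Nat.Prime i

lemma pr_prime (i : ℕ) : (pr i).Prime := Nat.prime_nth_prime i

lemma pr_inj {i j : ℕ} (h : pr i = pr j) : i = j :=
  Nat.nth_injective Nat.infinite_setOfPred_prime h

open Classical in
/-- the number attached to `S ⊆ {0, …, t-1}` -/
noncomputable def num (t : ℕ) (S : Finset ℕ) : ℕ :=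
  ∏ i ∈ Finset.range t, pr (if i ∈ S then 2 * i else 2 * i + 1)

lemma dvd_num_iff (t : ℕ) (S : Finset ℕ) (k : ℕ) :
    pr k ∣ num t S ↔ ∃ i < t, k = if i ∈ S then 2 * i else 2 * i + 1 := by
  unfold num
  rw [(pr_prime k).prime.dvd_finsetProd_iff]
  constructor
  · rintro ⟨i, hi, hd⟩
    rw [Nat.prime_dvd_prime_iff_eq (pr_prime _) (pr_prime _)] at hd
    exact ⟨i, Finset.mem_range.mp hi, pr_inj hd⟩
  · rintro ⟨i, hi, hk⟩
    exact ⟨i, Finset.mem_range.mpr hi, by rw [hk]⟩

lemma even_dvd (t : ℕ) (S : Finset ℕ) (i : ℕ) (hi : i < t) : pr (2 * i) ∣ num t S ↔ i ∈ S := by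
  rw [dvd_num_iff]
  constructor
  · rintro ⟨j, hj, h⟩
    by_cases hjS : j ∈ S
    · rw [if_pos hjS] at h
      have : i = j := by omega
      rwa [this]
    · rw [if_neg hjS] at h
      omega
  · intro h
    exact ⟨i, hi, by rw [if_pos h]⟩

lemma odd_dvd (t : ℕ) (S : Finset ℕ) (i : ℕ) (hi : i < t) : pr (2 * i + 1) ∣ num t S ↔ i ∉ S := by
  rw [dvd_num_iff]
  constructor
  · rintro ⟨j, hj, h⟩
    by_cases hjS : j ∈ S
    · rw [if_pos hjS] at h
      omega
    · rw [if_neg hjS] at h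
      have : i = j := by omega
      rwa [this]
  · intro h
    exact ⟨i, hi, by rw [if_neg h]⟩

lemma no_triple (t : ℕ) (S T U : Finset ℕ) (hS : S ⊆ Finset.range t) (hT : T ⊆ Finset.range t)
    (hST : S ≠ T) (h1 : Nat.gcd (num t S) (num t T) = Nat.gcd (num t T) (num t U))
    (h2 : Nat.gcd (num t S) (num t T) = Nat.gcd (num t S) (num t U)) : False := by
  -- there is an index in exactly one of S, T
  have key : ∀ S T : Finset ℕ, S ⊆ Finset.range t → 
      Nat.gcd (num t S) (num t T) = Nat.gcd (num t T) (num t U) →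
      Nat.gcd (num t S) (num t T) = Nat.gcd (num t S) (num t U) →
      ∀ i, i ∈ S → i ∈ T := by
    intro S T hS h1 h2 i hiS
    have hi : i < t := Finset.mem_range.mp (hS hiS)
    by_contra hiT
    by_cases hiU : i ∈ U
    · have h3 : pr (2 * i) ∣ Nat.gcd (num t S) (num t U) :=
        Nat.dvd_gcd ((even_dvd t S i hi).mpr hiS) ((even_dvd t U i hi).mpr hiU)
      rw [← h2] at h3
      exact hiT ((even_dvd t T i hi).mp (h3.trans (Nat.gcd_dvd_right _ _)))
    · have h3 : pr (2 * i + 1) ∣ Nat.gcd (num t T) (num t U) :=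
        Nat.dvd_gcd ((odd_dvd t T i hi).mpr hiT) ((odd_dvd t U i hi).mpr hiU)
      rw [← h1] at h3
      exact (odd_dvd t S i hi).mp (h3.trans (Nat.gcd_dvd_left _ _)) hiS
  apply hST
  ext i
  constructor
  · exact key S T hS h1 h2 i
  · refine key T S hT ?_ ?_ i
    · rw [Nat.gcd_comm, h2]
    · rw [Nat.gcd_comm, h1]

lemma num_inj (t : ℕ) (S T : Finset ℕ) (hS : S ⊆ Finset.range t) (hT : T ⊆ Finset.range t)
    (h : num t S = num t T) : S = T := by
  by_contra hne
  exact no_triple t S T T hS hT hne (by rw [h]) rfl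

lemma num_pos (t : ℕ) (S : Finset ℕ) : 0 < num t S :=
  Finset.prod_pos fun _ _ => (pr_prime _).pos

/-- `num t S` divides the primorial of `n` when `2 t ≤ π(n)` -/
lemma num_dvd (t n : ℕ) (S : Finset ℕ) (h : 2 * t ≤ Nat.primeCounting n) :
    num t S ∣ primorial n := by
  classical
  have hlt : ∀ k, k < 2 * t → pr k ≤ n := by
    intro k hk
    have : Nat.nth Nat.Prime k < n + 1 := by
      apply Nat.nth_lt_of_lt_count
      exact lt_of_lt_of_le hk h
    exact Nat.lt_succ_iff.mp this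
  have hinj : Set.InjOn (fun i => pr (if i ∈ S then 2 * i else 2 * i + 1)) (Finset.range t) := by
    intro i _ j _ hij
    have := pr_inj hij
    split_ifs at this <;> omega
  unfold num
  rw [← Finset.prod_image (f := fun p => p) hinj, primorial_eq_prod_primesLE]
  apply Finset.prod_dvd_prod_of_subset
  intro p hp
  rw [Finset.mem_image] at hp
  obtain ⟨i, hi, rfl⟩ := hp
  rw [Finset.mem_range] at hi
  rw [Nat.mem_primesLE]
  refine ⟨hlt _ ?_, pr_prime _⟩
  split_ifs <;> omega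

/-- the lower bound for the extremal function -/
lemma lower (n t : ℕ) (h : 2 * t ≤ Nat.primeCounting n) :
    2 ^ t < sInf {m : ℕ | ∀ A : Finset ℕ, A ⊆ Finset.Icc 1 (primorial n) → A.card = m →
            ∃ a ∈ A, ∃ b ∈ A, ∃ c ∈ A, a ≠ b ∧ b ≠ c ∧ a ≠ c ∧
              Nat.gcd a b = Nat.gcd b c ∧ Nat.gcd a b = Nat.gcd a c} := by
  classical
  set X := {m : ℕ | ∀ A : Finset ℕ, A ⊆ Finset.Icc 1 (primorial n) → A.card = m →
            ∃ a ∈ A, ∃ b ∈ A, ∃ c ∈ A, a ≠ b ∧ b ≠ c ∧ a ≠ c ∧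
              Nat.gcd a b = Nat.gcd b c ∧ Nat.gcd a b = Nat.gcd a c} with hX
  have hne : X.Nonempty := by
    refine ⟨primorial n + 1, ?_⟩
    intro A hA hcard
    have := Finset.card_le_card hA
    rw [Nat.card_Icc, hcard] at this
    omega
  have hmem := Nat.sInf_mem hne
  by_contra hcon
  push Not at hcon
  set m := sInf X with hm
  -- the full example
  set B := (Finset.range t).powerset.image (num t) with hB
  have hBcard : B.card = 2 ^ t := by
    rw [hB, Finset.card_image_of_injOn, Finset.card_powerset, Finset.card_range]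
    intro S hS T hT hST
    exact num_inj t S T (Finset.mem_powerset.mp hS) (Finset.mem_powerset.mp hT) hST
  obtain ⟨A, hAB, hAcard⟩ := Finset.exists_subset_card_eq (hcon.trans hBcard.symm.le)
  have hBsub : B ⊆ Finset.Icc 1 (primorial n) := by
    intro a ha
    rw [hB, Finset.mem_image] at ha
    obtain ⟨S, _, rfl⟩ := ha
    rw [Finset.mem_Icc]
    exact ⟨num_pos t S, Nat.le_of_dvd (primorial_pos n) (num_dvd t n S h)⟩
  obtain ⟨a, ha, b, hb, c, hc, hab, hbc, hac, h1, h2⟩ := hmem A (hAB.trans hBsub) hAcard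
  have ha' := hAB ha
  have hb' := hAB hb
  have hc' := hAB hc
  rw [hB, Finset.mem_image] at ha' hb' hc'
  obtain ⟨S, hS, rfl⟩ := ha'
  obtain ⟨T, hT, rfl⟩ := hb'
  obtain ⟨U, hU, rfl⟩ := hc'
  exact no_triple t S T U (Finset.mem_powerset.mp hS) (Finset.mem_powerset.mp hT)
    (fun h => hab (by rw [h])) h1 h2

/-- growth: `c √(log 4 · n) ≤ t log 2` for `t = ⌊π(n)/2⌋` and large `n` -/
lemma growth (c : ℝ) : ∀ᶠ n : ℕ in atTop,
    c * √(Real.log 4 * n) ≤ (Nat.primeCounting n / 2 : ℕ) * Real.log 2 := by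
  -- π(n) ≥ (n log 2 - log (n+1)) / log n
  have h1 : Tendsto (fun x : ℝ => Real.log x / √x) atTop (𝓝 0) := by
    have b1 := (isLittleO_log_rpow_atTop (r := 1/2) (by norm_num)).tendsto_div_nhds_zero
    refine b1.congr fun x => ?_
    rw [Real.sqrt_eq_rpow]
  have h1' : Tendsto (fun n : ℕ => Real.log n / √(n : ℝ)) atTop (𝓝 0) :=
    h1.comp tendsto_natCast_atTop_atTop
  have h2 : ∀ᶠ n : ℕ in atTop, Real.log n / √(n : ℝ) < 1 / (16 * (|c| + 1)) :=
    h1'.eventually_lt_const (by positivity)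
  have h3 : ∀ᶠ n : ℕ in atTop, (10 : ℕ) ≤ n := eventually_ge_atTop 10
  have h4 : ∀ᶠ n : ℕ in atTop, (16 : ℝ) ≤ √(n : ℝ) := by
    have : Tendsto (fun n : ℕ => √(n : ℝ)) atTop atTop :=
      Real.tendsto_sqrt_atTop.comp tendsto_natCast_atTop_atTop
    exact this.eventually_ge_atTop 16
  filter_upwards [h2, h3, h4] with n ha hb hc
  have hn10 : (10 : ℝ) ≤ n := by exact_mod_cast hb
  set s := √(n : ℝ) with hs
  have hs0 : 0 < s := by linarith
  have hss : s * s = n := Real.mul_self_sqrt (by linarith)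
  have hlog : 0 < Real.log n := Real.log_pos (by linarith)
  have hl2 := Real.log_two_gt_d9
  have hl2' := Real.log_two_lt_d9
  have hpi := pi_ge n
  rw [div_le_iff₀ hlog] at hpi
  have hlog1 : Real.log ((n : ℝ) + 1) ≤ n * 0.1 := by
    have e1 : Real.log ((n : ℝ) + 1) ≤ Real.log (2 * n) := Real.log_le_log (by linarith) (by linarith)
    rw [Real.log_mul (by norm_num) (by linarith)] at e1
    have e2 : Real.log n < s / (16 * (|c| + 1)) := by
      rw [div_lt_iff₀ hs0] at ha
      calc Real.log n < 1 / (16 * (|c| + 1)) * s := ha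
        _ = s / (16 * (|c| + 1)) := by ring
    have e3 : s / (16 * (|c| + 1)) ≤ s / 16 := by
      apply div_le_div_of_nonneg_left hs0.le (by norm_num)
      nlinarith [abs_nonneg c]
    have e4 : s / 16 ≤ n * 0.01 := by nlinarith
    nlinarith
  have hpi2 : 0.5 * (n : ℝ) ≤ (Nat.primeCounting n : ℝ) * Real.log n := by nlinarith
  have hpi3 : 8 * (|c| + 1) * s ≤ (Nat.primeCounting n : ℝ) := by
    rw [div_lt_iff₀ hs0] at ha
    -- log n < s / (16 (|c|+1))
    have e1 : Real.log n * (16 * (|c| + 1)) ≤ s := by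
      have : 0 < 16 * (|c| + 1) := by positivity
      calc Real.log n * (16 * (|c| + 1)) ≤ (1 / (16 * (|c| + 1)) * s) * (16 * (|c| + 1)) :=
            mul_le_mul_of_nonneg_right ha.le this.le
        _ = s := by field_simp
    by_contra hcon
    push Not at hcon
    have e2 : (Nat.primeCounting n : ℝ) * Real.log n < 8 * (|c| + 1) * s * Real.log n :=
      mul_lt_mul_of_pos_right hcon hlog
    nlinarith
  have hdiv : (Nat.primeCounting n : ℝ) / 2 - 1 ≤ ((Nat.primeCounting n / 2 : ℕ) : ℝ) := by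
    have : Nat.primeCounting n ≤ 2 * (Nat.primeCounting n / 2) + 1 := by omega
    have h5 : (Nat.primeCounting n : ℝ) ≤ 2 * ((Nat.primeCounting n / 2 : ℕ) : ℝ) + 1 := by
      exact_mod_cast this
    linarith
  have hsq : √(Real.log 4 * n) ≤ 2 * s := by
    rw [Real.sqrt_mul (Real.log_nonneg (by norm_num))]
    have : √(Real.log 4) ≤ 2 := by
      rw [Real.sqrt_le_left (by norm_num)]
      have : Real.log 4 = 2 * Real.log 2 := by
        rw [show (4 : ℝ) = 2 ^ 2 by norm_num, Real.log_pow]; norm_num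
      rw [this]; linarith
    exact mul_le_mul_of_nonneg_right this hs0.le
  calc c * √(Real.log 4 * n) ≤ |c| * (2 * s) :=
        mul_le_mul (le_abs_self c) hsq (Real.sqrt_nonneg _) (abs_nonneg c)
    _ ≤ ((Nat.primeCounting n : ℝ) / 2 - 1) * 0.6 := by nlinarith [abs_nonneg c]
    _ ≤ ((Nat.primeCounting n / 2 : ℕ) : ℝ) * 0.6 := by nlinarith
    _ ≤ ((Nat.primeCounting n / 2 : ℕ) : ℝ) * Real.log 2 :=
        mul_le_mul_of_nonneg_left (by linarith) (Nat.cast_nonneg _)

/-- The negation of the preceding statement: There are constants c1, c2 > 0 such that for all large N, the least n with every n-element subset of {1..N} containing three distinct numbers with equal pairwise gcds lies strictly between exp(c1 sqrt(ln N)) and exp(c2 sqrt(ln N)). -/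
theorem result :
    ¬ (∃ c₁ c₂ : ℝ, 0 < c₁ ∧ 0 < c₂ ∧ ∃ N₀ : ℕ, ∀ N : ℕ, N₀ ≤ N →
      Real.exp (c₁ * Real.sqrt (Real.log (N : ℝ))) <
        ((sInf {n : ℕ | ∀ A : Finset ℕ, A ⊆ Finset.Icc 1 N → A.card = n →
            ∃ a ∈ A, ∃ b ∈ A, ∃ c ∈ A, a ≠ b ∧ b ≠ c ∧ a ≠ c ∧
              Nat.gcd a b = Nat.gcd b c ∧ Nat.gcd a b = Nat.gcd a c} : ℕ) : ℝ) ∧
      ((sInf {n : ℕ | ∀ A : Finset ℕ, A ⊆ Finset.Icc 1 N → A.card = n →
            ∃ a ∈ A, ∃ b ∈ A, ∃ c ∈ A, a ≠ b ∧ b ≠ c ∧ a ≠ c ∧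
              Nat.gcd a b = Nat.gcd b c ∧ Nat.gcd a b = Nat.gcd a c} : ℕ) : ℝ) <
        Real.exp (c₂ * Real.sqrt (Real.log (N : ℝ)))) := by
  rintro ⟨c₁, c₂, _, hc₂, N₀, hN₀⟩
  obtain ⟨n, hn1, hn2⟩ := ((growth c₂).and (eventually_ge_atTop N₀)).exists
  have h1 := (hN₀ (primorial n) (hn2.trans le_primorial_self)).2
  have h2 := lower n (Nat.primeCounting n / 2) (by omega)
  have h3 : ((2 ^ (Nat.primeCounting n / 2) : ℕ) : ℝ) <
      Real.exp (c₂ * Real.sqrt (Real.log (primorial n : ℝ))) := by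
    refine lt_trans ?_ h1
    exact_mod_cast h2
  have h4 : Real.log (primorial n : ℝ) ≤ Real.log 4 * n := by
    have := theta_le_log4_mul_x (x := (n : ℝ)) (Nat.cast_nonneg n)
    rwa [theta_eq_log_primorial, Nat.floor_natCast] at this
  have h5 : Real.exp (c₂ * Real.sqrt (Real.log (primorial n : ℝ))) ≤
      Real.exp ((Nat.primeCounting n / 2 : ℕ) * Real.log 2) := by
    apply Real.exp_le_exp.mpr
    refine le_trans ?_ hn1
    exact mul_le_mul_of_nonneg_left (Real.sqrt_le_sqrt h4) hc₂.le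
  have h6 : Real.exp ((Nat.primeCounting n / 2 : ℕ) * Real.log 2) =
      ((2 ^ (Nat.primeCounting n / 2) : ℕ) : ℝ) := by
    rw [mul_comm, Real.exp_mul, Real.exp_log (by norm_num), Real.rpow_natCast]
    push_cast
    rfl
  rw [h6] at h5
  linarith

end Pool.Agent.S10980
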