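import Pool.Statements.S10999
-- import your own Pool.Agent.* helpers here
import Pool.Agent.H393R2.ThmA
import Pool.Agent.H393R2.App3
import Pool.Agent.H393R2.Glue814
import Pool.Agent.H393R2.Geom4

set_option autoImplicit false
open Pool Pool.MP_10b5ac_nt

namespace Pool.Agent.S10999

/-- For all k,b ≥ 2 and every strictly increasing k-regular sequence of positive integers a(n), the real number 0.(a(0))_b(a(1))_b… formed by concatenating the base-b expansions is transcendental. -/
theorem result :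
    ∀ (k : ℕ), 2 ≤ k → ∀ (b : ℕ), 2 ≤ b → ∀ (a : ℕ → ℕ), StrictMono a → (∀ n, 0 < a n) →
      (Submodule.span ℤ {f : ℕ → ℤ | ∃ e r : ℕ, r < k ^ e ∧
          f = fun n => ((a (k ^ e * n + r) : ℕ) : ℤ)}).FG →
      Transcendental ℚ
        (∑' n : ℕ, (a n : ℝ) /
          (b : ℝ) ^ (∑ i ∈ Finset.range (n + 1), (Nat.digits b (a i)).length)) :=
  Pool.Agent.H393R2.application_of (fun b hb ξ hξ hirr d δ hδ =>
    Pool.Agent.H393R2.thmA_of Pool.Agent.H393R2.auxPolyStmt Pool.Agent.H393R2.rothStmt
      (fun n hn => Pool.Agent.H393R2.geometry n hn) b hb ξ hξ hirr d δ hδ)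

end Pool.Agent.S10999
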