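import Pool.Statements.S11041
import Pool.Agent.H319R2.Five3

set_option autoImplicit false
open Pool Pool.MP_152764_nt

namespace Pool.Agent.S11041

/-- For every c>0, the proportion of n<N for which the 5x+1 map (n/2 if even, (5n+1)/2 if odd) first reaches 1 after some k≥1 steps with k < c·log n tends to 0 as N grows. -/
theorem result :
    ∀ c : ℝ, 0 < c →
      Filter.Tendsto
        (fun N : ℕ =>
          (({n : ℕ | n < N ∧ ∃ k : ℕ, 1 ≤ k ∧
              (fun m : ℕ => if m % 2 = 0 then m / 2 else (5 * m + 1) / 2)^[k] n = 1 ∧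
              (k : ℝ) < c * Real.log n}.ncard : ℝ) / (N : ℝ)))
        Filter.atTop (nhds 0) := by
  exact fun c hc => Pool.Agent.H319R2.Five.density_zero c hc

end Pool.Agent.S11041
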