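import Pool.Statements.S11051
import Pool.Agent.H412R2.Final

set_option autoImplicit false
open Pool Pool.MP_158692_nt

namespace Pool.Agent.S11051

/-- For every integer a not divisible by 3, with T(n)=n/2 (n even), (3n+1)/2 (n odd), the count of integers n with ∣n∣≤x having some T-iterate equal to a satisfies log(count)/log x → 1 as x → ∞. -/
theorem result :
    ∀ a : ℤ, a % 3 ≠ 0 →
      Filter.Tendsto
        (fun x : ℕ =>
          Real.log
              (({n : ℤ | |n| ≤ (x : ℤ) ∧
                  ∃ k : ℕ,
                    (fun m : ℤ => if m % 2 = 0 then m / 2 else (3 * m + 1) / 2)^[k] n = a}.ncard : ℕ) : ℝ) /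
            Real.log (x : ℝ))
        Filter.atTop (nhds 1) := by
  exact Pool.Agent.H412R2.S11051_of Pool.Agent.H412R2.main_count

end Pool.Agent.S11051
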