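import Pool.Statements.S11058
import Pool.Agent.H817R5.EP.Partial
import Pool.Agent.H536R5.EP.STAGE
import Pool.Agent.H588R5.EP.FL2
import Pool.Agent.Helper475R5.EP.FIN

set_option autoImplicit false
open N95f96908
open Filter
open Pool Pool.MP_1626ca_nt

namespace Pool.Agent.S11058

/-- The negation of the preceding statement: For all sufficiently large n : ℕ, there exist naturals a, p, b with p prime, a ≥ 1, b < p, and n = a*p^2 + b. -/
theorem result :
    ¬ (∀ᶠ n in atTop, ∃ a p b : ℕ, p.Prime ∧ 1 ≤ a ∧ b < p ∧ n = a * p ^ 2 + b) :=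
  Pool.Agent.H817R5.EP.not_repr (Pool.Agent.H817R5.EP.main_of Pool.Agent.H817R5.EP.base'
    (Pool.Agent.H536R5.EP.stage Pool.Agent.H817R5.EP.va' Pool.Agent.H817R5.EP.mass'
      Pool.Agent.H817R5.EP.cnt')
    Pool.Agent.H588R5.EP.fl2
    (Pool.Agent.Helper475R5.EP.fin Pool.Agent.H817R5.EP.low' Pool.Agent.H817R5.EP.gap'
      Pool.Agent.H817R5.EP.mass' Pool.Agent.H817R5.EP.vlow'))

end Pool.Agent.S11058
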