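import Pool.Statements.S11182
import Pool.Agent.H494R2.NC.Ten

/-!
The Browkin–Brzeziński `n`-conjecture fails for `n = 10`: the ten terms `X (2^k)` of
`Pool.Agent.H494R2.NC.Ten` have `log max / log rad > 31/2 = 2·10 - 5 + 1/2` for all `k ≥ 200`
(the ratio tends to at least `16`).
-/

set_option autoImplicit false
open Pool Pool.MP_222ec5_nt

namespace Pool.Agent.S11182

open Pool.Agent.H494R2.NC

/-- The negation of the preceding statement: For n≥3, among integer n-tuples with sum 0, gcd 1 and no vanishing proper subsum, ln max∣a_i∣ / ln rad(∏a_i) exceeds 2n−5+ε only finitely often but exceeds 2n−5−ε infinitely often, i.e. its limsup is 2n−5. -/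
theorem result :
    ¬ (∀ n : ℕ, 3 ≤ n → ∀ ε : ℝ, 0 < ε →
      {a : Fin n → ℤ | Finset.gcd Finset.univ a = 1 ∧
          (∀ S : Finset (Fin n), S.Nonempty → S ≠ Finset.univ → ∑ i ∈ S, a i ≠ 0) ∧
          (∑ i, a i = 0) ∧
          2 * (n : ℝ) - 5 + ε <
            Real.log (((Finset.univ.sup fun i => (a i).natAbs) : ℕ) : ℝ) /
              Real.log ((((∏ i, a i).natAbs.primeFactors.prod id) : ℕ) : ℝ)}.Finite ∧
      {a : Fin n → ℤ | Finset.gcd Finset.univ a = 1 ∧
          (∀ S : Finset (Fin n), S.Nonempty → S ≠ Finset.univ → ∑ i ∈ S, a i ≠ 0) ∧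
          (∑ i, a i = 0) ∧
          2 * (n : ℝ) - 5 - ε <
            Real.log (((Finset.univ.sup fun i => (a i).natAbs) : ℕ) : ℝ) /
              Real.log ((((∏ i, a i).natAbs.primeFactors.prod id) : ℕ) : ℝ)}.Infinite) := by
  intro H
  have hfin := (H 10 (by norm_num) (1 / 2) (by norm_num)).1
  have hinj : Function.Injective (fun m : ℕ => X (2 ^ (m + 200))) := by
    intro m m' h
    have h0 : X (2 ^ (m + 200)) 0 = X (2 ^ (m' + 200)) 0 := congrFun h 0
    have e : ∀ T : ℤ, X T 0 = 65536 * T ^ 27 := fun T => rfl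
    rw [e, e] at h0
    have h1 : ((2 : ℤ) ^ (m + 200)) ^ 27 = (2 ^ (m' + 200)) ^ 27 := by linarith
    have h2 : (2 : ℤ) ^ (m + 200) = 2 ^ (m' + 200) :=
      (pow_left_inj₀ (by positivity) (by positivity) (by norm_num)).1 h1
    have h3 := pow_right_injective₀ (by norm_num : (0 : ℤ) < 2) (by norm_num) h2
    omega
  refine Set.infinite_range_of_injective hinj (hfin.subset ?_)
  rintro _ ⟨m, rfl⟩
  set k := m + 200 with hk
  have hk26 : (67108864 : ℤ) ≤ 2 ^ k := by
    have : (2 : ℤ) ^ 26 ≤ 2 ^ k := pow_le_pow_right₀ (by norm_num) (by omega)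
    norm_num at this ⊢; exact this
  refine ⟨X_gcd k (by omega), fun S h1 h2 => X_subsum (2 ^ k) hk26 S h1 h2, X_sum _, ?_⟩
  have hr := X_rad k (by omega)
  have hl := X_large k
  set r : ℝ := (((∏ j, X (2 ^ k) j).natAbs.primeFactors.prod id : ℕ) : ℝ) with hrdef
  set Q : ℝ := (4 : ℝ) ^ k - 1 with hQ
  have h4 : (4 : ℝ) ^ 200 ≤ 4 ^ k := pow_le_pow_right₀ (by norm_num) (by omega)
  have hQbig : (1430 : ℝ) ^ 31 < Q := by
    rw [hQ]
    have : (1430 : ℝ) ^ 31 < 4 ^ 200 - 1 := by norm_num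
    linarith
  have hQ0 : 0 < Q := lt_trans (by positivity) hQbig
  -- the radical is at least 2
  have hprod : (∏ j, X (2 ^ k) j) ≠ 0 := by
    rw [Finset.prod_ne_zero_iff]
    intro i _
    have := X_subsum (2 ^ k) hk26 {i} (by simp) (by
      intro h
      have := congrArg Finset.card h
      simp at this)
    simpa using this
  have h2dvd : (2 : ℕ) ∣ (∏ j, X (2 ^ k) j).natAbs := by
    have h1 : (2 : ℤ) ∣ X (2 ^ k) 0 := by
      show (2 : ℤ) ∣ 65536 * (2 ^ k) ^ 27
      exact Dvd.dvd.mul_right (by norm_num) _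
    have h2 : (2 : ℤ) ∣ ∏ j, X (2 ^ k) j := h1.trans (Finset.dvd_prod_of_mem _ (Finset.mem_univ _))
    exact Int.natCast_dvd.mp (by exact_mod_cast h2)
  have hr2 : (2 : ℝ) ≤ r := by
    have hmem : 2 ∈ (∏ j, X (2 ^ k) j).natAbs.primeFactors := by
      rw [Nat.mem_primeFactors]
      exact ⟨Nat.prime_two, h2dvd, by simpa using hprod⟩
    have hd : 2 ∣ (∏ j, X (2 ^ k) j).natAbs.primeFactors.prod id :=
      Finset.dvd_prod_of_mem id hmem
    have hp : 0 < (∏ j, X (2 ^ k) j).natAbs.primeFactors.prod id :=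
      Finset.prod_pos (fun p hp => (Nat.prime_of_mem_primeFactors hp).pos)
    have := Nat.le_of_dvd hp hd
    rw [hrdef]
    exact_mod_cast this
  have hlogr : 0 < Real.log r := Real.log_pos (by linarith)
  have hlogr2 : Real.log r ≤ Real.log 1430 + Real.log Q := by
    rw [← Real.log_mul (by norm_num) hQ0.ne']
    exact Real.log_le_log (by linarith) hr
  have hlogQ : 31 * Real.log 1430 < Real.log Q := by
    have := Real.log_lt_log (by positivity) hQbig
    rwa [Real.log_pow] at this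
  have hmax : Q ^ 16 ≤ (((Finset.univ.sup fun i => (X (2 ^ k) i).natAbs) : ℕ) : ℝ) := by
    have h1 : (X (2 ^ k) 2).natAbs ≤ Finset.univ.sup fun i => (X (2 ^ k) i).natAbs :=
      Finset.le_sup (f := fun i => (X (2 ^ k) i).natAbs) (Finset.mem_univ 2)
    have h2 : (((|X (2 ^ k) 2| : ℤ)) : ℝ) = (((X (2 ^ k) 2).natAbs : ℕ) : ℝ) := by
      rw [Int.abs_eq_natAbs]; exact Int.cast_natCast _
    rw [h2] at hl
    exact hl.trans (by exact_mod_cast h1)
  have hlogmax : 16 * Real.log Q ≤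
      Real.log (((Finset.univ.sup fun i => (X (2 ^ k) i).natAbs) : ℕ) : ℝ) := by
    have := Real.log_le_log (by positivity) hmax
    rwa [Real.log_pow] at this
  rw [lt_div_iff₀ hlogr]
  have : (2 * ((10 : ℕ) : ℝ) - 5 + 1 / 2) = 31 / 2 := by norm_num
  rw [this]
  refine lt_of_lt_of_le ?_ hlogmax
  generalize Real.log Q = A at hlogr2 hlogQ ⊢
  generalize Real.log 1430 = B at hlogr2 hlogQ
  generalize Real.log r = R at hlogr2 ⊢
  linarith

end Pool.Agent.S11182
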