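import Pool.Statements.S11353
import Pool.Agent.H328.LL.Final

set_option autoImplicit false
open Pool Pool.MP_35f602_nt

namespace Pool.Agent.S11353

/-- For p at least 3 with 2^p-1 prime, Lucas–Lehmer terms S_1=4, S_{k+1}=S_k^2-2, and any integers a,b with 2^p-1=4a^2+27b^2, S_{p-2} is congruent to (2/a)·2^((p+1)/2) modulo 2^p-1. -/
theorem result :
    ∀ p : ℕ, 3 ≤ p → Nat.Prime (mersenne p) →
      ∀ S : ℕ → ℤ, S 1 = 4 → (∀ k : ℕ, 1 ≤ k → S (k + 1) = S k ^ 2 - 2) →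
        ∀ a b : ℤ, (mersenne p : ℤ) = 4 * a ^ 2 + 27 * b ^ 2 →
          S (p - 2) ≡ jacobiSym 2 a.natAbs * 2 ^ ((p + 1) / 2) [ZMOD (mersenne p : ℤ)] :=
  fun p hp hM S hS1 hS a b hab =>
    Pool.Agent.H328.LL.mersenne_case p hp hM S hS1 hS a b hab

end Pool.Agent.S11353
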