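import Pool.Statements.S11369
import Pool.Agent.H437R2.A8

set_option autoImplicit false
open Pool Pool.MP_37bd4f_nt

namespace Pool.Agent.S11369

/-- There are constants A>0 and C such that for all large x, the absolute value of (sum over n≤x of Λ(n)/n) − log x + γ is at most C times (the max over x/A<y≤Ax of ∣ψ(y)−y∣/y, plus x^(−1/4)). -/
theorem result :
    ∃ A : ℝ, 0 < A ∧ ∃ C : ℝ, ∃ x0 : ℝ, ∀ x : ℝ, x0 ≤ x → ∀ M : ℝ,
      (∀ y : ℝ, x / A < y → y ≤ A * x →
        |(∑ n ∈ Finset.Iic ⌊y⌋₊, ArithmeticFunction.vonMangoldt n) - y| / y ≤ M) →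
      |(∑ n ∈ Finset.Iic ⌊x⌋₊, ArithmeticFunction.vonMangoldt n / (n : ℝ))
          - Real.log x + Real.eulerMascheroniConstant|
        ≤ C * (M + x ^ (-(1 / 4 : ℝ))) := by
  obtain ⟨A, hA, C, h⟩ := Pool.Agent.H437R2.main_bound
  refine ⟨A, by linarith, C, 1, fun x hx M hM => ?_⟩
  have hx0 : 0 < x := by linarith
  refine h x hx M fun y hy1 hy2 => ?_
  refine hM y ?_ hy2
  have : x / A < x := div_lt_self hx0 hA
  linarith

end Pool.Agent.S11369
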