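import Pool.Statements.S11401
import Pool.Agent.H507R2.RecipB
import Pool.Agent.H507R2.RecipC

set_option autoImplicit false
open Pool Pool.MP_3aed06_nt

namespace Pool.Agent.S11401

/-- There is a real constant c such that for every nonempty finite set of primes, the sum over all pairs p<q in the set of 1/(q−p) is less than c times the number of primes in the set. -/
theorem result :
    ∃ c : ℝ, ∀ s : Finset ℕ, s.Nonempty → (∀ p ∈ s, Nat.Prime p) →
      (∑ p ∈ s, ∑ q ∈ s.filter (fun q => p < q), (1 : ℝ) / ((q : ℝ) - (p : ℝ)))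
        < c * (s.card : ℝ) := by
  classical
  obtain ⟨C, hC, hH⟩ := Pool.Agent.H507R2.Recip.hyp_primes
  refine ⟨8 * C + 37, ?_⟩
  intro s hne hs
  have hcard : (0 : ℝ) < s.card := by exact_mod_cast hne.card_pos
  set A : Finset ℕ := s.image (fun p => p - 1) with hA
  have hinj : Set.InjOn (fun p : ℕ => p - 1) (s : Set ℕ) := by
    intro x hx y hy hxy
    have h1 := (hs x hx).pos
    have h2 := (hs y hy).pos
    simp only at hxy
    omega
  have hAcard : A.card = s.card := Finset.card_image_of_injOn hinj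
  have hAp : ∀ a ∈ A, (a + 1).Prime := by
    intro a ha
    rw [hA, Finset.mem_image] at ha
    obtain ⟨p, hp, rfl⟩ := ha
    have h1 := (hs p hp).pos
    have h2 : p - 1 + 1 = p := by omega
    rw [h2]
    exact hs p hp
  obtain ⟨L, hL⟩ : ∃ L, ∀ a ∈ A, a < 2 ^ L := by
    refine ⟨A.sup id, fun a ha => ?_⟩
    have h1 : a ≤ A.sup id := Finset.le_sup (f := id) ha
    exact lt_of_le_of_lt h1 Nat.lt_two_pow_self
  have hmain := Pool.Agent.H507R2.Recip.recip_sum hC hL
    (fun M j m h1 h2 _ => hH A hAp M j m h1 h2)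
  have hsum : ∑ a ∈ A, ∑ b ∈ A.filter (fun b => a < b), (1 : ℝ) / ((b : ℝ) - a) =
      ∑ p ∈ s, ∑ q ∈ s.filter (fun q => p < q), (1 : ℝ) / ((q : ℝ) - (p : ℝ)) := by
    rw [hA, Finset.sum_image hinj]
    apply Finset.sum_congr rfl
    intro p hp
    have hp1 := (hs p hp).pos
    have h1 : (s.image (fun p => p - 1)).filter (fun b => p - 1 < b) =
        (s.filter (fun q => p < q)).image (fun p => p - 1) := by
      ext b
      simp only [Finset.mem_filter, Finset.mem_image]
      constructor
      · rintro ⟨⟨q, hq, rfl⟩, h⟩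
        exact ⟨q, ⟨hq, by omega⟩, rfl⟩
      · rintro ⟨q, ⟨hq, h⟩, rfl⟩
        exact ⟨⟨q, hq, rfl⟩, by omega⟩
    rw [h1, Finset.sum_image (hinj.mono (by
      intro x hx
      exact (Finset.mem_filter.1 hx).1))]
    apply Finset.sum_congr rfl
    intro q hq
    have hq1 := (hs q (Finset.mem_filter.1 hq).1).pos
    congr 1
    rw [Nat.cast_sub (by omega : 1 ≤ q), Nat.cast_sub (by omega : 1 ≤ p)]
    push_cast
    ring
  rw [hsum, hAcard] at hmain
  linarith

end Pool.Agent.S11401
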