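import Pool.Statements.S11418
-- import your own Pool.Agent.* helpers here

set_option autoImplicit false
open Pool Pool.MP_3c6bfc_nt

namespace Pool.Agent.S11418

open Polynomial

/-- Solutions of `x² - 2y² = 1` with `x` large. -/
theorem pell (m : ℕ) : ∃ x y : ℤ, x ^ 2 - 2 * y ^ 2 = 1 ∧ (m : ℤ) + 1 ≤ x ∧ 0 ≤ y := by
  induction m with
  | zero => exact ⟨1, 0, by norm_num, by norm_num, le_rfl⟩
  | succ m ih =>
    obtain ⟨x, y, h1, h2, h3⟩ := ih
    refine ⟨3 * x + 4 * y, 2 * x + 3 * y, by nlinarith, ?_, by nlinarith⟩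
    push_cast
    nlinarith

/-- The height of `N X - 1`. -/
theorem height_lin (N : ℕ) (hN : 1 ≤ N) :
    ((C (N : ℤ) * X - 1 : ℤ[X]).support.sup fun i => ((C (N : ℤ) * X - 1 : ℤ[X]).coeff i).natAbs) = N := by
  have h1 : (C (N : ℤ) * X - 1 : ℤ[X]).coeff 1 = N := by simp [coeff_one]
  have h0 : (C (N : ℤ) * X - 1 : ℤ[X]).coeff 0 = -1 := by simp
  have h2 : ∀ i, (C (N : ℤ) * X - 1 : ℤ[X]).coeff (i + 2) = 0 := by
    intro i; simp [coeff_one, coeff_X]
  generalize (C (N : ℤ) * X - 1 : ℤ[X]) = P at *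
  apply le_antisymm
  · apply Finset.sup_le
    intro i _
    rcases i with _ | _ | i
    · rw [h0]; simpa using hN
    · rw [h1]; simp
    · rw [h2]; simp
  · have h3 : 1 ∈ P.support := by
      rw [mem_support_iff, h1]
      exact_mod_cast (by omega : N ≠ 0)
    have := Finset.le_sup (f := fun i => (P.coeff i).natAbs) h3
    simpa [h1] using this

/-- The height of `X² - N X + 1`. -/
theorem height_quad (N : ℕ) (hN : 1 ≤ N) :
    ((X ^ 2 - C (N : ℤ) * X + 1 : ℤ[X]).support.sup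
      fun i => ((X ^ 2 - C (N : ℤ) * X + 1 : ℤ[X]).coeff i).natAbs) = N := by
  have h0 : (X ^ 2 - C (N : ℤ) * X + 1 : ℤ[X]).coeff 0 = 1 := by simp
  have h1 : (X ^ 2 - C (N : ℤ) * X + 1 : ℤ[X]).coeff 1 = -N := by simp [coeff_one]
  have h2 : (X ^ 2 - C (N : ℤ) * X + 1 : ℤ[X]).coeff 2 = 1 := by simp [coeff_one, coeff_X]
  have h3 : ∀ i, (X ^ 2 - C (N : ℤ) * X + 1 : ℤ[X]).coeff (i + 3) = 0 := by
    intro i; simp [coeff_one, coeff_X, coeff_X_pow]
  generalize (X ^ 2 - C (N : ℤ) * X + 1 : ℤ[X]) = P at *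
  apply le_antisymm
  · apply Finset.sup_le
    intro i _
    rcases i with _ | _ | _ | i
    · rw [h0]; simpa using hN
    · rw [h1]; simp
    · rw [h2]; simpa using hN
    · rw [h3]; simp
  · have h4 : 1 ∈ P.support := by
      rw [mem_support_iff, h1]
      have : (N : ℤ) ≠ 0 := by exact_mod_cast (by omega : N ≠ 0)
      simpa using this
    have := Finset.le_sup (f := fun i => (P.coeff i).natAbs) h4
    simpa [h1] using this

theorem prim_lin (N : ℕ) : (C (N : ℤ) * X - 1 : ℤ[X]).IsPrimitive := by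
  intro r hr
  rw [C_dvd_iff_dvd_coeff] at hr
  have := hr 0
  simp at this
  exact isUnit_of_dvd_one this

theorem prim_quad (N : ℕ) : (X ^ 2 - C (N : ℤ) * X + 1 : ℤ[X]).IsPrimitive := by
  intro r hr
  rw [C_dvd_iff_dvd_coeff] at hr
  have := hr 0
  simp at this
  exact isUnit_of_dvd_one this

theorem deg_lin (N : ℕ) (hN : 1 ≤ N) : (C (N : ℤ) * X - 1 : ℤ[X]).natDegree = 1 := by
  have h : (N : ℤ) ≠ 0 := by exact_mod_cast (by omega : N ≠ 0)
  have := natDegree_linear (a := (N : ℤ)) (b := -1) h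
  rwa [map_neg, map_one, ← sub_eq_add_neg] at this

theorem deg_quad (N : ℕ) : (X ^ 2 - C (N : ℤ) * X + 1 : ℤ[X]).natDegree = 2 := by
  have := natDegree_quadratic (a := (1 : ℤ)) (b := -N) (c := 1) one_ne_zero
  simpa [sub_eq_add_neg] using this

theorem result :
    ¬ (∀ K : IntermediateField ℚ ℂ, FiniteDimensional ℚ K →
      ∀ ε : ℝ, 0 < ε → ∃ c : ℝ, 0 < c ∧
        ∀ α β : K, α ≠ β →
          ∀ P Q : Polynomial ℤ, P.IsPrimitive → Q.IsPrimitive →
            Polynomial.aeval (α : ℂ) P = 0 → Polynomial.aeval (β : ℂ) Q = 0 →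
            P.natDegree = (minpoly ℚ (α : ℂ)).natDegree →
            Q.natDegree = (minpoly ℚ (β : ℂ)).natDegree →
            c * (max ((P.support.sup fun i => (P.coeff i).natAbs : ℕ) : ℝ)
                     ((Q.support.sup fun i => (Q.coeff i).natAbs : ℕ) : ℝ)) ^ (-2 - ε)
              < ‖(α : ℂ) - (β : ℂ)‖) := by
  intro H
  obtain ⟨s, hs⟩ : ∃ s : ℝ, s = Real.sqrt 2 := ⟨_, rfl⟩
  have hs2 : s ^ 2 = 2 := by rw [hs]; norm_num
  have hs0 : 0 < s := by rw [hs]; positivity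
  have hirr : Irrational s := by rw [hs]; exact irrational_sqrt_two
  have hint : IsIntegral ℚ ((s : ℝ) : ℂ) := by
    refine ⟨X ^ 2 - C 2, ?_, ?_⟩
    · monicity!
    · simp [eval₂_sub, eval₂_pow]
      have : ((s : ℝ) : ℂ) ^ 2 = 2 := by exact_mod_cast hs2
      rw [this]; ring
  obtain ⟨c, hc, hcc⟩ := H (IntermediateField.adjoin ℚ {((s : ℝ) : ℂ)})
    (IntermediateField.adjoin.finiteDimensional hint) (1 / 2) (by norm_num)
  -- choose `x` large
  obtain ⟨m, hm⟩ := exists_nat_gt ((4 / c) ^ 2)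
  obtain ⟨x, y, hxy, hx, hy⟩ := pell (m + 1)
  obtain ⟨N, hN⟩ : ∃ N : ℕ, (N : ℤ) = 2 * x := ⟨(2 * x).toNat, by
    rw [Int.toNat_of_nonneg]; push_cast at hx; omega⟩
  have hN2 : (m : ℤ) + 1 ≤ N := by push_cast at hx; omega
  have hN1 : 1 ≤ N := by omega
  have hNm : (m : ℝ) < N := by
    have : (m : ℤ) < N := by omega
    exact_mod_cast this
  obtain ⟨b, hb⟩ : ∃ b : ℝ, b = x - y * s := ⟨_, rfl⟩
  have hxr : (1 : ℝ) ≤ x := by
    have : (1 : ℤ) ≤ x := by push_cast at hx; omega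
    exact_mod_cast this
  have hyr : (0 : ℝ) ≤ y := by exact_mod_cast hy
  have hy1 : 0 < y := by
    rcases hy.lt_or_eq with h | h
    · exact h
    · exfalso
      rw [← h] at hxy
      push_cast at hx
      nlinarith
  have hxyr : (x : ℝ) ^ 2 - 2 * (y : ℝ) ^ 2 = 1 := by exact_mod_cast hxy
  have hNr : (N : ℝ) = 2 * x := by exact_mod_cast hN
  have hbmul : b * (x + y * s) = 1 := by rw [hb]; nlinarith
  have hsum : 0 < (x : ℝ) + y * s := by positivity
  have hb0 : 0 < b := by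
    by_contra h
    push Not at h
    nlinarith
  have hbx : b * x ≤ 1 := by
    have : 0 ≤ b * (y * s) := by positivity
    nlinarith
  have hbq : b ^ 2 - N * b + 1 = 0 := by rw [hNr, hb]; nlinarith
  have hNpos : (0 : ℝ) < N := by rw [hNr]; linarith
  -- the two numbers
  have hbirr : Irrational b := by
    rw [hb]
    have h1 : Irrational ((y : ℝ) * s) := by
      have := hirr.intCast_mul (m := y) (by omega)
      exact this
    have := h1.intCast_sub x
    exact this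
  have hmemβ : ((b : ℝ) : ℂ) ∈ IntermediateField.adjoin ℚ {((s : ℝ) : ℂ)} := by
    rw [hb]
    push_cast
    refine sub_mem (intCast_mem _ x) (mul_mem (intCast_mem _ y) ?_)
    exact IntermediateField.mem_adjoin_simple_self ℚ _
  have hmemα : (((1 / (N : ℝ) : ℝ)) : ℂ) ∈ IntermediateField.adjoin ℚ {((s : ℝ) : ℂ)} := by
    push_cast
    exact div_mem (one_mem _) (natCast_mem _ N)
  have hlt := hcc ⟨_, hmemα⟩ ⟨_, hmemβ⟩ ?_ (C (N : ℤ) * X - 1) (X ^ 2 - C (N : ℤ) * X + 1)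
    (prim_lin N) (prim_quad N) ?_ ?_ ?_ ?_
  · -- the contradiction
    rw [height_lin N hN1, height_quad N hN1, max_self] at hlt
    have hnorm : ‖(((1 / (N : ℝ) : ℝ)) : ℂ) - ((b : ℝ) : ℂ)‖ = |1 / (N : ℝ) - b| := by
      rw [← Complex.ofReal_sub, Complex.norm_real, Real.norm_eq_abs]
    change _ < ‖(((1 / (N : ℝ) : ℝ)) : ℂ) - ((b : ℝ) : ℂ)‖ at hlt
    rw [hnorm] at hlt
    have h1 : 1 / (N : ℝ) - b = - (b ^ 2 / N) := by
      field_simp
      linarith
    rw [h1, abs_neg, abs_of_nonneg (by positivity)] at hlt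
    have hbN : b ≤ 2 / N := by
      rw [le_div_iff₀ hNpos, hNr]
      linarith
    have h2 : b ^ 2 / N ≤ 4 / (N : ℝ) ^ 3 := by
      have : b ^ 2 ≤ (2 / N) ^ 2 := by gcongr
      calc b ^ 2 / N ≤ (2 / N) ^ 2 / N := by gcongr
        _ = 4 / (N : ℝ) ^ 3 := by field_simp; norm_num
    have h3 : c * (N : ℝ) ^ ((-2 : ℝ) - 1 / 2) < 4 / (N : ℝ) ^ 3 := lt_of_lt_of_le hlt h2
    have h4 : (N : ℝ) ^ ((-2 : ℝ) - 1 / 2) = (N : ℝ) ^ ((1 : ℝ) / 2) / (N : ℝ) ^ 3 := by
      rw [eq_div_iff (by positivity), ← Real.rpow_natCast, ← Real.rpow_add hNpos]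
      norm_num
    rw [h4, ← Real.sqrt_eq_rpow, ← mul_div_assoc, div_lt_div_iff_of_pos_right (by positivity)] at h3
    have h5 : 4 / c < Real.sqrt N := by
      apply Real.lt_sqrt_of_sq_lt
      linarith
    rw [div_lt_iff₀ hc] at h5
    linarith
  · intro h
    have h1 : (((1 / (N : ℝ) : ℝ)) : ℂ) = ((b : ℝ) : ℂ) := congrArg Subtype.val h
    have h2 : (1 / (N : ℝ) : ℝ) = b := by exact_mod_cast h1
    apply hbirr
    rw [← h2]
    exact ⟨1 / (N : ℚ), by push_cast; ring⟩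
  · change aeval (((1 / (N : ℝ) : ℝ)) : ℂ) (C (N : ℤ) * X - 1 : ℤ[X]) = 0
    have hNc : (N : ℂ) ≠ 0 := by exact_mod_cast hNpos.ne'
    simp [hNc]
  · change aeval ((b : ℝ) : ℂ) (X ^ 2 - C (N : ℤ) * X + 1 : ℤ[X]) = 0
    simp
    exact_mod_cast hbq
  · change _ = (minpoly ℚ (((1 / (N : ℝ) : ℝ)) : ℂ)).natDegree
    have h1 : (((1 / (N : ℝ) : ℝ)) : ℂ) = algebraMap ℚ ℂ (1 / (N : ℚ)) := by
      push_cast; simp
    rw [h1, minpoly.eq_X_sub_C, natDegree_X_sub_C, deg_lin N hN1]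
  · change _ = (minpoly ℚ ((b : ℝ) : ℂ)).natDegree
    rw [deg_quad]
    have hbC : ((b : ℝ) : ℂ) ^ 2 - N * (b : ℂ) + 1 = 0 := by exact_mod_cast hbq
    obtain ⟨p, hp⟩ : ∃ p : ℚ[X], p = X ^ 2 - C (N : ℚ) * X + 1 := ⟨_, rfl⟩
    have hpm : p.Monic := by rw [hp]; monicity!
    have hpd : p.natDegree = 2 := by rw [hp]; compute_degree!
    have hroot : aeval ((b : ℝ) : ℂ) p = 0 := by
      rw [hp]; simpa using hbC
    have hintb : IsIntegral ℚ ((b : ℝ) : ℂ) := ⟨p, hpm, hroot⟩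
    have hle : (minpoly ℚ ((b : ℝ) : ℂ)).natDegree ≤ 2 := by
      rw [← hpd]
      exact natDegree_le_of_dvd (minpoly.dvd ℚ _ hroot) hpm.ne_zero
    have hge : 2 ≤ (minpoly ℚ ((b : ℝ) : ℂ)).natDegree := by
      rw [minpoly.two_le_natDegree_iff hintb]
      rintro ⟨r, hr⟩
      apply hbirr
      refine ⟨r, ?_⟩
      have : ((r : ℝ) : ℂ) = ((b : ℝ) : ℂ) := by
        rw [← hr]; simp
      exact_mod_cast this
    omega

end Pool.Agent.S11418
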