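import Pool.Statements.S11491

set_option autoImplicit false
open Pool Pool.MP_444361_nt

namespace Pool.Agent.S11491

theorem step {a p x y : ℕ} (hp : p.Prime) (hc : Nat.Coprime a p)
    (hx : Nat.totient a = x) (hy : a.divisors.card = y) :
    Nat.totient (a * p) = x * (p - 1) ∧ (a * p).divisors.card = y * 2 := by
  refine ⟨?_, ?_⟩
  · rw [Nat.totient_mul hc, Nat.totient_prime hp, hx]
  · rw [Nat.Coprime.card_divisors_mul hc, hy, hp.divisors, Finset.card_pair hp.one_lt.ne]

/-- There exists a composite natural number n, with n ≠ 4, such that n divides φ(n) times the number of divisors of n, plus 2. -/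
theorem result :
    ∃ n : ℕ, 1 < n ∧ ¬ n.Prime ∧ n ≠ 4 ∧
      n ∣ Nat.totient n * n.divisors.card + 2 := by
  refine ⟨1 * 2 * 61 * 67 * 6803 * 29027 * 15887233, by norm_num, by norm_num, by norm_num, ?_⟩
  have h0 : Nat.totient 1 = 1 := by simp
  have h0' : (1 : ℕ).divisors.card = 1 := by simp
  obtain ⟨h1, h1'⟩ := step (p := 2) (by norm_num) (by norm_num) h0 h0'
  obtain ⟨h2, h2'⟩ := step (p := 61) (by norm_num) (by norm_num) h1 h1'
  obtain ⟨h3, h3'⟩ := step (p := 67) (by norm_num) (by norm_num) h2 h2'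
  obtain ⟨h4, h4'⟩ := step (p := 6803) (by norm_num) (by norm_num) h3 h3'
  obtain ⟨h5, h5'⟩ := step (p := 29027) (by norm_num) (by norm_num) h4 h4'
  obtain ⟨h6, h6'⟩ := step (p := 15887233) (by norm_num) (by norm_num) h5 h5'
  rw [h6, h6']
  norm_num

end Pool.Agent.S11491
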