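import Pool.Statements.S11613
import Pool.Agent.H484R2.Final
import Pool.Agent.H484R2.Pit
import Pool.Agent.H354R2.Dio.Main

set_option autoImplicit false
open Pool Pool.MP_4d96c9_nt

namespace Pool.Agent.S11613

/-- For every monic integer quadratic whose iterates are all irreducible over ℚ and whose critical point has infinite orbit, and every integer α, the primes dividing some nonzero f^n(α), n≥1, have natural density 0 among primes. -/
theorem result :
    ∀ f : Polynomial ℤ, f.Monic → f.natDegree = 2 →
      (∀ n : ℕ, 1 ≤ n →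
        Irreducible (Polynomial.map (Int.castRingHom ℚ) ((f.comp)^[n] Polynomial.X))) →
      (∀ γ : ℚ,
        (Polynomial.derivative (Polynomial.map (Int.castRingHom ℚ) f)).eval γ = 0 →
        (Set.range (fun n : ℕ =>
          (fun x : ℚ => (Polynomial.map (Int.castRingHom ℚ) f).eval x)^[n] γ)).Infinite) →
      ∀ α : ℤ,
        Filter.Tendsto
          (fun N : ℕ =>
            (({p : ℕ | p ≤ N ∧ p.Prime ∧
                ∃ n : ℕ, 1 ≤ n ∧ (fun x : ℤ => f.eval x)^[n] α ≠ 0 ∧
                  (p : ℤ) ∣ (fun x : ℤ => f.eval x)^[n] α}.ncard : ℝ) /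
              (Nat.primeCounting N : ℝ)))
          Filter.atTop (nhds 0) :=
  Pool.Agent.H484R2.main Pool.Agent.H484R2.pit
    (fun b c hs hinf N => Pool.Agent.H354R2.Dio.dio b c hs hinf N)

end Pool.Agent.S11613
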