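import Pool.Statements.S11661
import Pool.Agent.H378R2.FinalAll

set_option autoImplicit false
open N6813fd5a
open Filter
open scoped ArithmeticFunction.sigma
open Pool Pool.MP_52820d_nt

namespace Pool.Agent.S11661

/-- Every real x > 1 is in the closure of {τ((n+⌊log n⌋₊)!)/τ(n!) : n ∈ ℕ}, with σ 0 = divisor count and natural log. -/
theorem result :
    Set.Ioi (1 : ℝ) ⊆ closure (Set.range (F fun m ↦ Real.log m)) := by
  have hmono : Monotone (fun m : ℕ => Real.log m) := by
    intro a b hab
    rcases Nat.eq_zero_or_pos a with ha | ha
    · subst ha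
      simp only [Nat.cast_zero, Real.log_zero]
      exact Real.log_natCast_nonneg b
    · exact Real.log_le_log (by exact_mod_cast ha) (by exact_mod_cast hab)
  have hinf : Tendsto (fun m : ℕ => Real.log m) atTop atTop :=
    Real.tendsto_log_atTop.comp tendsto_natCast_atTop_atTop
  have h := Pool.Agent.H378R2.density (fun m : ℕ => Real.log m) hmono (fun n => le_refl _) hinf
  have e : (fun n : ℕ => ((n + ⌊(fun m : ℕ => Real.log m) n⌋₊).factorial.divisors.card : ℝ) /
      (n.factorial.divisors.card : ℝ)) = F (fun m => Real.log m) := by
    funext n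
    simp only [F, ArithmeticFunction.sigma_zero_apply]
  rw [← e]
  exact h

end Pool.Agent.S11661
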