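import Pool.Statements.S11735
import Pool.Agent.H320R2.PDFinal
-- import your own Pool.Agent.* helpers here

set_option autoImplicit false
open Pool Pool.MP_5a39b1_nt

namespace Pool.Agent.S11735

/-- For every integer a not divisible by 3 there are c>0 and N0 such that for all natural N≥N0, c·N < #{n∈ℤ : ∣n∣≤N, T^k(n)=a for some k}, with T(m)= m/2 if even else (3m+1)/2 on ℤ. -/
theorem result :
    ∀ a : ℤ, ¬ ((3 : ℤ) ∣ a) →
      ∃ c : ℝ, 0 < c ∧ ∃ N₀ : ℕ, ∀ N : ℕ, N₀ ≤ N →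
        c * (N : ℝ) <
          (({n : ℤ | |n| ≤ (N : ℤ) ∧
              ∃ k : ℕ, (fun m : ℤ => if m % 2 = 0 then m / 2 else (3 * m + 1) / 2)^[k] n = a}.ncard : ℕ) : ℝ) := by
  exact Pool.Agent.H320R2.PD.S11735

end Pool.Agent.S11735
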