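import Pool.Statements.S11803
import Pool.Agent.Helper377.Main

set_option autoImplicit false
open Pool Pool.MP_6090df_nt

namespace Pool.Agent.S11803

/-- Only finitely many n have the maximum over k≥1 of V(n;k) equal to 1, where V(n;k) counts primes p whose exact power dividing n+k divides none of n, …, n+k−1. -/
theorem result :
    {n : ℕ | (∀ k : ℕ, 1 ≤ k →
        {p : ℕ | p.Prime ∧ p ∣ n + k ∧
          ∀ i : ℕ, i < k → ¬ p ^ ((n + k).factorization p) ∣ n + i}.ncard ≤ 1) ∧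
      ∃ k : ℕ, 1 ≤ k ∧
        {p : ℕ | p.Prime ∧ p ∣ n + k ∧
          ∀ i : ℕ, i < k → ¬ p ^ ((n + k).factorization p) ∣ n + i}.ncard = 1}.Finite := by
  obtain ⟨N0, hN0⟩ := Pool.Agent.Helper377.Main.main 1
  refine (Set.finite_lt_nat N0).subset ?_
  rintro n ⟨hle, -⟩
  by_contra hn
  have hn' : N0 ≤ n := by
    simpa using hn
  obtain ⟨k, hk, p, q, hp, hq, hpq, hkp, hkq, hpd, hqd⟩ := hN0 n hn'
  have hnk : n + k ≠ 0 := by omega
  have hnew : ∀ r : ℕ, r.Prime → k < r → r ∣ n + k → ∀ i : ℕ, i < k →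
      ¬ r ^ ((n + k).factorization r) ∣ n + i := by
    intro r hr hkr hrd i hi hri
    have h0 : r ∣ r ^ ((n + k).factorization r) :=
      dvd_pow_self r (hr.factorization_pos_of_dvd hnk hrd).ne'
    have h1 : r ∣ (n + k) - (n + i) := Nat.dvd_sub hrd (h0.trans hri)
    have h2 : (n + k) - (n + i) = k - i := by omega
    rw [h2] at h1
    have h3 := Nat.le_of_dvd (by omega) h1
    omega
  have hfin : {p : ℕ | p.Prime ∧ p ∣ n + k ∧
      ∀ i : ℕ, i < k → ¬ p ^ ((n + k).factorization p) ∣ n + i}.Finite := by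
    refine (Set.finite_le_nat (n + k)).subset ?_
    rintro r ⟨_, hr, _⟩
    exact Nat.le_of_dvd (by omega) hr
  have hsub : ({p, q} : Set ℕ) ⊆ {p : ℕ | p.Prime ∧ p ∣ n + k ∧
      ∀ i : ℕ, i < k → ¬ p ^ ((n + k).factorization p) ∣ n + i} := by
    intro r hr
    rcases hr with rfl | hr
    · exact ⟨hp, hpd, hnew _ hp hkp hpd⟩
    · rw [Set.mem_singleton_iff] at hr
      subst hr
      exact ⟨hq, hqd, hnew _ hq hkq hqd⟩
  have hc := Set.ncard_le_ncard hsub hfin
  rw [Set.ncard_pair hpq] at hc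
  have := hle k hk
  omega

end Pool.Agent.S11803
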