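import Pool.Statements.S11882
import Pool.Agent.H381R2.BennettMain

set_option autoImplicit false
open Pool Pool.MP_66b831_nt

namespace Pool.Agent.S11882

/-- The negation of the preceding statement: There exist integers x, y, z > 1 with x²−1 = (z²−1)²(y²−1) such that (x,y,z) is neither (m(4m²−3), m, 2m) for any m ≥ 2 nor (8m⁴+16m³+8m²−1, 2m²+2m, 2m+1) for any m ≥ 1. -/
theorem result :
    ¬ (∃ x y z : ℤ, 1 < x ∧ 1 < y ∧ 1 < z ∧
      x ^ 2 - 1 = (z ^ 2 - 1) ^ 2 * (y ^ 2 - 1) ∧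
      ¬ (∃ m : ℤ, 2 ≤ m ∧ x = m * (4 * m ^ 2 - 3) ∧ y = m ∧ z = 2 * m) ∧
      ¬ (∃ m : ℤ, 1 ≤ m ∧ x = 8 * m ^ 4 + 16 * m ^ 3 + 8 * m ^ 2 - 1 ∧
          y = 2 * m ^ 2 + 2 * m ∧ z = 2 * m + 1)) := by
  rintro ⟨x, y, z, hx, hy, hz, h, hF1, hF2⟩
  obtain ⟨n, hxn, hzn⟩ := Pool.Agent.H381R2.pell_sol y (by omega) (z ^ 2 - 1).toNat x (z ^ 2 - 1)
    (by omega) (by nlinarith) le_rfl (by linear_combination h)
  have hu2 : Pool.Agent.H381R2.u y 2 = 2 * y := by
    have := Pool.Agent.H381R2.u_rec y 0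
    simpa using this
  have hT2 : Pool.Agent.H381R2.T y 2 = 2 * y ^ 2 - 1 := by
    have := Pool.Agent.H381R2.T_two_mul y 1
    simpa using this
  rcases Pool.Agent.H381R2.main y z (by omega) (by omega) n hzn with hn | hn
  · subst hn
    rw [hu2] at hzn
    rw [hT2] at hxn
    apply hF2
    rcases Int.even_or_odd' z with ⟨m, hm | hm⟩
    · exfalso
      have : z ^ 2 = 4 * m ^ 2 := by rw [hm]; ring
      omega
    · have hy' : y = 2 * m ^ 2 + 2 * m := by
        have : z ^ 2 = 4 * m ^ 2 + 4 * m + 1 := by rw [hm]; ring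
        linarith
      refine ⟨m, by omega, ?_, hy', hm⟩
      rw [hxn, hy']; ring
  · subst hn
    have hu3 : Pool.Agent.H381R2.u y 3 = 4 * y ^ 2 - 1 := by
      rw [Pool.Agent.H381R2.u_succ y 2, hT2, hu2]; ring
    have hT3 : Pool.Agent.H381R2.T y 3 = y * (4 * y ^ 2 - 3) := by
      rw [Pool.Agent.H381R2.T_succ y 2, hT2, hu2]; ring
    rw [hu3] at hzn
    rw [hT3] at hxn
    apply hF1
    refine ⟨y, by omega, hxn, rfl, ?_⟩
    have h4 : (z - 2 * y) * (z + 2 * y) = 0 := by linear_combination hzn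
    rcases mul_eq_zero.mp h4 with h5 | h5
    · linarith
    · exfalso; linarith

end Pool.Agent.S11882
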