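import Pool.Statements.S11951
-- import your own Pool.Agent.* helpers here
import Pool.Agent.H489R2.Grp2

set_option autoImplicit false
open Filter
open Pool Pool.MP_6e8743_nt

namespace Pool.Agent.S11951

open Pool.Agent.H489R2

lemma card_eq_cnt {G : Type} (f : ℕ → G) (g : G) (N : ℕ) :
    (Nat.card {m : ℕ // 1 ≤ m ∧ m ≤ N ∧ f m = g} : ℝ) = cnt f g N := by
  classical
  unfold cnt
  rw [← Finset.sum_filter, Finset.sum_const, nsmul_eq_mul, mul_one]
  congr 1
  refine Nat.subtype_card _ fun x => ?_
  rw [Finset.mem_filter, Finset.mem_Ioc]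
  constructor
  · rintro ⟨⟨h1, h2⟩, h3⟩
    exact ⟨h1, h2, h3⟩
  · rintro ⟨h1, h2, h3⟩
    exact ⟨⟨h1, h2⟩, h3⟩

/-- For every group G, every multiplicative f from positive integers to G (f(1)=1, f(mn)=f(m)f(n) for coprime m,n) and every g in G, the proportion of m ≤ N with f(m)=g converges as N grows. -/
theorem result :
    ∀ (G : Type) [Group G] (f : ℕ → G),
      f 1 = 1 →
      (∀ m n : ℕ, 0 < m → 0 < n → Nat.Coprime m n → f (m * n) = f m * f n) →
      ∀ g : G, ∃ d : ℝ,
        Tendsto
          (fun N : ℕ => (Nat.card {m : ℕ // 1 ≤ m ∧ m ≤ N ∧ f m = g} : ℝ) / (N : ℝ))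
          atTop (nhds d) := by
  classical
  intro G _ f hf1 hf g
  -- the subgroup generated by the values at the primes
  set k : Set G := {x | ∃ p : ℕ, p.Prime ∧ f p = x} with hk
  have hcomm : ∀ x ∈ k, ∀ y ∈ k, x * y = y * x := by
    rintro x ⟨p, hp, rfl⟩ y ⟨q, hq, rfl⟩
    rcases eq_or_ne p q with rfl | hpq
    · rfl
    · rw [← hf p q hp.pos hq.pos ((Nat.coprime_primes hp hq).mpr hpq), mul_comm p q,
        hf q p hq.pos hp.pos ((Nat.coprime_primes hq hp).mpr hpq.symm)]
  have hAc : ∀ x y : Subgroup.closure k, x * y = y * x := by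
    have := Subgroup.isMulCommutative_closure hcomm
    intro x y
    exact this.is_comm.comm x y
  let _ : CommGroup (Subgroup.closure k) := { (inferInstance : Group (Subgroup.closure k)) with
    mul_comm := hAc }
  let φ : ℕ → Subgroup.closure k := fun p =>
    if hp : p.Prime then ⟨f p, Subgroup.subset_closure ⟨p, hp, rfl⟩⟩ else 1
  let fh : ℕ → Subgroup.closure k := fun n => n.factorization.prod fun p j => φ p ^ j
  have fh1 : fh 1 = 1 := by simp [fh]
  have fhmul : ∀ m n, 0 < m → 0 < n → fh (m * n) = fh m * fh n := by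
    intro m n hm hn
    show (m * n).factorization.prod _ = _
    rw [Nat.factorization_mul hm.ne' hn.ne', Finsupp.prod_add_index']
    · intro a; exact pow_zero _
    · intro a b c; exact pow_add _ _ _
  have fhp : ∀ p, p.Prime → ((fh p : Subgroup.closure k) : G) = f p := by
    intro p hp
    show ((p.factorization.prod (fun p j => φ p ^ j) : Subgroup.closure k) : G) = f p
    rw [hp.factorization, Finsupp.prod_single_index (h := fun p j => φ p ^ j) (pow_zero _), pow_one]
    show ((if hp : p.Prime then ⟨f p, Subgroup.subset_closure ⟨p, hp, rfl⟩⟩ else 1 :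
      Subgroup.closure k) : G) = f p
    rw [dif_pos hp]
  have hd := hasDens_comm fh fh1 fhmul
  -- densities of the function with values in `G`
  let f₀ : ℕ → G := fun n => (fh n : G)
  have hd0 : HasDens f₀ := by
    intro a
    by_cases ha : a ∈ Subgroup.closure k
    · obtain ⟨d, hd'⟩ := hd ⟨a, ha⟩
      refine ⟨d, hd'.congr fun N => ?_⟩
      congr 1
      unfold cnt
      refine Finset.sum_congr rfl fun n _ => ?_
      have : (fh n = ⟨a, ha⟩) ↔ (f₀ n = a) := by
        rw [Subtype.ext_iff]
      simp only [this]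
    · refine ⟨0, tendsto_const_nhds.congr fun N => ?_⟩
      unfold cnt
      rw [Finset.sum_eq_zero, zero_div]
      intro n _
      rw [if_neg]
      rintro rfl
      exact ha (fh n).2
  have h := dens_transfer f f₀ hf1 hf (by show ((fh 1 : Subgroup.closure k) : G) = 1; rw [fh1]; rfl)
    (by
      intro p m hp hm
      show ((fh (p * m) : Subgroup.closure k) : G) = (fh p : G) * (fh m : G)
      rw [fhmul p m hp.pos hm]; rfl)
    (by
      intro p q j hp hq hpq
      show f (q ^ j) * (fh p : G) = (fh p : G) * f (q ^ j)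
      rw [fhp p hp]
      have hc : Nat.Coprime (q ^ j) p :=
        Nat.Coprime.pow_left _ ((Nat.coprime_primes hq hp).mpr hpq.symm)
      rw [← hf _ _ (pow_pos hq.pos j) hp.pos hc, mul_comm, hf _ _ hp.pos (pow_pos hq.pos j) hc.symm])
    (by
      refine summable_zero.congr fun p => ?_
      rw [if_neg]
      rintro ⟨hp, hne⟩
      exact hne (fhp p hp).symm) hd0
  obtain ⟨d, hd'⟩ := h g
  refine ⟨d, hd'.congr fun N => ?_⟩
  rw [card_eq_cnt]

end Pool.Agent.S11951
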