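import Pool.Statements.S12093

set_option autoImplicit false
open Pool Pool.MP_7cf9eb_nt

namespace Pool.Agent.S12093

open Filter Topology Chebyshev

/-- a linear lower bound for `θ` -/
lemma theta_lower : ∃ T : ℝ, 3 ≤ T ∧ ∀ t : ℝ, T ≤ t → 0.6 * t ≤ θ t := by
  have h1 : Tendsto (fun t : ℝ => ((t - 1) * Real.log 2 - Real.log (t + 2) - 2 * √t * Real.log t) / t)
      atTop (𝓝 (Real.log 2)) := by
    have a1 : Tendsto (fun t : ℝ => (t - 1) / t) atTop (𝓝 1) := by
      have : Tendsto (fun t : ℝ => 1 - 1 / t) atTop (𝓝 (1 - 0)) :=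
        tendsto_const_nhds.sub (tendsto_const_nhds.div_atTop tendsto_id)
      rw [sub_zero] at this
      refine this.congr' ?_
      filter_upwards [eventually_gt_atTop (0 : ℝ)] with t ht
      field_simp
    have a2 : Tendsto (fun t : ℝ => Real.log (t + 2) / t) atTop (𝓝 0) := by
      have b1 : Tendsto (fun t : ℝ => Real.log (t + 2) / (t + 2)) atTop (𝓝 0) := by
        have := Real.tendsto_pow_log_div_mul_add_atTop 1 0 1 one_ne_zero
        simp only [pow_one, one_mul, add_zero] at this
        exact this.comp (tendsto_atTop_add_const_right _ _ tendsto_id)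
      have b2 : Tendsto (fun t : ℝ => 2 * (Real.log (t + 2) / (t + 2))) atTop (𝓝 (2 * 0)) :=
        b1.const_mul 2
      rw [mul_zero] at b2
      refine squeeze_zero' ?_ ?_ b2
      · filter_upwards [eventually_gt_atTop (2 : ℝ)] with t ht
        exact div_nonneg (Real.log_nonneg (by linarith)) (by linarith)
      · filter_upwards [eventually_gt_atTop (2 : ℝ)] with t ht
        have hl : 0 ≤ Real.log (t + 2) := Real.log_nonneg (by linarith)
        rw [← mul_div_assoc, div_le_div_iff₀ (by linarith) (by linarith)]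
        nlinarith
    have a3 : Tendsto (fun t : ℝ => 2 * √t * Real.log t / t) atTop (𝓝 0) := by
      have b1 := (isLittleO_log_rpow_atTop (r := 1/2) (by norm_num)).tendsto_div_nhds_zero
      have b2 : Tendsto (fun t : ℝ => 2 * (Real.log t / t ^ (1/2 : ℝ))) atTop (𝓝 (2 * 0)) :=
        b1.const_mul 2
      rw [mul_zero] at b2
      refine b2.congr' ?_
      filter_upwards [eventually_gt_atTop (0 : ℝ)] with t ht
      have hs : 0 < √t := Real.sqrt_pos.mpr ht
      rw [← Real.sqrt_eq_rpow]
      have h9 : √t ^ 2 = t := Real.sq_sqrt ht.le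
      field_simp
      rw [h9]
    have h := ((a1.mul_const (Real.log 2)).sub a2).sub a3
    simp only [one_mul, sub_zero] at h
    refine h.congr' ?_
    filter_upwards [eventually_gt_atTop (0 : ℝ)] with t ht
    field_simp
  have h2 : ∀ᶠ t : ℝ in atTop, (0.6 : ℝ) <
      ((t - 1) * Real.log 2 - Real.log (t + 2) - 2 * √t * Real.log t) / t :=
    h1.eventually_const_lt (by linarith [Real.log_two_gt_d9])
  obtain ⟨T, hT⟩ := eventually_atTop.mp h2
  refine ⟨max T 3, le_max_right _ _, fun t ht => ?_⟩
  have ht3 : (3 : ℝ) ≤ t := (le_max_right _ _).trans ht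
  have h3 := hT t ((le_max_left _ _).trans ht)
  rw [lt_div_iff₀ (by linarith)] at h3
  exact h3.le.trans (theta_ge' (by linarith))

/-- lower bound for `π - θ / log` -/
lemma pi_sub_lower : ∃ T : ℝ, 3 ≤ T ∧ (∀ t : ℝ, T ≤ t → 0.6 * t ≤ θ t) ∧
    ∀ N : ℕ, T ≤ N → θ N / Real.log N + 0.6 * (N - T) / Real.log N ^ 2 ≤ Nat.primeCounting N := by
  obtain ⟨T, hT3, hT⟩ := theta_lower
  refine ⟨T, hT3, hT, fun N hN => ?_⟩
  have hN3 : (3 : ℝ) ≤ N := hT3.trans hN
  have h1 := primeCounting_eq_theta_div_log_add_integral (x := (N : ℝ)) (by linarith)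
  rw [Nat.floor_natCast] at h1
  rw [h1]
  have hInt : ∀ a b : ℝ, 2 ≤ a → a ≤ b → IntervalIntegrable (fun t ↦ θ t / (t * Real.log t ^ 2))
      MeasureTheory.volume a b := by
    intro a b ha hab
    rw [intervalIntegrable_iff_integrableOn_Icc_of_le hab]
    exact (integrableOn_theta_div_id_mul_log_sq b).mono_set (Set.Icc_subset_Icc_left ha)
  have h2 : (∫ t in (2:ℝ)..N, θ t / (t * Real.log t ^ 2)) =
      (∫ t in (2:ℝ)..T, θ t / (t * Real.log t ^ 2)) + ∫ t in T..N, θ t / (t * Real.log t ^ 2) :=
    (intervalIntegral.integral_add_adjacent_intervals (hInt 2 T le_rfl (by linarith))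
      (hInt T N (by linarith) hN)).symm
  have h3 : 0 ≤ ∫ t in (2:ℝ)..T, θ t / (t * Real.log t ^ 2) := by
    refine intervalIntegral.integral_nonneg (by linarith) fun t ht => ?_
    exact div_nonneg (theta_nonneg t) (mul_nonneg (by linarith [ht.1]) (sq_nonneg _))
  have h4 : 0.6 * (N - T) / Real.log N ^ 2 ≤ ∫ t in T..N, θ t / (t * Real.log t ^ 2) := by
    have h5 : (∫ t in T..(N:ℝ), (0.6 / Real.log N ^ 2 : ℝ)) ≤ ∫ t in T..N, θ t / (t * Real.log t ^ 2) := by
      refine intervalIntegral.integral_mono_on hN _root_.intervalIntegrable_const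
        (hInt T N (by linarith) hN) fun t ht => ?_
      have ht0 : 0 < t := by linarith [ht.1]
      have hl1 : 0 < Real.log t := Real.log_pos (by linarith [ht.1])
      have hl2 : Real.log t ≤ Real.log N := Real.log_le_log ht0 ht.2
      have hl3 : Real.log t ^ 2 ≤ Real.log N ^ 2 := by gcongr
      have hθ := hT t ht.1
      have hlN : 0 < Real.log N := by linarith
      rw [div_le_div_iff₀ (by positivity) (by positivity)]
      calc 0.6 * (t * Real.log t ^ 2) = (0.6 * t) * Real.log t ^ 2 := by ring
        _ ≤ θ t * Real.log N ^ 2 := by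
          apply mul_le_mul hθ hl3 (by positivity) (theta_nonneg t)
    rw [intervalIntegral.integral_const] at h5
    calc 0.6 * (N - T) / Real.log N ^ 2 = (N - T) • (0.6 / Real.log N ^ 2 : ℝ) := by
          rw [smul_eq_mul]; ring
      _ ≤ _ := h5
  rw [h2]
  linarith

/-- the function `t / log t` -/
lemma div_log_mono {a b : ℝ} (ha : Real.exp 1 ≤ a) (hab : a ≤ b) :
    a / Real.log a ≤ b / Real.log b := by
  have ha0 : 0 < a := (Real.exp_pos 1).trans_le ha
  have hb0 : 0 < b := ha0.trans_le hab
  have hla : 0 < Real.log a := by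
    have := Real.log_le_log (Real.exp_pos 1) ha
    rw [Real.log_exp] at this
    linarith
  have hlb : 0 < Real.log b := hla.trans_le (Real.log_le_log ha0 hab)
  have h := Real.log_div_self_antitoneOn (Set.mem_Ici.mpr ha) (Set.mem_Ici.mpr (ha.trans hab)) hab
  simp only at h
  rw [div_le_div_iff₀ hb0 ha0] at h
  rw [div_le_div_iff₀ hla hlb]
  linarith

/-- upper bound for `u / log u` in terms of `log N` -/
lemma div_log_upper {u N : ℝ} (hN : 16 ≤ N) (hu : 0.6 * N ≤ u) :
    u / Real.log u ≤ u / Real.log N + 0.37 * N / (Real.log N * (Real.log N - 1)) := by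
  have hN0 : (0 : ℝ) < N := by linarith
  have hlN : 2 < Real.log N := by
    rw [Real.lt_log_iff_exp_lt hN0]
    have h1 := Real.exp_one_lt_d9
    have h2 : Real.exp 2 = Real.exp 1 * Real.exp 1 := by rw [← Real.exp_add]; norm_num
    rw [h2]
    nlinarith [Real.exp_pos 1]
  have hu0 : 0 < u := by nlinarith
  have hlu : Real.log N - 1 ≤ Real.log u := by
    have h1 : Real.log (N / Real.exp 1) ≤ Real.log u := by
      apply Real.log_le_log (by positivity)
      refine le_trans ?_ hu
      rw [div_le_iff₀ (Real.exp_pos 1)]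
      have := Real.exp_one_gt_d9
      nlinarith
    rw [Real.log_div hN0.ne' (Real.exp_pos 1).ne', Real.log_exp] at h1
    exact h1
  have hpos : 0 ≤ 0.37 * N / (Real.log N * (Real.log N - 1)) := by
    apply div_nonneg (by positivity)
    apply mul_nonneg <;> linarith
  by_cases hc : N ≤ u
  · have : Real.log N ≤ Real.log u := Real.log_le_log hN0 hc
    have h2 : u / Real.log u ≤ u / Real.log N := by
      apply div_le_div_of_nonneg_left hu0.le (by linarith) this
    linarith
  · push Not at hc
    have hlt : Real.log u ≤ Real.log N := Real.log_le_log hu0 hc.le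
    -- s = log N - log u ; u = N exp (-s)
    set s := Real.log N - Real.log u with hs
    have hus : u * s ≤ 0.37 * N := by
      have h1 : s ≤ Real.exp (s - 1) := by linarith [Real.add_one_le_exp (s - 1)]
      have h2 : u = N * Real.exp (-s) := by
        rw [hs, neg_sub, Real.exp_sub, Real.exp_log hu0, Real.exp_log hN0]
        field_simp
      have h3 : Real.exp (-s) * s ≤ Real.exp (-1) := by
        calc Real.exp (-s) * s ≤ Real.exp (-s) * Real.exp (s - 1) :=
              mul_le_mul_of_nonneg_left h1 (Real.exp_pos _).le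
          _ = Real.exp (-1) := by rw [← Real.exp_add]; congr 1; ring
      have h4 : Real.exp (-1) ≤ 0.37 := by
        rw [Real.exp_neg, inv_eq_one_div, div_le_iff₀ (Real.exp_pos 1)]
        have := Real.exp_one_gt_d9
        linarith
      calc u * s = N * (Real.exp (-s) * s) := by rw [h2]; ring
        _ ≤ N * 0.37 := by apply mul_le_mul_of_nonneg_left (h3.trans h4) hN0.le
        _ = 0.37 * N := by ring
    have hs0 : 0 ≤ s := by linarith
    have h5 : u / Real.log u - u / Real.log N = (u * s) / (Real.log N * Real.log u) := by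
      have : Real.log u ≠ 0 := by linarith
      have : Real.log N ≠ 0 := by linarith
      rw [hs]
      field_simp
    have h6 : (u * s) / (Real.log N * Real.log u) ≤ 0.37 * N / (Real.log N * (Real.log N - 1)) := by
      apply div_le_div₀ (by positivity) hus
      · apply mul_pos <;> linarith
      · apply mul_le_mul_of_nonneg_left hlu (by linarith)
    linarith

/-- the main asymptotic inequality -/
lemma main_ineq (C : ℝ) : ∃ N₀ : ℕ, ∀ N : ℕ, N₀ ≤ N →
    Real.exp 1 ≤ θ N + 1 ∧ 
    (θ N + 1) / Real.log (θ N + 1) + C ≤ Nat.primeCounting N := by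
  obtain ⟨T, hT3, hT, hpi⟩ := pi_sub_lower
  -- N / log² N → ∞
  have h1 : Tendsto (fun t : ℝ => t / Real.log t ^ 2) atTop atTop := by
    have := Real.tendsto_pow_log_div_mul_add_atTop 1 0 2 one_ne_zero
    simp only [one_mul, add_zero] at this
    have h2 : Tendsto (fun t : ℝ => Real.log t ^ 2 / t) atTop (𝓝[>] 0) := by
      rw [tendsto_nhdsWithin_iff]
      refine ⟨this, ?_⟩
      filter_upwards [eventually_gt_atTop (1 : ℝ)] with t ht
      have h8 := Real.log_pos ht
      exact Set.mem_Ioi.mpr (div_pos (pow_pos h8 2) (zero_lt_one.trans ht))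
    have h3 := h2.inv_tendsto_nhdsGT_zero
    refine h3.congr fun t => ?_
    simp
  have h2 : Tendsto (fun N : ℕ => (N : ℝ) / Real.log N ^ 2) atTop atTop :=
    h1.comp tendsto_natCast_atTop_atTop
  have h3 := (h2.eventually_ge_atTop (5 * (C + 2 + T)))
  have h4 : ∀ᶠ N : ℕ in atTop, (20 : ℝ) ≤ Real.log N :=
    (Real.tendsto_log_atTop.comp tendsto_natCast_atTop_atTop).eventually_ge_atTop 20
  have h5 : ∀ᶠ N : ℕ in atTop, T + 16 ≤ (N : ℝ) :=
    tendsto_natCast_atTop_atTop.eventually_ge_atTop _
  obtain ⟨N₀, hN₀⟩ := eventually_atTop.mp (h3.and (h4.and h5))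
  refine ⟨N₀, fun N hN => ?_⟩
  obtain ⟨ha, hb, hc⟩ := hN₀ N hN
  have hθ := hT N (by linarith)
  have hN19 : (19 : ℝ) ≤ N := by linarith
  refine ⟨by linarith [Real.exp_one_lt_d9], ?_⟩
  have hp := hpi N (by linarith)
  have hu := div_log_upper (u := θ N + 1) (N := N) (by linarith) (by linarith)
  refine le_trans ?_ hp
  set L := Real.log N with hL
  have hL0 : 0 < L := by linarith
  have e1 : (θ N + 1) / L = θ N / L + 1 / L := by rw [add_div]
  have e2 : 1 / L ≤ 1 := by rw [div_le_one hL0]; linarith
  have e3 : 0.37 * (N : ℝ) / (L * (L - 1)) ≤ 0.4 * (N / L ^ 2) := by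
    rw [← mul_div_assoc, div_le_div_iff₀ (by apply mul_pos <;> linarith) (by positivity)]
    have : 0.37 * L ^ 2 ≤ 0.4 * (L * (L - 1)) := by nlinarith
    have hN0 : (0 : ℝ) ≤ N := by linarith
    nlinarith [mul_le_mul_of_nonneg_left this hN0]
  have e4 : 0.6 * ((N : ℝ) - T) / L ^ 2 = 0.6 * (N / L ^ 2) - 0.6 * T / L ^ 2 := by
    field_simp
  have e5 : 0.6 * T / L ^ 2 ≤ 0.2 * T := by
    rw [div_le_iff₀ (by positivity)]
    have : (3 : ℝ) ≤ L ^ 2 := by nlinarith
    nlinarith
  rw [e1] at hu
  rw [e4]
  nlinarith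

/-- For every constant C and threshold K, only finitely many n satisfy: for all k with K ≤ k < n, the number of distinct prime factors of n−k is less than log k / log log k + C. -/
theorem result :
    ∀ C : ℝ, ∀ K : ℕ,
      Set.Finite {n : ℕ | ∀ k : ℕ, K ≤ k → k < n →
        (((n - k).primeFactors.card : ℕ) : ℝ) <
          Real.log (k : ℝ) / Real.log (Real.log (k : ℝ)) + C} := by
  intro C K'
  set K := max K' 16 with hK
  obtain ⟨N₀, hN₀⟩ := main_ineq C
  set N := max N₀ K with hN
  obtain ⟨hθ, hmain⟩ := hN₀ N (le_max_left _ _)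
  set P := primorial N with hP
  have hP0 : 0 < P := primorial_pos N
  have hKP : K ≤ P := (le_max_right N₀ K).trans (le_primorial_self)
  refine (Set.finite_lt_nat (K + P)).subset fun n hn => ?_
  simp only [Set.mem_ofPred_eq] at hn ⊢
  by_contra hlt
  push Not at hlt
  set k := K + (n - K) % P with hk
  have hmod : (n - K) % P < P := Nat.mod_lt _ hP0
  have hkn : k < n := by omega
  have hdiv : n - k = P * ((n - K) / P) := by
    have := Nat.div_add_mod (n - K) P
    omega
  have hnk : n - k ≠ 0 := by omega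
  have h1 := hn k (by omega) hkn
  have h2 : Nat.primeCounting N ≤ (n - k).primeFactors.card := by
    rw [← Nat.primesLE_card_eq_primeCounting, ← primeFactors_primorial]
    apply Finset.card_le_card
    apply Nat.primeFactors_mono _ hnk
    rw [hdiv]
    exact dvd_mul_right _ _
  have hk16 : 16 ≤ k := by omega
  have hlogk : Real.exp 1 ≤ Real.log k := by
    have h3 : Real.log 16 ≤ Real.log k := Real.log_le_log (by norm_num) (by exact_mod_cast hk16)
    have h4 : Real.log 16 = 4 * Real.log 2 := by
      rw [show (16 : ℝ) = 2 ^ 4 by norm_num, Real.log_pow]; norm_num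
    have h5 := Real.log_two_gt_d9
    have h6 := Real.exp_one_lt_d9
    linarith
  have hlogk2 : Real.log k ≤ θ N + 1 := by
    have h3 : (k : ℝ) ≤ P * Real.exp 1 := by
      have : (k : ℝ) ≤ K + P := by
        have : k ≤ K + P := by omega
        exact_mod_cast this
      have h4 : (K : ℝ) ≤ P := by exact_mod_cast hKP
      have h5 := Real.exp_one_gt_d9
      have h6 : (0 : ℝ) < P := by exact_mod_cast hP0
      nlinarith
    have h4 : θ N = Real.log P := by
      rw [theta_eq_log_primorial, Nat.floor_natCast]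
    have h5 : (0 : ℝ) < P := by exact_mod_cast hP0
    calc Real.log k ≤ Real.log (P * Real.exp 1) :=
          Real.log_le_log (by exact_mod_cast (by omega : 0 < k)) h3
      _ = θ N + 1 := by rw [Real.log_mul h5.ne' (Real.exp_pos 1).ne', Real.log_exp, h4]
  have h3 := div_log_mono hlogk hlogk2
  have h4 : (Nat.primeCounting N : ℝ) ≤ ((n - k).primeFactors.card : ℕ) := by exact_mod_cast h2
  linarith

end Pool.Agent.S12093
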