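import Pool.Statements.S12172
-- import your own Pool.Agent.* helpers here

set_option autoImplicit false
open Pool Pool.MP_869812_nt

namespace Pool.Agent.S12172

/-! The map `f(x) = (31x² + 159x + 20)/(-62x + 20)` has at least 16 rational preperiodic points:
fixed points `∞, -4/3, -5/31`; the 2-cycle `21/31, -200/31`; the 3-cycle `0, 1, -5`;
and the other preimages of these eight points. -/

/-- the integer version of the map on coordinates -/
def step (v : ℤ × ℤ) : ℤ × ℤ :=
  (31 * v.1 ^ 2 + 159 * v.1 * v.2 + 20 * v.2 ^ 2, -62 * v.1 * v.2 + 20 * v.2 ^ 2)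

/-- the sixteen points -/
def pts : Fin 16 → ℤ × ℤ :=
  ![(1, 0), (-4, 3), (-5, 31), (21, 31), (-200, 31), (0, 1), (1, 1), (-5, 1),
    (10, 31), (35, -31), (-144, 31), (-1, 31), (220, 31), (-4, 31), (-221, 31), (120, 31)]

def vec (v : ℤ × ℤ) : Fin 2 → ℚ := ![(v.1 : ℚ), (v.2 : ℚ)]

lemma pts_ne : ∀ i, pts i ≠ (0, 0) := by decide

lemma pts_indep : ∀ i j, i ≠ j → (pts i).1 * (pts j).2 ≠ (pts i).2 * (pts j).1 := by decide

lemma pts_per : ∀ i, ∃ m : Fin 2, ∃ n : Fin 5, m.val < n.val ∧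
    (step^[n.val] (pts i)).1 * (step^[m.val] (pts i)).2 =
      (step^[n.val] (pts i)).2 * (step^[m.val] (pts i)).1 := by decide

lemma vec_ne {v : ℤ × ℤ} (h : v ≠ (0, 0)) : vec v ≠ 0 := by
  intro h0
  apply h
  have h1 := congrFun h0 0
  have h2 := congrFun h0 1
  simp [vec] at h1 h2
  exact Prod.ext h1 h2

/-- The negation of the preceding statement: For every degree-2 map of the projective line over ℚ, given by two quadratic forms with nonzero resultant, the set of rational points whose forward orbit is eventually periodic has at most 14 elements. -/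
theorem result :
    ¬ (∀ a b c d e g : ℚ,
      (a * g - c * d) ^ 2 - (a * e - b * d) * (b * g - c * e) ≠ 0 →
      ∀ Φ : (Fin 2 → ℚ) → (Fin 2 → ℚ),
        (∀ v : Fin 2 → ℚ,
          Φ v = ![a * v 0 ^ 2 + b * v 0 * v 1 + c * v 1 ^ 2,
                  d * v 0 ^ 2 + e * v 0 * v 1 + g * v 1 ^ 2]) →
        {p : Projectivization ℚ (Fin 2 → ℚ) |
            ∃ m n : ℕ, m < n ∧
              (Φ^[n] p.rep) 0 * (Φ^[m] p.rep) 1 = (Φ^[n] p.rep) 1 * (Φ^[m] p.rep) 0}.encard
          ≤ (14 : ℕ∞)) := by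
  intro H
  have H' := H 31 159 20 0 (-62) 20 (by norm_num)
    (fun v => ![31 * v 0 ^ 2 + 159 * v 0 * v 1 + 20 * v 1 ^ 2,
      0 * v 0 ^ 2 + (-62) * v 0 * v 1 + 20 * v 1 ^ 2]) (fun v => rfl)
  set Φ : (Fin 2 → ℚ) → (Fin 2 → ℚ) := fun v =>
    ![31 * v 0 ^ 2 + 159 * v 0 * v 1 + 20 * v 1 ^ 2,
      0 * v 0 ^ 2 + (-62) * v 0 * v 1 + 20 * v 1 ^ 2] with hΦ
  -- homogeneity
  have hom : ∀ (n : ℕ) (t : ℚ) (v : Fin 2 → ℚ), Φ^[n] (t • v) = t ^ (2 ^ n) • Φ^[n] v := by
    intro n
    induction n with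
    | zero => intro t v; simp
    | succ n ih =>
      intro t v
      rw [Function.iterate_succ_apply', Function.iterate_succ_apply', ih]
      generalize Φ^[n] v = w
      have : ∀ (s : ℚ), Φ (s • w) = s ^ 2 • Φ w := by
        intro s
        ext i
        fin_cases i <;> simp [hΦ] <;> ring
      rw [this, ← pow_mul]
      congr 2
  have cast : ∀ (n : ℕ) (v : ℤ × ℤ), Φ^[n] (vec v) = vec (step^[n] v) := by
    intro n
    induction n with
    | zero => intro v; rfl
    | succ n ih =>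
      intro v
      rw [Function.iterate_succ_apply', Function.iterate_succ_apply', ih]
      generalize step^[n] v = w
      ext i
      fin_cases i <;> simp [hΦ, vec, step]
  let F : Fin 16 → Projectivization ℚ (Fin 2 → ℚ) := fun i =>
    Projectivization.mk ℚ (vec (pts i)) (vec_ne (pts_ne i))
  have hinj : Function.Injective F := by
    intro i j hij
    by_contra hne
    have h := (Projectivization.mk_eq_mk_iff' ℚ _ _ (vec_ne (pts_ne i)) (vec_ne (pts_ne j))).1 hij
    obtain ⟨t, ht⟩ := h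
    apply pts_indep i j hne
    have h0 := congrFun ht 0
    have h1 := congrFun ht 1
    simp only [Pi.smul_apply, smul_eq_mul, vec, Matrix.cons_val_zero, Matrix.cons_val_one] at h0 h1
    have : ((pts i).1 : ℚ) * (pts j).2 = (pts i).2 * (pts j).1 := by
      rw [← h0, ← h1]; ring
    exact_mod_cast this
  have hsub : Set.range F ⊆ {p : Projectivization ℚ (Fin 2 → ℚ) |
            ∃ m n : ℕ, m < n ∧
              (Φ^[n] p.rep) 0 * (Φ^[m] p.rep) 1 = (Φ^[n] p.rep) 1 * (Φ^[m] p.rep) 0} := by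
    rintro p ⟨i, rfl⟩
    obtain ⟨m, n, hmn, h⟩ := pts_per i
    refine ⟨m, n, hmn, ?_⟩
    obtain ⟨t, ht⟩ := Projectivization.exists_smul_eq_mk_rep ℚ (vec (pts i)) (vec_ne (pts_ne i))
    have ht' : (F i).rep = (t : ℚ) • vec (pts i) := by
      rw [← ht]; rfl
    rw [ht', hom, hom, cast, cast]
    simp only [Pi.smul_apply, smul_eq_mul, vec, Matrix.cons_val_zero, Matrix.cons_val_one]
    have hq : ((step^[n.val] (pts i)).1 : ℚ) * (step^[m.val] (pts i)).2 =
      (step^[n.val] (pts i)).2 * (step^[m.val] (pts i)).1 := by exact_mod_cast h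
    linear_combination ((t : ℚ) ^ 2 ^ n.val * (t : ℚ) ^ 2 ^ m.val) * hq
  have hcard : (16 : ℕ∞) ≤ (Set.range F).encard := by
    have h16 := hinj.encard_range
    simpa using h16
  have h1416 : (16 : ℕ∞) ≤ 14 := hcard.trans ((Set.encard_le_encard hsub).trans H')
  exact absurd h1416 (by decide)

end Pool.Agent.S12172
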