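import Pool.Statements.S12223

set_option autoImplicit false
open Pool Pool.MP_8d3aca_nt

namespace Pool.Agent.S12223

theorem sigma_prime {p : ℕ} (hp : p.Prime) : ArithmeticFunction.sigma 1 p = p + 1 := by
  rw [ArithmeticFunction.sigma_one_apply, hp.sum_divisors]
  

/-- If 4 divides `φ n` and 4 divides `n * σ n` then the congruence fails. -/
theorem no_four {n : ℕ} (h : n * ArithmeticFunction.sigma 1 n ≡ 2 [MOD n.totient])
    (h1 : 4 ∣ n.totient) (h2 : 4 ∣ n * ArithmeticFunction.sigma 1 n) : False := by
  have h3 : n * ArithmeticFunction.sigma 1 n ≡ 2 [MOD 4] := h.of_dvd h1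
  have h4 : (n * ArithmeticFunction.sigma 1 n) % 4 = 2 % 4 := h3
  omega

/-- No odd prime square divides `n`. -/
theorem no_sq {n : ℕ} (h : n * ArithmeticFunction.sigma 1 n ≡ 2 [MOD n.totient])
    {p k : ℕ} (hp : p.Prime) (hodd : p ≠ 2) (hn : n = p * k) : ¬ p ∣ k := by
  intro hpk
  have h1 : p ∣ n.totient := by
    rw [hn, Nat.totient_mul_of_prime_of_dvd hp hpk]
    exact dvd_mul_right _ _
  have h2 : n * ArithmeticFunction.sigma 1 n ≡ 2 [MOD p] := h.of_dvd h1
  have h3 : p ∣ n * ArithmeticFunction.sigma 1 n := by
    rw [hn, mul_assoc]; exact dvd_mul_right _ _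
  have h4 : p ∣ 2 := (Nat.ModEq.dvd_iff h2 (dvd_refl p)).1 h3
  exact hodd ((Nat.prime_dvd_prime_iff_eq hp Nat.prime_two).1 h4)

/-- For every composite natural number n, n times the sum of divisors of n is congruent to 2 modulo Euler's totient of n exactly when n is 4, 6 or 22. -/
theorem result :
    ∀ n : ℕ, 1 < n → ¬ n.Prime →
      (n * ArithmeticFunction.sigma 1 n ≡ 2 [MOD n.totient] ↔ (n = 4 ∨ n = 6 ∨ n = 22)) := by
  intro n hn1 hnp
  constructor
  · intro h
    obtain ⟨a, m, hm, hnam⟩ := Nat.exists_eq_two_pow_mul_odd (n := n) (by omega)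
    -- facts on a
    have ha8 : ¬ 8 ∣ n := by
      intro h8
      have h1 : Nat.totient 8 ∣ n.totient := Nat.totient_dvd_of_dvd h8
      have h2 : Nat.totient 8 = 4 := by decide
      rw [h2] at h1
      exact no_four h h1 (Dvd.dvd.mul_right (Dvd.dvd.trans (by norm_num) h8) _)
    have ha : a ≤ 2 := by
      by_contra hcon
      apply ha8
      rw [hnam]
      exact Dvd.dvd.mul_right (by
        have : (2:ℕ)^3 ∣ 2^a := pow_dvd_pow 2 (by omega)
        simpa using this) _
    by_cases hm1 : m = 1
    · -- power of two
      rw [hm1, mul_one] at hnam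
      have : a = 0 ∨ a = 1 ∨ a = 2 := by omega
      rcases this with rfl | rfl | rfl
      · simp at hnam; omega
      · exfalso; apply hnp; rw [hnam]; norm_num
      · left; rw [hnam]; norm_num
    · have hpp : m.minFac.Prime := Nat.minFac_prime hm1
      obtain ⟨p, hpdef⟩ : ∃ p, p = m.minFac := ⟨_, rfl⟩
      rw [← hpdef] at hpp
      obtain ⟨r, hr⟩ : p ∣ m := hpdef ▸ Nat.minFac_dvd m
      have hpodd : Odd p := by
        rw [hr] at hm; exact (Nat.odd_mul.1 hm).1
      have hrodd : Odd r := by
        rw [hr] at hm; exact (Nat.odd_mul.1 hm).2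
      have hp2 : p ≠ 2 := by
        rintro rfl; exact absurd hpodd (by decide)
      have hpr : ¬ p ∣ 2^a * r := no_sq h hpp hp2 (by rw [hnam, hr]; ring)
      by_cases hr1 : r = 1
      · have hnp' : n = 2^a * p := by rw [hnam, hr, hr1, mul_one]
        have : a = 0 ∨ a = 1 ∨ a = 2 := by omega
        rcases this with rfl | rfl | rfl
        · exfalso; apply hnp; rw [hnp']; simpa using hpp
        · -- n = 2p
          have hcop : Nat.Coprime 2 p := by
            rw [Nat.coprime_primes Nat.prime_two hpp]; exact hp2.symm
          have hnp2 : n = 2 * p := by rw [hnp']; ring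
          have htot : n.totient = p - 1 := by
            rw [hnp2, Nat.totient_mul hcop, Nat.totient_prime hpp]; simp
          have hsig : ArithmeticFunction.sigma 1 n = 3 * (p + 1) := by
            rw [hnp2, ArithmeticFunction.isMultiplicative_sigma.map_mul_of_coprime hcop,
              sigma_prime hpp, sigma_prime Nat.prime_two]
          obtain ⟨t, ht⟩ : ∃ t, p = t + 1 := ⟨p - 1, by have := hpp.pos; omega⟩
          rw [htot, hsig, hnp2, ht] at h
          have h' : (2 * (t + 1)) * (3 * ((t + 1) + 1)) ≡ 2 [MOD t] := by simpa using h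
          have h3 : (t : ℤ) ∣ 10 := by
            have h4 := (Nat.modEq_iff_dvd.1 h')
            push_cast at h4
            have h5 : (10 : ℤ) = -((2:ℤ) - (2 * ((t:ℤ) + 1)) * (3 * (((t:ℤ) + 1) + 1))) - (t:ℤ) * (6 * t + 18) := by ring
            rw [h5]
            exact dvd_sub (dvd_neg.2 h4) (dvd_mul_right _ _)
          have h6 : t ∣ 10 := by exact_mod_cast h3
          have h7 : t ≤ 10 := Nat.le_of_dvd (by norm_num) h6
          interval_cases t
          · simp at h6
          · omega
          · omega
          · omega
          · omega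
          · subst ht; norm_num at hpp
          · omega
          · omega
          · omega
          · omega
          · omega
        · -- n = 4p
          exfalso
          have hnp4 : n = 4 * p := by rw [hnp']; ring
          have hcop : Nat.Coprime 4 p := by
            have : Nat.Coprime (2^2) p := Nat.Coprime.pow_left 2
              ((Nat.coprime_primes Nat.prime_two hpp).2 hp2.symm)
            simpa using this
          have h1 : 4 ∣ n.totient := by
            rw [hnp4, Nat.totient_mul hcop, Nat.totient_prime hpp]
            have h4 : Nat.totient 4 = 2 := by decide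
            rw [h4]
            obtain ⟨c, hc⟩ := hpodd
            exact ⟨c, by rw [hc]; simp; ring⟩
          exact no_four h h1 ⟨p * ArithmeticFunction.sigma 1 n, by rw [hnp4]; ring⟩
      · exfalso
        have hqq : r.minFac.Prime := Nat.minFac_prime hr1
        obtain ⟨q, hqdef⟩ : ∃ q, q = r.minFac := ⟨_, rfl⟩
        rw [← hqdef] at hqq
        obtain ⟨s, hs⟩ : q ∣ r := hqdef ▸ Nat.minFac_dvd r
        have hqodd : Odd q := by
          rw [hs] at hrodd; exact (Nat.odd_mul.1 hrodd).1
        have hq2 : q ≠ 2 := by
          rintro rfl; exact absurd hqodd (by decide)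
        have hqs : ¬ q ∣ 2^a * p * s := no_sq h hqq hq2 (by rw [hnam, hr, hs]; ring)
        have hn' : n = p * (q * (2^a * s)) := by rw [hnam, hr, hs]; ring
        have hc1 : Nat.Coprime p (q * (2^a * s)) := by
          rw [hpp.coprime_iff_not_dvd]
          intro hd; apply hpr
          rw [hs]
          have : 2^a * (q * s) = q * (2^a * s) := by ring
          rwa [this]
        have hc2 : Nat.Coprime q (2^a * s) := by
          rw [hqq.coprime_iff_not_dvd]
          intro hd; apply hqs
          have : 2^a * p * s = p * (2^a * s) := by ring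
          rw [this]; exact Dvd.dvd.mul_left hd _
        obtain ⟨c, hc⟩ := hpodd
        obtain ⟨d, hd⟩ := hqodd
        have h1 : 4 ∣ n.totient := by
          rw [hn', Nat.totient_mul hc1, Nat.totient_mul hc2, Nat.totient_prime hpp,
            Nat.totient_prime hqq]
          exact ⟨c * (d * (2^a * s).totient), by rw [hc, hd]; simp; ring⟩
        have h2 : ArithmeticFunction.sigma 1 n = 4 * ((c + 1) * ((d + 1) * ArithmeticFunction.sigma 1 (2^a * s))) := by
          rw [hn', ArithmeticFunction.isMultiplicative_sigma.map_mul_of_coprime hc1,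
            ArithmeticFunction.isMultiplicative_sigma.map_mul_of_coprime hc2,
            sigma_prime hpp, sigma_prime hqq, hc, hd]
          ring
        exact no_four h h1 ⟨n * ((c + 1) * ((d + 1) * ArithmeticFunction.sigma 1 (2^a * s))), by rw [h2]; ring⟩
  · rintro (rfl | rfl | rfl)
    · decide +kernel
    · decide +kernel
    · decide +kernel

end Pool.Agent.S12223
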