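import Pool.Statements.S12349
-- import your own Pool.Agent.* helpers here

set_option autoImplicit false
open Filter Topology
open Pool Pool.MP_9d1108_nt

namespace Pool.Agent.S12349

/-- Contribution of the small primes `p ≤ y` to `φ(n)/n`. -/
noncomputable def sm (y n : ℕ) : ℝ :=
  ∏ p ∈ n.primeFactors.filter (fun p => p ≤ y), (1 - (p : ℝ)⁻¹)

/-- Sum of the reciprocals of the large prime factors of `n`. -/
noncomputable def tl (y n : ℕ) : ℝ :=
  ∑ p ∈ n.primeFactors.filter (fun p => ¬ p ≤ y), (p : ℝ)⁻¹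

lemma totient_eq (n : ℕ) :
    (Nat.totient n : ℝ) = n * ∏ p ∈ n.primeFactors, (1 - (p : ℝ)⁻¹) := by
  have h := Nat.totient_eq_mul_prod_factors n
  have h2 : ((Nat.totient n : ℚ) : ℝ) = ((n * ∏ p ∈ n.primeFactors, (1 - (p : ℚ)⁻¹) : ℚ) : ℝ) := by
    rw [h]
  push_cast at h2
  exact h2

lemma inv_le_half {p : ℕ} (hp : p.Prime) : (p : ℝ)⁻¹ ≤ 1 / 2 := by
  have h2 : (2 : ℝ) ≤ p := by exact_mod_cast hp.two_le
  rw [inv_eq_one_div]
  exact one_div_le_one_div_of_le (by norm_num) h2

lemma prod_bounds (s : Finset ℕ) (hs : ∀ p ∈ s, Nat.Prime p) :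
    0 < ∏ p ∈ s, (1 - (p : ℝ)⁻¹) ∧ ∏ p ∈ s, (1 - (p : ℝ)⁻¹) ≤ 1 ∧
      1 - ∑ p ∈ s, (p : ℝ)⁻¹ ≤ ∏ p ∈ s, (1 - (p : ℝ)⁻¹) := by
  classical
  induction s using Finset.induction_on with
  | empty => simp
  | insert a s ha ih =>
    obtain ⟨h1, h2, h3⟩ := ih (fun p hp => hs p (Finset.mem_insert_of_mem hp))
    have hap := hs a (Finset.mem_insert_self a s)
    have hhalf := inv_le_half hap
    have hpos : 0 < (a : ℝ)⁻¹ := by
      have : (0 : ℝ) < a := by exact_mod_cast hap.pos
      positivity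
    rw [Finset.prod_insert ha, Finset.sum_insert ha]
    refine ⟨?_, ?_, ?_⟩
    · apply mul_pos _ h1
      linarith
    · nlinarith
    · nlinarith

lemma sm_bounds (y n : ℕ) : 0 < sm y n ∧ sm y n ≤ 1 := by
  have := prod_bounds (n.primeFactors.filter (fun p => p ≤ y))
    (fun p hp => Nat.prime_of_mem_primeFactors (Finset.mem_of_mem_filter p hp))
  exact ⟨this.1, this.2.1⟩

lemma tl_nonneg (y n : ℕ) : 0 ≤ tl y n :=
  Finset.sum_nonneg (fun p _ => by positivity)

lemma totient_split (y n : ℕ) :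
    (Nat.totient n : ℝ) =
      n * (sm y n * ∏ p ∈ n.primeFactors.filter (fun p => ¬ p ≤ y), (1 - (p : ℝ)⁻¹)) := by
  rw [totient_eq, sm, Finset.prod_filter_mul_prod_filter_not]

lemma totient_le (y n : ℕ) : (Nat.totient n : ℝ) ≤ n * sm y n := by
  rw [totient_split y n]
  have h := prod_bounds (n.primeFactors.filter (fun p => ¬ p ≤ y))
    (fun p hp => Nat.prime_of_mem_primeFactors (Finset.mem_of_mem_filter p hp))
  have h1 := (sm_bounds y n).1
  apply mul_le_mul_of_nonneg_left _ (Nat.cast_nonneg n)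
  nlinarith [h.1, h.2.1]

lemma le_totient (y n : ℕ) : n * (sm y n * (1 - tl y n)) ≤ (Nat.totient n : ℝ) := by
  rw [totient_split y n]
  have h := prod_bounds (n.primeFactors.filter (fun p => ¬ p ≤ y))
    (fun p hp => Nat.prime_of_mem_primeFactors (Finset.mem_of_mem_filter p hp))
  have h1 := (sm_bounds y n).1
  apply mul_le_mul_of_nonneg_left _ (Nat.cast_nonneg n)
  apply mul_le_mul_of_nonneg_left _ h1.le
  exact h.2.2

lemma card_multiples (m N : ℕ) (hm : 0 < m) :
    (((Finset.range N).filter (fun n => 0 < n ∧ m ∣ n)).card : ℝ) ≤ (N : ℝ) / m := by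
  have h1 : (((Finset.range N).filter (fun n => 0 < n ∧ m ∣ n)).card) ≤ N / m := by
    have h2 : ((Finset.range N).filter (fun n => 0 < n ∧ m ∣ n)) ⊆
        (Finset.Ioc 0 N).filter (fun n => m ∣ n) := by
      intro n hn
      simp only [Finset.mem_filter, Finset.mem_range, Finset.mem_Ioc] at hn ⊢
      exact ⟨⟨hn.2.1, hn.1.le⟩, hn.2.2⟩
    refine (Finset.card_le_card h2).trans ?_
    rw [Nat.Ioc_filter_dvd_card_eq_div]
  calc (((Finset.range N).filter (fun n => 0 < n ∧ m ∣ n)).card : ℝ) ≤ ((N / m : ℕ) : ℝ) := by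
        exact_mod_cast h1
    _ ≤ (N : ℝ) / m := Nat.cast_div_le

lemma tl_le (y n N : ℕ) (hn : n < N) :
    tl y n ≤ ∑ m ∈ Finset.Ioo y N, if (0 < n ∧ m ∣ n) then (m : ℝ)⁻¹ else 0 := by
  rw [← Finset.sum_filter, tl]
  apply Finset.sum_le_sum_of_subset_of_nonneg
  · intro p hp
    simp only [Finset.mem_filter, Nat.mem_primeFactors, not_le, Finset.mem_Ioo] at hp ⊢
    obtain ⟨⟨h1, h2, h3⟩, h4⟩ := hp
    have hpos : 0 < n := Nat.pos_of_ne_zero h3
    exact ⟨⟨h4, lt_of_le_of_lt (Nat.le_of_dvd hpos h2) hn⟩, hpos, h2⟩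
  · intro i _ _
    positivity

lemma tail_count (y N : ℕ) (δ : ℝ) (hδ : 0 < δ) :
    (((Finset.range N).filter (fun n => δ < tl y n)).card : ℝ) ≤ 2 * N / (δ * (y + 1)) := by
  have h1 : δ * (((Finset.range N).filter (fun n => δ < tl y n)).card : ℝ) ≤
      ∑ n ∈ Finset.range N, tl y n := by
    calc δ * (((Finset.range N).filter (fun n => δ < tl y n)).card : ℝ)
        = ∑ n ∈ (Finset.range N).filter (fun n => δ < tl y n), δ := by
          rw [Finset.sum_const, nsmul_eq_mul, mul_comm]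
      _ ≤ ∑ n ∈ (Finset.range N).filter (fun n => δ < tl y n), tl y n := by
          apply Finset.sum_le_sum
          intro i hi
          exact (Finset.mem_filter.mp hi).2.le
      _ ≤ ∑ n ∈ Finset.range N, tl y n := by
          apply Finset.sum_le_sum_of_subset_of_nonneg (Finset.filter_subset _ _)
          intro i _ _
          exact tl_nonneg y i
  have h2 : ∑ n ∈ Finset.range N, tl y n ≤ N * (2 / (y + 1)) := by
    calc ∑ n ∈ Finset.range N, tl y n
        ≤ ∑ n ∈ Finset.range N, ∑ m ∈ Finset.Ioo y N,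
            if (0 < n ∧ m ∣ n) then (m : ℝ)⁻¹ else 0 := by
          apply Finset.sum_le_sum
          intro n hn
          exact tl_le y n N (Finset.mem_range.mp hn)
      _ = ∑ m ∈ Finset.Ioo y N, ∑ n ∈ Finset.range N,
            if (0 < n ∧ m ∣ n) then (m : ℝ)⁻¹ else 0 := Finset.sum_comm
      _ ≤ ∑ m ∈ Finset.Ioo y N, (N : ℝ) * ((m : ℝ) ^ 2)⁻¹ := by
          apply Finset.sum_le_sum
          intro m hm
          have hmpos : 0 < m := by
            have := (Finset.mem_Ioo.mp hm).1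
            omega
          rw [← Finset.sum_filter, Finset.sum_const, nsmul_eq_mul]
          have h3 := card_multiples m N hmpos
          have hm' : (0 : ℝ) < m := by exact_mod_cast hmpos
          calc (((Finset.range N).filter (fun n => 0 < n ∧ m ∣ n)).card : ℝ) * (m : ℝ)⁻¹
              ≤ (N : ℝ) / m * (m : ℝ)⁻¹ := by
                apply mul_le_mul_of_nonneg_right h3 (by positivity)
            _ = (N : ℝ) * ((m : ℝ) ^ 2)⁻¹ := by
                field_simp
      _ = N * ∑ m ∈ Finset.Ioo y N, ((m : ℝ) ^ 2)⁻¹ := by rw [Finset.mul_sum]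
      _ ≤ N * (2 / (y + 1)) := by
          apply mul_le_mul_of_nonneg_left _ (Nat.cast_nonneg N)
          exact sum_Ioo_inv_sq_le y N
  rw [le_div_iff₀ (by positivity)]
  have h3 : δ * (((Finset.range N).filter (fun n => δ < tl y n)).card : ℝ) ≤ N * (2 / (y + 1)) :=
    h1.trans h2
  have hy : (0 : ℝ) < (y : ℝ) + 1 := by positivity
  calc (((Finset.range N).filter (fun n => δ < tl y n)).card : ℝ) * (δ * (y + 1))
      = (δ * (((Finset.range N).filter (fun n => δ < tl y n)).card : ℝ)) * (y + 1) := by ring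
    _ ≤ (N * (2 / (y + 1))) * (y + 1) := mul_le_mul_of_nonneg_right h3 hy.le
    _ = 2 * N := by field_simp

lemma card_le_of_interval (s : Finset ℕ) (α β : ℝ) (h : α ≤ β)
    (hs : ∀ n ∈ s, α < n ∧ (n : ℝ) < β) : (s.card : ℝ) ≤ β - α + 1 := by
  classical
  have h1 : s.image (fun n : ℕ => (n : ℤ)) ⊆ Finset.Ioo ⌊α⌋ ⌈β⌉ := by
    intro z hz
    obtain ⟨n, hn, rfl⟩ := Finset.mem_image.mp hz
    obtain ⟨h2, h3⟩ := hs n hn
    rw [Finset.mem_Ioo]
    constructor
    · rw [Int.floor_lt]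
      exact_mod_cast h2
    · rw [Int.lt_ceil]
      exact_mod_cast h3
  have h2 : s.card = (s.image (fun n : ℕ => (n : ℤ))).card := by
    rw [Finset.card_image_of_injective]
    exact Nat.cast_injective
  have h3 := Finset.card_le_card h1
  rw [← h2, Int.card_Ioo] at h3
  by_cases hc : (⌈β⌉ - ⌊α⌋ - 1) ≤ 0
  · rw [Int.toNat_of_nonpos hc] at h3
    have : s.card = 0 := by omega
    rw [this]
    push_cast
    linarith
  · push Not at hc
    have h4 : (s.card : ℤ) ≤ ⌈β⌉ - ⌊α⌋ - 1 := by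
      have := Int.toNat_of_nonneg hc.le
      omega
    have h5 : (s.card : ℝ) ≤ (⌈β⌉ : ℝ) - ⌊α⌋ - 1 := by exact_mod_cast h4
    have h6 := Int.ceil_lt_add_one β
    have h7 := Int.lt_floor_add_one α
    linarith

lemma card_class (P r : ℕ) (hP : 0 < P) (s : Finset ℕ) (α β : ℝ) (h : α ≤ β)
    (hs : ∀ n ∈ s, n % P = r ∧ α < n ∧ (n : ℝ) < β) :
    (s.card : ℝ) ≤ (β - α) / P + 1 := by
  classical
  have hP' : (0 : ℝ) < P := by exact_mod_cast hP
  have h2 : s.card = (s.image (fun n : ℕ => n / P)).card := by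
    rw [Finset.card_image_of_injOn]
    intro a ha b hb hab
    have h3 := (hs a ha).1
    have h4 := (hs b hb).1
    have h5 := Nat.div_add_mod a P
    have h6 := Nat.div_add_mod b P
    simp only at hab
    rw [h3] at h5
    rw [h4, ← hab] at h6
    omega
  rw [h2]
  have h3 : (β - α) / P + 1 = (β - r) / P - (α - r) / P + 1 := by
    field_simp
    ring
  rw [h3]
  apply card_le_of_interval
  · apply div_le_div_of_nonneg_right _ hP'.le
    linarith
  · intro q hq
    obtain ⟨n, hn, rfl⟩ := Finset.mem_image.mp hq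
    obtain ⟨h4, h5, h6⟩ := hs n hn
    have h7 : (P : ℝ) * ((n / P : ℕ) : ℝ) + r = n := by
      have := Nat.div_add_mod n P
      rw [h4] at this
      exact_mod_cast this
    constructor
    · rw [div_lt_iff₀ hP']
      linarith
    · rw [lt_div_iff₀ hP']
      linarith

lemma sm_congr (y n : ℕ) (hn : n ≠ 0) :
    sm y n = sm y (n % (y.factorial) + y.factorial) := by
  unfold sm
  congr 1
  ext p
  simp only [Finset.mem_filter, Nat.mem_primeFactors]
  have hfac : y.factorial ≠ 0 := Nat.factorial_ne_zero y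
  constructor
  · rintro ⟨⟨h1, h2, h3⟩, h4⟩
    refine ⟨⟨h1, ?_, by omega⟩, h4⟩
    have h5 : p ∣ y.factorial := (Nat.Prime.dvd_factorial h1).mpr h4
    exact Dvd.dvd.add ((Nat.dvd_mod_iff h5).mpr h2) h5
  · rintro ⟨⟨h1, h2, h3⟩, h4⟩
    refine ⟨⟨h1, ?_, hn⟩, h4⟩
    have h5 : p ∣ y.factorial := (Nat.Prime.dvd_factorial h1).mpr h4
    rw [Nat.dvd_add_left h5] at h2
    exact (Nat.dvd_mod_iff h5).mp h2

/-- The main count. -/
lemma main_count (k x : ℕ) (hk : 1 ≤ k) (hx : k * (k ^ 2).factorial ≤ x) :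
    ((Set.ncard {n : ℕ | (x : ℝ) < (n : ℝ) + (Nat.totient n : ℝ) ∧
      (n : ℝ) + (Nat.totient n : ℝ) < (x : ℝ) + (x : ℝ) / k} : ℕ) : ℝ) ≤ 8 * ((x : ℝ) / k) := by
  classical
  set y := k ^ 2 with hy
  set P := y.factorial with hPdef
  have hPpos : 0 < P := Nat.factorial_pos y
  have hP' : (0 : ℝ) < P := by exact_mod_cast hPpos
  have hk' : (1 : ℝ) ≤ k := by exact_mod_cast hk
  have hk0 : (0 : ℝ) < k := by linarith
  have hxk : (x : ℝ) / k ≤ x := by
    rw [div_le_iff₀ hk0]
    nlinarith [Nat.cast_nonneg (α := ℝ) x]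
  have hxk0 : (0 : ℝ) ≤ (x : ℝ) / k := by positivity
  set B : Finset ℕ := (Finset.range (2 * x)).filter (fun n => (1 : ℝ) / k < tl y n) with hB
  set G : ℕ → Finset ℕ := fun r => (Finset.range (2 * x)).filter (fun n =>
    n % P = r ∧ (x : ℝ) / (1 + sm y (r + P)) < n ∧
      (n : ℝ) < (x : ℝ) / (1 + sm y (r + P)) + 3 * ((x : ℝ) / k)) with hG
  have hsub : {n : ℕ | (x : ℝ) < (n : ℝ) + (Nat.totient n : ℝ) ∧
      (n : ℝ) + (Nat.totient n : ℝ) < (x : ℝ) + (x : ℝ) / k} ⊆
      ((B ∪ (Finset.range P).biUnion G : Finset ℕ) : Set ℕ) := by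
    intro n hn
    obtain ⟨h1, h2⟩ := hn
    have hn2x : n < 2 * x := by
      have h3 : (n : ℝ) < 2 * x := by
        have : (0 : ℝ) ≤ (Nat.totient n : ℝ) := Nat.cast_nonneg _
        linarith
      exact_mod_cast h3
    have hn2x' : (n : ℝ) < 2 * x := by exact_mod_cast hn2x
    have hn0 : n ≠ 0 := by
      rintro rfl
      simp at h1
      have : (0 : ℝ) ≤ x := Nat.cast_nonneg x
      linarith
    rw [Finset.coe_union, Set.mem_union]
    by_cases hb : (1 : ℝ) / k < tl y n
    · left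
      rw [Finset.mem_coe, hB, Finset.mem_filter, Finset.mem_range]
      exact ⟨hn2x, hb⟩
    · right
      push Not at hb
      rw [Finset.mem_coe, Finset.mem_biUnion]
      refine ⟨n % P, Finset.mem_range.mpr (Nat.mod_lt _ hPpos), ?_⟩
      rw [hG]
      simp only [Finset.mem_filter, Finset.mem_range]
      have hsm : sm y n = sm y (n % P + P) := sm_congr y n hn0
      rw [← hsm]
      obtain ⟨hu0, hu1⟩ := sm_bounds y n
      have ht1 := totient_le y n
      have ht2 := le_totient y n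
      have hn' : (0 : ℝ) ≤ n := Nat.cast_nonneg n
      refine ⟨hn2x, trivial, ?_, ?_⟩
      · rw [div_lt_iff₀ (by linarith)]
        nlinarith
      · have h3 : (n : ℝ) * (1 + sm y n) < x + 3 * ((x : ℝ) / k) := by
          have h4 : (n : ℝ) * (sm y n * tl y n) ≤ 2 * ((x : ℝ) / k) := by
            have h5 : sm y n * tl y n ≤ 1 * (1 / k) := by
              apply mul_le_mul hu1 hb (tl_nonneg y n) (by norm_num)
            have h6 : (n : ℝ) * (sm y n * tl y n) ≤ (2 * x) * (1 * (1 / k)) := by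
              apply mul_le_mul hn2x'.le h5 (mul_nonneg hu0.le (tl_nonneg y n)) (by positivity)
            calc (n : ℝ) * (sm y n * tl y n) ≤ (2 * x) * (1 * (1 / k)) := h6
              _ = 2 * ((x : ℝ) / k) := by ring
          have h7 : (n : ℝ) * (sm y n * (1 - tl y n)) =
              n * sm y n - n * (sm y n * tl y n) := by ring
          rw [h7] at ht2
          linarith
        have h8 : (n : ℝ) < (x + 3 * ((x : ℝ) / k)) / (1 + sm y n) := by
          rw [lt_div_iff₀ (by linarith)]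
          exact h3
        have h9 : (x + 3 * ((x : ℝ) / k)) / (1 + sm y n) ≤
            x / (1 + sm y n) + 3 * ((x : ℝ) / k) := by
          rw [add_div]
          have : 3 * ((x : ℝ) / k) / (1 + sm y n) ≤ 3 * ((x : ℝ) / k) := by
            apply div_le_self (by positivity) (by linarith)
          linarith
        linarith
  have hcard := Set.ncard_le_ncard hsub (Finset.finite_toSet _)
  rw [Set.ncard_coe_finset] at hcard
  have hB' : (B.card : ℝ) ≤ 4 * ((x : ℝ) / k) := by
    have h1 := tail_count y (2 * x) (1 / k) (by positivity)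
    refine h1.trans ?_
    have hyk : (y : ℝ) = (k : ℝ) ^ 2 := by rw [hy]; push_cast; ring
    rw [hyk]
    push_cast
    rw [div_le_iff₀ (by positivity)]
    have : 4 * ((x : ℝ) / k) * (1 / k * ((k : ℝ) ^ 2 + 1)) =
        4 * x * (((k : ℝ) ^ 2 + 1) / (k : ℝ) ^ 2) := by
      field_simp
    rw [this]
    have h2 : (1 : ℝ) ≤ ((k : ℝ) ^ 2 + 1) / (k : ℝ) ^ 2 := by
      rw [le_div_iff₀ (by positivity)]
      linarith
    nlinarith [Nat.cast_nonneg (α := ℝ) x]
  have hG' : ∀ r ∈ Finset.range P, ((G r).card : ℝ) ≤ 3 * ((x : ℝ) / k) / P + 1 := by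
    intro r _
    have h1 := card_class P r hPpos (G r) ((x : ℝ) / (1 + sm y (r + P)))
      ((x : ℝ) / (1 + sm y (r + P)) + 3 * ((x : ℝ) / k)) (by linarith) (by
        intro n hn
        rw [hG] at hn
        exact (Finset.mem_filter.mp hn).2)
    have h2 : (x : ℝ) / (1 + sm y (r + P)) + 3 * ((x : ℝ) / k) - (x : ℝ) / (1 + sm y (r + P)) =
        3 * ((x : ℝ) / k) := by ring
    rw [h2] at h1
    exact h1
  have hU : (((Finset.range P).biUnion G).card : ℝ) ≤ 4 * ((x : ℝ) / k) := by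
    calc (((Finset.range P).biUnion G).card : ℝ) ≤ ((∑ r ∈ Finset.range P, (G r).card : ℕ) : ℝ) := by
          exact_mod_cast Finset.card_biUnion_le
      _ = ∑ r ∈ Finset.range P, ((G r).card : ℝ) := by push_cast; rfl
      _ ≤ ∑ r ∈ Finset.range P, (3 * ((x : ℝ) / k) / P + 1) := Finset.sum_le_sum hG'
      _ = 3 * ((x : ℝ) / k) + P := by
          rw [Finset.sum_const, Finset.card_range, nsmul_eq_mul]
          field_simp
      _ ≤ 4 * ((x : ℝ) / k) := by
          have : (P : ℝ) ≤ (x : ℝ) / k := by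
            rw [le_div_iff₀ hk0]
            have h1 : ((k * P : ℕ) : ℝ) ≤ x := by exact_mod_cast hx
            push_cast at h1
            linarith
          linarith
  have h1 := Finset.card_union_le B ((Finset.range P).biUnion G)
  have h2 : ((Set.ncard {n : ℕ | (x : ℝ) < (n : ℝ) + (Nat.totient n : ℝ) ∧
      (n : ℝ) + (Nat.totient n : ℝ) < (x : ℝ) + (x : ℝ) / k} : ℕ) : ℝ) ≤
      (B.card : ℝ) + (((Finset.range P).biUnion G).card : ℝ) := by
    exact_mod_cast hcard.trans h1
  linarith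

/-- The slowly growing function. -/
noncomputable def K (x : ℕ) : ℕ := Nat.findGreatest (fun k => k * (k ^ 2).factorial ≤ x) x

lemma K_spec (x : ℕ) : K x * ((K x) ^ 2).factorial ≤ x := by
  have := Nat.findGreatest_spec (P := fun k => k * (k ^ 2).factorial ≤ x) (m := 0) (n := x)
    (Nat.zero_le x) (by simp)
  exact this

lemma le_K (m x : ℕ) (h : m * (m ^ 2).factorial ≤ x) : m ≤ K x := by
  unfold K
  refine Nat.le_findGreatest (P := fun k => k * (k ^ 2).factorial ≤ x) ?_ h
  calc m = m * 1 := by ring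
    _ ≤ m * (m ^ 2).factorial := Nat.mul_le_mul_left m (Nat.factorial_pos _)
    _ ≤ x := h

lemma K_tendsto : Tendsto K atTop atTop := by
  rw [tendsto_atTop_atTop]
  intro b
  exact ⟨b * (b ^ 2).factorial, fun a ha => le_K b a ha⟩

lemma one_le_K (x : ℕ) (hx : 1 ≤ x) : 1 ≤ K x := le_K 1 x (by simpa using hx)

/-- The lower bound for `sm y n`. -/
lemma sm_lower (y : ℕ) : ∃ c : ℝ, 0 < c ∧ ∀ n, c ≤ sm y n := by
  classical
  refine ⟨∏ p ∈ (Finset.range (y + 1)).filter Nat.Prime, (1 - (p : ℝ)⁻¹),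
    (prod_bounds _ (fun p hp => (Finset.mem_filter.mp hp).2)).1, ?_⟩
  intro n
  have hsub : n.primeFactors.filter (fun p => p ≤ y) ⊆ (Finset.range (y + 1)).filter Nat.Prime := by
    intro p hp
    simp only [Finset.mem_filter, Nat.mem_primeFactors, Finset.mem_range] at hp ⊢
    exact ⟨by omega, hp.1.1⟩
  rw [sm, ← Finset.prod_sdiff hsub]
  have h1 := prod_bounds (((Finset.range (y + 1)).filter Nat.Prime) \
    (n.primeFactors.filter (fun p => p ≤ y)))
    (fun p hp => (Finset.mem_filter.mp (Finset.mem_sdiff.mp hp).1).2)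
  have h2 := prod_bounds (n.primeFactors.filter (fun p => p ≤ y))
    (fun p hp => Nat.prime_of_mem_primeFactors (Finset.mem_of_mem_filter p hp))
  nlinarith [h1.1, h1.2.1, h2.1]

/-- The good set. -/
def A : Set ℕ := {n : ℕ | (n : ℝ) ≤ (Nat.totient n : ℝ) * Real.sqrt (K n)}

lemma compl_density :
    Tendsto (fun N : ℕ => ((Aᶜ ∩ Set.Iio N).ncard : ℝ) / (N : ℝ)) atTop (𝓝 0) := by
  classical
  rw [Metric.tendsto_atTop]
  intro ε hε
  obtain ⟨y, hy⟩ := exists_nat_gt (8 / ε)
  obtain ⟨c, hc0, hc⟩ := sm_lower y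
  have hK : Tendsto (fun n : ℕ => Real.sqrt (K n)) atTop atTop :=
    Real.tendsto_sqrt_atTop.comp (tendsto_natCast_atTop_atTop.comp K_tendsto)
  obtain ⟨n0, hn0⟩ := eventually_atTop.mp (hK.eventually_ge_atTop (2 / c))
  obtain ⟨M, hM⟩ := exists_nat_gt ((n0 + 1 : ℝ) * 2 / ε)
  refine ⟨M + 1, fun N hN => ?_⟩
  have hNpos : (0 : ℝ) < N := by
    have : 0 < N := by omega
    exact_mod_cast this
  have hNM : (M : ℝ) < N := by
    have : M < N := by omega
    exact_mod_cast this
  rw [Real.dist_eq, sub_zero, abs_of_nonneg (by positivity)]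
  have hsub : Aᶜ ∩ Set.Iio N ⊆ ((Finset.range (n0 + 1) ∪
      (Finset.range N).filter (fun n => (1 / 2 : ℝ) < tl y n) : Finset ℕ) : Set ℕ) := by
    intro n hn
    obtain ⟨h1, h2⟩ := hn
    rw [Set.mem_Iio] at h2
    rw [Finset.coe_union, Set.mem_union]
    by_cases hcase : n < n0 + 1
    · left
      simpa using hcase
    · right
      rw [Finset.mem_coe, Finset.mem_filter, Finset.mem_range]
      refine ⟨h2, ?_⟩
      have h3 : ¬ ((n : ℝ) ≤ (Nat.totient n : ℝ) * Real.sqrt (K n)) := h1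
      push Not at h3
      have h4 := hn0 n (by omega)
      have hnpos : (0 : ℝ) < n := by
        have : 0 < n := by omega
        exact_mod_cast this
      have h5 := le_totient y n
      have h6 := hc n
      by_contra h7
      push Not at h7
      have h8 : (n : ℝ) * (c * (1 / 2)) ≤ Nat.totient n := by
        refine le_trans ?_ h5
        apply mul_le_mul_of_nonneg_left _ hnpos.le
        apply mul_le_mul h6 (by linarith) (by norm_num) (sm_bounds y n).1.le
      have h9 : (Nat.totient n : ℝ) * (2 / c) ≤ (Nat.totient n : ℝ) * Real.sqrt (K n) :=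
        mul_le_mul_of_nonneg_left h4 (Nat.cast_nonneg _)
      have h10 : (n : ℝ) * (c * (1 / 2)) * (2 / c) ≤ (Nat.totient n : ℝ) * (2 / c) :=
        mul_le_mul_of_nonneg_right h8 (by positivity)
      have h11 : (n : ℝ) * (c * (1 / 2)) * (2 / c) = n := by
        field_simp
      linarith
  have hcard := Set.ncard_le_ncard hsub (Finset.finite_toSet _)
  rw [Set.ncard_coe_finset] at hcard
  have h1 := Finset.card_union_le (Finset.range (n0 + 1))
    ((Finset.range N).filter (fun n => (1 / 2 : ℝ) < tl y n))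
  rw [Finset.card_range] at h1
  have h2 := tail_count y N (1 / 2) (by norm_num)
  have h3 : ((Aᶜ ∩ Set.Iio N).ncard : ℝ) ≤ ((n0 + 1 : ℕ) : ℝ) +
      (((Finset.range N).filter (fun n => (1 / 2 : ℝ) < tl y n)).card : ℝ) := by
    exact_mod_cast hcard.trans h1
  push_cast at h3
  have h4 : 2 * (N : ℝ) / (1 / 2 * ((y : ℝ) + 1)) < ε / 2 * N := by
    rw [div_lt_iff₀ (by positivity)]
    have h5 : 8 < y * ε := by
      rw [div_lt_iff₀ hε] at hy
      exact hy
    nlinarith
  have h5 : (n0 + 1 : ℝ) < ε / 2 * N := by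
    rw [div_lt_iff₀ hε] at hM
    nlinarith
  rw [div_lt_iff₀ hNpos]
  linarith

lemma A_density :
    Tendsto (fun N : ℕ => ((A ∩ Set.Iio N).ncard : ℝ) / (N : ℝ)) atTop (𝓝 1) := by
  have h1 : Tendsto (fun N : ℕ => (1 : ℝ) - ((Aᶜ ∩ Set.Iio N).ncard : ℝ) / (N : ℝ)) atTop
      (𝓝 (1 - 0)) := tendsto_const_nhds.sub compl_density
  rw [sub_zero] at h1
  refine h1.congr' ?_
  filter_upwards [eventually_ge_atTop 1] with N hN
  have hNpos : (0 : ℝ) < N := by exact_mod_cast hN
  have h2 : (A ∩ Set.Iio N).ncard + (Aᶜ ∩ Set.Iio N).ncard = N := by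
    rw [← Set.ncard_union_eq]
    · rw [← Set.union_inter_distrib_right, Set.union_compl_self, Set.univ_inter]
      have : (Set.Iio N) = ((Finset.range N : Finset ℕ) : Set ℕ) := by
        ext n; simp
      rw [this, Set.ncard_coe_finset, Finset.card_range]
    · rw [Set.disjoint_left]
      rintro n ⟨ha, _⟩ ⟨hb, _⟩
      exact hb ha
  have h3 : ((A ∩ Set.Iio N).ncard : ℝ) + ((Aᶜ ∩ Set.Iio N).ncard : ℝ) = N := by
    exact_mod_cast h2
  rw [eq_div_iff hNpos.ne', sub_mul, one_mul, div_mul_cancel₀ _ hNpos.ne']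
  linarith

/-- There is F with F(x)→∞ and F(n)/φ(n)→0 along a density-one set, such that for some C only finitely many x have more than C·F(x) integers n with n+φ(n) in the open interval (x, x+F(x)). -/
theorem result :
    ∃ F : ℕ → ℝ, Tendsto F atTop atTop ∧
      (∃ A : Set ℕ,
        Tendsto (fun N : ℕ => ((A ∩ Set.Iio N).ncard : ℝ) / (N : ℝ)) atTop (𝓝 1) ∧
        Tendsto (fun n : ℕ => F n / (Nat.totient n : ℝ)) (atTop ⊓ 𝓟 A) (𝓝 0)) ∧
      ¬ (∀ C : ℝ, Set.Infinite {x : ℕ |
          ((Set.ncard {n : ℕ | (x : ℝ) < (n : ℝ) + (Nat.totient n : ℝ) ∧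
              (n : ℝ) + (Nat.totient n : ℝ) < (x : ℝ) + F x} : ℕ) : ℝ) > C * F x}) := by
  refine ⟨fun x => (x : ℝ) / (K x : ℝ), ?_, ⟨A, A_density, ?_⟩, ?_⟩
  · -- F tends to infinity
    have hK : Tendsto (fun n : ℕ => ((K n : ℕ) : ℝ)) atTop atTop :=
      tendsto_natCast_atTop_atTop.comp K_tendsto
    refine tendsto_atTop_mono' atTop ?_ hK
    filter_upwards [eventually_ge_atTop 1] with x hx
    have h1 := one_le_K x hx
    have h2 : (0 : ℝ) < K x := by exact_mod_cast h1
    rw [le_div_iff₀ h2]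
    have h3 := K_spec x
    have h4 : K x * K x ≤ x := by
      refine le_trans ?_ h3
      apply Nat.mul_le_mul_left
      calc K x ≤ (K x) ^ 2 := by nlinarith
        _ ≤ ((K x) ^ 2).factorial := Nat.self_le_factorial _
    exact_mod_cast h4
  · -- F n / φ n tends to zero along A
    have hK : Tendsto (fun n : ℕ => Real.sqrt (K n)) atTop atTop :=
      Real.tendsto_sqrt_atTop.comp (tendsto_natCast_atTop_atTop.comp K_tendsto)
    have h0 : Tendsto (fun n : ℕ => (Real.sqrt (K n))⁻¹) (atTop ⊓ 𝓟 A) (𝓝 0) :=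
      (tendsto_inv_atTop_zero.comp hK).mono_left inf_le_left
    refine squeeze_zero' ?_ ?_ h0
    · exact Eventually.of_forall (fun n => by positivity)
    · rw [eventually_inf_principal]
      filter_upwards [eventually_ge_atTop 1] with n hn hnA
      have hA : (n : ℝ) ≤ (Nat.totient n : ℝ) * Real.sqrt (K n) := hnA
      have h1 : (0 : ℝ) < K n := by exact_mod_cast one_le_K n hn
      have h2 : (0 : ℝ) < Nat.totient n := by exact_mod_cast Nat.totient_pos.mpr hn
      have h3 : (0 : ℝ) < Real.sqrt (K n) := Real.sqrt_pos.mpr h1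
      have h4 : Real.sqrt (K n) * Real.sqrt (K n) = K n := Real.mul_self_sqrt h1.le
      rw [div_div, div_le_iff₀ (by positivity)]
      have h5 : (Real.sqrt (K n))⁻¹ * ((K n : ℝ) * (Nat.totient n : ℝ)) =
          (Nat.totient n : ℝ) * Real.sqrt (K n) := by
        calc (Real.sqrt (K n))⁻¹ * ((K n : ℝ) * (Nat.totient n : ℝ))
            = (Real.sqrt (K n))⁻¹ * ((Real.sqrt (K n) * Real.sqrt (K n)) * (Nat.totient n : ℝ)) := by
              rw [h4]
          _ = (Nat.totient n : ℝ) * Real.sqrt (K n) := by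
              field_simp
      rw [h5]
      exact hA
  · -- the bound on the count
    intro h
    have h8 := h 8
    apply h8
    apply Set.Finite.subset (Set.finite_Iio 1)
    intro x hx
    by_contra hcon
    rw [Set.mem_Iio] at hcon
    have hx1 : 1 ≤ x := by omega
    have h9 := main_count (K x) x (one_le_K x hx1) (K_spec x)
    rw [Set.mem_ofPred_eq] at hx
    linarith

end Pool.Agent.S12349
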