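import Pool.Statements.S12645
import Pool.Agent.H378R2.FinalAll

set_option autoImplicit false
open N6813fd5a
open Filter
open scoped ArithmeticFunction.sigma
open Pool Pool.MP_be2988_nt

namespace Pool.Agent.S12645

/-- For every monotone f:ℕ→ℝ with f n ≤ log n for all n and f→∞, (1,∞) ⊆ closure of {τ((n+⌊f n⌋₊)!)/τ(n!) : n∈ℕ}. -/
theorem result :
    ∀ f : ℕ → ℝ, Monotone f → (∀ n, f n ≤ Real.log n) → Tendsto f atTop atTop → Set.Ioi (1 : ℝ) ⊆ closure (Set.range (F f)) := by
  intro f hm hl ht
  have h := Pool.Agent.H378R2.density f hm hl ht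
  have e : (fun n : ℕ => ((n + ⌊f n⌋₊).factorial.divisors.card : ℝ) / (n.factorial.divisors.card : ℝ)) = F f := by
    funext n
    simp only [F, ArithmeticFunction.sigma_zero_apply]
  rw [← e]
  exact h

end Pool.Agent.S12645
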