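import Pool.Statements.S12899
import Pool.Agent.H410R2.EDMain

set_option autoImplicit false
open Pool Pool.MP_def522_nt

namespace Pool.Agent.S12899

/-- There are infinitely many natural numbers n such that n, n+1 and n+2 all have the same number of positive divisors. -/
theorem result :
    Set.Infinite {n : ℕ | (Nat.divisors n).card = (Nat.divisors (n + 1)).card ∧
      (Nat.divisors (n + 1)).card = (Nat.divisors (n + 2)).card} := by
  rw [Set.infinite_iff_exists_gt]
  intro N
  obtain ⟨y, hy, h⟩ := Pool.Agent.H410R2.ED.equalRuns 3 (N + 1)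
  have h1 := h 1 (by norm_num)
  have h2 := h 2 (by norm_num)
  unfold Pool.Agent.H410R2.ED.dd at h1 h2
  exact ⟨y, ⟨h1.symm, h1.trans h2.symm⟩, by omega⟩

end Pool.Agent.S12899
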