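import Pool.Statements.S12967
import Pool.Agent.H412R2.Final

set_option autoImplicit false
open Pool Pool.MP_e50e6d_nt

namespace Pool.Agent.S12967

/-- For every ε>0 there are c>0 and x₀ such that for all real x≥x₀, the number of positive integers below x whose Collatz (3m+1) orbit reaches 1 exceeds c·x^(1−ε). -/
theorem result :
    ∀ ε : ℝ, 0 < ε → ∃ c : ℝ, 0 < c ∧ ∃ x₀ : ℝ, ∀ x : ℝ, x₀ ≤ x →
      c * x ^ (1 - ε) <
        (Nat.card {n : ℕ // 1 ≤ n ∧ (n : ℝ) < x ∧
          ∃ k : ℕ, (fun m : ℕ => if m % 2 = 0 then m / 2 else 3 * m + 1)^[k] n = 1} : ℝ) := by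
  exact Pool.Agent.H412R2.S12967_of Pool.Agent.H412R2.main_count

end Pool.Agent.S12967
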