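import Pool.Statements.S12991
import Pool.Agent.H446R2.BrunD

set_option autoImplicit false
open Pool Pool.MP_e7cd8d_nt

namespace Pool.Agent.S12991

open Finset Filter in
lemma choose_level (s : ℕ) : ∃ I : ℕ, 8 ≤ I ∧ s ≤ 2 ^ 2 ^ (I - 1) ∧
    (I = 8 ∨ 2 ^ (62 * 2 ^ I) ≤ s ^ 248) := by
  classical
  have hex : ∃ I : ℕ, 8 ≤ I ∧ s ≤ 2 ^ 2 ^ (I - 1) := by
    refine ⟨s + 8, by omega, ?_⟩
    have h1 : s < 2 ^ s := Nat.lt_two_pow_self
    have h2 : s ≤ 2 ^ (s + 8 - 1) := by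
      refine h1.le.trans (Nat.pow_le_pow_right (by norm_num) (by omega))
    exact h1.le.trans (Nat.pow_le_pow_right (by norm_num) h2)
  refine ⟨Nat.find hex, (Nat.find_spec hex).1, (Nat.find_spec hex).2, ?_⟩
  by_cases h8 : Nat.find hex = 8
  · exact Or.inl h8
  · right
    set I := Nat.find hex with hI
    have h9 : 8 < I := lt_of_le_of_ne (Nat.find_spec hex).1 (Ne.symm h8)
    have hnot := Nat.find_min hex (m := I - 1) (by omega)
    have h10 : 2 ^ 2 ^ (I - 1 - 1) < s := by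
      by_contra hc
      exact hnot ⟨by omega, by omega⟩
    calc 2 ^ (62 * 2 ^ I) = (2 ^ 2 ^ (I - 1 - 1)) ^ 248 := by
          rw [← pow_mul]
          congr 1
          have : 2 ^ I = 4 * 2 ^ (I - 1 - 1) := by
            have h11 : I = (I - 1 - 1) + 2 := by omega
            calc 2 ^ I = 2 ^ ((I - 1 - 1) + 2) := by rw [← h11]
              _ = 4 * 2 ^ (I - 1 - 1) := by rw [pow_add]; ring
          rw [this]; ring
      _ ≤ s ^ 248 := Nat.pow_le_pow_left h10.le 248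

lemma card_primeFactors_le (a B : ℕ) (ha : 0 < a) (haB : a < 2 ^ B) : a.primeFactors.card ≤ B := by
  have h1 : 2 ^ a.primeFactors.card ≤ ∏ p ∈ a.primeFactors, p := by
    rw [← Finset.prod_const]
    exact Finset.prod_le_prod' fun p hp => (Nat.prime_of_mem_primeFactors hp).two_le
  have h2 : ∏ p ∈ a.primeFactors, p ≤ a := Nat.le_of_dvd ha (Nat.prod_primeFactors_dvd a)
  exact ((Nat.pow_lt_pow_iff_right (by norm_num)).1 ((h1.trans h2).trans_lt haB)).le

lemma exQ : ∃ Q8 : ℕ, ∀ I : ℕ, I = 8 → 2 ^ (62 * 2 ^ I) = Q8 :=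
  ⟨2 ^ (62 * 2 ^ 8), fun I hI => by rw [hI]⟩

/-- There is c0 such that for every c at least c0: every maximal pairwise coprime set of integers in (m, m + floor((log m)^c)] has size tending to infinity as m grows. -/
theorem result :
    ∃ c₀ : ℝ, ∀ c : ℝ, c₀ ≤ c → ∀ N : ℕ, ∃ M : ℕ, ∀ m : ℕ, M ≤ m →
      ∀ A : Finset ℕ,
        A ⊆ Finset.Ioc m (m + ⌊(Real.log (m : ℝ)) ^ c⌋₊) →
        (A : Set ℕ).Pairwise Nat.Coprime →
        (∀ n ∈ Finset.Ioc m (m + ⌊(Real.log (m : ℝ)) ^ c⌋₊),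
            n ∉ A → ∃ a ∈ A, ¬ Nat.Coprime a n) →
        N ≤ A.card := by
  refine ⟨250, fun c hc N => ?_⟩
  obtain ⟨Q8, hQ8⟩ := exQ
  -- conditions for large m
  have hev1 : ∀ᶠ m : ℕ in Filter.atTop, (Real.log (m : ℝ)) ^ c ≤ (m : ℝ) := by
    have h1 := (isLittleO_log_rpow_rpow_atTop (s := 1) c one_pos).bound one_pos
    have h2 := (tendsto_natCast_atTop_atTop (R := ℝ)).eventually h1
    filter_upwards [h2, Filter.eventually_ge_atTop 1] with m hm hm1
    have hm1' : (1 : ℝ) ≤ m := by exact_mod_cast hm1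
    rw [Real.rpow_one] at hm
    have h5 := (le_abs_self _).trans hm
    simpa using h5
  have hev2 : ∀ᶠ m : ℕ in Filter.atTop,
      (Q8 : ℝ) + (3 * (N : ℝ)) ^ 248 + 2 ≤ Real.log (m : ℝ) :=
    (Real.tendsto_log_atTop.comp (tendsto_natCast_atTop_atTop (R := ℝ))).eventually_ge_atTop _
  obtain ⟨M, hM⟩ := Filter.eventually_atTop.1 (hev1.and (hev2.and (Filter.eventually_ge_atTop 1)))
  refine ⟨M, fun m hm A hA _ hmax => ?_⟩
  obtain ⟨h1, h2, h3⟩ := hM m hm
  by_contra hN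
  push Not at hN
  set x := Real.log (m : ℝ) with hx
  set k := ⌊x ^ c⌋₊ with hk
  have hB1 : (0 : ℝ) ≤ (Q8 : ℝ) := Nat.cast_nonneg _
  have hB2 : (0 : ℝ) ≤ (3 * (N : ℝ)) ^ 248 := by positivity
  have hx1 : (1 : ℝ) ≤ x := by linarith
  have hkm : k ≤ m := by
    have : (k : ℝ) ≤ m := (Nat.floor_le (by positivity)).trans h1
    exact_mod_cast this
  -- the set of primes
  set S := A.biUnion Nat.primeFactors with hS
  have hSp : ∀ p ∈ S, p.Prime := by
    intro p hp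
    rw [hS, Finset.mem_biUnion] at hp
    obtain ⟨a, _, hpa⟩ := hp
    exact Nat.prime_of_mem_primeFactors hpa
  have hScard : (S.card : ℝ) ≤ 3 * N * x := by
    have h4 : S.card ≤ ∑ a ∈ A, (Nat.log 2 m + 2) := by
      refine Finset.card_biUnion_le.trans (Finset.sum_le_sum fun a ha => ?_)
      have ha' := Finset.mem_Ioc.1 (hA ha)
      apply card_primeFactors_le a _ (by omega)
      have h5 : m < 2 ^ (Nat.log 2 m + 1) := Nat.lt_pow_succ_log_self (by norm_num) m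
      calc a ≤ m + m := by omega
        _ < 2 ^ (Nat.log 2 m + 1) + 2 ^ (Nat.log 2 m + 1) := by omega
        _ = 2 ^ (Nat.log 2 m + 2) := by rw [pow_succ 2 (Nat.log 2 m + 1)]; ring
    rw [Finset.sum_const, smul_eq_mul] at h4
    have h5 : S.card ≤ N * (Nat.log 2 m + 2) :=
      h4.trans (Nat.mul_le_mul_right _ hN.le)
    have h6 : (S.card : ℝ) ≤ N * ((Nat.log 2 m : ℕ) + 2) := by exact_mod_cast h5
    have h7 : ((Nat.log 2 m : ℕ) : ℝ) * Real.log 2 ≤ x := by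
      have h8 : 2 ^ Nat.log 2 m ≤ m := Nat.pow_log_le_self 2 (by omega)
      have h9 : (2 : ℝ) ^ Nat.log 2 m ≤ m := by exact_mod_cast h8
      have h10 := Real.log_le_log (by positivity) h9
      rw [Real.log_pow] at h10
      exact h10
    have h8 : (1 / 2 : ℝ) ≤ Real.log 2 := by
      have := Real.log_two_gt_d9
      linarith
    have h9 : ((Nat.log 2 m : ℕ) : ℝ) ≤ 2 * x := by
      have : (0 : ℝ) ≤ ((Nat.log 2 m : ℕ) : ℝ) := Nat.cast_nonneg _
      nlinarith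
    have hN0 : (0 : ℝ) ≤ N := Nat.cast_nonneg N
    have hx2 : (2 : ℝ) ≤ x := by linarith
    calc (S.card : ℝ) ≤ N * ((Nat.log 2 m : ℕ) + 2) := h6
      _ ≤ N * (3 * x) := by
          apply mul_le_mul_of_nonneg_left _ hN0
          linarith
      _ = 3 * N * x := by ring
  obtain ⟨I, hI8, hSI, hI⟩ := choose_level S.card
  have hQ : ((2 ^ (62 * 2 ^ I) : ℕ) : ℝ) + 1 ≤ x ^ c := by
    rcases hI with hI | hI
    · have h4 : x ≤ x ^ c := by
        calc x = x ^ (1 : ℝ) := (Real.rpow_one x).symm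
          _ ≤ x ^ c := Real.rpow_le_rpow_of_exponent_le hx1 (by linarith)
      rw [hQ8 I hI]
      linarith
    · have h4 : ((2 ^ (62 * 2 ^ I) : ℕ) : ℝ) ≤ (S.card : ℝ) ^ 248 := by exact_mod_cast hI
      have h5 : (S.card : ℝ) ^ 248 ≤ (3 * N * x) ^ 248 :=
        pow_le_pow_left₀ (Nat.cast_nonneg _) hScard 248
      have h6 : (3 * (N : ℝ) * x) ^ 248 = (3 * (N : ℝ)) ^ 248 * x ^ 248 := by rw [mul_pow]
      have h7 : (1 : ℝ) ≤ x ^ 248 := one_le_pow₀ hx1
      have h8 : x ^ 249 ≤ x ^ c := by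
        calc x ^ 249 = x ^ ((249 : ℕ) : ℝ) := (Real.rpow_natCast x 249).symm
          _ ≤ x ^ c := Real.rpow_le_rpow_of_exponent_le hx1 (by push_cast; linarith)
      calc ((2 ^ (62 * 2 ^ I) : ℕ) : ℝ) + 1 ≤ (3 * (N : ℝ)) ^ 248 * x ^ 248 + x ^ 248 := by
            rw [← h6]; linarith
        _ = ((3 * (N : ℝ)) ^ 248 + 1) * x ^ 248 := by ring
        _ ≤ x * x ^ 248 := by
            apply mul_le_mul_of_nonneg_right _ (by positivity)
            linarith
        _ = x ^ 249 := by ring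
        _ ≤ x ^ c := h8
  have hQk : 2 ^ (62 * 2 ^ I) < k := by
    have : 2 ^ (62 * 2 ^ I) + 1 ≤ k := by
      rw [hk]
      apply Nat.le_floor
      push_cast
      push_cast at hQ
      exact hQ
    omega
  obtain ⟨n, hn, hnS⟩ := Pool.Agent.H446R2.cover S hSp I hI8 hSI m k hQk
  have hn' := Finset.mem_Ioc.1 hn
  by_cases hnA : n ∈ A
  · have hn1 : n ≠ 1 := by omega
    have hp := Nat.minFac_prime hn1
    apply hnS n.minFac _ (Nat.minFac_dvd n)
    rw [hS, Finset.mem_biUnion]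
    exact ⟨n, hnA, Nat.mem_primeFactors.2 ⟨hp, Nat.minFac_dvd n, by omega⟩⟩
  · obtain ⟨a, ha, hco⟩ := hmax n hn hnA
    obtain ⟨p, hp, hpa, hpn⟩ := Nat.Prime.not_coprime_iff_dvd.1 hco
    apply hnS p _ hpn
    rw [hS, Finset.mem_biUnion]
    have ha' := Finset.mem_Ioc.1 (hA ha)
    exact ⟨a, ha, Nat.mem_primeFactors.2 ⟨hp, hpa, by omega⟩⟩

end Pool.Agent.S12991
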