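-- Frozen statement S13026 (negation of MP_eca08d_nt): the integer 97073381931807 is not the sum of two
-- squares and two central binomial coefficients.
import Pool.Statements.S13026

set_option autoImplicit false
open Pool Pool.MP_eca08d_nt

namespace Pool.Agent.S13026

/-- the counterexample -/
def bigN : ℕ := 97073381931807

/-- the central binomial coefficients up to `bigN` -/
def tbl : List ℕ := [1, 2, 6, 20, 70, 252, 924, 3432, 12870, 48620, 184756, 705432, 2704156, 10400600, 40116600, 155117520, 601080390, 2333606220, 9075135300, 35345263800, 137846528820, 538257874440, 2104098963720, 8233430727600, 32247603683100]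

/-- for every pair `i ≤ j` a divisor congruent to 3 mod 4, coprime to its cofactor
(entry `j - i` of row `i`) -/
def cert : List (List ℕ) :=
  [[31, 47, 71789219, 27, 7, 7, 7, 4020267619, 19291212623, 27, 2927, 7, 7, 7, 23, 23, 23, 23, 7, 7, 23, 23, 23, 43, 43],
   [708564831619, 7, 7, 3, 23, 139, 47, 8819, 2239, 3, 23, 3, 131731, 7, 912227, 31, 31, 31, 31, 31, 7, 31, 31, 31],
   [16231, 67, 11482847, 3, 11, 3, 3, 11, 11, 3, 883, 83, 3, 3, 3, 3, 11, 3, 3, 3, 1811119, 3, 3],
   [191, 3, 19414676386307, 23, 7, 67, 97073381883167, 3, 38567939, 3, 20678807, 1831572487079, 11, 4327, 744975467, 97064306796487, 12239, 4972838219, 103, 548955392879, 88839951204187, 23],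
   [97073381931667, 19, 31, 1039, 7850431, 3, 79, 11, 23, 3, 23, 23, 7, 7, 23, 23, 23, 23, 23, 7, 7],
   [3, 3, 10785931325347, 3, 129439, 1579, 10785931247347, 360867580771, 19241500799, 3, 3, 3, 3, 3, 27, 3, 431, 3, 3, 3],
   [211, 3, 3, 2367643460543, 23, 3, 1090712126143, 97073371530283, 3, 3, 3, 3, 45330611, 3, 3, 3, 11, 3, 3],
   [3, 27, 19414676375951, 131, 3, 107, 3882934861111, 7, 2157182818019, 18367, 2157134407159, 3, 3, 1279, 3, 3, 32507, 27],
   [3, 259751, 7865059, 243, 47, 2469067, 3, 3, 3, 3, 3, 643, 3, 27, 3, 3, 3],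
   [97073381834567, 3, 19, 3, 19, 19, 19, 19, 19, 19, 97038036619387, 823, 419, 11, 59, 64825778200087],
   [1759, 67, 71, 3, 83, 2367639673891, 166871, 607, 643, 97038036483251, 43, 1367, 11, 434746199, 23],
   [3, 11, 3882934833031, 103, 2157182802419, 7, 7, 3, 3, 3187, 3, 3, 7, 7],
   [669471562231, 3, 97073339111051, 25307, 7, 7, 1504476403, 24391, 107, 14411, 1791873212527, 7, 7],
   [132432961979, 41203, 25393111, 7, 7, 103, 92243, 249191580983, 878958323, 94969272567487, 7, 1322974854043],
   [3, 3, 3, 3, 3, 1006231, 3, 55769647, 3, 3, 3],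
   [3, 3, 3, 3, 27, 3, 71, 3, 3, 3],
   [3, 3, 3, 7, 3, 27, 3, 3, 3],
   [3, 3, 7, 3, 5208043, 3, 3, 3],
   [6143, 3, 3, 3, 11, 3, 3],
   [3, 27, 3, 3, 201370988527, 7],
   [3, 79, 3, 3, 3],
   [3, 3, 487, 27],
   [27, 3, 3],
   [3, 3],
   [3]]

/-- one check -/
def chk (i j : ℕ) : Bool :=
  let a := tbl.getD i 0
  let b := tbl.getD j 0
  if bigN < a + b then true
  else
    let m := bigN - a - b
    let q := (cert.getD i []).getD (j - i) 0
    (m % q == 0) && (q % 4 == 3) && (Nat.gcd q (m / q) == 1) && (0 < m) && (0 < q)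

/-- all checks -/
def chkAll : Bool := (List.range 25).all fun i => (List.range 25).all fun j => (decide (j < i)) || chk i j

theorem chkAll_true : chkAll = true := by decide +kernel

theorem no_rep (m q x y : ℕ) (hm : 0 < m) (hq : 0 < q) (hd : m % q = 0) (h4 : q % 4 = 3)
    (hg : Nat.gcd q (m / q) = 1) (h : m = x ^ 2 + y ^ 2) : False := by
  obtain ⟨r, hr⟩ := Nat.dvd_of_mod_eq_zero hd
  have hrq : m / q = r := by rw [hr]; exact Nat.mul_div_cancel_left r hq
  rw [hrq] at hg
  have hr0 : r ≠ 0 := by rintro rfl; simp at hr; omega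
  have hall := (Nat.eq_sq_add_sq_iff (n := m)).1 ⟨x, y, h⟩
  have hq2 : ∃ u v : ℕ, q = u ^ 2 + v ^ 2 := by
    rw [Nat.eq_sq_add_sq_iff]
    intro p hp hp4
    have hpp : p.Prime := by
      first
        | exact hp
        | exact Nat.prime_of_mem_primeFactors hp
    have := Fact.mk hpp
    by_cases hpq : p ∣ q
    · have hpr : ¬ p ∣ r := fun hpr => by
        have := Nat.dvd_gcd hpq hpr
        rw [hg] at this
        exact hpp.one_lt.ne' (Nat.dvd_one.1 this)
      have hpm : p ∣ m := hr ▸ (Dvd.dvd.mul_right hpq r)
      have e1 : padicValNat p m = padicValNat p q := by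
        rw [hr, padicValNat.mul (by omega) hr0, padicValNat.eq_zero_of_not_dvd hpr, add_zero]
      rw [← e1]
      exact hall p (Nat.mem_primeFactors.2 ⟨hpp, hpm, by omega⟩) hp4
    · rw [padicValNat.eq_zero_of_not_dvd hpq]
      exact Even.zero
  obtain ⟨u, v, huv⟩ := hq2
  have hu : u ^ 2 % 4 = 0 ∨ u ^ 2 % 4 = 1 := by
    have : u % 4 < 4 := Nat.mod_lt _ (by norm_num)
    rw [Nat.pow_mod]
    interval_cases (u % 4) <;> simp
  have hv : v ^ 2 % 4 = 0 ∨ v ^ 2 % 4 = 1 := by
    have : v % 4 < 4 := Nat.mod_lt _ (by norm_num)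
    rw [Nat.pow_mod]
    interval_cases (v % 4) <;> simp
  omega

theorem cb_mono : Monotone Nat.centralBinom := by
  refine monotone_nat_of_le_succ fun n => ?_
  have h := Nat.succ_mul_centralBinom_succ n
  nlinarith [Nat.centralBinom_pos n, Nat.centralBinom_pos (n + 1)]

theorem cb_vals : (∀ k, k < 25 → Nat.centralBinom k = tbl.getD k 0) ∧ bigN < Nat.centralBinom 25 := by
  have h0 : Nat.centralBinom 0 = 1 := Nat.centralBinom_zero
  have h1 : Nat.centralBinom 1 = 2 := by
    have h := Nat.succ_mul_centralBinom_succ 0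
    norm_num [h0] at h
    omega
  have h2 : Nat.centralBinom 2 = 6 := by
    have h := Nat.succ_mul_centralBinom_succ 1
    norm_num [h1] at h
    omega
  have h3 : Nat.centralBinom 3 = 20 := by
    have h := Nat.succ_mul_centralBinom_succ 2
    norm_num [h2] at h
    omega
  have h4 : Nat.centralBinom 4 = 70 := by
    have h := Nat.succ_mul_centralBinom_succ 3
    norm_num [h3] at h
    omega
  have h5 : Nat.centralBinom 5 = 252 := by
    have h := Nat.succ_mul_centralBinom_succ 4
    norm_num [h4] at h
    omega
  have h6 : Nat.centralBinom 6 = 924 := by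
    have h := Nat.succ_mul_centralBinom_succ 5
    norm_num [h5] at h
    omega
  have h7 : Nat.centralBinom 7 = 3432 := by
    have h := Nat.succ_mul_centralBinom_succ 6
    norm_num [h6] at h
    omega
  have h8 : Nat.centralBinom 8 = 12870 := by
    have h := Nat.succ_mul_centralBinom_succ 7
    norm_num [h7] at h
    omega
  have h9 : Nat.centralBinom 9 = 48620 := by
    have h := Nat.succ_mul_centralBinom_succ 8
    norm_num [h8] at h
    omega
  have h10 : Nat.centralBinom 10 = 184756 := by
    have h := Nat.succ_mul_centralBinom_succ 9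
    norm_num [h9] at h
    omega
  have h11 : Nat.centralBinom 11 = 705432 := by
    have h := Nat.succ_mul_centralBinom_succ 10
    norm_num [h10] at h
    omega
  have h12 : Nat.centralBinom 12 = 2704156 := by
    have h := Nat.succ_mul_centralBinom_succ 11
    norm_num [h11] at h
    omega
  have h13 : Nat.centralBinom 13 = 10400600 := by
    have h := Nat.succ_mul_centralBinom_succ 12
    norm_num [h12] at h
    omega
  have h14 : Nat.centralBinom 14 = 40116600 := by
    have h := Nat.succ_mul_centralBinom_succ 13
    norm_num [h13] at h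
    omega
  have h15 : Nat.centralBinom 15 = 155117520 := by
    have h := Nat.succ_mul_centralBinom_succ 14
    norm_num [h14] at h
    omega
  have h16 : Nat.centralBinom 16 = 601080390 := by
    have h := Nat.succ_mul_centralBinom_succ 15
    norm_num [h15] at h
    omega
  have h17 : Nat.centralBinom 17 = 2333606220 := by
    have h := Nat.succ_mul_centralBinom_succ 16
    norm_num [h16] at h
    omega
  have h18 : Nat.centralBinom 18 = 9075135300 := by
    have h := Nat.succ_mul_centralBinom_succ 17
    norm_num [h17] at h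
    omega
  have h19 : Nat.centralBinom 19 = 35345263800 := by
    have h := Nat.succ_mul_centralBinom_succ 18
    norm_num [h18] at h
    omega
  have h20 : Nat.centralBinom 20 = 137846528820 := by
    have h := Nat.succ_mul_centralBinom_succ 19
    norm_num [h19] at h
    omega
  have h21 : Nat.centralBinom 21 = 538257874440 := by
    have h := Nat.succ_mul_centralBinom_succ 20
    norm_num [h20] at h
    omega
  have h22 : Nat.centralBinom 22 = 2104098963720 := by
    have h := Nat.succ_mul_centralBinom_succ 21
    norm_num [h21] at h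
    omega
  have h23 : Nat.centralBinom 23 = 8233430727600 := by
    have h := Nat.succ_mul_centralBinom_succ 22
    norm_num [h22] at h
    omega
  have h24 : Nat.centralBinom 24 = 32247603683100 := by
    have h := Nat.succ_mul_centralBinom_succ 23
    norm_num [h23] at h
    omega
  have h25 : Nat.centralBinom 25 = 126410606437752 := by
    have h := Nat.succ_mul_centralBinom_succ 24
    norm_num [h24] at h
    omega
  refine ⟨?_, by rw [h25]; unfold bigN; norm_num⟩
  intro k hk
  interval_cases k
  · exact h0
  · exact h1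
  · exact h2
  · exact h3
  · exact h4
  · exact h5
  · exact h6
  · exact h7
  · exact h8
  · exact h9
  · exact h10
  · exact h11
  · exact h12
  · exact h13
  · exact h14
  · exact h15
  · exact h16
  · exact h17
  · exact h18
  · exact h19
  · exact h20
  · exact h21
  · exact h22
  · exact h23
  · exact h24

theorem lt_of_le (k : ℕ) (h : Nat.centralBinom k ≤ bigN) : k < 25 := by
  by_contra hk
  have := cb_mono (Nat.le_of_not_lt hk)
  have := cb_vals.2
  omega

theorem main_pair (a b c d : ℕ) (hcd : c ≤ d)
    (h : bigN = a ^ 2 + b ^ 2 + Nat.centralBinom c + Nat.centralBinom d) : False := by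
  have hc : c < 25 := lt_of_le c (by omega)
  have hd : d < 25 := lt_of_le d (by omega)
  have h1 := cb_vals.1 c hc
  have h2 := cb_vals.1 d hd
  have hk := chkAll_true
  unfold chkAll at hk
  have hk1 := (List.all_eq_true.1 hk) c (List.mem_range.2 hc)
  have hk2 := (List.all_eq_true.1 hk1) d (List.mem_range.2 hd)
  have hk3 : chk c d = true := by
    simpa [Nat.not_lt.2 hcd] using hk2
  unfold chk at hk3
  rw [← h1, ← h2] at hk3
  have hle : ¬ bigN < Nat.centralBinom c + Nat.centralBinom d := by omega
  rw [if_neg hle] at hk3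
  simp only [Bool.and_eq_true, beq_iff_eq, decide_eq_true_eq] at hk3
  obtain ⟨⟨⟨⟨e1, e2⟩, e3⟩, e4⟩, e5⟩ := hk3
  exact no_rep _ _ a b e4 e5 e1 e2 e3 (by omega)

/-- The negation of the preceding statement: Every natural number n greater than 1 equals a^2 + b^2 + C(2c,c) + C(2d,d) for some natural numbers a, b, c, d (zero allowed). -/
theorem result :
    ¬ (∀ n : ℕ, 1 < n →
      ∃ a b c d : ℕ, n = a ^ 2 + b ^ 2 + Nat.centralBinom c + Nat.centralBinom d) := by
  intro H
  obtain ⟨a, b, c, d, h⟩ := H bigN (by unfold bigN; norm_num)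
  rcases le_total c d with hcd | hcd
  · exact main_pair a b c d hcd h
  · exact main_pair a b d c hcd (by omega)

end Pool.Agent.S13026
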