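import Pool.Statements.S13071
import Pool.Agent.H377R2.NK.Fin
import Pool.Agent.H422R2.QA.QALD

set_option autoImplicit false
open Pool Pool.MP_f1c1a6_nt

namespace Pool.Agent.S13071

/-- Let T(n)=n/2 for even n and (5n+1)/2 for odd n on the integers. For every integer a not divisible by 5, the limsup over k of (1/k)·log of the number of integers n with T^k(n)=a equals log(6/5). -/
theorem result :
    ∀ a : ℤ, ¬ ((5 : ℤ) ∣ a) →
      Filter.limsup
        (fun k : ℕ =>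
          Real.log ((Set.ncard {n : ℤ |
            (fun m : ℤ => if m % 2 = 0 then m / 2 else (5 * m + 1) / 2)^[k] n = a} : ℕ) : ℝ)
            / (k : ℝ))
        Filter.atTop = Real.log (6 / 5) := by
  intro a ha
  have hL : 0 < Real.log (6 / 5) := Real.log_pos (by norm_num)
  refine Filter.Tendsto.limsup_eq ?_
  rw [Metric.tendsto_atTop]
  intro δ hδ
  have hε : 0 < δ / (2 * Real.log (6 / 5)) := by positivity
  obtain ⟨K₁, hK₁⟩ := Pool.Agent.H422R2.QA.App.tree_lower (q := 5) (Or.inr rfl) hε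
  obtain ⟨K₂, hK₂⟩ := Pool.Agent.H377R2.NK.ncard_upper (p := 5) (Or.inr rfl) hε
  refine ⟨max (max K₁ K₂) 1, fun k hk => ?_⟩
  have hk1 : (1 : ℝ) ≤ k := by exact_mod_cast (le_max_right _ 1).trans hk
  have hk0 : (0 : ℝ) < k := by linarith
  have hkm := (le_max_left (max K₁ K₂) 1).trans hk
  have h1 := hK₁ k ((le_max_left K₁ K₂).trans hkm) a (by exact_mod_cast ha)
  have h2 := hK₂ k ((le_max_right K₁ K₂).trans hkm) a
  have hfin := (Pool.Agent.H377R2.NK.ncard_le_Wk (p := 5) (Or.inr rfl) k a).1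
  have h3 : (((5 : ℕ) : ℝ) + 1) / ((5 : ℕ) : ℝ) = 6 / 5 := by norm_num
  rw [h3] at h1 h2
  have hsub : {m : ℤ | (Pool.Agent.H422R2.QA.TZ 5)^[k] m = a ∧ ¬ (((5 : ℕ) : ℤ)) ∣ m} ⊆
      {n : ℤ | (fun m : ℤ => if m % 2 = 0 then m / 2 else (((5 : ℕ) : ℤ) * m + 1) / 2)^[k] n = a} :=
    fun m hm => hm.1
  have h1' := h1.trans (Nat.cast_le.2 (Set.ncard_le_ncard hsub hfin))
  clear h1
  set n : ℕ := Set.ncard {n : ℤ |
            (fun m : ℤ => if m % 2 = 0 then m / 2 else (5 * m + 1) / 2)^[k] n = a} with hn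
  have h1 : (6 / 5 : ℝ) ^ ((1 - δ / (2 * Real.log (6 / 5))) * (k : ℝ)) ≤ (n : ℝ) := by
    exact_mod_cast h1'
  have h2' : (n : ℝ) ≤ (6 / 5 : ℝ) ^ ((1 + δ / (2 * Real.log (6 / 5))) * (k : ℝ)) := by
    exact_mod_cast h2
  have hN : (0 : ℝ) < (n : ℝ) := lt_of_lt_of_le (Real.rpow_pos_of_pos (by norm_num) _) h1
  have h3 := Real.log_le_log (Real.rpow_pos_of_pos (by norm_num) _) h1
  have h4 := Real.log_le_log hN h2'
  rw [Real.log_rpow (by norm_num)] at h3 h4
  have h5 : δ / (2 * Real.log (6 / 5)) * Real.log (6 / 5) = δ / 2 := by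
    field_simp
  have h6 : (1 - δ / (2 * Real.log (6 / 5))) * k * Real.log (6 / 5) =
      (Real.log (6 / 5) - δ / 2) * k := by
    rw [← h5]; ring
  have h7 : (1 + δ / (2 * Real.log (6 / 5))) * k * Real.log (6 / 5) =
      (Real.log (6 / 5) + δ / 2) * k := by
    rw [← h5]; ring
  rw [h6] at h3
  rw [h7] at h4
  rw [Real.dist_eq, abs_lt]
  constructor
  · have : Real.log (6 / 5) - δ / 2 ≤ Real.log (n : ℝ) / k := by
      rw [le_div_iff₀ hk0]; exact h3
    linarith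
  · have : Real.log (n : ℝ) / k ≤ Real.log (6 / 5) + δ / 2 := by
      rw [div_le_iff₀ hk0]; exact h4
    linarith

end Pool.Agent.S13071
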