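import Pool.Statements.S13086
import Pool.Agent.H419R2.Cex

set_option autoImplicit false
open Pool Pool.MP_f29d01_nt

namespace Pool.Agent.S13086

/-- The negation of the preceding statement: For every completely multiplicative ±1 sequence a_n and every ε>0, there is a t where the series (1/π)Σ a_n sin(2πnt)/n converges to a value of absolute value at least 1/2−ε; that is, the sup of ∣s∣ is at least 1/2. -/
theorem result :
    ¬ (∀ a : ℕ → ℝ,
      (∀ n : ℕ, 1 ≤ n → (a n = 1 ∨ a n = -1)) →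
      a 1 = 1 →
      (∀ m n : ℕ, 1 ≤ m → 1 ≤ n → a (m * n) = a m * a n) →
      ∀ ε : ℝ, 0 < ε →
        ∃ t L : ℝ,
          Filter.Tendsto
            (fun N : ℕ => (1 / Real.pi) *
              ∑ n ∈ Finset.Icc 1 N, a n * Real.sin (2 * Real.pi * (n : ℝ) * t) / (n : ℝ))
            Filter.atTop (nhds L) ∧
          1 / 2 - ε ≤ |L|) := by
  intro h
  obtain ⟨t, L, hT, hL⟩ := h (H419R2.Flip.sg H419R2.Cex.P)
    (fun n _ => H419R2.Flip.sg_eq _ n) (H419R2.Flip.sg_one _)
    (fun m n hm hn => H419R2.Flip.sg_mul _ H419R2.Cex.P_prime m n hm hn)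
    (1 / 2000000) (by norm_num)
  have h1 := H419R2.Flip.limit_close H419R2.Cex.P H419R2.Cex.P_prime H419R2.Cex.P_nodup t L hT
  have h2 := H419R2.Cex.F_bound t
  have h3 := H419R2.Cex.eE_P
  have h4 : |L| ≤ |L - H419R2.Flip.F H419R2.Cex.P t| + |H419R2.Flip.F H419R2.Cex.P t| := by
    have := abs_add_le (L - H419R2.Flip.F H419R2.Cex.P t) (H419R2.Flip.F H419R2.Cex.P t)
    rwa [sub_add_cancel] at this
  linarith

end Pool.Agent.S13086
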