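import Pool.Statements.S13182
import Pool.Agent.H256R2.SC.V
import Pool.Agent.H256R2.SC.R
import Pool.Agent.H256R2.SC.G2

set_option autoImplicit false
open N652c0427
open Filter
open Pool Pool.MP_fdd1d3_nt

namespace Pool.Agent.S13182

/-- The negation of the preceding statement: The least k∈ℕ with k·n+1 prime (Nat.nth … 0), cast to ℝ, is O(log n · log log n) as n→∞ along ℕ. -/
theorem result :
    ¬ ((fun n ↦ (a n : ℝ)) =O[atTop] (fun n ↦ Real.log n * Real.log (Real.log n))) :=
  Pool.Agent.H256R2.SC.not_isBigO_of Pool.Agent.H256R2.SC.covering Pool.Agent.H256R2.SC.survivors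

end Pool.Agent.S13182
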