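import Pool.Statements.S13220
import Pool.Agent.H982R2.BLFinal
import Pool.Agent.H982R2.BLBil
import Pool.Agent.H982R2.BLColour

set_option autoImplicit false
open Pool Pool.MP_0be95c_pr

namespace Pool.Agent.S13220

/-- The negation of the preceding statement: For k≥3 and every ε>0, in the random graph process on n vertices, with probability tending to 1 the first time χ≥k+1 is within εn steps of the first bilinked k-collection of stable sets (three singletons excluded when k=3). -/
theorem result :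
    ¬ (∀ k : ℕ, 3 ≤ k → ∀ ε : ℝ, 0 < ε →
      Filter.Tendsto (fun n : ℕ =>
        ((({σ : {e : Sym2 (Fin n) // ¬ e.IsDiag} ≃
              Fin (Fintype.card {e : Sym2 (Fin n) // ¬ e.IsDiag}) |
            ∀ G : ℕ → SimpleGraph (Fin n),
              (∀ t : ℕ, G t = SimpleGraph.fromEdgeSet
                {e : Sym2 (Fin n) | ∃ h : ¬ e.IsDiag, ((σ ⟨e, h⟩ : ℕ) < t)}) →
            ∀ B : SimpleGraph (Fin n) → Prop,
              (∀ H : SimpleGraph (Fin n), B H ↔
                ∃ V : Fin k → Finset (Fin n),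
                  (∀ i, (V i).Nonempty) ∧
                  (∀ i j, i ≠ j → Disjoint (V i) (V j)) ∧
                  (∀ i, H.IsIndepSet ((V i : Finset (Fin n)) : Set (Fin n))) ∧
                  (∀ i j, i ≠ j →
                    (H.induce ((V i ∪ V j : Finset (Fin n)) : Set (Fin n))).Connected) ∧
                  ¬ (k = 3 ∧ ∀ i, (V i).card = 1)) →
            ∃ t₁ t₂ : ℕ,
              B (G t₁) ∧ (∀ t, t < t₁ → ¬ B (G t)) ∧
              ((k + 1 : ℕ∞) ≤ (G t₂).chromaticNumber) ∧
              (∀ t, t < t₂ → ¬ ((k + 1 : ℕ∞) ≤ (G t).chromaticNumber)) ∧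
              (t₂ : ℝ) ≤ (t₁ : ℝ) + ε * (n : ℝ) ∧
              (t₁ : ℝ) ≤ (t₂ : ℝ) + ε * (n : ℝ)} :
            Set ({e : Sym2 (Fin n) // ¬ e.IsDiag} ≃
              Fin (Fintype.card {e : Sym2 (Fin n) // ¬ e.IsDiag}))).ncard : ℝ) /
          ((Fintype.card {e : Sym2 (Fin n) // ¬ e.IsDiag}).factorial : ℝ)))
        Filter.atTop (nhds 1)) :=
  H982R2.BL.final_of H982R2.BL.bilinked_whp
    (fun K hK c hc0 hc δ hδ => H982R2.BL.colourable_whp K hK c hc0 hc δ hδ)

end Pool.Agent.S13220
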