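import Pool.Statements.S13228
import Pool.Agent.H994R2.K.Final

set_option autoImplicit false
open Classical
open Pool Pool.MP_1448dd_pr

namespace Pool.Agent.S13228

/-- The negation of the preceding statement: Among labeled 3-regular graphs on 2m vertices, the fraction whose energy ½Σ_{i~j}(1−cos(θi−θj)) has only local minima with all θi equal mod 2π tends to 1 as m→∞. -/
theorem result :
    ¬ (Filter.Tendsto (fun m : ℕ =>
      (((Finset.univ : Finset (SimpleGraph (Fin (2 * m)))).filter (fun G =>
          (∀ v : Fin (2 * m), (Finset.univ.filter (fun w => G.Adj v w)).card = 3) ∧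
          ∀ θ : Fin (2 * m) → ℝ,
            IsLocalMin (fun φ : Fin (2 * m) → ℝ =>
              (1 / 2 : ℝ) * ∑ i, ∑ j, (if G.Adj i j then 1 - Real.cos (φ i - φ j) else 0)) θ →
            ∀ i j : Fin (2 * m), ∃ k : ℤ, θ i - θ j = 2 * Real.pi * (k : ℝ))).card : ℝ) /
      (((Finset.univ : Finset (SimpleGraph (Fin (2 * m)))).filter (fun G =>
          ∀ v : Fin (2 * m), (Finset.univ.filter (fun w => G.Adj v w)).card = 3)).card : ℝ))
      Filter.atTop (nhds 1)) := by
  intro hlim
  obtain ⟨c, hc, hmain⟩ := H994K.main_bound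
  rw [Metric.tendsto_atTop] at hlim
  obtain ⟨N, hN⟩ := hlim c hc
  obtain ⟨m, hm, hgpos, hcount⟩ := hmain N
  have h1 := hN m hm
  revert h1
  set A := ((Finset.univ : Finset (SimpleGraph (Fin (2 * m)))).filter (fun G =>
          (∀ v : Fin (2 * m), (Finset.univ.filter (fun w => G.Adj v w)).card = 3) ∧
          ∀ θ : Fin (2 * m) → ℝ,
            IsLocalMin (fun φ : Fin (2 * m) → ℝ =>
              (1 / 2 : ℝ) * ∑ i, ∑ j, (if G.Adj i j then 1 - Real.cos (φ i - φ j) else 0)) θ →
            ∀ i j : Fin (2 * m), ∃ k : ℤ, θ i - θ j = 2 * Real.pi * (k : ℝ))) with hA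
  set B := ((Finset.univ : Finset (SimpleGraph (Fin (2 * m)))).filter (fun G =>
          ∀ v : Fin (2 * m), (Finset.univ.filter (fun w => G.Adj v w)).card = 3)) with hB
  intro h1
  have hBc : B = H994K.cub (Fin (2 * m)) := by
    ext G
    rw [H994K.mem_cub, hB, Finset.mem_filter]
    exact ⟨fun h => h.2, fun h => ⟨Finset.mem_univ _, h⟩⟩
  have hcard : B.card = H994K.gg m := by
    rw [hBc]
    rfl
  have hdisj : Disjoint A ((H994K.cub (Fin (2 * m))).filter (fun G => H994K.NonSync G)) := by
    rw [Finset.disjoint_left]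
    intro G hG hG'
    rw [hA, Finset.mem_filter] at hG
    rw [Finset.mem_filter] at hG'
    obtain ⟨θ, hθ, u, v, huv⟩ := hG'.2
    exact huv (hG.2.2 θ hθ u v)
  have hsub : A ∪ (H994K.cub (Fin (2 * m))).filter (fun G => H994K.NonSync G) ⊆ B := by
    apply Finset.union_subset
    · intro G hG
      rw [hA, Finset.mem_filter] at hG
      rw [hB, Finset.mem_filter]
      exact ⟨Finset.mem_univ _, hG.2.1⟩
    · rw [hBc]
      exact Finset.filter_subset _ _
  have h2 := Finset.card_le_card hsub
  rw [Finset.card_union_of_disjoint hdisj, hcard] at h2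
  have h3 : (A.card : ℝ) + (((H994K.cub (Fin (2 * m))).filter
      (fun G => H994K.NonSync G)).card : ℝ) ≤ H994K.gg m := by
    exact_mod_cast h2
  have hg : (0 : ℝ) < H994K.gg m := by exact_mod_cast hgpos
  rw [hcard, Real.dist_eq, abs_lt] at h1
  have h4 := h1.1
  have h5 : (A.card : ℝ) / H994K.gg m ≤ 1 - c := by
    rw [div_le_iff₀ hg]
    linarith
  linarith

end Pool.Agent.S13228
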