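import Pool.Statements.S13243
import Pool.Agent.H988R2.MinSing4

set_option autoImplicit false
open MeasureTheory ProbabilityTheory
open Pool Pool.MP_1e242b_pr

namespace Pool.Agent.S13243

open Pool.Agent.H988R2 in
/-- For every n, every real n×n matrix Ā, every σ>0 and every x≥1, with Z having iid standard normal entries: P(spectral norm of (Ā+σZ)⁻¹ ≥ x) ≤ P(spectral norm of (σZ)⁻¹ ≥ x). -/
theorem result :
    ∀ (n : ℕ) (Abar : Matrix (Fin n) (Fin n) ℝ) (σ : ℝ), 0 < σ → ∀ x : ℝ, 1 ≤ x →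
      (Measure.pi (fun _ : Fin n => Measure.pi (fun _ : Fin n => gaussianReal 0 1)))
        {Z : Fin n → Fin n → ℝ |
          x ≤ ‖Matrix.toEuclideanCLM (n := Fin n) (𝕜 := ℝ) (Abar + σ • Matrix.of Z)⁻¹‖}
      ≤ (Measure.pi (fun _ : Fin n => Measure.pi (fun _ : Fin n => gaussianReal 0 1)))
        {Z : Fin n → Fin n → ℝ |
          x ≤ ‖Matrix.toEuclideanCLM (n := Fin n) (𝕜 := ℝ) (σ • Matrix.of Z)⁻¹‖} := by
  intro n Abar σ hσ x hx
  have hx0 : 0 < x := lt_of_lt_of_le zero_lt_one hx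
  rcases Nat.eq_zero_or_pos n with rfl | hn
  · have : {Z : Fin 0 → Fin 0 → ℝ |
          x ≤ ‖Matrix.toEuclideanCLM (n := Fin 0) (𝕜 := ℝ) (Abar + σ • Matrix.of Z)⁻¹‖} = ∅ := by
      ext Z
      simp only [Set.mem_ofPred_eq, Set.mem_empty_iff_false, iff_false, not_le]
      have h0 : Matrix.toEuclideanCLM (n := Fin 0) (𝕜 := ℝ) (Abar + σ • Matrix.of Z)⁻¹ = 0 := by
        ext v i
        exact i.elim0
      rw [h0, norm_zero]
      exact hx0
    rw [this]
    simp
  -- the mean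
  let B : W n := WithLp.toLp 2 fun p => σ⁻¹ * Abar p.1 p.2
  have hxs : 0 < x * σ := mul_pos hx0 hσ
  have hinv : ∀ M : Matrix (Fin n) (Fin n) ℝ,
      ‖Matrix.toEuclideanCLM (n := Fin n) (𝕜 := ℝ) (σ • M)⁻¹‖ =
        σ⁻¹ * ‖Matrix.toEuclideanCLM (n := Fin n) (𝕜 := ℝ) M⁻¹‖ := by
    intro M
    have h1 : (σ • M)⁻¹ = σ⁻¹ • M⁻¹ := by
      by_cases hM : IsUnit M.det
      · have h2 : (Units.mk0 σ hσ.ne') • M = σ • M := rfl
        have h3 := Matrix.inv_smul' M (Units.mk0 σ hσ.ne') hM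
        rw [h2] at h3
        rw [h3]
        rfl
      · have hM' : ¬ IsUnit (σ • M).det := by
          rw [Matrix.det_smul]
          intro h
          exact hM (isUnit_of_mul_isUnit_right h)
        rw [Matrix.nonsing_inv_apply_not_isUnit _ hM, Matrix.nonsing_inv_apply_not_isUnit _ hM',
          smul_zero]
    rw [h1, map_smul, norm_smul, norm_inv, Real.norm_eq_abs, abs_of_pos hσ]
  have hA : ∀ Z : Fin n → Fin n → ℝ, Abar + σ • Matrix.of Z = σ • (σ⁻¹ • Abar + Matrix.of Z) := by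
    intro Z
    rw [smul_add, smul_smul, mul_inv_cancel₀ hσ.ne', one_smul]
  have hset1 : {Z : Fin n → Fin n → ℝ |
      x ≤ ‖Matrix.toEuclideanCLM (n := Fin n) (𝕜 := ℝ) (Abar + σ • Matrix.of Z)⁻¹‖} ⊆
      {Z : Fin n → Fin n → ℝ | smin (cur n B + Z) ≤ (x * σ)⁻¹} := by
    intro Z hZ
    simp only [Set.mem_ofPred_eq] at hZ ⊢
    rw [hA, hinv] at hZ
    apply smin_le_of_le_norm_inv hn _ hxs
    have e : Matrix.of (cur n B + Z) = σ⁻¹ • Abar + Matrix.of Z := by
      ext i j
      rfl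
    rw [e]
    have : x * σ ≤ (σ⁻¹ * ‖Matrix.toEuclideanCLM (n := Fin n) (𝕜 := ℝ)
        (σ⁻¹ • Abar + Matrix.of Z)⁻¹‖) * σ := by gcongr
    calc x * σ ≤ _ := this
      _ = _ := by field_simp
  have hcl : ∀ A : Fin n → Fin n → ℝ,
      MeasurableSet {Z : Fin n → Fin n → ℝ | smin (A + Z) ≤ (x * σ)⁻¹} := by
    intro A
    apply IsClosed.measurableSet
    exact isClosed_le ((smin_lipschitz hn).continuous.comp (continuous_const.add continuous_id))
      continuous_const
  have hdet : ∀ᵐ Z ∂(Measure.pi (fun _ : Fin n => Measure.pi (fun _ : Fin n => gaussianReal 0 1))),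
      (Matrix.of Z).det ≠ 0 := by
    rw [pi_pi_eq_map]
    have h1 : ∀ᵐ X ∂(γ n), (Matrix.of (cur n X)).det ≠ 0 :=
      (stdGaussian_ac _).ae_le ae_det_ne_zero
    rw [ae_map_iff (cur n).continuous.measurable.aemeasurable]
    · exact h1
    · have : Continuous fun Z : Fin n → Fin n → ℝ => (Matrix.of Z).det :=
        Continuous.matrix_det continuous_id
      exact (isOpen_ne_fun this continuous_const).measurableSet
  calc (Measure.pi (fun _ : Fin n => Measure.pi (fun _ : Fin n => gaussianReal 0 1)))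
        {Z : Fin n → Fin n → ℝ |
          x ≤ ‖Matrix.toEuclideanCLM (n := Fin n) (𝕜 := ℝ) (Abar + σ • Matrix.of Z)⁻¹‖}
      ≤ (Measure.pi (fun _ : Fin n => Measure.pi (fun _ : Fin n => gaussianReal 0 1)))
        {Z : Fin n → Fin n → ℝ | smin (cur n B + Z) ≤ (x * σ)⁻¹} := measure_mono hset1
    _ ≤ (Measure.pi (fun _ : Fin n => Measure.pi (fun _ : Fin n => gaussianReal 0 1)))
        {Z : Fin n → Fin n → ℝ | smin (0 + Z) ≤ (x * σ)⁻¹} := by
        rw [pi_pi_eq_map, Measure.map_apply (cur n).continuous.measurable (hcl _),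
          Measure.map_apply (cur n).continuous.measurable (hcl _)]
        have h := measure_sm_le hn B (x * σ)⁻¹
        have e1 : (cur n) ⁻¹' {Z : Fin n → Fin n → ℝ | smin (cur n B + Z) ≤ (x * σ)⁻¹} =
            {X | sm (X + B) ≤ (x * σ)⁻¹} := by
          ext X
          simp only [Set.mem_preimage, Set.mem_ofPred_eq, sm, map_add, add_comm]
        have e2 : (cur n) ⁻¹' {Z : Fin n → Fin n → ℝ | smin (0 + Z) ≤ (x * σ)⁻¹} =
            {X | sm X ≤ (x * σ)⁻¹} := by
          ext X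
          simp only [Set.mem_preimage, Set.mem_ofPred_eq, sm, zero_add]
        rw [e1, e2]
        exact h
    _ ≤ _ := by
        apply measure_mono_ae
        filter_upwards [hdet] with Z hZ hZ2
        change smin (0 + Z) ≤ (x * σ)⁻¹ at hZ2
        change x ≤ ‖Matrix.toEuclideanCLM (n := Fin n) (𝕜 := ℝ) (σ • Matrix.of Z)⁻¹‖
        rw [zero_add] at hZ2
        rw [hinv]
        have h := le_norm_inv_of_smin_le hn Z hxs hZ hZ2
        rw [inv_mul_eq_div, le_div_iff₀ hσ]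
        exact h

end Pool.Agent.S13243
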