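import Pool.Statements.S13270
-- import your own Pool.Agent.* helpers here
import Pool.Agent.H993R2.Count

set_option autoImplicit false
open Pool Pool.MP_3394e2_pr

namespace Pool.Agent.S13270

open Finset Pool.Agent.H993R2.Ham
open scoped Classical

/-- The number of `j : Fin n` with `a ≤ j < b`. -/
theorem card_fin_Ico (n a b : ℕ) (hb : b ≤ n) :
    ((univ : Finset (Fin n)).filter (fun j => a ≤ j.val ∧ j.val < b)).card = b - a := by
  rw [← card_map Fin.valEmbedding, ← Nat.card_Ico]
  congr 1
  ext x
  simp only [mem_map, mem_filter, mem_univ, true_and, Fin.valEmbedding_apply, mem_Ico]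
  constructor
  · rintro ⟨j, hj, rfl⟩; exact hj
  · intro hx
    exact ⟨⟨x, by omega⟩, hx, rfl⟩

/-- block index -/
def blk (c : ℕ) (i : Fin (500 * c)) : ℕ :=
  if i.val < 300 * c then i.val / 4 else 300 * c + i.val / 100

/-- disjoint union of copies of `K_4` and `K_100`. -/
def G0 (c : ℕ) : SimpleGraph (Fin (500 * c)) where
  Adj i j := i ≠ j ∧ blk c i = blk c j
  symm := ⟨fun _ _ h => ⟨h.1.symm, h.2.symm⟩⟩
  loopless := ⟨fun _ h => h.1 rfl⟩

/-- the degree sequence: `300c` times `3`, `200c` times `99`. -/
def dg (c : ℕ) (i : Fin (500 * c)) : ℕ := if i.val < 300 * c then 3 else 99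

theorem G0_deg (c : ℕ) (i : Fin (500 * c)) : ((G0 c).neighborSet i).ncard = dg c i := by
  rw [ncard_nbr]
  have h1 : (univ.filter (fun v => (G0 c).Adj i v)) =
      (univ.filter (fun v => blk c i = blk c v)).erase i := by
    ext v
    simp only [mem_filter, mem_univ, true_and, mem_erase]
    show (i ≠ v ∧ blk c i = blk c v) ↔ _
    constructor
    · rintro ⟨h, h'⟩; exact ⟨h.symm, h'⟩
    · rintro ⟨h, h'⟩; exact ⟨h.symm, h'⟩
  rw [h1, card_erase_of_mem (by simp)]
  have hi := i.isLt
  unfold dg
  split_ifs with h
  · have h2 : (univ.filter (fun v => blk c i = blk c v)) =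
        univ.filter (fun v : Fin (500 * c) => 4 * (i.val / 4) ≤ v.val ∧ v.val < 4 * (i.val / 4) + 4) := by
      ext v
      simp only [mem_filter, mem_univ, true_and]
      have hv := v.isLt
      unfold blk
      rw [if_pos h]
      split_ifs with h' <;> omega
    rw [h2, card_fin_Ico _ _ _ (by omega)]
    omega
  · have h2 : (univ.filter (fun v => blk c i = blk c v)) =
        univ.filter (fun v : Fin (500 * c) => 100 * (i.val / 100) ≤ v.val ∧
          v.val < 100 * (i.val / 100) + 100) := by
      ext v
      simp only [mem_filter, mem_univ, true_and]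
      have hv := v.isLt
      unfold blk
      rw [if_neg h]
      split_ifs with h' <;> omega
    rw [h2, card_fin_Ico _ _ _ (by omega)]
    omega

theorem half (c : ℕ) (hc : 1 ≤ c) :
    2 * ((grs (dg c)).filter (fun G => G.IsHamiltonian)).card ≤ (grs (dg c)).card ∧
      0 < (grs (dg c)).card := by
  have hpos : 0 < (grs (dg c)).card := by
    rw [card_pos]
    exact ⟨G0 c, mem_grs.mpr (G0_deg c)⟩
  refine ⟨?_, hpos⟩
  set L : Finset (Fin (500 * c)) := univ.filter (fun j => 0 ≤ j.val ∧ j.val < 300 * c) with hLdef
  set H : Finset (Fin (500 * c)) := univ.filter (fun j => 300 * c ≤ j.val ∧ j.val < 500 * c)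
    with hHdef
  have hLc : L.card = 300 * c := by
    rw [hLdef, card_fin_Ico _ _ _ (by omega)]; omega
  have hHc : H.card = 200 * c := by
    rw [hHdef, card_fin_Ico _ _ _ (by omega)]; omega
  have h := main_count (dg c) L H 99 (by rw [Fintype.card_fin]; omega)
    (by
      rw [disjoint_left]
      intro v hv hv'
      simp only [hLdef, hHdef, mem_filter, mem_univ, true_and] at hv hv'
      omega)
    (by
      intro v
      simp only [hLdef, hHdef, mem_filter, mem_univ, true_and]
      have := v.isLt
      omega)
    (by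
      intro u hu
      simp only [hLdef, mem_filter, mem_univ, true_and] at hu
      unfold dg
      rw [if_pos (by omega)])
    (by
      intro u hu
      simp only [hHdef, mem_filter, mem_univ, true_and] at hu
      unfold dg
      rw [if_neg (by omega)])
    (100 * c) (18300 * c) (by omega) (by omega)
  rw [hLc] at h
  have h2 : 0 < c * c := by positivity
  have h3 : ((grs (dg c)).filter (fun G => G.IsHamiltonian)).card * 1830000 * (c * c) ≤
      (grs (dg c)).card * 810000 * (c * c) := by
    calc _ = ((grs (dg c)).filter (fun G => G.IsHamiltonian)).card * (100 * c * (18300 * c)) := by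
          ring
      _ ≤ _ := h
      _ = _ := by ring
  have h4 := Nat.le_of_mul_le_mul_right h3 h2
  omega

/-- The negation of the preceding statement: For each fixed D and ε>0, for all large n and every degree sequence on n vertices with entries between 3 and D, at least a 1−ε fraction of simple graphs with exactly that degree sequence are Hamiltonian. -/
theorem result :
    ¬ (∀ D : ℕ, ∀ ε : ℝ, 0 < ε → ∃ N : ℕ, ∀ n : ℕ, N ≤ n → ∀ d : Fin n → ℕ,
      (∀ i, 3 ≤ d i ∧ d i ≤ D) →
      (1 - ε) * (({G : SimpleGraph (Fin n) | ∀ v, Nat.card (G.neighborSet v) = d v}.ncard : ℕ) : ℝ)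
        ≤ (({G : SimpleGraph (Fin n) |
              (∀ v, Nat.card (G.neighborSet v) = d v) ∧ G.IsHamiltonian}.ncard : ℕ) : ℝ)) := by
  intro hall
  obtain ⟨N, hN⟩ := hall 99 (1 / 4) (by norm_num)
  set c : ℕ := N + 1 with hc
  have h := hN (500 * c) (by omega) (dg c) (by
    intro i
    unfold dg
    split_ifs <;> omega)
  obtain ⟨h1, h2⟩ := half c (by omega)
  have e1 : ({G : SimpleGraph (Fin (500 * c)) | ∀ v, Nat.card (G.neighborSet v) = dg c v}.ncard : ℕ)
      = (grs (dg c)).card := by
    have e : {G : SimpleGraph (Fin (500 * c)) | ∀ v, Nat.card (G.neighborSet v) = dg c v} =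
        (↑(grs (dg c)) : Set (SimpleGraph (Fin (500 * c)))) := by
      ext G
      rw [mem_coe, mem_grs]
      exact Iff.rfl
    rw [e, Set.ncard_coe_finset]
  have e2 : ({G : SimpleGraph (Fin (500 * c)) |
      (∀ v, Nat.card (G.neighborSet v) = dg c v) ∧ G.IsHamiltonian}.ncard : ℕ)
      = ((grs (dg c)).filter (fun G => G.IsHamiltonian)).card := by
    have e : {G : SimpleGraph (Fin (500 * c)) |
        (∀ v, Nat.card (G.neighborSet v) = dg c v) ∧ G.IsHamiltonian} =
        (↑((grs (dg c)).filter (fun G => G.IsHamiltonian)) :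
          Set (SimpleGraph (Fin (500 * c)))) := by
      ext G
      rw [mem_coe, mem_filter, mem_grs]
      exact Iff.rfl
    rw [e, Set.ncard_coe_finset]
  rw [e1, e2] at h
  have h1' : 2 * (((grs (dg c)).filter (fun G => G.IsHamiltonian)).card : ℝ) ≤
      ((grs (dg c)).card : ℝ) := by exact_mod_cast h1
  have h2' : (0 : ℝ) < ((grs (dg c)).card : ℝ) := by exact_mod_cast h2
  linarith

end Pool.Agent.S13270
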