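import Pool.Statements.S13330
-- import your own Pool.Agent.* helpers here
import Pool.Agent.H624C.MA
import Pool.Agent.H624C.CO
import Pool.Agent.H624C.CM
import Pool.Agent.H624C.KI
import Pool.Agent.H624C.VI
import Pool.Agent.H624C.KL
import Pool.Agent.H624C.E1
import Pool.Agent.H624C.ST
import Pool.Agent.H624C.SM
import Pool.Agent.H624C.AA
import Pool.Agent.H624C.KA
import Pool.Agent.H624C.AL
import Pool.Agent.H624C.GO
import Pool.Agent.H624C.SU
import Pool.Agent.H624C.CN
import Pool.Agent.H624C.GA
import Pool.Agent.H624C.PP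
import Pool.Agent.H624C.MU
import Pool.Agent.H624C.PL
import Pool.Agent.H624C.EA
import Pool.Agent.H624C.LA
import Pool.Agent.H624C.TR

set_option autoImplicit false
open Pool Pool.MP_76eee7_pr

namespace Pool.Agent.S13330

/-- The negation of the preceding statement: For each k ≥ 3, over uniformly random edge orderings of K_n, the probability that every k-colourable stage of the graph process is also k-list-colourable (i.e. it stops being k-list-colourable exactly when it stops being k-colourable) tends to 1. -/
theorem result :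
    ¬ (∀ k : ℕ, 3 ≤ k →
      Filter.Tendsto
        (fun n : ℕ =>
          (Nat.card
              {σ : Fin (Nat.card (⊤ : SimpleGraph (Fin n)).edgeSet) ≃ (⊤ : SimpleGraph (Fin n)).edgeSet //
                ∀ m : ℕ, ∀ G : SimpleGraph (Fin n),
                  G = SimpleGraph.fromEdgeSet
                      {e : Sym2 (Fin n) |
                        ∃ i : Fin (Nat.card (⊤ : SimpleGraph (Fin n)).edgeSet),
                          (i : ℕ) < m ∧ (σ i).val = e} →
                  G.Colorable k →
                  ∀ L : Fin n → Finset ℕ, (∀ v, (L v).card = k) →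
                    ∃ f : Fin n → ℕ, (∀ v, f v ∈ L v) ∧ ∀ u v, G.Adj u v → f u ≠ f v} : ℝ) /
            (Nat.card
              (Fin (Nat.card (⊤ : SimpleGraph (Fin n)).edgeSet) ≃ (⊤ : SimpleGraph (Fin n)).edgeSet) : ℝ))
        Filter.atTop (nhds 1)) := by
  have hcond := Pool.Agent.H624C.S_cond_thm
  have hincl := Pool.Agent.H624C.S_incl_thm
  have hcomap := Pool.Agent.H624C.CM_thm.1
  have hlabel := Pool.Agent.H624C.CM_thm.2
  have hkill := Pool.Agent.H624C.KI_thm hlabel
  have hvisit := Pool.Agent.H624C.VI_thm hlabel
  have hkilllow := Pool.Agent.H624C.KL_thm hlabel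
  have hE1 := Pool.Agent.H624C.S_E1_thm hincl
  have hstep := Pool.Agent.H624C.S_step_thm hE1 hincl
  have hsmall := Pool.Agent.H624C.S_small_thm hcond
  have hlarge := Pool.Agent.H624C.S_large_thm
  have hA := Pool.Agent.H624C.AA_thm hstep hsmall hlarge
  have hkappa : Pool.Agent.H624C.S_kappa := Pool.Agent.H624C.kappa_of hE1 hlarge hA
  have hearly := Pool.Agent.H624C.EA_thm hincl
  have hlate := Pool.Agent.H624C.LA_thm hcond
  have halpha := Pool.Agent.H624C.AL_thm hsmall hlarge hA hkill hkilllow hearly hlate
  have hgood := Pool.Agent.H624C.GO_thm halpha hkappa hkill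
  have hsuper := Pool.Agent.H624C.SU_thm
  have hcount := Pool.Agent.H624C.CN_thm hsuper
  have hpp := Pool.Agent.H624C.PP_thm hcond hcount
  have hplant := Pool.Agent.H624C.PL_thm hcomap hpp Pool.Agent.H624C.MU_thm
  exact Pool.Agent.H624C.main_of hgood hplant Pool.Agent.H624C.GA_thm hvisit
    Pool.Agent.H624C.TR_thm

end Pool.Agent.S13330
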