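import Pool.Statements.S13358
import Pool.Agent.H979R2.Precut

set_option autoImplicit false
open Filter Topology
open Pool Pool.MP_8aef71_pr

namespace Pool.Agent.S13358

instance nz (n : ℕ) : NeZero (4 * 2 ^ n) := ⟨by positivity⟩

open Pool.Agent.H979R2.Precut in
/-- the distances in the example -/
noncomputable def dd (n k : ℕ) : ℝ :=
  ((n:ℝ) / (n + 1)) ^ k * D (4 * 2 ^ n) (2 ^ n) ((1/2 : ℝ) ^ k)

open Pool.Agent.H979R2.Precut in
lemma dd_le (n k : ℕ) : dd n k ≤ ((n:ℝ) / (n + 1)) ^ k := by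
  have h0 : (0:ℝ) ≤ (1/2 : ℝ) ^ k := by positivity
  have h1 : (1/2 : ℝ) ^ k ≤ 1 := pow_le_one₀ (by norm_num) (by norm_num)
  have h := D_le (M := 4 * 2 ^ n) (m := 2 ^ n) ((1/2 : ℝ) ^ k) h0 h1
  have h2 : (0:ℝ) ≤ (1 - (1/2 : ℝ) ^ k) ^ (2 ^ n) := pow_nonneg (by linarith) _
  have h3 : (0:ℝ) ≤ ((n:ℝ) / (n + 1)) ^ k := by positivity
  unfold dd
  calc ((n:ℝ) / (n + 1)) ^ k * D (4 * 2 ^ n) (2 ^ n) ((1/2 : ℝ) ^ k)
      ≤ ((n:ℝ) / (n + 1)) ^ k * 1 := mul_le_mul_of_nonneg_left (by linarith) h3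
    _ = _ := mul_one _

open Pool.Agent.H979R2.Precut in
lemma dd_nonneg (n k : ℕ) : 0 ≤ dd n k := by
  unfold dd D
  positivity

open Pool.Agent.H979R2.Precut in
lemma dd_le2 (n : ℕ) : dd n (2 * n) ≤ (1/2 : ℝ) ^ n := by
  have h0 : (0:ℝ) ≤ (1/2 : ℝ) ^ (2 * n) := by positivity
  have h1 : (1/2 : ℝ) ^ (2 * n) ≤ 1 := pow_le_one₀ (by norm_num) (by norm_num)
  have h := D_le (M := 4 * 2 ^ n) (m := 2 ^ n) ((1/2 : ℝ) ^ (2 * n)) h0 h1
  have h2 : (1:ℝ) - (2 ^ n : ℕ) * (1/2 : ℝ) ^ (2 * n) ≤ (1 - (1/2 : ℝ) ^ (2 * n)) ^ (2 ^ n) := by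
    have := one_add_mul_le_pow (a := -(1/2 : ℝ) ^ (2 * n)) (by linarith) (2 ^ n)
    rw [← sub_eq_add_neg] at this
    linarith
  have h3 : ((2 ^ n : ℕ) : ℝ) * (1/2 : ℝ) ^ (2 * n) = (1/2 : ℝ) ^ n := by
    push_cast
    rw [pow_mul, ← mul_pow]
    norm_num
  have h4 : ((n:ℝ) / (n + 1)) ^ (2 * n) ≤ 1 := by
    apply pow_le_one₀ (by positivity)
    rw [div_le_one (by positivity)]
    linarith
  have h5 : (0:ℝ) ≤ ((n:ℝ) / (n + 1)) ^ (2 * n) := by positivity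
  have h6 : (0:ℝ) ≤ D (4 * 2 ^ n) (2 ^ n) ((1/2 : ℝ) ^ (2 * n)) := by
    unfold D
    positivity
  unfold dd
  calc ((n:ℝ) / (n + 1)) ^ (2 * n) * D (4 * 2 ^ n) (2 ^ n) ((1/2 : ℝ) ^ (2 * n))
      ≤ 1 * D (4 * 2 ^ n) (2 ^ n) ((1/2 : ℝ) ^ (2 * n)) := mul_le_mul_of_nonneg_right h4 h6
    _ ≤ (1/2 : ℝ) ^ n := by rw [one_mul]; linarith

open Pool.Agent.H979R2.Precut in
lemma le_dd (n k : ℕ) (hk : k ≤ n) : 3 / 8 * ((n:ℝ) / (n + 1)) ^ k ≤ dd n k := by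
  have h0 : (0:ℝ) ≤ (1/2 : ℝ) ^ k := by positivity
  have h1 : (1/2 : ℝ) ^ k ≤ 1 := pow_le_one₀ (by norm_num) (by norm_num)
  have h := D_ge (M := 4 * 2 ^ n) (m := 2 ^ n) ((1/2 : ℝ) ^ k) h0 h1
  have h2 : (3:ℝ) / 4 ≤ (1 - 1 / ((4 * 2 ^ n : ℕ) : ℝ)) ^ (2 ^ n) := by
    have hx : (1:ℝ) / ((4 * 2 ^ n : ℕ) : ℝ) ≤ 1 := by
      rw [div_le_one (by positivity)]
      exact_mod_cast Nat.one_le_iff_ne_zero.2 (by positivity)
    have := one_add_mul_le_pow (a := -(1 / ((4 * 2 ^ n : ℕ) : ℝ))) (by linarith) (2 ^ n)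
    rw [← sub_eq_add_neg] at this
    have h3 : ((2 ^ n : ℕ) : ℝ) * (1 / ((4 * 2 ^ n : ℕ) : ℝ)) = 1/4 := by
      push_cast
      field_simp
    linarith
  have h3 : (1 - (1/2 : ℝ) ^ k) ^ (2 ^ n) ≤ 1 / 2 := by
    have h4 : (1 - (1/2 : ℝ) ^ k) ≤ Real.exp (-(1/2 : ℝ) ^ k) := by
      have := Real.add_one_le_exp (-(1/2 : ℝ) ^ k)
      linarith
    have h5 : (1 - (1/2 : ℝ) ^ k) ^ (2 ^ n) ≤ (Real.exp (-(1/2 : ℝ) ^ k)) ^ (2 ^ n) :=
      pow_le_pow_left₀ (by linarith) h4 _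
    rw [← Real.exp_nat_mul] at h5
    have h6 : ((2 ^ n : ℕ) : ℝ) * (-(1/2 : ℝ) ^ k) ≤ -1 := by
      have h7 : (1:ℝ) ≤ 2 ^ n * (1/2 : ℝ) ^ k := by
        have h8 : (2:ℝ) ^ k * (1/2 : ℝ) ^ k = 1 := by
          rw [← mul_pow]; norm_num
        have h9 : (2:ℝ) ^ k ≤ 2 ^ n := pow_le_pow_right₀ (by norm_num) hk
        nlinarith
      push_cast
      linarith
    have h7 : Real.exp (((2 ^ n : ℕ) : ℝ) * (-(1/2 : ℝ) ^ k)) ≤ Real.exp (-1) := Real.exp_le_exp.2 h6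
    have h8 : Real.exp (-1) ≤ 1 / 2 := by
      rw [Real.exp_neg, ← one_div]
      apply one_div_le_one_div_of_le (by norm_num)
      have := Real.add_one_le_exp (1:ℝ)
      linarith
    linarith
  have h4 : (3:ℝ)/8 ≤ D (4 * 2 ^ n) (2 ^ n) ((1/2 : ℝ) ^ k) := by
    have h5 : (3:ℝ)/4 * (1/2) ≤ (1 - 1 / ((4 * 2 ^ n : ℕ) : ℝ)) ^ (2 ^ n) * (1 - (1 - (1/2 : ℝ) ^ k) ^ (2 ^ n)) :=
      mul_le_mul h2 (by linarith) (by norm_num) (by linarith)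
    linarith
  unfold dd
  rw [mul_comm]
  exact mul_le_mul_of_nonneg_left h4 (by positivity)

lemma ratio_ge (n : ℕ) : (1:ℝ)/3 ≤ ((n:ℝ) / (n + 1)) ^ n := by
  rcases Nat.eq_zero_or_pos n with h | h
  · subst h; norm_num
  · have hn : (0:ℝ) < n := by exact_mod_cast h
    have h1 : ((n:ℝ) + 1) / n ≤ Real.exp (1 / n) := by
      have := Real.add_one_le_exp ((1:ℝ) / n)
      have h2 : ((n:ℝ) + 1) / n = 1 / n + 1 := by field_simp; ring
      rw [h2]; exact this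
    have h3 : (((n:ℝ) + 1) / n) ^ n ≤ Real.exp 1 := by
      calc (((n:ℝ) + 1) / n) ^ n ≤ (Real.exp (1 / n)) ^ n := pow_le_pow_left₀ (by positivity) h1 _
        _ = Real.exp 1 := by
          rw [← Real.exp_nat_mul]
          congr 1
          field_simp
    have h4 : Real.exp 1 ≤ 3 := by
      have := Real.exp_one_lt_d9
      linarith
    have h5 : ((n:ℝ) / (n + 1)) ^ n = 1 / (((n:ℝ) + 1) / n) ^ n := by
      rw [← inv_div, inv_pow, one_div]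
    rw [h5]
    exact one_div_le_one_div_of_le (by positivity) (by linarith)

lemma ratio_le (n : ℕ) (hn : 1 ≤ n) : ((n:ℝ) / (n + 1)) ^ n ≤ 1/2 := by
  have hn' : (0:ℝ) < n := by exact_mod_cast hn
  have h1 : (2:ℝ) ≤ (((n:ℝ) + 1) / n) ^ n := by
    have := one_add_mul_le_pow (a := (1:ℝ)/n) (by have : (0:ℝ) ≤ 1/n := by positivity
                                                  linarith) n
    have h2 : (1:ℝ) + 1 / n = ((n:ℝ) + 1) / n := by field_simp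
    rw [h2] at this
    have h3 : (n:ℝ) * (1 / n) = 1 := by field_simp
    linarith
  have h5 : ((n:ℝ) / (n + 1)) ^ n = 1 / (((n:ℝ) + 1) / n) ^ n := by
    rw [← inv_div, inv_pow, one_div]
  rw [h5]
  exact one_div_le_one_div_of_le (by norm_num) h1

open Pool.Agent.H979R2.Precut in
/-- The negation of the preceding statement: Every sequence of random walks on finite groups with a precut-off (distance to uniform →0 at b·tₙ but eventually ≥ε at a·tₙ, tₙ→∞) has a cut-off: some sₙ→∞ with distance →0 at (1+ε)sₙ and →1 at (1−ε)sₙ for all ε in (0,1). -/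
theorem result :
    ¬ (∀ (G : ℕ → Type) [∀ n, Group (G n)] [∀ n, Fintype (G n)] [∀ n, DecidableEq (G n)]
    (p : ∀ n, G n → ℝ) (d : ℕ → ℕ → ℝ),
    (∀ n g, 0 ≤ p n g) → (∀ n, ∑ g, p n g = 1) →
    (∀ n k, d n k = (1 / 2 : ℝ) * ∑ g : G n,
        |(∑ f ∈ (Finset.univ : Finset (Fin k → G n)).filter (fun f => (List.ofFn f).prod = g),
            ∏ i, p n (f i)) - 1 / (Fintype.card (G n) : ℝ)|) →
    (∃ t : ℕ → ℝ, Tendsto t atTop atTop ∧ ∃ a b : ℝ, 0 < a ∧ a < b ∧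
        Tendsto (fun n => d n ⌊b * t n⌋₊) atTop (𝓝 0) ∧
        ∃ ε : ℝ, 0 < ε ∧ ∀ᶠ n in atTop, ε ≤ d n ⌊a * t n⌋₊) →
    ∃ s : ℕ → ℝ, Tendsto s atTop atTop ∧ ∀ ε : ℝ, 0 < ε → ε < 1 →
        Tendsto (fun n => d n ⌊(1 + ε) * s n⌋₊) atTop (𝓝 0) ∧
        Tendsto (fun n => d n ⌊(1 - ε) * s n⌋₊) atTop (𝓝 1)) := by
  intro H
  have hr0 : ∀ n : ℕ, (0:ℝ) ≤ (n:ℝ) / (n + 1) := fun n => by positivity
  have hr1 : ∀ n : ℕ, (n:ℝ) / (n + 1) ≤ 1 := fun n => by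
    rw [div_le_one (by positivity)]
    linarith
  have H2 := H (fun n => Multiplicative (Fin (2 ^ n) → ZMod (4 * 2 ^ n)))
    (fun n => P (4 * 2 ^ n) (2 ^ n) ((n:ℝ) / (n + 1)) (1/2)) dd
    (fun n g => P_nonneg _ _ (hr0 n) (hr1 n) (by norm_num) (by norm_num) g)
    (fun n => P_sum _ _)
    (fun n k => (dist_P (M := 4 * 2 ^ n) (m := 2 ^ n) ((n:ℝ) / (n + 1)) (1/2) (hr0 n) k).symm)
    ⟨fun n => (n:ℝ), tendsto_natCast_atTop_atTop, 1, 2, by norm_num, by norm_num, ?_, 1/8,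
      by norm_num, ?_⟩
  · obtain ⟨s, hs, hcut⟩ := H2
    obtain ⟨hup, hlow⟩ := hcut (1/2) (by norm_num) (by norm_num)
    -- eventually: s large, d at lower point > 15/16, d at upper point small
    have e1 : ∀ᶠ n in atTop, (8:ℝ) ≤ s n := hs.eventually_ge_atTop 8
    have e2 : ∀ᶠ n : ℕ in atTop, (15:ℝ)/16 < dd n ⌊(1 - 1/2) * s n⌋₊ :=
      hlow.eventually (lt_mem_nhds (by norm_num))
    have e3 : ∀ᶠ n : ℕ in atTop, dd n ⌊(1 + 1/2) * s n⌋₊ < 1/8 :=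
      hup.eventually (gt_mem_nhds (by norm_num))
    obtain ⟨n, h1, h2, h3, hn⟩ := (e1.and (e2.and (e3.and (eventually_ge_atTop 1)))).exists
    set r : ℝ := (n:ℝ) / (n + 1) with hr
    set k := ⌊(1 - 1/2) * s n⌋₊ with hk
    set K := ⌊(1 + 1/2) * s n⌋₊ with hK
    have hk1 : (15:ℝ)/16 < r ^ k := lt_of_lt_of_le h2 (dd_le n k)
    have hKk : K ≤ 4 * k := by
      have hk2 : (1 - 1/2) * s n < k + 1 := Nat.lt_floor_add_one _
      have hK2 : (K:ℝ) ≤ (1 + 1/2) * s n := Nat.floor_le (by linarith)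
      have hk3 : (4:ℝ) ≤ k := by
        have : 4 ≤ k := Nat.le_floor (by push_cast; linarith)
        exact_mod_cast this
      have : (K:ℝ) ≤ 4 * k := by linarith
      exact_mod_cast this
    have hrK : (3:ℝ)/4 ≤ r ^ K := by
      have h5 : r ^ (4 * k) ≤ r ^ K := pow_le_pow_of_le_one (hr0 n) (hr1 n) hKk
      have h6 : ((15:ℝ)/16) ^ 4 ≤ (r ^ k) ^ 4 := pow_le_pow_left₀ (by norm_num) hk1.le 4
      rw [← pow_mul, mul_comm k 4] at h6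
      have h7 : (3:ℝ)/4 ≤ ((15:ℝ)/16) ^ 4 := by norm_num
      linarith
    rcases le_or_gt K n with h4 | h4
    · have h5 := le_dd n K h4
      linarith
    · have h5 : r ^ K ≤ r ^ n := pow_le_pow_of_le_one (hr0 n) (hr1 n) h4.le
      have h6 := ratio_le n hn
      linarith
  · have h1 : ∀ n : ℕ, ⌊(2:ℝ) * (n:ℝ)⌋₊ = 2 * n := by
      intro n
      have : (2:ℝ) * (n:ℝ) = ((2 * n : ℕ) : ℝ) := by push_cast; ring
      rw [this, Nat.floor_natCast]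
    simp_rw [h1]
    apply squeeze_zero (fun n => dd_nonneg n _) (fun n => dd_le2 n)
    exact tendsto_pow_atTop_nhds_zero_of_lt_one (by norm_num) (by norm_num)
  · filter_upwards with n
    rw [one_mul, Nat.floor_natCast]
    have h1 := le_dd n n le_rfl
    have h2 := ratio_ge n
    linarith

end Pool.Agent.S13358
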