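import Pool.Statements.S13361
import Pool.Agent.H978R2.Grp
-- import your own Pool.Agent.* helpers here

set_option autoImplicit false
open Pool Pool.MP_8ef850_pr

namespace Pool.Agent.S13361

open Pool.Agent.H978R2 in
theorem open_eq {G : Type} [Group G] (S : Finset G) (ω : Sym2 G → Bool) :
    SimpleGraph.fromEdgeSet {e : Sym2 G |
              e ∈ (SimpleGraph.fromRel (fun x y : G => ∃ s ∈ S, y = x * s)).edgeSet ∧
                ω e = true} = openG (cay (S : Set G)) ω := by
  ext x y
  rw [SimpleGraph.fromEdgeSet_adj]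
  constructor
  · rintro ⟨⟨h1, h2⟩, _⟩
    exact ⟨h1, h2⟩
  · rintro ⟨h1, h2⟩
    exact ⟨⟨h1, h2⟩, h1.ne⟩

open Pool.Agent.H978R2 in
theorem closure_SG {H : Type} [Group H] (S : Set H) (h : Subgroup.closure S = ⊤) :
    Subgroup.closure (SG S) = ⊤ := by
  rw [eq_top_iff]
  intro x _
  induction x using Monoid.CoprodI.induction_on with
  | one => exact one_mem _
  | of i m =>
    have h1 : m ∈ Subgroup.closure S := by rw [h]; trivial
    have h2 : ii i m ∈ (Subgroup.closure S).map (ii i) := ⟨m, h1, rfl⟩
    rw [MonoidHom.map_closure] at h2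
    refine Subgroup.closure_mono ?_ h2
    rintro _ ⟨s, hs, rfl⟩
    exact ⟨i, s, hs, rfl⟩
  | mul x y hx hy => exact mul_mem (hx trivial) (hy trivial)

/-- There is a group with a finite generating set whose Cayley graph has a transcendental bond-percolation threshold p_c, the supremum of p in [0,1] at which the identity's open cluster is almost surely finite. -/
theorem result :
    ∃ (G : Type) (_ : Group G) (S : Finset G), Subgroup.closure (S : Set G) = ⊤ ∧
      Transcendental ℚ (sSup {p : ℝ | ∃ (q : NNReal) (hq : q ≤ 1), (q : ℝ) = p ∧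
        MeasureTheory.Measure.infinitePi
            (fun _ : Sym2 G => (PMF.bernoulli q hq).toMeasure)
          {ω : Sym2 G → Bool | Set.Infinite {g : G |
            (SimpleGraph.fromEdgeSet {e : Sym2 G |
              e ∈ (SimpleGraph.fromRel (fun x y : G => ∃ s ∈ S, y = x * s)).edgeSet ∧
                ω e = true}).Reachable 1 g}} = 0}) := by
  obtain ⟨B, hB⟩ := Pool.Agent.H978R2.exists_transcendental
  have hfin : (Pool.Agent.H978R2.SG (Pool.Agent.H978R2.gS B)).Finite := by
    have : Pool.Agent.H978R2.SG (Pool.Agent.H978R2.gS B) =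
        ⋃ i : Bool, (Pool.Agent.H978R2.ii i) '' (Pool.Agent.H978R2.gS B) := by
      ext x
      rw [Set.mem_iUnion]
      constructor
      · rintro ⟨i, s, hs, rfl⟩
        exact ⟨i, s, hs, rfl⟩
      · rintro ⟨i, s, hs, rfl⟩
        exact ⟨i, s, hs, rfl⟩
    rw [this]
    refine Set.finite_iUnion fun i => Set.Finite.image _ ?_
    unfold Pool.Agent.H978R2.gS
    exact Set.toFinite _
  refine ⟨Pool.Agent.H978R2.FP (Pool.Agent.H978R2.HB B), inferInstance, hfin.toFinset, ?_, ?_⟩
  · rw [hfin.coe_toFinset]
    exact closure_SG _ (Pool.Agent.H978R2.gS_gen B)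
  · have e : {p : ℝ | ∃ (q : NNReal) (hq : q ≤ 1), (q : ℝ) = p ∧
        MeasureTheory.Measure.infinitePi
            (fun _ : Sym2 (Pool.Agent.H978R2.FP (Pool.Agent.H978R2.HB B)) =>
              (PMF.bernoulli q hq).toMeasure)
          {ω : Sym2 (Pool.Agent.H978R2.FP (Pool.Agent.H978R2.HB B)) → Bool | Set.Infinite {g |
            (SimpleGraph.fromEdgeSet {e : Sym2 (Pool.Agent.H978R2.FP (Pool.Agent.H978R2.HB B)) |
              e ∈ (SimpleGraph.fromRel (fun x y : Pool.Agent.H978R2.FP (Pool.Agent.H978R2.HB B) =>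
                ∃ s ∈ hfin.toFinset, y = x * s)).edgeSet ∧
                ω e = true}).Reachable 1 g}} = 0} =
        Pool.Agent.H978R2.pcSet (Pool.Agent.H978R2.gS B) := by
      simp only [open_eq, hfin.coe_toFinset]
      rfl
    rw [e]
    exact hB

end Pool.Agent.S13361
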