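import Pool.Statements.S13380
-- import your own Pool.Agent.* helpers here
import Pool.Agent.H993R2.Kac.Final

set_option autoImplicit false
open MeasureTheory ProbabilityTheory Filter Topology
open Pool Pool.MP_9bdf03_pr

namespace Pool.Agent.S13380

/-- The negation of the preceding statement: For an iid standard normal sequence ξ_i, almost surely the number of real roots of ξ_0 + ξ_1 x + … + ξ_n x^n, divided by log n, tends to 2/π as n → ∞. -/
theorem result :
    ¬ (∀ (Ω : Type) [MeasureSpace Ω] [IsProbabilityMeasure (volume : Measure Ω)]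
      (ξ : ℕ → Ω → ℝ),
      (∀ i, Measurable (ξ i)) →
      iIndepFun ξ (volume : Measure Ω) →
      (∀ i, Measure.map (ξ i) (volume : Measure Ω) = gaussianReal 0 1) →
      ∀ᵐ ω ∂(volume : Measure Ω),
        Tendsto
          (fun n : ℕ =>
            ((∑ i ∈ Finset.range (n + 1),
                Polynomial.C (ξ i ω) * Polynomial.X ^ i).roots.card : ℝ)
              / Real.log n)
          atTop (𝓝 (2 / Real.pi))) := by
  intro hall
  have hstd := Pool.Agent.H993R2.Kac.std_infinitePi
  letI : MeasureSpace (ℕ → ℝ) := ⟨Measure.infinitePi (fun _ : ℕ => gaussianReal 0 1)⟩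
  haveI : IsProbabilityMeasure (volume : Measure (ℕ → ℝ)) := hstd.prob
  exact Pool.Agent.H993R2.Kac.not_as hstd
    (hall (ℕ → ℝ) (fun i ω => ω i) hstd.meas hstd.indep hstd.law)

end Pool.Agent.S13380
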