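import Pool.Statements.S13435
import Pool.Agent.H999R2.KSat.BA
import Pool.Agent.H999R2.KSat.SA
import Pool.Agent.H999R2.KSat.SM
import Pool.Agent.H999R2.KSat.CV5
import Pool.Agent.H999R2.KSat.TL3

set_option autoImplicit false
open Pool Pool.MP_c7d449_pr

namespace Pool.Agent.S13435

open Pool.Agent.H999R2.KSat in
/-- For every k ≥ 3 there is a real r* such that a uniformly random k-CNF with ⌊rn⌋ clauses on n variables is satisfiable with probability tending to 1 when r < r*, and tending to 0 when r > r*. -/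
theorem result :
    ∀ k : ℕ, 3 ≤ k → ∃ rstar : ℝ,
      (∀ r : ℝ, r < rstar → Filter.Tendsto (fun n : ℕ =>
        ((Finset.univ.filter (fun F : Fin ⌊r * (n : ℝ)⌋₊ → Fin n → Option Bool =>
            (∀ j, (Finset.univ.filter (fun i => F j i ≠ none)).card = k) ∧
            ∃ a : Fin n → Bool, ∀ j, ∃ i, F j i = some (a i))).card : ℝ) /
        ((Finset.univ.filter (fun F : Fin ⌊r * (n : ℝ)⌋₊ → Fin n → Option Bool =>
            ∀ j, (Finset.univ.filter (fun i => F j i ≠ none)).card = k)).card : ℝ))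
        Filter.atTop (nhds 1)) ∧
      (∀ r : ℝ, rstar < r → Filter.Tendsto (fun n : ℕ =>
        ((Finset.univ.filter (fun F : Fin ⌊r * (n : ℝ)⌋₊ → Fin n → Option Bool =>
            (∀ j, (Finset.univ.filter (fun i => F j i ≠ none)).card = k) ∧
            ∃ a : Fin n → Bool, ∀ j, ∃ i, F j i = some (a i))).card : ℝ) /
        ((Finset.univ.filter (fun F : Fin ⌊r * (n : ℝ)⌋₊ → Fin n → Option Bool =>
            ∀ j, (Finset.univ.filter (fun i => F j i ≠ none)).card = k)).card : ℝ))
        Filter.atTop (nhds 0)) := by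
  intro k hk
  obtain ⟨κ, rfl⟩ : ∃ κ, k = κ + 1 := ⟨k - 1, by omega⟩
  have hyp : Hyp κ (fun n m => ps n (κ + 1) m) :=
    { h0 := fun n => ps_zero n _
      hnn := fun n m => ps_nonneg n _ m
      hanti := fun n m => ps_succ_le n _ m
      hfm := ⟨1 - 1 / 2 ^ (κ + 1), by
        have : (1 : ℝ) / 2 ^ (κ + 1) ≤ 1 := by
          rw [div_le_one (by positivity)]; exact one_le_pow₀ (by norm_num)
        linarith, by
        have : (0 : ℝ) < 1 / 2 ^ (κ + 1) := by positivity
        linarith, fun n m hn => first_moment n _ m hn⟩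
      hsharp := fun Λ => sharp' κ Λ
      hone := fun n m hn => super_one n _ m hn (by omega)
      htwo := fun N1 N2 m m1 m2 d h1 h2 hd hdm hm1 hm2 =>
        super_two N1 N2 _ m m1 m2 d h1 h2 (by omega) hd hdm hm1 hm2 }
  obtain ⟨rs, h1, h0⟩ := hyp.convergence (by omega)
  exact ⟨rs, transfer (κ + 1) rs h1 h0⟩

end Pool.Agent.S13435
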