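import Pool.Statements.S13470
import Pool.Agent.H990R2.NWMain

set_option autoImplicit false
open Classical
open Pool Pool.MP_e18aa1_pr

namespace Pool.Agent.S13470

/-- The negation of the preceding statement: For each C≥1 there is K such that on any connected finite graph, if positive node weights change by factor ≤C, the lazy weighted walk's 1/4-TV mixing time grows by at most factor K. -/
theorem result :
    ¬ (∀ C : ℝ, 1 ≤ C → ∃ K : ℝ, 0 < K ∧
    ∀ (n : ℕ) (G : SimpleGraph (Fin n)), G.Connected →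
    ∀ (W W' : Fin n → ℝ), (∀ v, 0 < W v) → (∀ v, W v ≤ C * W' v ∧ W' v ≤ C * W v) →
    ∀ t : ℕ,
      (∀ x : Fin n, (1/2 : ℝ) * ∑ y : Fin n,
        |((Matrix.of (fun u v : Fin n => (if u = v then (1/2 : ℝ) else 0) +
            (if G.Adj u v then W v / (2 * (∑ w : Fin n, if G.Adj u w then W w else 0)) else 0))) ^ t) x y
          - W y * (∑ w : Fin n, if G.Adj y w then W w else 0) /
              (∑ z : Fin n, W z * (∑ w : Fin n, if G.Adj z w then W w else 0))| ≤ 1/4) →
      (∀ x : Fin n, (1/2 : ℝ) * ∑ y : Fin n,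
        |((Matrix.of (fun u v : Fin n => (if u = v then (1/2 : ℝ) else 0) +
            (if G.Adj u v then W' v / (2 * (∑ w : Fin n, if G.Adj u w then W' w else 0)) else 0))) ^ ⌈K * (t : ℝ)⌉₊) x y
          - W' y * (∑ w : Fin n, if G.Adj y w then W' w else 0) /
              (∑ z : Fin n, W' z * (∑ w : Fin n, if G.Adj z w then W' w else 0))| ≤ 1/4)) := by
  intro hmain
  obtain ⟨K, hK, h⟩ := hmain 3 (by norm_num)
  obtain ⟨L, k, s, t, x, hs, hA, hB⟩ := H990R2.NW.exists_bad K hK
  let e : H990R2.NW.VV L k ≃ Fin (Fintype.card (H990R2.NW.VV L k)) := Fintype.equivFin _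
  have hconn : ((H990R2.NW.GG L k).comap e.symm).Connected := by
    exact (SimpleGraph.Iso.comap e.symm (H990R2.NW.GG L k)).connected_iff.mpr H990R2.NW.conn
  have hx := h _ ((H990R2.NW.GG L k).comap e.symm) hconn (H990R2.NW.WW L k 1 s ∘ e.symm)
    (H990R2.NW.WW L k 3 s ∘ e.symm) (fun v => H990R2.NW.WW_pos one_pos hs _)
    (fun v => by
      have hsp : 0 < s ^ H990R2.NW.dep (e.symm v) := pow_pos hs _
      have hw : ∀ w : H990R2.NW.VV L k, H990R2.NW.wt 1 w ≤ 3 * H990R2.NW.wt 3 w ∧
          H990R2.NW.wt 3 w ≤ 3 * H990R2.NW.wt 1 w := by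
        intro w
        rcases w with p | b
        · simp only [H990R2.NW.wt]; split_ifs <;> norm_num
        · simp only [H990R2.NW.wt]; norm_num
      obtain ⟨w1, w2⟩ := hw (e.symm v)
      simp only [Function.comp_apply, H990R2.NW.WW]
      constructor
      · calc _ ≤ (3 * H990R2.NW.wt 3 (e.symm v)) * s ^ H990R2.NW.dep (e.symm v) := by gcongr
          _ = _ := by ring
      · calc _ ≤ (3 * H990R2.NW.wt 1 (e.symm v)) * s ^ H990R2.NW.dep (e.symm v) := by gcongr
          _ = _ := by ring)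
    t
    (fun y => by
      have h1 := hA (e.symm y)
      rw [← H990R2.NW.dist_map e (H990R2.NW.GG L k) (H990R2.NW.WW L k 1 s) t y] at h1
      exact h1)
    (e x)
  have h2 : H990R2.NW.dist1 ((H990R2.NW.GG L k).comap e.symm) (H990R2.NW.WW L k 3 s ∘ e.symm)
      ⌈K * (t : ℝ)⌉₊ (e x) ≤ 1 / 4 := hx
  rw [H990R2.NW.dist_map, Equiv.symm_apply_apply] at h2
  linarith

end Pool.Agent.S13470
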